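import Pool.Agent.Lib.MP_9cc147_pr.U.Defs

/-! Summability and tail bounds (copied from the monotone case to keep the closure small). -/

open Finset Filter
open scoped ENNReal Topology

namespace Pool.Agent.Lib.MP_9cc147_pr.AllU.F.Kit

variable {n : ℕ}

lemma wt_bound {u : ℤ → ℝ} (hg : Grow u) {p : ℝ} (hp : 0 ≤ p) :
    ∃ C, 0 ≤ C ∧ ∀ m : Vx n → ℤ, wt u m ≤ C * (1 + ‖rl m‖) ^ (-p) := by
  obtain ⟨C, hC⟩ := hg p hp
  refine ⟨Real.exp ((Ed n).card * C) * (1 + 2 * n) ^ p, by positivity, fun m => ?_⟩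
  unfold wt
  split_ifs with hm
  swap
  · positivity
  set S := ∑ e ∈ Ed n, Real.log (1 + |((m e.1 - m e.2 : ℤ) : ℝ)|) with hS
  have l0 : ∀ e ∈ Ed n, 0 ≤ Real.log (1 + |((m e.1 - m e.2 : ℤ) : ℝ)|) := fun e _ =>
    Real.log_nonneg (by linarith [abs_nonneg ((m e.1 - m e.2 : ℤ) : ℝ)])
  have hS0 : 1 ≤ Real.exp S := Real.one_le_exp (sum_nonneg l0)
  have a1 : ∀ e ∈ Ed n, ‖rl m e.1 - rl m e.2‖ ≤ Real.exp S := by
    intro e he
    have b1 := Real.exp_le_exp.2 (single_le_sum l0 he)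
    rw [Real.exp_log (by positivity), ← hS] at b1
    push_cast at b1
    rw [Real.norm_eq_abs]
    unfold rl
    linarith
  have a2 : 1 + ‖rl m‖ ≤ (1 + 2 * n) * Real.exp S := by
    have : ‖rl m‖ ≤ 2 * n * Real.exp S := by
      refine (pi_norm_le_iff_of_nonneg (by positivity)).2 fun x => ?_
      have b1 := path (rl m) (vz n) n (by positivity) (fun e he _ _ => a1 e he) x (ds_le _ _)
      have b2 : (ds (vz n) x : ℝ) ≤ n := by exact_mod_cast ds_le _ _
      have b3 : 2 * (ds (vz n) x : ℝ) * Real.exp S ≤ 2 * n * Real.exp S := by gcongr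
      have b4 : rl m (vz n) = 0 := by simp [rl, hm]
      rw [b4, sub_zero] at b1
      linarith
    nlinarith
  have a3 : p * S - (Ed n).card * C ≤ ∑ e ∈ Ed n, u (m e.1 - m e.2) := by
    rw [hS, mul_sum, ← nsmul_eq_mul, ← sum_const, ← sum_sub_distrib]
    exact sum_le_sum fun e _ => hC _
  have a4 : (1 + ‖rl m‖) ^ p ≤ (1 + 2 * n) ^ p * Real.exp (p * S) := by
    rw [mul_comm p, Real.exp_mul, ← Real.mul_rpow (by positivity) (by positivity)]
    exact Real.rpow_le_rpow (by positivity) a2 hp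
  rw [Real.rpow_neg (by positivity), ← div_eq_mul_inv, le_div_iff₀ (by positivity)]
  refine (mul_le_mul (Real.exp_le_exp.2 (neg_le_neg a3)) a4 (by positivity) (by positivity)).trans
    (le_of_eq ?_)
  rw [mul_comm _ (Real.exp (p * S)), ← mul_assoc, ← Real.exp_add]
  congr 2; ring

lemma wt_sum {u : ℤ → ℝ} (hg : Grow u) : Summable (wt (n := n) u) ∧
    Summable fun m : Vx n → ℤ => (m (vl n) : ℝ) ^ 2 * wt u m := by
  have hp : 0 ≤ pp n := by unfold pp; positivity
  obtain ⟨C, hC0, hC⟩ := wt_bound (n := n) hg (p := pp n + 2) (by positivity)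
  have w0 := wt_nonneg (n := n) u
  have s : Summable fun m : Vx n → ℤ => (1 + (m (vl n) : ℝ) ^ 2) * wt u m := by
    refine Summable.of_nonneg_of_le (fun m => mul_nonneg (by positivity) (w0 m))
      (fun m => ?_) (summable_maj.mul_left C)
    have h3 : |(m (vl n) : ℝ)| ≤ ‖rl m‖ := norm_le_pi_norm (rl m) (vl n)
    have h4 : 1 + (m (vl n) : ℝ) ^ 2 ≤ (1 + ‖rl m‖) ^ (2 : ℝ) := by
      rw [Real.rpow_two, ← sq_abs]
      nlinarith [abs_nonneg (m (vl n) : ℝ)]
    refine (mul_le_mul h4 (hC m) (w0 m) (by positivity)).trans (le_of_eq ?_)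
    rw [mul_left_comm, ← Real.rpow_add (by positivity)]
    congr 2; ring
  exact ⟨Summable.of_nonneg_of_le w0
    (fun m => le_mul_of_one_le_left (w0 m) (by nlinarith [sq_nonneg (m (vl n) : ℝ)])) s,
    Summable.of_nonneg_of_le (fun m => mul_nonneg (sq_nonneg _) (w0 m))
      (fun m => by nlinarith [w0 m]) s⟩

lemma grow_real {U : ℝ → ℝ} (hU : Continuous U) {α : ℝ} (hα : 0 < α)
    (ht : Tendsto (fun x => U x / x ^ α) atTop atTop) :
    ∃ C, 0 < C ∧ ∀ x, 0 ≤ x → Real.exp (-U x) ≤ C / (1 + x) ^ 2 := by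
  have h1 : ∀ᶠ x : ℝ in atTop, 2 * Real.log (1 + x) ≤ U x := by
    have a2 := (isLittleO_log_rpow_atTop hα).bound (c := 1 / 4) (by positivity)
    filter_upwards [ht.eventually_ge_atTop 1, a2, eventually_ge_atTop 2] with x b1 b2 b3
    rw [one_le_div (by positivity)] at b1
    have b4 : 0 ≤ Real.log x := Real.log_nonneg (by linarith)
    rw [Real.norm_of_nonneg b4, Real.norm_of_nonneg (by positivity)] at b2
    have b5 : Real.log (1 + x) ≤ 2 * Real.log x := by
      rw [← Real.log_rpow (by linarith), Real.rpow_two]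
      exact Real.log_le_log (by linarith) (by nlinarith)
    linarith
  obtain ⟨X, hX⟩ := eventually_atTop.1 h1
  obtain ⟨C, hC⟩ := isCompact_Icc.exists_bound_of_continuousOn (s := Set.Icc 0 X)
    (f := fun x => 2 * Real.log (1 + x) - U x) (ContinuousOn.sub (ContinuousOn.mul
      continuousOn_const (ContinuousOn.log (by fun_prop) fun x hx => by linarith [hx.1]))
      (by fun_prop))
  refine ⟨Real.exp |C|, Real.exp_pos _, fun x hx => ?_⟩
  have e : (1 + x) ^ 2 = Real.exp (2 * Real.log (1 + x)) := by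
    rw [mul_comm, Real.exp_mul, Real.exp_log (by linarith), Real.rpow_two]
  rw [e, ← Real.exp_sub, Real.exp_le_exp]
  rcases le_total X x with h | h
  · linarith [hX _ h, abs_nonneg C]
  · linarith [le_abs_self C, (abs_le.1 (hC _ ⟨hx, h⟩)).2]

lemma tail_nat {A : ℕ} (hA : 1 ≤ A) (j : ℕ) :
    ∑ i ∈ range j, (1 : ℝ) / (max (i : ℝ) A) ^ 2 ≤ 6 / (A : ℝ) - 6 / ((j : ℝ) + A) := by
  have h1 : (1 : ℝ) ≤ A := by exact_mod_cast hA
  induction j with
  | zero => simp
  | succ j ih =>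
    rw [sum_range_succ]
    have hj : (0 : ℝ) ≤ j := Nat.cast_nonneg j
    have e : (6 : ℝ) / (j + A) - 6 / (j + 1 + A) = 6 / ((j + A) * (j + 1 + A)) := by
      field_simp; ring
    have a1 := le_max_left (j : ℝ) A
    have a2 := le_max_right (j : ℝ) A
    have : 1 / (max (j : ℝ) A) ^ 2 ≤ 6 / ((j + A) * (j + 1 + A)) := by
      rw [div_le_div_iff₀ (by positivity) (by positivity)]
      have b1 : (j : ℝ) + A ≤ 2 * max (j : ℝ) A := by linarith
      have b2 : (j : ℝ) + 1 + A ≤ 3 * max (j : ℝ) A := by linarith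
      have := mul_le_mul b1 b2 (by positivity) (by positivity)
      nlinarith
    push_cast
    linarith

lemma tail_int {A : ℕ} (hA : 1 ≤ A) {c : ℝ} (hc : 0 ≤ c) {f : ℤ → ℝ}
    (hf : ∀ k, f k ≤ c / (max |(k : ℝ)| A) ^ 2) :
    ∑' k : ℤ, ENNReal.ofReal (f k) ≤ ENNReal.ofReal (12 * c / A) := by
  have h1 : (1 : ℝ) ≤ A := by exact_mod_cast hA
  have key : ∀ g : ℕ → ℝ, (∀ i, g i ≤ c / (max (i : ℝ) A) ^ 2) →
      ∑' i, ENNReal.ofReal (g i) ≤ ENNReal.ofReal (6 * c / A) := by
    intro g hg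
    refine ENNReal.tsum_le_of_sum_range_le fun j => ?_
    refine (sum_le_sum fun i _ => ENNReal.ofReal_le_ofReal (hg i)).trans ?_
    rw [← ENNReal.ofReal_sum_of_nonneg fun _ _ => by positivity]
    refine ENNReal.ofReal_le_ofReal ?_
    have := mul_le_mul_of_nonneg_left (tail_nat hA j) hc
    rw [mul_sum] at this
    simp only [mul_one_div] at this
    have h2 : 0 ≤ c * (6 / ((j : ℝ) + A)) := by positivity
    have h3 : 6 * c / A = c * (6 / A) := by ring
    linarith
  rw [tsum_of_nat_of_neg_add_one ENNReal.summable ENNReal.summable,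
    show 12 * c / A = 6 * c / A + 6 * c / A by ring,
    ENNReal.ofReal_add (by positivity) (by positivity)]
  refine add_le_add (key _ fun i => ?_) (key _ fun i => (hf _).trans ?_)
  · simpa using hf i
  · refine div_le_div_of_nonneg_left hc (by positivity) (pow_le_pow_left₀ (by positivity)
      (max_le_max_right _ ?_) 2)
    push_cast
    rw [abs_neg, abs_of_nonneg (by positivity)]
    linarith

end Pool.Agent.Lib.MP_9cc147_pr.AllU.F.Kit
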