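import Pool.Agent.Lib.MP_9cc147_pr.U.Defs

/-! Section A1: transfer of invariant measures, comparison and the basic rules. -/

open Finset MeasureTheory
open scoped ENNReal Matrix

namespace Pool.Agent.Lib.MP_9cc147_pr.AllU

namespace A1

section
variable {ι κ : Type} [Fintype ι] [Fintype κ]

theorem gam_meas : Measurable (gam : (ι → ℝ) → ℝ≥0∞) := by
  unfold gam
  fun_prop

theorem gam_pos (y : ι → ℝ) : 0 < gam y := ENNReal.ofReal_pos.2 (Real.exp_pos _)

theorem lint_gam_ne_top : ∫⁻ y : ι → ℝ, gam y ≠ ⊤ := by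
  have h : Integrable (fun y : ι → ℝ => ∏ i, Real.exp (-(1 / 2) * y i ^ 2)) volume :=
    Integrable.fintype_prod (f := fun _ x => Real.exp (-(1 / 2) * x ^ 2))
      fun _ => integrable_exp_neg_mul_sq (by norm_num)
  have e : ∀ y : ι → ℝ, gam y = ENNReal.ofReal (∏ i, Real.exp (-(1 / 2) * y i ^ 2)) := fun y => by
    rw [gam, ← Real.exp_sum, ← Finset.mul_sum]
    congr 2
    ring
  simp_rw [e]
  exact h.lintegral_lt_top.ne

theorem lint_gam_ne_zero : ∫⁻ y : ι → ℝ, gam y ≠ 0 := by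
  intro h
  rw [lintegral_eq_zero_iff gam_meas] at h
  obtain ⟨y, hy⟩ := h.exists
  exact (gam_pos y).ne' hy

omit [Fintype ι] in
theorem Inv.closure {G : Set ((ι → ℝ) × ℝ)} {ν : Measure ((ι → ℝ) × ℝ)} [Countable ι]
    (h : Inv G ν) : Inv (AddSubgroup.closure G : Set ((ι → ℝ) × ℝ)) ν := by
  intro g hg
  induction hg using AddSubgroup.closure_induction with
  | mem x hx => exact h x hx
  | zero => simp
  | add x y _ _ hx hy =>
    have : (fun p : (ι → ℝ) × ℝ => p + (x + y)) = (fun p => p + y) ∘ fun p => p + x := by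
      funext p
      simp [add_assoc]
    rw [this, ← Measure.map_map (measurable_add_const y) (measurable_add_const x), hx, hy]
  | neg x _ hx =>
    conv_lhs => rw [← hx]
    rw [Measure.map_map (measurable_add_const _) (measurable_add_const x)]
    have : ((fun p : (ι → ℝ) × ℝ => p + -x) ∘ fun p => p + x) = id := by
      funext p
      simp
    rw [this, Measure.map_id]

theorem dom_mono {lam d d' : ℝ} {G : Set ((ι → ℝ) × ℝ)} (h : Dom lam G d) (hd : d ≤ d') :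
    Dom lam G d' := fun ν a b c =>
  le_trans (mul_le_mul_left (ENNReal.ofReal_le_ofReal (by linarith)) _) (h ν a b c)

theorem dom_one (lam : ℝ) (G : Set ((ι → ℝ) × ℝ)) : Dom lam G 1 := fun _ _ _ _ => by simp

/-- an invariant density keeps a map measure preserving -/
theorem map_withDensity {Ω : Type*} [MeasurableSpace Ω] {μ : Measure Ω} {τ : Ω → Ω}
    (hτ : MeasurePreserving τ μ μ) {D : Ω → ℝ≥0∞} (hD : Measurable D) (h : ∀ ω, D (τ ω) = D ω) :
    (μ.withDensity D).map τ = μ.withDensity D := by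
  ext s hs
  rw [Measure.map_apply hτ.measurable hs, withDensity_apply _ (hτ.measurable hs),
    withDensity_apply _ hs, ← hτ.setLIntegral_comp_preimage hs hD]
  simp_rw [h]

/-- transfer: `Dom` applied to the push forward of a weighted measure -/
theorem dom_pull {lam d : ℝ} {H : Set ((κ → ℝ) × ℝ)} (h : Dom lam H d) {Ω : Type*}
    [MeasurableSpace Ω] (μ : Measure Ω) [SFinite μ] {D : Ω → ℝ≥0∞} (hD : Measurable D)
    {φ : Ω → (κ → ℝ) × ℝ} (hφ : Measurable φ)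
    (hI : ∀ g ∈ H, ∃ τ : Ω → Ω, MeasurePreserving τ μ μ ∧ (∀ ω, D (τ ω) = D ω) ∧
      ∀ ω, φ (τ ω) = φ ω + g)
    (hf : ∫⁻ ω, D ω * gam (φ ω).1 ∂μ ≠ ⊤) :
    ENNReal.ofReal (1 - d) * ∫⁻ ω, D ω * gam (φ ω).1 ∂μ ≤
      ∫⁻ ω, D ω * (ENNReal.ofReal (1 - Real.cos (lam * (φ ω).2)) * gam (φ ω).1) ∂μ := by
  have key : ∀ f : (κ → ℝ) × ℝ → ℝ≥0∞, Measurable f →
      ∫⁻ p, f p ∂((μ.withDensity D).map φ) = ∫⁻ ω, D ω * f (φ ω) ∂μ := fun f hf => by
    rw [lintegral_map hf hφ]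
    exact lintegral_withDensity_eq_lintegral_mul μ hD (hf.comp hφ)
  have m1 : Measurable fun p : (κ → ℝ) × ℝ => gam p.1 := gam_meas.comp measurable_fst
  have m2 : Measurable fun p : (κ → ℝ) × ℝ =>
      ENNReal.ofReal (1 - Real.cos (lam * p.2)) * gam p.1 := Measurable.mul (by fun_prop) m1
  have := h ((μ.withDensity D).map φ) inferInstance (fun g hg => by
    obtain ⟨τ, a, b, c⟩ := hI g hg
    rw [Measure.map_map (measurable_add_const g) hφ]
    have e : ((fun p => p + g) ∘ φ) = φ ∘ τ := funext fun ω => (c ω).symm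
    rw [e, ← Measure.map_map hφ a.measurable, map_withDensity a hD b]) (by rwa [key _ m1])
  rwa [key _ m1, key _ m2] at this

theorem sq_eq (y : ι → ℝ) : ∑ i, y i ^ 2 = y ⬝ᵥ y := by simp [dotProduct, sq]

theorem exists_compl (A : Matrix ι κ ℝ) [DecidableEq κ]
    (h : ∀ y : κ → ℝ, (A *ᵥ y) ⬝ᵥ (A *ᵥ y) ≤ y ⬝ᵥ y) :
    ∃ B : Matrix κ κ ℝ, Aᵀ * A + Bᵀ * B = 1 := by
  have hp : (1 - Aᵀ * A).PosSemidef := by
    refine .of_dotProduct_mulVec_nonneg ?_ fun x => ?_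
    · exact Matrix.isHermitian_one.sub (Matrix.isHermitian_conjTranspose_mul_self A)
    · rw [Matrix.sub_mulVec, Matrix.one_mulVec, dotProduct_sub, ← Matrix.mulVec_mulVec,
        star_trivial, Matrix.dotProduct_mulVec, Matrix.vecMul_transpose]
      exact sub_nonneg.2 (h x)
  open scoped MatrixOrder in
  obtain ⟨B, hB⟩ := CStarAlgebra.nonneg_iff_eq_star_mul_self.mp hp.nonneg
  refine ⟨B, ?_⟩
  have : star B = Bᵀ := rfl
  rw [← this, ← hB]
  abel

/-- comparison through a linear contraction -/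
theorem dom_cmp {lam d : ℝ} {G : Set ((ι → ℝ) × ℝ)} {G' : Set ((κ → ℝ) × ℝ)}
    (P : (κ → ℝ) →ₗ[ℝ] ι → ℝ) (hP : ∀ y, ∑ i, P y i ^ 2 ≤ ∑ i, y i ^ 2)
    (hG : ∀ g ∈ G', (P g.1, g.2) ∈ AddSubgroup.closure G) (h : Dom lam G' d) : Dom lam G d := by
  classical
  intro ν _ hν hfin
  set A : Matrix ι κ ℝ := LinearMap.toMatrix' P with hA
  have hPA : ∀ y, A *ᵥ y = P y := fun y => by simp [hA]
  obtain ⟨B, hB⟩ := exists_compl A fun y => by rw [hPA, ← sq_eq, ← sq_eq]; exact hP y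
  let φ : ((ι → ℝ) × ℝ) × (κ → ℝ) → (κ → ℝ) × ℝ := fun ω => (Aᵀ *ᵥ ω.1.1 + Bᵀ *ᵥ ω.2, ω.1.2)
  let D : ((ι → ℝ) × ℝ) × (κ → ℝ) → ℝ≥0∞ := fun ω => ENNReal.ofReal
    (Real.exp (-(ω.1.1 ⬝ᵥ ω.1.1 + ω.2 ⬝ᵥ ω.2 - (φ ω).1 ⬝ᵥ (φ ω).1) / 2))
  have cφ : Continuous φ := by
    refine Continuous.prodMk (Continuous.add ?_ ?_) (by fun_prop)
    · exact continuous_const.matrix_mulVec (by fun_prop)
    · exact continuous_const.matrix_mulVec (by fun_prop)
  have hD : Measurable D := by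
    refine ENNReal.measurable_ofReal.comp (Continuous.measurable ?_)
    refine Real.continuous_exp.comp (Continuous.div_const (Continuous.neg ?_) _)
    refine Continuous.sub (Continuous.add ?_ ?_) ?_
    · exact Continuous.dotProduct (by fun_prop) (by fun_prop)
    · exact Continuous.dotProduct (by fun_prop) (by fun_prop)
    · exact Continuous.dotProduct cφ.fst cφ.fst
  have hDg : ∀ ω, D ω * gam (φ ω).1 = gam ω.1.1 * gam ω.2 := fun ω => by
    simp only [D, gam, sq_eq]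
    rw [← ENNReal.ofReal_mul (Real.exp_pos _).le, ← ENNReal.ofReal_mul (Real.exp_pos _).le,
      ← Real.exp_add, ← Real.exp_add]
    congr 2
    ring
  have m1 : Measurable fun p : (ι → ℝ) × ℝ => gam p.1 := gam_meas.comp measurable_fst
  have m2 : Measurable fun p : (ι → ℝ) × ℝ =>
      ENNReal.ofReal (1 - Real.cos (lam * p.2)) * gam p.1 := Measurable.mul (by fun_prop) m1
  have e1 : ∫⁻ ω, D ω * gam (φ ω).1 ∂(ν.prod volume) =
      (∫⁻ p, gam p.1 ∂ν) * ∫⁻ s : κ → ℝ, gam s := by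
    simp_rw [hDg]
    exact lintegral_prod_mul m1.aemeasurable gam_meas.aemeasurable
  have e2 : ∫⁻ ω, D ω * (ENNReal.ofReal (1 - Real.cos (lam * (φ ω).2)) * gam (φ ω).1)
      ∂(ν.prod volume) = (∫⁻ p, ENNReal.ofReal (1 - Real.cos (lam * p.2)) * gam p.1 ∂ν) *
        ∫⁻ s : κ → ℝ, gam s := by
    rw [← lintegral_prod_mul m2.aemeasurable gam_meas.aemeasurable]
    refine lintegral_congr fun ω => ?_
    rw [mul_left_comm, hDg, mul_assoc]
  have := dom_pull h (ν.prod (volume : Measure (κ → ℝ))) hD cφ.measurable (fun g hg => by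
    have hφ : ∀ ω : ((ι → ℝ) × ℝ) × (κ → ℝ),
        φ (ω.1 + (P g.1, g.2), ω.2 + B *ᵥ g.1) = φ ω + g := fun ω => by
      refine Prod.ext ?_ rfl
      show Aᵀ *ᵥ (ω.1.1 + P g.1) + Bᵀ *ᵥ (ω.2 + B *ᵥ g.1) = Aᵀ *ᵥ ω.1.1 + Bᵀ *ᵥ ω.2 + g.1
      rw [← hPA, Matrix.mulVec_add, Matrix.mulVec_add, Matrix.mulVec_mulVec, Matrix.mulVec_mulVec,
        add_add_add_comm, ← Matrix.add_mulVec, hB, Matrix.one_mulVec]
    refine ⟨Prod.map (fun p => p + (P g.1, g.2)) fun s => s + B *ᵥ g.1,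
      MeasurePreserving.prod ⟨measurable_add_const _, Inv.closure hν _ (hG g hg)⟩
        (measurePreserving_add_right _ _), fun ω => ?_, hφ⟩
    show D (ω.1 + (P g.1, g.2), ω.2 + B *ᵥ g.1) = D ω
    simp only [D]
    rw [hφ]
    congr 4
    show (ω.1.1 + P g.1) ⬝ᵥ (ω.1.1 + P g.1) + (ω.2 + B *ᵥ g.1) ⬝ᵥ (ω.2 + B *ᵥ g.1) -
      ((φ ω).1 + g.1) ⬝ᵥ ((φ ω).1 + g.1) = _
    have a1 : (φ ω).1 ⬝ᵥ g.1 = ω.1.1 ⬝ᵥ (A *ᵥ g.1) + ω.2 ⬝ᵥ (B *ᵥ g.1) := by
      show (Aᵀ *ᵥ ω.1.1 + Bᵀ *ᵥ ω.2) ⬝ᵥ g.1 = _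
      rw [add_dotProduct, Matrix.mulVec_transpose, Matrix.mulVec_transpose,
        Matrix.dotProduct_mulVec, Matrix.dotProduct_mulVec]
    have a2 : g.1 ⬝ᵥ g.1 = (A *ᵥ g.1) ⬝ᵥ (A *ᵥ g.1) + (B *ᵥ g.1) ⬝ᵥ (B *ᵥ g.1) := by
      have : g.1 ⬝ᵥ g.1 = g.1 ⬝ᵥ ((Aᵀ * A + Bᵀ * B) *ᵥ g.1) := by rw [hB, Matrix.one_mulVec]
      rw [this, Matrix.add_mulVec, dotProduct_add, ← Matrix.mulVec_mulVec, ← Matrix.mulVec_mulVec,
        Matrix.dotProduct_mulVec g.1 Aᵀ, Matrix.dotProduct_mulVec g.1 Bᵀ, Matrix.vecMul_transpose,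
        Matrix.vecMul_transpose]
    rw [← hPA]
    simp only [add_dotProduct, dotProduct_add]
    rw [dotProduct_comm (A *ᵥ g.1) ω.1.1, dotProduct_comm (B *ᵥ g.1) ω.2,
      dotProduct_comm g.1 (φ ω).1, a1, a2]
    ring) (by rw [e1]; exact ENNReal.mul_ne_top hfin lint_gam_ne_top)
  rw [e1, e2, ← mul_assoc] at this
  exact (ENNReal.mul_le_mul_iff_left lint_gam_ne_zero lint_gam_ne_top).1 this

omit [Fintype ι] [Fintype κ] in
theorem left_mem {G : Set ((ι → ℝ) × ℝ)} (H : Set ((κ → ℝ) × ℝ)) {g : (ι → ℝ) × ℝ}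
    (hg : g ∈ AddSubgroup.closure G) :
    (Sum.elim g.1 (0 : κ → ℝ), g.2) ∈ AddSubgroup.closure (oplus G H) := by
  induction hg using AddSubgroup.closure_induction with
  | mem x hx => exact AddSubgroup.subset_closure (Or.inl ⟨x, hx, rfl⟩)
  | zero =>
    convert (AddSubgroup.closure (oplus G H)).zero_mem using 1
    refine Prod.ext (funext fun i => ?_) rfl
    cases i <;> rfl
  | add x y _ _ hx hy =>
    convert (AddSubgroup.closure (oplus G H)).add_mem hx hy using 1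
    refine Prod.ext (funext fun i => ?_) rfl
    cases i <;> simp
  | neg x _ hx =>
    convert (AddSubgroup.closure (oplus G H)).neg_mem hx using 1
    refine Prod.ext (funext fun i => ?_) rfl
    cases i <;> simp

omit [Fintype ι] [Fintype κ] in
theorem right_mem (G : Set ((ι → ℝ) × ℝ)) {H : Set ((κ → ℝ) × ℝ)} {h : (κ → ℝ) × ℝ}
    (hh : h ∈ H) : (Sum.elim (0 : ι → ℝ) h.1, h.2) ∈ AddSubgroup.closure (oplus G H) :=
  AddSubgroup.subset_closure (Or.inr ⟨h, hh, rfl⟩)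

/-- a linear map on the first block, the identity on the spectators -/
def ext {ι' : Type} (κ : Type) (P : (ι' → ℝ) →ₗ[ℝ] ι → ℝ) : (ι' ⊕ κ → ℝ) →ₗ[ℝ] ι ⊕ κ → ℝ where
  toFun y := Sum.elim (P fun i => y (Sum.inl i)) fun i => y (Sum.inr i)
  map_add' x y := by
    funext i
    cases i with
    | inl i => exact congrFun (P.map_add (fun i => x (Sum.inl i)) fun i => y (Sum.inl i)) i
    | inr i => rfl
  map_smul' c x := by
    funext i
    cases i with
    | inl i => exact congrFun (P.map_smul c fun i => x (Sum.inl i)) i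
    | inr i => rfl

/-- comparison through a linear contraction, with spectators -/
theorem mul_cmp {ι' : Type} [Fintype ι'] {lam c : ℝ} {G : Set ((ι → ℝ) × ℝ)}
    {G' : Set ((ι' → ℝ) × ℝ)} (P : (ι' → ℝ) →ₗ[ℝ] ι → ℝ)
    (hP : ∀ y, ∑ i, P y i ^ 2 ≤ ∑ i, y i ^ 2)
    (hG : ∀ g ∈ G', (P g.1, g.2) ∈ AddSubgroup.closure G) (h : Mul lam G' c) : Mul lam G c := by
  intro κ _ H d hd hH
  refine dom_cmp (ext κ P) (fun y => ?_) ?_ (h κ H d hd hH)
  · rw [Fintype.sum_sum_type, Fintype.sum_sum_type]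
    exact add_le_add (hP _) le_rfl
  · rintro g (⟨g', hg', rfl⟩ | ⟨h', hh', rfl⟩)
    · exact left_mem H (hG g' hg')
    · convert right_mem G hh' using 2
      funext i
      cases i with
      | inl i => exact congrFun P.map_zero i
      | inr i => rfl

theorem exists_contr {ι' : Type} [Fintype ι'] {X : Type} [AddCommGroup X] [Module ℝ X]
    (T : X →ₗ[ℝ] ι → ℝ) (T' : X →ₗ[ℝ] ι' → ℝ) (h : ∀ x, ∑ i, T x i ^ 2 ≤ ∑ i, T' x i ^ 2) :
    ∃ P : (ι' → ℝ) →ₗ[ℝ] ι → ℝ, (∀ y, ∑ i, P y i ^ 2 ≤ ∑ i, y i ^ 2) ∧ ∀ x, P (T' x) = T x := by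
  let e : (ι' → ℝ) →ₗ[ℝ] EuclideanSpace ℝ ι' := (WithLp.linearEquiv 2 ℝ (ι' → ℝ)).symm.toLinearMap
  have he : ∀ y, ‖e y‖ ^ 2 = ∑ i, y i ^ 2 := fun y => EuclideanSpace.real_norm_sq_eq _
  let S : X →ₗ[ℝ] EuclideanSpace ℝ ι' := e ∘ₗ T'
  obtain ⟨σ, hσ⟩ := S.rangeRestrict.exists_rightInverse_of_surjective S.range_rangeRestrict
  have hσ' : ∀ w : LinearMap.range S, e (T' (σ w)) = w := fun w =>
    congrArg Subtype.val (LinearMap.congr_fun hσ w)
  let π := (LinearMap.range S).orthogonalProjectionOnto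
  refine ⟨T ∘ₗ σ ∘ₗ π.toLinearMap ∘ₗ e, fun y => ?_, fun x => ?_⟩
  · refine (h _).trans ?_
    rw [← he, ← he]
    show ‖e (T' (σ (π (e y))))‖ ^ 2 ≤ _
    rw [hσ']
    exact pow_le_pow_left₀ (norm_nonneg _)
      (Submodule.norm_orthogonalProjectionOnto_apply_le (LinearMap.range S) (e y)) 2
  · show T (σ (π (e (T' x)))) = T x
    have a : (π (e (T' x)) : EuclideanSpace ℝ ι') = e (T' x) :=
      congrArg Subtype.val (Submodule.orthogonalProjectionOnto_mem_subspace_eq_self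
        (K := LinearMap.range S) ⟨e (T' x), x, rfl⟩)
    have b := h (σ (π (e (T' x))) - x)
    rw [← he, map_sub T', map_sub e, hσ', a, sub_self, norm_zero, map_sub T] at b
    rw [← sub_eq_zero]
    funext i
    have c := (Finset.single_le_sum (f := fun i => (T (σ (π (e (T' x)))) - T x) i ^ 2)
      (fun i _ => sq_nonneg _) (Finset.mem_univ i)).trans b
    exact pow_eq_zero_iff (two_ne_zero) |>.1 (le_antisymm (by simpa using c) (sq_nonneg _))

end

end A1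

theorem cmp : CmpStmt := by
  intro lam c ι ι' _ _ G G' X _ _ T T' h hG hM
  obtain ⟨P, a, b⟩ := A1.exists_contr T T' h
  refine A1.mul_cmp P a (fun g hg => ?_) hM
  obtain ⟨x, e, hx⟩ := hG g hg
  rwa [e, b]

theorem basic : BasicStmt := by
  intro lam ι _ G
  refine ⟨fun κ _ H d _ hH => ?_, fun c c' hc h κ _ H d hd hH => ?_, fun c h => ?_,
    fun G' c hG h => A1.mul_cmp LinearMap.id (fun _ => le_rfl) (fun g hg => hG hg) h⟩
  · rw [one_mul]
    let P : (κ → ℝ) →ₗ[ℝ] ι ⊕ κ → ℝ :=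
      { toFun := fun y => Sum.elim 0 y
        map_add' := fun x y => by
          funext i
          cases i <;> simp
        map_smul' := fun c x => by
          funext i
          cases i <;> simp }
    refine A1.dom_cmp P (fun y => ?_) (fun g hg => A1.right_mem G hg) hH
    rw [Fintype.sum_sum_type]
    simp [P]
  · exact A1.dom_mono (h κ H d hd hH) (mul_le_mul_of_nonneg_right hc hd)
  · have h1 := h Empty ∅ 1 zero_le_one (A1.dom_one _ _)
    rw [mul_one] at h1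
    refine A1.dom_cmp (LinearMap.funLeft ℝ ℝ Sum.inl) (fun y => ?_) ?_ h1
    · rw [Fintype.sum_sum_type]
      simp
    · rintro g (⟨g', hg', rfl⟩ | ⟨_, ⟨⟩, _⟩)
      exact AddSubgroup.subset_closure hg'

end Pool.Agent.Lib.MP_9cc147_pr.AllU
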