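import Pool.Agent.Lib.MP_9cc147_pr.U.Defs

/-! Section A, the final gain: a short shift that moves the height by one. -/

open Finset MeasureTheory
open scoped ENNReal

namespace Pool.Agent.Lib.MP_9cc147_pr.AllU

namespace AFin

variable {κ : Type} [Fintype κ]

abbrev Pt (κ : Type) : Type := (Unit ⊕ κ → ℝ) × ℝ

/-- the distinguished coordinate -/
def sc (p : Pt κ) : ℝ := p.1 (Sum.inl ())

/-- the Gaussian weight of the spectators -/
noncomputable def gy (p : Pt κ) : ℝ≥0∞ := gam fun j => p.1 (Sum.inr j)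

theorem meas_gam {ι : Type} [Fintype ι] : Measurable (gam : (ι → ℝ) → ℝ≥0∞) := by
  unfold gam
  fun_prop

omit [Fintype κ] in
theorem meas_sc : Measurable (sc : Pt κ → ℝ) := by
  unfold sc
  fun_prop

theorem meas_gy : Measurable (gy : Pt κ → ℝ≥0∞) := meas_gam.comp (by fun_prop)

theorem gam_split (p : Pt κ) : gam p.1 = ENNReal.ofReal (Real.exp (-sc p ^ 2 / 2)) * gy p := by
  unfold gy gam sc
  rw [← ENNReal.ofReal_mul (Real.exp_pos _).le, ← Real.exp_add, Fintype.sum_sum_type]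
  congr 2
  simp
  ring

theorem shift {ι : Type} [Fintype ι] {ν : Measure ((ι → ℝ) × ℝ)} {g : (ι → ℝ) × ℝ}
    (h : ν.map (fun p => p + g) = ν) {F : (ι → ℝ) × ℝ → ℝ≥0∞} (hF : Measurable F) :
    ∫⁻ p, F (p + g) ∂ν = ∫⁻ p, F p ∂ν := by
  rw [← lintegral_map hF (measurable_add_const g), h]

/-- the bound of the spectators on a slice -/
theorem push {lam d : ℝ} {H : Set ((κ → ℝ) × ℝ)} (hH : Dom lam H d) {ν : Measure (Pt κ)}
    [SFinite ν] (hν : ∀ h ∈ H, ν.map (fun p => p + (Sum.elim (0 : Unit → ℝ) h.1, h.2)) = ν)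
    {ψ : ℝ → ℝ≥0∞} (hψ : Measurable ψ) (b : ℝ) (hf : ∫⁻ p, ψ (sc p) * gy p ∂ν ≠ ⊤) :
    ENNReal.ofReal (1 - d) * ∫⁻ p, ψ (sc p) * gy p ∂ν ≤
      ∫⁻ p, ENNReal.ofReal (1 - Real.cos (lam * (p.2 + b))) * (ψ (sc p) * gy p) ∂ν := by
  let π : Pt κ → (κ → ℝ) × ℝ := fun p => (fun j => p.1 (Sum.inr j), p.2 + b)
  have hπ : Measurable π := by fun_prop
  have hψ' : Measurable fun p : Pt κ => ψ (sc p) := hψ.comp meas_sc
  have key : ∀ F : (κ → ℝ) × ℝ → ℝ≥0∞, Measurable F →
      ∫⁻ q, F q ∂((ν.withDensity fun p => ψ (sc p)).map π) = ∫⁻ p, ψ (sc p) * F (π p) ∂ν := by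
    intro F hF
    rw [lintegral_map hF hπ, lintegral_withDensity_eq_lintegral_mul _ hψ' (hF.fun_comp hπ)]
    rfl
  have hg : Measurable fun q : (κ → ℝ) × ℝ => gam q.1 := meas_gam.comp measurable_fst
  have h := hH ((ν.withDensity fun p => ψ (sc p)).map π) inferInstance (fun h hh => by
    refine Measure.ext_of_lintegral _ fun F hF => ?_
    rw [lintegral_map hF (measurable_add_const h), key _ (hF.fun_comp (measurable_add_const h)),
      key F hF, ← shift (hν h hh) (hψ'.fun_mul (hF.fun_comp hπ))]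
    refine lintegral_congr fun p => ?_
    have e1 : sc (p + (Sum.elim (0 : Unit → ℝ) h.1, h.2)) = sc p := by simp [sc]
    have e2 : π (p + (Sum.elim (0 : Unit → ℝ) h.1, h.2)) = π p + h := by
      refine Prod.ext (funext fun j => by simp [π]) ?_
      simp only [π, Prod.snd_add]
      ring
    simp only [e1, e2]) (by rw [key _ hg]; exact hf)
  rw [key _ hg, key _ ((by fun_prop : Measurable fun q : (κ → ℝ) × ℝ =>
    ENNReal.ofReal (1 - Real.cos (lam * q.2))).fun_mul hg)] at h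
  refine h.trans (le_of_eq (lintegral_congr fun p => ?_))
  simp only [π, gy]
  ring

/-- indicator of a unit interval -/
noncomputable def iv (a s : ℝ) : ℝ≥0∞ := (Set.Ico a (a + 1)).indicator 1 s

theorem meas_iv (a : ℝ) : Measurable (iv a) := measurable_one.indicator measurableSet_Ico

theorem iv_shift (a s : ℝ) : iv (a + 1) (s + 1) = iv a s := by
  simp [iv, Set.indicator]

/-- the short shift -/
def g0 (κ : Type) : Pt κ := (Sum.elim (fun _ => 1) (0 : κ → ℝ), -1)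

omit [Fintype κ] in
theorem sc_g0 (p : Pt κ) : sc (p + g0 κ) = sc p + 1 := by simp [sc, g0]

theorem gy_g0 (p : Pt κ) : gy (p + g0 κ) = gy p := by simp [gy, g0]

theorem mass_step {ν : Measure (Pt κ)} (h : ν.map (fun p => p + g0 κ) = ν) (a : ℝ) :
    ∫⁻ p, iv (a + 1) (sc p) * gy p ∂ν = ∫⁻ p, iv a (sc p) * gy p ∂ν := by
  rw [← shift h (((meas_iv (a + 1)).fun_comp meas_sc).fun_mul meas_gy)]
  simp only [sc_g0, gy_g0, iv_shift]

theorem mass_up {ν : Measure (Pt κ)} (h : ν.map (fun p => p + g0 κ) = ν) (k : ℕ) :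
    ∫⁻ p, iv k (sc p) * gy p ∂ν = ∫⁻ p, iv (-1) (sc p) * gy p ∂ν := by
  induction k with
  | zero => simpa using mass_step h (-1)
  | succ k ih => rw [Nat.cast_succ, mass_step h, ih]

theorem mass_down {ν : Measure (Pt κ)} (h : ν.map (fun p => p + g0 κ) = ν) (k : ℕ) :
    ∫⁻ p, iv (-1 - k) (sc p) * gy p ∂ν = ∫⁻ p, iv (-1) (sc p) * gy p ∂ν := by
  induction k with
  | zero => simp
  | succ k ih =>
    rw [← ih, ← mass_step h]
    have e : (-1 : ℝ) - ((k + 1 : ℕ) : ℝ) + 1 = -1 - k := by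
      push_cast
      ring
    rw [e]

theorem exp_half : (0.6 : ℝ) ≤ Real.exp (-1 / 2) ∧ Real.exp (-1 / 2) ≤ (0.61 : ℝ) := by
  have h : Real.exp (-1 / 2) ^ 2 = Real.exp (-1) := by
    rw [← Real.exp_nat_mul]
    norm_num
  have h1 := Real.exp_neg_one_gt_d9
  have h2 := Real.exp_neg_one_lt_d9
  have h3 := Real.exp_pos (-1 / 2)
  constructor <;> nlinarith

theorem gauss_le (k : ℕ) {s : ℝ} (h : (k : ℝ) ≤ |s|) :
    ENNReal.ofReal (Real.exp (-s ^ 2 / 2)) ≤ ENNReal.ofReal 0.61 ^ k := by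
  rw [← ENNReal.ofReal_pow (by norm_num)]
  refine ENNReal.ofReal_le_ofReal (le_trans ?_ (pow_le_pow_left₀ (Real.exp_pos _).le exp_half.2 k))
  rw [← Real.exp_nat_mul, Real.exp_le_exp]
  have h1 : (k : ℝ) ^ 2 ≤ s ^ 2 := by
    rw [← sq_abs s]
    exact pow_le_pow_left₀ (Nat.cast_nonneg k) h 2
  have h2 : (k : ℝ) ≤ (k : ℝ) ^ 2 := by exact_mod_cast Nat.le_self_pow (by norm_num) k
  linarith

theorem gauss_sum (s : ℝ) : ENNReal.ofReal (Real.exp (-s ^ 2 / 2)) ≤
    ∑' k : ℕ, ENNReal.ofReal 0.61 ^ k * (iv k s + iv (-1 - k) s) := by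
  rcases le_or_gt 0 s with hs | hs
  · refine le_trans ?_ (ENNReal.le_tsum ⌊s⌋₊)
    have e : iv ⌊s⌋₊ s = 1 := Set.indicator_of_mem (show s ∈ Set.Ico _ _ from
      ⟨Nat.floor_le hs, Nat.lt_floor_add_one s⟩) _
    rw [e]
    exact (gauss_le _ ((Nat.floor_le hs).trans (le_abs_self s))).trans
      (le_mul_of_one_le_right' le_self_add)
  · obtain ⟨k, hk⟩ : ∃ k : ℕ, ⌈-s⌉₊ = k + 1 :=
      Nat.exists_eq_succ_of_ne_zero (Nat.ceil_pos.2 (by linarith)).ne'
    have h1 : -s ≤ (k : ℝ) + 1 := by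
      have := Nat.le_ceil (-s)
      rw [hk] at this
      exact_mod_cast this
    have h2 : (k : ℝ) < -s := Nat.lt_ceil.1 (by omega)
    refine le_trans ?_ (ENNReal.le_tsum k)
    have e : iv (-1 - k) s = 1 := Set.indicator_of_mem (show s ∈ Set.Ico _ _ from
      ⟨by linarith, by linarith⟩) _
    rw [e]
    exact (gauss_le k (h2.le.trans (neg_le_abs s))).trans (le_mul_of_one_le_right' le_add_self)

theorem total_le {ν : Measure (Pt κ)} (h : ν.map (fun p => p + g0 κ) = ν) :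
    ∫⁻ p, gam p.1 ∂ν ≤ ENNReal.ofReal 5.2 * ∫⁻ p, iv (-1) (sc p) * gy p ∂ν := by
  have m1 : ∀ a : ℝ, Measurable fun p : Pt κ => iv a (sc p) * gy p :=
    fun a => ((meas_iv a).fun_comp meas_sc).fun_mul meas_gy
  calc ∫⁻ p, gam p.1 ∂ν ≤ ∫⁻ p, ∑' k : ℕ, ENNReal.ofReal 0.61 ^ k *
        (iv k (sc p) * gy p + iv (-1 - k) (sc p) * gy p) ∂ν := by
        refine lintegral_mono fun p => ?_
        simp only [← add_mul, ← mul_assoc, ENNReal.tsum_mul_right]
        rw [gam_split]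
        exact mul_le_mul_left (gauss_sum _) _
    _ = ∑' k : ℕ, ENNReal.ofReal 0.61 ^ k * (2 * ∫⁻ p, iv (-1) (sc p) * gy p ∂ν) := by
        rw [lintegral_tsum fun k => (((m1 _).fun_add (m1 _)).const_mul _).aemeasurable]
        refine tsum_congr fun k => ?_
        rw [lintegral_const_mul _ ((m1 _).fun_add (m1 _)), lintegral_add_left (m1 _), mass_up h,
          mass_down h, two_mul]
    _ ≤ _ := by
        rw [ENNReal.tsum_mul_right, ← mul_assoc]
        refine mul_le_mul_left ?_ _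
        have e : ∑' k : ℕ, ENNReal.ofReal 0.61 ^ k = ENNReal.ofReal ((1 - 0.61)⁻¹) := by
          rw [← tsum_geometric_of_lt_one (by norm_num) (by norm_num),
            ENNReal.ofReal_tsum_of_nonneg (fun _ => by positivity)
              (summable_geometric_of_lt_one (by norm_num) (by norm_num))]
          exact tsum_congr fun k => (ENNReal.ofReal_pow (by norm_num) k).symm
        rw [e, ← ENNReal.ofReal_ofNat 2, ← ENNReal.ofReal_mul (by norm_num)]
        exact ENNReal.ofReal_le_ofReal (by norm_num)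

/-- the rest of the Gaussian after two flat pieces are removed -/
noncomputable def rs (s : ℝ) : ℝ≥0∞ :=
  ENNReal.ofReal (Real.exp (-s ^ 2 / 2)) - ENNReal.ofReal 0.6 * (iv (-1) s + iv 0 s)

theorem meas_rs : Measurable rs := by
  unfold rs
  exact (by fun_prop : Measurable fun s : ℝ => ENNReal.ofReal (Real.exp (-s ^ 2 / 2))).sub
    (((meas_iv _).fun_add (meas_iv _)).const_mul _)

theorem rs_add (s : ℝ) : ENNReal.ofReal (Real.exp (-s ^ 2 / 2)) =
    rs s + ENNReal.ofReal 0.6 * iv (-1) s + ENNReal.ofReal 0.6 * iv 0 s := by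
  rw [add_assoc, ← mul_add, rs, tsub_add_cancel_of_le]
  have key : |s| ≤ 1 → ENNReal.ofReal 0.6 ≤ ENNReal.ofReal (Real.exp (-s ^ 2 / 2)) := fun h => by
    refine ENNReal.ofReal_le_ofReal (exp_half.1.trans (Real.exp_le_exp.2 ?_))
    have := (sq_le_one_iff_abs_le_one s).2 h
    linarith
  by_cases h1 : s ∈ Set.Ico (-1 : ℝ) (-1 + 1)
  · have h2 : s ∉ Set.Ico (0 : ℝ) (0 + 1) := fun h => by linarith [h.1, h1.2]
    rw [iv, iv, Set.indicator_of_mem h1, Set.indicator_of_notMem h2]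
    simpa using key (abs_le.2 ⟨h1.1, by linarith [h1.2]⟩)
  · by_cases h2 : s ∈ Set.Ico (0 : ℝ) (0 + 1)
    · rw [iv, iv, Set.indicator_of_notMem h1, Set.indicator_of_mem h2]
      simpa using key (abs_le.2 ⟨by linarith [h2.1], by linarith [h2.2]⟩)
    · rw [iv, iv, Set.indicator_of_notMem h1, Set.indicator_of_notMem h2]
      simp

theorem unit_case (lam : ℝ) (hl : |lam| ≤ 1) :
    Mul lam ({(fun _ => 1, -1)} : Set ((Unit → ℝ) × ℝ)) (1 - lam ^ 2 / 100) := by
  intro κ _ H d hd hH ν hsf hν hZ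
  have h0 : ν.map (fun p => p + g0 κ) = ν := hν _ (Or.inl ⟨_, rfl, rfl⟩)
  have hh : ∀ h ∈ H, ν.map (fun p => p + (Sum.elim (0 : Unit → ℝ) h.1, h.2)) = ν :=
    fun h hh => hν _ (Or.inr ⟨h, hh, rfl⟩)
  have m1 : ∀ a : ℝ, Measurable fun p : Pt κ => iv a (sc p) * gy p :=
    fun a => ((meas_iv a).fun_comp meas_sc).fun_mul meas_gy
  have m2 : Measurable fun p : Pt κ => rs (sc p) * gy p := (meas_rs.comp meas_sc).fun_mul meas_gy
  have m3 : ∀ b : ℝ, Measurable fun p : Pt κ => ENNReal.ofReal (1 - Real.cos (lam * (p.2 + b))) :=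
    fun b => by fun_prop
  have hsp : ∀ p : Pt κ, gam p.1 = rs (sc p) * gy p + ENNReal.ofReal 0.6 * (iv (-1) (sc p) * gy p) +
      ENNReal.ofReal 0.6 * (iv 0 (sc p) * gy p) := fun p => by
    rw [gam_split, rs_add]
    ring
  obtain ⟨R, hR⟩ : ∃ R, R = ∫⁻ p, rs (sc p) * gy p ∂ν := ⟨_, rfl⟩
  obtain ⟨m, hm⟩ : ∃ m, m = ∫⁻ p, iv (-1) (sc p) * gy p ∂ν := ⟨_, rfl⟩
  have hZe : ∫⁻ p, gam p.1 ∂ν = R + ENNReal.ofReal 0.6 * m + ENNReal.ofReal 0.6 * m := by
    have := mass_up h0 0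
    rw [Nat.cast_zero] at this
    simp only [hsp]
    rw [lintegral_add_left (m2.fun_add ((m1 _).const_mul _)), lintegral_add_left m2,
      lintegral_const_mul _ (m1 _), lintegral_const_mul _ (m1 _), this, ← hR, ← hm]
  have hRt : R ≠ ⊤ := ne_top_of_le_ne_top hZ (by rw [hZe, add_assoc]; exact le_self_add)
  have hmt : m ≠ ⊤ := fun h => hZ (by
    rw [hZe, h, ENNReal.mul_top (by simp; norm_num), add_top])
  have hC0 : 0 ≤ Real.cos (lam / 2) := Real.cos_nonneg_of_mem_Icc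
    ⟨by linarith [(abs_le.1 hl).1, Real.pi_gt_three], by linarith [(abs_le.1 hl).2, Real.pi_gt_three]⟩
  have hC1 : Real.cos (lam / 2) ≤ 1 - lam ^ 2 / 20 := by
    have a := Real.cos_le_one_sub_mul_cos_sq (x := lam / 2)
      (by rw [abs_div, abs_two]; linarith [Real.pi_gt_three])
    have b : Real.pi ^ 2 ≤ 10 := by nlinarith [Real.pi_lt_d2, Real.pi_pos]
    have c : 1 / 5 ≤ 2 / Real.pi ^ 2 := by
      rw [le_div_iff₀ (by positivity)]
      linarith
    nlinarith [sq_nonneg lam]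
  have hp1 := push hH hh meas_rs 0 (hR ▸ hRt)
  have hp2 := push hH hh (meas_iv (-1)) (-1 / 2) (hm ▸ hmt)
  rw [← hR] at hp1
  rw [← hm] at hp2
  have htot := total_le h0
  rw [← hm] at htot
  have hsh : ∫⁻ p, ENNReal.ofReal (1 - Real.cos (lam * (p.2 + 0))) * (iv 0 (sc p) * gy p) ∂ν =
      ∫⁻ p, ENNReal.ofReal (1 - Real.cos (lam * (p.2 + -1))) * (iv (-1) (sc p) * gy p) ∂ν := by
    rw [← shift h0 ((m3 0).fun_mul (m1 0))]
    refine lintegral_congr fun p => ?_
    have e := iv_shift (-1) (sc p)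
    rw [neg_add_cancel] at e
    rw [sc_g0, gy_g0, e]
    simp [g0]
  have hpair : ∀ t : ℝ, ENNReal.ofReal (1 - Real.cos (lam * (t + 0))) +
      ENNReal.ofReal (1 - Real.cos (lam * (t + -1))) = ENNReal.ofReal (2 - 2 * Real.cos (lam / 2)) +
      ENNReal.ofReal (2 * Real.cos (lam / 2)) * ENNReal.ofReal (1 - Real.cos (lam * (t + -1 / 2))) := by
    intro t
    have n1 : ∀ x : ℝ, 0 ≤ 1 - Real.cos x := fun x => sub_nonneg.2 (Real.cos_le_one x)
    rw [← ENNReal.ofReal_mul (by linarith), ← ENNReal.ofReal_add (n1 _) (n1 _),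
      ← ENNReal.ofReal_add (by linarith [n1 (lam / 2)]) (mul_nonneg (by linarith) (n1 _))]
    congr 1
    have e1 : lam * (t + 0) = lam * (t + -1 / 2) + lam / 2 := by ring
    have e2 : lam * (t + -1) = lam * (t + -1 / 2) - lam / 2 := by ring
    rw [e1, e2, Real.cos_add, Real.cos_sub]
    ring
  have hrhs : ∫⁻ p, ENNReal.ofReal (1 - Real.cos (lam * p.2)) * gam p.1 ∂ν =
      ∫⁻ p, ENNReal.ofReal (1 - Real.cos (lam * (p.2 + 0))) * (rs (sc p) * gy p) ∂ν +
      ENNReal.ofReal 0.6 * (ENNReal.ofReal (2 - 2 * Real.cos (lam / 2)) * m +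
        ENNReal.ofReal (2 * Real.cos (lam / 2)) * ∫⁻ p, ENNReal.ofReal
          (1 - Real.cos (lam * (p.2 + -1 / 2))) * (iv (-1) (sc p) * gy p) ∂ν) := by
    rw [hm, ← lintegral_const_mul _ (m1 _), ← lintegral_const_mul _ ((m3 _).fun_mul (m1 _)),
      ← lintegral_add_left ((m1 _).const_mul _)]
    simp only [← mul_assoc, ← add_mul, ← hpair]
    simp only [mul_assoc, add_mul]
    rw [lintegral_add_left ((m3 _).fun_mul (m1 _)), ← hsh, mul_add,
      ← lintegral_const_mul _ ((m3 _).fun_mul (m1 _)), ← lintegral_const_mul _ ((m3 _).fun_mul (m1 _)),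
      ← lintegral_add_left (((m3 _).fun_mul (m1 _)).const_mul _),
      ← lintegral_add_left ((m3 _).fun_mul m2)]
    refine lintegral_congr fun p => ?_
    rw [hsp, add_zero]
    ring
  rw [hrhs]
  refine le_trans ?_ (add_le_add hp1 (mul_le_mul_right (add_le_add_right
    (mul_le_mul_right hp2 _) _) _))
  rw [hZe] at htot ⊢
  lift R to NNReal using hRt
  lift m to NNReal using hmt
  have n1 : 0 ≤ 2 - 2 * Real.cos (lam / 2) := by linarith [Real.cos_le_one (lam / 2)]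
  have hD : ENNReal.ofReal (1 - d) = ENNReal.ofReal (max (1 - d) 0) := by
    rw [ENNReal.ofReal_max, ENNReal.ofReal_zero, max_eq_left zero_le]
  have hD0 : 0 ≤ max (1 - d) 0 := le_max_right _ _
  have hD1 : 1 - d ≤ max (1 - d) 0 := le_max_left _ _
  have hR0 : (0 : ℝ) ≤ R := R.2
  have hm0 : (0 : ℝ) ≤ m := m.2
  rw [← ENNReal.ofReal_coe_nnreal (p := R), ← ENNReal.ofReal_coe_nnreal (p := m)] at htot ⊢
  rw [hD]
  generalize max (1 - d) 0 = D at hD0 hD1
  rw [← ENNReal.ofReal_mul (by norm_num), ← ENNReal.ofReal_mul (by norm_num),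
    ← ENNReal.ofReal_add hR0 (by positivity), ← ENNReal.ofReal_add (by positivity) (by positivity),
    ENNReal.ofReal_le_ofReal_iff (by positivity)] at htot
  rw [← ENNReal.ofReal_mul (by norm_num), ← ENNReal.ofReal_add hR0 (by positivity),
    ← ENNReal.ofReal_add (by positivity) (by positivity), ← ENNReal.ofReal_mul' (by positivity),
    ← ENNReal.ofReal_mul hD0, ← ENNReal.ofReal_mul hD0, ← ENNReal.ofReal_mul n1,
    ← ENNReal.ofReal_mul (by positivity), ← ENNReal.ofReal_add (by positivity) (by positivity),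
    ← ENNReal.ofReal_mul (by norm_num), ← ENNReal.ofReal_add (by positivity) (by positivity)]
  refine ENNReal.ofReal_le_ofReal ?_
  have a1 : (1 - d) * R ≤ D * R := mul_le_mul_of_nonneg_right hD1 hR0
  have a2 : Real.cos (lam / 2) * ((1 - d) * m) ≤ Real.cos (lam / 2) * (D * m) :=
    mul_le_mul_of_nonneg_left (mul_le_mul_of_nonneg_right hD1 hm0) hC0
  have a3 : d * lam ^ 2 * (R + 0.6 * m + 0.6 * m) ≤ d * lam ^ 2 * (5.2 * m) :=
    mul_le_mul_of_nonneg_left htot (by positivity)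
  have a4 : d * m * Real.cos (lam / 2) ≤ d * m * (1 - lam ^ 2 / 20) :=
    mul_le_mul_of_nonneg_left hC1 (by positivity)
  have a5 : 0 ≤ d * lam ^ 2 * m := by positivity
  nlinarith

end AFin

theorem fin (hC : CmpStmt) : FinStmt := by
  intro lam ι _ G a hl ha h1
  refine hC lam _ ι Unit G {(fun _ => 1, -1)} ℝ (LinearMap.toSpanSingleton ℝ _ a)
    (LinearMap.toSpanSingleton ℝ _ fun _ => 1) (fun x => ?_) ?_ (AFin.unit_case lam hl)
  · simp only [LinearMap.toSpanSingleton_apply, Pi.smul_apply, smul_eq_mul, mul_pow, ← mul_sum]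
    simpa using mul_le_mul_of_nonneg_left h1 (sq_nonneg x)
  · rintro g rfl
    exact ⟨1, by simp, by simpa using ha⟩

end Pool.Agent.Lib.MP_9cc147_pr.AllU
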