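import Pool.Agent.Lib.MP_9cc147_pr.U.Defs

/-! Section A: removal of one integer constraint. -/

open Finset MeasureTheory Real
open scoped ENNReal

namespace Pool.Agent.Lib.MP_9cc147_pr.AllU.A

namespace Rem

theorem geo3 : HasSum (fun n : ℤ => (1 / 2 : ℝ) ^ n.natAbs) 3 := by
  have h1 : HasSum (fun n : ℕ => (1 / 2 : ℝ) ^ (n : ℤ).natAbs) 2 := by
    simpa using hasSum_geometric_two
  have h2 : HasSum (fun n : ℕ => (1 / 2 : ℝ) ^ (-((n : ℤ) + 1)).natAbs) 1 := by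
    have h := hasSum_geometric_two.mul_right (1 / 2 : ℝ)
    have e : (fun n : ℕ => (1 / 2 : ℝ) ^ (-((n : ℤ) + 1)).natAbs) =
        fun n : ℕ => (1 / 2 : ℝ) ^ n * (1 / 2) := by
      funext n
      have : (-((n : ℤ) + 1)).natAbs = n + 1 := by omega
      rw [this, pow_succ]
    rw [e]
    simpa using h
  have h := HasSum.of_nat_of_neg_add_one (f := fun n : ℤ => (1 / 2 : ℝ) ^ n.natAbs) h1 h2
  norm_num at h ⊢
  exact h

theorem term_le {q : ℝ} (hq : 0 < q) (hq1 : q ≤ 1) {n : ℤ} (hn : n ≠ 0) :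
    Real.exp (-π * (2 * π / q) * (n : ℝ) ^ 2) ≤ Real.exp (-(10 / q)) * (1 / 2 : ℝ) ^ n.natAbs := by
  have hm : (1 : ℝ) ≤ (n.natAbs : ℝ) := by
    have : 1 ≤ n.natAbs := by omega
    exact_mod_cast this
  have hsq : (n : ℝ) ^ 2 = (n.natAbs : ℝ) ^ 2 := by
    rw [Nat.cast_natAbs, Int.cast_abs, sq_abs]
  have h2 : Real.exp (-1) ≤ 1 / 2 := by
    rw [Real.exp_neg, one_div]
    refine inv_anti₀ (by norm_num) ?_
    have := Real.add_one_le_exp (1 : ℝ)
    linarith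
  have h3 : Real.exp (-(n.natAbs : ℝ)) ≤ (1 / 2 : ℝ) ^ n.natAbs := by
    have : Real.exp (-(n.natAbs : ℝ)) = Real.exp (-1) ^ n.natAbs := by
      rw [← Real.exp_nat_mul]; congr 1; ring
    rw [this]
    exact pow_le_pow_left₀ (Real.exp_pos _).le h2 _
  refine le_trans ?_ (mul_le_mul_of_nonneg_left h3 (Real.exp_pos _).le)
  rw [← Real.exp_add, Real.exp_le_exp, hsq]
  set m : ℝ := (n.natAbs : ℝ)
  have hpi : 9 ≤ π * π := by nlinarith [Real.pi_gt_three]
  have hi : 1 ≤ 1 / q := by rw [le_div_iff₀ hq]; linarith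
  have e1 : -π * (2 * π / q) * m ^ 2 = -(2 * (π * π) * m ^ 2 * (1 / q)) := by ring
  have e2 : 10 / q = 10 * (1 / q) := by ring
  rw [e1, e2]
  set u : ℝ := 1 / q
  have hm2 : m ≤ m ^ 2 := by nlinarith
  have h4 : 10 + m ≤ 2 * (π * π) * m ^ 2 := by nlinarith
  have h5 : (10 + m) * u ≤ 2 * (π * π) * m ^ 2 * u := mul_le_mul_of_nonneg_right h4 (by linarith)
  nlinarith

theorem theta_real {q : ℝ} (hq : 0 < q) (hq1 : q ≤ 1) (s : ℝ) :
    |(∑' k : ℤ, Real.exp (-(q / 2) * (s + k) ^ 2)) / Real.sqrt (π / (q / 2)) - 1| ≤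
      3 * Real.exp (-(10 / q)) := by
  have ha : 0 < 2 * π / q := by positivity
  have key := Complex.tsum_exp_neg_quadratic (a := ((2 * π / q : ℝ) : ℂ))
    (by rwa [Complex.ofReal_re]) (-Complex.I * s)
  set F : ℤ → ℂ := fun n => Complex.exp (-π * ((2 * π / q : ℝ) : ℂ) * n ^ 2 +
    2 * π * (-Complex.I * s) * n) with hF
  have hn : ∀ n : ℤ, ‖F n‖ = Real.exp (-π * (2 * π / q) * (n : ℝ) ^ 2) := by
    intro n
    have e : -π * ((2 * π / q : ℝ) : ℂ) * n ^ 2 + 2 * π * (-Complex.I * s) * n =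
        ((-π * (2 * π / q) * (n : ℝ) ^ 2 : ℝ) : ℂ) + ((-(2 * π * s * n) : ℝ) : ℂ) * Complex.I := by
      push_cast; ring
    simp only [hF]
    rw [e, Complex.exp_add, norm_mul, Complex.norm_exp_ofReal_mul_I, mul_one,
      Complex.norm_exp_ofReal]
  have hr1 : Real.exp (-(10 / q)) ≤ 1 := by
    rw [Real.exp_le_one_iff]; have : 0 < 10 / q := by positivity
    linarith
  have hF0 : F 0 = 1 := by simp [hF]
  have hsum : Summable F := by
    refine Summable.of_norm_bounded geo3.summable fun n => ?_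
    by_cases h : n = 0
    · subst h; simp [hF0]
    · rw [hn]
      refine (term_le hq hq1 h).trans ?_
      exact mul_le_of_le_one_left (by positivity) hr1
  have hb : ‖∑' n, F n - 1‖ ≤ 3 * Real.exp (-(10 / q)) := by
    rw [hsum.tsum_eq_add_tsum_ite 0, hF0, add_sub_cancel_left, mul_comm]
    refine tsum_of_norm_bounded (geo3.mul_left (Real.exp (-(10 / q)))) fun n => ?_
    by_cases h : n = 0
    · rw [if_pos h, norm_zero]; positivity
    · rw [if_neg h, hn]; exact term_le hq hq1 h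
  have e1 : ∀ n : ℤ, Complex.exp (-π / ((2 * π / q : ℝ) : ℂ) * (n + Complex.I * (-Complex.I * s)) ^ 2)
      = ((Real.exp (-(q / 2) * (s + n) ^ 2) : ℝ) : ℂ) := by
    intro n
    have hp : (π : ℂ) ≠ 0 := by exact_mod_cast Real.pi_ne_zero
    have hq' : (q : ℂ) ≠ 0 := by exact_mod_cast hq.ne'
    have hI : Complex.I * (-Complex.I * s) = s := by
      rw [← mul_assoc, mul_neg, Complex.I_mul_I]; ring
    rw [hI, Complex.ofReal_exp]
    congr 1
    push_cast
    field_simp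
    ring
  have e2 : ((2 * π / q : ℝ) : ℂ) ^ (1 / 2 : ℂ) = ((Real.sqrt (π / (q / 2)) : ℝ) : ℂ) := by
    have : π / (q / 2) = 2 * π / q := by field_simp
    rw [this, Real.sqrt_eq_rpow, Complex.ofReal_cpow ha.le]
    norm_num
  simp only [e1, e2] at key
  rw [← Complex.ofReal_tsum] at key
  rw [key] at hb
  rw [← Real.norm_eq_abs, ← Complex.norm_real]
  convert hb using 2
  push_cast
  ring

/-- Gaussian on the line -/
noncomputable def ex (q x : ℝ) : ℝ≥0∞ := ENNReal.ofReal (Real.exp (-(q / 2) * x ^ 2))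

/-- its periodization -/
noncomputable def th (q s : ℝ) : ℝ≥0∞ := ∑' k : ℤ, ex q (s + k)

theorem ex_meas (q : ℝ) : Measurable (ex q) := by unfold ex; fun_prop

theorem th_meas (q : ℝ) : Measurable (th q) :=
  Measurable.tsum fun k => (ex_meas q).comp (measurable_add_const (k : ℝ))

theorem th_per (q s : ℝ) (k : ℤ) : th q (s + k) = th q s := by
  unfold th
  rw [← (Equiv.addLeft k).tsum_eq fun j : ℤ => ex q (s + j)]
  refine tsum_congr fun j => ?_
  simp [add_assoc]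

theorem ex_int {q : ℝ} (hq : 0 < q) :
    ∫⁻ x, ex q x = ENNReal.ofReal (Real.sqrt (π / (q / 2))) := by
  unfold ex
  rw [← ofReal_integral_eq_lintegral_ofReal (integrable_exp_neg_mul_sq (by positivity))
    (Filter.Eventually.of_forall fun x => (Real.exp_pos _).le), integral_gaussian]

theorem small {q : ℝ} (hq : 0 < q) (hq1 : q ≤ 1) : Real.exp (-(10 / q)) ≤ 1 / 11 := by
  have h : 10 ≤ 10 / q := by rw [le_div_iff₀ hq]; linarith
  rw [Real.exp_neg, one_div]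
  refine inv_anti₀ (by norm_num) ?_
  have := Real.add_one_le_exp (10 / q)
  linarith

theorem th_bd {q : ℝ} (hq : 0 < q) (hq1 : q ≤ 1) (s : ℝ) :
    ∃ t : ℝ, th q s = ENNReal.ofReal t ∧
      (1 - 3 * Real.exp (-(10 / q))) * Real.sqrt (π / (q / 2)) ≤ t ∧
      t ≤ (1 + 3 * Real.exp (-(10 / q))) * Real.sqrt (π / (q / 2)) := by
  have h := theta_real hq hq1 s
  have hs := small hq hq1
  have hI : 0 < Real.sqrt (π / (q / 2)) := Real.sqrt_pos.2 (by positivity)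
  have hsum : Summable fun k : ℤ => Real.exp (-(q / 2) * (s + k) ^ 2) := by
    by_contra hn
    rw [tsum_eq_zero_of_not_summable hn] at h
    norm_num at h
    linarith
  refine ⟨_, (ENNReal.ofReal_tsum_of_nonneg (fun k => (Real.exp_pos _).le) hsum).symm, ?_, ?_⟩
  · rw [← le_div_iff₀ hI]; linarith [(abs_le.1 h).1]
  · rw [← div_le_iff₀ hI]; linarith [(abs_le.1 h).2]

theorem sum_Ico {f : ℝ → ℝ≥0∞} :
    ∑' k : ℤ, ∫⁻ u in Set.Ico (0 : ℝ) 1, f (u + k) = ∫⁻ u, f u := by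
  have h := lintegral_iUnion (μ := volume) (s := fun k : ℤ => Set.Ico (k : ℝ) (k + 1))
    (fun k => measurableSet_Ico) (Set.pairwise_disjoint_Ico_intCast ℝ) f
  rw [iUnion_Ico_intCast, Measure.restrict_univ] at h
  rw [h]
  refine tsum_congr fun k => ?_
  rw [← lintegral_indicator measurableSet_Ico, ← lintegral_indicator measurableSet_Ico,
    ← lintegral_add_right_eq_self ((Set.Ico (k : ℝ) (k + 1)).indicator f) (k : ℝ)]
  refine lintegral_congr fun u => ?_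
  have e : u + k ∈ Set.Ico (k : ℝ) (k + 1) ↔ u ∈ Set.Ico (0 : ℝ) 1 := by
    simp only [Set.mem_Ico]
    constructor <;> rintro ⟨h1, h2⟩ <;> constructor <;> linarith
  by_cases hu : u ∈ Set.Ico (0 : ℝ) 1
  · rw [Set.indicator_of_mem hu, Set.indicator_of_mem (e.2 hu)]
  · rw [Set.indicator_of_notMem hu, Set.indicator_of_notMem (mt e.1 hu)]

variable {ι : Type} [Fintype ι]

theorem lint_shift {ν : Measure ((ι → ℝ) × ℝ)} {g : (ι → ℝ) × ℝ} (h : ν.map (fun p => p + g) = ν)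
    {f : (ι → ℝ) × ℝ → ℝ≥0∞} (hf : Measurable f) : ∫⁻ p, f (p + g) ∂ν = ∫⁻ p, f p ∂ν := by
  rw [← lintegral_map hf (measurable_add_const g), h]

theorem map_of_lint {ν : Measure ((ι → ℝ) × ℝ)} {g : (ι → ℝ) × ℝ}
    (h : ∀ f : (ι → ℝ) × ℝ → ℝ≥0∞, Measurable f → ∫⁻ p, f (p + g) ∂ν = ∫⁻ p, f p ∂ν) :
    ν.map (fun p => p + g) = ν := by
  refine Measure.ext_of_lintegral _ fun f hf => ?_
  rw [lintegral_map hf (measurable_add_const g), h f hf]

theorem map_add {ν : Measure ((ι → ℝ) × ℝ)} {x y : (ι → ℝ) × ℝ}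
    (hx : ν.map (fun p => p + x) = ν) (hy : ν.map (fun p => p + y) = ν) :
    ν.map (fun p => p + (x + y)) = ν := by
  refine map_of_lint fun f hf => ?_
  rw [← lint_shift hy hf,
    ← lint_shift hx (f := fun p => f (p + y)) (hf.comp (measurable_add_const y))]
  simp only [add_assoc]

theorem inv_closure {G : Set ((ι → ℝ) × ℝ)} {ν : Measure ((ι → ℝ) × ℝ)} (h : Inv G ν) :
    Inv (AddSubgroup.closure G) ν := by
  intro g hg
  induction hg using AddSubgroup.closure_induction with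
  | mem x hx => exact h x hx
  | zero => simp
  | add x y _ _ hx hy => exact map_add hx hy
  | neg x _ hx =>
    refine map_of_lint fun f hf => ?_
    rw [← lint_shift hx (f := fun p => f (p + -x)) (hf.comp (measurable_add_const (-x)))]
    simp only [add_neg_cancel_right]

/-- the average of `ν` over the shifts by `u • A`, `0 ≤ u < 1` -/
noncomputable def avg (ν : Measure ((ι → ℝ) × ℝ)) (A : (ι → ℝ) × ℝ) : Measure ((ι → ℝ) × ℝ) :=
  (ν.prod (volume.restrict (Set.Ico (0 : ℝ) 1))).map fun x => x.1 + x.2 • A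

theorem sh_meas (A : (ι → ℝ) × ℝ) : Measurable fun x : ((ι → ℝ) × ℝ) × ℝ => x.1 + x.2 • A := by
  fun_prop

theorem lint_avg (ν : Measure ((ι → ℝ) × ℝ)) (A : (ι → ℝ) × ℝ) {f : (ι → ℝ) × ℝ → ℝ≥0∞}
    (hf : Measurable f) :
    ∫⁻ p, f p ∂avg ν A = ∫⁻ p, (∫⁻ u in Set.Ico (0 : ℝ) 1, f (p + u • A)) ∂ν := by
  unfold avg
  rw [lintegral_map hf (sh_meas A)]
  exact lintegral_prod _ (hf.comp (sh_meas A)).aemeasurable

theorem unfold_avg {ν : Measure ((ι → ℝ) × ℝ)} {A : (ι → ℝ) × ℝ}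
    (hA : ∀ k : ℤ, ν.map (fun p => p + (k : ℝ) • A) = ν) {ψ f : (ι → ℝ) × ℝ → ℝ≥0∞}
    (hψ : Measurable ψ) (h1 : ∀ p, ∑' k : ℤ, ψ (p - (k : ℝ) • A) = 1) (hf : Measurable f) :
    ∫⁻ p, f p ∂avg ν A = ∫⁻ p, ψ p * ∫⁻ u : ℝ, f (p + u • A) ∂volume ∂ν := by
  rw [lint_avg ν A hf]
  set g : (ι → ℝ) × ℝ → ℝ≥0∞ := fun p => ∫⁻ u in Set.Ico (0 : ℝ) 1, f (p + u • A) with hg
  have hgm : Measurable g := (hf.comp (sh_meas A)).lintegral_prod_right'
  have hm : ∀ k : ℤ, Measurable fun p => ψ (p - (k : ℝ) • A) * g p := fun k =>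
    (hψ.comp (measurable_sub_const _)).mul hgm
  have hm' : ∀ k : ℤ, Measurable fun p => ψ p * g (p + (k : ℝ) • A) := fun k =>
    hψ.mul (hgm.comp (measurable_add_const _))
  calc ∫⁻ p, g p ∂ν = ∫⁻ p, ∑' k : ℤ, ψ (p - (k : ℝ) • A) * g p ∂ν := by
        refine lintegral_congr fun p => ?_
        rw [ENNReal.tsum_mul_right, h1, one_mul]
    _ = ∑' k : ℤ, ∫⁻ p, ψ p * g (p + (k : ℝ) • A) ∂ν := by
        rw [lintegral_tsum fun k => (hm k).aemeasurable]
        refine tsum_congr fun k => ?_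
        rw [← lint_shift (hA k) (hm k)]
        simp only [add_sub_cancel_right]
    _ = _ := by
        rw [← lintegral_tsum fun k => (hm' k).aemeasurable]
        refine lintegral_congr fun p => ?_
        rw [ENNReal.tsum_mul_left, ← sum_Ico (f := fun u => f (p + u • A))]
        congr 1
        refine tsum_congr fun k => lintegral_congr fun u => ?_
        rw [add_smul]
        congr 1
        abel

theorem avg_inv {ν : Measure ((ι → ℝ) × ℝ)} (A : (ι → ℝ) × ℝ) {g : (ι → ℝ) × ℝ}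
    (h : ν.map (fun p => p + g) = ν) : (avg ν A).map (fun p => p + g) = avg ν A := by
  refine map_of_lint fun f hf => ?_
  rw [lint_avg ν A hf, lint_avg ν A (f := fun p => f (p + g)) (hf.comp (measurable_add_const g)),
    ← lint_shift h (f := fun p => ∫⁻ u in Set.Ico (0 : ℝ) 1, f (p + u • A))
      (hf.comp (sh_meas A)).lintegral_prod_right']
  refine lintegral_congr fun p => lintegral_congr fun u => ?_
  congr 1
  abel

theorem avg_line {ν : Measure ((ι → ℝ) × ℝ)} {A : (ι → ℝ) × ℝ}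
    (hA : ∀ k : ℤ, ν.map (fun p => p + (k : ℝ) • A) = ν) {ψ : (ι → ℝ) × ℝ → ℝ≥0∞}
    (hψ : Measurable ψ) (h1 : ∀ p, ∑' k : ℤ, ψ (p - (k : ℝ) • A) = 1) (s : ℝ) :
    (avg ν A).map (fun p => p + s • A) = avg ν A := by
  refine map_of_lint fun f hf => ?_
  rw [unfold_avg hA hψ h1 hf, unfold_avg hA hψ h1 (f := fun p => f (p + s • A))
    (hf.comp (measurable_add_const _))]
  refine lintegral_congr fun p => ?_
  rw [← lintegral_add_right_eq_self (fun u : ℝ => f (p + u • A)) s]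
  simp only [add_smul, add_assoc]

theorem dens_inv {ν : Measure ((ι → ℝ) × ℝ)} {g : (ι → ℝ) × ℝ} (h : ν.map (fun p => p + g) = ν)
    {w : (ι → ℝ) × ℝ → ℝ≥0∞} (hw : Measurable w) (hg : ∀ p, w (p + g) = w p) :
    (ν.withDensity w).map (fun p => p + g) = ν.withDensity w := by
  refine map_of_lint fun f hf => ?_
  rw [lintegral_withDensity_eq_lintegral_mul ν hw hf,
    lintegral_withDensity_eq_lintegral_mul ν hw (g := fun p => f (p + g))
      (hf.comp (measurable_add_const g)), ← lint_shift h (hw.mul hf)]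
  simp only [Pi.mul_apply, hg]

theorem gam_meas : Measurable fun p : (ι → ℝ) × ℝ => gam p.1 := by unfold gam; fun_prop

/-- coordinate along `a` -/
noncomputable def co (a : ι → ℝ) (p : (ι → ℝ) × ℝ) : ℝ := (∑ i, p.1 i * a i) / ∑ i, a i ^ 2

theorem co_meas (a : ι → ℝ) : Measurable (co a) := by unfold co; fun_prop

theorem co_add (a : ι → ℝ) (p g : (ι → ℝ) × ℝ) : co a (p + g) = co a p + co a g := by
  simp only [co, Prod.fst_add, Pi.add_apply, add_mul, sum_add_distrib, add_div]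

theorem co_sub {a : ι → ℝ} (ha : 0 < ∑ i, a i ^ 2) (p : (ι → ℝ) × ℝ) (u : ℝ) :
    co a (p - u • (a, (0 : ℝ))) = co a p - u := by
  have e : ∀ i, (p.1 i - u * a i) * a i = p.1 i * a i - u * a i ^ 2 := fun i => by ring
  simp only [co, Prod.fst_sub, Prod.smul_mk, Pi.sub_apply, Pi.smul_apply, smul_eq_mul, e,
    sum_sub_distrib, ← mul_sum]
  field_simp

theorem gam_shift {a : ι → ℝ} (ha : 0 < ∑ i, a i ^ 2) (p : (ι → ℝ) × ℝ) (u : ℝ) :
    ex (∑ i, a i ^ 2) (co a p) * gam (p + u • (a, (0 : ℝ))).1 =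
      gam p.1 * ex (∑ i, a i ^ 2) (co a p + u) := by
  unfold ex gam
  rw [← ENNReal.ofReal_mul (Real.exp_pos _).le, ← ENNReal.ofReal_mul (Real.exp_pos _).le,
    ← Real.exp_add, ← Real.exp_add]
  congr 2
  have e : ∀ i, (p.1 i + u * a i) ^ 2 = p.1 i ^ 2 + 2 * u * (p.1 i * a i) + u ^ 2 * a i ^ 2 :=
    fun i => by ring
  simp only [co, Prod.fst_add, Prod.smul_mk, Pi.add_apply, Pi.smul_apply, smul_eq_mul, e,
    sum_add_distrib, ← mul_sum]
  field_simp
  ring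

theorem split {ν : Measure ((ι → ℝ) × ℝ)} [SFinite ν] {a : ι → ℝ} (ha : 0 < ∑ i, a i ^ 2)
    (ha1 : ∑ i, a i ^ 2 ≤ 1) (hA : ∀ k : ℤ, ν.map (fun p => p + (k : ℝ) • (a, (0 : ℝ))) = ν) :
    ∃ (c : ℝ≥0∞) (w : (ι → ℝ) × ℝ → ℝ≥0∞), c ≠ 0 ∧ Measurable w ∧
      (∀ g : (ι → ℝ) × ℝ, ∑ i, g.1 i * a i = 0 → ∀ p, w (p + g) = w p) ∧
      (∀ s : ℝ, (avg ν (a, 0)).map (fun p => p + s • (a, (0 : ℝ))) = avg ν (a, 0)) ∧
      (∀ h : ℝ → ℝ≥0∞, Measurable h → ∫⁻ p, h p.2 * gam p.1 ∂ν =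
        c * ∫⁻ p, h p.2 * gam p.1 ∂avg ν (a, 0) + ∫⁻ p, h p.2 * gam p.1 ∂ν.withDensity w) ∧
      ENNReal.ofReal (1 - 6 * Real.exp (-(10 / ∑ i, a i ^ 2))) * ∫⁻ p, gam p.1 ∂ν ≤
        c * ∫⁻ p, gam p.1 ∂avg ν (a, 0) := by
  set q := ∑ i, a i ^ 2 with hq
  set z := 3 * Real.exp (-(10 / q)) with hz
  set J := Real.sqrt (π / (q / 2)) with hJ
  have hz0 : 0 < z := by positivity
  have hz1 : z ≤ 3 / 11 := by linarith [small ha ha1]
  have hJ0 : 0 < J := Real.sqrt_pos.2 (by positivity)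
  have hpos : 0 < (1 - z) * J := mul_pos (by linarith) hJ0
  have hth : ∀ s, th q s ≠ 0 ∧ th q s ≠ ⊤ := fun s => by
    obtain ⟨t, e, h1, -⟩ := th_bd ha ha1 s
    rw [e]
    exact ⟨(ENNReal.ofReal_pos.2 (hpos.trans_le h1)).ne', ENNReal.ofReal_ne_top⟩
  set ψ : (ι → ℝ) × ℝ → ℝ≥0∞ := fun p => ex q (co a p) * (th q (co a p))⁻¹ with hψ
  have hti : Measurable fun p : (ι → ℝ) × ℝ => (th q (co a p))⁻¹ :=
    ((th_meas q).comp (co_meas a)).inv
  have hψm : Measurable ψ := ((ex_meas q).comp (co_meas a)).mul hti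
  have h1 : ∀ p, ∑' k : ℤ, ψ (p - (k : ℝ) • (a, (0 : ℝ))) = 1 := fun p => by
    have e : ∀ k : ℤ, ψ (p - (k : ℝ) • (a, (0 : ℝ))) =
        ex q (co a p + ((-k : ℤ) : ℝ)) * (th q (co a p))⁻¹ := fun k => by
      simp only [hψ]
      rw [co_sub ha, sub_eq_add_neg, ← Int.cast_neg, th_per]
    have e2 : ∑' k : ℤ, ex q (co a p + ((-k : ℤ) : ℝ)) = th q (co a p) :=
      (Equiv.neg ℤ).tsum_eq fun k : ℤ => ex q (co a p + k)
    simp only [e]
    rw [ENNReal.tsum_mul_right, e2]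
    exact ENNReal.mul_inv_cancel (hth _).1 (hth _).2
  set r : (ι → ℝ) × ℝ → ℝ≥0∞ := fun p => ENNReal.ofReal ((1 - z) * J) * (th q (co a p))⁻¹ with hr
  have hrm : Measurable r := hti.const_mul _
  have hr1 : ∀ p, r p ≤ 1 ∧ ENNReal.ofReal (1 - 2 * z) ≤ r p := fun p => by
    obtain ⟨t, e, h2, h3⟩ := th_bd ha ha1 (co a p)
    have ht : 0 < t := hpos.trans_le h2
    simp only [hr]
    rw [e, ← ENNReal.ofReal_inv_of_pos ht, ← ENNReal.ofReal_mul hpos.le, ← div_eq_mul_inv]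
    refine ⟨ENNReal.ofReal_le_one.2 ((div_le_one ht).2 h2), ENNReal.ofReal_le_ofReal ?_⟩
    rw [le_div_iff₀ ht]
    have h4 : (1 - 2 * z) * t ≤ (1 - 2 * z) * ((1 + z) * J) :=
      mul_le_mul_of_nonneg_left h3 (by linarith)
    nlinarith [mul_pos hJ0 (mul_pos hz0 hz0)]
  have hav : ∀ h : ℝ → ℝ≥0∞, Measurable h →
      ENNReal.ofReal (1 - z) * ∫⁻ p, h p.2 * gam p.1 ∂avg ν (a, 0) =
        ∫⁻ p, r p * (h p.2 * gam p.1) ∂ν := fun h hh => by
    have hf : Measurable fun p : (ι → ℝ) × ℝ => h p.2 * gam p.1 :=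
      (hh.comp measurable_snd).mul gam_meas
    rw [unfold_avg hA hψm h1 hf, ← lintegral_const_mul' _ _ ENNReal.ofReal_ne_top]
    refine lintegral_congr fun p => ?_
    have e1 : ex q (co a p) * ∫⁻ u : ℝ, h (p + u • (a, (0 : ℝ))).2 * gam (p + u • (a, (0 : ℝ))).1 =
        h p.2 * gam p.1 * ENNReal.ofReal J := by
      have hm : Measurable fun u : ℝ => ex q (co a p + u) :=
        (ex_meas q).comp (measurable_const_add _)
      rw [← lintegral_const_mul' _ _ (show ex q (co a p) ≠ ⊤ from ENNReal.ofReal_ne_top), hJ,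
        ← ex_int ha, ← lintegral_add_left_eq_self (ex q) (co a p), ← lintegral_const_mul _ hm]
      refine lintegral_congr fun u => ?_
      have e2 : (p + u • (a, (0 : ℝ))).2 = p.2 := by simp
      rw [e2, mul_left_comm, gam_shift ha, mul_assoc]
    simp only [hψ, hr]
    rw [mul_right_comm (ex q (co a p)), e1, ENNReal.ofReal_mul (by linarith)]
    ring
  refine ⟨ENNReal.ofReal (1 - z), fun p => 1 - r p, (ENNReal.ofReal_pos.2 (by linarith)).ne',
    measurable_const.sub hrm, fun g hg p => ?_, avg_line hA hψm h1, fun h hh => ?_, ?_⟩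
  · simp only [hr]
    rw [co_add]
    simp [co, hg]
  · have hf : Measurable fun p : (ι → ℝ) × ℝ => h p.2 * gam p.1 :=
      (hh.comp measurable_snd).mul gam_meas
    have hw : Measurable fun p => 1 - r p := measurable_const.sub hrm
    have hm : Measurable fun p : (ι → ℝ) × ℝ => r p * (h p.2 * gam p.1) := hrm.mul hf
    rw [hav h hh, lintegral_withDensity_eq_lintegral_mul ν hw hf, ← lintegral_add_left hm]
    refine lintegral_congr fun p => ?_
    simp only [Pi.mul_apply]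
    rw [← add_mul, add_tsub_cancel_of_le (hr1 p).1, one_mul]
  · have h2 := hav (fun _ => 1) measurable_const
    simp only [one_mul] at h2
    rw [h2, ← lintegral_const_mul _ gam_meas]
    refine lintegral_mono fun p => mul_le_mul_left ?_ _
    have e : 1 - 6 * Real.exp (-(10 / q)) = 1 - 2 * z := by rw [hz]; ring
    rw [e]
    exact (hr1 p).2

theorem mix {W V : ℝ≥0∞} (hW : W ≠ ⊤) (hV : V ≠ ⊤) {p d1 d0 : ℝ} (hp0 : 0 ≤ p) (hp1 : p ≤ 1)
    (hd : d1 ≤ d0) (h : ENNReal.ofReal (1 - p) * (W + V) ≤ W) :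
    ENNReal.ofReal (1 - ((1 - p) * d1 + p * d0)) * (W + V) ≤
      ENNReal.ofReal (1 - d1) * W + ENNReal.ofReal (1 - d0) * V := by
  obtain ⟨w, hw, rfl⟩ : ∃ w : ℝ, 0 ≤ w ∧ W = ENNReal.ofReal w :=
    ⟨W.toReal, ENNReal.toReal_nonneg, (ENNReal.ofReal_toReal hW).symm⟩
  obtain ⟨v, hv, rfl⟩ : ∃ v : ℝ, 0 ≤ v ∧ V = ENNReal.ofReal v :=
    ⟨V.toReal, ENNReal.toReal_nonneg, (ENNReal.ofReal_toReal hV).symm⟩
  have hm : ∀ x : ℝ, ENNReal.ofReal x = ENNReal.ofReal (max x 0) := fun x => by simp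
  have hwv : 0 ≤ w + v := add_nonneg hw hv
  rw [← ENNReal.ofReal_add hw hv, ← ENNReal.ofReal_mul' hwv] at h ⊢
  rw [ENNReal.ofReal_le_ofReal_iff hw] at h
  rw [hm (1 - d1), hm (1 - d0), ← ENNReal.ofReal_mul' hw, ← ENNReal.ofReal_mul' hv,
    ← ENNReal.ofReal_add (by positivity) (by positivity)]
  refine ENNReal.ofReal_le_ofReal ?_
  have h1 : 1 - d1 ≤ max (1 - d1) 0 := le_max_left _ _
  have h0 : 1 - d0 ≤ max (1 - d0) 0 := le_max_left _ _
  have h2 : max (1 - d0) 0 ≤ max (1 - d1) 0 := max_le_max (by linarith) le_rfl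
  set x1 := max (1 - d1) 0
  set x0 := max (1 - d0) 0
  have h3 : 1 - ((1 - p) * d1 + p * d0) ≤ (1 - p) * x1 + p * x0 := by
    nlinarith [mul_le_mul_of_nonneg_left h1 (sub_nonneg.2 hp1), mul_le_mul_of_nonneg_left h0 hp0]
  nlinarith [mul_le_mul_of_nonneg_right h3 hwv, mul_nonneg (sub_nonneg.2 h2) (sub_nonneg.2 h)]

theorem core {lam q p d1 d0 : ℝ} {G G1 G0 : Set ((ι → ℝ) × ℝ)} {a : ι → ℝ}
    (ha : (a, (0 : ℝ)) ∈ AddSubgroup.closure G) (hq : ∑ i, a i ^ 2 ≤ q) (hq1 : q ≤ 1)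
    (hp : 8 * Real.exp (-(10 / q)) ≤ p) (hp1 : p ≤ 1)
    (h1 : ∀ g ∈ G1, ∃ s : ℝ, g - s • (a, (0 : ℝ)) ∈ AddSubgroup.closure G)
    (h0 : ∀ g ∈ G0, g ∈ AddSubgroup.closure G ∧ ∑ i, g.1 i * a i = 0)
    (D1 : Dom lam G1 d1) (D0 : Dom lam G0 d0) : Dom lam G ((1 - p) * d1 + p * d0) := by
  intro ν hν hI hZ
  have hc := inv_closure hI
  have hp0 : 0 ≤ p := le_trans (by positivity) hp
  rcases le_total d0 d1 with hd | hd
  · refine le_trans (mul_le_mul_left (ENNReal.ofReal_le_ofReal ?_) _)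
      (D0 ν hν (fun g hg => hc g (h0 g hg).1) hZ)
    nlinarith [mul_nonneg (sub_nonneg.2 hp1) (sub_nonneg.2 hd)]
  rcases (sum_nonneg fun i _ => sq_nonneg (a i) : 0 ≤ ∑ i, a i ^ 2).eq_or_lt with hz | hz
  · have ha0 : a = 0 := by
      funext i
      exact pow_eq_zero_iff (two_ne_zero) |>.1
        ((sum_eq_zero_iff_of_nonneg fun i _ => sq_nonneg (a i)).1 hz.symm i (mem_univ i))
    refine le_trans (mul_le_mul_left (ENNReal.ofReal_le_ofReal ?_) _)
      (D1 ν hν (fun g hg => hc g ?_) hZ)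
    · nlinarith [mul_nonneg hp0 (sub_nonneg.2 hd)]
    · obtain ⟨s, hs⟩ := h1 g hg
      have e : s • (a, (0 : ℝ)) = 0 := by rw [ha0]; exact smul_zero s
      rwa [e, sub_zero] at hs
  have hA : ∀ k : ℤ, ν.map (fun p => p + (k : ℝ) • (a, (0 : ℝ))) = ν := fun k => by
    refine hc _ ?_
    rw [Int.cast_smul_eq_zsmul]
    exact AddSubgroup.zsmul_mem _ ha k
  obtain ⟨c, w, hc0, hw, hwi, hl, hs, hb⟩ := split hz (hq.trans hq1) hA
  have hZs := hs (fun _ => 1) measurable_const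
  simp only [one_mul] at hZs
  have hfin := ENNReal.add_ne_top.1 (hZs ▸ hZ)
  have hZ1 : ∫⁻ p, gam p.1 ∂avg ν (a, 0) ≠ ⊤ := fun e => by
    rw [e, ENNReal.mul_top hc0] at hfin
    exact hfin.1 rfl
  have E1 := D1 (avg ν (a, 0)) (by unfold avg; infer_instance) (fun g hg => by
    obtain ⟨s, hs⟩ := h1 g hg
    have := map_add (avg_inv (a, 0) (hc _ hs)) (hl s)
    rwa [sub_add_cancel] at this) hZ1
  have E0 := D0 (ν.withDensity w) inferInstance
    (fun g hg => dens_inv (hc g (h0 g hg).1) hw (hwi g (h0 g hg).2)) hfin.2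
  rw [hs (fun t => ENNReal.ofReal (1 - Real.cos (lam * t))) (by fun_prop), hZs]
  refine le_trans (mix hfin.1 hfin.2 hp0 hp1 hd ?_) (add_le_add ?_ E0)
  · rw [← hZs]
    refine le_trans (mul_le_mul_left (ENNReal.ofReal_le_ofReal ?_) _) hb
    have h2 : Real.exp (-(10 / ∑ i, a i ^ 2)) ≤ Real.exp (-(10 / q)) :=
      Real.exp_le_exp.2 (neg_le_neg (div_le_div_of_nonneg_left (by norm_num) hz hq))
    linarith [Real.exp_pos (-(10 / q))]
  · rw [mul_left_comm]
    exact mul_le_mul_right E1 _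

/-- extension by zero -/
def emb (κ : Type) : ((ι → ℝ) × ℝ) →+ ((ι ⊕ κ → ℝ) × ℝ) where
  toFun g := (Sum.elim g.1 0, g.2)
  map_zero' := Prod.ext (funext fun x => by cases x <;> simp) rfl
  map_add' g h := Prod.ext (funext fun x => by cases x <;> simp) rfl

omit [Fintype ι] in
theorem emb_cl {κ : Type} {G : Set ((ι → ℝ) × ℝ)} (H : Set ((κ → ℝ) × ℝ)) {g : (ι → ℝ) × ℝ}
    (hg : g ∈ AddSubgroup.closure G) : emb κ g ∈ AddSubgroup.closure (oplus G H) := by
  have h : AddSubgroup.closure G ≤ (AddSubgroup.closure (oplus G H)).comap (emb κ) := by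
    rw [AddSubgroup.closure_le]
    intro x hx
    exact AddSubgroup.subset_closure (Or.inl ⟨x, hx, rfl⟩)
  exact h hg

end Rem

theorem rem : RemStmt := by
  intro lam q p c1 c0 ι _ G G1 G0 a ha hq _ hq1 hp hp1 h1 h0 M1 M0 κ _ H d hd hH
  have e : ((1 - p) * c1 + p * c0) * d = (1 - p) * (c1 * d) + p * (c0 * d) := by ring
  rw [e]
  refine Rem.core (a := Sum.elim a 0) (Rem.emb_cl H ha) (by simpa using hq) hq1 hp hp1 ?_ ?_
    (M1 κ H d hd hH) (M0 κ H d hd hH)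
  · rintro g (⟨g, hg, rfl⟩ | ⟨g, hg, rfl⟩)
    · obtain ⟨s, hs⟩ := h1 g hg
      refine ⟨s, ?_⟩
      convert Rem.emb_cl H hs using 1
      exact Prod.ext (funext fun x => by cases x <;> simp [Rem.emb]) (by simp [Rem.emb])
    · refine ⟨0, ?_⟩
      rw [zero_smul, sub_zero]
      exact AddSubgroup.subset_closure (Or.inr ⟨g, hg, rfl⟩)
  · rintro g (⟨g, hg, rfl⟩ | ⟨g, hg, rfl⟩)
    · exact ⟨Rem.emb_cl H (h0 g hg).1, by simpa using (h0 g hg).2⟩
    · exact ⟨AddSubgroup.subset_closure (Or.inr ⟨g, hg, rfl⟩), by simp⟩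

end Pool.Agent.Lib.MP_9cc147_pr.AllU.A
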