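import Pool.Agent.Lib.MP_9cc147_pr.U.Defs

/-! All potentials, section A: groups with disjoint supports multiply. -/

open Finset MeasureTheory
open scoped ENNReal

namespace Pool.Agent.Lib.MP_9cc147_pr.AllU.A

namespace SumA

variable {ι κ μ : Type} [Fintype ι] [Fintype κ] [Fintype μ]

/-- `Dom` passes along a renaming of the coordinates -/
theorem dom_equiv {lam d : ℝ} (e : ι ≃ κ) {G : Set ((ι → ℝ) × ℝ)} {H : Set ((κ → ℝ) × ℝ)}
    (hGH : ∀ g ∈ G, ∃ h ∈ H, g = (h.1 ∘ e, h.2)) (hD : Dom lam G d) : Dom lam H d := by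
  intro ν hν hI hfin
  let P : (κ → ℝ) × ℝ → (ι → ℝ) × ℝ := fun p => (p.1 ∘ e, p.2)
  have hP : Measurable P :=
    (measurable_pi_lambda _ fun i => (measurable_pi_apply (e i)).comp measurable_fst).prodMk
      measurable_snd
  have hg : ∀ y : κ → ℝ, gam (y ∘ e) = gam y := fun y => by
    unfold gam
    rw [← Equiv.sum_comp e fun j => y j ^ 2]
    rfl
  have mg : Measurable fun p : (ι → ℝ) × ℝ => gam p.1 := by
    unfold gam
    fun_prop
  have mc : Measurable fun p : (ι → ℝ) × ℝ =>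
      ENNReal.ofReal (1 - Real.cos (lam * p.2)) * gam p.1 := by
    refine Measurable.mul ?_ mg
    fun_prop
  have e1 : ∫⁻ p, gam p.1 ∂ν.map P = ∫⁻ p, gam p.1 ∂ν := by
    rw [lintegral_map mg hP]
    exact lintegral_congr fun p => hg p.1
  have e2 : ∫⁻ p, ENNReal.ofReal (1 - Real.cos (lam * p.2)) * gam p.1 ∂ν.map P =
      ∫⁻ p, ENNReal.ofReal (1 - Real.cos (lam * p.2)) * gam p.1 ∂ν := by
    rw [lintegral_map mc hP]
    exact lintegral_congr fun p => by rw [show gam (P p).1 = gam p.1 from hg p.1]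
  have hI' : Inv G (ν.map P) := by
    intro g hgG
    obtain ⟨h, hh, rfl⟩ := hGH g hgG
    have a1 : Measurable fun p : (ι → ℝ) × ℝ => p + (h.1 ∘ e, h.2) := measurable_add_const _
    have a2 : Measurable fun p : (κ → ℝ) × ℝ => p + h := measurable_add_const _
    conv_rhs => rw [← hI h hh]
    rw [Measure.map_map a1 hP, Measure.map_map hP a2]
    rfl
  have := hD (ν.map P) inferInstance hI' (by rw [e1]; exact hfin)
  rwa [e1, e2] at this

theorem mul_oplus {lam c c' : ℝ} {G : Set ((ι → ℝ) × ℝ)} {G' : Set ((κ → ℝ) × ℝ)} (h0 : 0 ≤ c')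
    (h : Mul lam G c) (h' : Mul lam G' c') : Mul lam (oplus G G') (c * c') := by
  intro μ _ H d hd hD
  have h1 := h (κ ⊕ μ) _ _ (mul_nonneg h0 hd) (h' μ H d hd hD)
  rw [mul_assoc]
  refine dom_equiv (Equiv.sumAssoc ι κ μ).symm ?_ h1
  rintro g (⟨a, ha, rfl⟩ | ⟨b, (⟨a, ha, rfl⟩ | ⟨a, ha, rfl⟩), rfl⟩)
  · refine ⟨_, Or.inl ⟨_, Or.inl ⟨a, ha, rfl⟩, rfl⟩, Prod.ext (funext fun i => ?_) rfl⟩
    rcases i with i | i | i <;> rfl
  · refine ⟨_, Or.inl ⟨_, Or.inr ⟨a, ha, rfl⟩, rfl⟩, Prod.ext (funext fun i => ?_) rfl⟩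
    rcases i with i | i | i <;> rfl
  · refine ⟨_, Or.inr ⟨a, ha, rfl⟩, Prod.ext (funext fun i => ?_) rfl⟩
    rcases i with i | i | i <;> rfl

open Classical in
/-- glue two vectors along a set -/
noncomputable def glue (S : Set ι) : (ι ⊕ ι → ℝ) →ₗ[ℝ] ι → ℝ where
  toFun x i := if i ∈ S then x (Sum.inl i) else x (Sum.inr i)
  map_add' x y := by
    funext i
    by_cases h : i ∈ S <;> simp [h]
  map_smul' a x := by
    funext i
    by_cases h : i ∈ S <;> simp [h]

theorem mul_union (hC : CmpStmt) {lam c c' : ℝ} {G G' : Set ((ι → ℝ) × ℝ)} (S : Set ι)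
    (hG : ∀ g ∈ G, ∀ i, i ∉ S → g.1 i = 0) (hG' : ∀ g ∈ G', ∀ i ∈ S, g.1 i = 0) (h0 : 0 ≤ c')
    (h : Mul lam G c) (h' : Mul lam G' c') : Mul lam (G ∪ G') (c * c') := by
  refine hC lam _ ι (ι ⊕ ι) _ (oplus G G') (ι ⊕ ι → ℝ) (glue S) LinearMap.id (fun x => ?_) ?_
    (mul_oplus h0 h h')
  · rw [Fintype.sum_sum_type, ← Finset.sum_add_distrib]
    refine Finset.sum_le_sum fun i _ => ?_
    by_cases hi : i ∈ S <;> simp [glue, hi] <;> positivity
  · rintro g (⟨a, ha, rfl⟩ | ⟨a, ha, rfl⟩)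
    · refine ⟨_, rfl, AddSubgroup.subset_closure (Or.inl ?_)⟩
      have : glue S (Sum.elim a.1 0) = a.1 := by
        funext i
        by_cases hi : i ∈ S
        · simp [glue, hi]
        · simp [glue, hi, hG a ha i hi]
      show (glue S (Sum.elim a.1 0), a.2) ∈ G
      rw [this]
      exact ha
    · refine ⟨_, rfl, AddSubgroup.subset_closure (Or.inr ?_)⟩
      have : glue S (Sum.elim 0 a.1) = a.1 := by
        funext i
        by_cases hi : i ∈ S
        · simp [glue, hi, hG' a ha i hi]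
        · simp [glue, hi]
      show (glue S (Sum.elim 0 a.1), a.2) ∈ G'
      rw [this]
      exact ha

end SumA

open SumA in
theorem sum (hB : BasicStmt) (hC : CmpStmt) : SumStmt := by
  intro lam ι _ G J Gs sp c h1 h2 h3 h4
  have key : ∀ S : Finset ℕ, S ⊆ J → Mul lam {g | ∃ j ∈ S, g ∈ Gs j} (∏ j ∈ S, c j) := by
    intro S
    induction S using Finset.induction_on with
    | empty =>
      intro _
      rw [Finset.prod_empty]
      exact (hB lam ι _).1
    | insert j S hj ih =>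
      intro hS
      have hjJ : j ∈ J := hS (Finset.mem_insert_self j S)
      have hSJ : S ⊆ J := (Finset.subset_insert j S).trans hS
      have e : {g | ∃ j' ∈ insert j S, g ∈ Gs j'} = Gs j ∪ {g | ∃ j' ∈ S, g ∈ Gs j'} := by
        ext g
        simp
      rw [Finset.prod_insert hj, e]
      refine mul_union hC (sp j) (h2 j hjJ) ?_
        (Finset.prod_nonneg fun k hk => (h4 k (hSJ hk)).1) (h4 j hjJ).2 (ih hSJ)
      rintro g ⟨k, hk, hg⟩ i hi
      refine h2 k (hSJ hk) g hg i fun hik => ?_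
      exact Set.disjoint_left.1 (h3 j hjJ k (hSJ hk) fun e => hj (e ▸ hk)) hi hik
  refine (hB lam ι G).2.2.2 _ _ ?_ (key J (Finset.Subset.refl J))
  rintro g ⟨j, hj, hg⟩
  exact AddSubgroup.subset_closure (h1 j hj hg)

end Pool.Agent.Lib.MP_9cc147_pr.AllU.A
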