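import Mathlib

/-! Few tangent lines carry a convex sequence on a window. -/

set_option autoImplicit false

open Finset

namespace Pool.Agent.Lib.MP_9cc147_pr.AllU.Tn

/-- height of the sequence over the tangent line at `c` -/
def D (φ : ℤ → ℝ) (k c : ℤ) : ℝ := φ k - φ c - (φ (c + 1) - φ c) * ((k : ℝ) - c)

variable {φ : ℤ → ℝ}

theorem slope_mono (h : ∀ k, φ (k + 1) - φ k ≤ φ (k + 2) - φ (k + 1)) :
    Monotone fun c : ℤ => φ (c + 1) - φ c :=
  monotone_int_of_le_succ fun c => by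
    have := h c
    rwa [show c + 2 = c + 1 + 1 by ring] at this

theorem D_self (φ : ℤ → ℝ) (c : ℤ) : D φ c c = 0 := by simp [D]

theorem D_nonneg (h : ∀ k, φ (k + 1) - φ k ≤ φ (k + 2) - φ (k + 1)) (k c : ℤ) : 0 ≤ D φ k c := by
  have hs := slope_mono h
  rcases le_total c k with hk | hk
  · induction k, hk using Int.leInduction with
    | base => rw [D_self]
    | succ k hk ih =>
      have := hs hk
      simp only [D] at ih this ⊢
      push_cast
      nlinarith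
  · induction k, hk using Int.leInductionDown with
    | base => rw [D_self]
    | pred k hk ih =>
      have := hs (show k - 1 ≤ c by omega)
      simp only [D, sub_add_cancel] at ih this ⊢
      push_cast
      nlinarith

theorem D_add (h : ∀ k, φ (k + 1) - φ k ≤ φ (k + 2) - φ (k + 1)) {k c e : ℤ}
    (hk : (k ≤ c ∧ c ≤ e) ∨ (e ≤ c ∧ c ≤ k)) : D φ k c + D φ c e ≤ D φ k e := by
  have hs := slope_mono h
  have key : D φ k e - D φ k c - D φ c e =
      ((φ (e + 1) - φ e) - (φ (c + 1) - φ c)) * ((c : ℝ) - k) := by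
    simp only [D]
    ring
  rcases hk with ⟨h1, h2⟩ | ⟨h1, h2⟩
  · have a1 := hs h2
    have a2 : (k : ℝ) ≤ c := by exact_mod_cast h1
    have := mul_nonneg (sub_nonneg.2 a1) (sub_nonneg.2 a2)
    linarith
  · have a1 := hs h1
    have a2 : (c : ℝ) ≤ k := by exact_mod_cast h2
    have := mul_nonneg_of_nonpos_of_nonpos (sub_nonpos.2 a1) (sub_nonpos.2 a2)
    linarith

theorem D_between (h : ∀ k, φ (k + 1) - φ k ≤ φ (k + 2) - φ (k + 1)) {k c e : ℤ}
    (hk : (k ≤ c ∧ c ≤ e) ∨ (e ≤ c ∧ c ≤ k)) : D φ c e ≤ D φ k e := by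
  linarith [D_add h hk, D_nonneg h k c]

/-- a cover in which every member has a private point -/
theorem exists_cover (φ : ℤ → ℝ) (W : Finset ℤ) :
    ∃ π ⊆ W, (∀ k ∈ W, ∃ c ∈ π, D φ k c ≤ 1) ∧
      ∀ a ∈ π, ∃ p : ℤ, D φ p a ≤ 1 ∧ ∀ c ∈ π, c ≠ a → 1 < D φ p c := by
  classical
  obtain ⟨π, hπ, hmin⟩ := Finset.exists_min_image
    (W.powerset.filter fun π => ∀ k ∈ W, ∃ c ∈ π, D φ k c ≤ 1) Finset.card
    ⟨W, by
      simp only [mem_filter, mem_powerset]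
      exact ⟨subset_rfl, fun k hk => ⟨k, hk, by rw [D_self]; exact zero_le_one⟩⟩⟩
  simp only [mem_filter, mem_powerset] at hπ hmin
  refine ⟨π, hπ.1, hπ.2, fun a ha => ?_⟩
  by_contra hn
  push Not at hn
  have := hmin (π.erase a) ⟨(erase_subset a π).trans hπ.1, fun k hk => by
    obtain ⟨c, hc, hd⟩ := hπ.2 k hk
    by_cases hca : c = a
    · subst hca
      obtain ⟨c', hc', hne, hd'⟩ := hn k hd
      exact ⟨c', mem_erase.2 ⟨hne, hc'⟩, hd'⟩
    · exact ⟨c, mem_erase.2 ⟨hca, hc⟩, hd⟩⟩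
  have h2 := card_erase_lt_of_mem ha
  omega

theorem card_le_two (h : ∀ k, φ (k + 1) - φ k ≤ φ (k + 2) - φ (k + 1)) {π S : Finset ℤ}
    (hp : ∀ a ∈ π, ∃ p : ℤ, D φ p a ≤ 1 ∧ ∀ c ∈ π, c ≠ a → 1 < D φ p c) {e lo hi : ℤ} (he : e ∈ π)
    (hS : S ⊆ π.erase e) (hin : ∀ a ∈ S, lo ≤ a ∧ a ≤ hi)
    (hD : ∀ y, lo ≤ y → y ≤ hi → D φ y e ≤ 1) : S.card ≤ 2 := by
  classical
  choose! p hp1 hp2 using hp
  have mem : ∀ a ∈ S, a ∈ π := fun a ha => mem_of_mem_erase (hS ha)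
  have out : ∀ a ∈ S, ¬p a < lo → hi < p a := by
    intro a ha hl
    by_contra hh
    have := hD (p a) (not_lt.1 hl) (not_lt.1 hh)
    have := hp2 a (mem a ha) e he (ne_of_mem_erase (hS ha)).symm
    linarith
  have clash : ∀ a ∈ S, ∀ b ∈ S, a ≠ b →
      ¬((p a ≤ p b ∧ p b ≤ a) ∨ (a ≤ p b ∧ p b ≤ p a)) := by
    intro a ha b hb hab hh
    have h1 := D_between h hh
    have h2 := hp2 b (mem b hb) a (mem a ha) hab
    linarith [hp1 a (mem a ha)]
  have h1 : (S.filter fun a => p a < lo).card ≤ 1 := by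
    refine card_le_one.2 fun a ha b hb => ?_
    rw [mem_filter] at ha hb
    by_contra hab
    have := hin a ha.1
    have := hin b hb.1
    rcases le_total (p a) (p b) with hh | hh
    · exact clash a ha.1 b hb.1 hab (Or.inl ⟨hh, by omega⟩)
    · exact clash b hb.1 a ha.1 (Ne.symm hab) (Or.inl ⟨hh, by omega⟩)
  have h2 : (S.filter fun a => ¬p a < lo).card ≤ 1 := by
    refine card_le_one.2 fun a ha b hb => ?_
    rw [mem_filter] at ha hb
    by_contra hab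
    have := hin a ha.1
    have := hin b hb.1
    have := out a ha.1 ha.2
    have := out b hb.1 hb.2
    rcases le_total (p a) (p b) with hh | hh
    · exact clash b hb.1 a ha.1 (Ne.symm hab) (Or.inr ⟨by omega, hh⟩)
    · exact clash a ha.1 b hb.1 hab (Or.inr ⟨by omega, hh⟩)
  have h3 := card_filter_add_card_filter_not (s := S) fun a => p a < lo
  omega

theorem band (h : ∀ k, φ (k + 1) - φ k ≤ φ (k + 2) - φ (k + 1)) {π B : Finset ℤ}
    (hp : ∀ a ∈ π, ∃ p : ℤ, D φ p a ≤ 1 ∧ ∀ c ∈ π, c ≠ a → 1 < D φ p c) {k : ℤ} {j : ℝ}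
    (hB : B ⊆ π) (hside : (∀ c ∈ B, k ≤ c) ∨ ∀ c ∈ B, c ≤ k)
    (hj : ∀ c ∈ B, j ≤ D φ k c ∧ D φ k c ≤ j + 1) : B.card ≤ 3 := by
  rcases B.eq_empty_or_nonempty with rfl | hne
  · simp
  have hlo := B.min'_mem hne
  have hhi := B.max'_mem hne
  have hin : ∀ a ∈ B, B.min' hne ≤ a ∧ a ≤ B.max' hne := fun a ha =>
    ⟨B.min'_le a ha, B.le_max' a ha⟩
  rcases hside with hs | hs
  · have := card_le_two h hp (S := B.erase (B.max' hne)) (hB hhi) (erase_subset_erase _ hB)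
      (fun a ha => hin a (mem_of_mem_erase ha)) fun y h1 h2 => by
        have a1 := D_between h (Or.inl ⟨h1, h2⟩)
        have a2 := D_add h (Or.inl ⟨hs _ hlo, (hin _ hlo).2⟩)
        linarith [(hj _ hlo).1, (hj _ hhi).2]
    have := card_erase_of_mem hhi
    omega
  · have := card_le_two h hp (S := B.erase (B.min' hne)) (hB hlo) (erase_subset_erase _ hB)
      (fun a ha => hin a (mem_of_mem_erase ha)) fun y h1 h2 => by
        have a1 := D_between h (Or.inr ⟨h1, h2⟩)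
        have a2 := D_add h (Or.inr ⟨(hin _ hhi).1, hs _ hhi⟩)
        linarith [(hj _ hhi).1, (hj _ hlo).2]
    have := card_erase_of_mem hlo
    omega

theorem side_sum (h : ∀ k, φ (k + 1) - φ k ≤ φ (k + 2) - φ (k + 1)) {π R : Finset ℤ}
    (hp : ∀ a ∈ π, ∃ p : ℤ, D φ p a ≤ 1 ∧ ∀ c ∈ π, c ≠ a → 1 < D φ p c) {k : ℤ} (hR : R ⊆ π)
    (hside : (∀ c ∈ R, k ≤ c) ∨ ∀ c ∈ R, c ≤ k) : ∑ c ∈ R, Real.exp (-D φ k c) ≤ 5 := by
  classical
  have hq : Real.exp (-1) ≤ 2 / 5 := by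
    rw [Real.exp_neg, inv_le_comm₀ (Real.exp_pos 1) (by norm_num)]
    linarith [Real.exp_one_gt_d9]
  have h1 : ∑ c ∈ R, Real.exp (-D φ k c) ≤ ∑ c ∈ R, (2 / 5 : ℝ) ^ ⌊D φ k c⌋₊ := by
    refine sum_le_sum fun c _ => ?_
    calc Real.exp (-D φ k c) ≤ Real.exp ((⌊D φ k c⌋₊ : ℝ) * (-1)) :=
          Real.exp_le_exp.2 (by linarith [Nat.floor_le (D_nonneg h k c)])
      _ = Real.exp (-1) ^ ⌊D φ k c⌋₊ := Real.exp_nat_mul _ _
      _ ≤ _ := pow_le_pow_left₀ (Real.exp_pos _).le hq _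
  have h2 : ∑ c ∈ R, (2 / 5 : ℝ) ^ ⌊D φ k c⌋₊ ≤
      ∑ j ∈ R.image fun c => ⌊D φ k c⌋₊, 3 * (2 / 5 : ℝ) ^ j := by
    rw [sum_comp (fun j : ℕ => (2 / 5 : ℝ) ^ j) fun c => ⌊D φ k c⌋₊]
    refine sum_le_sum fun j _ => ?_
    rw [nsmul_eq_mul]
    refine mul_le_mul_of_nonneg_right ?_ (by positivity)
    have := band h hp (B := R.filter fun c => ⌊D φ k c⌋₊ = j) (k := k) (j := j)
      ((filter_subset _ _).trans hR)
      (hside.imp (fun hs c hc => hs c (mem_of_mem_filter c hc))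
        fun hs c hc => hs c (mem_of_mem_filter c hc))
      fun c hc => by
        rw [← (mem_filter.1 hc).2]
        exact ⟨Nat.floor_le (D_nonneg h k c), (Nat.lt_floor_add_one _).le⟩
    exact_mod_cast this
  have hs := hasSum_geometric_of_lt_one (r := (2 / 5 : ℝ)) (by norm_num) (by norm_num)
  have h3 := sum_le_hasSum (R.image fun c => ⌊D φ k c⌋₊) (fun j _ => by positivity) hs
  rw [← mul_sum] at h2
  norm_num at h3
  linarith

theorem main (h : ∀ k, φ (k + 1) - φ k ≤ φ (k + 2) - φ (k + 1)) (W : Finset ℤ) :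
    ∃ π ⊆ W, (∀ k ∈ W, ∃ c ∈ π, D φ k c ≤ 1) ∧ ∀ k : ℤ, ∑ c ∈ π, Real.exp (-D φ k c) ≤ 10 := by
  classical
  obtain ⟨π, h1, h2, hp⟩ := exists_cover φ W
  refine ⟨π, h1, h2, fun k => ?_⟩
  rw [← sum_filter_add_sum_filter_not π fun c => k ≤ c]
  have a1 := side_sum h hp (k := k) (filter_subset (fun c => k ≤ c) π)
    (Or.inl fun c hc => (mem_filter.1 hc).2)
  have a2 := side_sum h hp (k := k) (filter_subset (fun c => ¬k ≤ c) π)
    (Or.inr fun c hc => (not_le.1 (mem_filter.1 hc).2).le)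
  linarith

end Pool.Agent.Lib.MP_9cc147_pr.AllU.Tn
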