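import Pool.Agent.Lib.MP_9cc147_pr.U.Defs
import Pool.Agent.Lib.MP_9cc147_pr.U.ATanA

/-! The tangent line statement. -/

namespace Pool.Agent.Lib.MP_9cc147_pr.AllU

theorem tan : TanStmt := fun _ h _ => Tn.main h _

end Pool.Agent.Lib.MP_9cc147_pr.AllU
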