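import Pool.Agent.Lib.MP_9cc147_pr.U.FAnn

/-! Assembly, part 2: the mean of the cosine under the Gibbs measure. -/

open Finset
open scoped ENNReal

namespace Pool.Agent.Lib.MP_9cc147_pr.AllU.F

variable {n : ℕ}

open Classical in
lemma sum_ite {α : Type} [Fintype α] (f g : α → ℝ) :
    ∑ s : Finset α, ∏ a, (if a ∈ s then f a else g a) = ∏ a, (f a + g a) := by
  rw [Fintype.prod_add]
  refine sum_congr rfl fun s _ => ?_
  rw [prod_ite]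
  congr 2 <;> ext a <;> simp

lemma pw_nonneg {α : Type} [Fintype α] {p : α → ℝ} (h : ∀ a, 0 ≤ p a ∧ p a ≤ 1) (s : Finset α) :
    0 ≤ pw p s := by
  unfold pw
  refine prod_nonneg fun a _ => ?_
  split_ifs
  · exact (h a).1
  · linarith [(h a).2]

lemma pw_sum {α : Type} [Fintype α] (p : α → ℝ) : ∑ s, pw p s = 1 := by
  unfold pw
  rw [sum_ite]
  simp

open Classical in
lemma pw_sup {α : Type} [Fintype α] (p : ℝ) (F : Finset α) :
    ∑ s, (if F ⊆ s then pw (fun _ : α => p) s else 0) = p ^ F.card := by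
  have a : ∀ s : Finset α, (if F ⊆ s then pw (fun _ : α => p) s else 0) =
      ∏ a, (if a ∈ s then p else if a ∈ F then 0 else 1 - p) := by
    intro s
    split_ifs with h
    · refine prod_congr rfl fun a _ => ?_
      split_ifs with b c
      · rfl
      · exact absurd (h c) b
      · rfl
    · obtain ⟨a, a1, a2⟩ := not_subset.1 h
      exact (prod_eq_zero (mem_univ a) (by simp [a1, a2])).symm
  simp only [a]
  rw [sum_ite, ← prod_const, ← prod_ite_mem_eq F fun _ => p]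
  refine prod_congr rfl fun a _ => ?_
  split_ifs <;> simp

lemma Bud.mono {Ω : Type} {ν : Ω → ℝ≥0∞} {X : Ω → Finset (Vx n)} {C η η' : ℝ} (h : Bud ν X C η)
    (hC : 0 ≤ C) (h0 : 0 ≤ η) (h1 : η ≤ η') : Bud ν X C η' := fun r E hE =>
  (h r E hE).trans (mul_le_mul_left (ENNReal.ofReal_le_ofReal (by gcongr)) _)

lemma tot_union {Ω α : Type} [Fintype α] (ν : Ω → ℝ≥0∞) {p : ℝ} (hp : 0 ≤ p ∧ p ≤ 1) :
    ∑' q : Ω × Finset α, ν q.1 * ENNReal.ofReal (pw (fun _ => p) q.2) = ∑' ω, ν ω := by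
  rw [ENNReal.tsum_prod']
  refine tsum_congr fun ω => ?_
  simp only
  rw [ENNReal.tsum_mul_left, tsum_fintype,
    ← ENNReal.ofReal_sum_of_nonneg fun s _ => pw_nonneg (fun _ => hp) s, pw_sum]
  simp

open Classical in
lemma Bud.union {Ω : Type} {ν : Ω → ℝ≥0∞} {X : Ω → Finset (Vx n)} {C η p : ℝ} (h : Bud ν X C η)
    (hC : 0 ≤ C) (h0 : 0 ≤ η) (hp : 0 ≤ p ∧ p ≤ 1) :
    Bud (fun q : Ω × Finset (Vx n) => ν q.1 * ENNReal.ofReal (pw (fun _ => p) q.2))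
      (fun q => X q.1 ∪ q.2) C (η + p) := by
  intro r E hE
  rw [tot_union ν hp]
  have w0 := pw_nonneg (α := Vx n) (p := fun _ => p) fun _ => hp
  have a1 : ∀ q : Ω × Finset (Vx n), (if E ⊆ X q.1 ∪ q.2 then
      ν q.1 * ENNReal.ofReal (pw (fun _ => p) q.2) else 0) ≤ ∑ E1 ∈ E.powerset,
      (if E1 ⊆ X q.1 then ν q.1 else 0) *
        ENNReal.ofReal (if E \ E1 ⊆ q.2 then pw (fun _ => p) q.2 else 0) := by
    intro q
    split_ifs with a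
    swap
    · exact zero_le
    refine le_trans (le_of_eq ?_) (single_le_sum (fun _ _ => zero_le)
      (mem_powerset.2 (inter_subset_left : E ∩ X q.1 ⊆ E)))
    rw [if_pos inter_subset_right, if_pos]
    intro x hx
    rw [mem_sdiff, mem_inter] at hx
    exact (mem_union.1 (a hx.1)).resolve_left fun b => hx.2 ⟨hx.1, b⟩
  refine le_trans (ENNReal.tsum_le_tsum fun q => ?_) (le_trans (le_of_eq
    (Summable.tsum_finsetSum (s := E.powerset) (f := fun E1 (q : Ω × Finset (Vx n)) =>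
      (if E1 ⊆ X q.1 then ν q.1 else 0) *
        ENNReal.ofReal (if E \ E1 ⊆ q.2 then pw (fun _ => p) q.2 else 0))
      fun _ _ => ENNReal.summable)) ?_)
  · convert a1 q
  rw [← sum_pow_mul_eq_add_pow, mul_sum, ENNReal.ofReal_sum_of_nonneg fun _ _ => by
    have := hp.1; positivity, sum_mul]
  refine sum_le_sum fun E1 h1 => ?_
  rw [mem_powerset] at h1
  rw [ENNReal.tsum_prod']
  simp only [ENNReal.tsum_mul_left, ENNReal.tsum_mul_right]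
  rw [tsum_fintype (fun s : Finset (Vx n) => ENNReal.ofReal _),
    ← ENNReal.ofReal_sum_of_nonneg fun s _ => by split_ifs; exacts [w0 s, le_rfl]]
  have e := pw_sup p (E \ E1)
  rw [card_sdiff_of_subset h1] at e
  rw [← mul_assoc, ENNReal.ofReal_mul (by positivity), mul_right_comm]
  refine mul_le_mul' (h r E1 fun x hx => hE x (h1 hx)) (le_of_eq ?_)
  rw [← e]
  congr!

lemma DD_le {Γ : ℕ} {δ lam : ℝ} (hδ : 0 < δ) {JJ : Finset ℕ} (hN : 0 < JJ.card)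
    (hl : lam ^ 2 = 400 / JJ.card) (hl1 : lam ^ 2 ≤ 1) (ρ : Vx n → ℕ) :
    DD Γ δ lam JJ ρ ≤ 1 / 3 + 2 / (3 * JJ.card) * ∑ J ∈ JJ, tt δ ρ (Γ ^ J) := by
  have N0 : (0 : ℝ) < JJ.card := by exact_mod_cast hN
  have a1 : DD Γ δ lam JJ ρ ≤ ∏ J ∈ JJ, Real.exp (-(lam ^ 2 / 200 * (1 - tt δ ρ (Γ ^ J)))) := by
    refine prod_le_prod (fun J _ => ?_) fun J _ => ?_
    · nlinarith [tt_nonneg hδ ρ (Γ ^ J), tt_le δ ρ (Γ ^ J), sq_nonneg lam]
    · linarith [Real.add_one_le_exp (-(lam ^ 2 / 200 * (1 - tt δ ρ (Γ ^ J))))]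
  rw [← Real.exp_sum, sum_neg_distrib, ← mul_sum, sum_sub_distrib, sum_const, nsmul_eq_mul,
    mul_one, hl] at a1
  have a2 : 0 ≤ ∑ J ∈ JJ, tt δ ρ (Γ ^ J) := sum_nonneg fun J _ => tt_nonneg hδ ρ _
  have a3 : ∑ J ∈ JJ, tt δ ρ (Γ ^ J) ≤ JJ.card := by
    simpa using sum_le_sum (s := JJ) fun J _ => tt_le δ ρ (Γ ^ J)
  generalize ∑ J ∈ JJ, tt δ ρ (Γ ^ J) = T at *
  generalize (JJ.card : ℝ) = N at *
  obtain ⟨u, rfl⟩ : ∃ u, T = N * (1 - u) := ⟨1 - T / N, by field_simp; ring⟩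
  have u0 : 0 ≤ u := by nlinarith
  have u1 : u ≤ 1 := by nlinarith
  rw [show 400 / N / 200 * (N - N * (1 - u)) = 2 * u by field_simp; ring] at a1
  rw [show 1 / 3 + 2 / (3 * N) * (N * (1 - u)) = 1 - 2 * u / 3 by field_simp; ring]
  refine a1.trans ?_
  rw [Real.exp_neg, inv_eq_one_div, div_le_iff₀ (Real.exp_pos _)]
  nlinarith [mul_le_mul_of_nonneg_left (Real.add_one_le_exp (2 * u))
    (by linarith : 0 ≤ 1 - 2 * u / 3)]

lemma avg_le {α : Type} [Fintype α] {p : α → ℝ} (h : ∀ a, 0 ≤ p a ∧ p a ≤ 1)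
    {f g : Finset α → ℝ} {a b : ℝ} (hf : ∀ s, f s ≤ a + b * g s) :
    ∑ s, pw p s * f s ≤ a + b * ∑ s, pw p s * g s := by
  refine (sum_le_sum fun s _ => mul_le_mul_of_nonneg_left (hf s) (pw_nonneg h s)).trans
    (le_of_eq ?_)
  simp only [mul_add, sum_add_distrib, ← sum_mul, pw_sum, one_mul, mul_left_comm _ b, ← mul_sum]

open Classical in
/-- the quantity bounded by the probability section -/
noncomputable def PQ (δ : ℝ) (K : ℕ) (pF pT : ℕ → ℝ) (A : Finset (Vx n)) (s : ℕ) : ℝ :=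
  ∑ fl : Finset (Fin (n + 1) × Vx n), ∑ ξ : Finset (Fin K × Vx n),
    pw (fun a => pF a.1) fl * pw (fun a => pT a.1) ξ * tt δ (rhoT ξ (rho0 A fl) K) s

lemma PQ_nonneg {δ : ℝ} (hδ : 0 < δ) (K : ℕ) {pF pT : ℕ → ℝ} (hF : ∀ k, 0 ≤ pF k ∧ pF k ≤ 1)
    (hT : ∀ k, 0 ≤ pT k ∧ pT k ≤ 1) (A : Finset (Vx n)) (s : ℕ) : 0 ≤ PQ δ K pF pT A s :=
  sum_nonneg fun _ _ => sum_nonneg fun _ _ => mul_nonneg (mul_nonneg
    (pw_nonneg (fun _ => hF _) _) (pw_nonneg (fun _ => hT _) _)) (tt_nonneg hδ _ _)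

open Classical in
lemma point {Γ : ℕ} {δ lam p0 : ℝ} (hδ : 0 < δ) {JJ : Finset ℕ} (hN : 0 < JJ.card)
    (hl : lam ^ 2 = 400 / JJ.card) (hl1 : lam ^ 2 ≤ 1) (K : ℕ) {pF pT : ℕ → ℝ}
    (hF : ∀ k, 0 ≤ pF k ∧ pF k ≤ 1) (hT : ∀ k, 0 ≤ pT k ∧ pT k ≤ 1) (hp : 0 ≤ p0 ∧ p0 ≤ 1)
    (A : Finset (Vx n)) :
    2 / 3 ≤ ∑ fl : Finset (Fin (n + 1) × Vx n), pw (fun a => pF a.1) fl *
        max 0 (1 - dd Γ δ lam JJ K p0 pT A fl) + 2 / (3 * JJ.card) *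
      ∑ J ∈ JJ, ∑ ξ0 : Finset (Vx n), pw (fun _ => p0) ξ0 * PQ δ K pF pT (A ∪ ξ0) (Γ ^ J) := by
  have a1 : ∑ fl : Finset (Fin (n + 1) × Vx n), pw (fun a => pF a.1) fl *
      dd Γ δ lam JJ K p0 pT A fl ≤ _ :=
    avg_le (fun _ => hF _) fun fl => avg_le (fun _ => hp) fun ξ0 => avg_le (fun _ => hT _)
      fun ξ => DD_le hδ hN hl hl1 (rhoT ξ (rho0 (A ∪ ξ0) fl) K)
  have a2 : ∑ fl : Finset (Fin (n + 1) × Vx n), pw (fun a => pF a.1) fl *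
      (1 - dd Γ δ lam JJ K p0 pT A fl) ≤ ∑ fl : Finset (Fin (n + 1) × Vx n),
        pw (fun a => pF a.1) fl * max 0 (1 - dd Γ δ lam JJ K p0 pT A fl) :=
    sum_le_sum fun fl _ => mul_le_mul_of_nonneg_left (le_max_right _ _) (pw_nonneg (fun _ => hF _) _)
  simp only [_root_.mul_sub, sum_sub_distrib, mul_one, pw_sum] at a2
  have a3 : ∑ J ∈ JJ, ∑ ξ0 : Finset (Vx n), pw (fun _ => p0) ξ0 * PQ δ K pF pT (A ∪ ξ0) (Γ ^ J) =
      ∑ fl : Finset (Fin (n + 1) × Vx n), pw (fun a => pF a.1) fl *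
        ∑ ξ0 : Finset (Vx n), pw (fun _ => p0) ξ0 * ∑ ξ : Finset (Fin K × Vx n),
          pw (fun a => pT a.1) ξ * ∑ J ∈ JJ, tt δ (rhoT ξ (rho0 (A ∪ ξ0) fl) K) (Γ ^ J) := by
    simp only [PQ, mul_sum]
    rw [sum_comm]
    conv_rhs => rw [sum_comm]
    refine sum_congr rfl fun ξ0 _ => ?_
    rw [sum_comm]
    refine sum_congr rfl fun fl _ => ?_
    rw [sum_comm]
    refine sum_congr rfl fun ξ _ => sum_congr rfl fun J _ => by ring
  rw [a3]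
  linarith

open Classical in
lemma total {Ω : Type} (ν : Ω → ℝ≥0∞) (X : Ω → Finset (Vx n)) {Γ : ℕ} {δ lam p0 ε : ℝ}
    (hδ : 0 < δ) {JJ : Finset ℕ} (hN : 0 < JJ.card)
    (hl : lam ^ 2 = 400 / JJ.card) (hl1 : lam ^ 2 ≤ 1) (K : ℕ) {pF pT : ℕ → ℝ}
    (hF : ∀ k, 0 ≤ pF k ∧ pF k ≤ 1) (hT : ∀ k, 0 ≤ pT k ∧ pT k ≤ 1) (hp : 0 ≤ p0 ∧ p0 ≤ 1)
    (hε : 0 ≤ ε)
    (h : ∀ J ∈ JJ, ∑' q : Ω × Finset (Vx n), ν q.1 * ENNReal.ofReal (pw (fun _ => p0) q.2) *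
      ENNReal.ofReal (PQ δ K pF pT (X q.1 ∪ q.2) (Γ ^ J)) ≤ ENNReal.ofReal ε * ∑' ω, ν ω) :
    ENNReal.ofReal (2 / 3) * ∑' ω, ν ω ≤ ∑' ω, ν ω * ENNReal.ofReal
      (∑ fl : Finset (Fin (n + 1) × Vx n), pw (fun a => pF a.1) fl *
        max 0 (1 - dd Γ δ lam JJ K p0 pT (X ω) fl)) + ENNReal.ofReal ε * ∑' ω, ν ω := by
  have N0 : (0 : ℝ) < JJ.card := by exact_mod_cast hN
  have w0 := pw_nonneg (α := Vx n) (p := fun _ => p0) fun _ => hp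
  have q0 := PQ_nonneg (n := n) hδ K hF hT
  have a1 : ∑' ω, ν ω * ENNReal.ofReal (2 / (3 * JJ.card) * ∑ J ∈ JJ, ∑ ξ0 : Finset (Vx n),
      pw (fun _ => p0) ξ0 * PQ δ K pF pT (X ω ∪ ξ0) (Γ ^ J)) ≤ ENNReal.ofReal ε * ∑' ω, ν ω := by
    have e : ∀ ω, ν ω * ENNReal.ofReal (2 / (3 * JJ.card) * ∑ J ∈ JJ, ∑ ξ0 : Finset (Vx n),
        pw (fun _ => p0) ξ0 * PQ δ K pF pT (X ω ∪ ξ0) (Γ ^ J)) =
        ENNReal.ofReal (2 / (3 * JJ.card)) * ∑ J ∈ JJ, ∑' ξ0 : Finset (Vx n),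
          ν ω * ENNReal.ofReal (pw (fun _ => p0) ξ0) *
            ENNReal.ofReal (PQ δ K pF pT (X ω ∪ ξ0) (Γ ^ J)) := by
      intro ω
      rw [ENNReal.ofReal_mul (by positivity), mul_left_comm, ENNReal.ofReal_sum_of_nonneg
        fun J _ => sum_nonneg fun s _ => mul_nonneg (w0 _) (q0 _ _), mul_sum]
      congr 1
      refine sum_congr rfl fun J _ => ?_
      rw [tsum_fintype, ENNReal.ofReal_sum_of_nonneg fun s _ => mul_nonneg (w0 _) (q0 _ _), mul_sum]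
      exact sum_congr rfl fun s _ => by rw [ENNReal.ofReal_mul (w0 _), mul_assoc]
    simp only [e]
    rw [ENNReal.tsum_mul_left, Summable.tsum_finsetSum fun _ _ => ENNReal.summable]
    refine (mul_le_mul_right (sum_le_sum fun J hJ => (ENNReal.tsum_prod' (f := fun q : Ω × _ =>
      ν q.1 * ENNReal.ofReal (pw (fun _ => p0) q.2) *
      ENNReal.ofReal (PQ δ K pF pT (X q.1 ∪ q.2) (Γ ^ J)))).symm.le.trans (h J hJ)) _).trans ?_
    rw [sum_const, nsmul_eq_mul, ← mul_assoc, ← mul_assoc, ← ENNReal.ofReal_natCast,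
      ← ENNReal.ofReal_mul (by positivity), ← ENNReal.ofReal_mul (by positivity)]
    refine mul_le_mul_left (ENNReal.ofReal_le_ofReal ?_) _
    rw [show 2 / (3 * (JJ.card : ℝ)) * JJ.card * ε = 2 / 3 * ε by field_simp]
    linarith
  refine le_trans ?_ (add_le_add_right a1 _)
  rw [← ENNReal.tsum_add, ← ENNReal.tsum_mul_left]
  refine ENNReal.tsum_le_tsum fun ω => ?_
  rw [← mul_add, mul_comm]
  exact mul_le_mul_right ((ENNReal.ofReal_le_ofReal (point hδ hN hl hl1 K hF hT hp (X ω))).trans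
    ENNReal.ofReal_add_le) _

end Pool.Agent.Lib.MP_9cc147_pr.AllU.F
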