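import Pool.Agent.Lib.MP_9cc147_pr.U.Defs

/-! Section P: connected sets (counting, diameter, separated families). -/

open Finset

namespace Pool.Agent.Lib.MP_9cc147_pr.AllU.P

variable {n : ℕ}

/-- connected through steps of sup length at most one -/
def Con (Y : Finset (Vx n)) : Prop := ∀ a ∈ Y, ∀ b ∈ Y, Mono.Cn Y a b

lemma Dn.con {X Y : Finset (Vx n)} (h : Dn X Y) : Con Y := h.1

/-- vertex sets of walks of length `m` -/
def Wk : ℕ → Vx n → Finset (Finset (Vx n))
  | 0, z => {{z}}
  | m + 1, z => (univ.filter fun y => ds z y ≤ 1).biUnion fun y => (Wk m y).image (insert z)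

lemma ball_card (z : Vx n) (r : ℕ) : (univ.filter fun y => ds z y ≤ r).card ≤ (2 * r + 1) ^ 2 :=
  packing _ z r Nat.one_pos (fun x hx => by simpa using (mem_filter.1 hx).2)
    fun x _ y _ h => ds_pos h

lemma card_Wk (m : ℕ) (z : Vx n) : (Wk m z).card ≤ 9 ^ m := by
  induction m generalizing z with
  | zero => simp [Wk]
  | succ m ih =>
    refine card_biUnion_le.trans ?_
    refine (sum_le_card_nsmul _ _ (9 ^ m) fun y _ => card_image_le.trans (ih y)).trans ?_
    have := ball_card z 1
    rw [smul_eq_mul, pow_succ, mul_comm]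
    exact Nat.mul_le_mul_left _ this

lemma Wk_cons {m : ℕ} {z y : Vx n} {A : Finset (Vx n)} (h : ds z y ≤ 1) (hA : A ∈ Wk m y) :
    insert z A ∈ Wk (m + 1) z :=
  mem_biUnion.2 ⟨y, by simpa using h, mem_image_of_mem _ hA⟩

lemma Wk_self {m : ℕ} {z : Vx n} {A : Finset (Vx n)} (hA : A ∈ Wk m z) : z ∈ A := by
  cases m with
  | zero => rw [Wk, mem_singleton] at hA; simp [hA]
  | succ m =>
    obtain ⟨y, _, h⟩ := mem_biUnion.1 hA
    obtain ⟨B, _, rfl⟩ := mem_image.1 h
    exact mem_insert_self _ _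

lemma Wk_grow {m : ℕ} {z x y : Vx n} {A : Finset (Vx n)} (hA : A ∈ Wk m z) (hx : x ∈ A)
    (h : ds x y ≤ 1) : insert y A ∈ Wk (m + 2) z := by
  have base : ∀ {m : ℕ} {z : Vx n} {A : Finset (Vx n)}, A ∈ Wk m z → ds z y ≤ 1 →
      insert y A ∈ Wk (m + 2) z := by
    intro m z A hA h
    have := Wk_cons h (Wk_cons (ds_comm z y ▸ h) hA)
    rwa [insert_eq_of_mem (mem_insert_of_mem (Wk_self hA))] at this
  induction m generalizing z A with
  | zero =>
    have e : A = {z} := by simpa [Wk] using hA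
    have : x = z := by simpa [e] using hx
    exact base hA (this ▸ h)
  | succ m ih =>
    by_cases e : x = z
    · exact base hA (e ▸ h)
    · obtain ⟨w, hw, h'⟩ := mem_biUnion.1 hA
      obtain ⟨B, hB, rfl⟩ := mem_image.1 h'
      have := Wk_cons (by simpa using hw) (ih hB ((mem_insert.1 hx).resolve_left e))
      rwa [Finset.insert_comm] at this

lemma Con.mem_Wk {Y : Finset (Vx n)} (h : Con Y) {z : Vx n} (hz : z ∈ Y) :
    Y ∈ Wk (2 * (Y.card - 1)) z := by
  have key : ∀ k, k < Y.card → ∃ A ⊆ Y, A.card = k + 1 ∧ A ∈ Wk (2 * k) z := by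
    intro k
    induction k with
    | zero => exact fun _ => ⟨{z}, by simpa using hz, by simp, by simp [Wk]⟩
    | succ k ih =>
      intro hk
      obtain ⟨A, hAY, hc, hA⟩ := ih (by omega)
      obtain ⟨y, hy, hyA⟩ := exists_mem_notMem_of_card_lt_card (s := A) (t := Y) (by omega)
      have : ∃ x ∈ A, ∃ y ∈ Y, y ∉ A ∧ ds x y ≤ 1 := by
        by_contra hne
        push Not at hne
        refine hyA ((h z hz y hy).ind (p := fun w => w ∈ A) (Wk_self hA) fun a _ b hb hd ha => ?_)
        by_contra hb'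
        have := hne a ha b hb hb'
        omega
      obtain ⟨x, hx, y, hy, hyA, hd⟩ := this
      exact ⟨insert y A, insert_subset hy hAY, by rw [card_insert_of_notMem hyA, hc],
        Wk_grow hA hx hd⟩
  have hp : 0 < Y.card := card_pos.2 ⟨z, hz⟩
  obtain ⟨A, hAY, hc, hA⟩ := key (Y.card - 1) (by omega)
  rwa [eq_of_subset_of_card_le hAY (by omega)] at hA

open Classical in
/-- lattice animals -/
theorem card_con (z : Vx n) (a : ℕ) :
    (univ.filter fun Y : Finset (Vx n) => z ∈ Y ∧ Con Y ∧ Y.card = a).card ≤ 81 ^ a := by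
  refine (card_le_card (t := Wk (2 * (a - 1)) z) fun Y hY => ?_).trans ((card_Wk _ _).trans ?_)
  · obtain ⟨h1, h2, h3⟩ := (mem_filter.1 hY).2
    exact h3 ▸ h2.mem_Wk h1
  · rw [pow_mul]
    exact Nat.pow_le_pow_right (by norm_num) (by omega)

/-- every distance below a realised one is realised -/
lemma Con.exists_ds {Y : Finset (Vx n)} (h : Con Y) {x y : Vx n} (hx : x ∈ Y) (hy : y ∈ Y) {t : ℕ}
    (ht : t ≤ ds x y) : ∃ w ∈ Y, ds x w = t := by
  by_contra hne
  push Not at hne
  have h0 : 0 < t := Nat.pos_of_ne_zero fun e => hne x hx (by simp [e])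
  have := (h x hx y hy).ind (p := fun w => ds x w < t) (by simpa using h0) fun a _ b hb hd ha => by
    have := hne b hb
    have := ds_tri x a b
    omega
  omega

theorem con_card {Y : Finset (Vx n)} (h : Con Y) {x y : Vx n} (hx : x ∈ Y) (hy : y ∈ Y) {r : ℕ}
    (hr : r ≤ ds x y) : r < (Y.filter fun w => ds x w ≤ r).card := by
  have : range (r + 1) ⊆ (Y.filter fun w => ds x w ≤ r).image (ds x) := fun t ht => by
    have ht := mem_range.1 ht
    obtain ⟨w, hw, e⟩ := h.exists_ds hx hy (t := t) (by omega)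
    exact mem_image.2 ⟨w, mem_filter.2 ⟨hw, by omega⟩, e⟩
  have := (card_le_card this).trans card_image_le
  rw [card_range] at this
  omega

theorem con_ds {Y : Finset (Vx n)} (h : Con Y) {x y : Vx n} (hx : x ∈ Y) (hy : y ∈ Y) :
    ds x y < Y.card :=
  (con_card h hx hy le_rfl).trans_le (card_filter_le _ _)

/-- a connected set comes close to few members of a separated family -/
theorem con_meet {ι : Type*} {Y : Finset (Vx n)} (h : Con Y) (T : Finset ι) (c : ι → Vx n)
    {r g : ℕ} (h1 : ∀ i ∈ T, ∃ y ∈ Y, ds (c i) y ≤ g)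
    (h2 : ∀ i ∈ T, ∀ j ∈ T, i ≠ j → 2 * r + 2 * g < ds (c i) (c j)) :
    T.card ≤ 1 ∨ T.card * (r + 1) ≤ Y.card := by
  classical
  by_cases hT : T.card ≤ 1
  · exact Or.inl hT
  refine Or.inr ?_
  choose! y hy hd using h1
  have far : ∀ i ∈ T, ∀ j ∈ T, i ≠ j → 2 * r < ds (y i) (y j) := fun i hi j hj e => by
    have := h2 i hi j hj e
    have := hd i hi
    have := hd j hj
    have := ds_tri (c i) (y i) (c j)
    have := ds_tri (y i) (y j) (c j)
    have := ds_comm (y j) (c j)
    omega
  have hdj : ∀ i ∈ T, ∀ j ∈ T, i ≠ j → Disjoint (Y.filter fun w => ds (y i) w ≤ r)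
      (Y.filter fun w => ds (y j) w ≤ r) := fun i hi j hj e => by
    rw [disjoint_left]
    intro w a b
    have := (mem_filter.1 a).2
    have := (mem_filter.1 b).2
    have := far i hi j hj e
    have := ds_tri (y i) w (y j)
    have := ds_comm w (y j)
    omega
  calc T.card * (r + 1) ≤ ∑ i ∈ T, (Y.filter fun w => ds (y i) w ≤ r).card := by
        rw [← smul_eq_mul]
        refine card_nsmul_le_sum _ _ _ fun i hi => ?_
        obtain ⟨j, hj, e⟩ := exists_mem_ne (by omega : 1 < T.card) i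
        have := far i hi j hj e.symm
        exact con_card h (hy i hi) (hy j hj) (by omega)
    _ = (T.biUnion fun i => Y.filter fun w => ds (y i) w ≤ r).card :=
        (card_biUnion fun i hi j hj e => hdj i hi j hj e).symm
    _ ≤ Y.card := card_le_card (biUnion_subset.2 fun i _ => filter_subset _ _)

end Pool.Agent.Lib.MP_9cc147_pr.AllU.P
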