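import Pool.Agent.Lib.MP_9cc147_pr.U.PDefs
import Pool.Agent.Lib.MP_9cc147_pr.U.PConn
import Pool.Agent.Lib.MP_9cc147_pr.U.FProb

/-! Section P: independent labels, size bias, and the budget for families of dense sets. -/

open Finset
open scoped ENNReal

namespace Pool.Agent.Lib.MP_9cc147_pr.AllU.P

variable {n : ℕ}

namespace Bd

open Classical in
lemma pw_sup2 {α : Type} [Fintype α] (p : α → ℝ) (F : Finset α) :
    ∑ s, (if F ⊆ s then pw p s else 0) = ∏ a ∈ F, p a := by
  have a : ∀ s : Finset α, (if F ⊆ s then pw p s else 0) =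
      ∏ a, (if a ∈ s then p a else if a ∈ F then 0 else 1 - p a) := by
    intro s
    split_ifs with h
    · refine prod_congr rfl fun a _ => ?_
      split_ifs with b c
      · rfl
      · exact absurd (h c) b
      · rfl
    · obtain ⟨a, a1, a2⟩ := not_subset.1 h
      exact (prod_eq_zero (mem_univ a) (by simp [a1, a2])).symm
  simp only [a]
  rw [AllU.F.sum_ite, ← prod_ite_mem_eq F p]
  refine prod_congr rfl fun a _ => ?_
  split_ifs <;> simp

open Classical in
lemma pw_split {α : Type} [Fintype α] (p : α → ℝ) (l : α) (s : Finset α) :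
    pw p s = (if l ∈ s then p l else 1 - p l) *
      ∏ a ∈ univ.erase l, (if a ∈ s then p a else 1 - p a) := by
  unfold pw
  rw [← mul_prod_erase univ _ (mem_univ l)]

open Classical in
/-- size bias -/
lemma pw_bias {α : Type} [Fintype α] (p : α → ℝ) (l : α) (g : Finset α → ℝ) :
    ∑ s, (if l ∈ s then pw p s * g s else 0) = p l * ∑ s, pw p s * g (insert l s) := by
  have hu : (univ : Finset (Finset α)) = (insert l (univ.erase l)).powerset := by
    rw [insert_erase (mem_univ l), powerset_univ]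
  rw [hu, sum_powerset_insert (notMem_erase l _), sum_powerset_insert (notMem_erase l _),
    ← sum_add_distrib, ← sum_add_distrib, mul_sum]
  refine sum_congr rfl fun s hs => ?_
  have hl : l ∉ s := fun h => notMem_erase l _ (mem_powerset.1 hs h)
  have e : ∏ a ∈ univ.erase l, (if a ∈ insert l s then p a else 1 - p a) =
      ∏ a ∈ univ.erase l, (if a ∈ s then p a else 1 - p a) := by
    refine prod_congr rfl fun a ha => ?_
    have := (mem_erase.1 ha).1
    simp [this]
  rw [pw_split p l s, pw_split p l (insert l s), e]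
  simp only [hl, mem_insert_self, if_true, if_false, insert_idem]
  ring

open Classical in
/-- many points of `X` in a fixed set near the corner -/
lemma bud_card {Ω : Type} {ν : Ω → ℝ≥0∞} {X : Ω → Finset (Vx n)} {C η : ℝ} (h : Bud ν X C η)
    (hC : 0 ≤ C) (h0 : 0 ≤ η) (h1 : η ≤ 1) {r : ℕ} (U : Finset (Vx n))
    (hU : ∀ x ∈ U, ds (vz n) x ≤ r) (m : ℕ) :
    ∑' ω, (if m ≤ (X ω ∩ U).card then ν ω else 0) ≤
      2 ^ U.card * (ENNReal.ofReal (C ^ (r + 1) * η ^ m) * ∑' ω, ν ω) := by
  have a : ∀ ω, (if m ≤ (X ω ∩ U).card then ν ω else 0) ≤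
      ∑ T ∈ U.powerset.filter (fun T => m ≤ T.card), (if T ⊆ X ω then ν ω else 0) := by
    intro ω
    split_ifs with hm
    · refine le_trans ?_ (single_le_sum (f := fun T => if T ⊆ X ω then ν ω else 0)
        (fun _ _ => zero_le) (a := X ω ∩ U)
        (mem_filter.2 ⟨mem_powerset.2 inter_subset_right, hm⟩))
      simp
    · exact zero_le
  refine (ENNReal.tsum_le_tsum a).trans ?_
  rw [Summable.tsum_finsetSum fun _ _ => ENNReal.summable]
  refine (sum_le_card_nsmul _ _ (ENNReal.ofReal (C ^ (r + 1) * η ^ m) * ∑' ω, ν ω) ?_).trans ?_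
  · intro T hT
    obtain ⟨t1, t2⟩ := mem_filter.1 hT
    refine (h r T fun x hx => hU x (mem_powerset.1 t1 hx)).trans ?_
    refine mul_le_mul_left (ENNReal.ofReal_le_ofReal ?_) _
    exact mul_le_mul_of_nonneg_left (pow_le_pow_of_le_one h0 h1 t2) (by positivity)
  · rw [nsmul_eq_mul]
    refine mul_le_mul_left ?_ _
    have : (U.powerset.filter (fun T => m ≤ T.card)).card ≤ 2 ^ U.card :=
      (card_filter_le _ _).trans (card_powerset U).le
    exact_mod_cast this

open Classical in
/-- the budget for a family of sets that holds many points of `X` -/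
theorem bud_fam {Ω ι : Type} {ν : Ω → ℝ≥0∞} {X : Ω → Finset (Vx n)} {C θ : ℝ} {M : ℕ}
    (h : Bud ν X C (θ ^ M)) (hC : 0 ≤ C) (h0 : 0 ≤ θ) (h1 : θ ≤ 1) {r : ℕ} (F : Finset ι)
    (Y : ι → Finset (Vx n)) (hU : ∀ i ∈ F, ∀ x ∈ Y i, ds (vz n) x ≤ r) :
    ∑' ω, (if ∑ i ∈ F, (Y i).card ≤ M * (X ω ∩ F.biUnion Y).card then ν ω else 0) ≤
      (ENNReal.ofReal (C ^ (r + 1)) * ∑' ω, ν ω) *
        ∏ i ∈ F, ENNReal.ofReal ((2 * θ) ^ (Y i).card) := by
  set A := ∑ i ∈ F, (Y i).card with hA
  by_cases hex : ∃ m, A ≤ M * m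
  · have hm := Nat.find_spec hex
    refine le_trans (ENNReal.tsum_le_tsum fun ω => ?_)
      ((bud_card h hC (by positivity) (pow_le_one₀ h0 h1) (F.biUnion Y) (fun x hx => by
        obtain ⟨i, hi, hx⟩ := mem_biUnion.1 hx
        exact hU i hi x hx) (Nat.find hex)).trans ?_)
    · split_ifs with a b
      · exact le_rfl
      · exact absurd (Nat.find_min' hex a) b
      · exact zero_le
      · exact le_rfl
    · rw [← ENNReal.ofReal_prod_of_nonneg fun i _ => by positivity, prod_pow_eq_pow_sum, ← hA,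
        mul_pow, ENNReal.ofReal_mul (by positivity), ENNReal.ofReal_mul (by positivity)]
      have e1 : (2 : ℝ≥0∞) ^ (F.biUnion Y).card ≤ ENNReal.ofReal (2 ^ A) := by
        rw [ENNReal.ofReal_pow (by norm_num), ENNReal.ofReal_ofNat]
        exact pow_le_pow_right₀ (by norm_num) card_biUnion_le
      have e2 : ENNReal.ofReal ((θ ^ M) ^ Nat.find hex) ≤ ENNReal.ofReal (θ ^ A) := by
        rw [← pow_mul]
        exact ENNReal.ofReal_le_ofReal (pow_le_pow_of_le_one h0 h1 hm)
      calc _ ≤ ENNReal.ofReal (2 ^ A) * (ENNReal.ofReal (C ^ (r + 1)) * ENNReal.ofReal (θ ^ A) *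
            ∑' ω, ν ω) := by gcongr
        _ = _ := by ring
  · refine le_trans (le_of_eq ?_) zero_le
    rw [ENNReal.tsum_eq_zero]
    intro ω
    exact if_neg fun a => hex ⟨_, a⟩

/-- a disjoint family of dense sets -/
theorem mass_disj {ι : Type*} (W : Finset ι) (X : Finset (Vx n)) (Y : ι → Finset (Vx n))
    (hD : ∀ i ∈ W, Dn X (Y i)) (hd : ∀ i ∈ W, ∀ j ∈ W, i ≠ j → Disjoint (Y i) (Y j)) :
    ∑ i ∈ W, (Y i).card ≤ 10 ^ 17 * (X ∩ W.biUnion Y).card := by
  classical
  refine (sum_le_sum fun i hi => (hD i hi).2).trans ?_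
  rw [← mul_sum, ← card_biUnion fun i hi j hj hij =>
    (hd i hi j hj hij).mono inter_subset_left inter_subset_left]
  refine Nat.mul_le_mul_left _ (card_le_card fun x hx => ?_)
  obtain ⟨i, hi, hx⟩ := mem_biUnion.1 hx
  exact mem_inter.2 ⟨(mem_inter.1 hx).2, mem_biUnion.2 ⟨i, hi, (mem_inter.1 hx).1⟩⟩

lemma half_sum (m : ℕ) : ∑ J ∈ range m, (1 / 2 : ℝ) ^ (J + 1) ≤ 1 := by
  have : ∑ J ∈ range m, (1 / 2 : ℝ) ^ (J + 1) = 1 - (1 / 2) ^ m := by
    induction m with
    | zero => simp
    | succ m ih => rw [sum_range_succ, ih]; ring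
  rw [this]
  have : (0 : ℝ) ≤ (1 / 2) ^ m := by positivity
  linarith

/-- witnesses on several levels, separated on each level -/
theorem mass_wit {ι : Type*} (W : Finset ι) (X : Finset (Vx n)) (Y : ι → Finset (Vx n))
    (c : ι → Vx n) (lv : ι → ℕ) (up r : ℕ → ℕ)
    (hD : ∀ i ∈ W, Dn X (Y i)) (hc : ∀ i ∈ W, c i ∈ Y i) (hup : ∀ i ∈ W, (Y i).card ≤ up (lv i))
    (hlo : ∀ i ∈ W, 4 * 10 ^ 17 * ∑ J ∈ range (lv i - 1), up J ≤ (Y i).card)
    (hr : ∀ J, 2 ^ (J + 1) * (4 * 10 ^ 17) * up J ≤ r J + 1)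
    (hsep : ∀ i ∈ W, ∀ j ∈ W, i ≠ j → lv i = lv j →
      2 * r (lv i) + 2 * up (lv i) < ds (c i) (c j)) :
    ∑ i ∈ W, (Y i).card ≤ 4 * 10 ^ 17 * (X ∩ W.biUnion Y).card := by
  classical
  set Low : ι → Finset ι := fun i => W.filter fun j => lv j + 2 ≤ lv i ∧ (Y j ∩ Y i).Nonempty
    with hLow
  set M : ι → Finset (Vx n) := fun i => (Y i ∩ X) \ (Low i).biUnion Y with hM
  have hlow : ∀ i ∈ W, 2 * 10 ^ 17 * ∑ j ∈ Low i, (Y j).card ≤ (Y i).card := by
    intro i hi
    have h1 : ∑ j ∈ Low i, (Y j).card ≤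
        ∑ J ∈ range (lv i - 1), ((Low i).filter fun j => lv j = J).card * up J := by
      rw [← sum_fiberwise_of_maps_to (s := Low i) (t := range (lv i - 1)) (g := lv) fun j hj => by
        have := (mem_filter.1 hj).2.1
        exact mem_range.2 (by omega)]
      refine sum_le_sum fun J _ => ?_
      refine (sum_le_card_nsmul _ _ (up J) fun j hj => ?_).trans (by simp)
      obtain ⟨j1, j2⟩ := mem_filter.1 hj
      exact j2 ▸ hup j (mem_filter.1 j1).1
    have h2 : ∀ J, ((((Low i).filter fun j => lv j = J).card * up J : ℕ) : ℝ) ≤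
        up J + (Y i).card / (4 * 10 ^ 17) * (1 / 2) ^ (J + 1) := by
      intro J
      have hm := con_meet (hD i hi).1 ((Low i).filter fun j => lv j = J) c (r := r J)
        (g := up J) (fun j hj => by
          obtain ⟨j1, j2⟩ := mem_filter.1 hj
          obtain ⟨j3, -, x, hx⟩ := mem_filter.1 j1
          refine ⟨x, (mem_inter.1 hx).2, ?_⟩
          have := con_ds (hD j j3).1 (hc j j3) (mem_inter.1 hx).1
          have := hup j j3
          rw [j2] at this
          omega) fun j hj k hk hjk => by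
          obtain ⟨j1, j2⟩ := mem_filter.1 hj
          obtain ⟨k1, k2⟩ := mem_filter.1 hk
          have := hsep j (mem_filter.1 j1).1 k (mem_filter.1 k1).1 hjk (j2.trans k2.symm)
          rwa [j2] at this
      generalize ((Low i).filter fun j => lv j = J).card = t at hm
      have p1 : (0 : ℝ) ≤ (Y i).card / (4 * 10 ^ 17) * (1 / 2) ^ (J + 1) := by positivity
      rcases hm with hm | hm
      · have : t * up J ≤ up J := by nlinarith
        have : ((t * up J : ℕ) : ℝ) ≤ up J := by exact_mod_cast this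
        linarith
      · have q1 : 2 ^ (J + 1) * (4 * 10 ^ 17) * (t * up J) ≤ (Y i).card := by
          calc _ = t * (2 ^ (J + 1) * (4 * 10 ^ 17) * up J) := by ring
            _ ≤ t * (r J + 1) := Nat.mul_le_mul_left _ (hr J)
            _ ≤ _ := hm
        have q2 : (2 : ℝ) ^ (J + 1) * (4 * 10 ^ 17) * ((t * up J : ℕ) : ℝ) ≤ (Y i).card := by
          exact_mod_cast q1
        have q3 : ((t * up J : ℕ) : ℝ) ≤ (Y i).card / (4 * 10 ^ 17) * (1 / 2) ^ (J + 1) := by
          rw [one_div, inv_pow, ← div_eq_mul_inv, div_div, le_div_iff₀ (by positivity)]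
          linarith
        have : (0 : ℝ) ≤ up J := by positivity
        linarith
    have h3 : ((∑ j ∈ Low i, (Y j).card : ℕ) : ℝ) ≤
        (∑ J ∈ range (lv i - 1), up J : ℕ) + (Y i).card / (4 * 10 ^ 17) := by
      refine (Nat.cast_le.2 h1).trans ?_
      rw [Nat.cast_sum]
      refine (sum_le_sum fun J _ => h2 J).trans ?_
      rw [sum_add_distrib, ← mul_sum, Nat.cast_sum]
      have := mul_le_mul_of_nonneg_left (half_sum (lv i - 1))
        (show (0 : ℝ) ≤ (Y i).card / (4 * 10 ^ 17) by positivity)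
      linarith
    have h4 : (4 * 10 ^ 17 : ℝ) * (∑ J ∈ range (lv i - 1), up J : ℕ) ≤ (Y i).card := by
      exact_mod_cast hlo i hi
    have h5 : (2 * 10 ^ 17 : ℝ) * (∑ j ∈ Low i, (Y j).card : ℕ) ≤ (Y i).card := by
      linarith
    exact_mod_cast h5
  have hMc : ∀ i ∈ W, (Y i).card ≤ 2 * 10 ^ 17 * (M i).card := by
    intro i hi
    have h1 := le_card_sdiff ((Low i).biUnion Y) (Y i ∩ X)
    have h2 : ((Low i).biUnion Y).card ≤ ∑ j ∈ Low i, (Y j).card := card_biUnion_le
    have h3 := (hD i hi).2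
    have h4 := hlow i hi
    simp only [hM]
    omega
  have hpar : ∀ b, ∑ i ∈ W.filter (fun i => lv i % 2 = b), (Y i).card ≤
      2 * 10 ^ 17 * (X ∩ W.biUnion Y).card := by
    intro b
    refine (sum_le_sum fun i hi => hMc i (mem_filter.1 hi).1).trans ?_
    have key : ∀ i ∈ W, ∀ j ∈ W, lv j + 2 ≤ lv i → Disjoint (M i) (M j) := by
      intro i _ j hj hl
      rw [disjoint_left]
      intro x hx hx'
      obtain ⟨x1, x2⟩ := mem_sdiff.1 hx
      have x3 := (mem_inter.1 (mem_sdiff.1 hx').1).1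
      exact x2 (mem_biUnion.2 ⟨j, mem_filter.2 ⟨hj, hl, x, mem_inter.2 ⟨x3, (mem_inter.1 x1).1⟩⟩,
        x3⟩)
    rw [← mul_sum, ← card_biUnion]
    · refine Nat.mul_le_mul_left _ (card_le_card fun x hx => ?_)
      obtain ⟨i, hi, hx⟩ := mem_biUnion.1 hx
      have := mem_inter.1 (mem_sdiff.1 hx).1
      exact mem_inter.2 ⟨this.2, mem_biUnion.2 ⟨i, (mem_filter.1 hi).1, this.1⟩⟩
    · intro i hi j hj hij
      obtain ⟨i1, i2⟩ := mem_filter.1 hi
      obtain ⟨j1, j2⟩ := mem_filter.1 hj
      rcases lt_trichotomy (lv i) (lv j) with h | h | h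
      · exact (key j j1 i i1 (by omega)).symm
      · show Disjoint (M i) (M j)
        rw [disjoint_left]
        intro x hx hx'
        have a1 := con_ds (hD i i1).1 (hc i i1) (mem_inter.1 (mem_sdiff.1 hx).1).1
        have a2 := con_ds (hD j j1).1 (hc j j1) (mem_inter.1 (mem_sdiff.1 hx').1).1
        have a3 := hsep i i1 j j1 hij h
        have a4 := hup i i1
        have a5 := hup j j1
        have a6 := ds_tri (c i) x (c j)
        rw [ds_comm x] at a6
        rw [← h] at a5
        omega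
      · exact key i i1 j j1 (by omega)
  rw [← sum_filter_add_sum_filter_not W fun i => lv i % 2 = 0]
  have e : W.filter (fun i => ¬ lv i % 2 = 0) = W.filter (fun i => lv i % 2 = 1) :=
    filter_congr fun i _ => by omega
  rw [e]
  have := hpar 0
  have := hpar 1
  omega

/-- witnesses and a disjoint family together -/
theorem mass_union {ι : Type*} [DecidableEq ι] (W V : Finset ι) (X : Finset (Vx n))
    (Y : ι → Finset (Vx n)) {a b : ℕ}
    (hW : ∑ i ∈ W, (Y i).card ≤ a * (X ∩ W.biUnion Y).card)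
    (hV : ∑ i ∈ V, (Y i).card ≤ b * (X ∩ V.biUnion Y).card) :
    ∑ i ∈ W ∪ V, (Y i).card ≤ (a + b) * (X ∩ (W ∪ V).biUnion Y).card := by
  have h1 : (X ∩ W.biUnion Y).card ≤ (X ∩ (W ∪ V).biUnion Y).card :=
    card_le_card (inter_subset_inter_left (biUnion_subset_biUnion_of_subset_left _ subset_union_left))
  have h2 : (X ∩ V.biUnion Y).card ≤ (X ∩ (W ∪ V).biUnion Y).card :=
    card_le_card (inter_subset_inter_left (biUnion_subset_biUnion_of_subset_left _ subset_union_right))
  have h3 := sum_union_inter (s₁ := W) (s₂ := V) (f := fun i => (Y i).card)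
  have h4 := Nat.mul_le_mul_left a h1
  have h5 := Nat.mul_le_mul_left b h2
  rw [add_mul]
  omega

end Bd

open Bd in
open Classical in
theorem budSt : BudSt := by
  intro n s H _ hl hr p Ω ν X C x F hC h0 h1 hp hB hpos
  by_cases hF : ∀ v : XL n, Sum.inl v ∈ F → v.1 ∈ v.2 ∧ Con v.2
  swap
  · refine le_trans (le_of_eq ?_) zero_le
    rw [ENNReal.tsum_eq_zero]
    intro a
    refine if_neg fun h => hF fun v hv => ?_
    have : OnX (X a.1) v := h.1 _ hv
    exact ⟨this.2.1, this.2.2.1⟩
  set A := ∑ l ∈ F, (bod l).card with hA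
  have hU : ∀ l ∈ F, ∀ y ∈ bod l, ds (vz n) y ≤ 6 * s + 8 * A := by
    rintro (v | h) hv y hy
    · have a1 : ds (vz n) v.1 ≤ 6 * s + 3 * (v.2.card + 1) := hpos _ hv
      have a2 := con_ds (hF v hv).2 (hF v hv).1 (show y ∈ v.2 from hy)
      have a3 : v.2.card ≤ A := single_le_sum (f := fun l : LL n H => (bod l).card)
        (fun _ _ => Nat.zero_le _) hv
      have a4 := ds_tri (vz n) v.1 y
      omega
    · exact absurd hy (notMem_empty _)
  have key := bud_fam hB (by linarith) h0 h1 F bod hU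
  have e1 : ∑ hs : Finset H, (if F.toRight ⊆ hs then ENNReal.ofReal (pw p hs) else 0) =
      ∏ h ∈ F.toRight, ENNReal.ofReal (p h) := by
    rw [← ENNReal.ofReal_prod_of_nonneg fun h _ => (hp h).1, ← pw_sup2,
      ENNReal.ofReal_sum_of_nonneg fun hs _ => by
        split_ifs
        · exact AllU.F.pw_nonneg hp hs
        · exact le_rfl]
    refine sum_congr rfl fun hs _ => ?_
    split_ifs <;> simp
  calc _ ≤ ∑' a : Ω × Finset H,
        (if A ≤ 5 * 10 ^ 17 * (X a.1 ∩ F.biUnion bod).card then ν a.1 else 0) *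
          (if F.toRight ⊆ a.2 then ENNReal.ofReal (pw p a.2) else 0) := by
        refine ENNReal.tsum_le_tsum fun a => ?_
        by_cases h : (∀ l ∈ F, On (X a.1) a.2 l) ∧
            A ≤ 5 * 10 ^ 17 * (X a.1 ∩ F.biUnion bod).card
        · have h3 : F.toRight ⊆ a.2 := fun y hy => h.1 _ (mem_toRight.1 hy)
          rw [if_pos h, if_pos h.2, if_pos h3]
        · rw [if_neg h]
          exact zero_le
    _ = (∑' ω, if A ≤ 5 * 10 ^ 17 * (X ω ∩ F.biUnion bod).card then ν ω else 0) *
          ∏ h ∈ F.toRight, ENNReal.ofReal (p h) := by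
        rw [ENNReal.tsum_prod', ← ENNReal.tsum_mul_right]
        refine tsum_congr fun ω => ?_
        simp only
        rw [ENNReal.tsum_mul_left, tsum_fintype, e1]
    _ ≤ ((ENNReal.ofReal (C ^ (6 * s + 8 * A + 1)) * ∑' ω, ν ω) *
          ∏ l ∈ F, ENNReal.ofReal ((2 * x) ^ (bod l).card)) *
          ∏ h ∈ F.toRight, ENNReal.ofReal (p h) := by
        refine mul_le_mul_left (le_trans (le_of_eq ?_) key) _
        refine tsum_congr fun ω => ?_
        congr
    _ = _ := by
        have e2 : ENNReal.ofReal (C ^ (6 * s + 8 * A + 1)) = ENNReal.ofReal (C ^ (6 * s + 1)) *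
            ∏ l ∈ F, ENNReal.ofReal ((C ^ 8) ^ (bod l).card) := by
          rw [← ENNReal.ofReal_prod_of_nonneg fun _ _ => by positivity, prod_pow_eq_pow_sum, ← hA,
            ← ENNReal.ofReal_mul (by positivity)]
          congr 1
          ring
        have e3 : ∏ h ∈ F.toRight, ENNReal.ofReal (p h) =
            ∏ l ∈ F, Sum.elim (fun _ => 1) (fun h => ENNReal.ofReal (p h)) l := by
          rw [prod_sum_eq_prod_toLeft_mul_prod_toRight]
          simp
        have e4 : ∏ l ∈ F, pi0 (2 * C ^ 8 * x) p l =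
            ∏ l ∈ F, (ENNReal.ofReal ((C ^ 8) ^ (bod l).card) *
              ENNReal.ofReal ((2 * x) ^ (bod l).card) *
              Sum.elim (fun _ => 1) (fun h => ENNReal.ofReal (p h)) l) := by
          refine prod_congr rfl ?_
          rintro (v | h) hv
          · have : v.1 ∈ v.2 ∧ ∀ a ∈ v.2, ∀ b ∈ v.2, Mono.Cn v.2 a b := hF v hv
            simp only [pi0, bod, Sum.elim_inl, mul_one]
            rw [if_pos this, ← ENNReal.ofReal_mul (by positivity), ← mul_pow]
            congr 2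
            ring
          · simp [pi0, bod]
        rw [e2, e3, e4, prod_mul_distrib, prod_mul_distrib]
        ring

end Pool.Agent.Lib.MP_9cc147_pr.AllU.P
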