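import Pool.Agent.Lib.MP_9cc147_pr.U.PDefs
import Pool.Agent.Lib.MP_9cc147_pr.MO

/-! Section P: the content is bounded by the primary labels. -/

open Finset

namespace Pool.Agent.Lib.MP_9cc147_pr.AllU.P

theorem contSt : ContSt := by
  classical
  intro n T s H hl hr X hs ρ h
  set Λ := Lam hl hr X hs with hΛ
  let U : Vx n × ℕ → Prop := fun o => Prim Λ s T o ∧ ∃ z, 0 < ρ z ∧ ds o.1 z + ρ z ≤ 3 * o.2
  let TX : Finset (XL n) := univ.filter fun v => OnX X v ∧ U (v.1, v.2.card + 1)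
  obtain ⟨T', h1, h2, h3⟩ := Mono.vitali (TX.image fun v => (v.1, v.2.card + 1))
  have hc : ∀ a ∈ T', ∃ v ∈ TX, (v.1, v.2.card + 1) = a := fun a ha => mem_image.1 (h1 ha)
  choose! f f1 f2 using hc
  let HH : Finset H := hs.filter fun a => U (hl a, hr a)
  let ρ' : Vx n → ℕ := fun z =>
    3 * ∑ a ∈ HH.filter (fun a => hl a = z), hr a + 5 * ∑ a ∈ T'.filter (fun a => a.1 = z), a.2
  have r1 : ∀ a ∈ HH, 3 * hr a ≤ ρ' (hl a) := fun a ha => by
    have := single_le_sum (f := hr) (fun _ _ => Nat.zero_le _)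
      (mem_filter.2 ⟨ha, rfl⟩ : a ∈ HH.filter fun b => hl b = hl a)
    simp only [ρ']
    omega
  have r2 : ∀ a ∈ T', 5 * a.2 ≤ ρ' a.1 := fun a ha => by
    have := single_le_sum (f := fun a : Vx n × ℕ => a.2) (fun _ _ => Nat.zero_le _)
      (mem_filter.2 ⟨ha, rfl⟩ : a ∈ T'.filter fun b => b.1 = a.1)
    simp only [ρ']
    omega
  refine ⟨T'.image f, ⟨fun v hv => ?_, fun v hv => ?_, fun v hv v' hv' e => ?_⟩, ?_⟩
  · obtain ⟨a, ha, rfl⟩ := mem_image.1 hv
    exact (mem_filter.1 (f1 a ha)).2.1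
  · obtain ⟨a, ha, rfl⟩ := mem_image.1 hv
    exact (mem_filter.1 (f1 a ha)).2.2.1
  · obtain ⟨a, ha, rfl⟩ := mem_image.1 hv
    obtain ⟨b, hb, rfl⟩ := mem_image.1 hv'
    have := h2 a ha b hb fun e' => e (e' ▸ rfl)
    rw [← f2 a ha, ← f2 b hb] at this
    dsimp only at this
    omega
  · have cov : Cov ρ ρ' s := by
      refine ⟨fun z' hz => ?_, fun z a b c => ?_⟩
      · by_cases e : (HH.filter fun a => hl a = z').Nonempty
        · obtain ⟨a, ha0⟩ := e
          obtain ⟨ha, rfl⟩ := mem_filter.1 ha0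
          obtain ⟨z, p, q⟩ := (mem_filter.1 ha).2.2
          exact ⟨z, p, q.trans (r1 a ha)⟩
        · have e' : (T'.filter fun a => a.1 = z').Nonempty := by
            by_contra e'
            rw [not_nonempty_iff_eq_empty] at e e'
            simp [ρ', e, e'] at hz
          obtain ⟨a, ha0⟩ := e'
          obtain ⟨ha, rfl⟩ := mem_filter.1 ha0
          obtain ⟨z, p, q⟩ := (mem_filter.1 (f1 a ha)).2.2.2
          rw [f2 a ha] at q
          have := r2 a ha
          exact ⟨z, p, by omega⟩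
      · obtain ⟨o, ⟨l, on, rfl⟩, p, q⟩ := h z a b c
        rcases l with v | a'
        · obtain ⟨b', hb, b1, b2⟩ := h3 (v.1, v.2.card + 1)
            (mem_image.2 ⟨v, mem_filter.2 ⟨mem_univ _, on, p, z, a, q⟩, rfl⟩)
          have := r2 b' hb
          have := ds_tri b'.1 v.1 z
          have q' : ds v.1 z + ρ z ≤ 3 * (v.2.card + 1) := q
          dsimp only at b1 b2
          exact ⟨b'.1, by omega⟩
        · exact ⟨hl a', q.trans (r1 a' (mem_filter.2 ⟨on, p, z, a, q⟩))⟩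
    refine le_trans (b := ∑ z, ρ' z) (Nat.sInf_le ⟨ρ', cov, rfl⟩) ?_
    simp only [ρ']
    rw [sum_add_distrib, ← mul_sum, ← mul_sum, sum_fiberwise_of_maps_to (fun _ _ => mem_univ _),
      sum_fiberwise_of_maps_to (fun _ _ => mem_univ _)]
    refine Nat.add_le_add (Nat.mul_le_mul_left _ ?_) (Nat.mul_le_mul_left _ (le_of_eq ?_))
    · exact sum_le_sum_of_subset fun a ha =>
        mem_filter.2 ⟨(mem_filter.1 ha).1, (mem_filter.1 ha).2.1⟩
    · unfold sz
      rw [sum_image fun a ha b hb e => by rw [← f2 a ha, ← f2 b hb, e]]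
      exact sum_congr rfl fun a ha => by rw [← f2 a ha]; simp [f2 a ha]

end Pool.Agent.Lib.MP_9cc147_pr.AllU.P
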