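import Pool.Agent.Lib.MP_9cc147_pr.U.PDefs

/-! Section P: the pins that survive the typical phase are covered by primary labels. -/

open Finset

namespace Pool.Agent.Lib.MP_9cc147_pr.AllU.P

namespace Cvr

variable {n : ℕ}

def ee : ℕ → ℕ
  | 0 => 0
  | k + 1 => 3 * It k

lemma ee_sm (k : ℕ) : ee k ≤ sm k := by
  cases k with
  | zero => exact Nat.zero_le _
  | succ k =>
    have := chain k
    rw [ee]
    omega

lemma tstep_cases (k : ℕ) (bad : Vx n → Prop) (σ : Vx n → ℕ) (c : Vx n) :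
    (¬ TCond σ k c ∧ tstep k bad σ c = σ) ∨
      (TCond σ k c ∧ bad c ∧ tstep k bad σ c = Function.update σ c (2 * Jt k)) ∨
      (TCond σ k c ∧ ¬ bad c ∧
        tstep k bad σ c = fun z' => if ds c z' ≤ Ra k then 0 else σ z') := by
  unfold tstep
  by_cases h : TCond σ k c
  · by_cases hb : bad c
    · exact Or.inr (Or.inl ⟨h, hb, by rw [if_pos h, if_pos hb]⟩)
    · exact Or.inr (Or.inr ⟨h, hb, by rw [if_pos h, if_neg hb]⟩)
  · exact Or.inl ⟨h, if_neg h⟩

lemma tstep_pos {k : ℕ} {bad : Vx n → Prop} {σ : Vx n → ℕ} {c z : Vx n}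
    (h : 0 < tstep k bad σ c z) : 0 < σ z := by
  rcases tstep_cases k bad σ c with ⟨-, e⟩ | ⟨hc, -, e⟩ | ⟨-, -, e⟩ <;> rw [e] at h
  · exact h
  · by_cases hz : z = c
    · exact hz ▸ hc.1
    · rwa [Function.update_of_ne hz] at h
  · by_cases hz : ds c z ≤ Ra k
    · simp [hz] at h
    · simpa [hz] using h

lemma fold_ind {k : ℕ} {bad : Vx n → Prop} (P : (Vx n → ℕ) → Prop)
    (hs : ∀ σ c, P σ → P (tstep k bad σ c)) (l : List (Vx n)) {σ : Vx n → ℕ} (h : P σ) :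
    P (l.foldl (tstep k bad) σ) := by
  induction l generalizing σ with
  | nil => exact h
  | cons c l ih => exact ih (hs σ c h)

lemma fold_pos {k : ℕ} {bad : Vx n → Prop} (l : List (Vx n)) {σ : Vx n → ℕ} {z : Vx n}
    (h : 0 < l.foldl (tstep k bad) σ z) : 0 < σ z :=
  fold_ind (fun τ => 0 < τ z → 0 < σ z) (fun _ _ h h' => h (tstep_pos h')) l id h

variable {K : ℕ} {ξ : Finset (Fin K × Vx n)} {ρ : Vx n → ℕ} {Λ : Set (Vx n × ℕ)}

/-- failure at `z` on level `k` -/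
def Fl (ξ : Finset (Fin K × Vx n)) (k : ℕ) (z : Vx n) : Prop := ∃ h : k < K, (⟨k, h⟩, z) ∈ ξ

lemma rhoT_succ (k : ℕ) :
    rhoT ξ ρ (k + 1) = (univ : Finset (Vx n)).toList.foldl (tstep k (Fl ξ k)) (rhoT ξ ρ k) := rfl

/-- centres are never created -/
lemma rhoT_pos {j k : ℕ} (h : j ≤ k) {z : Vx n} (hz : 0 < rhoT ξ ρ k z) : 0 < rhoT ξ ρ j z := by
  induction k, h using Nat.le_induction with
  | base => exact hz
  | succ k _ ih => exact ih (fold_pos _ hz)

/-- every pin is a label or a permanent pin -/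
def Pin (Λ : Set (Vx n × ℕ)) (σ : Vx n → ℕ) : Prop :=
  ∀ z, 0 < σ z → (z, σ z) ∈ Λ ∨ ((z = vz n ∨ z = vl n) ∧ σ z = 1)

lemma Pin.step (hF : ∀ a ∈ ξ, (a.2, 2 * Jt a.1) ∈ Λ) (k : ℕ) (σ : Vx n → ℕ) (c : Vx n)
    (h : Pin Λ σ) : Pin Λ (tstep k (Fl ξ k) σ c) := by
  intro z hz
  have h0 := h z (tstep_pos hz)
  rcases tstep_cases k (Fl ξ k) σ c with ⟨-, e⟩ | ⟨-, ⟨hk, hb⟩, e⟩ | ⟨-, -, e⟩ <;>
    rw [e] at hz ⊢
  · exact h0
  · by_cases ho : z = c
    · subst ho
      rw [Function.update_self]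
      exact Or.inl (hF _ hb)
    · rwa [Function.update_of_ne ho]
  · by_cases ho : ds c z ≤ Ra k
    · simp [ho] at hz
    · simpa only [ho, if_false] using h0

lemma rhoT_pin (h : Pin Λ ρ) (hF : ∀ a ∈ ξ, (a.2, 2 * Jt a.1) ∈ Λ) (k : ℕ) :
    Pin Λ (rhoT ξ ρ k) := by
  induction k with
  | zero => exact h
  | succ k ih => exact fold_ind _ (Pin.step hF k) _ ih

/-- why a centre is still there before level `k` -/
def Exp (Λ : Set (Vx n × ℕ)) (k : ℕ) (z : Vx n) : Prop :=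
  Bad Λ k z ∨ (∃ o ∈ Λ, sm k < o.2 ∧ ds z o.1 ≤ o.2 + ee k) ∨ ds z (vz n) ≤ ee k ∨
    ds z (vl n) ≤ ee k

lemma exp_big {k : ℕ} {z : Vx n} {o : Vx n × ℕ} (hm : o ∈ Λ) (ho : sm k < o.2)
    (hd : ds z o.1 ≤ o.2 + ee (k + 1)) : Exp Λ (k + 1) z := by
  by_cases h : sm (k + 1) < o.2
  · exact Or.inr (Or.inl ⟨o, hm, h, hd⟩)
  · have := ee_sm (k + 1)
    have e : lv o.2 = k + 1 := le_antisymm (lv_le (by omega)) (lt_lv_iff.2 ho)
    exact Or.inl (Or.inl ⟨o, hm, e, by omega⟩)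

theorem claim (h : Pin Λ ρ) (hF : ∀ a ∈ ξ, (a.2, 2 * Jt a.1) ∈ Λ) (k : ℕ) (z : Vx n)
    (hz : 0 < rhoT ξ ρ k z) : Exp Λ k z := by
  induction k generalizing z with
  | zero =>
    rcases h z hz with hm | ⟨rfl | rfl, -⟩
    · rcases Nat.eq_zero_or_pos (lv (ρ z)) with e | e
      · exact Or.inl ⟨_, hm, e, by simp⟩
      · exact Or.inr (Or.inl ⟨_, hm, lt_lv_iff.1 e, by simp⟩)
    · exact Or.inr (Or.inr (Or.inl (by simp)))
    · exact Or.inr (Or.inr (Or.inr (by simp)))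
  | succ k ih =>
    obtain ⟨l1, l2, e⟩ := List.append_of_mem (Finset.mem_toList.2 (mem_univ z))
    rw [rhoT_succ, e, List.foldl_append, List.foldl_cons] at hz
    have hR : Pin Λ (l1.foldl (tstep k (Fl ξ k)) (rhoT ξ ρ k)) :=
      fold_ind _ (Pin.step hF k) _ (rhoT_pin h hF k)
    have hP : ∀ x, 0 < l1.foldl (tstep k (Fl ξ k)) (rhoT ξ ρ k) x → Exp Λ k x :=
      fun x hx => ih x (fold_pos _ hx)
    generalize l1.foldl (tstep k (Fl ξ k)) (rhoT ξ ρ k) = σ at hz hR hP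
    have h2 := fold_pos _ hz
    have h1 := tstep_pos h2
    have := chain k
    have := ee_sm k
    have he : ee (k + 1) = 3 * It k := rfl
    rcases tstep_cases k (Fl ξ k) σ z with ⟨hc, -⟩ | ⟨-, ⟨hk, hb⟩, -⟩ | ⟨-, -, e⟩
    · by_cases a1 : ds z (vz n) ≤ It k
      · exact Or.inr (Or.inr (Or.inl (by omega)))
      by_cases a2 : ds z (vl n) ≤ It k
      · exact Or.inr (Or.inr (Or.inr (by omega)))
      have : ∃ z', 0 < σ z' ∧ ds z z' ≤ It k + σ z' ∧ Ra k < ds z z' + σ z' := by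
        by_contra hn
        exact hc ⟨h1, by omega, by omega, fun z' p q => not_lt.1 fun r => hn ⟨z', p, q, r⟩⟩
      obtain ⟨z', p, q, r⟩ := this
      by_cases hs : σ z' ≤ sm k
      · have near : ∀ x, ds z x ≤ It k + sm k → Exp Λ k x → Bad Λ k x ∨ Exp Λ (k + 1) z := by
          rintro x hx (b | ⟨o, om, o1, o2⟩ | b | b)
          · exact Or.inl b
          · have := ds_tri z x o.1
            exact Or.inr (exp_big om o1 (by omega))
          · have := ds_tri z x (vz n)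
            exact Or.inr (Or.inr (Or.inr (Or.inl (by omega))))
          · have := ds_tri z x (vl n)
            exact Or.inr (Or.inr (Or.inr (Or.inr (by omega))))
        rcases near z (by simp) (hP z h1) with b1 | b1
        · rcases near z' (by omega) (hP z' p) with b2 | b2
          · exact Or.inl (Or.inr ⟨z, z', b1, b2, by simp, by omega, by omega⟩)
          · exact b2
        · exact b1
      · rcases hR z' p with hm | ⟨-, e1⟩
        · exact exp_big hm (by simp only; omega) (by simp only; omega)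
        · omega
    · exact Or.inl (Or.inl ⟨_, hF _ hb, lv_fail k, by simp⟩)
    · rw [e] at h2
      simp at h2

lemma ds_corner (z : Vx n) : n ≤ ds (vz n) z + ds z (vl n) := by
  have h := ds_tri (vz n) z (vl n)
  have e : ds (vz n) (vl n) = n := by simp [ds, vz, vl]
  omega

end Cvr

open Cvr in
theorem coverSt : CoverSt := by
  classical
  intro n T s ξ ρ Λ h hF hs hn z hz h1 h2
  have hc := ds_corner z
  have hcz := ds_comm (vz n) z
  have hK := chain (2 * T + 1)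
  have hcl := fun k (hk : k ≤ 2 * T + 1) => claim (ξ := ξ) h hF k z (rhoT_pos hk hz)
  have hp := rhoT_pin (ξ := ξ) h hF (2 * T + 1) z hz
  generalize rhoT ξ ρ (2 * T + 1) z = r at hz h1 h2 hp ⊢
  have hm : (z, r) ∈ Λ := by
    rcases hp with hm | ⟨rfl | rfl, e⟩
    · exact hm
    · rw [ds_self] at h1
      omega
    · rw [ds_self] at hc
      omega
  by_cases hg : 2 * T + 1 < lv r
  · exact ⟨_, hm, Or.inr ⟨hg, by simp only; omega⟩, by simp only [ds_self]; omega⟩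
  have hr : r ≤ sm (2 * T + 1) := lv_le_iff.1 (not_lt.1 hg)
  by_cases hb : ∀ k, lv r ≤ k → k ≤ 2 * T + 1 → Bad Λ k z
  · exact ⟨_, hm, Or.inl ⟨not_lt.1 hg, z, by omega, by simp, hb⟩, by simp only [ds_self]; omega⟩
  have ex : ∃ k, (lv r ≤ k ∧ ¬ Bad Λ k z) ∧ k ≤ 2 * T + 1 := by
    by_contra hn
    exact hb fun k a b => by_contra fun c => hn ⟨k, ⟨a, c⟩, b⟩
  obtain ⟨k1, p1, q1⟩ := ex
  have a0 := Nat.findGreatest_spec (P := fun k => lv r ≤ k ∧ ¬ Bad Λ k z) q1 p1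
  have a1 := Nat.findGreatest_le (P := fun k => lv r ≤ k ∧ ¬ Bad Λ k z) (2 * T + 1)
  have a2 := fun k => Nat.findGreatest_is_greatest (P := fun k => lv r ≤ k ∧ ¬ Bad Λ k z)
    (k := k) (n := 2 * T + 1)
  generalize Nat.findGreatest (fun k => lv r ≤ k ∧ ¬ Bad Λ k z) (2 * T + 1) = k at a0 a1 a2
  have hrk : r ≤ sm k := lv_le_iff.1 a0.1
  have hek := ee_sm k
  have hsk : sm k ≤ sm (2 * T + 1) := sm_mono a1
  rcases hcl k a1 with b | ⟨o, om, o1, o2⟩ | b | b
  · exact absurd b a0.2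
  · have hd := ds_comm o.1 z
    have ht := ds_tri (vz n) z o.1
    have hl := le_sm_lv o.2
    have hkl := lt_lv_iff.2 o1
    refine ⟨o, om, ?_, by omega⟩
    by_cases hg' : 2 * T + 1 < lv o.2
    · exact Or.inr ⟨hg', by omega⟩
    · refine Or.inl ⟨not_lt.1 hg', z, by omega, by omega, fun j c d => ?_⟩
      by_contra e
      exact a2 j (by omega) d ⟨by have := a0.1; omega, e⟩
  · omega
  · omega

end Pool.Agent.Lib.MP_9cc147_pr.AllU.P
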