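import Pool.Agent.Lib.MP_9cc147_pr.U.TStep

/-! Typical phase: sum over the failures, induction over slots and levels. -/

open Finset

namespace Pool.Agent.Lib.MP_9cc147_pr.AllU.T

section pw
variable {α : Type} [Fintype α] [DecidableEq α]

/-- `F` does not see the coordinate `a` -/
def Ind (a : α) (F : Finset α → ℝ) : Prop := ∀ ξ, F (insert a ξ) = F ξ

lemma pw_eq (p : α → ℝ) (ξ : Finset α) : pw p ξ = ∏ a, if a ∈ ξ then p a else 1 - p a := by
  unfold pw
  exact prod_congr rfl fun a _ => by congr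

lemma pw_sum (p : α → ℝ) : ∑ ξ, pw p ξ = 1 := by
  have := Fintype.prod_add p fun a => 1 - p a
  simp only [add_sub_cancel, prod_const_one] at this
  rw [this]
  refine sum_congr rfl fun ξ _ => ?_
  rw [pw_eq, prod_ite]
  congr 1 <;> refine prod_congr ?_ fun _ _ => rfl <;> ext <;> simp

lemma pw_cut (p : α → ℝ) (a : α) : ∃ W : Finset α → ℝ, ∀ G : Finset α → ℝ,
    ∑ ξ, pw p ξ * G ξ = ∑ ξ ∈ (univ.erase a).powerset,
      W ξ * ((1 - p a) * G ξ + p a * G (insert a ξ)) := by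
  refine ⟨fun ξ => ∏ b ∈ univ.erase a, if b ∈ ξ then p b else 1 - p b, fun G => ?_⟩
  have e : (univ : Finset (Finset α)) = (insert a (univ.erase a)).powerset := by
    rw [insert_erase (mem_univ a), powerset_univ]
  rw [e, sum_powerset_insert (notMem_erase a univ), ← sum_add_distrib]
  refine sum_congr rfl fun ξ hξ => ?_
  have ha : a ∉ ξ := fun h => notMem_erase a univ (mem_powerset.1 hξ h)
  have e1 : pw p ξ = (1 - p a) * ∏ b ∈ univ.erase a, if b ∈ ξ then p b else 1 - p b := by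
    rw [pw_eq, ← mul_prod_erase univ _ (mem_univ a), if_neg ha]
  have e2 : pw p (insert a ξ) = p a * ∏ b ∈ univ.erase a, if b ∈ ξ then p b else 1 - p b := by
    rw [pw_eq, ← mul_prod_erase univ _ (mem_univ a), if_pos (mem_insert_self a ξ)]
    congr 1
    refine prod_congr rfl fun b hb => ?_
    have : b ≠ a := ne_of_mem_erase hb
    simp [this]
  rw [e1, e2]; ring

lemma pw_split (p : α → ℝ) (a : α) {F F0 F1 : Finset α → ℝ} (h0 : Ind a F0) (h1 : Ind a F1)
    (hF0 : ∀ ξ, a ∈ ξ → F ξ = F0 ξ) (hF1 : ∀ ξ, a ∉ ξ → F ξ = F1 ξ) :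
    ∑ ξ, pw p ξ * F ξ = (1 - p a) * ∑ ξ, pw p ξ * F1 ξ + p a * ∑ ξ, pw p ξ * F0 ξ := by
  obtain ⟨W, hW⟩ := pw_cut p a
  rw [hW, hW, hW, mul_sum, mul_sum, ← sum_add_distrib]
  refine sum_congr rfl fun ξ hξ => ?_
  have ha : a ∉ ξ := fun h => notMem_erase a univ (mem_powerset.1 hξ h)
  rw [hF1 ξ ha, hF0 _ (mem_insert_self a ξ), h0, h1]; ring

end pw

variable {n K : ℕ}

/-- failures of level `k` -/
def bad (ξ : Finset (Fin K × Vx n)) (k : ℕ) (z : Vx n) : Prop := ∃ h : k < K, (⟨k, h⟩, z) ∈ ξ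

lemma fold_ind (k : ℕ) (a : Fin K × Vx n) (ξ : Finset (Fin K × Vx n)) (L : List (Vx n))
    (h : a.1.val = k → a.2 ∉ L) (ρ : Vx n → ℕ) :
    L.foldl (tstep k (bad (insert a ξ) k)) ρ = L.foldl (tstep k (bad ξ k)) ρ := by
  refine List.foldl_ext _ _ _ fun ρ' z hz => ?_
  have : bad (insert a ξ) k z ↔ bad ξ k z := by
    refine exists_congr fun hk => ?_
    rw [mem_insert]
    refine or_iff_right fun e => ?_
    subst e
    exact h rfl hz
  unfold tstep
  by_cases e : bad ξ k z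
  · rw [if_pos e, if_pos (this.2 e)]
  · rw [if_neg e, if_neg (mt this.1 e)]

/-- all slots of one level -/
theorem level (hR : RingStmt) {lam q b b' : ℝ} {p : ℕ → ℝ} {k : ℕ} (hk : k < K) (hb : 0 ≤ b)
    (hb' : b * (1 + 61 / (ta k : ℝ)) ≤ b') (hq : 4032 * b / ta k ≤ q) (q0 : 0 < q) (q1 : q ≤ 1)
    (hp : 8 * Real.exp (-(10 / q)) ≤ p k) (p1 : p k ≤ 1)
    (D : (Vx n → ℕ) → Finset (Fin K × Vx n) → ℝ) (hD : ∀ ρ z, Ind (⟨k, hk⟩, z) (D ρ))
    (H : ∀ ρ c, Iv k b b' ρ c → Mul lam (Gm (LamP ρ) c)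
      (∑ ξ : Finset (Fin K × Vx n), pw (fun a => p a.1) ξ * D ρ ξ))
    (L : List (Vx n)) (hL : L.Nodup) : ∀ ρ c, Iv k b b' ρ c → Mul lam (Gm (LamP ρ) c)
      (∑ ξ : Finset (Fin K × Vx n), pw (fun a => p a.1) ξ *
        D (L.foldl (tstep k (bad ξ k)) ρ) ξ) := by
  induction L with
  | nil => exact H
  | cons z L ih =>
    intro ρ c h
    obtain ⟨hz, hL⟩ := List.nodup_cons.1 hL
    simp only [List.foldl_cons]
    by_cases hT : TCond ρ k z
    · have ind : ∀ ρ', Ind (⟨k, hk⟩, z) fun ξ => D (L.foldl (tstep k (bad ξ k)) ρ') ξ := by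
        intro ρ' ξ
        simp only
        rw [fold_ind k _ ξ L (fun _ => hz), hD]
      have hs := h.succ hT hb hb'
      rw [pw_split (fun a : Fin K × Vx n => p a.1) (⟨k, hk⟩, z) (ind (Function.update ρ z (2 * Jt k)))
        (ind (del k z ρ))]
      · exact step hR h hT hb hq q0 q1 hp p1 (ih hL _ _ hs) (ih hL _ _ (h.fail hT)) hs.c0
      · intro ξ hξ
        have : bad ξ k z := ⟨hk, hξ⟩
        simp only [tstep, if_pos hT, if_pos this]
      · intro ξ hξ
        have : ¬ bad ξ k z := fun e => hξ e.2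
        simp only [tstep, if_pos hT, if_neg this]
        rfl
    · simp only [tstep, if_neg hT]
      exact ih hL ρ c h

/-- moment bound before level `k` -/
noncomputable def bb (β : ℝ) (k : ℕ) : ℝ := β * (2 - 4000 / (ta k : ℝ))

lemma bb_fact {β : ℝ} (hβ : 0 < β) (k : ℕ) :
    0 ≤ bb β k ∧ bb β k ≤ 2 * β ∧ bb β k * (1 + 61 / (ta k : ℝ)) ≤ bb β (k + 1) := by
  have h1 := ta_ge k
  have ht : (4000 : ℝ) ≤ ta k := by exact_mod_cast h1
  have h2 : 6 * ta k ≤ 5 * ta (k + 1) := by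
    have : ta (k + 1) = ta k + ta k / 4 := rfl
    omega
  have h3 : (6 : ℝ) * ta k ≤ 5 * ta (k + 1) := by exact_mod_cast h2
  have u0 : 0 < 1 / (ta k : ℝ) := by positivity
  have u1 : 4000 * (1 / (ta k : ℝ)) ≤ 1 := by
    rw [mul_one_div, div_le_one (by linarith)]; exact ht
  have u2 : 4000 / (ta (k + 1) : ℝ) ≤ 3500 * (1 / (ta k : ℝ)) := by
    rw [mul_one_div, div_le_div_iff₀ (by linarith) (by linarith)]; linarith
  unfold bb
  rw [div_eq_mul_one_div 4000 (ta k : ℝ), div_eq_mul_one_div 61 (ta k : ℝ)]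
  generalize 1 / (ta k : ℝ) = u at *
  refine ⟨mul_nonneg hβ.le (by linarith), by nlinarith, ?_⟩
  rw [mul_assoc]
  exact mul_le_mul_of_nonneg_left (by nlinarith) hβ.le

theorem levels (hR : RingStmt) {lam β : ℝ} {p : ℕ → ℝ} (hβ : 0 < β) (h1 : 1000 * β ≤ 1)
    (hp : ∀ k, 8 * Real.exp (-(ta k / (1000 * β))) ≤ p k ∧ p k ≤ 1)
    {ρ : Vx n → ℕ} {c : Vx n → Vx n → ℝ} (h : Base ρ c β) (k : ℕ) (hk : k ≤ K) :
    ∀ D : (Vx n → ℕ) → Finset (Fin K × Vx n) → ℝ, (∀ ρ' a, a.1.val < k → Ind a (D ρ')) →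
      (∀ ρ' c', Base ρ' c' (bb β k) → Mul lam (Gm (LamP ρ') c')
        (∑ ξ : Finset (Fin K × Vx n), pw (fun a => p a.1) ξ * D ρ' ξ)) →
      Mul lam (Gm (LamP ρ) c)
        (∑ ξ : Finset (Fin K × Vx n), pw (fun a => p a.1) ξ * D (rhoT ξ ρ k) ξ) := by
  induction k with
  | zero =>
    intro D _ H
    refine H ρ c ?_
    have : bb β 0 = β := by
      unfold bb ta; norm_num
    rwa [this]
  | succ k ih =>
    intro D hD H
    have ht : (4000 : ℝ) ≤ ta k := by exact_mod_cast ta_ge k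
    obtain ⟨b0, b2, b3⟩ := bb_fact hβ k
    have b4 : bb β k ≤ bb β (k + 1) :=
      le_trans (le_mul_of_one_le_right b0 (le_add_of_nonneg_right (by positivity))) b3
    refine ih (by omega)
      (fun ρ' ξ => D ((univ : Finset (Vx n)).toList.foldl (tstep k (bad ξ k)) ρ') ξ)
      (fun ρ' a ha ξ => ?_) fun ρ' c' h' => ?_
    · simp only
      rw [fold_ind k a ξ _ (fun e => by omega), hD _ a (by omega)]
    · refine level hR (q := 10000 * β / ta k) (by omega) b0 b3 ?_ (by positivity) ?_ ?_ (hp k).2 D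
        (fun ρ'' z => hD ρ'' _ (Nat.lt_succ_self k)) (fun ρ'' c'' h'' => H ρ'' c''
          ⟨h''.c0, fun x => (h''.mom x).elim (fun e => le_trans e b4) fun e => e.1, h''.safe⟩)
        _ (nodup_toList _) ρ' c' ⟨h'.c0, fun x => Or.inl (h'.mom x), h'.safe⟩
      · gcongr ?_ / _
        linarith
      · rw [div_le_one (by linarith)]; linarith
      · have : 10 / (10000 * β / ta k) = ta k / (1000 * β) := by field_simp; norm_num
        rw [this]; exact (hp k).1

theorem tphase (_hB : BasicStmt) (hR : RingStmt) : TStmt := by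
  refine ⟨1000, by norm_num, fun n K lam β ρ c d p hβ h1 h hp H => ?_⟩
  refine levels hR hβ h1 hp h K le_rfl (fun ρ' _ => d ρ') (fun _ _ _ _ => rfl) fun ρ' c' h' => ?_
  rw [← sum_mul, pw_sum, one_mul]
  have := (bb_fact hβ K).2.1
  exact H ρ' c' ⟨h'.c0, fun x => (h'.mom x).trans (by linarith), h'.safe⟩

end Pool.Agent.Lib.MP_9cc147_pr.AllU.T
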