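import Pool.Agent.Lib.MP_9cc147_pr.U.PDefs
import Pool.Agent.Lib.MP_9cc147_pr.U.T

/-! Section P: size bias for the independent labels. -/

open Finset

namespace Pool.Agent.Lib.MP_9cc147_pr.AllU.P

variable {n : ℕ}

namespace Hon

variable {H : Type} {hl : H → Vx n} {hr : H → ℕ}

lemma lam_insert [DecidableEq H] (X : Finset (Vx n)) (hs : Finset H) (h : H) :
    Lam hl hr X (insert h hs) = insert (hl h, hr h) (Lam hl hr X hs) := by
  ext o
  constructor
  · rintro ⟨l | l, h1, rfl⟩
    · exact Or.inr ⟨Sum.inl l, h1, rfl⟩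
    · rcases mem_insert.1 h1 with rfl | h2
      · exact Or.inl rfl
      · exact Or.inr ⟨Sum.inr l, h2, rfl⟩
  · rintro (rfl | ⟨l | l, h1, rfl⟩)
    · exact ⟨Sum.inr h, mem_insert_self h hs, rfl⟩
    · exact ⟨Sum.inl l, h1, rfl⟩
    · exact ⟨Sum.inr l, mem_insert_of_mem h1, rfl⟩

lemma half (f : ℕ → ℕ) (T : ℕ) :
    ∑ i ∈ range (2 * T + 1), f ((i + 1) / 2) ≤ 2 * ∑ I ∈ range (T + 1), f I := by
  induction T with
  | zero => simp; omega
  | succ T ih =>
    rw [show 2 * (T + 1) + 1 = 2 * T + 1 + 1 + 1 by ring, sum_range_succ, sum_range_succ,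
      sum_range_succ _ (T + 1), show (2 * T + 1 + 1) / 2 = T + 1 by omega,
      show (2 * T + 1 + 1 + 1) / 2 = T + 1 by omega]
    omega

variable [Fintype H] {p : H → ℝ}

open Classical in
lemma zone {Y : ℕ} (ht : Tail hl hr p Y) (B : Finset (Vx n)) (i : ℕ) :
    ∑ h, (if hl h ∈ B ∧ i ≤ lv (hr h) then p h * hr h else 0) ≤ B.card * (1 / 2) ^ (Y * ta i) := by
  have e : ∑ h, (if hl h ∈ B ∧ i ≤ lv (hr h) then p h * hr h else 0) =
      ∑ z ∈ B, ∑ h ∈ univ.filter (fun h => hl h = z ∧ i ≤ lv (hr h)), p h * hr h := by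
    simp only [sum_filter]
    rw [sum_comm]
    refine sum_congr rfl fun h _ => ?_
    by_cases hi : i ≤ lv (hr h) <;> simp [hi]
  rw [e, ← nsmul_eq_mul]
  exact sum_le_card_nsmul _ _ _ fun z _ => ht.2 z i

lemma pow_small {c a b d : ℕ} (hc : c ≤ 2 ^ a) (h : a + d ≤ b) :
    (c : ℝ) * (1 / 2) ^ b ≤ (1 / 2) ^ d := by
  have h1 : (c : ℝ) ≤ 2 ^ a := by exact_mod_cast hc
  calc (c : ℝ) * (1 / 2) ^ b ≤ 2 ^ a * (1 / 2) ^ (a + d) :=
        mul_le_mul h1 (pow_le_pow_of_le_one (by norm_num) (by norm_num) h) (by positivity)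
          (by positivity)
    _ = _ := by rw [pow_add, ← mul_assoc, ← mul_pow]; norm_num

open Classical in
lemma point {T s Y : ℕ} (hY : 10 ≤ Y) (hn : n < Ra (2 * T + 3) ^ 4) (ht : Tail hl hr p (2 * Y))
    {Λ : Set (Vx n × ℕ)} {N : ℕ → Finset (Vx n)} (hN : NetF Λ s T N) :
    ∑ h, p h * hr h * (if Prim (insert (hl h, hr h) Λ) s T (hl h, hr h) then 1 else 0) ≤
      1 + (1 / 2) ^ Y * (NN T N : ℝ) := by
  have h0 : ∀ h, 0 ≤ p h * hr h := fun h => mul_nonneg (ht.1 h).1 (Nat.cast_nonneg _)
  have i0 : ∀ (h : H) (c : Prop) [Decidable c], 0 ≤ (if c then p h * hr h else 0) := by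
    intro h c _
    split_ifs
    · exact h0 h
    · exact le_rfl
  calc _ ≤ ∑ h, ((if hl h ∈ (univ : Finset (Vx n)) ∧ 2 * T + 1 ≤ lv (hr h) then p h * hr h else 0) +
        ∑ i ∈ range (2 * T + 1), ∑ y ∈ N ((i + 1) / 2),
          if hl h ∈ (univ.filter fun x => ds y x ≤ Ra (i + 2)) ∧ i ≤ lv (hr h) then
            p h * hr h else 0) := by
        refine sum_le_sum fun h _ => ?_
        have s0 : ∀ i ∈ range (2 * T + 1), 0 ≤ ∑ y ∈ N ((i + 1) / 2),
            if hl h ∈ (univ.filter fun x => ds y x ≤ Ra (i + 2)) ∧ i ≤ lv (hr h) then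
              p h * hr h else 0 := fun i _ => sum_nonneg fun y _ => i0 h _
        by_cases hP : Prim (insert (hl h, hr h) Λ) s T (hl h, hr h)
        · rw [if_pos hP, mul_one]
          by_cases hv : 2 * T + 1 ≤ lv (hr h)
          · rw [if_pos ⟨mem_univ _, hv⟩]
            exact le_add_of_nonneg_right (sum_nonneg s0)
          · obtain ⟨y, hy, hd⟩ := hN.add _ hP (not_le.1 hv)
            refine le_add_of_nonneg_of_le (i0 h _)
              (le_trans ?_ (single_le_sum s0 (mem_range.2 (not_le.1 hv))))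
            refine le_trans ?_ (single_le_sum (fun y _ => i0 h _) hy)
            rw [if_pos ⟨mem_filter.2 ⟨mem_univ _, hd⟩, le_rfl⟩]
        · rw [if_neg hP, mul_zero]
          exact add_nonneg (i0 h _) (sum_nonneg s0)
    _ ≤ _ := by
        rw [sum_add_distrib]
        refine add_le_add ((zone ht _ _).trans ?_) ?_
        · have a1 := ta_succ (2 * T + 1)
          have a2 := ta_succ (2 * T + 2)
          have a3 : 20 * ta (2 * T + 1) ≤ 2 * Y * ta (2 * T + 1) :=
            Nat.mul_le_mul_right _ (by omega)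
          refine (pow_small (a := 8 * ta (2 * T + 3)) (d := 0) ?_ ?_).trans (by norm_num)
          · have : (2 : ℕ) ^ (8 * ta (2 * T + 3)) = Ra (2 * T + 3) ^ 4 * Ra (2 * T + 3) ^ 4 := by
              unfold Ra; ring
            rw [this, card_univ, Fintype.card_prod, Fintype.card_fin]
            exact Nat.mul_le_mul hn hn
          · simp only [show 2 * T + 1 + 1 = 2 * T + 2 from rfl,
              show 2 * T + 2 + 1 = 2 * T + 3 from rfl] at a1 a2
            omega
        · rw [sum_comm]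
          have b1 : ∀ i ∈ range (2 * T + 1), ∑ h, (∑ y ∈ N ((i + 1) / 2),
              if hl h ∈ (univ.filter fun x => ds y x ≤ Ra (i + 2)) ∧ i ≤ lv (hr h) then
                p h * hr h else 0) ≤ (N ((i + 1) / 2)).card * (1 / 2) ^ (Y + 1) := by
            intro i _
            rw [sum_comm, ← nsmul_eq_mul]
            refine sum_le_card_nsmul _ _ _ fun y _ => (zone ht _ _).trans ?_
            have a0 := ta_ge i
            have a1 := ta_succ i
            have a2 := ta_succ (i + 1)
            have a3 : 10 * ta i ≤ Y * ta i := Nat.mul_le_mul_right _ hY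
            have a4 : Y * 1 ≤ Y * ta i := Nat.mul_le_mul_left _ (by omega)
            refine pow_small (a := 2 * ta (i + 2) + 4) ((ball_le y _).trans ?_) ?_
            · have : (2 : ℕ) ^ (2 * ta (i + 2) + 4) = (4 * Ra (i + 2)) ^ 2 := by
                unfold Ra; ring
              rw [this]
              have := chain (i + 2)
              exact Nat.pow_le_pow_left (by omega) 2
            · rw [mul_assoc]
              simp only [show i + 1 + 1 = i + 2 from rfl] at a2
              omega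
          refine (sum_le_sum b1).trans ?_
          rw [← sum_mul, ← Nat.cast_sum]
          have : ((∑ i ∈ range (2 * T + 1), (N ((i + 1) / 2)).card : ℕ) : ℝ) ≤ 2 * (NN T N : ℝ) := by
            exact_mod_cast half (fun I => (N I).card) T
          calc _ ≤ 2 * (NN T N : ℝ) * (1 / 2) ^ (Y + 1) := by gcongr
            _ = _ := by ring

end Hon

theorem honSt : HonSt := by
  classical
  intro n T s Y H _ hl hr p X N hY hn ht hN
  have w0 : ∀ hs, 0 ≤ pw p hs := fun hs => by
    rw [AllU.T.pw_eq]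
    refine prod_nonneg fun a _ => ?_
    have := ht.1 a
    split_ifs <;> linarith
  have e : ∑ hs, pw p hs * (hon hl hr s T X hs : ℝ) = ∑ hs, pw p hs * ∑ h, p h * hr h *
      (if Prim (insert (hl h, hr h) (Lam hl hr X hs)) s T (hl h, hr h) then 1 else 0) := by
    have e1 : ∀ hs, (hon hl hr s T X hs : ℝ) = ∑ h,
        if h ∈ hs ∧ Prim (Lam hl hr X hs) s T (hl h, hr h) then (hr h : ℝ) else 0 := by
      intro hs
      rw [hon, Nat.cast_sum, ← sum_filter]
      refine sum_congr ?_ fun _ _ => rfl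
      ext h; simp
    simp only [e1, mul_sum]
    refine sum_comm.trans (Eq.trans (sum_congr rfl fun h _ => ?_) sum_comm)
    rw [AllU.T.pw_split p h (F0 := fun hs => (hr h : ℝ) *
        if Prim (insert (hl h, hr h) (Lam hl hr X hs)) s T (hl h, hr h) then 1 else 0)
      (F1 := fun _ => 0)]
    · simp only [mul_zero, sum_const_zero, zero_add, mul_sum]
      exact sum_congr rfl fun hs _ => by ring
    · intro hs
      simp only [Hon.lam_insert, Set.insert_eq_of_mem (Set.mem_insert _ _)]
    · exact fun _ => rfl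
    · intro hs hh
      rw [← Hon.lam_insert, insert_eq_of_mem hh]
      simp [hh]
    · intro hs hh
      simp [hh]
  rw [e]
  calc _ ≤ ∑ hs, pw p hs * (1 + (1 / 2) ^ Y * (NN T (N hs) : ℝ)) :=
        sum_le_sum fun hs _ => mul_le_mul_of_nonneg_left (Hon.point hY hn ht (hN hs)) (w0 hs)
    _ = _ := by
        simp only [mul_add, sum_add_distrib, mul_one, AllU.T.pw_sum, mul_sum]
        congr 1
        exact sum_congr rfl fun hs _ => by ring

end Pool.Agent.Lib.MP_9cc147_pr.AllU.P
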