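import Pool.Agent.Lib.MP_9cc147_pr.U.PDefs

/-! Section P: the flags and the failures as one family of independent labels. -/

open Finset

namespace Pool.Agent.Lib.MP_9cc147_pr.AllU.P

namespace Mrg

theorem term {p : ℝ} {a b c d r : ℕ} (hp : p ≤ (1 / 2) ^ a) (hr : r ≤ 2 ^ b)
    (h : b + c + d ≤ a) : p * r ≤ (1 / 2) ^ c * (1 / 2) ^ d := by
  have r' : (r : ℝ) ≤ 2 ^ b := by exact_mod_cast hr
  have a' : (1 / 2 : ℝ) ^ a ≤ (1 / 2) ^ (b + c + d) :=
    pow_le_pow_of_le_one (by norm_num) (by norm_num) h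
  calc p * r ≤ (1 / 2) ^ (b + c + d) * 2 ^ b :=
        mul_le_mul (hp.trans a') r' (by positivity) (by positivity)
    _ = ((1 / 2) * 2) ^ b * ((1 / 2) ^ c * (1 / 2) ^ d) := by rw [mul_pow]; ring
    _ = _ := by norm_num

theorem p64 (a : ℕ) : (1 / 64 : ℝ) ^ a = (1 / 2) ^ (6 * a) := by rw [pow_mul]; norm_num

theorem fr_le (k : ℕ) : fr k ≤ 2 ^ (6 * (Mono.aa k + k + 7) + 2) := by
  have : 1 ≤ 2 ^ (6 * (Mono.aa k + k + 7)) := Nat.one_le_two_pow
  unfold fr Mono.tb rr
  rw [show (64 : ℕ) = 2 ^ 6 by norm_num, ← pow_mul, pow_add _ _ 2]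
  omega

theorem ta_flag {k i : ℕ} (h : i ≤ lv (fr k)) : ta i ≤ 9 * Mono.aa k := by
  have a := Mono.aa_ge k
  rcases i with _ | i
  · rw [ta]; omega
  · have h1 := (lt_lv_iff.1 h).trans_le (fr_le k)
    have h2 := (Nat.pow_lt_pow_iff_right (by norm_num)).1 h1
    have := ta_succ i
    omega

theorem sum_half {m : ℕ} {V : Type} [Fintype V] [DecidableEq V] (z : V) {c : ℝ} (hc : 0 ≤ c)
    (f : Fin m × V → ℝ) (hf : ∀ a, f a ≤ if a.2 = z then c * (1 / 2) ^ (a.1.val + 2) else 0) :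
    ∑ a, f a ≤ c / 2 := by
  refine (sum_le_sum fun a _ => hf a).trans ?_
  rw [Fintype.sum_prod_type]
  simp only [sum_ite_eq', mem_univ, if_true]
  rw [← mul_sum, Fin.sum_univ_eq_sum_range (fun k => (1 / 2 : ℝ) ^ (k + 2))]
  simp only [pow_add]
  rw [← sum_mul]
  have := sum_geometric_two_le m
  nlinarith

theorem half_le {p : ℝ} {a : ℕ} (hp : p ≤ (1 / 2) ^ a) (ha : 1 ≤ a) : p ≤ 1 / 2 :=
  hp.trans ((pow_le_pow_of_le_one (by norm_num) (by norm_num) ha).trans (by norm_num))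

theorem tail {n K Y : ℕ} {pF pT : ℕ → ℝ} (hY : 1 ≤ Y)
    (hF : ∀ k, 0 ≤ pF k ∧ pF k ≤ (1 / 64) ^ (4 * Y * Mono.aa k))
    (hT : ∀ k, 0 ≤ pT k ∧ pT k ≤ (1 / 2) ^ (4 * Y * ta k)) :
    Tail (hlc (n := n) (K := K)) hrc (pc pF pT) Y := by
  classical
  simp only [p64] at hF
  refine ⟨?_, fun z i => ?_⟩
  · rintro (a | a)
    · refine ⟨(hF _).1, half_le (hF _).2 ?_, by simp [hrc, fr]⟩
      have := Mono.aa_ge a.1
      nlinarith
    · refine ⟨(hT _).1, half_le (hT _).2 ?_, ?_⟩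
      · have := ta_ge a.1
        nlinarith
      · have := chain a.1
        simp only [hrc, Sum.elim_inr]
        omega
  · rw [sum_filter, Fintype.sum_sum_type]
    have c0 : (0 : ℝ) ≤ (1 / 2) ^ (Y * ta i) := by positivity
    refine (add_le_add (sum_half z c0 _ fun a => ?_) (sum_half z c0 _ fun a => ?_)).trans
      (by linarith)
    · simp only [hlc, hrc, pc, Sum.elim_inl]
      by_cases h1 : a.2 = z
      · rw [if_pos h1]
        split_ifs with h2
        · refine term (hF _).2 (fr_le _) ?_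
          have := Mono.aa_ge a.1
          have := ta_flag h2.2
          nlinarith
        · positivity
      · rw [if_neg h1, if_neg fun h => h1 h.1]
    · simp only [hlc, hrc, pc, Sum.elim_inr]
      by_cases h1 : a.2 = z
      · rw [if_pos h1]
        split_ifs with h2
        · refine term (b := ta a.1 + ta a.1 / 8 + 1) (hT _).2 (by rw [pow_succ, Jt]; omega) ?_
          have h3 := h2.2
          rw [lv_fail] at h3
          have := ta_ge a.1
          have := ta_mono h3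
          have := ta_succ a.1
          have : ta a.1 / 8 ≤ ta a.1 / 4 := by omega
          have : 4 * (ta a.1 / 4) ≤ ta a.1 := by omega
          nlinarith
        · positivity
      · rw [if_neg h1, if_neg fun h => h1 h.1]

theorem split {α β : Type} [Fintype α] [Fintype β] (p : α → ℝ) (q : β → ℝ)
    (f : Finset α → Finset β → ℝ) :
    ∑ s, ∑ t, pw p s * pw q t * f s t =
      ∑ hs : Finset (α ⊕ β), pw (Sum.elim p q) hs * f hs.toLeft hs.toRight := by
  rw [← Fintype.sum_prod_type']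
  refine (Fintype.sum_equiv Finset.sumEquiv.toEquiv _ _ fun hs => ?_).symm
  have : pw (Sum.elim p q) hs = pw p hs.toLeft * pw q hs.toRight := by
    unfold pw
    rw [Fintype.prod_sum_type]
    congr 1
    · refine prod_congr rfl fun a _ => ?_
      by_cases h : Sum.inl a ∈ hs <;> simp [h]
    · refine prod_congr rfl fun a _ => ?_
      by_cases h : Sum.inr a ∈ hs <;> simp [h]
  rw [this]
  rfl

end Mrg

open Mrg in
theorem mergeSt : MergeSt := by
  intro n K Y pF pT hY hF hT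
  refine ⟨tail hY hF hT, fun f => split _ _ f, fun X hs => ⟨fun z hz => ?_, fun a ha =>
    ⟨Sum.inr (Sum.inr a), mem_toRight.1 ha, rfl⟩⟩⟩
  unfold rho0 at hz ⊢
  classical
  generalize hA : (univ.filter fun Y => z ∈ X ∧ z ∈ Y ∧ Dn X Y) = A at hz ⊢
  generalize hB : (univ.filter fun k : Fin (n + 1) => (k, z) ∈ hs.toLeft) = B at hz ⊢
  have a : 0 < (A.sup fun Y => Y.card + 1) → (z, A.sup fun Y => Y.card + 1) ∈ Lam hlc hrc X hs := by
    intro h
    obtain ⟨Y, hY, e⟩ := exists_mem_eq_sup A (nonempty_iff_ne_empty.2 fun e => by simp [e] at h)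
      fun Y => Y.card + 1
    rw [← hA] at hY
    exact ⟨Sum.inl (z, Y), (mem_filter.1 hY).2, by rw [e]; rfl⟩
  have b : 0 < (B.sup fun k => fr k) → (z, B.sup fun k => fr k) ∈ Lam hlc hrc X hs := by
    intro h
    obtain ⟨k, hk, e⟩ := exists_mem_eq_sup B (nonempty_iff_ne_empty.2 fun e => by simp [e] at h)
      fun k => fr k
    rw [← hB] at hk
    exact ⟨Sum.inr (Sum.inl (k, z)), mem_toLeft.1 (mem_filter.1 hk).2, by rw [e]; rfl⟩
  rcases max_choice (max (A.sup fun Y => Y.card + 1) (B.sup fun k => fr k))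
    (if z = vz n ∨ z = vl n then 1 else 0) with h | h
  · rw [h] at hz ⊢
    rcases max_choice (A.sup fun Y => Y.card + 1) (B.sup fun k => fr k) with h' | h' <;>
      rw [h'] at hz ⊢
    exacts [Or.inl (a hz), Or.inl (b hz)]
  · rw [h] at hz ⊢
    split_ifs at hz ⊢ with h'
    · exact Or.inr ⟨h', rfl⟩
    · omega

end Pool.Agent.Lib.MP_9cc147_pr.AllU.P
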