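import Pool.Agent.Lib.MP_9cc147_pr.U.PDefs

/-! Section P: existence of the nets and their properties. -/

open Finset

namespace Pool.Agent.Lib.MP_9cc147_pr.AllU.P

namespace Nt

variable {n : ℕ} {Λ : Set (Vx n × ℕ)} {s T : ℕ} {N : ℕ → Finset (Vx n)}

lemma sepnet (r : ℕ) (S : Finset (Vx n)) : ∃ A ⊆ S,
    (∀ a ∈ A, ∀ b ∈ A, a ≠ b → r < ds a b) ∧ ∀ x ∈ S, ∃ a ∈ A, ds a x ≤ r := by
  induction S using Finset.induction_on with
  | empty => exact ⟨∅, Subset.rfl, by simp, by simp⟩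
  | insert x S _ ih =>
    obtain ⟨A, h1, h2, h3⟩ := ih
    by_cases c : ∃ a ∈ A, ds a x ≤ r
    · refine ⟨A, h1.trans (subset_insert _ _), h2, fun y hy => ?_⟩
      rcases mem_insert.1 hy with rfl | hy
      · exact c
      · exact h3 y hy
    · have c' : ∀ a ∈ A, r < ds a x := fun a ha => not_le.1 fun h => c ⟨a, ha, h⟩
      refine ⟨insert x A, insert_subset_insert _ h1, fun a ha b hb ne => ?_, fun y hy => ?_⟩
      · rcases mem_insert.1 ha with e1 | h4 <;> rcases mem_insert.1 hb with e2 | h5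
        · exact absurd (e1.trans e2.symm) ne
        · rw [ds_comm, e1]; exact c' b h5
        · rw [e2]; exact c' a h4
        · exact h2 a h4 b h5 ne
      · rcases mem_insert.1 hy with rfl | hy
        · exact ⟨y, mem_insert_self _ _, by simp⟩
        · obtain ⟨a, ha, h⟩ := h3 y hy
          exact ⟨a, mem_insert_of_mem ha, h⟩

lemma nets_ex (Λ : Set (Vx n × ℕ)) (s T : ℕ) : ∃ N, Nets Λ s T N := by
  classical
  choose N h1 h2 h3 using fun I => sepnet (Dd I) (univ.filter fun y : Vx n => InA Λ s T I y)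
  exact ⟨N, fun I y hy => (mem_filter.1 (h1 I hy)).2, h2,
    fun I y hy => h3 I y (mem_filter.2 ⟨mem_univ _, hy⟩)⟩

lemma inA_loc {I : ℕ} {y : Vx n} (h : InA Λ s T I y) :
    I ≤ T ∧ ds (vz n) y + 8 * It (2 * I) ≤ 5 * s + 8 * It (2 * T) := by
  induction h with
  | top y _ h => exact ⟨le_rfl, by omega⟩
  | step I y y' hI _ _ hd ih =>
    refine ⟨hI.le, ?_⟩
    have h1 := ih.2
    have h2 := ds_tri (vz n) y' y
    have h3 := chain (2 * I)
    have h4 := chain (2 * I + 1)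
    have h5 : It (2 * I + 1) ≤ It (2 * I + 2) := It_mono (by omega)
    rw [show 2 * (I + 1) = 2 * I + 2 by ring] at h1
    omega

lemma inA_nb {I : ℕ} {y : Vx n} (h : InA Λ s T I y) : NB Λ I y := by
  cases h with
  | top _ h _ => exact h
  | step _ _ _ _ _ h _ => exact h

lemma inA_up {I : ℕ} {y : Vx n} (h : InA Λ s T I y) (hI : I < T) :
    ∃ y', InA Λ s T (I + 1) y' ∧ ds y' y ≤ 4 * It (2 * I + 2) := by
  cases h with
  | top _ _ _ => exact absurd hI (lt_irrefl _)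
  | step _ _ y' _ h _ hd => exact ⟨y', h, hd⟩

lemma inA_down {y : Vx n} (hy : ds (vz n) y ≤ 5 * s) {I : ℕ} (hI : I ≤ T)
    (h : ∀ J, I ≤ J → J ≤ T → NB Λ J y) : InA Λ s T I y := by
  induction hI using Nat.decreasingInduction with
  | self => exact InA.top y (h T le_rfl le_rfl) hy
  | of_succ k hk ih =>
    exact InA.step k y y hk (ih fun J h1 h2 => h J (by omega) h2) (h k le_rfl hk.le) (by simp)

lemma lab_insert {o : Vx n × ℕ} {k : ℕ} {a : Vx n} (h : Lab (insert o Λ) k a) :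
    Lab Λ k a ∨ (lv o.2 = k ∧ ds a o.1 ≤ 3 * sm k) := by
  obtain ⟨o', h1 | h1, h2⟩ := h
  · exact Or.inr (h1 ▸ h2)
  · exact Or.inl ⟨o', h1, h2⟩

lemma bad_insert {o : Vx n × ℕ} {k : ℕ} {a : Vx n} (h : Bad (insert o Λ) k a) :
    Bad Λ k a ∨ ds a o.1 ≤ 3 * sm k := by
  induction k generalizing a with
  | zero => exact (lab_insert h).imp id And.right
  | succ k ih =>
    rcases h with h | ⟨b, c, hb, hc, h1, h2, h3⟩
    · exact (lab_insert h).imp Or.inl And.right
    · have h4 := chain k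
      rcases ih hb with hb | hb
      · rcases ih hc with hc | hc
        · exact Or.inl (Or.inr ⟨b, c, hb, hc, h1, h2, h3⟩)
        · have := ds_tri a c o.1
          exact Or.inr (by omega)
      · have := ds_tri a b o.1
        exact Or.inr (by omega)

lemma nb_insert {o : Vx n × ℕ} {I : ℕ} {y : Vx n} (h : Bad (insert o Λ) (2 * I + 1) y)
    (hl : lv o.2 ≠ 2 * I + 1) : NB Λ I y := by
  rcases h with h | ⟨a, b, ha, hb, h1, h2, h3⟩
  · rcases lab_insert h with h | h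
    · exact Or.inl (Or.inl h)
    · exact absurd h.1 hl
  · rcases bad_insert ha with ha | ha
    · exact Or.inr ⟨a, ha, h1⟩
    · rcases bad_insert hb with hb | hb
      · exact Or.inr ⟨b, hb, h2⟩
      · have h4 := chain (2 * I)
        have h5 := ds_tri a o.1 b
        rw [ds_comm o.1 b] at h5
        omega

lemma wit (h : Nets Λ s T N) (I : ℕ) (y : Vx n) (hy : y ∈ N I) :
    (∃ o ∈ Λ, lv o.2 / 2 = I ∧ ds y o.1 ≤ 3 * sm (2 * I + 1)) ∨
    ∃ j, I = j + 1 ∧ ∃ a ∈ N j, ∃ b ∈ N j, a ≠ b ∧ ds y a ≤ 5 * It (2 * I) ∧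
      ds y b ≤ 5 * It (2 * I) := by
  have hA := h.sub I y hy
  have hc := chain (2 * I)
  have lab : ∀ a, Lab Λ (2 * I) a → ds y a ≤ 3 * It (2 * I) →
      ∃ o ∈ Λ, lv o.2 / 2 = I ∧ ds y o.1 ≤ 3 * sm (2 * I + 1) := by
    rintro a ⟨o, h1, h2, h3⟩ h4
    have := ds_tri y a o.1
    exact ⟨o, h1, by omega, by omega⟩
  have key : ∀ a, Bad Λ (2 * I) a → ds y a ≤ 3 * It (2 * I) →
      (∃ o ∈ Λ, lv o.2 / 2 = I ∧ ds y o.1 ≤ 3 * sm (2 * I + 1)) ∨
      ∃ j, I = j + 1 ∧ ∃ a ∈ N j, ∃ b ∈ N j, a ≠ b ∧ ds y a ≤ 5 * It (2 * I) ∧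
        ds y b ≤ 5 * It (2 * I) := by
    intro a ha hd
    cases I with
    | zero => exact Or.inl (lab a ha hd)
    | succ j =>
      have e : 2 * (j + 1) = 2 * j + 1 + 1 := by ring
      have ha' : Bad Λ (2 * j + 1 + 1) a := e ▸ ha
      rcases ha' with ha' | ⟨b, c, hb, hc', h1, h2, h3⟩
      · exact Or.inl (lab a (e ▸ ha') hd)
      · have hj : j < T := (inA_loc hA).1
        have h4 := chain (2 * j + 1)
        have h5 := Dd_eq j
        have h6 := ds_tri y a b
        have h7 := ds_tri y a c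
        rw [e] at hd hc ⊢
        obtain ⟨b', hb', h8⟩ := h.cov j b (InA.step j b y hj hA (Or.inl hb)
          (show ds y b ≤ 4 * It (2 * j + 1 + 1) by omega))
        obtain ⟨c', hc'', h9⟩ := h.cov j c (InA.step j c y hj hA (Or.inl hc')
          (show ds y c ≤ 4 * It (2 * j + 1 + 1) by omega))
        have h10 := ds_tri y b b'
        have h11 := ds_tri y c c'
        rw [ds_comm b b'] at h10
        rw [ds_comm c c'] at h11
        refine Or.inr ⟨j, rfl, b', hb', c', hc'', ?_, by omega, by omega⟩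
        rintro rfl
        have h12 := ds_tri b b' c
        rw [ds_comm b b'] at h12
        omega
  rcases inA_nb hA with (⟨o, h1, h2, h3⟩ | ⟨a, _, ha, _, h1, _⟩) | ⟨a, ha, h1⟩
  · exact Or.inl ⟨o, h1, by omega, h3⟩
  · exact key a ha h1
  · exact key a ha h1

lemma netF (h : Nets Λ s T N) : NetF Λ s T N where
  sep := h.sep
  loc I y hy := by
    have h1 := inA_loc (h.sub I y hy)
    have h2 := chain (2 * T)
    have h3 := chain (2 * T + 1)
    exact ⟨h1.1, by omega⟩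
  up I hI a ha := by
    obtain ⟨y', h1, h2⟩ := inA_up (h.sub I a ha) hI
    obtain ⟨y, h3, h4⟩ := h.cov _ _ h1
    have h5 := ds_tri y y' a
    have h6 := Dd_eq (I + 1)
    have h7 := chain (2 * I + 2)
    have h8 := chain (2 * I + 2 + 1)
    rw [show 2 * (I + 1) + 1 = 2 * I + 2 + 1 by ring] at h6 ⊢
    exact ⟨y, h3, by omega⟩
  wit := wit h
  prim o hp hl := by
    rcases hp with ⟨-, y, h1, h2, h3⟩ | ⟨h1, -⟩
    · obtain ⟨y', h4, h5⟩ := h.cov (lv o.2 / 2) y (inA_down h1 (by omega) fun J hJ hT =>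
        Or.inl (h3 _ (by omega) (by omega)))
      have h6 := ds_tri y' y o.1
      have h7 := Dd_eq (lv o.2 / 2)
      have h8 := chain (2 * (lv o.2 / 2) + 1)
      have h9 : sm (lv o.2) ≤ sm (2 * (lv o.2 / 2) + 1) := sm_mono (by omega)
      exact ⟨y', h4, by omega⟩
    · omega
  add o hp hl := by
    rcases hp with ⟨-, y, h1, h2, h3⟩ | ⟨h1, -⟩
    · obtain ⟨y', h4, h5⟩ := h.cov ((lv o.2 + 1) / 2) y (inA_down h1 (by omega) fun J hJ hT =>
        nb_insert (h3 _ (by omega) (by omega)) (by omega))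
      have h6 := ds_tri y' y o.1
      have h7 := Dd_eq ((lv o.2 + 1) / 2)
      have h8 := chain (lv o.2 + 2)
      have h9 : sm (lv o.2) ≤ sm (lv o.2 + 2) := sm_mono (by omega)
      have h10 : Ra (2 * ((lv o.2 + 1) / 2) + 1) ≤ Ra (lv o.2 + 2) := Ra_mono (by omega)
      exact ⟨y', h4, by omega⟩
    · omega

end Nt

theorem netsSt : NetsSt := fun _ T s Λ =>
  (Nt.nets_ex Λ s T).imp fun _ h => Nt.netF h

end Pool.Agent.Lib.MP_9cc147_pr.AllU.P
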