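import Pool.Agent.Lib.MP_9cc147_pr.U.PDefs
import Pool.Agent.Lib.MP_9cc147_pr.U.PConn

/-! Section P: selection of one witness per node and of the family of dense labels. -/

open Finset

namespace Pool.Agent.Lib.MP_9cc147_pr.AllU.P

namespace SelP

variable {n : ℕ} {H : Type} {hl : H → Vx n} {hr : H → ℕ} {s T : ℕ} {X : Finset (Vx n)}
  {hs : Finset H} {N : ℕ → Finset (Vx n)} {VV : Finset (XL n)}

/-- `l` witnesses the node `i` -/
def Wit (hl : H → Vx n) (hr : H → ℕ) (X : Finset (Vx n)) (hs : Finset H) (i : ℕ × Vx n)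
    (l : LL n H) : Prop :=
  On X hs l ∧ lv (rad hr l) / 2 = i.1 ∧ ds i.2 (loc hl l) ≤ 3 * sm (2 * i.1 + 1)

lemma vv_den (hV : Vit hl hr s T X hs VV) :
    ∑ v ∈ VV, v.2.card ≤ 10 ^ 17 * (X ∩ VV.biUnion fun v => v.2).card := by
  have e : (X ∩ VV.biUnion fun v => v.2) = VV.biUnion fun v => v.2 ∩ X := by
    ext x
    simp only [mem_inter, mem_biUnion]
    exact ⟨fun ⟨a, v, b, c⟩ => ⟨v, b, c, a⟩, fun ⟨v, b, c, a⟩ => ⟨a, v, b, c⟩⟩
  rw [e, card_biUnion, mul_sum]
  · exact sum_le_sum fun v hv => (hV.on v hv).2.2.2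
  · intro v hv v' hv' hne
    refine disjoint_left.2 fun x hx hx' => ?_
    have h1 := con_ds (hV.on v hv).2.2.1 (hV.on v hv).2.1 (mem_inter.1 hx).1
    have h2 := con_ds (hV.on v' hv').2.2.1 (mem_inter.1 hx').1 (hV.on v' hv').2.1
    have h3 := hV.dis v hv v' hv' hne
    have := ds_tri v.1 x v'.1
    omega

lemma wit_den (hS : SparseSt) (hN : NetF (Lam hl hr X hs) s T N) (W : Finset (ℕ × Vx n))
    (wt : ℕ × Vx n → LL n H) (hW : ∀ i ∈ W, i.2 ∈ N i.1 ∧ Wit hl hr X hs i (wt i)) :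
    ∑ i ∈ W, (bod (wt i)).card ≤ 4 * 10 ^ 17 * (X ∩ W.biUnion fun i => bod (wt i)).card := by
  classical
  have key : ∀ i ∈ W.filter (fun i => (bod (wt i)).card ≠ 0), Dn X (bod (wt i)) ∧
      lv ((bod (wt i)).card + 1) / 2 = i.1 ∧
      ∀ x ∈ bod (wt i), ds i.2 x ≤ 4 * sm (2 * i.1 + 1) := by
    intro i hi
    obtain ⟨hi, h0⟩ := mem_filter.1 hi
    obtain ⟨h1, h2, h3⟩ := (hW i hi).2
    generalize wt i = l at h0 h1 h2 h3
    rcases l with v | h
    · have h1 : OnX X v := h1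
      have h2 : lv (v.2.card + 1) / 2 = i.1 := h2
      have h3 : ds i.2 v.1 ≤ 3 * sm (2 * i.1 + 1) := h3
      refine ⟨h1.2.2, h2, fun x hx => ?_⟩
      have a1 := con_ds h1.2.2.1 h1.2.1 (show x ∈ v.2 from hx)
      have a2 : v.2.card + 1 ≤ sm (2 * i.1 + 1) := lv_le_iff.1 (by omega)
      have := ds_tri i.2 v.1 x
      omega
    · exact absurd rfl h0
  have h := hS n (ℕ × Vx n) (W.filter fun i => (bod (wt i)).card ≠ 0) (fun i => i.2)
    (fun i => bod (wt i)) (fun i => i.1) X (fun i hi => (key i hi).1) (fun i hi => (key i hi).2.1)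
    (fun i hi => (key i hi).2.2) fun i hi i' hi' hne e =>
      hN.sep i.1 i.2 (hW i (mem_filter.1 hi).1).1 i'.2
        (by have := (hW i' (mem_filter.1 hi').1).1; rwa [← show i.1 = i'.1 from e] at this)
        fun e2 => hne (Prod.ext e e2)
  rw [sum_filter_ne_zero] at h
  exact h.trans (Nat.mul_le_mul_left _ (card_le_card (inter_subset_inter_left
    (biUnion_subset_biUnion_of_subset_left _ (filter_subset _ _)))))

end SelP

open SelP in
theorem selSt (hS : SparseSt) : SelSt := by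
  classical
  intro n T s H hl hr X hs N VV hs2 hN hV
  let W : Finset (ℕ × Vx n) := (range (T + 1) ×ˢ univ).filter fun i =>
    i.2 ∈ N i.1 ∧ ∃ l, Wit hl hr X hs i l
  have hex : ∀ i : ℕ × Vx n, ∃ l : LL n H, i ∈ W → Wit hl hr X hs i l := fun i => by
    by_cases h : i ∈ W
    · obtain ⟨l, hl⟩ := (mem_filter.1 h).2.2
      exact ⟨l, fun _ => hl⟩
    · exact ⟨Sum.inl (vz n, ∅), fun h' => absurd h' h⟩
  choose wt hwt using hex
  have hW : ∀ i ∈ W, i.2 ∈ N i.1 ∧ Wit hl hr X hs i (wt i) :=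
    fun i hi => ⟨(mem_filter.1 hi).2.1, hwt i hi⟩
  let L : Finset (LL n H) := W.image wt ∪ VV.image Sum.inl
  have hg : ∀ l : LL n H, ∃ y : Vx n, l ∈ L → On X hs l ∧
      ds y (loc hl l) ≤ Gr T (lv (rad hr l) / 2) ∧
      (lv (rad hr l) / 2 ≤ T → y ∈ N (lv (rad hr l) / 2)) ∧
      (T < lv (rad hr l) / 2 → ds (vz n) (loc hl l) ≤ 4 * s + 3 * rad hr l) ∧
      ∀ i ∈ W, wt i = l → y = i.2 := by
    intro l
    by_cases h : ∃ i ∈ W, wt i = l
    · obtain ⟨i, hi, rfl⟩ := h
      obtain ⟨a, b, c, d⟩ := hW i hi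
      have hT := (hN.loc _ _ a).1
      have hc := chain (2 * i.1 + 1)
      have hD := Dd_eq i.1
      refine ⟨i.2, fun _ => ⟨b, ?_, fun _ => c ▸ a, fun h => by omega, fun j hj e => ?_⟩⟩
      · rw [c, Gr, if_pos hT]
        omega
      · obtain ⟨a', -, c', d'⟩ := hW j hj
        rw [e] at c' d'
        have e1 : j.1 = i.1 := c'.symm.trans c
        rw [e1] at a' d'
        by_contra hne
        have := hN.sep _ _ a _ a' hne
        have := ds_tri i.2 (loc hl (wt i)) j.2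
        have := ds_comm (loc hl (wt i)) j.2
        omega
    · by_cases hl' : ∃ v ∈ VV, Sum.inl v = l
      · obtain ⟨v, hv, rfl⟩ := hl'
        have hp := hV.prim v hv
        have er : rad hr (Sum.inl v : LL n H) = v.2.card + 1 := rfl
        have el : loc hl (Sum.inl v : LL n H) = v.1 := rfl
        rw [er, el]
        by_cases hlv : lv (v.2.card + 1) ≤ 2 * T + 1
        · obtain ⟨y, hy, hd⟩ := hN.prim _ hp hlv
          refine ⟨y, fun _ => ⟨hV.on v hv, ?_, fun _ => hy, fun h => by omega,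
            fun j hj e => absurd ⟨j, hj, e⟩ h⟩⟩
          rw [Gr, if_pos (by omega)]
          exact hd
        · refine ⟨v.1, fun _ => ⟨hV.on v hv, by simp, fun h => by omega, fun _ => ?_,
            fun j hj e => absurd ⟨j, hj, e⟩ h⟩⟩
          exact (hp.resolve_left fun h => hlv h.1).2
      · refine ⟨vz n, fun hm => ?_⟩
        rcases mem_union.1 hm with hm | hm
        · exact absurd (mem_image.1 hm) h
        · exact absurd (mem_image.1 hm) hl'
  choose g hg using hg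
  have hE : ∀ e ∈ L.image (fun l => (g l, l)), e.2 ∈ L ∧ e.1 = g e.2 := fun e he => by
    obtain ⟨l, hl, rfl⟩ := mem_image.1 he
    exact ⟨hl, rfl⟩
  have hwL : ∀ i ∈ W, wt i ∈ L := fun i hi => mem_union_left _ (mem_image_of_mem _ hi)
  have hvL : ∀ v ∈ VV, Sum.inl v ∈ L := fun v hv => mem_union_right _ (mem_image_of_mem _ hv)
  refine ⟨L.image fun l => (g l, l), ?_, fun e he => (hg _ (hE e he).1).1, ?_, ?_, ?_, ?_, ?_, ?_⟩
  · intro e he e' he' h
    exact Prod.ext (by rw [(hE e he).2, (hE e' he').2, h]) h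
  · rw [sum_image fun a _ b _ h => (Prod.ext_iff.1 h).2]
    have h1 := wit_den hS hN W wt hW
    have h2 := vv_den hV
    have h3 : ∑ l ∈ L, (bod l).card ≤
        ∑ i ∈ W, (bod (wt i)).card + ∑ v ∈ VV, v.2.card := by
      exact (le_self_add.trans sum_union_inter.le).trans (add_le_add
        (sum_image_le_of_nonneg fun _ _ => Nat.zero_le _)
        (sum_image_le_of_nonneg fun _ _ => Nat.zero_le _))
    have h4 : (X ∩ W.biUnion fun i => bod (wt i)).card ≤
        (X ∩ (L.image fun l => (g l, l)).biUnion fun e => bod e.2).card :=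
      card_le_card (inter_subset_inter_left fun x hx => by
        obtain ⟨i, hi, hx⟩ := mem_biUnion.1 hx
        exact mem_biUnion.2 ⟨_, mem_image_of_mem _ (hwL i hi), hx⟩)
    have h5 : (X ∩ VV.biUnion fun v => v.2).card ≤
        (X ∩ (L.image fun l => (g l, l)).biUnion fun e => bod e.2).card :=
      card_le_card (inter_subset_inter_left fun x hx => by
        obtain ⟨v, hv, hx⟩ := mem_biUnion.1 hx
        exact mem_biUnion.2 ⟨_, mem_image_of_mem _ (hvL v hv), hx⟩)
    dsimp only at h4 h5 ⊢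
    omega
  · intro e he
    obtain ⟨-, a, b, c, -⟩ := hg _ (hE e he).1
    by_cases h : lv (rad hr e.2) / 2 ≤ T
    · rw [Gr, if_pos h] at a
      have := (hN.loc _ _ (b h)).2
      have := Ra_mono (show 2 * (lv (rad hr e.2) / 2) + 1 ≤ 2 * T + 1 by omega)
      have := ds_tri (vz n) (g e.2) (loc hl e.2)
      omega
    · have := c (by omega)
      omega
  · intro e he
    rw [(hE e he).2]
    exact (hg _ (hE e he).1).2.1
  · intro e he
    rw [(hE e he).2]
    exact (hg _ (hE e he).1).2.2.1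
  · intro I y hy
    refine (hN.wit I y hy).imp_left ?_
    rintro ⟨o, ⟨l, hon, rfl⟩, h1, h2⟩
    have hi : (I, y) ∈ W := mem_filter.2 ⟨mem_product.2
      ⟨mem_range.2 (Nat.lt_succ_of_le (hN.loc I y hy).1), mem_univ _⟩, hy, l, hon, h1, h2⟩
    exact ⟨_, mem_image_of_mem _ (hwL _ hi), (hg _ (hwL _ hi)).2.2.2.2 _ hi rfl, (hW _ hi).2.2.1⟩
  · exact fun v hv => ⟨_, mem_image_of_mem (fun l => (g l, l)) (hvL v hv)⟩

end Pool.Agent.Lib.MP_9cc147_pr.AllU.P
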