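import Pool.Agent.Lib.MP_9cc147_pr.U.PDefs
import Pool.Agent.Lib.MP_9cc147_pr.U.PConn

/-! Section P: witnesses of different nodes use essentially different points. -/

open Finset

namespace Pool.Agent.Lib.MP_9cc147_pr.AllU.P

variable {n : ℕ}

namespace Sp

lemma half_sum (m : ℕ) : ∑ J ∈ range m, (1 / 2 : ℝ) ^ (J + 1) ≤ 1 := by
  have : ∑ J ∈ range m, (1 / 2 : ℝ) ^ (J + 1) = 1 - (1 / 2) ^ m := by
    induction m with
    | zero => simp
    | succ m ih => rw [sum_range_succ, ih]; ring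
  rw [this]
  have : (0 : ℝ) ≤ (1 / 2) ^ m := by positivity
  linarith

/-- witnesses on several levels, separated on each level -/
theorem mass_wit {ι : Type*} (W : Finset ι) (X : Finset (Vx n)) (Y : ι → Finset (Vx n))
    (c : ι → Vx n) (lv : ι → ℕ) (up r : ℕ → ℕ)
    (hD : ∀ i ∈ W, Dn X (Y i)) (hc : ∀ i ∈ W, c i ∈ Y i) (hup : ∀ i ∈ W, (Y i).card ≤ up (lv i))
    (hlo : ∀ i ∈ W, 4 * 10 ^ 17 * ∑ J ∈ range (lv i - 1), up J ≤ (Y i).card)
    (hr : ∀ J, 2 ^ (J + 1) * (4 * 10 ^ 17) * up J ≤ r J + 1)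
    (hsep : ∀ i ∈ W, ∀ j ∈ W, i ≠ j → lv i = lv j →
      2 * r (lv i) + 2 * up (lv i) < ds (c i) (c j)) :
    ∑ i ∈ W, (Y i).card ≤ 4 * 10 ^ 17 * (X ∩ W.biUnion Y).card := by
  classical
  set Low : ι → Finset ι := fun i => W.filter fun j => lv j + 2 ≤ lv i ∧ (Y j ∩ Y i).Nonempty
    with hLow
  set M : ι → Finset (Vx n) := fun i => (Y i ∩ X) \ (Low i).biUnion Y with hM
  have hlow : ∀ i ∈ W, 2 * 10 ^ 17 * ∑ j ∈ Low i, (Y j).card ≤ (Y i).card := by
    intro i hi
    have h1 : ∑ j ∈ Low i, (Y j).card ≤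
        ∑ J ∈ range (lv i - 1), ((Low i).filter fun j => lv j = J).card * up J := by
      rw [← sum_fiberwise_of_maps_to (s := Low i) (t := range (lv i - 1)) (g := lv) fun j hj => by
        have := (mem_filter.1 hj).2.1
        exact mem_range.2 (by omega)]
      refine sum_le_sum fun J _ => ?_
      refine (sum_le_card_nsmul _ _ (up J) fun j hj => ?_).trans (by simp)
      obtain ⟨j1, j2⟩ := mem_filter.1 hj
      exact j2 ▸ hup j (mem_filter.1 j1).1
    have h2 : ∀ J, ((((Low i).filter fun j => lv j = J).card * up J : ℕ) : ℝ) ≤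
        up J + (Y i).card / (4 * 10 ^ 17) * (1 / 2) ^ (J + 1) := by
      intro J
      have hm := con_meet (hD i hi).1 ((Low i).filter fun j => lv j = J) c (r := r J)
        (g := up J) (fun j hj => by
          obtain ⟨j1, j2⟩ := mem_filter.1 hj
          obtain ⟨j3, -, x, hx⟩ := mem_filter.1 j1
          refine ⟨x, (mem_inter.1 hx).2, ?_⟩
          have := con_ds (hD j j3).1 (hc j j3) (mem_inter.1 hx).1
          have := hup j j3
          rw [j2] at this
          omega) fun j hj k hk hjk => by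
          obtain ⟨j1, j2⟩ := mem_filter.1 hj
          obtain ⟨k1, k2⟩ := mem_filter.1 hk
          have := hsep j (mem_filter.1 j1).1 k (mem_filter.1 k1).1 hjk (j2.trans k2.symm)
          rwa [j2] at this
      generalize ((Low i).filter fun j => lv j = J).card = t at hm
      have p1 : (0 : ℝ) ≤ (Y i).card / (4 * 10 ^ 17) * (1 / 2) ^ (J + 1) := by positivity
      rcases hm with hm | hm
      · have : t * up J ≤ up J := by nlinarith
        have : ((t * up J : ℕ) : ℝ) ≤ up J := by exact_mod_cast this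
        linarith
      · have q1 : 2 ^ (J + 1) * (4 * 10 ^ 17) * (t * up J) ≤ (Y i).card := by
          calc _ = t * (2 ^ (J + 1) * (4 * 10 ^ 17) * up J) := by ring
            _ ≤ t * (r J + 1) := Nat.mul_le_mul_left _ (hr J)
            _ ≤ _ := hm
        have q2 : (2 : ℝ) ^ (J + 1) * (4 * 10 ^ 17) * ((t * up J : ℕ) : ℝ) ≤ (Y i).card := by
          exact_mod_cast q1
        have q3 : ((t * up J : ℕ) : ℝ) ≤ (Y i).card / (4 * 10 ^ 17) * (1 / 2) ^ (J + 1) := by
          rw [one_div, inv_pow, ← div_eq_mul_inv, div_div, le_div_iff₀ (by positivity)]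
          linarith
        have : (0 : ℝ) ≤ up J := by positivity
        linarith
    have h3 : ((∑ j ∈ Low i, (Y j).card : ℕ) : ℝ) ≤
        (∑ J ∈ range (lv i - 1), up J : ℕ) + (Y i).card / (4 * 10 ^ 17) := by
      refine (Nat.cast_le.2 h1).trans ?_
      rw [Nat.cast_sum]
      refine (sum_le_sum fun J _ => h2 J).trans ?_
      rw [sum_add_distrib, ← mul_sum, Nat.cast_sum]
      have := mul_le_mul_of_nonneg_left (half_sum (lv i - 1))
        (show (0 : ℝ) ≤ (Y i).card / (4 * 10 ^ 17) by positivity)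
      linarith
    have h4 : (4 * 10 ^ 17 : ℝ) * (∑ J ∈ range (lv i - 1), up J : ℕ) ≤ (Y i).card := by
      exact_mod_cast hlo i hi
    have h5 : (2 * 10 ^ 17 : ℝ) * (∑ j ∈ Low i, (Y j).card : ℕ) ≤ (Y i).card := by
      linarith
    exact_mod_cast h5
  have hMc : ∀ i ∈ W, (Y i).card ≤ 2 * 10 ^ 17 * (M i).card := by
    intro i hi
    have h1 := le_card_sdiff ((Low i).biUnion Y) (Y i ∩ X)
    have h2 : ((Low i).biUnion Y).card ≤ ∑ j ∈ Low i, (Y j).card := card_biUnion_le
    have h3 := (hD i hi).2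
    have h4 := hlow i hi
    simp only [hM]
    omega
  have hpar : ∀ b, ∑ i ∈ W.filter (fun i => lv i % 2 = b), (Y i).card ≤
      2 * 10 ^ 17 * (X ∩ W.biUnion Y).card := by
    intro b
    refine (sum_le_sum fun i hi => hMc i (mem_filter.1 hi).1).trans ?_
    have key : ∀ i ∈ W, ∀ j ∈ W, lv j + 2 ≤ lv i → Disjoint (M i) (M j) := by
      intro i _ j hj hl
      rw [disjoint_left]
      intro x hx hx'
      obtain ⟨x1, x2⟩ := mem_sdiff.1 hx
      have x3 := (mem_inter.1 (mem_sdiff.1 hx').1).1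
      exact x2 (mem_biUnion.2 ⟨j, mem_filter.2 ⟨hj, hl, x, mem_inter.2 ⟨x3, (mem_inter.1 x1).1⟩⟩,
        x3⟩)
    rw [← mul_sum, ← card_biUnion]
    · refine Nat.mul_le_mul_left _ (card_le_card fun x hx => ?_)
      obtain ⟨i, hi, hx⟩ := mem_biUnion.1 hx
      have := mem_inter.1 (mem_sdiff.1 hx).1
      exact mem_inter.2 ⟨this.2, mem_biUnion.2 ⟨i, (mem_filter.1 hi).1, this.1⟩⟩
    · intro i hi j hj hij
      obtain ⟨i1, i2⟩ := mem_filter.1 hi
      obtain ⟨j1, j2⟩ := mem_filter.1 hj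
      rcases lt_trichotomy (lv i) (lv j) with h | h | h
      · exact (key j j1 i i1 (by omega)).symm
      · show Disjoint (M i) (M j)
        rw [disjoint_left]
        intro x hx hx'
        have a1 := con_ds (hD i i1).1 (hc i i1) (mem_inter.1 (mem_sdiff.1 hx).1).1
        have a2 := con_ds (hD j j1).1 (hc j j1) (mem_inter.1 (mem_sdiff.1 hx').1).1
        have a3 := hsep i i1 j j1 hij h
        have a4 := hup i i1
        have a5 := hup j j1
        have a6 := ds_tri (c i) x (c j)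
        rw [ds_comm x] at a6
        rw [← h] at a5
        omega
      · exact key i i1 j j1 (by omega)
  rw [← sum_filter_add_sum_filter_not W fun i => lv i % 2 = 0]
  have e : W.filter (fun i => ¬ lv i % 2 = 0) = W.filter (fun i => lv i % 2 = 1) :=
    filter_congr fun i _ => by omega
  rw [e]
  have := hpar 0
  have := hpar 1
  omega

/-- witnesses and a disjoint family together -/
theorem mass_union {ι : Type*} [DecidableEq ι] (W V : Finset ι) (X : Finset (Vx n))
    (Y : ι → Finset (Vx n)) {a b : ℕ}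
    (hW : ∑ i ∈ W, (Y i).card ≤ a * (X ∩ W.biUnion Y).card)
    (hV : ∑ i ∈ V, (Y i).card ≤ b * (X ∩ V.biUnion Y).card) :
    ∑ i ∈ W ∪ V, (Y i).card ≤ (a + b) * (X ∩ (W ∪ V).biUnion Y).card := by
  have h1 : (X ∩ W.biUnion Y).card ≤ (X ∩ (W ∪ V).biUnion Y).card :=
    card_le_card (inter_subset_inter_left (biUnion_subset_biUnion_of_subset_left _ subset_union_left))
  have h2 : (X ∩ V.biUnion Y).card ≤ (X ∩ (W ∪ V).biUnion Y).card :=
    card_le_card (inter_subset_inter_left (biUnion_subset_biUnion_of_subset_left _ subset_union_right))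
  have h3 := sum_union_inter (s₁ := W) (s₂ := V) (f := fun i => (Y i).card)
  have h4 := Nat.mul_le_mul_left a h1
  have h5 := Nat.mul_le_mul_left b h2
  rw [add_mul]
  omega


lemma sum_sm (m : ℕ) : ∑ J ∈ range (m + 1), sm (2 * J + 1) ≤ 2 * sm (2 * m + 1) := by
  induction m with
  | zero => simp; omega
  | succ m ih =>
    rw [sum_range_succ]
    have h1 := chain (2 * m + 1)
    have h2 : sm (2 * m + 1 + 1) ≤ sm (2 * (m + 1) + 1) := sm_mono (by omega)
    omega

end Sp

theorem sparseSt : SparseSt := by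
  classical
  intro n ι W nd Y I X hD hl hn hs
  have hc : ∀ i, ∃ x, (Y i).Nonempty → x ∈ Y i := fun i => by
    by_cases h : (Y i).Nonempty
    · exact ⟨h.choose, fun _ => h.choose_spec⟩
    · exact ⟨nd i, fun a => absurd a h⟩
  choose c hc using hc
  have e : ∑ i ∈ W, (Y i).card = ∑ i ∈ W.filter (fun i => (Y i).Nonempty), (Y i).card := by
    rw [sum_filter]
    refine sum_congr rfl fun i _ => ?_
    split_ifs with h
    · rfl
    · simpa using h
  rw [e]
  refine (Sp.mass_wit (W.filter fun i => (Y i).Nonempty) X Y c I (fun J => sm (2 * J + 1))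
    (fun J => 2 ^ (J + 1) * (4 * 10 ^ 17) * sm (2 * J + 1)) (fun i hi => hD i (mem_filter.1 hi).1)
    (fun i hi => hc i (mem_filter.1 hi).2) (fun i hi => ?_) (fun i hi => ?_)
    (fun J => Nat.le_succ _) fun i hi j hj hij hI => ?_).trans
    (Nat.mul_le_mul_left _ (card_le_card (inter_subset_inter_left
      (biUnion_subset_biUnion_of_subset_left _ (filter_subset _ _)))))
  · have h1 := hl i (mem_filter.1 hi).1
    have : (Y i).card + 1 ≤ sm (2 * I i + 1) := lv_le_iff.1 (by omega)
    omega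
  · have h1 := hl i (mem_filter.1 hi).1
    rcases Nat.lt_or_ge (I i) 2 with h | h
    · rw [show I i - 1 = 0 by omega]; simp
    obtain ⟨m, hm⟩ : ∃ m, I i = m + 2 := ⟨I i - 2, by omega⟩
    have h2 : sm (2 * m + 1 + 1) < (Y i).card + 1 := lt_lv_iff.1 (by omega)
    have h3 := Sp.sum_sm m
    have h4 := sm_sm (2 * m + 1)
    have h5 : 2 ^ 71 * sm (2 * m + 1) ≤ 2 ^ (2 * m + 1 + 71) * sm (2 * m + 1) :=
      Nat.mul_le_mul_right _ (Nat.pow_le_pow_right (by norm_num) (by omega))
    rw [show I i - 1 = m + 1 by omega]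
    omega
  · obtain ⟨i1, i2⟩ := mem_filter.1 hi
    obtain ⟨j1, j2⟩ := mem_filter.1 hj
    have h1 := hs i i1 j j1 hij hI
    have h2 := hn i i1 _ (hc i i2)
    have h3 := hn j j1 _ (hc j j2)
    rw [← hI] at h3
    have h4 := Dd_eq (I i)
    have h5 := sm_Ra (2 * I i + 1)
    have h6 : 2 ^ 70 * (2 ^ (I i + 1) * sm (2 * I i + 1)) ≤
        2 ^ (2 * I i + 1 + 77) * sm (2 * I i + 1) := by
      rw [← mul_assoc]
      exact Nat.mul_le_mul_right _ (pw2 (by omega))
    have h7 : sm (2 * I i + 1) ≤ 2 ^ (I i + 1) * sm (2 * I i + 1) :=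
      Nat.le_mul_of_pos_left _ (by positivity)
    have h8 := ds_tri (nd i) (c i) (nd j)
    have h9 := ds_tri (c i) (c j) (nd j)
    have h10 := ds_comm (c j) (nd j)
    rw [mul_right_comm]
    omega

end Pool.Agent.Lib.MP_9cc147_pr.AllU.P
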