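import Pool.Agent.Lib.MP_9cc147_pr.U.PDefs
import Pool.Agent.Lib.MP_9cc147_pr.U.PConn

/-! Section P: labels of high level are rare. -/

open Finset
open scoped ENNReal

namespace Pool.Agent.Lib.MP_9cc147_pr.AllU.P

variable {n : ℕ}

namespace Tl

lemma geo {r : ℝ} (h0 : 0 ≤ r) (h1 : r ≤ 1 / 2) (a M : ℕ) :
    ∑ k ∈ Ico a M, r ^ k ≤ 2 * r ^ a := by
  refine (geom_sum_Ico_le_of_lt_one h0 (by linarith)).trans ?_
  rw [div_le_iff₀ (by linarith)]
  have := pow_nonneg h0 a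
  nlinarith

open Classical in
/-- total weight of the connected sets through a point with at least `a` elements -/
lemma animals (z : Vx n) {x : ℝ} (h0 : 0 ≤ x) (h1 : 81 * x ≤ 1 / 2) (a : ℕ) :
    ∑ Y ∈ univ.filter (fun Y : Finset (Vx n) => z ∈ Y ∧ Con Y ∧ a ≤ Y.card), x ^ Y.card ≤
      2 * (81 * x) ^ a := by
  refine le_trans ?_ (geo (by positivity) h1 a (Fintype.card (Vx n) + 1))
  rw [← sum_fiberwise_of_maps_to (t := Ico a (Fintype.card (Vx n) + 1)) (g := fun Y => Y.card)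
    fun Y hY => mem_Ico.2 ⟨(mem_filter.1 hY).2.2.2, Nat.lt_succ_of_le (card_le_univ Y)⟩]
  refine sum_le_sum fun k _ => ?_
  rw [sum_congr rfl (g := fun _ => x ^ k) fun Y hY => by rw [(mem_filter.1 hY).2],
    sum_const, nsmul_eq_mul, mul_pow]
  refine mul_le_mul_of_nonneg_right ?_ (pow_nonneg h0 k)
  have := (card_le_card (t := univ.filter fun Y : Finset (Vx n) => z ∈ Y ∧ Con Y ∧ Y.card = k)
    (s := (univ.filter fun Y : Finset (Vx n) => z ∈ Y ∧ Con Y ∧ a ≤ Y.card).filter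
      fun Y => Y.card = k) fun Y hY => by
        obtain ⟨h, e⟩ := mem_filter.1 hY
        obtain ⟨_, p, q, _⟩ := mem_filter.1 h
        exact mem_filter.2 ⟨mem_univ _, p, q, e⟩).trans (card_con z k)
  exact_mod_cast this

lemma half (m : ℕ) : ENNReal.ofReal ((1 / 2) ^ m) = 2⁻¹ ^ m := by
  rw [ENNReal.ofReal_pow (by norm_num), one_div, ENNReal.ofReal_inv_of_pos (by norm_num)]
  simp

end Tl

open Classical in
theorem tailSt : TailSt := by
  intro n Y H _ hl hr p x h0 hx hT z i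
  obtain ⟨a, a1, a2, a3⟩ : ∃ a : ℕ, 1 ≤ a ∧ Y * ta i + 1 ≤ (Y * 4000 + 1) * a ∧
      ∀ c, 1 ≤ c → i ≤ lv (c + 1) → a ≤ c := by
    rcases i with _ | j
    · exact ⟨1, le_rfl, by simp [ta], fun c h _ => h⟩
    · have h1 := ta_ge (j + 1)
      refine ⟨ta (j + 1), by omega, by nlinarith [Nat.zero_le (Y * ta (j + 1))], fun c _ h => ?_⟩
      have := lt_lv_iff.1 (show j < lv (c + 1) from h)
      have := ta_le_sm j
      omega
  have u1 : (1 / 2 : ℝ) ^ (Y * 4000 + 1) ≤ 1 / 2 := by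
    rw [pow_succ]
    have : (1 / 2 : ℝ) ^ (Y * 4000) ≤ 1 := pow_le_one₀ (by norm_num) (by norm_num)
    linarith
  have hX : 2 * (81 * x) ^ a ≤ (1 / 2) ^ (Y * ta i) := by
    have b1 : (81 * x) ^ a ≤ ((1 / 2) ^ (Y * 4000 + 1)) ^ a :=
      pow_le_pow_left₀ (by positivity) (by linarith) a
    rw [← pow_mul] at b1
    have b2 : (1 / 2 : ℝ) ^ ((Y * 4000 + 1) * a) ≤ (1 / 2) ^ (Y * ta i + 1) :=
      pow_le_pow_of_le_one (by norm_num) (by norm_num) a2
    rw [pow_succ] at b2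
    linarith
  rw [sum_filter, Fintype.sum_sum_type, two_mul, ← Tl.half]
  refine add_le_add ?_ ?_
  · refine le_trans ?_ (ENNReal.ofReal_le_ofReal
      ((Tl.animals z h0 (by linarith) a).trans hX))
    rw [ENNReal.ofReal_sum_of_nonneg fun _ _ => pow_nonneg h0 _, sum_filter,
      Fintype.sum_prod_type, sum_comm]
    refine sum_le_sum fun B _ => ?_
    rw [sum_eq_single z (fun y _ hy => if_neg fun h => hy h.1) fun h => absurd (mem_univ z) h]
    simp only [loc, rad, pi0, Sum.elim_inl, true_and]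
    by_cases c1 : i ≤ lv (B.card + 1)
    · by_cases c2 : z ∈ B ∧ ∀ a ∈ B, ∀ b ∈ B, Mono.Cn B a b
      · rw [if_pos c1, if_pos c2,
          if_pos ⟨c2.1, c2.2, a3 _ (card_pos.2 ⟨z, c2.1⟩) c1⟩]
      · rw [if_pos c1, if_neg c2]; exact zero_le
    · rw [if_neg c1]; exact zero_le
  · refine le_trans ?_ (ENNReal.ofReal_le_ofReal (hT.2 z i))
    rw [ENNReal.ofReal_sum_of_nonneg fun h _ => mul_nonneg (hT.1 h).1 (Nat.cast_nonneg _),
      sum_filter]
    refine sum_le_sum fun h _ => ?_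
    simp only [loc, rad, pi0, Sum.elim_inr]
    split_ifs
    · refine ENNReal.ofReal_le_ofReal (le_mul_of_one_le_right (hT.1 h).1 ?_)
      exact_mod_cast (hT.1 h).2.2
    · exact le_rfl

end Pool.Agent.Lib.MP_9cc147_pr.AllU.P
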