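import Pool.Agent.Lib.MP_9cc147_pr.U.P
import Pool.Agent.Lib.MP_9cc147_pr.U.PCover
import Pool.Agent.Lib.MP_9cc147_pr.U.PCont
import Pool.Agent.Lib.MP_9cc147_pr.U.PNets
import Pool.Agent.Lib.MP_9cc147_pr.U.PHon
import Pool.Agent.Lib.MP_9cc147_pr.U.PMerge
import Pool.Agent.Lib.MP_9cc147_pr.U.PBud
import Pool.Agent.Lib.MP_9cc147_pr.U.PSel
import Pool.Agent.Lib.MP_9cc147_pr.U.PSparse
import Pool.Agent.Lib.MP_9cc147_pr.U.PTail
import Pool.Agent.Lib.MP_9cc147_pr.U.PExp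

/-! Section P closed. -/

namespace Pool.Agent.Lib.MP_9cc147_pr.AllU

theorem pphase (hN : NetStmt) : PStmt :=
  P.pphase_of P.coverSt P.contSt P.netsSt (P.expSt hN (P.selSt P.sparseSt) P.budSt P.tailSt)
    P.honSt P.mergeSt

end Pool.Agent.Lib.MP_9cc147_pr.AllU
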