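import Pool.Agent.Lib.MP_9cc147_pr.U.All0
import Pool.Agent.Lib.MP_9cc147_pr.U.PFin

/-! All the sections. -/

namespace Pool.Agent.Lib.MP_9cc147_pr.AllU.F

theorem all : All := all_of (pphase net)

end Pool.Agent.Lib.MP_9cc147_pr.AllU.F
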