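import Mathlib

/-! Exceptional phase: the parameters exist. -/

open Filter

namespace Pool.Agent.Lib.MP_9cc147_pr.AllU.E

noncomputable def cI : ℝ := (1 / 2) ^ 256

lemma cI_pos : 0 < cI := by unfold cI; positivity

lemma cI_le : cI ≤ 1 / 8 := by
  unfold cI
  calc ((1 : ℝ) / 2) ^ 256 ≤ (1 / 2) ^ 3 :=
        pow_le_pow_of_le_one (by norm_num) (by norm_num) (by norm_num)
    _ = 1 / 8 := by norm_num

/-- growth factor of the constants `al k` per colour -/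
def kap (g : ℕ) : ℝ := 4 * (1 + 160000 * (1000 * g))

lemma one_le_kap (g : ℕ) : 1 ≤ kap g := by
  unfold kap
  have : (0 : ℝ) ≤ g := Nat.cast_nonneg g
  nlinarith

structure Par (C : ℝ) (g Λ Γ : ℕ) (β al : ℝ) : Prop where
  g1 : 1 ≤ g
  Cg : C ≤ g
  gL : C * g ^ 3 ≤ Λ
  LG : C * g * Λ ≤ Γ
  logG : Γ ≤ 2 ^ g
  grow : Γ / cI < (1 + 200 * g * Λ / Γ : ℝ) ^ (Γ / (30 * Λ) / 2)
  mass : 16 * (40000 * g) * Λ * (200 * g * Λ / Γ : ℝ) ≤ cI
  lev : C * (9 * (g + 1)) * g ^ 3 * kap g ^ 256 ≤ Λ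
  fail : Γ / cI * (27 / 28) ^ g + 8 * Real.exp (-(10 * g)) ≤ cI / (100 * (40000 * g) * Γ)
  b0 : 0 < β
  al0 : 0 < al
  bal : C * (9 * (g + 1)) * β * Γ ^ 4 / cI ^ 2 ≤ al
  alg : C * g ^ 3 * kap g ^ 256 * al ≤ 1

lemma ev_exp (A : ℝ) (k : ℕ) {r : ℝ} (hr : 1 < r) : ∀ᶠ g : ℕ in atTop, A * (g : ℝ) ^ k < r ^ g := by
  have h := (tendsto_pow_const_div_const_pow_of_one_lt k hr).const_mul A
  rw [mul_zero] at h
  filter_upwards [h.eventually (gt_mem_nhds one_pos)] with g hg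
  rw [← mul_div_assoc, div_lt_one (by positivity)] at hg
  exact hg

lemma ev_pow (A : ℝ) {a b : ℕ} (h : a < b) : ∀ᶠ g : ℕ in atTop, A * (g : ℝ) ^ a ≤ (g : ℝ) ^ b := by
  filter_upwards [tendsto_natCast_atTop_atTop.eventually_ge_atTop (A : ℝ),
    eventually_ge_atTop 1] with g hg h1
  have h1' : (1 : ℝ) ≤ g := by exact_mod_cast h1
  calc A * (g : ℝ) ^ a ≤ g * (g : ℝ) ^ a := by gcongr
    _ = (g : ℝ) ^ (a + 1) := by ring
    _ ≤ _ := pow_le_pow_right₀ h1' h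

lemma grow_aux (g x : ℕ) (hg : 1 ≤ g) (hx : 200 ≤ x) :
    (2 : ℝ) ^ g ≤ (1 + 200 / (x : ℝ)) ^ (g * x / 30 / 2) := by
  have hx0 : (0 : ℝ) < x := by exact_mod_cast (by omega : 0 < x)
  have h1 : g * (x / 100) ≤ g * x / 30 / 2 := by
    rw [Nat.div_div_eq_div_mul, Nat.le_div_iff_mul_le (by norm_num)]
    have : x / 100 * 100 ≤ x := Nat.div_mul_le_self x 100
    nlinarith
  have h2 : (2 : ℝ) ≤ (1 + 200 / (x : ℝ)) ^ (x / 100) := by
    refine le_trans ?_ (one_add_mul_le_pow (by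
      have : (0 : ℝ) ≤ 200 / (x : ℝ) := by positivity
      linarith) _)
    have h3 : x ≤ 200 * (x / 100) := by omega
    have h4 : (x : ℝ) ≤ 200 * ((x / 100 : ℕ) : ℝ) := by exact_mod_cast h3
    have : 1 ≤ ((x / 100 : ℕ) : ℝ) * (200 / (x : ℝ)) := by
      rw [← mul_div_assoc, le_div_iff₀ hx0]; linarith
    linarith
  calc (2 : ℝ) ^ g ≤ ((1 + 200 / (x : ℝ)) ^ (x / 100)) ^ g := by gcongr
    _ = (1 + 200 / (x : ℝ)) ^ (g * (x / 100)) := by rw [← pow_mul, mul_comm]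
    _ ≤ _ := pow_le_pow_right₀ (by
        have : (0 : ℝ) ≤ 200 / (x : ℝ) := by positivity
        linarith) h1

theorem par_ex (C : ℝ) (hC : 1 ≤ C) : ∃ (g Λ Γ : ℕ) (β al : ℝ), Par C g Λ Γ β al := by
  have hc := cI_pos
  obtain ⟨g, h1, h2, h3, h4, h5, h6, h7, h8, h9⟩ := ((eventually_ge_atTop 200).and
    ((tendsto_natCast_atTop_atTop.eventually_ge_atTop C).and
    ((ev_pow C (by norm_num : 3 < 300)).and ((ev_pow C (by norm_num : 301 < 700)).and
    ((ev_exp (1 / cI) 700 (by norm_num : (1 : ℝ) < 2)).and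
    ((ev_pow (128000000 / cI) (by norm_num : 602 < 700)).and
    ((ev_pow (C * 18 * (10 ^ 9) ^ 256) (by norm_num : 260 < 300)).and
    ((ev_exp (8000000 / cI ^ 2) 1401 (by norm_num : (1 : ℝ) < 28 / 27)).and
    (ev_exp 1 700 (by norm_num : (1 : ℝ) < 2)))))))))).exists
  have g0 : (200 : ℝ) ≤ g := by exact_mod_cast h1
  have gp : (0 : ℝ) < g := by linarith
  have hk := one_le_kap g
  have hk9 : kap g ≤ 10 ^ 9 * g := by unfold kap; nlinarith
  have hal : 0 < 1 / (C * g ^ 3 * kap g ^ 256) := by positivity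
  refine ⟨g, g ^ 300, g ^ 700, 1 / (C * g ^ 3 * kap g ^ 256) * cI ^ 2 /
    (C * (9 * (g + 1)) * ((g ^ 700 : ℕ) : ℝ) ^ 4), 1 / (C * g ^ 3 * kap g ^ 256),
    by omega, h2, ?_, ?_, ?_, ?_, ?_, ?_, ?_, by positivity, hal, ?_, ?_⟩
  · exact_mod_cast h3
  · push_cast
    calc C * g * (g : ℝ) ^ 300 = C * (g : ℝ) ^ 301 := by ring
      _ ≤ _ := h4
  · have : ((g ^ 700 : ℕ) : ℝ) ≤ ((2 ^ g : ℕ) : ℝ) := by push_cast; linarith
    exact_mod_cast this
  · have e1 : g ^ 700 / (30 * g ^ 300) = g * g ^ 399 / 30 := by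
      rw [show g ^ 700 = g * g ^ 399 * g ^ 300 by ring]
      exact Nat.mul_div_mul_right _ _ (by positivity)
    have e2 : (200 * g * ((g ^ 300 : ℕ) : ℝ) / ((g ^ 700 : ℕ) : ℝ)) = 200 / ((g ^ 399 : ℕ) : ℝ) := by
      push_cast
      rw [show (g : ℝ) ^ 700 = g * g ^ 300 * g ^ 399 by ring]
      field_simp
    rw [e1, e2]
    refine lt_of_lt_of_le ?_ (grow_aux g (g ^ 399) (le_trans (by norm_num) h1)
      (h1.trans (Nat.le_self_pow (by norm_num) g)))
    push_cast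
    rw [div_eq_mul_one_div, mul_comm]
    exact h5
  · push_cast
    rw [← mul_div_assoc, div_le_iff₀ (by positivity)]
    rw [div_mul_eq_mul_div, div_le_iff₀ hc] at h6
    calc 16 * (40000 * (g : ℝ)) * g ^ 300 * (200 * g * g ^ 300) = 128000000 * (g : ℝ) ^ 602 := by
          ring
      _ ≤ _ := by linarith
  · push_cast
    calc C * (9 * (g + 1)) * g ^ 3 * kap g ^ 256
        ≤ C * (18 * g) * g ^ 3 * (10 ^ 9 * g) ^ 256 := by
          have b1 : 9 * ((g : ℝ) + 1) ≤ 18 * g := by linarith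
          gcongr
      _ = C * 18 * (10 ^ 9) ^ 256 * (g : ℝ) ^ 260 := by rw [mul_pow]; ring
      _ ≤ _ := h7
  · push_cast
    have a1 : Real.exp (-(10 * g)) ≤ (27 / 28) ^ g := by
      rw [show -(10 * (g : ℝ)) = g * (-10) by ring, Real.exp_nat_mul]
      gcongr
      have := Real.add_one_le_exp (10 : ℝ)
      rw [Real.exp_neg, inv_le_comm₀ (Real.exp_pos _) (by norm_num)]
      linarith
    have a2 : (8 : ℝ) ≤ g ^ 700 / cI := by
      rw [le_div_iff₀ hc]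
      have : (1 : ℝ) ≤ g ^ 700 := one_le_pow₀ (by linarith)
      have := cI_le
      linarith
    have a3 : ((27 : ℝ) / 28) ^ g = 1 / (28 / 27) ^ g := by rw [← one_div_pow]; norm_num
    have a4 : (0 : ℝ) < (28 / 27) ^ g := by positivity
    have a5 : 2 * ((g : ℝ) ^ 700 / cI * (27 / 28) ^ g) ≤ cI / (100 * (40000 * g) * g ^ 700) := by
      rw [a3, le_div_iff₀ (by positivity)]
      rw [div_mul_eq_mul_div, div_lt_iff₀ (by positivity)] at h8
      calc 2 * ((g : ℝ) ^ 700 / cI * (1 / (28 / 27) ^ g)) * (100 * (40000 * g) * g ^ 700)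
          = 8000000 * (g : ℝ) ^ 1401 / (cI * (28 / 27) ^ g) := by
            rw [show (g : ℝ) ^ 1401 = g * g ^ 700 * g ^ 700 by ring]
            field_simp
            ring
        _ ≤ cI := by
            rw [div_le_iff₀ (by positivity)]
            nlinarith
    have a6 : 8 * Real.exp (-(10 * g)) ≤ (g : ℝ) ^ 700 / cI * (27 / 28) ^ g := by gcongr
    linarith
  · apply le_of_eq
    field_simp
  · apply le_of_eq
    field_simp

end Pool.Agent.Lib.MP_9cc147_pr.AllU.E
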