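import Pool.Agent.Lib.MP_9cc147_pr.U.ECnt2
import Pool.Agent.Lib.MP_9cc147_pr.U.EPar

/-! Exceptional phase: the choice of the shell for a slot and for the final ring. -/

open Finset

namespace Pool.Agent.Lib.MP_9cc147_pr.AllU.E

variable {n : ℕ} {C β al : ℝ} {g Λ Γ : ℕ}

lemma Par.pre_nat (h : Par C g Λ Γ β al) (hC : 10 ^ 4 ≤ C) :
    10000 ≤ g ∧ 10000 ≤ Λ ∧ 10000 * Λ ≤ Γ := by
  have g1 : (1 : ℝ) ≤ g := by exact_mod_cast h.g1
  have a1 : (10000 : ℝ) ≤ g := by linarith [h.Cg]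
  have a2 : (10000 : ℝ) ≤ Λ := by
    have := h.gL
    nlinarith [one_le_pow₀ (n := 3) g1]
  have a3 : (10000 * Λ : ℝ) ≤ Γ := by
    have := h.LG
    have b : (10000 : ℝ) ≤ C * g := by nlinarith
    nlinarith
  exact ⟨by exact_mod_cast a1, by exact_mod_cast a2, by exact_mod_cast a3⟩

lemma pre_N {s s' v : ℕ} (h1 : 0 < Λ) (h2 : 30 * Λ ≤ Γ) (hs : s = Γ * s') (hv : v = Λ * s') :
    30 * v * (Γ / (30 * Λ)) ≤ s ∧ s ≤ 60 * v * (Γ / (30 * Λ)) ∧ Γ ≤ 60 * Λ * (Γ / (30 * Λ)) := by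
  have a1 := Nat.mul_div_le Γ (30 * Λ)
  have a2 := Nat.lt_mul_div_succ Γ (show 0 < 30 * Λ by omega)
  have a3 : 1 ≤ Γ / (30 * Λ) := (Nat.one_le_div_iff (by omega)).2 h2
  have a4 : Γ ≤ 60 * Λ * (Γ / (30 * Λ)) := by nlinarith
  subst hs hv
  exact ⟨by nlinarith [Nat.mul_le_mul_right s' a1], by nlinarith [Nat.mul_le_mul_right s' a4], a4⟩

variable {z p0 : Vx n} {ρ : Vx n → ℕ} {μ : Vx n → ℝ} {s s' v : ℕ}

/-- the pins that meet the ball of a light slot are small -/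
lemma slot_small {H1 : ℝ} (hμ : ∀ x, 0 ≤ μ x) (hM : ∀ p, H1 * ρ p ≤ μ p)
    (hl : ∑ y with ds z y ≤ 4000 * s, μ y ≤ s)
    (hf : ∀ p, 0 < ρ p → ds z p ≤ ρ p + 4 * s → ds z p ≤ 4000 * s) {p : Vx n} (hp : 0 < ρ p)
    (h : ds z p ≤ ρ p + 4 * s) : H1 * ρ p ≤ s :=
  (hM p).trans ((single_le_sum (f := μ) (fun y _ => hμ y)
    (mem_filter.2 ⟨mem_univ _, hf p hp h⟩)).trans hl)

/-- a heavy slot gives the first form of the certificate -/
lemma skip_heavy {c : ℝ} (hμ : ∀ x, 0 ≤ μ x) {p : Vx n} (hp : ds z p ≤ s)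
    (h : c * s ≤ ∑ y with ds z y ≤ 4000 * s, μ y) : Cert ρ μ c s p := by
  refine Or.inl (h.trans (sum_le_sum_of_subset_of_nonneg (fun y hy => ?_) fun y _ _ => hμ y))
  have a1 := (mem_filter.1 hy).2
  have a2 := ds_tri p z y
  rw [ds_comm p z] at a2
  exact mem_filter.2 ⟨mem_univ _, by omega⟩

/-- a far pin that meets the ball of the slot gives the second form of the certificate -/
lemma skip_far {c : ℝ} {p q : Vx n} (hp : ds z p ≤ s) (h1 : ds z q ≤ ρ q + 4 * s)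
    (h2 : 4000 * s < ds z q) : Cert ρ μ c s p := by
  have a2 := ds_tri p z q
  rw [ds_comm p z] at a2
  exact Or.inr ⟨q, by omega, by omega⟩

/-- points near a slot are active on the lower levels -/
lemma act_near {o x : Vx n} {S r : ℕ} (h1 : S + 50 * s ≤ ds o z) (h2 : ds o z + 50 * s ≤ 4 * S)
    (hx : ds z x ≤ 40 * s) (hr : 10 * r ≤ s) :
    S + 100 * r ≤ ds o x ∧ ds o x + 100 * r ≤ 4 * S := by
  have a1 := ds_tri o z x
  have a2 := ds_tri o x z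
  rw [ds_comm x z] at a2
  omega

/-- the shell of a slot -/
theorem slot_pre (h : Par C g Λ Γ β al) (hC : 10 ^ 4 ≤ C) (h0 : 0 < s') (hs : s = Γ * s')
    (hv : v = Λ * s') (hμ : ∀ x, 0 ≤ μ x) (hM : ∀ p, 40000 * g * (ρ p : ℝ) ≤ μ p)
    (hp0 : ds z p0 ≤ s) (hl : ∑ y with ds z y ≤ 4000 * s, μ y ≤ s)
    (hf : ∀ p, 0 < ρ p → ds z p ≤ ρ p + 4 * s → ds z p ≤ 4000 * s) (hc : Cert ρ μ cI s' p0) :
    ∃ lo, 2 * s ≤ lo ∧ lo + 30 * v ≤ 3 * s ∧
      Shl z ρ μ (40000 * g) (univ.filter fun x => lo < ds z x ∧ ds z x ≤ lo + 30 * v)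
        (lo + 10 * v) v ∧
      ∑ x with lo < ds z x ∧ ds z x ≤ lo + 30 * v, μ x ≤
        200 * g * Λ / Γ * ∑ x with ds z x ≤ lo, μ x ∧
      cI * s' ≤ ∑ x with ds z x ≤ lo, μ x ∧ ∑ x with ds z x ≤ lo, μ x ≤ s := by
  obtain ⟨g1, L1, G1⟩ := h.pre_nat hC
  obtain ⟨n1, n2, -⟩ := pre_N (by omega) (by omega) hs hv
  have gR : (10000 : ℝ) ≤ g := by exact_mod_cast g1
  have v0 : 0 < v := hv ▸ Nat.mul_pos (by omega) h0
  have s1 : 10000 * s' ≤ s := hs ▸ Nat.mul_le_mul_right _ (by omega)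
  have mono : ∀ {a b : ℕ}, a ≤ b →
      ∑ x with ds z x ≤ a, μ x ≤ ∑ x with ds z x ≤ b, μ x := fun hab =>
    sum_le_sum_of_subset_of_nonneg
      (fun x hx => mem_filter.2 ⟨mem_univ _, (mem_filter.1 hx).2.trans hab⟩) fun x _ _ => hμ x
  have m0 : cI * s' ≤ ∑ x with ds z x ≤ 2 * s, μ x := by
    rcases hc with hc | ⟨q, q1, q2⟩
    · refine hc.trans (sum_le_sum_of_subset_of_nonneg (fun y hy => ?_) fun y _ _ => hμ y)
      have a1 := (mem_filter.1 hy).2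
      have a2 := ds_tri z p0 y
      exact mem_filter.2 ⟨mem_univ _, by omega⟩
    · have a1 := ds_tri z p0 q
      have a2 := slot_small hμ hM hl hf (p := q) (by omega) (by omega)
      have a3 : (0 : ℝ) ≤ ρ q := Nat.cast_nonneg _
      have a4 : 2 * ρ q ≤ s := by
        have : (2 * ρ q : ℝ) ≤ s := by nlinarith
        exact_mod_cast this
      have a5 : (s' : ℝ) ≤ ρ q := by exact_mod_cast q1
      calc cI * s' ≤ 40000 * g * (ρ q : ℝ) :=
            mul_le_mul (by linarith [cI_le]) a5 (Nat.cast_nonneg _) (by positivity)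
        _ ≤ μ q := hM q
        _ ≤ _ := single_le_sum (f := μ) (fun y _ => hμ y) (mem_filter.2 ⟨mem_univ _, by omega⟩)
  obtain ⟨a, ha, fr, sg⟩ := shell_choice (ds z) ρ μ hμ
    (univ.filter fun p => 0 < ρ p ∧ ds z p ≤ ρ p + 4 * s) s v (Γ / (30 * Λ)) (H1 := 40000 * g)
    (κ := 200 * g * Λ / Γ) (m0 := cI * s') v0 n1 n2 (by
      rw [mul_sum]
      refine le_trans (sum_le_sum fun p _ => hM p) (le_trans
        (sum_le_sum_of_subset_of_nonneg (fun p hp => ?_) fun y _ _ => hμ y) hl)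
      exact mem_filter.2 ⟨mem_univ _, hf p (mem_filter.1 hp).2.1 (mem_filter.1 hp).2.2⟩)
    (by linarith) (by positivity) m0 (by
      refine ((mono (by omega)).trans hl).trans_lt ?_
      have a1 := (div_lt_iff₀ cI_pos).1 h.grow
      have a2 : (0 : ℝ) < s' := by exact_mod_cast h0
      rw [hs]
      push_cast
      nlinarith [mul_lt_mul_of_pos_right a1 a2])
  have a1 : 30 * v * a + 30 * v ≤ s :=
    le_trans (by rw [← Nat.mul_succ]; exact Nat.mul_le_mul_left _ ha) n1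
  refine ⟨2 * s + 30 * v * a, by omega, by omega, ⟨hμ, hM, fun y y1 y2 =>
    mem_filter.2 ⟨mem_univ _, by omega, by omega⟩, fun p p1 p2 => ?_⟩, sg,
    m0.trans (mono (by omega)), (mono (by omega)).trans hl⟩
  by_cases e : ds z p ≤ ρ p + 4 * s
  · exact fr p (mem_filter.2 ⟨mem_univ _, p1, e⟩) p2
  · exact Or.inr (by omega)

/-- the shell of the final ring -/
theorem fin_pre (h : Par C g Λ Γ β al) (hC : 10 ^ 4 ≤ C) (h0 : 0 < s') (hs : s = Γ * s')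
    (hv : v = Λ * s') (hμ : ∀ x, 0 ≤ μ x) (hM : ∀ p, 40000 * g * (ρ p : ℝ) ≤ μ p)
    (hl : ∑ y, μ y ≤ s) :
    ∃ lo, 2 * s ≤ lo ∧ lo + 30 * v ≤ 3 * s ∧
      Shl z ρ μ (40000 * g) (univ.filter fun x => lo < ds z x ∧ ds z x ≤ lo + 30 * v)
        (lo + 10 * v) v ∧
      ∑ x with lo < ds z x ∧ ds z x ≤ lo + 30 * v, μ x ≤ 200 * g * Λ / Γ * s := by
  obtain ⟨g1, L1, G1⟩ := h.pre_nat hC
  obtain ⟨n1, n2, n3⟩ := pre_N (by omega) (by omega) hs hv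
  have gR : (10000 : ℝ) ≤ g := by exact_mod_cast g1
  have v0 : 0 < v := hv ▸ Nat.mul_pos (by omega) h0
  obtain ⟨a, ha, fr, sg⟩ := shell_final (ds z) ρ μ hμ univ s v (Γ / (30 * Λ)) (H1 := 40000 * g)
    (κ := 200 * g * Λ / Γ) (M := s) v0 n2 (by
      rw [mul_sum]
      exact (sum_le_sum fun p _ => hM p).trans hl) (by linarith) (by
      have a1 : (Γ : ℝ) ≤ 60 * Λ * ((Γ / (30 * Λ) : ℕ) : ℝ) := by exact_mod_cast n3
      have a2 : (0 : ℝ) < Γ := by exact_mod_cast (by omega : 0 < Γ)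
      have a3 : (0 : ℝ) ≤ Λ * ((Γ / (30 * Λ) : ℕ) : ℝ) := by positivity
      rw [div_mul_eq_mul_div, le_div_iff₀ a2]
      nlinarith) hl
  have a1 : 30 * v * a + 30 * v ≤ s :=
    le_trans (by rw [← Nat.mul_succ]; exact Nat.mul_le_mul_left _ ha) n1
  exact ⟨2 * s + 30 * v * a, by omega, by omega, ⟨hμ, hM, fun y y1 y2 =>
    mem_filter.2 ⟨mem_univ _, by omega, by omega⟩, fun p _ p2 => fr p (mem_univ _) p2⟩, sg⟩

end Pool.Agent.Lib.MP_9cc147_pr.AllU.E
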