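import Pool.Agent.Lib.MP_9cc147_pr.U.EDefs
import Pool.Agent.Lib.MP_9cc147_pr.U.EPre

/-! Exceptional phase: one colour. -/

open Finset

namespace Pool.Agent.Lib.MP_9cc147_pr.AllU.E

variable {n : ℕ}

namespace Cl

/-- slots of the colour `k` -/
def Sl (P : Pm) (J j k : ℕ) (z : Vx n) : Prop :=
  gz (P.G ^ j) z = z ∧ col (P.G ^ j) z = k ∧ P.G ^ J + 50 * P.G ^ j ≤ ds (vz n) z ∧
    ds (vz n) z + 50 * P.G ^ j ≤ 4 * P.G ^ J

/-- invariants inside a colour: `T` still to do, `Pr` done, `ν` a mass that never decreases -/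
structure CI (P : Pm) (J j k : ℕ) (T Pr : Finset (Vx n)) (ν : Vx n → ℝ) (σ : St n) : Prop where
  core : Core P J j σ
  hT : ∀ z ∈ T, Sl P J j k z
  hP : ∀ z ∈ Pr, Sl P J j k z ∧ z ∉ T
  lo : ∀ x, ν x ≤ σ.μ x
  hi : ∀ x, σ.μ x ≤ 2 * ν x
  fresh : ∀ z ∈ T, ∀ x, ds z x ≤ 3 * P.G ^ j → 2 * ν x ≤ σ.μ x
  run : ∀ O O2 : Finset (Vx n), (∀ x ∈ O, ∀ y, ds x y ≤ 12 * k * P.G ^ j → y ∈ O2) →
    ∑ x ∈ O, σ.aa P j x ≤ kap P.g ^ k * P.al * (∑ y ∈ O2, 2 * ν y) / (P.G ^ j : ℕ) +
      ∑ c ∈ Pr with ∃ x ∈ O, ds c x ≤ 6 * P.G ^ j, (1000 * P.g * (kap P.g ^ k * P.al) + P.al) *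
        (∑ y with ds c y ≤ (12 * k + 6) * P.G ^ j, 2 * ν y) / (P.G ^ j : ℕ)
  cert : ∀ p, 0 < σ.ρ p → Act (P.G ^ J) (P.G ^ j) p → col (P.G ^ j) (gz (P.G ^ j) p) ≤ k →
    gz (P.G ^ j) p ∉ T → Cert σ.ρ ν ((1 / 2) ^ (k + 1)) (P.G ^ j) p

variable {P : Pm} {J j k : ℕ} {T Pr : Finset (Vx n)} {ν : Vx n → ℝ} {σ σ' : St n} {z : Vx n}

lemma cmono {ρ ρ' : Vx n → ℕ} {μ μ' : Vx n → ℝ} {c : ℝ} {s : ℕ} {p : Vx n} (h : Cert ρ μ c s p)
    (hρ : ∀ q, s ≤ ρ q → ρ q ≤ ρ' q) (hm : ∀ x, μ x ≤ μ' x) : Cert ρ' μ' c s p := by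
  rcases h with h | ⟨q, h1, h2⟩
  · exact Or.inl (h.trans (sum_le_sum fun x _ => hm x))
  · have := hρ q h1
    exact Or.inr ⟨q, by omega, by omega⟩

lemma s_pos (hP : P.Ok) (j : ℕ) : 0 < P.G ^ j := by
  have h1 := hP.LG
  have h2 := hP.gL
  have h3 : (1 : ℝ) ≤ P.g := by exact_mod_cast hP.g1
  have h4 : (0 : ℝ) < P.L := lt_of_lt_of_le (by positivity) h2
  have h5 : (0 : ℝ) < P.G := lt_of_lt_of_le (by positivity) h1
  have h6 : 0 < P.G := by exact_mod_cast h5
  positivity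

lemma A_pos (hP : P.Ok) (k : ℕ) : 0 < kap P.g ^ k * P.al :=
  mul_pos (pow_pos (zero_lt_one.trans_le (one_le_kap _)) _) hP.al0

lemma al_le (hP : P.Ok) (k : ℕ) : P.al ≤ kap P.g ^ k * P.al :=
  le_mul_of_one_le_left hP.al0.le (one_le_pow₀ (one_le_kap _))

lemma CI.nu0 (h : CI P J j k T Pr ν σ) (x : Vx n) : 0 ≤ 2 * ν x := (h.core.m0 x).trans (h.hi x)

lemma start (hP : P.Ok) (h : InvC P J j k σ) (U : Finset (Vx n))
    (hU : ∀ z, z ∈ U ↔ Sl P J j k z) : CI P J j k U ∅ (fun x => σ.μ x / 2) σ where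
  core := h.core
  hT := fun z hz => (hU z).1 hz
  hP := fun z hz => absurd hz (notMem_empty z)
  lo := fun x => by linarith [h.core.m0 x]
  hi := fun x => by linarith
  fresh := fun _ _ x _ => by linarith
  run := fun O O2 e => by
    have h1 := h.rel O O2 e
    have h2 : ∑ y ∈ O2, 2 * (σ.μ y / 2) = ∑ y ∈ O2, σ.μ y := sum_congr rfl fun y _ => by ring
    rw [filter_empty, sum_empty, add_zero, h2]
    push_cast
    exact h1
  cert := fun p hp ha hc hn => by
    have hs := s_pos hP j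
    rcases hc.lt_or_eq with hc | hc
    · refine (h.cert p hp ha hc).imp_left fun h1 => ?_
      rw [← sum_div, pow_succ]
      linarith
    · refine absurd ((hU _).2 ⟨gz_gz hs p, hc, ?_, ?_⟩) hn
      · have a1 := gz_ds hs p
        have a2 := ds_tri (vz n) (gz (P.G ^ j) p) p
        have a3 := ha.1
        omega
      · have a1 := gz_ds hs p
        have a2 := ds_tri (vz n) p (gz (P.G ^ j) p)
        rw [ds_comm p] at a2
        have a3 := ha.2
        omega

lemma finish (hP : P.Ok) (hk : k < 256) (h : CI P J j k ∅ Pr ν σ) : InvC P J j (k + 1) σ where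
  core := h.core
  rel := fun O O2 e => by
    have hA := A_pos hP k
    have hal := al_le hP k
    have hg : (1 : ℝ) ≤ P.g := by exact_mod_cast hP.g1
    have hb : 0 ≤ 1000 * P.g * (kap P.g ^ k * P.al) + P.al := by
      have := hP.al0
      positivity
    have h1 := colour_end Pr (σ.aa P j) (μs := fun y => 2 * ν y) (μ := σ.μ) h.nu0
      (fun x => by linarith [h.lo x]) (D := 12 * k) hA.le hb (s_pos hP j)
      (fun c hc c' hc' e => grid_sep (h.hP c hc).1.1 (h.hP c' hc').1.1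
        ((h.hP c hc).1.2.1.trans (h.hP c' hc').1.2.1.symm) e) (by omega)
      (fun O O2 e => by convert h.run O O2 e) O O2 (fun x hx y hy => e x hx y hy)
    push_cast at h1
    refine h1.trans (div_le_div_of_nonneg_right (mul_le_mul_of_nonneg_right ?_
      (sum_nonneg fun y _ => h.core.m0 y)) (by positivity))
    have e1 : kap P.g ^ (k + 1) * P.al =
        4 * (1 + 160000 * (1000 * P.g)) * (kap P.g ^ k * P.al) := by
      rw [pow_succ]
      change _ = kap P.g * _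
      ring
    rw [e1]
    nlinarith [mul_le_mul_of_nonneg_right hg hA.le]
  cert := fun p hp ha hc =>
    cmono (h.cert p hp ha (by omega) (notMem_empty _)) (fun _ _ => le_rfl) h.lo

lemma sep {a b : Vx n} (ha : Sl P J j k a) (hb : Sl P J j k b) (e : a ≠ b) :
    16 * P.G ^ j ≤ ds a b := grid_sep ha.1 hb.1 (ha.2.1.trans hb.2.1.symm) e

/-- a skipped slot -/
lemma CI.skip (h : CI P J j k (insert z T) Pr ν σ)
    (hc : ∀ p, 0 < σ.ρ p → gz (P.G ^ j) p = z → Cert σ.ρ ν ((1 / 2) ^ (k + 1)) (P.G ^ j) p) :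
    CI P J j k T Pr ν σ where
  core := h.core
  hT := fun c hc => h.hT c (mem_insert_of_mem hc)
  hP := fun c hc => ⟨(h.hP c hc).1, fun e => (h.hP c hc).2 (mem_insert_of_mem e)⟩
  lo := h.lo
  hi := h.hi
  fresh := fun c hc => h.fresh c (mem_insert_of_mem hc)
  run := h.run
  cert := fun p hp ha h1 h2 => by
    by_cases e : gz (P.G ^ j) p = z
    · exact hc p hp e
    · exact h.cert p hp ha h1 fun h3 => (mem_insert.1 h3).elim e h2

/-- the weights near a fresh slot -/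
lemma CI.ball (h : CI P J j k (insert z T) Pr ν σ) :
    ∑ x with ds z x ≤ 6 * P.G ^ j, σ.aa P j x ≤ kap P.g ^ k * P.al *
      (∑ y with ds z y ≤ (12 * k + 6) * P.G ^ j, 2 * ν y) / (P.G ^ j : ℕ) := by
  have e2 : (12 * k + 6) * P.G ^ j = 12 * k * P.G ^ j + 6 * P.G ^ j := by ring
  have h1 := h.run (univ.filter fun x => ds z x ≤ 6 * P.G ^ j)
    (univ.filter fun y => ds z y ≤ (12 * k + 6) * P.G ^ j) (by
      intro x hx y hy
      have := (mem_filter.1 hx).2
      have := ds_tri z x y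
      exact mem_filter.2 ⟨mem_univ _, by omega⟩)
  rwa [filter_false_of_mem (s := Pr), sum_empty, add_zero] at h1
  rintro c hc ⟨x, hx, h3⟩
  have a0 := (mem_filter.1 hx).2
  have hne : z ≠ c := fun e => (h.hP c hc).2 (e ▸ mem_insert_self z T)
  have a1 := sep (h.hT z (mem_insert_self z T)) (h.hP c hc).1 hne
  have a2 := ds_pos hne
  have a3 := ds_tri z x c
  rw [ds_comm x c] at a3
  omega

/-- a ring, whatever its outcome -/
lemma CI.step (hP : P.Ok) (h : CI P J j k (insert z T) Pr ν σ) (hz : z ∉ T)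
    (st : Step P J j σ σ' z) : CI P J j k T (insert z Pr)
      (fun x => if ds z x ≤ 3 * P.G ^ j then σ'.μ x else ν x) σ' := by
  have hzT := mem_insert_self z T
  have hs := s_pos hP j
  have mono : ∀ x, ν x ≤ if ds z x ≤ 3 * P.G ^ j then σ'.μ x else ν x := by
    intro x
    split_ifs with e
    · linarith [h.fresh z hzT x e, st.half x]
    · exact le_rfl
  have mono2 : ∀ O : Finset (Vx n), ∑ y ∈ O, 2 * ν y ≤
      ∑ y ∈ O, 2 * if ds z y ≤ 3 * P.G ^ j then σ'.μ y else ν y :=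
    fun O => sum_le_sum fun y _ => by linarith [mono y]
  refine ⟨st.core, fun c hc => h.hT c (mem_insert_of_mem hc), fun c hc => ?_, fun x => ?_,
    fun x => ?_, fun c hc x hx => ?_, fun O O2 e => ?_, fun p hp ha h1 h2 => ?_⟩
  · rcases mem_insert.1 hc with rfl | hc
    · exact ⟨h.hT c hzT, hz⟩
    · exact ⟨(h.hP c hc).1, fun e => (h.hP c hc).2 (mem_insert_of_mem e)⟩
  · split_ifs with e
    · exact le_rfl
    · rw [st.off x (not_le.1 e)]; exact h.lo x
  · split_ifs with e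
    · linarith [st.core.m0 x]
    · rw [st.off x (not_le.1 e)]; exact h.hi x
  · have a1 := sep (h.hT z hzT) (h.hT c (mem_insert_of_mem hc)) fun e => hz (e ▸ hc)
    have a2 := ds_tri z x c
    rw [ds_comm x c] at a2
    have a3 : 3 * P.G ^ j < ds z x := by omega
    rw [if_neg (not_le.2 a3), st.off x a3]
    exact h.fresh c (mem_insert_of_mem hc) x hx
  · have hA := A_pos hP k
    have hal := hP.al0
    have hg : (0 : ℝ) ≤ P.g := Nat.cast_nonneg _
    have hs' : (0 : ℝ) ≤ (P.G ^ j : ℕ) := Nat.cast_nonneg _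
    have hb : 0 ≤ 1000 * P.g * (kap P.g ^ k * P.al) + P.al := by positivity
    have h1 := h.run O O2 e
    have h2 := div_le_div_of_nonneg_right (mul_le_mul_of_nonneg_left (mono2 O2) hA.le) hs'
    have h3 : ∀ c : Vx n, _ := fun c => div_le_div_of_nonneg_right (mul_le_mul_of_nonneg_left
      (mono2 (univ.filter fun y => ds c y ≤ (12 * k + 6) * P.G ^ j)) hb) hs'
    have h4 := sum_le_sum fun c (_ : c ∈ Pr.filter fun c => ∃ x ∈ O, ds c x ≤ 6 * P.G ^ j) => h3 c
    have hzP : z ∉ Pr := fun e => (h.hP z e).2 hzT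
    rw [filter_insert]
    split_ifs with h5
    · rw [sum_insert fun h6 => hzP (mem_filter.1 h6).1]
      have h6 := st.inc O
      have h7 := mul_le_mul_of_nonneg_left h.ball (show 0 ≤ 1000 * (P.g : ℝ) by positivity)
      have h8 : ∑ y with ds z y ≤ 3 * P.G ^ j, σ.μ y ≤
          ∑ y with ds z y ≤ (12 * k + 6) * P.G ^ j, 2 * ν y := by
        refine (sum_le_sum fun y _ => h.hi y).trans
          (sum_le_sum_of_subset_of_nonneg (fun y hy => ?_) fun y _ _ => h.nu0 y)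
        have a0 := (mem_filter.1 hy).2
        have e2 : (12 * k + 6) * P.G ^ j = 12 * k * P.G ^ j + 6 * P.G ^ j := by ring
        exact mem_filter.2 ⟨mem_univ _, by omega⟩
      have h9 := div_le_div_of_nonneg_right (mul_le_mul_of_nonneg_left h8 hal.le) hs'
      have h10 := h3 z
      have e3 : (1000 * P.g * (kap P.g ^ k * P.al) + P.al) *
          (∑ y with ds z y ≤ (12 * k + 6) * P.G ^ j, 2 * ν y) / (P.G ^ j : ℕ) =
          1000 * P.g * (kap P.g ^ k * P.al *
            (∑ y with ds z y ≤ (12 * k + 6) * P.G ^ j, 2 * ν y) / (P.G ^ j : ℕ)) +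
          P.al * (∑ y with ds z y ≤ (12 * k + 6) * P.G ^ j, 2 * ν y) / (P.G ^ j : ℕ) := by ring
      rw [← Nat.cast_pow] at h6
      linarith
    · have h6 : ∑ x ∈ O, σ'.aa P j x ≤ ∑ x ∈ O, σ.aa P j x :=
        sum_le_sum fun x hx => st.far x (not_le.1 fun e => h5 ⟨x, hx, e⟩)
      linarith
  · by_cases e : gz (P.G ^ j) p = z
    · exact Or.inr (st.cell p hp (e ▸ (gz_ds hs p).le))
    · exact cmono (h.cert p (st.pin p hp) ha h1 fun h3 => (mem_insert.1 h3).elim e h2) st.big mono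

lemma half_le (k : ℕ) : ((1 : ℝ) / 2) ^ (k + 1) ≤ 1 / 2 := by
  rw [pow_succ]
  exact mul_le_of_le_one_left (by norm_num) (pow_le_one₀ (by norm_num) (by norm_num))

end Cl

open Cl in
theorem colSt : ColSt := by
  intro P n J j k V hP hj hn hk hS hE σ0 h0
  have hs := s_pos hP j
  have key : ∀ T : Finset (Vx n), ∀ Pr ν σ, CI P J j k T Pr ν σ → V σ := by
    intro T
    induction T using Finset.induction_on with
    | empty => exact fun Pr ν σ h => hE σ (finish hP hk h)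
    | insert z T hz ih =>
      intro Pr ν σ h
      have hzT := h.hT z (mem_insert_self z T)
      by_cases h1 : ∃ p0, 0 < σ.ρ p0 ∧ gz (P.G ^ j) p0 = z
      swap
      · exact ih Pr ν σ (h.skip fun p hp e => absurd ⟨p, hp, e⟩ h1)
      obtain ⟨p0, hp0, e0⟩ := h1
      have hm : ∑ y with ds z y ≤ 4000 * P.G ^ j, σ.μ y ≤
          2 * ∑ y with ds z y ≤ 4000 * P.G ^ j, ν y := by
        rw [mul_sum]; exact sum_le_sum fun y _ => h.hi y
      by_cases h2 : ∑ y with ds z y ≤ 4000 * P.G ^ j, σ.μ y ≤ (P.G : ℝ) ^ j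
      swap
      · refine ih Pr ν σ (h.skip fun p _ e => skip_heavy (z := z)
          (fun x => by linarith [h.nu0 x]) (e ▸ (gz_ds hs p).le) ?_)
        have a1 := mul_le_mul_of_nonneg_right (half_le k) (Nat.cast_nonneg (P.G ^ j))
        have a2 := not_le.1 h2
        rw [← Nat.cast_pow] at a2
        linarith
      by_cases h3 : ∀ p, 0 < σ.ρ p → ds z p ≤ σ.ρ p + 4 * P.G ^ j → ds z p ≤ 4000 * P.G ^ j
      swap
      · push Not at h3
        obtain ⟨q, -, q1, q2⟩ := h3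
        exact ih Pr ν σ (h.skip fun p _ e => skip_far (z := z) (e ▸ (gz_ds hs p).le) q1 q2)
      refine hS σ z p0 ⟨h.core, hj, hn, hzT.2.2.1, hzT.2.2.2, hp0, e0 ▸ (gz_ds hs p0).le, h2, h3,
        h.ball.trans ?_⟩ fun σ' st => ih _ _ σ' (h.step hP hz st)
      have a1 : ∑ y with ds z y ≤ (12 * k + 6) * P.G ^ j, 2 * ν y ≤
          ∑ y with ds z y ≤ 4000 * P.G ^ j, 2 * σ.μ y := by
        refine le_trans (sum_le_sum_of_subset_of_nonneg (fun y hy => ?_) fun y _ _ => h.nu0 y)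
          (sum_le_sum fun y _ => by linarith [h.lo y])
        exact mem_filter.2 ⟨mem_univ _, (mem_filter.1 hy).2.trans
          (Nat.mul_le_mul_right _ (by omega))⟩
      rw [← mul_sum (f := σ.μ)] at a1
      have a2 : kap P.g ^ k * P.al ≤ kap P.g ^ 256 * P.al :=
        mul_le_mul_of_nonneg_right (pow_le_pow_right₀ (one_le_kap _) hk.le) hP.al0.le
      have a3 : (0 : ℝ) < (P.G ^ j : ℕ) := by exact_mod_cast hs
      rw [← Nat.cast_pow] at h2
      rw [div_le_iff₀ a3]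
      have a4 := mul_le_mul_of_nonneg_left (a1.trans (mul_le_mul_of_nonneg_left h2 zero_le_two))
        (A_pos hP k).le
      have a5 := mul_le_mul_of_nonneg_right a2 a3.le
      linarith
  classical
  exact key _ _ _ σ0 (start hP h0 (univ.filter (Sl P J j k)) fun z => by simp)

end Pool.Agent.Lib.MP_9cc147_pr.AllU.E
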