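import Mathlib

/-! Exceptional phase: good kink positions and the choice of the shell. -/

open Finset

namespace Pool.Agent.Lib.MP_9cc147_pr.AllU.E

variable {α : Type*}

/-- the mass near the radius `t` grows at most linearly -/
def Good (Sh : Finset α) (rr : α → ℕ) (μ : α → ℝ) (H : ℝ) (t : ℕ) : Prop :=
  ∀ u : ℝ, 1 ≤ u → ∑ x ∈ Sh with |(rr x : ℝ) - t| ≤ u, μ x ≤ H * u

lemma vit (rr : α → ℕ) (μ : α → ℝ) (hμ : ∀ x, 0 ≤ μ x) {H : ℝ} (hH : 0 ≤ H) (u : ℕ → ℕ)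
    (T : Finset ℕ) : ∀ Sh : Finset α, (∀ t ∈ T, 1 ≤ u t ∧
      H * u t ≤ ∑ x ∈ Sh with rr x ≤ t + u t ∧ t ≤ rr x + u t, μ x) →
      H * T.card ≤ 5 * ∑ x ∈ Sh, μ x := by
  induction T using Finset.strongInduction with
  | H T ih =>
    intro Sh h
    rcases T.eq_empty_or_nonempty with rfl | hne
    · simp only [card_empty, Nat.cast_zero, mul_zero]
      exact mul_nonneg (by norm_num) (sum_nonneg fun x _ => hμ x)
    obtain ⟨t0, ht0, hmax⟩ := exists_max_image T u hne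
    have hu1 := (h t0 ht0).1
    have hss : T.filter (fun t => ¬ (t ≤ t0 + 2 * u t0 ∧ t0 ≤ t + 2 * u t0)) ⊂ T := by
      refine filter_ssubset.2 ⟨t0, ht0, ?_⟩
      omega
    have h1 := ih _ hss (Sh.filter fun x => ¬ (rr x ≤ t0 + u t0 ∧ t0 ≤ rr x + u t0)) (by
      intro t ht
      rw [mem_filter] at ht
      refine ⟨(h t ht.1).1, (h t ht.1).2.trans (le_of_eq ?_)⟩
      rw [filter_filter]
      refine sum_congr (filter_congr fun x _ => ?_) fun _ _ => rfl
      have := hmax t ht.1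
      have := ht.2
      omega)
    have h2 : (T.filter fun t => t ≤ t0 + 2 * u t0 ∧ t0 ≤ t + 2 * u t0).card ≤ 5 * u t0 := by
      have : (T.filter fun t => t ≤ t0 + 2 * u t0 ∧ t0 ≤ t + 2 * u t0) ⊆
          Icc (t0 - 2 * u t0) (t0 + 2 * u t0) := by
        intro t ht
        rw [mem_filter] at ht
        rw [mem_Icc]
        omega
      have := card_le_card this
      rw [Nat.card_Icc] at this
      omega
    have h3 := card_filter_add_card_filter_not (s := T)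
      (fun t => t ≤ t0 + 2 * u t0 ∧ t0 ≤ t + 2 * u t0)
    have h4 := sum_filter_add_sum_filter_not Sh
      (fun x => rr x ≤ t0 + u t0 ∧ t0 ≤ rr x + u t0) μ
    have h5 := (h t0 ht0).2
    have h6 : ((T.filter fun t => t ≤ t0 + 2 * u t0 ∧ t0 ≤ t + 2 * u t0).card : ℝ) ≤ 5 * u t0 := by
      exact_mod_cast h2
    have h7 := mul_le_mul_of_nonneg_left h6 hH
    rw [← h3, ← h4]
    push_cast
    nlinarith

lemma bad_card (Sh : Finset α) (rr : α → ℕ) (μ : α → ℝ) (hμ : ∀ x, 0 ≤ μ x) {H : ℝ} (hH : 0 ≤ H)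
    (T : Finset ℕ) (hT : ∀ t ∈ T, ¬ Good Sh rr μ H t) : H * T.card ≤ 5 * ∑ x ∈ Sh, μ x := by
  have : ∀ t : ℕ, ∃ u : ℕ, t ∈ T → 1 ≤ u ∧
      H * u ≤ ∑ x ∈ Sh with rr x ≤ t + u ∧ t ≤ rr x + u, μ x := by
    intro t
    by_cases ht : t ∈ T
    · have := hT t ht
      unfold Good at this
      push Not at this
      obtain ⟨u, hu, hlt⟩ := this
      refine ⟨⌊u⌋₊, fun _ => ⟨Nat.le_floor (by simpa using hu), ?_⟩⟩
      have h1 : (⌊u⌋₊ : ℝ) ≤ u := Nat.floor_le (by linarith)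
      have h2 : u < ⌊u⌋₊ + 1 := Nat.lt_floor_add_one u
      refine (mul_le_mul_of_nonneg_left h1 hH).trans (hlt.le.trans ?_)
      refine sum_le_sum_of_subset_of_nonneg (fun x hx => ?_) fun x _ _ => hμ x
      rw [mem_filter] at hx ⊢
      refine ⟨hx.1, ?_⟩
      have h3 := abs_le.1 hx.2
      have h4 : (rr x : ℝ) < t + ⌊u⌋₊ + 1 := by linarith [h3.2]
      have h5 : (t : ℝ) < rr x + ⌊u⌋₊ + 1 := by linarith [h3.1]
      have h6 : rr x < t + ⌊u⌋₊ + 1 := by exact_mod_cast h4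
      have h7 : t < rr x + ⌊u⌋₊ + 1 := by exact_mod_cast h5
      omega
    · exact ⟨0, fun h => absurd h ht⟩
  choose u hu using this
  exact vit rr μ hμ hH u T Sh fun t ht => hu t ht

open Classical in
/-- good kink positions in the middle third of the ring -/
noncomputable def GI (Sh : Finset α) (rr : α → ℕ) (μ : α → ℝ) (H : ℝ) (R v : ℕ) : Finset ℕ :=
  (range (R + v + 1)).filter fun t => 3 * R + v ≤ 3 * t ∧ 3 * t ≤ 3 * R + 2 * v ∧ Good Sh rr μ H t

lemma mem_GI {Sh : Finset α} {rr : α → ℕ} {μ : α → ℝ} {H : ℝ} {R v t : ℕ} :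
    t ∈ GI Sh rr μ H R v ↔ 3 * R + v ≤ 3 * t ∧ 3 * t ≤ 3 * R + 2 * v ∧ Good Sh rr μ H t := by
  simp only [GI, mem_filter, mem_range]
  exact ⟨fun h => h.2, fun h => ⟨by omega, h⟩⟩

lemma good_card (Sh : Finset α) (rr : α → ℕ) (μ : α → ℝ) (hμ : ∀ x, 0 ≤ μ x) {H : ℝ} (hH : 0 < H)
    (R v : ℕ) (hv : 12 ≤ v) (hσ : 40 * ∑ x ∈ Sh, μ x ≤ H * v) :
    v ≤ 8 * (GI Sh rr μ H R v).card := by
  classical
  have h1 := bad_card Sh rr μ hμ hH.le
    ((Icc (R + (v + 2) / 3) (R + 2 * v / 3)).filter fun t => ¬ Good Sh rr μ H t)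
    fun t ht => (mem_filter.1 ht).2
  have h2 : (8 * ((Icc (R + (v + 2) / 3) (R + 2 * v / 3)).filter
      fun t => ¬ Good Sh rr μ H t).card : ℝ) ≤ v := by
    refine le_of_mul_le_mul_left ?_ hH
    linarith
  have h3 : 8 * ((Icc (R + (v + 2) / 3) (R + 2 * v / 3)).filter
      fun t => ¬ Good Sh rr μ H t).card ≤ v := by exact_mod_cast h2
  have h4 := card_filter_add_card_filter_not (s := Icc (R + (v + 2) / 3) (R + 2 * v / 3))
    (fun t => Good Sh rr μ H t)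
  have h5 : ((Icc (R + (v + 2) / 3) (R + 2 * v / 3)).filter
      fun t => Good Sh rr μ H t).card ≤ (GI Sh rr μ H R v).card := by
    refine card_le_card fun t ht => ?_
    rw [mem_filter, mem_Icc] at ht
    rw [mem_GI]
    exact ⟨by omega, by omega, ht.2⟩
  rw [Nat.card_Icc] at h4
  omega

/-- a good radius stays away from every heavy pin -/
lemma good_far {Sh : Finset α} {rr : α → ℕ} {μ : α → ℝ} (hμ : ∀ x, 0 ≤ μ x) {H H1 : ℝ} {t : ℕ}
    (hg : Good Sh rr μ H t) {p : α} (hp : p ∈ Sh) {r : ℕ} (hr : 0 < r) (hm : H1 * r ≤ μ p)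
    (hH : 3 * H < H1) : 3 * (r : ℝ) < |(rr p : ℝ) - t| := by
  by_contra hc
  push Not at hc
  have hr' : (1 : ℝ) ≤ r := by exact_mod_cast hr
  have h1 := hg (3 * r) (by linarith)
  have h2 : μ p ≤ ∑ x ∈ Sh with |(rr x : ℝ) - t| ≤ 3 * r, μ x :=
    single_le_sum (f := μ) (fun x _ => hμ x) (mem_filter.2 ⟨hp, hc⟩)
  nlinarith

/-- no large pin meets the enlarged ring -/
def Free (Pn : Finset α) (rr ρ : α → ℕ) (v R : ℕ) : Prop :=
  ∀ p ∈ Pn, v ≤ 100 * ρ p → rr p + ρ p + 2 * v < R ∨ R + 3 * v + ρ p < rr p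

lemma excl_one (b v r ρ N : ℕ) (hρ : v ≤ 100 * ρ) :
    v * ((range N).filter fun a => ¬ (r + ρ + 2 * v < b + 30 * v * a ∨
      b + 30 * v * a + 3 * v + ρ < r)).card ≤ 117 * ρ := by
  set A := (range N).filter fun a => ¬ (r + ρ + 2 * v < b + 30 * v * a ∨
      b + 30 * v * a + 3 * v + ρ < r) with hA
  rcases A.eq_empty_or_nonempty with h | h
  · simp [h]
  have h1 := (mem_filter.1 (A.min'_mem h)).2
  have h2 := (mem_filter.1 (A.max'_mem h)).2
  have h3 : A ⊆ Icc (A.min' h) (A.max' h) := fun a ha =>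
    mem_Icc.2 ⟨A.min'_le a ha, A.le_max' a ha⟩
  have h4 := card_le_card h3
  rw [Nat.card_Icc] at h4
  have h5 : A.min' h ≤ A.max' h := A.min'_le _ (A.max'_mem h)
  obtain ⟨d, hd⟩ := Nat.exists_eq_add_of_le h5
  rw [hd] at h2 h4
  have h6 : A.card ≤ d + 1 := by omega
  have h7 : v * A.card ≤ v * (d + 1) := Nat.mul_le_mul_left _ h6
  have h8 : 30 * v * (A.min' h + d) = 30 * v * A.min' h + 30 * (v * d) := by ring
  have h9 : v * (d + 1) = v * d + v := by ring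
  rw [h8] at h2
  omega

open Classical in
lemma excl_card (Pn : Finset α) (rr ρ : α → ℕ) (b s v N : ℕ) {H1 : ℝ} (hv : 0 < v)
    (hN : s ≤ 60 * v * N) (hP : H1 * ∑ p ∈ Pn, (ρ p : ℝ) ≤ s) (hH : 14040 ≤ H1) :
    N ≤ 2 * ((range N).filter fun a => Free Pn rr ρ v (b + 30 * v * a)).card := by
  have h1 : ((range N).filter fun a => ¬ Free Pn rr ρ v (b + 30 * v * a)) ⊆
      (Pn.filter fun p => v ≤ 100 * ρ p).biUnion fun p => (range N).filter fun a =>
        ¬ (rr p + ρ p + 2 * v < b + 30 * v * a ∨ b + 30 * v * a + 3 * v + ρ p < rr p) := by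
    intro a ha
    rw [mem_filter] at ha
    have h := ha.2
    unfold Free at h
    push Not at h
    obtain ⟨p, hp, h2, h3⟩ := h
    rw [mem_biUnion]
    refine ⟨p, mem_filter.2 ⟨hp, h2⟩, mem_filter.2 ⟨ha.1, by omega⟩⟩
  have h2 := (card_le_card h1).trans card_biUnion_le
  have h3 : v * ((range N).filter fun a => ¬ Free Pn rr ρ v (b + 30 * v * a)).card ≤
      117 * ∑ p ∈ Pn, ρ p := by
    refine (Nat.mul_le_mul_left v h2).trans ?_
    rw [mul_sum]
    refine (sum_le_sum fun p hp => excl_one b v (rr p) (ρ p) N (mem_filter.1 hp).2).trans ?_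
    rw [← mul_sum]
    exact Nat.mul_le_mul_left _ (sum_le_sum_of_subset (filter_subset _ _))
  have h4 : 14040 * ∑ p ∈ Pn, ρ p ≤ s := by
    have h0 : (0 : ℝ) ≤ ∑ p ∈ Pn, (ρ p : ℝ) := sum_nonneg fun _ _ => Nat.cast_nonneg _
    have : (14040 : ℝ) * ∑ p ∈ Pn, (ρ p : ℝ) ≤ s := (mul_le_mul_of_nonneg_right hH h0).trans hP
    exact_mod_cast this
  have h5 : v * (2 * ((range N).filter fun a => ¬ Free Pn rr ρ v (b + 30 * v * a)).card) ≤
      v * N := by
    have : 60 * v * N = 60 * (v * N) := by ring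
    have : v * (2 * ((range N).filter fun a => ¬ Free Pn rr ρ v (b + 30 * v * a)).card) =
      2 * (v * ((range N).filter fun a => ¬ Free Pn rr ρ v (b + 30 * v * a)).card) := by ring
    omega
  have h6 := Nat.le_of_mul_le_mul_left h5 hv
  have h7 := card_filter_add_card_filter_not (s := range N)
    (fun a => Free Pn rr ρ v (b + 30 * v * a))
  rw [card_range] at h7
  omega

lemma ball_succ [Fintype α] (rr : α → ℕ) (μ : α → ℝ) (l d : ℕ) :
    ∑ x with rr x ≤ l + d, μ x =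
      ∑ x with rr x ≤ l, μ x + ∑ x with l < rr x ∧ rr x ≤ l + d, μ x := by
  rw [← sum_filter_add_sum_filter_not (univ.filter fun x => rr x ≤ l + d) (fun x => rr x ≤ l),
    filter_filter, filter_filter]
  congr 1
  · exact sum_congr (filter_congr fun x _ => by omega) fun _ _ => rfl
  · exact sum_congr (filter_congr fun x _ => by omega) fun _ _ => rfl

lemma grow (M σ : ℕ → ℝ) (κ : ℝ) (hκ : 0 ≤ κ) (hM : 0 ≤ M 0) (hσ : ∀ a, 0 ≤ σ a)
    (hs : ∀ a, M (a + 1) = M a + σ a) (P : ℕ → Prop) [DecidablePred P] (N : ℕ)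
    (h : ∀ a < N, P a → κ * M a ≤ σ a) :
    M 0 * (1 + κ) ^ ((range N).filter P).card ≤ M N := by
  induction N with
  | zero => simp
  | succ N ih =>
    have ih' := ih fun a ha => h a (by omega)
    have h0 : 0 ≤ M 0 * (1 + κ) ^ ((range N).filter P).card := by positivity
    rw [range_add_one, filter_insert, hs]
    split_ifs with hP
    · rw [card_insert_of_notMem (by simp), pow_succ, ← mul_assoc]
      have := h N (by omega) hP
      nlinarith
    · linarith [hσ N]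

/-- the shell of an ordinary slot -/
theorem shell_choice [Fintype α] (rr ρ : α → ℕ) (μ : α → ℝ) (hμ : ∀ x, 0 ≤ μ x) (Pn : Finset α)
    (s v N : ℕ) {H1 κ m0 : ℝ} (hv : 0 < v) (hN : 30 * v * N ≤ s) (hN' : s ≤ 60 * v * N)
    (hP : H1 * ∑ p ∈ Pn, (ρ p : ℝ) ≤ s) (hH : 14040 ≤ H1) (hκ : 0 ≤ κ)
    (h0 : m0 ≤ ∑ x with rr x ≤ 2 * s, μ x)
    (h1 : ∑ x with rr x ≤ 3 * s, μ x < m0 * (1 + κ) ^ (N / 2)) :
    ∃ a < N, Free Pn rr ρ v (2 * s + 30 * v * a + 10 * v) ∧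
      ∑ x with 2 * s + 30 * v * a < rr x ∧ rr x ≤ 2 * s + 30 * v * a + 30 * v, μ x ≤
        κ * ∑ x with rr x ≤ 2 * s + 30 * v * a, μ x := by
  classical
  by_contra hc
  push Not at hc
  have h2 := excl_card Pn rr ρ (2 * s + 10 * v) s v N hv hN' hP hH
  have h3 := grow (fun a => ∑ x with rr x ≤ 2 * s + 30 * v * a, μ x)
    (fun a => ∑ x with 2 * s + 30 * v * a < rr x ∧ rr x ≤ 2 * s + 30 * v * a + 30 * v, μ x) κ hκ
    (sum_nonneg fun x _ => hμ x) (fun a => sum_nonneg fun x _ => hμ x)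
    (fun a => by
      have : 2 * s + 30 * v * (a + 1) = 2 * s + 30 * v * a + 30 * v := by ring
      simp only [this]
      exact ball_succ rr μ _ _)
    (fun a => Free Pn rr ρ v (2 * s + 10 * v + 30 * v * a)) N
    (fun a ha hF => (hc a ha (by rwa [add_right_comm])).le)
  simp only [mul_zero, add_zero] at h3
  have h4 : ∑ x with rr x ≤ 2 * s + 30 * v * N, μ x ≤ ∑ x with rr x ≤ 3 * s, μ x := by
    refine sum_le_sum_of_subset_of_nonneg (fun x hx => ?_) fun x _ _ => hμ x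
    rw [mem_filter] at hx ⊢
    exact ⟨hx.1, by omega⟩
  have h5 : (1 + κ) ^ (N / 2) ≤ (1 + κ) ^ ((range N).filter
      fun a => Free Pn rr ρ v (2 * s + 10 * v + 30 * v * a)).card :=
    pow_le_pow_right₀ (by linarith) (by omega)
  have h6 : 0 ≤ ∑ x with rr x ≤ 2 * s, μ x := sum_nonneg fun x _ => hμ x
  have h7 : m0 * (1 + κ) ^ (N / 2) ≤ (∑ x with rr x ≤ 2 * s, μ x) * (1 + κ) ^ (N / 2) :=
    mul_le_mul_of_nonneg_right h0 (by positivity)
  have h8 := mul_le_mul_of_nonneg_left h5 h6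
  linarith

/-- the shell of the final ring -/
theorem shell_final [Fintype α] (rr ρ : α → ℕ) (μ : α → ℝ) (hμ : ∀ x, 0 ≤ μ x) (Pn : Finset α)
    (s v N : ℕ) {H1 κ M : ℝ} (hv : 0 < v) (hN' : s ≤ 60 * v * N)
    (hP : H1 * ∑ p ∈ Pn, (ρ p : ℝ) ≤ s) (hH : 14040 ≤ H1) (hκ : 2 ≤ κ * N)
    (h1 : ∑ x, μ x ≤ M) :
    ∃ a < N, Free Pn rr ρ v (2 * s + 30 * v * a + 10 * v) ∧
      ∑ x with 2 * s + 30 * v * a < rr x ∧ rr x ≤ 2 * s + 30 * v * a + 30 * v, μ x ≤ κ * M := by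
  classical
  by_contra hc
  push Not at hc
  have h2 := excl_card Pn rr ρ (2 * s + 10 * v) s v N hv hN' hP hH
  have hN0 : 0 < N := by
    rcases Nat.eq_zero_or_pos N with h | h
    · rw [h] at hκ; norm_num at hκ
    · exact h
  have hκ0 : 0 ≤ κ := by
    by_contra h
    have : κ * N ≤ 0 := mul_nonpos_of_nonpos_of_nonneg (not_le.1 h).le (Nat.cast_nonneg _)
    linarith
  have hM : 0 ≤ M := (sum_nonneg fun x _ => hμ x).trans h1
  have h3 : ∀ K : ℕ, ∑ a ∈ range K, ∑ x with 2 * s + 30 * v * a < rr x ∧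
      rr x ≤ 2 * s + 30 * v * a + 30 * v, μ x ≤ ∑ x with rr x ≤ 2 * s + 30 * v * K, μ x := by
    intro K
    induction K with
    | zero => simpa using sum_nonneg fun x _ => hμ x
    | succ K ih =>
      have : 2 * s + 30 * v * (K + 1) = 2 * s + 30 * v * K + 30 * v := by ring
      rw [sum_range_succ, this, ball_succ]
      linarith
  have h4 : ∑ x with rr x ≤ 2 * s + 30 * v * N, μ x ≤ ∑ x, μ x :=
    sum_le_sum_of_subset_of_nonneg (filter_subset _ _) fun x _ _ => hμ x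
  set F := (range N).filter fun a => Free Pn rr ρ v (2 * s + 10 * v + 30 * v * a) with hF
  have hne : F.Nonempty := card_pos.1 (by omega)
  have h5 : ∑ _a ∈ F, κ * M < ∑ a ∈ F, ∑ x with 2 * s + 30 * v * a < rr x ∧
      rr x ≤ 2 * s + 30 * v * a + 30 * v, μ x := by
    refine sum_lt_sum_of_nonempty hne fun a ha => ?_
    rw [hF, mem_filter, mem_range] at ha
    exact hc a ha.1 (by rw [add_right_comm]; exact ha.2)
  have h6 : ∑ a ∈ F, ∑ x with 2 * s + 30 * v * a < rr x ∧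
      rr x ≤ 2 * s + 30 * v * a + 30 * v, μ x ≤ ∑ a ∈ range N, ∑ x with 2 * s + 30 * v * a < rr x ∧
      rr x ≤ 2 * s + 30 * v * a + 30 * v, μ x :=
    sum_le_sum_of_subset_of_nonneg (filter_subset _ _) fun a _ _ => sum_nonneg fun x _ => hμ x
  rw [sum_const, nsmul_eq_mul] at h5
  have h7 : (N : ℝ) ≤ 2 * F.card := by exact_mod_cast h2
  have h8 : 1 ≤ κ * F.card := by nlinarith
  have h9 := h3 N
  nlinarith

end Pool.Agent.Lib.MP_9cc147_pr.AllU.E
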