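import Pool.Agent.Lib.MP_9cc147_pr.U.ECnt
import Pool.Agent.Lib.MP_9cc147_pr.U.EShell

/-! Exceptional phase: certificates in a shell, the net of pins, the count near a good radius. -/

open Finset

namespace Pool.Agent.Lib.MP_9cc147_pr.AllU.E

variable {n : ℕ}

/-- certificate of a point at scale `s`: mass nearby or a large pin nearby -/
def Cert (ρ : Vx n → ℕ) (μ : Vx n → ℝ) (cI : ℝ) (s : ℕ) (p : Vx n) : Prop :=
  (cI * s ≤ ∑ y with ds p y ≤ 4001 * s, μ y) ∨ ∃ z', s ≤ ρ z' ∧ ds p z' ≤ ρ z' + 5 * s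

/-- a shell around `z` that no large pin meets near the radius `R` -/
structure Shl (z : Vx n) (ρ : Vx n → ℕ) (μ : Vx n → ℝ) (H1 : ℝ) (Sh : Finset (Vx n)) (R v : ℕ) :
    Prop where
  m0 : ∀ x, 0 ≤ μ x
  mass : ∀ p, H1 * ρ p ≤ μ p
  sh : ∀ y, R < ds z y + 10 * v → ds z y ≤ R + 20 * v → y ∈ Sh
  free : ∀ p, 0 < ρ p → v ≤ 100 * ρ p → ds z p + ρ p + 2 * v < R ∨ R + 3 * v + ρ p < ds z p

variable {z p : Vx n} {ρ : Vx n → ℕ} {μ : Vx n → ℝ} {H H1 cI : ℝ} {Sh : Finset (Vx n)}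
  {R v s t : ℕ}

lemma Shl.small (h : Shl z ρ μ H1 Sh R v) (h1 : R < ds z p + v) (h2 : ds z p ≤ R + 2 * v)
    (hs : 0 < s) (hv : 8002 * s ≤ v) {z' : Vx n} (h3 : s ≤ ρ z') (h4 : ds p z' ≤ ρ z' + 5 * s) :
    100 * ρ z' < v ∧ z' ∈ Sh := by
  have a1 := ds_tri z p z'
  have a2 := ds_tri z z' p
  rw [ds_comm z' p] at a2
  have a3 : 100 * ρ z' < v := by
    by_contra hc
    rcases h.free z' (by omega) (by omega) with h5 | h5 <;> omega
  exact ⟨a3, h.sh z' (by omega) (by omega)⟩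

/-- a certificate gives mass in the shell, inside any ball that holds its witness -/
lemma Shl.cert (h : Shl z ρ μ H1 Sh R v) (h0 : 0 ≤ cI) (hH : cI ≤ H1) (h1 : R < ds z p + v)
    (h2 : ds z p ≤ R + 2 * v) (hs : 0 < s) (hv : 8002 * s ≤ v) (hc : Cert ρ μ cI s p) {D : ℕ}
    (hD : 4001 * s ≤ D) (hD' : ∀ z' ∈ Sh, s ≤ ρ z' → 100 * ρ z' < v → ds p z' ≤ ρ z' + 5 * s →
      ds p z' ≤ D) : cI * s ≤ ∑ y ∈ Sh with ds p y ≤ D, μ y := by
  rcases hc with hc | ⟨z', h3, h4⟩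
  · refine hc.trans (sum_le_sum_of_subset_of_nonneg (fun y hy => ?_) fun y _ _ => h.m0 y)
    have a0 := (mem_filter.1 hy).2
    have a1 := ds_tri z p y
    have a2 := ds_tri z y p
    rw [ds_comm y p] at a2
    exact mem_filter.2 ⟨h.sh y (by omega) (by omega), a0.trans hD⟩
  · obtain ⟨h5, h6⟩ := h.small h1 h2 hs hv h3 h4
    have h7 : (s : ℝ) ≤ ρ z' := by exact_mod_cast h3
    calc cI * s ≤ H1 * ρ z' := mul_le_mul hH h7 (Nat.cast_nonneg _) (h0.trans hH)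
      _ ≤ μ z' := h.mass z'
      _ ≤ _ := single_le_sum (f := μ) (fun y _ => h.m0 y) (mem_filter.2 ⟨h6, hD' z' h6 h3 h5 h4⟩)

/-- the net of the small pins near the radius `R` is small -/
lemma Shl.nt_card (h : Shl z ρ μ H1 Sh R v) (h0 : 0 ≤ cI) (hH : cI ≤ H1) (hs : 0 < s)
    (hv : 8002 * s ≤ v) {Nt : Finset (Vx n)} (hN : ∀ a ∈ Nt, ∀ b ∈ Nt, a ≠ b → v < ds a b)
    (hP : ∀ p ∈ Nt, R < ds z p + v ∧ ds z p ≤ R + 2 * v ∧ Cert ρ μ cI s p) :
    Nt.card * (cI * s) ≤ ∑ y ∈ Sh, μ y :=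
  net_card (A := Sh) (D := v / 2) h.m0 (fun a ha b hb e => by have := hN a ha b hb e; omega)
    (fun a ha => h.cert h0 hH (hP a ha).1 (hP a ha).2.1 hs hv (hP a ha).2.2 (by omega)
      fun _ _ _ _ _ => by omega) fun _ _ _ hx _ => hx

/-- every dyadic width has a level -/
lemma lev_ex {Γ j : ℕ} (hj : 1 ≤ j) (hΓ : 1 ≤ Γ) (h1 : 8002 * Γ ^ (j - 1) ≤ v)
    (h2 : v ≤ 5 * Γ ^ j) {u : ℕ} (hu : 1 ≤ u) (hv : 10 * u ≤ v) :
    ∃ i < j, Γ ^ i ≤ 2 * u ∧ 2 * u ≤ Γ * Γ ^ i ∧ 8002 * Γ ^ i ≤ v := by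
  classical
  have e0 : Γ ^ 0 ≤ 2 * u := by rw [pow_zero]; omega
  have e1 := Nat.findGreatest_le (P := fun i => Γ ^ i ≤ 2 * u) (j - 1)
  refine ⟨Nat.findGreatest (fun i => Γ ^ i ≤ 2 * u) (j - 1), by omega,
    Nat.findGreatest_spec (P := fun i => Γ ^ i ≤ 2 * u) (Nat.zero_le _) e0, ?_,
    le_trans (Nat.mul_le_mul_left _ (Nat.pow_le_pow_right hΓ e1)) h1⟩
  rw [← pow_succ']
  rcases e1.lt_or_eq with h | h
  · exact (not_le.1 (Nat.findGreatest_is_greatest (P := fun i => Γ ^ i ≤ 2 * u)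
      (Nat.lt_succ_self _) h)).le
  · rw [h, Nat.sub_add_cancel hj]; omega

/-- COUNT: the points whose width is realised by a pin and that are close to a good radius -/
theorem Shl.dy (h : Shl z ρ μ H1 Sh R v) (h0 : 0 < cI) (hH : cI ≤ H1) (hH0 : 0 ≤ H)
    (hH3 : 3 * H < H1) (hg : Good Sh (ds z) μ H t) (t1 : 3 * R + v ≤ 3 * t)
    (t2 : 3 * t ≤ 3 * R + 2 * v) {Γ j : ℕ} {sc : ℕ → ℕ}
    (hl : ∀ u, 1 ≤ u → 10 * u ≤ v → ∃ i < j, 0 < sc i ∧ sc i ≤ 2 * u ∧ 2 * u ≤ Γ * sc i ∧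
      8002 * sc i ≤ v) {P K : Finset (Vx n)} {wd : Vx n → ℝ}
    (hP : ∀ p ∈ P, ∀ i < j, Cert ρ μ cI (sc i) p)
    (hK : ∀ x ∈ K, 10 * wd x < v ∧ |(t : ℝ) - ds z x| ≤ 3 * wd x ∧
      ∃ p ∈ P, (ds x p : ℝ) + ρ p ≤ wd x) : Dy K wd (5 * 10 ^ 12 * H * Γ / cI) := by
  intro b
  set Kb := K.filter fun x => 2 ^ b ≤ wd x ∧ wd x < 2 ^ (b + 1) with hKb
  rcases Kb.eq_empty_or_nonempty with e | ⟨x0, hx0⟩
  · rw [e, card_empty, Nat.cast_zero]; positivity
  obtain ⟨u, hu⟩ : ∃ u : ℕ, u = 2 ^ b := ⟨_, rfl⟩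
  have huR : (u : ℝ) = 2 ^ b := by rw [hu]; push_cast; rfl
  have u1 : 1 ≤ u := hu ▸ Nat.one_le_two_pow
  have u2 : 10 * u ≤ v := by
    have a1 := (hK x0 (mem_filter.1 hx0).1).1
    have a2 := (mem_filter.1 hx0).2.1
    have : (10 * u : ℝ) ≤ v := by linarith
    exact_mod_cast this
  obtain ⟨i, hi, s0, s1, s2, s3⟩ := hl u u1 u2
  have u1R : (1 : ℝ) ≤ u := by exact_mod_cast u1
  have hc := count (K := Kb) (A := Sh) (A2 := Sh.filter fun y => |(ds z y : ℝ) - t| ≤ 8010 * u)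
    (D := 8002 * u) (r := 2 * u) (m := cI * sc i) h.m0 (by positivity) fun x hx => by
      obtain ⟨-, a2, p, hp, a3⟩ := hK x (mem_filter.1 hx).1
      have a4 := (mem_filter.1 hx).2.2
      rw [pow_succ, ← huR] at a4
      obtain ⟨a5, a6⟩ := abs_le.1 a2
      have b1 : ds x p + ρ p < 2 * u := by
        have : (ds x p : ℝ) + ρ p < 2 * u := by linarith
        exact_mod_cast this
      have b2 : t < ds z x + 6 * u := by
        have : (t : ℝ) < ds z x + 6 * u := by linarith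
        exact_mod_cast this
      have b3 : ds z x < t + 6 * u := by
        have : (ds z x : ℝ) < t + 6 * u := by linarith
        exact_mod_cast this
      have c1 := ds_tri z x p
      have c2 := ds_tri z p x
      rw [ds_comm p x] at c2
      refine ⟨p, by rw [ds_comm]; omega, h.cert h0.le hH (by omega) (by omega) s0 s3 (hP p hp i hi)
        (by omega) fun z' hz d1 _ d3 => ?_, fun y hy d1 => mem_filter.2 ⟨hy, ?_⟩⟩
      · have d4 := good_far h.m0 hg hz (by omega : 0 < ρ z') (h.mass z') hH3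
        have d5 := ds_tri z p z'
        have d6 := ds_tri z z' p
        rw [ds_comm z' p] at d6
        rcases lt_abs.1 d4 with d7 | d7
        · have : 3 * ρ z' + t < ds z z' := by
            have : 3 * (ρ z' : ℝ) + t < ds z z' := by linarith
            exact_mod_cast this
          omega
        · have : 3 * ρ z' + ds z z' < t := by
            have : 3 * (ρ z' : ℝ) + ds z z' < t := by linarith
            exact_mod_cast this
          omega
      · have d5 := ds_tri z p y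
        have d6 := ds_tri z y p
        rw [ds_comm y p] at d6
        have d7 : (ds z y : ℝ) ≤ t + 8010 * u := by
          exact_mod_cast (by omega : ds z y ≤ t + 8010 * u)
        have d8 : (t : ℝ) ≤ ds z y + 8010 * u := by
          exact_mod_cast (by omega : t ≤ ds z y + 8010 * u)
        exact abs_le.2 ⟨by linarith, by linarith⟩
  have h1 := hg (8010 * u) (by linarith)
  have h2 : (2 * (2 * ((8002 * u : ℕ) : ℝ) + ((2 * u : ℕ) : ℝ)) + 1) ^ 2 ≤ (32013 * u) ^ 2 := by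
    refine pow_le_pow_left₀ (by positivity) ?_ 2
    push_cast
    linarith
  have h3 : (Kb.card : ℝ) * (cI * sc i) ≤ H * (8010 * u) * (32013 * u) ^ 2 :=
    hc.trans (mul_le_mul h1 h2 (sq_nonneg _) (by positivity))
  have h4 : (2 * u : ℝ) ≤ Γ * sc i := by exact_mod_cast s2
  have h5 : (Kb.card : ℝ) * cI * (2 * u) ≤ Γ * (H * (8010 * u) * (32013 * u) ^ 2) :=
    calc (Kb.card : ℝ) * cI * (2 * u) ≤ Kb.card * cI * (Γ * sc i) :=
          mul_le_mul_of_nonneg_left h4 (by positivity)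
      _ = Γ * (Kb.card * (cI * sc i)) := by ring
      _ ≤ _ := mul_le_mul_of_nonneg_left h3 (Nat.cast_nonneg _)
  rw [show (4 : ℝ) ^ b = u ^ 2 by rw [huR, ← pow_mul, mul_comm, pow_mul]; norm_num,
    div_mul_eq_mul_div, le_div_iff₀ h0]
  refine le_of_mul_le_mul_right (h5.trans ?_) (by positivity : (0 : ℝ) < 2 * u)
  have h6 : 0 ≤ H * Γ * (u : ℝ) ^ 3 := by positivity
  nlinarith

end Pool.Agent.Lib.MP_9cc147_pr.AllU.E
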