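import Pool.Agent.Lib.MP_9cc147_pr.U.EKink

/-! Windows of a ring and the exact conditions on the height functions. -/

open Finset

namespace Pool.Agent.Lib.MP_9cc147_pr.AllU.E

variable {n : ℕ}

/-- `LamA` as a group -/
def LamG (ρ : Vx n → ℕ) (s : ℕ) : AddSubgroup (Vx n → ℝ) where
  carrier := LamA ρ s
  add_mem' := by
    rintro f g ⟨f1, ⟨a, f2⟩, f3⟩ ⟨g1, ⟨b, g2⟩, g3⟩
    refine ⟨fun z hz => ?_, ⟨a + b, fun x hx => ?_⟩, fun x hx => ?_⟩
    · obtain ⟨k, hk⟩ := f1 z hz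
      obtain ⟨l, hl⟩ := g1 z hz
      exact ⟨k + l, fun x hx => by rw [Pi.add_apply, hk x hx, hl x hx, Int.cast_add]⟩
    · rw [Pi.add_apply, f2 x hx, g2 x hx, Int.cast_add]
    · rw [Pi.add_apply, f3 x hx, g3 x hx, add_zero]
  zero_mem' := ⟨fun _ _ => ⟨0, fun _ _ => by simp⟩, ⟨0, fun _ _ => by simp⟩, fun _ _ => rfl⟩
  neg_mem' := by
    rintro f ⟨f1, ⟨a, f2⟩, f3⟩
    refine ⟨fun z hz => ?_, ⟨-a, fun x hx => ?_⟩, fun x hx => ?_⟩
    · obtain ⟨k, hk⟩ := f1 z hz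
      exact ⟨-k, fun x hx => by rw [Pi.neg_apply, hk x hx, Int.cast_neg]⟩
    · rw [Pi.neg_apply, f2 x hx, Int.cast_neg]
    · rw [Pi.neg_apply, f3 x hx, neg_zero]

lemma coe_LamG (ρ : Vx n → ℕ) (s : ℕ) : (LamG ρ s : Set (Vx n → ℝ)) = LamA ρ s := rfl

lemma mem_LamG {ρ : Vx n → ℕ} {s : ℕ} {f : Vx n → ℝ} : f ∈ LamG ρ s ↔ f ∈ LamA ρ s := Iff.rfl

lemma LamA_anti {ρ ρ' : Vx n → ℕ} (h : ∀ z, ρ z ≤ ρ' z) (s : ℕ) : LamA ρ' s ⊆ LamA ρ s := by
  rintro f ⟨h1, h2⟩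
  refine ⟨fun z hz => ?_, h2⟩
  obtain ⟨k, hk⟩ := h1 z (hz.trans_le (h z))
  exact ⟨k, fun x hx => hk x (hx.trans (h z))⟩

lemma ds_vz_vl (n : ℕ) : ds (vz n) (vl n) = n := by
  simp [ds, vz, vl]

lemma exists_mid {a b : Vx n} {r : ℕ} (h : ds a b ≤ 2 * r) : ∃ m, ds a m ≤ r ∧ ds b m ≤ r := by
  have h1 := a.1.2
  have h2 := a.2.2
  have h3 := b.1.2
  have h4 := b.2.2
  refine ⟨(⟨(a.1.val + b.1.val) / 2, by omega⟩, ⟨(a.2.val + b.2.val) / 2, by omega⟩), ?_⟩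
  unfold ds at h ⊢
  simp only
  omega

/-- the classes of `Nt` under chains of steps of length at most `D` -/
structure Cls (Nt : Finset (Vx n)) (D : ℕ) {W : Type} (Nw : W → Finset (Vx n)) (pt : W → Vx n) :
    Prop where
  sub : ∀ w, Nw w ⊆ Nt
  cov : ∀ q ∈ Nt, ∃ w, q ∈ Nw w
  far : ∀ w w', w ≠ w' → ∀ p ∈ Nw w, ∀ q ∈ Nw w', D < ds p q
  mem : ∀ w, pt w ∈ Nw w
  ind : ∀ w (Q : Vx n → Prop), Q (pt w) →
    (∀ a ∈ Nw w, ∀ b ∈ Nw w, ds a b ≤ D → Q a → Q b) → ∀ a ∈ Nw w, Q a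

theorem exists_cls (Nt : Finset (Vx n)) (D : ℕ) : ∃ (W : Type) (_ : Fintype W)
    (Nw : W → Finset (Vx n)) (pt : W → Vx n), Cls Nt D Nw pt ∧ Fintype.card W ≤ Nt.card := by
  classical
  let r : Vx n → Vx n → Prop := fun a b => a ∈ Nt ∧ b ∈ Nt ∧ ds a b ≤ D
  have hs : ∀ a b, Relation.ReflTransGen r a b → Relation.ReflTransGen r b a := by
    intro a b h
    induction h with
    | refl => exact .refl
    | tail _ h2 ih => exact .head ⟨h2.2.1, h2.1, by rw [ds_comm]; exact h2.2.2⟩ ih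
  let cl : Vx n → Finset (Vx n) := fun a => Nt.filter (Relation.ReflTransGen r a)
  have hex : ∀ w : (Nt.image cl : Finset _), ∃ a ∈ Nt, cl a = w.1 := fun w => mem_image.1 w.2
  choose pt h1 h2 using hex
  have hm : ∀ w a, a ∈ w.1 ↔ a ∈ Nt ∧ Relation.ReflTransGen r (pt w) a := fun w a => by
    rw [← h2 w]; exact mem_filter
  refine ⟨(Nt.image cl : Finset _), inferInstance, fun w => w.1, pt,
    ⟨fun w a ha => ((hm w a).1 ha).1, fun q hq => ⟨⟨cl q, mem_image_of_mem _ hq⟩,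
      mem_filter.2 ⟨hq, .refl⟩⟩, fun w w' hw p hp q hq => ?_,
      fun w => (hm w _).2 ⟨h1 w, .refl⟩, fun w Q h0 hQ a ha => ?_⟩, ?_⟩
  · by_contra hc
    obtain ⟨p1, p2⟩ := (hm w p).1 hp
    obtain ⟨q1, q2⟩ := (hm w' q).1 hq
    have e : Relation.ReflTransGen r (pt w) (pt w') :=
      (p2.tail ⟨p1, q1, not_lt.1 hc⟩).trans (hs _ _ q2)
    refine hw (Subtype.ext (Finset.ext fun a => ?_))
    rw [hm, hm]
    exact and_congr_right fun _ => ⟨fun h => (hs _ _ e).trans h, fun h => e.trans h⟩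
  · obtain ⟨-, a2⟩ := (hm w a).1 ha
    clear ha
    induction a2 with
    | refl => exact h0
    | tail h3 h4 ih =>
      exact hQ _ ((hm w _).2 ⟨h4.1, h3⟩) _ ((hm w _).2 ⟨h4.2.1, h3.tail h4⟩) h4.2.2 ih
  · rw [Fintype.card_coe]
    exact card_image_le

/-- position of the ring relative to the pins and to the annulus of scale `S` -/
structure Win (z : Vx n) (ρ : Vx n → ℕ) (P Nt : Finset (Vx n)) (R v S : ℕ) : Prop where
  small : ∀ p ∈ P, ρ p ≤ v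
  net : ∀ p ∈ P, ∃ q ∈ Nt, ds q p ≤ v
  pin : ∀ p, 0 < ρ p → p ∈ P ∨ ds z p + ρ p ≤ R ∨ R + v + ρ p ≤ ds z p
  inn : (∀ x, ds (vz n) x ≤ S → ds z x ≤ R) ∨ ∀ x, ds (vz n) x ≤ S → R + v ≤ ds z x
  out : ∀ x, 4 * S ≤ ds (vz n) x → R + v ≤ ds z x
  big : 4 * S ≤ n

/-- pairs that cross the ring -/
def Moved (z : Vx n) (R v : ℕ) (x y : Vx n) : Prop :=
  ¬ (ds z x ≤ R ∧ ds z y ≤ R) ∧ ¬ (R + v ≤ ds z x ∧ R + v ≤ ds z y)

variable {z x y p : Vx n} {ρ : Vx n → ℕ} {P Nt A : Finset (Vx n)} {R v S : ℕ} {t t0 : ℝ}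
  {W : Type} {Nw : W → Finset (Vx n)} {pt : W → Vx n}

lemma mem_spwN : x ∈ spw z A R v ↔ R < ds z x ∧ ds z x < R + v ∧ ∃ p ∈ A, ds x p < 3 * v := by
  rw [mem_spw]
  norm_cast

lemma not_mem_spw (h : ds z x ≤ R ∨ R + v ≤ ds z x) : x ∉ spw z A R v := by
  rw [mem_spwN]
  omega

lemma chi_in (hv : 0 < v) (h : ds z x ≤ R) : chi z R v x = 1 :=
  chi_one (by exact_mod_cast hv) (by exact_mod_cast h)

lemma chi_out (hv : 0 < v) (h : R + v ≤ ds z x) : chi z R v x = 0 :=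
  chi_zero (by exact_mod_cast hv) (by exact_mod_cast h)

lemma moved_of (hv : 0 < v)
    (h : chi z R v x ≠ chi z R v y ∨ Tch (fun w => spw z (Nw w) R v) x y) : Moved z R v x y := by
  rcases h with h | ⟨w, h | h⟩
  · exact ⟨fun a => h (by rw [chi_in hv a.1, chi_in hv a.2]),
      fun a => h (by rw [chi_out hv a.1, chi_out hv a.2])⟩
  · rw [mem_spwN] at h
    unfold Moved
    omega
  · rw [mem_spwN] at h
    unfold Moved
    omega

lemma Kn.vN (k : Kn ρ P R v t) : 0 < v := by exact_mod_cast k.v_pos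

lemma Cls.disj (C : Cls Nt (8 * v) Nw pt) (z : Vx n) (R : ℕ) (w w' : W) (h : w ≠ w') :
    Disjoint (spw z (Nw w) R v) (spw z (Nw w') R v) :=
  spw_disj fun p hp q hq => by
    have := C.far w w' h p hp q hq
    have h2 : 6 * v ≤ ds p q := by omega
    exact_mod_cast h2

/-- a pair meets at most two windows -/
lemma sum_two [Fintype W] {sp : W → Finset (Vx n)} (hd : ∀ w w', w ≠ w' → Disjoint (sp w) (sp w'))
    (x y : Vx n) {F : W → ℝ} {B : ℝ} (hB : 0 ≤ B) (h1 : ∀ w, F w ≤ B)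
    (h0 : ∀ w, x ∉ sp w → y ∉ sp w → F w ≤ 0) : ∑ w, F w ≤ 2 * B := by
  classical
  have one : ∀ a : Vx n, ∑ w, (if a ∈ sp w then B else 0) ≤ B := by
    intro a
    rw [← sum_filter, sum_const, nsmul_eq_mul]
    refine mul_le_of_le_one_left hB ?_
    have : (univ.filter fun w => a ∈ sp w).card ≤ 1 := by
      refine card_le_one.2 fun w hw w' hw' => ?_
      by_contra hc
      exact disjoint_left.1 (hd w w' hc) (mem_filter.1 hw).2 (mem_filter.1 hw').2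
    exact_mod_cast this
  calc ∑ w, F w ≤ ∑ w, ((if x ∈ sp w then B else 0) + if y ∈ sp w then B else 0) := by
        refine sum_le_sum fun w _ => ?_
        have := h1 w
        have := h0 w
        split_ifs with a b b
        · linarith
        · linarith
        · linarith
        · rw [add_zero]; exact h0 w a b
    _ ≤ 2 * B := by rw [sum_add_distrib]; have := one x; have := one y; linarith

/-- functions in the group after a success are constant on each class -/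
lemma Cls.const (C : Cls Nt (8 * v) Nw pt) (hv : 0 < v) {ρ' : Vx n → ℕ} (h : ∀ q ∈ Nt, 4 * v ≤ ρ' q)
    {f : Vx n → ℝ} (hf : f ∈ LamP ρ') (w : W) :
    (∃ k : ℤ, f (pt w) = k) ∧ ∀ q ∈ Nw w, ∀ x, ds q x ≤ 4 * v → f x = f (pt w) := by
  have ball : ∀ q ∈ Nw w, ∃ k : ℤ, ∀ x, ds q x ≤ 4 * v → f x = k := by
    intro q hq
    have h1 := h q (C.sub w hq)
    obtain ⟨k, hk⟩ := hf q (by omega)
    exact ⟨k, fun x hx => hk x (hx.trans h1)⟩
  obtain ⟨k, hk⟩ := ball _ (C.mem w)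
  have h0 : f (pt w) = k := hk _ (by simp)
  refine ⟨⟨k, h0⟩, C.ind w (fun q => ∀ x, ds q x ≤ 4 * v → f x = f (pt w))
    (fun x hx => by rw [hk x hx, h0]) fun a _ b hb hab ha x hx => ?_⟩
  obtain ⟨m, m1, m2⟩ := exists_mid (a := a) (b := b) (r := 4 * v) (by omega)
  obtain ⟨l, hl⟩ := ball b hb
  rw [hl x hx, ← hl m m2, ha m m1]

namespace Win

variable (K : Win z ρ P Nt R v S) (C : Cls Nt (8 * v) Nw pt)
include K

lemma off_in (h : ds (vz n) x ≤ S) : ds z x ≤ R ∨ R + v ≤ ds z x :=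
  K.inn.imp (fun a => a x h) fun a => a x h

lemma off_pin (hp : p ∉ P) (h0 : 0 < ρ p) (hx : ds p x ≤ ρ p) : ds z x ≤ R ∨ R + v ≤ ds z x := by
  have h1 := ds_tri z p x
  have h2 := ds_tri z x p
  rw [ds_comm x p] at h2
  rcases K.pin p h0 with h | h | h
  · exact absurd h hp
  · omega
  · omega

lemma vl_out : R + v ≤ ds z (vl n) := K.out _ (by rw [ds_vz_vl]; exact K.big)

lemma cor (A : Finset (Vx n)) : vz n ∉ spw z A R v ∧ vl n ∉ spw z A R v :=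
  ⟨not_mem_spw (K.off_in (by simp)), not_mem_spw (Or.inr K.vl_out)⟩

include C

lemma hh_pin (hv : 0 < v) (hp : p ∈ P) : ∃ w0, ∀ x, ds p x ≤ ρ p →
    hh (Nw w0) v x = 1 ∧ ∀ w, w ≠ w0 → hh (Nw w) v x = 0 := by
  obtain ⟨q, hq, h1⟩ := K.net p hp
  obtain ⟨w0, h2⟩ := C.cov q hq
  have hv' : (0 : ℝ) < v := by exact_mod_cast hv
  have hρ : (ρ p : ℝ) ≤ v := by exact_mod_cast K.small p hp
  refine ⟨w0, fun x hx => ⟨hh_pin1 hv' h2 (by rw [ds_comm]; exact_mod_cast h1) hρ hx,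
    fun w hw => hh_pin0 hv' (fun q' hq' => ?_) hρ hx⟩⟩
  have h3 := C.far w0 w hw.symm q h2 q' hq'
  have h4 := ds_tri q p q'
  have h5 : 4 * v ≤ ds p q' := by omega
  exact_mod_cast h5

theorem dif (k : Kn ρ P R v t) (k0 : Kn ρ P R v t0)
    (g : ∀ p ∈ P, 3 * (ρ p : ℝ) < |ds z p - t|) (g0 : ∀ p ∈ P, 3 * (ρ p : ℝ) < |ds z p - t0|)
    (w : W) : uu z ρ P (Nw w) R v t - uu z ρ P (Nw w) R v t0 ∈ LamG ρ S := by
  have off : ∀ x, ds z x ≤ R ∨ R + v ≤ ds z x →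
      (uu z ρ P (Nw w) R v t - uu z ρ P (Nw w) R v t0) x = 0 := fun x hx => by
    rw [Pi.sub_apply, k.uu_zero (not_mem_spw hx), k0.uu_zero (not_mem_spw hx), sub_self]
  refine ⟨fun p h0 => ?_, ⟨0, fun x hx => by rw [off x (K.off_in hx), Int.cast_zero]⟩,
    fun x hx => off x (Or.inr (K.out x hx))⟩
  by_cases hp : p ∈ P
  · obtain ⟨w0, h1⟩ := K.hh_pin C k.vN hp
    by_cases hw : w = w0
    · subst hw
      refine ⟨(if (ds z p : ℝ) < t then 1 else 0) - if (ds z p : ℝ) < t0 then 1 else 0,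
        fun x hx => ?_⟩
      rw [Pi.sub_apply, uu, uu, (h1 x hx).1, k.psi_pin hp (g p hp) hx, k0.psi_pin hp (g0 p hp) hx]
      push_cast
      ring
    · refine ⟨0, fun x hx => ?_⟩
      rw [Pi.sub_apply, uu, uu, (h1 x hx).2 w hw]
      simp
  · exact ⟨0, fun x hx => by rw [off x (K.off_pin hp h0 hx), Int.cast_zero]⟩

variable [Fintype W]

omit K C in
lemma b0_off (k : Kn ρ P R v t) (h : ds z x ≤ R ∨ R + v ≤ ds z x) :
    (chi z R v + ∑ w, uu z ρ P (Nw w) R v t) x = chi z R v x := by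
  rw [Pi.add_apply, Finset.sum_apply, sum_eq_zero fun w _ => k.uu_zero (not_mem_spw h), add_zero]

omit K C in
lemma b0_in (k : Kn ρ P R v t) (h : ds z x ≤ R) :
    (chi z R v + ∑ w, uu z ρ P (Nw w) R v t) x = 1 := by
  rw [b0_off k (Or.inl h), chi_in k.vN h]

omit K C in
lemma b0_out (k : Kn ρ P R v t) (h : R + v ≤ ds z x) :
    (chi z R v + ∑ w, uu z ρ P (Nw w) R v t) x = 0 := by
  rw [b0_off k (Or.inr h), chi_out k.vN h]

lemma b0_pin (k : Kn ρ P R v t) (g : ∀ p ∈ P, 3 * (ρ p : ℝ) < |ds z p - t|) (hp : p ∈ P)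
    (hx : ds p x ≤ ρ p) :
    (chi z R v + ∑ w, uu z ρ P (Nw w) R v t) x = if (ds z p : ℝ) < t then 1 else 0 := by
  obtain ⟨w0, h1⟩ := K.hh_pin C k.vN hp
  rw [Pi.add_apply, Finset.sum_apply, sum_eq_single w0, uu, (h1 x hx).1, k.psi_pin hp (g p hp) hx]
  · ring
  · intro w _ hw
    rw [uu, (h1 x hx).2 w hw, zero_mul]
  · simp

theorem tot (k : Kn ρ P R v t) (g : ∀ p ∈ P, 3 * (ρ p : ℝ) < |ds z p - t|) :
    chi z R v + ∑ w, uu z ρ P (Nw w) R v t ∈ LamG ρ S := by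
  refine ⟨fun p h0 => ?_, ?_, fun x hx => b0_out k (K.out x hx)⟩
  · by_cases hp : p ∈ P
    · refine ⟨if (ds z p : ℝ) < t then 1 else 0, fun x hx => ?_⟩
      rw [K.b0_pin C k g hp hx]
      push_cast
      rfl
    · rcases K.pin p h0 with h | h | h
      · exact absurd h hp
      · refine ⟨1, fun x hx => ?_⟩
        have := ds_tri z p x
        rw [b0_in k (by omega), Int.cast_one]
      · refine ⟨0, fun x hx => ?_⟩
        have := ds_tri z x p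
        rw [ds_comm x p] at this
        rw [b0_out k (by omega), Int.cast_zero]
  · rcases K.inn with h | h
    · exact ⟨1, fun x hx => by rw [b0_in k (h x hx), Int.cast_one]⟩
    · exact ⟨0, fun x hx => by rw [b0_out k (h x hx), Int.cast_zero]⟩

/-- the group after a success -/
theorem succ (k : Kn ρ P R v t) (g : ∀ p ∈ P, 3 * (ρ p : ℝ) < |ds z p - t|) {ρ' : Vx n → ℕ}
    (h1 : ∀ q ∈ Nt, 4 * v ≤ ρ' q) (h2 : ∀ p, p ∉ P → R < ds z p + ρ p → ρ p ≤ ρ' p) :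
    ∀ f ∈ LamA ρ' S, f * (1 - (chi z R v + ∑ w, uu z ρ P (Nw w) R v t)) ∈ LamG ρ S ∧
      ∀ w, (∃ k : ℤ, f (pt w) = k) ∧ ∀ x ∈ spw z (Nw w) R v, f x = f (pt w) := by
  rintro f ⟨f1, ⟨a, f2⟩, f3⟩
  have hv := k.vN
  refine ⟨⟨fun p h0 => ?_, ?_, fun x hx => by rw [Pi.mul_apply, f3 x hx, zero_mul]⟩, fun w => ?_⟩
  · by_cases hp : p ∈ P
    · obtain ⟨q, hq, h3⟩ := K.net p hp
      have h4 := h1 q hq
      have h5 := K.small p hp
      obtain ⟨l, hl⟩ := f1 q (by omega)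
      refine ⟨l * (1 - if (ds z p : ℝ) < t then 1 else 0), fun x hx => ?_⟩
      have := ds_tri q p x
      rw [Pi.mul_apply, Pi.sub_apply, K.b0_pin C k g hp hx, hl x (by omega)]
      push_cast
      rfl
    · by_cases h : ds z p + ρ p ≤ R
      · refine ⟨0, fun x hx => ?_⟩
        have := ds_tri z p x
        rw [Pi.mul_apply, Pi.sub_apply, b0_in k (by omega)]
        simp
      · have h3 := h2 p hp (by omega)
        have h4 : R + v + ρ p ≤ ds z p := by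
          rcases K.pin p h0 with b | b | b
          · exact absurd b hp
          · exact absurd b h
          · exact b
        obtain ⟨l, hl⟩ := f1 p (by omega)
        refine ⟨l, fun x hx => ?_⟩
        have := ds_tri z x p
        rw [ds_comm x p] at this
        rw [Pi.mul_apply, Pi.sub_apply, b0_out k (by omega), hl x (by omega)]
        simp
  · rcases K.inn with h | h
    · refine ⟨0, fun x hx => ?_⟩
      rw [Pi.mul_apply, Pi.sub_apply, b0_in k (h x hx)]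
      simp
    · refine ⟨a, fun x hx => ?_⟩
      rw [Pi.mul_apply, Pi.sub_apply, b0_out k (h x hx), f2 x hx]
      simp
  · obtain ⟨c1, c2⟩ := C.const hv h1 f1 w
    refine ⟨c1, fun x hx => ?_⟩
    obtain ⟨-, -, q, hq, h3⟩ := mem_spwN.1 hx
    exact c2 q hq x (by rw [ds_comm]; omega)

end Win

/-- the group after a failure -/
theorem fail_grp (hv : 0 < v) {ρ0 : Vx n → ℕ} (h : ∀ p, ρ p ≤ ρ0 p) {p0 : Vx n} (h0 : 0 < ρ0 p0)
    {c : Vx n → Vx n → ℝ}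
    (hm : ∀ x y, c x y ≠ 0 → Moved z R v x y → ds p0 x ≤ ρ0 p0 ∧ ds p0 y ≤ ρ0 p0) :
    ∀ f ∈ LamA ρ0 S, f ∈ LamG ρ S ∧ ∀ x y, c x y ≠ 0 →
      chi z R v x ≠ chi z R v y ∨ Tch (fun w => spw z (Nw w) R v) x y → f x = f y := by
  intro f hf
  refine ⟨LamA_anti h S hf, fun x y hc hxy => ?_⟩
  obtain ⟨a, b⟩ := hm x y hc (moved_of hv hxy)
  obtain ⟨k, hk⟩ := hf.1 p0 h0
  rw [hk x a, hk y b]

end Pool.Agent.Lib.MP_9cc147_pr.AllU.E
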