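import Pool.Agent.Lib.MP_9cc147_pr.U.EConv
import Pool.Agent.Lib.MP_9cc147_pr.U.ECnt2
import Pool.Agent.Lib.MP_9cc147_pr.U.EWin

/-! Exceptional phase: the state after a success, a failure or a skip. -/

open Finset

namespace Pool.Agent.Lib.MP_9cc147_pr.AllU.E

variable {n : ℕ}

/-- pins after a success -/
def rhoS (ρ : Vx n → ℕ) (z : Vx n) (R v : ℕ) (Nt : Finset (Vx n)) (p : Vx n) : ℕ :=
  if p ∈ Nt then 4 * v else if ds z p ≤ R + 2 * v then 0 else ρ p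

/-- mass after a success -/
noncomputable def muS (μ : Vx n → ℝ) (z : Vx n) (lo : ℕ) (H1 : ℝ) (v : ℕ) (Nt : Finset (Vx n))
    (x : Vx n) : ℝ :=
  (if ds z x ≤ lo then μ x / 2 else μ x) + if x ∈ Nt then 4 * H1 * v else 0

/-- pins after a failure -/
def rhoF (ρ : Vx n → ℕ) (p0 : Vx n) (s : ℕ) : Vx n → ℕ := Function.update ρ p0 (12 * s)

/-- mass after a failure -/
noncomputable def muF (μ : Vx n → ℝ) (p0 : Vx n) (H1 : ℝ) (s : ℕ) (x : Vx n) : ℝ :=
  μ x + if x = p0 then 12 * H1 * s else 0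

/-- kept pairs -/
def Kept (z : Vx n) (R v : ℕ) (x y : Vx n) : Prop := R + v ≤ ds z x ∧ R + v ≤ ds z y

/-- anchor of a moved pair -/
def anc (z : Vx n) (R v : ℕ) (x y : Vx n) : Vx n := if ds z x < R + v then x else y

/-- no new centres, no smaller radii -/
def Grow (ρ ρ' : Vx n → ℕ) : Prop := ∀ p, 0 < ρ' p → 0 < ρ p ∧ ρ p ≤ ρ' p

/-- invariant on the pairs of a level -/
def SafeL (ρ : Vx n → ℕ) (c : Vx n → Vx n → ℝ) (s v : ℕ) : Prop :=
  ∀ x y, c x y ≠ 0 → ds x y ≤ 3 * s ∧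
    (v ≤ 200 * ds x y ∨ ∀ p, 0 < ρ p → v ≤ 100 * (ds x p + ρ p))

/-- invariant on the size of the weights of a level -/
def Reg (a μ : Vx n → ℝ) (al s : ℝ) (D : ℕ) : Prop :=
  ∀ O O2 : Finset (Vx n), (∀ x ∈ O, ∀ y, ds x y ≤ D → y ∈ O2) →
    ∑ x ∈ O, a x ≤ al * (∑ y ∈ O2, μ y) / s

open Classical in
/-- mass that does not decrease within a colour -/
noncomputable def mst (μ : Vx n → ℝ) (Pr : Finset (Vx n)) (r : ℕ) (x : Vx n) : ℝ :=
  if ∃ c ∈ Pr, ds c x ≤ r then μ x else μ x / 2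

/-- the net of small pins near the ring -/
structure NetOk (ρ : Vx n → ℕ) (z : Vx n) (R v : ℕ) (Nt : Finset (Vx n)) : Prop where
  mem : ∀ p ∈ Nt, 0 < ρ p ∧ 100 * ρ p < v ∧ R < ds z p + v ∧ ds z p ≤ R + 2 * v
  cov : ∀ p, 0 < ρ p → 100 * ρ p < v → R < ds z p + v → ds z p ≤ R + 2 * v →
    ∃ q ∈ Nt, ds q p ≤ v

variable {z p p0 x y : Vx n} {ρ ρ' : Vx n → ℕ} {μ μ' a a' : Vx n → ℝ} {c : Vx n → Vx n → ℝ}
  {H1 cI al β : ℝ} {R v s lo D r : ℕ} {Nt Pr Sh : Finset (Vx n)}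

/-! ### growth of pins -/

lemma rhoS_mem (h : p ∈ Nt) : rhoS ρ z R v Nt p = 4 * v := if_pos h

lemma rhoS_in (h : p ∉ Nt) (h1 : ds z p ≤ R + 2 * v) : rhoS ρ z R v Nt p = 0 := by
  unfold rhoS; rw [if_neg h, if_pos h1]

lemma rhoS_out (h : p ∉ Nt) (h1 : R + 2 * v < ds z p) : rhoS ρ z R v Nt p = ρ p := by
  unfold rhoS; rw [if_neg h, if_neg (not_le.2 h1)]

lemma rhoS_pos (h : 0 < rhoS ρ z R v Nt p) :
    p ∈ Nt ∨ (p ∉ Nt ∧ R + 2 * v < ds z p ∧ rhoS ρ z R v Nt p = ρ p) := by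
  by_cases h1 : p ∈ Nt
  · exact Or.inl h1
  · rcases le_or_gt (ds z p) (R + 2 * v) with h2 | h2
    · rw [rhoS_in h1 h2] at h; omega
    · exact Or.inr ⟨h1, h2, rhoS_out h1 h2⟩

lemma NetOk.out (k : NetOk ρ z R v Nt) (h1 : R + 2 * v < ds z p) : rhoS ρ z R v Nt p = ρ p :=
  rhoS_out (fun h => by have := (k.mem p h).2.2.2; omega) h1

lemma NetOk.grow (k : NetOk ρ z R v Nt) : Grow ρ (rhoS ρ z R v Nt) := by
  intro p hp
  rcases rhoS_pos hp with h | ⟨-, -, h⟩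
  · have := k.mem p h
    rw [rhoS_mem h]; omega
  · rw [h] at hp ⊢; exact ⟨hp, le_rfl⟩

lemma rhoF_self : rhoF ρ p0 s p0 = 12 * s := Function.update_self _ _ _

lemma rhoF_ne (h : p ≠ p0) : rhoF ρ p0 s p = ρ p := Function.update_of_ne h _ _

lemma le_rhoF (h : ρ p0 ≤ 12 * s) (p : Vx n) : ρ p ≤ rhoF ρ p0 s p := by
  by_cases e : p = p0
  · rw [e, rhoF_self]; exact h
  · rw [rhoF_ne e]

lemma grow_rhoF (h0 : 0 < ρ p0) (h : ρ p0 ≤ 12 * s) : Grow ρ (rhoF ρ p0 s) := by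
  intro p hp
  refine ⟨?_, le_rhoF h p⟩
  by_cases e : p = p0
  · rw [e]; exact h0
  · rwa [rhoF_ne e] at hp

lemma Grow.base (g : Grow ρ ρ') (h : Base ρ c β) : Base ρ' c β :=
  ⟨h.c0, h.mom, fun x y e => (h.safe x y e).imp_right fun h1 => ⟨h1.1, fun p hp => by
    have := h1.2 p (g p hp).1
    have := (g p hp).2
    omega⟩⟩

lemma base_keep (P : Vx n → Vx n → Prop) (h : Base ρ c β) : Base ρ (keep P c) β :=
  ⟨keep_nonneg h.c0, fun x => (sum_le_sum fun y _ =>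
    mul_le_mul_of_nonneg_right (keep_le h.c0 x y) (sq_nonneg _)).trans (h.mom x),
    fun x y e => h.safe x y (keep_ne e).2⟩

lemma Grow.safeL (g : Grow ρ ρ') (h : SafeL ρ c s v) : SafeL ρ' c s v := fun x y e =>
  ⟨(h x y e).1, (h x y e).2.imp_right fun h1 p hp => by
    have := h1 p (g p hp).1
    have := (g p hp).2
    omega⟩

lemma SafeL.keep (P : Vx n → Vx n → Prop) (h : SafeL ρ c s v) : SafeL ρ (keep P c) s v :=
  fun x y e => h x y (keep_ne e).2

lemma SafeL.add {c' : Vx n → Vx n → ℝ} (h : SafeL ρ c s v) (h' : SafeL ρ c' s v) :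
    SafeL ρ (fun x y => c x y + c' x y) s v := fun x y e => by
  by_cases e1 : c x y = 0
  · exact h' x y fun e2 => e (by simp only [e1, e2, add_zero])
  · exact h x y e1

lemma safeL_zero : SafeL ρ (fun _ _ => 0) s v := fun _ _ e => absurd rfl e

/-! ### moved and kept pairs -/

lemma anc_or (x y : Vx n) : anc z R v x y = x ∨ anc z R v x y = y := by
  unfold anc; split_ifs <;> simp

lemma Moved.anc_lt (h : Moved z R v x y) : ds z (anc z R v x y) < R + v := by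
  have h2 := h.2
  unfold anc
  split_ifs with e
  · exact e
  · omega

lemma Moved.near (h : Moved z R v x y) :
    ds z x < R + v + ds x y ∧ ds z y < R + v + ds x y ∧ R < ds z x + ds x y ∧
      R < ds z y + ds x y := by
  have h1 := h.1
  have h2 := h.2
  have a1 := ds_tri z x y
  have a2 := ds_tri z y x
  rw [ds_comm y x] at a2
  omega

/-- moved base pairs are short: a pin `q` lies near the centre -/
lemma Moved.base_len (h : Moved z R v x y) (hb : Base ρ c β) (e : c x y ≠ 0) {q : Vx n}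
    (hq : 0 < ρ q) : ds x y ≤ 1 ∨ 99 * ds x y ≤ R + v + ds z q + ρ q := by
  refine (hb.safe x y e).imp_right fun h1 => ?_
  have a0 := h1.2 q hq
  have a1 := h.near.1
  have a2 := ds_tri x z q
  rw [ds_comm x z] at a2
  omega

/-- moved base pairs are short: ring around the corner -/
lemma Moved.base_len' (h : Moved (vz n) R v x y) (hb : Base ρ c β) (e : c x y ≠ 0) :
    ds x y ≤ 1 ∨ 99 * ds x y ≤ R + v := by
  refine (hb.safe x y e).imp_right fun h1 => ?_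
  have a0 := h1.1
  have a1 := h.near.1
  omega

/-- the hypothesis of the conversion lemma -/
lemma not_moved {W : Type} (A : W → Finset (Vx n)) (hv : 0 < v) (x y : Vx n)
    (h : ¬ Moved z R v x y) : (chi z R v x = 1 ∧ chi z R v y = 1) ∨
      (Kept z R v x y ∧ chi z R v x = 0 ∧ chi z R v y = 0 ∧
        ¬ Tch (fun w => spw z (A w) R v) x y) := by
  have hv' : (0 : ℝ) < v := by exact_mod_cast hv
  unfold Moved at h
  rw [not_and_or, not_not, not_not] at h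
  rcases h with h | h
  · exact Or.inl ⟨chi_one hv' (by exact_mod_cast h.1), chi_one hv' (by exact_mod_cast h.2)⟩
  · have a1 : (R : ℝ) + v ≤ ds z x := by exact_mod_cast h.1
    have a2 : (R : ℝ) + v ≤ ds z y := by exact_mod_cast h.2
    refine Or.inr ⟨h, chi_zero hv' a1, chi_zero hv' a2, ?_⟩
    rintro ⟨w, hw | hw⟩
    · exact absurd (mem_spw.1 hw).2.1 (not_lt.2 a1)
    · exact absurd (mem_spw.1 hw).2.1 (not_lt.2 a2)

lemma not_moved_chi (hv : 0 < v) (x y : Vx n) (h : ¬ Moved z R v x y) :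
    chi z R v x = chi z R v y := by
  rcases not_moved (W := Empty) (fun _ => ∅) hv x y h with h | h
  · rw [h.1, h.2]
  · rw [h.2.1, h.2.2.1]

/-- first ends of the new pairs are near the centre -/
lemma newW_near {W : Type} [Fintype W] (k : NetOk ρ z R v Nt) (hR : R + 2 * v ≤ 3 * s)
    (hc : ∀ x y, Moved z R v x y → c x y ≠ 0 → ds x y ≤ 3 * s) {χ : Vx n → ℝ} {pt : W → Vx n}
    (hpt : ∀ w, pt w ∈ Nt) {bs : W → ℝ}
    (e : newW (Moved z R v) (anc z R v) c χ pt bs z x y ≠ 0) : ds z x ≤ 6 * s := by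
  rcases newW_ne e with ⟨h1, h2⟩ | ⟨-, ⟨a, b, h1, -, -, rfl⟩ | ⟨w, rfl⟩⟩
  · have := hc x y h1 h2
    have := h1.near.1
    omega
  · have := h1.anc_lt
    omega
  · have := (k.mem _ (hpt w)).2.2.2
    omega

/-- the new pairs are safe for the new pins -/
lemma safeL_new {W : Type} [Fintype W] (k : NetOk ρ z R v Nt) (hR : R + 2 * v ≤ 3 * s)
    (hR' : 2 * v ≤ R) (hc : ∀ x y, Moved z R v x y → c x y ≠ 0 → ds x y ≤ 3 * s) (χ : Vx n → ℝ)
    {pt : W → Vx n} (hpt : ∀ w, pt w ∈ Nt) (bs : W → ℝ) :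
    SafeL (rhoS ρ z R v Nt) (newW (Moved z R v) (anc z R v) c χ pt bs z) s v := by
  have key : ∀ x : Vx n, 200 * ds z x < 200 * (R + v) + v → ∀ p, 0 < rhoS ρ z R v Nt p →
      v ≤ 100 * (ds x p + rhoS ρ z R v Nt p) := by
    intro x hx p hp
    rcases rhoS_pos hp with h | ⟨-, h, -⟩
    · rw [rhoS_mem h]; omega
    · have := ds_tri z x p
      omega
  intro x y e
  rcases newW_ne e with ⟨h1, h2⟩ | ⟨rfl, ⟨a, b, h1, -, -, rfl⟩ | ⟨w, rfl⟩⟩
  · refine ⟨hc x y h1 h2, ?_⟩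
    rcases le_or_gt v (200 * ds x y) with h3 | h3
    · exact Or.inl h3
    · exact Or.inr (key x (by have := h1.near.1; omega))
  · have := h1.anc_lt
    exact ⟨by rw [ds_comm]; omega, Or.inr (key _ (by omega))⟩
  · have := k.mem _ (hpt w)
    rw [ds_comm]
    omega

/-! ### mass -/

lemma muS_half (h0 : ∀ x, 0 ≤ μ x) (hH : 0 ≤ H1) (x : Vx n) : μ x / 2 ≤ muS μ z lo H1 v Nt x := by
  have := h0 x
  have : 0 ≤ 4 * H1 * v := by positivity
  unfold muS
  split_ifs <;> linarith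

lemma muS_nonneg (h0 : ∀ x, 0 ≤ μ x) (hH : 0 ≤ H1) (x : Vx n) : 0 ≤ muS μ z lo H1 v Nt x :=
  (half_nonneg' (h0 x)).trans (muS_half h0 hH x)
  where half_nonneg' {a : ℝ} (h : 0 ≤ a) : 0 ≤ a / 2 := by positivity

lemma le_muS (hH : 0 ≤ H1) (h : lo < ds z x) : μ x ≤ muS μ z lo H1 v Nt x := by
  have : 0 ≤ 4 * H1 * v := by positivity
  unfold muS
  rw [if_neg (not_le.2 h)]
  split_ifs <;> linarith

lemma muS_out (k : NetOk ρ z R v Nt) (hlo : lo ≤ r) (hr : R + 2 * v ≤ r) (h : r < ds z x) :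
    muS μ z lo H1 v Nt x = μ x := by
  unfold muS
  rw [if_neg (by omega), if_neg fun e => by have := (k.mem x e).2.2.2; omega, add_zero]

lemma le_muF (hH : 0 ≤ H1) (x : Vx n) : μ x ≤ muF μ p0 H1 s x := by
  have : 0 ≤ 12 * H1 * s := by positivity
  unfold muF
  split_ifs <;> linarith

lemma muF_ne (h : x ≠ p0) : muF μ p0 H1 s x = μ x := by
  unfold muF; rw [if_neg h, add_zero]

lemma sum_muF : ∑ x, muF μ p0 H1 s x = ∑ x, μ x + 12 * H1 * s := by
  unfold muF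
  rw [sum_add_distrib, sum_ite_eq', if_pos (mem_univ _)]

lemma sum_muS : ∑ x, muS μ z lo H1 v Nt x =
    ∑ x, μ x - (∑ x with ds z x ≤ lo, μ x) / 2 + Nt.card * (4 * H1 * v) := by
  unfold muS
  rw [sum_add_distrib, ← sum_filter, filter_mem_eq_inter, univ_inter, sum_const, nsmul_eq_mul,
    sum_filter, sum_div, ← sum_sub_distrib]
  congr 1
  refine sum_congr rfl fun x _ => ?_
  split_ifs <;> ring

/-- a success lowers the total mass -/
lemma sum_muS_le {ka Λ s0 : ℝ} (hH : 0 ≤ H1) (hc : 0 < cI) (hΛ : 0 ≤ Λ) (hv : (v : ℝ) = Λ * s0)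
    (h0 : 0 ≤ ∑ x with ds z x ≤ lo, μ x)
    (hN : Nt.card * (cI * s0) ≤ ka * ∑ x with ds z x ≤ lo, μ x) (hk : 16 * H1 * Λ * ka ≤ cI) :
    ∑ x, muS μ z lo H1 v Nt x ≤ ∑ x, μ x - (∑ x with ds z x ≤ lo, μ x) / 4 := by
  rw [sum_muS, hv]
  set mt := ∑ x with ds z x ≤ lo, μ x
  have h1 := mul_le_mul_of_nonneg_left hN (show 0 ≤ 16 * H1 * Λ by positivity)
  have h2 := mul_le_mul_of_nonneg_right hk h0
  have h3 : cI * (Nt.card * (4 * H1 * (Λ * s0))) ≤ cI * (mt / 4) := by nlinarith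
  have := le_of_mul_le_mul_left h3 hc
  linarith

lemma mass_S (h0 : ∀ x, 0 ≤ μ x) (hH : 0 ≤ H1) (hlo : lo ≤ R + 2 * v) (h : ∀ p, H1 * ρ p ≤ μ p)
    (p : Vx n) : H1 * rhoS ρ z R v Nt p ≤ muS μ z lo H1 v Nt p := by
  by_cases e : p ∈ Nt
  · have := h0 p
    rw [rhoS_mem e]
    unfold muS
    rw [if_pos e]
    push_cast
    split_ifs <;> linarith
  · rcases le_or_gt (ds z p) (R + 2 * v) with h1 | h1
    · rw [rhoS_in e h1, Nat.cast_zero, mul_zero]; exact muS_nonneg h0 hH p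
    · rw [rhoS_out e h1]; exact (h p).trans (le_muS hH (by omega))

lemma mass_F (h0 : ∀ x, 0 ≤ μ x) (h : ∀ p, H1 * ρ p ≤ μ p) (p : Vx n) :
    H1 * rhoF ρ p0 s p ≤ muF μ p0 H1 s p := by
  by_cases e : p = p0
  · have := h0 p
    unfold muF
    rw [if_pos e, e, rhoF_self]
    rw [e] at this
    push_cast
    linarith
  · rw [rhoF_ne e, muF_ne e]; exact h p

/-! ### size of the weights -/

lemma Reg.mono {s : ℝ} (h : Reg a μ al s D) (hal : 0 ≤ al) (hs : 0 ≤ s) (ha : ∀ x, a' x ≤ a x)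
    (hm : ∀ x, μ x ≤ μ' x) : Reg a' μ' al s D := fun O O2 e =>
  (sum_le_sum fun x _ => ha x).trans ((h O O2 e).trans (div_le_div_of_nonneg_right
    (mul_le_mul_of_nonneg_left (sum_le_sum fun x _ => hm x) hal) hs))

lemma Reg.weak {s al' : ℝ} {D' : ℕ} (h : Reg a μ al s D) (h0 : ∀ x, 0 ≤ μ x) (hal : al ≤ al')
    (hs : 0 ≤ s) (hD : D ≤ D') : Reg a μ al' s D' := fun O O2 e =>
  (h O O2 fun x hx y hy => e x hx y (hy.trans hD)).trans (div_le_div_of_nonneg_right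
    (mul_le_mul_of_nonneg_right hal (sum_nonneg fun x _ => h0 x)) hs)

/-- weights that vanish near the halved ball stay regular -/
lemma Reg.succ {s : ℝ} (h : Reg a μ al s D) (h0 : ∀ x, 0 ≤ μ x) (hH : 0 ≤ H1) (hal : 0 ≤ al)
    (hs : 0 ≤ s) (ha : ∀ x, a' x ≤ a x) (hz : ∀ x, ds z x ≤ lo + D → a' x = 0) :
    Reg a' (muS μ z lo H1 v Nt) al s D := by
  intro O O2 e
  have h1 := h (O.filter fun x => lo + D < ds z x) (O2.filter fun y => lo < ds z y) (by
    intro x hx y hy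
    rw [mem_filter] at hx ⊢
    have := ds_tri z y x
    rw [ds_comm y x] at this
    exact ⟨e x hx.1 y hy, by omega⟩)
  have h2 : ∑ x ∈ O, a' x = ∑ x ∈ O with lo + D < ds z x, a' x :=
    (sum_filter_of_ne fun x _ h => not_le.1 fun h' => h (hz x h')).symm
  have h3 : ∑ y ∈ O2 with lo < ds z y, μ y ≤ ∑ y ∈ O2, muS μ z lo H1 v Nt y :=
    (sum_le_sum fun y hy => le_muS hH (mem_filter.1 hy).2).trans
      (sum_le_sum_of_subset_of_nonneg (filter_subset _ _) fun y _ _ => muS_nonneg h0 hH y)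
  rw [h2]
  exact (sum_le_sum fun x _ => ha x).trans (h1.trans
    (div_le_div_of_nonneg_right (mul_le_mul_of_nonneg_left h3 hal) hs))

lemma keep_row_le (P : Vx n → Vx n → Prop) (hc : ∀ x y, 0 ≤ c x y) {e : Vx n → Vx n → ℝ}
    (he : ∀ x y, 0 ≤ e x y) (x : Vx n) : ∑ y, keep P c x y * e x y ≤ ∑ y, c x y * e x y :=
  sum_le_sum fun y _ => mul_le_mul_of_nonneg_right (keep_le hc x y) (he x y)

lemma kept_row_zero (e : Vx n → Vx n → ℝ) (h : ds z x < R + v) :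
    ∑ y, keep (Kept z R v) c x y * e x y = 0 :=
  sum_eq_zero fun y _ => by
    have : keep (Kept z R v) c x y = 0 := by
      by_contra h1
      have := (keep_ne h1).1.1
      omega
    rw [this, zero_mul]

/-- a lower level stays regular after a success -/
lemma Reg.kept {s : ℝ} {e : Vx n → Vx n → ℝ} (h : Reg (fun x => ∑ y, c x y * e x y) μ al s D)
    (hc : ∀ x y, 0 ≤ c x y) (he : ∀ x y, 0 ≤ e x y) (h0 : ∀ x, 0 ≤ μ x) (hH : 0 ≤ H1)
    (hal : 0 ≤ al) (hs : 0 ≤ s) (hD : lo + D < R + v) :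
    Reg (fun x => ∑ y, keep (Kept z R v) c x y * e x y) (muS μ z lo H1 v Nt) al s D :=
  h.succ h0 hH hal hs (keep_row_le _ hc he) fun _ hx => kept_row_zero e (by omega)

/-! ### certificates -/

lemma Cert.mono (h : Cert ρ μ cI s p) (hρ : ∀ q, s ≤ ρ q → ρ q ≤ ρ' q)
    (hm : ∀ x, ds p x ≤ 4001 * s → μ x ≤ μ' x) : Cert ρ' μ' cI s p := by
  rcases h with h | ⟨q, h1, h2⟩
  · exact Or.inl (h.trans (sum_le_sum fun x hx => hm x (mem_filter.1 hx).2))
  · have := hρ q h1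
    exact Or.inr ⟨q, by omega, by omega⟩

lemma Cert.weak {cI' : ℝ} (h : Cert ρ μ cI s p) (hc : cI' ≤ cI) : Cert ρ μ cI' s p :=
  h.imp_left fun h => (mul_le_mul_of_nonneg_right hc (Nat.cast_nonneg _)).trans h

lemma Cert.half (h : Cert ρ μ cI s p) (hm : ∀ x, μ x / 2 ≤ μ' x) : Cert ρ μ' (cI / 2) s p := by
  refine h.imp_left fun h => ?_
  have h1 : ∑ y with ds p y ≤ 4001 * s, μ y / 2 ≤ ∑ y with ds p y ≤ 4001 * s, μ' y :=
    sum_le_sum fun x _ => hm x
  rw [← sum_div] at h1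
  linarith

/-- level zero: a pin is its own certificate -/
lemma cert_zero (h : 0 < ρ p) : Cert ρ μ cI 1 p := Or.inr ⟨p, h, by simp⟩

/-- certificates of lower levels survive a success -/
lemma Cert.succ (h : Cert ρ μ cI s p) (k : NetOk ρ z R v Nt)
    (free : ∀ p, 0 < ρ p → v ≤ 100 * ρ p → ds z p + ρ p + 2 * v < R ∨ R + 3 * v + ρ p < ds z p)
    (hH : 0 ≤ H1) (hs : 0 < s) (hv : 5 * s ≤ v) (hlo : lo + 4001 * s ≤ R + 2 * v)
    (hp : 0 < rhoS ρ z R v Nt p) : Cert (rhoS ρ z R v Nt) (muS μ z lo H1 v Nt) cI s p := by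
  rcases rhoS_pos hp with e | ⟨-, e, -⟩
  · exact Or.inr ⟨p, by rw [rhoS_mem e]; omega, by simp⟩
  rcases h with h | ⟨q, h1, h2⟩
  · refine Or.inl (h.trans (sum_le_sum fun x hx => le_muS hH ?_))
    have := (mem_filter.1 hx).2
    have a1 := ds_tri z x p
    rw [ds_comm x p] at a1
    omega
  · have a1 := ds_tri z q p
    rw [ds_comm q p] at a1
    rcases le_or_gt (ds z q) (R + 2 * v) with h3 | h3
    · have h4 : 100 * ρ q < v := by
        by_contra h5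
        have := free q (by omega) (by omega)
        omega
      obtain ⟨q', hq, h5⟩ := k.cov q (by omega) h4 (by omega) h3
      have := ds_tri p q q'
      rw [ds_comm q q'] at this
      exact Or.inr ⟨q', by rw [rhoS_mem hq]; omega, by rw [rhoS_mem hq]; omega⟩
    · exact Or.inr ⟨q, by rwa [k.out h3], by rwa [k.out h3]⟩

/-- certificates survive a failure -/
lemma Cert.fail (h : Cert ρ μ cI s p) (hH : 0 ≤ H1) {s' : ℕ} (h0 : ρ p0 ≤ 12 * s') :
    Cert (rhoF ρ p0 s') (muF μ p0 H1 s') cI s p :=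
  h.mono (fun q _ => le_rhoF h0 q) fun x _ => le_muF hH x

/-- the failed pin certifies its cell -/
lemma cert_failed (h : ds p p0 ≤ 17 * s) : Cert (rhoF ρ p0 s) μ cI s p :=
  Or.inr ⟨p0, by rw [rhoF_self]; omega, by rw [rhoF_self]; omega⟩

/-- large pins are not touched by a success -/
lemma NetOk.large (k : NetOk ρ z R v Nt) (h : ∀ q, ds z q ≤ R + 2 * v → ρ q < s) (q : Vx n)
    (hq : s ≤ ρ q) : ρ q ≤ rhoS ρ z R v Nt q := by
  rw [k.out (not_le.1 fun e => by have := h q e; omega)]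

/-- a success deletes the pins near the centre -/
lemma NetOk.del (k : NetOk ρ z R v Nt) (h : ds z p + v ≤ R) : rhoS ρ z R v Nt p = 0 :=
  rhoS_in (fun e => by have := (k.mem p e).2.2.1; omega) (by omega)

/-! ### the mass of a colour -/

lemma mst_le (h0 : ∀ x, 0 ≤ μ x) (x : Vx n) : mst μ Pr r x ≤ μ x := by
  have := h0 x
  unfold mst
  split_ifs <;> linarith

lemma half_le_mst (h0 : ∀ x, 0 ≤ μ x) (x : Vx n) : μ x / 2 ≤ mst μ Pr r x := by
  have := h0 x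
  unfold mst
  split_ifs <;> linarith

lemma mst_empty (x : Vx n) : mst μ ∅ r x = μ x / 2 := by
  unfold mst; rw [if_neg (by simp)]

/-- one more ring in the colour -/
lemma mst_step (hsep : ∀ c ∈ Pr, 2 * r < ds z c) (h1 : ∀ x, μ x / 2 ≤ μ' x)
    (h2 : ∀ x, r < ds z x → μ' x = μ x) (x : Vx n) : mst μ Pr r x ≤ mst μ' (insert z Pr) r x := by
  unfold mst
  rcases le_or_gt (ds z x) r with h | h
  · rw [if_neg, if_pos ⟨z, mem_insert_self _ _, h⟩]
    · exact h1 x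
    · rintro ⟨c, hc, h3⟩
      have := hsep c hc
      have a1 := ds_tri z x c
      rw [ds_comm x c] at a1
      omega
  · rw [h2 x h]
    refine le_of_eq (if_congr ⟨fun ⟨c, hc, h3⟩ => ⟨c, mem_insert_of_mem hc, h3⟩, ?_⟩ rfl rfl)
    rintro ⟨c, hc, h3⟩
    rcases mem_insert.1 hc with rfl | hc
    · omega
    · exact ⟨c, hc, h3⟩

/-- the ghost mass of a colour: comparison after one more ring -/
lemma ghost_step {μs : Vx n → ℝ} (hsep : ∀ c ∈ Pr, 2 * r < ds z c) (h1 : ∀ x, μ x / 2 ≤ μ' x)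
    (h2 : ∀ x, r < ds z x → μ' x = μ x) (g1 : ∀ x, μs x ≤ 2 * μ x)
    (g2 : ∀ x, (∀ c ∈ Pr, r < ds c x) → μ x = μs x) :
    (∀ x, μs x ≤ 2 * μ' x) ∧ ∀ x, (∀ c ∈ insert z Pr, r < ds c x) → μ' x = μs x := by
  refine ⟨fun x => ?_, fun x hx => ?_⟩
  · rcases le_or_gt (ds z x) r with h | h
    · rw [← g2 x fun c hc => ?_]
      · linarith [h1 x]
      · have := hsep c hc
        have a1 := ds_tri z x c
        rw [ds_comm x c] at a1
        omega
    · rw [h2 x h]; exact g1 x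
  · rw [h2 x (hx z (mem_insert_self _ _)), g2 x fun c hc => hx c (mem_insert_of_mem hc)]

/-- skip because of mass -/
lemma cert_heavy (h0 : ∀ x, 0 ≤ μ x) (hm : ∀ x, μ x / 2 ≤ μ' x) (hp : ds z p ≤ s)
    (h : (s : ℝ) ≤ ∑ y with ds z y ≤ 4000 * s, μ y) : Cert ρ μ' (1 / 2) s p := by
  refine Cert.half (cI := 1) (Or.inl ?_) hm
  rw [one_mul]
  refine h.trans (sum_le_sum_of_subset_of_nonneg (fun y hy => ?_) fun y _ _ => h0 y)
  have := (mem_filter.1 hy).2
  have a1 := ds_tri p z y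
  rw [ds_comm p z] at a1
  exact mem_filter.2 ⟨mem_univ _, by omega⟩

/-- skip because of a large pin -/
lemma cert_far (hp : ds z p ≤ s) {q : Vx n} (h1 : 4000 * s < ds z q) (h2 : ds z q ≤ ρ q + 4 * s) :
    Cert ρ μ cI s p := by
  have a1 := ds_tri p z q
  rw [ds_comm p z] at a1
  exact Or.inr ⟨q, by omega, by omega⟩

/-- no skip: the pins that meet the ball of radius `4 s` are light -/
lemma light_sum (h0 : ∀ x, 0 ≤ μ x) (hM : ∀ p, H1 * ρ p ≤ μ p)
    (h1 : ∑ y with ds z y ≤ 4000 * s, μ y ≤ s)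
    (h2 : ∀ q, 0 < ρ q → ds z q ≤ ρ q + 4 * s → ds z q ≤ 4000 * s) :
    H1 * ∑ q with 0 < ρ q ∧ ds z q ≤ ρ q + 4 * s, (ρ q : ℝ) ≤ s := by
  rw [mul_sum]
  refine ((sum_le_sum fun q _ => hM q).trans
    (sum_le_sum_of_subset_of_nonneg (fun q hq => ?_) fun y _ _ => h0 y)).trans h1
  have := (mem_filter.1 hq).2
  exact mem_filter.2 ⟨mem_univ _, h2 q this.1 this.2⟩

lemma light_pin (h0 : ∀ x, 0 ≤ μ x) (hM : ∀ p, H1 * ρ p ≤ μ p)
    (h1 : ∑ y with ds z y ≤ 4000 * s, μ y ≤ s) {q : Vx n} (hq : ds z q ≤ 4000 * s) :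
    H1 * ρ q ≤ s :=
  ((hM q).trans (single_le_sum (f := μ) (fun y _ => h0 y)
    (mem_filter.2 ⟨mem_univ q, hq⟩))).trans h1

lemma light_lt (h0 : ∀ x, 0 ≤ μ x) (hM : ∀ p, H1 * ρ p ≤ μ p) (hH : 1 < H1) (hs : 0 < s)
    (h1 : ∑ y with ds z y ≤ 4000 * s, μ y ≤ s) {q : Vx n} (hq : ds z q ≤ 4000 * s) : ρ q < s := by
  have h2 := light_pin h0 hM h1 hq
  by_contra h3
  have h4 : (s : ℝ) ≤ ρ q := by exact_mod_cast not_lt.1 h3
  have h5 : (0 : ℝ) < s := by exact_mod_cast hs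
  nlinarith

/-- mass near the centre from the certificate of the level below -/
lemma Cert.inner {s0 : ℕ} (h : Cert ρ μ cI s0 p0) (h0 : ∀ x, 0 ≤ μ x) (hM : ∀ p, H1 * ρ p ≤ μ p)
    (hc : cI ≤ H1) (hH : 0 ≤ H1) (hp : ds z p0 ≤ s) (hs : 4001 * s0 ≤ s)
    (h2 : ∀ q, ds z q ≤ ρ q + 4 * s → 2 * ρ q ≤ s) :
    cI * s0 ≤ ∑ y with ds z y ≤ 2 * s, μ y := by
  rcases h with h | ⟨q, h3, h4⟩
  · refine h.trans (sum_le_sum_of_subset_of_nonneg (fun y hy => ?_) fun y _ _ => h0 y)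
    have := (mem_filter.1 hy).2
    have := ds_tri z p0 y
    exact mem_filter.2 ⟨mem_univ _, by omega⟩
  · have a1 := ds_tri z p0 q
    have a2 := h2 q (by omega)
    have a3 : (s0 : ℝ) ≤ ρ q := by exact_mod_cast h3
    refine le_trans ?_ ((hM q).trans (single_le_sum (f := μ) (fun y _ => h0 y)
      (mem_filter.2 ⟨mem_univ q, by omega⟩)))
    exact (mul_le_mul_of_nonneg_right hc (Nat.cast_nonneg _)).trans
      (mul_le_mul_of_nonneg_left a3 hH)

/-! ### the running inequality of a colour -/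

/-- regularity up to the rings of the current colour -/
def Run (a μ : Vx n → ℝ) (al s : ℝ) (D r : ℕ) (Pr : Finset (Vx n)) (T : Vx n → ℝ) : Prop :=
  ∀ O O2 : Finset (Vx n), (∀ x ∈ O, ∀ y, ds x y ≤ D → y ∈ O2) →
    ∑ x ∈ O, a x ≤ al * (∑ y ∈ O2, μ y) / s + ∑ c ∈ Pr with ∃ x ∈ O, ds c x ≤ r, T c

lemma Reg.run {s : ℝ} (h : Reg a μ al s D) (r : ℕ) (T : Vx n → ℝ) : Run a μ al s D r ∅ T :=
  fun O O2 e => by simpa using h O O2 e

/-- the weights near a fresh slot -/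
lemma Run.ball {s : ℝ} {T : Vx n → ℝ} (h : Run a μ al s D r Pr T)
    (hsep : ∀ c ∈ Pr, 2 * r < ds z c) :
    ∑ x with ds z x ≤ r, a x ≤ al * (∑ y with ds z y ≤ D + r, μ y) / s := by
  have h1 := h (univ.filter fun x => ds z x ≤ r) (univ.filter fun y => ds z y ≤ D + r) (by
    intro x hx y hy
    have := (mem_filter.1 hx).2
    have := ds_tri z x y
    exact mem_filter.2 ⟨mem_univ _, by omega⟩)
  rwa [filter_false_of_mem (s := Pr), sum_empty, add_zero] at h1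
  rintro c hc ⟨x, hx, h3⟩
  have := (mem_filter.1 hx).2
  have := hsep c hc
  have a1 := ds_tri z x c
  rw [ds_comm x c] at a1
  omega

/-- one more ring -/
lemma Run.step {s : ℝ} {T b : Vx n → ℝ} (h : Run a μ al s D r Pr T) (hz : z ∉ Pr)
    (ha : ∀ x, a' x ≤ a x + b x) (b0 : ∀ x, 0 ≤ b x) (hb : ∀ x, b x ≠ 0 → ds z x ≤ r)
    (hT : ∑ x, b x ≤ T z) : Run a' μ al s D r (insert z Pr) T := by
  intro O O2 e
  have h1 := h O O2 e
  have h2 : ∑ x ∈ O, a' x ≤ ∑ x ∈ O, a x + ∑ x ∈ O, b x := by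
    rw [← sum_add_distrib]; exact sum_le_sum fun x _ => ha x
  rw [filter_insert]
  split_ifs with h3
  · rw [sum_insert fun h4 => hz (mem_filter.1 h4).1]
    have : ∑ x ∈ O, b x ≤ ∑ x, b x :=
      sum_le_sum_of_subset_of_nonneg (subset_univ _) fun x _ _ => b0 x
    linarith
  · have : ∑ x ∈ O, b x = 0 := sum_eq_zero fun x hx => by
      by_contra h4
      exact h3 ⟨x, hx, hb x h4⟩
    linarith

/-! ### the potential -/

/-- the mixture of success and failure does not raise the potential -/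
lemma pot_mix {k M M1 M0 mt f p S : ℝ} (hk : 0 ≤ k) (hS : 0 ≤ S) (p1 : p ≤ 1 / 2)
    (hmt : 0 ≤ mt) (h1 : M1 ≤ M - mt / 4) (h0 : M0 = M + f) (hf : 8 * p * f ≤ mt) :
    (1 - p) * (1 - k * (1 - M1 / S)) + p * (1 - k * (1 - M0 / S)) ≤ 1 - k * (1 - M / S) := by
  have h2 : (1 - p) * M1 + p * M0 ≤ M := by
    have := mul_le_mul_of_nonneg_left h1 (show 0 ≤ 1 - p by linarith)
    have := mul_le_mul_of_nonneg_right p1 hmt
    rw [h0]
    nlinarith
  have h3 := mul_le_mul_of_nonneg_left (div_le_div_of_nonneg_right h2 hS) hk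
  have e : (1 - p) * (1 - k * (1 - M1 / S)) + p * (1 - k * (1 - M0 / S)) =
      1 - k + k * (((1 - p) * M1 + p * M0) / S) := by ring
  rw [e]
  linarith

end Pool.Agent.Lib.MP_9cc147_pr.AllU.E
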