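import Pool.Agent.Lib.MP_9cc147_pr.U.EDefs
import Pool.Agent.Lib.MP_9cc147_pr.U.EUpd

/-! Exceptional phase: the state after a failure. -/

open Finset

namespace Pool.Agent.Lib.MP_9cc147_pr.AllU.E

variable {n : ℕ}

theorem failSt : FailSt := by
  intro P n J j σ z p0 hP hc h0 hlt hz
  have hH : (0 : ℝ) ≤ 40000 * P.g := by positivity
  have hA : 0 ≤ kap P.g ^ 256 * P.al := (Par.A_pos hP).le
  have h12 : σ.ρ p0 ≤ 12 * P.G ^ j := by omega
  have gr : Grow σ.ρ (rhoF σ.ρ p0 (P.G ^ j)) := grow_rhoF h0 h12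
  have le : ∀ x, σ.μ x ≤ muF σ.μ p0 (40000 * P.g) (P.G ^ j) x := le_muF hH
  have aa0 : ∀ x, 0 ≤ σ.aa P j x := fun x =>
    sum_nonneg fun y _ => mul_nonneg (hc.c0 j x y) (sq_nonneg _)
  let σ' : St n := ⟨rhoF σ.ρ p0 (P.G ^ j), muF σ.μ p0 (40000 * P.g) (P.G ^ j), σ.cb, σ.c⟩
  refine ⟨σ', ⟨⟨fun x => (hc.m0 x).trans (le x), mass_F hc.m0 hc.mass, gr.base hc.base, hc.c0,
    hc.zero, fun i i1 i2 => gr.safeL (hc.Si i i1 i2), fun i i1 i2 => ?_,
    fun i hi p hp ha => (hc.cert i hi p (gr p hp).1 ha).fail hH h12⟩, fun x hx => muF_ne ?_,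
    fun x => ?_, fun x _ => le_rfl, fun O => le_add_of_nonneg_right (add_nonneg ?_ ?_),
    fun p hp => (gr p hp).1, fun p _ => le_rhoF h12 p, fun p _ h1 => ⟨p0, ?_, ?_⟩⟩, ?_, rfl, rfl,
    le_rhoF h12, rhoF_self⟩
  · exact Reg.mono (hc.Ri i i1 i2) hA (by positivity) (fun _ => le_rfl) le
  · rintro rfl
    omega
  · have := le x
    have := hc.m0 x
    change σ.μ x ≤ 2 * muF _ _ _ _ x
    linarith
  · exact mul_nonneg (by positivity) (sum_nonneg fun x _ => aa0 x)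
  · exact div_nonneg (mul_nonneg hP.al0.le (sum_nonneg fun x _ => hc.m0 x)) (by positivity)
  · change _ ≤ rhoF _ _ _ p0
    rw [rhoF_self]
    omega
  · change _ ≤ rhoF _ _ _ p0 + _
    have := ds_tri p z p0
    rw [ds_comm p z] at this
    rw [rhoF_self]
    omega
  · change ∑ x, muF _ _ _ _ x ≤ _
    rw [sum_muF]
    push_cast
    exact le_rfl

end Pool.Agent.Lib.MP_9cc147_pr.AllU.E
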