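import Pool.Agent.Lib.MP_9cc147_pr.U.EDefs
import Pool.Agent.Lib.MP_9cc147_pr.U.EPre

/-! Exceptional phase: the final ring from the invariants. -/

open Finset

namespace Pool.Agent.Lib.MP_9cc147_pr.AllU.E

variable {n : ℕ} {g Λ Γ J : ℕ} {β al lam : ℝ} {ρ : Vx n → ℕ} {μ : Vx n → ℝ}
  {cb ct : Vx n → Vx n → ℝ} {c : ℕ → Vx n → Vx n → ℝ}

theorem fin_raw (hB : BasicStmt) (hR : RFinSt) (hP : Par (10 ^ 40) g Λ Γ β al) (hJ : 1 ≤ J)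
    (hn : 4 * Γ ^ J ≤ n) (hl : |lam| ≤ 1) (hct : ∀ x y, ct x y = cb x y + ∑ i ∈ Icc 1 J, c i x y)
    (hμ : ∀ x, 0 ≤ μ x) (hM : ∀ p, 40000 * g * (ρ p : ℝ) ≤ μ p) (base : Base ρ cb β)
    (c0 : ∀ i x y, 0 ≤ c i x y) (cJ : ∀ x y, c J x y = 0)
    (Si : ∀ i, 1 ≤ i → i < J → ∀ x y, c i x y ≠ 0 → ds x y ≤ 3 * Γ ^ i ∧
      (Λ * Γ ^ (i - 1) ≤ 200 * ds x y ∨ ∀ p, 0 < ρ p → Λ * Γ ^ (i - 1) ≤ 100 * (ds x p + ρ p)))
    (Ri : ∀ i, 1 ≤ i → i < J → ∀ O O2 : Finset (Vx n),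
      (∀ x ∈ O, ∀ y, ds x y ≤ 3100 * Γ ^ i → y ∈ O2) →
      ∑ x ∈ O, ∑ y, c i x y * min 1 (200 * (ds x y : ℝ) / ((Λ * Γ ^ (i - 1) : ℕ) : ℝ)) ^ 2 ≤
        kap g ^ 256 * al * (∑ y ∈ O2, μ y) / (Γ : ℝ) ^ i)
    (cert : ∀ p, 0 < ρ p → ∀ i < J, Γ ^ J + 100 * Γ ^ i ≤ ds (vz n) p →
      ds (vz n) p + 100 * Γ ^ i ≤ 4 * Γ ^ J → Cert ρ μ cI (Γ ^ i) p) :
    Mul lam (Gm (LamA ρ (Γ ^ J)) ct) (1 - lam ^ 2 / 200 * (1 - (∑ x, μ x) / (Γ : ℝ) ^ J)) := by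
  obtain ⟨g1, L1, G1⟩ := hP.pre_nat (by norm_num)
  have G0 : 0 < Γ := by omega
  have S0 : (0 : ℝ) < (Γ : ℝ) ^ J := by exact_mod_cast Nat.pow_pos G0
  have m0 : 0 ≤ ∑ x, μ x := sum_nonneg fun x _ => hμ x
  obtain ⟨b1, b2, -⟩ := hB lam _ (Gm (LamA ρ (Γ ^ J)) ct)
  have l0 : 0 ≤ lam ^ 2 / 200 := by positivity
  rcases le_total (∑ x, μ x) ((Γ : ℝ) ^ J) with hl1 | hl1
  · have e : Γ ^ J = Γ * Γ ^ (J - 1) := by rw [← pow_succ', Nat.sub_add_cancel hJ]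
    obtain ⟨lo, l1, l2, shl, sig⟩ := fin_pre (z := vz n) hP (by norm_num) (Nat.pow_pos G0) e rfl hμ hM
      (by exact_mod_cast hl1)
    have lev : ∀ i < J, 100 * Γ ^ i ≤ Λ * Γ ^ (J - 1) := fun i hi =>
      Nat.mul_le_mul (by omega) (Nat.pow_le_pow_right G0 (by omega))
    have vs : 10000 * (Λ * Γ ^ (J - 1)) ≤ Γ ^ J := by
      rw [e, ← mul_assoc]; exact Nat.mul_le_mul_right _ G1
    refine b2 _ _ ?_ (hR n g Λ Γ J _ _ _ β al ((Γ : ℝ) ^ J) 0 lam ρ μ cb ct c _ hP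
      ⟨hJ, rfl, hct, shl, by exact_mod_cast sig, ?_, le_rfl, by omega, base, fun x y h => ?_, c0,
        fun i i1 i2 x y h => ?_, Ri, by simp [cJ], ?_, fun p p0 p1 p2 i hi => ?_,
        fun x hx => by omega, hn⟩ (by omega) hl)
    · have : 0 ≤ (∑ x, μ x) / (Γ : ℝ) ^ J := by positivity
      nlinarith
    · have a1 : (Γ : ℝ) ^ (J - 1) ≤ (Γ : ℝ) ^ J :=
        pow_le_pow_right₀ (by exact_mod_cast G0) (by omega)
      have a2 : (0 : ℝ) ≤ (Γ : ℝ) ^ (J - 1) := by positivity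
      nlinarith [cI_le]
    · exact (base.safe x y h).imp_right fun a => by omega
    · rcases i2.lt_or_eq with i3 | rfl
      · exact Si i i1 i3 x y h
      · exact absurd (cJ x y) h
    · have := one_le_kap g
      have := hP.al0
      positivity
    · have := lev i hi
      exact cert p p0 i hi (by omega) (by omega)
  · refine b2 _ _ ?_ b1
    have : 1 ≤ (∑ x, μ x) / (Γ : ℝ) ^ J := (one_le_div S0).2 hl1
    nlinarith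

theorem lastSt (hB : BasicStmt) : RFinSt → LastSt :=
  fun hR _ _ _ _ _ hP hJ hn hl h h0 =>
    fin_raw hB hR hP hJ hn hl (fun _ _ => rfl) h.m0 h.mass h.base h.c0 h0
      (fun i i1 i2 => h.Si i i1 i2.le) h.Ri fun p p0 i hi a1 a2 => h.cert i hi p p0 ⟨a1, a2⟩

end Pool.Agent.Lib.MP_9cc147_pr.AllU.E
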