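import Pool.Agent.Lib.MP_9cc147_pr.U.ERing0

/-! Exceptional phase: the ring estimate and the two uses of a ring. -/

open Finset

namespace Pool.Agent.Lib.MP_9cc147_pr.AllU.E

variable {n : ℕ} {g Λ Γ j v R S : ℕ} {β al mt Aj lam : ℝ} {z : Vx n} {ρ : Vx n → ℕ}
  {μ : Vx n → ℝ} {cb ct : Vx n → Vx n → ℝ} {c : ℕ → Vx n → Vx n → ℝ} {Sh Nt : Finset (Vx n)}
  {W : Type} [Fintype W] {Nw : W → Finset (Vx n)} {pt : W → Vx n}

/-- inner product of two kinks in one window -/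
noncomputable def SS (z : Vx n) (ρ : Vx n → ℕ) (A : Finset (Vx n)) (R v : ℕ)
    (c : Vx n → Vx n → ℝ) (t t' : ℕ) : ℝ :=
  ∑ x, ∑ y, c x y * (|uu z ρ (Pz z ρ R v) A R v t x - uu z ρ (Pz z ρ R v) A R v t y| *
    |uu z ρ (Pz z ρ R v) A R v t' x - uu z ρ (Pz z ρ R v) A R v t' y|)

/-- constant of the base pairs -/
noncomputable def CB (g Γ : ℕ) : ℝ := 5 * 10 ^ 12 * (12000 * g) * Γ / cI * (4 * g + 12)

lemma CB_nonneg (g Γ : ℕ) : 0 ≤ CB g Γ := by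
  have := cI_pos
  unfold CB
  positivity

lemma CB_le (hP : Par (10 ^ 40) g Λ Γ β al) : CB g Γ ≤ 10 ^ 18 * ((Γ : ℝ) ^ 3 / cI) := by
  have a1 := hP.gR
  have a2 := hP.gG C30
  have a3 := hP.LR C30
  have a4 : (g : ℝ) ≤ Γ := by nlinarith
  have a5 := cI_pos
  calc CB g Γ = 6 * 10 ^ 16 * (g * (4 * g + 12)) * (Γ / cI) := by unfold CB; ring
    _ ≤ 6 * 10 ^ 16 * (Γ * (16 * Γ)) * (Γ / cI) := by
        have b1 : 4 * (g : ℝ) + 12 ≤ 16 * Γ := by linarith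
        gcongr
    _ = 96 * 10 ^ 16 * ((Γ : ℝ) ^ 3 / cI) := by ring
    _ ≤ _ := by gcongr; norm_num

namespace RIn

variable (hP : Par (10 ^ 40) g Λ Γ β al) (h : RIn g Λ Γ β al j v z ρ μ cb c ct Sh R S mt Aj)
  (C : Cls Nt (8 * v) Nw pt) (hN : Nt ⊆ Pz z ρ R v) (hs : ∀ a ∈ Nt, ∀ b ∈ Nt, a ≠ b → v < ds a b)
include hP h C hN hs

/-- the inner products split into base, lower levels and current level -/
lemma inner {t t' : ℕ} (ht : t ∈ GI Sh (ds z) μ (12000 * g) R v)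
    (ht' : t' ∈ GI Sh (ds z) μ (12000 * g) R v) :
    ∑ w, SS z ρ (Nw w) R v ct t t' ≤ β * CB g Γ * (kk Γ j t t' + 2) +
      ∑ i ∈ Ico 1 j, ∑ w, SS z ρ (Nw w) R v (c i) t t' + 8 * Aj := by
  have a1 := h.v1 hP
  have a2 := h.v2 hP
  have a3 := h.v3 hP
  have a4 := hP.gR
  have a5 := cI_le
  have a6 := hP.G_num C30
  have a7 := h.rad
  simp only [SS, split_lev h.j1 h.hct, sum_add_distrib]
  refine add_le_add (add_le_add ?_ sum_comm.le) ?_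
  · exact base_win (lg := g) h.base h.shl cI_pos (by linarith) (by linarith) (by linarith) ht ht'
      h.j1 (by omega) hP.logG (by omega) (by omega) (h.sig2 hP)
      (fun p hp => by
        obtain ⟨b1, b2, b3, b4⟩ := mem_Pz.1 hp
        exact ⟨b1, by omega, b3, b4, h.cert p b1 b3 b4⟩) hN hs C.sub
      fun w w' e p hp q hq => (C.far w w' e p hp q hq).le
  · refine (top_sum (h.kn hP ht) (h.kn hP ht') Nw (C.disj z R) (h.c0 j) (vi := v)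
      (s := (Γ : ℝ) ^ j) (by exact_mod_cast (by omega : 0 < v)) le_rfl (fun x y hc => ?_)
      (univ.filter fun x => ds z x ≤ 6 * Γ ^ j) fun x _ hx => ?_).trans
      (mul_le_mul_of_nonneg_left h.Aj1 (by norm_num))
    · obtain ⟨b1, b2⟩ := h.Si j h.j1 le_rfl x y hc
      rw [← h.hv] at b2
      refine ⟨by exact_mod_cast b1, b2.imp (fun b => by exact_mod_cast b) fun b p hp => ?_⟩
      exact_mod_cast b p (mem_Pz.1 hp).1
    · have b1 : ds z x < R + v + 3 * Γ ^ j := by exact_mod_cast hx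
      exact mem_filter.2 ⟨mem_univ _, by omega⟩

lemma inner_le {t t' : ℕ} (ht : t ∈ GI Sh (ds z) μ (12000 * g) R v)
    (ht' : t' ∈ GI Sh (ds z) μ (12000 * g) R v) :
    2 * ∑ w, 9 * (g + 1) * SS z ρ (Nw w) R v ct t t' ≤ ((kk Γ j t t' + 2 : ℕ) : ℝ) := by
  have a1 := h.inner hP C hN hs ht ht'
  have a4 := hP.gR
  have a2 : ∑ i ∈ Ico 1 j, ∑ w, SS z ρ (Nw w) R v (c i) t t' ≤ _ :=
    (h.low hP).all (h.kn hP ht) (h.kn hP ht') (by linarith) (mem_GI.1 ht).2.2 (mem_GI.1 ht').2.2 Nw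
      (C.disj z R)
  have a3 := h.Aj2
  have a5 := hP.A_pos
  have a6 := hP.lamA (K := 10 ^ 14) (by norm_num) (by norm_num)
  have a7 := hP.base_one C30 (K := 10 ^ 18) (by norm_num)
  have a8 : 9 * (g + 1) * (β * CB g Γ) ≤ 1 / 100 := by
    refine le_trans ?_ a7
    calc 9 * (g + 1) * (β * CB g Γ) ≤ 9 * (g + 1) * (β * (10 ^ 18 * ((Γ : ℝ) ^ 3 / cI))) := by
          have := hP.b0
          have := CB_le hP
          gcongr
      _ = _ := by ring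
  push_cast
  rw [← mul_sum]
  obtain ⟨k, hk⟩ : ∃ k : ℝ, k = kk Γ j t t' + 2 := ⟨_, rfl⟩
  have k2 : 2 ≤ k := by rw [hk]; exact le_add_of_nonneg_left (Nat.cast_nonneg _)
  rw [← hk] at a1 a2 ⊢
  obtain ⟨A, hA⟩ : ∃ A, A = kap g ^ 256 * al := ⟨_, rfl⟩
  rw [← hA] at a2 a3 a5 a6
  have b1 : A ≤ g * A := le_mul_of_one_le_left a5.le a4
  have b2 : 8 * Aj ≤ 8 * (g * A) * k := by nlinarith
  have b3 : ∑ w, SS z ρ (Nw w) R v ct t t' ≤ (β * CB g Γ + 10 ^ 12 * (g * A)) * k := by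
    have : 0 ≤ g * A * k := by positivity
    nlinarith
  calc 2 * (9 * (g + 1) * ∑ w, SS z ρ (Nw w) R v ct t t')
      ≤ 2 * (9 * (g + 1) * ((β * CB g Γ + 10 ^ 12 * (g * A)) * k)) := by gcongr
    _ = 2 * (9 * (g + 1) * (β * CB g Γ) + 9 * (g + 1) * (10 ^ 14 * (g * A)) / 100) * k := by ring
    _ ≤ 2 * (1 / 100 + 1 / 100) * k := by gcongr
    _ ≤ k := by linarith

/-- the mean of the inner products -/
lemma inner_avg : (∑ t ∈ GI Sh (ds z) μ (12000 * g) R v, ∑ t' ∈ GI Sh (ds z) μ (12000 * g) R v,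
      (∑ w, SS z ρ (Nw w) R v ct t t') * 2 ^ (kk Γ j t t' + 2)) /
        (#(GI Sh (ds z) μ (12000 * g) R v) : ℝ) ^ 2 ≤ 16 * (β * CB g Γ) + 64 * Aj +
      52428800 * (g ^ 2 * (kap g ^ 256 * al) * (∑ y ∈ Sh, μ y) * (Γ : ℝ) ^ (j - 1) / v ^ 2) := by
  have a1 := h.gi1 hP
  have a2 := h.v3 hP
  have a3 := hP.G_num C30
  have a4 := avg_two _ (by omega) (h.gi3 hP)
  have a5 := avg_two_lin _ (by omega) (h.gi3 hP)
  have a6 := (h.low hP).avg _ (fun t ht => h.kn hP ht) hP.logG (h.gi2 hP) Nw (C.disj z R)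
  rw [h.pwR] at a6
  have hG := hP.G_pos C30
  have a7 : ∑ t ∈ GI Sh (ds z) μ (12000 * g) R v, ∑ t' ∈ GI Sh (ds z) μ (12000 * g) R v,
      (∑ i ∈ Ico 1 j, ∑ w, SS z ρ (Nw w) R v (c i) t t') * (2 : ℝ) ^ (kk Γ j t t' + 2) ≤
      819200 * (g ^ 2 * (kap g ^ 256 * al) * (∑ y ∈ Sh, μ y) * (Γ : ℝ) ^ (j - 1)) :=
    le_of_mul_le_mul_left (a6.trans_eq (by ring)) hG
  have a8 : ∑ t ∈ GI Sh (ds z) μ (12000 * g) R v, ∑ t' ∈ GI Sh (ds z) μ (12000 * g) R v,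
      (∑ w, SS z ρ (Nw w) R v ct t t') * (2 : ℝ) ^ (kk Γ j t t' + 2) ≤
      ∑ t ∈ GI Sh (ds z) μ (12000 * g) R v, ∑ t' ∈ GI Sh (ds z) μ (12000 * g) R v,
        (β * CB g Γ * (((kk Γ j t t' : ℝ) + 2) * 2 ^ (kk Γ j t t' + 2)) +
        (∑ i ∈ Ico 1 j, ∑ w, SS z ρ (Nw w) R v (c i) t t') * (2 : ℝ) ^ (kk Γ j t t' + 2) +
        8 * Aj * 2 ^ (kk Γ j t t' + 2)) :=
    sum_le_sum fun t ht => sum_le_sum fun t' ht' =>
      (mul_le_mul_of_nonneg_right (h.inner hP C hN hs ht ht') (by positivity)).trans_eq (by ring)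
  simp only [sum_add_distrib, ← mul_sum] at a8
  have b0 : 0 ≤ β * CB g Γ := mul_nonneg hP.b0.le (CB_nonneg g Γ)
  have b1 := mul_le_mul_of_nonneg_left a5 b0
  have b2 := mul_le_mul_of_nonneg_left a4 (mul_nonneg (by norm_num : (0 : ℝ) ≤ 8) h.Aj0)
  obtain ⟨N, hN'⟩ : ∃ N : ℝ, N = #(GI Sh (ds z) μ (12000 * g) R v) := ⟨_, rfl⟩
  have c1 : (v : ℝ) ≤ 8 * N := by rw [hN']; exact_mod_cast a1
  have v0 : (0 : ℝ) < v := by exact_mod_cast (by omega : 0 < v)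
  have N0 : 0 < N := by linarith
  rw [← hN'] at b1 b2 ⊢
  obtain ⟨X, hX⟩ : ∃ X : ℝ, X = g ^ 2 * (kap g ^ 256 * al) * (∑ y ∈ Sh, μ y) * (Γ : ℝ) ^ (j - 1) :=
    ⟨_, rfl⟩
  have X0 : 0 ≤ X := by
    rw [hX]
    exact mul_nonneg (mul_nonneg (mul_nonneg (sq_nonneg _) hP.A_pos.le)
      (sum_nonneg fun y _ => h.shl.m0 y)) (h.s1R hP).le
  rw [← hX] at a7 ⊢
  have c2 : X ≤ 64 * (X / v ^ 2) * N ^ 2 :=
    calc X = X / v ^ 2 * v ^ 2 := by field_simp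
      _ ≤ X / v ^ 2 * (8 * N) ^ 2 := by gcongr
      _ = _ := by ring
  rw [div_le_iff₀ (by positivity)]
  linarith

omit C in
lemma nt : Nt.card * (cI * (Γ : ℝ) ^ (j - 1)) ≤ ∑ y ∈ Sh, μ y := by
  have a1 := h.v1 hP
  have a2 := hP.gR
  have a3 := cI_le
  have a4 := h.s1 hP
  have a5 := h.j1
  have := h.shl.nt_card (s := Γ ^ (j - 1)) cI_pos.le (by linarith) a4 (by omega) hs fun p hp => by
    obtain ⟨b1, -, b3, b4⟩ := mem_Pz.1 (hN hp)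
    exact ⟨b3, b4, h.cert p b1 b3 b4 _ (by omega)⟩
  exact_mod_cast this

omit C in
lemma ntc {a : ℕ} (ha : a ≤ Nt.card) : (a : ℝ) ≤ Γ / cI :=
  le_trans (by exact_mod_cast ha)
    (hP.card_le C30 (h.s1R hP) ((h.nt hP hN hs).trans h.sig) (h.pwR ▸ h.mt2))

/-- the springs and the total of the new weights -/
lemma springs (hW : Fintype.card W ≤ Nt.card) : ∃ bs : W → ℝ, (∀ w, 0 ≤ bs w) ∧
    (∀ w, ∑ t : GI Sh (ds z) μ (12000 * g) R v, ∑ t' : GI Sh (ds z) μ (12000 * g) R v,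
      Real.exp (9 * (g + 1) * SS z ρ (Nw w) R v ct t t') <
        (Fintype.card (GI Sh (ds z) μ (12000 * g) R v) : ℝ) ^ 2 * Real.exp (bs w)) ∧
    36 * ∑ x, ∑ y, keep (Moved z R v) ct x y * min 1 (200 * (ds x y : ℝ) / v) ^ 2 + ∑ w, bs w ≤
      1000 * g * Aj + al * mt / (Γ : ℝ) ^ j := by
  have a1 := h.gi1 hP
  have a2 := h.v3 hP
  have g1 := hP.gR
  have : Nonempty (GI Sh (ds z) μ (12000 * g) R v) := (card_pos.1 (by omega)).to_subtype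
  obtain ⟨bs, b1, b2, b3⟩ := ex_bs (I := GI Sh (ds z) μ (12000 * g) R v)
    (fun w t t' => 9 * (g + 1) * SS z ρ (Nw w) R v ct t t') (fun t t' => kk Γ j t t' + 2) hP.b0
    (fun w t t' => mul_nonneg (by positivity) (sum_nonneg fun x _ => sum_nonneg fun y _ =>
      mul_nonneg (h.ct0 x y) (by positivity))) fun t t' => h.inner_le hP C hN hs t.2 t'.2
  refine ⟨bs, b1, b2, ?_⟩
  have e1 : ∑ t : GI Sh (ds z) μ (12000 * g) R v, ∑ t' : GI Sh (ds z) μ (12000 * g) R v,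
      (∑ w, 9 * (g + 1) * SS z ρ (Nw w) R v ct t t') * (2 : ℝ) ^ (kk Γ j t t' + 2) =
      9 * (g + 1) * ∑ t ∈ GI Sh (ds z) μ (12000 * g) R v, ∑ t' ∈ GI Sh (ds z) μ (12000 * g) R v,
        (∑ w, SS z ρ (Nw w) R v ct t t') * 2 ^ (kk Γ j t t' + 2) := by
    rw [mul_sum, ← sum_coe_sort (GI Sh (ds z) μ (12000 * g) R v)]
    refine sum_congr rfl fun t _ => ?_
    rw [mul_sum, ← sum_coe_sort (GI Sh (ds z) μ (12000 * g) R v)]
    refine sum_congr rfl fun t' _ => ?_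
    rw [← mul_sum]
    ring
  rw [e1, Fintype.card_coe, mul_div_assoc] at b3
  have c1 := mul_le_mul_of_nonneg_left (h.inner_avg hP C hN hs)
    (by positivity : (0 : ℝ) ≤ 9 * (g + 1))
  have c2 := h.moved hP
  have c3 := mul_le_mul_of_nonneg_left (h.ntc hP hN hs hW) hP.b0.le
  have c4 := hP.lev_term C30 (K := 2 * 10 ^ 8) (by norm_num) (by norm_num) (h.s1R hP) (h.mt0 hP) h.sig
  have c5 := hP.base_term C30 (K := 10 ^ 20) (by norm_num) (h.s1R hP) h.mt1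
  rw [← h.vR, ← h.pwR] at c4
  rw [← h.pwR] at c5
  have hG := hP.GR C30
  have hc := cI_pos
  have hb := hP.b0
  obtain ⟨Y, hY⟩ : ∃ Y : ℝ, Y = kap g ^ 256 * al * (∑ y ∈ Sh, μ y) * (Γ : ℝ) ^ (j - 1) / v ^ 2 :=
    ⟨_, rfl⟩
  have Y0 : 0 ≤ Y := by
    rw [hY]
    exact div_nonneg (mul_nonneg (mul_nonneg hP.A_pos.le (sum_nonneg fun y _ => h.shl.m0 y))
      (h.s1R hP).le) (sq_nonneg _)
  have e2 : g ^ 2 * (kap g ^ 256 * al) * (∑ y ∈ Sh, μ y) * (Γ : ℝ) ^ (j - 1) / v ^ 2 = g ^ 2 * Y := by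
    rw [hY]; ring
  have e3 : 9 * (g + 1) * g ^ 2 * (kap g ^ 256 * al) * (∑ y ∈ Sh, μ y) * (Γ : ℝ) ^ (j - 1) / v ^ 2 =
      9 * (g + 1) * (g ^ 2 * Y) := by rw [hY]; ring
  rw [e2] at c1
  rw [e3] at c4
  rw [← hY] at c2
  have d1 : Y ≤ 9 * (g + 1) * (g ^ 2 * Y) := by
    have : Y ≤ g ^ 2 * Y := le_mul_of_one_le_left Y0 (one_le_pow₀ g1)
    nlinarith
  obtain ⟨Z, hZ⟩ : ∃ Z : ℝ, Z = β * ((Γ : ℝ) ^ 3 / cI) := ⟨_, rfl⟩
  have Z0 : 0 ≤ Z := by rw [hZ]; positivity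
  have e4 : 9 * (g + 1) * β * (Γ : ℝ) ^ 3 / cI = 9 * (g + 1) * Z := by rw [hZ]; ring
  rw [e4] at c5
  have d2 : 9 * (g + 1) * (β * CB g Γ) ≤ 9 * (g + 1) * (10 ^ 18 * Z) := by
    have := mul_le_mul_of_nonneg_left (CB_le hP) hb.le
    have : β * CB g Γ ≤ 10 ^ 18 * Z := by rw [hZ]; linarith
    gcongr
  have G1 : (1 : ℝ) ≤ Γ := le_trans (by norm_num) hG
  have d3 : β * (Γ / cI) ≤ Z := by
    rw [hZ]
    have : (Γ : ℝ) ≤ Γ ^ 3 := le_self_pow₀ G1 (by norm_num)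
    gcongr
  have d4 : β * (Γ : ℝ) ^ 2 ≤ Z := by
    rw [hZ]
    refine mul_le_mul_of_nonneg_left ((pow_le_pow_right₀ G1 (by norm_num : 2 ≤ 3)).trans ?_) hb.le
    exact le_div_self (by positivity) hc (cI_le.trans (by norm_num))
  have d5 : Z ≤ 9 * (g + 1) * Z := le_mul_of_one_le_left Z0 (by linarith)
  have d6 : 2 * Aj ≤ g * Aj := by
    refine mul_le_mul_of_nonneg_right ?_ h.Aj0
    exact_mod_cast le_trans (by norm_num) (hP.g_big C30)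
  have d7 := h.Aj0
  nlinarith

end RIn

/-- the ring estimate -/
theorem ring_est (hP : Par (10 ^ 40) g Λ Γ β al)
    (h : RIn g Λ Γ β al j v z ρ μ cb c ct Sh R S mt Aj)
    (inn : (∀ x, ds (vz n) x ≤ S → ds z x ≤ R) ∨ ∀ x, ds (vz n) x ≤ S → R + v ≤ ds z x) :
    ∃ (Nt : Finset (Vx n)) (W : Type) (_ : Fintype W) (Nw : W → Finset (Vx n)) (pt : W → Vx n)
      (bs : W → ℝ) (t0 : GI Sh (ds z) μ (12000 * g) R v),
      Nt ⊆ Pz z ρ R v ∧ Win z ρ (Pz z ρ R v) Nt R v S ∧ Cls Nt (8 * v) Nw pt ∧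
      Nt.card * (cI * (Γ : ℝ) ^ (j - 1)) ≤ ∑ y ∈ Sh, μ y ∧ (Fintype.card W : ℝ) ≤ Γ / cI ∧
      (∀ w, 0 ≤ bs w) ∧
      36 * ∑ x, ∑ y, keep (Moved z R v) ct x y * min 1 (200 * (ds x y : ℝ) / v) ^ 2 + ∑ w, bs w ≤
        1000 * g * Aj + al * mt / (Γ : ℝ) ^ j ∧
      Ring (LamG ρ S) ct W (GI Sh (ds z) μ (12000 * g) R v) (chi z R v)
        (fun w t => uu z ρ (Pz z ρ R v) (Nw w) R v (t : ℕ)) t0 (fun w => spw z (Nw w) R v) bs g
        (1 / g) := by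
  obtain ⟨Nt, n1, n2, n3⟩ := net (Pz z ρ R v) v
  obtain ⟨W, _, Nw, pt, C, hW⟩ := exists_cls Nt (8 * v)
  obtain ⟨bs, b1, b2, b3⟩ := h.springs hP C n1 n2 hW
  have a1 := h.gi1 hP
  have a2 := h.v3 hP
  have g1 := hP.gR
  obtain ⟨t0, ht0⟩ : (GI Sh (ds z) μ (12000 * g) R v).Nonempty := card_pos.1 (by omega)
  have K := h.win hP inn n3
  refine ⟨Nt, W, inferInstance, Nw, pt, bs, ⟨t0, ht0⟩, n1, K, C, h.nt hP n1 n2,
    h.ntc hP n1 n2 hW, b1, b3, h.ct0, hP.g1, fun w t x hx => (h.kn hP t.2).uu_zero hx,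
    C.disj z R, fun w => K.cor _, fun w t => K.dif C (h.kn hP t.2) (h.kn hP ht0) (h.far hP t.2)
      (h.far hP ht0) w, K.tot C (h.kn hP ht0) (h.far hP ht0), b2, ?_, by positivity,
    (div_le_one (by linarith)).2 g1⟩
  have v0 : 0 < v := by omega
  have c1 := Qc_chi (Mv := Moved z R v) (fun w => spw z (Nw w) R v) h.ct0 (χ := chi z R v)
    fun x y hm => by_contra fun e => hm (moved_of (Nw := Nw) v0 (Or.inl e))
  have c2 := mov_chi (Moved z R v) h.ct0 z (R := R) (v := v) (by exact_mod_cast v0)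
  have c3 : 0 ≤ ∑ x, ∑ y, keep (Moved z R v) ct x y * min 1 (200 * (ds x y : ℝ) / v) ^ 2 :=
    sum_nonneg fun x _ => sum_nonneg fun y _ => mul_nonneg (keep_nonneg h.ct0 x y) (sq_nonneg _)
  have c4 := hP.small C30 h.Aj2 (x := mt / (Γ : ℝ) ^ j)
    ((div_le_one (pow_pos (hP.G_pos C30) j)).2 h.mt2)
  rw [← mul_div_assoc] at c4
  linarith

/-- the ring of a slot -/
theorem ring_step (hR : RingStmt) (hP : Par (10 ^ 40) g Λ Γ β al)
    (h : RIn g Λ Γ β al j v z ρ μ cb c ct Sh R S mt Aj)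
    (inn : ∀ x, ds (vz n) x ≤ S → R + v ≤ ds z x) {an : Vx n → Vx n → Vx n}
    (han : ∀ x y, an x y = x ∨ an x y = y) {Kp : Vx n → Vx n → Prop}
    (hK : ∀ x y, R + v ≤ ds z x → R + v ≤ ds z y → Kp x y) :
    ∃ (Nt : Finset (Vx n)) (W : Type) (_ : Fintype W) (pt : W → Vx n) (bs : W → ℝ),
      (∀ q ∈ Nt, 0 < ρ q ∧ 100 * ρ q < v ∧ R < ds z q + v ∧ ds z q ≤ R + 2 * v) ∧
      (∀ p, 0 < ρ p → 100 * ρ p < v → R < ds z p + v → ds z p ≤ R + 2 * v →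
        ∃ q ∈ Nt, ds q p ≤ v) ∧
      Nt.card * (cI * (Γ : ℝ) ^ (j - 1)) ≤ ∑ y ∈ Sh, μ y ∧ (∀ w, pt w ∈ Nt) ∧ (∀ w, 0 ≤ bs w) ∧
      (∑ x, ∑ y, newW (Moved z R v) an ct (chi z R v) pt bs z x y *
        min 1 (200 * (ds x y : ℝ) / v) ^ 2 ≤ 1000 * g * Aj + al * mt / (Γ : ℝ) ^ j) ∧
      ∀ (lam d1 d0 : ℝ) (ρ1 ρ0 : Vx n → ℕ) (c1 : Vx n → Vx n → ℝ) (p0 : Vx n),
        (∀ q ∈ Nt, 4 * v ≤ ρ1 q) → (∀ p, R + 2 * v < ds z p → ρ p ≤ ρ1 p) →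
        (∀ x y, keep Kp ct x y + newW (Moved z R v) an ct (chi z R v) pt bs z x y ≤ c1 x y) →
        (∀ p, ρ p ≤ ρ0 p) → ds z p0 + 6 * Γ ^ j ≤ ρ0 p0 →
        Mul lam (Gm (LamA ρ1 S) c1) d1 → Mul lam (Gm (LamA ρ0 S) ct) d0 →
        Mul lam (Gm (LamA ρ S) ct) ((1 - cI / (100 * (40000 * g) * Γ)) * d1 +
          cI / (100 * (40000 * g) * Γ) * d0) := by
  obtain ⟨Nt, W, _, Nw, pt, bs, t0, n1, K, C, n2, n3, b1, b2, rg⟩ := ring_est hP h (Or.inr inn)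
  have a1 := h.v2 hP
  have a2 := h.v3 hP
  have v0 : 0 < v := by omega
  have vR : (0 : ℝ) < v := by exact_mod_cast v0
  refine ⟨Nt, W, inferInstance, pt, bs, fun q hq => mem_Pz.1 (n1 hq),
    fun p p1 p2 p3 p4 => K.net p (mem_Pz.2 ⟨p1, p2, p3, p4⟩), n2, fun w => C.sub w (C.mem w), b1,
    ?_, fun lam d1 d0 ρ1 ρ0 c1 p0 r1 r2 r3 r4 r5 m1 m0 => ?_⟩
  · have c1 := total_new (Mv := Moved z R v) an h.ct0 (chi z R v) pt b1 z
      (e := fun x y => min 1 (200 * (ds x y : ℝ) / v) ^ 2) (E_sq_le_one vR)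
    have c2 := mov_chi (Moved z R v) h.ct0 z (R := R) (v := v) vR
    linarith
  · refine (hR n lam _ ct W _ _ _ t0 _ bs g _ (pp g Γ) rg
      ((hP.pp_le C30).trans (by norm_num))).2 (LamA ρ1 S) (LamA ρ0 S) c1 pt z d1 d0
      (chi_out v0 (inn _ (by rw [ds_self]; omega))) (chi_out v0 K.vl_out) (fun x y => ?_)
      (hP.pp_fail n3) (K.succ C (h.kn hP t0.2) (h.far hP t0.2) r1 fun p hp hr => ?_)
      (fun f _ => ?_) (fail_grp v0 r4 (p0 := p0) (by omega) fun x y hc hm => ?_) m1 m0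
    · exact le_trans (add_nonneg (keep_nonneg h.ct0 x y) (newW_nonneg h.ct0 _ b1 z x y)) (r3 x y)
    · rcases Nat.eq_zero_or_pos (ρ p) with e | e
      · omega
      refine r2 p ?_
      rw [mem_Pz] at hp
      by_cases hb : v ≤ 100 * ρ p
      · have := h.shl.free p e hb
        omega
      · omega
    · refine (conv (Mv := Moved z R v) (Kp := Kp) h.ct0 (fun x => ⟨chi_nonneg, chi_le_one⟩) han _
        (fun x y hm => ?_) pt bs z f).trans (sum_le_sum fun x _ => sum_le_sum fun y _ =>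
          mul_le_mul_of_nonneg_right (r3 x y) (sq_nonneg _))
      by_cases e : ds z x ≤ R ∧ ds z y ≤ R
      · exact Or.inl ⟨chi_in v0 e.1, chi_in v0 e.2⟩
      · have e' : R + v ≤ ds z x ∧ R + v ≤ ds z y := by_contra fun e' => hm ⟨e, e'⟩
        exact Or.inr ⟨hK x y e'.1 e'.2, chi_out v0 e'.1, chi_out v0 e'.2,
          fun e2 => hm (moved_of v0 (Or.inr e2))⟩
    · obtain ⟨c1, c2⟩ := h.mv_near hP hc hm
      have c3 := ds_tri p0 z x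
      have c4 := ds_tri p0 z y
      rw [ds_comm p0 z] at c3 c4
      omega

/-- the last ring -/
theorem ring_final (hB : BasicStmt) (hR : RingStmt) (hP : Par (10 ^ 40) g Λ Γ β al)
    (h : RIn g Λ Γ β al j v (vz n) ρ μ cb c ct Sh R S mt Aj) (hS : S ≤ R) (hl : |lam| ≤ 1) :
    Mul lam (Gm (LamA ρ S) ct) (1 - lam ^ 2 / 200) := by
  obtain ⟨Nt, W, _, Nw, pt, bs, t0, -, K, -, -, n3, -, -, rg⟩ :=
    ring_est hP h (Or.inl fun x hx => hx.trans hS)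
  have a2 := h.v3 hP
  have v0 : 0 < v := by omega
  have c1 := (hR n lam _ ct W _ _ _ t0 _ bs g _ (pp g Γ) rg
    ((hP.pp_le C30).trans (by norm_num))).1 hl
    (by rw [chi_out v0 K.vl_out, chi_in v0 (by rw [ds_self]; omega)]; norm_num)
    (hP.pp_fail0 n3)
  refine (hB lam _ _).2.1 _ _ ?_ c1
  have c2 := hP.final C30 (lam := lam) one_pos le_rfl
  simpa using c2

end Pool.Agent.Lib.MP_9cc147_pr.AllU.E
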