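import Pool.Agent.Lib.MP_9cc147_pr.U.EDefs
import Pool.Agent.Lib.MP_9cc147_pr.U.ERing

/-! Exceptional phase: the two ring statements. -/

namespace Pool.Agent.Lib.MP_9cc147_pr.AllU.E

theorem rStep (hR : RingStmt) : RStepSt :=
  fun _ _ _ _ _ _ _ _ _ _ _ _ _ _ _ _ _ _ _ _ _ hP h inn han hK => ring_step hR hP h inn han hK

theorem rFin (hB : BasicStmt) (hR : RingStmt) : RFinSt :=
  fun _ _ _ _ _ _ _ _ _ _ _ _ _ _ _ _ _ _ _ hP h hS hl => ring_final hB hR hP h hS hl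

end Pool.Agent.Lib.MP_9cc147_pr.AllU.E
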