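import Pool.Agent.Lib.MP_9cc147_pr.U.Defs

set_option autoImplicit false

/-! Conversion of the weights after a successful ring. -/

open Finset

namespace Pool.Agent.Lib.MP_9cc147_pr.AllU.E

open Classical

variable {n : ℕ} {W : Type} [Fintype W]

/-- the part of `c` on the pairs of `P` -/
noncomputable def keep (P : Vx n → Vx n → Prop) (c : Vx n → Vx n → ℝ) (x y : Vx n) : ℝ :=
  if P x y then c x y else 0

/-- weights `a x` on the pairs `(x, z)` -/
noncomputable def star (z : Vx n) (a : Vx n → ℝ) (x y : Vx n) : ℝ := if y = z then a x else 0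

/-- star weight collected by the anchor `x` -/
noncomputable def anW (Mv : Vx n → Vx n → Prop) (an : Vx n → Vx n → Vx n) (c : Vx n → Vx n → ℝ)
    (χ : Vx n → ℝ) (x : Vx n) : ℝ :=
  ∑ a, ∑ b, if an a b = x then 18 * keep Mv c a b * (χ a - χ b) ^ 2 else 0

/-- spring weight at `x` -/
noncomputable def ptW (pt : W → Vx n) (bs : W → ℝ) (x : Vx n) : ℝ :=
  ∑ w, if pt w = x then bs w else 0

/-- the new weights of the current level -/
noncomputable def newW (Mv : Vx n → Vx n → Prop) (an : Vx n → Vx n → Vx n) (c : Vx n → Vx n → ℝ)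
    (χ : Vx n → ℝ) (pt : W → Vx n) (bs : W → ℝ) (z : Vx n) (x y : Vx n) : ℝ :=
  18 * keep Mv c x y + star z (fun x => anW Mv an c χ x + ptW pt bs x) x y

theorem keep_nonneg {P : Vx n → Vx n → Prop} {c : Vx n → Vx n → ℝ} (h : ∀ x y, 0 ≤ c x y)
    (x y : Vx n) : 0 ≤ keep P c x y := by
  unfold keep
  split_ifs
  exacts [h x y, le_rfl]

theorem keep_le {P : Vx n → Vx n → Prop} {c : Vx n → Vx n → ℝ} (h : ∀ x y, 0 ≤ c x y)
    (x y : Vx n) : keep P c x y ≤ c x y := by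
  unfold keep
  split_ifs
  exacts [le_rfl, h x y]

theorem keep_ne {P : Vx n → Vx n → Prop} {c : Vx n → Vx n → ℝ} {x y : Vx n}
    (h : keep P c x y ≠ 0) : P x y ∧ c x y ≠ 0 := by
  unfold keep at h
  split_ifs at h with p
  exacts [⟨p, h⟩, absurd rfl h]

theorem keep_add (P : Vx n → Vx n → Prop) (c c' : Vx n → Vx n → ℝ) (x y : Vx n) :
    keep P (fun x y => c x y + c' x y) x y = keep P c x y + keep P c' x y := by
  unfold keep
  split_ifs <;> simp

theorem keep_sum {ι : Type} (s : Finset ι) (P : Vx n → Vx n → Prop) (c : ι → Vx n → Vx n → ℝ)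
    (x y : Vx n) : keep P (fun x y => ∑ i ∈ s, c i x y) x y = ∑ i ∈ s, keep P (c i) x y := by
  unfold keep
  split_ifs <;> simp

theorem anW_nonneg {Mv : Vx n → Vx n → Prop} {an : Vx n → Vx n → Vx n} {c : Vx n → Vx n → ℝ}
    (h : ∀ x y, 0 ≤ c x y) (χ : Vx n → ℝ) (x : Vx n) : 0 ≤ anW Mv an c χ x :=
  sum_nonneg fun a _ => sum_nonneg fun b _ => by
    have := keep_nonneg (P := Mv) h a b
    split_ifs <;> positivity

theorem ptW_nonneg {pt : W → Vx n} {bs : W → ℝ} (h : ∀ w, 0 ≤ bs w) (x : Vx n) :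
    0 ≤ ptW pt bs x := sum_nonneg fun w _ => by
  split_ifs
  exacts [h w, le_rfl]

theorem newW_nonneg {Mv : Vx n → Vx n → Prop} {an : Vx n → Vx n → Vx n} {c : Vx n → Vx n → ℝ}
    (h : ∀ x y, 0 ≤ c x y) (χ : Vx n → ℝ) {pt : W → Vx n} {bs : W → ℝ} (hb : ∀ w, 0 ≤ bs w)
    (z x y : Vx n) : 0 ≤ newW Mv an c χ pt bs z x y := by
  have h1 := keep_nonneg (P := Mv) h x y
  have h2 := anW_nonneg (Mv := Mv) (an := an) h χ x
  have h3 := ptW_nonneg (pt := pt) hb x
  unfold newW star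
  split_ifs <;> positivity

theorem anW_ne {Mv : Vx n → Vx n → Prop} {an : Vx n → Vx n → Vx n} {c : Vx n → Vx n → ℝ}
    {χ : Vx n → ℝ} {x : Vx n} (h : anW Mv an c χ x ≠ 0) :
    ∃ a b, Mv a b ∧ c a b ≠ 0 ∧ χ a ≠ χ b ∧ an a b = x := by
  obtain ⟨a, _, h1⟩ := exists_ne_zero_of_sum_ne_zero h
  obtain ⟨b, _, h2⟩ := exists_ne_zero_of_sum_ne_zero h1
  by_cases e : an a b = x
  · rw [if_pos e] at h2
    have h3 := keep_ne (right_ne_zero_of_mul (left_ne_zero_of_mul h2))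
    exact ⟨a, b, h3.1, h3.2, fun e' => h2 (by rw [e']; ring), e⟩
  · exact absurd (if_neg e) h2

theorem ptW_ne {pt : W → Vx n} {bs : W → ℝ} {x : Vx n} (h : ptW pt bs x ≠ 0) : ∃ w, pt w = x := by
  obtain ⟨w, _, h1⟩ := exists_ne_zero_of_sum_ne_zero h
  by_contra hn
  exact h1 (if_neg fun e => hn ⟨w, e⟩)

/-- the pairs that carry new weight -/
theorem newW_ne {Mv : Vx n → Vx n → Prop} {an : Vx n → Vx n → Vx n} {c : Vx n → Vx n → ℝ}
    {χ : Vx n → ℝ} {pt : W → Vx n} {bs : W → ℝ} {z x y : Vx n}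
    (h : newW Mv an c χ pt bs z x y ≠ 0) : (Mv x y ∧ c x y ≠ 0) ∨ (y = z ∧
      ((∃ a b, Mv a b ∧ c a b ≠ 0 ∧ χ a ≠ χ b ∧ an a b = x) ∨ ∃ w, pt w = x)) := by
  by_cases h1 : keep Mv c x y = 0
  · right
    unfold newW star at h
    rw [h1, mul_zero, zero_add] at h
    split_ifs at h with e
    · refine ⟨e, ?_⟩
      beta_reduce at h
      by_cases h2 : anW Mv an c χ x = 0
      · rw [h2, zero_add] at h
        exact Or.inr (ptW_ne h)
      · exact Or.inl (anW_ne h2)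
    · exact absurd rfl h
  · exact Or.inl (keep_ne h1)

theorem sum_anW (Mv : Vx n → Vx n → Prop) (an : Vx n → Vx n → Vx n) (c : Vx n → Vx n → ℝ)
    (χ g : Vx n → ℝ) : ∑ x, anW Mv an c χ x * g x =
      ∑ a, ∑ b, 18 * keep Mv c a b * (χ a - χ b) ^ 2 * g (an a b) := by
  simp only [anW, sum_mul]
  rw [sum_comm]
  refine sum_congr rfl fun a _ => ?_
  rw [sum_comm]
  refine sum_congr rfl fun b _ => ?_
  simp only [ite_mul, zero_mul, sum_ite_eq, mem_univ, if_true]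

theorem sum_ptW (pt : W → Vx n) (bs : W → ℝ) (g : Vx n → ℝ) :
    ∑ x, ptW pt bs x * g x = ∑ w, bs w * g (pt w) := by
  simp only [ptW, sum_mul]
  rw [sum_comm]
  refine sum_congr rfl fun w _ => ?_
  simp only [ite_mul, zero_mul, sum_ite_eq, mem_univ, if_true]

theorem sum_newW (Mv : Vx n → Vx n → Prop) (an : Vx n → Vx n → Vx n) (c : Vx n → Vx n → ℝ)
    (χ : Vx n → ℝ) (pt : W → Vx n) (bs : W → ℝ) (z : Vx n) (g : Vx n → Vx n → ℝ) :
    ∑ x, ∑ y, newW Mv an c χ pt bs z x y * g x y = 18 * ∑ x, ∑ y, keep Mv c x y * g x y +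
      ∑ a, ∑ b, 18 * keep Mv c a b * (χ a - χ b) ^ 2 * g (an a b) z + ∑ w, bs w * g (pt w) z := by
  rw [← sum_anW Mv an c χ fun x => g x z, ← sum_ptW pt bs fun x => g x z, mul_sum, ← sum_add_distrib,
    ← sum_add_distrib]
  refine sum_congr rfl fun x _ => ?_
  simp only [newW, star, add_mul, sum_add_distrib, ite_mul, zero_mul, sum_ite_eq', mem_univ, if_true,
    mul_sum, mul_assoc]
  ring

/-- total of the new weights against a function with values in `[0,1]` -/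
theorem total_new {Mv : Vx n → Vx n → Prop} (an : Vx n → Vx n → Vx n) {c : Vx n → Vx n → ℝ}
    (h : ∀ x y, 0 ≤ c x y) (χ : Vx n → ℝ) (pt : W → Vx n) {bs : W → ℝ} (hb : ∀ w, 0 ≤ bs w)
    (z : Vx n) {e : Vx n → Vx n → ℝ} (he : ∀ x y, e x y ≤ 1) :
    ∑ x, ∑ y, newW Mv an c χ pt bs z x y * e x y ≤ 18 * ∑ x, ∑ y, keep Mv c x y * e x y +
      18 * Qc (keep Mv c) χ + ∑ w, bs w := by
  rw [sum_newW]
  have h1 : ∑ a, ∑ b, 18 * keep Mv c a b * (χ a - χ b) ^ 2 * e (an a b) z ≤ 18 * Qc (keep Mv c) χ := by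
    unfold Qc
    rw [mul_sum]
    refine sum_le_sum fun a _ => ?_
    rw [mul_sum]
    refine sum_le_sum fun b _ => ?_
    have := keep_nonneg (P := Mv) h a b
    rw [← mul_assoc]
    exact mul_le_of_le_one_right (by positivity) (he _ _)
  have h2 : ∑ w, bs w * e (pt w) z ≤ ∑ w, bs w :=
    sum_le_sum fun w _ => mul_le_of_le_one_right (hb w) (he _ _)
  linarith

omit [Fintype W] in
theorem c9_le {sp : W → Finset (Vx n)} {c : Vx n → Vx n → ℝ} (h : ∀ x y, 0 ≤ c x y) (x y : Vx n) :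
    c9 sp c x y ≤ 9 * c x y := by
  have := h x y
  unfold c9
  split_ifs <;> linarith

omit [Fintype W] in
/-- the profile only sees the moved pairs -/
theorem Qc_chi {Mv : Vx n → Vx n → Prop} (sp : W → Finset (Vx n)) {c : Vx n → Vx n → ℝ}
    (h : ∀ x y, 0 ≤ c x y) {χ : Vx n → ℝ} (hm : ∀ x y, ¬ Mv x y → χ x = χ y) :
    Qc (c9 sp c) χ ≤ 9 * Qc (keep Mv c) χ := by
  unfold Qc
  rw [mul_sum]
  refine sum_le_sum fun x _ => ?_
  rw [mul_sum]
  refine sum_le_sum fun y _ => ?_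
  by_cases m : Mv x y
  · rw [keep, if_pos m, ← mul_assoc]
    exact mul_le_mul_of_nonneg_right (c9_le h x y) (sq_nonneg _)
  · rw [hm x y m]
    simp

/-- one pair, either end as the anchor -/
theorem conv_pair {χ : Vx n → ℝ} (h0 : ∀ x, 0 ≤ χ x ∧ χ x ≤ 1) (f : Vx n → ℝ) (z x y a : Vx n)
    (ha : a = x ∨ a = y) {ε : ℝ} (hε : 0 < ε) :
    ((f x + χ x * (f z - f x)) - (f y + χ y * (f z - f y))) ^ 2 ≤
      (1 + ε) * (f x - f y) ^ 2 + (1 + 1 / ε) * ((χ x - χ y) ^ 2 * (f a - f z) ^ 2) := by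
  have key : ∀ u v t : ℝ, 0 ≤ t → t ≤ 1 →
      (t * u + v) ^ 2 ≤ (1 + ε) * u ^ 2 + (1 + 1 / ε) * v ^ 2 := by
    intro u v t t0 t1
    have a1 : 2 * (t * u) * v ≤ ε * (t * u) ^ 2 + 1 / ε * v ^ 2 := by
      have : ε * (t * u) ^ 2 + 1 / ε * v ^ 2 - 2 * (t * u) * v = (ε * (t * u) - v) ^ 2 / ε := by
        field_simp
        ring
      have h2 : 0 ≤ (ε * (t * u) - v) ^ 2 / ε := by positivity
      linarith
    have a2 : (t * u) ^ 2 ≤ u ^ 2 := by
      rw [mul_pow]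
      exact mul_le_of_le_one_left (sq_nonneg _) (by nlinarith)
    nlinarith
  rcases ha with rfl | rfl
  · have := key (f a - f y) ((χ a - χ y) * (f z - f a)) (1 - χ y) (by linarith [(h0 y).2])
      (by linarith [(h0 y).1])
    calc _ = ((1 - χ y) * (f a - f y) + (χ a - χ y) * (f z - f a)) ^ 2 := by ring
      _ ≤ _ := this
      _ = _ := by ring
  · have := key (f x - f a) ((χ x - χ a) * (f z - f a)) (1 - χ x) (by linarith [(h0 x).2])
      (by linarith [(h0 x).1])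
    calc _ = ((1 - χ x) * (f x - f a) + (χ x - χ a) * (f z - f a)) ^ 2 := by ring
      _ ≤ _ := this
      _ = _ := by ring

/-- (CONVERSION) pairs are moved, deleted (`χ = 1` at both ends) or kept (`χ = 0`, no window) -/
theorem conv {Mv Kp : Vx n → Vx n → Prop} {an : Vx n → Vx n → Vx n} {c : Vx n → Vx n → ℝ}
    (h : ∀ x y, 0 ≤ c x y) {χ : Vx n → ℝ} (h0 : ∀ x, 0 ≤ χ x ∧ χ x ≤ 1)
    (han : ∀ x y, an x y = x ∨ an x y = y) (sp : W → Finset (Vx n))
    (hm : ∀ x y, ¬ Mv x y → (χ x = 1 ∧ χ y = 1) ∨ (Kp x y ∧ χ x = 0 ∧ χ y = 0 ∧ ¬ Tch sp x y))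
    (pt : W → Vx n) (bs : W → ℝ) (z : Vx n) (f : Vx n → ℝ) :
    Qc (c9 sp c) (fun x => f x + χ x * (f z - f x)) + ∑ w, bs w * (f z - f (pt w)) ^ 2 ≤
      Qc (fun x y => keep Kp c x y + newW Mv an c χ pt bs z x y) f := by
  unfold Qc
  simp only [add_mul, sum_add_distrib]
  rw [sum_newW Mv an c χ pt bs z fun x y => (f x - f y) ^ 2]
  have e : ∑ w, bs w * (f z - f (pt w)) ^ 2 = ∑ w, bs w * (f (pt w) - f z) ^ 2 :=
    sum_congr rfl fun w _ => by ring
  rw [e, ← add_assoc, ← add_assoc, add_le_add_iff_right, mul_sum, ← sum_add_distrib,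
    ← sum_add_distrib]
  refine sum_le_sum fun x _ => ?_
  rw [mul_sum, ← sum_add_distrib, ← sum_add_distrib]
  refine sum_le_sum fun y _ => ?_
  have k1 := keep_nonneg (P := Kp) h x y
  have k2 := keep_nonneg (P := Mv) h x y
  by_cases m : Mv x y
  · have a1 := conv_pair h0 f z x y (an x y) (han x y) one_pos
    have a2 := mul_le_mul (c9_le (sp := sp) h x y) a1 (sq_nonneg _) (by linarith [h x y])
    have a3 : keep Mv c x y = c x y := if_pos m
    have a4 := mul_nonneg k1 (sq_nonneg (f x - f y))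
    rw [a3]
    norm_num at a2
    nlinarith
  · have a3 : keep Mv c x y = 0 := if_neg m
    rw [a3]
    rcases hm x y m with ⟨a1, a2⟩ | ⟨a0, a1, a2, a4⟩
    · rw [a1, a2]
      have a4 := mul_nonneg k1 (sq_nonneg (f x - f y))
      simpa using a4
    · rw [a1, a2, c9, if_neg a4, keep, if_pos a0]
      simp

end Pool.Agent.Lib.MP_9cc147_pr.AllU.E
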