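import Pool.Agent.Lib.MP_9cc147_pr.U.Defs

/-! Kink functions of a ring and their gradient bounds. -/

open Finset

namespace Pool.Agent.Lib.MP_9cc147_pr.AllU.E

variable {n : ℕ}

/-- projection to the unit interval -/
noncomputable def clp (a : ℝ) : ℝ := max 0 (min 1 a)

lemma clp_nonneg (a : ℝ) : 0 ≤ clp a := le_max_left _ _
lemma clp_le_one (a : ℝ) : clp a ≤ 1 := max_le zero_le_one (min_le_left _ _)
lemma clp_one {a : ℝ} (h : 1 ≤ a) : clp a = 1 := by
  unfold clp; rw [min_eq_left h, max_eq_right zero_le_one]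
lemma clp_zero {a : ℝ} (h : a ≤ 0) : clp a = 0 := max_eq_left ((min_le_right _ _).trans h)
lemma clp_mid {a : ℝ} (h0 : 0 ≤ a) (h1 : a ≤ 1) : clp a = a := by
  unfold clp; rw [min_eq_right h1, max_eq_right h0]
lemma clp_le {a b c : ℝ} (hc : 0 ≤ c) (h : a ≤ b + c) : clp a ≤ clp b + c := by
  unfold clp
  refine max_le (add_nonneg (le_max_left _ _) hc) ?_
  have : min 1 a ≤ min 1 b + c := by
    rcases le_total 1 b with hb | hb
    · rw [min_eq_left hb]; exact (min_le_left _ _).trans (by linarith)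
    · rw [min_eq_right hb]; exact (min_le_right _ _).trans h
  exact this.trans (by have := le_max_right 0 (min 1 b); linarith)
lemma clp_lip (a b : ℝ) : |clp a - clp b| ≤ |a - b| := by
  have h1 := clp_le (a := a) (b := b) (abs_nonneg (a - b)) (by have := le_abs_self (a - b); linarith)
  have h2 := clp_le (a := b) (b := a) (abs_nonneg (a - b)) (by have := neg_abs_le (a - b); linarith)
  rw [abs_le]; constructor <;> linarith

lemma dsR_tri (x y z : Vx n) : (ds x z : ℝ) ≤ ds x y + ds y z := by exact_mod_cast ds_tri x y z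
lemma dsR_comm (x y : Vx n) : (ds x y : ℝ) = ds y x := by rw [ds_comm]
lemma dsR_lip (z x y : Vx n) : |(ds z x : ℝ) - ds z y| ≤ ds x y := by
  have h1 := dsR_tri z x y
  have h2 := dsR_tri z y x
  rw [dsR_comm y x] at h2
  rw [abs_le]; constructor <;> linarith

/-- linear profile of the ring -/
noncomputable def chi (z : Vx n) (R v : ℝ) (x : Vx n) : ℝ := clp ((R + v - ds z x) / v)

/-- cut-off of a window -/
noncomputable def hh (A : Finset (Vx n)) (v : ℝ) (x : Vx n) : ℝ :=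
  A.fold max 0 fun p => clp (3 - ds x p / v)

/-- width of the kink -/
noncomputable def wd (ρ : Vx n → ℕ) (P : Finset (Vx n)) (v : ℝ) (x : Vx n) : ℝ :=
  P.fold min (v / 10) fun p => (ds x p : ℝ) + ρ p

/-- profile with a kink at radius `t` -/
noncomputable def psi (z : Vx n) (ρ : Vx n → ℕ) (P : Finset (Vx n)) (v t : ℝ) (x : Vx n) : ℝ :=
  clp (1 / 2 + (t - ds z x) / (2 * wd ρ P v x))

/-- the correction in a window -/
noncomputable def uu (z : Vx n) (ρ : Vx n → ℕ) (P A : Finset (Vx n)) (R v t : ℝ) (x : Vx n) : ℝ :=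
  hh A v x * (psi z ρ P v t x - chi z R v x)

open Classical in
/-- the window -/
noncomputable def spw (z : Vx n) (A : Finset (Vx n)) (R v : ℝ) : Finset (Vx n) :=
  univ.filter fun x => R < ds z x ∧ (ds z x : ℝ) < R + v ∧ ∃ p ∈ A, (ds x p : ℝ) < 3 * v

/-- standing assumptions -/
structure Kn (ρ : Vx n → ℕ) (P : Finset (Vx n)) (R v t : ℝ) : Prop where
  v10 : 10 ≤ v
  pos : ∀ p ∈ P, 0 < ρ p
  lo : R + v / 3 ≤ t
  hi : t ≤ R + 2 * v / 3

variable {z x y p : Vx n} {ρ : Vx n → ℕ} {P A : Finset (Vx n)} {R v t : ℝ}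

lemma mem_spw : x ∈ spw z A R v ↔
    R < ds z x ∧ (ds z x : ℝ) < R + v ∧ ∃ p ∈ A, (ds x p : ℝ) < 3 * v := by
  simp [spw]

lemma chi_nonneg : 0 ≤ chi z R v x := clp_nonneg _
lemma chi_le_one : chi z R v x ≤ 1 := clp_le_one _
lemma chi_one (hv : 0 < v) (h : (ds z x : ℝ) ≤ R) : chi z R v x = 1 :=
  clp_one (by rw [le_div_iff₀ hv]; linarith)
lemma chi_zero (hv : 0 < v) (h : R + v ≤ ds z x) : chi z R v x = 0 :=
  clp_zero (div_nonpos_of_nonpos_of_nonneg (by linarith) hv.le)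
lemma chi_lip (hv : 0 < v) (x y : Vx n) : |chi z R v x - chi z R v y| ≤ ds x y / v := by
  refine (clp_lip _ _).trans ?_
  rw [← sub_div, abs_div, abs_of_pos hv]
  refine div_le_div_of_nonneg_right ?_ hv.le
  have : R + v - (ds z x : ℝ) - (R + v - ds z y) = -((ds z x : ℝ) - ds z y) := by ring
  rw [this, abs_neg]
  exact dsR_lip z x y

lemma hh_nonneg : 0 ≤ hh A v x := (le_fold_max _).2 (Or.inl le_rfl)
lemma hh_le_one : hh A v x ≤ 1 := (fold_max_le _).2 ⟨zero_le_one, fun _ _ => clp_le_one _⟩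
lemma hh_one (hv : 0 < v) (hp : p ∈ A) (h : (ds x p : ℝ) ≤ 2 * v) : hh A v x = 1 := by
  refine le_antisymm hh_le_one ((le_fold_max _).2 (Or.inr ⟨p, hp, (clp_one ?_).ge⟩))
  have : (ds x p : ℝ) / v ≤ 2 := by rw [div_le_iff₀ hv]; exact h
  linarith
lemma hh_zero (hv : 0 < v) (h : ∀ p ∈ A, 3 * v ≤ ds x p) : hh A v x = 0 := by
  refine le_antisymm ((fold_max_le _).2 ⟨le_rfl, fun p hp => (clp_zero ?_).le⟩) hh_nonneg
  have : 3 ≤ (ds x p : ℝ) / v := by rw [le_div_iff₀ hv]; exact h p hp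
  linarith
lemma hh_le (hv : 0 < v) (x y : Vx n) : hh A v x ≤ hh A v y + ds x y / v := by
  have h0 : 0 ≤ (ds x y : ℝ) / v := by positivity
  refine (fold_max_le _).2 ⟨add_nonneg hh_nonneg h0, fun p hp => ?_⟩
  have h1 : clp (3 - ds y p / v) ≤ hh A v y := (le_fold_max _).2 (Or.inr ⟨p, hp, le_rfl⟩)
  have h2 : (ds y p : ℝ) / v ≤ ds x y / v + ds x p / v := by
    rw [← add_div]
    refine div_le_div_of_nonneg_right ?_ hv.le
    rw [dsR_comm x y]; exact dsR_tri y x p
  have h3 := clp_le (a := 3 - ds x p / v) (b := 3 - ds y p / v) h0 (by linarith)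
  linarith
lemma hh_lip (hv : 0 < v) (x y : Vx n) : |hh A v x - hh A v y| ≤ ds x y / v := by
  have h1 := hh_le (A := A) hv x y
  have h2 := hh_le (A := A) hv y x
  rw [dsR_comm y x] at h2
  rw [abs_le]; constructor <;> linarith

/-- a small pin near the window centres -/
lemma hh_pin1 (hv : 0 < v) {q : Vx n} (hq : q ∈ A) (h : (ds p q : ℝ) ≤ v) (hρ : (ρ p : ℝ) ≤ v)
    (hx : ds p x ≤ ρ p) : hh A v x = 1 := by
  refine hh_one hv hq ?_
  have h1 := dsR_tri x p q
  have h2 : (ds p x : ℝ) ≤ ρ p := by exact_mod_cast hx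
  rw [dsR_comm x p] at h1
  linarith
/-- a small pin far from the window centres -/
lemma hh_pin0 (hv : 0 < v) (h : ∀ q ∈ A, 4 * v ≤ ds p q) (hρ : (ρ p : ℝ) ≤ v)
    (hx : ds p x ≤ ρ p) : hh A v x = 0 := by
  refine hh_zero hv fun q hq => ?_
  have h1 := dsR_tri p x q
  have h2 : (ds p x : ℝ) ≤ ρ p := by exact_mod_cast hx
  have h3 := h q hq
  linarith

lemma spw_disj {A' : Finset (Vx n)} (h : ∀ p ∈ A, ∀ q ∈ A', 6 * v ≤ ds p q) :
    Disjoint (spw z A R v) (spw z A' R v) := by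
  rw [Finset.disjoint_left]
  intro x h1 h2
  obtain ⟨-, -, p, hp, h1⟩ := mem_spw.1 h1
  obtain ⟨-, -, q, hq, h2⟩ := mem_spw.1 h2
  have h3 := dsR_tri p x q
  have h4 := h p hp q hq
  rw [dsR_comm p x] at h3
  linarith

lemma wd_le : wd ρ P v x ≤ v / 10 := (fold_min_le _).2 (Or.inl le_rfl)
lemma wd_le_pin (hp : p ∈ P) : wd ρ P v x ≤ ds x p + ρ p :=
  (fold_min_le _).2 (Or.inr ⟨p, hp, le_rfl⟩)
lemma le_wd {c : ℝ} (h1 : c ≤ v / 10) (h2 : ∀ p ∈ P, c ≤ ds x p + ρ p) : c ≤ wd ρ P v x :=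
  (le_fold_min _).2 ⟨h1, h2⟩
lemma wd_eq (h : wd ρ P v x < v / 10) : ∃ p ∈ P, wd ρ P v x = ds x p + ρ p := by
  rcases (fold_min_le (wd ρ P v x)).1 (le_refl (wd ρ P v x)) with h1 | ⟨p, hp, h1⟩
  · exact absurd h1 (not_le.2 h)
  · exact ⟨p, hp, le_antisymm (wd_le_pin hp) h1⟩
lemma one_le_wd (hv : 10 ≤ v) (h : ∀ p ∈ P, 0 < ρ p) : 1 ≤ wd ρ P v x := by
  refine le_wd (by linarith) fun p hp => ?_
  have h1 : (1 : ℝ) ≤ ρ p := by exact_mod_cast h p hp
  have h2 : (0 : ℝ) ≤ ds x p := Nat.cast_nonneg _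
  linarith
lemma wd_le_add (x y : Vx n) : wd ρ P v x ≤ wd ρ P v y + ds x y := by
  have h0 : (0 : ℝ) ≤ ds x y := Nat.cast_nonneg _
  have : wd ρ P v x - ds x y ≤ wd ρ P v y := by
    refine le_wd (by have := wd_le (ρ := ρ) (P := P) (v := v) (x := x); linarith) fun p hp => ?_
    have h1 := wd_le_pin (ρ := ρ) (v := v) (x := x) hp
    have h2 := dsR_tri x y p
    linarith
  linarith
lemma wd_lip (x y : Vx n) : |wd ρ P v x - wd ρ P v y| ≤ ds x y := by
  have h1 := wd_le_add (ρ := ρ) (P := P) (v := v) x y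
  have h2 := wd_le_add (ρ := ρ) (P := P) (v := v) y x
  rw [dsR_comm y x] at h2
  rw [abs_le]; constructor <;> linarith

lemma kink_one {a w : ℝ} (hw : 0 < w) (h : w ≤ a) : clp (1 / 2 + a / (2 * w)) = 1 := by
  refine clp_one ?_
  have : 1 / 2 ≤ a / (2 * w) := by rw [le_div_iff₀ (by positivity)]; linarith
  linarith
lemma kink_zero {a w : ℝ} (hw : 0 < w) (h : a ≤ -w) : clp (1 / 2 + a / (2 * w)) = 0 := by
  refine clp_zero ?_
  have : a / (2 * w) ≤ -(1 / 2) := by rw [div_le_iff₀ (by positivity)]; linarith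
  linarith
lemma kink_eq {a w : ℝ} (hw : 0 < w) : clp (1 / 2 + a / (2 * w)) = 1 / 2 + a / (2 * max w |a|) := by
  rcases le_total w a with h | h
  · have ha : 0 < a := hw.trans_le h
    rw [kink_one hw h, abs_of_pos ha, max_eq_right h]
    field_simp
    norm_num
  rcases le_total a (-w) with h' | h'
  · have ha : a < 0 := by linarith
    have ha' : a ≠ 0 := ha.ne
    rw [kink_zero hw h', abs_of_neg ha, max_eq_right (by linarith)]
    field_simp
    norm_num
  · rw [max_eq_left (abs_le.2 ⟨h', h⟩)]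
    have h1 : -(1 / 2) ≤ a / (2 * w) := by rw [le_div_iff₀ (by positivity)]; linarith
    have h2 : a / (2 * w) ≤ 1 / 2 := by rw [div_le_iff₀ (by positivity)]; linarith
    exact clp_mid (by linarith) (by linarith)
lemma kink_lip {a w a' w' d : ℝ} (hw : 0 < w) (hw' : 0 < w') (h1 : |a - a'| ≤ d)
    (h2 : |w - w'| ≤ d) :
    |clp (1 / 2 + a / (2 * w)) - clp (1 / 2 + a' / (2 * w'))| ≤ d / max w |a| := by
  rw [kink_eq hw, kink_eq hw']
  have hM : 0 < max w |a| := lt_max_of_lt_left hw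
  have hM' : 0 < max w' |a'| := lt_max_of_lt_left hw'
  have h3 : |max w' |a'| - max w (|a|)| ≤ d := by
    refine (abs_max_sub_max_le_max _ _ _ _).trans (max_le ?_ ?_)
    · rw [abs_sub_comm]; exact h2
    · refine (abs_abs_sub_abs_le_abs_sub _ _).trans ?_
      rw [abs_sub_comm]; exact h1
  have h4 : |a'| ≤ max w' |a'| := le_max_right _ _
  generalize max w |a| = M at hM h3 ⊢
  generalize max w' |a'| = M' at hM' h3 h4 ⊢
  have e : 1 / 2 + a / (2 * M) - (1 / 2 + a' / (2 * M')) =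
      ((a - a') + a' / M' * (M' - M)) / (2 * M) := by field_simp; ring
  have h5 : |a' / M'| ≤ 1 := by rw [abs_div, abs_of_pos hM', div_le_one hM']; exact h4
  have h6 : |a' / M' * (M' - M)| ≤ d := by
    rw [abs_mul]
    calc _ ≤ 1 * d := mul_le_mul h5 h3 (abs_nonneg _) zero_le_one
      _ = d := one_mul d
  have h7 := abs_add_le (a - a') (a' / M' * (M' - M))
  rw [e, abs_div, abs_of_pos (by positivity : 0 < 2 * M), div_le_div_iff₀ (by positivity) hM]
  nlinarith

lemma psi_nonneg : 0 ≤ psi z ρ P v t x := clp_nonneg _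
lemma psi_le_one : psi z ρ P v t x ≤ 1 := clp_le_one _

lemma abs_rad (z x y : Vx n) (t : ℝ) : |t - ds z x - (t - ds z y)| ≤ ds x y := by
  have : t - (ds z x : ℝ) - (t - ds z y) = -((ds z x : ℝ) - ds z y) := by ring
  rw [this, abs_neg]
  exact dsR_lip z x y

namespace Kn

variable (k : Kn ρ P R v t)
include k

lemma v_pos : 0 < v := by have := k.v10; linarith
lemma wd_one (x : Vx n) : 1 ≤ wd ρ P v x := one_le_wd k.v10 k.pos
lemma wd_pos (x : Vx n) : 0 < wd ρ P v x := zero_lt_one.trans_le (k.wd_one x)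

lemma psi_lip (z x y : Vx n) :
    |psi z ρ P v t x - psi z ρ P v t y| ≤ ds x y / max (wd ρ P v x) |t - ds z x| :=
  kink_lip (k.wd_pos x) (k.wd_pos y) (abs_rad z x y t) (wd_lip x y)

lemma psi_one (h : wd ρ P v x ≤ t - ds z x) : psi z ρ P v t x = 1 := kink_one (k.wd_pos x) h
lemma psi_zero (h : t - ds z x ≤ -wd ρ P v x) : psi z ρ P v t x = 0 := kink_zero (k.wd_pos x) h

lemma psi_ne (h : psi z ρ P v t x ≠ psi z ρ P v t y) :
    |t - ds z x| < wd ρ P v x + 2 * ds x y := by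
  by_contra hc
  have h0 : (0 : ℝ) ≤ ds x y := Nat.cast_nonneg _
  have h1 := abs_le.1 (abs_rad z x y t)
  have h2 := abs_le.1 (wd_lip (ρ := ρ) (P := P) (v := v) x y)
  rcases le_abs'.1 (not_lt.1 hc) with h3 | h3
  · exact h (by rw [k.psi_zero (by linarith), k.psi_zero (by linarith)])
  · exact h (by rw [k.psi_one (by linarith), k.psi_one (by linarith)])

lemma psi_eq_chi (h : (ds z x : ℝ) ≤ R ∨ R + v ≤ ds z x) : psi z ρ P v t x = chi z R v x := by
  have h1 := wd_le (ρ := ρ) (P := P) (v := v) (x := x)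
  have h2 := k.lo
  have h3 := k.hi
  have h4 := k.v_pos
  rcases h with h | h
  · rw [chi_one h4 h, k.psi_one (by linarith)]
  · rw [chi_zero h4 h, k.psi_zero (by linarith)]

lemma psi_pin (hp : p ∈ P) (h : 3 * (ρ p : ℝ) < |ds z p - t|) (hx : ds p x ≤ ρ p) :
    psi z ρ P v t x = if (ds z p : ℝ) < t then 1 else 0 := by
  have h1 := wd_le_pin (ρ := ρ) (v := v) (x := x) hp
  have h2 : (ds p x : ℝ) ≤ ρ p := by exact_mod_cast hx
  have h3 := abs_le.1 (dsR_lip z p x)
  rw [dsR_comm x p] at h1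
  split_ifs with h4
  · rw [abs_of_neg (by linarith)] at h
    exact k.psi_one (by linarith)
  · rw [abs_of_nonneg (by linarith)] at h
    exact k.psi_zero (by linarith)

lemma uu_zero (h : x ∉ spw z A R v) : uu z ρ P A R v t x = 0 := by
  unfold uu
  by_cases h1 : (ds z x : ℝ) ≤ R ∨ R + v ≤ ds z x
  · rw [k.psi_eq_chi h1, sub_self, mul_zero]
  · rw [not_or, not_le, not_le] at h1
    rw [hh_zero k.v_pos fun p hp => not_lt.1 fun h2 => h (mem_spw.2 ⟨h1.1, h1.2, p, hp, h2⟩),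
      zero_mul]

lemma uu_ne (h : uu z ρ P A R v t x ≠ uu z ρ P A R v t y) : x ∈ spw z A R v ∨ y ∈ spw z A R v := by
  by_contra hc
  rw [not_or] at hc
  exact h (by rw [k.uu_zero hc.1, k.uu_zero hc.2])

omit k in
lemma _root_.Pool.Agent.Lib.MP_9cc147_pr.AllU.E.psi_chi_abs :
    |psi z ρ P v t x - chi z R v x| ≤ 1 := by
  have h1 := psi_nonneg (z := z) (ρ := ρ) (P := P) (v := v) (t := t) (x := x)
  have h2 := psi_le_one (z := z) (ρ := ρ) (P := P) (v := v) (t := t) (x := x)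
  have h3 := chi_nonneg (z := z) (R := R) (v := v) (x := x)
  have h4 := chi_le_one (z := z) (R := R) (v := v) (x := x)
  rw [abs_le]; constructor <;> linarith

omit k in
lemma _root_.Pool.Agent.Lib.MP_9cc147_pr.AllU.E.uu_abs : |uu z ρ P A R v t x| ≤ 1 := by
  unfold uu
  rw [abs_mul, abs_of_nonneg hh_nonneg]
  exact mul_le_one₀ hh_le_one (abs_nonneg _) psi_chi_abs

omit k in
lemma _root_.Pool.Agent.Lib.MP_9cc147_pr.AllU.E.uu_two :
    |uu z ρ P A R v t x - uu z ρ P A R v t y| ≤ 2 := by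
  have h1 := abs_le.1 (uu_abs (z := z) (ρ := ρ) (P := P) (A := A) (R := R) (v := v) (t := t) (x := x))
  have h2 := abs_le.1 (uu_abs (z := z) (ρ := ρ) (P := P) (A := A) (R := R) (v := v) (t := t) (x := y))
  rw [abs_le]; constructor <;> linarith

lemma uu_lip (z : Vx n) (A : Finset (Vx n)) (x y : Vx n) :
    |uu z ρ P A R v t x - uu z ρ P A R v t y| ≤
      |psi z ρ P v t x - psi z ρ P v t y| + 2 * (ds x y / v) := by
  have e : uu z ρ P A R v t x - uu z ρ P A R v t y =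
      hh A v x * ((psi z ρ P v t x - psi z ρ P v t y) - (chi z R v x - chi z R v y)) +
        (hh A v x - hh A v y) * (psi z ρ P v t y - chi z R v y) := by unfold uu; ring
  have h1 := chi_lip (z := z) (R := R) k.v_pos x y
  have h2 := hh_lip (A := A) k.v_pos x y
  have h3 : |hh A v x * ((psi z ρ P v t x - psi z ρ P v t y) - (chi z R v x - chi z R v y))| ≤
      |psi z ρ P v t x - psi z ρ P v t y| + |chi z R v x - chi z R v y| := by
    rw [abs_mul, abs_of_nonneg hh_nonneg]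
    exact (mul_le_of_le_one_left (abs_nonneg _) hh_le_one).trans (abs_sub _ _)
  have h4 : |(hh A v x - hh A v y) * (psi z ρ P v t y - chi z R v y)| ≤ |hh A v x - hh A v y| := by
    rw [abs_mul]
    exact mul_le_of_le_one_right (abs_nonneg _) psi_chi_abs
  rw [e]
  refine (abs_add_le _ _).trans ?_
  linarith

/-- pairs of a level `i ≤ j` -/
lemma uu_lev {vi : ℝ} (h0 : 0 < vi) (hv : vi ≤ v)
    (hs : vi ≤ 200 * ds x y ∨ ∀ p ∈ P, vi ≤ 100 * (ds x p + ρ p : ℝ)) :
    |uu z ρ P A R v t x - uu z ρ P A R v t y| ≤ 2 * min 1 (200 * ds x y / vi) := by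
  have hd : (0 : ℝ) ≤ ds x y := Nat.cast_nonneg _
  rw [mul_min_of_nonneg _ _ (by norm_num : (0 : ℝ) ≤ 2), mul_one]
  refine le_min uu_two ?_
  rcases hs with hs | hs
  · have : 1 ≤ 200 * (ds x y : ℝ) / vi := by rw [le_div_iff₀ h0]; linarith
    exact uu_two.trans (by linarith)
  · have h1 : vi / 100 ≤ wd ρ P v x :=
      le_wd (by linarith) fun p hp => by have := hs p hp; linarith
    have h2 : (ds x y : ℝ) / max (wd ρ P v x) |t - ds z x| ≤ ds x y / (vi / 100) :=
      div_le_div_of_nonneg_left hd (by positivity) (h1.trans (le_max_left _ _))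
    have h3 : (ds x y : ℝ) / v ≤ ds x y / vi := div_le_div_of_nonneg_left hd h0 hv
    have h4 := k.uu_lip z A x y
    have h5 := k.psi_lip z x y
    have h6 : (ds x y : ℝ) / (vi / 100) = 100 * (ds x y / vi) := by field_simp
    have h7 : 200 * (ds x y : ℝ) / vi = 200 * (ds x y / vi) := by ring
    have h8 : 0 ≤ (ds x y : ℝ) / vi := by positivity
    linarith

/-- decay away from the kink -/
lemma uu_far (hd : 3 * (ds x y : ℝ) ≤ v) :
    |uu z ρ P A R v t x - uu z ρ P A R v t y| * |t - ds z x| ≤ 3 * ds x y := by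
  have h0 : (0 : ℝ) ≤ ds x y := Nat.cast_nonneg _
  by_cases h : uu z ρ P A R v t x = uu z ρ P A R v t y
  · rw [h, sub_self, abs_zero, zero_mul]; positivity
  have hv := k.v_pos
  have ha : |t - ds z x| ≤ v := by
    have h1 := k.lo
    have h2 := k.hi
    have h3 := abs_le.1 (dsR_lip z x y)
    rcases k.uu_ne h with h4 | h4 <;> obtain ⟨h5, h6, -⟩ := mem_spw.1 h4 <;> rw [abs_le] <;>
      constructor <;> linarith
  have hM : 0 < max (wd ρ P v x) |t - ds z x| := lt_max_of_lt_left (k.wd_pos x)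
  have h4 := k.uu_lip z A x y
  have h5 := k.psi_lip z x y
  have h6 : (ds x y : ℝ) / max (wd ρ P v x) |t - ds z x| * |t - ds z x| ≤ ds x y := by
    rw [div_mul_eq_mul_div, div_le_iff₀ hM]
    exact mul_le_mul_of_nonneg_left (le_max_right _ _) h0
  have h7 : (ds x y : ℝ) / v * |t - ds z x| ≤ ds x y := by
    rw [div_mul_eq_mul_div, div_le_iff₀ hv]
    exact mul_le_mul_of_nonneg_left ha h0
  have h8 := mul_le_mul_of_nonneg_right (h4.trans (add_le_add_left h5 _)) (abs_nonneg (t - ds z x))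
  nlinarith

/-- pairs of a level `i < j` -/
lemma uu_low {vi s : ℝ} (h0 : 0 < vi) (hvs : vi ≤ 800 * s) (hv : vi ≤ v) (hsv : 9 * s ≤ v)
    (hd : (ds x y : ℝ) ≤ 3 * s)
    (hs : vi ≤ 200 * ds x y ∨ ∀ p ∈ P, vi ≤ 100 * (ds x p + ρ p : ℝ)) :
    |uu z ρ P A R v t x - uu z ρ P A R v t y| ≤
      min 1 (200 * ds x y / vi) * (12 * s / max (6 * s) |t - ds z x|) := by
  have hs0 : 0 < s := by linarith
  have hd0 : (0 : ℝ) ≤ ds x y := Nat.cast_nonneg _
  rcases le_total |t - ds z x| (6 * s) with h | h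
  · have : 12 * s / (6 * s) = 2 := by field_simp; norm_num
    rw [max_eq_left h, this, mul_comm]
    exact k.uu_lev h0 hv hs
  · have ha : 0 < |t - ds z x| := by linarith
    rw [max_eq_right h, ← mul_div_assoc, le_div_iff₀ ha]
    refine (k.uu_far (by linarith)).trans ?_
    rw [min_mul_of_nonneg _ _ (by positivity)]
    refine le_min (by linarith) ?_
    rw [div_mul_eq_mul_div, le_div_iff₀ h0]
    nlinarith

open Classical in
/-- base pairs -/
lemma uu_base (hs : ds x y ≤ 1 ∨ ∀ p ∈ P, 100 * ds x y ≤ ds x p + ρ p) :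
    |uu z ρ P A R v t x - uu z ρ P A R v t y| ≤ ds x y * (12 / v +
      if wd ρ P v x < v / 10 ∧ |t - ds z x| ≤ 3 * wd ρ P v x then 1 / wd ρ P v x else 0) := by
  have hd : (0 : ℝ) ≤ ds x y := Nat.cast_nonneg _
  have hv := k.v_pos
  have hw := k.wd_pos x
  have h4 := k.uu_lip z A x y
  have h5 : |psi z ρ P v t x - psi z ρ P v t y| ≤ ds x y / wd ρ P v x :=
    (k.psi_lip z x y).trans (div_le_div_of_nonneg_left hd hw (le_max_left _ _))
  have h8 : 0 ≤ (ds x y : ℝ) / v := by positivity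
  have e1 : (ds x y : ℝ) * (12 / v + 1 / wd ρ P v x) = 12 * (ds x y / v) + ds x y / wd ρ P v x := by
    ring
  have e2 : (ds x y : ℝ) * (12 / v + 0) = 12 * (ds x y / v) := by ring
  split_ifs with h
  · rw [e1]; linarith
  rw [e2]
  by_cases h1 : wd ρ P v x < v / 10
  · by_cases h2 : psi z ρ P v t x = psi z ρ P v t y
    · rw [h2, sub_self, abs_zero] at h4
      linarith
    refine absurd ⟨h1, ?_⟩ h
    have h3 := k.psi_ne h2
    have h6 : (ds x y : ℝ) ≤ wd ρ P v x := by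
      rcases hs with hs | hs
      · have : (ds x y : ℝ) ≤ 1 := by exact_mod_cast hs
        exact this.trans (k.wd_one x)
      · obtain ⟨p, hp, e⟩ := wd_eq h1
        have : 100 * (ds x y : ℝ) ≤ ds x p + ρ p := by exact_mod_cast hs p hp
        linarith
    linarith
  · have e : wd ρ P v x = v / 10 := le_antisymm wd_le (not_lt.1 h1)
    have e3 : (ds x y : ℝ) / (v / 10) = 10 * (ds x y / v) := by field_simp
    rw [e, e3] at h5
    linarith

/-- the first end of a short active pair is near the window centres -/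
lemma near (hd : (ds x y : ℝ) ≤ v) (h : uu z ρ P A R v t x ≠ uu z ρ P A R v t y) :
    (∃ p ∈ A, (ds x p : ℝ) < 4 * v) ∧ R - ds x y < ds z x ∧ (ds z x : ℝ) < R + v + ds x y := by
  have hv := k.v_pos
  have h0 : (0 : ℝ) ≤ ds x y := Nat.cast_nonneg _
  have h3 := abs_le.1 (dsR_lip z x y)
  rcases k.uu_ne h with h4 | h4 <;> obtain ⟨h5, h6, p, hp, h7⟩ := mem_spw.1 h4
  · exact ⟨⟨p, hp, by linarith⟩, by linarith, by linarith⟩
  · have := dsR_tri x y p
    exact ⟨⟨p, hp, by linarith⟩, by linarith, by linarith⟩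

/-- active base pairs are short -/
lemma base_short (hA : ∀ p ∈ A, p ∈ P ∧ (ρ p : ℝ) ≤ v)
    (hs : ds x y ≤ 1 ∨ ∀ p ∈ P, 100 * ds x y ≤ ds x p + ρ p)
    (h : uu z ρ P A R v t x ≠ uu z ρ P A R v t y) : 10 * (ds x y : ℝ) ≤ v := by
  have hv := k.v10
  have h0 : (0 : ℝ) ≤ ds x y := Nat.cast_nonneg _
  rcases hs with hs | hs
  · have : (ds x y : ℝ) ≤ 1 := by exact_mod_cast hs
    linarith
  rcases k.uu_ne h with h4 | h4 <;> obtain ⟨-, -, p, hp, h7⟩ := mem_spw.1 h4 <;>
    have h1 : 100 * (ds x y : ℝ) ≤ ds x p + ρ p := by exact_mod_cast hs p (hA p hp).1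
  · have := (hA p hp).2
    linarith
  · have := (hA p hp).2
    have := dsR_tri x y p
    linarith

end Kn

end Pool.Agent.Lib.MP_9cc147_pr.AllU.E
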