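import Pool.Agent.Lib.MP_9cc147_pr.U.ECnt2
import Pool.Agent.Lib.MP_9cc147_pr.U.EKink
import Pool.Agent.Lib.MP_9cc147_pr.U.EConv

/-! Exceptional phase: the base pairs in the ring estimate. -/

open Finset

namespace Pool.Agent.Lib.MP_9cc147_pr.AllU.E

variable {n : ℕ}

lemma one_win {W : Type} [Fintype W] (f : W → ℝ) {B : ℝ} (hB : 0 ≤ B) (h1 : ∀ w, f w ≤ B)
    (h2 : ∀ w w', f w ≠ 0 → f w' ≠ 0 → w = w') : ∑ w, f w ≤ B := by
  by_cases h : ∃ w, f w ≠ 0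
  · obtain ⟨w, hw⟩ := h
    rw [sum_eq_single w (fun w' _ e => by_contra fun h' => e (h2 w' w h' hw)) (by simp)]
    exact h1 w
  · push Not at h
    simpa [h] using hB

/-- the number of dyadic scales between the distance of two radii and the width of the ring -/
lemma scales {Γ j lg : ℕ} (hΓ : 1 ≤ Γ) (hl : Γ ≤ 2 ^ lg) {v δ : ℝ} (hv : v ≤ 5 * (Γ : ℝ) ^ j) :
    v / 10 ≤ 2 ^ (lg * (((range j).filter fun i => δ < (Γ : ℝ) ^ i).card + 1) + 2) *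
      max 1 (δ / 6) := by
  set kk := ((range j).filter fun i => δ < (Γ : ℝ) ^ i).card with hkk
  have g1 : (1 : ℝ) ≤ Γ := by exact_mod_cast hΓ
  have g2 : (Γ : ℝ) ≤ 2 ^ lg := by exact_mod_cast hl
  have g3 : (Γ : ℝ) ^ (kk + 1) ≤ 2 ^ (lg * (kk + 1)) := by
    rw [pow_mul]; exact pow_le_pow_left₀ (by positivity) g2 _
  have g4 : (0 : ℝ) < 2 ^ (lg * (kk + 1)) := by positivity
  rw [pow_add _ _ 2]
  rcases le_or_gt j (kk + 1) with h | h
  · have h1 : (Γ : ℝ) ^ j ≤ (Γ : ℝ) ^ (kk + 1) := pow_le_pow_right₀ g1 h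
    have h2 := mul_le_mul_of_nonneg_left (le_max_left 1 (δ / 6)) g4.le
    linarith
  · have h1 : (Γ : ℝ) ^ (j - (kk + 1)) ≤ δ := by
      by_contra hc
      have h2 : Ico (j - (kk + 1)) j ⊆ (range j).filter fun i => δ < (Γ : ℝ) ^ i := fun i hi =>
        mem_filter.2 ⟨mem_range.2 (mem_Ico.1 hi).2,
          (not_le.1 hc).trans_le (pow_le_pow_right₀ g1 (mem_Ico.1 hi).1)⟩
      have h3 := card_le_card h2
      rw [Nat.card_Ico] at h3
      omega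
    have h2 : (Γ : ℝ) ^ j = (Γ : ℝ) ^ (kk + 1) * (Γ : ℝ) ^ (j - (kk + 1)) := by
      rw [← pow_add]; congr 1; omega
    have h3 : (Γ : ℝ) ^ (kk + 1) * (Γ : ℝ) ^ (j - (kk + 1)) ≤ 2 ^ (lg * (kk + 1)) * δ :=
      mul_le_mul g3 h1 (by positivity) g4.le
    have h4 := mul_le_mul_of_nonneg_left (le_max_right 1 (δ / 6)) g4.le
    have h5 : 0 ≤ 2 ^ (lg * (kk + 1)) * δ := le_trans (by positivity) h3
    linarith

/-- the base pairs in the inner products of the kinks, summed over the windows -/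
theorem base_win {W : Type} [Fintype W] {z : Vx n} {ρ : Vx n → ℕ} {μ : Vx n → ℝ}
    {c : Vx n → Vx n → ℝ} {β H H1 cI : ℝ} {Sh P Nt : Finset (Vx n)} {Nw : W → Finset (Vx n)}
    {R v t t' Γ j lg : ℕ} (hB : Base ρ c β) (h : Shl z ρ μ H1 Sh R v) (h0 : 0 < cI) (hH : cI ≤ H1)
    (hH1 : 1 ≤ H) (hH3 : 3 * H < H1) (ht : t ∈ GI Sh (ds z) μ H R v)
    (ht' : t' ∈ GI Sh (ds z) μ H R v) (hj : 1 ≤ j) (hΓ : 1 ≤ Γ) (hl : Γ ≤ 2 ^ lg)
    (v1 : 8002 * Γ ^ (j - 1) ≤ v) (v2 : v ≤ 5 * Γ ^ j) (hσ : ∑ y ∈ Sh, μ y ≤ (Γ : ℝ) ^ j)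
    (hP : ∀ p ∈ P, 0 < ρ p ∧ ρ p ≤ v ∧ R < ds z p + v ∧ ds z p ≤ R + 2 * v ∧
      ∀ i < j, Cert ρ μ cI (Γ ^ i) p)
    (hNt : Nt ⊆ P) (hN : ∀ a ∈ Nt, ∀ b ∈ Nt, a ≠ b → v < ds a b) (hNw : ∀ w, Nw w ⊆ Nt)
    (hW : ∀ w w', w ≠ w' → ∀ p ∈ Nw w, ∀ q ∈ Nw w', 8 * v ≤ ds p q) :
    ∑ w, ∑ x, ∑ y, c x y * (|uu z ρ P (Nw w) R v t x - uu z ρ P (Nw w) R v t y| *
        |uu z ρ P (Nw w) R v t' x - uu z ρ P (Nw w) R v t' y|) ≤
      β * (5 * 10 ^ 12 * H * Γ / cI * (4 * lg + 12)) *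
        (((range j).filter fun i => |(t : ℝ) - t'| < (Γ : ℝ) ^ i).card + 2) := by
  classical
  set kk := ((range j).filter fun i => |(t : ℝ) - t'| < (Γ : ℝ) ^ i).card with hkk
  set Cb : ℝ := 5 * 10 ^ 12 * H * Γ / cI with hCb
  have g0 : 0 < Γ ^ (j - 1) := Nat.pow_pos hΓ
  have vR : (8002 : ℝ) ≤ v := by exact_mod_cast (by omega : 8002 ≤ v)
  have hβ : 0 ≤ β :=
    (sum_nonneg fun y _ => mul_nonneg (hB.c0 z y) (sq_nonneg _)).trans (hB.mom z)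
  have kn : ∀ {s : ℕ}, s ∈ GI Sh (ds z) μ H R v → Kn ρ P R v s := fun {s} hs => by
    obtain ⟨a1, a2, -⟩ := mem_GI.1 hs
    have b1 : (3 * R + v : ℝ) ≤ 3 * s := by exact_mod_cast a1
    have b2 : (3 * s : ℝ) ≤ 3 * R + 2 * v := by exact_mod_cast a2
    exact ⟨by linarith, fun p hp => (hP p hp).1, by linarith, by linarith⟩
  let K : ℕ → Finset (Vx n) := fun s => univ.filter fun x =>
    wd ρ P v x < v / 10 ∧ |(s : ℝ) - ds z x| ≤ 3 * wd ρ P v x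
  have dy : ∀ {s : ℕ}, s ∈ GI Sh (ds z) μ H R v → Dy (K s) (wd ρ P v) Cb := fun {s} hs => by
    obtain ⟨a1, a2, a3⟩ := mem_GI.1 hs
    refine h.dy h0 hH (by linarith) hH3 a3 a1 a2 (sc := fun i => Γ ^ i) (j := j) (P := P)
      (fun u u1 u2 => ?_) (fun p hp => (hP p hp).2.2.2.2) fun x hx => ?_
    · obtain ⟨i, hi, b⟩ := lev_ex hj hΓ v1 v2 u1 u2
      exact ⟨i, hi, Nat.pow_pos hΓ, b⟩
    · obtain ⟨b1, b2⟩ := (mem_filter.1 hx).2
      obtain ⟨p, hp, e⟩ := wd_eq b1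
      exact ⟨by linarith, b2, p, hp, e.ge⟩
  have safe : ∀ x y, c x y ≠ 0 → ds x y ≤ 1 ∨ ∀ p ∈ P, 100 * ds x y ≤ ds x p + ρ p :=
    fun x y e => (hB.safe x y e).imp_right fun a p hp => a.2 p (hP p hp).1
  have nr : ∀ {s : ℕ}, s ∈ GI Sh (ds z) μ H R v → ∀ x y, c x y ≠ 0 → ∀ w,
      |uu z ρ P (Nw w) R v s x - uu z ρ P (Nw w) R v s y| ≠ 0 →
      ∃ p ∈ Nw w, ds p x < 4 * v := fun {s} hs x y e w hne => by
    have a1 := sub_ne_zero.1 (abs_ne_zero.1 hne)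
    have a2 := (kn hs).base_short (fun p hp => ⟨hNt (hNw w hp), by
      exact_mod_cast (hP p (hNt (hNw w hp))).2.1⟩) (safe x y e) a1
    have a3 : (0 : ℝ) ≤ ds x y := Nat.cast_nonneg _
    obtain ⟨⟨p, hp, a4⟩, -⟩ := (kn hs).near (by linarith) a1
    exact ⟨p, hp, by rw [ds_comm]; exact_mod_cast a4⟩
  let D : ℕ → Vx n → Vx n → ℝ := fun s x y =>
    ∑ w, |uu z ρ P (Nw w) R v s x - uu z ρ P (Nw w) R v s y|
  have D0 : ∀ s x y, |D s x y| = D s x y := fun s x y =>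
    abs_of_nonneg (sum_nonneg fun _ _ => abs_nonneg _)
  have bd : ∀ {s : ℕ}, s ∈ GI Sh (ds z) μ H R v → ∀ x y, c x y ≠ 0 →
      |D s x y| ≤ ds x y * (12 / v + if x ∈ K s then 2 / wd ρ P v x else 0) :=
    fun {s} hs x y e => by
    have w0 := (kn hs).wd_pos x
    rw [D0]
    refine one_win _ (mul_nonneg (Nat.cast_nonneg _) (add_nonneg (by positivity) ?_))
      (fun w => ((kn hs).uu_base (safe x y e)).trans (mul_le_mul_of_nonneg_left ?_
        (Nat.cast_nonneg _))) fun w w' e1 e2 => by_contra fun hne => ?_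
    · split_ifs
      · positivity
      · exact le_rfl
    · refine add_le_add le_rfl ?_
      simp only [K, mem_filter, mem_univ, true_and]
      split_ifs
      · exact div_le_div_of_nonneg_right one_le_two w0.le
      · exact le_rfl
    · obtain ⟨p, hp, a1⟩ := nr hs x y e w e1
      obtain ⟨q, hq, a2⟩ := nr hs x y e w' e2
      have a3 := hW w w' hne p hp q hq
      have a4 := ds_tri p x q
      rw [ds_comm x q] at a4
      omega
  have kw : ∀ {s : ℕ}, s ∈ GI Sh (ds z) μ H R v → ∀ x ∈ K s,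
      1 ≤ wd ρ P v x ∧ wd ρ P v x < v / 10 := fun {s} hs x hx =>
    ⟨(kn hs).wd_one x, (mem_filter.1 hx).2.1⟩
  have main := base_sum (D := D t) (D2 := D t') (K := K t) (K2 := K t')
    (Nr := univ.filter fun x => ∃ a ∈ Nt, ds a x ≤ 4 * v) (A := 12 / v) (L := v / 10)
    (d := max 1 (|(t : ℝ) - t'| / 6)) (k := lg * (kk + 1) + 2) hB.c0 hB.mom (by positivity)
    (by positivity) (dy ht) (dy ht') (kw ht) (kw ht') (fun x hx hx' => max_le (kw ht x hx).1 (by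
      have a1 := abs_le.1 (mem_filter.1 hx).2.2
      have a2 := abs_le.1 (mem_filter.1 hx').2.2
      have : |(t : ℝ) - t'| ≤ 6 * wd ρ P v x := abs_le.2 ⟨by linarith, by linarith⟩
      linarith)) (scales hΓ hl (by exact_mod_cast v2)) (bd ht) (bd ht') fun x y e hx =>
        sum_eq_zero fun w _ => by_contra fun hne => by
          obtain ⟨p, hp, a⟩ := nr ht x y e w hne
          exact hx (mem_filter.2 ⟨mem_univ _, p, hNw w hp, a.le⟩)
  have c1 : ((univ.filter fun x => ∃ a ∈ Nt, ds a x ≤ 4 * v).card : ℝ) ≤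
      Nt.card * (9 * v) ^ 2 := by
    have a1 := near_card (N := Nt) (K := univ.filter fun x => ∃ a ∈ Nt, ds a x ≤ 4 * v)
      (r := 4 * v) fun x hx => (mem_filter.1 hx).2
    have a2 : Nt.card * (2 * (4 * v) + 1) ^ 2 ≤ Nt.card * (9 * v) ^ 2 :=
      Nat.mul_le_mul_left _ (Nat.pow_le_pow_left (by omega) 2)
    exact_mod_cast a1.trans a2
  have c2 : 11664 * (Nt.card : ℝ) ≤ Cb := by
    have a1 := (h.nt_card h0.le hH g0 v1 hN fun p hp => ⟨(hP p (hNt hp)).2.2.1,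
      (hP p (hNt hp)).2.2.2.1, (hP p (hNt hp)).2.2.2.2 _ (by omega)⟩).trans hσ
    have a2 : (Γ : ℝ) ^ j = Γ * (Γ : ℝ) ^ (j - 1) := by rw [← pow_succ', Nat.sub_add_cancel hj]
    have a3 : (0 : ℝ) < (Γ : ℝ) ^ (j - 1) := by exact_mod_cast g0
    rw [a2, Nat.cast_pow, ← mul_assoc] at a1
    have a4 := le_of_mul_le_mul_right a1 a3
    have a5 : (0 : ℝ) ≤ Γ := Nat.cast_nonneg _
    rw [hCb, le_div_iff₀ h0]
    nlinarith [mul_le_mul_of_nonneg_right hH1 a5]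
  have c0 : 0 ≤ Cb := (dy ht).nonneg
  have c3 : (12 / v : ℝ) ^ 2 * (univ.filter fun x => ∃ a ∈ Nt, ds a x ≤ 4 * v).card ≤ Cb := by
    refine (mul_le_mul_of_nonneg_left c1 (sq_nonneg _)).trans (le_trans (le_of_eq ?_) c2)
    field_simp
    ring
  have c4 : 8 * (12 / v : ℝ) * Cb * (v / 10) = 48 / 5 * Cb := by field_simp; ring
  refine le_trans ?_ (main.trans ?_)
  · rw [sum_comm]
    refine sum_le_sum fun x _ => ?_
    rw [sum_comm]
    refine sum_le_sum fun y _ => ?_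
    rw [← mul_sum, D0, D0]
    refine mul_le_mul_of_nonneg_left ?_ (hB.c0 x y)
    rw [sum_mul]
    exact sum_le_sum fun w _ => mul_le_mul_of_nonneg_left (single_le_sum
      (f := fun w => |uu z ρ P (Nw w) R v t' x - uu z ρ P (Nw w) R v t' y|)
      (fun _ _ => abs_nonneg _) (mem_univ w)) (abs_nonneg _)
  · rw [mul_assoc β, c4]
    refine mul_le_mul_of_nonneg_left ?_ hβ
    push_cast
    have k0 : (0 : ℝ) ≤ kk := Nat.cast_nonneg _
    have l0 : (0 : ℝ) ≤ lg := Nat.cast_nonneg _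
    nlinarith [mul_nonneg c0 k0, mul_nonneg c0 l0]

/-- the moved base pairs start near the centre of the ring -/
theorem base_moved {z : Vx n} {c g : Vx n → Vx n → ℝ} {Mv : Vx n → Vx n → Prop} {β A : ℝ} {s : ℕ}
    (hs : 1 ≤ s) (hc : ∀ x y, 0 ≤ c x y) (hm : ∀ x, ∑ y, c x y * (ds x y : ℝ) ^ 2 ≤ β)
    (h1 : ∀ x y, c x y ≠ 0 → ds x y ≤ 1 ∨ 100 * ds x y ≤ ds z x + 2 * s)
    (h2 : ∀ x y, Mv x y → ds z x ≤ 3 * s ∨ ds z y ≤ 3 * s)
    (hg : ∀ x y, g x y ≤ (A * ds x y) ^ 2) :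
    ∑ x, ∑ y, keep Mv c x y * g x y ≤ β * (81 * (s : ℝ) ^ 2 * A ^ 2) := by
  have hβ : 0 ≤ β := (sum_nonneg fun y _ => mul_nonneg (hc z y) (sq_nonneg _)).trans (hm z)
  have a1 : ∀ x, ∑ y, keep Mv c x y * g x y ≤ if ds z x ≤ 4 * s then β * A ^ 2 else 0 := fun x => by
    split_ifs with e
    · refine le_trans (sum_le_sum fun y _ => ?_) ((sum_mul _ _ _).ge.trans
        (mul_le_mul_of_nonneg_right (hm x) (sq_nonneg A)))
      calc keep Mv c x y * g x y ≤ keep Mv c x y * (A * ds x y) ^ 2 :=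
            mul_le_mul_of_nonneg_left (hg x y) (keep_nonneg hc x y)
        _ ≤ c x y * (A * ds x y) ^ 2 := mul_le_mul_of_nonneg_right (keep_le hc x y) (sq_nonneg _)
        _ = _ := by ring
    · refine (sum_eq_zero fun y _ => mul_eq_zero_of_left (by_contra fun hne => ?_) _).le
      obtain ⟨b1, b2⟩ := keep_ne hne
      have b3 := ds_tri z y x
      rw [ds_comm y x] at b3
      rcases h1 x y b2 with b4 | b4 <;> rcases h2 x y b1 with b5 | b5 <;> omega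
  refine (sum_le_sum fun x _ => a1 x).trans ?_
  rw [← sum_filter, sum_const, nsmul_eq_mul]
  have a2 : ((univ.filter fun x => ds z x ≤ 4 * s).card : ℝ) ≤ (9 * s) ^ 2 := by
    exact_mod_cast (ball_card z (4 * s)).trans (Nat.pow_le_pow_left (by omega : _ ≤ 9 * s) 2)
  refine (mul_le_mul_of_nonneg_right a2 (mul_nonneg hβ (sq_nonneg A))).trans (le_of_eq ?_)
  ring

end Pool.Agent.Lib.MP_9cc147_pr.AllU.E
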