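import Mathlib

set_option autoImplicit false

/-! Averages over the kink positions. -/

open Finset

namespace Pool.Agent.Lib.MP_9cc147_pr.AllU.E

open Classical

/-- number of lower levels whose scale exceeds the distance of two kink positions -/
noncomputable def kk (Γ j t t' : ℕ) : ℕ := #((range j).filter fun i => |(t : ℝ) - t'| < (Γ : ℝ) ^ i)

theorem kk_le (Γ j t t' : ℕ) : kk Γ j t t' ≤ j := (card_filter_le _ _).trans_eq (card_range j)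

theorem cnt_near (I : Finset ℕ) (a : ℝ) {u : ℝ} (hu : 0 ≤ u) :
    (#(I.filter fun t : ℕ => |(t : ℝ) - a| ≤ u) : ℝ) ≤ 2 * u + 1 := by
  have h1 : #(I.filter fun t : ℕ => |(t : ℝ) - a| ≤ u) ≤ #(Icc ⌈a - u⌉ ⌊a + u⌋) := by
    refine card_le_card_of_injOn (fun t : ℕ => (t : ℤ)) (fun t ht => ?_) fun _ _ _ _ e =>
      Nat.cast_injective (R := ℤ) e
    have := abs_le.1 (mem_filter.1 ht).2
    exact mem_coe.2 (mem_Icc.2 ⟨Int.ceil_le.2 (by push_cast; linarith),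
      Int.le_floor.2 (by push_cast; linarith)⟩)
  rw [Int.card_Icc] at h1
  refine le_trans (Nat.cast_le.2 h1) ?_
  rcases le_total 0 (⌊a + u⌋ + 1 - ⌈a - u⌉) with h | h
  · rw [← Int.cast_natCast, Int.toNat_of_nonneg h]
    have a2 := Int.le_ceil (a - u)
    have a3 := Int.floor_le (a + u)
    push_cast
    linarith
  · rw [Int.toNat_of_nonpos h, Nat.cast_zero]
    positivity

theorem cnt_lt (I : Finset ℕ) (t s : ℕ) (hs : 1 ≤ s) :
    (#(I.filter fun t' : ℕ => |(t : ℝ) - t'| < s) : ℝ) ≤ 2 * s := by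
  have h0 : (1 : ℝ) ≤ s := by exact_mod_cast hs
  have h1 := cnt_near I (t : ℝ) (u := (s : ℝ) - 1) (by linarith)
  refine le_trans (Nat.cast_le.2 (card_le_card fun t' ht => ?_)) (h1.trans (by linarith))
  obtain ⟨a, b⟩ := mem_filter.1 ht
  refine mem_filter.2 ⟨a, ?_⟩
  have b1 : |(t : ℤ) - t'| < s := by exact_mod_cast b
  have b2 : |(t' : ℤ) - t| ≤ s - 1 := by
    rw [abs_sub_comm]
    omega
  exact_mod_cast b2

theorem geo {Γ q : ℝ} (hq : 0 ≤ q) (h : 2 * q ≤ Γ) (i : ℕ) :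
    Γ * ∑ l ∈ range i, Γ ^ l * q ^ (i - l) ≤ 2 * q * Γ ^ i := by
  have h0 : 0 ≤ Γ := by linarith
  induction i with
  | zero =>
    simp only [range_zero, sum_empty, mul_zero]
    positivity
  | succ i ih =>
    have e : ∑ l ∈ range (i + 1), Γ ^ l * q ^ (i + 1 - l) =
        q * (∑ l ∈ range i, Γ ^ l * q ^ (i - l) + Γ ^ i) := by
      rw [sum_range_succ, mul_add, mul_sum, Nat.add_sub_cancel_left, pow_one, mul_comm (Γ ^ i)]
      congr 1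
      refine sum_congr rfl fun l hl => ?_
      rw [show i + 1 - l = i - l + 1 by have := mem_range.1 hl; omega, pow_succ]
      ring
    have a1 := mul_le_mul_of_nonneg_left ih hq
    have a2 : q * (2 * q * Γ ^ i) ≤ q * (Γ * Γ ^ i) := by gcongr
    rw [e, pow_succ]
    nlinarith

theorem pow_kk {q : ℝ} (hq : 1 ≤ q) (Γ j t t' i : ℕ) : q ^ kk Γ j t t' ≤ q ^ (j - i) +
    ∑ l ∈ range i, if |(t : ℝ) - t'| < (Γ : ℝ) ^ l then q ^ (j - l) else 0 := by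
  have h0 : ∀ l ∈ range i, 0 ≤ if |(t : ℝ) - t'| < (Γ : ℝ) ^ l then q ^ (j - l) else 0 :=
    fun l _ => by split_ifs <;> positivity
  by_cases h : kk Γ j t t' ≤ j - i
  · exact (pow_le_pow_right₀ hq h).trans (le_add_of_nonneg_right (sum_nonneg h0))
  · set A := (range j).filter fun i => |(t : ℝ) - t'| < (Γ : ℝ) ^ i with hA
    have hk : kk Γ j t t' = #A := rfl
    have hne : A.Nonempty := card_pos.1 (by omega)
    have hm := mem_filter.1 (A.min'_mem hne)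
    have h1 : #A ≤ j - A.min' hne := by
      rw [← Nat.card_Ico]
      exact card_le_card fun l hl =>
        mem_Ico.2 ⟨A.min'_le l hl, mem_range.1 (mem_filter.1 hl).1⟩
    have h2 := single_le_sum h0 (mem_range.2 (show A.min' hne < i by omega))
    rw [if_pos hm.2] at h2
    have h3 : q ^ kk Γ j t t' ≤ q ^ (j - A.min' hne) := pow_le_pow_right₀ hq (by omega)
    have h4 : 0 ≤ q ^ (j - i) := by positivity
    linarith

theorem sum_close (I : Finset ℕ) {Γ : ℕ} {q : ℝ} (hq : 1 ≤ q) (h : 2 * q ≤ Γ) {i j : ℕ}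
    (hij : i ≤ j) (t : ℕ) : (Γ : ℝ) * ∑ t' ∈ I, ∑ l ∈ range i,
      (if |(t : ℝ) - (t' : ℕ)| < (Γ : ℝ) ^ l then q ^ (j - l) else 0) ≤
        4 * q * q ^ (j - i) * (Γ : ℝ) ^ i := by
  have hΓ : (1 : ℝ) ≤ Γ := by linarith
  have hΓ' : 1 ≤ Γ := by exact_mod_cast hΓ
  have h1 : ∑ t' ∈ I, ∑ l ∈ range i,
      (if |(t : ℝ) - (t' : ℕ)| < (Γ : ℝ) ^ l then q ^ (j - l) else 0) ≤
      2 * q ^ (j - i) * ∑ l ∈ range i, (Γ : ℝ) ^ l * q ^ (i - l) := by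
    rw [sum_comm, mul_sum]
    refine sum_le_sum fun l hl => ?_
    have a := cnt_lt I t (Γ ^ l) (Nat.one_le_pow _ _ hΓ')
    push_cast at a
    rw [← sum_filter, sum_const, nsmul_eq_mul,
      show j - l = j - i + (i - l) by have := mem_range.1 hl; omega, pow_add]
    calc _ ≤ 2 * (Γ : ℝ) ^ l * (q ^ (j - i) * q ^ (i - l)) :=
          mul_le_mul_of_nonneg_right a (by positivity)
      _ = _ := by ring
  have h2 := mul_le_mul_of_nonneg_left (geo (by linarith) h i)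
    (show 0 ≤ 2 * q ^ (j - i) by positivity)
  have h3 := mul_le_mul_of_nonneg_left h1 (show (0 : ℝ) ≤ Γ by linarith)
  nlinarith

/-- the mean of `4 ^ kk` is at most `2` -/
theorem avg_four (I : Finset ℕ) {Γ j : ℕ} (hΓ : 8 ≤ Γ) (hI : 16 * (Γ : ℝ) ^ j ≤ Γ * #I) :
    ∑ t ∈ I, ∑ t' ∈ I, (4 : ℝ) ^ kk Γ j t t' ≤ 2 * (#I : ℝ) ^ 2 := by
  have hΓ' : (8 : ℝ) ≤ Γ := by exact_mod_cast hΓ
  have h1 : ∀ t ∈ I, ∑ t' ∈ I, (4 : ℝ) ^ kk Γ j t t' ≤ 2 * #I := by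
    intro t _
    have a1 := sum_le_sum fun t' (_ : t' ∈ I) => pow_kk (q := 4) (by norm_num) Γ j t t' j
    have a2 := sum_close I (Γ := Γ) (q := 4) (by norm_num) (by linarith) (le_refl j) t
    rw [sum_add_distrib, sum_const, nsmul_eq_mul, Nat.sub_self, pow_zero, mul_one] at a1
    rw [Nat.sub_self, pow_zero] at a2
    have a3 := le_of_mul_le_mul_left (a2.trans ((le_of_eq (by ring)).trans hI)) (by linarith)
    linarith
  refine (sum_le_card_nsmul _ _ _ h1).trans_eq ?_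
  rw [nsmul_eq_mul]
  ring

theorem avg_two (I : Finset ℕ) {Γ j : ℕ} (hΓ : 8 ≤ Γ) (hI : 16 * (Γ : ℝ) ^ j ≤ Γ * #I) :
    ∑ t ∈ I, ∑ t' ∈ I, (2 : ℝ) ^ (kk Γ j t t' + 2) ≤ 8 * (#I : ℝ) ^ 2 := by
  have h := avg_four I hΓ hI
  have : ∑ t ∈ I, ∑ t' ∈ I, (2 : ℝ) ^ (kk Γ j t t' + 2) ≤
      4 * ∑ t ∈ I, ∑ t' ∈ I, (4 : ℝ) ^ kk Γ j t t' := by
    rw [mul_sum]
    refine sum_le_sum fun t _ => ?_
    rw [mul_sum]
    refine sum_le_sum fun t' _ => ?_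
    have := pow_le_pow_left₀ (by norm_num : (0 : ℝ) ≤ 2) (by norm_num : (2 : ℝ) ≤ 4) (kk Γ j t t')
    rw [pow_add]
    linarith
  linarith

theorem avg_two_lin (I : Finset ℕ) {Γ j : ℕ} (hΓ : 8 ≤ Γ) (hI : 16 * (Γ : ℝ) ^ j ≤ Γ * #I) :
    ∑ t ∈ I, ∑ t' ∈ I, ((kk Γ j t t' : ℝ) + 2) * (2 : ℝ) ^ (kk Γ j t t' + 2) ≤
      16 * (#I : ℝ) ^ 2 := by
  have h := avg_four I hΓ hI
  have : ∑ t ∈ I, ∑ t' ∈ I, ((kk Γ j t t' : ℝ) + 2) * (2 : ℝ) ^ (kk Γ j t t' + 2) ≤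
      8 * ∑ t ∈ I, ∑ t' ∈ I, (4 : ℝ) ^ kk Γ j t t' := by
    rw [mul_sum]
    refine sum_le_sum fun t _ => ?_
    rw [mul_sum]
    refine sum_le_sum fun t' _ => ?_
    generalize kk Γ j t t' = k
    have a1 : (k : ℝ) + 1 ≤ 2 ^ k := by exact_mod_cast Nat.lt_two_pow_self
    have a2 : (1 : ℝ) ≤ 2 ^ k := one_le_pow₀ one_le_two
    rw [show (4 : ℝ) = 2 * 2 by norm_num, mul_pow, pow_add]
    nlinarith
  linarith

/-- a profile that decays like `12 s / |t - a|` -/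
theorem sum_prof (I : Finset ℕ) (a : ℝ) {s : ℝ} (hs : 1 ≤ s) (g : ℕ → ℝ)
    (hg : ∀ t ∈ I, 0 ≤ g t ∧ g t ≤ 2 ∧ g t * |(t : ℝ) - a| ≤ 12 * s) {k : ℕ}
    (hI : (#I : ℝ) ≤ s * 2 ^ k) : ∑ t ∈ I, g t ≤ (28 + 50 * k) * s := by
  have far : ∀ b : ℕ, ∀ t ∈ I, ¬ |(t : ℝ) - a| ≤ 6 * s * 2 ^ b → g t ≤ 2 / 2 ^ b := by
    intro b t ht h
    obtain ⟨g0, _, g2⟩ := hg t ht
    rw [le_div_iff₀ (by positivity)]
    have := mul_le_mul_of_nonneg_left (not_le.1 h).le g0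
    have h6 : 0 < 6 * s := by linarith
    refine le_of_mul_le_mul_left ?_ h6
    nlinarith
  have h1 : ∀ b : ℕ, ∑ t ∈ I.filter fun t : ℕ => |(t : ℝ) - a| ≤ 6 * s * 2 ^ b, g t ≤
      (26 + 50 * b) * s := by
    intro b
    induction b with
    | zero =>
      have a1 := cnt_near I a (u := 6 * s * 2 ^ 0) (by positivity)
      have a2 := sum_le_card_nsmul (I.filter fun t : ℕ => |(t : ℝ) - a| ≤ 6 * s * 2 ^ 0) g 2
        fun t ht => (hg t (mem_filter.1 ht).1).2.1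
      rw [nsmul_eq_mul] at a2
      norm_num at a1 a2 ⊢
      linarith
    | succ b ih =>
      set A := I.filter fun t : ℕ => |(t : ℝ) - a| ≤ 6 * s * 2 ^ (b + 1) with hA
      rw [← sum_filter_add_sum_filter_not A fun t : ℕ => |(t : ℝ) - a| ≤ 6 * s * 2 ^ b]
      have a0 : (0 : ℝ) < 2 ^ b := by positivity
      have a1 : ∑ t ∈ A.filter fun t : ℕ => |(t : ℝ) - a| ≤ 6 * s * 2 ^ b, g t ≤
          ∑ t ∈ I.filter fun t : ℕ => |(t : ℝ) - a| ≤ 6 * s * 2 ^ b, g t :=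
        sum_le_sum_of_subset_of_nonneg (filter_subset_filter _ (filter_subset _ _))
          fun t ht _ => (hg t (mem_filter.1 ht).1).1
      have a2 := sum_le_card_nsmul (A.filter fun t : ℕ => ¬ |(t : ℝ) - a| ≤ 6 * s * 2 ^ b) g
        (2 / 2 ^ b) fun t ht => far b t (mem_filter.1 (mem_filter.1 ht).1).1 (mem_filter.1 ht).2
      have a3 : (#(A.filter fun t : ℕ => ¬ |(t : ℝ) - a| ≤ 6 * s * 2 ^ b) : ℝ) ≤ 25 * s * 2 ^ b := by
        have b1 := cnt_near I a (u := 6 * s * 2 ^ (b + 1)) (by positivity)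
        have b2 : (#(A.filter fun t : ℕ => ¬ |(t : ℝ) - a| ≤ 6 * s * 2 ^ b) : ℝ) ≤ #A :=
          Nat.cast_le.2 (card_filter_le _ _)
        have b3 : (1 : ℝ) ≤ s * 2 ^ b := one_le_mul_of_one_le_of_one_le hs (one_le_pow₀ one_le_two)
        rw [pow_succ] at b1
        rw [hA, pow_succ] at b2
        rw [hA, pow_succ]
        linarith
      rw [nsmul_eq_mul] at a2
      have a4 := mul_le_mul_of_nonneg_right a3 (show (0 : ℝ) ≤ 2 / 2 ^ b by positivity)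
      have a5 : 25 * s * 2 ^ b * (2 / 2 ^ b) = 50 * s := by
        field_simp
        norm_num
      push_cast
      linarith
  rw [← sum_filter_add_sum_filter_not I fun t : ℕ => |(t : ℝ) - a| ≤ 6 * s * 2 ^ k]
  have a2 := sum_le_card_nsmul (I.filter fun t : ℕ => ¬ |(t : ℝ) - a| ≤ 6 * s * 2 ^ k) g
    (2 / 2 ^ k) fun t ht => far k t (mem_filter.1 ht).1 (mem_filter.1 ht).2
  have a3 : (#(I.filter fun t : ℕ => ¬ |(t : ℝ) - a| ≤ 6 * s * 2 ^ k) : ℝ) ≤ s * 2 ^ k :=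
    le_trans (Nat.cast_le.2 (card_filter_le _ _)) hI
  rw [nsmul_eq_mul] at a2
  have a4 := mul_le_mul_of_nonneg_right a3 (show (0 : ℝ) ≤ 2 / 2 ^ k by positivity)
  have a5 : s * 2 ^ k * (2 / 2 ^ k) = 2 * s := by field_simp
  linarith [h1 k]

/-- two profiles of level `i` against the weight `2 ^ (kk + 2)` -/
theorem avg_prof (I : Finset ℕ) {Γ K i j : ℕ} (hΓ : 4 ≤ Γ) (hK : Γ ≤ 2 ^ K) (hij : i < j)
    (hI : #I ≤ Γ ^ j) (a : ℝ) (g g' : ℕ → ℝ)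
    (hg : ∀ t ∈ I, 0 ≤ g t ∧ g t ≤ 2 ∧ g t * |(t : ℝ) - a| ≤ 12 * (Γ : ℝ) ^ i)
    (hg' : ∀ t ∈ I, 0 ≤ g' t ∧ g' t ≤ 2 ∧ g' t * |(t : ℝ) - a| ≤ 12 * (Γ : ℝ) ^ i) :
    ∑ t ∈ I, ∑ t' ∈ I, g t * g' t' * (2 : ℝ) ^ (kk Γ j t t' + 2) ≤
      25600 * (K : ℝ) ^ 2 * 8 ^ (j - i) * ((Γ : ℝ) ^ i) ^ 2 := by
  have hΓ' : (4 : ℝ) ≤ Γ := by exact_mod_cast hΓ
  set s : ℝ := (Γ : ℝ) ^ i with hs
  set d := j - i with hd
  have s1 : 1 ≤ s := one_le_pow₀ (by linarith)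
  have K1 : 1 ≤ K := by
    rcases Nat.eq_zero_or_pos K with rfl | h
    · omega
    · exact h
  have hI' : (#I : ℝ) ≤ s * 2 ^ (K * d) := by
    have a1 : Γ ^ j ≤ Γ ^ i * 2 ^ (K * d) := by
      rw [show j = i + d by omega, pow_add, pow_mul]
      exact Nat.mul_le_mul_left _ (Nat.pow_le_pow_left hK d)
    rw [hs]
    exact_mod_cast hI.trans a1
  have kd : (1 : ℝ) ≤ K * d := by
    have : 1 ≤ K * d := Nat.mul_pos K1 (by omega)
    exact_mod_cast this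
  set L : ℝ := 78 * (K * d) * s with hL
  have l1 : ∑ t ∈ I, g t ≤ L := (sum_prof I a s1 g hg hI').trans (by push_cast; nlinarith)
  have l2 : ∑ t ∈ I, g' t ≤ L := (sum_prof I a s1 g' hg' hI').trans (by push_cast; nlinarith)
  have p2 : (0 : ℝ) < 2 ^ d := by positivity
  have h1 : ∀ t ∈ I, ∑ t' ∈ I, g t * g' t' * (2 : ℝ) ^ (kk Γ j t t' + 2) ≤
      g t * (4 * 2 ^ d * L + 16 * 2 ^ d * s) := by
    intro t ht
    have a2 := sum_close I (Γ := Γ) (q := 2) one_le_two (by linarith) hij.le t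
    set Z := ∑ t' ∈ I, ∑ l ∈ range i,
      (if |(t : ℝ) - (t' : ℕ)| < (Γ : ℝ) ^ l then (2 : ℝ) ^ (j - l) else 0) with hZ
    have a3 : Z ≤ 2 * 2 ^ d * s := by
      refine le_of_mul_le_mul_left (a2.trans ?_) (show (0 : ℝ) < Γ by linarith)
      have : 0 < 2 ^ d * s := by positivity
      nlinarith
    have a4 : ∑ t' ∈ I, g' t' * (2 : ℝ) ^ (kk Γ j t t' + 2) ≤ 4 * 2 ^ d * ∑ t' ∈ I, g' t' + 8 * Z := by
      rw [hZ, mul_sum, mul_sum, ← sum_add_distrib]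
      refine sum_le_sum fun t' ht' => ?_
      obtain ⟨b0, b1, _⟩ := hg' t' ht'
      have b2 := mul_le_mul_of_nonneg_left (pow_kk (q := 2) one_le_two Γ j t t' i) b0
      have b3 : 0 ≤ ∑ l ∈ range i,
          (if |(t : ℝ) - (t' : ℕ)| < (Γ : ℝ) ^ l then (2 : ℝ) ^ (j - l) else 0) :=
        sum_nonneg fun l _ => by split_ifs <;> positivity
      have b4 := mul_le_mul_of_nonneg_right b1 b3
      rw [pow_add]
      nlinarith
    simp only [mul_assoc]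
    rw [← mul_sum]
    refine mul_le_mul_of_nonneg_left (a4.trans ?_) (hg t ht).1
    nlinarith
  refine (sum_le_sum h1).trans ?_
  rw [← sum_mul]
  refine (mul_le_mul_of_nonneg_right l1 (by positivity)).trans ?_
  have d2 : (d : ℝ) ≤ 2 ^ d := by exact_mod_cast Nat.lt_two_pow_self.le
  have e8 : (8 : ℝ) ^ d = 2 ^ d * (2 ^ d) ^ 2 := by
    rw [show (8 : ℝ) = 2 * 2 ^ 2 by norm_num, mul_pow, ← pow_mul, ← pow_mul, mul_comm 2 d]
  have d3 : ((K : ℝ) * d) ^ 2 ≤ K ^ 2 * (2 ^ d) ^ 2 := by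
    rw [mul_pow]
    gcongr
  have d4 : (K : ℝ) * d ≤ (K * d) ^ 2 := by nlinarith
  calc L * (4 * 2 ^ d * L + 16 * 2 ^ d * s)
      = 2 ^ d * s ^ 2 * (24336 * (K * d) ^ 2 + 1248 * (K * d)) := by rw [hL]; ring
    _ ≤ 2 ^ d * s ^ 2 * (25600 * (K ^ 2 * (2 ^ d) ^ 2)) := by
        refine mul_le_mul_of_nonneg_left ?_ (by positivity)
        nlinarith
    _ = _ := by rw [e8]; ring

/-- the same with weights `a x` at the radii `rr x` -/
theorem avg_prof_sum {α : Type} (X : Finset α) (I : Finset ℕ) {Γ K i j : ℕ} (hΓ : 4 ≤ Γ)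
    (hK : Γ ≤ 2 ^ K) (hij : i < j) (hI : #I ≤ Γ ^ j) (a rr : α → ℝ) (ha : ∀ x ∈ X, 0 ≤ a x)
    (g g' : α → ℕ → ℝ)
    (hg : ∀ x ∈ X, ∀ t ∈ I, 0 ≤ g x t ∧ g x t ≤ 2 ∧ g x t * |(t : ℝ) - rr x| ≤ 12 * (Γ : ℝ) ^ i)
    (hg' : ∀ x ∈ X, ∀ t ∈ I, 0 ≤ g' x t ∧ g' x t ≤ 2 ∧ g' x t * |(t : ℝ) - rr x| ≤ 12 * (Γ : ℝ) ^ i) :
    ∑ t ∈ I, ∑ t' ∈ I, (∑ x ∈ X, a x * g x t * g' x t') * (2 : ℝ) ^ (kk Γ j t t' + 2) ≤
      25600 * (K : ℝ) ^ 2 * 8 ^ (j - i) * ((Γ : ℝ) ^ i) ^ 2 * ∑ x ∈ X, a x := by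
  have e : ∑ t ∈ I, ∑ t' ∈ I, (∑ x ∈ X, a x * g x t * g' x t') * (2 : ℝ) ^ (kk Γ j t t' + 2) =
      ∑ x ∈ X, a x * ∑ t ∈ I, ∑ t' ∈ I, g x t * g' x t' * (2 : ℝ) ^ (kk Γ j t t' + 2) := by
    simp only [sum_mul, mul_sum]
    rw [sum_comm (s := X)]
    refine sum_congr rfl fun t _ => ?_
    rw [sum_comm (s := X)]
    exact sum_congr rfl fun t' _ => sum_congr rfl fun x _ => by ring
  rw [e, mul_sum]
  refine sum_le_sum fun x hx => ?_
  rw [mul_comm _ (a x)]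
  exact mul_le_mul_of_nonneg_left (avg_prof I hΓ hK hij hI (rr x) _ _ (hg x hx) (hg' x hx)) (ha x hx)

theorem exp_le {x : ℝ} {k : ℕ} (h0 : 0 ≤ x) (h : 2 * x ≤ k) : Real.exp x ≤ 1 + x * 2 ^ k := by
  have a1 : Real.exp x ≤ 2 ^ k := by
    have b1 : Real.exp (1 / 2) ≤ 2 := by
      have c1 : Real.exp (1 / 2) * Real.exp (1 / 2) = Real.exp 1 := by
        rw [← Real.exp_add]
        norm_num
      have c2 := Real.exp_one_lt_d9
      nlinarith [Real.exp_pos (1 / 2)]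
    calc Real.exp x ≤ Real.exp (k * (1 / 2)) := Real.exp_le_exp.2 (by linarith)
      _ = Real.exp (1 / 2) ^ k := Real.exp_nat_mul _ _
      _ ≤ 2 ^ k := pow_le_pow_left₀ (Real.exp_pos _).le b1 k
  have a2 := Real.add_one_le_exp (-x)
  have a3 : Real.exp x * Real.exp (-x) = 1 := by rw [← Real.exp_add]; simp
  have a4 := mul_le_mul_of_nonneg_left a2 (Real.exp_pos x).le
  have a5 := mul_le_mul_of_nonneg_left a1 h0
  nlinarith

/-- the spring constants -/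
theorem ex_bs {W I : Type} [Fintype W] [Fintype I] [Nonempty I] (S : W → I → I → ℝ)
    (k : I → I → ℕ) {β : ℝ} (hβ : 0 < β) (h0 : ∀ w t t', 0 ≤ S w t t')
    (h1 : ∀ t t', 2 * ∑ w, S w t t' ≤ k t t') : ∃ bs : W → ℝ, (∀ w, 0 ≤ bs w) ∧
      (∀ w, ∑ t, ∑ t', Real.exp (S w t t') < (Fintype.card I : ℝ) ^ 2 * Real.exp (bs w)) ∧
      ∑ w, bs w ≤ (∑ t, ∑ t', (∑ w, S w t t') * 2 ^ k t t') / (Fintype.card I : ℝ) ^ 2 +
        β * Fintype.card W := by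
  have hI : (0 : ℝ) < (Fintype.card I : ℝ) ^ 2 := by
    have : (0 : ℝ) < Fintype.card I := by exact_mod_cast Fintype.card_pos
    positivity
  refine ⟨fun w => (∑ t, ∑ t', S w t t' * 2 ^ k t t') / (Fintype.card I : ℝ) ^ 2 + β,
    fun w => ?_, fun w => ?_, le_of_eq ?_⟩
  · have : 0 ≤ ∑ t, ∑ t', S w t t' * 2 ^ k t t' :=
      sum_nonneg fun t _ => sum_nonneg fun t' _ => mul_nonneg (h0 w t t') (by positivity)
    positivity
  · have a1 : ∑ t, ∑ t', Real.exp (S w t t') ≤ ∑ t : I, ∑ t' : I, (1 + S w t t' * 2 ^ k t t') := by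
      refine sum_le_sum fun t _ => sum_le_sum fun t' _ => exp_le (h0 w t t') ?_
      have := single_le_sum (f := fun w => S w t t') (fun w _ => h0 w t t') (mem_univ w)
      linarith [h1 t t']
    simp only [sum_add_distrib, sum_const, card_univ, nsmul_eq_mul, mul_one] at a1
    have a2 := Real.add_one_le_exp
      ((∑ t, ∑ t', S w t t' * 2 ^ k t t') / (Fintype.card I : ℝ) ^ 2 + β)
    have a3 := mul_le_mul_of_nonneg_left a2 hI.le
    rw [mul_add, mul_add, mul_div_cancel₀ _ hI.ne'] at a3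
    have a4 := mul_pos hI hβ
    nlinarith
  · rw [sum_add_distrib, sum_const, card_univ, nsmul_eq_mul, ← sum_div, mul_comm β]
    congr 2
    rw [sum_comm]
    refine sum_congr rfl fun t _ => ?_
    rw [sum_comm]
    exact sum_congr rfl fun t' _ => (sum_mul _ _ _).symm

end Pool.Agent.Lib.MP_9cc147_pr.AllU.E
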