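import Pool.Agent.Lib.MP_9cc147_pr.Geom
import Pool.Agent.Lib.MP_9cc147_pr.U.EShell

/-! Exceptional phase: sums over dyadic strips around a good kink position. -/

open Finset

namespace Pool.Agent.Lib.MP_9cc147_pr.AllU.E

variable {α : Type*}

lemma strip_mass {n : ℕ} (z : Vx n) (K Sh : Finset (Vx n)) (a μ : Vx n → ℝ) {al H s : ℝ} {D t : ℕ}
    (hal : 0 ≤ al) (hH : 0 ≤ H) (hs : 1 ≤ s) (hD : (D : ℝ) ≤ 3100 * s)
    (hR : ∀ O O2 : Finset (Vx n), (∀ x ∈ O, ∀ y, ds x y ≤ D → y ∈ O2) →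
      ∑ x ∈ O, a x ≤ al * (∑ y ∈ O2, μ y) / s)
    (hK : ∀ x ∈ K, ∀ y, ds x y ≤ D → y ∈ Sh) (hg : Good Sh (ds z) μ H t) (u : ℝ) (hu : s ≤ u) :
    ∑ x ∈ K with |(ds z x : ℝ) - t| ≤ u, a x ≤ 3101 * al * H * u / s := by
  have hD0 : (0 : ℝ) ≤ D := Nat.cast_nonneg _
  have h1 := hR (K.filter fun x => |(ds z x : ℝ) - t| ≤ u)
    (Sh.filter fun y => |(ds z y : ℝ) - t| ≤ u + D) (by
      intro x hx y hy
      rw [mem_filter] at hx ⊢
      refine ⟨hK x hx.1 y hy, ?_⟩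
      have a1 : (ds z y : ℝ) ≤ ds z x + ds x y := by exact_mod_cast ds_tri z x y
      have a2 : (ds z x : ℝ) ≤ ds z y + ds x y := by
        rw [ds_comm x y]; exact_mod_cast ds_tri z y x
      have a3 : (ds x y : ℝ) ≤ D := by exact_mod_cast hy
      have a4 := abs_le.1 hx.2
      rw [abs_le]
      constructor <;> linarith [a4.1, a4.2])
  have h2 := hg (u + D) (by linarith)
  refine h1.trans (div_le_div_of_nonneg_right ?_ (by linarith))
  have h3 : H * (u + D) ≤ H * (3101 * u) := mul_le_mul_of_nonneg_left (by linarith) hH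
  have h4 := mul_le_mul_of_nonneg_left (h2.trans h3) hal
  linarith

lemma strip_step (K : Finset α) (a d f : α → ℝ) (ha : ∀ x ∈ K, 0 ≤ a x) {r r' c m : ℝ}
    (hr : r ≤ r') (hc : 0 ≤ c) (hf : ∀ x ∈ K, r < d x → f x ≤ c)
    (hm : ∑ x ∈ K with d x ≤ r', a x ≤ m) :
    ∑ x ∈ K with d x ≤ r', a x * f x ≤ ∑ x ∈ K with d x ≤ r, a x * f x + c * m := by
  rw [← sum_filter_add_sum_filter_not (K.filter fun x => d x ≤ r') (fun x => d x ≤ r),
    filter_filter]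
  have h1 : (K.filter fun x => d x ≤ r' ∧ d x ≤ r) = K.filter fun x => d x ≤ r :=
    filter_congr fun x _ => ⟨fun h => h.2, fun h => ⟨h.trans hr, h⟩⟩
  rw [h1]
  refine add_le_add le_rfl ?_
  calc ∑ x ∈ (K.filter fun x => d x ≤ r') with ¬ d x ≤ r, a x * f x
      ≤ ∑ x ∈ (K.filter fun x => d x ≤ r') with ¬ d x ≤ r, c * a x := by
        refine sum_le_sum fun x hx => ?_
        rw [mem_filter, mem_filter] at hx
        rw [mul_comm c]
        exact mul_le_mul_of_nonneg_left (hf x hx.1.1 (not_le.1 hx.2)) (ha x hx.1.1)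
    _ ≤ ∑ x ∈ K with d x ≤ r', c * a x :=
        sum_le_sum_of_subset_of_nonneg (filter_subset _ _) fun x hx _ =>
          mul_nonneg hc (ha x (mem_filter.1 hx).1)
    _ ≤ c * m := by rw [← mul_sum]; exact mul_le_mul_of_nonneg_left hm hc

lemma strip_base (K : Finset α) (a d f : α → ℝ) (ha : ∀ x ∈ K, 0 ≤ a x) {r c m : ℝ}
    (hc : 0 ≤ c) (hf : ∀ x ∈ K, f x ≤ c) (hm : ∑ x ∈ K with d x ≤ r, a x ≤ m) :
    ∑ x ∈ K with d x ≤ r, a x * f x ≤ c * m := by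
  calc ∑ x ∈ K with d x ≤ r, a x * f x ≤ ∑ x ∈ K with d x ≤ r, c * a x := by
        refine sum_le_sum fun x hx => ?_
        rw [mem_filter] at hx
        rw [mul_comm c]
        exact mul_le_mul_of_nonneg_left (hf x hx.1) (ha x hx.1)
    _ ≤ c * m := by rw [← mul_sum]; exact mul_le_mul_of_nonneg_left hm hc

lemma g_le {g d s : ℝ} (k : ℕ) (hs : 0 < s) (hg : 0 ≤ g) (h : g * d ≤ 12 * s)
    (hd : 6 * s * 2 ^ k < d) : g ≤ 2 / 2 ^ k := by
  have h2 : (0 : ℝ) < 2 ^ k := by positivity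
  rw [le_div_iff₀ h2]
  have h3 : g * (6 * s * 2 ^ k) ≤ g * d := mul_le_mul_of_nonneg_left hd.le hg
  refine le_of_mul_le_mul_left (a := 6 * s) ?_ (by linarith)
  nlinarith

lemma strip_u {B s : ℝ} (k : ℕ) (hs : 0 < s) : B * (6 * s * 2 ^ k) / s = 6 * B * 2 ^ k := by
  field_simp

lemma strip_le {s : ℝ} (k : ℕ) (hs : 0 < s) : s ≤ 6 * s * 2 ^ k := by
  have : (1 : ℝ) ≤ 2 ^ k := one_le_pow₀ (by norm_num)
  nlinarith

theorem strip_sq (K : Finset α) (a d g : α → ℝ) {s B : ℝ} (hs : 0 < s) (ha : ∀ x ∈ K, 0 ≤ a x)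
    (hg : ∀ x ∈ K, 0 ≤ g x ∧ g x ≤ 2 ∧ g x * d x ≤ 12 * s)
    (hm : ∀ u, s ≤ u → ∑ x ∈ K with d x ≤ u, a x ≤ B * u / s) :
    ∑ x ∈ K, a x * g x ^ 2 ≤ 120 * B := by
  have hB : 0 ≤ B := by
    have h1 := hm s le_rfl
    have h2 : 0 ≤ ∑ x ∈ K with d x ≤ s, a x := sum_nonneg fun x hx => ha x (mem_filter.1 hx).1
    rw [mul_div_assoc, div_self hs.ne', mul_one] at h1
    linarith
  have key : ∀ k : ℕ, ∑ x ∈ K with d x ≤ 6 * s * 2 ^ k, a x * g x ^ 2 ≤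
      (120 - 96 / 2 ^ k) * B := by
    intro k
    induction k with
    | zero =>
      have h1 := hm _ (strip_le 0 hs)
      rw [strip_u 0 hs] at h1
      refine (strip_base K a d (fun x => g x ^ 2) ha (c := 4) (by norm_num)
        (fun x hx => by nlinarith [(hg x hx).1, (hg x hx).2.1]) h1).trans (le_of_eq ?_)
      ring
    | succ k ih =>
      have h1 := hm _ (strip_le (k + 1) hs)
      rw [strip_u (k + 1) hs] at h1
      have h2 : (0 : ℝ) < 2 ^ k := by positivity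
      have h3 := strip_step K a d (fun x => g x ^ 2) ha (r := 6 * s * 2 ^ k) (c := (2 / 2 ^ k) ^ 2)
        (by rw [pow_succ]; nlinarith [mul_pos hs h2]) (by positivity)
        (fun x hx hd => pow_le_pow_left₀ (hg x hx).1 (g_le k hs (hg x hx).1 (hg x hx).2.2 hd) 2) h1
      refine h3.trans ((add_le_add ih le_rfl).trans (le_of_eq ?_))
      rw [pow_succ (2 : ℝ) k]
      field_simp
      ring
  obtain ⟨k, hk⟩ := pow_unbounded_of_one_lt ((∑ x ∈ K, |d x|) / (6 * s)) (one_lt_two (α := ℝ))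
  rw [div_lt_iff₀ (by linarith)] at hk
  have h1 := key k
  rw [filter_true_of_mem fun x hx => by
    have := single_le_sum (f := fun x => |d x|) (fun x _ => abs_nonneg _) hx
    linarith [le_abs_self (d x)]] at h1
  have h2 : 0 ≤ 96 / 2 ^ k * B := by positivity
  linarith

theorem strip_one (K : Finset α) (a d g : α → ℝ) {s B : ℝ} (k : ℕ) (hs : 0 < s)
    (ha : ∀ x ∈ K, 0 ≤ a x) (hg : ∀ x ∈ K, 0 ≤ g x ∧ g x ≤ 2 ∧ g x * d x ≤ 12 * s)
    (hm : ∀ u, s ≤ u → ∑ x ∈ K with d x ≤ u, a x ≤ B * u / s)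
    (hd : ∀ x ∈ K, d x ≤ 6 * s * 2 ^ k) : ∑ x ∈ K, a x * g x ≤ (12 + 24 * k) * B := by
  have key : ∀ k : ℕ, ∑ x ∈ K with d x ≤ 6 * s * 2 ^ k, a x * g x ≤ (12 + 24 * k) * B := by
    intro k
    induction k with
    | zero =>
      have h1 := hm _ (strip_le 0 hs)
      rw [strip_u 0 hs] at h1
      refine (strip_base K a d g ha (c := 2) (by norm_num)
        (fun x hx => (hg x hx).2.1) h1).trans (le_of_eq ?_)
      push_cast
      ring
    | succ k ih =>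
      have h1 := hm _ (strip_le (k + 1) hs)
      rw [strip_u (k + 1) hs] at h1
      have h2 : (0 : ℝ) < 2 ^ k := by positivity
      have h3 := strip_step K a d g ha (r := 6 * s * 2 ^ k) (c := 2 / 2 ^ k)
        (by rw [pow_succ]; nlinarith [mul_pos hs h2]) (by positivity)
        (fun x hx hd => g_le k hs (hg x hx).1 (hg x hx).2.2 hd) h1
      refine h3.trans ((add_le_add ih le_rfl).trans (le_of_eq ?_))
      rw [pow_succ (2 : ℝ) k]
      push_cast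
      field_simp
      ring
  have h1 := key k
  rwa [filter_true_of_mem hd] at h1

/-- two kinks, any distance -/
theorem strip_two (K : Finset α) (a d d' g g' : α → ℝ) {s B : ℝ} (hs : 0 < s)
    (ha : ∀ x ∈ K, 0 ≤ a x) (hg : ∀ x ∈ K, 0 ≤ g x ∧ g x ≤ 2 ∧ g x * d x ≤ 12 * s)
    (hg' : ∀ x ∈ K, 0 ≤ g' x ∧ g' x ≤ 2 ∧ g' x * d' x ≤ 12 * s)
    (hm : ∀ u, s ≤ u → ∑ x ∈ K with d x ≤ u, a x ≤ B * u / s)
    (hm' : ∀ u, s ≤ u → ∑ x ∈ K with d' x ≤ u, a x ≤ B * u / s) :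
    ∑ x ∈ K, a x * (g x * g' x) ≤ 120 * B := by
  have h1 := strip_sq K a d g hs ha hg hm
  have h2 := strip_sq K a d' g' hs ha hg' hm'
  have h3 : ∑ x ∈ K, 2 * (a x * (g x * g' x)) ≤ ∑ x ∈ K, (a x * g x ^ 2 + a x * g' x ^ 2) := by
    refine sum_le_sum fun x hx => ?_
    nlinarith [mul_nonneg (ha x hx) (sq_nonneg (g x - g' x))]
  rw [← mul_sum, sum_add_distrib] at h3
  linarith

/-- two kinks that are far apart -/
theorem strip_far (K : Finset α) (a d d' g g' : α → ℝ) {s B δ : ℝ} (k : ℕ) (hs : 0 < s)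
    (ha : ∀ x ∈ K, 0 ≤ a x) (hg : ∀ x ∈ K, 0 ≤ g x ∧ g x ≤ 2 ∧ g x * d x ≤ 12 * s)
    (hg' : ∀ x ∈ K, 0 ≤ g' x ∧ g' x ≤ 2 ∧ g' x * d' x ≤ 12 * s)
    (hm : ∀ u, s ≤ u → ∑ x ∈ K with d x ≤ u, a x ≤ B * u / s)
    (hm' : ∀ u, s ≤ u → ∑ x ∈ K with d' x ≤ u, a x ≤ B * u / s)
    (hd : ∀ x ∈ K, d x ≤ 6 * s * 2 ^ k ∧ d' x ≤ 6 * s * 2 ^ k) (hδ : ∀ x ∈ K, δ ≤ d x + d' x) :
    δ * ∑ x ∈ K, a x * (g x * g' x) ≤ 24 * s * ((12 + 24 * k) * B) := by
  have h1 := strip_one K a d g k hs ha hg hm fun x hx => (hd x hx).1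
  have h2 := strip_one K a d' g' k hs ha hg' hm' fun x hx => (hd x hx).2
  have h3 : ∑ x ∈ K, δ * (a x * (g x * g' x)) ≤
      ∑ x ∈ K, 12 * s * (a x * g x + a x * g' x) := by
    refine sum_le_sum fun x hx => ?_
    have a1 := mul_le_mul_of_nonneg_left (hg x hx).2.2 (mul_nonneg (ha x hx) (hg' x hx).1)
    have a2 := mul_le_mul_of_nonneg_left (hg' x hx).2.2 (mul_nonneg (ha x hx) (hg x hx).1)
    have a3 := mul_le_mul_of_nonneg_right (hδ x hx)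
      (mul_nonneg (ha x hx) (mul_nonneg (hg x hx).1 (hg' x hx).1))
    nlinarith
  rw [← mul_sum, ← mul_sum, sum_add_distrib] at h3
  nlinarith

lemma geo_sum (m : ℕ) : ∑ i ∈ range m, ((m - i : ℕ) : ℝ) * 2 / 2 ^ (m - i) ≤ 4 := by
  have key : ∀ m : ℕ, ∑ i ∈ range m, ((i + 1 : ℕ) : ℝ) * 2 / 2 ^ (i + 1) =
      4 - (2 * m + 4) / 2 ^ m := by
    intro m
    induction m with
    | zero => norm_num
    | succ m ih =>
      rw [sum_range_succ, ih, pow_succ]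
      push_cast
      field_simp
      ring
  rw [← sum_range_reflect]
  have h1 : ∑ i ∈ range m, ((m - (m - 1 - i) : ℕ) : ℝ) * 2 / 2 ^ (m - (m - 1 - i)) =
      ∑ i ∈ range m, ((i + 1 : ℕ) : ℝ) * 2 / 2 ^ (i + 1) := by
    refine sum_congr rfl fun i hi => ?_
    rw [mem_range] at hi
    have : m - (m - 1 - i) = i + 1 := by omega
    rw [this]
  rw [h1, key]
  have : (0 : ℝ) ≤ (2 * m + 4) / 2 ^ m := by positivity
  linarith

/-- numerical core of the sum over the levels -/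
lemma level_num (Γ j : ℕ) (hΓ : 2 ≤ Γ) (S : ℕ → ℝ) {B δ : ℝ} (hB : 0 ≤ B)
    (h1 : ∀ i < j, S i ≤ 120 * B)
    (h2 : ∀ i < j, δ * S i ≤ 24 * (Γ : ℝ) ^ i * ((12 + 24 * ((j - i) * Γ : ℕ)) * B)) :
    ∑ i ∈ range j, S i ≤ 3600 * B * (((range j).filter fun i => δ < (Γ : ℝ) ^ i).card + 2) := by
  have hΓ' : (2 : ℝ) ≤ Γ := by exact_mod_cast hΓ
  set kk := ((range j).filter fun i => δ < (Γ : ℝ) ^ i).card with hkk
  have hk0 : (0 : ℝ) ≤ kk := Nat.cast_nonneg _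
  rcases ((range j).filter fun i => ¬ δ < (Γ : ℝ) ^ i).eq_empty_or_nonempty with he | hne
  · have h3 := card_filter_add_card_filter_not (s := range j) (fun i => δ < (Γ : ℝ) ^ i)
    rw [he, card_empty, card_range, ← hkk, add_zero] at h3
    have h4 := sum_le_card_nsmul (range j) S _ fun i hi => h1 i (mem_range.1 hi)
    rw [card_range, nsmul_eq_mul, ← h3] at h4
    rw [← h3]
    nlinarith
  obtain ⟨m, hm, hmax⟩ := exists_max_image _ id hne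
  rw [mem_filter, mem_range, not_lt] at hm
  have h3 : j ≤ m + 1 + kk := by
    have : Ico (m + 1) j ⊆ (range j).filter fun i => δ < (Γ : ℝ) ^ i := by
      intro i hi
      rw [mem_Ico] at hi
      rw [mem_filter, mem_range]
      refine ⟨hi.2, ?_⟩
      by_contra hc
      have := hmax i (mem_filter.2 ⟨mem_range.2 hi.2, hc⟩)
      simp only [id] at this
      omega
    have := card_le_card this
    rw [Nat.card_Ico] at this
    omega
  rw [← sum_range_add_sum_Ico S hm.1.le]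
  have h4 := sum_le_card_nsmul (Ico m j) S _ fun i hi => h1 i (mem_Ico.1 hi).2
  rw [Nat.card_Ico, nsmul_eq_mul] at h4
  have h5 : ((j - m : ℕ) : ℝ) ≤ kk + 1 := by
    have : j - m ≤ kk + 1 := by omega
    exact_mod_cast this
  have h6 : ∀ i ∈ range m, S i ≤
      864 * B * (kk + 2) * (((m - i : ℕ) : ℝ) * 2 / 2 ^ (m - i)) := by
    intro i hi
    rw [mem_range] at hi
    obtain ⟨r, rfl⟩ : ∃ r, m = i + (r + 1) := ⟨m - i - 1, by omega⟩
    have e1 : i + (r + 1) - i = r + 1 := by omega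
    rw [e1]
    by_cases hS : S i ≤ 0
    · exact hS.trans (by positivity)
    have hS' : 0 < S i := not_le.1 hS
    have a0 : (0 : ℝ) < (Γ : ℝ) ^ i := by positivity
    have a1 := (mul_le_mul_of_nonneg_right hm.2 hS'.le).trans (h2 i (by omega))
    have a2 : (j - i) * Γ ≤ (kk + 2) * (r + 1) * Γ := by
      refine Nat.mul_le_mul_right _ ?_
      have : (kk + 2) * (r + 1) = kk * r + kk + 2 * r + 2 := by ring
      omega
    have a3 : (((j - i) * Γ : ℕ) : ℝ) ≤ (kk + 2) * (r + 1) * Γ := by exact_mod_cast a2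
    have hr0 : (0 : ℝ) ≤ r := Nat.cast_nonneg _
    have a4 : (1 : ℝ) ≤ (kk + 2) * (r + 1) * Γ := by
      have : (1 : ℝ) ≤ (kk + 2) * (r + 1) := by nlinarith [mul_nonneg hk0 hr0]
      nlinarith
    have a5 : (12 + 24 * (((j - i) * Γ : ℕ) : ℝ)) * B ≤ 36 * ((kk + 2) * (r + 1) * Γ) * B :=
      mul_le_mul_of_nonneg_right (by linarith) hB
    have a6 : (2 : ℝ) ^ r ≤ (Γ : ℝ) ^ r := pow_le_pow_left₀ (by norm_num) hΓ' r
    have a7 : (Γ : ℝ) ^ i * (Γ * (2 ^ r * S i)) ≤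
        (Γ : ℝ) ^ i * (Γ * (864 * B * (kk + 2) * (r + 1))) := by
      calc (Γ : ℝ) ^ i * (Γ * (2 ^ r * S i)) ≤ (Γ : ℝ) ^ i * (Γ * ((Γ : ℝ) ^ r * S i)) := by
            gcongr
        _ = (Γ : ℝ) ^ (i + (r + 1)) * S i := by ring
        _ ≤ 24 * (Γ : ℝ) ^ i * (36 * ((kk + 2) * (r + 1) * Γ) * B) :=
            a1.trans (mul_le_mul_of_nonneg_left a5 (by positivity))
        _ = _ := by ring
    have a8 := le_of_mul_le_mul_left (le_of_mul_le_mul_left a7 a0) (by linarith)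
    have a9 : (0 : ℝ) < 2 ^ r := by positivity
    have e2 : 864 * B * (kk + 2) * (((r + 1 : ℕ) : ℝ) * 2 / 2 ^ (r + 1)) =
        864 * B * (kk + 2) * (r + 1) / 2 ^ r := by
      rw [pow_succ]
      push_cast
      field_simp
    rw [e2, le_div_iff₀ a9]
    linarith
  have h7 := sum_le_sum h6
  rw [← mul_sum] at h7
  have h8 := mul_le_mul_of_nonneg_left (geo_sum m)
    (show 0 ≤ 864 * B * (kk + 2) by positivity)
  have h9 := mul_le_mul_of_nonneg_right h5 (show 0 ≤ 120 * B by positivity)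
  nlinarith [mul_nonneg hB hk0]

/-- the sum over the lower levels for two kink positions -/
theorem level_sum (Γ j : ℕ) (hΓ : 2 ≤ Γ) (K : ℕ → Finset α) (a g g' : ℕ → α → ℝ) (rr : α → ℕ)
    (t t' : ℕ) {B : ℝ} (hB : 0 ≤ B) (ha : ∀ i < j, ∀ x ∈ K i, 0 ≤ a i x)
    (hg : ∀ i < j, ∀ x ∈ K i,
      0 ≤ g i x ∧ g i x ≤ 2 ∧ g i x * |(rr x : ℝ) - t| ≤ 12 * (Γ : ℝ) ^ i)
    (hg' : ∀ i < j, ∀ x ∈ K i,
      0 ≤ g' i x ∧ g' i x ≤ 2 ∧ g' i x * |(rr x : ℝ) - t'| ≤ 12 * (Γ : ℝ) ^ i)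
    (hd : ∀ i < j, ∀ x ∈ K i, |(rr x : ℝ) - t| ≤ (Γ : ℝ) ^ j ∧ |(rr x : ℝ) - t'| ≤ (Γ : ℝ) ^ j)
    (hm : ∀ i < j, ∀ u, (Γ : ℝ) ^ i ≤ u →
      ∑ x ∈ K i with |(rr x : ℝ) - t| ≤ u, a i x ≤ B * u / (Γ : ℝ) ^ i)
    (hm' : ∀ i < j, ∀ u, (Γ : ℝ) ^ i ≤ u →
      ∑ x ∈ K i with |(rr x : ℝ) - t'| ≤ u, a i x ≤ B * u / (Γ : ℝ) ^ i) :
    ∑ i ∈ range j, ∑ x ∈ K i, a i x * (g i x * g' i x) ≤
      3600 * B * (((range j).filter fun i => |(t : ℝ) - t'| < (Γ : ℝ) ^ i).card + 2) := by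
  have hΓ' : (0 : ℝ) < Γ := by exact_mod_cast (by omega : 0 < Γ)
  refine level_num Γ j hΓ (fun i => ∑ x ∈ K i, a i x * (g i x * g' i x)) hB
    (fun i hi => strip_two (K i) (a i) _ _ (g i) (g' i) (by positivity) (ha i hi) (hg i hi)
      (hg' i hi) (hm i hi) (hm' i hi)) fun i hi => ?_
  have h0 : (0 : ℝ) < (Γ : ℝ) ^ i := by positivity
  have h1 : (Γ : ℝ) ^ j ≤ 6 * (Γ : ℝ) ^ i * 2 ^ ((j - i) * Γ) := by
    have a1 : Γ ^ (j - i) ≤ 2 ^ ((j - i) * Γ) := by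
      rw [mul_comm, pow_mul]
      exact Nat.pow_le_pow_left Nat.lt_two_pow_self.le _
    have a2 : (Γ : ℝ) ^ (j - i) ≤ 2 ^ ((j - i) * Γ) := by exact_mod_cast a1
    have a3 : (Γ : ℝ) ^ j = (Γ : ℝ) ^ i * (Γ : ℝ) ^ (j - i) := by
      rw [← pow_add]; congr 1; omega
    have a4 := mul_le_mul_of_nonneg_left a2 h0.le
    have a5 : (0 : ℝ) ≤ (Γ : ℝ) ^ i * 2 ^ ((j - i) * Γ) := by positivity
    linarith
  refine strip_far (K i) (a i) _ _ (g i) (g' i) _ h0 (ha i hi) (hg i hi) (hg' i hi) (hm i hi)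
    (hm' i hi) (fun x hx => ⟨(hd i hi x hx).1.trans h1, (hd i hi x hx).2.trans h1⟩) fun x _ => ?_
  have := abs_sub_le (t : ℝ) (rr x) t'
  rwa [abs_sub_comm (t : ℝ) (rr x)] at this

end Pool.Agent.Lib.MP_9cc147_pr.AllU.E
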