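import Pool.Agent.Lib.MP_9cc147_pr.U.ELev
import Pool.Agent.Lib.MP_9cc147_pr.U.EStrip
import Pool.Agent.Lib.MP_9cc147_pr.U.EAvg

/-! Ring estimate: the lower levels summed. -/

open Finset

namespace Pool.Agent.Lib.MP_9cc147_pr.AllU.E

variable {n : ℕ} {W : Type} [Fintype W]

/-- standing assumptions on the lower levels `i ∈ Lv`; `vi i` is the width of level `i` -/
structure Low (z : Vx n) (ρ : Vx n → ℕ) (P : Finset (Vx n)) (μ : Vx n → ℝ) (Sh : Finset (Vx n))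
    (c : ℕ → Vx n → Vx n → ℝ) (vi : ℕ → ℝ) (Lv : Finset ℕ) (Γ j R v : ℕ) (al : ℝ) : Prop where
  G16 : 16 ≤ Γ
  al0 : 0 ≤ al
  m0 : ∀ x, 0 ≤ μ x
  lt : ∀ i ∈ Lv, i < j
  vj : 2 * v ≤ Γ ^ j
  sv : ∀ i ∈ Lv, 400 * Γ ^ i ≤ v
  v0 : ∀ i ∈ Lv, 0 < vi i ∧ vi i ≤ 600 * (Γ : ℝ) ^ i ∧ vi i ≤ v
  c0 : ∀ i ∈ Lv, ∀ x y, 0 ≤ c i x y
  supp : ∀ i ∈ Lv, ∀ x y, c i x y ≠ 0 → ds x y ≤ 3 * Γ ^ i ∧
    (vi i ≤ 200 * ds x y ∨ ∀ p ∈ P, vi i ≤ 100 * (ds x p + ρ p : ℝ))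
  reg : ∀ i ∈ Lv, ∀ O O2 : Finset (Vx n), (∀ x ∈ O, ∀ y, ds x y ≤ 3100 * Γ ^ i → y ∈ O2) →
    ∑ x ∈ O, ∑ y, c i x y * min 1 (200 * (ds x y : ℝ) / vi i) ^ 2 ≤
      al * (∑ y ∈ O2, μ y) / (Γ : ℝ) ^ i
  sh : ∀ y, R < ds z y + 10 * v → ds z y ≤ R + 20 * v → y ∈ Sh

/-- the points near the shell at scale `s` -/
def nearS (z : Vx n) (R v s : ℕ) : Finset (Vx n) :=
  univ.filter fun x => R < ds z x + 3 * s ∧ ds z x < R + v + 3 * s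

lemma mem_nearS {z x : Vx n} {R v Γ i : ℕ} (h1 : (R : ℝ) - 3 * (Γ : ℝ) ^ i < ds z x)
    (h2 : (ds z x : ℝ) < R + v + 3 * (Γ : ℝ) ^ i) : x ∈ nearS z R v (Γ ^ i) := by
  have h3 : (R : ℝ) < ds z x + 3 * (Γ : ℝ) ^ i := by linarith
  exact mem_filter.2 ⟨mem_univ _, by exact_mod_cast h3, by exact_mod_cast h2⟩

namespace Low

variable {z : Vx n} {ρ : Vx n → ℕ} {P : Finset (Vx n)} {μ : Vx n → ℝ} {Sh : Finset (Vx n)}
  {c : ℕ → Vx n → Vx n → ℝ} {vi : ℕ → ℝ} {Lv : Finset ℕ} {Γ j R v : ℕ} {al H : ℝ}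
  (L : Low z ρ P μ Sh c vi Lv Γ j R v al)
include L

lemma one_le (i : ℕ) : (1 : ℝ) ≤ (Γ : ℝ) ^ i :=
  one_le_pow₀ (by exact_mod_cast le_trans (by norm_num) L.G16)

lemma near_sh {i : ℕ} (hi : i ∈ Lv) : ∀ x ∈ nearS z R v (Γ ^ i), ∀ y,
    ds x y ≤ 3100 * Γ ^ i → y ∈ Sh := by
  intro x hx y hy
  obtain ⟨h1, h2⟩ := (mem_filter.1 hx).2
  have h3 := L.sv i hi
  have h4 := ds_tri z x y
  have h5 := ds_tri z y x
  rw [ds_comm y x] at h5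
  exact L.sh y (by omega) (by omega)

/-- the mass of level `i` near the shell -/
lemma near_mass {i : ℕ} (hi : i ∈ Lv) :
    ∑ x ∈ nearS z R v (Γ ^ i), ∑ y, c i x y * min 1 (200 * (ds x y : ℝ) / vi i) ^ 2 ≤
      al * (∑ y ∈ Sh, μ y) / (Γ : ℝ) ^ i := L.reg i hi _ _ (L.near_sh hi)

lemma suppR {i : ℕ} (hi : i ∈ Lv) (x y : Vx n) (h : c i x y ≠ 0) :
    (ds x y : ℝ) ≤ 3 * (Γ : ℝ) ^ i := by exact_mod_cast (L.supp i hi x y h).1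

/-- one lower level -/
lemma one {t t' : ℝ} (k : Kn ρ P R v t) (k' : Kn ρ P R v t') (A : W → Finset (Vx n))
    (hd : ∀ w w', w ≠ w' → Disjoint (spw z (A w) R v) (spw z (A w') R v)) {i : ℕ} (hi : i ∈ Lv) :
    ∑ w, ∑ x, ∑ y, c i x y * (|uu z ρ P (A w) R v t x - uu z ρ P (A w) R v t y| *
        |uu z ρ P (A w) R v t' x - uu z ρ P (A w) R v t' y|) ≤
      2 * ∑ x ∈ nearS z R v (Γ ^ i), (∑ y, c i x y * min 1 (200 * (ds x y : ℝ) / vi i) ^ 2) *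
        (12 * (Γ : ℝ) ^ i / max (6 * (Γ : ℝ) ^ i) |t - ds z x| *
          (12 * (Γ : ℝ) ^ i / max (6 * (Γ : ℝ) ^ i) |t' - ds z x|)) := by
  have h1 := L.one_le i
  have h2 : 400 * (Γ : ℝ) ^ i ≤ v := by exact_mod_cast L.sv i hi
  obtain ⟨h3, h4, h5⟩ := L.v0 i hi
  exact low_sum k k' A hd (L.c0 i hi) h3 (by linarith) h5 (by linarith)
    (fun x y h => ⟨L.suppR hi x y h, (L.supp i hi x y h).2⟩) _ fun x a b => mem_nearS a b

lemma prof (i : ℕ) (t : ℝ) (x : Vx n) :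
    0 ≤ 12 * (Γ : ℝ) ^ i / max (6 * (Γ : ℝ) ^ i) |t - ds z x| ∧
    12 * (Γ : ℝ) ^ i / max (6 * (Γ : ℝ) ^ i) |t - ds z x| ≤ 2 ∧
    12 * (Γ : ℝ) ^ i / max (6 * (Γ : ℝ) ^ i) |t - ds z x| * |t - ds z x| ≤ 12 * (Γ : ℝ) ^ i :=
  have h := zero_lt_one.trans_le (L.one_le i)
  ⟨G_nonneg h.le _, G_le_two h _, G_mul_le h _⟩

lemma rad {t : ℝ} (k : Kn ρ P R v t) {i : ℕ} (hi : i ∈ Lv) {x : Vx n}
    (hx : x ∈ nearS z R v (Γ ^ i)) : |(ds z x : ℝ) - t| ≤ (Γ : ℝ) ^ j := by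
  obtain ⟨h1, h2⟩ := (mem_filter.1 hx).2
  have h3 : (R : ℝ) < ds z x + 3 * (Γ : ℝ) ^ i := by exact_mod_cast h1
  have h4 : (ds z x : ℝ) < R + v + 3 * (Γ : ℝ) ^ i := by exact_mod_cast h2
  have h5 : 400 * (Γ : ℝ) ^ i ≤ v := by exact_mod_cast L.sv i hi
  have h6 : 2 * (v : ℝ) ≤ (Γ : ℝ) ^ j := by exact_mod_cast L.vj
  have h7 := k.lo
  have h8 := k.hi
  have h9 := L.one_le i
  rw [abs_le]
  constructor <;> linarith

/-- all lower levels, for two good radii -/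
theorem all {t t' : ℕ} (k : Kn ρ P R v t) (k' : Kn ρ P R v t') (hH : 0 ≤ H)
    (g : Good Sh (ds z) μ H t) (g' : Good Sh (ds z) μ H t') (A : W → Finset (Vx n))
    (hd : ∀ w w', w ≠ w' → Disjoint (spw z (A w) R v) (spw z (A w') R v)) :
    ∑ i ∈ Lv, ∑ w, ∑ x, ∑ y, c i x y * (|uu z ρ P (A w) R v t x - uu z ρ P (A w) R v t y| *
        |uu z ρ P (A w) R v t' x - uu z ρ P (A w) R v t' y|) ≤
      22327200 * al * H * (kk Γ j t t' + 2) := by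
  classical
  have hal := L.al0
  have ha : ∀ i ∈ Lv, ∀ x, 0 ≤ ∑ y, c i x y * min 1 (200 * (ds x y : ℝ) / vi i) ^ 2 :=
    fun i hi x => sum_nonneg fun y _ => mul_nonneg (L.c0 i hi x y) (sq_nonneg _)
  have hmem : ∀ i x, x ∈ (if i ∈ Lv then nearS z R v (Γ ^ i) else ∅) →
      i ∈ Lv ∧ x ∈ nearS z R v (Γ ^ i) := fun i x hx => by
    split_ifs at hx with h
    · exact ⟨h, hx⟩
    · exact absurd hx (notMem_empty x)
  have hm : ∀ t : ℕ, Good Sh (ds z) μ H t → ∀ i < j, ∀ u, (Γ : ℝ) ^ i ≤ u →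
      ∑ x ∈ (if i ∈ Lv then nearS z R v (Γ ^ i) else ∅) with |(ds z x : ℝ) - t| ≤ u,
        ∑ y, c i x y * min 1 (200 * (ds x y : ℝ) / vi i) ^ 2 ≤
          3101 * al * H * u / (Γ : ℝ) ^ i := fun t g i _ u hu => by
    have h1 := L.one_le i
    split_ifs with h
    · exact strip_mass z _ Sh _ μ (D := 3100 * Γ ^ i) hal hH h1 (by push_cast; exact le_rfl)
        (L.reg i h) (L.near_sh h) g u hu
    · rw [filter_empty, sum_empty]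
      have : 0 ≤ u := by linarith
      positivity
  have key := level_sum Γ j (le_trans (by norm_num) L.G16)
    (fun i => if i ∈ Lv then nearS z R v (Γ ^ i) else ∅)
    (fun i x => ∑ y, c i x y * min 1 (200 * (ds x y : ℝ) / vi i) ^ 2)
    (fun i x => 12 * (Γ : ℝ) ^ i / max (6 * (Γ : ℝ) ^ i) |(t : ℝ) - ds z x|)
    (fun i x => 12 * (Γ : ℝ) ^ i / max (6 * (Γ : ℝ) ^ i) |(t' : ℝ) - ds z x|) (ds z) t t'
    (B := 3101 * al * H) (by positivity) (fun i _ x hx => ha i (hmem i x hx).1 x)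
    (fun i _ x _ => by rw [abs_sub_comm (ds z x : ℝ)]; exact L.prof i t x)
    (fun i _ x _ => by rw [abs_sub_comm (ds z x : ℝ)]; exact L.prof i t' x)
    (fun i _ x hx => ⟨L.rad k (hmem i x hx).1 (hmem i x hx).2,
      L.rad k' (hmem i x hx).1 (hmem i x hx).2⟩) (hm t g) (hm t' g')
  have hsub : Lv ⊆ range j := fun i hi => mem_range.2 (L.lt i hi)
  rw [← sum_subset hsub fun i _ hi => by rw [if_neg hi, sum_empty],
    sum_congr rfl fun i hi => by rw [if_pos hi]] at key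
  refine (sum_le_sum fun i hi => L.one k k' A hd hi).trans ?_
  rw [← mul_sum]
  unfold kk
  linarith

lemma geo8 : (Γ : ℝ) * ∑ i ∈ Lv, (Γ : ℝ) ^ i * 8 ^ (j - i) ≤ 16 * (Γ : ℝ) ^ j := by
  have h1 : (16 : ℝ) ≤ Γ := by exact_mod_cast L.G16
  have h2 := geo (Γ := (Γ : ℝ)) (q := 8) (by norm_num) (by linarith) j
  refine le_trans (mul_le_mul_of_nonneg_left (sum_le_sum_of_subset_of_nonneg
    (fun i hi => mem_range.2 (L.lt i hi)) fun i _ _ => by positivity) (by linarith)) ?_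
  linarith

/-- all lower levels, averaged over the radii -/
theorem avg (I : Finset ℕ) (k : ∀ t ∈ I, Kn ρ P R v (t : ℕ)) {K : ℕ} (hK : Γ ≤ 2 ^ K)
    (hI : #I ≤ Γ ^ j) (A : W → Finset (Vx n))
    (hd : ∀ w w', w ≠ w' → Disjoint (spw z (A w) R v) (spw z (A w') R v)) :
    (Γ : ℝ) * ∑ t ∈ I, ∑ t' ∈ I, (∑ i ∈ Lv, ∑ w, ∑ x, ∑ y, c i x y *
        (|uu z ρ P (A w) R v (t : ℕ) x - uu z ρ P (A w) R v (t : ℕ) y| *
          |uu z ρ P (A w) R v (t' : ℕ) x - uu z ρ P (A w) R v (t' : ℕ) y|)) *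
        (2 : ℝ) ^ (kk Γ j t t' + 2) ≤
      819200 * (K : ℝ) ^ 2 * al * (∑ y ∈ Sh, μ y) * (Γ : ℝ) ^ j := by
  have hal := L.al0
  have hσ : 0 ≤ ∑ y ∈ Sh, μ y := sum_nonneg fun y _ => L.m0 y
  have h1 : ∀ i ∈ Lv, ∑ t ∈ I, ∑ t' ∈ I, (∑ w, ∑ x, ∑ y, c i x y *
        (|uu z ρ P (A w) R v (t : ℕ) x - uu z ρ P (A w) R v (t : ℕ) y| *
          |uu z ρ P (A w) R v (t' : ℕ) x - uu z ρ P (A w) R v (t' : ℕ) y|)) *
        (2 : ℝ) ^ (kk Γ j t t' + 2) ≤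
      51200 * (K : ℝ) ^ 2 * al * (∑ y ∈ Sh, μ y) * ((Γ : ℝ) ^ i * 8 ^ (j - i)) := fun i hi => by
    have h2 := avg_prof_sum (nearS z R v (Γ ^ i)) I (le_trans (by norm_num) L.G16) hK (L.lt i hi) hI
      (fun x => ∑ y, c i x y * min 1 (200 * (ds x y : ℝ) / vi i) ^ 2) (fun x => (ds z x : ℝ))
      (fun x _ => sum_nonneg fun y _ => mul_nonneg (L.c0 i hi x y) (sq_nonneg _))
      (fun x t => 12 * (Γ : ℝ) ^ i / max (6 * (Γ : ℝ) ^ i) |(t : ℝ) - ds z x|)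
      (fun x t => 12 * (Γ : ℝ) ^ i / max (6 * (Γ : ℝ) ^ i) |(t : ℝ) - ds z x|)
      (fun x _ t _ => L.prof i t x) fun x _ t _ => L.prof i t x
    have h3 := L.near_mass hi
    have h4 := zero_lt_one.trans_le (L.one_le i)
    calc _ ≤ ∑ t ∈ I, ∑ t' ∈ I, 2 * ((∑ x ∈ nearS z R v (Γ ^ i),
            (∑ y, c i x y * min 1 (200 * (ds x y : ℝ) / vi i) ^ 2) *
            (12 * (Γ : ℝ) ^ i / max (6 * (Γ : ℝ) ^ i) |((t : ℕ) : ℝ) - ds z x|) *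
            (12 * (Γ : ℝ) ^ i / max (6 * (Γ : ℝ) ^ i) |((t' : ℕ) : ℝ) - ds z x|)) *
            (2 : ℝ) ^ (kk Γ j t t' + 2)) := by
          refine sum_le_sum fun t ht => sum_le_sum fun t' ht' => ?_
          rw [← mul_assoc]
          refine mul_le_mul_of_nonneg_right ?_ (by positivity)
          simp only [mul_assoc (∑ y, _ : ℝ)]
          exact L.one (k t ht) (k t' ht') A hd hi
      _ ≤ 2 * (25600 * (K : ℝ) ^ 2 * 8 ^ (j - i) * ((Γ : ℝ) ^ i) ^ 2 *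
            (al * (∑ y ∈ Sh, μ y) / (Γ : ℝ) ^ i)) := by
          simp only [← mul_sum]
          refine mul_le_mul_of_nonneg_left (h2.trans ?_) (by norm_num)
          exact mul_le_mul_of_nonneg_left h3 (by positivity)
      _ = _ := by
          field_simp
          ring
  have h5 := mul_le_mul_of_nonneg_left L.geo8
    (by positivity : 0 ≤ 51200 * (K : ℝ) ^ 2 * al * ∑ y ∈ Sh, μ y)
  calc _ = (Γ : ℝ) * ∑ i ∈ Lv, ∑ t ∈ I, ∑ t' ∈ I, (∑ w, ∑ x, ∑ y, c i x y *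
        (|uu z ρ P (A w) R v (t : ℕ) x - uu z ρ P (A w) R v (t : ℕ) y| *
          |uu z ρ P (A w) R v (t' : ℕ) x - uu z ρ P (A w) R v (t' : ℕ) y|)) *
        (2 : ℝ) ^ (kk Γ j t t' + 2) := by
        congr 1
        refine Eq.trans (sum_congr rfl fun t _ => ?_) sum_comm
        exact (sum_congr rfl fun t' _ => sum_mul _ _ _).trans sum_comm
    _ ≤ (Γ : ℝ) * ∑ i ∈ Lv,
          51200 * (K : ℝ) ^ 2 * al * (∑ y ∈ Sh, μ y) * ((Γ : ℝ) ^ i * 8 ^ (j - i)) :=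
        mul_le_mul_of_nonneg_left (sum_le_sum h1) (Nat.cast_nonneg _)
    _ ≤ _ := by
        rw [← mul_sum]
        linarith

/-- the moved pairs of all lower levels -/
theorem moved (hv : 0 < v) {Mv : Vx n → Vx n → Prop}
    (hM : ∀ x y, Mv x y → ¬ (ds z x ≤ R ∧ ds z y ≤ R) ∧ ¬ (R + v ≤ ds z x ∧ R + v ≤ ds z y)) :
    (Γ : ℝ) * (v : ℝ) ^ 2 * ∑ i ∈ Lv, ∑ x, ∑ y,
        keep Mv (c i) x y * min 1 (200 * (ds x y : ℝ) / v) ^ 2 ≤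
      720000 * al * (∑ y ∈ Sh, μ y) * (Γ : ℝ) ^ j := by
  have hal := L.al0
  have hσ : 0 ≤ ∑ y ∈ Sh, μ y := sum_nonneg fun y _ => L.m0 y
  have hv' : (0 : ℝ) < v := by exact_mod_cast hv
  have h0 : (16 : ℝ) ≤ Γ := by exact_mod_cast L.G16
  have h1 : ∀ i ∈ Lv, (v : ℝ) ^ 2 * ∑ x, ∑ y,
      keep Mv (c i) x y * min 1 (200 * (ds x y : ℝ) / v) ^ 2 ≤
        360000 * al * (∑ y ∈ Sh, μ y) * (Γ : ℝ) ^ i := fun i hi => by
    have h2 := moved_low (z := z) (R := R) (v := v) (Mv := Mv) (L.c0 i hi)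
      (fun x y h => by exact_mod_cast hM x y h) (L.v0 i hi).1 hv' (L.v0 i hi).2.1 (L.suppR hi) _
      fun x a b => mem_nearS a b
    have h3 := L.near_mass hi
    have h4 := zero_lt_one.trans_le (L.one_le i)
    refine (mul_le_mul_of_nonneg_left (h2.trans (mul_le_mul_of_nonneg_left h3 (sq_nonneg _)))
      (sq_nonneg _)).trans (le_of_eq ?_)
    field_simp
    ring
  have h2 := geo (Γ := (Γ : ℝ)) (q := 1) (by norm_num) (by linarith) j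
  simp only [one_pow, mul_one] at h2
  have h3 : (Γ : ℝ) * ∑ i ∈ Lv, (Γ : ℝ) ^ i ≤ 2 * (Γ : ℝ) ^ j :=
    le_trans (mul_le_mul_of_nonneg_left (sum_le_sum_of_subset_of_nonneg
      (fun i hi => mem_range.2 (L.lt i hi)) fun i _ _ => by positivity) (by linarith)) h2
  have h4 := mul_le_mul_of_nonneg_left h3 (by positivity : 0 ≤ 360000 * al * ∑ y ∈ Sh, μ y)
  have h5 := mul_le_mul_of_nonneg_left (sum_le_sum h1) (by linarith : (0 : ℝ) ≤ Γ)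
  rw [← mul_sum, ← mul_sum] at h5
  linarith

end Low

end Pool.Agent.Lib.MP_9cc147_pr.AllU.E
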