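import Pool.Agent.Lib.MP_9cc147_pr.U.EKink
import Pool.Agent.Lib.MP_9cc147_pr.U.EConv

/-! Exceptional phase: the end of a colour, the grid, and the moved pairs of the levels. -/

open Finset

namespace Pool.Agent.Lib.MP_9cc147_pr.AllU.E

variable {n : ℕ}

/-- balls around the slots of one colour have bounded overlap -/
theorem overlap (T : Finset (Vx n)) {μ : Vx n → ℝ} (hμ : ∀ x, 0 ≤ μ x) {s r : ℕ} (hs : 0 < s)
    (hsep : ∀ a ∈ T, ∀ b ∈ T, a ≠ b → 16 * s ≤ ds a b) (hr : r ≤ 3072 * s) (O2 : Finset (Vx n))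
    (hO : ∀ c ∈ T, ∀ y, ds c y ≤ r → y ∈ O2) :
    ∑ c ∈ T, ∑ y with ds c y ≤ r, μ y ≤ 160000 * ∑ y ∈ O2, μ y := by
  have h1 : ∀ c ∈ T, ∑ y with ds c y ≤ r, μ y = ∑ y ∈ O2, if ds c y ≤ r then μ y else 0 := by
    intro c hc
    rw [← sum_filter]
    refine sum_congr ?_ fun _ _ => rfl
    ext y
    simp only [mem_filter, mem_univ, true_and]
    exact ⟨fun h => ⟨hO c hc y h, h⟩, fun h => h.2⟩
  rw [sum_congr rfl h1, sum_comm, mul_sum]
  refine sum_le_sum fun y _ => ?_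
  rw [← sum_filter, sum_const, nsmul_eq_mul]
  refine mul_le_mul_of_nonneg_right ?_ (hμ y)
  have h2 := packing (T.filter fun c => ds c y ≤ r) y (s := 16 * s) 192 (by omega)
    (fun x hx => by have := (mem_filter.1 hx).2; rw [ds_comm]; omega)
    fun a ha b hb e => hsep a (mem_filter.1 ha).1 b (mem_filter.1 hb).1 e
  have h3 : (T.filter fun c => ds c y ≤ r).card ≤ 160000 := h2.trans (by norm_num)
  exact_mod_cast h3

open Classical in
/-- the running inequality of a colour gives the closed inequality for the next colour -/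
theorem colour_end (T : Finset (Vx n)) (a : Vx n → ℝ) {μs μ : Vx n → ℝ} (hμ : ∀ x, 0 ≤ μs x)
    (h2 : ∀ x, μs x ≤ 2 * μ x) {s D : ℕ} {A b : ℝ} (hA : 0 ≤ A) (hb : 0 ≤ b) (hs : 0 < s)
    (hsep : ∀ c ∈ T, ∀ c' ∈ T, c ≠ c' → 16 * s ≤ ds c c') (hD : D + 6 ≤ 3072)
    (h : ∀ O O2 : Finset (Vx n), (∀ x ∈ O, ∀ y, ds x y ≤ D * s → y ∈ O2) →
      ∑ x ∈ O, a x ≤ A * (∑ y ∈ O2, μs y) / s +
        ∑ c ∈ T with ∃ x ∈ O, ds c x ≤ 6 * s, b * (∑ y with ds c y ≤ (D + 6) * s, μs y) / s)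
    (O O2 : Finset (Vx n)) (hO : ∀ x ∈ O, ∀ y, ds x y ≤ (D + 12) * s → y ∈ O2) :
    ∑ x ∈ O, a x ≤ 2 * (A + 160000 * b) * (∑ y ∈ O2, μ y) / s := by
  have e1 : (D + 12) * s = D * s + 12 * s := by ring
  have e2 : (D + 6) * s = D * s + 6 * s := by ring
  have h3 := h O O2 fun x hx y hy => hO x hx y (by omega)
  have h4 := overlap (T.filter fun c => ∃ x ∈ O, ds c x ≤ 6 * s) hμ (r := (D + 6) * s) hs
    (fun c hc c' hc' e => hsep c (mem_filter.1 hc).1 c' (mem_filter.1 hc').1 e)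
    (Nat.mul_le_mul_right _ hD) O2 (by
      intro c hc y hy
      obtain ⟨x, hx, hcx⟩ := (mem_filter.1 hc).2
      have := ds_tri x c y
      rw [ds_comm x c] at this
      exact hO x hx y (by omega))
  have h5 : ∑ y ∈ O2, μs y ≤ 2 * ∑ y ∈ O2, μ y := by
    rw [mul_sum]; exact sum_le_sum fun y _ => h2 y
  rw [← sum_div, ← mul_sum, ← add_div] at h3
  refine h3.trans (div_le_div_of_nonneg_right ?_ (Nat.cast_nonneg _))
  have h6 := mul_le_mul_of_nonneg_left h4 hb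
  have h7 := mul_le_mul_of_nonneg_left h5 (show 0 ≤ A + 160000 * b by positivity)
  nlinarith

/-- corner of the cell of `x` -/
def gz (s : ℕ) (x : Vx n) : Vx n :=
  (⟨x.1 / s * s, (Nat.div_mul_le_self _ _).trans_lt x.1.2⟩,
    ⟨x.2 / s * s, (Nat.div_mul_le_self _ _).trans_lt x.2.2⟩)

/-- colour of a grid point -/
def col (s : ℕ) (z : Vx n) : ℕ := z.1 / s % 16 + 16 * (z.2 / s % 16)

lemma col_lt (s : ℕ) (z : Vx n) : col s z < 256 := by unfold col; omega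

lemma gz_ds {s : ℕ} (hs : 0 < s) (x : Vx n) : ds (gz s x) x < s := by
  have a1 := Nat.div_add_mod' x.1 s
  have a2 := Nat.div_add_mod' x.2 s
  have a3 := Nat.mod_lt x.1 hs
  have a4 := Nat.mod_lt x.2 hs
  unfold ds gz
  dsimp only
  generalize (x.1 : ℕ) / s * s = p at *
  generalize (x.2 : ℕ) / s * s = q at *
  omega

lemma gz_gz {s : ℕ} (hs : 0 < s) (x : Vx n) : gz s (gz s x) = gz s x := by
  unfold gz
  simp only [Nat.mul_div_cancel _ hs]

lemma grid_aux {s a b : ℕ} (h : a % 16 = b % 16) (hab : a < b) : a * s + 16 * s ≤ b * s := by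
  rw [← add_mul]
  exact Nat.mul_le_mul_right _ (by omega)

/-- two grid points of one colour are far apart -/
lemma grid_sep {s : ℕ} {z z' : Vx n} (hz : gz s z = z) (hz' : gz s z' = z')
    (hc : col s z = col s z') (hne : z ≠ z') : 16 * s ≤ ds z z' := by
  have a1 : (z.1 : ℕ) / s * s = z.1 := congrArg (fun p : Vx n => (p.1 : ℕ)) hz
  have a2 : (z.2 : ℕ) / s * s = z.2 := congrArg (fun p : Vx n => (p.2 : ℕ)) hz
  have b1 : (z'.1 : ℕ) / s * s = z'.1 := congrArg (fun p : Vx n => (p.1 : ℕ)) hz'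
  have b2 : (z'.2 : ℕ) / s * s = z'.2 := congrArg (fun p : Vx n => (p.2 : ℕ)) hz'
  unfold col at hc
  have c1 : (z.1 : ℕ) / s % 16 = z'.1 / s % 16 := by omega
  have c2 : (z.2 : ℕ) / s % 16 = z'.2 / s % 16 := by omega
  unfold ds
  rcases lt_trichotomy ((z.1 : ℕ) / s) (z'.1 / s) with h | h | h
  · have := grid_aux (s := s) c1 h; omega
  · rcases lt_trichotomy ((z.2 : ℕ) / s) (z'.2 / s) with h' | h' | h'
    · have := grid_aux (s := s) c2 h'; omega
    · exfalso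
      apply hne
      rw [h] at a1
      rw [h'] at a2
      ext <;> omega
    · have := grid_aux (s := s) c2.symm h'; omega
  · have := grid_aux (s := s) c1.symm h; omega

/-- the linear profile costs at most the weight of the level -/
theorem mov_chi (Mv : Vx n → Vx n → Prop) {c : Vx n → Vx n → ℝ} (hc : ∀ x y, 0 ≤ c x y) (z : Vx n)
    {R v : ℝ} (hv : 0 < v) : Qc (keep Mv c) (chi z R v) ≤
      ∑ x, ∑ y, keep Mv c x y * min 1 (200 * (ds x y : ℝ) / v) ^ 2 := by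
  unfold Qc
  refine sum_le_sum fun x _ => sum_le_sum fun y _ =>
    mul_le_mul_of_nonneg_left ?_ (keep_nonneg hc x y)
  rw [← sq_abs]
  refine pow_le_pow_left₀ (abs_nonneg _) (le_min ?_ ((chi_lip hv x y).trans ?_)) 2
  · have h1 := chi_nonneg (z := z) (R := R) (v := v) (x := x)
    have h2 := chi_le_one (z := z) (R := R) (v := v) (x := x)
    have h3 := chi_nonneg (z := z) (R := R) (v := v) (x := y)
    have h4 := chi_le_one (z := z) (R := R) (v := v) (x := y)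
    rw [abs_le]; constructor <;> linarith
  · have : (0 : ℝ) ≤ ds x y := Nat.cast_nonneg _
    exact div_le_div_of_nonneg_right (by linarith) hv.le

lemma e_le {d s vi v : ℝ} (hd : 0 ≤ d) (hds : d ≤ 3 * s) (h0 : 0 < vi) (hvi : vi ≤ 600 * s)
    (hv : 0 < v) : min 1 (200 * d / v) ^ 2 ≤ min 1 (200 * d / vi) ^ 2 * (600 * s / v) ^ 2 := by
  rw [← mul_pow]
  refine pow_le_pow_left₀ (le_min zero_le_one (by positivity)) ((min_le_right _ _).trans ?_) 2
  rcases le_total 1 (200 * d / vi) with h | h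
  · rw [min_eq_left h, one_mul]
    exact div_le_div_of_nonneg_right (by linarith) hv.le
  · rw [min_eq_right h, ← mul_div_assoc]
    refine div_le_div_of_nonneg_right ?_ hv.le
    rw [div_mul_eq_mul_div, le_div_iff₀ h0]
    exact mul_le_mul_of_nonneg_left hvi (by positivity)

/-- moved pairs of one lower level -/
theorem mov_low {Mv : Vx n → Vx n → Prop} {c : Vx n → Vx n → ℝ} (hc : ∀ x y, 0 ≤ c x y) {z : Vx n}
    {R v s D : ℕ} {vi al : ℝ} {μ : Vx n → ℝ} {Sh : Finset (Vx n)} (hv : 0 < v) (hs : 0 < s)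
    (h0 : 0 < vi) (hvi : vi ≤ 600 * s) (hD : D + 3 * s ≤ 10 * v)
    (hMv : ∀ x y, Mv x y → (R < ds z x ∨ R < ds z y) ∧ (ds z x < R + v ∨ ds z y < R + v))
    (hS : ∀ x y, c x y ≠ 0 → ds x y ≤ 3 * s)
    (hSh : ∀ y, R < ds z y + 10 * v → ds z y ≤ R + 20 * v → y ∈ Sh)
    (hR : ∀ O O2 : Finset (Vx n), (∀ x ∈ O, ∀ y, ds x y ≤ D → y ∈ O2) →
      ∑ x ∈ O, ∑ y, c x y * min 1 (200 * (ds x y : ℝ) / vi) ^ 2 ≤ al * (∑ y ∈ O2, μ y) / s) :
    ∑ x, ∑ y, keep Mv c x y * min 1 (200 * (ds x y : ℝ) / v) ^ 2 ≤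
      360000 * al * (∑ y ∈ Sh, μ y) * s / v ^ 2 := by
  have hv' : (0 : ℝ) < v := by exact_mod_cast hv
  have hs' : (0 : ℝ) < s := by exact_mod_cast hs
  have h1 := hR (univ.filter fun x => R < ds z x + 3 * s ∧ ds z x < R + v + 3 * s) Sh (by
    intro x hx y hy
    have a0 := (mem_filter.1 hx).2
    have a1 := ds_tri z x y
    have a2 := ds_tri z y x
    rw [ds_comm y x] at a2
    exact hSh y (by omega) (by omega))
  have h2 : ∀ x : Vx n, ∑ y, keep Mv c x y * min 1 (200 * (ds x y : ℝ) / v) ^ 2 ≤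
      if R < ds z x + 3 * s ∧ ds z x < R + v + 3 * s then
        (∑ y, c x y * min 1 (200 * (ds x y : ℝ) / vi) ^ 2) * (600 * s / v) ^ 2 else 0 := by
    intro x
    split_ifs with hx
    · rw [sum_mul]
      refine sum_le_sum fun y _ => ?_
      by_cases e : c x y = 0
      · have := keep_le (P := Mv) hc x y
        have := keep_nonneg (P := Mv) hc x y
        have e' : keep Mv c x y = 0 := by linarith
        rw [e, e', zero_mul, zero_mul, zero_mul]
      · rw [mul_assoc]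
        exact mul_le_mul (keep_le hc x y) (e_le (Nat.cast_nonneg _)
          (by exact_mod_cast hS x y e) h0 hvi hv') (sq_nonneg _) (hc x y)
    · refine le_of_eq (sum_eq_zero fun y _ => ?_)
      by_cases e : keep Mv c x y = 0
      · rw [e, zero_mul]
      · exfalso
        have a0 := hMv x y (keep_ne e).1
        have a1 := hS x y (keep_ne e).2
        have a2 := ds_tri z x y
        have a3 := ds_tri z y x
        rw [ds_comm y x] at a3
        omega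
  refine (sum_le_sum fun x _ => h2 x).trans ?_
  rw [← sum_filter, ← sum_mul]
  refine (mul_le_mul_of_nonneg_right h1 (sq_nonneg _)).trans (le_of_eq ?_)
  field_simp
  ring

lemma pow_sum_le {Γ : ℕ} (hΓ : 2 ≤ Γ) (j : ℕ) :
    ∑ i ∈ range (j + 1), (Γ : ℝ) ^ i ≤ 2 * (Γ : ℝ) ^ j := by
  have h : (2 : ℝ) ≤ Γ := by exact_mod_cast hΓ
  induction j with
  | zero => simp
  | succ j ih =>
    rw [sum_range_succ, pow_succ]
    have : (0 : ℝ) ≤ (Γ : ℝ) ^ j := by positivity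
    nlinarith

/-- moved pairs of all lower levels -/
theorem mov_levels {Mv : Vx n → Vx n → Prop} {c : ℕ → Vx n → Vx n → ℝ} {z : Vx n} {Γ j : ℕ}
    (hΓ : 2 ≤ Γ) (T : Finset ℕ) (hT : ∀ i ∈ T, i < j) (hc : ∀ i ∈ T, ∀ x y, 0 ≤ c i x y)
    {R v : ℕ} {vi : ℕ → ℝ} {al : ℝ} {μ : Vx n → ℝ} {Sh : Finset (Vx n)} (hal : 0 ≤ al)
    (hμ : ∀ x, 0 ≤ μ x) (hv : 0 < v) (h0 : ∀ i ∈ T, 0 < vi i ∧ vi i ≤ 600 * (Γ : ℝ) ^ i)
    (hD : 3103 * Γ ^ (j - 1) ≤ 10 * v)
    (hMv : ∀ x y, Mv x y → (R < ds z x ∨ R < ds z y) ∧ (ds z x < R + v ∨ ds z y < R + v))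
    (hS : ∀ i ∈ T, ∀ x y, c i x y ≠ 0 → ds x y ≤ 3 * Γ ^ i)
    (hSh : ∀ y, R < ds z y + 10 * v → ds z y ≤ R + 20 * v → y ∈ Sh)
    (hR : ∀ i ∈ T, ∀ O O2 : Finset (Vx n), (∀ x ∈ O, ∀ y, ds x y ≤ 3100 * Γ ^ i → y ∈ O2) →
      ∑ x ∈ O, ∑ y, c i x y * min 1 (200 * (ds x y : ℝ) / vi i) ^ 2 ≤
        al * (∑ y ∈ O2, μ y) / (Γ : ℝ) ^ i) :
    ∑ i ∈ T, ∑ x, ∑ y, keep Mv (c i) x y * min 1 (200 * (ds x y : ℝ) / v) ^ 2 ≤
      720000 * al * (∑ y ∈ Sh, μ y) * (Γ : ℝ) ^ (j - 1) / v ^ 2 := by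
  have hσ : 0 ≤ ∑ y ∈ Sh, μ y := sum_nonneg fun y _ => hμ y
  have h1 : ∀ i ∈ T, ∑ x, ∑ y, keep Mv (c i) x y * min 1 (200 * (ds x y : ℝ) / v) ^ 2 ≤
      360000 * al * (∑ y ∈ Sh, μ y) / v ^ 2 * (Γ : ℝ) ^ i := by
    intro i hi
    have a1 : Γ ^ i ≤ Γ ^ (j - 1) := Nat.pow_le_pow_right (by omega) (by have := hT i hi; omega)
    have a2 := mov_low (Mv := Mv) (hc i hi) (s := Γ ^ i) (D := 3100 * Γ ^ i) (al := al) (μ := μ) hv
      (by positivity) (h0 i hi).1 (by push_cast; exact (h0 i hi).2) (by omega) hMv (hS i hi) hSh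
      (by push_cast; exact hR i hi)
    refine a2.trans (le_of_eq ?_)
    push_cast
    ring
  refine (sum_le_sum h1).trans ?_
  rw [← mul_sum]
  have h2 : ∑ i ∈ T, (Γ : ℝ) ^ i ≤ 2 * (Γ : ℝ) ^ (j - 1) := by
    refine le_trans (sum_le_sum_of_subset_of_nonneg (fun i hi => ?_) fun i _ _ => by positivity)
      (pow_sum_le hΓ (j - 1))
    have := hT i hi
    rw [mem_range]
    omega
  refine (mul_le_mul_of_nonneg_left h2 (by positivity)).trans (le_of_eq ?_)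
  ring

/-- moved pairs of the current level start in the ball of radius `6 s` -/
theorem mov_top {Mv : Vx n → Vx n → Prop} {c e : Vx n → Vx n → ℝ} (hc : ∀ x y, 0 ≤ c x y)
    (he : ∀ x y, 0 ≤ e x y) {z : Vx n} {r s : ℕ} (hr : r ≤ 3 * s)
    (hMv : ∀ x y, Mv x y → ds z x < r ∨ ds z y < r) (hS : ∀ x y, c x y ≠ 0 → ds x y ≤ 3 * s) :
    ∑ x, ∑ y, keep Mv c x y * e x y ≤ ∑ x with ds z x ≤ 6 * s, ∑ y, c x y * e x y := by
  rw [sum_filter]
  refine sum_le_sum fun x _ => ?_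
  split_ifs with hx
  · exact sum_le_sum fun y _ => mul_le_mul_of_nonneg_right (keep_le hc x y) (he x y)
  · refine le_of_eq (sum_eq_zero fun y _ => ?_)
    by_cases e' : keep Mv c x y = 0
    · rw [e', zero_mul]
    · exfalso
      have a0 := hMv x y (keep_ne e').1
      have a1 := hS x y (keep_ne e').2
      have a3 := ds_tri z y x
      rw [ds_comm y x] at a3
      omega

end Pool.Agent.Lib.MP_9cc147_pr.AllU.E
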