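import Pool.Agent.Lib.MP_9cc147_pr.U.EPar

/-! Exceptional phase: numerical consequences of `Par`. `s1` is the previous scale, `Λ * s1` the
ring width, `Γ * s1` the current scale. -/

open Finset

namespace Pool.Agent.Lib.MP_9cc147_pr.AllU.E

/-- failure probability of one ring -/
noncomputable def pp (g Γ : ℕ) : ℝ := cI / (100 * (40000 * g) * Γ)

/-- relative mass of the shell -/
noncomputable def ka (g Λ Γ : ℕ) : ℝ := 200 * g * Λ / Γ

lemma geo8 {Γ : ℕ} (hΓ : 16 ≤ Γ) (j : ℕ) :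
    ∑ i ∈ range (j + 1), (8 : ℝ) ^ (j + 1 - i) * (Γ : ℝ) ^ i ≤ 16 * (Γ : ℝ) ^ j := by
  have hΓ' : (16 : ℝ) ≤ Γ := by exact_mod_cast hΓ
  induction j with
  | zero => norm_num
  | succ j ih =>
    rw [sum_range_succ]
    have e : ∑ i ∈ range (j + 1), (8 : ℝ) ^ (j + 1 + 1 - i) * (Γ : ℝ) ^ i =
        8 * ∑ i ∈ range (j + 1), (8 : ℝ) ^ (j + 1 - i) * (Γ : ℝ) ^ i := by
      rw [mul_sum]
      refine sum_congr rfl fun i hi => ?_
      rw [show j + 1 + 1 - i = (j + 1 - i) + 1 by have := mem_range.1 hi; omega]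
      ring
    rw [e, show j + 1 + 1 - (j + 1) = 1 by omega, pow_succ (Γ : ℝ) j]
    have : (0 : ℝ) ≤ (Γ : ℝ) ^ j := by positivity
    nlinarith

lemma geo1 {Γ : ℕ} (hΓ : 16 ≤ Γ) (j : ℕ) :
    ∑ i ∈ range (j + 1), (Γ : ℝ) ^ i ≤ 16 * (Γ : ℝ) ^ j := by
  refine le_trans (sum_le_sum fun i _ => ?_) (geo8 hΓ j)
  exact le_mul_of_one_le_left (by positivity) (one_le_pow₀ (by norm_num))

namespace Par

variable {C β al : ℝ} {g Λ Γ : ℕ} (h : Par C g Λ Γ β al) (hC : 10 ^ 30 ≤ C)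
include h

lemma gR : (1 : ℝ) ≤ g := by exact_mod_cast h.g1

include hC

lemma g_big : 10 ^ 30 ≤ g := by
  have : ((10 ^ 30 : ℕ) : ℝ) ≤ g := by push_cast; linarith [h.Cg]
  exact_mod_cast this

lemma L_big : 10 ^ 30 * g ≤ Λ := by
  have h1 := h.gR
  have h2 : (g : ℝ) ≤ g ^ 3 := le_self_pow₀ h1 (by norm_num)
  have : ((10 ^ 30 * g : ℕ) : ℝ) ≤ Λ := by
    rw [Nat.cast_mul, Nat.cast_pow, Nat.cast_ofNat]
    calc (10 : ℝ) ^ 30 * g ≤ C * g ^ 3 := by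
          have : (0 : ℝ) ≤ C := le_trans (by norm_num) hC
          gcongr
      _ ≤ _ := h.gL
  exact_mod_cast this

lemma G_big : 10 ^ 30 * (g * Λ) ≤ Γ := by
  have : ((10 ^ 30 * (g * Λ) : ℕ) : ℝ) ≤ Γ := by
    rw [Nat.cast_mul, Nat.cast_pow, Nat.cast_ofNat, Nat.cast_mul]
    calc (10 : ℝ) ^ 30 * (g * Λ) ≤ C * (g * Λ) := by gcongr
      _ = C * g * Λ := by ring
      _ ≤ _ := h.LG
  exact_mod_cast this

lemma L_num : 10 ^ 30 ≤ Λ := le_trans (Nat.le_mul_of_pos_right _ h.g1) (h.L_big hC)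

lemma LG_num : 10 ^ 30 * Λ ≤ Γ :=
  le_trans (Nat.mul_le_mul_left _ (Nat.le_mul_of_pos_left _ h.g1)) (h.G_big hC)

lemma G_num : 10 ^ 30 ≤ Γ := by
  have := h.L_num hC
  have := h.LG_num hC
  omega

lemma LR : (10 : ℝ) ^ 30 ≤ Λ := by exact_mod_cast h.L_num hC
lemma GR : (10 : ℝ) ^ 30 ≤ Γ := by exact_mod_cast h.G_num hC
lemma L_pos : (0 : ℝ) < Λ := lt_of_lt_of_le (by norm_num) (h.LR hC)
lemma G_pos : (0 : ℝ) < Γ := lt_of_lt_of_le (by norm_num) (h.GR hC)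
lemma gG : (g : ℝ) * Λ * 10 ^ 30 ≤ Γ := by
  have : ((10 ^ 30 * (g * Λ) : ℕ) : ℝ) ≤ Γ := by exact_mod_cast h.G_big hC
  push_cast at this
  linarith

omit h hC in
lemma N_lo (s1 : ℕ) : 30 * (Λ * s1) * (Γ / (30 * Λ)) ≤ Γ * s1 := by
  have := Nat.mul_div_le Γ (30 * Λ)
  calc 30 * (Λ * s1) * (Γ / (30 * Λ)) = 30 * Λ * (Γ / (30 * Λ)) * s1 := by ring
    _ ≤ _ := Nat.mul_le_mul_right _ this

lemma N_hi0 : Γ ≤ 60 * Λ * (Γ / (30 * Λ)) := by
  have h1 := h.L_num hC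
  have h2 := h.LG_num hC
  have h3 := Nat.div_add_mod Γ (30 * Λ)
  have h4 := Nat.mod_lt Γ (show 0 < 30 * Λ by omega)
  have h5 : 1 ≤ Γ / (30 * Λ) := (Nat.le_div_iff_mul_le (by omega)).2 (by omega)
  have h6 : 30 * Λ * 1 ≤ 30 * Λ * (Γ / (30 * Λ)) := Nat.mul_le_mul_left _ h5
  have h7 : 60 * Λ * (Γ / (30 * Λ)) = 2 * (30 * Λ * (Γ / (30 * Λ))) := by ring
  omega

lemma N_hi (s1 : ℕ) : Γ * s1 ≤ 60 * (Λ * s1) * (Γ / (30 * Λ)) := by
  calc Γ * s1 ≤ 60 * Λ * (Γ / (30 * Λ)) * s1 := Nat.mul_le_mul_right _ (h.N_hi0 hC)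
    _ = _ := by ring

omit h hC in
lemma ka_nonneg : 0 ≤ ka g Λ Γ := by unfold ka; positivity

lemma ka_le_one : ka g Λ Γ ≤ 1 := by
  unfold ka
  rw [div_le_one (h.G_pos hC)]
  have := h.gG hC
  have : (0 : ℝ) ≤ (g : ℝ) * Λ := by positivity
  nlinarith

lemma ka_N : 2 ≤ ka g Λ Γ * ((Γ / (30 * Λ) : ℕ) : ℝ) := by
  unfold ka
  have h1 : (Γ : ℝ) ≤ 60 * Λ * ((Γ / (30 * Λ) : ℕ) : ℝ) := by exact_mod_cast h.N_hi0 hC
  have h2 := h.gR
  have h3 := h.G_pos hC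
  rw [div_mul_eq_mul_div, le_div_iff₀ h3]
  have h4 : (0 : ℝ) ≤ Λ * ((Γ / (30 * Λ) : ℕ) : ℝ) := by positivity
  nlinarith

omit hC in
/-- hypothesis `h1` of `shell_choice` with `m0 = cI * s1` -/
lemma shell_grow {s1 m : ℝ} (hs : 0 < s1) (hm : m ≤ Γ * s1) :
    m < cI * s1 * (1 + ka g Λ Γ) ^ (Γ / (30 * Λ) / 2) := by
  have h1 := h.grow
  rw [div_lt_iff₀ cI_pos] at h1
  unfold ka
  nlinarith

/-- the shell is light: `40 * sig ≤ Hh * v` -/
lemma sig_le {s1 mt sig : ℝ} (h1 : sig ≤ ka g Λ Γ * mt) (h2 : mt ≤ Γ * s1) :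
    sig ≤ 200 * g * (Λ * s1) := by
  have h3 := h.G_pos hC
  calc sig ≤ ka g Λ Γ * (Γ * s1) := h1.trans (mul_le_mul_of_nonneg_left h2 ka_nonneg)
    _ = _ := by unfold ka; field_simp

lemma card_le {s1 mt a : ℝ} (hs : 0 < s1) (h1 : a * (cI * s1) ≤ ka g Λ Γ * mt)
    (h2 : mt ≤ Γ * s1) : a ≤ Γ / cI := by
  rw [le_div_iff₀ cI_pos]
  have h3 : ka g Λ Γ * mt ≤ 1 * (Γ * s1) := by
    calc ka g Λ Γ * mt ≤ ka g Λ Γ * (Γ * s1) := mul_le_mul_of_nonneg_left h2 ka_nonneg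
      _ ≤ _ := mul_le_mul_of_nonneg_right (h.ka_le_one hC) (by have := h.G_pos hC; positivity)
  have : a * cI * s1 ≤ Γ * s1 := by linarith
  exact le_of_mul_le_mul_right this hs

omit hC in
/-- the mass put on the net is at most a quarter of the mass inside -/
lemma mass_drop {s1 mt a : ℝ} (hm : 0 ≤ mt) (h1 : a * (cI * s1) ≤ ka g Λ Γ * mt) :
    a * (4 * (40000 * g) * (Λ * s1)) ≤ mt / 4 := by
  have h2 : 16 * (40000 * g) * Λ * ka g Λ Γ ≤ cI := h.mass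
  have h3 : (0 : ℝ) ≤ 4 * (40000 * g) * Λ := by positivity
  have h4 := mul_le_mul_of_nonneg_left h1 h3
  have h5 := mul_le_mul_of_nonneg_right h2 hm
  have : cI * (a * (4 * (40000 * g) * (Λ * s1))) ≤ cI * (mt / 4) := by nlinarith
  exact le_of_mul_le_mul_left this cI_pos

lemma pp_pos : 0 < pp g Γ := by
  have := h.gR; have := h.G_pos hC; have := cI_pos
  unfold pp; positivity

lemma pp_le : pp g Γ ≤ 1 / 2 := by
  have h1 := h.gR; have h2 := h.GR hC; have h3 := cI_le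
  unfold pp
  rw [div_le_iff₀ (by have := h.G_pos hC; positivity)]
  nlinarith

omit hC in
lemma pp_fail {a : ℝ} (ha : a ≤ Γ / cI) :
    a * (27 / 28 : ℝ) ^ g + 8 * Real.exp (-(10 / (1 / g : ℝ))) ≤ pp g Γ := by
  have h1 := h.fail
  rw [show (10 / (1 / g : ℝ)) = 10 * g by rw [div_div_eq_mul_div, div_one]]
  have : a * (27 / 28 : ℝ) ^ g ≤ Γ / cI * (27 / 28) ^ g := by gcongr
  unfold pp
  linarith

omit hC in
lemma pp_fail0 {a : ℝ} (ha : a ≤ Γ / cI) : a * (27 / 28 : ℝ) ^ g ≤ pp g Γ := by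
  have := h.pp_fail ha
  have := Real.exp_pos (-(10 / (1 / g : ℝ)))
  linarith

/-- the mean mass does not grow in one ring -/
lemma drift {s1 mt : ℝ} (hs : 0 ≤ s1) (hm : cI * s1 ≤ mt) :
    pp g Γ * (12 * (40000 * g) * (Γ * s1)) ≤ (1 - pp g Γ) * (mt / 4) := by
  have h1 := h.gR; have h2 := h.G_pos hC; have h3 := h.pp_le hC
  have h4 : 0 ≤ cI * s1 := mul_nonneg cI_pos.le hs
  have e : pp g Γ * (12 * (40000 * g) * (Γ * s1)) = 12 / 100 * (cI * s1) := by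
    unfold pp; field_simp
  rw [e]
  nlinarith

/-- the value of the claim after one ring -/
lemma mixture {lam S s1 mt m m1 m0 : ℝ} (hS : 0 < S) (hs : 0 ≤ s1) (hm : cI * s1 ≤ mt)
    (h1 : m1 ≤ m - mt / 4) (h0 : m0 ≤ m + 12 * (40000 * g) * (Γ * s1)) :
    (1 - pp g Γ) * (1 - lam ^ 2 / 200 * (1 - m1 / S)) +
      pp g Γ * (1 - lam ^ 2 / 200 * (1 - m0 / S)) ≤ 1 - lam ^ 2 / 200 * (1 - m / S) := by
  have h2 := h.drift hC hs hm
  have h3 := h.pp_le hC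
  have h4 := h.pp_pos hC
  have h5 : (1 - pp g Γ) * m1 + pp g Γ * m0 ≤ m := by nlinarith
  have h6 : ((1 - pp g Γ) * m1 + pp g Γ * m0) / S ≤ m / S := by gcongr
  have h7 : 0 ≤ lam ^ 2 / 200 := by positivity
  have h8 := mul_le_mul_of_nonneg_left h6 h7
  have e : (1 - pp g Γ) * (1 - lam ^ 2 / 200 * (1 - m1 / S)) +
      pp g Γ * (1 - lam ^ 2 / 200 * (1 - m0 / S)) = 1 - lam ^ 2 / 200 +
        lam ^ 2 / 200 * (((1 - pp g Γ) * m1 + pp g Γ * m0) / S) := by ring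
  rw [e]
  linarith

lemma final {lam S m : ℝ} (hS : 0 < S) (hm : 0 ≤ m) :
    (1 - pp g Γ) * (1 - lam ^ 2 / 100) + pp g Γ ≤ 1 - lam ^ 2 / 200 * (1 - m / S) := by
  have h3 := h.pp_le hC
  have h7 : 0 ≤ lam ^ 2 / 200 := by positivity
  have h8 : 0 ≤ lam ^ 2 / 200 * (m / S) := by positivity
  nlinarith

omit hC in
lemma al_le_A : al ≤ kap g ^ 256 * al :=
  le_mul_of_one_le_left h.al0.le (one_le_pow₀ (one_le_kap g))

omit hC in
lemma A_mono {k : ℕ} (hk : k ≤ 256) : kap g ^ k * al ≤ kap g ^ 256 * al :=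
  mul_le_mul_of_nonneg_right (pow_le_pow_right₀ (one_le_kap g) hk) h.al0.le

omit hC in
lemma A_pos : 0 < kap g ^ 256 * al := h.al0.trans_le h.al_le_A

omit hC in
/-- master inequality for terms `K * g ^ 3 * al_256` -/
lemma A_small {K : ℝ} (hK : K ≤ C) : K * (g ^ 3 * (kap g ^ 256 * al)) ≤ 1 := by
  have h1 := h.A_pos
  have h2 := h.gR
  calc K * (g ^ 3 * (kap g ^ 256 * al)) ≤ C * (g ^ 3 * (kap g ^ 256 * al)) :=
        mul_le_mul_of_nonneg_right hK (mul_nonneg (pow_nonneg (by linarith) 3) h1.le)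
    _ = C * g ^ 3 * kap g ^ 256 * al := by ring
    _ ≤ 1 := h.alg

omit hC in
lemma lamA {K : ℝ} (h0 : 0 ≤ K) (hK : 18 * K ≤ C) :
    9 * (g + 1) * (K * (g * (kap g ^ 256 * al))) ≤ 1 := by
  have h1 := h.A_pos
  have h2 := h.gR
  refine le_trans ?_ (h.A_small hK)
  generalize kap g ^ 256 * al = A at h1
  have h3 : 9 * ((g : ℝ) + 1) * g ≤ 18 * g ^ 3 := by nlinarith [mul_pos (by linarith : (0 : ℝ) < g) (by linarith : (0 : ℝ) < g)]
  have h4 : 0 ≤ K * A := by positivity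
  nlinarith

/-- `Ring.small` from the bound of the new weights -/
lemma small {Aj x : ℝ} (hA : Aj ≤ 2 * (kap g ^ 256 * al)) (hx : x ≤ 1) :
    1000 * g * Aj + al * x ≤ 1 / g := by
  have h1 := h.A_pos
  have h2 := h.gR
  have h3 := h.A_small (K := 2001) (by linarith)
  have h4 := h.al_le_A
  have h5 := h.al0
  generalize kap g ^ 256 * al = A at *
  rw [le_div_iff₀ (by linarith)]
  have h6 : al * x ≤ A := by nlinarith
  have h7 : 1000 * g * Aj ≤ 1000 * g * (2 * A) := by gcongr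
  have h8 : (g : ℝ) ≤ g ^ 2 := by nlinarith
  have h9 : (g : ℝ) ^ 2 ≤ g ^ 3 := pow_le_pow_right₀ h2 (by norm_num)
  have h12 : (g : ℝ) ^ 2 * A ≤ g ^ 3 * A := mul_le_mul_of_nonneg_right h9 h1.le
  have h13 : (g : ℝ) * A ≤ g ^ 2 * A := mul_le_mul_of_nonneg_right h8 h1.le
  have h10 : (1000 * g * (2 * A) + A) * g ≤ 2001 * (g ^ 3 * A) := by
    have e : (1000 * g * (2 * A) + A) * g = 2000 * ((g : ℝ) ^ 2 * A) + g * A := by ring
    linarith
  have h11 : (1000 * g * Aj + al * x) * g ≤ (1000 * g * (2 * A) + A) * g :=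
    mul_le_mul_of_nonneg_right (add_le_add h7 h6) (by linarith)
  linarith

/-- master inequality for the terms of the lower levels in the new weights -/
lemma lev_term {K s1 mt sig : ℝ} (h0 : 0 ≤ K) (hK : 200 * K ≤ C) (hs : 0 < s1) (hm : 0 ≤ mt)
    (h1 : sig ≤ ka g Λ Γ * mt) :
    K * (9 * (g + 1) * g ^ 2 * (kap g ^ 256 * al) * sig * s1 / (Λ * s1) ^ 2) ≤
      al * mt / (Γ * s1) := by
  have a1 := h.gR; have a2 := h.G_pos hC; have a3 := h.L_pos hC; have a4 := h.al0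
  have a5 := h.lev
  have a6 : 0 < kap g ^ 256 := pow_pos (zero_lt_one.trans_le (one_le_kap g)) _
  generalize kap g ^ 256 = X at *
  calc K * (9 * (g + 1) * g ^ 2 * (X * al) * sig * s1 / (Λ * s1) ^ 2)
      ≤ K * (9 * (g + 1) * g ^ 2 * (X * al) * (ka g Λ Γ * mt) * s1 / (Λ * s1) ^ 2) := by gcongr
    _ = 200 * K * (9 * (g + 1)) * g ^ 3 * X / Λ * (al * mt / (Γ * s1)) := by
        unfold ka; field_simp
    _ ≤ 1 * (al * mt / (Γ * s1)) := by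
        gcongr
        rw [div_le_one a3]
        refine le_trans ?_ a5
        gcongr
    _ = _ := one_mul _

/-- master inequality for the base terms in the new weights -/
lemma base_term {K s1 mt : ℝ} (hK : K ≤ C) (hs : 0 < s1) (hm : cI * s1 ≤ mt) :
    K * (9 * (g + 1) * β * Γ ^ 3 / cI) ≤ al * mt / (Γ * s1) := by
  have a1 := h.gR; have a2 := h.G_pos hC; have a4 := h.al0; have a5 := h.b0
  have a6 := cI_pos
  calc K * (9 * (g + 1) * β * Γ ^ 3 / cI) ≤ C * (9 * (g + 1) * β * Γ ^ 3 / cI) := by gcongr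
    _ = C * (9 * (g + 1)) * β * Γ ^ 4 / cI ^ 2 * (cI * s1) / (Γ * s1) := by field_simp
    _ ≤ _ := by gcongr; exact h.bal

/-- the same against `1` -/
lemma base_one {K : ℝ} (hK : K ≤ C) : K * (9 * (g + 1) * β * Γ ^ 3 / cI) ≤ 1 / 100 := by
  have a1 := h.gR; have a2 := h.GR hC; have a3 := h.G_pos hC
  refine (h.base_term hC hK one_pos le_rfl).trans ?_
  have a4 := h.A_small (K := 1) (by linarith)
  have a5 := h.al_le_A
  have a6 := h.A_pos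
  have a7 : (1 : ℝ) ≤ g ^ 3 := one_le_pow₀ a1
  have a8 : al ≤ 1 := by nlinarith
  have a9 := cI_le
  have a10 := cI_pos
  rw [div_le_iff₀ (by positivity)]
  nlinarith

end Par

end Pool.Agent.Lib.MP_9cc147_pr.AllU.E
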