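import Pool.Agent.Lib.MP_9cc147_pr.U.EWin
import Pool.Agent.Lib.MP_9cc147_pr.U.EBase
import Pool.Agent.Lib.MP_9cc147_pr.U.ELow
import Pool.Agent.Lib.MP_9cc147_pr.U.EMov
import Pool.Agent.Lib.MP_9cc147_pr.U.ENum

/-! Exceptional phase: the ring estimate. -/

open Finset

namespace Pool.Agent.Lib.MP_9cc147_pr.AllU.E

variable {n : ℕ}

/-- input of the ring estimate on level `j`, with `v = Λ * Γ ^ (j - 1)` -/
structure RIn (g Λ Γ : ℕ) (β al : ℝ) (j v : ℕ) (z : Vx n) (ρ : Vx n → ℕ) (μ : Vx n → ℝ)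
    (cb : Vx n → Vx n → ℝ) (c : ℕ → Vx n → Vx n → ℝ) (ct : Vx n → Vx n → ℝ)
    (Sh : Finset (Vx n)) (R S : ℕ) (mt Aj : ℝ) : Prop where
  j1 : 1 ≤ j
  hv : v = Λ * Γ ^ (j - 1)
  hct : ∀ x y, ct x y = cb x y + ∑ i ∈ Icc 1 j, c i x y
  shl : Shl z ρ μ (40000 * g) Sh R v
  sig : ∑ y ∈ Sh, μ y ≤ 200 * g * Λ / Γ * mt
  mt1 : cI * (Γ : ℝ) ^ (j - 1) ≤ mt
  mt2 : mt ≤ (Γ : ℝ) ^ j
  rad : R + v ≤ 3 * Γ ^ j
  base : Base ρ cb β
  bz : ∀ x y, cb x y ≠ 0 → ds x y ≤ 1 ∨ 100 * ds x y ≤ ds z x + 2 * Γ ^ j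
  c0 : ∀ i x y, 0 ≤ c i x y
  Si : ∀ i, 1 ≤ i → i ≤ j → ∀ x y, c i x y ≠ 0 → ds x y ≤ 3 * Γ ^ i ∧
    (Λ * Γ ^ (i - 1) ≤ 200 * ds x y ∨ ∀ p, 0 < ρ p → Λ * Γ ^ (i - 1) ≤ 100 * (ds x p + ρ p))
  Ri : ∀ i, 1 ≤ i → i < j → ∀ O O2 : Finset (Vx n),
    (∀ x ∈ O, ∀ y, ds x y ≤ 3100 * Γ ^ i → y ∈ O2) →
    ∑ x ∈ O, ∑ y, c i x y * min 1 (200 * (ds x y : ℝ) / ((Λ * Γ ^ (i - 1) : ℕ) : ℝ)) ^ 2 ≤
      kap g ^ 256 * al * (∑ y ∈ O2, μ y) / (Γ : ℝ) ^ i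
  Aj1 : ∑ x with ds z x ≤ 6 * Γ ^ j, ∑ y, c j x y * min 1 (200 * (ds x y : ℝ) / v) ^ 2 ≤ Aj
  Aj2 : Aj ≤ 2 * (kap g ^ 256 * al)
  cert : ∀ p, 0 < ρ p → R < ds z p + v → ds z p ≤ R + 2 * v → ∀ i < j, Cert ρ μ cI (Γ ^ i) p
  out : ∀ x, 4 * S ≤ ds (vz n) x → R + v ≤ ds z x
  big : 4 * S ≤ n

variable {g Λ Γ j v R S : ℕ} {β al mt Aj lam : ℝ} {z : Vx n} {ρ : Vx n → ℕ} {μ : Vx n → ℝ}
  {cb ct : Vx n → Vx n → ℝ} {c : ℕ → Vx n → Vx n → ℝ} {Sh : Finset (Vx n)}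

/-- small pins near the ring -/
def Pz (z : Vx n) (ρ : Vx n → ℕ) (R v : ℕ) : Finset (Vx n) :=
  univ.filter fun p => 0 < ρ p ∧ 100 * ρ p < v ∧ R < ds z p + v ∧ ds z p ≤ R + 2 * v

lemma mem_Pz {p : Vx n} :
    p ∈ Pz z ρ R v ↔ 0 < ρ p ∧ 100 * ρ p < v ∧ R < ds z p + v ∧ ds z p ≤ R + 2 * v := by
  simp [Pz]

lemma split_lev (hj : 1 ≤ j) (hct : ∀ x y, ct x y = cb x y + ∑ i ∈ Icc 1 j, c i x y)
    (D : Vx n → Vx n → ℝ) : ∑ x, ∑ y, ct x y * D x y = ∑ x, ∑ y, cb x y * D x y +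
      ∑ i ∈ Ico 1 j, ∑ x, ∑ y, c i x y * D x y + ∑ x, ∑ y, c j x y * D x y := by
  have e : ∀ x y, ct x y * D x y =
      cb x y * D x y + ∑ i ∈ Ico 1 j, c i x y * D x y + c j x y * D x y := fun x y => by
    rw [hct, ← Ico_insert_right hj, sum_insert right_notMem_Ico, ← sum_mul]; ring
  simp only [e, sum_add_distrib]
  congr 2
  rw [sum_comm]
  exact (sum_congr rfl fun x _ => sum_comm).trans sum_comm |>.trans
    (sum_congr rfl fun i _ => sum_comm)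

lemma C30 : (10 : ℝ) ^ 30 ≤ 10 ^ 40 := by norm_num

namespace RIn

variable (hP : Par (10 ^ 40) g Λ Γ β al) (h : RIn g Λ Γ β al j v z ρ μ cb c ct Sh R S mt Aj)
include h

lemma pw : Γ ^ j = Γ * Γ ^ (j - 1) := by
  rw [← pow_succ', Nat.sub_add_cancel h.j1]

lemma pwR : (Γ : ℝ) ^ j = Γ * (Γ : ℝ) ^ (j - 1) := by exact_mod_cast h.pw

lemma vR : (v : ℝ) = Λ * (Γ : ℝ) ^ (j - 1) := by exact_mod_cast h.hv

lemma ct0 (x y : Vx n) : 0 ≤ ct x y := by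
  rw [h.hct]
  exact add_nonneg (h.base.c0 x y) (sum_nonneg fun i _ => h.c0 i x y)

lemma keep_ct (Mv : Vx n → Vx n → Prop) (x y : Vx n) :
    keep Mv ct x y = keep Mv cb x y + ∑ i ∈ Icc 1 j, keep Mv (c i) x y := by
  unfold keep
  split_ifs
  · exact h.hct x y
  · simp

lemma Aj0 : 0 ≤ Aj :=
  le_trans (sum_nonneg fun x _ => sum_nonneg fun y _ => mul_nonneg (h.c0 j x y) (sq_nonneg _)) h.Aj1

include hP

lemma s1 : 1 ≤ Γ ^ (j - 1) := Nat.one_le_pow _ _ (lt_of_lt_of_le (by norm_num) (hP.G_num C30))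

lemma s1R : (0 : ℝ) < (Γ : ℝ) ^ (j - 1) := pow_pos (hP.G_pos C30) _

lemma v1 : 10 ^ 30 * Γ ^ (j - 1) ≤ v := h.hv ▸ Nat.mul_le_mul_right _ (hP.L_num C30)

lemma v2 : 10 ^ 30 * v ≤ Γ ^ j := by
  rw [h.pw, h.hv, ← mul_assoc]
  exact Nat.mul_le_mul_right _ (hP.LG_num C30)

lemma v3 : 10 ^ 30 ≤ v := le_trans (Nat.le_mul_of_pos_right _ (h.s1 hP)) (h.v1 hP)

lemma mt0 : 0 ≤ mt := le_trans (mul_nonneg cI_pos.le (h.s1R hP).le) h.mt1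

lemma sig1 : ∑ y ∈ Sh, μ y ≤ 200 * g * v := by
  rw [h.vR]
  exact hP.sig_le C30 h.sig (h.pwR ▸ h.mt2)

lemma sig2 : ∑ y ∈ Sh, μ y ≤ (Γ : ℝ) ^ j :=
  h.sig.trans ((mul_le_of_le_one_left (h.mt0 hP) (hP.ka_le_one C30)).trans h.mt2)

/-- every pair with weight that crosses the ring lies near the centre -/
lemma mv_near {x y : Vx n} (hc : ct x y ≠ 0) (hm : Moved z R v x y) :
    ds z x ≤ 6 * Γ ^ j ∧ ds z y ≤ 6 * Γ ^ j := by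
  have a1 := ds_tri z x y
  have a2 := ds_tri z y x
  rw [ds_comm y x] at a2
  have a3 := h.rad
  have a4 := hm.2
  have a5 := h.v2 hP
  have a6 := h.v3 hP
  by_cases hb : cb x y = 0
  · rw [h.hct, hb, zero_add] at hc
    obtain ⟨i, hi, hc⟩ := exists_ne_zero_of_sum_ne_zero hc
    have a7 := (h.Si i (mem_Icc.1 hi).1 (mem_Icc.1 hi).2 x y hc).1
    have a8 : Γ ^ i ≤ Γ ^ j :=
      Nat.pow_le_pow_right (lt_of_lt_of_le (by norm_num) (hP.G_num C30)) (mem_Icc.1 hi).2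
    omega
  · have a7 := h.bz x y hb
    omega

lemma low : Low z ρ (Pz z ρ R v) μ Sh c (fun i => ((Λ * Γ ^ (i - 1) : ℕ) : ℝ)) (Ico 1 j) Γ j R v
    (kap g ^ 256 * al) := by
  have hG := hP.G_num C30
  have hL := hP.L_num C30
  have hLG := hP.LG_num C30
  have a1 := h.v1 hP
  have a2 := h.v2 hP
  have a3 : ∀ i ∈ Ico 1 j, Γ ^ i ≤ Γ ^ (j - 1) := fun i hi =>
    Nat.pow_le_pow_right (by omega) (by have := mem_Ico.1 hi; omega)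
  refine ⟨by omega, (hP.A_pos).le, h.shl.m0, fun i hi => (mem_Ico.1 hi).2, by omega,
    fun i hi => by have := a3 i hi; omega, fun i hi => ?_, fun i _ => h.c0 i, fun i hi x y hc => ?_,
    fun i hi => h.Ri i (mem_Ico.1 hi).1 (mem_Ico.1 hi).2, h.shl.sh⟩
  · have b1 : Γ ^ i = Γ * Γ ^ (i - 1) := by
      rw [← pow_succ', Nat.sub_add_cancel (mem_Ico.1 hi).1]
    have b2 : Λ * Γ ^ (i - 1) ≤ Γ ^ i := b1 ▸ Nat.mul_le_mul_right _ (by omega)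
    have b3 := a3 i hi
    have b4 : 0 < Λ * Γ ^ (i - 1) := Nat.mul_pos (by omega) (Nat.pow_pos (by omega))
    exact ⟨by exact_mod_cast b4, by exact_mod_cast (by omega : Λ * Γ ^ (i - 1) ≤ 600 * Γ ^ i),
      by exact_mod_cast (by omega : Λ * Γ ^ (i - 1) ≤ v)⟩
  · obtain ⟨b1, b2⟩ := h.Si i (mem_Ico.1 hi).1 (mem_Ico.1 hi).2.le x y hc
    refine ⟨b1, b2.imp (fun b => by exact_mod_cast b) fun b p hp => ?_⟩
    exact_mod_cast b p (mem_Pz.1 hp).1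

lemma kn {t : ℕ} (ht : t ∈ GI Sh (ds z) μ (12000 * g) R v) : Kn ρ (Pz z ρ R v) R v t := by
  obtain ⟨a1, a2, -⟩ := mem_GI.1 ht
  have b1 : (3 * R + v : ℝ) ≤ 3 * t := by exact_mod_cast a1
  have b2 : (3 * t : ℝ) ≤ 3 * R + 2 * v := by exact_mod_cast a2
  have b3 := h.v3 hP
  exact ⟨by exact_mod_cast (by omega : 10 ≤ v), fun p hp => (mem_Pz.1 hp).1, by linarith,
    by linarith⟩

lemma far {t : ℕ} (ht : t ∈ GI Sh (ds z) μ (12000 * g) R v) :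
    ∀ p ∈ Pz z ρ R v, 3 * (ρ p : ℝ) < |(ds z p : ℝ) - t| := fun p hp => by
  obtain ⟨a1, -, a2, a3⟩ := mem_Pz.1 hp
  have := hP.gR
  exact good_far h.shl.m0 (mem_GI.1 ht).2.2 (h.shl.sh p (by omega) (by omega)) a1 (h.shl.mass p)
    (by linarith)

lemma gi1 : v ≤ 8 * #(GI Sh (ds z) μ (12000 * g) R v) := by
  have a1 := h.v3 hP
  have a2 := h.sig1 hP
  have a3 := hP.gR
  have a4 : (0 : ℝ) ≤ g * v := by positivity
  exact good_card Sh _ μ h.shl.m0 (by linarith) R v (by omega) (by linarith)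

lemma gi2 : #(GI Sh (ds z) μ (12000 * g) R v) ≤ Γ ^ j := by
  have a1 := h.v2 hP
  have a2 := h.v3 hP
  have a3 : GI Sh (ds z) μ (12000 * g) R v ⊆ Ioc R (R + v) := fun t ht => by
    obtain ⟨b1, b2, -⟩ := mem_GI.1 ht
    exact mem_Ioc.2 ⟨by omega, by omega⟩
  have a4 := card_le_card a3
  rw [Nat.card_Ioc] at a4
  omega

lemma gi3 : 16 * (Γ : ℝ) ^ j ≤ Γ * #(GI Sh (ds z) μ (12000 * g) R v) := by
  have a1 := h.gi1 hP
  have a2 := h.v1 hP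
  have a3 : 16 * Γ ^ (j - 1) ≤ #(GI Sh (ds z) μ (12000 * g) R v) := by omega
  have a4 : 16 * Γ ^ j ≤ Γ * #(GI Sh (ds z) μ (12000 * g) R v) := by
    rw [h.pw, mul_left_comm]
    exact Nat.mul_le_mul_left _ a3
  exact_mod_cast a4

lemma win (inn : (∀ x, ds (vz n) x ≤ S → ds z x ≤ R) ∨ ∀ x, ds (vz n) x ≤ S → R + v ≤ ds z x)
    {Nt : Finset (Vx n)} (hN : ∀ p ∈ Pz z ρ R v, ∃ q ∈ Nt, ds q p ≤ v) :
    Win z ρ (Pz z ρ R v) Nt R v S := by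
  refine ⟨fun p hp => by have := (mem_Pz.1 hp).2.1; omega, hN, fun p hp => ?_, inn, h.out, h.big⟩
  rw [mem_Pz]
  by_cases hb : v ≤ 100 * ρ p
  · have := h.shl.free p hp hb
    omega
  · omega

/-- the moved pairs -/
lemma moved : ∑ x, ∑ y, keep (Moved z R v) ct x y * min 1 (200 * (ds x y : ℝ) / v) ^ 2 ≤
    β * (81 * (Γ : ℝ) ^ 2 * 200 ^ 2) +
      720000 * (kap g ^ 256 * al * (∑ y ∈ Sh, μ y) * (Γ : ℝ) ^ (j - 1) / v ^ 2) + Aj := by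
  have a1 := h.v2 hP
  have a2 := h.v3 hP
  have a3 := h.rad
  have v0 : (0 : ℝ) < v := by exact_mod_cast (by omega : 0 < v)
  have hG := hP.G_pos C30
  rw [split_lev h.j1 (h.keep_ct _)]
  refine add_le_add (add_le_add ?_ ?_) ?_
  · refine (base_moved (z := z) (s := Γ ^ j) (A := 200 / v) (by omega) h.base.c0 h.base.mom h.bz
      (fun x y hm => by have := hm.2; omega) fun x y => ?_).trans ?_
    · refine pow_le_pow_left₀ (E_nonneg v0 x y) ((min_le_right _ _).trans_eq ?_) 2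
      ring
    · refine mul_le_mul_of_nonneg_left ?_ hP.b0.le
      have b1 : ((Γ ^ j : ℕ) : ℝ) ≤ Γ * v := by
        have := h.v1 hP
        have b2 : Γ ^ j ≤ Γ * v := h.pw ▸ Nat.mul_le_mul_left _ (by omega)
        exact_mod_cast b2
      calc 81 * ((Γ ^ j : ℕ) : ℝ) ^ 2 * (200 / v) ^ 2 ≤ 81 * ((Γ : ℝ) * v) ^ 2 * (200 / v) ^ 2 := by
            gcongr
        _ = _ := by field_simp
  · have b1 := (h.low hP).moved (by omega) (Mv := Moved z R v) fun x y hm => hm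
    rw [h.pwR] at b1
    rw [← mul_div_assoc, le_div_iff₀ (by positivity)]
    refine le_of_mul_le_mul_left ?_ hG
    linarith
  · exact (mov_top (r := R + v) (h.c0 j) (fun x y => sq_nonneg _) a3
      (fun x y hm => by have := hm.2; omega) fun x y hc => (h.Si j h.j1 le_rfl x y hc).1).trans h.Aj1

end RIn

end Pool.Agent.Lib.MP_9cc147_pr.AllU.E
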