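import Pool.Agent.Lib.MP_9cc147_pr.U.EDefs
import Pool.Agent.Lib.MP_9cc147_pr.U.ERing0
import Pool.Agent.Lib.MP_9cc147_pr.U.EPre

/-! Exceptional phase: one slot. -/

open Finset

namespace Pool.Agent.Lib.MP_9cc147_pr.AllU.E

theorem slotSt (hB : BasicStmt) (hR : RStepSt) (hS : SucSt) (hF : FailSt) : SlotSt := by
  intro P n J j lam σ z p0 hP h hV
  have hP' : Par (10 ^ 40) P.g P.L P.G P.be P.al := hP
  obtain ⟨g1, L1, G1⟩ := hP'.pre_nat (by norm_num)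
  have hj := h.j1
  have k := h.core
  have z1 := h.in1
  have z2 := h.in2
  have hp := h.near
  have G0 : 0 < P.G := by omega
  have s0 : 0 < P.G ^ (j - 1) := Nat.pow_pos G0
  have e : P.G ^ j = P.G * P.G ^ (j - 1) := by rw [← pow_succ', Nat.sub_add_cancel hj]
  obtain ⟨v, hv⟩ : ∃ v, v = P.L * P.G ^ (j - 1) := ⟨_, rfl⟩
  have vs : 10000 * v ≤ P.G ^ j := by
    rw [e, hv, ← mul_assoc]; exact Nat.mul_le_mul_right _ G1
  have v1 : 10000 ≤ v := hv ▸ le_trans L1 (Nat.le_mul_of_pos_right _ s0)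
  have gR : (1 : ℝ) ≤ P.g := hP'.gR
  have hl : ∑ y with ds z y ≤ 4000 * P.G ^ j, σ.μ y ≤ ((P.G ^ j : ℕ) : ℝ) := by
    exact_mod_cast h.light
  have sm : ∀ p, ds z p ≤ 3 * P.G ^ j → σ.ρ p < P.G ^ j := fun p h1 => by
    by_contra h2
    have a1 := slot_small k.m0 k.mass hl h.nofar (p := p) (by omega) (by omega)
    have a2 : ((P.G ^ j : ℕ) : ℝ) ≤ σ.ρ p := by exact_mod_cast not_lt.1 h2
    have a3 : (0 : ℝ) < ((P.G ^ j : ℕ) : ℝ) := by exact_mod_cast (by omega : 0 < P.G ^ j)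
    nlinarith
  have sm0 := sm p0 (by omega)
  have cert : ∀ p, 0 < σ.ρ p → ds z p ≤ 40 * P.G ^ j → ∀ i < j,
      Cert σ.ρ σ.μ cI (P.G ^ i) p := fun p h1 h2 i hi => by
    refine k.cert i hi p h1 (act_near z1 z2 h2 ?_)
    rw [e]
    exact Nat.mul_le_mul (by omega) (Nat.pow_le_pow_right G0 (by omega))
  obtain ⟨lo, l1, l2, shl, sig, m1, m2⟩ := slot_pre hP' (by norm_num) s0 e hv k.m0 k.mass hp hl
    h.nofar (cert p0 h.pin (by omega) _ (by omega))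
  have bz : ∀ x y, σ.cb x y ≠ 0 → ds x y ≤ 1 ∨ 100 * ds x y ≤ ds z x + 2 * P.G ^ j :=
    fun x y h1 => (k.base.safe x y h1).imp_right fun a => by
      have a1 := a.2 p0 h.pin
      have a2 := ds_tri x z p0
      rw [ds_comm x z] at a2
      omega
  have I : RIn P.g P.L P.G P.be P.al j v z σ.ρ σ.μ σ.cb σ.c (σ.ct j)
      (univ.filter fun x => lo < ds z x ∧ ds z x ≤ lo + 30 * v) (lo + 10 * v) (P.G ^ J)
      (∑ x with ds z x ≤ lo, σ.μ x) (∑ x with ds z x ≤ 6 * P.G ^ j, σ.aa P j x) := by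
    refine ⟨hj, hv, fun _ _ => rfl, shl, sig, by exact_mod_cast m1, by exact_mod_cast m2,
      by omega, k.base, bz, k.c0, k.Si, k.Ri, by rw [hv]; exact le_rfl, h.lev,
      fun p p0 _ p2 => cert p p0 (by omega), fun x hx => ?_, h.big⟩
    have := ds_tri (vz n) z x
    omega
  obtain ⟨Nt, W, _, pt, bs, n1, n2, n3, n4, n5, n6, n7⟩ := hR _ _ _ _ _ _ _ _ _ _ _ _ _ _ _ _ _ _ _
    (anD z (lo + 10 * v) v) (KpD z (lo + 10 * v) v) hP' I (fun x hx => by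
      have := ds_tri (vz n) x z
      rw [ds_comm x z] at this
      omega) (fun x y => by unfold anD; split_ifs <;> simp) fun x y h1 h2 => ⟨h1, h2⟩
  obtain ⟨σ1, t1, t2, t3, t4, t5⟩ := hS P n J j lo v (lo + 10 * v) σ z Nt W pt bs hP k hj hv rfl
    l1 l2 shl.free sm bz n1 n2 (by
      rw [I.vR]; exact hP'.mass_drop (I.mt0 hP') (n3.trans sig)) n4 n5 n6
  obtain ⟨σ0, f1, f2, f3, f4, f5, f6⟩ := hF P n J j σ z p0 hP k h.pin sm0 hp
  have e0 : σ0.ct j = σ.ct j := by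
    funext x y
    unfold St.ct
    rw [f3, f4]
  have V0 := hV σ0 f1
  unfold Val at V0
  rw [e0] at V0
  refine (hB lam _ _).2.1 _ _ ?_
    (n7 lam _ _ _ _ (σ1.ct j) p0 t3 t4 t5 f5 (by omega) (hV σ1 t1) V0)
  exact hP'.mixture C30 (pow_pos (hP'.G_pos C30) J) (I.s1R hP').le I.mt1 t2 (I.pwR ▸ f2)

end Pool.Agent.Lib.MP_9cc147_pr.AllU.E
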