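import Pool.Agent.Lib.MP_9cc147_pr.U.EDefs
import Pool.Agent.Lib.MP_9cc147_pr.U.EUpd

/-! Exceptional phase: the state after a success. -/

open Finset

namespace Pool.Agent.Lib.MP_9cc147_pr.AllU.E

variable {n : ℕ}

/-- weights of the levels after a success; `w` is the new weight of level `j` -/
noncomputable def cSuc (K : Vx n → Vx n → Prop) (c : ℕ → Vx n → Vx n → ℝ) (j : ℕ)
    (w : Vx n → Vx n → ℝ) (i : ℕ) (x y : Vx n) : ℝ := keep K (c i) x y + if i = j then w x y else 0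

lemma cSuc_ne {K : Vx n → Vx n → Prop} {c : ℕ → Vx n → Vx n → ℝ} {j i : ℕ} {w : Vx n → Vx n → ℝ}
    (h : i ≠ j) : cSuc K c j w i = keep K (c i) := by
  funext x y
  unfold cSuc
  rw [if_neg h, add_zero]

lemma cSuc_self (K : Vx n → Vx n → Prop) (c : ℕ → Vx n → Vx n → ℝ) (j : ℕ) (w : Vx n → Vx n → ℝ) :
    cSuc K c j w j = fun x y => keep K (c j) x y + w x y := by
  funext x y
  unfold cSuc
  rw [if_pos rfl]

theorem sucSt : SucSt := by
  intro P n J j lo v R σ z Nt W _ pt bs hP hc j1 hv hR hlo hhi free small bz hN1 hN2 hN3 hpt hbs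
    htot
  have k : NetOk σ.ρ z R v Nt := ⟨hN1, hN2⟩
  have c40 : (10 : ℝ) ^ 30 ≤ 10 ^ 40 := by norm_num
  have hL := Par.L_num hP c40
  have hG := Par.G_num hP c40
  have G1 : 1 ≤ P.G := by omega
  have pw1 : ∀ i, 1 ≤ P.G ^ i := fun i => Nat.one_le_pow _ _ G1
  have low : ∀ i < j, 10000 * P.G ^ i ≤ v := fun i hi => by
    rw [hv]
    exact Nat.mul_le_mul (by omega) (Nat.pow_le_pow_right G1 (by omega))
  have hH : (0 : ℝ) ≤ 40000 * P.g := by positivity
  have hA : 0 ≤ kap P.g ^ 256 * P.al := (Par.A_pos hP).le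
  have ct0 : ∀ x y, 0 ≤ σ.ct j x y := fun x y =>
    add_nonneg (hc.base.c0 x y) (sum_nonneg fun i _ => hc.c0 i x y)
  have len : ∀ x y, Moved z R v x y → σ.ct j x y ≠ 0 → ds x y ≤ 3 * P.G ^ j := by
    intro x y hm e
    by_cases e1 : σ.cb x y = 0
    · unfold St.ct at e
      rw [e1, zero_add] at e
      obtain ⟨i, hi, e2⟩ := exists_ne_zero_of_sum_ne_zero e
      rw [mem_Icc] at hi
      have := (hc.Si i hi.1 hi.2 x y e2).1
      have := Nat.pow_le_pow_right G1 hi.2
      omega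
    · have := bz x y e1
      have := hm.near.1
      have := pw1 j
      omega
  set nw := newW (Moved z R v) (anD z R v) (σ.ct j) (chi z R v) pt bs z with hnw
  have nw0 : ∀ x y, 0 ≤ nw x y := newW_nonneg ct0 _ hbs z
  have e0 : ∀ (u : ℝ) (x y : Vx n), 0 ≤ min 1 (200 * (ds x y : ℝ) / u) ^ 2 :=
    fun _ _ _ => sq_nonneg _
  have near : ∀ x y, nw x y ≠ 0 → ds z x ≤ 6 * P.G ^ j := fun x y e =>
    newW_near (s := P.G ^ j) k (by omega) len hpt e
  have safe : SafeL (rhoS σ.ρ z R v Nt) nw (P.G ^ j) v :=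
    safeL_new k (by omega) (by omega) len _ hpt bs
  let σ' : St n := ⟨rhoS σ.ρ z R v Nt, muS σ.μ z lo (40000 * P.g) v Nt, keep (KpD z R v) σ.cb,
    cSuc (KpD z R v) σ.c j nw⟩
  have aj : ∀ x, σ'.aa P j x ≤
      σ.aa P j x + ∑ y, nw x y * min 1 (200 * (ds x y : ℝ) / v) ^ 2 := by
    intro x
    unfold St.aa
    rw [← hv]
    simp only [σ', cSuc_self, add_mul, sum_add_distrib]
    exact add_le_add (keep_row_le _ (hc.c0 j) (e0 _) x) le_rfl
  refine ⟨σ', ⟨⟨muS_nonneg hc.m0 hH, mass_S hc.m0 hH (by omega) hc.mass,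
    k.grow.base (base_keep _ hc.base), fun i x y => ?_, fun i hi x y => ?_, fun i i1 i2 => ?_,
    fun i i1 i2 => ?_, fun i hi p hp ha => ?_⟩, fun x hx => muS_out k (by omega) (by omega) hx,
    fun x => ?_, fun x hx => ?_, fun O => ?_, fun p hp => (k.grow p hp).1,
    k.large fun q hq => small q (by omega), fun p hp h1 => ?_⟩, ?_,
    fun q hq => (rhoS_mem hq).ge, fun p hp => (k.out hp).ge, fun x y => le_of_eq ?_⟩
  · refine add_nonneg (keep_nonneg (hc.c0 i) x y) ?_
    split_ifs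
    exacts [nw0 x y, le_rfl]
  · change cSuc _ _ _ _ i x y = 0
    rw [cSuc_ne (by omega)]
    by_contra e
    exact (keep_ne e).2 (hc.zero i hi x y)
  · have h1 : SafeL (rhoS σ.ρ z R v Nt) (keep (KpD z R v) (σ.c i)) (P.G ^ i)
        (P.L * P.G ^ (i - 1)) := k.grow.safeL (SafeL.keep _ (hc.Si i i1 i2))
    change SafeL (rhoS σ.ρ z R v Nt) (cSuc _ _ _ _ i) (P.G ^ i) (P.L * P.G ^ (i - 1))
    by_cases e : i = j
    · subst e
      rw [cSuc_self]
      exact h1.add (hv ▸ safe)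
    · rwa [cSuc_ne e]
  · have h1 := low i i2
    have h2 := pw1 i
    change Reg (fun x => ∑ y, cSuc _ _ _ _ i x y * _) _ _ _ _
    rw [cSuc_ne i2.ne]
    exact Reg.kept (hc.Ri i i1 i2) (hc.c0 i) (e0 _) hc.m0 hH hA (by positivity) (by omega)
  · have h1 := low i hi
    exact (hc.cert i hi p (k.grow p hp).1 ha).succ k free hH (pw1 i) (by omega) (by omega) hp
  · have := muS_half (z := z) (lo := lo) (v := v) (Nt := Nt) hc.m0 hH x
    change σ.μ x ≤ 2 * muS _ _ _ _ _ _ x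
    linarith
  · refine (aj x).trans (le_of_eq ?_)
    rw [sum_eq_zero fun y _ => ?_, add_zero]
    have : nw x y = 0 := by
      by_contra e
      have := near x y e
      omega
    rw [this, zero_mul]
  · refine (sum_le_sum fun x _ => aj x).trans ?_
    rw [sum_add_distrib]
    refine add_le_add le_rfl ((sum_le_sum_of_subset_of_nonneg (subset_univ O) fun x _ _ =>
      sum_nonneg fun y _ => mul_nonneg (nw0 x y) (e0 _ x y)).trans (htot.trans ?_))
    refine add_le_add le_rfl (div_le_div_of_nonneg_right (mul_le_mul_of_nonneg_left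
      (sum_le_sum_of_subset_of_nonneg (fun y hy => ?_) fun y _ _ => hc.m0 y) hP.al0.le)
      (by positivity))
    have := (mem_filter.1 hy).2
    exact mem_filter.2 ⟨mem_univ _, by omega⟩
  · have := k.del (p := p) (by omega)
    change 0 < rhoS _ _ _ _ _ p at hp
    omega
  · change ∑ x, muS _ _ _ _ _ _ x ≤ _
    rw [sum_muS]
    linarith
  · change keep _ (fun x y => σ.cb x y + ∑ i ∈ Icc 1 j, σ.c i x y) x y + nw x y =
      keep _ σ.cb x y + ∑ i ∈ Icc 1 j, cSuc _ _ _ _ i x y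
    rw [keep_add, keep_sum]
    unfold cSuc
    rw [sum_add_distrib, sum_ite_eq', if_pos (mem_Icc.2 ⟨j1, le_rfl⟩), add_assoc]

end Pool.Agent.Lib.MP_9cc147_pr.AllU.E
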