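import Pool.Agent.Lib.MP_9cc147_pr.U.ETop
import Pool.Agent.Lib.MP_9cc147_pr.U.ERingW
import Pool.Agent.Lib.MP_9cc147_pr.U.ESuc
import Pool.Agent.Lib.MP_9cc147_pr.U.EFail
import Pool.Agent.Lib.MP_9cc147_pr.U.ESlot
import Pool.Agent.Lib.MP_9cc147_pr.U.ECol
import Pool.Agent.Lib.MP_9cc147_pr.U.ELast

/-! Exceptional phase. -/

namespace Pool.Agent.Lib.MP_9cc147_pr.AllU.E

theorem ephase (hB : BasicStmt) (hR : RingStmt) : EStmt :=
  Top.top (slotSt hB (rStep hR) sucSt failSt) colSt (lastSt hB (rFin hB hR))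

end Pool.Agent.Lib.MP_9cc147_pr.AllU.E
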