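import Pool.Agent.Lib.MP_9cc147_pr.U.Defs

/-! Counting of nested nets. -/

open Finset
open scoped ENNReal

namespace Pool.Agent.Lib.MP_9cc147_pr.AllU

namespace Net

section
variable {α ι : Type} [DecidableEq α] [DecidableEq ι]

lemma prod_le3 (S : Finset α) (p : α → ℝ≥0∞) (h : ∑ a ∈ S, p a ≤ 1) :
    ∏ a ∈ S, (1 + p a) ≤ 3 := by
  have hf : ∀ a ∈ S, p a ≠ ⊤ := fun a ha =>
    ne_top_of_le_ne_top ENNReal.one_ne_top
      ((single_le_sum (f := p) (fun _ _ => zero_le) ha).trans h)
  have h1 : ∏ a ∈ S, (1 + p a) = ENNReal.ofReal (∏ a ∈ S, (1 + (p a).toReal)) := by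
    rw [ENNReal.ofReal_prod_of_nonneg (fun a _ => by positivity)]
    refine prod_congr rfl fun a ha => ?_
    rw [ENNReal.ofReal_add zero_le_one ENNReal.toReal_nonneg, ENNReal.ofReal_one,
      ENNReal.ofReal_toReal (hf a ha)]
  have h2 : ∑ a ∈ S, (p a).toReal ≤ 1 := by
    rw [← ENNReal.toReal_sum hf]
    exact ENNReal.toReal_le_of_le_ofReal zero_le_one (by simpa using h)
  have h3 : ∏ a ∈ S, (1 + (p a).toReal) ≤ 3 :=
    (Real.prod_one_add_le_exp_sum S fun a => ENNReal.toReal_nonneg).trans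
      ((Real.exp_le_exp.2 h2).trans (by have := Real.exp_one_lt_d9; linarith))
  rw [h1]
  exact (ENNReal.ofReal_le_ofReal h3).trans (by simp)

lemma prod_bU (U : Finset ι) (S : ι → Finset α) (f : α → ℝ≥0∞) (hf : ∀ a, 1 ≤ f a) :
    ∏ a ∈ U.biUnion S, f a ≤ ∏ y ∈ U, ∏ a ∈ S y, f a := by
  induction U using Finset.induction_on with
  | empty => simp
  | insert y U hy ih =>
    rw [biUnion_insert, prod_insert hy]
    calc ∏ a ∈ S y ∪ U.biUnion S, f a
        ≤ (∏ a ∈ S y ∪ U.biUnion S, f a) * ∏ a ∈ S y ∩ U.biUnion S, f a :=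
          le_mul_of_one_le_right zero_le (one_le_prod' fun a _ => hf a)
      _ = (∏ a ∈ S y, f a) * ∏ a ∈ U.biUnion S, f a := prod_union_inter
      _ ≤ _ := by gcongr

lemma base (S Z : Finset α) (p : α → ℝ≥0∞) :
    ∑ T ∈ S.powerset.filter (fun T => Z ⊆ T), ∏ a ∈ T, p a ≤
      (∏ a ∈ Z, p a) * ∏ a ∈ S, (1 + p a) := by
  rw [prod_one_add, mul_sum]
  have hi : Set.InjOn (fun T => T \ Z) (S.powerset.filter (fun T => Z ⊆ T) : Finset _) := by
    intro T hT T' hT' h
    have h1 := (mem_filter.1 (mem_coe.1 hT)).2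
    have h2 := (mem_filter.1 (mem_coe.1 hT')).2
    rw [← sdiff_union_of_subset h1, ← sdiff_union_of_subset h2]
    exact congrArg (· ∪ Z) h
  calc _ = ∑ T ∈ S.powerset.filter (fun T => Z ⊆ T), (∏ a ∈ Z, p a) * ∏ a ∈ T \ Z, p a :=
        sum_congr rfl fun T hT => by rw [mul_comm, prod_sdiff (mem_filter.1 hT).2]
    _ = ∑ T ∈ (S.powerset.filter (fun T => Z ⊆ T)).image (fun T => T \ Z),
          (∏ a ∈ Z, p a) * ∏ a ∈ T, p a :=
        (sum_image (f := fun T => (∏ a ∈ Z, p a) * ∏ a ∈ T, p a) hi).symm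
    _ ≤ _ := by
        refine sum_le_sum_of_subset fun T hT => ?_
        obtain ⟨T', hT', rfl⟩ := mem_image.1 hT
        exact mem_powerset.2 (sdiff_subset.trans (mem_powerset.1 (mem_filter.1 hT').1))

open Classical in
lemma hit (S : Finset α) (p : α → ℝ≥0∞) (D : ι → Finset α) (W : ι → Finset (Finset α))
    (hW : ∀ y, ∀ X ∈ W y, X ⊆ D y) (U : Finset ι) :
    (∀ y ∈ U, ∀ y' ∈ U, y ≠ y' → Disjoint (D y) (D y')) →
    ∀ Z : Finset α, (∀ y ∈ U, Disjoint Z (D y)) →
    ∑ T ∈ S.powerset.filter (fun T => Z ⊆ T ∧ ∀ y ∈ U, ∃ X ∈ W y, X ⊆ T), ∏ a ∈ T, p a ≤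
      (∏ a ∈ Z, p a) * (∏ y ∈ U, ∑ X ∈ W y, ∏ a ∈ X, p a) * ∏ a ∈ S, (1 + p a) := by
  induction U using Finset.induction_on with
  | empty => intro _ Z _; simpa using base S Z p
  | insert y U hy ih =>
    intro hD Z hZ
    have ih' := ih fun a ha b hb => hD a (mem_insert_of_mem ha) b (mem_insert_of_mem hb)
    calc _ ≤ ∑ X ∈ W y, ∑ T ∈ S.powerset.filter
              (fun T => Z ∪ X ⊆ T ∧ ∀ y ∈ U, ∃ X ∈ W y, X ⊆ T), ∏ a ∈ T, p a := by
          simp only [sum_filter]
          rw [sum_comm]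
          refine sum_le_sum fun T _ => ?_
          split_ifs with h
          · obtain ⟨X, hX, hXT⟩ := h.2 y (mem_insert_self _ _)
            refine le_trans ?_ (single_le_sum (fun _ _ => zero_le) hX)
            rw [if_pos ⟨union_subset h.1 hXT, fun a ha => h.2 a (mem_insert_of_mem ha)⟩]
          · exact zero_le
      _ ≤ ∑ X ∈ W y, (∏ a ∈ Z, p a) * (∏ a ∈ X, p a) *
            (∏ y ∈ U, ∑ X ∈ W y, ∏ a ∈ X, p a) * ∏ a ∈ S, (1 + p a) := by
          refine sum_le_sum fun X hX => ?_
          rw [← prod_union ((hZ y (mem_insert_self _ _)).mono_right (hW y X hX))]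
          refine ih' _ fun a ha => disjoint_union_left.2 ⟨hZ a (mem_insert_of_mem ha), ?_⟩
          exact (hD y (mem_insert_self _ _) a (mem_insert_of_mem ha)
            (fun h => hy (h ▸ ha))).mono_left (hW y X hX)
      _ = _ := by
          rw [prod_insert hy, ← sum_mul, ← sum_mul, ← mul_sum]; ring

open Classical in
/-- sets inside the union of the `S y` that contain a witness for every `y` -/
lemma cover (U : Finset ι) (S D : ι → Finset α) (W : ι → Finset (Finset α)) (p : α → ℝ≥0∞)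
    (c u : ℝ≥0∞) (hW : ∀ y, ∀ X ∈ W y, X ⊆ D y)
    (hD : ∀ y ∈ U, ∀ y' ∈ U, y ≠ y' → Disjoint (D y) (D y'))
    (hc : ∀ y, ∏ a ∈ S y, (1 + p a) ≤ c) (hu : ∀ y, ∑ X ∈ W y, ∏ a ∈ X, p a ≤ u) :
    ∑ T ∈ (U.biUnion S).powerset.filter (fun T => ∀ y ∈ U, ∃ X ∈ W y, X ⊆ T), ∏ a ∈ T, p a ≤
      (c * u) ^ U.card := by
  have h := hit (U.biUnion S) p D W hW U hD ∅ (by simp)
  simp only [empty_subset, true_and, prod_empty, one_mul] at h
  refine h.trans ?_
  rw [mul_pow, mul_comm]
  gcongr
  · exact (prod_bU U S _ fun a => le_self_add).trans (prod_le_pow_card _ _ _ fun y _ => hc y)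
  · exact prod_le_pow_card _ _ _ fun y _ => hu y

lemma image_le (s : Finset ι) (f : ι → α) (g : α → ℝ≥0∞) :
    ∑ c ∈ s.image f, g c ≤ ∑ b ∈ s, g (f b) := by
  induction s using Finset.induction_on with
  | empty => simp
  | insert a s ha ih =>
    rw [image_insert, sum_insert ha]
    by_cases h : f a ∈ s.image f
    · rw [insert_eq_of_mem h]; exact ih.trans le_add_self
    · rw [sum_insert h]; gcongr

lemma union_le (s t : Finset α) (g : α → ℝ≥0∞) :
    ∑ c ∈ s ∪ t, g c ≤ ∑ c ∈ s, g c + ∑ c ∈ t, g c := by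
  rw [← sum_union_inter]; exact le_self_add

end

lemma split {Ω β : Type} (J : Finset β) (Q : Ω → Prop) (Q' : β → Ω → Prop) [DecidablePred Q]
    [∀ T, DecidablePred (Q' T)] (g g' : Ω → ℝ≥0∞) (c : ℝ≥0∞)
    (h : ∀ ω, Q ω → g ω ≤ g' ω * c ∧ ∃ T ∈ J, Q' T ω) :
    ∑' ω, (if Q ω then g ω else 0) ≤ (∑ T ∈ J, ∑' ω, if Q' T ω then g' ω else 0) * c := by
  rw [← Summable.tsum_finsetSum (fun _ _ => ENNReal.summable), ← ENNReal.tsum_mul_right]
  refine ENNReal.tsum_le_tsum fun ω => ?_
  split_ifs with hq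
  · obtain ⟨h1, T, hT, h2⟩ := h ω hq
    refine h1.trans (mul_le_mul_left ?_ _)
    refine le_trans ?_ (single_le_sum (f := fun T => if Q' T ω then g' ω else 0)
      (fun _ _ => zero_le) hT)
    simp only [if_pos h2, le_refl]
  · exact zero_le

lemma ball_le {n : ℕ} (y : Vx n) {t R : ℕ} (h : t ≤ R) :
    ((univ.filter fun x => ds y x ≤ t).card : ℝ≥0∞) ≤ (2 * R + 1 : ℝ≥0∞) ^ 2 := by
  have h1 : (univ.filter fun x => ds y x ≤ t).card ≤ (2 * R + 1) ^ 2 :=
    packing _ y R one_pos (fun _ hx => by have := (mem_filter.1 hx).2; omega)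
      fun _ _ _ _ h => ds_pos h
  exact_mod_cast h1

end Net

open Net Classical in
theorem net : NetStmt := by
  intro n L _ _ lev loc π Ω ν E N H q Rr la w K τ top h1
  induction top with
  | zero =>
    intro h2 h3 _ h5 h6 h7 _ h9 _ F A hF
    by_cases hA : ∃ ω, N ω 0 = A
    swap
    · rw [ENNReal.tsum_eq_zero.2 fun ω => if_neg fun h => hA ⟨ω, h.2⟩]; exact zero_le
    obtain ⟨ω0, hA⟩ := hA
    set S : Vx n → Finset L := fun y => univ.filter fun l => lev l = 0 ∧ ds y (loc l) ≤ H 0
      with hS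
    have hc := cover A S S (fun y => (S y).image fun l => {l}) π 3 (la 0)
      (fun y X hX => by
        obtain ⟨l, hl, rfl⟩ := mem_image.1 hX
        exact singleton_subset_iff.2 hl)
      (fun y hy y' hy' hne => disjoint_left.2 fun l hl hl' => by
        have := h3 ω0 0 le_rfl y (hA ▸ hy) y' (hA ▸ hy') hne
        have a1 := (mem_filter.1 hl).2.2
        have a2 := (mem_filter.1 hl').2.2
        have := ds_tri y (loc l) y'
        rw [ds_comm (loc l)] at this
        omega)
      (fun y => prod_le3 _ _ ((h6 0 le_rfl y).trans (h7 0 le_rfl).1))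
      (fun y => (image_le _ _ _).trans (by simpa using h6 0 le_rfl y))
    refine (split ((A.biUnion S).powerset.filter
      fun T => ∀ y ∈ A, ∃ X ∈ (S y).image (fun l => ({l} : Finset L)), X ⊆ T) _
      (fun T ω => E ω = F ∪ T) _ ν (τ ^ A.card) ?_).trans ?_
    · rintro ω ⟨e1, e2⟩
      refine ⟨by simp [e2], (E ω).filter fun l => lev l = 0, mem_filter.2 ⟨mem_powerset.2 ?_, ?_⟩, ?_⟩
      · intro l hl
        obtain ⟨hl, h0⟩ := mem_filter.1 hl
        obtain ⟨y, hy, hd⟩ := h2 ω l hl h0.le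
        rw [h0] at hy hd
        exact mem_biUnion.2 ⟨y, e2 ▸ hy, mem_filter.2 ⟨mem_univ _, h0, hd⟩⟩
      · intro y hy
        rcases h5 ω 0 le_rfl y (e2 ▸ hy) with ⟨l, hl, h0, hd⟩ | ⟨j, hj, _⟩
        · exact ⟨{l}, mem_image.2 ⟨l, mem_filter.2 ⟨mem_univ _, h0, hd⟩, rfl⟩,
            singleton_subset_iff.2 (mem_filter.2 ⟨hl, h0⟩)⟩
        · omega
      · rw [← e1]; ext l; simp only [mem_union, mem_filter]
        constructor
        · intro h; rcases Nat.eq_zero_or_pos (lev l) with h0 | h0 <;> simp [h, h0]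
        · rintro (h | h) <;> exact h.1
    · calc _ ≤ (∑ T ∈ (A.biUnion S).powerset.filter
            (fun T => ∀ y ∈ A, ∃ X ∈ (S y).image (fun l => ({l} : Finset L)), X ⊆ T),
            K * (∏ l ∈ F, π l) * ∏ l ∈ T, π l) * τ ^ A.card := by
            refine mul_le_mul_left (sum_le_sum fun T hT => ?_) _
            have hd : Disjoint F T := disjoint_left.2 fun l hl hl' => by
              obtain ⟨y, _, hy⟩ := mem_biUnion.1 (mem_powerset.1 (mem_filter.1 hT).1 hl')
              have := (mem_filter.1 hy).2.1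
              have := hF l hl
              omega
            rw [mul_assoc, ← prod_union hd]
            exact h1 _
        _ ≤ K * (∏ l ∈ F, π l) * (3 * la 0) ^ A.card * τ ^ A.card := by
            rw [← mul_sum]; gcongr; exact le_of_eq_of_le (by congr!) hc
        _ ≤ _ := by
            rw [mul_assoc (K * _), ← mul_pow]
            gcongr
            exact le_of_eq_of_le (by ring) h9
  | succ t ih =>
    intro h2 h3 h4 h5 h6 h7 h8 h9 h10 F A hF
    have IH := ih (fun ω l hl h => h2 ω l hl (by omega)) (fun ω i h => h3 ω i (by omega))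
      (fun ω i h => h4 ω i (by omega)) (fun ω i h => h5 ω i (by omega))
      (fun i h => h6 i (by omega)) (fun i h => h7 i (by omega)) h8 h9
      (fun i h => h10 i (by omega))
    by_cases hA : ∃ ω, N ω (t + 1) = A
    swap
    · rw [ENNReal.tsum_eq_zero.2 fun ω => if_neg fun h => hA ⟨ω, h.2⟩]; exact zero_le
    obtain ⟨ω0, hA⟩ := hA
    obtain ⟨hV, hw⟩ := h10 t (Nat.lt_succ_self t)
    set S : Vx n → Finset L :=
      fun y => univ.filter fun l => lev l = t + 1 ∧ ds y (loc l) ≤ H (t + 1) with hS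
    set B : ℕ → Vx n → Finset (Vx n) := fun r y => univ.filter fun x => ds y x ≤ r with hB
    set W : Vx n → Finset (Finset (L ⊕ Vx n)) := fun y =>
      (S y).image (fun l => {Sum.inl l}) ∪
        (B (q (t + 1)) y).offDiag.image fun ab => {Sum.inr ab.1, Sum.inr ab.2} with hW
    set V : ℝ≥0∞ := (2 * Rr (t + 1) + 1 : ℝ≥0∞) ^ 2 with hVd
    have hc := cover A (fun y => (S y).disjSum (B (Rr (t + 1)) y))
      (fun y => (S y).disjSum (B (q (t + 1)) y)) W (Sum.elim π fun _ => w t) 9
      (la (t + 1) + (V * w t) ^ 2)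
      (fun y X hX => by
        rcases mem_union.1 hX with hX | hX
        · obtain ⟨l, hl, rfl⟩ := mem_image.1 hX
          exact singleton_subset_iff.2 (inl_mem_disjSum.2 hl)
        · obtain ⟨ab, hab, rfl⟩ := mem_image.1 hX
          obtain ⟨ha, hb, _⟩ := mem_offDiag.1 hab
          exact insert_subset (inr_mem_disjSum.2 ha)
            (singleton_subset_iff.2 (inr_mem_disjSum.2 hb)))
      (fun y hy y' hy' hne => disjoint_left.2 fun l hl hl' => by
        have := h3 ω0 _ le_rfl y (hA ▸ hy) y' (hA ▸ hy') hne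
        rcases l with l | x
        · have a1 := (mem_filter.1 (inl_mem_disjSum.1 hl)).2.2
          have a2 := (mem_filter.1 (inl_mem_disjSum.1 hl')).2.2
          have := ds_tri y (loc l) y'
          rw [ds_comm (loc l)] at this
          omega
        · have a1 := (mem_filter.1 (inr_mem_disjSum.1 hl)).2
          have a2 := (mem_filter.1 (inr_mem_disjSum.1 hl')).2
          have := ds_tri y x y'
          rw [ds_comm x] at this
          omega)
      (fun y => by
        rw [prod_disjSum, show (9 : ℝ≥0∞) = 3 * 3 by norm_num]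
        refine mul_le_mul' (prod_le3 _ π ((h6 _ le_rfl y).trans (h7 _ le_rfl).1))
          (prod_le3 _ (fun _ => w t) ?_)
        rw [sum_const, nsmul_eq_mul]
        exact (mul_le_mul_left (ball_le y le_rfl) _).trans hV)
      (fun y => by
        refine (union_le _ _ _).trans (add_le_add ((image_le _ _ _).trans
          (by simpa using h6 _ le_rfl y)) ((image_le _ _ _).trans ?_))
        calc _ = ∑ _ab ∈ (B (q (t + 1)) y).offDiag, w t * w t :=
              sum_congr rfl fun ab hab => by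
                rw [prod_pair (by simpa using (mem_offDiag.1 hab).2.2)]; rfl
          _ ≤ ∑ _ab ∈ (B (q (t + 1)) y) ×ˢ (B (q (t + 1)) y), w t * w t :=
              sum_le_sum_of_subset fun ab hab =>
                mem_product.2 ⟨(mem_offDiag.1 hab).1, (mem_offDiag.1 hab).2.1⟩
          _ ≤ _ := by
              have := ball_le y (h7 _ le_rfl).2
              rw [sum_const, nsmul_eq_mul, card_product, Nat.cast_mul, mul_pow, pow_two V,
                pow_two (w t)]
              gcongr <;> exact this)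
    refine (split ((A.biUnion fun y => (S y).disjSum (B (Rr (t + 1)) y)).powerset.filter
      fun T => ∀ y ∈ A, ∃ X ∈ W y, X ⊆ T) _
      (fun T ω => (E ω).filter (fun l => t < lev l) = F ∪ T.toLeft ∧ N ω t = T.toRight) _
      (fun ω => ν ω * τ ^ (∑ i ∈ range (t + 1), (N ω i).card)) (τ ^ A.card) ?_).trans ?_
    · rintro ω ⟨e1, e2⟩
      refine ⟨by rw [sum_range_succ, pow_add, e2, mul_assoc],
        ((E ω).filter fun l => lev l = t + 1).disjSum (N ω t),
        mem_filter.2 ⟨mem_powerset.2 ?_, ?_⟩, ?_, by simp⟩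
      · rintro (l | x) hl
        · obtain ⟨hl, h0⟩ := mem_filter.1 (inl_mem_disjSum.1 hl)
          obtain ⟨y, hy, hd⟩ := h2 ω l hl h0.le
          rw [h0] at hy hd
          exact mem_biUnion.2 ⟨y, e2 ▸ hy,
            inl_mem_disjSum.2 (mem_filter.2 ⟨mem_univ _, h0, hd⟩)⟩
        · obtain ⟨y, hy, hd⟩ := h4 ω t (Nat.lt_succ_self t) x (inr_mem_disjSum.1 hl)
          exact mem_biUnion.2 ⟨y, e2 ▸ hy, inr_mem_disjSum.2 (mem_filter.2 ⟨mem_univ _, hd⟩)⟩
      · intro y hy
        rcases h5 ω _ le_rfl y (e2 ▸ hy) with ⟨l, hl, h0, hd⟩ | ⟨j, hj, a, ha, b, hb, hab, da, db⟩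
        · exact ⟨{Sum.inl l}, mem_union_left _
            (mem_image.2 ⟨l, mem_filter.2 ⟨mem_univ _, h0, hd⟩, rfl⟩),
            singleton_subset_iff.2 (inl_mem_disjSum.2 (mem_filter.2 ⟨hl, h0⟩))⟩
        · obtain rfl : t = j := by omega
          exact ⟨{Sum.inr a, Sum.inr b}, mem_union_right _ (mem_image.2 ⟨(a, b),
            mem_offDiag.2 ⟨mem_filter.2 ⟨mem_univ _, da⟩, mem_filter.2 ⟨mem_univ _, db⟩, hab⟩,
            rfl⟩), insert_subset (inr_mem_disjSum.2 ha)
              (singleton_subset_iff.2 (inr_mem_disjSum.2 hb))⟩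
      · rw [← e1, toLeft_disjSum]; ext l; simp only [mem_union, mem_filter]
        constructor
        · rintro ⟨h, h0⟩
          rcases Nat.lt_or_ge (t + 1) (lev l) with h' | h'
          · exact Or.inl ⟨h, h'⟩
          · exact Or.inr ⟨h, by omega⟩
        · rintro (h | h) <;> exact ⟨h.1, by have := h.2; omega⟩
    · calc _ ≤ (∑ T ∈ (A.biUnion fun y => (S y).disjSum (B (Rr (t + 1)) y)).powerset.filter
            (fun T => ∀ y ∈ A, ∃ X ∈ W y, X ⊆ T),
            K * (∏ l ∈ F, π l) * ∏ a ∈ T, Sum.elim π (fun _ => w t) a) * τ ^ A.card := by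
            refine mul_le_mul_left (sum_le_sum fun T hT => ?_) _
            have hl : ∀ l ∈ T.toLeft, lev l = t + 1 := fun l hl => by
              obtain ⟨y, _, hy⟩ :=
                mem_biUnion.1 (mem_powerset.1 (mem_filter.1 hT).1 (mem_toLeft.1 hl))
              exact (mem_filter.1 (inl_mem_disjSum.1 hy)).2.1
            have hd : Disjoint F T.toLeft := disjoint_left.2 fun l h h' => by
              have := hl l h'
              have := hF l h
              omega
            refine (IH (F ∪ T.toLeft) T.toRight fun l h => ?_).trans (le_of_eq ?_)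
            · rcases mem_union.1 h with h | h
              · have := hF l h; omega
              · have := hl l h; omega
            · rw [prod_union hd, prod_sum_eq_prod_toLeft_mul_prod_toRight]
              simp only [Sum.elim_inl, Sum.elim_inr, prod_const]
              ring
        _ ≤ K * (∏ l ∈ F, π l) * (9 * (la (t + 1) + (V * w t) ^ 2)) ^ A.card * τ ^ A.card := by
            rw [← mul_sum]; gcongr; exact le_of_eq_of_le (by congr!) hc
        _ ≤ _ := by
            rw [mul_assoc (K * _), ← mul_pow]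
            gcongr
            exact le_of_eq_of_le (by ring) hw

end Pool.Agent.Lib.MP_9cc147_pr.AllU
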