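import Pool.Agent.Lib.MP_9cc147_pr.U.R1

/-! Section R, part 2: the ring. -/

open Finset

namespace Pool.Agent.Lib.MP_9cc147_pr.AllU

namespace R

variable {n : ℕ}

/-- weighted differences -/
noncomputable def Tm (c : Vx n → Vx n → ℝ) : (Vx n → ℝ) →ₗ[ℝ] (Vx n × Vx n → ℝ) where
  toFun f e := √(c e.1 e.2) * (f e.1 - f e.2)
  map_add' f g := by funext e; simp only [Pi.add_apply]; ring
  map_smul' s f := by funext e; simp only [Pi.smul_apply, smul_eq_mul, RingHom.id_apply]; ring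

lemma Tm_apply (c : Vx n → Vx n → ℝ) (f : Vx n → ℝ) (e : Vx n × Vx n) :
    Tm c f e = √(c e.1 e.2) * (f e.1 - f e.2) := rfl

lemma mem_Gm {Λ : Set (Vx n → ℝ)} {c : Vx n → Vx n → ℝ} {g : (Vx n × Vx n → ℝ) × ℝ} :
    g ∈ Gm Λ c ↔ ∃ f ∈ Λ, g = (Tm c f, f (vl n) - f (vz n)) := Iff.rfl

lemma sq_Tm {c : Vx n → Vx n → ℝ} (hc : ∀ x y, 0 ≤ c x y) (f : Vx n → ℝ) :
    ∑ e, Tm c f e ^ 2 = Qc c f := by
  rw [Qc, Fintype.sum_prod_type]
  refine sum_congr rfl fun x _ => sum_congr rfl fun y _ => ?_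
  rw [Tm_apply, mul_pow, Real.sq_sqrt (hc x y)]

variable {W : Type}

/-- the pairs that meet a window -/
def Wd (sp : W → Finset (Vx n)) (w : W) : Set (Vx n × Vx n) := {e | e.1 ∈ sp w ∨ e.2 ∈ sp w}

open Classical in
lemma Dd_sq {ι : Type} (Wd : W → Set ι) (S : Finset W) (i : ι) :
    Dd Wd S i ^ 2 = 3 ^ (S.filter fun w => i ∈ Wd w).card := by
  rw [Dd, prod_ite, prod_const_one, mul_one, prod_const, ← pow_mul, mul_comm, pow_mul,
    Real.sq_sqrt (by norm_num)]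

lemma win_eq {sp : W → Finset (Vx n)} (hd : ∀ w w', w ≠ w' → Disjoint (sp w) (sp w')) {w w' : W}
    {x : Vx n} (h : x ∈ sp w) (h' : x ∈ sp w') : w = w' := by
  by_contra hne
  exact disjoint_left.1 (hd w w' hne) h h'

lemma Dd_three {sp : W → Finset (Vx n)} (hd : ∀ w w', w ≠ w' → Disjoint (sp w) (sp w'))
    (S : Finset W) (w : W) (hw : w ∉ S) (e : Vx n × Vx n) (he : e ∈ Wd sp w) :
    Dd (Wd sp) S e ^ 2 ≤ 3 := by
  classical
  rw [Dd_sq]
  refine (pow_le_pow_right₀ (by norm_num) (?_ : _ ≤ 1)).trans (by norm_num)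
  refine card_le_one.2 fun a ha b hb => ?_
  rw [mem_filter] at ha hb
  have ha' : a ≠ w := fun h => hw (h ▸ ha.1)
  have hb' : b ≠ w := fun h => hw (h ▸ hb.1)
  rcases he with he | he <;> rcases ha.2 with h1 | h1 <;> rcases hb.2 with h2 | h2
  · exact win_eq hd h1 h2
  · exact absurd (win_eq hd h1 he) ha'
  · exact absurd (win_eq hd h2 he) hb'
  · exact win_eq hd h1 h2
  · exact win_eq hd h1 h2
  · exact absurd (win_eq hd h2 he) hb'
  · exact absurd (win_eq hd h1 he) ha'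
  · exact win_eq hd h1 h2

lemma Dd_nine {sp : W → Finset (Vx n)} (hd : ∀ w w', w ≠ w' → Disjoint (sp w) (sp w'))
    (S : Finset W) (e : Vx n × Vx n) : Dd (Wd sp) S e ^ 2 ≤ 9 := by
  classical
  by_cases h : ∃ w ∈ S, e ∈ Wd sp w
  · obtain ⟨w, hw, he⟩ := h
    have h1 := Dd_three hd (S.erase w) w (notMem_erase w S) e he
    have h2 : Dd (Wd sp) S e = √3 * Dd (Wd sp) (S.erase w) e := by
      rw [Dd, Dd, ← mul_prod_erase S _ hw, if_pos he]
    rw [h2, mul_pow, Real.sq_sqrt (by norm_num)]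
    linarith
  · have : Dd (Wd sp) S e = 1 := prod_eq_one fun w hw => if_neg fun he => h ⟨w, hw, he⟩
    rw [this]
    norm_num

lemma sq_DT {sp : W → Finset (Vx n)} (hd : ∀ w w', w ≠ w' → Disjoint (sp w) (sp w'))
    {c : Vx n → Vx n → ℝ} (hc : ∀ x y, 0 ≤ c x y) (S : Finset W) (f : Vx n → ℝ) :
    ∑ e, (Dd (Wd sp) S * Tm c f) e ^ 2 ≤ Qc (c9 sp c) f := by
  rw [Qc, Fintype.sum_prod_type]
  refine sum_le_sum fun x _ => sum_le_sum fun y _ => ?_
  rw [Pi.mul_apply, Tm_apply, mul_pow, mul_pow, Real.sq_sqrt (hc x y), c9]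
  have h0 : 0 ≤ c x y * (f x - f y) ^ 2 := mul_nonneg (hc x y) (sq_nonneg _)
  split_ifs with h
  · exact (mul_le_mul_of_nonneg_right (Dd_nine hd S (x, y)) h0).trans_eq (by ring)
  · rw [Dd_of_not _ _ fun w hw => h ⟨w, hw⟩]
    simp

variable [Fintype W] {I : Type} [Fintype I] {Λ : AddSubgroup (Vx n → ℝ)} {c : Vx n → Vx n → ℝ}
  {χ : Vx n → ℝ} {u : W → I → Vx n → ℝ} {t0 : I} {sp : W → Finset (Vx n)} {bs : W → ℝ} {m : ℕ}
  {q : ℝ}

lemma bs_nonneg (h : Ring Λ c W I χ u t0 sp bs m q) (w : W) : 0 ≤ bs w := by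
  by_contra hb
  have h1 : Real.exp (bs w) ≤ 1 := Real.exp_le_one_iff.2 (not_le.1 hb).le
  have h2 : (Fintype.card I : ℝ) ^ 2 ≤ ∑ t, ∑ t', Real.exp (9 * (m + 1) *
      ∑ x, ∑ y, c x y * (|u w t x - u w t y| * |u w t' x - u w t' y|)) := by
    have e : (Fintype.card I : ℝ) ^ 2 = ∑ _t : I, ∑ _t' : I, (1 : ℝ) := by simp [sq]
    rw [e]
    refine sum_le_sum fun t _ => sum_le_sum fun t' _ => Real.one_le_exp (mul_nonneg (by positivity)
      (sum_nonneg fun x _ => sum_nonneg fun y _ => mul_nonneg (h.c0 x y) (by positivity)))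
  have h3 := h.avg w
  nlinarith [sq_nonneg (Fintype.card I : ℝ)]

/-- the shifts after all springs -/
def GA (Λ : AddSubgroup (Vx n → ℝ)) (c : Vx n → Vx n → ℝ) (u : W → I → Vx n → ℝ) (t0 : I)
    (sp : W → Finset (Vx n)) (bs : W → ℝ) : Set (((Vx n × Vx n) ⊕ W → ℝ) × ℝ) :=
  GS (Gm Λ c) (Wd sp) (fun w => -Tm c (u w t0)) bs univ

lemma springs (hB : BasicStmt) (hC : CmpStmt) (hS : SpringStmt)
    (h : Ring Λ c W I χ u t0 sp bs m q) {lam cs d0 : ℝ} {G0 : Set ((Vx n × Vx n → ℝ) × ℝ)}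
    (h0 : ∀ g ∈ G0, g ∈ Gm Λ c ∧ ∀ w, ∀ i ∈ Wd sp w, g.1 i = 0)
    (hfail : ∀ H : Set (((Vx n × Vx n) ⊕ W → ℝ) × ℝ),
      (∀ g ∈ G0, (Sum.elim g.1 0, g.2) ∈ H) → Mul lam H d0)
    (hle : cs ≤ d0) (hfin : Mul lam (GA Λ c u t0 sp bs) cs) :
    Mul lam (Gm Λ c) (cs + Fintype.card W * (27 / 28 : ℝ) ^ m * (d0 - cs)) := by
  have : Nonempty I := ⟨t0⟩
  have hu : ∀ w t i, i ∉ Wd sp w → Tm c (u w t) i = 0 := fun w t i hi => by
    rw [Tm_apply, h.supp w t _ fun h1 => hi (Or.inl h1), h.supp w t _ fun h1 => hi (Or.inr h1)]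
    simp
  refine multi hB hC hS (u := fun w t => Tm c (u w t)) h.m1 hu
    (fun w i hi => by simp [hu w t0 i hi]) (fun w t => ?_) (Dd_three h.disj) (fun w t t' => ?_)
    h.avg h0 hfail hle hfin
  · refine ⟨_, h.dif w t, Prod.ext ?_ ?_⟩
    · exact (sub_eq_add_neg _ _).symm.trans (map_sub (Tm c) _ _).symm
    · simp [h.supp w _ _ (h.cor w).1, h.supp w _ _ (h.cor w).2]
  · rw [Fintype.sum_prod_type]
    refine le_of_eq (sum_congr rfl fun x _ => sum_congr rfl fun y _ => ?_)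
    rw [Tm_apply, Tm_apply, abs_mul, abs_mul, abs_of_nonneg (Real.sqrt_nonneg _), mul_mul_mul_comm,
      Real.mul_self_sqrt (h.c0 x y)]

/-- integer combinations of the spring generators -/
lemma comb_mem (c : Vx n → Vx n → ℝ) (u : W → I → Vx n → ℝ) (t0 : I) (sp : W → Finset (Vx n))
    (bs : W → ℝ) {f : Vx n → ℝ} (hf : f ∈ Λ) (k : W → ℤ) :
    ((Sum.elim (Dd (Wd sp) univ * Tm c (f - ∑ w, (k w : ℝ) • u w t0)) fun w => k w * √(bs w),
      f (vl n) - f (vz n)) : ((Vx n × Vx n) ⊕ W → ℝ) × ℝ) ∈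
      AddSubgroup.closure (GA Λ c u t0 sp bs) := by
  classical
  have h1 := AddSubgroup.subset_closure (k := GA Λ c u t0 sp bs) (Or.inl ⟨_, ⟨f, hf, rfl⟩, rfl⟩)
  have h2 := AddSubgroup.sum_mem (AddSubgroup.closure (GA Λ c u t0 sp bs)) (t := univ)
    fun w _ => AddSubgroup.zsmul_mem _
      (AddSubgroup.subset_closure (k := GA Λ c u t0 sp bs) (Or.inr ⟨w, mem_univ w, rfl⟩)) (k w)
  convert AddSubgroup.add_mem _ h1 h2 using 1
  refine Prod.ext ?_ ?_
  · funext i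
    rcases i with i | i
    · simp only [map_sub, map_sum, map_smul, Sum.elim_inl, Pi.mul_apply, Pi.sub_apply,
        Finset.sum_apply, Pi.smul_apply, smul_eq_mul, Prod.fst_add, Prod.fst_sum, Prod.smul_fst,
        Pi.add_apply, Pi.neg_apply, mul_sub, mul_sum]
      rw [sub_eq_add_neg, ← sum_neg_distrib]
      congr 1
      · rw [Tm_apply, mul_sub, mul_sub]
      · exact sum_congr rfl fun w _ => by rw [zsmul_eq_mul]; ring
    · simp [Prod.fst_sum, Finset.sum_apply]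
  · simp [Prod.snd_sum]

lemma a_mem (h : Ring Λ c W I χ u t0 sp bs m q) :
    ((Sum.elim (Dd (Wd sp) univ * Tm c χ) fun w => √(bs w), χ (vl n) - χ (vz n)) :
      ((Vx n × Vx n) ⊕ W → ℝ) × ℝ) ∈ AddSubgroup.closure (GA Λ c u t0 sp bs) := by
  have h1 := comb_mem c u t0 sp bs h.tot fun _ => 1
  simpa [Finset.sum_apply, fun w => h.supp w t0 _ (h.cor w).1,
    fun w => h.supp w t0 _ (h.cor w).2] using h1

lemma a_sq (h : Ring Λ c W I χ u t0 sp bs m q) :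
    ∑ i, (Sum.elim (Dd (Wd sp) univ * Tm c χ) fun w => √(bs w)) i ^ 2 ≤ q := by
  rw [Fintype.sum_sum_type]
  simp only [Sum.elim_inl, Sum.elim_inr, fun w => Real.sq_sqrt (bs_nonneg h w)]
  linarith [sq_DT h.disj h.c0 univ χ, h.small]

/-- the height function seen after the removal -/
def Mm (χ : Vx n → ℝ) (z : Vx n) : (Vx n → ℝ) →ₗ[ℝ] (Vx n → ℝ) where
  toFun f x := f x + χ x * (f z - f x)
  map_add' f g := by funext x; simp only [Pi.add_apply]; ring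
  map_smul' s f := by funext x; simp only [Pi.smul_apply, smul_eq_mul, RingHom.id_apply]; ring

/-- the vector of a height function after the removal -/
noncomputable def Tr (c : Vx n → Vx n → ℝ) (χ : Vx n → ℝ) (sp : W → Finset (Vx n)) (bs : W → ℝ)
    (pt : W → Vx n) (z : Vx n) : (Vx n → ℝ) →ₗ[ℝ] ((Vx n × Vx n) ⊕ W → ℝ) where
  toFun f := Sum.elim (Dd (Wd sp) univ * Tm c (Mm χ z f)) fun w => (f z - f (pt w)) * √(bs w)
  map_add' f g := by
    funext i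
    rcases i with i | i
    · simp [mul_add]
    · simp only [Sum.elim_inr, Pi.add_apply]; ring
  map_smul' s f := by
    funext i
    rcases i with i | i
    · simp only [map_smul, Sum.elim_inl, Pi.mul_apply, Pi.smul_apply, smul_eq_mul,
        RingHom.id_apply]
      ring
    · simp only [Sum.elim_inr, Pi.smul_apply, smul_eq_mul, RingHom.id_apply]; ring

/-- functions that are constant on the windows -/
def Xs (sp : W → Finset (Vx n)) (pt : W → Vx n) : Submodule ℝ (Vx n → ℝ) where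
  carrier := {f | ∀ w, ∀ x ∈ sp w, f x = f (pt w)}
  add_mem' hf hg w x hx := by simp only [Pi.add_apply, hf w x hx, hg w x hx]
  zero_mem' _ _ _ := rfl
  smul_mem' s f hf w x hx := by simp only [Pi.smul_apply, hf w x hx]

lemma removal (hC : CmpStmt) (hR : RemStmt) (h : Ring Λ c W I χ u t0 sp bs m q) {lam : ℝ}
    {Λ1 Λ0 : Set (Vx n → ℝ)} {c' : Vx n → Vx n → ℝ} {pt : W → Vx n} {z : Vx n} {d1 d0 : ℝ}
    (hz : χ (vz n) = 0) (hl : χ (vl n) = 0) (hc' : ∀ x y, 0 ≤ c' x y)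
    (hp : 8 * Real.exp (-(10 / q)) ≤ 1)
    (h1 : ∀ f ∈ Λ1, f * (1 - (χ + ∑ w, u w t0)) ∈ Λ ∧
      ∀ w, (∃ k : ℤ, f (pt w) = k) ∧ ∀ x ∈ sp w, f x = f (pt w))
    (hQ : ∀ f : Vx n → ℝ, (∀ w, ∀ x ∈ sp w, f x = f (pt w)) →
      Qc (c9 sp c) (fun x => f x + χ x * (f z - f x)) + ∑ w, bs w * (f z - f (pt w)) ^ 2 ≤
        Qc c' f)
    (h0 : ∀ f ∈ Λ0, f ∈ Λ ∧ ∀ x y, c x y ≠ 0 → χ x ≠ χ y ∨ Tch sp x y → f x = f y)
    (m1 : Mul lam (Gm Λ1 c') d1) (m0 : Mul lam (Gm Λ0 c) d0) :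
    Mul lam (GA Λ c u t0 sp bs)
      ((1 - 8 * Real.exp (-(10 / q))) * d1 + 8 * Real.exp (-(10 / q)) * d0) := by
  have ha := a_mem h
  rw [hz, hl, sub_zero] at ha
  have hT : ∀ f ∈ Λ0, ∀ e : Vx n × Vx n, χ e.1 ≠ χ e.2 ∨ Tch sp e.1 e.2 → Tm c f e = 0 :=
    fun f hf e he => by
      rw [Tm_apply]
      by_cases hc : c e.1 e.2 = 0
      · simp [hc]
      · simp [(h0 f hf).2 _ _ hc he]
  refine hR lam q _ d1 d0 _ (GA Λ c u t0 sp bs)
    {g | ∃ f ∈ Λ1, g = (Tr c χ sp bs pt z f, f (vl n) - f (vz n))}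
    {g | ∃ g' ∈ Gm Λ0 c, g = (Sum.elim g'.1 0, g'.2)} _ ha (a_sq h) h.q0 h.q1 le_rfl hp ?_ ?_ ?_
    (to_elim hC (fun g hg => ⟨g, hg, rfl⟩) m0)
  · rintro _ ⟨f, hf, rfl⟩
    choose k hk using fun w => ((h1 f hf).2 w).1
    refine ⟨f z, ?_⟩
    have e : Mm χ z f - f z • χ =
        f * (1 - (χ + ∑ w, u w t0)) - ∑ w, (((-k w : ℤ) : ℝ)) • u w t0 := by
      funext x
      have e1 : ∀ w, ((-k w : ℤ) : ℝ) * u w t0 x = -(f x * u w t0 x) := fun w => by
        by_cases hx : x ∈ sp w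
        · rw [((h1 f hf).2 w).2 x hx, hk]; push_cast; ring
        · rw [h.supp w t0 x hx]; simp
      simp only [Mm, LinearMap.coe_mk, AddHom.coe_mk, Pi.sub_apply, Pi.smul_apply, smul_eq_mul,
        Pi.mul_apply, Pi.one_apply, Pi.add_apply, Finset.sum_apply, e1, sum_neg_distrib, ← mul_sum]
      ring
    convert comb_mem c u t0 sp bs (h1 f hf).1 fun w => -k w using 1
    rw [← e]
    refine Prod.ext ?_ ?_
    · funext i
      rcases i with i | i
      · simp only [Tr, LinearMap.coe_mk, AddHom.coe_mk, Prod.fst_sub, Prod.smul_fst, Pi.sub_apply,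
          Pi.smul_apply, Sum.elim_inl, Pi.mul_apply, smul_eq_mul, map_sub, map_smul]
        ring
      · simp only [Tr, LinearMap.coe_mk, AddHom.coe_mk, Prod.fst_sub, Prod.smul_fst, Pi.sub_apply,
          Pi.smul_apply, Sum.elim_inr, smul_eq_mul, hk]
        push_cast
        ring
    · simp [Finset.sum_apply, hz, hl, fun w => h.supp w t0 _ (h.cor w).1,
        fun w => h.supp w t0 _ (h.cor w).2]
  · rintro _ ⟨_, ⟨f, hf, rfl⟩, rfl⟩
    refine ⟨AddSubgroup.subset_closure (Or.inl ⟨_, ⟨f, (h0 f hf).1, rfl⟩, ?_⟩), ?_⟩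
    · rw [Dd_mul_eq]
      exact fun w e he => hT f hf e (Or.inr ⟨w, he⟩)
    · rw [Fintype.sum_sum_type]
      simp only [Sum.elim_inl, Sum.elim_inr, Pi.zero_apply, zero_mul, sum_const_zero, add_zero]
      refine sum_eq_zero fun e _ => ?_
      by_cases he : χ e.1 = χ e.2
      · simp [Tm_apply, he]
      · exact mul_eq_zero_of_left (hT f hf e (Or.inl he)) _
  · refine hC lam d1 _ _ _ (Gm Λ1 c') (Xs sp pt) ((Tr c χ sp bs pt z).comp (Xs sp pt).subtype)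
      ((Tm c').comp (Xs sp pt).subtype) (fun x => ?_) ?_ m1
    · simp only [LinearMap.comp_apply, Submodule.subtype_apply]
      rw [sq_Tm hc', Fintype.sum_sum_type]
      refine le_trans (add_le_add (sq_DT h.disj h.c0 univ _) (le_of_eq ?_)) (hQ x.1 x.2)
      refine sum_congr rfl fun w _ => ?_
      simp only [Tr, LinearMap.coe_mk, AddHom.coe_mk, Sum.elim_inr]
      rw [mul_pow, Real.sq_sqrt (bs_nonneg h w), mul_comm]
    · rintro _ ⟨f, hf, rfl⟩
      exact ⟨⟨f, fun w => ((h1 f hf).2 w).2⟩, rfl, AddSubgroup.subset_closure ⟨f, hf, rfl⟩⟩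

end R

theorem ring (hB : BasicStmt) (hC : CmpStmt) (hR : RemStmt) (hF : FinStmt) (hS : SpringStmt) :
    RingStmt := by
  intro n lam Λ c W I _ _ χ u t0 sp bs m q p h hp
  have hk : (0 : ℝ) ≤ Fintype.card W * (27 / 28 : ℝ) ^ m := by positivity
  refine ⟨fun hl hχ hW => ?_, fun Λ1 Λ0 c' pt z d1 d0 hz hl hc' hW h1 hQ h0 m1 m0 => ?_⟩
  · have ha := R.a_mem h
    rw [hχ] at ha
    have h2 := R.springs hB hC hS h (G0 := ∅) (d0 := 1) (by simp) (fun H _ => (hB lam _ H).1)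
      (by nlinarith [sq_nonneg lam]) (hF lam _ _ _ hl ha ((R.a_sq h).trans h.q1))
    refine (hB lam _ _).2.1 _ _ ?_ h2
    nlinarith [mul_le_mul_of_nonneg_right hW (sq_nonneg lam)]
  · rcases le_total d1 d0 with hd | hd
    · have he : 0 ≤ 8 * Real.exp (-(10 / q)) := by positivity
      have he1 : 8 * Real.exp (-(10 / q)) ≤ 1 := by linarith
      have h2 := R.springs hB hC hS h (G0 := Gm Λ0 c) (d0 := d0) ?_
        (fun H hH => R.to_elim hC hH m0) (by nlinarith)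
        (R.removal hC hR h hz hl hc' he1 h1 hQ h0 m1 m0)
      · refine (hB lam _ _).2.1 _ _ ?_ h2
        have h3 := mul_le_mul_of_nonneg_right hW (sub_nonneg.2 hd)
        have h4 := mul_nonneg (mul_nonneg hk he) (sub_nonneg.2 hd)
        nlinarith
      · rintro _ ⟨f, hf, rfl⟩
        refine ⟨⟨f, (h0 f hf).1, rfl⟩, fun w e he => ?_⟩
        by_cases hc : c e.1 e.2 = 0
        · simp [hc]
        · simp [(h0 f hf).2 _ _ hc (Or.inr ⟨w, he⟩)]
    · refine (hB lam _ _).2.1 d0 _ (by nlinarith) ((hB lam _ _).2.2.2 (Gm Λ0 c) d0 ?_ m0)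
      rintro _ ⟨f, hf, rfl⟩
      exact AddSubgroup.subset_closure ⟨f, (h0 f hf).1, rfl⟩

end Pool.Agent.Lib.MP_9cc147_pr.AllU
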