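import Pool.Agent.Lib.MP_9cc147_pr.U.Defs

/-! Sums over fields with prescribed gradients and over sets with a prescribed union. -/

open Finset
open scoped ENNReal

namespace Pool.Agent.Lib.MP_9cc147_pr.AllU.S

variable {n : ℕ}

lemma tsum_le_inj {α β : Type*} {f : α → ℝ≥0∞} {g : β → ℝ≥0∞} (i : α → β)
    (hi : ∀ a a', f a ≠ 0 → f a' ≠ 0 → i a = i a' → a = a') (h : ∀ a, f a ≤ g (i a)) :
    ∑' a, f a ≤ ∑' b, g b := by
  rw [← tsum_subtype_support f]
  refine (ENNReal.tsum_le_tsum fun a : Function.support f => h a).trans ?_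
  exact ENNReal.tsum_comp_le_tsum_of_injective (f := fun a : Function.support f => i a)
    (fun a a' e => Subtype.ext (hi _ _ a.2 a'.2 e)) g

lemma tsum_pi_pow {ι : Type} [Fintype ι] [DecidableEq ι] (f : ℤ → ℝ≥0∞) :
    ∑' g : ι → ℤ, ∏ i, f (g i) ≤ (∑' k, f k) ^ Fintype.card ι := by
  rw [ENNReal.tsum_eq_iSup_sum]
  refine iSup_le fun s => ?_
  have h : s ⊆ Fintype.piFinset fun _ : ι => s.biUnion fun g => univ.image g := fun g hg =>
    Fintype.mem_piFinset.2 fun i => mem_biUnion.2 ⟨g, hg, mem_image_of_mem _ (mem_univ i)⟩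
  refine (sum_le_sum_of_subset h).trans ?_
  rw [← prod_univ_sum, prod_const, card_univ]
  exact pow_le_pow_left' (ENNReal.sum_le_tsum _) _

/-- a pinned field is determined by its gradients -/
lemma eq_of_grad {m m' : Vx n → ℤ} (h0 : m (vz n) = m' (vz n))
    (h : ∀ e ∈ Ed n, m e.1 - m e.2 = m' e.1 - m' e.2) : m = m' := by
  funext p
  have := path (fun x => m x - m' x) (vz n) n (θ := 0) le_rfl (fun e he _ _ => by
    have := h e he
    rw [norm_le_zero_iff]; omega) p (ds_le _ _)
  rw [mul_zero, norm_le_zero_iff] at this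
  omega

open Classical in
/-- sum over the fields whose gradients are free only on `T` -/
lemma grad_sum (T : Finset (Vx n × Vx n)) (m0 : Vx n → ℤ) (f : ℤ → ℝ≥0∞) :
    ∑' m : Vx n → ℤ, (if m (vz n) = 0 ∧ ∀ e ∈ Ed n, e ∉ T → m e.1 - m e.2 = m0 e.1 - m0 e.2 then
      ∏ e ∈ T, f (m e.1 - m e.2) else 0) ≤ (∑' k, f k) ^ T.card := by
  rw [← Fintype.card_coe]
  refine le_trans (tsum_le_inj (fun m (e : T) => m e.1.1 - m e.1.2) (fun m m' a a' h => ?_)
    fun m => ?_) (tsum_pi_pow f)
  · have b := (ite_ne_right_iff.1 a).1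
    have b' := (ite_ne_right_iff.1 a').1
    refine eq_of_grad (b.1.trans b'.1.symm) fun e he => ?_
    by_cases c : e ∈ T
    · exact congrFun h ⟨e, c⟩
    · exact (b.2 e he c).trans (b'.2 e he c).symm
  · split_ifs
    · exact (prod_coe_sort T fun e => f (m e.1 - m e.2)).ge
    · exact zero_le

/-- sum over the sets that become `M0` when `O` is added -/
lemma pw_fib {α : Type} [Fintype α] [DecidableEq α] {p : α → ℝ} (hp : ∀ a, 0 < p a)
    {O M0 : Finset α} (hO : O ⊆ M0) :
    ∑ M, (if M ∪ O = M0 then pw p M else 0) = pw p M0 * ∏ a ∈ O, (p a)⁻¹ := by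
  classical
  have a : ∀ M : Finset α, (if M ∪ O = M0 then pw p M else 0) =
      ∏ a, (if a ∈ M then (if a ∈ M0 then p a else 0) else
        if a ∈ O ∨ a ∉ M0 then 1 - p a else 0) := by
    intro M
    split_ifs with h
    · unfold pw
      refine prod_congr rfl fun a _ => ?_
      subst h
      by_cases b : a ∈ M <;> by_cases c : a ∈ O <;> simp [b, c]
    · by_contra k
      refine h (Subset.antisymm (union_subset (fun a ha => ?_) hO) fun a ha => ?_)
      · by_contra c
        exact k (prod_eq_zero (mem_univ a) (by simp [ha, c])).symm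
      · by_contra c
        rw [mem_union, not_or] at c
        exact k (prod_eq_zero (mem_univ a) (by simp [ha, c.1, c.2])).symm
  simp only [a]
  have b : ∀ f g : α → ℝ, ∑ s : Finset α, ∏ a, (if a ∈ s then f a else g a) = ∏ a, (f a + g a) := by
    intro f g
    rw [Fintype.prod_add]
    refine sum_congr rfl fun s _ => ?_
    rw [prod_ite]
    congr 2 <;> ext a <;> simp
  rw [b, ← prod_ite_mem_eq O, pw, ← prod_mul_distrib]
  refine prod_congr rfl fun a _ => ?_
  have := (hp a).ne'
  by_cases c : a ∈ O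
  · simp [c, hO c, this]
  · by_cases d : a ∈ M0 <;> simp [c, d]

end Pool.Agent.Lib.MP_9cc147_pr.AllU.S
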