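import Pool.Agent.Lib.MP_9cc147_pr.U.SDefs
import Pool.Agent.Lib.MP_9cc147_pr.U.SGrad

/-! Step S5, weights: the states that are repaired to a given state have a small total weight. -/

open Finset
open scoped ENNReal

namespace Pool.Agent.Lib.MP_9cc147_pr.AllU.S.G

open Mono (Rem Lv IsCl Par oe ra be tb aa)

namespace Ac

variable {n : ℕ} {a : Pa}

lemma wS_pos (H : a.H) (k : ℤ) : 0 < wS a k := by
  unfold wS
  split_ifs with h
  · linarith [H.w0_lt k h]
  · exact (H.w_pos k).1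

lemma wS_le (H : a.H) (k : ℤ) : wS a k ≤ a.w k := by
  unfold wS
  split_ifs with h
  · linarith [H.w0_pos k]
  · exact le_rfl

lemma wC_pos (H : a.H) (k : ℤ) : 0 < wC a k := by
  unfold wC
  split_ifs with h
  · linarith [wS_pos H k]
  · exact (H.w_pos k).1

lemma wC_le (H : a.H) (k : ℤ) : wC a k ≤ a.w k := by
  unfold wC
  split_ifs with h
  · linarith [wS_pos H k, wS_le H k]
  · exact le_rfl

lemma wS_le_wC (H : a.H) (k : ℤ) : wS a k ≤ 2 * wC a k := by
  unfold wC
  split_ifs with h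
  · linarith
  · linarith [wS_le H k, (H.w_pos k).1]

lemma half_le (H : a.H) {k : ℤ} (h : |k| ≤ 10 ^ 6 * a.N) : a.w1 / 2 ≤ a.w k - wC a k := by
  rw [wC, if_pos h]
  linarith [wS_le H k, H.low k h]

lemma w0_le (H : a.H) {k : ℤ} (h : |k| ≤ 4 * a.N) : a.w0 k ≤ a.w k - wC a k := by
  rw [wC, if_pos (by omega), wS, if_pos h]
  linarith [H.w0_lt k h]

lemma we_nonneg (H : a.H) (ω : St n) (e : Eg n) : 0 ≤ we a ω e := by
  unfold we
  split_ifs
  · exact (wC_pos H _).le
  · linarith [wC_le H (gr ω.m e)]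
  · exact (wS_pos H _).le
  · exact (H.w0_pos _).le

lemma pw_nn {α : Type} [Fintype α] {p : α → ℝ} (h : ∀ x, 0 < p x ∧ p x < 1) (s : Finset α) :
    0 ≤ pw p s := by
  unfold pw
  refine prod_nonneg fun x _ => ?_
  split_ifs
  · exact (h x).1.le
  · linarith [(h x).2]

/-- the weight of a defect edge -/
lemma tail_le (H : a.H) {k : ℤ} (h : 4 * (a.N : ℤ) < |k|) :
    a.w0 k ≤ Real.exp (-|(k : ℝ)|) * Real.exp (-(a.β * a.N / 4 * |(k : ℝ)|)) := by
  refine (H.tail k h).trans ?_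
  rw [← Real.exp_add, Real.exp_le_exp, ← sq_abs]
  have h1 : 4 * (a.N : ℝ) ≤ |(k : ℝ)| := by exact_mod_cast h.le
  have h2 := H.bN
  have h3 := H.b0
  have h4 := abs_nonneg (k : ℝ)
  generalize |(k : ℝ)| = x at h1 h4
  have h5 : 4 * (a.β * a.N) * x ≤ a.β * x ^ 2 := by
    nlinarith [mul_le_mul_of_nonneg_left h1 (mul_nonneg h3.le h4)]
  nlinarith [mul_le_mul_of_nonneg_right h2 h4]

/-- sum of the free weights -/
noncomputable def fw (a : Pa) (k : ℤ) : ℝ := a.w k + Real.exp (-|(k : ℝ)|)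

lemma fw_pos (H : a.H) (k : ℤ) : 0 < fw a k := add_pos (H.w_pos k).1 (Real.exp_pos _)

lemma fw_sum (H : a.H) : ∑' k, ENNReal.ofReal (fw a k) ≤ ENNReal.ofReal a.S := by
  rw [ENNReal.tsum_eq_iSup_sum]
  refine iSup_le fun s => ?_
  rw [← ENNReal.ofReal_sum_of_nonneg fun k _ => (fw_pos H k).le]
  exact ENNReal.ofReal_le_ofReal (H.sum s)

lemma w1_le (H : a.H) : a.w1 ≤ a.S := by
  have h1 := H.sum {0}
  have h2 := H.low 0 (by positivity)
  rw [sum_singleton] at h1
  linarith [Real.exp_pos (-|((0 : ℤ) : ℝ)|)]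

/-- what is used about a state `ω` that is repaired to `σ` on the set `O` -/
structure Pre (a : Pa) (O P : Finset (Vx n)) (b : Fin (n + 1) × Vx n) (ω σ : St n) : Prop where
  reg : Reg a.N ω
  lab : σ.S = ω.S
  mr : ω.mr ∪ O = σ.mr
  fl : ω.fl ∪ {b} = σ.fl
  sq : Sq a.N σ = Sq a.N ω
  sub : P ⊆ O
  same : ∀ e ∈ Ed n, ¬ (Tc O e ∧ e ∉ Sq a.N σ) → gr ω.m e = gr σ.m e
  cov : ∀ e ∈ Ed n, Tc O e → e ∉ σ.S → |gr σ.m e| ≤ 10 ^ 6 * a.N

variable {O P : Finset (Vx n)} {b : Fin (n + 1) × Vx n} {ω σ : St n}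

open Classical in
/-- defect size on the edges that start in `P` -/
noncomputable def df (a : Pa) (P : Finset (Vx n)) (ω : St n) (e : Eg n) : ℕ :=
  if e.1 ∈ P then (if Dfe a.N ω e then (gr ω.m e).natAbs else 0) else 0

lemma df_sum : ∑ e ∈ Ed n, df a P ω e = ∑ x, if x ∈ P then mass a.N ω x else 0 := by
  classical
  rw [← sum_fiberwise_of_maps_to (t := univ) (g := Prod.fst) fun _ _ => mem_univ _]
  refine sum_congr rfl fun x _ => ?_
  split_ifs with h
  · exact sum_congr rfl fun e he => by rw [df, (mem_filter.1 he).2, if_pos h]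
  · exact sum_eq_zero fun e he => by rw [df, (mem_filter.1 he).2, if_neg h]

open Classical in
/-- one edge -/
lemma edge (H : a.H) (h : Pre a O P b ω σ) {e : Eg n} (he : e ∈ Ed n) :
    we a ω e ≤ we a σ e * ((if Tc O e ∧ e ∉ Sq a.N σ then 2 / a.w1 * fw a (gr ω.m e)
      else if Tc O e then 2 else 1) * Real.exp (-(a.β * a.N / 4 * df a P ω e))) := by
  have hc : Tc σ.mr e ↔ Tc ω.mr e ∨ Tc O e := by
    rw [← h.mr]; unfold Tc; simp only [mem_union]; tauto
  by_cases c : Tc O e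
  · by_cases d : e ∈ Sq a.N σ
    · have g := h.same e he fun q => q.2 d
      have nd : ¬ Dfe a.N ω e := fun q =>
        h.reg.good e.1 (mass_ne.2 ⟨e, Mono.mem_oe.2 ⟨he, rfl⟩, q⟩) (tbad_edge he (h.sq ▸ d))
      have z : df a P ω e = 0 := by simp [df, nd]
      have p := we_nonneg H σ e
      simp only [z, c, d, not_true, and_false, if_true, if_false, Nat.cast_zero, mul_zero, neg_zero,
        Real.exp_zero, mul_one]
      unfold we at p ⊢
      rw [if_pos (hc.2 (Or.inr c)), h.lab, ← g] at p ⊢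
      split_ifs at p ⊢ with x y y
      · linarith
      · linarith
      · linarith [wS_le_wC H (gr ω.m e)]
      · linarith [w0_le H (k := gr ω.m e) (not_lt.1 fun q => nd ⟨x, y, q⟩)]
    · have s : e ∉ σ.S := fun q => d (sub_plus q)
      have s' : e ∉ ω.S := h.lab ▸ s
      have q1 : a.w1 / 2 ≤ we a σ e := by
        rw [we, if_pos (hc.2 (Or.inr c)), if_neg s]
        exact half_le H (h.cov e he c s)
      have q2 : we a ω e ≤ fw a (gr ω.m e) * Real.exp (-(a.β * a.N / 4 * df a P ω e)) := by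
        have p1 := Real.exp_pos (-|((gr ω.m e : ℤ) : ℝ)|)
        by_cases nd : Dfe a.N ω e
        · rw [we, if_neg nd.1, if_neg s']
          refine (tail_le H nd.2.2).trans (mul_le_mul (by unfold fw; linarith [(H.w_pos (gr ω.m e)).1])
            ?_ (Real.exp_pos _).le (fw_pos H _).le)
          have : ((df a P ω e : ℕ) : ℝ) ≤ |((gr ω.m e : ℤ) : ℝ)| := by
            unfold df
            split_ifs
            · rw [Nat.cast_natAbs, Int.cast_abs]
            · simp
          have := mul_le_mul_of_nonneg_left this (by linarith [H.bN] : 0 ≤ a.β * a.N / 4)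
          exact Real.exp_le_exp.2 (by linarith)
        · have z : df a P ω e = 0 := by simp [df, nd]
          rw [z, Nat.cast_zero, mul_zero, neg_zero, Real.exp_zero, mul_one, we, fw]
          split_ifs with x
          · linarith [wC_pos H (gr ω.m e)]
          · linarith [H.w0_lt (gr ω.m e) (not_lt.1 fun q => nd ⟨x, s', q⟩)]
      rw [if_pos ⟨c, d⟩]
      have w1 := H.w1_pos
      have p := mul_pos (fw_pos H (gr ω.m e)) (Real.exp_pos (-(a.β * a.N / 4 * df a P ω e)))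
      calc we a ω e ≤ _ := q2
        _ = a.w1 / 2 * (2 / a.w1 * fw a (gr ω.m e) *
            Real.exp (-(a.β * a.N / 4 * df a P ω e))) := by field_simp
        _ ≤ _ := mul_le_mul_of_nonneg_right q1 (by rw [mul_assoc]; positivity)
  · have z : df a P ω e = 0 := if_neg fun q => c (Or.inl (h.sub q))
    have g := h.same e he fun q => c q.1
    simp only [z, c, false_and, if_false, Nat.cast_zero, mul_zero, neg_zero, Real.exp_zero, mul_one]
    unfold we
    rw [h.lab, ← g]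
    simp only [hc, c, or_false, le_refl]

open Classical in
/-- edges with a free gradient -/
noncomputable def TT (N : ℕ) (O : Finset (Vx n)) (σ : St n) : Finset (Eg n) :=
  (Ed n).filter fun e => Tc O e ∧ e ∉ Sq N σ

open Classical in
/-- the other edges that touch `O` -/
noncomputable def TU (N : ℕ) (O : Finset (Vx n)) (σ : St n) : Finset (Eg n) :=
  ((Ed n).filter fun e => ¬ (Tc O e ∧ e ∉ Sq N σ)).filter (Tc O)

lemma edges (H : a.H) (h : Pre a O P b ω σ) {M : ℕ}
    (hM : (∑ x, if x ∈ P then mass a.N ω x else 0) = M) :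
    ∏ e ∈ Ed n, we a ω e ≤ (∏ e ∈ Ed n, we a σ e) * ((2 / a.w1) ^ (TT a.N O σ).card *
      2 ^ (TU a.N O σ).card * Real.exp (-(a.β * a.N / 4 * M))) *
      ∏ e ∈ TT a.N O σ, fw a (gr ω.m e) := by
  classical
  refine (prod_le_prod (fun e _ => we_nonneg H ω e) fun e he => edge H h he).trans (le_of_eq ?_)
  rw [prod_mul_distrib, prod_mul_distrib, prod_ite, prod_ite, prod_mul_distrib, ← Real.exp_sum,
    sum_neg_distrib, ← mul_sum, ← Nat.cast_sum, df_sum, hM]
  simp only [prod_const, one_pow, mul_one]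
  unfold TT TU
  ring_nf

lemma in_card (G : Finset (Eg n)) (hG : G ⊆ Ed n) (T : Finset (Vx n)) (hT : ∀ e ∈ G, e.2 ∈ T) :
    G.card ≤ 2 * T.card := by
  refine card_le_mul_card_image_of_maps_to hT 2 fun x _ => ?_
  refine (card_le_card_of_injOn (t := (univ : Finset Bool))
    (fun e => decide (e.2.1.val = e.1.1.val)) (fun _ _ => mem_coe.2 (mem_univ _)) ?_).trans
    (by simp)
  intro e he e' he' h
  obtain ⟨h1, h2⟩ := mem_filter.1 (mem_coe.1 he)
  obtain ⟨h3, h4⟩ := mem_filter.1 (mem_coe.1 he')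
  have h5 := mem_Ed.1 (hG h1)
  have h6 := mem_Ed.1 (hG h3)
  have h7 : e.2.1.val = e.1.1.val ↔ e'.2.1.val = e'.1.1.val := by simpa using h
  rw [h2] at h5 h7
  rw [h4] at h6 h7
  refine Prod.ext (Prod.ext (Fin.ext ?_) (Fin.ext ?_)) (h2.trans h4.symm) <;> omega

lemma T_card (N : ℕ) (O : Finset (Vx n)) (σ : St n) :
    (TT N O σ).card + (TU N O σ).card ≤ 4 * O.card := by
  have h1 := out_card ((Ed n).filter fun e => e.1 ∈ O) (filter_subset _ _) O
    fun e he => (mem_filter.1 he).2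
  have h2 := in_card ((Ed n).filter fun e => e.2 ∈ O) (filter_subset _ _) O
    fun e he => (mem_filter.1 he).2
  have m1 : ∀ e ∈ TT N O σ, e ∈ Ed n ∧ Tc O e ∧ e ∉ Sq N σ := fun e p => by
    classical exact mem_filter.1 p
  have m2 : ∀ e ∈ TU N O σ, (e ∈ Ed n ∧ ¬ (Tc O e ∧ e ∉ Sq N σ)) ∧ Tc O e := fun e p => by
    classical exact ⟨mem_filter.1 (mem_filter.1 p).1, (mem_filter.1 p).2⟩
  have h3 : Disjoint (TT N O σ) (TU N O σ) := disjoint_left.2 fun e p q => (m2 e q).1.2 (m1 e p).2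
  have h4 : TT N O σ ∪ TU N O σ ⊆
      ((Ed n).filter fun e => e.1 ∈ O) ∪ (Ed n).filter fun e => e.2 ∈ O := fun e he => by
    have : e ∈ Ed n ∧ Tc O e := by
      rcases mem_union.1 he with p | p
      · exact ⟨(m1 e p).1, (m1 e p).2.1⟩
      · exact ⟨(m2 e p).1.1, (m2 e p).2⟩
    exact mem_union.2 (this.2.imp (fun p => mem_filter.2 ⟨this.1, p⟩)
      fun p => mem_filter.2 ⟨this.1, p⟩)
  have h5 := (card_le_card h4).trans (card_union_le _ _)
  rw [card_union_of_disjoint h3] at h5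
  exact (h5.trans (add_le_add h1 h2)).trans_eq (by ring)

/-- the constant -/
lemma const (H : a.H) {t u o M : ℕ} (h : t + u ≤ 4 * o) (hM : a.N * o ≤ 225 * M) :
    a.S ^ t * (a.e⁻¹) ^ o * ((2 / a.w1) ^ t * 2 ^ u * Real.exp (-(a.β * a.N / 4 * M))) ≤
      Real.exp (-(a.β * a.N / 8 * M)) := by
  have w1 := H.w1_pos
  have e0 := H.e0
  have h1 : 2 ≤ 2 * a.S / a.w1 := by rw [le_div_iff₀ w1]; linarith [w1_le H]
  have h2 : a.S ^ t * (2 / a.w1) ^ t * 2 ^ u ≤ ((2 * a.S / a.w1) ^ 4) ^ o := by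
    rw [← mul_pow, ← pow_mul, show a.S * (2 / a.w1) = 2 * a.S / a.w1 by ring]
    refine le_trans ?_ (pow_le_pow_right₀ (by linarith) h)
    rw [pow_add]
    exact mul_le_mul_of_nonneg_left (pow_le_pow_left₀ (by norm_num) h1 u) (by positivity)
  have h3 : ((2 * a.S / a.w1) ^ 4) ^ o ≤ (a.e * Real.exp (a.β * a.N ^ 2 / 1800)) ^ o :=
    pow_le_pow_left₀ (by positivity) H.cost o
  have h4 : (o : ℝ) * (a.β * a.N ^ 2 / 1800) ≤ a.β * a.N / 8 * M := by
    have h5 : (a.N : ℝ) * o ≤ 225 * M := by exact_mod_cast hM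
    nlinarith [mul_le_mul_of_nonneg_left h5 (by linarith [H.bN] : 0 ≤ a.β * a.N)]
  calc _ = a.S ^ t * (2 / a.w1) ^ t * 2 ^ u * (a.e⁻¹ ^ o * Real.exp (-(a.β * a.N / 4 * M))) := by
        ring
    _ ≤ (a.e * Real.exp (a.β * a.N ^ 2 / 1800)) ^ o *
          (a.e⁻¹ ^ o * Real.exp (-(a.β * a.N / 4 * M))) :=
        mul_le_mul_of_nonneg_right (h2.trans h3) (by positivity)
    _ = Real.exp (o * (a.β * a.N ^ 2 / 1800) + -(a.β * a.N / 4 * M)) := by
        rw [Real.exp_add, Real.exp_nat_mul, mul_pow, inv_pow]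
        field_simp
    _ ≤ _ := Real.exp_le_exp.2 (by linarith)

open Classical in
/-- the total weight of the states with a given region and a given mass -/
lemma fibre (H : a.H) (hp : ∀ k, 0 < pF a k ∧ pF a k < 1) {M : ℕ} (hM : a.N * O.card ≤ 225 * M)
    (hO : O ⊆ σ.mr) (hb : b ∈ σ.fl) (D : St n → Prop)
    (hD : ∀ ω, D ω → Pre a O P b ω σ ∧ (∑ x, if x ∈ P then mass a.N ω x else 0) = M) :
    ENNReal.ofReal (pF a b.1) * ∑' ω, (if D ω then nu a ω else 0) ≤
      nu a σ * ENNReal.ofReal (Real.exp (-(a.β * a.N / 8 * M))) := by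
  have pe : ∀ _ : Vx n, 0 < a.e ∧ a.e < 1 := fun _ => ⟨H.e0, by linarith [H.e1]⟩
  have pb : ∀ x : Fin (n + 1) × Vx n, 0 < pF a x.1 ∧ pF a x.1 < 1 := fun x => hp _
  have w1 := H.w1_pos
  set c := (2 / a.w1) ^ (TT a.N O σ).card * 2 ^ (TU a.N O σ).card *
    Real.exp (-(a.β * a.N / 4 * M)) with hc
  have c0 : 0 ≤ c := by positivity
  have E0 : 0 ≤ ∏ e ∈ Ed n, we a σ e := prod_nonneg fun e _ => we_nonneg H σ e
  set g1 : (Vx n → ℤ) → ℝ≥0∞ := fun m => if m (vz n) = 0 ∧ ∀ e ∈ Ed n, e ∉ TT a.N O σ →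
    m e.1 - m e.2 = σ.m e.1 - σ.m e.2 then
      ∏ e ∈ TT a.N O σ, ENNReal.ofReal (fw a (m e.1 - m e.2)) else 0 with hg1
  set g2 : Finset (Vx n) → ℝ := fun R => if R ∪ O = σ.mr then pw (fun _ => a.e) R else 0 with hg2
  set g3 : Finset (Fin (n + 1) × Vx n) → ℝ :=
    fun R => if R ∪ {b} = σ.fl then pw (fun x => pF a x.1) R else 0 with hg3
  have p2 : ∀ R, 0 ≤ g2 R := fun R => by
    simp only [hg2]; split_ifs; exacts [pw_nn pe _, le_rfl]
  have p3 : ∀ R, 0 ≤ g3 R := fun R => by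
    simp only [hg3]; split_ifs; exacts [pw_nn pb _, le_rfl]
  have s1 : ∑' m, g1 m ≤ ENNReal.ofReal (a.S ^ (TT a.N O σ).card) := by
    rw [ENNReal.ofReal_pow (w1.le.trans (w1_le H))]
    exact (grad_sum (TT a.N O σ) σ.m fun k => ENNReal.ofReal (fw a k)).trans
      (pow_le_pow_left' (fw_sum H) _)
  have s2 : ∑' R, ENNReal.ofReal (g2 R) =
      ENNReal.ofReal (pw (fun _ => a.e) σ.mr * (a.e⁻¹) ^ O.card) := by
    rw [tsum_fintype, ← ENNReal.ofReal_sum_of_nonneg fun R _ => p2 R,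
      pw_fib (fun x => (pe x).1) hO, prod_const]
  have s3 : ∑' R, ENNReal.ofReal (g3 R) =
      ENNReal.ofReal (pw (fun x => pF a x.1) σ.fl * (pF a b.1)⁻¹) := by
    rw [tsum_fintype, ← ENNReal.ofReal_sum_of_nonneg fun R _ => p3 R,
      pw_fib (fun x => (pb x).1) (singleton_subset_iff.2 hb), prod_singleton]
  have key : ∑' ω, (if D ω then nu a ω else 0) ≤
      ∑' q : (Vx n → ℤ) × Finset (Vx n) × Finset (Fin (n + 1) × Vx n),
        g1 q.1 * (ENNReal.ofReal (g2 q.2.1) * (ENNReal.ofReal (g3 q.2.2) *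
          ENNReal.ofReal ((∏ e ∈ Ed n, we a σ e) * c))) := by
    refine tsum_le_inj (fun ω => (ω.m, ω.mr, ω.fl)) (fun ω ω' p p' q => ?_) fun ω => ?_
    · have r := (hD ω (ite_ne_right_iff.1 p).1).1
      have r' := (hD ω' (ite_ne_right_iff.1 p').1).1
      simp only [Prod.mk.injEq] at q
      exact St.ext q.1 (r.lab.symm.trans r'.lab) q.2.1 q.2.2
    · split_ifs with d
      · obtain ⟨r, hm⟩ := hD ω d
        have q1 : g1 ω.m = ENNReal.ofReal (∏ e ∈ TT a.N O σ, fw a (gr ω.m e)) := by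
          rw [ENNReal.ofReal_prod_of_nonneg fun e _ => (fw_pos H _).le]
          exact if_pos ⟨r.reg.pin, fun e he hn => r.same e he fun q => hn (mem_filter.2 ⟨he, q⟩)⟩
        have q2 : g2 ω.mr = pw (fun _ => a.e) ω.mr := if_pos r.mr
        have q3 : g3 ω.fl = pw (fun x => pF a x.1) ω.fl := if_pos r.fl
        simp only [q1, q2, q3]
        rw [← ENNReal.ofReal_mul (pw_nn pb _), ← ENNReal.ofReal_mul (pw_nn pe _),
          ← ENNReal.ofReal_mul (prod_nonneg fun e _ => (fw_pos H _).le), nu]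
        refine ENNReal.ofReal_le_ofReal ?_
        refine (mul_le_mul_of_nonneg_left (edges H r hm)
          (mul_nonneg (pw_nn pe _) (pw_nn pb _))).trans (le_of_eq ?_)
        rw [← hc]
        ring
      · exact zero_le
  simp only [ENNReal.tsum_prod', ENNReal.tsum_mul_left, ENNReal.tsum_mul_right] at key
  rw [s2, s3] at key
  refine (mul_le_mul_right (key.trans (mul_le_mul_left s1 _)) _).trans ?_
  have u2 := pw_nn pe σ.mr
  have u3 := pw_nn pb σ.fl
  have u4 := (pb b).1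
  have u5 := H.e0
  have u6 := w1.le.trans (w1_le H)
  rw [← ENNReal.ofReal_mul (by positivity), ← ENNReal.ofReal_mul (by positivity),
    ← ENNReal.ofReal_mul (by positivity), ← ENNReal.ofReal_mul (by positivity), nu,
    ← ENNReal.ofReal_mul (by positivity)]
  refine ENNReal.ofReal_le_ofReal (le_trans (le_of_eq ?_) (mul_le_mul_of_nonneg_left
    (const H (T_card a.N O σ) hM) (by positivity)))
  rw [← hc]
  field_simp

/-- a state that is repaired at `P` -/
lemma pre (hF : FeasSt) (hR : RepSt) (hN : 1 ≤ a.N) {k : ℕ} (h : Opt a.N k P ω σ) :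
    Pre a (Og a.N (mass a.N ω) P) P (fk n k, nm P) ω σ := by
  obtain ⟨h1, h2, rfl⟩ := h
  have r := hR n a.N k ω {P} hN h1 fun Q hQ => mem_singleton.1 hQ ▸ h2
  have f := hF n a.N k ω P hN h1 h2
  refine ⟨h1.1, rfl, by simp [repF], by simp [repF], r.sq, fun x hx =>
    Og_ball hx (mass_big (h2.pos hx)).le (by simp), fun e he hn => ?_, fun e he hc hs => ?_⟩
  · by_cases c : Tc (Og a.N (mass a.N ω) P) e
    · have d : e ∈ Sq a.N ω := r.sq ▸ by_contra fun q => hn ⟨c, q⟩
      rw [r.gr_on e he P (mem_singleton_self _) c, (f.2 e he c).1 d, add_zero]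
    · exact (r.gr_off e he fun Q hQ => mem_singleton.1 hQ ▸ c).symm
  · refine r.om.1.cov e he ?_ hs
    have : Og a.N (mass a.N ω) P ⊆ (repF a.N ω k {P}).mr := by simp [repF]
    exact hc.imp (fun q => this q) fun q => this q

end Ac

open Ac

/-- S5, weights -/
theorem acSt (hF : FeasSt) (hR : RepSt) (hP : PosSt) : AcSt := by
  classical
  intro n a k σ P H
  obtain ⟨hN, -, -, hp, -⟩ := hP n a σ H
  rw [pm, tsum_fib fun ω : St n => fun x => if x ∈ P then mass a.N ω x else 0, WW,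
    ← ENNReal.tsum_mul_left, ← ENNReal.tsum_mul_left]
  refine ENNReal.tsum_le_tsum fun μ => ?_
  by_cases c : ∃ ω, (fun x => if x ∈ P then mass a.N ω x else 0) = μ ∧ Opt a.N k P ω σ
  · obtain ⟨ω, e, h⟩ := c
    have og : ∀ ω' : St n, (fun x => if x ∈ P then mass a.N ω' x else 0) = μ →
        Og a.N (mass a.N ω') P = Og a.N μ P := fun ω' e' =>
      Og_congr fun p hp => by rw [← e']; exact (if_pos hp).symm
    have r := pre hF hR hN h
    rw [og ω e] at r
    have s1 : sp μ = P := by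
      ext x
      rw [mem_sp, ← e]
      exact ⟨fun q => by_contra fun d => q (if_neg d), fun q => by
        simpa [q] using h.2.1.pos q⟩
    have s2 : Surv a.N k (nm P) μ := e ▸ surv_of_cl h.1.2 h.2.1 h.2.1.nm
      (fun _ _ _ q => Or.inr q) fun x hx => mass_big (h.2.1.pos hx)
    have s3 : ∑ x ∈ P, μ x = ∑ x, μ x := sum_subset (subset_univ _) fun x _ hx =>
      by_contra fun q => hx (s1 ▸ mem_sp.2 q)
    have key := fibre H hp (M := ∑ x, μ x) (s3 ▸ Og_card hN) (r.mr ▸ subset_union_right)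
      (r.fl ▸ mem_union_right _ (mem_singleton_self _))
      (fun ω' => (fun x => if x ∈ P then mass a.N ω' x else 0) = μ ∧ Opt a.N k P ω' σ)
      fun ω' q => ⟨og ω' q.1 ▸ pre hF hR hN q.2, by rw [← q.1]⟩
    rw [if_pos ⟨s1, s2⟩]
    simp only [fk_val h.2.1.lev] at key
    refine le_trans (le_of_eq ?_) key
    refine congrArg _ (tsum_congr fun ω' => ?_)
    by_cases p : (fun x => if x ∈ P then mass a.N ω' x else 0) = μ <;>
      by_cases q : Opt a.N k P ω' σ <;> simp only [p, q, and_self, and_true, and_false, if_true,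
        if_false]
  · refine le_trans (le_of_eq ?_) zero_le
    refine mul_eq_zero_of_right _ (ENNReal.tsum_eq_zero.2 fun ω => ?_)
    split_ifs with p q
    · exact absurd ⟨ω, p, q⟩ c
    · rfl
    · rfl

end Pool.Agent.Lib.MP_9cc147_pr.AllU.S.G
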