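import Pool.Agent.Lib.MP_9cc147_pr.U.SDefs

/-! S7: structure of a class. -/

open Finset

namespace Pool.Agent.Lib.MP_9cc147_pr.AllU.S.G

open Mono (oe ra be tb)

namespace Ca

variable {n N k j : ℕ} {ω ω' : St n} {A P : Finset (Vx n)} {μ μ' : Vx n → ℕ} {p x y : Vx n}

lemma clo : Clo N ω (fun x => x ∈ Ast N ω) :=
  ⟨fun _ h => mem_Ast.2 fun _ hA => hA.1 _ h, fun k p hp h y hy =>
    mem_Ast.2 fun A hA => hA.2 k p hp (mem_Ast.1 h A hA) y hy⟩

lemma a0_S {e : Eg n} (he : e ∈ Ed n) (h : e ∈ Sq N ω) : A0 N ω e.1 := Or.inl (tbad_edge he h)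

lemma a0_mr (hy : y ∈ ω.mr) (hd : ds x y ≤ 1) : A0 N ω x := by
  refine Or.inr (Or.inl ⟨1, ?_⟩)
  have : 0 < (ω.mr.filter fun y => ds x y ≤ 1).card := card_pos.2 ⟨y, mem_filter.2 ⟨hy, hd⟩⟩
  omega

lemma free {e : Eg n} (he : e ∈ Ed n) (h : e.1 ∉ Ast N ω) : ¬ Tc ω.mr e ∧ e ∉ ω.S :=
  ⟨fun c => h (clo.1 _ (c.elim (fun c => a0_mr c (by simp)) fun c => a0_mr c (ds_edge he))),
    fun c => h (clo.1 _ (a0_S he (sub_plus c)))⟩

/-- the mass at a frozen point does not change -/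
lemma mass_eq (h : Same A ω ω') (hx : x ∈ A) : mass N ω' x = mass N ω x := by
  refine sum_congr rfl fun e he => ?_
  obtain ⟨h1, h2⟩ := Mono.mem_oe.1 he
  have h3 := h.gr e h1 (h2 ▸ hx)
  have : Dfe N ω' e ↔ Dfe N ω e := by rw [Dfe, Dfe, h.mr, h.S, h3]
  rw [this, h3]

lemma sq_eq (hS : ω.S ⊆ Ed n) (h : Same (Ast N ω) ω ω') : Sq N ω' = Sq N ω := by
  rw [Sq, h.S]
  exact plus_congr fun e he => h.gr e (plus_sub hS he) (clo.1 _ (a0_S (plus_sub hS he) he))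

lemma a0_iff (hS : ω.S ⊆ Ed n) (h : Same (Ast N ω) ω ω') : A0 N ω' x ↔ A0 N ω x := by
  rw [A0, A0, sq_eq hS h, h.mr, h.fl]

lemma sp_loc {r : ℕ} (h : ∀ y, ds p y ≤ r → μ' y = μ y) (y : Vx n) (hy : ds p y ≤ r) :
    y ∈ sp μ ↔ y ∈ sp μ' := by rw [mem_sp, mem_sp, h y hy]

lemma ok_loc {r : ℕ} (h : ∀ y, ds p y ≤ r → μ' y = μ y) (j : ℕ) (C : Finset (Vx n))
    (hC : ∀ y ∈ C, ds p y ≤ r) : okM N μ j C ↔ okM N μ' j C := by
  rw [okM, okM, sum_congr rfl fun y hy => h y (hC y hy)]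

/-- levels are local -/
lemma lm_loc {r : ℕ} (h : ∀ y, ds p y ≤ r → μ' y = μ y) (hd : ds p x + 2 * be j ≤ r) :
    x ∈ Lm N μ j ↔ x ∈ Lm N μ' j :=
  lv_local rd_step (sp_loc h) (fun j C _ => ok_loc h j C) hd

/-- clusters are local -/
lemma cl_loc {r : ℕ} (h : ∀ y, ds p y ≤ r → μ' y = μ y) (hc : Cl N μ j P) (hx : x ∈ P)
    (hd : ds p x + 2 * be j ≤ r) : Cl N μ' j P :=
  isCl_local par_rb rd_step (sp_loc h) (fun j C _ => ok_loc h j C) hc hx hd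

lemma low_loc (h : ∀ y, ds p y ≤ tb k → μ' y = μ y) (hy : y ∈ low N μ k)
    (hd : ds p y ≤ 100 * ra k) : y ∈ low N μ' k := by
  obtain ⟨j, hj, P, hc, hO⟩ := mem_low.1 hy
  have c1 := Mono.chain k
  have c2 := Mono.chain j
  have c3 := Mono.be_mono hj.le
  have hP : ∀ x ∈ P, ds p x + 2 * be j ≤ tb k := fun x hx => by
    have := hc.close hx hO
    have := ds_tri p y x
    rw [ds_comm y x] at this
    omega
  refine mem_low.2 ⟨j, hj, P, cl_loc h hc hc.nm (hP _ hc.nm), ?_⟩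
  rwa [Og_congr fun x hx => h x (by have := hP x hx; omega)]

/-- a frozen point keeps its level and its neighbourhood is frozen -/
lemma lev (h : Same (Ast N ω) ω ω') (hp : p ∈ Ast N ω) (hk : p ∈ Lm N (mass N ω') k) :
    p ∈ Lm N (mass N ω) k := by
  have h0 : mass N ω' p ≠ 0 := mem_sp.1 (Mono.rem_sub (Mono.lv_rem hk))
  rw [mass_eq h hp] at h0
  obtain ⟨j, P, hc, hP⟩ := exists_cl (N := N) h0
  have h1 := hc.lm hP
  have c := Mono.chain j
  have h2 := (lm_loc (p := p) (r := tb j) (fun y hy => mass_eq h (clo.2 j p h1 hp y hy))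
    (by rw [ds_self]; omega)).1 h1
  obtain rfl : j = k :=
    le_antisymm (Mono.lv_le (Mono.lv_rem h2) hk) (Mono.lv_le (Mono.lv_rem hk) h2)
  exact h1

lemma ast_sub (hS : ω.S ⊆ Ed n) (h : Same (Ast N ω) ω ω') : Ast N ω' ⊆ Ast N ω := fun _ hx =>
  mem_Ast.1 hx _ ⟨fun p hp => clo.1 p ((a0_iff hS h).1 hp),
    fun k p hk hp => clo.2 k p (lev h hp hk) hp⟩

lemma reg (hR : Reg N ω) (h : Same (Ast N ω) ω ω') : Reg N ω' := by
  refine ⟨h.pin, h.S ▸ hR.sub, fun e he h1 h2 => ?_, fun p hp hb => ?_, fun k p hk s hs => ?_⟩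
  · rw [h.mr] at h1
    rw [h.S] at h2
    rw [h.gr e he (by_contra fun c => (free he c).1 h1)]
    exact hR.cov e he h1 h2
  · rw [sq_eq hR.sub h] at hb
    rw [mass_eq h (clo.1 p (Or.inl hb))] at hp
    exact hR.good p hp hb
  · rw [h.mr]
    by_cases c : p ∈ Ast N ω
    · have h1 := lev h c hk
      refine le_trans (Nat.mul_le_mul_left _ (card_le_card fun y hy => ?_)) (hR.few k p h1 s hs)
      rw [mem_filter, mem_union] at hy ⊢
      exact ⟨hy.1.imp_right fun a => low_loc (p := p)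
        (fun z hz => (mass_eq h (clo.2 k p h1 c z hz)).symm) a (hy.2.trans hs), hy.2⟩
    · have h1 : ¬ (s + 1) ^ 2 < 2 * 10 ^ 16 * (ω.mr.filter fun y => ds p y ≤ s).card :=
        fun a => c (clo.1 p (Or.inr (Or.inl ⟨s, a⟩)))
      have h2 := lower_fill (N := N) (μ := mass N ω') (fun _ _ a => a) (Mono.lv_rem hk) s
        (A := (low N (mass N ω') k).filter fun y => ds p y ≤ s) fun x hx =>
          ⟨(mem_filter.1 hx).2, mem_low.1 (mem_filter.1 hx).1⟩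
      have h3 := card_union_le (ω.mr.filter fun y => ds p y ≤ s)
        ((low N (mass N ω') k).filter fun y => ds p y ≤ s)
      have h4 : s ^ 2 ≤ (s + 1) ^ 2 := Nat.pow_le_pow_left (by omega) 2
      rw [filter_union]
      omega

end Ca

theorem clsSt : ClsSt := by
  intro n N ω _ hR
  refine ⟨Ca.clo, fun e he h => Ca.free he h, fun ω' h => ?_⟩
  have h1 := Ca.ast_sub hR.sub h
  exact ⟨Ca.reg hR h, Ca.sq_eq hR.sub h, Subset.antisymm h1 (Ca.ast_sub (h.S ▸ hR.sub)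
    ⟨hR.pin, h.S.symm, h.mr.symm, h.fl.symm, fun e he a => (h.gr e he (h1 a)).symm⟩)⟩

end Pool.Agent.Lib.MP_9cc147_pr.AllU.S.G
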