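import Mathlib

/-! Potentials on a finite digraph and the closure of an edge set under negative cycles. -/

open Finset

namespace Pool.Agent.Lib.MP_9cc147_pr.AllU.S

variable {V : Type}

/-- walk from `x` through the vertices of the list, ending in `z` -/
def Wk (A : V → V → Prop) : V → List V → V → Prop
  | x, [], z => x = z
  | x, y :: l, z => A x y ∧ Wk A y l z

/-- the steps of a walk -/
def stp : V → List V → List (V × V)
  | _, [] => []
  | x, y :: l => (x, y) :: stp y l

/-- the cost of a walk -/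
def cst (c : V → V → ℤ) (x : V) (l : List V) : ℤ := ((stp x l).map fun s => c s.1 s.2).sum

variable {A A' : V → V → Prop} {c c' : V → V → ℤ} {x y z : V} {l l' : List V}

@[simp] lemma wk_nil : Wk A x [] z ↔ x = z := Iff.rfl
@[simp] lemma wk_cons : Wk A x (y :: l) z ↔ A x y ∧ Wk A y l z := Iff.rfl
@[simp] lemma stp_nil : stp x [] = [] := rfl
@[simp] lemma stp_cons : stp x (y :: l) = (x, y) :: stp y l := rfl
@[simp] lemma cst_nil : cst c x [] = 0 := rfl
@[simp] lemma cst_cons : cst c x (y :: l) = c x y + cst c y l := by simp [cst]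

lemma stp_snd (x : V) (l : List V) : (stp x l).map Prod.snd = l := by
  induction l generalizing x with
  | nil => rfl
  | cons y l ih => simp [ih]

lemma stp_length (x : V) (l : List V) : (stp x l).length = l.length := by
  rw [← List.length_map Prod.snd, stp_snd]

lemma stp_nodup (x : V) (h : l.Nodup) : (stp x l).Nodup :=
  List.Nodup.of_map Prod.snd (by rwa [stp_snd])

lemma Wk.step (h : Wk A x l z) {s : V × V} (hs : s ∈ stp x l) : A s.1 s.2 := by
  induction l generalizing x with
  | nil => simp at hs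
  | cons y l ih =>
    rcases List.mem_cons.1 hs with rfl | hs
    · exact h.1
    · exact ih h.2 hs

lemma Wk.of_step (h : Wk A x l z) (hs : ∀ s ∈ stp x l, A' s.1 s.2) : Wk A' x l z := by
  induction l generalizing x with
  | nil => exact h
  | cons y l ih => exact ⟨hs (x, y) (by simp), ih h.2 fun s h' => hs s (by simp [h'])⟩

lemma Wk.mono (h : Wk A x l z) (hA : ∀ a b, A a b → A' a b) : Wk A' x l z :=
  h.of_step fun _ hs => hA _ _ (h.step hs)

lemma Wk.append (h : Wk A x l y) (h' : Wk A y l' z) :
    Wk A x (l ++ l') z ∧ stp x (l ++ l') = stp x l ++ stp y l' := by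
  induction l generalizing x with
  | nil => obtain rfl : x = y := h; exact ⟨h', rfl⟩
  | cons a l ih => exact ⟨⟨h.1, (ih h.2).1⟩, by simp [(ih h.2).2]⟩

lemma Wk.cst_append (h : Wk A x l y) (h' : Wk A y l' z) :
    cst c x (l ++ l') = cst c x l + cst c y l' := by
  simp [cst, (h.append h').2]

lemma Wk.split (h : Wk A x (l ++ y :: l') z) : Wk A x (l ++ [y]) y ∧ Wk A y l' z := by
  induction l generalizing x with
  | nil => exact ⟨⟨h.1, rfl⟩, h.2⟩
  | cons a l ih => exact ⟨⟨h.1, (ih h.2).1⟩, (ih h.2).2⟩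

/-- a property that is constant along the steps is constant on the walk -/
lemma Wk.iff (h : Wk A x l z) {K : V → Prop} (hK : ∀ s ∈ stp x l, K s.1 ↔ K s.2) :
    (K x ↔ K z) ∧ ∀ s ∈ stp x l, (K s.1 ↔ K x) := by
  induction l generalizing x with
  | nil => obtain rfl : x = z := h; simp
  | cons y l ih =>
    have h1 : K x ↔ K y := hK (x, y) (by simp)
    obtain ⟨h2, h3⟩ := ih h.2 fun s h' => hK s (by simp [h'])
    refine ⟨h1.trans h2, fun s hs => ?_⟩
    rcases List.mem_cons.1 hs with rfl | hs
    · rfl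
    · exact (h3 s hs).trans h1.symm

lemma cst_mono (h : ∀ s ∈ stp x l, c s.1 s.2 ≤ c' s.1 s.2) : cst c x l ≤ cst c' x l :=
  List.sum_le_sum h

lemma Wk.cst_grad (h : Wk A x l z) (m : V → ℤ) : cst (fun a b => m b - m a) x l = m z - m x := by
  induction l generalizing x with
  | nil => obtain rfl : x = z := h; simp
  | cons y l ih => rw [cst_cons, ih h.2]; ring

/-- a potential bounds the cost from below -/
lemma Wk.le_cst (h : Wk A x l z) {r : V → ℤ} (hr : ∀ a b, A a b → r b - r a ≤ c a b) :
    r z - r x ≤ cst c x l := by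
  rw [← h.cst_grad r]
  exact cst_mono fun s hs => hr _ _ (h.step hs)

/-- without negative simple cycles every walk can be shortened to a path -/
lemma Wk.shorten (hc : ∀ x l, Wk A x l x → l.Nodup → 0 ≤ cst c x l) (h : Wk A x l z) :
    ∃ l', Wk A x l' z ∧ (x :: l').Nodup ∧ cst c x l' ≤ cst c x l := by
  induction l generalizing x with
  | nil => exact ⟨[], h, by simp, le_rfl⟩
  | cons y l ih =>
    obtain ⟨l', h1, h2, h3⟩ := ih h.2
    have h4 : Wk A x (y :: l') z := ⟨h.1, h1⟩
    have h5 : cst c x (y :: l') ≤ cst c x (y :: l) := by simpa using h3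
    by_cases hx : x ∈ y :: l'
    · obtain ⟨a, b, e⟩ := List.append_of_mem hx
      rw [e] at h4 h5 h2
      obtain ⟨k1, k2⟩ := h4.split
      have k3 : a ++ x :: b = (a ++ [x]) ++ b := by simp
      refine ⟨b, k2, h2.of_append_right, ?_⟩
      have k4 := hc x _ k1 (k3 ▸ h2).of_append_left
      rw [k3, k1.cst_append k2] at h5
      omega
    · exact ⟨y :: l', h4, List.nodup_cons.2 ⟨hx, h2⟩, h5⟩

/-- potentials with prescribed values on a set `D` -/
theorem pot_bd [Fintype V] (hc : ∀ x l, Wk A x l x → l.Nodup → 0 ≤ cst c x l) (D : V → Prop)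
    (g : V → ℤ) (hg : ∀ y y' l, D y → D y' → Wk A y l y' → g y' - g y ≤ cst c y l) :
    ∃ u : V → ℤ, (∀ y, D y → u y = g y) ∧ ∀ a b, A a b → u b - u a ≤ c a b := by
  classical
  obtain ⟨M, hM⟩ : ∃ M : ℤ, ∀ x l z, Wk A x l z → -M ≤ cst c x l := by
    obtain ⟨M, hM⟩ := (Set.finite_range fun p : V × {l : List V // l.Nodup} =>
      -cst c p.1 p.2.1).bddAbove
    refine ⟨M, fun x l z h => ?_⟩
    obtain ⟨l', -, h2, h3⟩ := h.shorten hc
    have : -cst c x l' ≤ M := hM ⟨(x, ⟨l', h2.of_cons⟩), rfl⟩
    omega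
  obtain ⟨K, hK⟩ := (Set.finite_range fun x => |g x|).bddAbove
  have hK' : ∀ x, |g x| ≤ K := fun x => hK ⟨x, rfl⟩
  let i : V → ℤ := fun x => if D x then g x else K + M
  have ex : ∀ z, ∃ a : ℤ, (∃ x l, Wk A x l z ∧ a = i x + cst c x l) ∧
      ∀ b, (∃ x l, Wk A x l z ∧ b = i x + cst c x l) → a ≤ b := fun z => by
    refine Int.exists_least_of_bdd ⟨-K - M - |M|, ?_⟩ ⟨_, z, [], rfl, rfl⟩
    rintro b ⟨x, l, h, rfl⟩
    have h1 := hM x l z h
    have h2 := abs_le.1 (hK' x)
    have h3 := neg_abs_le M
    have h4 := abs_nonneg M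
    simp only [i]
    split_ifs <;> omega
  choose u hu hu' using ex
  refine ⟨u, fun y hy => le_antisymm ?_ ?_, fun a b hab => ?_⟩
  · simpa [i, hy] using hu' y _ ⟨y, [], rfl, rfl⟩
  · obtain ⟨x, l, h, e⟩ := hu y
    have h1 := hM x l y h
    have h2 := abs_le.1 (hK' y)
    rw [e]
    simp only [i]
    split_ifs with hx
    · have := hg x y l hx hy h
      omega
    · omega
  · obtain ⟨x, l, h, e⟩ := hu a
    have h1 : Wk A a [b] b := ⟨hab, rfl⟩
    have := hu' b _ ⟨x, l ++ [b], (h.append h1).1, rfl⟩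
    rw [h.cst_append h1] at this
    simp only [cst_cons, cst_nil] at this
    omega

/-- potentials -/
theorem pot [Fintype V] (hc : ∀ x l, Wk A x l x → l.Nodup → 0 ≤ cst c x l) :
    ∃ u : V → ℤ, ∀ a b, A a b → u b - u a ≤ c a b :=
  (pot_bd hc (fun _ => False) 0 fun _ _ _ h => h.elim).imp fun _ h => h.2

/-- the same when some potential is known -/
theorem pot_bd' [Fintype V] {r : V → ℤ} (hr : ∀ a b, A a b → r b - r a ≤ c a b) (D : V → Prop)
    (g : V → ℤ) (hg : ∀ y y' l, D y → D y' → Wk A y l y' → g y' - g y ≤ cst c y l) :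
    ∃ u : V → ℤ, (∀ y, D y → u y = g y) ∧ ∀ a b, A a b → u b - u a ≤ c a b :=
  pot_bd (fun _ _ h _ => by simpa using h.le_cst hr) D g hg

/-! ### closure under negative cycles -/

/-- `x, y` are the ends of an edge of `F` -/
def Ad (F : Finset (V × V)) (x y : V) : Prop := (x, y) ∈ F ∨ (y, x) ∈ F

lemma Ad.symm {F : Finset (V × V)} (h : Ad F x y) : Ad F y x := Or.symm h

lemma Ad.mono {F F' : Finset (V × V)} (h : Ad F x y) (hF : F ⊆ F') : Ad F' x y :=
  h.imp (fun h => hF h) fun h => hF h

variable [DecidableEq V]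

instance (F : Finset (V × V)) (x y : V) : Decidable (Ad F x y) := by unfold Ad; infer_instance

/-- cost: the gradient of `m` on `F`, the constant `t` elsewhere -/
def cfn (t : ℤ) (m : V → ℤ) (F : Finset (V × V)) (x y : V) : ℤ := if Ad F x y then m y - m x else t

/-- a negative simple cycle -/
def Neg (E : Finset (V × V)) (c : V → V → ℤ) (p : V × List V) : Prop :=
  Wk (Ad E) p.1 p.2 p.1 ∧ p.2.Nodup ∧ cst c p.1 p.2 < 0

open Classical in
/-- the edges of a chosen negative simple cycle -/
noncomputable def cyc (E : Finset (V × V)) (c : V → V → ℤ) : Finset (V × V) :=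
  if h : ∃ p, Neg E c p then
    E.filter fun e => e ∈ stp h.choose.1 h.choose.2 ∨ e.swap ∈ stp h.choose.1 h.choose.2
  else ∅

noncomputable def nxt (E : Finset (V × V)) (t : ℤ) (m : V → ℤ) (F : Finset (V × V)) :
    Finset (V × V) := F ∪ cyc E (cfn t m F)

/-- the set `S+` -/
noncomputable def plus (E : Finset (V × V)) (t : ℤ) (m : V → ℤ) (S : Finset (V × V)) :
    Finset (V × V) := (nxt E t m)^[E.card] S

variable {E S F : Finset (V × V)} {t : ℤ} {m m' : V → ℤ}

lemma cyc_cases (E : Finset (V × V)) (c : V → V → ℤ) : (cyc E c = ∅ ∧ ∀ p, ¬ Neg E c p) ∨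
    ∃ p, Neg E c p ∧ cyc E c = E.filter fun e => e ∈ stp p.1 p.2 ∨ e.swap ∈ stp p.1 p.2 := by
  unfold cyc
  split_ifs with h
  · exact Or.inr ⟨_, h.choose_spec, by convert rfl⟩
  · exact Or.inl ⟨rfl, not_exists.1 h⟩

lemma cyc_sub : cyc E c ⊆ E := by
  rcases cyc_cases E c with h | ⟨p, -, h⟩
  · simp [h.1]
  · rw [h]; exact filter_subset _ _

lemma it_succ (i : ℕ) : (nxt E t m)^[i + 1] S = nxt E t m ((nxt E t m)^[i] S) :=
  Function.iterate_succ_apply' _ _ _

lemma it_mono {i j : ℕ} (h : i ≤ j) : (nxt E t m)^[i] S ⊆ (nxt E t m)^[j] S := by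
  induction h with
  | refl => exact Subset.rfl
  | step _ ih => rw [it_succ]; exact ih.trans subset_union_left

lemma it_sub (h : S ⊆ E) (i : ℕ) : (nxt E t m)^[i] S ⊆ E := by
  induction i with
  | zero => exact h
  | succ i ih => rw [it_succ]; exact union_subset ih cyc_sub

lemma sub_plus : S ⊆ plus E t m S := it_mono (Nat.zero_le _)

lemma plus_sub (h : S ⊆ E) : plus E t m S ⊆ E := it_sub h _

lemma step_edge {p : V × List V} (h : Neg E c p) {s : V × V} (hs : s ∈ stp p.1 p.2) :
    Ad (E.filter fun e => e ∈ stp p.1 p.2 ∨ e.swap ∈ stp p.1 p.2) s.1 s.2 :=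
  (h.1.step hs).imp (fun h' => mem_filter.2 ⟨h', Or.inl hs⟩) fun h' => mem_filter.2 ⟨h', Or.inr hs⟩

lemma nxt_cases : (∀ p, ¬ Neg E (cfn t m F) p) ∧ nxt E t m F = F ∨ F ⊂ nxt E t m F := by
  rcases cyc_cases E (cfn t m F) with h | ⟨p, hp, h⟩
  · exact Or.inl ⟨h.2, by simp [nxt, h.1]⟩
  · refine Or.inr (Finset.ssubset_iff_subset_ne.2 ⟨subset_union_left, fun e => ?_⟩)
    have h1 : cyc E (cfn t m F) ⊆ F := fun a ha => by rw [e]; exact mem_union_right _ ha
    have h2 := cst_mono (c := fun a b => m b - m a) (c' := cfn t m F) (x := p.1) (l := p.2)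
      fun s hs => by rw [cfn, if_pos ((step_edge hp hs).mono (h ▸ h1))]
    rw [hp.1.cst_grad] at h2
    have := hp.2.2
    omega

/-- the reference function -/
theorem plus_ref [Fintype V] (hS : S ⊆ E) : ∃ r : V → ℤ,
    (∀ e ∈ plus E t m S, r e.1 - r e.2 = m e.1 - m e.2) ∧
    ∀ x y, Ad E x y → ¬ Ad (plus E t m S) x y → |r x - r y| ≤ t := by
  have key : ∀ i, (∀ p, ¬ Neg E (cfn t m ((nxt E t m)^[i] S)) p) ∨
      i + 1 ≤ ((nxt E t m)^[i + 1] S).card := by
    intro i
    induction i with
    | zero =>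
      rcases nxt_cases (E := E) (t := t) (m := m) (F := S) with h | h
      · exact Or.inl h.1
      · exact Or.inr (lt_of_le_of_lt (Nat.zero_le _) (card_lt_card h))
    | succ i ih =>
      rcases nxt_cases (E := E) (t := t) (m := m) (F := (nxt E t m)^[i + 1] S) with h | h
      · exact Or.inl h.1
      · rcases ih with ih | ih
        · rcases cyc_cases E (cfn t m ((nxt E t m)^[i] S)) with k | ⟨p, hp, -⟩
          · left
            rwa [it_succ, nxt, k.1, union_empty]
          · exact absurd hp (ih p)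
        · right
          rw [it_succ (i + 1)]
          exact lt_of_le_of_lt ih (card_lt_card h)
  have h1 := (key E.card).resolve_right fun h => by
    have := card_le_card (it_sub (t := t) (m := m) hS (E.card + 1))
    omega
  obtain ⟨r, hr⟩ := pot (A := Ad E) (c := cfn t m (plus E t m S)) fun x l a b =>
    not_lt.1 fun k => h1 (x, l) ⟨a, b, k⟩
  refine ⟨r, fun e he => ?_, fun x y a b => ?_⟩
  · have a : Ad (plus E t m S) e.1 e.2 := Or.inl he
    have k1 := hr _ _ (a.mono (plus_sub hS))
    have k2 := hr _ _ (a.mono (plus_sub hS)).symm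
    rw [cfn, if_pos a] at k1
    rw [cfn, if_pos a.symm] at k2
    omega
  · have k1 := hr _ _ a
    have k2 := hr _ _ a.symm
    rw [cfn, if_neg b] at k1
    rw [cfn, if_neg fun h => b h.symm] at k2
    rw [abs_le]
    omega

/-- `S+` depends only on `S` and on the gradients on `S+` -/
theorem plus_congr (h : ∀ e ∈ plus E t m S, m' e.1 - m' e.2 = m e.1 - m e.2) :
    plus E t m' S = plus E t m S := by
  have key : ∀ i ≤ E.card, (nxt E t m')^[i] S = (nxt E t m)^[i] S := by
    intro i hi
    induction i with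
    | zero => rfl
    | succ i ih =>
      rw [it_succ, it_succ, ih (by omega), nxt, nxt]
      congr 2
      funext x y
      unfold cfn
      split_ifs with a
      · rcases a.mono (it_mono (by omega : i ≤ E.card)) with k | k
        · have := h _ k
          simp only at this
          omega
        · exact h _ k
      · rfl
  exact key _ le_rfl

/-- the new edges of one step contain many steep edges -/
lemma new_steep (hE : ∀ e ∈ E, e.swap ∉ E) (hF : F ⊆ E) {N B : ℤ} (hN : 0 ≤ N) (hNt : N ≤ t)
    (hNB : N ≤ B) (hB : ∀ e ∈ E, e ∉ F → |m e.1 - m e.2| ≤ B) :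
    (t - N) * (cyc E (cfn t m F) \ F).card ≤
      B * ((cyc E (cfn t m F) \ F).filter fun e => N < |m e.1 - m e.2|).card := by
  rcases cyc_cases E (cfn t m F) with h | ⟨p, hp, h⟩
  · simp [h.1]
  set T := (stp p.1 p.2).toFinset with hT
  have nd := stp_nodup p.1 hp.2.1
  have s1 : ∑ s ∈ T, cfn t m F s.1 s.2 < 0 := by
    rw [hT, List.sum_toFinset _ nd]; exact hp.2.2
  have s2 : ∑ s ∈ T, (m s.2 - m s.1) = 0 := by
    rw [hT, List.sum_toFinset _ nd]
    exact (hp.1.cst_grad m).trans (sub_self _)
  set T1 := T.filter fun s => ¬ Ad F s.1 s.2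
  set T2 := T1.filter fun s => N < m s.2 - m s.1
  have s3 : ∑ s ∈ T1, (t - (m s.2 - m s.1)) < 0 := by
    have : ∑ s ∈ T1, (t - (m s.2 - m s.1)) =
        ∑ s ∈ T, (cfn t m F s.1 s.2 - (m s.2 - m s.1)) := by
      rw [sum_filter]
      refine sum_congr rfl fun s _ => ?_
      unfold cfn
      split_ifs <;> simp
    rw [this, sum_sub_distrib]
    omega
  have inT : ∀ s ∈ T1, s ∈ stp p.1 p.2 := fun s hs => List.mem_toFinset.1 (mem_filter.1 hs).1
  have s4 : ∑ s ∈ T1, ((t - N) - if N < m s.2 - m s.1 then B else 0) ≤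
      ∑ s ∈ T1, (t - (m s.2 - m s.1)) := sum_le_sum fun s hs => by
    have a := (mem_filter.1 hs).2
    split_ifs with k
    · rcases hp.1.step (inT s hs) with b | b
      · have := abs_le.1 (hB _ b fun k => a (Or.inl k))
        simp only at this
        omega
      · have := abs_le.1 (hB _ b fun k => a (Or.inr k))
        simp only at this
        omega
    · omega
  rw [sum_sub_distrib, ← sum_filter, sum_const, sum_const, nsmul_eq_mul, nsmul_eq_mul] at s4
  have c1 : (cyc E (cfn t m F) \ F).card ≤ T1.card := by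
    refine card_le_card_of_injOn (fun e => if e ∈ T then e else e.swap) (fun e he => ?_)
      fun e he e' he' k => ?_
    · rw [mem_coe, mem_sdiff, h, mem_filter] at he
      have b : e.swap ∉ F := fun k => hE e he.1.1 (hF k)
      simp only [mem_coe]
      split_ifs with k
      · exact mem_filter.2 ⟨k, fun a => a.elim he.2 b⟩
      · exact mem_filter.2 ⟨List.mem_toFinset.2 (he.1.2.resolve_left fun a =>
          k (List.mem_toFinset.2 a)), fun a => a.elim b he.2⟩
    · have a := cyc_sub (mem_sdiff.1 he).1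
      have a' := cyc_sub (mem_sdiff.1 he').1
      simp only at k
      split_ifs at k
      · exact k
      · exact absurd (k ▸ a) (hE e' a')
      · exact absurd (k ▸ a') (hE e a)
      · exact Prod.swap_injective k
  have c2 : T2.card ≤ ((cyc E (cfn t m F) \ F).filter fun e => N < |m e.1 - m e.2|).card := by
    refine card_le_card_of_injOn (fun s => if s ∈ E then s else s.swap) (fun s hs => ?_)
      fun s hs s' hs' k => ?_
    · obtain ⟨a, b⟩ := mem_filter.1 hs
      have a' := (mem_filter.1 a).2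
      simp only [mem_coe, mem_filter, mem_sdiff, h]
      split_ifs with k
      · exact ⟨⟨⟨k, Or.inl (inT s a)⟩, fun q => a' (Or.inl q)⟩, lt_abs.2 (Or.inr (by omega))⟩
      · exact ⟨⟨⟨(hp.1.step (inT s a)).resolve_left k, Or.inr (inT s a)⟩, fun q => a' (Or.inr q)⟩,
          lt_abs.2 (Or.inl b)⟩
    · have b := (mem_filter.1 hs).2
      have b' := (mem_filter.1 hs').2
      simp only at k
      split_ifs at k
      · exact k
      · subst k; simp only [Prod.fst_swap, Prod.snd_swap] at b; omega
      · subst k; simp only [Prod.fst_swap, Prod.snd_swap] at b'; omega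
      · exact Prod.swap_injective k
  have c1' : ((cyc E (cfn t m F) \ F).card : ℤ) ≤ T1.card := by exact_mod_cast c1
  have c2' : (T2.card : ℤ) ≤ _ := Int.ofNat_le.2 c2
  nlinarith [mul_le_mul_of_nonneg_left c1' (sub_nonneg.2 hNt),
    mul_le_mul_of_nonneg_left c2' (hN.trans hNB)]

/-- in every union of components of `S+` the edges of `S` and the steep edges are dense -/
theorem plus_dense (hE : ∀ e ∈ E, e.swap ∉ E) (hS : S ⊆ E) {N B : ℤ} (hN : 0 ≤ N) (hNt : N ≤ t)
    (htB : t ≤ B) (hB : ∀ e ∈ E, e ∉ S → |m e.1 - m e.2| ≤ B) (K : V → Prop) [DecidablePred K]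
    (hK : ∀ e ∈ plus E t m S, K e.1 ↔ K e.2) :
    (t - N) * ((plus E t m S).filter fun e => K e.1).card ≤
      B * ((plus E t m S).filter fun e => K e.1 ∧ (e ∈ S ∨ N < |m e.1 - m e.2|)).card := by
  have key : ∀ i ≤ E.card, (t - N) * (((nxt E t m)^[i] S).filter fun e => K e.1).card ≤
      B * (((nxt E t m)^[i] S).filter fun e => K e.1 ∧ (e ∈ S ∨ N < |m e.1 - m e.2|)).card := by
    intro i hi
    induction i with
    | zero =>
      rw [Function.iterate_zero_apply,
        filter_congr (s := S) (p := fun e => K e.1 ∧ (e ∈ S ∨ N < |m e.1 - m e.2|))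
          (q := fun e => K e.1) fun e he => and_iff_left (Or.inl he)]
      exact mul_le_mul_of_nonneg_right (by omega) (by positivity)
    | succ i ih =>
      have ih := ih (by omega)
      have sub := it_mono (E := E) (t := t) (m := m) (S := S) hi
      rw [it_succ] at sub ⊢
      set F := (nxt E t m)^[i] S
      have hSF : S ⊆ F := it_mono (Nat.zero_le i)
      have ns := new_steep hE (it_sub hS i) hN hNt (hNt.trans htB)
        fun e he h => hB e he fun k => h (hSF k)
      have e1 : nxt E t m F = F ∪ (cyc E (cfn t m F) \ F) := by rw [nxt, union_sdiff_self_eq_union]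
      have dj : ∀ (P : V × V → Prop) [DecidablePred P], ((nxt E t m F).filter P).card =
          (F.filter P).card + ((cyc E (cfn t m F) \ F).filter P).card := fun P _ => by
        rw [e1, filter_union, card_union_of_disjoint (disjoint_filter_filter disjoint_sdiff)]
      have all : (∀ e ∈ cyc E (cfn t m F), K e.1) ∨ ∀ e ∈ cyc E (cfn t m F), ¬ K e.1 := by
        rcases cyc_cases E (cfn t m F) with h | ⟨p, hp, h⟩
        · simp [h.1]
        have sub' : cyc E (cfn t m F) ⊆ plus E t m S := subset_union_right.trans sub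
        have k := (hp.1.iff (K := K) fun s hs => by
          rcases (step_edge hp hs).mono (h ▸ sub') with a | a
          · exact hK _ a
          · exact (hK _ a).symm).2
        have k' : ∀ e ∈ cyc E (cfn t m F), K e.1 ↔ K p.1 := fun e he => by
          rcases (mem_filter.1 (h ▸ he)).2 with a | a
          · exact k e a
          · exact (hK e (sub' he)).trans (k _ a)
        by_cases q : K p.1
        · exact Or.inl fun e he => (k' e he).2 q
        · exact Or.inr fun e he a => q ((k' e he).1 a)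
      rw [dj, dj]
      push_cast
      rcases all with a | a
      · rw [filter_true_of_mem fun e he => a e (mem_sdiff.1 he).1]
        have : (((cyc E (cfn t m F) \ F).filter fun e => N < |m e.1 - m e.2|).card : ℤ) ≤
            ((cyc E (cfn t m F) \ F).filter
              fun e => K e.1 ∧ (e ∈ S ∨ N < |m e.1 - m e.2|)).card :=
          Int.ofNat_le.2 (card_le_card fun e he => mem_filter.2 ⟨(mem_filter.1 he).1,
            a e (mem_sdiff.1 (mem_filter.1 he).1).1, Or.inr (mem_filter.1 he).2⟩)
        nlinarith [mul_le_mul_of_nonneg_left this (hN.trans (hNt.trans htB))]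
      · rw [filter_false_of_mem fun e he => a e (mem_sdiff.1 he).1,
          filter_false_of_mem (s := cyc E (cfn t m F) \ F) fun e he k => a e (mem_sdiff.1 he).1 k.1]
        simpa using ih
  exact key _ le_rfl

end Pool.Agent.Lib.MP_9cc147_pr.AllU.S
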