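import Pool.Agent.Lib.MP_9cc147_pr.U.Defs
import Pool.Agent.Lib.MP_9cc147_pr.U.SPot

/-! Step S2: bad points and dense points lie in a connected set in which `X` is dense. -/

open Finset

namespace Pool.Agent.Lib.MP_9cc147_pr.AllU.S

open Mono

variable {n : ℕ} {X Y : Finset (Vx n)} {p a b : Vx n}

/-- counts the steps off `F` -/
def ofc {V : Type} [DecidableEq V] (F : Finset (V × V)) (x y : V) : ℤ := if Ad F x y then 0 else 1

/-- a lattice walk from `p` with few steps off `F` -/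
def TBad (F : Finset (Vx n × Vx n)) (p : Vx n) : Prop :=
  ∃ l y, Wk (Ad (Ed n)) p l y ∧ 2 * cst (ofc F) p l < ds p y

lemma Ed_anti : ∀ e ∈ Ed n, e.swap ∉ Ed n := fun e h h' => by
  rw [mem_Ed] at h h'
  simp only [Prod.fst_swap, Prod.snd_swap] at h'
  omega

lemma Ad.ds_le (h : Ad (Ed n) a b) : ds a b ≤ 1 :=
  h.elim (fun h => ds_edge h) fun h => ds_comm a b ▸ ds_edge h

/-- at most two edges start at a vertex -/
lemma out_card (G : Finset (Vx n × Vx n)) (hG : G ⊆ Ed n) (T : Finset (Vx n))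
    (hT : ∀ e ∈ G, e.1 ∈ T) : G.card ≤ 2 * T.card := by
  refine card_le_mul_card_image_of_maps_to hT 2 fun x _ => ?_
  refine (card_le_card_of_injOn (t := (univ : Finset Bool))
    (fun e => decide (e.2.1.val = e.1.1.val)) (fun _ _ => mem_coe.2 (mem_univ _)) ?_).trans
    (by simp)
  intro e he e' he' h
  obtain ⟨h1, h2⟩ := mem_filter.1 (mem_coe.1 he)
  obtain ⟨h3, h4⟩ := mem_filter.1 (mem_coe.1 he')
  have h5 := mem_Ed.1 (hG h1)
  have h6 := mem_Ed.1 (hG h3)
  have h7 : e.2.1.val = e.1.1.val ↔ e'.2.1.val = e'.1.1.val := by simpa using h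
  rw [h2] at h5 h7
  rw [h4] at h6 h7
  refine Prod.ext (h2.trans h4.symm) (Prod.ext (Fin.ext ?_) (Fin.ext ?_)) <;> omega

/-- the diameter of a connected set is smaller than its size -/
lemma cn_card (h : Cn Y a b) (ha : a ∈ Y) : ds a b + 1 ≤ Y.card := by
  have key : ∀ j ≤ ds a b, ∃ v ∈ Y, ds a v = j := by
    refine h.ind (p := fun b => ∀ j ≤ ds a b, ∃ v ∈ Y, ds a v = j) ?_ ?_
    · intro j hj
      exact ⟨a, ha, by simp at hj ⊢; omega⟩
    · intro x _ y hy hd ih j hj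
      by_cases c : j ≤ ds a x
      · exact ih j c
      · have := ds_tri a x y
        exact ⟨y, hy, by omega⟩
  have : range (ds a b + 1) ⊆ Y.image (ds a) := fun j hj => by
    obtain ⟨v, hv, e⟩ := key j (by simp at hj; omega)
    exact mem_image.2 ⟨v, hv, e⟩
  simpa using (card_le_card this).trans card_image_le

variable {fl : Finset (Fin (n + 1) × Vx n)}

/-- the neighbourhood of a point of a dense set lies in a pin -/
lemma dn_pin (h : Dn X Y) (hp : p ∈ Y) : ∃ z, ds z p + 2 ≤ rho0 X fl z := by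
  classical
  have h0 : 0 < Y.card := card_pos.2 ⟨p, hp⟩
  obtain ⟨z, hz⟩ : (Y ∩ X).Nonempty := card_pos.1 (by have := h.2; omega)
  obtain ⟨h1, h2⟩ := mem_inter.1 hz
  refine ⟨z, ?_⟩
  have h3 := cn_card (h.1 z h1 p hp) h1
  refine le_trans ?_ ((le_max_left _ _).trans (le_max_left _ _))
  refine le_trans ?_ (le_sup (f := fun Y : Finset (Vx n) => Y.card + 1)
    (mem_filter.2 ⟨mem_univ Y, h2, h1, h⟩))
  omega

/-- the buffer of a flag lies in a pin -/
lemma flag_pin {k : Fin (n + 1)} {z : Vx n} (h : (k, z) ∈ fl) : 2 * tb k + 1 ≤ rho0 X fl z := by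
  classical
  refine le_trans ?_ ((le_max_right _ _).trans (le_max_left _ _))
  exact le_sup (f := fun k : Fin (n + 1) => fr k) (mem_filter.2 ⟨mem_univ k, h⟩)

/-- a square with many points of `X` -/
lemma ball_dn {s : ℕ} (h : (s + 1) ^ 2 ≤ 25 * 10 ^ 15 * (X.filter fun x => ds p x ≤ s).card) :
    Dn X (univ.filter fun x => ds p x ≤ s) := by
  refine ⟨fun a ha b hb => ?_, ?_⟩
  · have k : ∀ z, ds p z ≤ s → z ∈ univ.filter fun x => ds p x ≤ s := fun z hz => by simpa
    exact (cn_ball k (mem_filter.1 ha).2).symm.trans (cn_ball k (mem_filter.1 hb).2)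
  · have h1 := packing (univ.filter fun x => ds p x ≤ s) p (s := 1) s one_pos
      (fun x hx => by simpa using hx) fun x _ y _ e => ds_pos e
    have h2 : (univ.filter fun x => ds p x ≤ s) ∩ X = X.filter fun x => ds p x ≤ s := by
      ext x; simp [and_comm]
    have h3 : (2 * s + 1) ^ 2 ≤ 4 * (s + 1) ^ 2 :=
      (Nat.pow_le_pow_left (by omega : 2 * s + 1 ≤ 2 * (s + 1)) 2).trans_eq (by ring)
    rw [h2]
    omega

lemma off_set {V : Type} [DecidableEq V] (F : Finset (V × V)) (x : V) (l : List V) :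
    ∃ O : Finset V, (O.card : ℤ) ≤ cst (ofc F) x l ∧ ∀ v ∈ l, v ∈ O ∨ ∃ a, Ad F a v := by
  induction l generalizing x with
  | nil => exact ⟨∅, by simp, by simp⟩
  | cons y l ih =>
    obtain ⟨O, h1, h2⟩ := ih y
    by_cases c : Ad F x y
    · refine ⟨O, by simpa [ofc, c] using h1, fun v hv => ?_⟩
      rcases List.mem_cons.1 hv with rfl | hv
      · exact Or.inr ⟨x, c⟩
      · exact h2 v hv
    · refine ⟨insert y O, ?_, fun v hv => ?_⟩
      · have := card_insert_le y O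
        simp only [cst_cons, ofc, c, if_false] at h1 ⊢
        omega
      · rcases List.mem_cons.1 hv with rfl | hv
        · exact Or.inl (mem_insert_self _ _)
        · exact (h2 v hv).imp_left mem_insert_of_mem

lemma wk_cn {l : List (Vx n)} (h : Wk (Ad (Ed n)) a l b) (hY : ∀ v ∈ a :: l, v ∈ Y) :
    ∀ v ∈ a :: l, Cn Y a v := by
  induction l generalizing a with
  | nil => intro v hv; obtain rfl : v = a := by simpa using hv
           exact Cn.refl _ _
  | cons y l ih =>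
    intro v hv
    rcases List.mem_cons.1 hv with rfl | hv
    · exact Cn.refl _ _
    · exact (Cn.step (hY a (by simp)) (hY y (by simp)) h.1.ds_le).trans
        (ih h.2 (fun v hv => hY v (List.mem_cons_of_mem _ hv)) v hv)

lemma wk_last {V : Type} {A : V → V → Prop} {x y : V} {l : List V} (h : Wk A x l y) :
    y ∈ x :: l := by
  induction l generalizing x with
  | nil => exact h ▸ by simp
  | cons z l ih => exact List.mem_cons_of_mem _ (ih h.2)

/-- a bad point of an edge set `F` whose components hold many points of `X` -/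
lemma bad_dn' {F : Finset (Vx n × Vx n)} (hF : F ⊆ Ed n) {c : ℕ} (hc : 4 * c ≤ 10 ^ 17)
    (hX : ∀ K : Finset (Vx n), (∀ e ∈ F, e.1 ∈ K ↔ e.2 ∈ K) →
      (F.filter fun e => e.1 ∈ K).card ≤ c * (K ∩ X).card) (h : TBad F p) :
    ∃ Y, p ∈ Y ∧ Dn X Y := by
  classical
  obtain ⟨l, y, hw, hl⟩ := h
  set K := univ.filter fun v => ∃ w ∈ p :: l, Relation.ReflTransGen (Ad F) w v with hK
  have mK : ∀ {v}, v ∈ K ↔ ∃ w ∈ p :: l, Relation.ReflTransGen (Ad F) w v := by simp [hK]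
  have k0 : ∀ v ∈ p :: l, v ∈ K := fun v hv => mK.2 ⟨v, hv, .refl⟩
  have k1 : ∀ {u v}, Ad F u v → u ∈ K → v ∈ K := fun h hu => by
    obtain ⟨w, h1, h2⟩ := mK.1 hu
    exact mK.2 ⟨w, h1, h2.tail h⟩
  have k2 : ∀ v ∈ K, Cn K p v := fun v hv => by
    obtain ⟨w, h1, h2⟩ := mK.1 hv
    clear hv
    induction h2 with
    | refl => exact wk_cn hw k0 w h1
    | tail h3 h4 ih =>
      have := mK.2 ⟨w, h1, h3⟩
      exact ih.trans (Cn.step this (k1 h4 this) (h4.mono hF).ds_le)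
  have k3 : ∀ e ∈ F, e.1 ∈ K ↔ e.2 ∈ K := fun e he => ⟨k1 (Or.inl he), k1 (Or.inr he)⟩
  obtain ⟨O, o1, o2⟩ := off_set F p l
  set G := F.filter fun e => e.1 ∈ K
  have k4 : ∀ {u v}, Ad F u v → v ∈ K → v ∈ G.image Prod.fst ∪ G.image Prod.snd := by
    intro u v h hv
    rcases h with h | h
    · exact mem_union_right _ (mem_image.2 ⟨(u, v), mem_filter.2 ⟨h, (k3 _ h).2 hv⟩, rfl⟩)
    · exact mem_union_left _ (mem_image.2 ⟨(v, u), mem_filter.2 ⟨h, hv⟩, rfl⟩)
  have k5 : K ⊆ insert p (O ∪ (G.image Prod.fst ∪ G.image Prod.snd)) := fun v hv => by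
    obtain ⟨w, h1, h2⟩ := mK.1 hv
    rcases h2.cases_tail with rfl | ⟨u, _, h3⟩
    · rcases List.mem_cons.1 h1 with rfl | h1
      · exact mem_insert_self _ _
      · rcases o2 v h1 with h | ⟨u, h⟩
        · exact mem_insert_of_mem (mem_union_left _ h)
        · exact mem_insert_of_mem (mem_union_right _ (k4 h hv))
    · exact mem_insert_of_mem (mem_union_right _ (k4 h3 hv))
  have c1 := (card_le_card k5).trans (card_insert_le _ _)
  have c2 := card_union_le O (G.image Prod.fst ∪ G.image Prod.snd)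
  have c3 := card_union_le (G.image Prod.fst) (G.image Prod.snd)
  have c4 : (G.image Prod.fst).card ≤ G.card := card_image_le
  have c5 : (G.image Prod.snd).card ≤ G.card := card_image_le
  have c6 := cn_card (k2 y (k0 y (wk_last hw))) (k0 p (by simp))
  have c7 : G.card ≤ c * (K ∩ X).card := hX K k3
  refine ⟨K, k0 p (by simp), fun a ha b hb => (k2 a ha).symm.trans (k2 b hb), ?_⟩
  have c8 : K.card ≤ 4 * G.card := by omega
  have c9 := Nat.mul_le_mul_right (K ∩ X).card hc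
  rw [mul_assoc] at c9
  omega

/-- S2 for bad points -/
theorem bad_dn {N : ℕ} (hN : 0 < N) {m : Vx n → ℤ} {S : Finset (Vx n × Vx n)} (hS : S ⊆ Ed n)
    (hB : ∀ e ∈ Ed n, e ∉ S → |m e.1 - m e.2| ≤ 10 ^ 6 * N)
    (hX : ∀ e ∈ Ed n, e ∈ S ∨ (N : ℤ) < |m e.1 - m e.2| → e.1 ∈ X)
    (h : TBad (plus (Ed n) (8 * N) m S) p) : ∃ Y, p ∈ Y ∧ Dn X Y := by
  refine bad_dn' (plus_sub hS) (c := 300000) (by norm_num) (fun K hK => ?_) h
  have h1 := plus_dense (t := 8 * N) (m := m) Ed_anti hS (N := N) (by omega) (by omega)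
    (by omega) hB (fun x => x ∈ K) hK
  have h2 := out_card ((plus (Ed n) (8 * N) m S).filter fun e =>
      e.1 ∈ K ∧ (e ∈ S ∨ (N : ℤ) < |m e.1 - m e.2|)) ((filter_subset _ _).trans (plus_sub hS))
    (K ∩ X) fun e he => by
      obtain ⟨a1, a2, a3⟩ := mem_filter.1 he
      exact mem_inter.2 ⟨a2, hX e (plus_sub hS a1) a3⟩
  have h3 : (0 : ℤ) < N := by omega
  generalize ((plus (Ed n) (8 * N) m S).filter fun e => e.1 ∈ K).card = u at h1 ⊢
  generalize ((plus (Ed n) (8 * N) m S).filter fun e =>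
      e.1 ∈ K ∧ (e ∈ S ∨ (N : ℤ) < |m e.1 - m e.2|)).card = v at h1 h2
  have h4 : (N : ℤ) * (7 * u) ≤ N * (10 ^ 6 * v) := by linarith
  have h5 := le_of_mul_le_mul_left h4 h3
  omega

/-- height functions are constant on the edges inside a pin -/
lemma pin_const {ρ : Vx n → ℕ} {f : Vx n → ℝ} {z : Vx n} (hf : f ∈ LamP ρ) (h : ds z a + 1 ≤ ρ z)
    (hd : ds a b ≤ 1) : f a = f b := by
  obtain ⟨k, hk⟩ := hf z (by omega)
  have := ds_tri z a b
  rw [hk a (by omega), hk b (by omega)]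

/-- S2: bad points, dense points and buffers of flags lie in pins together with their neighbours -/
theorem a0_pin {N : ℕ} (hN : 0 < N) {m : Vx n → ℤ} {S : Finset (Vx n × Vx n)} (hS : S ⊆ Ed n)
    (hB : ∀ e ∈ Ed n, e ∉ S → |m e.1 - m e.2| ≤ 10 ^ 6 * N)
    (hX : ∀ e ∈ Ed n, e ∈ S ∨ (N : ℤ) < |m e.1 - m e.2| → e.1 ∈ X) {Mk : Finset (Vx n)}
    (hM : Mk ⊆ X) (h : TBad (plus (Ed n) (8 * N) m S) p ∨
      (∃ s, (s + 1) ^ 2 ≤ 25 * 10 ^ 15 * (Mk.filter fun x => ds p x ≤ s).card) ∨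
      ∃ k z, (k, z) ∈ fl ∧ ds z p ≤ 2 * tb k) : ∃ z, ds z p + 1 ≤ rho0 X fl z := by
  rcases h with h | ⟨s, h⟩ | ⟨k, z, h, h'⟩
  · obtain ⟨Y, h1, h2⟩ := bad_dn hN hS hB hX h
    exact (dn_pin (fl := fl) h2 h1).imp fun _ h => by omega
  · have h2 := ball_dn (X := X) (h.trans (Nat.mul_le_mul_left _
      (card_le_card (filter_subset_filter _ hM))))
    exact (dn_pin (fl := fl) (p := p) h2 (by simp)).imp fun _ h => by omega
  · exact ⟨z, by have := flag_pin (X := X) h; omega⟩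

end Pool.Agent.Lib.MP_9cc147_pr.AllU.S
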