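import Pool.Agent.Lib.MP_9cc147_pr.MCZ1

/-! Chaining with two regimes. -/

open Finset

namespace Pool.Agent.Lib.MP_9cc147_pr.AllU.S

open Mono

variable {n : ℕ}

lemma cz_pigeon (F : Fin (n + 1) → ℕ) (c : Fin (n + 1)) {t : ℕ} {G : ℝ} (ht : t ≤ n) (hG : 0 ≤ G)
    (h : ((∑ b ∈ Iv c (2 * t), F b : ℕ) : ℝ) ≤ (t + 1) * G) : ∃ b ∈ Iv c t, (F b : ℝ) ≤ G := by
  by_contra hc
  push Not at hc
  have h0 := le_card_Iv c ht
  have h1 : ∑ _b ∈ Iv c t, G < ∑ b ∈ Iv c t, (F b : ℝ) :=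
    sum_lt_sum_of_nonempty (card_pos.1 (by omega)) hc
  have h2 : ∑ b ∈ Iv c t, F b ≤ ∑ b ∈ Iv c (2 * t), F b :=
    sum_le_sum_of_subset fun b hb => by rw [mem_Iv] at *; omega
  have h3 : ((t : ℝ) + 1) * G ≤ (Iv c t).card * G :=
    mul_le_mul_of_nonneg_right (by exact_mod_cast h0) hG
  rw [sum_const, nsmul_eq_mul, ← Nat.cast_sum] at h1
  have h4 : ((∑ b ∈ Iv c t, F b : ℕ) : ℝ) ≤ ((∑ b ∈ Iv c (2 * t), F b : ℕ) : ℝ) := by
    exact_mod_cast h2
  linarith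

/-- bound for one good line at scale `t` -/
noncomputable def czg (θ κ a t : ℕ) : ℝ := 4 * θ * t + κ * min (4 * t : ℝ) ((a : ℝ) ^ 2 / t)

lemma czg_nonneg (θ κ a t : ℕ) : 0 ≤ czg θ κ a t := by
  unfold czg
  have : (0 : ℝ) ≤ min (4 * t : ℝ) ((a : ℝ) ^ 2 / t) := le_min (by positivity) (by positivity)
  positivity

lemma czg_le1 (θ κ a t : ℕ) : czg θ κ a t ≤ 4 * θ * t + κ * (4 * t) := by
  unfold czg
  gcongr
  exact min_le_left _ _

lemma czg_le2 (θ κ a t : ℕ) : czg θ κ a t ≤ 4 * θ * t + κ * ((a : ℝ) ^ 2 / t) := by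
  unfold czg
  gcongr
  exact min_le_right _ _

lemma czg_ge (θ κ a : ℕ) {t : ℕ} (ht : 1 ≤ t) :
    ((θ * (2 * t) ^ 2 + κ * min (2 * t) a ^ 2 : ℕ) : ℝ) ≤ (t + 1) * czg θ κ a t := by
  have h0 : (0 : ℝ) < t := by exact_mod_cast ht
  have h1 : ((min (2 * t) a : ℕ) : ℝ) ^ 2 ≤ (t + 1) * min (4 * t : ℝ) ((a : ℝ) ^ 2 / t) := by
    have p1 : ((min (2 * t) a : ℕ) : ℝ) ≤ 2 * t := by exact_mod_cast min_le_left _ _
    have p2 : ((min (2 * t) a : ℕ) : ℝ) ≤ a := by exact_mod_cast min_le_right _ _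
    have p0 : (0 : ℝ) ≤ ((min (2 * t) a : ℕ) : ℝ) := by positivity
    rw [mul_min_of_nonneg _ _ (by positivity)]
    refine le_min (by nlinarith) ?_
    have p3 : (a : ℝ) ^ 2 = t * ((a : ℝ) ^ 2 / t) := by field_simp
    have p4 : (0 : ℝ) ≤ (a : ℝ) ^ 2 / t := by positivity
    nlinarith
  have h2 := mul_le_mul_of_nonneg_left h1 (Nat.cast_nonneg (α := ℝ) κ)
  have h3 : (0 : ℝ) ≤ θ * t := by positivity
  unfold czg
  push_cast at h2 ⊢
  nlinarith

variable {f : Vx n → ℤ} {w : Vx n → ℕ} {θ κ a : ℕ}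

lemma cz2_col {y : Vx n} {t : ℕ} (h1 : 1 ≤ t) (ht : t ≤ n)
    (hy : ∑ x ∈ univ.filter fun x => ds y x ≤ 2 * t, w x ≤
      θ * (2 * t) ^ 2 + κ * min (2 * t) a ^ 2) :
    ∃ u ∈ Iv y.1 t, ((∑ i ∈ Iv y.2 (2 * t), w (u, i) : ℕ) : ℝ) ≤ czg θ κ a t := by
  rw [ball_eq, sum_product] at hy
  exact cz_pigeon _ _ ht (czg_nonneg ..) (le_trans (by exact_mod_cast hy) (czg_ge θ κ a h1))

lemma cz2_row {y : Vx n} {t : ℕ} (h1 : 1 ≤ t) (ht : t ≤ n)
    (hy : ∑ x ∈ univ.filter fun x => ds y x ≤ 2 * t, w x ≤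
      θ * (2 * t) ^ 2 + κ * min (2 * t) a ^ 2) :
    ∃ b ∈ Iv y.2 t, ((∑ i ∈ Iv y.1 (2 * t), w (i, b) : ℕ) : ℝ) ≤ czg θ κ a t := by
  rw [ball_eq, sum_product_right] at hy
  exact cz_pigeon _ _ ht (czg_nonneg ..) (le_trans (by exact_mod_cast hy) (czg_ge θ κ a h1))

lemma cz2_cast {x : ℤ} {s : ℕ} (h : x ≤ (s : ℤ)) : (x : ℝ) ≤ (s : ℝ) := by exact_mod_cast h

lemma cz2_chain (h : ∀ e ∈ Ed n, |f e.1 - f e.2| ≤ w e.1) {y : Vx n} {D : ℕ} (hD : D ≤ n)
    (hy : ∀ t, 1 ≤ t → t ≤ 2 * D →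
      ∑ x ∈ univ.filter fun x => ds y x ≤ t, w x ≤ θ * t ^ 2 + κ * min t a ^ 2) :
    ∀ t, 1 ≤ t → t ≤ D → ∃ u ∈ Iv y.1 t, ∃ b ∈ Iv y.2 t,
      ((|f y - f (u, b)| : ℤ) : ℝ) ≤ 20 * θ * t + κ * (20 * t) ∧
      (a ≤ t → ((|f y - f (u, b)| : ℤ) : ℝ) ≤ 20 * θ * t + κ * (45 * a - 5 * ((a : ℝ) ^ 2 / t))) ∧
      ((∑ i ∈ Iv y.1 (2 * t), w (i, b) : ℕ) : ℝ) ≤ czg θ κ a t := by
  intro t
  induction t using Nat.strong_induction_on with
  | _ t ih =>
    intro h1 h2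
    obtain ⟨u, hu, hu2⟩ := cz2_col h1 (by omega : t ≤ n) (hy (2 * t) (by omega) (by omega))
    obtain ⟨b, hb, hb2⟩ := cz2_row h1 (by omega : t ≤ n) (hy (2 * t) (by omega) (by omega))
    have hθ : (0 : ℝ) ≤ θ := by positivity
    have hκ : (0 : ℝ) ≤ κ := by positivity
    have g1 := czg_le1 θ κ a t
    have g2 := czg_le2 θ κ a t
    refine ⟨u, hu, b, hb, ?_⟩
    rw [mem_Iv] at hu hb
    by_cases c : t = 1
    · subst c
      have e1 := cz_row h y.2 (c := y.1) (a := y.1) (a' := u) (s := 1) (by simp [mem_Iv])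
        (mem_Iv.2 hu)
      have e2 := cz_col h u (c := y.2) (b := y.2) (b' := b) (s := 2 * 1) (by simp [mem_Iv])
        (mem_Iv.2 (by omega))
      have e3 := hy 1 le_rfl (by omega)
      rw [ball_eq, sum_product_right] at e3
      have e4 := single_le_sum (f := fun j => ∑ i ∈ Iv y.1 1, w (i, j)) (fun _ _ => Nat.zero_le _)
        (show y.2 ∈ Iv y.2 1 by simp [mem_Iv])
      have e5 := abs_sub_le (f (y.1, y.2)) (f (u, y.2)) (f (u, b))
      simp only [Prod.mk.eta] at e1 e5 e4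
      have e6 : |f y - f (u, b)| ≤
          ((θ * 1 ^ 2 + κ * min 1 a ^ 2 + ∑ i ∈ Iv y.2 (2 * 1), w (u, i) : ℕ) : ℤ) := by omega
      have e7 := cz2_cast e6
      rw [Nat.cast_add] at e7
      refine ⟨?_, fun ha => ?_, hb2⟩
      · have e8 : θ * 1 ^ 2 + κ * min 1 a ^ 2 ≤ θ + κ := by
          have : min 1 a ^ 2 ≤ 1 := pow_le_one₀ (Nat.zero_le _) (min_le_left _ _)
          nlinarith
        have e9 : ((θ * 1 ^ 2 + κ * min 1 a ^ 2 : ℕ) : ℝ) ≤ θ + κ := by exact_mod_cast e8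
        push_cast at g1 ⊢
        push_cast at e7 e9 hu2
        linarith
      · interval_cases a
        · push_cast at g2 e7 hu2 ⊢
          norm_num at g2 e7 ⊢
          linarith
        · push_cast at g2 e7 hu2 ⊢
          norm_num at g2 e7 ⊢
          linarith
    · obtain ⟨u0, hu0, b0, hb0, eA, eB, r0⟩ := ih ((t + 1) / 2) (by omega) (by omega) (by omega)
      rw [mem_Iv] at hu0 hb0
      have e1 := cz_row h b0 (c := y.1) (a := u0) (a' := u) (s := 2 * ((t + 1) / 2))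
        (mem_Iv.2 (by omega)) (mem_Iv.2 (by omega))
      have e2 := cz_col h u (c := y.2) (b := b0) (b' := b) (s := 2 * t) (mem_Iv.2 (by omega))
        (mem_Iv.2 (by omega))
      have e3 := abs_sub_le (f y) (f (u0, b0)) (f (u, b))
      have e4 := abs_sub_le (f (u0, b0)) (f (u, b0)) (f (u, b))
      have e5 : ((|f y - f (u, b)| : ℤ) : ℝ) ≤ ((|f y - f (u0, b0)| : ℤ) : ℝ) +
          czg θ κ a ((t + 1) / 2) + czg θ κ a t := by
        have e6 : |f y - f (u, b)| - |f y - f (u0, b0)| ≤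
            ((∑ i ∈ Iv y.1 (2 * ((t + 1) / 2)), w (i, b0) + ∑ i ∈ Iv y.2 (2 * t), w (u, i) : ℕ) :
              ℤ) := by omega
        have e7 := cz2_cast e6
        rw [Nat.cast_add, Int.cast_sub] at e7
        linarith
      have k1 := czg_le1 θ κ a ((t + 1) / 2)
      have k2 := czg_le2 θ κ a ((t + 1) / 2)
      have q0 : 3 * ((t + 1) / 2) ≤ 2 * t := by omega
      have q00 : 1 ≤ (t + 1) / 2 := by omega
      have qa : 2 * a < t → a ≤ (t + 1) / 2 := by omega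
      generalize (t + 1) / 2 = s at *
      have q1 : 3 * (s : ℝ) ≤ 2 * t := by exact_mod_cast q0
      have q2 := mul_le_mul_of_nonneg_left q1 hθ
      have q3 := mul_le_mul_of_nonneg_left q1 hκ
      have s0 : (0 : ℝ) < s := by exact_mod_cast q00
      have t0 : (0 : ℝ) < t := by exact_mod_cast h1
      have A : ((|f y - f (u, b)| : ℤ) : ℝ) ≤ 20 * θ * t + κ * (20 * t) := by linarith
      refine ⟨A, fun ha => ?_, hb2⟩
      by_cases c2 : 2 * a < t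
      · have B := eB (qa c2)
        have q4 : 3 * ((a : ℝ) ^ 2 / t) ≤ 2 * ((a : ℝ) ^ 2 / s) := by
          rw [← mul_div_assoc, ← mul_div_assoc, div_le_div_iff₀ t0 s0]
          have : (0 : ℝ) ≤ (a : ℝ) ^ 2 := by positivity
          nlinarith
        have q5 := mul_le_mul_of_nonneg_left q4 hκ
        linarith
      · have q4 : (t : ℝ) ≤ 2 * a := by exact_mod_cast not_lt.1 c2
        have q5 : (a : ℝ) ^ 2 / t ≤ a := by
          rw [div_le_iff₀ t0]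
          have : (a : ℝ) ≤ t := by exact_mod_cast ha
          have : (0 : ℝ) ≤ a := by positivity
          nlinarith
        have q6 : (20 * t : ℝ) ≤ 45 * a - 5 * ((a : ℝ) ^ 2 / t) := by linarith
        have q7 := mul_le_mul_of_nonneg_left q6 hκ
        linarith

/-- chaining with a second term that stops growing at the scale `a` -/
theorem cz2 (h : ∀ e ∈ Ed n, |f e.1 - f e.2| ≤ w e.1) {y y' : Vx n}
    (hy : ∀ t, 1 ≤ t → t ≤ 2 * ds y y' →
      ∑ x ∈ univ.filter fun x => ds y x ≤ t, w x ≤ θ * t ^ 2 + κ * min t a ^ 2)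
    (hy' : ∀ t, 1 ≤ t → t ≤ 2 * ds y y' →
      ∑ x ∈ univ.filter fun x => ds y' x ≤ t, w x ≤ θ * t ^ 2 + κ * min t a ^ 2) :
    |f y - f y'| ≤ ((52 * (θ * ds y y') + 93 * (κ * a) : ℕ) : ℤ) := by
  by_cases e : y = y'
  · subst e
    simp only [sub_self, abs_zero]
    positivity
  have h1 := ds_pos e
  have hD := ds_le y y'
  obtain ⟨p, hp, b, hb, eA, eB, r0⟩ := cz2_chain h hD hy _ h1 le_rfl
  obtain ⟨p', hp', b', hb', eA', eB', r0'⟩ := cz2_chain h hD hy' _ h1 le_rfl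
  obtain ⟨u, hu, r⟩ := cz2_col h1 hD (hy _ (by omega) le_rfl)
  have d1 : ((y.1 : ℤ) - y'.1).natAbs ≤ ds y y' := le_max_left _ _
  have d2 : ((y.2 : ℤ) - y'.2).natAbs ≤ ds y y' := le_max_right _ _
  rw [mem_Iv] at hp hb hp' hb' hu
  have e1 := cz_row h b (c := y.1) (a := p) (a' := u) (s := 2 * ds y y')
    (mem_Iv.2 (by omega)) (mem_Iv.2 (by omega))
  have e2 := cz_col h u (c := y.2) (b := b) (b' := b') (s := 2 * ds y y')
    (mem_Iv.2 (by omega)) (mem_Iv.2 (by omega))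
  have e3 := cz_row h b' (c := y'.1) (a := u) (a' := p') (s := 2 * ds y y')
    (mem_Iv.2 (by omega)) (mem_Iv.2 (by omega))
  have t1 := abs_sub_le (f y) (f (p, b)) (f y')
  have t2 := abs_sub_le (f (p, b)) (f (u, b)) (f y')
  have t3 := abs_sub_le (f (u, b)) (f (u, b')) (f y')
  have t4 := abs_sub_le (f (u, b')) (f (p', b')) (f y')
  rw [abs_sub_comm (f (p', b'))] at t4
  have e6 : |f y - f y'| - |f y - f (p, b)| - |f y' - f (p', b')| ≤
      ((∑ i ∈ Iv y.1 (2 * ds y y'), w (i, b) + ∑ i ∈ Iv y.2 (2 * ds y y'), w (u, i) +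
        ∑ i ∈ Iv y'.1 (2 * ds y y'), w (i, b') : ℕ) : ℤ) := by omega
  have e7 := cz2_cast e6
  rw [Nat.cast_add, Nat.cast_add, Int.cast_sub, Int.cast_sub] at e7
  have g1 := czg_le1 θ κ a (ds y y')
  have g2 := czg_le2 θ κ a (ds y y')
  generalize ds y y' = D at *
  have hκ : (0 : ℝ) ≤ κ := by positivity
  have D0 : (0 : ℝ) < D := by exact_mod_cast h1
  have a0 : (0 : ℝ) ≤ a := by positivity
  have key : ((|f y - f y'| : ℤ) : ℝ) ≤ 52 * (θ * D) + 93 * (κ * a) := by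
    by_cases c : a ≤ D
    · have B := eB c
      have B' := eB' c
      have q5 : (a : ℝ) ^ 2 / D ≤ a := by
        rw [div_le_iff₀ D0]
        have : (a : ℝ) ≤ D := by exact_mod_cast c
        nlinarith
      have q6 := mul_le_mul_of_nonneg_left q5 hκ
      have q7 : 0 ≤ κ * ((a : ℝ) ^ 2 / D) := by positivity
      linarith
    · have q5 : (D : ℝ) ≤ a := by exact_mod_cast (not_le.1 c).le
      have q6 := mul_le_mul_of_nonneg_left q5 hκ
      have q7 : (0 : ℝ) ≤ κ * a := by positivity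
      linarith
  exact_mod_cast key

end Pool.Agent.Lib.MP_9cc147_pr.AllU.S
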