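import Pool.Agent.Lib.MP_9cc147_pr.U.SO
import Pool.Agent.Lib.MP_9cc147_pr.U.SCz
import Pool.Agent.Lib.MP_9cc147_pr.U.SBad

/-! Step S3: the heights can be redefined on the repaired region. -/

open Finset

namespace Pool.Agent.Lib.MP_9cc147_pr.AllU.S

open Mono

namespace Fe

variable {V : Type} {A : V → V → Prop} {c o : V → V → ℤ} {x y z p : V} {l : List V}

lemma split_at (h : Wk A x l z) (hp : p ∈ x :: l) :
    ∃ l1 l2, l = l1 ++ l2 ∧ Wk A x l1 p ∧ Wk A p l2 z := by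
  induction l generalizing x with
  | nil =>
    obtain rfl : p = x := by simpa using hp
    exact ⟨[], [], rfl, rfl, h⟩
  | cons a l ih =>
    rcases List.mem_cons.1 hp with rfl | hp
    · exact ⟨[], a :: l, rfl, rfl, h⟩
    · obtain ⟨l1, l2, e, h1, h2⟩ := ih h.2 hp
      exact ⟨a :: l1, l2, by simp [e], ⟨h.1, h1⟩, h2⟩

lemma rev (hA : ∀ a b, A a b → A b a) (ho : ∀ a b, o a b = o b a) (h : Wk A x l z) :
    ∃ l', Wk A z l' x ∧ cst o z l' = cst o x l := by
  induction l generalizing x with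
  | nil => obtain rfl : x = z := h; exact ⟨[], rfl, rfl⟩
  | cons a l ih =>
    obtain ⟨l', h1, h2⟩ := ih h.2
    have h3 : Wk A a [x] x := ⟨hA _ _ h.1, rfl⟩
    refine ⟨l' ++ [x], (h1.append h3).1, ?_⟩
    rw [h1.cst_append h3, h2]
    simp [ho a x, add_comm]

lemma mem_stp {s : V × V} (hs : s ∈ stp x l) : s.1 ∈ x :: l ∧ s.2 ∈ x :: l := by
  induction l generalizing x with
  | nil => simp at hs
  | cons a l ih =>
    rcases List.mem_cons.1 hs with rfl | hs
    · simp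
    · exact ⟨List.mem_cons_of_mem _ (ih hs).1, List.mem_cons_of_mem _ (ih hs).2⟩

lemma ends (h : Wk A x l z) (hl : l ≠ []) : (∃ b, A x b) ∧ ∃ a, A a z := by
  induction l generalizing x with
  | nil => exact absurd rfl hl
  | cons a l ih =>
    refine ⟨⟨a, h.1⟩, ?_⟩
    rcases l with _ | ⟨b, l⟩
    · obtain rfl : a = z := h.2
      exact ⟨x, h.1⟩
    · exact (ih h.2 (by simp)).2

lemma gain {r : V → ℤ} {κ : ℤ} (h : Wk A x l z)
    (hr : ∀ a b, A a b → r b - r a + κ * o a b ≤ c a b) :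
    r z - r x + κ * cst o x l ≤ cst c x l := by
  induction l generalizing x with
  | nil => obtain rfl : x = z := h; simp
  | cons a l ih =>
    have h1 := hr _ _ h.1
    have h2 := ih h.2
    rw [cst_cons, cst_cons, mul_add]
    linarith

variable {n : ℕ}

/-- few marks: the number is at most the square of a small fraction of the distance -/
lemma few {q D : ℕ} (h : 10 ^ 16 * q ≤ (3 * D + 1 + 1) ^ 2) : q ≤ (D / 10 ^ 5) ^ 2 := by
  rcases Nat.eq_zero_or_pos q with rfl | hq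
  · simp
  have h1 : (10 ^ 8) ^ 2 ≤ (3 * D + 1 + 1) ^ 2 := le_trans (by omega) h
  have h2 : 10 ^ 8 ≤ 3 * D + 1 + 1 := (Nat.pow_le_pow_iff_left (by norm_num)).1 h1
  have h3 : 3 * D + 1 + 1 ≤ 10 ^ 6 * (D / 10 ^ 5) := by omega
  have h4 := h.trans (Nat.pow_le_pow_left h3 2)
  rw [mul_pow] at h4
  omega

lemma ob_count (Mk : Finset (Vx n)) {p y : Vx n} {t s : ℕ} (h : ds p y + t ≤ s) :
    ((univ.filter fun x => ds y x ≤ t).filter fun x => x ∈ Ob Mk).card ≤
      9 * (Mk.filter fun x => ds p x ≤ s + 1).card := by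
  classical
  have hB : ((univ.filter fun x => ds y x ≤ t).filter fun x => x ∈ Ob Mk) ⊆
      (Mk.filter fun x => ds p x ≤ s + 1).biUnion fun u => univ.filter fun x => ds u x ≤ 1 := by
    intro x hx
    simp only [mem_filter, mem_univ, true_and] at hx
    obtain ⟨u, hu, hd⟩ := Ob_near hx.2
    have := ds_tri p y x
    have := ds_tri p x u
    have := ds_comm u x
    exact mem_biUnion.2 ⟨u, mem_filter.2 ⟨hu, by omega⟩, mem_filter.2 ⟨mem_univ _, hd⟩⟩
  have := (card_le_card hB).trans (card_biUnion_le_card_mul _ _ _ fun u _ => ball_card u 1)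
  omega

/-- the difference of the heights and the reference function is Lipschitz seen from `p` -/
lemma lip {N R : ℕ} {d : Vx n → ℤ} {Mk P : Finset (Vx n)} {μ : Vx n → ℕ} {p y y' : Vx n}
    (hd : ∀ e ∈ Ed n, ds p e.1 ≤ 40 * R → |d e.1 - d e.2| ≤
      (12 * N + (if e.1 ∈ P then μ e.1 else 0) + (if e.1 ∈ Ob Mk then 10 ^ 6 * N else 0) : ℕ))
    (hth : ∀ s ≤ 40 * R, 10 ^ 16 * (Mk.filter fun x => ds p x ≤ s).card ≤ (s + 1) ^ 2)
    (hy : y ∉ Og N μ P) (hy' : y' ∉ Og N μ P) (hD : ds p y + ds p y' + 1 ≤ 12 * R) :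
    |d y - d y'| ≤ ((14194 * (N * (ds p y + ds p y')) : ℕ) : ℤ) := by
  classical
  set D := ds p y + ds p y' with hDe
  let w0 : Vx n → ℕ := fun x =>
    12 * N + (if x ∈ P then μ x else 0) + (if x ∈ Ob Mk then 10 ^ 6 * N else 0)
  let w : Vx n → ℕ := fun x => if ds p x ≤ 40 * R then w0 x else sl d x
  have hw : ∀ e ∈ Ed n, |d e.1 - d e.2| ≤ w e.1 := by
    intro e he
    by_cases c0 : ds p e.1 ≤ 40 * R
    · simp only [w, if_pos c0]
      exact hd e he c0
    · simp only [w, if_neg c0]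
      exact edge_le_sl d he
  have hq := few (hth (3 * D + 1) (by omega))
  have tv : ∀ v, v ∉ Og N μ P → ds p v ≤ D → ∀ t, 1 ≤ t → t ≤ 2 * D →
      ∑ x ∈ univ.filter fun x => ds v x ≤ t, w x ≤
        112 * N * t ^ 2 + 9 * (10 ^ 6 * N) * min t (D / 10 ^ 5) ^ 2 := by
    intro v hv hvD t ht ht'
    have e : ∀ x ∈ univ.filter fun x => ds v x ≤ t, w x = w0 x := by
      intro x hx
      refine if_pos ?_
      have := (mem_filter.1 hx).2
      have := ds_tri p v x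
      omega
    rw [sum_congr rfl e]
    simp only [w0]
    rw [sum_add_distrib, sum_add_distrib]
    have b0 := (ball_card v t).trans (Nat.pow_le_pow_left (by omega : 2 * t + 1 ≤ 3 * t) 2)
    have a1 : ∑ x ∈ univ.filter fun x => ds v x ≤ t, (if x ∈ P then μ x else 0) ≤
        4 * N * t ^ 2 := by
      refine le_trans (le_of_eq ?_) (Og_light hv ht)
      rw [← sum_filter]
      refine sum_congr ?_ fun _ _ => rfl
      ext x
      simp [and_comm]
    have a2 : ∑ _x ∈ univ.filter fun x => ds v x ≤ t, 12 * N ≤ 108 * N * t ^ 2 := by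
      rw [sum_const, smul_eq_mul]
      nlinarith
    have a3 : ((univ.filter fun x => ds v x ≤ t).filter fun x => x ∈ Ob Mk).card ≤
        9 * min t (D / 10 ^ 5) ^ 2 := by
      rcases le_total t (D / 10 ^ 5) with h | h
      · rw [min_eq_left h]
        refine (card_le_card (filter_subset _ _)).trans (b0.trans (le_of_eq (by ring)))
      · rw [min_eq_right h]
        exact (ob_count Mk (p := p) (s := 3 * D) (by omega)).trans (Nat.mul_le_mul_left _ hq)
    have a4 : ∑ x ∈ univ.filter fun x => ds v x ≤ t, (if x ∈ Ob Mk then 10 ^ 6 * N else 0) ≤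
        9 * (10 ^ 6 * N) * min t (D / 10 ^ 5) ^ 2 := by
      rw [← sum_filter, sum_const, smul_eq_mul]
      exact (Nat.mul_le_mul_right _ a3).trans (le_of_eq (by ring))
    nlinarith
  have h0 : ds y y' ≤ D := by
    have := ds_tri y p y'
    rw [ds_comm y p] at this
    omega
  have := cz2 (θ := 112 * N) (κ := 9 * (10 ^ 6 * N)) (a := D / 10 ^ 5) hw
    (fun t h1 h2 => tv y hy (by omega) t h1 (by omega))
    (fun t h1 h2 => tv y' hy' (by omega) t h1 (by omega))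
  refine this.trans (Int.ofNat_le.2 ?_)
  have h1 := Nat.mul_le_mul_left N h0
  have h2 := Nat.mul_le_mul_left N (Nat.mul_div_le D (10 ^ 5))
  nlinarith

end Fe

variable {n : ℕ}

lemma ad_iff {F : Finset (Vx n × Vx n)} (hF : F ⊆ Ed n) {e : Vx n × Vx n} (he : e ∈ Ed n) :
    Ad F e.1 e.2 ↔ e ∈ F :=
  ⟨fun h => h.elim id fun h => absurd (hF h) (Ed_anti e he), Or.inl⟩

/-- S3: `F` plays the role of `S+`, `r` is its reference function, `P` the cluster -/
theorem feas {N R : ℕ} (hR : 2 ≤ R) {m r : Vx n → ℤ} {F : Finset (Vx n × Vx n)}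
    {Mk P : Finset (Vx n)} {μ : Vx n → ℕ} (hF : F ⊆ Ed n)
    (r1 : ∀ e ∈ F, r e.1 - r e.2 = m e.1 - m e.2)
    (r2 : ∀ x y, Ad (Ed n) x y → ¬ Ad F x y → |r x - r y| ≤ 8 * N)
    (hd : ∀ p ∈ P, ∀ q ∈ P, ds p q ≤ R) (hm : n ≤ R ∨ ∑ p ∈ P, μ p < N * R ^ 2)
    (he : ∀ e ∈ Ed n, e ∉ F → (∃ p ∈ P, ds p e.1 ≤ 40 * R) → |m e.1 - m e.2| ≤ 4 * N ∨
      ((e.1 ∈ Mk ∨ e.2 ∈ Mk) ∧ |m e.1 - m e.2| ≤ 10 ^ 6 * N) ∨
      (e.1 ∈ P ∧ |m e.1 - m e.2| ≤ μ e.1))
    (htau : ∀ p ∈ P, ¬ TBad F p)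
    (hth : ∀ p ∈ P, ∀ s ≤ 40 * R, 10 ^ 16 * (Mk.filter fun x => ds p x ≤ s).card ≤ (s + 1) ^ 2) :
    ∃ u : Vx n → ℤ, (∀ y, y ∉ Og N μ P → u y = m y) ∧
      ∀ e ∈ Ed n, e.1 ∈ Og N μ P ∨ e.2 ∈ Og N μ P →
        (e ∈ F → u e.1 - u e.2 = m e.1 - m e.2) ∧ (e ∉ F → |u e.1 - u e.2| ≤ 10 ^ 6 * N) := by
  classical
  have N0 : (0 : ℤ) ≤ N := Int.natCast_nonneg N
  let A : Vx n → Vx n → Prop := fun a b => Ad (Ed n) a b ∧ (a ∈ Og N μ P ∨ b ∈ Og N μ P)
  have rF : ∀ a b, Ad F a b → r b - r a = m b - m a := fun a b h => by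
    rcases h with h | h
    · have := r1 _ h; simp only at this; linarith
    · exact r1 _ h
  have hr : ∀ a b, A a b →
      r b - r a + (10 ^ 6 * N - 8 * N) * ofc F a b ≤ cfn (10 ^ 6 * N) m F a b := by
    intro a b h
    by_cases c : Ad F a b
    · simp only [ofc, cfn, if_pos c, mul_zero, add_zero, rF a b c, le_refl]
    · have := (abs_le.1 (r2 a b h.1 c)).1
      simp only [ofc, cfn, if_neg c, mul_one]
      linarith
  have o0 : ∀ a b, (0 : ℤ) ≤ ofc F a b := fun a b => by unfold ofc; split_ifs <;> norm_num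
  have near : ∀ a b, A a b → (∃ x ∈ Og N μ P, ds x a ≤ 1) ∧ ∃ x ∈ Og N μ P, ds x b ≤ 1 := by
    intro a b h
    have := h.1.ds_le
    rcases h.2 with h2 | h2
    · exact ⟨⟨a, h2, by simp⟩, a, h2, this⟩
    · exact ⟨⟨b, h2, ds_comm a b ▸ this⟩, b, h2, by simp⟩
  obtain ⟨u, u1, u2⟩ := pot_bd' (A := A) (c := cfn (10 ^ 6 * N) m F) (r := r)
    (fun a b h => by
      have := mul_nonneg (show (0 : ℤ) ≤ 10 ^ 6 * N - 8 * N by linarith) (o0 a b)
      linarith [hr a b h]) (fun y => y ∉ Og N μ P) m (by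
    intro y y' l hy hy' hw
    by_cases c : ∀ s ∈ stp y l, m s.2 - m s.1 ≤ cfn (10 ^ 6 * N) m F s.1 s.2
    · rw [← hw.cst_grad m]
      exact cst_mono c
    push Not at c
    obtain ⟨s, hs, c⟩ := c
    have hA := hw.step hs
    have c1 : ¬ Ad F s.1 s.2 := fun h => by simp [cfn, h] at c
    rw [cfn, if_neg c1] at c
    -- a steep step off `F` starts in the cluster
    have key : ∀ e ∈ Ed n, e ∉ F → (∃ x ∈ Og N μ P, ds x e.1 ≤ 1) →
        10 ^ 6 * (N : ℤ) < |m e.1 - m e.2| → e.1 ∈ P := by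
      rintro e h1 h2 ⟨x, hx, h3⟩ h4
      obtain ⟨q, hq, h5⟩ := Og_conf' hR hm hx
      have := ds_tri q x e.1
      rcases he e h1 h2 ⟨q, hq, by omega⟩ with h | h | h
      · linarith
      · linarith [h.2]
      · exact h.1
    obtain ⟨p, hp, hpl⟩ : ∃ p ∈ P, p ∈ y :: l := by
      rcases hA.1 with h | h
      · exact ⟨s.1, key (s.1, s.2) h (fun h => c1 (Or.inl h)) (near _ _ hA).1
          (c.trans_le (by rw [abs_sub_comm]; exact le_abs_self _)), (Fe.mem_stp hs).1⟩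
      · exact ⟨s.2, key (s.2, s.1) h (fun h => c1 (Or.inr h)) (near _ _ hA).2
          (c.trans_le (le_abs_self _)), (Fe.mem_stp hs).2⟩
    obtain ⟨l1, l2, rfl, w1, w2⟩ := Fe.split_at hw hpl
    obtain ⟨l3, w3, e3⟩ := Fe.rev (o := ofc F) (fun _ _ => Ad.symm)
      (fun a b => by simp only [ofc, Ad, or_comm]) (w1.mono fun _ _ h => h.1)
    have t1 : (ds p y : ℤ) ≤ 2 * cst (ofc F) p l3 := not_lt.1 fun h => htau p hp ⟨l3, y, w3, h⟩
    have t2 : (ds p y' : ℤ) ≤ 2 * cst (ofc F) p l2 :=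
      not_lt.1 fun h => htau p hp ⟨l2, y', w2.mono fun _ _ h => h.1, h⟩
    have t3 := w1.cst_append (c := ofc F) w2
    have t4 := Fe.gain hw hr
    obtain ⟨⟨b, hb⟩, a, ha⟩ := Fe.ends hw (by intro e; rw [e] at hs; simp at hs)
    obtain ⟨x, hx, d1⟩ := (near _ _ hb).1
    obtain ⟨x', hx', d2⟩ := (near _ _ ha).2
    have g1 := Og_close hR hd hm hx hp
    have g2 := Og_close hR hd hm hx' hp
    have g3 := ds_tri p x y
    have g4 := ds_tri p x' y'
    have L := Fe.lip (N := N) (R := R) (d := fun v => m v - r v) (Mk := Mk) (P := P) (μ := μ)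
      (p := p) (fun e h1 h2 => by
        have z0 : (0 : ℤ) ≤ ((if e.1 ∈ P then μ e.1 else 0 : ℕ) : ℤ) := Int.natCast_nonneg _
        have z1 : (0 : ℤ) ≤ ((if e.1 ∈ Ob Mk then 10 ^ 6 * N else 0 : ℕ) : ℤ) :=
          Int.natCast_nonneg _
        rw [Nat.cast_add, Nat.cast_add, Nat.cast_mul, Nat.cast_ofNat]
        by_cases c2 : e ∈ F
        · rw [show m e.1 - r e.1 - (m e.2 - r e.2) = 0 by linarith [r1 e c2], abs_zero]
          linarith
        have k1 := r2 e.1 e.2 (Or.inl h1) fun h => c2 ((ad_iff hF h1).1 h)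
        have k2 : |m e.1 - r e.1 - (m e.2 - r e.2)| ≤ |m e.1 - m e.2| + |r e.1 - r e.2| := by
          rw [show m e.1 - r e.1 - (m e.2 - r e.2) = m e.1 - m e.2 - (r e.1 - r e.2) by ring]
          exact abs_sub _ _
        rcases he e h1 c2 ⟨p, hp, h2⟩ with h | h | h
        · linarith
        · have : e.1 ∈ Ob Mk := mem_Ob.2 (h.1.imp_right fun h => ⟨e, mem_oe.2 ⟨h1, rfl⟩, h⟩)
          rw [if_pos this, Nat.cast_mul, Nat.cast_pow, Nat.cast_ofNat]
          linarith [h.2]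
        · rw [if_pos h.1]
          linarith [h.2]) (hth p hp) hy hy' (by omega)
    have L2 := (abs_le.1 L).1
    push_cast at L2
    have D0 : (0 : ℤ) ≤ N * ((ds p y : ℤ) + ds p y') := by positivity
    have t5 : (N : ℤ) * ((ds p y : ℤ) + ds p y') ≤ N * (2 * cst (ofc F) y (l1 ++ l2)) :=
      mul_le_mul_of_nonneg_left (by linarith) N0
    nlinarith)
  refine ⟨u, u1, fun e h1 h2 => ?_⟩
  have a1 := u2 e.1 e.2 ⟨Or.inl h1, h2⟩
  have a2 := u2 e.2 e.1 ⟨Or.inr h1, h2.symm⟩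
  refine ⟨fun h => ?_, fun h => ?_⟩
  · have c : Ad F e.1 e.2 := Or.inl h
    rw [cfn, if_pos c] at a1
    rw [cfn, if_pos c.symm] at a2
    linarith
  · have c : ¬ Ad F e.1 e.2 := fun h' => h ((ad_iff hF h1).1 h')
    rw [cfn, if_neg c] at a1
    rw [cfn, if_neg fun h' => c (Ad.symm h')] at a2
    exact abs_le.2 ⟨by linarith, a2⟩

end Pool.Agent.Lib.MP_9cc147_pr.AllU.S
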