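import Pool.Agent.Lib.MP_9cc147_pr.U.SDefs
import Pool.Agent.Lib.MP_9cc147_pr.U.SFeas

/-! S3: the repair of a cluster exists. -/

open Finset

namespace Pool.Agent.Lib.MP_9cc147_pr.AllU.S.G

open Mono (oe ra be)

/-- a defect edge weighs at most the mass of its first end -/
lemma Dfe.le_mass {n N : ℕ} {ω : St n} {e : Eg n} (he : e ∈ Ed n) (h : Dfe N ω e) :
    |gr ω.m e| ≤ mass N ω e.1 := by
  classical
  have h1 := single_le_sum (f := fun e => if Dfe N ω e then (gr ω.m e).natAbs else 0)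
    (fun _ _ => Nat.zero_le _) (Mono.mem_oe.2 ⟨he, rfl⟩ : e ∈ oe e.1)
  simp only [h, if_true] at h1
  rw [← Int.natCast_natAbs]
  exact_mod_cast h1

theorem feasSt : FeasSt := by
  intro n N k ω P _ h hc
  refine Classical.epsilon_spec (p := Feas N (Og N (mass N ω) P) (Sq N ω) ω.m) ?_
  have ch := Mono.chain k
  obtain ⟨r, r1, r2⟩ := plus_ref (t := 8 * (N : ℤ)) (m := ω.m) h.1.sub
  obtain ⟨u, u1, u2⟩ := feas (N := N) (R := ra k) (by omega) (m := ω.m) (r := r) (F := Sq N ω)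
    (Mk := ω.mr) (P := P) (μ := mass N ω) (plus_sub h.1.sub) r1 r2 hc.dm (Mono.IsCl.isOk hc)
    (fun e he hF ⟨p, hp, hd⟩ => by
      have hS : e ∉ ω.S := fun a => hF (sub_plus a)
      by_cases c : Tc ω.mr e
      · exact Or.inr (Or.inl ⟨c, h.1.cov e he c hS⟩)
      by_cases c2 : |gr ω.m e| ≤ 4 * N
      · exact Or.inl c2
      have hD : Dfe N ω e := ⟨c, hS, not_le.1 c2⟩
      refine Or.inr (Or.inr ⟨?_, hD.le_mass he⟩)
      by_contra hn
      have := hc.far hp (h.rm (mass_ne.2 ⟨e, Mono.mem_oe.2 ⟨he, rfl⟩, hD⟩)) hn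
      omega)
    (fun p hp => h.1.good p (hc.pos hp))
    (fun p hp s hs => le_trans (Nat.mul_le_mul_left _ (card_le_card
      (filter_subset_filter _ subset_union_left))) (h.1.few k p (hc.lm hp) s (by omega)))
  refine ⟨fun x => u x - ω.m x, fun x hx => by simp [u1 x hx], fun e he ht => ?_⟩
  obtain ⟨a, b⟩ := u2 e he ht
  refine ⟨fun hF => ?_, fun hF => ?_⟩
  · have := a hF
    simp only [gr]
    omega
  · have := b hF
    simp only [gr]
    rwa [show ω.m e.1 - ω.m e.2 + (u e.1 - ω.m e.1 - (u e.2 - ω.m e.2)) = u e.1 - u e.2 by ring]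

end Pool.Agent.Lib.MP_9cc147_pr.AllU.S.G
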