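import Pool.Agent.Lib.MP_9cc147_pr.U.SDefs

/-! Section S: the correction factor is constant on a class. -/

open Finset
open scoped ENNReal

namespace Pool.Agent.Lib.MP_9cc147_pr.AllU.S.G

open Mono (ra be tb)

namespace Gg

variable {n N r r' : ℕ} {z : Vx n} {ω ω' : St n}

lemma agr_mono (h : Agr N z r ω ω') (hr : r' ≤ r) : Agr N z r' ω ω' :=
  ⟨h.S, h.sq, fun x hx => h.mr x (hx.trans hr), fun k x hx => h.fl k x (hx.trans hr),
    fun e he hx => h.gr e he (hx.trans hr)⟩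

lemma agr_mass (h : Agr N z r ω ω') {y : Vx n} (hy : ds z y + 1 ≤ r) :
    mass N ω' y = mass N ω y := by
  classical
  unfold mass
  refine sum_congr rfl fun e he => ?_
  obtain ⟨h1, rfl⟩ := Mono.mem_oe.1 he
  have a := ds_edge h1
  have b := ds_tri z e.1 e.2
  have c := h.gr e h1 (by omega)
  have d : Dfe N ω' e ↔ Dfe N ω e := by
    unfold Dfe Tc
    rw [h.mr e.1 (by omega), h.mr e.2 (by omega), h.S, c]
  rw [c]
  exact if_congr d rfl rfl

/-- total loss of radius below level `j` -/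
def sb : ℕ → ℕ
  | 0 => 0
  | j + 1 => 3 * be j + sb j

lemma sb_le (j : ℕ) : sb j ≤ be j := by
  induction j with
  | zero => simp [sb]
  | succ j ih =>
    have := Mono.Ip_ra (Nat.lt_add_one j)
    have := Mono.chain j
    have := Mono.chain (j + 1)
    rw [sb]; omega

lemma agr_it (hL : RlocSt) (hN : 1 ≤ N) (I : Itr N ω) (I' : Itr N ω') (j : ℕ) :
    ∀ r, Agr N z (r + sb j) ω ω' → Agr N z r (it N j ω) (it N j ω') := by
  induction j with
  | zero => exact fun r h => h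
  | succ j ih =>
    intro r h
    exact hL n N j r z _ _ hN (I.om j) (I'.om j) (ih _ (agr_mono h (by rw [sb]; omega)))

lemma key (hL : RlocSt) (hA : LocSt) {a : Pa} (ha : a.H) (hN : 1 ≤ a.N) (I : Itr a.N ω)
    (I' : Itr a.N ω') (k : ℕ)
    (hg : ∀ b ∈ ω.fl, Agr a.N b.2 (2 * tb b.1) ω ω') {P : Finset (Vx n)}
    (hP : P ∈ off (cf k) univ (fam a.N (mass a.N (it a.N k ω)) k))
    (h0 : ac a k (it a.N (k + 1) ω) P ≠ 0) :
    P ∈ off (cf k) univ (fam a.N (mass a.N (it a.N k ω')) k) ∧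
      ac a k (it a.N (k + 1) ω') P = ac a k (it a.N (k + 1) ω) P := by
  obtain ⟨ω1, -, c1, e1⟩ : ∃ ω1, Opt a.N k P ω1 (it a.N (k + 1) ω) := by
    by_contra hc
    refine h0 ?_
    have : pm a k (it a.N (k + 1) ω) P = 0 :=
      ENNReal.tsum_eq_zero.2 fun ω1 => if_neg fun h => hc ⟨ω1, h⟩
    simp [ac, this]
  have hk := c1.lev
  have hoff := (mem_off.1 hP).2
  have hfl : (fk n k, nm P) ∈ ω.fl := by
    have : (fk n k, nm P) ∈ (it a.N (k + 1) ω).fl := by
      rw [← e1]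
      exact mem_union_right _ (mem_image.2 ⟨P, mem_singleton_self _, rfl⟩)
    rcases (I.fl _ _).1 this with h | ⟨j, _, Q, hQ, e⟩
    · exact h
    have e2 := congrArg (fun b : Fin (n + 1) × Vx n => (b.1 : ℕ)) e
    have e3 : nm P = nm Q := congrArg Prod.snd e
    simp only [fk_val hk, fk_val hQ.lev] at e2
    subst e2
    exact absurd (Or.inr ⟨hQ.dm, c1.dm, nm Q, hQ.nm, nm P, c1.nm, by simp [e3]⟩)
      (hoff Q (mem_fam.2 ((I.cl k k Q le_rfl).2 hQ)))
  have g0 : Agr a.N (nm P) (2 * tb k) ω ω' := by simpa only [fk_val hk] using hg _ hfl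
  have ch := Mono.chain k
  have s1 := sb_le k
  have g1 := agr_it hL hN I I' k (100 * be k) (agr_mono g0 (by omega))
  have g2 := agr_it hL hN I I' (k + 1) (100 * be k) (agr_mono g0 (by rw [sb]; omega))
  refine ⟨mem_off.2 ⟨mem_univ _, fun Q hQ hc => ?_⟩, hA n a k _ _ P ha
    ((I.om _).down (Nat.le_succ k)) ((I'.om _).down (Nat.le_succ k)) (agr_mono g2 (by omega))
    fun p hp y hy => ?_⟩
  · have hQ := mem_fam.1 hQ
    obtain ⟨x, hx, hd⟩ : ∃ x ∈ Q, ds (nm P) x ≤ ra k + be k := by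
      rcases hc with rfl | ⟨-, -, x, hx, y, hy, hd⟩
      · exact ⟨_, c1.nm, by simp⟩
      · have := c1.dm _ c1.nm y hy
        have := ds_tri (nm P) y x
        rw [ds_comm x y] at hd
        exact ⟨x, hx, by omega⟩
    refine hoff Q (mem_fam.2 (isCl_local' (z := nm P) (r := 50 * be k) par_rb (I'.om k).2
      (I.om k).2 (fun y hy => ?_) (fun C _ hC => ?_) hQ hx (by omega))) hc
    · rw [mem_sp, mem_sp, agr_mass g1 (by omega)]
    · unfold okM
      rw [sum_congr rfl fun y hy => agr_mass g1 (y := y) (by have := hC y hy; omega)]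
  · have := c1.dm _ c1.nm p hp
    have := ds_tri (nm P) p y
    rw [agr_mass g2 (by omega)]

end Gg

theorem ggSt (_hR : RepSt) (hI : ItrSt) (hL : RlocSt) (hA : LocSt) (hC : ClsSt) : GgSt := by
  intro n a ω ω' ha hr hs
  have hN : 1 ≤ a.N := Nat.pos_of_ne_zero fun h => by
    have := ha.bN
    rw [h] at this
    norm_num at this
  obtain ⟨cl, -, h3⟩ := hC n a.N ω hN hr
  obtain ⟨hr', sq, -⟩ := h3 ω' hs
  have I := hI n a.N ω hN hr
  have I' := hI n a.N ω' hN hr'
  have hg : ∀ b ∈ ω.fl, Agr a.N b.2 (2 * tb b.1) ω ω' := fun b hb =>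
    ⟨hs.S, sq, fun x _ => by rw [hs.mr], fun k x _ => by rw [hs.fl],
      fun e he hd => hs.gr e he (cl.1 _ (Or.inr (Or.inr ⟨b, hb, hd⟩)))⟩
  have hg' : ∀ b ∈ ω'.fl, Agr a.N b.2 (2 * tb b.1) ω' ω := fun b hb =>
    have h := hg b (hs.fl ▸ hb)
    ⟨h.S.symm, h.sq.symm, fun x hx => (h.mr x hx).symm, fun k x hx => (h.fl k x hx).symm,
      fun e he hd => (h.gr e he hd).symm⟩
  refine prod_congr rfl fun k _ => congrArg ENNReal.ofReal (HH_local (fun P hP hn => ?_)
    (fun P hP hn => ?_) fun P hP hP' => ?_)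
  · exact by_contra fun h => hn (Gg.key hL hA ha hN I' I k hg' hP h).1
  · exact by_contra fun h => hn (Gg.key hL hA ha hN I I' k hg hP h).1
  · by_cases h : ac a k (it a.N (k + 1) ω) P = 0
    · by_cases h' : ac a k (it a.N (k + 1) ω') P = 0
      · exact h'.trans h.symm
      · exact (Gg.key hL hA ha hN I' I k hg' hP h').2.symm
    · exact (Gg.key hL hA ha hN I I' k hg hP' h).2

end Pool.Agent.Lib.MP_9cc147_pr.AllU.S.G
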