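import Pool.Agent.Lib.MP_9cc147_pr.U.SDefs

/-! Section S: all repair steps together. -/

open Finset

namespace Pool.Agent.Lib.MP_9cc147_pr.AllU.S.G

open Mono (ra be tb)

namespace It

variable {n N : ℕ} {ω : St n}

lemma om (hR : RepSt) (hN : 1 ≤ N) (h : Reg N ω) (k : ℕ) : Om N k (it N k ω) := by
  induction k with
  | zero => exact ⟨h, rfl⟩
  | succ k ih => exact (hR n N k _ _ hN ih fun _ => mem_fam.1).om1 rfl

lemma rep (hR : RepSt) (hN : 1 ≤ N) (h : Reg N ω) (k : ℕ) :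
    Rep N k (it N k ω) (fam N (mass N (it N k ω)) k) :=
  hR n N k _ _ hN (om hR hN h k) fun _ => mem_fam.1

lemma S_eq (k : ℕ) : (it N k ω).S = ω.S := by
  induction k with
  | zero => rfl
  | succ k ih => exact ih

lemma sq_eq (hR : RepSt) (hN : 1 ≤ N) (h : Reg N ω) (k : ℕ) : Sq N (it N k ω) = Sq N ω := by
  induction k with
  | zero => rfl
  | succ k ih => exact (rep hR hN h k).sq.trans ih

lemma mr_mono {j k : ℕ} (hj : j ≤ k) : (it N j ω).mr ⊆ (it N k ω).mr := by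
  induction k, hj using Nat.le_induction with
  | base => exact Subset.rfl
  | succ k _ ih => exact ih.trans subset_union_left

lemma cl (hR : RepSt) (hN : 1 ≤ N) (h : Reg N ω) (k j : ℕ) (P : Finset (Vx n)) (hk : k ≤ j) :
    Cl N (mass N (it N k ω)) j P ↔ Cl N (mass N ω) j P := by
  induction k with
  | zero => rfl
  | succ k ih =>
    rw [← ih (by omega)]
    refine ((rep hR hN h k).cl j P).trans (and_iff_left_of_imp fun hc hm => ?_)
    have := (hc.uniq (mem_fam.1 hm) hc.nm hc.nm).1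
    omega

lemma fl (hR : RepSt) (hN : 1 ≤ N) (h : Reg N ω) (k : ℕ) (b : Fin (n + 1) × Vx n) :
    b ∈ (it N k ω).fl ↔ b ∈ ω.fl ∨ ∃ j < k, ∃ P, Cl N (mass N ω) j P ∧ b = (fk n j, nm P) := by
  induction k with
  | zero => simp [it_zero]
  | succ k ih =>
    have e : b ∈ (it N (k + 1) ω).fl ↔ b ∈ (it N k ω).fl ∨
        ∃ P, Cl N (mass N ω) k P ∧ b = (fk n k, nm P) := by
      show b ∈ (it N k ω).fl ∪ (fam N (mass N (it N k ω)) k).image (fun P => (fk n k, nm P)) ↔ _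
      simp only [mem_union, mem_image, mem_fam, cl hR hN h k k _ le_rfl, eq_comm]
    rw [e, ih, or_assoc]
    refine or_congr_right ⟨?_, ?_⟩
    · rintro (⟨j, hj, hP⟩ | hP)
      exacts [⟨j, by omega, hP⟩, ⟨k, by omega, hP⟩]
    · rintro ⟨j, hj, hP⟩
      rcases Nat.lt_succ_iff_lt_or_eq.1 hj with hj | rfl
      exacts [Or.inl ⟨j, hj, hP⟩, Or.inr hP]

lemma keep (hR : RepSt) (hN : 1 ≤ N) (h : Reg N ω) (k : ℕ) (h1 : vz n ∉ (it N k ω).mr)
    (h2 : vl n ∉ (it N k ω).mr) : (it N k ω).m (vl n) = ω.m (vl n) := by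
  induction k with
  | zero => rfl
  | succ k ih =>
    exact ((rep hR hN h k).keep h1 h2).trans
      (ih (fun hh => h1 (mr_mono (Nat.le_succ k) hh)) fun hh => h2 (mr_mono (Nat.le_succ k) hh))

lemma clo (hR : RepSt) (hN : 1 ≤ N) (h : Reg N ω) : Clo N ω (A0 N (fin N ω)) := by
  refine ⟨fun p hp => ?_, fun k p hp _ y hy => ?_⟩
  · rcases hp with hp | ⟨s, hs⟩ | ⟨b, hb, hd⟩
    · exact Or.inl (by rw [fin, sq_eq hR hN h]; exact hp)
    · exact Or.inr (Or.inl ⟨s, hs.trans_le (Nat.mul_le_mul_left _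
        (card_le_card (filter_subset_filter _ (mr_mono (Nat.zero_le (n + 1))))))⟩)
    · exact Or.inr (Or.inr ⟨b, (fl hR hN h _ b).2 (Or.inl hb), hd⟩)
  · obtain ⟨P, hP, hpP⟩ := Mono.lv_exists_cl hp
    have hc : Cl N (mass N ω) k P := hP
    refine Or.inr (Or.inr ⟨(fk n k, nm P),
      (fl hR hN h _ _).2 (Or.inr ⟨k, Nat.lt_succ_of_le hc.lev, P, hc, rfl⟩), ?_⟩)
    have h1 := hc.dm _ hc.nm _ hpP
    have h2 := ds_tri (nm P) p y
    have h3 := Mono.chain k
    show ds (nm P) y ≤ 2 * tb (fk n k : ℕ)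
    rw [fk_val hc.lev]
    omega

end It

theorem itrSt (hR : RepSt) : ItrSt := fun n N ω hN h =>
  { om := It.om hR hN h
    S := It.S_eq
    sq := It.sq_eq hR hN h
    mr := fun _ _ => It.mr_mono
    cl := It.cl hR hN h
    fl := It.fl hR hN h
    tru := ⟨(It.om hR hN h (n + 1)).1, fun x => by
      by_contra hx
      have := (It.om hR hN h (n + 1)).rm hx
      rw [rm_empty] at this
      exact notMem_empty _ this⟩
    keep := It.keep hR hN h (n + 1)
    ast := fun _ hx => mem_Ast.1 hx _ (It.clo hR hN h) }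

end Pool.Agent.Lib.MP_9cc147_pr.AllU.S.G
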