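import Pool.Agent.Lib.MP_9cc147_pr.U.SDefs
import Pool.Agent.Lib.MP_9cc147_pr.U.SGrad

/-! Section S4: the activity of a cluster is local. -/

open Finset
open scoped ENNReal

namespace Pool.Agent.Lib.MP_9cc147_pr.AllU.S.G

open Mono (Rem Lv IsCl Par oe ra be tb aa)

variable {n : ℕ}

namespace Loc

/-- the two states look the same at the edge -/
def Eqe (ω ω' : St n) (e : Eg n) : Prop :=
  (Tc ω.mr e ↔ Tc ω'.mr e) ∧ (e ∈ ω.S ↔ e ∈ ω'.S) ∧ gr ω.m e = gr ω'.m e

lemma Eqe.we {ω ω' : St n} {e : Eg n} (h : Eqe ω ω' e) (a : Pa) : we a ω e = we a ω' e := by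
  classical
  unfold G.we
  rw [h.2.2]
  exact if_congr h.1 (if_congr h.2.1 rfl rfl) (if_congr h.2.1 rfl rfl)

lemma mass_congr {N : ℕ} {ω ω' : St n} {x : Vx n} (h : ∀ e ∈ Ed n, e.1 = x → Eqe ω ω' e) :
    mass N ω x = mass N ω' x := by
  classical
  unfold mass
  refine sum_congr rfl fun e he => ?_
  have he' := mem_filter.1 he
  obtain ⟨h1, h2, h3⟩ := h e he'.1 he'.2
  have : Dfe N ω e ↔ Dfe N ω' e := by unfold Dfe; rw [h1, h2, h3]
  rw [h3]
  exact if_congr this rfl rfl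

/-- `B` off `O`, `A` on `O` -/
def mix {α : Type} [DecidableEq α] (O A B : Finset α) : Finset α := (B \ O) ∪ (A ∩ O)

section mix
variable {α : Type} [DecidableEq α] {O A B : Finset α} {x : α}

lemma mix_on (h : x ∈ O) : x ∈ mix O A B ↔ x ∈ A := by simp [mix, h]
lemma mix_off (h : x ∉ O) : x ∈ mix O A B ↔ x ∈ B := by simp [mix, h]
lemma mix_union (h : O ⊆ B) : mix O A B ∪ O = B := by
  ext x
  by_cases c : x ∈ O
  · simp [c, h c]
  · simp [mix, c]
lemma mix_mix : mix O (mix O A B) (A ∪ O) = A := by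
  ext x
  by_cases c : x ∈ O
  · rw [mix_on c, mix_on c]
  · simp [mix, c]
lemma mix_sub (h : O ⊆ B) : mix O A B ⊆ B := subset_union_left.trans (mix_union h).subset
lemma pw_mix [Fintype α] (p : α → ℝ) (h : O ⊆ B) :
    pw p A * pw p B = pw p (mix O A B) * pw p (A ∪ O) := by
  unfold pw
  rw [← prod_mul_distrib, ← prod_mul_distrib]
  refine prod_congr rfl fun x _ => ?_
  by_cases c : x ∈ O
  · by_cases d : x ∈ A <;> simp [mix_on c, h c, c, d]
  · by_cases d : x ∈ A <;> by_cases d' : x ∈ B <;> simp [mix_off c, c, d, d', mul_comm]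

end mix

/-- the state that is repaired to `τ` as `ω` is repaired at `P` -/
noncomputable def tr (N k : ℕ) (P : Finset (Vx n)) (τ ω : St n) : St n where
  m x := τ.m x - dl N ω P x + dl N ω P (vz n)
  S := τ.S
  mr := mix (Og N (mass N ω) P) ω.mr τ.mr
  fl := mix {(fk n k, nm P)} ω.fl τ.fl

section rep
variable {N k : ℕ} {P : Finset (Vx n)} {ω τ : St n}

lemma rep_m (x : Vx n) : (repF N ω k {P}).m x = ω.m x + dl N ω P x - dl N ω P (vz n) := by
  simp [repF]
lemma rep_mr : (repF N ω k {P}).mr = ω.mr ∪ Og N (mass N ω) P := by simp [repF]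
lemma rep_fl : (repF N ω k {P}).fl = ω.fl ∪ {(fk n k, nm P)} := by simp [repF]
lemma rep_gr (e : Eg n) : gr (repF N ω k {P}).m e = gr ω.m e + gr (dl N ω P) e := by
  simp only [gr, rep_m]; ring
lemma tr_gr (e : Eg n) : gr (tr N k P τ ω).m e = gr τ.m e - gr (dl N ω P) e := by
  simp only [gr, tr]; ring

end rep

/-- the data of the transfer -/
structure Ctx (N k : ℕ) (P : Finset (Vx n)) (ω σ' : St n) : Prop where
  om : Om N k ω
  cl : Cl N (mass N ω) k P
  fe : Feas N (Og N (mass N ω) P) (Sq N ω) ω.m (dl N ω P)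
  rep : Rep N k ω {P}
  om' : Om N k σ'
  agr : Agr N (nm P) (200 * ra k) (repF N ω k {P}) σ'
  zero : ∀ p ∈ P, ∀ y, ds p y ≤ be k → (mass N σ' y = 0 ↔ mass N (repF N ω k {P}) y = 0)

namespace Ctx
variable {N k : ℕ} {P : Finset (Vx n)} {ω σ' : St n} (c : Ctx N k P ω σ') {x : Vx n} {e : Eg n}
include c

lemma close (hx : x ∈ Og N (mass N ω) P) : ds (nm P) x + 5 ≤ 6 * ra k := c.cl.close c.cl.nm hx

lemma tc_close (he : e ∈ Ed n) (h : Tc (Og N (mass N ω) P) e) : ds (nm P) e.1 + 4 ≤ 6 * ra k := by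
  rcases h with h | h
  · have := c.close h; omega
  · have := c.close h
    have := ds_tri (nm P) e.2 e.1
    have := ds_edge he
    have := ds_comm e.1 e.2
    omega

lemma sub_mr : Og N (mass N ω) P ⊆ σ'.mr := fun x hx => by
  have := c.close hx
  rw [c.agr.mr x (by omega), rep_mr]
  exact mem_union_right _ hx

lemma sub_fl : {(fk n k, nm P)} ⊆ σ'.fl := by
  rw [singleton_subset_iff, c.agr.fl _ _ (by simp), rep_fl]
  simp

lemma gr_off (h : ¬ Tc (Og N (mass N ω) P) e) : gr (dl N ω P) e = 0 := by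
  rw [Tc, not_or] at h
  rw [gr, c.fe.1 _ h.1, c.fe.1 _ h.2, sub_zero]

lemma mr_near (hx : ds (nm P) x ≤ 200 * ra k) : x ∈ (tr N k P σ' ω).mr ↔ x ∈ ω.mr := by
  by_cases h : x ∈ Og N (mass N ω) P
  · exact mix_on h
  · refine (mix_off h).trans ?_
    rw [c.agr.mr x hx, rep_mr, mem_union]
    exact or_iff_left h

lemma near1 (he : e ∈ Ed n) (h : ds (nm P) e.1 + 1 ≤ 200 * ra k) : Eqe (tr N k P σ' ω) ω e := by
  have := ds_tri (nm P) e.1 e.2
  have := ds_edge he
  refine ⟨or_congr (c.mr_near (by omega)) (c.mr_near (by omega)), ?_, ?_⟩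
  · rw [show (tr N k P σ' ω).S = ω.S from c.agr.S]
  · rw [tr_gr, c.agr.gr e he (by omega), rep_gr]; ring

lemma near2 (he : e ∈ Ed n) (h : ds (nm P) e.1 + 1 ≤ 200 * ra k) : Eqe σ' (repF N ω k {P}) e := by
  have := ds_tri (nm P) e.1 e.2
  have := ds_edge he
  refine ⟨or_congr (c.agr.mr _ (by omega)) (c.agr.mr _ (by omega)), ?_, c.agr.gr e he (by omega)⟩
  rw [c.agr.S]

lemma off1 (h : ¬ Tc (Og N (mass N ω) P) e) : Eqe (tr N k P σ' ω) σ' e := by
  refine ⟨or_congr (mix_off fun a => h (Or.inl a)) (mix_off fun a => h (Or.inr a)), Iff.rfl, ?_⟩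
  rw [tr_gr, c.gr_off h, sub_zero]

lemma off2 (h : ¬ Tc (Og N (mass N ω) P) e) : Eqe ω (repF N ω k {P}) e := by
  refine ⟨?_, Iff.rfl, by rw [rep_gr, c.gr_off h, add_zero]⟩
  rw [Tc, not_or] at h
  simp only [Tc, rep_mr, mem_union, h.1, h.2, or_false]

lemma sq' : Sq N σ' = Sq N ω := c.agr.sq.trans c.rep.sq

lemma sq : Sq N (tr N k P σ' ω) = Sq N σ' := by
  refine plus_congr (m := σ'.m) (S := σ'.S) fun e he => ?_
  have h1 : e ∈ Ed n := plus_sub c.om'.1.sub he
  have h2 : e ∈ Sq N ω := c.sq' ▸ he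
  have h3 : gr (dl N ω P) e = 0 := by
    by_cases h : Tc (Og N (mass N ω) P) e
    · exact (c.fe.2 e h1 h).1 h2
    · exact c.gr_off h
  have := tr_gr (N := N) (k := k) (P := P) (ω := ω) (τ := σ') e
  rw [h3, sub_zero] at this
  exact this

lemma mass_near (h : ds (nm P) x + 1 ≤ 200 * ra k) : mass N (tr N k P σ' ω) x = mass N ω x :=
  mass_congr fun _ he h' => c.near1 he (h' ▸ h)

lemma p_near (hx : x ∈ P) : ds (nm P) x ≤ ra k := c.cl.dm _ c.cl.nm _ hx

lemma mass_on (hx : x ∈ P) : mass N (tr N k P σ' ω) x = mass N ω x :=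
  c.mass_near (by have := c.p_near hx; have := Mono.ra_pos k; omega)

lemma mass_off (hx : x ∉ P) : mass N (tr N k P σ' ω) x = mass N σ' x := by
  have h0 := Mono.ra_pos k
  by_cases h : ds (nm P) x + 1 ≤ 200 * ra k
  · rw [c.mass_near h, ← c.rep.mass_off x (by simpa using hx)]
    exact (mass_congr fun _ he h' => c.near2 he (h' ▸ h)).symm
  · refine mass_congr fun e he h' => c.off1 fun a => ?_
    have := c.tc_close he a
    rw [h'] at this
    omega

lemma far (hx : x ∈ sp (mass N σ')) {p : Vx n} (hp : p ∈ P) : be k < ds x p := by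
  rw [ds_comm]
  by_contra hc
  have h1 := mt (c.zero p hp x (not_lt.1 hc)).2 (mem_sp.1 hx)
  have h2 : x ∉ P := fun a => h1 (c.rep.mass_on P (mem_singleton_self _) x a)
  rw [c.rep.mass_off x (by simpa using h2)] at h1
  exact hc (c.cl.far hp (c.om.rm h1) h2)

lemma notP (hx : x ∈ sp (mass N σ')) : x ∉ P := fun a => by simpa using c.far hx a

lemma sp_eq : sp (mass N (tr N k P σ' ω)) = sp (mass N σ') ∪ P := by
  ext x
  rw [mem_union, mem_sp, mem_sp]
  by_cases h : x ∈ P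
  · simp only [c.mass_on h, h, or_true, iff_true]
    exact c.cl.pos h
  · simp only [c.mass_off h, h, or_false]

lemma sp_sdiff : sp (mass N (tr N k P σ' ω)) \ P = sp (mass N σ') := by
  rw [c.sp_eq, union_sdiff_right]
  exact sdiff_eq_self_of_disjoint (disjoint_left.2 fun _ => c.notP)

lemma okA (j : ℕ) (C : Finset (Vx n)) (h : C ⊆ sp (mass N σ')) :
    okM N (mass N σ') j C ↔ okM N (mass N (tr N k P σ' ω)) j C := by
  unfold okM
  rw [sum_congr rfl fun x hx => c.mass_off (c.notP (h hx))]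

lemma okB (j : ℕ) (C : Finset (Vx n)) (h : C ⊆ P) :
    okM N (mass N ω) j C ↔ okM N (mass N (tr N k P σ' ω)) j C := by
  unfold okM
  rw [sum_congr rfl fun x hx => c.mass_on (h hx)]

lemma cl2 : Cl N (mass N (tr N k P σ' ω)) k P := by
  unfold Cl
  rw [c.sp_eq]
  exact isCl_union par_rb (fun _ ha _ hb => c.far ha hb) c.okA c.okB le_rfl
    (isCl_alone par_rb c.cl)

lemma rm2 : Rm N (mass N (tr N k P σ' ω)) k = sp (mass N (tr N k P σ' ω)) := by
  unfold Rm
  rw [c.sp_eq, rem_union par_rb (fun _ ha _ hb => c.far ha hb) c.okA c.okB (Nat.le_succ k),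
    rem_alone par_rb c.cl, inter_eq_right.2 (isCl_sub_rem par_rb c.cl)]
  exact congrArg (· ∪ P) c.om'.2

lemma og2 : Og N (mass N (tr N k P σ' ω)) P = Og N (mass N ω) P := Og_congr fun _ => c.mass_on

lemma cl_off {j : ℕ} {Q : Finset (Vx n)} (h : Cl N (mass N (tr N k P σ' ω)) j Q) (hQ : Q ≠ P) :
    Cl N (mass N σ') j Q := by
  unfold Cl
  rw [← c.sp_sdiff]
  exact (isCl_erase par_rb c.cl2 fun j C hC => c.okA j C (c.sp_sdiff ▸ hC)).2 ⟨h, hQ⟩

lemma lm_off {j : ℕ} (h : x ∈ Lm N (mass N (tr N k P σ' ω)) j) (hx : x ∉ P) :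
    x ∈ Lm N (mass N σ') j := by
  unfold Lm
  rw [← c.sp_sdiff, lv_sdiff par_rb (isCl_sat c.cl2) fun j C hC => c.okA j C (c.sp_sdiff ▸ hC)]
  exact mem_sdiff.2 ⟨h, hx⟩

lemma reg : Reg N (tr N k P σ' ω) := by
  have h0 := Mono.ra_pos k
  refine ⟨?_, c.om'.1.sub, fun e he h1 h2 => ?_, fun p hp => ?_, fun j p hp s hs => ?_⟩
  · simp [tr, c.om'.1.pin]
  · by_cases h : Tc (Og N (mass N ω) P) e
    · have := c.tc_close he h
      obtain ⟨a1, a2, a3⟩ := c.near1 he (by omega)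
      rw [a3]
      exact c.om.1.cov e he (a1.1 h1) (mt a2.2 h2)
    · obtain ⟨a1, a2, a3⟩ := c.off1 h
      rw [a3]
      exact c.om'.1.cov e he (a1.1 h1) (mt a2.2 h2)
  · rw [c.sq]
    by_cases h : p ∈ P
    · rw [c.sq']
      exact c.om.1.good p (c.cl.pos h)
    · exact c.om'.1.good p (c.mass_off h ▸ hp)
  · by_cases h : p ∈ P
    · obtain rfl : j = k := Mono.lv_unique hp (c.cl2.lm h)
      refine le_trans (Nat.mul_le_mul_left _ (card_le_card fun y hy => ?_))
        (c.om.1.few j p (c.cl.lm h) s hs)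
      rw [mem_filter, mem_union] at hy ⊢
      refine ⟨Or.inl ?_, hy.2⟩
      rcases hy.1 with a | a
      · have := c.p_near h
        have := ds_tri (nm P) p y
        exact (c.mr_near (by omega)).1 a
      · obtain ⟨i, hi, Q, hQ, -⟩ := mem_low.1 a
        have b : nm Q ∈ Rm N (mass N (tr N j P σ' ω)) j := c.rm2 ▸ mem_sp.2 (hQ.pos hQ.nm)
        exact absurd (Mono.lv_le b (hQ.lm hQ.nm)) (by omega)
    · refine le_trans (Nat.mul_le_mul_left _ (card_le_card fun y hy => ?_))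
        (c.om'.1.few j p (c.lm_off hp h) s hs)
      rw [mem_filter, mem_union] at hy ⊢
      refine ⟨?_, hy.2⟩
      rcases hy.1 with a | a
      · exact Or.inl (mix_sub c.sub_mr a)
      · obtain ⟨i, hi, Q, hQ, b⟩ := mem_low.1 a
        by_cases d : Q = P
        · rw [d, c.og2] at b
          exact Or.inl (c.sub_mr b)
        · have hQ' := c.cl_off hQ d
          refine Or.inr (mem_low.2 ⟨i, hi, Q, hQ', ?_⟩)
          rwa [← Og_congr fun q hq => c.mass_off (c.notP (mem_sp.2 (hQ'.pos hq)))]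

lemma dl2 : dl N (tr N k P σ' ω) P = dl N ω P := by
  have h0 := Mono.ra_pos k
  have : Feas N (Og N (mass N (tr N k P σ' ω)) P) (Sq N (tr N k P σ' ω)) (tr N k P σ' ω).m =
      Feas N (Og N (mass N ω) P) (Sq N ω) ω.m := by
    rw [c.og2, c.sq, c.sq']
    funext δ
    refine propext (and_congr_right fun _ => forall₂_congr fun e he => forall_congr' fun h => ?_)
    have := c.tc_close he h
    rw [(c.near1 he (by omega)).2.2]
  exact congrArg Classical.epsilon this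

lemma opt : Opt N k P (tr N k P σ' ω) σ' := by
  refine ⟨⟨c.reg, c.rm2⟩, c.cl2, St.ext ?_ rfl ?_ ?_⟩
  · funext x
    rw [rep_m, c.dl2]
    simp only [tr]
    ring
  · rw [rep_mr, c.og2]
    exact mix_union c.sub_mr
  · rw [rep_fl]
    exact mix_union c.sub_fl

lemma inv : tr N k P (repF N ω k {P}) (tr N k P σ' ω) = ω := by
  refine St.ext ?_ rfl ?_ ?_
  · funext x
    change (repF N ω k {P}).m x - dl N (tr N k P σ' ω) P x + dl N (tr N k P σ' ω) P (vz n) = _
    rw [rep_m, c.dl2]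
    ring
  · change mix (Og N (mass N (tr N k P σ' ω)) P) (tr N k P σ' ω).mr (repF N ω k {P}).mr = _
    rw [c.og2, rep_mr]
    exact mix_mix
  · change mix {(fk n k, nm P)} (tr N k P σ' ω).fl (repF N ω k {P}).fl = _
    rw [rep_fl]
    exact mix_mix

lemma we_eq (a : Pa) (he : e ∈ Ed n) :
    we a ω e * we a σ' e = we a (tr N k P σ' ω) e * we a (repF N ω k {P}) e := by
  have h0 := Mono.ra_pos k
  by_cases h : Tc (Og N (mass N ω) P) e
  · have := c.tc_close he h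
    rw [(c.near1 he (by omega)).we, (c.near2 he (by omega)).we]
  · rw [(c.off1 h).we, (c.off2 h).we, mul_comm]

lemma nu_eq (a : Pa) (h1 : nu a σ' ≠ 0) (h2 : nu a (repF N ω k {P}) ≠ 0) :
    nu a ω * nu a σ' = nu a (tr N k P σ' ω) * nu a (repF N ω k {P}) := by
  unfold nu at *
  rw [Ne, ENNReal.ofReal_eq_zero, not_le] at h1 h2
  rw [← ENNReal.ofReal_mul' h1.le, ← ENNReal.ofReal_mul' h2.le]
  congr 1
  have a1 := pw_mix (A := ω.mr) (fun _ => a.e) c.sub_mr
  have a2 := pw_mix (A := ω.fl) (fun b => pF a b.1) c.sub_fl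
  have a3 := prod_congr rfl fun e (he : e ∈ Ed n) => c.we_eq a he
  rw [prod_mul_distrib, prod_mul_distrib] at a3
  rw [← rep_mr (k := k)] at a1
  rw [← rep_fl (N := N)] at a2
  calc _ = (pw (fun _ => a.e) ω.mr * pw (fun _ => a.e) σ'.mr) *
        (pw (fun b => pF a b.1) ω.fl * pw (fun b => pF a b.1) σ'.fl) *
        ((∏ e ∈ Ed n, we a ω e) * ∏ e ∈ Ed n, we a σ' e) := by ring
    _ = _ := by
      rw [a1, a2, a3]
      simp only [tr]
      ring

end Ctx

lemma agr_symm {N r : ℕ} {z : Vx n} {ω ω' : St n} (h : Agr N z r ω ω') : Agr N z r ω' ω :=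
  ⟨h.S.symm, h.sq.symm, fun x hx => (h.mr x hx).symm, fun k x hx => (h.fl k x hx).symm,
    fun e he hd => (h.gr e he hd).symm⟩

lemma pm_le (hF : FeasSt) (hR : RepSt) (hP : PosSt) {a : Pa} {k : ℕ} {σ σ' : St n}
    {P : Finset (Vx n)} (ha : a.H) (h : Om a.N k σ) (h' : Om a.N k σ')
    (hA : Agr a.N (nm P) (200 * ra k) σ σ')
    (hz : ∀ p ∈ P, ∀ y, ds p y ≤ be k → (mass a.N σ' y = 0 ↔ mass a.N σ y = 0)) :
    pm a k σ P * nu a σ' ≤ pm a k σ' P * nu a σ := by
  classical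
  have hN := (hP n a σ ha).1
  have cx : ∀ ω, Opt a.N k P ω σ → Ctx a.N k P ω σ' := fun ω o =>
    ⟨o.1, o.2.1, hF n _ k ω P hN o.1 o.2.1,
      hR n _ k ω {P} hN o.1 fun Q hQ => (mem_singleton.1 hQ).symm ▸ o.2.1, h',
      o.2.2.symm ▸ hA, o.2.2.symm ▸ hz⟩
  unfold pm
  rw [← ENNReal.tsum_mul_right, ← ENNReal.tsum_mul_right]
  refine tsum_le_inj (tr a.N k P σ') (fun ω ω' b b' e => ?_) fun ω => ?_
  · have o := (ite_ne_right_iff.1 (left_ne_zero_of_mul b)).1
    have o' := (ite_ne_right_iff.1 (left_ne_zero_of_mul b')).1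
    rw [← (cx ω o).inv, ← (cx ω' o').inv, o.2.2, o'.2.2, e]
  · by_cases o : Opt a.N k P ω σ
    · rw [if_pos o, if_pos (cx ω o).opt, (cx ω o).nu_eq a ((hP n a σ' ha).2.2.1 h'.1)
        (o.2.2.symm ▸ (hP n a σ ha).2.2.1 h.1), o.2.2]
    · simp [o]

end Loc

theorem locSt (hF : FeasSt) (hR : RepSt) (hP : PosSt) : LocSt := by
  intro n a k σ σ' P ha h h' hA hz
  have e := le_antisymm (Loc.pm_le hF hR hP ha h h' hA hz)
    (Loc.pm_le hF hR hP ha h' h (Loc.agr_symm hA) fun p hp y hy => (hz p hp y hy).symm)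
  unfold ac
  congr 1
  rw [ENNReal.div_eq_div_iff ((hP n a σ ha).2.2.1 h.1) (hP n a σ ha).2.1
    ((hP n a σ' ha).2.2.1 h'.1) (hP n a σ' ha).2.1, mul_comm, ← e, mul_comm]

end Pool.Agent.Lib.MP_9cc147_pr.AllU.S.G
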