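import Pool.Agent.Lib.MP_9cc147_pr.U.SDefs

/-! Section S6: one level of repairs has the structure `Lvl`, and the resummation. -/

open Finset
open scoped ENNReal

namespace Pool.Agent.Lib.MP_9cc147_pr.AllU.S.G

open Mono (ra be)

namespace Lvs

variable {n N k : ℕ} {ω σ : St n} {P : Finset (Vx n)}

lemma rep_empty : repF N ω k ∅ = ω := by
  refine St.ext ?_ rfl ?_ ?_
  · funext x
    simp [repF]
  · simp [repF]
  · simp [repF]

lemma ac_zero {a : Pa} (h : ¬ (Dm k P ∧ P.Nonempty)) (σ : St n) : ac a k σ P = 0 := by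
  have : pm a k σ P = 0 := by
    unfold pm
    rw [ENNReal.tsum_eq_zero]
    exact fun ω => if_neg fun c => h ⟨c.2.1.dm, c.2.1.ne⟩
  simp [ac, this]

lemma cf_symm {Q : Finset (Vx n)} (h : cf k P Q) : cf k Q P := by
  rcases h with h | ⟨h1, h2, x, hx, y, hy, h⟩
  · exact Or.inl h.symm
  · exact Or.inr ⟨h2, h1, y, hy, x, hx, by rwa [ds_comm]⟩

lemma om_succ : Om N (k + 1) σ ↔ Om N k σ ∧ fam N (mass N σ) k = ∅ := by
  constructor
  · refine fun h => ⟨h.down (Nat.le_succ k), eq_empty_of_forall_notMem fun P hP => ?_⟩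
    have := h.le (mem_fam.1 hP)
    omega
  · rintro ⟨h, h0⟩
    refine ⟨h.1, Subset.antisymm Mono.rem_sub fun x hx => ?_⟩
    have hx' : x ∈ Rm N (mass N σ) k := h.2 ▸ hx
    refine Mono.mem_rem_succ.2 ⟨hx', fun hi => ?_⟩
    obtain ⟨P, hP, -⟩ := Mono.lv_exists_cl (Mono.mem_lv.2 ⟨hx', hi⟩)
    have : P ∈ fam N (mass N σ) k := mem_fam.2 hP
    rw [h0] at this
    exact notMem_empty _ this

lemma om_zero : Om N 0 σ ↔ Reg N σ := ⟨fun h => h.1, fun h => ⟨h, rfl⟩⟩

lemma om_top : Om N (n + 1) σ ↔ Reg N σ ∧ ∀ x, mass N σ x = 0 := by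
  refine and_congr_right fun _ => ?_
  rw [rm_empty, eq_comm, eq_empty_iff_forall_notMem]
  exact forall_congr' fun x => by rw [mem_sp, not_not]

/-- the repair of a level does not change the state near a set that is far from the clusters -/
lemma agr_far (h : Rep N k ω (fam N (mass N ω) k)) {z : Vx n}
    (hz : ∀ Q ∈ fam N (mass N ω) k, ∀ x ∈ Q, be k < ds x z) :
    Agr N z (200 * ra k) ω (Rk N k ω) := by
  have hc := Mono.chain k
  have far : ∀ Q ∈ fam N (mass N ω) k, ∀ x, ds z x ≤ 200 * ra k + 1 → x ∉ Og N (mass N ω) Q := by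
    intro Q hQ x hx hm
    have h1 := (mem_fam.1 hQ).close (mem_fam.1 hQ).nm hm
    have h2 := hz Q hQ _ (mem_fam.1 hQ).nm
    have h3 := ds_tri (nm Q) x z
    rw [ds_comm x z] at h3
    omega
  refine ⟨rfl, h.sq, fun x hx => ?_, fun j x hx => ?_, fun e he hx => ?_⟩
  · simp only [Rk, repF, mem_union, mem_biUnion]
    exact ⟨fun c => c.elim id fun ⟨Q, hQ, hm⟩ => absurd hm (far Q hQ x (by omega)), Or.inl⟩
  · simp only [Rk, repF, mem_union, mem_image]
    refine ⟨fun c => c.elim id fun ⟨Q, hQ, hm⟩ => ?_, Or.inl⟩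
    have h1 := hz Q hQ _ (mem_fam.1 hQ).nm
    have h2 : nm Q = x := (Prod.ext_iff.1 hm).2
    rw [h2, ds_comm] at h1
    omega
  · refine h.gr_off e he fun Q hQ c => ?_
    have h1 := ds_edge he
    have h2 := ds_tri z e.1 e.2
    exact c.elim (far Q hQ _ (by omega)) (far Q hQ _ (by omega))

end Lvs

open Lvs

theorem lvlSt (hR : RepSt) (hL : LocSt) (hS : SmSt) : LvlSt := by
  intro n a k H
  have hN : 1 ≤ a.N := Nat.one_le_iff_ne_zero.2 fun h => by
    have := H.bN
    rw [h] at this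
    norm_num at this
  have all : ∀ ω : St n, Om a.N k ω → Rep a.N k ω (fam a.N (mass a.N ω) k) := fun ω hω =>
    hR n a.N k ω _ hN hω fun P hP => mem_fam.1 hP
  refine ⟨fun P Q => cf_symm, fun P => Or.inl rfl, fun ω _ P hP Q hQ ne c => ?_,
    fun ω hω P hP => ?_, fun ω _ h0 => ?_, fun σ hσ P hP => ?_⟩
  · rcases c with c | ⟨-, -, x, hx, y, hy, c⟩
    · exact ne c
    · have h1 := mem_fam.1 hP
      have h2 := mem_fam.1 hQ
      have := h1.far hx (h2.rm hy) fun hy' => ne (h1.uniq h2 hy' hy).2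
      omega
  · have h1 := hR n a.N k ω {P} hN hω fun Q hQ => mem_singleton.1 hQ ▸ mem_fam.1 hP
    have e : fam a.N (mass a.N (repF a.N ω k {P})) k = (fam a.N (mass a.N ω) k).erase P := by
      ext Q
      rw [mem_fam, h1.cl, mem_erase, mem_fam, mem_singleton, and_comm]
    refine ⟨h1.om, e, ?_⟩
    rw [Rk, e]
    exact (all ω hω).comp P hP
  · rw [Rk, h0]
    exact rep_empty
  · have e : ac a k (Rk a.N k σ) P = ac a k σ P := by
      by_cases c : Dm k P ∧ P.Nonempty
      · have far : ∀ Q ∈ fam a.N (mass a.N σ) k, ∀ x ∈ Q, ∀ p ∈ P, be k < ds x p :=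
          fun Q hQ x hx p hp => not_le.1 fun h =>
            hP Q hQ (Or.inr ⟨(mem_fam.1 hQ).dm, c.1, x, hx, p, hp, h⟩)
        refine hL n a k σ _ P H hσ (all σ hσ).om
          (agr_far (all σ hσ) fun Q hQ x hx => far Q hQ x hx _ (nm_mem c.2)) fun p hp y hy => ?_
        rw [Rk, (all σ hσ).mass_off y fun Q hQ hm => ?_]
        have := far Q hQ y hm p hp
        rw [ds_comm] at this
        omega
      · rw [ac_zero c, ac_zero c]
    rw [e, ← (hS n a k σ H hσ.1).1 P, pm]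
    refine tsum_congr fun ω => ?_
    by_cases c : Opt a.N k P ω σ
    · rw [if_pos c, if_pos ⟨c.1, mem_fam.2 c.2.1, c.2.2⟩]
    · rw [if_neg c, if_neg fun h => c ⟨h.1, mem_fam.1 h.2.1, h.2.2⟩]

theorem resSt (hL : LvlSt) (hS : SmSt) : ResSt := by
  classical
  intro n a Φ H
  have key := resum_chain (nu (n := n) a) (Om a.N) (Rk a.N) (hk a) (n + 1) (fun k _ Ψ => by
    have h := (hL n a k H).resum (fun σ hσ _ => (hS n a k σ H hσ.1).2) Ψ
    simp only [← om_succ] at h
    exact h) Φ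
  simp only [om_zero, om_top] at key
  refine Eq.trans ?_ (key.trans (tsum_congr fun σ => ?_))
  · rfl
  · rw [nt, ite_mul, zero_mul]

end Pool.Agent.Lib.MP_9cc147_pr.AllU.S.G
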