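import Pool.Agent.Lib.MP_9cc147_pr.U.SDefs

/-! Section S: positivity of the weights, and bad points of true states lie in pins. -/

open Finset
open scoped ENNReal

namespace Pool.Agent.Lib.MP_9cc147_pr.AllU.S.G

namespace Pos

variable {n : ℕ} {a : Pa}

lemma pw_pos {α : Type} [Fintype α] {p : α → ℝ} (h : ∀ x, 0 < p x ∧ p x < 1) (s : Finset α) :
    0 < pw p s := by
  unfold pw
  refine prod_pos fun x _ => ?_
  split_ifs
  · exact (h x).1
  · linarith [(h x).2]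

lemma aa_pos (k : ℕ) : 0 < Mono.aa k := by
  induction k with
  | zero => simp [Mono.aa]
  | succ k ih => rw [Mono.aa]; omega

lemma pF_mem (H : a.H) (k : ℕ) : 0 < pF a k ∧ pF a k < 1 :=
  ⟨by unfold pF; positivity, pow_lt_one₀ (by norm_num) (by norm_num)
    (Nat.mul_pos (HypS.Y1 H) (aa_pos k)).ne'⟩

lemma wS_pos (H : a.H) (k : ℤ) : 0 < wS a k := by
  unfold wS
  split_ifs with h
  · exact sub_pos.2 (HypS.w0_lt H k h)
  · exact (HypS.w_pos H k).1

lemma wS_le (H : a.H) (k : ℤ) : wS a k ≤ a.w k := by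
  unfold wS
  split_ifs
  · linarith [HypS.w0_pos H k]
  · exact le_rfl

lemma wC_pos (H : a.H) (k : ℤ) : 0 < wC a k := by
  unfold wC
  split_ifs
  · linarith [wS_pos H k]
  · exact (HypS.w_pos H k).1

lemma we_pos (H : a.H) {ω : St n} (h : Reg a.N ω) {e : Eg n} (he : e ∈ Ed n) : 0 < we a ω e := by
  unfold we
  split_ifs with h1 h2 h2
  · exact wC_pos H _
  · rw [wC, if_pos (h.cov e he h1 h2)]
    linarith [wS_le H (gr ω.m e), wS_pos H (gr ω.m e)]
  · exact wS_pos H _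
  · exact HypS.w0_pos H _

lemma lab_pos (H : a.H) (ω : St n) :
    0 < pw (fun _ => a.e) ω.mr * pw (fun b : Fin (n + 1) × Vx n => pF a b.1) ω.fl :=
  mul_pos (pw_pos (fun _ => ⟨HypS.e0 H, by linarith [HypS.e1 H]⟩) _)
    (pw_pos (fun b => pF_mem H b.1) _)

end Pos

open Pos in
theorem posSt : PosSt := by
  classical
  intro n a ω H
  refine ⟨?_, ENNReal.ofReal_ne_top, fun h => ?_, pF_mem H, fun A h hA => ?_⟩
  · rcases Nat.eq_zero_or_pos a.N with h | h
    · have := HypS.bN H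
      rw [h] at this
      norm_num at this
    · exact h
  · exact (ENNReal.ofReal_pos.2 (mul_pos (lab_pos H ω) (prod_pos fun e he => we_pos H h he))).ne'
  · have hp : 0 < pw (fun _ => a.e) ω.mr * pw (fun b : Fin (n + 1) × Vx n => pF a b.1) ω.fl *
        ∏ e ∈ (Ed n).filter (fun e => ¬ e.1 ∉ A), we a ω e :=
      mul_pos (lab_pos H ω) (prod_pos fun e he => we_pos H h (mem_filter.1 he).1)
    refine ⟨_, (ENNReal.ofReal_pos.2 hp).ne', ENNReal.ofReal_ne_top, fun ω' hs => ?_⟩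
    have hc : Cls A ω.m ω'.m := ⟨hs.pin, hs.gr⟩
    rw [cw, if_pos hc, ← ENNReal.ofReal_mul hp.le, nu, hs.mr, hs.fl, mul_assoc _ (∏ e ∈ _, _),
      ← prod_filter_not_mul_prod_filter (Ed n) fun e => e.1 ∉ A]
    congr 3
    · refine prod_congr rfl fun e he => ?_
      obtain ⟨h1, h2⟩ := mem_filter.1 he
      simp only [we, hs.mr, hs.S, hs.gr e h1 (not_not.1 h2)]
    · refine prod_congr (by rw [Fr]) fun e he => ?_
      obtain ⟨h1, h2⟩ := mem_filter.1 he
      obtain ⟨h3, h4⟩ := hA e h1 h2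
      simp only [we, hs.mr, hs.S, if_neg h3, if_neg h4, gr]

theorem pinSt : PinSt := by
  intro n N σ hN h h0 e he hA
  have hB : ∀ e ∈ Ed n, e ∉ σ.S → |σ.m e.1 - σ.m e.2| ≤ 10 ^ 6 * N := fun e he hS => by
    by_cases hc : Tc σ.mr e
    · exact h.cov e he hc hS
    · have : ¬ 4 * (N : ℤ) < |gr σ.m e| := fun hl =>
        mass_ne.2 ⟨e, Mono.mem_oe.2 ⟨he, rfl⟩, hc, hS, hl⟩ (h0 e.1)
      unfold gr at this
      omega
  obtain ⟨z, hz⟩ := a0_pin (X := XX N σ) (fl := σ.fl) (p := e.1) hN h.sub hB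
    (fun e he hx => mem_XX.2 (Or.inr ⟨e, Mono.mem_oe.2 ⟨he, rfl⟩, hx⟩))
    (fun x hx => mem_XX.2 (Or.inl hx)) (by
      rcases hA with hA | ⟨s, hA⟩ | ⟨b, h1, h2⟩
      · exact Or.inl hA
      · exact Or.inr (Or.inl ⟨s, by omega⟩)
      · exact Or.inr (Or.inr ⟨b.1, b.2, h1, h2⟩))
  have := ds_tri z e.1 e.2
  have := ds_edge he
  exact ⟨z, by omega, by omega, by omega⟩

end Pool.Agent.Lib.MP_9cc147_pr.AllU.S.G
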