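import Pool.Agent.Lib.MP_9cc147_pr.U.SDefs

/-! Section S: one repair step keeps the structure of a regular state. -/

open Finset

namespace Pool.Agent.Lib.MP_9cc147_pr.AllU.S.G

open Mono (Rem Lv IsCl Par oe ra be tb aa)

namespace Rp

variable {n N k : ℕ} {ω : St n} {F : Finset (Finset (Vx n))} {P Q : Finset (Vx n)}
  {x y : Vx n} {e : Eg n}

lemma mem_oe : e ∈ oe x ↔ e ∈ Ed n ∧ e.1 = x := by simp [Mono.oe]

lemma be_big (k : ℕ) : 1000 ≤ ra k ∧ 1000 * ra k ≤ be k := by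
  have := Mono.chain k; omega

lemma sub_Og (hP : Cl N (mass N ω) k P) (hx : x ∈ P) : x ∈ Og N (mass N ω) P :=
  Og_ball hx (mass_big (hP.pos hx)).le (by simp)

/-- the region of a cluster is far from the other defects -/
lemma far_Og (h : Om N k ω) (hP : Cl N (mass N ω) k P) (hy : y ∈ Og N (mass N ω) P)
    (hx : mass N ω x ≠ 0) (hn : x ∉ P) : be k + 5 < ds y x + 6 * ra k := by
  have h1 := hP.far hP.nm (h.rm hx) hn
  have h2 := hP.close hP.nm hy
  have := ds_tri (nm P) y x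
  omega

/-- the regions of two clusters are far apart -/
lemma far_Og2 (h : Om N k ω) (hP : Cl N (mass N ω) k P) (hQ : Cl N (mass N ω) k Q) (hne : P ≠ Q)
    (hx : x ∈ Og N (mass N ω) P) (hy : y ∈ Og N (mass N ω) Q) :
    be k + 10 < ds x y + 12 * ra k := by
  have h1 := far_Og h hP hx (hQ.pos hQ.nm) fun a => hne (hP.uniq hQ a hQ.nm).2
  have h2 := hQ.close hQ.nm hy
  have := ds_tri x y (nm Q)
  rw [ds_comm y] at this
  omega

lemma not_tc (h : Om N k ω) (hP : Cl N (mass N ω) k P) (hQ : Cl N (mass N ω) k Q) (hne : P ≠ Q)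
    (he : e ∈ Ed n) (ht : Tc (Og N (mass N ω) P) e) : ¬ Tc (Og N (mass N ω) Q) e := by
  intro ht'
  have h1 := ds_edge he
  have h2 := be_big k
  have h3 := ds_comm e.1 e.2
  have h4 := ds_self e.1
  have h5 := ds_self e.2
  rcases ht with a | a <;> rcases ht' with b | b <;> have := far_Og2 h hP hQ hne a b <;> omega

lemma gr_rep (ω : St n) (k : ℕ) (F : Finset (Finset (Vx n))) (e : Eg n) :
    gr (repF N ω k F).m e = gr ω.m e + ∑ P ∈ F, gr (dl N ω P) e := by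
  simp only [gr, repF, sum_sub_distrib]
  ring

lemma tc_rep : Tc (repF N ω k F).mr e ↔ Tc ω.mr e ∨ ∃ P ∈ F, Tc (Og N (mass N ω) P) e := by
  simp only [Tc, repF, mem_union, mem_biUnion]
  constructor
  · rintro ((a | ⟨P, hP, a⟩) | a | ⟨P, hP, a⟩)
    · exact Or.inl (Or.inl a)
    · exact Or.inr ⟨P, hP, Or.inl a⟩
    · exact Or.inl (Or.inr a)
    · exact Or.inr ⟨P, hP, Or.inr a⟩
  · rintro ((a | a) | ⟨P, hP, a | a⟩)
    · exact Or.inl (Or.inl a)
    · exact Or.inr (Or.inl a)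
    · exact Or.inl (Or.inr ⟨P, hP, a⟩)
    · exact Or.inr (Or.inr ⟨P, hP, a⟩)

lemma gr_zero {O : Finset (Vx n)} {G : Finset (Eg n)} {m δ : Vx n → ℤ} (hf : Feas N O G m δ)
    (ht : ¬ Tc O e) : gr δ e = 0 := by
  rw [gr, hf.1 _ fun a => ht (Or.inl a), hf.1 _ fun a => ht (Or.inr a), sub_self]

/-- the data of a repair step -/
structure Ctx (N k : ℕ) (ω : St n) (F : Finset (Finset (Vx n))) : Prop where
  om : Om N k ω
  cl : ∀ P ∈ F, Cl N (mass N ω) k P
  fe : ∀ P ∈ F, Feas N (Og N (mass N ω) P) (Sq N ω) ω.m (dl N ω P)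

namespace Ctx

lemma mono {F' : Finset (Finset (Vx n))} (c : Ctx N k ω F) (h : F' ⊆ F) : Ctx N k ω F' :=
  ⟨c.om, fun P hP => c.cl P (h hP), fun P hP => c.fe P (h hP)⟩

lemma gr_off (c : Ctx N k ω F) (h : ∀ P ∈ F, ¬ Tc (Og N (mass N ω) P) e) :
    gr (repF N ω k F).m e = gr ω.m e := by
  rw [gr_rep, sum_eq_zero fun P hP => gr_zero (c.fe P hP) (h P hP), add_zero]

lemma gr_on (c : Ctx N k ω F) (he : e ∈ Ed n) (hP : P ∈ F) (h : Tc (Og N (mass N ω) P) e) :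
    gr (repF N ω k F).m e = gr ω.m e + gr (dl N ω P) e := by
  rw [gr_rep, sum_eq_single_of_mem P hP fun Q hQ hne =>
    gr_zero (c.fe Q hQ) (not_tc c.om (c.cl P hP) (c.cl Q hQ) hne.symm he h)]

lemma gr_sq (c : Ctx N k ω F) (he : e ∈ Sq N ω) : gr (repF N ω k F).m e = gr ω.m e := by
  have h1 : e ∈ Ed n := plus_sub c.om.1.sub he
  by_cases h : ∃ P ∈ F, Tc (Og N (mass N ω) P) e
  · obtain ⟨P, hP, h⟩ := h
    rw [c.gr_on h1 hP h, ((c.fe P hP).2 e h1 h).1 he, add_zero]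
  · exact c.gr_off fun P hP a => h ⟨P, hP, a⟩

lemma sq (c : Ctx N k ω F) : Sq N (repF N ω k F) = Sq N ω := plus_congr fun _ he => c.gr_sq he

lemma dfe (c : Ctx N k ω F) :
    Dfe N (repF N ω k F) e ↔ Dfe N ω e ∧ ∀ P ∈ F, ¬ Tc (Og N (mass N ω) P) e := by
  unfold Dfe
  rw [tc_rep]
  constructor
  · rintro ⟨a, b, d⟩
    have h : ∀ P ∈ F, ¬ Tc (Og N (mass N ω) P) e := fun P hP t => a (Or.inr ⟨P, hP, t⟩)
    exact ⟨⟨fun t => a (Or.inl t), b, c.gr_off h ▸ d⟩, h⟩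
  · rintro ⟨⟨a, b, d⟩, h⟩
    exact ⟨fun t => t.elim a fun ⟨P, hP, t⟩ => h P hP t, b, (c.gr_off h).symm ▸ d⟩

lemma mass_on (c : Ctx N k ω F) (hP : P ∈ F) (hx : x ∈ P) : mass N (repF N ω k F) x = 0 := by
  by_contra h
  obtain ⟨e, he, hd⟩ := mass_ne.1 h
  exact (c.dfe.1 hd).2 P hP (Or.inl ((mem_oe.1 he).2 ▸ sub_Og (c.cl P hP) hx))

lemma mass_off (c : Ctx N k ω F) (hx : ∀ P ∈ F, x ∉ P) :
    mass N (repF N ω k F) x = mass N ω x := by
  classical
  unfold mass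
  refine sum_congr rfl fun e he => ?_
  by_cases hd : Dfe N ω e
  · have h1 := mem_oe.1 he
    have h : ∀ P ∈ F, ¬ Tc (Og N (mass N ω) P) e := fun P hP t => by
      have h2 := ds_edge h1.1
      have h3 := be_big k
      have h4 := ds_comm e.1 e.2
      rw [h1.2] at h2 h4
      rcases t with a | a <;>
        have := far_Og c.om (c.cl P hP) a (mass_ne.2 ⟨e, he, hd⟩) (hx P hP)
      · rw [h1.2, ds_self] at this
        omega
      · omega
    rw [if_pos hd, if_pos (c.dfe.2 ⟨hd, h⟩), c.gr_off h]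
  · rw [if_neg hd, if_neg fun a => hd (c.dfe.1 a).1]

lemma notMem_U : x ∉ F.biUnion id ↔ ∀ P ∈ F, x ∉ P := by simp

lemma sp_eq (c : Ctx N k ω F) : sp (mass N (repF N ω k F)) = sp (mass N ω) \ F.biUnion id := by
  ext x
  rw [mem_sdiff, mem_sp, mem_sp, notMem_U]
  constructor
  · intro a
    have h : ∀ P ∈ F, x ∉ P := fun P hP hx => a (c.mass_on hP hx)
    exact ⟨c.mass_off h ▸ a, h⟩
  · exact fun a => (c.mass_off a.2).symm ▸ a.1

lemma ok (c : Ctx N k ω F) (j : ℕ) (C : Finset (Vx n)) (hC : C ⊆ sp (mass N ω) \ F.biUnion id) :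
    okM N (mass N (repF N ω k F)) j C ↔ okM N (mass N ω) j C := by
  unfold okM
  rw [sum_congr rfl fun x hx => c.mass_off (notMem_U.1 (mem_sdiff.1 (hC hx)).2)]

lemma rm (c : Ctx N k ω F) (j : ℕ) :
    Rm N (mass N (repF N ω k F)) j = Rm N (mass N ω) j \ F.biUnion id := by
  unfold Rm
  rw [c.sp_eq]
  exact rem_sdiff par_rb (sat_biUnion c.cl) c.ok j

lemma lm (c : Ctx N k ω F) {j : ℕ} :
    x ∈ Lm N (mass N (repF N ω k F)) j ↔ x ∈ Lm N (mass N ω) j ∧ ∀ P ∈ F, x ∉ P := by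
  unfold Lm
  rw [c.sp_eq, lv_sdiff par_rb (sat_biUnion c.cl) c.ok j, mem_sdiff, notMem_U]

lemma cl_iff (c : Ctx N k ω F) {j : ℕ} :
    Cl N (mass N (repF N ω k F)) j P ↔ Cl N (mass N ω) j P ∧ P ∉ F := by
  unfold Cl
  rw [c.sp_eq, isCl_sdiff par_rb (sat_biUnion c.cl) c.ok]
  refine and_congr_right fun hP => ⟨fun hd hF => ?_, fun hF => disjoint_left.2 fun a ha hb => ?_⟩
  · obtain ⟨a, ha⟩ := hP.nonempty
    exact disjoint_left.1 hd ha (mem_biUnion.2 ⟨P, hF, ha⟩)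
  · obtain ⟨Q, hQ, h⟩ := mem_biUnion.1 hb
    exact hF ((Cl.uniq hP (c.cl Q hQ) ha h).2 ▸ hQ)

/-- the regions of the remaining clusters do not change -/
lemma Og_eq (c : Ctx N k ω F) {j : ℕ} (hP : Cl N (mass N ω) j P) (hF : P ∉ F) :
    Og N (mass N (repF N ω k F)) P = Og N (mass N ω) P :=
  Og_congr fun _ hp => c.mass_off fun Q hQ a => hF ((hP.uniq (c.cl Q hQ) hp a).2 ▸ hQ)

lemma reg (c : Ctx N k ω F) : Reg N (repF N ω k F) := by
  have r := c.om.1
  refine ⟨by simp [repF, r.pin], r.sub, fun e he ht hS => ?_, fun p hp => ?_,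
    fun j p hp s hs => le_trans (Nat.mul_le_mul_left _ (card_le_card fun y hy => ?_))
      (r.few j p (c.lm.1 hp).1 s hs)⟩
  · by_cases h : ∃ P ∈ F, Tc (Og N (mass N ω) P) e
    · obtain ⟨P, hP, h⟩ := h
      by_cases hq : e ∈ Sq N ω
      · rw [c.gr_sq hq]
        by_cases hm : Tc ω.mr e
        · exact r.cov e he hm hS
        · by_contra hb
          have hd : Dfe N ω e := ⟨hm, hS, by omega⟩
          exact r.good e.1 (mass_ne.2 ⟨e, mem_oe.2 ⟨he, rfl⟩, hd⟩) (tbad_edge he hq)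
      · rw [c.gr_on he hP h]
        exact ((c.fe P hP).2 e he h).2 hq
    · rw [c.gr_off fun P hP a => h ⟨P, hP, a⟩]
      exact r.cov e he ((tc_rep.1 ht).resolve_right h) hS
  · rw [c.sq]
    exact r.good p (c.mass_off (fun P hP hx => hp (c.mass_on hP hx)) ▸ hp)
  · obtain ⟨h1, h2⟩ := c.lm.1 hp
    rw [mem_filter, mem_union] at hy ⊢
    refine ⟨?_, hy.2⟩
    rcases hy.1 with a | a
    · rcases mem_union.1 a with a | a
      · exact Or.inl a
      · obtain ⟨P, hP, a⟩ := mem_biUnion.1 a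
        have h3 : mass N ω p ≠ 0 := mem_sp.1 (Mono.rem_sub (Mono.lv_rem h1))
        rcases (Mono.lv_le (c.om.rm h3) h1).eq_or_lt with rfl | hk
        · have := far_Og c.om (c.cl P hP) a h3 (h2 P hP)
          have h4 := be_big k
          have h5 := hy.2
          rw [ds_comm] at h5
          omega
        · exact Or.inr (mem_low.2 ⟨k, hk, P, c.cl P hP, a⟩)
    · obtain ⟨i, hi, Q, hQ, a⟩ := mem_low.1 a
      obtain ⟨q1, q2⟩ := c.cl_iff.1 hQ
      exact Or.inr (mem_low.2 ⟨i, hi, Q, q1, c.Og_eq q1 q2 ▸ a⟩)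

lemma om' (c : Ctx N k ω F) : Om N k (repF N ω k F) := ⟨c.reg, by rw [c.rm, c.sp_eq, c.om.2]⟩

lemma om1 (c : Ctx N k ω F) (hF : F = fam N (mass N ω) k) : Om N (k + 1) (repF N ω k F) := by
  refine ⟨c.reg, ?_⟩
  rw [c.rm, c.sp_eq, ← c.om.2]
  ext x
  rw [mem_sdiff, mem_sdiff]
  refine and_congr_left fun hx => ⟨fun a => Mono.rem_anti (Nat.le_succ k) a, fun a => ?_⟩
  by_contra hb
  obtain ⟨P, hP, h⟩ := Mono.lv_exists_cl (mem_sdiff.2 ⟨a, hb⟩)
  exact notMem_U.1 hx P (hF ▸ mem_fam.2 hP) h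

/-- the increments of the remaining clusters do not change -/
lemma dl_eq (c : Ctx N k ω F) (hQ : Cl N (mass N ω) k Q) (hF : Q ∉ F) :
    dl N (repF N ω k F) Q = dl N ω Q := by
  unfold dl
  rw [c.Og_eq hQ hF, c.sq]
  congr 1
  funext δ
  refine propext (and_congr_right fun _ => forall₂_congr fun e he => imp_congr_right fun ht => ?_)
  rw [c.gr_off fun P hP => not_tc c.om hQ (c.cl P hP) (fun a => hF (a ▸ hP)) he ht]

lemma comp (c : Ctx N k ω F) (hP : P ∈ F) :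
    repF N (repF N ω k {P}) k (F.erase P) = repF N ω k F := by
  have c1 : Ctx N k ω {P} := c.mono (singleton_subset_iff.2 hP)
  have h1 : ∀ Q ∈ F.erase P, Cl N (mass N ω) k Q ∧ Q ∉ ({P} : Finset (Finset (Vx n))) :=
    fun Q hQ => ⟨c.cl Q (mem_of_mem_erase hQ), notMem_singleton.2 (ne_of_mem_erase hQ)⟩
  have h2 : ∀ x, ∑ Q ∈ F.erase P, dl N (repF N ω k {P}) Q x = ∑ Q ∈ F.erase P, dl N ω Q x :=
    fun x => sum_congr rfl fun Q hQ => by rw [c1.dl_eq (h1 Q hQ).1 (h1 Q hQ).2]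
  refine St.ext (funext fun x => ?_) rfl ?_ ?_
  · change (repF N ω k {P}).m x + _ - _ = _
    rw [h2, h2]
    simp only [repF, sum_singleton]
    rw [← add_sum_erase F _ hP, ← add_sum_erase F (fun Q => dl N ω Q (vz n)) hP]
    ring
  · change (repF N ω k {P}).mr ∪ _ = _
    rw [biUnion_congr rfl fun Q hQ => c1.Og_eq (h1 Q hQ).1 (h1 Q hQ).2]
    simp only [repF, singleton_biUnion]
    rw [union_assoc, ← biUnion_insert, insert_erase hP]
  · simp only [repF, image_singleton]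
    rw [union_assoc, ← insert_eq, ← image_insert (fun P => (fk n k, nm P)), insert_erase hP]

lemma keep (c : Ctx N k ω F) (h0 : vz n ∉ (repF N ω k F).mr) (h1 : vl n ∉ (repF N ω k F).mr) :
    (repF N ω k F).m (vl n) = ω.m (vl n) := by
  have h : ∀ x, x ∉ (repF N ω k F).mr → ∑ P ∈ F, dl N ω P x = 0 := fun x hx =>
    sum_eq_zero fun P hP => (c.fe P hP).1 x fun a =>
      hx (mem_union_right _ (mem_biUnion.2 ⟨P, hP, a⟩))
  change ω.m (vl n) + _ - _ = _
  rw [h _ h0, h _ h1, add_zero, sub_zero]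

end Ctx

lemma ctx (hF : FeasSt) (hN : 1 ≤ N) (h : Om N k ω) (hc : ∀ P ∈ F, Cl N (mass N ω) k P) :
    Ctx N k ω F := ⟨h, hc, fun P hP => hF n N k ω P hN h (hc P hP)⟩

end Rp

theorem repSt : FeasSt → RepSt := by
  intro hF n N k ω F hN h hc
  have c := Rp.ctx hF hN h hc
  exact ⟨fun _ _ h => c.gr_off h, fun _ he _ hP h => c.gr_on he hP h, c.sq,
    fun _ hP _ hx => c.mass_on hP hx, fun _ hx => c.mass_off hx, fun _ _ => c.lm,
    fun _ _ => c.cl_iff, c.om', c.om1, fun _ hP => c.comp hP, c.keep⟩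

end Pool.Agent.Lib.MP_9cc147_pr.AllU.S.G
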