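import Pool.Agent.Lib.MP_9cc147_pr.U.SDefs

/-! Section S: a level of repairs is local. -/

open Finset

namespace Pool.Agent.Lib.MP_9cc147_pr.AllU.S.G

open Mono (ra be oe)

namespace Rlo

variable {n N k r : ℕ} {z x : Vx n} {ω ω' : St n} {P : Finset (Vx n)}

lemma symm (A : Agr N z r ω ω') : Agr N z r ω' ω :=
  ⟨A.S.symm, A.sq.symm, fun x h => (A.mr x h).symm, fun k x h => (A.fl k x h).symm,
    fun e he h => (A.gr e he h).symm⟩

lemma mass_eq (A : Agr N z r ω ω') (hx : ds z x + 1 ≤ r) : mass N ω' x = mass N ω x := by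
  classical
  unfold mass
  refine sum_congr rfl fun e he => ?_
  obtain ⟨h1, h2⟩ := mem_filter.1 he
  have d := ds_edge h1
  have t := ds_tri z e.1 e.2
  rw [← h2] at hx
  have g := A.gr e h1 (by omega)
  have : Dfe N ω' e ↔ Dfe N ω e := by
    unfold Dfe Tc
    rw [A.mr e.1 (by omega), A.mr e.2 (by omega), A.S, g]
  rw [g]
  simp only [this]

/-- a cluster near `z` is common to both states, with the same region and the same repair -/
lemma key (h : Om N k ω) (h' : Om N k ω') (A : Agr N z (r + 3 * be k) ω ω')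
    (hP : Cl N (mass N ω) k P) (hd : ds z (nm P) ≤ r + 6 * ra k) :
    Cl N (mass N ω') k P ∧ Og N (mass N ω') P = Og N (mass N ω) P ∧ dl N ω' P = dl N ω P := by
  have c := Mono.chain k
  have hO : Og N (mass N ω') P = Og N (mass N ω) P := Og_congr fun p hp => by
    have := hP.dm _ hP.nm p hp
    have := ds_tri z (nm P) p
    exact mass_eq A (by omega)
  refine ⟨isCl_local' (z := z) (r := r + 2 * be k) par_rb h.2 h'.2 (fun y hy => ?_)
    (fun C _ hC => ?_) hP hP.nm (by omega), hO, ?_⟩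
  · rw [mem_sp, mem_sp, mass_eq A (by omega)]
  · unfold okM
    rw [sum_congr rfl fun y hy => mass_eq A (by have := hC y hy; omega)]
  · unfold dl
    rw [hO, A.sq]
    congr 1
    funext δ
    unfold Feas
    refine propext (and_congr_right fun _ => forall_congr' fun e => forall_congr' fun he =>
      forall_congr' fun ht => ?_)
    have d := ds_edge he
    have c1 := ds_comm e.1 e.2
    rw [A.gr e he ?_]
    rcases ht with ht | ht
    · have := hP.close hP.nm ht
      have := ds_tri z (nm P) e.1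
      omega
    · have := hP.close hP.nm ht
      have := ds_tri z (nm P) e.2
      have := ds_tri z e.2 e.1
      omega

lemma near (hP : Cl N (mass N ω) k P) (hx : x ∈ Og N (mass N ω) P) (hd : ds z x ≤ r + 1) :
    ds z (nm P) ≤ r + 6 * ra k := by
  have := hP.close hP.nm hx
  have := ds_tri z x (nm P)
  have := ds_comm x (nm P)
  omega

lemma mr_imp (h : Om N k ω) (h' : Om N k ω') (A : Agr N z (r + 3 * be k) ω ω') (hx : ds z x ≤ r)
    (hm : x ∈ (Rk N k ω).mr) : x ∈ (Rk N k ω').mr := by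
  rcases mem_union.1 hm with hm | hm
  · exact mem_union_left _ ((A.mr x (by omega)).2 hm)
  · obtain ⟨P, hP, hO⟩ := mem_biUnion.1 hm
    obtain ⟨k1, k2, -⟩ := key h h' A (mem_fam.1 hP) (near (mem_fam.1 hP) hO (by omega))
    exact mem_union_right _ (mem_biUnion.2 ⟨P, mem_fam.2 k1, k2 ▸ hO⟩)

lemma fl_imp (h : Om N k ω) (h' : Om N k ω') (A : Agr N z (r + 3 * be k) ω ω') (hx : ds z x ≤ r)
    {j : Fin (n + 1)} (hm : (j, x) ∈ (Rk N k ω).fl) : (j, x) ∈ (Rk N k ω').fl := by
  rcases mem_union.1 hm with hm | hm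
  · exact mem_union_left _ ((A.fl j x (by omega)).2 hm)
  · obtain ⟨P, hP, e⟩ := mem_image.1 hm
    have e2 : nm P = x := congrArg Prod.snd e
    exact mem_union_right _
      (mem_image.2 ⟨P, mem_fam.2 (key h h' A (mem_fam.1 hP) (by rw [e2]; omega)).1, e⟩)

lemma touch (h : Om N k ω) (h' : Om N k ω') (A : Agr N z (r + 3 * be k) ω ω') {e : Eg n}
    (he : e ∈ Ed n) (hd : ds z e.1 ≤ r) (hP : P ∈ fam N (mass N ω) k)
    (ht : Tc (Og N (mass N ω) P) e) :
    P ∈ fam N (mass N ω') k ∧ Tc (Og N (mass N ω') P) e ∧ dl N ω' P = dl N ω P := by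
  have d := ds_edge he
  have t := ds_tri z e.1 e.2
  obtain ⟨k1, k2, k3⟩ := key h h' A (mem_fam.1 hP) (ht.elim
    (fun ht => near (mem_fam.1 hP) ht (by omega)) fun ht => near (mem_fam.1 hP) ht (by omega))
  exact ⟨mem_fam.2 k1, k2 ▸ ht, k3⟩

end Rlo

open Rlo in
theorem rlocSt : FeasSt → RepSt → RlocSt := by
  intro _ hR n N k r z ω ω' hN h h' A
  have R := hR n N k ω _ hN h fun P hP => mem_fam.1 hP
  have R' := hR n N k ω' _ hN h' fun P hP => mem_fam.1 hP
  refine ⟨A.S, R'.sq.trans (A.sq.trans R.sq.symm),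
    fun x hx => ⟨mr_imp h' h (symm A) hx, mr_imp h h' A hx⟩,
    fun j x hx => ⟨fl_imp h' h (symm A) hx, fl_imp h h' A hx⟩, fun e he hd => ?_⟩
  have g := A.gr e he (by omega)
  unfold Rk
  by_cases hc : ∃ P ∈ fam N (mass N ω) k, Tc (Og N (mass N ω) P) e
  · obtain ⟨P, hP, ht⟩ := hc
    obtain ⟨k1, k2, k3⟩ := touch h h' A he hd hP ht
    rw [R.gr_on e he P hP ht, R'.gr_on e he P k1 k2, g, k3]
  · rw [R.gr_off e he fun P hP ht => hc ⟨P, hP, ht⟩, R'.gr_off e he fun P hP ht => ?_, g]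
    obtain ⟨k1, k2, -⟩ := touch h' h (symm A) he hd hP ht
    exact hc ⟨P, k1, k2⟩

end Pool.Agent.Lib.MP_9cc147_pr.AllU.S.G
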