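import Pool.Agent.Lib.MP_9cc147_pr.U.Defs

/-! Section S: edge labels and marks; true states carry the Gibbs measure. -/

open Finset
open scoped ENNReal

namespace Pool.Agent.Lib.MP_9cc147_pr.AllU.S

variable {n : ℕ}

noncomputable def wS (w w0 : ℤ → ℝ) (N : ℕ) (k : ℤ) : ℝ := w k - if |k| ≤ 4 * N then w0 k else 0

noncomputable def wSc (w w0 : ℤ → ℝ) (N : ℕ) (k : ℤ) : ℝ :=
  if |k| ≤ 10 ^ 6 * N then wS w w0 N k / 2 else w k

open Classical in
/-- edge weight: `cov` covered, `s` labelled -/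
noncomputable def ew (w w0 : ℤ → ℝ) (N : ℕ) (cov s : Prop) (k : ℤ) : ℝ :=
  if cov then (if s then wSc w w0 N k else w k - wSc w w0 N k)
  else (if s then wS w w0 N k else w0 k)

/-- covered edge -/
def Cvd (M : Finset (Vx n)) (g : Vx n × Vx n) : Prop := g.1 ∈ M ∨ g.2 ∈ M

/-- defect edge -/
def Dfe (N : ℕ) (m : Vx n → ℤ) (S : Finset (Vx n × Vx n)) (M : Finset (Vx n))
    (g : Vx n × Vx n) : Prop :=
  g ∈ Ed n ∧ ¬ Cvd M g ∧ g ∉ S ∧ 4 * (N : ℤ) < |m g.1 - m g.2|

/-- no defect -/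
def Tru (N : ℕ) (m : Vx n → ℤ) (S : Finset (Vx n × Vx n)) (M : Finset (Vx n)) : Prop :=
  ∀ g, ¬ Dfe N m S M g

open Classical in
/-- marked, or an outgoing edge is labelled or steep -/
noncomputable def XX (N : ℕ) (m : Vx n → ℤ) (S : Finset (Vx n × Vx n)) (M : Finset (Vx n)) :
    Finset (Vx n) :=
  univ.filter fun x => x ∈ M ∨ ∃ g ∈ Ed n, g.1 = x ∧ (g ∈ S ∨ (N : ℤ) < |m g.1 - m g.2|)

/-- heights, labelled edges, marks -/
abbrev T3 (n : ℕ) := (Vx n → ℤ) × Finset (Vx n × Vx n) × Finset (Vx n)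

/-- weight of marks and edges -/
noncomputable def wt3 (w w0 : ℤ → ℝ) (N : ℕ) (e : ℝ) (m : Vx n → ℤ) (S : Finset (Vx n × Vx n))
    (M : Finset (Vx n)) : ℝ :=
  pw (fun _ => e) M * ∏ g ∈ Ed n, ew w w0 N (Cvd M g) (g ∈ S) (m g.1 - m g.2)

open Classical in
/-- weight of true states -/
noncomputable def nuT (w w0 : ℤ → ℝ) (N : ℕ) (e : ℝ) (ω : T3 n) : ℝ≥0∞ :=
  if ω.1 (vz n) = 0 ∧ ω.2.1 ⊆ Ed n ∧ Tru N ω.1 ω.2.1 ω.2.2 then
    ENNReal.ofReal (wt3 w w0 N e ω.1 ω.2.1 ω.2.2) else 0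

variable {w w0 : ℤ → ℝ} {N Y : ℕ} {β e ε w1 S : ℝ}

lemma wS_pos (H : HypS w w0 N Y β e ε w1 S) (k : ℤ) : 0 < wS w w0 N k := by
  unfold wS
  split_ifs with h
  · linarith [H.w0_lt k h]
  · linarith [(H.w_pos k).1]

lemma wS_le (H : HypS w w0 N Y β e ε w1 S) (k : ℤ) : wS w w0 N k ≤ w k := by
  unfold wS
  split_ifs with h
  · linarith [H.w0_pos k]
  · linarith

lemma wSc_pos (H : HypS w w0 N Y β e ε w1 S) (k : ℤ) : 0 < wSc w w0 N k := by
  unfold wSc
  split_ifs with h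
  · linarith [wS_pos H k]
  · exact (H.w_pos k).1

lemma wSc_le (H : HypS w w0 N Y β e ε w1 S) (k : ℤ) : wSc w w0 N k ≤ w k := by
  unfold wSc
  split_ifs with h
  · linarith [wS_pos H k, wS_le H k]
  · exact le_rfl

lemma wSc_le_wS (H : HypS w w0 N Y β e ε w1 S) (k : ℤ) : wSc w w0 N k ≤ wS w w0 N k := by
  unfold wSc
  split_ifs with h
  · linarith [wS_pos H k]
  · rw [wS, if_neg (by omega), sub_zero]

lemma wS_le_wSc (H : HypS w w0 N Y β e ε w1 S) (k : ℤ) : wS w w0 N k ≤ 2 * wSc w w0 N k := by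
  unfold wSc
  split_ifs with h
  · linarith
  · linarith [wS_le H k, (H.w_pos k).1]

lemma half_le (H : HypS w w0 N Y β e ε w1 S) {k : ℤ} (h : |k| ≤ 10 ^ 6 * N) :
    w k / 2 ≤ w k - wSc w w0 N k := by
  rw [wSc, if_pos h]
  linarith [wS_le H k]

lemma ew_nonneg (H : HypS w w0 N Y β e ε w1 S) (cov s : Prop) (k : ℤ) :
    0 ≤ ew w w0 N cov s k := by
  unfold ew
  split_ifs
  · exact (wSc_pos H k).le
  · linarith [wSc_le H k]
  · exact (wS_pos H k).le
  · exact (H.w0_pos k).le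

lemma ew_pos (H : HypS w w0 N Y β e ε w1 S) {cov s : Prop} {k : ℤ}
    (h : cov → ¬ s → |k| ≤ 10 ^ 6 * N) : 0 < ew w w0 N cov s k := by
  unfold ew
  split_ifs with a b
  · exact wSc_pos H k
  · linarith [half_le H (h a b), (H.w_pos k).1]
  · exact wS_pos H k
  · exact H.w0_pos k

lemma ew_zero {cov s : Prop} {k : ℤ} (a : cov) (b : ¬ s) (h : 10 ^ 6 * (N : ℤ) < |k|) :
    ew w w0 N cov s k = 0 := by
  rw [ew, if_pos a, if_neg b, wSc, if_neg (by omega), sub_self]

lemma ew_free {cov s : Prop} (a : ¬ cov) (b : ¬ s) (k : ℤ) : ew w w0 N cov s k = w0 k := by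
  rw [ew, if_neg a, if_neg b]

lemma ew_congr {cov cov' s s' : Prop} (a : cov ↔ cov') (b : s ↔ s') (k : ℤ) :
    ew w w0 N cov s k = ew w w0 N cov' s' k := by
  rw [propext a, propext b]

lemma pw_pos {α : Type} [Fintype α] {p : α → ℝ} (h : ∀ a, 0 < p a ∧ p a < 1) (s : Finset α) :
    0 < pw p s := by
  unfold pw
  refine prod_pos fun a _ => ?_
  split_ifs
  · exact (h a).1
  · linarith [(h a).2]

lemma pwe_pos (H : HypS w w0 N Y β e ε w1 S) (M : Finset (Vx n)) : 0 < pw (fun _ => e) M :=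
  pw_pos (fun _ => ⟨H.e0, by linarith [H.e1]⟩) M

namespace Lb

lemma pw_eq {α : Type} [Fintype α] [DecidableEq α] (p : α → ℝ) (s : Finset α) :
    pw p s = ∏ a, if a ∈ s then p a else 1 - p a := by
  unfold pw
  congr!

lemma sum_ite {α : Type} [Fintype α] [DecidableEq α] (f g : α → ℝ) :
    ∑ s : Finset α, ∏ a, (if a ∈ s then f a else g a) = ∏ a, (f a + g a) := by
  rw [Fintype.prod_add]
  refine sum_congr rfl fun s _ => ?_
  rw [prod_ite]
  congr 2 <;> ext a <;> simp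

lemma sum_pow {α : Type} [DecidableEq α] (E : Finset α) (a b : α → ℝ) :
    ∑ s ∈ E.powerset, ∏ g ∈ E, (if g ∈ s then a g else b g) = ∏ g ∈ E, (a g + b g) := by
  rw [prod_add]
  refine sum_congr rfl fun s hs => ?_
  rw [prod_ite, filter_mem_eq_inter, inter_eq_right.2 (mem_powerset.1 hs), sdiff_eq_filter]

lemma out_card (x : Vx n) : ((Ed n).filter fun g => g.1 = x).card ≤ 2 := by
  have : ((Ed n).filter fun g => g.1 = x).card ≤ (univ : Finset Bool).card := by
    refine card_le_card_of_injOn (fun g => decide (g.2.1.val = g.1.1.val)) (fun _ _ => mem_coe.2 (mem_univ _)) ?_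
    intro g hg g' hg' h
    simp only [coe_filter, Set.mem_setOf_eq, mem_Ed] at hg hg'
    simp only [decide_eq_decide] at h
    have a1 : g.1 = g'.1 := hg.2.trans hg'.2.symm
    have a2 := hg.1
    have a3 := hg'.1
    rw [a1] at a2 h
    refine Prod.ext a1 (Prod.ext (Fin.ext ?_) (Fin.ext ?_)) <;> omega
  simpa using this

open Classical in
lemma hit (hε : 0 ≤ ε) (a : Vx n × Vx n → ℝ) (ha : ∀ g, 0 ≤ a g) (E : Finset (Vx n)) :
    ∀ b : Vx n × Vx n → ℝ, (∀ g, 0 ≤ b g) → (∀ g ∈ Ed n, g.1 ∈ E → a g ≤ ε * (a g + b g)) →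
      ∑ s ∈ (Ed n).powerset, (if ∀ x ∈ E, ∃ g ∈ Ed n, g.1 = x ∧ g ∈ s then
        ∏ g ∈ Ed n, (if g ∈ s then a g else b g) else 0) ≤
      (2 * ε) ^ E.card * ∏ g ∈ Ed n, (a g + b g) := by
  induction E using Finset.induction_on with
  | empty =>
    intro b _ _
    simp only [notMem_empty, false_imp_iff, implies_true, if_true, card_empty, pow_zero, one_mul]
    exact (sum_pow _ a b).le
  | insert x E hx ih =>
    intro b hb h
    have p0 : ∀ (c : Vx n × Vx n → ℝ), (∀ g, 0 ≤ c g) → ∀ s : Finset (Vx n × Vx n),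
        0 ≤ ∏ g ∈ Ed n, (if g ∈ s then a g else c g) := fun c hc s =>
      prod_nonneg fun g _ => by split_ifs; exacts [ha g, hc g]
    have u0 : ∀ g0 g, 0 ≤ Function.update b g0 0 g := fun g0 g => by
      rw [Function.update_apply]; split_ifs; exacts [le_rfl, hb g]
    have a1 : ∀ s ∈ (Ed n).powerset, (if ∀ y ∈ insert x E, ∃ g ∈ Ed n, g.1 = y ∧ g ∈ s then
        ∏ g ∈ Ed n, (if g ∈ s then a g else b g) else 0) ≤
        ∑ g0 ∈ (Ed n).filter fun g => g.1 = x, (if ∀ y ∈ E, ∃ g ∈ Ed n, g.1 = y ∧ g ∈ s then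
          ∏ g ∈ Ed n, (if g ∈ s then a g else Function.update b g0 0 g) else 0) := by
      intro s _
      have q0 : ∀ g0 ∈ (Ed n).filter fun g => g.1 = x, 0 ≤ (if ∀ y ∈ E, ∃ g ∈ Ed n, g.1 = y ∧ g ∈ s
          then ∏ g ∈ Ed n, (if g ∈ s then a g else Function.update b g0 0 g) else 0) :=
        fun g0 _ => by split_ifs; exacts [p0 _ (u0 g0) s, le_rfl]
      by_cases c : ∀ y ∈ insert x E, ∃ g ∈ Ed n, g.1 = y ∧ g ∈ s
      · obtain ⟨g0, h1, h2, h3⟩ := c x (mem_insert_self _ _)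
        refine le_trans (le_of_eq ?_) (single_le_sum q0 (mem_filter.2 ⟨h1, h2⟩))
        rw [if_pos c, if_pos fun y hy => c y (mem_insert_of_mem hy)]
        refine prod_congr rfl fun g _ => ?_
        by_cases d : g ∈ s
        · rw [if_pos d, if_pos d]
        · rw [if_neg d, if_neg d, Function.update_of_ne fun q : g = g0 => d (q ▸ h3)]
      · rw [if_neg c]
        exact sum_nonneg q0
    refine (sum_le_sum a1).trans ?_
    rw [sum_comm]
    have P0 : 0 ≤ ∏ g ∈ Ed n, (a g + b g) := prod_nonneg fun g _ => add_nonneg (ha g) (hb g)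
    refine (sum_le_card_nsmul _ _ ((2 * ε) ^ E.card * (ε * ∏ g ∈ Ed n, (a g + b g)))
      fun g0 hg => ?_).trans ?_
    · obtain ⟨h1, h2⟩ := mem_filter.1 hg
      refine (ih _ (u0 g0) fun g hg hE => ?_).trans (mul_le_mul_of_nonneg_left ?_ (by positivity))
      · rw [Function.update_of_ne fun q => hx (by rw [← h2, ← q]; exact hE)]
        exact h g hg (mem_insert_of_mem hE)
      · rw [← mul_prod_erase _ _ h1, ← mul_prod_erase _ _ h1, Function.update_self, add_zero,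
          ← mul_assoc, prod_congr rfl fun g hg => by
            rw [Function.update_of_ne (ne_of_mem_erase hg)]]
        exact mul_le_mul_of_nonneg_right (h g0 h1 (h2 ▸ mem_insert_self _ _))
          (prod_nonneg fun g _ => add_nonneg (ha g) (hb g))
    · rw [card_insert_of_notMem hx, nsmul_eq_mul, pow_succ]
      have c2 : ((((Ed n).filter fun g => g.1 = x).card : ℕ) : ℝ) ≤ 2 := by
        exact_mod_cast out_card x
      have : 0 ≤ (2 * ε) ^ E.card * (ε * ∏ g ∈ Ed n, (a g + b g)) := by positivity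
      nlinarith

/-- weight of a labelled edge -/
noncomputable def ea (w w0 : ℤ → ℝ) (N : ℕ) (m : Vx n → ℤ) (M : Finset (Vx n))
    (g : Vx n × Vx n) : ℝ := ew w w0 N (Cvd M g) True (m g.1 - m g.2)

open Classical in
/-- weight of an unlabelled edge that is not a defect -/
noncomputable def eb (w w0 : ℤ → ℝ) (N : ℕ) (m : Vx n → ℤ) (M : Finset (Vx n))
    (g : Vx n × Vx n) : ℝ :=
  if ¬ Cvd M g ∧ 4 * (N : ℤ) < |m g.1 - m g.2| then 0 else ew w w0 N (Cvd M g) False (m g.1 - m g.2)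

lemma ea_eb (m : Vx n → ℤ) (M : Finset (Vx n)) (g : Vx n × Vx n) :
    ea w w0 N m M g + eb w w0 N m M g = w (m g.1 - m g.2) := by
  unfold ea eb ew wS
  by_cases a : Cvd M g
  · simp [a]
  · by_cases b : |m g.1 - m g.2| ≤ 4 * (N : ℤ)
    · simp [a, b, not_lt.2 b]
    · simp [a, b, not_le.1 b]

lemma eb_nonneg (H : HypS w w0 N Y β e ε w1 S) (m : Vx n → ℤ) (M : Finset (Vx n))
    (g : Vx n × Vx n) : 0 ≤ eb w w0 N m M g := by
  unfold eb
  split_ifs
  · exact le_rfl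
  · exact ew_nonneg H _ _ _

lemma ea_small (H : HypS w w0 N Y β e ε w1 S) (m : Vx n → ℤ) (M : Finset (Vx n))
    {g : Vx n × Vx n} (h : |m g.1 - m g.2| ≤ N) : ea w w0 N m M g ≤ ε * w (m g.1 - m g.2) := by
  have a1 : wS w w0 N (m g.1 - m g.2) ≤ ε * w (m g.1 - m g.2) := by
    rw [wS, if_pos (by omega)]
    linarith [H.w0_ge _ h]
  unfold ea ew
  simp only [if_true]
  split_ifs
  · exact (wSc_le_wS H _).trans a1
  · exact a1

/-- real form of the weight -/
noncomputable def rw3 (w w0 : ℤ → ℝ) (N : ℕ) (m : Vx n → ℤ) (s : Finset (Vx n × Vx n))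
    (M : Finset (Vx n)) : ℝ := ∏ g ∈ Ed n, if g ∈ s then ea w w0 N m M g else eb w w0 N m M g

lemma rw3_nonneg (H : HypS w w0 N Y β e ε w1 S) (m : Vx n → ℤ) (s : Finset (Vx n × Vx n))
    (M : Finset (Vx n)) : 0 ≤ rw3 w w0 N m s M :=
  prod_nonneg fun g _ => by split_ifs; exacts [ew_nonneg H _ _ _, eb_nonneg H _ _ _]

lemma nuT_eq (m : Vx n → ℤ) (s : Finset (Vx n × Vx n)) (M : Finset (Vx n)) :
    nuT w w0 N e (m, s, M) = if m (vz n) = 0 ∧ s ⊆ Ed n then
      ENNReal.ofReal (pw (fun _ => e) M * rw3 w w0 N m s M) else 0 := by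
  unfold nuT
  by_cases a : m (vz n) = 0 ∧ s ⊆ Ed n
  · rw [if_pos a]
    by_cases b : Tru N m s M
    · rw [if_pos ⟨a.1, a.2, b⟩, wt3, rw3]
      congr 2
      refine prod_congr rfl fun g hg => ?_
      by_cases c : g ∈ s
      · rw [if_pos c, ea]
        exact ew_congr Iff.rfl (iff_true_intro c) _
      · rw [if_neg c, eb, if_neg fun d => b g ⟨hg, d.1, c, d.2⟩]
        exact ew_congr Iff.rfl (iff_false_intro c) _
    · rw [if_neg fun c => b c.2.2]
      obtain ⟨g, hg⟩ := not_forall.1 b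
      obtain ⟨h1, h2, h3, h4⟩ := not_not.1 hg
      rw [rw3, prod_eq_zero h1 (by rw [if_neg h3, eb, if_pos ⟨h2, h4⟩]), mul_zero,
        ENNReal.ofReal_zero]
  · rw [if_neg a, if_neg fun c => a ⟨c.1, c.2.1⟩]

/-- the sum over the labels of one height function -/
lemma sum_lab (H : HypS w w0 N Y β e ε w1 S) (m : Vx n → ℤ) (M : Finset (Vx n))
    (p : Finset (Vx n × Vx n) → Prop) [DecidablePred p] :
    ∑' s, (if p s then nuT w w0 N e (m, s, M) else 0) = if m (vz n) = 0 then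
      ENNReal.ofReal (pw (fun _ => e) M *
        ∑ s ∈ (Ed n).powerset, if p s then rw3 w w0 N m s M else 0) else 0 := by
  by_cases a : m (vz n) = 0
  · rw [if_pos a, tsum_eq_sum (s := (Ed n).powerset) fun s hs => by
      rw [nuT_eq, if_neg (c := _ ∧ _) fun b => hs (mem_powerset.2 b.2), ite_self], mul_sum,
      ENNReal.ofReal_sum_of_nonneg fun s _ => mul_nonneg (pwe_pos H M).le (by
        split_ifs; exacts [rw3_nonneg H _ _ _, le_rfl])]
    refine sum_congr rfl fun s hs => ?_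
    split_ifs
    · rw [nuT_eq, if_pos ⟨a, mem_powerset.1 hs⟩]
    · simp
  · rw [if_neg a, ENNReal.tsum_eq_zero]
    intro s
    rw [nuT_eq, if_neg (c := _ ∧ _) fun b => a b.1, ite_self]

lemma sum_rw3 (m : Vx n → ℤ) (M : Finset (Vx n)) :
    ∑ s ∈ (Ed n).powerset, rw3 w w0 N m s M = ∏ g ∈ Ed n, w (m g.1 - m g.2) := by
  unfold rw3
  rw [sum_pow]
  exact prod_congr rfl fun g _ => ea_eb m M g

lemma tsum3 (f : T3 n → ℝ≥0∞) : ∑' ω, f ω = ∑' m, ∑ M, ∑' s, f (m, s, M) := by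
  rw [ENNReal.tsum_prod']
  refine tsum_congr fun m => ?_
  rw [ENNReal.tsum_prod', ENNReal.tsum_comm, tsum_fintype]

end Lb

/-- heights and marks of a true state are independent -/
theorem lab_sum2 (H : HypS w w0 N Y β e ε w1 S) (G : (Vx n → ℤ) → Finset (Vx n) → ℝ≥0∞) :
    ∑' ω : T3 n, nuT w w0 N e ω * G ω.1 ω.2.2 =
      ∑' m, gw w m * ∑ M, ENNReal.ofReal (pw (fun _ => e) M) * G m M := by
  rw [Lb.tsum3]
  refine tsum_congr fun m => ?_
  rw [mul_sum]
  refine sum_congr rfl fun M _ => ?_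
  have := Lb.sum_lab H m M fun _ => True
  simp only [if_true] at this
  simp only
  rw [ENNReal.tsum_mul_right, this, Lb.sum_rw3, gw]
  split_ifs
  · rw [ENNReal.ofReal_mul (pwe_pos H M).le]
    ring
  · simp

lemma sum_pwE (H : HypS w w0 N Y β e ε w1 S) :
    ∑ M : Finset (Vx n), ENNReal.ofReal (pw (fun _ => e) M) = 1 := by
  rw [← ENNReal.ofReal_sum_of_nonneg fun M _ => (pwe_pos H M).le]
  simp only [Lb.pw_eq]
  rw [Lb.sum_ite]
  simp

/-- labels and marks sum to the Gibbs weight -/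
theorem lab_sum (H : HypS w w0 N Y β e ε w1 S) (F : (Vx n → ℤ) → ℝ≥0∞) :
    ∑' ω : T3 n, nuT w w0 N e ω * F ω.1 = ∑' m, gw w m * F m := by
  rw [lab_sum2 H fun m _ => F m]
  refine tsum_congr fun m => ?_
  rw [← sum_mul, sum_pwE H, one_mul]

theorem lab_tot (H : HypS w w0 N Y β e ε w1 S) :
    ∑' ω : T3 n, nuT w w0 N e ω = ∑' m, gw (n := n) w m := by
  simpa using lab_sum (n := n) H fun _ => 1

lemma pw_mem (x : Vx n) : ∑ M : Finset (Vx n), (if x ∈ M then pw (fun _ => e) M else 0) = e := by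
  have a : ∀ M : Finset (Vx n), (if x ∈ M then pw (fun _ => e) M else 0) =
      ∏ a, (if a ∈ M then e else if a = x then 0 else 1 - e) := by
    intro M
    split_ifs with h
    · rw [Lb.pw_eq]
      refine prod_congr rfl fun a _ => ?_
      split_ifs with b c
      · rfl
      · exact absurd (c ▸ h) b
      · rfl
    · exact (prod_eq_zero (mem_univ x) (by simp [h])).symm
  simp only [a]
  rw [Lb.sum_ite, ← mul_prod_erase _ _ (mem_univ x), prod_eq_one fun a ha => by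
    rw [if_neg (ne_of_mem_erase ha)]; ring]
  simp

/-- a corner is rarely marked -/
theorem lab_mark (H : HypS w w0 N Y β e ε w1 S) :
    ∑' ω : T3 n, (if vz n ∈ ω.2.2 ∨ vl n ∈ ω.2.2 then nuT w w0 N e ω else 0) ≤
      ENNReal.ofReal (2 * e) * ∑' m, gw (n := n) w m := by
  have a := lab_sum2 (n := n) H fun _ M => if vz n ∈ M ∨ vl n ∈ M then 1 else 0
  simp only [mul_ite, mul_one, mul_zero] at a
  rw [a, ENNReal.tsum_mul_right, mul_comm]
  refine mul_le_mul_left ?_ _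
  have b : ∀ M : Finset (Vx n), (if vz n ∈ M ∨ vl n ∈ M then
      ENNReal.ofReal (pw (fun _ => e) M) else 0) ≤ ENNReal.ofReal
      ((if vz n ∈ M then pw (fun _ => e) M else 0) + if vl n ∈ M then pw (fun _ => e) M else 0) := by
    intro M
    have := pwe_pos H M
    by_cases c : vz n ∈ M ∨ vl n ∈ M
    · rw [if_pos c]
      refine ENNReal.ofReal_le_ofReal ?_
      split_ifs with c1 c2 c2
      · linarith
      · linarith
      · linarith
      · exact absurd c (not_or.2 ⟨c1, c2⟩)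
    · rw [if_neg c]
      exact zero_le
  refine (sum_le_sum fun M _ => b M).trans ?_
  rw [← ENNReal.ofReal_sum_of_nonneg fun M _ => by
    have := pwe_pos H M
    split_ifs <;> linarith, sum_add_distrib, pw_mem, pw_mem, two_mul]

lemma lab_one (H : HypS w w0 N Y β e ε w1 S) (E : Finset (Vx n)) (m : Vx n → ℤ) :
    ∑ M, ∑' s, (if E ⊆ XX N m s M then nuT w w0 N e (m, s, M) else 0) ≤
      gw w m * ENNReal.ofReal ((e + 2 * ε) ^ (E \ Stp N m).card) := by
  have he := H.e0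
  have hε := H.eps0
  have W0 : 0 ≤ ∏ g ∈ Ed n, w (m g.1 - m g.2) := prod_nonneg fun g _ => (H.w_pos _).1.le
  have a1 : ∀ M : Finset (Vx n), (∑ s ∈ (Ed n).powerset, if E ⊆ XX N m s M then
      Lb.rw3 w w0 N m s M else 0) ≤
      (2 * ε) ^ ((E \ Stp N m) \ M).card * ∏ g ∈ Ed n, w (m g.1 - m g.2) := by
    intro M
    have hS : ∀ g ∈ Ed n, g.1 ∈ (E \ Stp N m) \ M → |m g.1 - m g.2| ≤ N := by
      intro g hg h
      by_contra b
      exact (mem_sdiff.1 (mem_sdiff.1 h).1).2 (mem_filter.2 ⟨mem_univ _, g, hg, rfl, not_le.1 b⟩)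
    have := Lb.hit hε (Lb.ea w w0 N m M) (fun g => ew_nonneg H _ _ _) ((E \ Stp N m) \ M)
      (Lb.eb w w0 N m M) (Lb.eb_nonneg H m M) fun g hg h => by
        rw [Lb.ea_eb]; exact Lb.ea_small H m M (hS g hg h)
    simp only [Lb.ea_eb] at this
    refine le_trans (sum_le_sum fun s _ => ?_) this
    by_cases c : E ⊆ XX N m s M
    · rw [if_pos c, if_pos, Lb.rw3]
      intro x hx
      rcases (mem_filter.1 (c (mem_sdiff.1 (mem_sdiff.1 hx).1).1)).2 with d | ⟨g, h1, h2, h3 | h3⟩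
      · exact absurd d (mem_sdiff.1 hx).2
      · exact ⟨g, h1, h2, h3⟩
      · exact absurd (hS g h1 (h2 ▸ hx)) (not_le.2 h3)
    · rw [if_neg c]
      split_ifs
      · exact Lb.rw3_nonneg H m s M
      · exact le_rfl
  have a2 : ∑ M : Finset (Vx n), pw (fun _ => e) M * (2 * ε) ^ ((E \ Stp N m) \ M).card ≤
      (e + 2 * ε) ^ (E \ Stp N m).card := by
    generalize E \ Stp N m = D
    have b : ∀ M : Finset (Vx n), pw (fun _ => e) M * (2 * ε) ^ (D \ M).card =
        ∏ a, (if a ∈ M then e else (1 - e) * if a ∈ D then 2 * ε else 1) := by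
      intro M
      rw [Lb.pw_eq, ← prod_const, ← prod_ite_mem_eq (D \ M) fun _ => 2 * ε, ← prod_mul_distrib]
      refine prod_congr rfl fun a _ => ?_
      by_cases c : a ∈ M <;> by_cases d : a ∈ D <;> simp [c, d]
    simp only [b]
    rw [Lb.sum_ite, ← prod_const, ← prod_ite_mem_eq D fun _ => e + 2 * ε]
    have := H.e1
    refine prod_le_prod (fun a _ => ?_) fun a _ => ?_
    · split_ifs <;> nlinarith
    · split_ifs <;> nlinarith
  simp only [Lb.sum_lab H, gw]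
  split_ifs with a
  · rw [← ENNReal.ofReal_sum_of_nonneg fun M _ => mul_nonneg (pwe_pos H M).le
      (sum_nonneg fun s _ => by split_ifs; exacts [Lb.rw3_nonneg H _ _ _, le_rfl]),
      ← ENNReal.ofReal_mul W0]
    refine ENNReal.ofReal_le_ofReal ((sum_le_sum fun M _ =>
      mul_le_mul_of_nonneg_left (a1 M) (pwe_pos H M).le).trans ?_)
    simp only [← mul_assoc]
    rw [← sum_mul, mul_comm]
    exact mul_le_mul_of_nonneg_left a2 W0
  · simp

/-- the budget passes to the labelled states -/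
theorem lab_bud (H : HypS w w0 N Y β e ε w1 S) {C η : ℝ} (hC : 0 ≤ C) (hη : 0 ≤ η)
    (h : Bud (gw (n := n) w) (Stp N) C η) :
    Bud (nuT (n := n) w w0 N e) (fun ω => XX N ω.1 ω.2.1 ω.2.2) C (η + e + 2 * ε) := by
  intro r E hE
  have he := H.e0
  have hε := H.eps0
  rw [lab_tot H, Lb.tsum3]
  have a1 : ∀ m : Vx n → ℤ, gw w m * ENNReal.ofReal ((e + 2 * ε) ^ (E \ Stp N m).card) ≤
      ∑ E1 ∈ E.powerset, (if E1 ⊆ Stp N m then gw w m else 0) *
        ENNReal.ofReal ((e + 2 * ε) ^ (E.card - E1.card)) := by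
    intro m
    refine le_trans (le_of_eq ?_) (single_le_sum (fun _ _ => zero_le)
      (mem_powerset.2 (inter_subset_left : E ∩ Stp N m ⊆ E)))
    rw [if_pos inter_subset_right, card_sdiff, inter_comm]
  refine le_trans (ENNReal.tsum_le_tsum fun m => (lab_one H E m).trans (a1 m)) ?_
  rw [Summable.tsum_finsetSum fun _ _ => ENNReal.summable, add_assoc, ← sum_pow_mul_eq_add_pow,
    mul_sum, ENNReal.ofReal_sum_of_nonneg fun _ _ => by positivity, sum_mul]
  refine sum_le_sum fun E1 h1 => ?_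
  rw [ENNReal.tsum_mul_right, ← mul_assoc, ENNReal.ofReal_mul (by positivity), mul_right_comm]
  refine mul_le_mul_left ?_ _
  convert h r E1 fun x hx => hE x (mem_powerset.1 h1 hx)

end Pool.Agent.Lib.MP_9cc147_pr.AllU.S
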