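import Pool.Agent.Lib.MP_9cc147_pr.U.SDefs
import Pool.Agent.Lib.MP_9cc147_pr.U.SLab

/-! Section S: sums over true states. -/

open Finset
open scoped ENNReal

namespace Pool.Agent.Lib.MP_9cc147_pr.AllU.S.G

open Mono (oe)

variable {n : ℕ}

namespace Tr

lemma mem_oe {x : Vx n} {e : Eg n} : e ∈ oe x ↔ e ∈ Ed n ∧ e.1 = x := mem_filter

lemma wS_eq (a : Pa) (k : ℤ) : wS a k = S.wS a.w a.w0 a.N k := by
  unfold wS S.wS
  split_ifs
  · rfl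
  · rw [sub_zero]

lemma wC_eq (a : Pa) (k : ℤ) : wC a k = wSc a.w a.w0 a.N k := by
  unfold wC wSc
  rw [wS_eq]

lemma we_eq (a : Pa) (ω : St n) (e : Eg n) :
    we a ω e = ew a.w a.w0 a.N (Cvd ω.mr e) (e ∈ ω.S) (ω.m e.1 - ω.m e.2) := by
  unfold we ew
  simp only [wS_eq, wC_eq]
  by_cases h : Cvd ω.mr e
  · rw [if_pos (show Tc ω.mr e from h), if_pos h]
    congr!
  · rw [if_neg (show ¬ Tc ω.mr e from h), if_neg h]
    congr!

lemma pF_mem (a : Pa) (k : ℕ) : 0 ≤ pF a k ∧ pF a k ≤ 1 :=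
  ⟨by unfold pF; positivity, pow_le_one₀ (by norm_num) (by norm_num)⟩

lemma pw_nonneg {α : Type} [Fintype α] {p : α → ℝ} (h : ∀ a, 0 ≤ p a ∧ p a ≤ 1) (s : Finset α) :
    0 ≤ pw p s := by
  unfold pw
  refine prod_nonneg fun a _ => ?_
  split_ifs
  · exact (h a).1
  · linarith [(h a).2]

lemma pwF_nonneg (a : Pa) (fl : Finset (Fin (n + 1) × Vx n)) : 0 ≤ pw (fun b => pF a b.1) fl :=
  pw_nonneg (fun _ => pF_mem a _) fl

lemma sum_pwF (a : Pa) :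
    ∑ fl : Finset (Fin (n + 1) × Vx n), ENNReal.ofReal (pw (fun b => pF a b.1) fl) = 1 := by
  rw [← ENNReal.ofReal_sum_of_nonneg fun fl _ => pwF_nonneg a fl]
  simp only [Lb.pw_eq]
  rw [Lb.sum_ite]
  simp

lemma nu_eq (a : Pa) (ω : St n) : nu a ω = ENNReal.ofReal (wt3 a.w a.w0 a.N a.e ω.m ω.S ω.mr) *
    ENNReal.ofReal (pw (fun b => pF a b.1) ω.fl) := by
  rw [nu, ← ENNReal.ofReal_mul' (pwF_nonneg a _), wt3, mul_right_comm]
  simp only [we_eq]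

lemma tru_iff {N : ℕ} {ω : St n} : Tru N ω.m ω.S ω.mr ↔ ∀ x, mass N ω x = 0 := by
  constructor
  · intro h x
    by_contra c
    obtain ⟨e, he, hd⟩ := mass_ne.1 c
    exact h e ⟨(mem_oe.1 he).1, hd⟩
  · intro h e he
    exact mass_ne.2 ⟨e, mem_oe.2 ⟨he.1, rfl⟩, he.2⟩ (h e.1)

lemma nt_eq (a : Pa) (ω : St n) : nt a ω = nuT a.w a.w0 a.N a.e (ω.m, ω.S, ω.mr) *
    ENNReal.ofReal (pw (fun b => pF a b.1) ω.fl) := by
  unfold nt nuT
  by_cases h : Reg a.N ω ∧ ∀ x, mass a.N ω x = 0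
  · rw [if_pos h, if_pos ⟨h.1.pin, h.1.sub, tru_iff.2 h.2⟩, nu_eq]
  · rw [if_neg h]
    split_ifs with c
    · have h0 := tru_iff.1 c.2.2
      have : ¬ ∀ e ∈ Ed n, Tc ω.mr e → e ∉ ω.S → |gr ω.m e| ≤ 10 ^ 6 * a.N := fun b =>
        h ⟨⟨c.1, c.2.1, b, fun p hp => absurd (h0 p) hp, fun k p hp =>
          absurd (h0 p) (mem_sp.1 (Mono.rem_sub (Mono.lv_rem hp)))⟩, h0⟩
      push Not at this
      obtain ⟨e, h1, h2, h3, h4⟩ := this
      rw [wt3, prod_eq_zero h1 (ew_zero h2 h3 h4), mul_zero, ENNReal.ofReal_zero, zero_mul]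
    · rw [zero_mul]

lemma XX_eq (N : ℕ) (ω : St n) : XX N ω = S.XX N ω.m ω.S ω.mr := by
  classical
  ext x
  rw [mem_XX, S.XX, mem_filter]
  simp only [mem_univ, true_and, mem_oe, and_assoc, gr]

/-- states as pairs -/
def eqv (n : ℕ) : T3 n × Finset (Fin (n + 1) × Vx n) ≃ St n where
  toFun p := ⟨p.1.1, p.1.2.1, p.1.2.2, p.2⟩
  invFun ω := ((ω.m, ω.S, ω.mr), ω.fl)
  left_inv _ := rfl
  right_inv _ := rfl

lemma tsum_st (f : St n → ℝ≥0∞) :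
    ∑' σ, f σ = ∑' ω : T3 n, ∑ fl, f ⟨ω.1, ω.2.1, ω.2.2, fl⟩ := by
  rw [← (eqv n).tsum_eq, ENNReal.tsum_prod']
  exact tsum_congr fun ω => tsum_fintype _

lemma sum_nt (a : Pa) (G : T3 n → ℝ≥0∞) :
    ∑' σ : St n, nt a σ * G (σ.m, σ.S, σ.mr) = ∑' ω, nuT a.w a.w0 a.N a.e ω * G ω := by
  rw [tsum_st]
  refine tsum_congr fun ω => ?_
  simp only [nt_eq]
  simp only [mul_right_comm _ _ (G _)]
  rw [← mul_sum, sum_pwF, mul_one]

lemma sum_ite (a : Pa) (p : T3 n → Prop) [DecidablePred p] :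
    ∑' σ : St n, (if p (σ.m, σ.S, σ.mr) then nt a σ else 0) =
      ∑' ω, if p ω then nuT a.w a.w0 a.N a.e ω else 0 := by
  simpa only [mul_ite, mul_one, mul_zero] using sum_nt a fun ω => if p ω then 1 else 0

end Tr

theorem truSt : TruSt := by
  intro n a H
  refine ⟨fun F => (Tr.sum_nt a fun ω => F ω.1).trans (lab_sum H F),
    (Tr.sum_ite a fun ω => vz n ∈ ω.2.2 ∨ vl n ∈ ω.2.2).trans_le (lab_mark H), fun ψ hψ => ?_⟩
  simp only [Tr.XX_eq]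
  rw [Tr.sum_nt a fun ω => ENNReal.ofReal (∑ fl : Finset (Fin (n + 1) × Vx n),
    pw (fun b => pF a b.1) fl * ψ (S.XX a.N ω.1 ω.2.1 ω.2.2) fl), Tr.tsum_st]
  refine tsum_congr fun ω => ?_
  rw [ENNReal.ofReal_sum_of_nonneg fun fl _ => mul_nonneg (Tr.pwF_nonneg a fl) (hψ _ _), mul_sum]
  refine sum_congr rfl fun fl _ => ?_
  rw [Tr.nt_eq, ENNReal.ofReal_mul (Tr.pwF_nonneg a fl), mul_assoc]

theorem budSt : BudSt := by
  intro n a C η H hC hη h r E hE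
  have h1 := lab_bud H hC hη h r E hE
  have h2 := Tr.sum_nt (n := n) a fun _ => 1
  have h3 := Tr.sum_ite a fun ω => E ⊆ S.XX a.N ω.1 ω.2.1 ω.2.2
  simp only [mul_one] at h2
  simp only [Tr.XX_eq]
  rw [h2]
  convert h3.trans_le (by convert h1)

end Pool.Agent.Lib.MP_9cc147_pr.AllU.S.G
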