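import Pool.Agent.Lib.MP_9cc147_pr.U.SAsm
import Pool.Agent.Lib.MP_9cc147_pr.U.SFea
import Pool.Agent.Lib.MP_9cc147_pr.U.SCla
import Pool.Agent.Lib.MP_9cc147_pr.U.SRep
import Pool.Agent.Lib.MP_9cc147_pr.U.SLoc
import Pool.Agent.Lib.MP_9cc147_pr.U.SAc
import Pool.Agent.Lib.MP_9cc147_pr.U.STru
import Pool.Agent.Lib.MP_9cc147_pr.U.SPos
import Pool.Agent.Lib.MP_9cc147_pr.U.SItr
import Pool.Agent.Lib.MP_9cc147_pr.U.SRlo
import Pool.Agent.Lib.MP_9cc147_pr.U.SSm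
import Pool.Agent.Lib.MP_9cc147_pr.U.SLvl
import Pool.Agent.Lib.MP_9cc147_pr.U.SGg

/-! Section S: the mass transfer. -/

namespace Pool.Agent.Lib.MP_9cc147_pr.AllU

open S.G

theorem sphase (hN : NetStmt) : SStmt :=
  have hR := repSt feasSt
  have hI := itrSt hR
  have hL := locSt feasSt hR posSt
  have hS := smSt hN (acSt feasSt hR posSt) posSt
  sasm hI posSt (resSt (lvlSt hR hL hS) hS) clsSt
    (ggSt hR hI (rlocSt feasSt hR) hL clsSt) pinSt truSt budSt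

end Pool.Agent.Lib.MP_9cc147_pr.AllU
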