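import Pool.Agent.Lib.MP_9cc147_pr.U.SprC
import Pool.Agent.Lib.MP_9cc147_pr.U.A1
import Pool.Agent.Lib.MP_9cc147_pr.U.ASum
import Pool.Agent.Lib.MP_9cc147_pr.U.ATan

/-! Spring: the lift to `Mul` and the repeated attempts. -/

open Finset MeasureTheory
open scoped ENNReal

namespace Pool.Agent.Lib.MP_9cc147_pr.AllU

namespace Spr

section
variable {Y K I : Type} [Fintype Y] [Fintype K] [Fintype I]

/-- reorder the spring coordinate -/
def eO (Y κ : Type) : Option Y ⊕ κ ≃ Option (Y ⊕ κ) where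
  toFun := Sum.elim (Option.map Sum.inl) fun k => some (Sum.inr k)
  invFun := fun o => o.elim (Sum.inl none) (Sum.map some id)
  left_inv := by rintro ((_ | _) | _) <;> rfl
  right_inv := by rintro (_ | _ | _) <;> rfl

/-- reorder the auxiliary coordinates -/
def eK (Y κ K : Type) : (Y ⊕ κ) ⊕ K ≃ (Y ⊕ K) ⊕ κ where
  toFun := Sum.elim (Sum.map Sum.inl id) fun k => Sum.inl (Sum.inr k)
  invFun := Sum.elim (Sum.map Sum.inl id) fun k => Sum.inl (Sum.inr k)
  left_inv := by rintro ((_ | _) | _) <;> rfl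
  right_inv := by rintro ((_ | _) | _) <;> rfl

theorem one_mul' [Nonempty I] [DecidableEq I] (hT : TanStmt) {lam c1 c0 : ℝ}
    (G : Set ((Y → ℝ) × ℝ)) (d : Y → ℝ) (y : I → K → ℝ) (e b : ℝ) (κ : I → K) (he : 0 < e)
    (hκ : ∀ t t', y t (κ t') = if t = t' then e else 0) (hb0 : 0 < b)
    (hb : ∑ t, ∑ t', Real.exp (∑ j, y t j * y t' j) ≤ (Fintype.card I : ℝ) ^ 2 * Real.exp b)
    (h10 : c1 ≤ c0) (h1 : Mul lam (Suc G d b) c1) (h0 : Mul lam G c0) :
    Mul lam (Hat G d y) (c1 / 28 + 27 * c0 / 28) := by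
  intro μ _ H d' hd' hH
  have D1 : Dom lam (Suc (oplus G H) (Sum.elim d 0) b) (c1 * d') := by
    refine A.SumA.dom_equiv (eO Y μ) ?_ (h1 μ H d' hd' hH)
    rintro g (⟨a, (⟨a, ha, rfl⟩ | rfl), rfl⟩ | ⟨a, ha, rfl⟩)
    · refine ⟨_, Or.inl ⟨_, Or.inl ⟨a, ha, rfl⟩, rfl⟩, Prod.ext (funext fun i => ?_) rfl⟩
      rcases i with (_ | i) | i <;> rfl
    · refine ⟨_, Or.inr rfl, Prod.ext (funext fun i => ?_) rfl⟩
      rcases i with (_ | i) | i <;> rfl
    · refine ⟨_, Or.inl ⟨_, Or.inr ⟨a, ha, rfl⟩, rfl⟩, Prod.ext (funext fun i => ?_) rfl⟩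
      rcases i with (_ | i) | i <;> rfl
  have D := one_dom hT (oplus G H) (Sum.elim d 0) y e b κ he hκ hb0 hb
    (mul_le_mul_of_nonneg_right h10 hd') D1 (h0 μ H d' hd' hH)
  rw [show (c1 / 28 + 27 * c0 / 28) * d' = c1 * d' / 28 + 27 * (c0 * d') / 28 by ring]
  refine A.SumA.dom_equiv (eK Y μ K) ?_ D
  rintro g (⟨a, (⟨a, ha, rfl⟩ | ⟨a, ha, rfl⟩), rfl⟩ | ⟨t, rfl⟩)
  · refine ⟨_, Or.inl ⟨_, Or.inl ⟨a, ha, rfl⟩, rfl⟩, Prod.ext (funext fun i => ?_) rfl⟩
    rcases i with (i | i) | i <;> rfl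
  · refine ⟨_, Or.inr ⟨a, ha, rfl⟩, Prod.ext (funext fun i => ?_) rfl⟩
    rcases i with (i | i) | i <;> rfl
  · refine ⟨_, Or.inl ⟨_, Or.inr ⟨t, rfl⟩, rfl⟩, Prod.ext (funext fun i => ?_) rfl⟩
    rcases i with (i | i) | i <;> rfl

open Classical in
/-- multiply the coordinates in `W` by `a` -/
noncomputable def sa (W : Set Y) (a : ℝ) (y : Y → ℝ) (i : Y) : ℝ :=
  if i ∈ W then a * y i else y i

/-- the scaled group -/
def Gs (W : Set Y) (G : Set ((Y → ℝ) × ℝ)) (a : ℝ) : Set ((Y → ℝ) × ℝ) :=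
  {g | ∃ g' ∈ G, g = (sa W a g'.1, g'.2)}

omit [Fintype Y] in
theorem sa_mem {W : Set Y} {G : Set ((Y → ℝ) × ℝ)} (a : ℝ) {g : (Y → ℝ) × ℝ}
    (hg : g ∈ AddSubgroup.closure G) : (sa W a g.1, g.2) ∈ AddSubgroup.closure (Gs W G a) := by
  induction hg using AddSubgroup.closure_induction with
  | mem x hx => exact AddSubgroup.subset_closure ⟨x, hx, rfl⟩
  | zero =>
    convert (AddSubgroup.closure (Gs W G a)).zero_mem using 1
    refine Prod.ext (funext fun i => ?_) rfl
    simp [sa]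
  | add x y _ _ hx hy =>
    convert (AddSubgroup.closure (Gs W G a)).add_mem hx hy using 1
    refine Prod.ext (funext fun i => ?_) rfl
    simp only [sa, Prod.fst_add, Pi.add_apply]
    split_ifs <;> ring
  | neg x _ hx =>
    convert (AddSubgroup.closure (Gs W G a)).neg_mem hx using 1
    refine Prod.ext (funext fun i => ?_) rfl
    simp only [sa, Prod.fst_neg, Pi.neg_apply]
    split_ifs <;> ring

theorem mul_diag {lam c : ℝ} {G G' : Set ((Y → ℝ) × ℝ)} (w : Y → ℝ) (hw : ∀ i, w i ^ 2 ≤ 1)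
    (hG : ∀ g ∈ G', (w * g.1, g.2) ∈ G) (h : Mul lam G' c) : Mul lam G c :=
  A1.mul_cmp (LinearMap.mulLeft ℝ w) (fun y => Finset.sum_le_sum fun i _ => by
    show (w i * y i) ^ 2 ≤ _
    rw [mul_pow]
    exact mul_le_of_le_one_left (sq_nonneg _) (hw i))
    (fun g hg => AddSubgroup.subset_closure (hG g hg)) h

theorem down0 {lam c a A : ℝ} {W : Set Y} {G : Set ((Y → ℝ) × ℝ)} (ha : 0 < a) (hA : a ≤ A)
    (h : Mul lam (Gs W G A) c) : Mul lam (Gs W G a) c := by
  classical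
  have hA0 : 0 < A := ha.trans_le hA
  refine mul_diag (fun i => if i ∈ W then a / A else 1) (fun i => ?_) ?_ h
  · split_ifs
    · exact pow_le_one₀ (by positivity) ((div_le_one hA0).2 hA)
    · simp
  · rintro g ⟨g, hg, rfl⟩
    refine ⟨g, hg, Prod.ext (funext fun i => ?_) rfl⟩
    simp only [sa, Pi.mul_apply]
    split_ifs
    · field_simp
    · ring

theorem down1 {lam c a A b : ℝ} {W : Set Y} {G : Set ((Y → ℝ) × ℝ)} {d : Y → ℝ} (ha : 0 < a)
    (hA : a ≤ A) (h : Mul lam (Suc (Gs W G A) (sa W A d) b) c) :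
    Mul lam (Suc (Gs W G a) (sa W a d) b) c := by
  classical
  have hA0 : 0 < A := ha.trans_le hA
  have key : ∀ (z : ℝ) (y : Y → ℝ),
      ((fun o : Option Y => o.elim 1 fun i => if i ∈ W then a / A else 1) *
        fun o : Option Y => o.elim z (sa W A y)) = fun o => o.elim z (sa W a y) := by
    intro z y
    funext o
    rcases o with _ | i
    · simp
    · simp only [sa, Pi.mul_apply, Option.elim_some]
      split_ifs
      · field_simp
      · ring
  refine mul_diag (fun o => o.elim 1 fun i => if i ∈ W then a / A else 1) (fun o => ?_) ?_ h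
  · rcases o with _ | i
    · simp
    · simp only [Option.elim_some]
      split_ifs
      · exact pow_le_one₀ (by positivity) ((div_le_one hA0).2 hA)
      · simp
  · rintro g (⟨g, ⟨g, hg, rfl⟩, rfl⟩ | rfl)
    · exact Or.inl ⟨_, ⟨g, hg, rfl⟩, Prod.ext (key 0 g.1) rfl⟩
    · exact Or.inr (Prod.ext (key _ d) rfl)

open Classical in
/-- the contraction that merges the auxiliary copy into the coordinates in `W` -/
noncomputable def mrg (W : Set Y) (I : Type) (s s' : ℝ) : (Y ⊕ (Y ⊕ I) → ℝ) →ₗ[ℝ] Y → ℝ where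
  toFun z i := if i ∈ W then z (Sum.inl i) / s + z (Sum.inr (Sum.inl i)) / s' else z (Sum.inl i)
  map_add' x y := by
    funext i
    simp only [Pi.add_apply]
    split_ifs <;> ring
  map_smul' c x := by
    funext i
    simp only [Pi.smul_apply, smul_eq_mul, RingHom.id_apply]
    split_ifs <;> ring

theorem mrg_le (W : Set Y) {s s' : ℝ} (h : s⁻¹ ^ 2 + s'⁻¹ ^ 2 = 1) (z : Y ⊕ (Y ⊕ I) → ℝ) :
    ∑ i, mrg W I s s' z i ^ 2 ≤ ∑ i, z i ^ 2 := by
  rw [Fintype.sum_sum_type, Fintype.sum_sum_type, ← add_assoc, ← Finset.sum_add_distrib]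
  refine le_trans (Finset.sum_le_sum fun i _ => ?_)
    (le_add_of_nonneg_right (Finset.sum_nonneg fun _ _ => sq_nonneg _))
  simp only [mrg, LinearMap.coe_mk, AddHom.coe_mk]
  split_ifs
  · rw [div_eq_mul_inv, div_eq_mul_inv]
    generalize s⁻¹ = p at *
    generalize s'⁻¹ = q at *
    generalize z (Sum.inl i) = x
    generalize z (Sum.inr (Sum.inl i)) = v
    have : (x * p + v * q) ^ 2 + (x * q - v * p) ^ 2 = (x ^ 2 + v ^ 2) * (p ^ 2 + q ^ 2) := by ring
    rw [h] at this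
    nlinarith [sq_nonneg (x * q - v * p)]
  · exact le_add_of_nonneg_right (sq_nonneg _)

theorem attempt [Nonempty I] (hT : TanStmt) {lam b c1 c0 a s s' e : ℝ}
    {G : Set ((Y → ℝ) × ℝ)} {W : Set Y} {u : I → Y → ℝ} {d : Y → ℝ} {B : I → I → ℝ}
    (hu : ∀ t i, i ∉ W → u t i = 0)
    (hG : ∀ t, (u t + d, (0 : ℝ)) ∈ AddSubgroup.closure G)
    (hs : 0 < s) (hs' : 0 < s') (hss : s⁻¹ ^ 2 + s'⁻¹ ^ 2 = 1) (he : 0 < e) (hb0 : 0 < b)
    (hB : ∀ t t', (a * s') ^ 2 * ∑ i, u t i * u t' i ≤ B t t')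
    (hb : ∑ t, ∑ t', Real.exp (B t t' + e ^ 2) ≤ (Fintype.card I : ℝ) ^ 2 * Real.exp b)
    (h10 : c1 ≤ c0) (h1 : Mul lam (Suc (Gs W G (a * s)) (sa W (a * s) d) b) c1)
    (h0 : Mul lam (Gs W G (a * s)) c0) : Mul lam (Gs W G a) (c1 / 28 + 27 * c0 / 28) := by
  classical
  let y : I → Y ⊕ I → ℝ := fun t =>
    Sum.elim (fun i => a * s' * u t i) fun t' => if t = t' then e else 0
  refine A1.mul_cmp (mrg W I s s') (mrg_le W hss) ?_
    (one_mul' hT _ _ y e b Sum.inr he (fun _ _ => rfl) hb0 (le_trans ?_ hb) h10 h1 h0)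
  · rintro g (⟨g, ⟨g, hg, rfl⟩, rfl⟩ | ⟨t, rfl⟩)
    · refine AddSubgroup.subset_closure ⟨g, hg, Prod.ext (funext fun i => ?_) rfl⟩
      show ite _ _ _ = _
      simp only [sa, Sum.elim_inl, Sum.elim_inr, Pi.zero_apply]
      split_ifs
      · field_simp
        ring
      · rfl
    · convert sa_mem (W := W) a (hG t) using 1
      refine Prod.ext (funext fun i => ?_) rfl
      show ite _ _ _ = _
      simp only [sa, y, Sum.elim_inl, Sum.elim_inr, Pi.add_apply]
      split_ifs with hi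
      · field_simp
        ring
      · rw [hu t i hi, zero_add]
  · refine Finset.sum_le_sum fun t _ => Finset.sum_le_sum fun t' _ => Real.exp_le_exp.2 ?_
    rw [Fintype.sum_sum_type]
    refine add_le_add (le_trans (le_of_eq ?_) (hB t t')) ?_
    · rw [Finset.mul_sum]
      exact Finset.sum_congr rfl fun i _ => by simp only [y, Sum.elim_inl]; ring
    · simp only [y, Sum.elim_inr, ite_mul, zero_mul, Finset.sum_ite_eq, Finset.mem_univ, if_true]
      split_ifs
      · exact le_of_eq (sq e).symm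
      · simpa using sq_nonneg e

end

end Spr

open Spr in
theorem spring : SpringStmt := by
  intro lam b p c1 c0 m ι I _ _ _ G W u d Sp hm hu _ hG hSp hb hp hp1 h1 h0
  have hm0 : (0 : ℝ) < m := by exact_mod_cast hm
  have h3 : 0 < Real.sqrt 3 := Real.sqrt_pos.2 (by norm_num)
  have h0' : Mul lam (Gs W G (Real.sqrt 3)) c0 := h0
  have h1' : Mul lam (Suc (Gs W G (Real.sqrt 3)) (sa W (Real.sqrt 3) d) b) c1 := by
    refine (basic lam _ _).2.2.2 _ _ (Set.Subset.trans ?_ AddSubgroup.subset_closure) h1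
    rintro g (⟨g, hg, rfl⟩ | rfl)
    · exact Or.inl ⟨_, ⟨g, hg, rfl⟩, rfl⟩
    · exact Or.inr rfl
  have fin : ∀ c, Mul lam (Gs W G 1) c → Mul lam G c := fun c h => by
    refine (basic lam _ _).2.2.2 _ _ (Set.Subset.trans ?_ AddSubgroup.subset_closure) h
    rintro g ⟨g, hg, rfl⟩
    convert hg using 1
    exact Prod.ext (funext fun i => by simp [sa]) rfl
  have mono := fun (H : Set ((ι → ℝ) × ℝ)) => (basic lam ι H).2.1
  have q0 : (0 : ℝ) ≤ (27 / 28) ^ m := by positivity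
  rcases le_total c0 c1 with h01 | h10
  · refine mono _ _ _ (by nlinarith) (fin _ (down0 one_pos ?_ h0'))
    exact Real.one_le_sqrt.2 (by norm_num)
  set A := ∑ t, ∑ t', Real.exp (3 * (m + 1) * Sp t t') with hA
  set C := (Fintype.card I : ℝ) ^ 2 with hC
  have hC0 : 0 < C := by
    have : 0 < Fintype.card I := Fintype.card_pos
    positivity
  have hCA : C ≤ A := by
    calc C = ∑ _t : I, ∑ _t' : I, (1 : ℝ) := by simp [hC, sq]
      _ ≤ A := Finset.sum_le_sum fun t _ => Finset.sum_le_sum fun t' _ =>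
        Real.one_le_exp (mul_nonneg (by positivity) (hSp t t').1)
  have hA0 : 0 < A := hC0.trans_le hCA
  have hb0 : 0 < b := by
    have : 1 < Real.exp b := by
      by_contra hn
      nlinarith [not_lt.1 hn]
    exact Real.one_lt_exp_iff.1 this
  have he0 : 0 < Real.log (C * Real.exp b / A) := Real.log_pos ((one_lt_div hA0).2 hb)
  set e := Real.sqrt (Real.log (C * Real.exp b / A)) with he
  have hbe : ∑ t, ∑ t', Real.exp (3 * (m + 1) * Sp t t' + e ^ 2) ≤ C * Real.exp b := by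
    simp only [Real.exp_add, ← Finset.sum_mul]
    rw [he, Real.sq_sqrt he0.le, Real.exp_log (by positivity), ← hA]
    exact le_of_eq (by field_simp)
  set s := Real.sqrt (1 + (m : ℝ)⁻¹) with hs
  set s' := Real.sqrt ((m : ℝ) + 1) with hs'
  have s2 : s ^ 2 = 1 + (m : ℝ)⁻¹ := Real.sq_sqrt (by positivity)
  have s2' : s' ^ 2 = m + 1 := Real.sq_sqrt (by positivity)
  have s1 : 1 ≤ s := Real.one_le_sqrt.2 (le_add_of_nonneg_right (by positivity))
  have hss : s⁻¹ ^ 2 + s'⁻¹ ^ 2 = 1 := by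
    rw [inv_pow, inv_pow, s2, s2']
    field_simp
  have main : ∀ (k : ℕ) (a : ℝ), 0 < a → a * s ^ k ≤ Real.sqrt 3 →
      Mul lam (Gs W G a) ((1 - (27 / 28) ^ k) * c1 + (27 / 28) ^ k * c0) := by
    intro k
    induction k with
    | zero => exact fun a ha h => by simpa using down0 ha (by simpa using h) h0'
    | succ k ih =>
      intro a ha h
      have has : 0 < a * s := by positivity
      have h' : a * s * s ^ k ≤ Real.sqrt 3 := by rwa [mul_assoc, ← pow_succ']
      have h'' : a * s ≤ Real.sqrt 3 :=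
        (le_mul_of_one_le_right has.le (one_le_pow₀ s1)).trans h'
      have a3 : a ^ 2 ≤ 3 := by
        have : a ≤ Real.sqrt 3 := (le_mul_of_one_le_right ha.le s1).trans h''
        exact (pow_le_pow_left₀ ha.le this 2).trans_eq (Real.sq_sqrt (by norm_num))
      have qk : (0 : ℝ) ≤ (27 / 28) ^ k := by positivity
      have := attempt tan (B := fun t t' => 3 * (m + 1) * Sp t t') (s' := s') hu hG
        (one_pos.trans_le s1) (Real.sqrt_pos.2 (by positivity)) hss (Real.sqrt_pos.2 he0) hb0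
        (fun t t' => by
          rw [mul_pow, s2']
          calc a ^ 2 * (m + 1) * ∑ i, u t i * u t' i ≤ a ^ 2 * (m + 1) * Sp t t' :=
                mul_le_mul_of_nonneg_left (hSp t t').2 (by positivity)
            _ ≤ 3 * (m + 1) * Sp t t' :=
                mul_le_mul_of_nonneg_right (by gcongr) (hSp t t').1)
        hbe (by nlinarith) (down1 has h'' h1') (ih _ has h')
      convert this using 1
      ring
  refine mono _ _ _ (by nlinarith) (fin _ (main m 1 one_pos ?_))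
  rw [one_mul]
  refine Real.le_sqrt_of_sq_le ?_
  rw [← pow_mul, mul_comm, pow_mul, s2]
  exact Real.one_add_inv_pow_le_exp.trans Real.exp_one_lt_three.le

end Pool.Agent.Lib.MP_9cc147_pr.AllU
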