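import Pool.Agent.Lib.MP_9cc147_pr.U.Defs

/-! All potentials, section T: removal of the integer constraints site by site. -/

open Finset

namespace Pool.Agent.Lib.MP_9cc147_pr.AllU

namespace Site

section PS
variable {α : Type} [DecidableEq α]

/-- partial sum over the choices on `U`, the choices `ξ` being made -/
noncomputable def PS (p : α → ℝ) (d : Finset α → ℝ) (U ξ : Finset α) : ℝ :=
  ∑ η ∈ U.powerset, (∏ a ∈ U, if a ∈ η then p a else 1 - p a) * d (ξ ∪ η)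

theorem PS_empty (p : α → ℝ) (d : Finset α → ℝ) (ξ : Finset α) : PS p d ∅ ξ = d ξ := by
  simp [PS]

theorem PS_insert (p : α → ℝ) (d : Finset α → ℝ) {U : Finset α} {x : α} (hx : x ∉ U)
    (ξ : Finset α) :
    PS p d (insert x U) ξ = (1 - p x) * PS p d U ξ + p x * PS p d U (insert x ξ) := by
  unfold PS
  rw [sum_powerset_insert hx, mul_sum, mul_sum]
  congr 1
  · refine sum_congr rfl fun η hη => ?_
    have : x ∉ η := fun h => hx (mem_powerset.1 hη h)
    rw [prod_insert hx, if_neg this, mul_assoc]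
  · refine sum_congr rfl fun η _ => ?_
    rw [prod_insert hx, if_pos (mem_insert_self _ _), mul_assoc, union_insert, insert_union]
    congr 2
    refine prod_congr rfl fun a ha => ?_
    have : a ≠ x := fun h => hx (h ▸ ha)
    simp [this]

theorem PS_univ [Fintype α] (p : α → ℝ) (d : Finset α → ℝ) :
    PS p d univ ∅ = ∑ ξ, pw p ξ * d ξ := by
  unfold PS pw
  rw [powerset_univ]
  refine sum_congr rfl fun η _ => ?_
  rw [empty_union]
  congr 1
  refine prod_congr rfl fun a _ => ?_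
  by_cases h : a ∈ η <;> simp [h]

end PS

theorem mul_mix (hB : BasicStmt) {lam p c1 c0 : ℝ} {ι : Type} [Fintype ι]
    {G : Set ((ι → ℝ) × ℝ)} (h0 : 0 ≤ p) (h1 : p ≤ 1) (m1 : Mul lam G c1) (m0 : Mul lam G c0) :
    Mul lam G ((1 - p) * c1 + p * c0) := by
  rcases le_total c1 c0 with h | h
  · exact (hB lam ι G).2.1 _ _ (by nlinarith) m1
  · exact (hB lam ι G).2.1 _ _ (by nlinarith) m0

variable {n : ℕ}

theorem gm_mono (hB : BasicStmt) {lam d : ℝ} {Λ Λ' : Set (Vx n → ℝ)} {c : Vx n → Vx n → ℝ}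
    (h : Λ' ⊆ Λ) (m : Mul lam (Gm Λ' c) d) : Mul lam (Gm Λ c) d :=
  (hB lam _ _).2.2.2 _ _
    (by rintro _ ⟨f, hf, e⟩; exact AddSubgroup.subset_closure ⟨f, h hf, e⟩) m

theorem lamP_anti {ρ ρ' : Vx n → ℕ} (h : ∀ z, ρ z ≤ ρ' z) : LamP ρ' ⊆ LamP ρ := by
  intro f hf z hz
  obtain ⟨k, hk⟩ := hf z (hz.trans_le (h z))
  exact ⟨k, fun x hx => hk x (hx.trans (h z))⟩

theorem out_card (x : Vx n) : ((Ed n).filter fun e => e.1 = x).card ≤ 2 := by
  have := card_le_card_of_injOn (s := (Ed n).filter fun e => e.1 = x) (t := (univ : Finset Bool))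
    (fun e => decide (e.2.1.val = e.1.1.val)) (fun _ _ => mem_univ _) (by
      intro a ha b hb hab
      simp only [coe_filter, Set.mem_ofPred_eq, mem_Ed] at ha hb
      simp only [decide_eq_decide] at hab
      obtain ⟨ha, ha'⟩ := ha
      obtain ⟨hb, hb'⟩ := hb
      have e1 : a.1 = b.1 := ha'.trans hb'.symm
      have e2 : a.1.1.val = b.1.1.val := by rw [e1]
      have e3 : a.1.2.val = b.1.2.val := by rw [e1]
      ext <;> omega)
  simpa using this

theorem in_card (x : Vx n) : ((Ed n).filter fun e => e.2 = x).card ≤ 2 := by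
  have := card_le_card_of_injOn (s := (Ed n).filter fun e => e.2 = x) (t := (univ : Finset Bool))
    (fun e => decide (e.2.1.val = e.1.1.val)) (fun _ _ => mem_univ _) (by
      intro a ha b hb hab
      simp only [coe_filter, Set.mem_ofPred_eq, mem_Ed] at ha hb
      simp only [decide_eq_decide] at hab
      obtain ⟨ha, ha'⟩ := ha
      obtain ⟨hb, hb'⟩ := hb
      have e1 : a.2 = b.2 := ha'.trans hb'.symm
      have e2 : a.2.1.val = b.2.1.val := by rw [e1]
      have e3 : a.2.2.val = b.2.2.val := by rw [e1]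
      ext <;> omega)
  simpa using this

/-- indicator of a site -/
def ind (x y : Vx n) : ℝ := if y = x then 1 else 0

theorem ind_sq {β : ℝ} (hβ : 0 ≤ β) (x : Vx n) :
    ∑ e : Vx n × Vx n, (Real.sqrt (cL β e.1 e.2) * (ind x e.1 - ind x e.2)) ^ 2 ≤ 4 * β := by
  have h1 : ∀ e : Vx n × Vx n, (Real.sqrt (cL β e.1 e.2) * (ind x e.1 - ind x e.2)) ^ 2 ≤
      (if e ∈ (Ed n).filter (fun e => e.1 = x) then β else 0) +
        if e ∈ (Ed n).filter (fun e => e.2 = x) then β else 0 := by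
    intro e
    by_cases he : e ∈ Ed n
    · have hc : cL β e.1 e.2 = β := by simp [cL, he]
      rw [hc, mul_pow, Real.sq_sqrt hβ]
      by_cases a : e.1 = x <;> by_cases b : e.2 = x <;> simp [ind, he, a, b, hβ]
    · simp [cL, he]
  refine (sum_le_sum fun e _ => h1 e).trans ?_
  rw [sum_add_distrib, sum_ite_mem, sum_ite_mem, univ_inter, univ_inter, sum_const, sum_const,
    nsmul_eq_mul, nsmul_eq_mul]
  have a : (((Ed n).filter fun e => e.1 = x).card : ℝ) ≤ 2 := by exact_mod_cast out_card x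
  have b : (((Ed n).filter fun e => e.2 = x).card : ℝ) ≤ 2 := by exact_mod_cast in_card x
  nlinarith

/-- pins after the failures `ξ` -/
def rx (ρ : Vx n → ℕ) (ξ : Finset (Vx n)) (z : Vx n) : ℕ := max (ρ z) (if z ∈ ξ then 1 else 0)

/-- state: failures `ξ`, untreated sites `U` -/
def Lam (ρ : Vx n → ℕ) (U ξ : Finset (Vx n)) : Set (Vx n → ℝ) :=
  {f | f ∈ LamP (rx ρ ξ) ∧ ∀ x ∈ U, ∃ k : ℤ, f x = k}

theorem rx_mono (ρ : Vx n → ℕ) (ξ : Finset (Vx n)) (x z : Vx n) :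
    rx ρ ξ z ≤ rx ρ (insert x ξ) z := by
  unfold rx
  by_cases h : z ∈ ξ <;> simp [h]

theorem rx_self (ρ : Vx n → ℕ) (ξ : Finset (Vx n)) (x : Vx n) : 1 ≤ rx ρ (insert x ξ) x := by
  simp [rx]

theorem fail_const {ρ : Vx n → ℕ} {U ξ : Finset (Vx n)} {x : Vx n} {f : Vx n → ℝ}
    (hf : f ∈ Lam ρ U (insert x ξ)) : ∃ k : ℤ, ∀ y, ds x y ≤ 1 → f y = k := by
  obtain ⟨k, hk⟩ := hf.1 x (rx_self ρ ξ x)
  exact ⟨k, fun y hy => hk y (hy.trans (rx_self ρ ξ x))⟩

theorem fail_sub (ρ : Vx n → ℕ) (U ξ : Finset (Vx n)) (x : Vx n) :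
    Lam ρ U (insert x ξ) ⊆ Lam ρ (insert x U) ξ := by
  intro f hf
  refine ⟨lamP_anti (rx_mono ρ ξ x) hf.1, fun y hy => ?_⟩
  rcases mem_insert.1 hy with rfl | hy
  · obtain ⟨k, hk⟩ := fail_const hf
    exact ⟨k, hk _ (by simp)⟩
  · exact hf.2 y hy

theorem one_step (hB : BasicStmt) (hR : RemStmt) {lam β p d1 d0 : ℝ} {ρ : Vx n → ℕ}
    (b0 : 0 < β) (b1 : β ≤ 1 / 4) (hz : 0 < ρ (vz n)) (hl : 0 < ρ (vl n))
    (p0 : 8 * Real.exp (-(10 / (4 * β))) ≤ p) (p1 : p ≤ 1) {U ξ : Finset (Vx n)} {x : Vx n}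
    (m1 : Mul lam (Gm (Lam ρ U ξ) (cL β)) d1) (m0 : Mul lam (Gm (Lam ρ U (insert x ξ)) (cL β)) d0) :
    Mul lam (Gm (Lam ρ (insert x U) ξ) (cL β)) ((1 - p) * d1 + p * d0) := by
  have hp : 0 ≤ p := le_trans (by positivity) p0
  by_cases hx : ∃ z, 0 < rx ρ ξ z ∧ ds z x ≤ rx ρ ξ z
  · refine mul_mix hB hp p1 (gm_mono hB ?_ m1) (gm_mono hB (fail_sub ρ U ξ x) m0)
    intro f hf
    refine ⟨hf.1, fun y hy => ?_⟩
    rcases mem_insert.1 hy with rfl | hy
    · obtain ⟨z, h0, h1⟩ := hx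
      obtain ⟨k, hk⟩ := hf.1 z h0
      exact ⟨k, hk _ h1⟩
    · exact hf.2 y hy
  have off : ∀ z y, 0 < rx ρ ξ z → ds z y ≤ rx ρ ξ z → ind x y = 0 := by
    intro z y h0 h1
    have : y ≠ x := fun e => hx ⟨z, h0, e ▸ h1⟩
    simp [ind, this]
  have iz : ind x (vz n) = 0 := off (vz n) _ (hz.trans_le (le_max_left _ _)) (by simp)
  have il : ind x (vl n) = 0 := off (vl n) _ (hl.trans_le (le_max_left _ _)) (by simp)
  refine hR lam (4 * β) p d1 d0 _ _ _ _
    (fun e => Real.sqrt (cL β e.1 e.2) * (ind x e.1 - ind x e.2)) ?_ (ind_sq b0.le x)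
    (by positivity) (by linarith) p0 p1 ?_ ?_ m1 m0
  · refine AddSubgroup.subset_closure ⟨ind x, ⟨fun z h0 => ⟨0, fun y hy => ?_⟩, fun y _ => ?_⟩, ?_⟩
    · rw [off z y h0 hy]; simp
    · by_cases h : y = x
      · exact ⟨1, by simp [ind, h]⟩
      · exact ⟨0, by simp [ind, h]⟩
    · rw [iz, il]; simp
  · rintro _ ⟨f, hf, rfl⟩
    refine ⟨f x, AddSubgroup.subset_closure ⟨fun y => f y - f x * ind x y,
      ⟨fun z h0 => ?_, fun y hy => ?_⟩, ?_⟩⟩
    · obtain ⟨k, hk⟩ := hf.1 z h0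
      exact ⟨k, fun y hy => by simp only [off z y h0 hy, hk y hy]; simp⟩
    · by_cases h : y = x
      · exact ⟨0, by simp [ind, h]⟩
      · obtain ⟨k, hk⟩ := hf.2 y ((mem_insert.1 hy).resolve_left h)
        exact ⟨k, by simp [ind, h, hk]⟩
    · ext e
      · simp only [Prod.fst_sub, Prod.smul_fst, Pi.sub_apply, Pi.smul_apply, smul_eq_mul]
        ring
      · simp [iz, il]
  · rintro _ ⟨f, hf, rfl⟩
    refine ⟨AddSubgroup.subset_closure ⟨f, fail_sub ρ U ξ x hf, rfl⟩, sum_eq_zero fun e _ => ?_⟩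
    obtain ⟨k, hk⟩ := fail_const hf
    by_cases he : e ∈ Ed n
    · have h1 := ds_edge he
      by_cases a : e.1 = x
      · rw [a] at h1
        simp only [hk _ h1, a, hk x (by simp)]; simp
      · by_cases b : e.2 = x
        · rw [b, ds_comm] at h1
          simp only [hk _ h1, b, hk x (by simp)]; simp
        · simp [ind, a, b]
    · simp [cL, he]

end Site

open Site in
theorem site (hB : BasicStmt) (hR : RemStmt) : SiteStmt := by
  intro n lam β p ρ d b0 b1 hz hl p0 p1 hd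
  have key : ∀ U ξ : Finset (Vx n),
      Mul lam (Gm (Lam ρ U ξ) (cL β)) (PS (fun _ => p) d U ξ) := by
    intro U
    induction U using Finset.induction_on with
    | empty =>
      intro ξ
      rw [PS_empty]
      exact gm_mono hB (fun f hf => ⟨hf, by simp⟩) (hd ξ)
    | insert x U hx ih =>
      intro ξ
      rw [PS_insert _ _ hx]
      exact one_step hB hR b0 b1 hz hl p0 p1 (ih ξ) (ih _)
  rw [← PS_univ]
  refine gm_mono hB (fun f hf => ⟨lamP_anti (fun z => ?_) hf.1, fun x => hf.2 x (mem_univ _)⟩)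
    (key univ ∅)
  exact le_max_left _ _

end Pool.Agent.Lib.MP_9cc147_pr.AllU
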