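import Pool.Agent.Lib.MP_9cc147_pr.U.HMain
import Pool.Agent.Lib.MP_9cc147_pr.U.ASum
import Pool.Agent.Lib.MP_9cc147_pr.U.ARem
import Pool.Agent.Lib.MP_9cc147_pr.U.AFin
import Pool.Agent.Lib.MP_9cc147_pr.U.SprD
import Pool.Agent.Lib.MP_9cc147_pr.U.R2
import Pool.Agent.Lib.MP_9cc147_pr.U.TSite
import Pool.Agent.Lib.MP_9cc147_pr.U.T
import Pool.Agent.Lib.MP_9cc147_pr.U.E
import Pool.Agent.Lib.MP_9cc147_pr.U.Net
import Pool.Agent.Lib.MP_9cc147_pr.U.SFin
import Pool.Agent.Lib.MP_9cc147_pr.U.BFin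

/-! All the sections but the probability bound. -/

namespace Pool.Agent.Lib.MP_9cc147_pr.AllU.F

theorem all_of (hP : PStmt) : All :=
  have hR := AllU.ring basic cmp A.rem (AllU.fin cmp) spring
  ⟨basic, A.sum basic cmp, AllU.site basic A.rem, T.tphase basic hR, E.ephase basic hR, hP,
    sphase net, budget⟩

end Pool.Agent.Lib.MP_9cc147_pr.AllU.F
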