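import Pool.Agent.Lib.MP_9cc147_pr.U.BKit2

/-! Section B (budget): lattice weights, shapes and the statements of the pieces. -/

set_option autoImplicit false

open Finset
open scoped ENNReal

namespace Pool.Agent.Lib.MP_9cc147_pr.AllU.B

/-- lattice weights; the horizontal edge from `x` is steep when `x.2 ∈ E x.1` -/
noncomputable def gW (w ws : ℤ → ℝ≥0∞) (E : ℤ → Finset ℤ) : Wt := fun x x' k =>
  if x' = (x.1 + 1, x.2) then (if x.2 ∈ E x.1 then ws k else w k)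
  else if x' = (x.1, x.2 + 1) then w k else 1

/-- lattice weights without steep edges -/
noncomputable def gL (w : ℤ → ℝ≥0∞) : Wt := gW w w fun _ => ∅

/-- `c` is the inverse of the total mass of `w` (or less) -/
structure Hw (c : ℝ≥0∞) (w ws : ℤ → ℝ≥0∞) (η : ℝ≥0∞) : Prop where
  le1 : ∀ k, w k ≤ 1
  ev : ∀ k, w (-k) = w k
  sum : c * ∑' k, w k ≤ 1
  sle : ∀ k, ws k ≤ w k
  sev : ∀ k, ws (-k) = ws k
  ssum : c * ∑' k, ws k ≤ η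

/-- the rectangle with `a + 1` columns and `b + 1` rows -/
noncomputable def Rc (a b : ℕ) : Finset P := Icc (0:ℤ) a ×ˢ Icc (0:ℤ) b

/-- the box without the corner square of side `r` -/
noncomputable def Yc (n r : ℕ) : Finset P := (Rc n n).filter fun x => (r:ℤ) ≤ x.1 ∨ (r:ℤ) ≤ x.2

/-- the box without a corner triangle -/
noncomputable def Oc (n r : ℕ) : Finset P := (Rc n n).filter fun x => (r:ℤ) ≤ x.1 + x.2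

lemma mem_Rc {a b : ℕ} {x : P} : x ∈ Rc a b ↔ (0 ≤ x.1 ∧ x.1 ≤ a) ∧ 0 ≤ x.2 ∧ x.2 ≤ b := by
  simp [Rc, mem_product]

lemma mem_Yc {n r : ℕ} {x : P} : x ∈ Yc n r ↔
    ((0 ≤ x.1 ∧ x.1 ≤ n) ∧ 0 ≤ x.2 ∧ x.2 ≤ n) ∧ ((r:ℤ) ≤ x.1 ∨ (r:ℤ) ≤ x.2) := by
  rw [Yc, mem_filter, mem_Rc]

lemma mem_Oc {n r : ℕ} {x : P} : x ∈ Oc n r ↔
    ((0 ≤ x.1 ∧ x.1 ≤ n) ∧ 0 ≤ x.2 ∧ x.2 ≤ n) ∧ (r:ℤ) ≤ x.1 + x.2 := by
  rw [Oc, mem_filter, mem_Rc]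

/-- partition function of a rectangle with steep horizontal edges -/
noncomputable def zz (c : ℝ≥0∞) (w ws : ℤ → ℝ≥0∞) (a b : ℕ) (E : ℤ → Finset ℤ) : ℝ≥0∞ :=
  Z c (gW w ws E) (Rc a b) (0, 0)

/-- partition function of a rectangle -/
noncomputable def zr (c : ℝ≥0∞) (w : ℤ → ℝ≥0∞) (a b : ℕ) : ℝ≥0∞ := Z c (gL w) (Rc a b) (0, 0)

/-- words are bounded by the growth rates of their letters -/
def OpSt : Prop :=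
  ∀ (c η : ℝ≥0∞) (w ws : ℤ → ℝ≥0∞), Hw c w ws η → ∀ (a b : ℕ) (lam : Finset ℤ → ℝ≥0∞)
    (E : ℤ → Finset ℤ),
    (∀ x : ℤ, ∃ K : ℝ≥0∞, K ≠ ∞ ∧ ∀ k : ℕ, zz c w ws k b (fun _ => E x) ≤ K * lam (E x) ^ k) →
      zz c w ws a b E ≤ ∏ x ∈ Ico (0:ℤ) a, lam (E x)

/-- growth rate of one letter -/
def LetSt : Prop :=
  ∀ (c η κ φ : ℝ≥0∞) (w ws : ℤ → ℝ≥0∞), Hw c w ws η → κ ≤ φ → φ ≤ 1 →
    (∀ a b : ℕ, zr c w a b ≤ φ ^ (a * b)) → ∀ (k b : ℕ) (E : Finset ℤ), E ⊆ Icc (0:ℤ) b →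
      κ ^ (2 * E.card * k) * zz c w ws k b (fun _ => E) ≤ φ ^ (k * b) * η ^ (E.card * k)

/-- the free energy -/
def PhiSt : Prop :=
  ∀ (c κ : ℝ≥0∞) (w : ℤ → ℝ≥0∞), Hw c w w 1 → κ ≤ zr c w 1 1 → ∃ φ : ℝ≥0∞, κ ≤ φ ∧ φ ≤ 1 ∧
    ∀ a b : ℕ, φ ^ ((a + 1) * (b + 1)) ≤ zr c w a b ∧ zr c w a b ≤ φ ^ (a * b)

def NotchA : Prop :=
  ∀ (c : ℝ≥0∞) (w : ℤ → ℝ≥0∞), Hw c w w 1 → ∀ n r : ℕ, r + 2 ≤ n →
    Z c (gL w) (Oc n r) (n, n) ^ 2 ≤ zr c w n n * Z c (gL w) (Yc n (r + 2)) (n, n)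

def NotchB : Prop :=
  ∀ (c : ℝ≥0∞) (w : ℤ → ℝ≥0∞), Hw c w w 1 → ∀ n r : ℕ, 2 * r + 1 ≤ n →
    Z c (gL w) (Yc n r) (n, n) ^ 2 ≤ zr c w n n * Z c (gL w) (Oc n (2 * r + 2)) (n, n)

variable {c η : ℝ≥0∞} {w ws : ℤ → ℝ≥0∞} {E : ℤ → Finset ℤ}

lemma Hw.base (H : Hw c w ws η) : Hw c w w 1 := ⟨H.le1, H.ev, H.sum, fun _ => le_rfl, H.ev, H.sum⟩

lemma Hw.le1W (H : Hw c w ws η) (E : ℤ → Finset ℤ) : Le1 (gW w ws E) := fun x x' k => by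
  unfold gW
  split_ifs
  exacts [(H.sle k).trans (H.le1 k), H.le1 k, H.le1 k, le_rfl]

/-- the weight of an unordered pair, in a form for case distinctions -/
lemma sy_gW (H : Hw c w ws η) (E : ℤ → Finset ℤ) (x x' : P) (k : ℤ) : sy (gW w ws E) x x' k =
    if x'.1 = x.1 + 1 ∧ x'.2 = x.2 then (if x.2 ∈ E x.1 then ws k else w k)
    else if x.1 = x'.1 + 1 ∧ x.2 = x'.2 then (if x'.2 ∈ E x'.1 then ws k else w k)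
    else if x'.1 = x.1 ∧ (x'.2 = x.2 + 1 ∨ x.2 = x'.2 + 1) then w k else 1 := by
  simp only [sy, gW, Prod.ext_iff, H.ev, H.sev]
  split_ifs <;> first | omega | simp

lemma sy_gL (H : Hw c w ws η) (x x' : P) (k : ℤ) : sy (gL w) x x' k =
    if (x'.2 = x.2 ∧ (x'.1 = x.1 + 1 ∨ x.1 = x'.1 + 1)) ∨
      (x'.1 = x.1 ∧ (x'.2 = x.2 + 1 ∨ x.2 = x'.2 + 1)) then w k else 1 := by
  rw [gL, sy_gW H.base]
  simp only [notMem_empty, if_false]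
  split_ifs <;> first | rfl | omega

lemma Hw.lnk (H : Hw c w ws η) (E : ℤ → Finset ℤ) {x x' : P}
    (h : (x'.2 = x.2 ∧ (x'.1 = x.1 + 1 ∨ x.1 = x'.1 + 1)) ∨
      (x'.1 = x.1 ∧ (x'.2 = x.2 + 1 ∨ x.2 = x'.2 + 1))) : Lnk c (gW w ws E) 1 x x' := by
  refine le_trans (mul_le_mul_right (ENNReal.tsum_le_tsum fun k => ?_) _) H.sum
  rw [sy_gW H]
  split_ifs <;> first | exact H.sle k | exact le_rfl | omega

lemma Hw.noP (H : Hw c w ws η) (E : ℤ → Finset ℤ) {A B : Finset P}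
    (h : ∀ x ∈ A, ∀ x' ∈ B, ¬ ((x'.2 = x.2 ∧ (x'.1 = x.1 + 1 ∨ x.1 = x'.1 + 1)) ∨
      (x'.1 = x.1 ∧ (x'.2 = x.2 + 1 ∨ x.2 = x'.2 + 1)))) : NoP (gW w ws E) A B := by
  intro x hx x' hx' k
  have := h x hx x' hx'
  rw [sy_gW H]
  split_ifs <;> first | rfl | omega

end Pool.Agent.Lib.MP_9cc147_pr.AllU.B
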