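import Pool.Agent.Lib.MP_9cc147_pr.U.BDefs

/-! Section B (budget): growth rate of one letter. -/

open Finset
open scoped ENNReal

namespace Pool.Agent.Lib.MP_9cc147_pr.AllU.B

namespace Let

/-- `n` rows starting at `lo`, `k + 1` columns -/
noncomputable def Rw (k : ℕ) (lo : ℤ) (n : ℕ) : Finset P := Icc (0:ℤ) k ×ˢ Ico lo (lo + n)

lemma mem_Rw {k n : ℕ} {lo : ℤ} {x : P} :
    x ∈ Rw k lo n ↔ (0 ≤ x.1 ∧ x.1 ≤ k) ∧ lo ≤ x.2 ∧ x.2 < lo + n := by
  simp [Rw, mem_product]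

noncomputable def W (c : ℝ≥0∞) (g : Wt) (k : ℕ) (lo : ℤ) (n : ℕ) : ℝ≥0∞ :=
  if n = 0 then 1 else Z c g (Rw k lo n) (0, lo)

variable {c η φ : ℝ≥0∞} {w ws : ℤ → ℝ≥0∞}

lemma W_cut (H : Hw c w ws η) (E : ℤ → Finset ℤ) (k : ℕ) (lo : ℤ) (n1 n2 : ℕ) :
    W c (gW w ws E) k lo (n1 + n2) ≤
      W c (gW w ws E) k lo n1 * W c (gW w ws E) k (lo + n1) n2 := by
  rcases Nat.eq_zero_or_pos n1 with rfl | h1
  · simp [W]
  rcases Nat.eq_zero_or_pos n2 with rfl | h2
  · simp [W]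
  unfold W
  rw [if_neg (by omega), if_neg (by omega), if_neg (by omega)]
  have e : Rw k lo (n1 + n2) = Rw k lo n1 ∪ Rw k (lo + n1) n2 := by
    ext x
    simp only [mem_union, mem_Rw]
    push_cast
    omega
  have hd : Disjoint (Rw k lo n1) (Rw k (lo + n1) n2) := disjoint_left.2 fun x a b => by
    rw [mem_Rw] at a b; omega
  have a0 : ((0 : ℤ), lo) ∈ Rw k lo n1 := by rw [mem_Rw]; dsimp only; omega
  have a1 : ((0 : ℤ), lo + n1 - 1) ∈ Rw k lo n1 := by rw [mem_Rw]; dsimp only; omega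
  have a2 : ((0 : ℤ), lo + n1) ∈ Rw k (lo + n1) n2 := by rw [mem_Rw]; dsimp only; omega
  have := Z_cut (c := c) (H.le1W E) hd a1 a2 (H.lnk E (by dsimp only; omega)) (mem_union_left _ a0)
  rwa [one_mul, Z_pin a1 a0, ← e] at this

lemma W_congr (H : Hw c w ws η) {E E' : Finset ℤ} (k : ℕ) (lo : ℤ) (n : ℕ)
    (h : ∀ y, lo ≤ y → y < lo + n → (y ∈ E ↔ y ∈ E')) :
    W c (gW w ws fun _ => E) k lo n = W c (gW w ws fun _ => E') k lo n := by
  unfold W Z
  rw [F_congr (g' := gW w ws fun _ => E') fun x hx x' hx' j => ?_]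
  rw [mem_Rw] at hx hx'
  rw [sy_gW H, sy_gW H]
  simp only [h x.2 hx.2.1 hx.2.2, h x'.2 hx'.2.1 hx'.2.2]

lemma W_flat (H : Hw c w ws η) (hz : ∀ a b : ℕ, zr c w a b ≤ φ ^ (a * b)) (k : ℕ) (lo : ℤ)
    (n : ℕ) : W c (gW w ws fun _ => ∅) k lo n ≤ φ ^ (k * (n - 1)) := by
  rcases n with _ | n
  · simp [W]
  unfold W
  rw [if_neg (Nat.succ_ne_zero n)]
  refine le_trans (le_of_eq ?_) (hz k n)
  refine Z_map (Equiv.addRight ((0 : ℤ), lo)) (fun x => ?_) (by rw [mem_Rc]; simp)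
    (by rw [mem_Rw]; simp) fun x _ x' _ j => ?_
  · rw [mem_Rw, mem_Rc]
    simp only [Equiv.coe_addRight, Prod.fst_add, Prod.snd_add]
    push_cast
    omega
  · rw [sy_gW H, sy_gL H]
    simp only [Equiv.coe_addRight, Prod.fst_add, Prod.snd_add, notMem_empty, if_false]
    split_ifs <;> first | rfl | omega

lemma W_line (H : Hw c w ws η) {E : Finset ℤ} (k : ℕ) {s : ℤ} (hs : s ∈ E) :
    W c (gW w ws fun _ => E) k s 1 ≤ η ^ k := by
  unfold W
  rw [if_neg one_ne_zero]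
  have a0 : ((0 : ℤ), s) ∈ Rw k s 1 := by rw [mem_Rw]; dsimp only; omega
  refine (Z_tree (H.le1W _) a0 (fun x => x.1) (fun _ => η) ?_).trans (le_of_eq ?_)
  · rintro ⟨x1, x2⟩ hx hne
    rw [mem_Rw] at hx
    have hne' : ¬ (x1 = 0 ∧ x2 = s) := by simpa using hne
    dsimp only at hx
    have e : x2 = s := by omega
    subst e
    refine ⟨(x1 - 1, x2), by rw [mem_Rw]; dsimp only; omega, by dsimp only; omega, ?_⟩
    refine le_trans (le_of_eq ?_) H.ssum
    congr 2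
    funext j
    rw [sy_gW H, if_neg (by dsimp only; omega), if_pos (by dsimp only; omega), if_pos hs]
  · rw [prod_const, card_erase_of_mem a0]
    simp [Rw]

lemma main (H : Hw c w ws η) {κ : ℝ≥0∞} (h1 : κ ≤ φ) (h2 : φ ≤ 1)
    (hz : ∀ a b : ℕ, zr c w a b ≤ φ ^ (a * b)) (k : ℕ) (E : Finset ℤ) :
    ∀ n : ℕ, (∀ y ∈ E, 0 ≤ y ∧ y < n) → κ ^ (2 * E.card * k) * W c (gW w ws fun _ => E) k 0 n ≤
      φ ^ (k * (n - 1)) * η ^ (E.card * k) := by
  induction E using Finset.induction_on_max with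
  | empty => intro n _; simpa using W_flat H hz k 0 n
  | insert s E hs ih =>
    intro n hn
    have hsE : s ∉ E := fun h => lt_irrefl _ (hs s h)
    obtain ⟨s0, s1⟩ := hn s (mem_insert_self _ _)
    lift s to ℕ using s0
    obtain ⟨m, rfl⟩ : ∃ m, n = s + (1 + m) := ⟨n - s - 1, by omega⟩
    have c1 := W_cut H (fun _ => insert (s : ℤ) E) k 0 s (1 + m)
    have c2 := W_cut H (fun _ => insert (s : ℤ) E) k (0 + s) 1 m
    have e1 := W_congr H (E := insert (s : ℤ) E) (E' := E) k 0 s fun y _ hy => by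
      rw [mem_insert]; exact or_iff_right (by omega)
    have e2 := W_congr H (E := insert (s : ℤ) E) (E' := ∅) k (0 + s + (1 : ℕ)) m fun y hy _ => by
      simp only [mem_insert, notMem_empty, iff_false, not_or]
      exact ⟨by omega, fun h => by have := hs y h; omega⟩
    have b1 := ih s fun y hy => ⟨(hn y (mem_insert_of_mem hy)).1, hs y hy⟩
    have b2 := W_line H k (E := insert (s : ℤ) E) (s := 0 + s) (by simp)
    have b3 := W_flat H hz k (0 + s + (1 : ℕ)) m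
    rw [e2] at c2
    rw [e1] at c1
    have b4 : κ ^ (2 * k) * φ ^ (k * (s - 1)) * φ ^ (k * (m - 1)) ≤ φ ^ (k * (s + (1 + m) - 1)) := by
      refine le_trans (mul_le_mul_left (mul_le_mul_left (pow_le_pow_left' h1 _) _) _) ?_
      rw [← pow_add, ← pow_add]
      refine pow_le_pow_right_of_le_one' h2 ?_
      rw [mul_comm 2 k, ← mul_add, ← mul_add]
      exact Nat.mul_le_mul_left _ (by omega)
    rw [card_insert_of_notMem hsE]
    calc κ ^ (2 * (E.card + 1) * k) * W c (gW w ws fun _ => insert (s : ℤ) E) k 0 (s + (1 + m))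
        ≤ κ ^ (2 * (E.card + 1) * k) *
          (W c (gW w ws fun _ => E) k 0 s * (η ^ k * φ ^ (k * (m - 1)))) :=
          mul_le_mul_right (c1.trans (mul_le_mul_right (c2.trans (mul_le_mul' b2 b3)) _)) _
      _ = κ ^ (2 * E.card * k) * W c (gW w ws fun _ => E) k 0 s *
          (κ ^ (2 * k) * η ^ k * φ ^ (k * (m - 1))) := by ring
      _ ≤ φ ^ (k * (s - 1)) * η ^ (E.card * k) * (κ ^ (2 * k) * η ^ k * φ ^ (k * (m - 1))) :=
          mul_le_mul_left b1 _
      _ = κ ^ (2 * k) * φ ^ (k * (s - 1)) * φ ^ (k * (m - 1)) * η ^ ((E.card + 1) * k) := by ring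
      _ ≤ _ := mul_le_mul_left b4 _

end Let

theorem letSt : LetSt := by
  intro c η κ φ w ws H h1 h2 hz k b E hE
  have := Let.main H h1 h2 hz k E (b + 1) fun y hy => by
    have := mem_Icc.1 (hE hy)
    push_cast
    omega
  have e : Let.Rw k 0 (b + 1) = Rc k b := by
    ext x
    rw [Let.mem_Rw, mem_Rc]
    push_cast
    omega
  rw [Let.W, if_neg (Nat.succ_ne_zero b), e] at this
  exact this

end Pool.Agent.Lib.MP_9cc147_pr.AllU.B
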