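import Pool.Agent.Lib.MP_9cc147_pr.U.BDefs

/-! Budget: the first notch inequality. -/

open Finset
open scoped ENNReal

namespace Pool.Agent.Lib.MP_9cc147_pr.AllU.B.NA

/-- neighbours -/
def Ad (x x' : P) : Prop :=
  (x.1 = x'.1 ∧ (x.2 + 1 = x'.2 ∨ x'.2 + 1 = x.2)) ∨ (x.2 = x'.2 ∧ (x.1 + 1 = x'.1 ∨ x'.1 + 1 = x.1))

/-- reflection in the line `x + y = s` -/
def rf (s : ℤ) : P ≃ P where
  toFun x := (s - x.2, s - x.1)
  invFun x := (s - x.2, s - x.1)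
  left_inv x := by simp
  right_inv x := by simp

@[simp] lemma rf_1 (s : ℤ) (x : P) : (rf s x).1 = s - x.2 := rfl
@[simp] lemma rf_2 (s : ℤ) (x : P) : (rf s x).2 = s - x.1 := rfl

/-- band of a square -/
noncomputable def bd (lo hi a b : ℤ) : Finset P :=
  (Icc lo hi ×ˢ Icc lo hi).filter fun x => a ≤ x.1 + x.2 ∧ x.1 + x.2 ≤ b

lemma mem_bd {lo hi a b : ℤ} {x : P} : x ∈ bd lo hi a b ↔
    lo ≤ x.1 ∧ x.1 ≤ hi ∧ lo ≤ x.2 ∧ x.2 ≤ hi ∧ a ≤ x.1 + x.2 ∧ x.1 + x.2 ≤ b := by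
  simp only [bd, mem_filter, mem_product, mem_Icc]
  tauto

theorem main {c : ℝ≥0∞} {g : Wt} {W : ℤ → ℝ≥0∞} (hg : Le1 g)
    (h1 : ∀ x x' k, Ad x x' → sy g x x' k = W k) (h0 : ∀ x x' k, ¬ Ad x x' → sy g x x' k = 1)
    (hW : c * ∑' k, W k ≤ 1) {n r : ℤ} (hr : 2 ≤ r) (hn : r ≤ n) {O Q Y : Finset P}
    (hO : ∀ x, x ∈ O ↔ 0 ≤ x.1 ∧ x.1 ≤ n ∧ 0 ≤ x.2 ∧ x.2 ≤ n ∧ r - 2 ≤ x.1 + x.2)
    (hQ : ∀ x, x ∈ Q ↔ 0 ≤ x.1 ∧ x.1 ≤ n ∧ 0 ≤ x.2 ∧ x.2 ≤ n)
    (hY : ∀ x, x ∈ Y ↔ 0 ≤ x.1 ∧ x.1 ≤ n ∧ 0 ≤ x.2 ∧ x.2 ≤ n ∧ (r ≤ x.1 ∨ r ≤ x.2))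
    {vO vQ vY : P} (mO : vO ∈ O) (mQ : vQ ∈ Q) (mY : vY ∈ Y) :
    Z c g O vO ^ 2 ≤ Z c g Q vQ * Z c g Y vY := by
  have lnk : ∀ x x', Ad x x' → Lnk c g 1 x x' := fun x x' h => by
    simpa only [Lnk, h1 x x' _ h] using hW
  have nop : ∀ {A B : Finset P}, (∀ x ∈ A, ∀ x' ∈ B, ¬ Ad x x') → NoP g A B :=
    fun h x hx x' hx' k => h0 x x' k (h x hx x' hx')
  have inv : ∀ (θ : P ≃ P), (∀ x x', Ad (θ x) (θ x') ↔ Ad x x') →
      ∀ x x' k, sy g (θ x) (θ x') k = sy g x x' k := fun θ h x x' k => by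
    by_cases e : Ad x x'
    · rw [h1 _ _ _ e, h1 _ _ _ ((h _ _).2 e)]
    · rw [h0 _ _ _ e, h0 _ _ _ (mt (h _ _).1 e)]
  have dis : ∀ {A B : Finset P}, (∀ x, x ∈ A → x ∈ B → False) → Disjoint A B :=
    fun h => disjoint_left.2 fun x hx hx' => h x hx hx'
  have irf := inv (rf (r - 1)) fun x x' => by simp only [Ad, rf_1, rf_2]; omega
  set A := bd 0 n (r - 2) (r - 2) with eA
  set A' := bd 1 (r - 1) r r with eA'
  set D := bd 0 n (r - 1) (r - 1) with eD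
  set B := bd 0 n r (2 * n) with eB
  set B' := bd (r - 1 - n) (r - 1) (2 * (r - 1 - n)) (r - 2) with eB'
  set Q' := bd (r - 1 - n) (r - 1) (2 * (r - 1 - n)) (2 * (r - 1)) with eQ'
  have hv : ((0, r - 1) : P) ∈ D := by simp only [eD, mem_bd]; omega
  have fixD : ∀ x ∈ D, rf (r - 1) x = x := fun x hx => by
    simp only [eD, mem_bd] at hx
    refine Prod.ext ?_ ?_ <;> simp only [rf_1, rf_2] <;> omega
  have e1 : O = A ∪ B ∪ D := by
    ext x
    simp only [hO, eA, eB, eD, mem_union, mem_bd]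
    omega
  have e2 : B' ∪ B ∪ D = Q' ∪ Y := by
    ext x
    simp only [hY, eB, eB', eD, eQ', mem_union, mem_bd]
    omega
  have rp := Z_rp (c := c) (g := g) (g1 := g) (g2 := g) (A := A) (B := B) (D := D) (A' := A')
    (B' := B') (v := (0, r - 1))
    (dis fun x => by simp only [eA, eB, mem_bd]; omega)
    (dis fun x => by simp only [eA, eD, mem_bd]; omega)
    (dis fun x => by simp only [eB, eD, mem_bd]; omega)
    (nop fun x hx x' hx' => by simp only [eA, eB, mem_bd, Ad] at *; omega) hv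
    (dis fun x => by simp only [eA, eA', mem_bd]; omega)
    (dis fun x => by simp only [eA', eD, mem_bd]; omega)
    (nop fun x hx x' hx' => by simp only [eA, eA', mem_bd, Ad] at *; omega)
    (dis fun x => by simp only [eB, eB', mem_bd]; omega)
    (dis fun x => by simp only [eB', eD, mem_bd]; omega)
    (nop fun x hx x' hx' => by simp only [eB, eB', mem_bd, Ad] at *; omega)
    rfl rfl rfl
    (Ph_refl (rf (r - 1)) (fun x => by simp only [eA, eA', mem_bd, rf_1, rf_2]; omega) fixD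
      fun x _ x' _ k => irf x x' k)
    rfl
    (Ph_refl (rf (r - 1)) (fun x => by simp only [eB, eB', mem_bd, rf_1, rf_2]; omega) fixD
      fun x _ x' _ k => irf x x' k)
  have t1 : Z c g (A ∪ A' ∪ D) (0, r - 1) ≤ 1 := by
    have := Z_tree (c := c) (V := A ∪ A' ∪ D) (v := (0, r - 1)) hg (mem_union_right _ hv)
      (fun x => x.1 - x.2) (fun _ => 1) (fun x hx hne => by
        have hne' : x.1 ≠ 0 ∨ x.2 ≠ r - 1 := by
          by_contra hh
          exact hne (Prod.ext (by simp only; omega) (by simp only; omega))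
        by_cases hs : x.1 + x.2 = r - 2
        · refine ⟨(x.1, x.2 + 1), ?_, by simp only; omega, lnk _ _ (by simp [Ad])⟩
          simp only [eA, eA', eD, mem_union, mem_bd] at *
          omega
        · refine ⟨(x.1 - 1, x.2), ?_, by simp only; omega, lnk _ _ (by simp [Ad])⟩
          simp only [eA, eA', eD, mem_union, mem_bd] at *
          omega)
    simpa using this
  have m1 : ((r - 1, 0) : P) ∈ Q' := by simp only [eQ', mem_bd]; omega
  have m2 : ((r, 0) : P) ∈ Y := by simp only [hY]; omega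
  have t2 : Z c g (Q' ∪ Y) (0, r - 1) ≤ Z c g Q' (r - 1, 0) * (1 * Z c g Y (r, 0)) :=
    Z_cut hg (dis fun x => by simp only [eQ', hY, mem_bd]; omega) m1 m2
      (lnk _ _ (by simp [Ad])) (e2 ▸ mem_union_right _ hv)
  have t3 : Z c g Q' (r - 1, 0) = Z c g Q vQ :=
    Z_map (rf (r - 1)) (fun x => by simp only [eQ', hQ, mem_bd, rf_1, rf_2]; omega) mQ m1
      fun x _ x' _ k => irf x x' k
  rw [Z_pin mO (e1 ▸ mem_union_right _ hv : ((0, r - 1) : P) ∈ O), e1]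
  rw [e2] at rp
  rw [one_mul, t3, Z_pin m2 mY] at t2
  calc _ ≤ _ := rp
    _ ≤ 1 * (Z c g Q vQ * Z c g Y vY) := mul_le_mul' t1 t2
    _ = _ := one_mul _

end Pool.Agent.Lib.MP_9cc147_pr.AllU.B.NA

namespace Pool.Agent.Lib.MP_9cc147_pr.AllU.B

theorem notchA : NotchA := by
  intro c w H n r hr
  refine NA.main (g := gL w) (W := w) (n := n) (r := r + 2) (H.le1W _) (fun x x' k h => ?_) (fun x x' k h => ?_)
    H.sum (by omega) (by omega) (fun x => ?_) (fun x => ?_) (fun x => ?_) ?_ ?_ ?_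
  · rw [sy_gL H, if_pos]
    unfold NA.Ad at h
    omega
  · rw [sy_gL H, if_neg]
    unfold NA.Ad at h
    omega
  · rw [mem_Oc]; omega
  · rw [mem_Rc]; omega
  · rw [mem_Yc]; omega
  · rw [mem_Oc]; simp only; omega
  · rw [mem_Rc]; simp only; omega
  · rw [mem_Yc]; simp only; omega

end Pool.Agent.Lib.MP_9cc147_pr.AllU.B
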