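import Pool.Agent.Lib.MP_9cc147_pr.U.BDefs

/-! Budget, notch inequality B: the box without a corner square against the box and the box
without a corner triangle. -/

open Finset
open scoped ENNReal

namespace Pool.Agent.Lib.MP_9cc147_pr.AllU.B

namespace NB

/-- lattice neighbours -/
def Adj (x x' : P) : Prop :=
  (x.1 = x'.1 ∧ (x.2 = x'.2 + 1 ∨ x'.2 = x.2 + 1)) ∨ (x.2 = x'.2 ∧ (x.1 = x'.1 + 1 ∨ x'.1 = x.1 + 1))

/-- a homogeneous nearest neighbour weight of normalised mass at most one -/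
structure Lat (c : ℝ≥0∞) (g : Wt) (W : ℤ → ℝ≥0∞) : Prop where
  le1 : Le1 g
  on : ∀ x x' k, Adj x x' → sy g x x' k = W k
  off : ∀ x x' k, ¬ Adj x x' → sy g x x' k = 1
  mass : c * ∑' k, W k ≤ 1

variable {c : ℝ≥0∞} {g : Wt} {W : ℤ → ℝ≥0∞}

lemma Lat.lnk (h : Lat c g W) {x x' : P} (a : Adj x x') : Lnk c g 1 x x' := by
  unfold Lnk
  simp only [h.on x x' _ a]
  exact h.mass

lemma Lat.nop (h : Lat c g W) {A B : Finset P} (a : ∀ x ∈ A, ∀ x' ∈ B, ¬ Adj x x') : NoP g A B :=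
  fun x hx x' hx' k => h.off x x' k (a x hx x' hx')

lemma Lat.iso (h : Lat c g W) {x x' z z' : P} (a : Adj z z' ↔ Adj x x') (k : ℤ) :
    sy g z z' k = sy g x x' k := by
  by_cases b : Adj x x'
  · rw [h.on _ _ _ b, h.on _ _ _ (a.2 b)]
  · rw [h.off _ _ _ b, h.off _ _ _ fun e => b (a.1 e)]

/-- reflection of the first coordinate -/
def rf (r : ℤ) : P ≃ P where
  toFun x := (2 * r - x.1, x.2)
  invFun x := (2 * r - x.1, x.2)
  left_inv x := by simp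
  right_inv x := by simp

/-- exchange of the coordinates -/
def sw : P ≃ P := Equiv.prodComm ℤ ℤ

lemma rf1 (r : ℤ) (x : P) : (rf r x).1 = 2 * r - x.1 := rfl
lemma rf2 (r : ℤ) (x : P) : (rf r x).2 = x.2 := rfl
lemma sw1 (x : P) : (sw x).1 = x.2 := rfl
lemma sw2 (x : P) : (sw x).2 = x.1 := rfl

lemma adj_rf (r : ℤ) (x x' : P) : Adj (rf r x) (rf r x') ↔ Adj x x' := by
  simp only [Adj, rf1, rf2]
  omega

lemma adj_sw (x x' : P) : Adj (sw x) (sw x') ↔ Adj x x' := by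
  simp only [Adj, sw1, sw2]
  omega

lemma mk (n : ℤ) (p : P → Prop) (h : ∀ x, p x → -1 ≤ x.1 ∧ x.1 ≤ n ∧ -1 ≤ x.2 ∧ x.2 ≤ n) :
    ∃ S : Finset P, ∀ x, x ∈ S ↔ p x := by
  classical
  refine ⟨(Icc (-1) n ×ˢ Icc (-1) n).filter p, fun x => ⟨fun hx => (mem_filter.1 hx).2, fun hx => ?_⟩⟩
  have := h x hx
  refine mem_filter.2 ⟨mem_product.2 ⟨mem_Icc.2 ?_, mem_Icc.2 ?_⟩, hx⟩ <;> omega

lemma mg_prod {A B D : Finset P} {f f' : (P → ℤ) → ℝ≥0∞} (hAB : Disjoint A B) (hAD : Disjoint A D)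
    (hBD : Disjoint B D) (hf : Dep (A ∪ D) f) (hf' : Dep (B ∪ D) f') (m : P → ℤ) :
    mg c (A ∪ B) (fun y => f y * f' y) m = mg c A f m * mg c B f' m := by
  rw [mg_union hAB]
  have e : mg c B (fun y => f y * f' y) = fun y => mg c B f' y * f y := by
    funext y
    rw [mg_mul hf (disjoint_union_left.2 ⟨hAB, hBD.symm⟩), mul_comm]
  rw [e, mg_mul (mg_dep hf') hAD.symm, mul_comm]

/-- the lower half of the slit box against the lower half of the box -/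
lemma half (h : Lat c g W) {n r : ℤ} (hr : 0 ≤ r) (hn : r ≤ n) {D Δ L Te : Finset P}
    (hD : ∀ x, x ∈ D ↔ x.1 = x.2 ∧ 0 ≤ x.1 ∧ x.1 < r)
    (hΔ : ∀ x, x ∈ Δ ↔ x.1 = x.2 ∧ r ≤ x.1 ∧ x.1 ≤ n)
    (hL : ∀ x, x ∈ L ↔ 0 ≤ x.2 ∧ x.2 < x.1 ∧ x.1 ≤ n)
    (hT : ∀ x, x ∈ Te ↔ x.2 = x.1 + 1 ∧ -1 ≤ x.1 ∧ x.1 < r) (y : P → ℤ) :
    Ph c g (D ∪ (L ∪ Te)) Δ y ^ 2 ≤ mg c D (fun z => Ph c g L (D ∪ Δ) z ^ 2) y := by
  have d1 : Disjoint D Δ := disjoint_left.2 fun x a b => by rw [hD] at a; rw [hΔ] at b; omega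
  have d2 : Disjoint D L := disjoint_left.2 fun x a b => by rw [hD] at a; rw [hL] at b; omega
  have d3 : Disjoint D Te := disjoint_left.2 fun x a b => by rw [hD] at a; rw [hT] at b; omega
  have d4 : Disjoint L Δ := disjoint_left.2 fun x a b => by rw [hL] at a; rw [hΔ] at b; omega
  have d5 : Disjoint Te Δ := disjoint_left.2 fun x a b => by rw [hT] at a; rw [hΔ] at b; omega
  have d6 : Disjoint L Te := disjoint_left.2 fun x a b => by rw [hL] at a; rw [hT] at b; omega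
  have d7 : Disjoint L (D ∪ Δ) := disjoint_union_right.2 ⟨d2.symm, d4⟩
  have d8 : Disjoint Te (D ∪ Δ) := disjoint_union_right.2 ⟨d3.symm, d5⟩
  have n1 : NoP g D D := h.nop fun x a x' b => by rw [hD] at a b; unfold Adj; omega
  have n2 : NoP g D Δ := h.nop fun x a x' b => by rw [hD] at a; rw [hΔ] at b; unfold Adj; omega
  have n3 : NoP g L Te := h.nop fun x a x' b => by rw [hL] at a; rw [hT] at b; unfold Adj; omega
  have t1 : ∀ z, Ph c g Te (D ∪ Δ) z ≤ 1 := fun z => by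
    refine (Ph_tree h.le1 d8 (fun _ => 0) (fun _ => 1) fun x a => ?_).trans (by simp)
    rw [hT] at a
    refine ⟨(x.1 + 1, x.2), Or.inl ?_, h.lnk (by unfold Adj; simp)⟩
    rw [mem_union, hD, hΔ]
    dsimp only
    omega
  have t2 : Ph c g (D ∪ Te) Δ y ≤ 1 := by
    refine (Ph_tree h.le1 (disjoint_union_left.2 ⟨d1, d5⟩) (fun x => -(x.1 + x.2)) (fun _ => 1)
      fun x a => ?_).trans (by simp)
    rw [mem_union, hD, hT] at a
    rcases a with a | a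
    · refine ⟨(x.1, x.2 + 1), ?_, h.lnk (by unfold Adj; simp)⟩
      rw [mem_union, hD, hΔ, hT]
      dsimp only
      omega
    · refine ⟨(x.1 + 1, x.2), ?_, h.lnk (by unfold Adj; simp)⟩
      rw [mem_union, hD, hΔ, hT]
      dsimp only
      omega
  rw [Ph_union d3 d1 d5] at t2
  rw [Ph_union (disjoint_union_right.2 ⟨d2, d3⟩) d1 (disjoint_union_left.2 ⟨d4, d5⟩)]
  simp only [F_one n1, X_one n2, one_mul, Ph_mul d6 d7 d8 n3] at t2 ⊢
  have cs := mg_cs (c := c) (V := D) (a := fun _ => 1) (f := Ph c g L (D ∪ Δ))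
    (g := Ph c g Te (D ∪ Δ)) (m := y)
  simp only [one_mul] at cs
  refine cs.trans (mul_le_of_le_one_right' (le_trans (mg_mono fun z _ => ?_) t2))
  rw [sq]
  exact mul_le_of_le_one_right' (t1 z)

theorem core (h : Lat c g W) {n r : ℤ} (hr : 0 ≤ r) (hn : 2 * r + 1 ≤ n) {Q Y O : Finset P}
    (hQ : ∀ x, x ∈ Q ↔ 0 ≤ x.1 ∧ x.1 ≤ n ∧ 0 ≤ x.2 ∧ x.2 ≤ n)
    (hY : ∀ x, x ∈ Y ↔ (0 ≤ x.1 ∧ x.1 ≤ n ∧ 0 ≤ x.2 ∧ x.2 ≤ n) ∧ (r ≤ x.1 ∨ r ≤ x.2))
    (hO : ∀ x, x ∈ O ↔ (0 ≤ x.1 ∧ x.1 ≤ n ∧ 0 ≤ x.2 ∧ x.2 ≤ n) ∧ 2 * r + 2 ≤ x.1 + x.2)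
    {vQ vY vO : P} (mQ : vQ ∈ Q) (mY : vY ∈ Y) (mO : vO ∈ O) :
    Z c g Y vY ^ 2 ≤ Z c g Q vQ * Z c g O vO := by
  obtain ⟨l, hl⟩ := mk n (fun x => (x.1 = r ∧ 0 ≤ x.2 ∧ x.2 ≤ r) ∨ (x.2 = r ∧ 0 ≤ x.1 ∧ x.1 ≤ r))
    fun x a => by omega
  obtain ⟨lv, hlv⟩ := mk n (fun x => x.1 = r ∧ 0 ≤ x.2 ∧ x.2 ≤ r) fun x a => by omega
  obtain ⟨lh, hlh⟩ := mk n (fun x => x.2 = r ∧ 0 ≤ x.1 ∧ x.1 ≤ r) fun x a => by omega
  obtain ⟨T1, hT1⟩ := mk n (fun x => r < x.1 ∧ 0 ≤ x.2 ∧ x.1 + x.2 ≤ 2 * r + 1) fun x a => by omega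
  obtain ⟨T2, hT2⟩ := mk n (fun x => r < x.2 ∧ 0 ≤ x.1 ∧ x.1 + x.2 ≤ 2 * r + 1) fun x a => by omega
  obtain ⟨T', hT'⟩ := mk n (fun x => x.1 < r ∧ 0 ≤ x.2 ∧ x.2 ≤ x.1 + 1) fun x a => by omega
  obtain ⟨Lo, hLo⟩ := mk n (fun x => 0 ≤ x.2 ∧ x.2 < x.1 ∧ r ≤ x.1 ∧ x.1 ≤ n) fun x a => by omega
  obtain ⟨Up, hUp⟩ := mk n (fun x => 0 ≤ x.1 ∧ x.1 < x.2 ∧ r ≤ x.2 ∧ x.2 ≤ n) fun x a => by omega
  obtain ⟨D, hD⟩ := mk n (fun x => x.1 = x.2 ∧ 0 ≤ x.1 ∧ x.1 < r) fun x a => by omega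
  obtain ⟨Δ, hΔ⟩ := mk n (fun x => x.1 = x.2 ∧ r ≤ x.1 ∧ x.1 ≤ n) fun x a => by omega
  obtain ⟨L, hL⟩ := mk n (fun x => 0 ≤ x.2 ∧ x.2 < x.1 ∧ x.1 ≤ n) fun x a => by omega
  obtain ⟨U, hU⟩ := mk n (fun x => 0 ≤ x.1 ∧ x.1 < x.2 ∧ x.2 ≤ n) fun x a => by omega
  obtain ⟨Te, hT⟩ := mk n (fun x => x.2 = x.1 + 1 ∧ -1 ≤ x.1 ∧ x.1 < r) fun x a => by omega
  have vl : (r, r) ∈ l := by rw [hl]; dsimp only; omega
  have vΔ : (r, r) ∈ Δ := by rw [hΔ]; dsimp only; omega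
  have vY' : (r, r) ∈ Y := by rw [hY]; dsimp only; omega
  have vQ' : (r, r) ∈ Q := by rw [hQ]; dsimp only; omega
  have vO' : (r + 1, r + 1) ∈ O := by rw [hO]; dsimp only; omega
  rw [Z_pin mY vY', Z_pin mQ vQ', Z_pin mO vO']
  -- doubling along the notch path
  have eY : Y = T1 ∪ T2 ∪ O ∪ l := by
    ext x; simp only [mem_union, hY, hT1, hT2, hO, hl]; omega
  have dR : Disjoint (T1 ∪ T2 ∪ O) l := disjoint_left.2 fun x a b => by
    simp only [mem_union, hT1, hT2, hO, hl] at a b; omega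
  have d1 : Disjoint T1 l := disjoint_left.2 fun x a b => by rw [hT1] at a; rw [hl] at b; omega
  have d2 : Disjoint T2 l := disjoint_left.2 fun x a b => by rw [hT2] at a; rw [hl] at b; omega
  have d3 : Disjoint O l := disjoint_left.2 fun x a b => by rw [hO] at a; rw [hl] at b; omega
  have d4 : Disjoint T1 T2 := disjoint_left.2 fun x a b => by rw [hT1] at a; rw [hT2] at b; omega
  have d5 : Disjoint (T1 ∪ T2) O := disjoint_left.2 fun x a b => by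
    simp only [mem_union, hT1, hT2, hO] at a b; omega
  have n1 : NoP g T1 T2 := h.nop fun x a x' b => by rw [hT1] at a; rw [hT2] at b; unfold Adj; omega
  have zl : Z c g l (r, r) ≤ 1 := by
    refine (Z_tree h.le1 vl (fun x => -(x.1 + x.2)) (fun _ => 1) fun x a b => ?_).trans (by simp)
    have b' : ¬ (x.1 = r ∧ x.2 = r) := fun e => b (Prod.ext e.1 e.2)
    rw [hl] at a
    by_cases e : x.1 = r
    · refine ⟨(x.1, x.2 + 1), ?_, by dsimp only; omega, h.lnk (by unfold Adj; simp)⟩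
      rw [hl]; dsimp only; omega
    · refine ⟨(x.1 + 1, x.2), ?_, by dsimp only; omega, h.lnk (by unfold Adj; simp)⟩
      rw [hl]; dsimp only; omega
  have cut : ∀ y, Ph c g (T1 ∪ T2 ∪ O) l y ≤
      Ph c g T1 l y * Ph c g T2 l y * Z c g O (r + 1, r + 1) := fun y => by
    have := Ph_cut (y := y) h.le1 d5 (disjoint_union_left.2 ⟨d1, d2⟩) d3 vO'
      (x' := (r + 1, r)) (by simp only [mem_union, hT1]; omega) (h.lnk (by unfold Adj; simp))
    rwa [one_mul, Ph_mul d4 d1 d2 n1] at this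
  have s1 : Z c g Y (r, r) ^ 2 ≤ mg c (Y.erase (r, r))
      (fun y => F g Y y * (Ph c g T1 l y * Ph c g T2 l y)) 0 * Z c g O (r + 1, r + 1) := by
    have e1 : Y.erase (r, r) = l.erase (r, r) ∪ (T1 ∪ T2 ∪ O) := by
      ext x
      simp only [mem_union, mem_erase, hY, hT1, hT2, hO, hl, ne_eq, Prod.ext_iff]
      omega
    rw [e1, mg_union (dR.symm.mono_left (erase_subset _ _)), ← mg_mul_const]
    conv_lhs => rw [eY]
    refine (Z_dbl dR vl).trans ((mul_le_of_le_one_left' zl).trans (mg_mono fun y _ => ?_))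
    have e2 : (fun z => F g Y z * (Ph c g T1 l z * Ph c g T2 l z)) = fun z =>
        (F g l z * (Ph c g T1 l z * Ph c g T2 l z)) *
          (F g (T1 ∪ T2 ∪ O) z * X g (T1 ∪ T2 ∪ O) l z) := by
      funext z
      conv_lhs => rw [eY, F_union dR]
      ring
    rw [e2, mg_mul (F_dep.mul (Ph_dep.mul Ph_dep)) dR.symm]
    calc F g l y * Ph c g (T1 ∪ T2 ∪ O) l y ^ 2
        = F g l y * Ph c g (T1 ∪ T2 ∪ O) l y * Ph c g (T1 ∪ T2 ∪ O) l y := by ring
      _ ≤ F g l y * Ph c g (T1 ∪ T2 ∪ O) l y *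
          (Ph c g T1 l y * Ph c g T2 l y * Z c g O (r + 1, r + 1)) := mul_le_mul_right (cut y) _
      _ = _ := by unfold Ph; ring
  refine s1.trans (mul_le_mul_left ?_ _)
  -- folding and splitting along the diagonal
  have d6 : Disjoint Lo Up := disjoint_left.2 fun x a b => by rw [hLo] at a; rw [hUp] at b; omega
  have d7 : Disjoint Lo Δ := disjoint_left.2 fun x a b => by rw [hLo] at a; rw [hΔ] at b; omega
  have d8 : Disjoint Up Δ := disjoint_left.2 fun x a b => by rw [hUp] at a; rw [hΔ] at b; omega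
  have d9 : Disjoint Lo T' := disjoint_left.2 fun x a b => by rw [hLo] at a; rw [hT'] at b; omega
  have d10 : Disjoint T' Δ := disjoint_left.2 fun x a b => by rw [hT'] at a; rw [hΔ] at b; omega
  have n2 : NoP g Lo Up := h.nop fun x a x' b => by rw [hLo] at a; rw [hUp] at b; unfold Adj; omega
  have n3 : NoP g Δ Δ := h.nop fun x a x' b => by rw [hΔ] at a b; unfold Adj; omega
  have r1 : Ph c g T1 l = Ph c g T1 lv := Ph_restrict
    (fun x a => by rw [hlv] at a; rw [hl]; omega)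
    (h.nop fun x a x' b => by simp only [mem_sdiff, hT1, hl, hlv] at a b; unfold Adj; omega)
  have r2 : Ph c g T2 l = Ph c g T2 lh := Ph_restrict
    (fun x a => by rw [hlh] at a; rw [hl]; omega)
    (h.nop fun x a x' b => by simp only [mem_sdiff, hT2, hl, hlh] at a b; unfold Adj; omega)
  have r3 : Ph c g T' lv = Ph c g T1 lv := Ph_refl (rf r)
    (fun x => by rw [hT', hT1, rf1, rf2]; omega)
    (fun x a => by rw [hlv] at a; exact Prod.ext (by rw [rf1]; omega) rfl)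
    fun x _ x' _ k => h.iso (adj_rf r x x') k
  have r4 : Ph c g T' (Lo ∪ Δ) = Ph c g T' lv := Ph_restrict
    (fun x a => by rw [hlv] at a; rw [mem_union, hLo, hΔ]; omega)
    (h.nop fun x a x' b => by
      simp only [mem_sdiff, mem_union, hT', hLo, hΔ, hlv] at a b; unfold Adj; omega)
  have r5 : ∀ y, Ph c g T2 lh y = Ph c g T1 lv (y ∘ sw) := fun y => Ph_map sw
    (fun x => by rw [hT2, hT1, sw1, sw2]; omega) (fun x => by rw [hlh, hlv, sw1, sw2])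
    fun x _ x' _ k => h.iso (adj_sw x x') k
  let f : (P → ℤ) → ℝ≥0∞ := fun z => F g Lo z * X g Lo Δ z * Ph c g T' (Lo ∪ Δ) z
  have hf : Dep (Lo ∪ Δ) f := ((F_dep.mono subset_union_left).mul X_dep).mul Ph_dep
  have sLo : ∀ x, sw x ∈ Up ↔ x ∈ Lo := fun x => by rw [hUp, hLo, sw1, sw2]
  have sΔ : ∀ x ∈ Δ, sw x = x := fun x a => by
    rw [hΔ] at a; exact Prod.ext (by rw [sw1]; omega) (by rw [sw2]; omega)
  have hf' : Dep (Up ∪ Δ) fun z => f (z ∘ sw) := fun y z e => hf _ _ fun x a => by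
    refine e (sw x) ?_
    rcases mem_union.1 a with a | a
    · exact mem_union_left _ ((sLo x).2 a)
    · rw [sΔ x a]; exact mem_union_right _ a
  have eF : ∀ (z : P → ℤ), F g (Up ∪ Δ) z = F g (Lo ∪ Δ) (z ∘ sw) := fun z => F_map sw
    (fun x => by simp only [mem_union, hUp, hLo, hΔ, sw1, sw2]; omega)
    fun x _ x' _ k => h.iso (adj_sw x x') k
  have e3 : (fun y => F g Y y * (Ph c g T1 l y * Ph c g T2 l y)) = fun y => f y * f (y ∘ sw) := by
    funext y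
    have eY2 : Y = Lo ∪ (Up ∪ Δ) := by
      ext x; simp only [mem_union, hY, hLo, hUp, hΔ]; omega
    rw [eY2, F_union (disjoint_union_right.2 ⟨d6, d7⟩), X_union_right d8, X_one n2, eF,
      F_union d7, F_one n3, r1, r2, r5, ← r3, ← r4]
    simp only [f]
    ring
  have e4 : Y.erase (r, r) = Δ.erase (r, r) ∪ (Lo ∪ Up) := by
    ext x
    simp only [mem_union, mem_erase, hY, hLo, hUp, hΔ, ne_eq, Prod.ext_iff]
    omega
  have e5 : Lo ∪ T' = D ∪ (L ∪ Te) := by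
    ext x; simp only [mem_union, hLo, hT', hD, hL, hT]; omega
  have e6 : ∀ y, mg c (Lo ∪ Up) (fun y => f y * f (y ∘ sw)) y = Ph c g (D ∪ (L ∪ Te)) Δ y ^ 2 := by
    intro y
    rw [mg_prod d6 d7 d8 hf hf', mg_map sw sLo, mg_dep hf (y ∘ sw) y fun x a => by
      rw [Function.comp_apply, sΔ x a], ← e5, Ph_union d9 d7 d10, sq]
  -- the box is the double of its lower half
  have d11 : Disjoint Δ D := disjoint_left.2 fun x a b => by rw [hΔ] at a; rw [hD] at b; omega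
  have d12 : Disjoint L U := disjoint_left.2 fun x a b => by rw [hL] at a; rw [hU] at b; omega
  have d13 : Disjoint L (D ∪ Δ) := disjoint_left.2 fun x a b => by
    simp only [mem_union, hL, hD, hΔ] at a b; omega
  have d14 : Disjoint U (D ∪ Δ) := disjoint_left.2 fun x a b => by
    simp only [mem_union, hU, hD, hΔ] at a b; omega
  have n4 : NoP g L U := h.nop fun x a x' b => by rw [hL] at a; rw [hU] at b; unfold Adj; omega
  have n5 : NoP g (D ∪ Δ) (D ∪ Δ) := h.nop fun x a x' b => by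
    simp only [mem_union, hD, hΔ] at a b; unfold Adj; omega
  have r6 : Ph c g U (D ∪ Δ) = Ph c g L (D ∪ Δ) := Ph_refl sw
    (fun x => by rw [hU, hL, sw1, sw2])
    (fun x a => by
      simp only [mem_union, hD, hΔ] at a
      exact Prod.ext (by rw [sw1]; omega) (by rw [sw2]; omega))
    fun x _ x' _ k => h.iso (adj_sw x x') k
  have eQ : Q = L ∪ U ∪ (D ∪ Δ) := by
    ext x; simp only [mem_union, hQ, hL, hU, hD, hΔ]; omega
  have e7 : (D ∪ Δ).erase (r, r) = Δ.erase (r, r) ∪ D := by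
    ext x
    simp only [mem_union, mem_erase, hD, hΔ, ne_eq, Prod.ext_iff]
    omega
  rw [e3, e4, mg_union ((disjoint_union_right.2 ⟨d7.symm, d8.symm⟩).mono_left (erase_subset _ _)),
    eQ, Z_split d12 d13 d14 n4 (mem_union_right _ vΔ), e7,
    mg_union (d11.mono_left (erase_subset _ _))]
  refine mg_mono fun y _ => ?_
  rw [e6]
  refine (half h hr (by omega) hD hΔ hL hT y).trans (mg_mono fun z _ => ?_)
  rw [F_one n5, one_mul, r6, sq]

lemma lat {w : ℤ → ℝ≥0∞} (H : Hw c w w 1) : Lat c (gL w) w :=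
  ⟨H.le1W _, fun x x' k a => by rw [sy_gL H, if_pos (by unfold Adj at a; omega)],
    fun x x' k a => by rw [sy_gL H, if_neg (by unfold Adj at a; omega)], H.sum⟩

end NB

theorem notchB : NotchB := by
  intro c w H n r hn
  refine NB.core (NB.lat H) (n := n) (r := r) (by omega) (by omega) (fun x => ?_) (fun x => ?_)
    (fun x => ?_) ?_ ?_ ?_
  · rw [mem_Rc]; omega
  · rw [mem_Yc]; omega
  · rw [mem_Oc]; omega
  · rw [mem_Rc]; dsimp only; omega
  · rw [mem_Yc]; dsimp only; omega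
  · rw [mem_Oc]; dsimp only; omega

end Pool.Agent.Lib.MP_9cc147_pr.AllU.B
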