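import Mathlib

/-! Budget, pure lemmas: the word (chessboard) bound and the free energy density of boxes. -/

open scoped ENNReal

namespace Pool.Agent.Lib.MP_9cc147_pr.AllU.B.Wd

/-- a log-convex sequence below a geometric one has a small first ratio -/
theorem ratio_real (y : ℕ → ℝ) (C ρ : ℝ) (h0 : ∀ i, 0 ≤ y i) (hρ : 0 ≤ ρ)
    (hc : ∀ i, y (i + 1) ^ 2 ≤ y i * y (i + 2)) (hb : ∀ i, y i ≤ C * ρ ^ i) : y 1 ≤ ρ * y 0 := by
  by_contra hlt
  rw [not_le] at hlt
  have p1 : 0 < y 1 := lt_of_le_of_lt (mul_nonneg hρ (h0 0)) hlt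
  have p0 : 0 < y 0 := by
    rcases (h0 0).lt_or_eq with h | h
    · exact h
    · have := hc 0
      rw [← h, zero_mul] at this
      exact absurd this (not_le.2 (by positivity))
  set σ := y 1 / y 0 with hσ
  have s0 : 0 < σ := div_pos p1 p0
  have s1 : ρ < σ := by rw [hσ, lt_div_iff₀ p0]; exact hlt
  have key : ∀ i, 0 < y i ∧ σ * y i ≤ y (i + 1) := by
    intro i
    induction i with
    | zero => exact ⟨p0, by rw [hσ, div_mul_cancel₀ _ p0.ne']⟩
    | succ i ih =>
      have q1 : 0 < y (i + 1) := lt_of_lt_of_le (mul_pos s0 ih.1) ih.2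
      refine ⟨q1, le_of_mul_le_mul_left ?_ ih.1⟩
      have := mul_le_mul_of_nonneg_right ih.2 q1.le
      nlinarith [hc i]
  have low : ∀ i, σ ^ i * y 0 ≤ y i := by
    intro i
    induction i with
    | zero => simp
    | succ i ih =>
      have := mul_le_mul_of_nonneg_left ih s0.le
      calc σ ^ (i + 1) * y 0 = σ * (σ ^ i * y 0) := by ring
        _ ≤ y (i + 1) := this.trans (key i).2
  have hC : 0 < C := by simpa using lt_of_lt_of_le p0 (hb 0)
  obtain ⟨i, hi⟩ := exists_pow_lt_of_lt_one (div_pos p0 hC) ((div_lt_one s0).2 s1)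
  rw [div_pow, div_lt_div_iff₀ (pow_pos s0 i) hC] at hi
  have := (low i).trans (hb i)
  linarith [mul_comm (σ ^ i) (y 0), mul_comm C (ρ ^ i)]

theorem ratio (x : ℕ → ℝ≥0∞) (C ρ : ℝ≥0∞) (hC : C ≠ ⊤) (hρ : ρ ≠ ⊤)
    (hc : ∀ i, x (i + 1) ^ 2 ≤ x i * x (i + 2)) (hb : ∀ i, x i ≤ C * ρ ^ i) : x 1 ≤ ρ * x 0 := by
  have hf : ∀ i, C * ρ ^ i ≠ ⊤ := fun i => ENNReal.mul_ne_top hC (ENNReal.pow_ne_top hρ)
  have hx : ∀ i, x i ≠ ⊤ := fun i => ne_top_of_le_ne_top (hf i) (hb i)
  have h := ratio_real (fun i => (x i).toReal) C.toReal ρ.toReal (fun _ => ENNReal.toReal_nonneg)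
    ENNReal.toReal_nonneg (fun i => by
      rw [← ENNReal.toReal_pow, ← ENNReal.toReal_mul]
      exact ENNReal.toReal_mono (ENNReal.mul_ne_top (hx _) (hx _)) (hc i)) (fun i => by
      rw [← ENNReal.toReal_pow, ← ENNReal.toReal_mul]
      exact ENNReal.toReal_mono (hf i) (hb i))
  rw [← ENNReal.toReal_mul] at h
  exact (ENNReal.toReal_le_toReal (hx 1) (ENNReal.mul_ne_top hρ (hx 0))).1 h

/-- chessboard bound for words -/
theorem words {α : Type*} (z : List α → ℝ≥0∞) (lam : α → ℝ≥0∞) (c0 : ℝ≥0∞) (hl : ∀ a, lam a ≠ ⊤)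
    (h0 : z [] ≤ c0)
    (hcs : ∀ u v, z (u ++ v) ^ 2 ≤ z (u ++ u.reverse) * z (v.reverse ++ v))
    (hb : ∀ v a, ∃ C, C ≠ ⊤ ∧ ∀ k, z (v.reverse ++ List.replicate k a ++ v) ≤ C * lam a ^ k)
    (u : List α) : z u ≤ c0 * (u.map lam).prod := by
  have step : ∀ v a, z ((a :: v).reverse ++ a :: v) ≤ lam a ^ 2 * z (v.reverse ++ v) := by
    intro v a
    obtain ⟨C, hC, hb⟩ := hb v a
    have h := ratio (fun i => z (v.reverse ++ List.replicate (2 * i) a ++ v)) C (lam a ^ 2) hC
      (ENNReal.pow_ne_top (hl a)) (fun i => by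
        have h := hcs (v.reverse ++ List.replicate i a) (List.replicate (i + 2) a ++ v)
        have e1 : v.reverse ++ List.replicate i a ++ (List.replicate (i + 2) a ++ v) =
            v.reverse ++ List.replicate (2 * (i + 1)) a ++ v := by
          rw [show 2 * (i + 1) = i + (i + 2) by ring, List.replicate_add i (i + 2)]
          simp only [List.append_assoc]
        have e2 : v.reverse ++ List.replicate i a ++ (v.reverse ++ List.replicate i a).reverse =
            v.reverse ++ List.replicate (2 * i) a ++ v := by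
          rw [two_mul, List.replicate_add]
          simp only [List.reverse_append, List.reverse_replicate, List.reverse_reverse,
            List.append_assoc]
        have e3 : (List.replicate (i + 2) a ++ v).reverse ++ (List.replicate (i + 2) a ++ v) =
            v.reverse ++ List.replicate (2 * (i + 2)) a ++ v := by
          rw [two_mul, List.replicate_add (i + 2) (i + 2)]
          simp only [List.reverse_append, List.reverse_replicate, List.append_assoc]
        rwa [e1, e2, e3] at h) (fun i => by rw [← pow_mul]; exact hb _)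
    simpa [List.replicate_succ] using h
  have dbl : ∀ v : List α, z (v.reverse ++ v) ≤ c0 * (v.map lam).prod ^ 2 := by
    intro v
    induction v with
    | nil => simpa using h0
    | cons a v ih =>
      refine (step v a).trans ((mul_le_mul_right ih _).trans (le_of_eq ?_))
      rw [List.map_cons, List.prod_cons]
      ring
  have h := hcs [] u
  have h2 : z u ^ 2 ≤ (c0 * (u.map lam).prod) ^ 2 := by
    simp only [List.nil_append, List.reverse_nil] at h
    refine h.trans ((mul_le_mul' h0 (dbl u)).trans (le_of_eq ?_))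
    ring
  exact (ENNReal.pow_le_pow_left_iff two_ne_zero).1 h2

/-- doubling and cutting in one direction -/
theorem dens_one (q : ℕ → ℝ) (h0 : ∀ a, 1 ≤ a → q a ≤ 0)
    (hcut : ∀ a a', 1 ≤ a → 1 ≤ a' → q (a + a') ≤ q a + q a')
    (hdbl : ∀ i, 2 * q (i + 1) ≤ q (2 * i + 1)) (i : ℕ) {a : ℕ} (ha : 1 ≤ a) :
    a * q (i + 1) ≤ i * q a := by
  have up : ∀ k : ℕ, 2 ^ k * q (i + 1) ≤ q (2 ^ k * i + 1) := by
    intro k
    induction k with
    | zero => simp
    | succ k ih =>
      have := hdbl (2 ^ k * i)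
      rw [← mul_assoc, ← pow_succ'] at this
      rw [pow_succ']
      linarith
  have dn : ∀ m r : ℕ, 1 ≤ r → q (m * a + r) ≤ m * q a := by
    intro m r hr
    induction m with
    | zero => simpa using h0 r hr
    | succ m ih =>
      have := hcut a (m * a + r) ha (by omega)
      rw [show a + (m * a + r) = (m + 1) * a + r by ring] at this
      push_cast
      linarith
  have hq := h0 a ha
  have ha0 : (0 : ℝ) < a := by exact_mod_cast ha
  have key : ∀ k : ℕ, 2 ^ k * (a * q (i + 1) - i * q a) ≤ -(a * q a) := by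
    intro k
    have h1 := up k
    have h2 := dn (2 ^ k * i / a) (2 ^ k * i % a + 1) (by omega)
    rw [← add_assoc, Nat.div_add_mod' (2 ^ k * i) a] at h2
    have h3 : ((2 ^ k * i : ℕ) : ℝ) ≤ ((2 ^ k * i / a : ℕ) : ℝ) * a + a := by
      have := Nat.div_add_mod' (2 ^ k * i) a
      have h4 := Nat.mod_lt (2 ^ k * i) (show 0 < a from ha)
      exact_mod_cast (by omega : 2 ^ k * i ≤ 2 ^ k * i / a * a + a)
    push_cast at h3
    have h5 := mul_le_mul_of_nonneg_left (h1.trans h2) ha0.le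
    nlinarith [mul_le_mul_of_nonpos_right h3 hq]
  by_contra hlt
  rw [not_le, ← sub_pos] at hlt
  obtain ⟨k, hk⟩ := pow_unbounded_of_one_lt (-(a * q a) / (a * q (i + 1) - i * q a))
    (one_lt_two (α := ℝ))
  rw [div_lt_iff₀ hlt] at hk
  linarith [key k]

/-- the free energy density -/
theorem dens (p : ℕ → ℕ → ℝ) (C0 : ℝ) (h0 : ∀ a b, 1 ≤ a → 1 ≤ b → p a b ≤ 0)
    (hc1 : ∀ a a' b, 1 ≤ a → 1 ≤ a' → 1 ≤ b → p (a + a') b ≤ p a b + p a' b)
    (hd1 : ∀ i b, 1 ≤ b → 2 * p (i + 1) b ≤ p (2 * i + 1) b) (hs : ∀ a b, p a b = p b a)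
    (h2 : -C0 ≤ p 2 2) :
    ∃ F : ℝ, -C0 ≤ F ∧ F ≤ 0 ∧ (∀ i j : ℕ, p (i + 1) (j + 1) ≤ F * (i * j)) ∧
      ∀ a b : ℕ, 1 ≤ a → 1 ≤ b → F * (a * b) ≤ p a b := by
  let s : Set ℝ := {x | ∃ i j : ℕ, 1 ≤ i ∧ 1 ≤ j ∧ x = p (i + 1) (j + 1) / (i * j)}
  have hne : p 2 2 ∈ s := ⟨1, 1, le_rfl, le_rfl, by simp⟩
  have hub : ∀ x ∈ s, x ≤ 0 := by
    rintro x ⟨i, j, -, -, rfl⟩
    exact div_nonpos_of_nonpos_of_nonneg (h0 _ _ (by omega) (by omega)) (by positivity)
  have hbd : BddAbove s := ⟨0, hub⟩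
  refine ⟨sSup s, h2.trans (le_csSup hbd hne), csSup_le ⟨_, hne⟩ hub, fun i j => ?_,
    fun a b ha hb => ?_⟩
  · rcases Nat.eq_zero_or_pos i with rfl | hi
    · simpa using h0 1 (j + 1) le_rfl (by omega)
    rcases Nat.eq_zero_or_pos j with rfl | hj
    · simpa using h0 (i + 1) 1 (by omega) le_rfl
    have := le_csSup hbd ⟨i, j, hi, hj, rfl⟩
    rwa [div_le_iff₀ (by positivity)] at this
  · have ha0 : (0 : ℝ) < a := by exact_mod_cast ha
    have hb0 : (0 : ℝ) < b := by exact_mod_cast hb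
    rw [← le_div_iff₀ (by positivity)]
    refine csSup_le ⟨_, hne⟩ ?_
    rintro x ⟨i, j, hi, hj, rfl⟩
    have hi0 : (0 : ℝ) < i := by exact_mod_cast hi
    have hj0 : (0 : ℝ) < j := by exact_mod_cast hj
    have e1 := dens_one (fun a => p a (j + 1)) (fun a ha => h0 a _ ha (by omega))
      (fun a a' h h' => hc1 a a' _ h h' (by omega)) (fun i => hd1 i _ (by omega)) i ha
    have e2 := dens_one (fun b => p b a) (fun b hb => h0 b _ hb ha)
      (fun b b' h h' => hc1 b b' _ h h' ha) (fun i => hd1 i _ ha) j hb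
    rw [hs (j + 1) a, hs b a] at e2
    rw [div_le_div_iff₀ (by positivity) (by positivity)]
    have e3 := mul_le_mul_of_nonneg_left e1 hb0.le
    have e4 := mul_le_mul_of_nonneg_left e2 hi0.le
    nlinarith

end Pool.Agent.Lib.MP_9cc147_pr.AllU.B.Wd
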