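import Pool.Agent.Lib.MP_9cc147_pr.U.BDefs
import Pool.Agent.Lib.MP_9cc147_pr.U.BWord

/-! Budget: words are bounded by the growth rates of their letters. -/

open Finset
open scoped ENNReal

namespace Pool.Agent.Lib.MP_9cc147_pr.AllU.B

namespace Op

variable {c η : ℝ≥0∞} {w ws : ℤ → ℝ≥0∞}

/-- the columns from `lo` to `hi` -/
noncomputable def St (lo hi : ℤ) (b : ℕ) : Finset P := Icc lo hi ×ˢ Icc (0:ℤ) b

lemma mem_St {lo hi : ℤ} {b : ℕ} {x : P} :
    x ∈ St lo hi b ↔ (lo ≤ x.1 ∧ x.1 ≤ hi) ∧ 0 ≤ x.2 ∧ x.2 ≤ b := by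
  simp [St, mem_product]

lemma sy_tr (H : Hw c w ws η) {E E' : ℤ → Finset ℤ} {x x' y y' : P} (k : ℤ) (h : y.2 = x.2)
    (h' : y'.2 = x'.2) (hd : y'.1 - y.1 = x'.1 - x.1) (e : x'.1 = x.1 + 1 → E' y.1 = E x.1)
    (e' : x.1 = x'.1 + 1 → E' y'.1 = E x'.1) :
    sy (gW w ws E') y y' k = sy (gW w ws E) x x' k := by
  rw [sy_gW H, sy_gW H, h, h']
  by_cases c1 : x'.1 = x.1 + 1 ∧ x'.2 = x.2
  · rw [if_pos c1, if_pos ⟨by omega, c1.2⟩, e c1.1]
  rw [if_neg c1, if_neg (by omega)]
  by_cases c2 : x.1 = x'.1 + 1 ∧ x.2 = x'.2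
  · rw [if_pos c2, if_pos ⟨by omega, c2.2⟩, e' c2.1]
  rw [if_neg c2, if_neg (by omega)]
  split_ifs <;> first | rfl | omega

lemma sy_rf (H : Hw c w ws η) {E E' : ℤ → Finset ℤ} {x x' y y' : P} (k : ℤ) (h : y.2 = x.2)
    (h' : y'.2 = x'.2) (hd : y'.1 - y.1 = x.1 - x'.1) (e : x'.1 = x.1 + 1 → E' y'.1 = E x.1)
    (e' : x.1 = x'.1 + 1 → E' y.1 = E x'.1) :
    sy (gW w ws E') y y' k = sy (gW w ws E) x x' k := by
  rw [sy_gW H, sy_gW H, h, h']
  by_cases c1 : x'.1 = x.1 + 1 ∧ x'.2 = x.2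
  · rw [if_pos c1, if_neg (by omega), if_pos ⟨by omega, c1.2.symm⟩, e c1.1, c1.2]
  rw [if_neg c1]
  by_cases c2 : x.1 = x'.1 + 1 ∧ x.2 = x'.2
  · rw [if_pos c2, if_pos ⟨by omega, c2.2.symm⟩, e' c2.1, c2.2]
  rw [if_neg c2, if_neg (by omega), if_neg (by omega)]
  split_ifs <;> first | rfl | omega

/-- translation -/
lemma shift (H : Hw c w ws η) (a b : ℕ) (lo hi : ℤ) (hhi : hi = lo + a) (E E' : ℤ → Finset ℤ)
    (h : ∀ i : ℤ, 0 ≤ i → i < a → E' (i + lo) = E i) {v : P} (hv : v ∈ St lo hi b) :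
    Z c (gW w ws E') (St lo hi b) v = zz c w ws a b E := by
  refine Z_map (Equiv.addRight ((lo, 0) : P)) (fun x => ?_) (by rw [mem_Rc]; simp) hv
    fun x hx x' hx' k => ?_
  · rw [mem_St, mem_Rc]
    simp only [Equiv.coe_addRight, Prod.fst_add, Prod.snd_add]
    omega
  · rw [mem_Rc] at hx hx'
    refine sy_tr H k (by simp) (by simp) (by simp) (fun hh => ?_) fun hh => ?_
    · exact h _ (by omega) (by omega)
    · exact h _ (by omega) (by omega)

/-- removing columns does not decrease the partition function -/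
lemma sub (H : Hw c w ws η) (b : ℕ) {lo hi lo' hi' : ℤ} (h1 : lo ≤ lo') (h2 : hi' ≤ hi)
    (E : ℤ → Finset ℤ) {v : P} (hv : v ∈ St lo' hi' b) :
    Z c (gW w ws E) (St lo hi b) v ≤ Z c (gW w ws E) (St lo' hi' b) v := by
  have hv' := mem_St.1 hv
  have e : St lo hi b = St lo hi b \ St lo' hi' b ∪ St lo' hi' b := by
    ext x
    simp only [mem_union, mem_sdiff, mem_St]
    omega
  rw [e, Z_eq sdiff_disjoint hv]
  refine mg_mono fun y _ => mul_le_of_le_one_right' ?_
  refine (Ph_tree (H.le1W E) sdiff_disjoint (fun x => max (lo' - x.1) (x.1 - hi')) (fun _ => 1)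
    fun x hx => ?_).trans (by simp)
  simp only [mem_sdiff, mem_St] at hx ⊢
  by_cases hx1 : x.1 < lo'
  · exact ⟨(x.1 + 1, x.2), by simp only; omega, H.lnk E (by simp)⟩
  · exact ⟨(x.1 - 1, x.2), by simp only; omega, H.lnk E (by simp)⟩

lemma zz_le_one (H : Hw c w ws η) (a b : ℕ) (E : ℤ → Finset ℤ) : zz c w ws a b E ≤ 1 := by
  refine (Z_tree (H.le1W E) (by rw [mem_Rc]; simp) (fun x => x.1 + x.2) (fun _ => 1)
    fun x hx hne => ?_).trans (by simp)
  simp only [mem_Rc] at hx ⊢
  have hne' : ¬ (x.1 = 0 ∧ x.2 = 0) := fun hh => hne (Prod.ext hh.1 hh.2)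
  by_cases hx1 : 0 < x.1
  · exact ⟨(x.1 - 1, x.2), by simp only; omega, by simp only; omega, H.lnk E (by simp)⟩
  · exact ⟨(x.1, x.2 - 1), by simp only; omega, by simp only; omega, H.lnk E (by simp)⟩

/-- the mirror in the column zero -/
def mir : P ≃ P := Equiv.prodCongr (Equiv.neg ℤ) (Equiv.refl ℤ)

lemma mir_fst (x : P) : (mir x).1 = -x.1 := rfl
lemma mir_snd (x : P) : (mir x).2 = x.2 := rfl

/-- reflection in the column zero -/
lemma rp (H : Hw c w ws η) (b p q : ℕ) (E E1 E2 : ℤ → Finset ℤ)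
    (h1 : ∀ x : ℤ, -(p : ℤ) ≤ x → x < 0 → E1 x = E x ∧ E1 (-x - 1) = E x)
    (h2 : ∀ x : ℤ, 0 ≤ x → x < q → E2 x = E x ∧ E2 (-x - 1) = E x) :
    Z c (gW w ws E) (St (-p) q b) (0, 0) ^ 2 ≤
      Z c (gW w ws E1) (St (-p) p b) (0, 0) * Z c (gW w ws E2) (St (-q) q b) (0, 0) := by
  have e : ∀ p q : ℕ, St (-p) q b = St (-p) (-1) b ∪ St 1 q b ∪ St 0 0 b := fun p q => by
    ext x
    simp only [mem_union, mem_St]
    omega
  have dj : ∀ l h l' h' : ℤ, h < l' ∨ h' < l → Disjoint (St l h b) (St l' h' b) :=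
    fun l h l' h' hh => disjoint_left.2 fun x hx hx' => by
      rw [mem_St] at hx hx'
      omega
  have np : ∀ (l h : ℤ) (E : ℤ → Finset ℤ), NoP (gW w ws E) (St l (-1) b) (St 1 h b) :=
    fun l h E => H.noP E fun x hx x' hx' => by
      rw [mem_St] at hx hx'
      omega
  have fD : ∀ E' : ℤ → Finset ℤ, F (gW w ws E') (St 0 0 b) = F (gW w ws E) (St 0 0 b) :=
    fun E' => F_congr fun x hx x' hx' k => by
      rw [mem_St] at hx hx'
      exact sy_tr H k rfl rfl rfl (by omega) (by omega)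
  have fix : ∀ x ∈ St 0 0 b, mir x = x := fun x hx => by
    rw [mem_St] at hx
    exact Prod.ext (by rw [mir_fst]; omega) rfl
  rw [e p q, e p p, e q q]
  refine Z_rp (dj _ _ _ _ (by omega)) (dj _ _ _ _ (by omega)) (dj _ _ _ _ (by omega)) (np _ _ _)
    (by rw [mem_St]; simp) (dj _ _ _ _ (by omega)) (dj _ _ _ _ (by omega)) (np _ _ _)
    (dj _ _ _ _ (by omega)) (dj _ _ _ _ (by omega)) (np _ _ _) (fD _) (fD _)
    (Ph_congr fun x hx x' hx' k => ?_) (Ph_refl mir (fun x => ?_) fix fun x hx x' hx' k => ?_)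
    (Ph_congr fun x hx x' hx' k => ?_) (Ph_refl mir (fun x => ?_) fix fun x hx x' hx' k => ?_)
  · simp only [mem_union, mem_St] at hx hx'
    exact sy_tr H k rfl rfl rfl (fun _ => (h1 _ (by omega) (by omega)).1)
      fun _ => (h1 _ (by omega) (by omega)).1
  · simp only [mem_St, mir_fst, mir_snd]
    omega
  · simp only [mem_union, mem_St] at hx hx'
    refine sy_rf H k rfl rfl (by simp only [mir_fst]; omega) (fun hh => ?_) fun hh => ?_
    · rw [mir_fst, ← (h1 x.1 (by omega) (by omega)).2, hh]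
      congr 1
      ring
    · rw [mir_fst, ← (h1 x'.1 (by omega) (by omega)).2, hh]
      congr 1
      ring
  · simp only [mem_union, mem_St] at hx hx'
    exact sy_tr H k rfl rfl rfl (fun _ => (h2 _ (by omega) (by omega)).1)
      fun _ => (h2 _ (by omega) (by omega)).1
  · simp only [mem_St, mir_fst, mir_snd]
    omega
  · simp only [mem_union, mem_St] at hx hx'
    refine sy_rf H k rfl rfl (by simp only [mir_fst]; omega) (fun hh => ?_) fun hh => ?_
    · rw [mir_fst, ← (h2 x.1 (by omega) (by omega)).2, hh]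
      congr 1
      ring
    · rw [mir_fst, ← (h2 x'.1 (by omega) (by omega)).2, hh]
      congr 1
      ring

/-- letter number `i` -/
def lt (l : List ℤ) (i : ℤ) : ℤ := l.getD i.toNat 0

lemma lt_left (u v : List ℤ) {i : ℤ} (h : i < u.length) (h0 : 0 ≤ i) : lt (u ++ v) i = lt u i :=
  List.getD_append _ _ _ _ (by omega)

lemma lt_right (u v : List ℤ) {i : ℤ} (h : (u.length : ℤ) ≤ i) :
    lt (u ++ v) i = lt v (i - u.length) := by
  unfold lt
  rw [List.getD_append_right _ _ _ _ (by omega)]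
  congr 1
  omega

lemma lt_rev (u : List ℤ) {i : ℤ} (h : i < u.length) (h0 : 0 ≤ i) :
    lt u.reverse i = lt u (u.length - 1 - i) := by
  unfold lt
  rw [List.getD_eq_getElem _ _ (by rw [List.length_reverse]; omega),
    List.getD_eq_getElem _ _ (by omega), List.getElem_reverse]
  congr 1
  omega

lemma lt_rep (k : ℕ) (a : ℤ) {i : ℤ} (h : i < k) (h0 : 0 ≤ i) : lt (List.replicate k a) i = a := by
  unfold lt
  rw [List.getD_eq_getElem _ _ (by rw [List.length_replicate]; omega), List.getElem_replicate]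

/-- partition function of a word -/
noncomputable def zw (c : ℝ≥0∞) (w ws : ℤ → ℝ≥0∞) (b : ℕ) (E : ℤ → Finset ℤ) (l : List ℤ) : ℝ≥0∞ :=
  zz c w ws l.length b fun i => E (lt l i)

lemma zw_cs (H : Hw c w ws η) (b : ℕ) (E : ℤ → Finset ℤ) (u v : List ℤ) :
    zw c w ws b E (u ++ v) ^ 2 ≤
      zw c w ws b E (u ++ u.reverse) * zw c w ws b E (v.reverse ++ v) := by
  have key : ∀ l l' : List ℤ, Z c (gW w ws fun i => E (lt (l ++ l') (i + l.length)))
      (St (-l.length) l'.length b) (0, 0) = zw c w ws b E (l ++ l') := fun l l' =>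
    shift H _ b _ _ (by rw [List.length_append]; push_cast; ring) _ _
      (fun i _ _ => by simp) (by rw [mem_St]; simp)
  have k2 := key u u.reverse
  have k3 := key v.reverse v
  rw [List.length_reverse] at k2 k3
  rw [← key u v, ← k2, ← k3]
  refine rp H b _ _ _ _ _ (fun x h1 h2 => ⟨?_, ?_⟩) fun x h1 h2 => ⟨?_, ?_⟩
  · rw [lt_left _ _ (by omega) (by omega), lt_left _ _ (by omega) (by omega)]
  · rw [lt_right _ _ (by omega), lt_rev _ (by omega) (by omega), lt_left _ _ (by omega) (by omega)]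
    congr 2
    ring
  · rw [lt_right _ _ (by rw [List.length_reverse]; omega), lt_right _ _ (by omega),
      List.length_reverse]
    congr 2
    ring
  · rw [lt_left _ _ (by rw [List.length_reverse]; omega) (by omega),
      lt_rev _ (by omega) (by omega), lt_right _ _ (by omega)]
    congr 2
    ring

lemma zw_mid (H : Hw c w ws η) (b : ℕ) (E : ℤ → Finset ℤ) (u v : List ℤ) (k : ℕ) (a : ℤ) :
    zw c w ws b E (u ++ List.replicate k a ++ v) ≤ zz c w ws k b fun _ => E a := by
  have hv : ((u.length : ℤ), (0 : ℤ)) ∈ St u.length (u.length + k) b := by rw [mem_St]; simp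
  rw [← shift H k b u.length _ rfl (fun _ => E a)
    (fun i => E (lt (u ++ List.replicate k a ++ v) i)) (fun i h0 h1 => by
      rw [lt_left _ _ (by rw [List.length_append, List.length_replicate]; push_cast; omega)
        (by omega), lt_right _ _ (by omega), lt_rep _ _ (by omega) (by omega)]) hv]
  refine le_trans (le_of_eq ?_) (sub H b (lo := 0) (hi := (u ++ List.replicate k a ++ v).length)
    (by omega) (by simp only [List.length_append, List.length_replicate]; push_cast; omega) _ hv)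
  refine (shift H _ b 0 _ (by simp) _ _ (fun i _ _ => by simp) ?_).symm
  rw [mem_St]
  simp only [List.length_append, List.length_replicate]
  omega

end Op

open Op in
theorem opSt : OpSt := by
  intro c η w ws H a b lam E hK
  have h := Wd.words (zw c w ws b E) (fun x => min (lam (E x)) 1) 1
    (fun x => ne_top_of_le_ne_top ENNReal.one_ne_top (min_le_right _ _)) (zz_le_one H _ _ _)
    (zw_cs H b E) (fun v x => by
      rcases le_total (lam (E x)) 1 with h1 | h1
      · obtain ⟨K, hK1, hK2⟩ := hK x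
        exact ⟨K, hK1, fun k => by
          rw [min_eq_left h1]
          exact (zw_mid H b E _ _ k x).trans (hK2 k)⟩
      · exact ⟨1, ENNReal.one_ne_top, fun k => by
          rw [min_eq_right h1, one_pow, one_mul]
          exact zz_le_one H _ _ _⟩) ((List.range a).map Int.ofNat)
  have e1 : zw c w ws b E ((List.range a).map Int.ofNat) = zz c w ws a b E := by
    have hv : ((0 : ℤ), (0 : ℤ)) ∈ St 0 a b := by rw [mem_St]; simp
    rw [← shift H a b 0 a (by simp) E E (fun i _ _ => by simp) hv]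
    refine (shift H _ b 0 a (by simp) _ E (fun i h0 h1 => ?_) hv).symm
    rw [List.length_map, List.length_range] at h1
    unfold lt
    rw [List.getD_eq_getElem _ _ (by rw [List.length_map, List.length_range]; omega),
      List.getElem_map, List.getElem_range]
    congr 1
    simp only [Int.ofNat_eq_natCast]
    omega
  rw [e1, one_mul] at h
  refine h.trans ?_
  have e2 : ∀ a : ℕ, (((List.range a).map Int.ofNat).map fun x => min (lam (E x)) 1).prod ≤
      ∏ x ∈ Ico (0:ℤ) a, lam (E x) := fun a => by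
    induction a with
    | zero => simp
    | succ a ih =>
      have e : Ico (0:ℤ) ((a + 1 : ℕ) : ℤ) = insert (a : ℤ) (Ico (0:ℤ) a) := by
        ext x
        simp only [mem_insert, mem_Ico]
        omega
      rw [e, prod_insert (by simp), List.range_succ, List.map_append, List.map_append,
        List.prod_append, mul_comm]
      refine mul_le_mul' ?_ ih
      simp
  exact e2 a

end Pool.Agent.Lib.MP_9cc147_pr.AllU.B
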