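import Pool.Agent.Lib.MP_9cc147_pr.U.BDefs

/-! Section B (budget): the free energy of rectangles. -/

open Finset
open scoped ENNReal

namespace Pool.Agent.Lib.MP_9cc147_pr.AllU.B

namespace Phi

variable {c η : ℝ≥0∞} {w ws : ℤ → ℝ≥0∞}

lemma zero_mem (a b : ℕ) : ((0, 0) : P) ∈ Rc a b := by
  rw [mem_Rc]; simp

lemma zz_le_one (H : Hw c w ws η) (a b : ℕ) (E : ℤ → Finset ℤ) : zz c w ws a b E ≤ 1 := by
  have := Z_tree (c := c) (H.le1W E) (zero_mem a b) (fun x => x.1 + x.2) (fun _ => 1) ?_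
  · simpa [zz] using this
  · rintro ⟨x1, x2⟩ hx hne
    rw [mem_Rc] at hx
    have hne' : ¬ (x1 = 0 ∧ x2 = 0) := by simpa using hne
    dsimp only at hx
    by_cases h : x1 = 0
    · exact ⟨(x1, x2 - 1), by rw [mem_Rc]; dsimp only; omega, by dsimp only; omega,
        H.lnk E (by dsimp only; omega)⟩
    · exact ⟨(x1 - 1, x2), by rw [mem_Rc]; dsimp only; omega, by dsimp only; omega,
        H.lnk E (by dsimp only; omega)⟩

lemma zr_le_one (H : Hw c w ws η) (a b : ℕ) : zr c w a b ≤ 1 := zz_le_one H.base a b _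

/-- translation of a set of sites -/
lemma Z_shift (H : Hw c w ws η) (d : P) {V V' : Finset P} {v v' : P}
    (hV : ∀ x, x + d ∈ V' ↔ x ∈ V) (hv : v ∈ V) (hv' : v' ∈ V') :
    Z c (gL w) V' v' = Z c (gL w) V v := by
  refine Z_map (Equiv.addRight d) hV hv hv' fun x _ x' _ k => ?_
  rw [sy_gL H, sy_gL H]
  refine if_congr ?_ rfl rfl
  simp only [Equiv.coe_addRight, Prod.fst_add, Prod.snd_add]
  omega

lemma zr_comm (H : Hw c w ws η) (a b : ℕ) : zr c w a b = zr c w b a := by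
  refine Z_map (Equiv.prodComm ℤ ℤ) (fun x => ?_) (zero_mem _ _) (zero_mem _ _) fun x _ x' _ k => ?_
  · simp only [mem_Rc, Equiv.prodComm_apply, Prod.fst_swap, Prod.snd_swap]
    exact and_comm
  · rw [sy_gL H, sy_gL H]
    refine if_congr ?_ rfl rfl
    simp only [Equiv.prodComm_apply, Prod.fst_swap, Prod.snd_swap]
    exact or_comm

lemma zr_cut (H : Hw c w ws η) (k j b : ℕ) : zr c w (k + j + 1) b ≤ zr c w k b * zr c w j b := by
  set B := (Rc (k + j + 1) b).filter fun x => (k : ℤ) < x.1 with hB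
  have mB : ∀ x : P, x ∈ B ↔ ((k : ℤ) < x.1 ∧ x.1 ≤ k + j + 1) ∧ 0 ≤ x.2 ∧ x.2 ≤ b := by
    intro x
    rw [hB, mem_filter, mem_Rc]
    push_cast
    omega
  have e : Rc (k + j + 1) b = Rc k b ∪ B := by
    ext x
    rw [mem_union, mB, mem_Rc, mem_Rc]
    push_cast
    omega
  have hd : Disjoint (Rc k b) B := disjoint_left.2 fun x h1 h2 => by
    rw [mem_Rc] at h1; rw [mB] at h2; omega
  have h1 : ((k : ℤ), (0 : ℤ)) ∈ Rc k b := by rw [mem_Rc]; simp
  have h2 : ((k : ℤ) + 1, (0 : ℤ)) ∈ B := by rw [mB]; dsimp only; omega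
  have := Z_cut (c := c) (g := gL w) (H.base.le1W _) hd h1 h2 (H.base.lnk _ (by simp))
    (mem_union_left _ (zero_mem k b))
  rw [one_mul, Z_pin h1 (zero_mem k b), ← e,
    Z_shift H ((k : ℤ) + 1, 0) (V := Rc j b) (fun x => ?_) (zero_mem j b) h2] at this
  · exact this
  · rw [mB, mem_Rc]
    simp only [Prod.fst_add, Prod.snd_add]
    omega

lemma zr_pow (H : Hw c w ws η) (j b q r : ℕ) : zr c w (r + q * (j + 1)) b ≤ zr c w j b ^ q := by
  induction q with
  | zero => simpa using zr_le_one H r b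
  | succ q ih =>
    have e : r + (q + 1) * (j + 1) = r + q * (j + 1) + j + 1 := by ring
    rw [e, pow_succ]
    exact (zr_cut H _ j b).trans (mul_le_mul_left ih _)

lemma rate (hO : OpSt) (H : Hw c w ws η) {j b : ℕ} {t : ℝ≥0∞} (t0 : t ≠ 0) (t1 : t ≤ 1)
    (h : zr c w j b ≤ t ^ (j + 1)) (a : ℕ) : zr c w a b ≤ t ^ a := by
  have tt : t ≠ ∞ := ne_top_of_le_ne_top ENNReal.one_ne_top t1
  have := hO c 1 w w H.base a b (fun _ => t) (fun _ => ∅) fun _ =>
    ⟨t⁻¹ ^ j, ENNReal.pow_ne_top (ENNReal.inv_ne_top.2 t0), fun k => ?_⟩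
  · simpa [zz, zr, gL] using this
  · show zr c w k b ≤ t⁻¹ ^ j * t ^ k
    have e : k = k % (j + 1) + k / (j + 1) * (j + 1) := (Nat.mod_add_div' k (j + 1)).symm
    have hr : k % (j + 1) ≤ j := Nat.lt_succ_iff.1 (Nat.mod_lt _ (Nat.succ_pos _))
    calc zr c w k b ≤ zr c w j b ^ (k / (j + 1)) := by
          conv_lhs => rw [e]
          exact zr_pow H _ _ _ _
      _ ≤ (t ^ (j + 1)) ^ (k / (j + 1)) := pow_le_pow_left' h _
      _ = t⁻¹ ^ j * t ^ (j + k / (j + 1) * (j + 1)) := by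
          rw [pow_add t j (k / (j + 1) * (j + 1)), ← mul_assoc, ← mul_pow, ENNReal.inv_mul_cancel t0 tt, one_pow, one_mul,
            ← pow_mul, mul_comm]
      _ ≤ t⁻¹ ^ j * t ^ k := mul_le_mul_right (pow_le_pow_right_of_le_one' t1 (by omega)) _

lemma root_pow (x : ℝ≥0∞) {N : ℕ} (h : N ≠ 0) : (x ^ ((N : ℝ)⁻¹)) ^ N = x :=
  ENNReal.rpow_inv_natCast_pow h x

lemma cmp1 (hO : OpSt) (H : Hw c w ws η) (a j b : ℕ) :
    zr c w a b ^ (j + 1) ≤ zr c w j b ^ a := by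
  by_cases h0 : zr c w j b = 0
  · rcases Nat.eq_zero_or_pos a with rfl | ha
    · simpa using pow_le_one' (zr_le_one H 0 b) _
    · have : zr c w a b = 0 := by
        by_contra hx
        have h1 := zr_le_one H a b
        have tt : zr c w a b ≠ ∞ := ne_top_of_le_ne_top ENNReal.one_ne_top h1
        have h2 : zr c w a b / 2 ≤ 1 := ENNReal.half_le_self.trans h1
        have h3 := rate hO H (j := j) (b := b) (t := zr c w a b / 2) (by simp [hx]) h2
          (by simp [h0]) a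
        have h4 : (zr c w a b / 2) ^ a ≤ (zr c w a b / 2) ^ 1 := pow_le_pow_right_of_le_one' h2 ha
        rw [pow_one] at h4
        exact absurd (h3.trans h4) (not_le.2 (ENNReal.half_lt_self hx tt))
      simp [this]
  · set t := zr c w j b ^ (((j + 1 : ℕ) : ℝ)⁻¹) with ht
    have e : t ^ (j + 1) = zr c w j b := root_pow _ (Nat.succ_ne_zero j)
    have t0 : t ≠ 0 := fun hh => h0 (by rw [← e, hh]; simp)
    have t1 : t ≤ 1 := ENNReal.rpow_le_one (zr_le_one H _ _) (by positivity)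
    calc zr c w a b ^ (j + 1) ≤ (t ^ a) ^ (j + 1) := pow_le_pow_left' (rate hO H t0 t1 e.ge a) _
      _ = zr c w j b ^ a := by rw [← e, ← pow_mul, ← pow_mul, mul_comm]

lemma cmp2 (hO : OpSt) (H : Hw c w ws η) (a b j l : ℕ) :
    zr c w a b ^ ((j + 1) * (l + 1)) ≤ zr c w j l ^ (a * b) :=
  calc zr c w a b ^ ((j + 1) * (l + 1)) = (zr c w a b ^ (j + 1)) ^ (l + 1) := pow_mul _ _ _
    _ ≤ (zr c w j b ^ a) ^ (l + 1) := pow_le_pow_left' (cmp1 hO H a j b) _
    _ = (zr c w b j ^ (l + 1)) ^ a := by rw [zr_comm H j b, ← pow_mul, ← pow_mul, mul_comm]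
    _ ≤ (zr c w l j ^ b) ^ a := pow_le_pow_left' (cmp1 hO H b l j) _
    _ = zr c w j l ^ (a * b) := by rw [zr_comm H l j, ← pow_mul, mul_comm]

end Phi

theorem phiSt (hO : OpSt) : PhiSt := by
  intro c κ w H hκ
  set φ := ⨅ p : ℕ × ℕ, zr c w p.1 p.2 ^ ((((p.1 + 1) * (p.2 + 1) : ℕ) : ℝ)⁻¹) with hφ
  have lo : ∀ a b : ℕ, φ ^ ((a + 1) * (b + 1)) ≤ zr c w a b := fun a b =>
    (pow_le_pow_left' (iInf_le _ (a, b)) _).trans (Phi.root_pow _ (by positivity)).le
  have up : ∀ a b : ℕ, zr c w a b ≤ φ ^ (a * b) := by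
    intro a b
    by_cases h : a * b = 0
    · rw [h, pow_zero]; exact Phi.zr_le_one H a b
    · rw [← Phi.root_pow (zr c w a b) h]
      refine pow_le_pow_left' (le_iInf fun p => ?_) _
      have hN : (p.1 + 1) * (p.2 + 1) ≠ 0 := by positivity
      refine (ENNReal.pow_le_pow_left_iff (mul_ne_zero h hN)).1 ?_
      rw [pow_mul, Phi.root_pow _ h, mul_comm (a * b), pow_mul _ _ (a * b), Phi.root_pow _ hN]
      exact Phi.cmp2 hO H a b p.1 p.2
  refine ⟨φ, hκ.trans (by simpa using up 1 1), ?_, fun a b => ⟨lo a b, up a b⟩⟩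
  simpa using (lo 0 0).trans (Phi.zr_le_one H 0 0)

end Pool.Agent.Lib.MP_9cc147_pr.AllU.B
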