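import Pool.Agent.Lib.MP_9cc147_pr.U.BTr
import Pool.Agent.Lib.MP_9cc147_pr.U.BOp
import Pool.Agent.Lib.MP_9cc147_pr.U.BLet
import Pool.Agent.Lib.MP_9cc147_pr.U.BPhi
import Pool.Agent.Lib.MP_9cc147_pr.U.BNa
import Pool.Agent.Lib.MP_9cc147_pr.U.BNb

/-! Section B (budget): the theorem. -/

namespace Pool.Agent.Lib.MP_9cc147_pr.AllU

theorem budget : BStmt := B.Tr.budget_of B.opSt B.letSt (B.phiSt B.opSt) B.notchA B.notchB

end Pool.Agent.Lib.MP_9cc147_pr.AllU
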