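import Mathlib

/-! Budget, kit 1: normalised partial sums over heights on finite subsets of the plane. -/

open Finset
open scoped ENNReal

namespace Pool.Agent.Lib.MP_9cc147_pr.AllU.B

abbrev P := ℤ × ℤ

open Classical in
/-- sum over the heights on `V` (factor `c` per site), the other heights as in `m` -/
noncomputable def mg (c : ℝ≥0∞) (V : Finset P) (f : (P → ℤ) → ℝ≥0∞) (m : P → ℤ) : ℝ≥0∞ :=
  c ^ V.card * ∑' y : P → ℤ, if ∀ x, x ∉ V → y x = m x then f y else 0

/-- `f` depends only on the heights on `V` -/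
def Dep (V : Finset P) (f : (P → ℤ) → ℝ≥0∞) : Prop :=
  ∀ y z : P → ℤ, (∀ x ∈ V, y x = z x) → f y = f z

/-- `f` does not change when a constant is added -/
def TI (f : (P → ℤ) → ℝ≥0∞) : Prop := ∀ (y : P → ℤ) (t : ℤ), f (fun x => y x + t) = f y

variable {c : ℝ≥0∞} {U V D : Finset P} {f g a : (P → ℤ) → ℝ≥0∞} {m : P → ℤ}

lemma Dep.mono (h : Dep U f) (hU : U ⊆ V) : Dep V f := fun y z hyz => h y z fun x hx => hyz x (hU hx)

lemma Dep.mul (hf : Dep V f) (hg : Dep V g) : Dep V fun y => f y * g y := fun y z h => by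
  show f y * g y = f z * g z
  rw [hf y z h, hg y z h]

lemma Dep.pow (hf : Dep V f) (k : ℕ) : Dep V fun y => f y ^ k := fun y z h => by
  show f y ^ k = f z ^ k
  rw [hf y z h]

lemma Dep.const (b : ℝ≥0∞) : Dep V fun _ => b := fun _ _ _ => rfl

lemma TI.mul (hf : TI f) (hg : TI g) : TI fun y => f y * g y := fun y t => by
  show f _ * g _ = f y * g y
  rw [hf y t, hg y t]

lemma TI.pow (hf : TI f) (k : ℕ) : TI fun y => f y ^ k := fun y t => by
  show f _ ^ k = f y ^ k
  rw [hf y t]

lemma mg_empty : mg c ∅ f m = f m := by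
  unfold mg
  rw [card_empty, pow_zero, one_mul, tsum_eq_single m]
  · simp
  · intro y hy
    rw [if_neg]
    intro h
    exact hy (funext fun x => h x (by simp))

lemma mg_mono (h : ∀ y, (∀ x, x ∉ V → y x = m x) → f y ≤ g y) : mg c V f m ≤ mg c V g m := by
  unfold mg
  refine mul_le_mul_right (ENNReal.tsum_le_tsum fun y => ?_) _
  split_ifs with hy
  · exact h y hy
  · exact le_rfl

lemma mg_congr (h : ∀ y, (∀ x, x ∉ V → y x = m x) → f y = g y) : mg c V f m = mg c V g m :=
  le_antisymm (mg_mono fun y hy => (h y hy).le) (mg_mono fun y hy => (h y hy).ge)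

lemma mg_const_mul (b : ℝ≥0∞) : mg c V (fun y => b * f y) m = b * mg c V f m := by
  unfold mg
  rw [mul_left_comm, ← ENNReal.tsum_mul_left (a := b)]
  congr 2
  funext y
  split_ifs <;> simp

lemma mg_mul_const (b : ℝ≥0∞) : mg c V (fun y => f y * b) m = mg c V f m * b := by
  simp only [mul_comm _ b]
  exact mg_const_mul b

lemma mg_add : mg c V (fun y => f y + g y) m = mg c V f m + mg c V g m := by
  unfold mg
  rw [← mul_add, ← ENNReal.tsum_add]
  congr 2
  funext y
  split_ifs <;> simp

lemma mg_zero : mg c V (fun _ => 0) m = 0 := by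
  unfold mg
  simp

lemma mg_sum {ι : Type*} (s : Finset ι) (f : ι → (P → ℤ) → ℝ≥0∞) :
    mg c V (fun y => ∑ i ∈ s, f i y) m = ∑ i ∈ s, mg c V (f i) m := by
  classical
  induction s using Finset.induction_on with
  | empty => simpa using mg_zero
  | insert i s hi ih => simp only [sum_insert hi]; rw [mg_add, ih]

/-- a factor that does not see `V` comes out -/
lemma mg_mul (hg : Dep U g) (h : Disjoint U V) :
    mg c V (fun y => g y * f y) m = g m * mg c V f m := by
  rw [← mg_const_mul]
  refine mg_congr fun y hy => ?_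
  rw [hg y m fun x hx => hy x (disjoint_left.1 h hx)]

lemma mg_union (h : Disjoint U V) : mg c (U ∪ V) f m = mg c U (mg c V f) m := by
  classical
  have e1 : mg c U (mg c V f) m = c ^ V.card * mg c U
      (fun y => ∑' z : P → ℤ, if ∀ x, x ∉ V → z x = y x then f z else 0) m := by
    rw [← mg_const_mul]; rfl
  rw [e1]
  unfold mg
  rw [card_union_of_disjoint h, pow_add, mul_comm (c ^ U.card), mul_assoc]
  congr 2
  have e2 : ∀ y : P → ℤ, (if ∀ x, x ∉ U → y x = m x then
      ∑' z : P → ℤ, if ∀ x, x ∉ V → z x = y x then f z else 0 else 0) =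
      ∑' z : P → ℤ, if (∀ x, x ∉ U → y x = m x) ∧ ∀ x, x ∉ V → z x = y x then f z else 0 := by
    intro y
    by_cases hy : ∀ x, x ∉ U → y x = m x
    · rw [if_pos hy]; simp only [and_iff_right hy]
    · rw [if_neg hy]; simp only [hy, false_and, if_false, tsum_zero]
  simp only [e2]
  rw [ENNReal.tsum_comm]
  congr 1
  funext z
  rw [tsum_eq_single (fun x => if x ∈ V then m x else z x)]
  · refine if_congr ⟨fun hz => ⟨fun x hx => ?_, fun x hx => by simp [hx]⟩, fun hz x hx => ?_⟩ rfl rfl
    · show (if x ∈ V then m x else z x) = m x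
      split_ifs with hV
      · rfl
      · exact hz x (by simp [hx, hV])
    · have h1 := hz.1 x (fun hh => hx (mem_union_left _ hh))
      have h2 : x ∉ V := fun hh => hx (mem_union_right _ hh)
      simpa [h2] using h1
  · intro y hy
    rw [if_neg]
    rintro ⟨h1, h2⟩
    apply hy
    funext x
    split_ifs with hV
    · exact h1 x (disjoint_right.1 h hV)
    · exact (h2 x hV).symm

lemma mg_single (v : P) : mg c {v} f m = c * ∑' k : ℤ, f (Function.update m v k) := by
  classical
  unfold mg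
  rw [card_singleton, pow_one]
  congr 1
  have inj : Function.Injective fun k : ℤ => Function.update m v k := Function.update_injective m v
  rw [← inj.tsum_eq]
  · congr 1
    funext k
    rw [if_pos]
    intro x hx
    exact Function.update_of_ne (by simpa using hx) _ _
  · intro y hy
    rw [Function.mem_support] at hy
    have h1 : ∀ x, x ∉ ({v} : Finset P) → y x = m x := by
      by_contra hh
      exact hy (if_neg hh)
    refine ⟨y v, funext fun x => ?_⟩
    by_cases hx : x = v
    · subst hx; simp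
    · show Function.update m v (y v) x = y x
      rw [Function.update_of_ne hx, h1 x (by simpa using hx)]

lemma mg_shift (d : P → ℤ) : mg c V f (m + d) = mg c V (fun y => f (y + d)) m := by
  classical
  unfold mg
  congr 1
  rw [← (Equiv.addRight d).tsum_eq]
  congr 1
  funext y
  simp

lemma mg_dep (hf : Dep (V ∪ D) f) : Dep D (mg c V f) := by
  classical
  intro y z h
  have e : y = (fun x => if x ∈ V then y x else z x) + fun x => if x ∈ V ∪ D then 0 else y x - z x := by
    funext x
    by_cases h1 : x ∈ V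
    · simp [h1]
    · by_cases h2 : x ∈ D
      · simp [h1, h2, h x h2]
      · simp [h1, h2]
  rw [e, mg_shift]
  have e2 : (fun w : P → ℤ => f (w + fun x => if x ∈ V ∪ D then 0 else y x - z x)) = f := by
    funext w
    exact hf _ _ fun x hx => by simp only [Pi.add_apply, if_pos hx, add_zero]
  rw [e2]
  unfold mg
  congr 2
  funext w
  refine if_congr (forall_congr' fun x => forall_congr' fun hx => by simp [hx]) rfl rfl

lemma mg_ti (hf : TI f) : TI (mg c V f) := by
  intro y t
  have : (fun x => y x + t) = y + fun _ => t := rfl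
  rw [this, mg_shift]
  congr 1
  funext w
  exact hf w t

/-- transport along a bijection of the plane -/
lemma mg_map (θ : P ≃ P) {V' : Finset P} (hV : ∀ x, θ x ∈ V' ↔ x ∈ V) :
    mg c V' (fun y => f (y ∘ θ)) m = mg c V f (m ∘ θ) := by
  classical
  have hc : V'.card = V.card := (card_bij (fun x _ => θ x) (fun x hx => (hV x).2 hx)
    (fun x _ y _ h => θ.injective h)
    (fun y hy => ⟨θ.symm y, (hV _).1 (by simpa using hy), by simp⟩)).symm
  unfold mg
  rw [hc]
  congr 1
  rw [← (Equiv.arrowCongr θ (Equiv.refl ℤ)).tsum_eq]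
  congr 1
  funext y
  have e : (Equiv.arrowCongr θ (Equiv.refl ℤ)) y ∘ θ = y := by
    funext x; simp
  simp only [e]
  refine if_congr ⟨fun h x hx => ?_, fun h x hx => ?_⟩ rfl rfl
  · simpa using h (θ x) (fun hh => hx ((hV x).1 hh))
  · simpa using h (θ.symm x) (fun hh => hx (by simpa using (hV _).2 hh))

lemma two_mul_le (x y : ℝ≥0∞) : 2 * (x * y) ≤ x ^ 2 + y ^ 2 := by
  rcases eq_or_ne x ⊤ with rfl | hx
  · simp
  rcases eq_or_ne y ⊤ with rfl | hy
  · simp
  lift x to NNReal using hx
  lift y to NNReal using hy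
  norm_cast
  have : (2 : ℝ) * (x * y) ≤ x ^ 2 + y ^ 2 := by nlinarith [sq_nonneg ((x : ℝ) - y)]
  exact_mod_cast this

lemma tsum_cs {ι : Type*} (a f g : ι → ℝ≥0∞) :
    (∑' i, a i * f i * g i) ^ 2 ≤ (∑' i, a i * f i ^ 2) * ∑' i, a i * g i ^ 2 := by
  have e1 : (∑' i, a i * f i * g i) ^ 2 = ∑' i, ∑' j, a i * a j * ((f i * g j) * (f j * g i)) := by
    rw [sq, ← ENNReal.tsum_mul_right]
    congr 1; funext i
    rw [← ENNReal.tsum_mul_left]
    congr 1; funext j
    ring
  have e2 : (∑' i, a i * f i ^ 2) * ∑' i, a i * g i ^ 2 =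
      ∑' i, ∑' j, a i * a j * (f i * g j) ^ 2 := by
    rw [← ENNReal.tsum_mul_right]
    congr 1; funext i
    rw [← ENNReal.tsum_mul_left]
    congr 1; funext j
    ring
  have e3 : ∑' i, ∑' j, a i * a j * (f i * g j) ^ 2 = ∑' i, ∑' j, a i * a j * (f j * g i) ^ 2 := by
    rw [ENNReal.tsum_comm]
    congr 1; funext i; congr 1; funext j
    ring
  refine (ENNReal.mul_le_mul_iff_right (a := 2) (by simp) (by simp)).1 ?_
  rw [e1, e2, two_mul (∑' i, ∑' j, a i * a j * (f i * g j) ^ 2)]
  nth_rw 2 [e3]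
  rw [← ENNReal.tsum_add, ← ENNReal.tsum_mul_left]
  refine ENNReal.tsum_le_tsum fun i => ?_
  rw [← ENNReal.tsum_add, ← ENNReal.tsum_mul_left]
  refine ENNReal.tsum_le_tsum fun j => ?_
  rw [← mul_add, mul_left_comm]
  exact mul_le_mul_right (two_mul_le _ _) _

/-- Cauchy and Schwarz with a weight -/
lemma mg_cs : mg c V (fun y => a y * f y * g y) m ^ 2 ≤
    mg c V (fun y => a y * f y ^ 2) m * mg c V (fun y => a y * g y ^ 2) m := by
  classical
  unfold mg
  have := tsum_cs (fun y : P → ℤ => if ∀ x, x ∉ V → y x = m x then a y else 0) f g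
  simp only [ite_mul, zero_mul] at this
  rw [mul_pow, mul_mul_mul_comm, ← sq]
  exact mul_le_mul_right this _

open Classical in
lemma mg_erase {v : P} (hv : v ∈ V) : mg c (V.erase v) f m = c ^ (V.card - 1) *
    ∑' y : P → ℤ, if (∀ x, x ∉ V → y x = m x) ∧ y v = m v then f y else 0 := by
  unfold mg
  rw [card_erase_of_mem hv]
  congr 2
  funext y
  refine if_congr ⟨fun h => ⟨fun x hx => h x (by simp [hx]), h v (by simp)⟩, fun h x hx => ?_⟩ rfl rfl
  by_cases hxv : x = v
  · rw [hxv]; exact h.2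
  · exact h.1 x fun hh => hx (mem_erase.2 ⟨hxv, hh⟩)

/-- the pinned site and the pinned value do not matter -/
lemma mg_pin (hf : Dep V f) (ht : TI f) {v v' : P} (hv : v ∈ V) (hv' : v' ∈ V) (m m' : P → ℤ) :
    mg c (V.erase v) f m = mg c (V.erase v') f m' := by
  classical
  have k0 : ∀ {v : P}, v ∈ V → ∀ m, mg c (V.erase v) f m = mg c (V.erase v) f 0 := by
    intro v hv m
    have hd : Dep {v} (mg c (V.erase v) f) := mg_dep (hf.mono fun x hx => by
      by_cases h : x = v <;> simp [h, hx])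
    rw [← mg_ti ht 0 (m v)]
    exact hd _ _ fun x hx => by rw [mem_singleton.1 hx]; simp
  rw [k0 hv, k0 hv', mg_erase hv, mg_erase hv']
  congr 1
  have k1 : ∀ y : P → ℤ, (if (∀ x, x ∉ V → y x = (0 : P → ℤ) x) ∧ y v = (0 : P → ℤ) v then f y
      else 0) = ∑' t : ℤ, if ((∀ x, x ∉ V → y x = 0) ∧ y v = 0) ∧ y v' = t then f y else 0 := by
    intro y
    rw [tsum_eq_single (y v')]
    · simp
    · intro t ht
      rw [if_neg]
      exact fun h => ht h.2.symm
  have k2 : ∀ y : P → ℤ, (if (∀ x, x ∉ V → y x = (0 : P → ℤ) x) ∧ y v' = (0 : P → ℤ) v' then f y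
      else 0) = ∑' t : ℤ, if ((∀ x, x ∉ V → y x = 0) ∧ y v' = 0) ∧ y v + t = 0 then f y else 0 := by
    intro y
    rw [tsum_eq_single (-y v)]
    · simp
    · intro t ht
      rw [if_neg]
      exact fun h => ht (by omega)
  simp only [k1, k2]
  rw [ENNReal.tsum_comm, ENNReal.tsum_comm (f := fun (y : P → ℤ) (t : ℤ) =>
    if ((∀ x, x ∉ V → y x = 0) ∧ y v' = 0) ∧ y v + t = 0 then f y else 0)]
  congr 1
  funext t
  rw [← (Equiv.addRight fun x => if x ∈ V then t else 0).tsum_eq]
  congr 1
  funext y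
  have e : f (y + fun x => if x ∈ V then t else 0) = f y := by
    rw [← ht y t]
    exact hf _ _ fun x hx => by simp [hx]
  simp only [Equiv.coe_addRight, e, Pi.add_apply, if_pos hv, if_pos hv']
  refine if_congr ⟨fun h => ⟨⟨fun x hx => by simpa [hx] using h.1.1 x hx, by omega⟩, h.1.2⟩,
    fun h => ⟨⟨fun x hx => by simpa [hx] using h.1.1 x hx, h.2⟩, by omega⟩⟩ rfl rfl

end Pool.Agent.Lib.MP_9cc147_pr.AllU.B
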