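import Pool.Agent.Lib.MP_9cc147_pr.U.BKit

/-! Budget, kit 2: pair weights, boundary sums, cutting, splitting, reflection, trees. -/

open Finset
open scoped ENNReal

namespace Pool.Agent.Lib.MP_9cc147_pr.AllU.B

abbrev Wt := P → P → ℤ → ℝ≥0∞

/-- weight of all ordered pairs in `V` -/
noncomputable def F (g : Wt) (V : Finset P) (y : P → ℤ) : ℝ≥0∞ :=
  ∏ x ∈ V, ∏ x' ∈ V, g x x' (y x - y x')

/-- weight of the unordered pair -/
noncomputable def sy (g : Wt) (x x' : P) (k : ℤ) : ℝ≥0∞ := g x x' k * g x' x (-k)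

/-- weight of the pairs between `A` and `D` -/
noncomputable def X (g : Wt) (A D : Finset P) (y : P → ℤ) : ℝ≥0∞ :=
  ∏ x ∈ A, ∏ x' ∈ D, sy g x x' (y x - y x')

/-- sum over the heights on `A` with boundary heights on `D` -/
noncomputable def Ph (c : ℝ≥0∞) (g : Wt) (A D : Finset P) : (P → ℤ) → ℝ≥0∞ :=
  mg c A fun y => F g A y * X g A D y

/-- normalised partition function of `V` pinned at `v` -/
noncomputable def Z (c : ℝ≥0∞) (g : Wt) (V : Finset P) (v : P) : ℝ≥0∞ :=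
  mg c (V.erase v) (F g V) 0

/-- no interaction between `A` and `B` -/
def NoP (g : Wt) (A B : Finset P) : Prop := ∀ x ∈ A, ∀ x' ∈ B, ∀ k, sy g x x' k = 1

def Le1 (g : Wt) : Prop := ∀ x x' k, g x x' k ≤ 1

/-- the pair is a bond of normalised mass at most `b` -/
def Lnk (c : ℝ≥0∞) (g : Wt) (b : ℝ≥0∞) (x x' : P) : Prop := c * ∑' k, sy g x x' k ≤ b

variable {c b : ℝ≥0∞} {g g' : Wt} {A B D D' E V A' B' V' : Finset P} {v v' x x' : P} {y m : P → ℤ}

lemma sy_comm (g : Wt) (x x' : P) (k : ℤ) : sy g x x' k = sy g x' x (-k) := by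
  simp [sy, mul_comm]

lemma NoP.symm (h : NoP g A B) : NoP g B A := fun x hx x' hx' k => by
  rw [sy_comm]; exact h x' hx' x hx _

lemma Lnk.symm (h : Lnk c g b x x') : Lnk c g b x' x := by
  unfold Lnk at h ⊢
  rw [← (Equiv.neg ℤ).tsum_eq]
  simpa only [Equiv.neg_apply, ← sy_comm] using h

lemma F_dep : Dep V (F g V) := fun y z h =>
  prod_congr rfl fun x hx => prod_congr rfl fun x' hx' => by rw [h x hx, h x' hx']

lemma F_ti : TI (F g V) := fun y t => by
  simp [F]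

lemma X_dep : Dep (A ∪ D) (X g A D) := fun y z h =>
  prod_congr rfl fun x hx => prod_congr rfl fun x' hx' => by
    rw [h x (mem_union_left _ hx), h x' (mem_union_right _ hx')]

lemma X_ti : TI (X g A D) := fun y t => by
  simp [X]

lemma X_comm : X g A D = X g D A := by
  funext y
  unfold X
  rw [prod_comm]
  refine prod_congr rfl fun x _ => prod_congr rfl fun x' _ => ?_
  rw [sy_comm, neg_sub]

lemma F_union (h : Disjoint A D) : F g (A ∪ D) y = F g A y * F g D y * X g A D y := by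
  unfold F X
  simp only [prod_union h, prod_mul_distrib, sy, neg_sub]
  rw [prod_comm (s := D) (t := A)]
  ring

lemma X_union_left (h : Disjoint A B) : X g (A ∪ B) D y = X g A D y * X g B D y := by
  unfold X
  rw [prod_union h]

lemma X_union_right (h : Disjoint D E) : X g A (D ∪ E) y = X g A D y * X g A E y := by
  unfold X
  simp only [prod_union h, prod_mul_distrib]

lemma X_one (h : NoP g A D) : X g A D y = 1 := prod_eq_one fun x hx => prod_eq_one fun x' hx' => h x hx x' hx' _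

lemma F_le_one (hg : Le1 g) : F g V y ≤ 1 := prod_le_one' fun _ _ => prod_le_one' fun _ _ => hg _ _ _

lemma sy_le_one (hg : Le1 g) (x x' : P) (k : ℤ) : sy g x x' k ≤ 1 := mul_le_one' (hg _ _ _) (hg _ _ _)

lemma X_le_one (hg : Le1 g) : X g A D y ≤ 1 := prod_le_one' fun _ _ => prod_le_one' fun _ _ => sy_le_one hg _ _ _

lemma prod_le_term {ι : Type*} {s : Finset ι} {f : ι → ℝ≥0∞} (h : ∀ i, f i ≤ 1) {i : ι}
    (hi : i ∈ s) : ∏ j ∈ s, f j ≤ f i := by
  classical
  rw [← mul_prod_erase s f hi]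
  exact mul_le_of_le_one_right' (prod_le_one' fun _ _ => h _)

lemma X_le (hg : Le1 g) (hx : x ∈ A) (hx' : x' ∈ D) : X g A D y ≤ sy g x x' (y x - y x') := 
  (prod_le_term (fun _ => prod_le_one' fun _ _ => sy_le_one hg _ _ _) hx).trans
    (prod_le_term (f := fun x' => sy g x x' (y x - y x')) (fun _ => sy_le_one hg _ _ _) hx')

lemma F_sq : F g V y ^ 2 = X g V V y := by
  unfold F X
  simp only [sy, prod_mul_distrib, neg_sub]
  rw [sq]
  congr 1
  exact prod_comm

lemma le_of_sq {p q : ℝ≥0∞} (h : p ^ 2 ≤ q ^ 2) : p ≤ q := (ENNReal.pow_le_pow_left_iff two_ne_zero).1 h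

lemma F_one (h : NoP g V V) : F g V y = 1 := by
  have : F g V y ^ 2 = 1 ^ 2 := by rw [F_sq, X_one h, one_pow]
  exact le_antisymm (le_of_sq this.le) (le_of_sq this.ge)

lemma F_mono (h : ∀ x ∈ V, ∀ x' ∈ V, ∀ k, sy g x x' k ≤ sy g' x x' k) : F g V y ≤ F g' V y := by
  apply le_of_sq
  rw [F_sq, F_sq]
  exact prod_le_prod' fun x hx => prod_le_prod' fun x' hx' => h x hx x' hx' _

lemma prod_equiv (θ : P ≃ P) (hV : ∀ x, θ x ∈ V' ↔ x ∈ V) (f : P → ℝ≥0∞) :
    ∏ x ∈ V', f x = ∏ x ∈ V, f (θ x) :=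
  (Finset.prod_equiv θ (fun x => (hV x).symm) fun _ _ => rfl).symm

lemma X_map (θ : P ≃ P) (hA : ∀ x, θ x ∈ A' ↔ x ∈ A) (hD : ∀ x, θ x ∈ D' ↔ x ∈ D)
    (h : ∀ x ∈ A, ∀ x' ∈ D, ∀ k, sy g' (θ x) (θ x') k = sy g x x' k) :
    X g' A' D' y = X g A D (y ∘ θ) := by
  unfold X
  rw [prod_equiv θ hA]
  refine prod_congr rfl fun x hx => ?_
  rw [prod_equiv θ hD]
  exact prod_congr rfl fun x' hx' => h x hx x' hx' _

lemma F_map (θ : P ≃ P) (hV : ∀ x, θ x ∈ V' ↔ x ∈ V)
    (h : ∀ x ∈ V, ∀ x' ∈ V, ∀ k, sy g' (θ x) (θ x') k = sy g x x' k) :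
    F g' V' y = F g V (y ∘ θ) := by
  have : F g' V' y ^ 2 = F g V (y ∘ θ) ^ 2 := by rw [F_sq, F_sq, X_map θ hV hV h]
  exact le_antisymm (le_of_sq this.le) (le_of_sq this.ge)


lemma Ph_dep : Dep D (Ph c g A D) := mg_dep ((F_dep.mono subset_union_left).mul X_dep)

lemma Ph_ti : TI (Ph c g A D) := mg_ti (F_ti.mul X_ti)

lemma Ph_empty : Ph c g ∅ D y = 1 := by
  simp [Ph, mg_empty, F, X]

lemma Z_pin (hv : v ∈ V) (hv' : v' ∈ V) : Z c g V v = Z c g V v' := mg_pin F_dep F_ti hv hv' _ _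

lemma Z_eq_mg (hv : v ∈ V) (m : P → ℤ) : mg c (V.erase v) (F g V) m = Z c g V v := mg_pin F_dep F_ti hv hv _ _

lemma Z_single (h : g v v 0 = 1) : Z c g {v} v = 1 := by
  simp [Z, mg_empty, F, h]

lemma Z_mono (h : ∀ x ∈ V, ∀ x' ∈ V, ∀ k, sy g x x' k ≤ sy g' x x' k) :
    Z c g V v ≤ Z c g' V v := mg_mono fun _ _ => F_mono h


/-- sum first over `A` -/
lemma Z_eq (h : Disjoint A D) (hv : v ∈ D) :
    Z c g (A ∪ D) v = mg c (D.erase v) (fun y => F g D y * Ph c g A D y) 0 := by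
  have e : (A ∪ D).erase v = D.erase v ∪ A := by
    ext x
    have := disjoint_right.1 h hv
    simp only [mem_erase, mem_union]
    constructor
    · tauto
    · rintro (h1 | h1)
      · tauto
      · exact ⟨fun hh => this (hh ▸ h1), Or.inl h1⟩
  unfold Z
  rw [e, mg_union (h.symm.mono_left (erase_subset _ _))]
  congr 1
  funext y
  unfold Ph
  rw [← mg_mul F_dep h.symm]
  congr 1
  funext z
  rw [F_union h]
  ring


/-- tower rule -/
lemma Ph_union (hAB : Disjoint A B) (hAD : Disjoint A D) (hBD : Disjoint B D) :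
    Ph c g (A ∪ B) D y =
      mg c A (fun z => F g A z * X g A D z * Ph c g B (A ∪ D) z) y := by
  unfold Ph
  rw [mg_union hAB]
  congr 1
  funext z
  rw [← mg_mul ((F_dep.mono subset_union_left).mul X_dep) (disjoint_union_left.2 ⟨hAB, hBD.symm⟩)]
  congr 1
  funext w
  rw [F_union hAB, X_union_left hAB, X_union_right hAD, X_comm (A := A) (D := B)]
  ring


lemma Ph_restrict (hD : D' ⊆ D) (h : NoP g A (D \ D')) : Ph c g A D = Ph c g A D' := by
  unfold Ph
  congr 1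
  funext y
  rw [← union_sdiff_of_subset hD, X_union_right disjoint_sdiff, X_one h, mul_one]


lemma Ph_mul (hAB : Disjoint A B) (hAD : Disjoint A D) (hBD : Disjoint B D) (h : NoP g A B) :
    Ph c g (A ∪ B) D y = Ph c g A D y * Ph c g B D y := by
  rw [Ph_union hAB hAD hBD, Ph_restrict (D' := D) subset_union_right
    (fun x hx x' hx' => h.symm x hx x' (by simp only [mem_sdiff, mem_union] at hx'; tauto))]
  simp only [mul_comm _ (Ph c g B D _)]
  rw [mg_mul Ph_dep hAD.symm]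
  rfl


lemma Z_split (hAB : Disjoint A B) (hAD : Disjoint A D) (hBD : Disjoint B D) (h : NoP g A B)
    (hv : v ∈ D) : Z c g (A ∪ B ∪ D) v =
      mg c (D.erase v) (fun y => F g D y * Ph c g A D y * Ph c g B D y) 0 := by
  rw [Z_eq (disjoint_union_left.2 ⟨hAD, hBD⟩) hv]
  simp only [Ph_mul hAB hAD hBD h, mul_assoc]


lemma Ph_map (θ : P ≃ P) (hA : ∀ x, θ x ∈ A' ↔ x ∈ A) (hD : ∀ x, θ x ∈ D' ↔ x ∈ D)
    (h : ∀ x ∈ A, ∀ x' ∈ A ∪ D, ∀ k, sy g' (θ x) (θ x') k = sy g x x' k) :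
    Ph c g' A' D' y = Ph c g A D (y ∘ θ) := by
  unfold Ph
  rw [← mg_map θ hA]
  congr 1
  funext z
  rw [F_map θ hA fun x hx x' hx' => h x hx x' (mem_union_left _ hx'),
    X_map θ hA hD fun x hx x' hx' => h x hx x' (mem_union_right _ hx')]


/-- reflection that fixes the boundary -/
lemma Ph_refl (θ : P ≃ P) (hA : ∀ x, θ x ∈ A' ↔ x ∈ A) (hD : ∀ x ∈ D, θ x = x)
    (h : ∀ x ∈ A, ∀ x' ∈ A ∪ D, ∀ k, sy g' (θ x) (θ x') k = sy g x x' k) :
    Ph c g' A' D = Ph c g A D := by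
  funext y
  rw [Ph_map θ hA (D := D) (D' := D) (fun x => ⟨fun hx => ?_, fun hx => by rwa [hD x hx]⟩) h]
  · exact Ph_dep _ _ fun x hx => by simp [hD x hx]
  · have := θ.injective (hD _ hx)
    rwa [this] at hx


lemma Z_map (θ : P ≃ P) (hV : ∀ x, θ x ∈ V' ↔ x ∈ V) (hv : v ∈ V) (hv' : v' ∈ V')
    (h : ∀ x ∈ V, ∀ x' ∈ V, ∀ k, sy g' (θ x) (θ x') k = sy g x x' k) :
    Z c g' V' v' = Z c g V v := by
  rw [Z_pin hv' ((hV v).2 hv)]
  unfold Z
  have e : F g' V' = fun y => F g V (y ∘ θ) := funext fun y => F_map θ hV h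
  rw [e, mg_map θ (V := V.erase v) (fun x => by simp [hV])]
  rfl


/-- cutting: a block hangs on one bond -/
lemma Ph_le_Z (hg : Le1 g) (hx : x ∈ B) (hx' : x' ∈ D) (hBD : Disjoint B D)
    (hl : Lnk c g b x x') : Ph c g B D y ≤ b * Z c g B x := by
  unfold Ph
  have e : B = B.erase x ∪ {x} := by
    rw [union_comm, ← insert_eq, insert_erase hx]
  have hd : Disjoint ({x} : Finset P) (B.erase x) := by simp
  have hxD : x' ∉ B := disjoint_right.1 hBD hx'
  calc mg c B (fun y => F g B y * X g B D y) y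
      ≤ mg c B (fun z => sy g x x' (z x - y x') * F g B z) y := by
        refine mg_mono fun z hz => ?_
        rw [mul_comm, ← hz x' hxD]
        exact mul_le_mul_left (X_le hg hx hx') _
    _ = mg c ({x} ∪ B.erase x) (fun z => sy g x x' (z x - y x') * F g B z) y := by
        rw [union_comm, ← e]
    _ = mg c {x} (fun z => sy g x x' (z x - y x') * Z c g B x) y := by
        rw [mg_union hd]
        congr 1
        funext z
        rw [mg_mul (U := {x}) (fun a b hab => by rw [hab x (mem_singleton_self x)]) hd, Z_eq_mg hx]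
    _ ≤ b * Z c g B x := by
        rw [mg_mul_const, mg_single]
        refine mul_le_mul_left (le_trans (le_of_eq ?_) hl) _
        congr 1
        rw [← (Equiv.addRight (y x')).tsum_eq]
        simp


lemma Ph_cut (hg : Le1 g) (hAB : Disjoint A B) (hAD : Disjoint A D) (hBD : Disjoint B D)
    (hx : x ∈ B) (hx' : x' ∈ A ∪ D) (hl : Lnk c g b x x') :
    Ph c g (A ∪ B) D y ≤ Ph c g A D y * (b * Z c g B x) := by
  rw [Ph_union hAB hAD hBD]
  unfold Ph
  rw [← mg_mul_const]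
  exact mg_mono fun z _ => mul_le_mul_right
    (Ph_le_Z hg hx hx' (disjoint_union_right.2 ⟨hAB.symm, hBD⟩) hl) _


lemma Z_cut (hg : Le1 g) (hAB : Disjoint A B) (hx : x ∈ A) (hx' : x' ∈ B) (hl : Lnk c g b x x')
    (hv : v ∈ A ∪ B) : Z c g (A ∪ B) v ≤ Z c g A x * (b * Z c g B x') := by
  rw [Z_pin hv (mem_union_left _ hx), union_comm, Z_eq hAB.symm hx]
  unfold Z
  rw [← mg_mul_const]
  exact mg_mono fun z _ => mul_le_mul_right (Ph_le_Z hg hx' hx hAB.symm hl.symm) _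


/-- trees: every site hangs on a site of smaller rank, with a bond of mass at most `bb` -/
lemma Ph_tree (hg : Le1 g) (hAD : Disjoint A D) (rk : P → ℤ) (bb : P → ℝ≥0∞)
    (h : ∀ x ∈ A, ∃ x', (x' ∈ D ∨ x' ∈ A ∧ rk x' < rk x) ∧ Lnk c g (bb x) x x') :
    Ph c g A D y ≤ ∏ x ∈ A, bb x := by
  induction A using Finset.induction_on_max_value rk with
  | empty => simp [Ph_empty]
  | insert a s ha hmax ih =>
    have hs : Disjoint s D := hAD.mono_left (subset_insert _ _)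
    have ha' : Disjoint ({a} : Finset P) D := hAD.mono_left (by simp)
    obtain ⟨x', h1, h2⟩ := h a (mem_insert_self _ _)
    have hx' : x' ∈ s ∪ D := by
      rcases h1 with h1 | ⟨h1, h3⟩
      · exact mem_union_right _ h1
      · rcases mem_insert.1 h1 with rfl | h1
        · exact absurd h3 (lt_irrefl _)
        · exact mem_union_left _ h1
    have hZ : Z c g {a} a ≤ 1 := by
      unfold Z
      rw [erase_singleton, mg_empty]
      exact F_le_one hg
    rw [prod_insert ha, insert_eq, union_comm]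
    refine (Ph_cut hg (by simpa using ha) hs ha' (mem_singleton_self a) hx' h2).trans ?_
    rw [mul_comm]
    refine mul_le_mul' (mul_le_of_le_one_right' hZ) (ih hs fun x hx => ?_)
    obtain ⟨z, h3, h4⟩ := h x (mem_insert_of_mem hx)
    refine ⟨z, ?_, h4⟩
    rcases h3 with h3 | ⟨h3, h5⟩
    · exact Or.inl h3
    · rcases mem_insert.1 h3 with rfl | h3
      · exact absurd (hmax x hx) (not_le.2 h5)
      · exact Or.inr ⟨h3, h5⟩


lemma Z_tree (hg : Le1 g) (hv : v ∈ V) (rk : P → ℤ) (bb : P → ℝ≥0∞)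
    (h : ∀ x ∈ V, x ≠ v → ∃ x' ∈ V, rk x' < rk x ∧ Lnk c g (bb x) x x') :
    Z c g V v ≤ ∏ x ∈ V.erase v, bb x := by
  have e : V = V.erase v ∪ {v} := by rw [union_comm, ← insert_eq, insert_erase hv]
  have hd : Disjoint (V.erase v) ({v} : Finset P) := by simp
  have e2 : Z c g V v = Z c g (V.erase v ∪ {v}) v := by rw [← e]
  rw [e2, Z_eq hd (mem_singleton_self v), erase_singleton, mg_empty]
  refine (mul_le_of_le_one_left' (F_le_one hg)).trans (Ph_tree hg hd rk bb fun x hx => ?_)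
  obtain ⟨x', h1, h2, h3⟩ := h x (mem_of_mem_erase hx) (ne_of_mem_erase hx)
  refine ⟨x', ?_, h3⟩
  by_cases hh : x' = v
  · exact Or.inl (mem_singleton.2 hh)
  · exact Or.inr ⟨mem_erase.2 ⟨hh, h1⟩, h2⟩


/-- reflection inequality: `A'` is a mirror image of `A`, `B'` of `B`, all with boundary `D` -/
lemma Z_rp {g1 g2 : Wt} (hAB : Disjoint A B) (hAD : Disjoint A D) (hBD : Disjoint B D)
    (h : NoP g A B) (hv : v ∈ D)
    (hA1 : Disjoint A A') (hA2 : Disjoint A' D) (hA3 : NoP g1 A A')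
    (hB1 : Disjoint B' B) (hB2 : Disjoint B' D) (hB3 : NoP g2 B' B)
    (f1 : F g1 D = F g D) (f2 : F g2 D = F g D)
    (p1 : Ph c g1 A D = Ph c g A D) (p1' : Ph c g1 A' D = Ph c g A D)
    (p2 : Ph c g2 B D = Ph c g B D) (p2' : Ph c g2 B' D = Ph c g B D) :
    Z c g (A ∪ B ∪ D) v ^ 2 ≤ Z c g1 (A ∪ A' ∪ D) v * Z c g2 (B' ∪ B ∪ D) v := by
  rw [Z_split hAB hAD hBD h hv, Z_split hA1 hAD hA2 hA3 hv, Z_split hB1 hB2 hBD hB3 hv,
    f1, f2, p1, p1', p2, p2']
  simpa only [sq, mul_assoc] using mg_cs (c := c) (V := D.erase v) (a := F g D)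
    (f := Ph c g A D) (g := Ph c g B D) (m := 0)


/-- doubling along `D` -/
lemma Z_dbl (hAD : Disjoint A D) (hv : v ∈ D) : Z c g (A ∪ D) v ^ 2 ≤
    Z c g D v * mg c (D.erase v) (fun y => F g D y * Ph c g A D y ^ 2) 0 := by
  rw [Z_eq hAD hv]
  simpa [Z] using mg_cs (c := c) (V := D.erase v) (a := F g D) (f := fun _ => 1)
    (g := Ph c g A D) (m := 0)


lemma F_congr (h : ∀ x ∈ V, ∀ x' ∈ V, ∀ k, sy g x x' k = sy g' x x' k) : F g V = F g' V := 
  funext fun _ => le_antisymm (F_mono fun x hx x' hx' k => (h x hx x' hx' k).le)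
    (F_mono fun x hx x' hx' k => (h x hx x' hx' k).ge)

lemma Ph_congr (h : ∀ x ∈ A, ∀ x' ∈ A ∪ D, ∀ k, sy g x x' k = sy g' x x' k) :
    Ph c g A D = Ph c g' A D := 
  (Ph_refl (Equiv.refl P) (fun _ => Iff.rfl) (fun _ _ => rfl)
    fun x hx x' hx' k => (h x hx x' hx' k).symm).symm


end Pool.Agent.Lib.MP_9cc147_pr.AllU.B
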