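import Pool.Agent.Lib.MP_9cc147_pr.U.BDefs

/-! Section B (budget): the recursion over the scales and the bound in the plane. -/

set_option autoImplicit false

open Finset
open scoped ENNReal

namespace Pool.Agent.Lib.MP_9cc147_pr.AllU.B.Rec

variable {c η κ φ : ℝ≥0∞} {w ws : ℤ → ℝ≥0∞}

lemma Z_rect (H : Hw c w ws η) {V : Finset P} {v : P} (i j : ℤ) (a b : ℕ) (hv : v ∈ V)
    (hV : ∀ x : P, x ∈ V ↔ (i ≤ x.1 ∧ x.1 ≤ i + a) ∧ j ≤ x.2 ∧ x.2 ≤ j + b) :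
    Z c (gL w) V v = zr c w a b := by
  refine Z_map (Equiv.addRight (i, j)) (fun x => ?_) (by rw [mem_Rc]; omega) hv
    fun x _ x' _ k => ?_
  · rw [hV, mem_Rc]
    simp only [Equiv.coe_addRight, Prod.fst_add, Prod.snd_add]
    omega
  · rw [sy_gL H, sy_gL H]
    simp only [Equiv.coe_addRight, Prod.fst_add, Prod.snd_add]
    exact if_congr (by omega) rfl rfl

lemma pow_le_of (h1 : κ ≤ φ) (h2 : φ ≤ 1) {a b : ℕ} (h : a ≤ b) : κ ^ b ≤ φ ^ a :=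
  (pow_le_pow_left' h1 b).trans (pow_le_pow_right_of_le_one' h2 h)

lemma Y_le (H : Hw c w w 1) (hz : ∀ a b : ℕ, zr c w a b ≤ φ ^ (a * b)) (s t : ℕ) :
    Z c (gL w) (Yc (s + 1 + t) (s + 1)) ((s + 1 + t : ℕ), (s + 1 + t : ℕ)) ≤
      φ ^ (t * (s + 1 + t) + s * t) := by
  set n := s + 1 + t with hn
  set A := (Rc n n).filter fun x => ((s + 1 : ℕ) : ℤ) ≤ x.1 with hA
  set B := (Rc n n).filter fun x => x.1 ≤ (s:ℤ) ∧ ((s + 1 : ℕ) : ℤ) ≤ x.2 with hB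
  have mA : ∀ x : P, x ∈ A ↔ ((s:ℤ) + 1 ≤ x.1 ∧ x.1 ≤ s + 1 + t) ∧ 0 ≤ x.2 ∧ x.2 ≤ 0 + n :=
    fun x => by rw [hA, mem_filter, mem_Rc]; omega
  have mB : ∀ x : P, x ∈ B ↔ (0 ≤ x.1 ∧ x.1 ≤ 0 + s) ∧ (s:ℤ) + 1 ≤ x.2 ∧ x.2 ≤ s + 1 + t :=
    fun x => by rw [hB, mem_filter, mem_Rc]; omega
  have e : Yc n (s + 1) = A ∪ B := by
    ext x; rw [mem_union, mA, mB, mem_Yc]; omega
  have a1 : (((s:ℤ) + 1, (n:ℤ)) : P) ∈ A := by rw [mA]; simp only; omega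
  have b1 : (((s:ℤ), (n:ℤ)) : P) ∈ B := by rw [mB]; simp only; omega
  have h := Z_cut (c := c) (v := ((n:ℤ), (n:ℤ))) (H.le1W fun _ => ∅)
    (disjoint_left.2 fun x h1 h2 => by rw [mA] at h1; rw [mB] at h2; omega) a1 b1
    (H.lnk _ (by simp)) (by rw [mem_union, mA]; simp only; omega)
  rw [e]
  refine h.trans ?_
  rw [one_mul, pow_add]
  exact mul_le_mul' ((Z_rect H _ _ t n a1 mA).trans_le (hz t n))
    ((Z_rect H _ _ s t b1 mB).trans_le (hz s t))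

theorem notch (hA : NotchA) (hB : NotchB) (H : Hw c w w 1) (h1 : κ ≤ φ) (h2 : φ ≤ 1)
    (hz : ∀ a b : ℕ, φ ^ ((a + 1) * (b + 1)) ≤ zr c w a b ∧ zr c w a b ≤ φ ^ (a * b)) (n : ℕ) :
    ∀ d r : ℕ, n ≤ r + d → r + 1 ≤ n →
      κ ^ (8 * (r + 5)) * φ ^ ((r + 1) * (r + 1)) * Z c (gL w) (Yc n (r + 1)) (n, n) ≤
        zr c w n n := by
  have base : ∀ r, r + 1 ≤ n → n < 2 * (r + 1) + 4 →
      κ ^ (8 * (r + 5)) * φ ^ ((r + 1) * (r + 1)) * Z c (gL w) (Yc n (r + 1)) (n, n) ≤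
        zr c w n n := by
    intro r hr hn
    obtain ⟨t, rfl⟩ := Nat.exists_eq_add_of_le hr
    refine le_trans ?_ (hz _ _).1
    calc _ ≤ φ ^ (3 * t + 2 * r + 3) * φ ^ ((r + 1) * (r + 1)) *
          φ ^ (t * (r + 1 + t) + r * t) :=
          mul_le_mul' (mul_le_mul' (pow_le_of h1 h2 (by omega)) le_rfl)
            (Y_le H (fun a b => (hz a b).2) r t)
      _ = _ := by rw [← pow_add, ← pow_add]; congr 1; ring
  intro d
  induction d with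
  | zero => intro r h hr; omega
  | succ d ih =>
    intro r h hr
    by_cases hn : n < 2 * (r + 1) + 4
    · exact base r hr hn
    have e1 := hB c w H n (r + 1) (by omega)
    have e2 := hA c w H n (2 * (r + 1) + 2) (by omega)
    have e3 := ih (2 * r + 5) (by omega) (by omega)
    rw [show 2 * (r + 1) + 2 + 2 = 2 * r + 5 + 1 by ring] at e2
    set Y := Z c (gL w) (Yc n (r + 1)) (n, n)
    set Y' := Z c (gL w) (Yc n (2 * r + 5 + 1)) (n, n)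
    set O := Z c (gL w) (Oc n (2 * (r + 1) + 2)) (n, n)
    set z := zr c w n n
    refine (ENNReal.pow_le_pow_left_iff (n := 4) (by norm_num)).1 ?_
    calc (κ ^ (8 * (r + 5)) * φ ^ ((r + 1) * (r + 1)) * Y) ^ 4
        = κ ^ (8 * (2 * r + 5 + 5)) * κ ^ (16 * r + 80) * φ ^ (4 * ((r + 1) * (r + 1))) *
            (Y ^ 2) ^ 2 := by ring
      _ ≤ κ ^ (8 * (2 * r + 5 + 5)) * φ ^ (16 * r + 32) * φ ^ (4 * ((r + 1) * (r + 1))) *
            (z * O) ^ 2 := by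
          gcongr ?_ * ?_ * _ * ?_ ^ 2
          · exact le_rfl
          · exact pow_le_of h1 h2 (by omega)
      _ = κ ^ (8 * (2 * r + 5 + 5)) * φ ^ ((2 * r + 5 + 1) * (2 * r + 5 + 1)) * z ^ 2 * O ^ 2 := by
          ring
      _ ≤ κ ^ (8 * (2 * r + 5 + 5)) * φ ^ ((2 * r + 5 + 1) * (2 * r + 5 + 1)) * z ^ 2 *
            (z * Y') := by gcongr
      _ = z ^ 3 * (κ ^ (8 * (2 * r + 5 + 5)) * φ ^ ((2 * r + 5 + 1) * (2 * r + 5 + 1)) * Y') := by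
          ring
      _ ≤ z ^ 3 * z := by gcongr
      _ = z ^ 4 := by ring

/-- rows of the steep edges in a column -/
def rows (T : Finset P) (i : ℤ) : Finset ℤ := (T.filter fun x => x.1 = i).image Prod.snd

lemma mem_rows {T : Finset P} {x : P} : x.2 ∈ rows T x.1 ↔ x ∈ T := by
  simp only [rows, mem_image, mem_filter]
  exact ⟨fun ⟨y, ⟨h1, h2⟩, h3⟩ => by rwa [← Prod.ext h2 h3], fun h => ⟨x, ⟨h, rfl⟩, rfl⟩⟩

lemma sum_rows {T : Finset P} {a : ℕ} (h : ∀ x ∈ T, 0 ≤ x.1 ∧ x.1 < a) :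
    ∑ i ∈ Ico (0:ℤ) a, (rows T i).card = T.card := by
  rw [card_eq_sum_card_fiberwise (f := Prod.fst) (t := Ico (0:ℤ) a)
    fun x hx => by simpa using h x hx]
  refine sum_congr rfl fun i _ => card_image_of_injOn fun x hx y hy e => ?_
  simp only [coe_filter, Set.mem_ofPred_eq] at hx hy
  exact Prod.ext (hx.2.trans hy.2.symm) e

lemma word (hO : OpSt) (hL : LetSt) (H : Hw c w ws η) (h0 : κ ≠ 0) (h1 : κ ≤ φ) (h2 : φ ≤ 1)
    (hz : ∀ a b : ℕ, zr c w a b ≤ φ ^ (a * b)) (a b : ℕ) {T : Finset P}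
    (h : ∀ x ∈ T, (0 ≤ x.1 ∧ x.1 < a) ∧ 0 ≤ x.2 ∧ x.2 ≤ b) :
    κ ^ (2 * T.card) * zz c w ws a b (rows T) ≤ φ ^ (a * b) * η ^ T.card := by
  have ht : κ ≠ ∞ := ne_top_of_le_ne_top ENNReal.one_ne_top (h1.trans h2)
  have hi : ∀ m : ℕ, κ⁻¹ ^ m * κ ^ m = 1 := fun m => by
    rw [← mul_pow, ENNReal.inv_mul_cancel h0 ht, one_pow]
  have e := hO c η w ws H a b (fun E => κ⁻¹ ^ (2 * E.card) * (φ ^ b * η ^ E.card)) (rows T)
    fun i => ⟨1, ENNReal.one_ne_top, fun k => by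
      have := hL c η κ φ w ws H h1 h2 hz k b (rows T i) fun j hj => by
        obtain ⟨x, hx, rfl⟩ := mem_image.1 hj
        exact mem_Icc.2 (h x (mem_filter.1 hx).1).2
      calc _ = κ⁻¹ ^ (2 * (rows T i).card * k) * (κ ^ (2 * (rows T i).card * k) *
            zz c w ws k b fun _ => rows T i) := by rw [← mul_assoc, hi, one_mul]
        _ ≤ κ⁻¹ ^ (2 * (rows T i).card * k) * (φ ^ (k * b) * η ^ ((rows T i).card * k)) := by
            gcongr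
        _ = _ := by ring⟩
  rw [prod_mul_distrib, prod_mul_distrib, prod_const, prod_pow_eq_pow_sum, prod_pow_eq_pow_sum,
    ← mul_sum, sum_rows fun x hx => (h x hx).1, Int.card_Ico, sub_zero, Int.toNat_natCast,
    ← pow_mul, mul_comm b] at e
  refine (mul_le_mul_right e _).trans (le_of_eq ?_)
  rw [← mul_assoc, mul_comm (κ ^ _), hi, one_mul]

theorem box (hO : OpSt) (hL : LetSt) (hP : PhiSt) (hA : NotchA) (hB : NotchB) (H : Hw c w ws η)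
    (h0 : κ ≠ 0) (hκ : κ ≤ zr c w 1 1) (n r : ℕ) {T : Finset P}
    (h : ∀ x ∈ T, (0 ≤ x.1 ∧ x.1 < n ∧ x.1 ≤ r) ∧ 0 ≤ x.2 ∧ x.2 ≤ n ∧ x.2 ≤ r) :
    κ ^ (2 * T.card + 51 * (r + 1)) * zz c w ws n n (rows T) ≤ η ^ T.card * zr c w n n := by
  obtain ⟨φ, h1, h2, hz⟩ := hP c κ w H.base hκ
  by_cases hn : n < r + 2
  · have e := word hO hL H h0 h1 h2 (fun a b => (hz a b).2) n n (T := T)
      fun x hx => by have := h x hx; omega
    calc _ = κ ^ (51 * (r + 1)) * (κ ^ (2 * T.card) * zz c w ws n n (rows T)) := by ring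
      _ ≤ φ ^ (2 * n + 1) * (φ ^ (n * n) * η ^ T.card) :=
          mul_le_mul' (pow_le_of h1 h2 (by omega)) e
      _ = η ^ T.card * φ ^ ((n + 1) * (n + 1)) := by ring
      _ ≤ _ := by gcongr; exact (hz n n).1
  have e := word hO hL H h0 h1 h2 (fun a b => (hz a b).2) (r + 1) (r + 1) (T := T)
    fun x hx => by have := h x hx; omega
  have e1 := notch hA hB H.base h1 h2 hz n n (r + 1) (by omega) (by omega)
  have eu : Rc n n = Rc (r + 1) (r + 1) ∪ Yc n (r + 1 + 1) := by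
    ext x; rw [mem_union, mem_Rc, mem_Rc, mem_Yc]; omega
  have a1 : ((0, (r:ℤ) + 1) : P) ∈ Rc (r + 1) (r + 1) := by rw [mem_Rc]; simp only; omega
  have b1 : ((0, (r:ℤ) + 2) : P) ∈ Yc n (r + 1 + 1) := by rw [mem_Yc]; simp only; omega
  have e2 := Z_cut (c := c) (v := ((0:ℤ), (0:ℤ))) (H.le1W (rows T))
    (disjoint_left.2 fun x h1 h2 => by rw [mem_Rc] at h1; rw [mem_Yc] at h2; omega) a1 b1
    (H.lnk _ (Or.inr ⟨rfl, Or.inl (by simp only; omega)⟩)) (by rw [mem_union, mem_Rc]; simp only; omega)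
  rw [← eu, one_mul, Z_pin a1 (v' := (0, 0)) (by rw [mem_Rc]; simp only; omega),
    Z_pin b1 (v' := ((n:ℤ), (n:ℤ))) (by rw [mem_Yc]; simp only; omega)] at e2
  have e3 : Z c (gW w ws (rows T)) (Yc n (r + 1 + 1)) (n, n) ≤
      Z c (gL w) (Yc n (r + 1 + 1)) (n, n) := Z_mono fun x _ x' _ k => by
    rw [gL, sy_gW H, sy_gW H.base]
    split_ifs <;> first | exact H.sle k | exact le_rfl
  set Y := Z c (gL w) (Yc n (r + 1 + 1)) (n, n)
  have e4 : zz c w ws n n (rows T) ≤ zz c w ws (r + 1) (r + 1) (rows T) * Y :=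
    e2.trans (mul_le_mul_right e3 _)
  have hk1 : κ ≤ 1 := h1.trans h2
  calc _ ≤ κ ^ (2 * T.card + (8 * (r + 1 + 5) + (2 * r + 3))) *
        (zz c w ws (r + 1) (r + 1) (rows T) * Y) :=
        mul_le_mul' (pow_le_pow_right_of_le_one' hk1 (by omega)) e4
    _ = κ ^ (8 * (r + 1 + 5)) * κ ^ (2 * r + 3) *
        (κ ^ (2 * T.card) * zz c w ws (r + 1) (r + 1) (rows T)) * Y := by ring
    _ ≤ κ ^ (8 * (r + 1 + 5)) * φ ^ (2 * r + 3) * (φ ^ ((r + 1) * (r + 1)) * η ^ T.card) * Y := by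
        gcongr
    _ = η ^ T.card * (κ ^ (8 * (r + 1 + 5)) * φ ^ ((r + 1 + 1) * (r + 1 + 1)) * Y) := by ring
    _ ≤ _ := by gcongr

end Pool.Agent.Lib.MP_9cc147_pr.AllU.B.Rec
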