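import Pool.Agent.Lib.MP_9cc147_pr.MStr

/-! All potentials: interfaces between the sections A, R, T, E, P, S, B (text: h23_allU.md). -/

open Finset MeasureTheory
open scoped ENNReal

namespace Pool.Agent.Lib.MP_9cc147_pr.AllU

/-! ### A. shifts that leave a measure invariant -/

section A
variable {ι κ : Type} [Fintype ι] [Fintype κ]

noncomputable def gam (y : ι → ℝ) : ℝ≥0∞ := ENNReal.ofReal (Real.exp (-(∑ i, y i ^ 2) / 2))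

def Inv (G : Set ((ι → ℝ) × ℝ)) (ν : Measure ((ι → ℝ) × ℝ)) : Prop :=
  ∀ g ∈ G, ν.map (fun p => p + g) = ν

/-- the mean of `cos (lam * t)` is at most `d` for every Gaussian weighted invariant measure -/
def Dom (lam : ℝ) (G : Set ((ι → ℝ) × ℝ)) (d : ℝ) : Prop :=
  ∀ ν : Measure ((ι → ℝ) × ℝ), SFinite ν → Inv G ν → ∫⁻ p, gam p.1 ∂ν ≠ ⊤ →
    ENNReal.ofReal (1 - d) * ∫⁻ p, gam p.1 ∂ν ≤
      ∫⁻ p, ENNReal.ofReal (1 - Real.cos (lam * p.2)) * gam p.1 ∂ν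

def oplus (G : Set ((ι → ℝ) × ℝ)) (H : Set ((κ → ℝ) × ℝ)) : Set ((ι ⊕ κ → ℝ) × ℝ) :=
  {p | (∃ g ∈ G, p = (Sum.elim g.1 (0 : κ → ℝ), g.2)) ∨
    ∃ h ∈ H, p = (Sum.elim (0 : ι → ℝ) h.1, h.2)}

/-- `Dom` with spectators -/
def Mul (lam : ℝ) (G : Set ((ι → ℝ) × ℝ)) (c : ℝ) : Prop :=
  ∀ (κ : Type) [Fintype κ] (H : Set ((κ → ℝ) × ℝ)) (d : ℝ), 0 ≤ d → Dom lam H d →
    Dom lam (oplus G H) (c * d)

end A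

def BasicStmt : Prop :=
  ∀ (lam : ℝ) (ι : Type) [Fintype ι] (G : Set ((ι → ℝ) × ℝ)),
    Mul lam G 1 ∧ (∀ c c', c ≤ c' → Mul lam G c → Mul lam G c') ∧
    (∀ c, Mul lam G c → Dom lam G c) ∧
    ∀ (G' : Set ((ι → ℝ) × ℝ)) (c : ℝ), G' ⊆ AddSubgroup.closure G → Mul lam G' c → Mul lam G c

def CmpStmt : Prop :=
  ∀ (lam c : ℝ) (ι ι' : Type) [Fintype ι] [Fintype ι'] (G : Set ((ι → ℝ) × ℝ))
    (G' : Set ((ι' → ℝ) × ℝ)) (X : Type) [AddCommGroup X] [Module ℝ X]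
    (T : X →ₗ[ℝ] ι → ℝ) (T' : X →ₗ[ℝ] ι' → ℝ),
    (∀ x, ∑ i, T x i ^ 2 ≤ ∑ i, T' x i ^ 2) →
    (∀ g ∈ G', ∃ x, g.1 = T' x ∧ (T x, g.2) ∈ AddSubgroup.closure G) →
    Mul lam G' c → Mul lam G c

def RemStmt : Prop :=
  ∀ (lam q p c1 c0 : ℝ) (ι : Type) [Fintype ι] (G G1 G0 : Set ((ι → ℝ) × ℝ)) (a : ι → ℝ),
    (a, (0 : ℝ)) ∈ AddSubgroup.closure G → ∑ i, a i ^ 2 ≤ q → 0 < q → q ≤ 1 →
    8 * Real.exp (-(10 / q)) ≤ p → p ≤ 1 →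
    (∀ g ∈ G1, ∃ s : ℝ, g - s • (a, (0 : ℝ)) ∈ AddSubgroup.closure G) →
    (∀ g ∈ G0, g ∈ AddSubgroup.closure G ∧ ∑ i, g.1 i * a i = 0) →
    Mul lam G1 c1 → Mul lam G0 c0 → Mul lam G ((1 - p) * c1 + p * c0)

def FinStmt : Prop :=
  ∀ (lam : ℝ) (ι : Type) [Fintype ι] (G : Set ((ι → ℝ) × ℝ)) (a : ι → ℝ),
    |lam| ≤ 1 → (a, (-1 : ℝ)) ∈ AddSubgroup.closure G → ∑ i, a i ^ 2 ≤ 1 →
    Mul lam G (1 - lam ^ 2 / 100)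

def SumStmt : Prop :=
  ∀ (lam : ℝ) (ι : Type) [Fintype ι] (G : Set ((ι → ℝ) × ℝ)) (J : Finset ℕ)
    (Gs : ℕ → Set ((ι → ℝ) × ℝ)) (sp : ℕ → Set ι) (c : ℕ → ℝ),
    (∀ j ∈ J, Gs j ⊆ G) → (∀ j ∈ J, ∀ g ∈ Gs j, ∀ i, i ∉ sp j → g.1 i = 0) →
    (∀ j ∈ J, ∀ j' ∈ J, j ≠ j' → Disjoint (sp j) (sp j')) →
    (∀ j ∈ J, 0 ≤ c j ∧ Mul lam (Gs j) (c j)) → Mul lam G (∏ j ∈ J, c j)

/-- few tangent lines carry a convex sequence on a window -/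
def TanStmt : Prop :=
  ∀ (φ : ℤ → ℝ), (∀ k, φ (k + 1) - φ k ≤ φ (k + 2) - φ (k + 1)) → ∀ N : ℕ,
    ∃ π ⊆ Icc (-(N : ℤ)) N,
      (∀ k ∈ Icc (-(N : ℤ)) N, ∃ c ∈ π, φ k - φ c - (φ (c + 1) - φ c) * ((k : ℝ) - c) ≤ 1) ∧
      ∀ k : ℤ, ∑ c ∈ π, Real.exp (-(φ k - φ c - (φ (c + 1) - φ c) * ((k : ℝ) - c))) ≤ 10

open Classical in
/-- multiply the coordinates in `W` by the square root of `r` -/
noncomputable def scl {ι : Type} (W : Set ι) (r : ℝ) (y : ι → ℝ) (i : ι) : ℝ :=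
  if i ∈ W then Real.sqrt r * y i else y i

def SpringStmt : Prop :=
  ∀ (lam b p c1 c0 : ℝ) (m : ℕ) (ι I : Type) [Fintype ι] [Fintype I] [Nonempty I]
    (G : Set ((ι → ℝ) × ℝ)) (W : Set ι) (u : I → ι → ℝ) (d : ι → ℝ) (Sp : I → I → ℝ),
    1 ≤ m → (∀ t i, i ∉ W → u t i = 0) → (∀ i, i ∉ W → d i = 0) →
    (∀ t, (u t + d, (0 : ℝ)) ∈ AddSubgroup.closure G) →
    (∀ t t', 0 ≤ Sp t t' ∧ ∑ i, u t i * u t' i ≤ Sp t t') →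
    ∑ t, ∑ t', Real.exp (3 * (m + 1) * Sp t t') < (Fintype.card I : ℝ) ^ 2 * Real.exp b →
    (27 / 28 : ℝ) ^ m ≤ p → p ≤ 1 →
    Mul lam (ι := Option ι)
      {g | (∃ g' ∈ G, g = (fun o => Option.elim o 0 (scl W 3 g'.1), g'.2)) ∨
        g = (fun o => Option.elim o (Real.sqrt b) (scl W 3 d), 0)} c1 →
    Mul lam {g | ∃ g' ∈ G, g = (scl W 3 g'.1, g'.2)} c0 →
    Mul lam G ((1 - p) * c1 + p * c0)

/-! ### R. models on the box -/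

variable {n : ℕ}

/-- shifts given by height functions in `Λ`, with pair weights `c` -/
def Gm (Λ : Set (Vx n → ℝ)) (c : Vx n → Vx n → ℝ) : Set ((Vx n × Vx n → ℝ) × ℝ) :=
  {g | ∃ f ∈ Λ, g = (fun e => Real.sqrt (c e.1 e.2) * (f e.1 - f e.2), f (vl n) - f (vz n))}

/-- quadratic form of the pair weights -/
def Qc (c : Vx n → Vx n → ℝ) (f : Vx n → ℝ) : ℝ := ∑ x, ∑ y, c x y * (f x - f y) ^ 2

/-- the pair meets a window -/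
def Tch {W : Type} (sp : W → Finset (Vx n)) (x y : Vx n) : Prop := ∃ w, x ∈ sp w ∨ y ∈ sp w

open Classical in
noncomputable def c9 {W : Type} (sp : W → Finset (Vx n)) (c : Vx n → Vx n → ℝ) (x y : Vx n) : ℝ :=
  if Tch sp x y then 9 * c x y else c x y

/-- data of one ring: profile `χ`, windows `W`, kink positions `I` -/
structure Ring (Λ : AddSubgroup (Vx n → ℝ)) (c : Vx n → Vx n → ℝ) (W I : Type) [Fintype W]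
    [Fintype I] (χ : Vx n → ℝ) (u : W → I → Vx n → ℝ) (t0 : I) (sp : W → Finset (Vx n))
    (bs : W → ℝ) (m : ℕ) (q : ℝ) : Prop where
  c0 : ∀ x y, 0 ≤ c x y
  m1 : 1 ≤ m
  supp : ∀ w t x, x ∉ sp w → u w t x = 0
  disj : ∀ w w', w ≠ w' → Disjoint (sp w) (sp w')
  cor : ∀ w, vz n ∉ sp w ∧ vl n ∉ sp w
  dif : ∀ w t, u w t - u w t0 ∈ Λ
  tot : χ + ∑ w, u w t0 ∈ Λ
  avg : ∀ w, ∑ t, ∑ t', Real.exp (9 * (m + 1) *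
      ∑ x, ∑ y, c x y * (|u w t x - u w t y| * |u w t' x - u w t' y|)) <
    (Fintype.card I : ℝ) ^ 2 * Real.exp (bs w)
  small : Qc (c9 sp c) χ + ∑ w, bs w ≤ q
  q0 : 0 < q
  q1 : q ≤ 1

def RingStmt : Prop :=
  ∀ (n : ℕ) (lam : ℝ) (Λ : AddSubgroup (Vx n → ℝ)) (c : Vx n → Vx n → ℝ) (W I : Type) [Fintype W]
    [Fintype I] (χ : Vx n → ℝ) (u : W → I → Vx n → ℝ) (t0 : I) (sp : W → Finset (Vx n))
    (bs : W → ℝ) (m : ℕ) (q p : ℝ), Ring Λ c W I χ u t0 sp bs m q → p ≤ 1 →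
    (|lam| ≤ 1 → χ (vl n) - χ (vz n) = -1 → Fintype.card W * (27 / 28 : ℝ) ^ m ≤ p →
      Mul lam (Gm Λ c) ((1 - p) * (1 - lam ^ 2 / 100) + p)) ∧
    ∀ (Λ1 Λ0 : Set (Vx n → ℝ)) (c' : Vx n → Vx n → ℝ) (pt : W → Vx n) (z : Vx n) (d1 d0 : ℝ),
      χ (vz n) = 0 → χ (vl n) = 0 → (∀ x y, 0 ≤ c' x y) →
      Fintype.card W * (27 / 28 : ℝ) ^ m + 8 * Real.exp (-(10 / q)) ≤ p →
      (∀ f ∈ Λ1, f * (1 - (χ + ∑ w, u w t0)) ∈ Λ ∧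
        ∀ w, (∃ k : ℤ, f (pt w) = k) ∧ ∀ x ∈ sp w, f x = f (pt w)) →
      (∀ f : Vx n → ℝ, (∀ w, ∀ x ∈ sp w, f x = f (pt w)) →
        Qc (c9 sp c) (fun x => f x + χ x * (f z - f x)) + ∑ w, bs w * (f z - f (pt w)) ^ 2 ≤
          Qc c' f) →
      (∀ f ∈ Λ0, f ∈ Λ ∧ ∀ x y, c x y ≠ 0 → χ x ≠ χ y ∨ Tch sp x y → f x = f y) →
      Mul lam (Gm Λ1 c') d1 → Mul lam (Gm Λ0 c) d0 → Mul lam (Gm Λ c) ((1 - p) * d1 + p * d0)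

/-- height functions that are a constant integer on every pin (ball of radius `ρ z > 0`) -/
def LamP (ρ : Vx n → ℕ) : Set (Vx n → ℝ) :=
  {f | ∀ z, 0 < ρ z → ∃ k : ℤ, ∀ x, ds z x ≤ ρ z → f x = k}

def LamI (ρ : Vx n → ℕ) : Set (Vx n → ℝ) := {f | f ∈ LamP ρ ∧ ∀ x, ∃ k : ℤ, f x = k}

/-- height functions that vary only in the annulus of scale `s` -/
def LamA (ρ : Vx n → ℕ) (s : ℕ) : Set (Vx n → ℝ) :=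
  {f | f ∈ LamP ρ ∧ (∃ k : ℤ, ∀ x, ds (vz n) x ≤ s → f x = k) ∧ ∀ x, 4 * s ≤ ds (vz n) x → f x = 0}

structure Base (ρ : Vx n → ℕ) (c : Vx n → Vx n → ℝ) (β : ℝ) : Prop where
  c0 : ∀ x y, 0 ≤ c x y
  mom : ∀ x, ∑ y, c x y * (ds x y : ℝ) ^ 2 ≤ β
  safe : ∀ x y, c x y ≠ 0 → ds x y ≤ 1 ∨
    (100 * ds x y ≤ ds (vz n) x ∧ ∀ z, 0 < ρ z → 100 * ds x y ≤ ds x z + ρ z)

/-- lattice weights -/
noncomputable def cL (β : ℝ) (x y : Vx n) : ℝ := if (x, y) ∈ Ed n then β else 0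

open Classical in
/-- weight of the set `s` under independent choices -/
noncomputable def pw {α : Type} [Fintype α] (p : α → ℝ) (s : Finset α) : ℝ :=
  ∏ a, if a ∈ s then p a else 1 - p a

/-! ### T. typical phase -/

def SiteStmt : Prop :=
  ∀ (n : ℕ) (lam β p : ℝ) (ρ : Vx n → ℕ) (d : Finset (Vx n) → ℝ), 0 < β → β ≤ 1 / 4 →
    0 < ρ (vz n) → 0 < ρ (vl n) → 8 * Real.exp (-(10 / (4 * β))) ≤ p → p ≤ 1 →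
    (∀ ξ, Mul lam (Gm (LamP fun z => max (ρ z) (if z ∈ ξ then 1 else 0)) (cL β)) (d ξ)) →
    Mul lam (Gm (LamI ρ) (cL β)) (∑ ξ, pw (fun _ => p) ξ * d ξ)

def ta : ℕ → ℕ
  | 0 => 4000
  | k + 1 => ta k + ta k / 4

def Ra (k : ℕ) : ℕ := 2 ^ ta k
def Jt (k : ℕ) : ℕ := 2 ^ (ta k + ta k / 8)
def It (k : ℕ) : ℕ := 1024 * Jt k

/-- the pins near `z` form a small isolated group -/
def TCond (ρ : Vx n → ℕ) (k : ℕ) (z : Vx n) : Prop :=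
  0 < ρ z ∧ It k < ds z (vz n) ∧ It k < ds z (vl n) ∧
    ∀ z', 0 < ρ z' → ds z z' ≤ It k + ρ z' → ds z z' + ρ z' ≤ Ra k

open Classical in
noncomputable def tstep (k : ℕ) (bad : Vx n → Prop) (ρ : Vx n → ℕ) (z : Vx n) : Vx n → ℕ :=
  if TCond ρ k z then
    (if bad z then Function.update ρ z (2 * Jt k) else fun z' => if ds z z' ≤ Ra k then 0 else ρ z')
  else ρ

/-- pins after the levels below `k`; `ξ` is the set of failures -/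
noncomputable def rhoT {K : ℕ} (ξ : Finset (Fin K × Vx n)) (ρ : Vx n → ℕ) : ℕ → Vx n → ℕ
  | 0 => ρ
  | k + 1 => (univ : Finset (Vx n)).toList.foldl
      (tstep k fun z => ∃ h : k < K, (⟨k, h⟩, z) ∈ ξ) (rhoT ξ ρ k)

def TStmt : Prop :=
  ∃ CT : ℝ, 1 ≤ CT ∧ ∀ (n K : ℕ) (lam β : ℝ) (ρ : Vx n → ℕ) (c : Vx n → Vx n → ℝ)
    (d : (Vx n → ℕ) → ℝ) (p : ℕ → ℝ), 0 < β → CT * β ≤ 1 → Base ρ c β →
    (∀ k, 8 * Real.exp (-(ta k / (CT * β))) ≤ p k ∧ p k ≤ 1) →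
    (∀ ρ' c', Base ρ' c' (CT * β) → Mul lam (Gm (LamP ρ') c') (d ρ')) →
    Mul lam (Gm (LamP ρ) c) (∑ ξ : Finset (Fin K × Vx n), pw (fun a => p a.1) ξ * d (rhoT ξ ρ K))

/-! ### E. exceptional phase -/

def EStmt : Prop :=
  ∃ (Γ : ℕ) (δ β : ℝ), 10 ≤ Γ ∧ 0 < δ ∧ 0 < β ∧ ∀ (n J : ℕ) (lam : ℝ) (ρ : Vx n → ℕ)
    (c : Vx n → Vx n → ℝ), 1 ≤ J → 4 * Γ ^ J ≤ n → |lam| ≤ 1 → Base ρ c β →
    Mul lam (Gm (LamA ρ (Γ ^ J)) c)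
      (1 - lam ^ 2 / 200 * (1 - (∑ z, ρ z : ℕ) / (δ * (Γ : ℝ) ^ J)))

/-- `ρ'` covers the pins of `ρ` that can meet the annulus, each pin of `ρ'` holds a pin of `ρ` -/
def Cov (ρ ρ' : Vx n → ℕ) (s : ℕ) : Prop :=
  (∀ z', 0 < ρ' z' → ∃ z, 0 < ρ z ∧ ds z' z + ρ z ≤ ρ' z') ∧
    ∀ z, 0 < ρ z → s < ds (vz n) z + ρ z → ds (vz n) z < 4 * s + ρ z →
      ∃ z', ds z' z + ρ z ≤ ρ' z'

noncomputable def Cont (ρ : Vx n → ℕ) (s : ℕ) : ℕ := sInf {a | ∃ ρ', Cov ρ ρ' s ∧ ∑ z, ρ' z = a}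

/-! ### P. probability -/

/-- connected set in which `X` is dense -/
def Dn (X Y : Finset (Vx n)) : Prop :=
  (∀ a ∈ Y, ∀ b ∈ Y, Mono.Cn Y a b) ∧ Y.card ≤ 10 ^ 17 * (Y ∩ X).card

/-- radius of the buffer of a flag -/
def fr (k : ℕ) : ℕ := 2 * Mono.tb k + 1

open Classical in
/-- initial pins -/
noncomputable def rho0 (X : Finset (Vx n)) (fl : Finset (Fin (n + 1) × Vx n)) (z : Vx n) : ℕ :=
  max (max ((univ.filter fun Y => z ∈ X ∧ z ∈ Y ∧ Dn X Y).sup fun Y => Y.card + 1)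
    ((univ.filter fun k => (k, z) ∈ fl).sup fun k : Fin (n + 1) => fr k))
    (if z = vz n ∨ z = vl n then 1 else 0)

open Classical in
/-- budget: sets near the corner are rare up to a factor exponential in the side -/
def Bud {Ω : Type} (ν : Ω → ℝ≥0∞) (X : Ω → Finset (Vx n)) (C η : ℝ) : Prop :=
  ∀ (r : ℕ) (E : Finset (Vx n)), (∀ x ∈ E, ds (vz n) x ≤ r) →
    ∑' ω, (if E ⊆ X ω then ν ω else 0) ≤ ENNReal.ofReal (C ^ (r + 1) * η ^ E.card) * ∑' ω, ν ω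

def PStmt : Prop :=
  ∀ C δ ε : ℝ, 1 ≤ C → 0 < δ → 0 < ε → ∃ (η : ℝ) (Y n0 : ℕ), 0 < η ∧ ∀ n, n0 ≤ n → ∃ K : ℕ,
    ∀ (Ω : Type) (ν : Ω → ℝ≥0∞) (X : Ω → Finset (Vx n)) (pF pT : ℕ → ℝ) (s : ℕ),
    Bud ν X C η → (∀ k, 0 ≤ pF k ∧ pF k ≤ (1 / 64) ^ (Y * Mono.aa k)) →
    (∀ k, 0 ≤ pT k ∧ pT k ≤ (1 / 2) ^ (Y * ta k)) → n ≤ s ^ 2 → 5 * s ≤ n →
    ∑' ω, ν ω * ENNReal.ofReal (∑ fl : Finset (Fin (n + 1) × Vx n), ∑ ξ : Finset (Fin K × Vx n),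
        pw (fun a => pF a.1) fl * pw (fun a => pT a.1) ξ *
          min 1 (Cont (rhoT ξ (rho0 (X ω) fl) K) s / (δ * s))) ≤
      ENNReal.ofReal ε * ∑' ω, ν ω

/-- counting of nested nets; used in P and in S -/
def NetStmt : Prop :=
  ∀ (n : ℕ) (L : Type) [Fintype L] [DecidableEq L] (lev : L → ℕ) (loc : L → Vx n) (π : L → ℝ≥0∞)
    (Ω : Type) (ν : Ω → ℝ≥0∞) (E : Ω → Finset L) (N : Ω → ℕ → Finset (Vx n))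
    (H q Rr : ℕ → ℕ) (la w : ℕ → ℝ≥0∞) (K τ : ℝ≥0∞) (top : ℕ),
    (∀ F : Finset L, ∑' ω, (if E ω = F then ν ω else 0) ≤ K * ∏ l ∈ F, π l) →
    (∀ ω, ∀ l ∈ E ω, lev l ≤ top → ∃ y ∈ N ω (lev l), ds y (loc l) ≤ H (lev l)) →
    (∀ ω i, i ≤ top → ∀ y ∈ N ω i, ∀ y' ∈ N ω i, y ≠ y' → 2 * (H i + q i) < ds y y') →
    (∀ ω i, i < top → ∀ a ∈ N ω i, ∃ y ∈ N ω (i + 1), ds y a ≤ Rr (i + 1)) →
    (∀ ω i, i ≤ top → ∀ y ∈ N ω i, (∃ l ∈ E ω, lev l = i ∧ ds y (loc l) ≤ H i) ∨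
      ∃ j, i = j + 1 ∧ ∃ a ∈ N ω j, ∃ b ∈ N ω j, a ≠ b ∧ ds y a ≤ q i ∧ ds y b ≤ q i) →
    (∀ i ≤ top, ∀ y : Vx n,
      ∑ l ∈ univ.filter (fun l => lev l = i ∧ ds y (loc l) ≤ H i), π l ≤ la i) →
    (∀ i ≤ top, la i ≤ 1 ∧ q i ≤ Rr i) → 1 ≤ τ → 3 * τ * la 0 ≤ w 0 →
    (∀ i < top, (2 * Rr (i + 1) + 1 : ℝ≥0∞) ^ 2 * w i ≤ 1 ∧
      9 * τ * (la (i + 1) + ((2 * Rr (i + 1) + 1 : ℝ≥0∞) ^ 2 * w i) ^ 2) ≤ w (i + 1)) →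
    ∀ (F : Finset L) (A : Finset (Vx n)), (∀ l ∈ F, top < lev l) →
      ∑' ω, (if (E ω).filter (fun l => top < lev l) = F ∧ N ω top = A then
          ν ω * τ ^ (∑ i ∈ range (top + 1), (N ω i).card) else 0) ≤
        K * (∏ l ∈ F, π l) * w top ^ A.card

/-! ### S. mass transfer, B. budget -/

open Classical in
/-- pinned Gibbs weight -/
noncomputable def gw (w : ℤ → ℝ) (m : Vx n → ℤ) : ℝ≥0∞ :=
  if m (vz n) = 0 then ENNReal.ofReal (∏ e ∈ Ed n, w (m e.1 - m e.2)) else 0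

open Classical in
/-- vertices with a steep outgoing edge -/
noncomputable def Stp (N : ℕ) (m : Vx n → ℤ) : Finset (Vx n) :=
  univ.filter fun x => ∃ e ∈ Ed n, e.1 = x ∧ (N : ℤ) < |m e.1 - m e.2|

def BStmt : Prop :=
  ∀ C0 : ℝ, ∃ C : ℝ, 1 ≤ C ∧ ∀ (w : ℤ → ℝ) (N : ℕ) (η : ℝ), (∀ k, 0 < w k ∧ w k ≤ 1) →
    (∀ k, w (-k) = w k) → Summable w → 0 < η →
    (∀ T : Finset ℤ, (∀ k ∈ T, (N : ℤ) < |k|) → ∑ k ∈ T, w k ≤ η * ∑' k, w k) →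
    (∃ T : Finset ℤ, Real.exp (-C0) * (∑' k, w k) ^ 3 ≤
      ∑ a ∈ T, ∑ b ∈ T, ∑ c ∈ T, w a * w b * w c * w (a + b + c)) →
    ∀ n : ℕ, Bud (gw (n := n) w) (Stp N) C (C * Real.sqrt η)

structure HypS (w w0 : ℤ → ℝ) (N Y : ℕ) (β e ε w1 S : ℝ) : Prop where
  w_pos : ∀ k, 0 < w k ∧ w k ≤ 1
  mix : ∃ (T : Finset ℤ) (a : ℤ → ℝ), (∀ c, 0 ≤ a c) ∧
    ∀ k : ℤ, w0 k = ∑ c ∈ T, a c * Real.exp (-(β * ((k : ℝ) - c) ^ 2) / 2)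
  w0_pos : ∀ k, 0 < w0 k
  w0_lt : ∀ k : ℤ, |k| ≤ 4 * N → w0 k < w k
  w0_ge : ∀ k : ℤ, |k| ≤ N → (1 - ε) * w k ≤ w0 k
  tail : ∀ k : ℤ, 4 * (N : ℤ) < |k| → w0 k ≤ Real.exp (-(β * (k : ℝ) ^ 2) / 8)
  low : ∀ k : ℤ, |k| ≤ 10 ^ 6 * N → w1 ≤ w k
  w1_pos : 0 < w1
  sum : ∀ T : Finset ℤ, ∑ k ∈ T, (w k + Real.exp (-|(k : ℝ)|)) ≤ S
  b0 : 0 < β
  e0 : 0 < e
  e1 : e ≤ 1 / 2
  eps0 : 0 ≤ ε
  Y1 : 1 ≤ Y
  bN : 16 ≤ β * N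
  bNN : 40000 * ((Y : ℝ) + 20) ≤ β * N ^ 2
  cost : (2 * S / w1) ^ 4 ≤ e * Real.exp (β * N ^ 2 / 1800)

def SStmt : Prop :=
  ∀ (w w0 : ℤ → ℝ) (N Y : ℕ) (β e ε w1 S : ℝ), HypS w w0 N Y β e ε w1 S → ∀ n : ℕ,
    ∃ (Ω : Type) (ν : Ω → ℝ≥0∞) (X : Ω → Finset (Vx n)),
      ∑' ω, ν ω = ∑' m, gw (n := n) w m ∧
      (∀ C η : ℝ, 0 ≤ C → 0 ≤ η → Bud (gw (n := n) w) (Stp N) C η → Bud ν X C (η + e + 2 * ε)) ∧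
      ∀ (lam : ℝ) (d : Finset (Vx n) → Finset (Fin (n + 1) × Vx n) → ℝ),
        (∀ A fl, Dom lam (Gm (LamI (rho0 A fl)) (cL β)) (d A fl)) →
        ∑' ω, ν ω * ENNReal.ofReal (∑ fl : Finset (Fin (n + 1) × Vx n),
            pw (fun a => (1 / 64 : ℝ) ^ (Y * Mono.aa a.1)) fl * max 0 (1 - d (X ω) fl)) ≤
          ∑' m, gw w m * ENNReal.ofReal (1 - Real.cos (lam * (m (vl n) : ℝ))) +
            ENNReal.ofReal (4 * e) * ∑' m, gw (n := n) w m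

end Pool.Agent.Lib.MP_9cc147_pr.AllU
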