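import Pool.Agent.Lib.MP_9cc147_pr.U.BRec
import Pool.Agent.Lib.MP_9cc147_pr.U.Defs

/-! Section B (budget): transfer from the plane to the box. -/

set_option autoImplicit false

open Finset
open scoped ENNReal

namespace Pool.Agent.Lib.MP_9cc147_pr.AllU.B.Tr

variable {n : ℕ}

def emb (x : Vx n) : P := ((x.1.val : ℤ), (x.2.val : ℤ))

lemma emb_inj : Function.Injective (emb (n := n)) := fun x y h => by
  simp only [emb, Prod.mk.injEq, Nat.cast_inj] at h
  exact Prod.ext (Fin.ext h.1) (Fin.ext h.2)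

lemma image_emb : (univ : Finset (Vx n)).image emb = Rc n n := by
  ext x
  rw [mem_Rc, mem_image]
  constructor
  · rintro ⟨y, -, rfl⟩
    have := y.1.2; have := y.2.2
    simp only [emb]; omega
  · intro h
    refine ⟨(⟨x.1.toNat, by omega⟩, ⟨x.2.toNat, by omega⟩), mem_univ _, ?_⟩
    simp only [emb]
    ext <;> simp only <;> omega

lemma Z_box (c : ℝ≥0∞) (g : Wt) : Z c g (Rc n n) (0, 0) = c ^ ((Rc n n).card - 1) *
    ∑' m : Vx n → ℤ, if m (vz n) = 0 then ∏ x, ∏ x', g (emb x) (emb x') (m x - m x') else 0 := by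
  classical
  rw [Z, mg_erase (by rw [mem_Rc]; simp)]
  congr 1
  have inj : Function.Injective fun m : Vx n → ℤ => Function.extend emb m (0 : P → ℤ) :=
    fun m m' h => funext fun x => by
      have := congrFun h (emb x)
      simpa only [emb_inj.extend_apply] using this
  rw [← inj.tsum_eq]
  · refine tsum_congr fun m => if_congr ⟨fun h => ?_, fun h => ⟨fun x hx => ?_, ?_⟩⟩ ?_ rfl
    · have := h.2
      rwa [show ((0, 0) : P) = emb (vz n) from rfl, emb_inj.extend_apply] at this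
    · refine Function.extend_apply' _ _ _ fun ⟨y, hy⟩ => hx ?_
      rw [← image_emb]; exact mem_image.2 ⟨y, mem_univ _, hy⟩
    · rw [show ((0, 0) : P) = emb (vz n) from rfl, emb_inj.extend_apply]; exact h
    · rw [F, ← image_emb, prod_image emb_inj.injOn]
      refine prod_congr rfl fun x _ => ?_
      rw [prod_image emb_inj.injOn]
      simp only [emb_inj.extend_apply]
  · intro y hy
    rw [Function.mem_support] at hy
    have h1 : ∀ x, x ∉ Rc n n → y x = (0 : P → ℤ) x := by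
      by_contra hh
      exact hy (if_neg fun h => hh h.1)
    refine ⟨y ∘ emb, funext fun x => ?_⟩
    by_cases hx : ∃ z : Vx n, emb z = x
    · obtain ⟨z, rfl⟩ := hx
      exact emb_inj.extend_apply _ _ _
    · refine (Function.extend_apply' _ _ _ hx).trans (h1 x fun h => hx ?_).symm
      rw [← image_emb] at h
      obtain ⟨z, -, hz⟩ := mem_image.1 h
      exact ⟨z, hz⟩

/-- the edge to the right of `x` is steep -/
def hs (N : ℕ) (m : Vx n → ℤ) (x : Vx n) : Prop :=
  ∃ x' : Vx n, x'.1.val = x.1.val + 1 ∧ x'.2.val = x.2.val ∧ (N : ℤ) < |m x - m x'|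

noncomputable def wE (w : ℤ → ℝ) (k : ℤ) : ℝ≥0∞ := ENNReal.ofReal (w k)
noncomputable def wS (w : ℤ → ℝ) (N : ℕ) (k : ℤ) : ℝ≥0∞ := if (N : ℤ) < |k| then wE w k else 0

lemma prod_Ed {w : ℤ → ℝ} (hw : ∀ k, 0 ≤ w k) (m : Vx n → ℤ) :
    ENNReal.ofReal (∏ e ∈ Ed n, w (m e.1 - m e.2)) =
      ∏ x, ∏ x', gL (wE w) (emb x) (emb x') (m x - m x') := by
  rw [ENNReal.ofReal_prod_of_nonneg fun _ _ => hw _, ← prod_product', univ_product_univ, Ed,
    prod_filter]
  refine prod_congr rfl fun e _ => ?_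
  simp only [gL, gW, emb, Prod.mk.injEq, notMem_empty, if_false, wE]
  split_ifs <;> first | rfl | omega

lemma prod_steep {w : ℤ → ℝ} {N : ℕ} {m : Vx n → ℤ} {T : Finset (Vx n)} (h : ∀ x ∈ T, hs N m x) :
    ∏ x, ∏ x', gL (wE w) (emb x) (emb x') (m x - m x') =
      ∏ x, ∏ x', gW (wE w) (wS w N) (Rec.rows (T.image emb)) (emb x) (emb x') (m x - m x') := by
  refine prod_congr rfl fun x _ => prod_congr rfl fun x' _ => ?_
  simp only [gL, gW, notMem_empty, if_false, Rec.mem_rows]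
  split_ifs with h1 h2 <;> try rfl
  obtain ⟨y, hy, e⟩ := mem_image.1 h2
  obtain ⟨z, z1, z2, z3⟩ := h x (emb_inj e ▸ hy)
  have : z = x' := by
    simp only [emb, Prod.mk.injEq] at h1
    exact Prod.ext (Fin.ext (by omega)) (Fin.ext (by omega))
  rw [wS, if_pos (this ▸ z3)]

open Classical in
/-- weight of the event that the edges to the right of `T` are steep -/
noncomputable def TT (w : ℤ → ℝ) (N : ℕ) (T : Finset (Vx n)) : ℝ≥0∞ :=
  ∑' m : Vx n → ℤ, if ∀ x ∈ T, hs N m x then gw w m else 0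

lemma zr_eq (c : ℝ≥0∞) {w : ℤ → ℝ} (hw : ∀ k, 0 ≤ w k) :
    zr c (wE w) n n = c ^ ((Rc n n).card - 1) * ∑' m, gw (n := n) w m := by
  rw [zr, Z_box]
  congr 1
  exact tsum_congr fun m => by rw [gw, prod_Ed hw]

lemma TT_le (c : ℝ≥0∞) {w : ℤ → ℝ} (hw : ∀ k, 0 ≤ w k) (N : ℕ) (T : Finset (Vx n)) :
    c ^ ((Rc n n).card - 1) * TT w N T ≤ zz c (wE w) (wS w N) n n (Rec.rows (T.image emb)) := by
  rw [zz, Z_box]
  refine mul_le_mul_right (ENNReal.tsum_le_tsum fun m => ?_) _
  by_cases h : ∀ x ∈ T, hs N m x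
  · rw [if_pos h, gw, prod_Ed hw, prod_steep h]
  · rw [if_neg h]; exact zero_le

lemma gw_swap (w : ℤ → ℝ) (m : Vx n → ℤ) : gw w (m ∘ Prod.swap) = gw w m := by
  unfold gw
  refine if_congr Iff.rfl ?_ rfl
  congr 1
  refine prod_nbij' (fun e => (e.1.swap, e.2.swap)) (fun e => (e.1.swap, e.2.swap))
    (fun e he => ?_) (fun e he => ?_) (fun e _ => rfl) (fun e _ => rfl) fun e _ => rfl <;>
  · rw [mem_Ed] at he ⊢
    simp only [Prod.fst_swap, Prod.snd_swap]
    omega

open Classical in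
lemma TT_swap (w : ℤ → ℝ) (N : ℕ) (T : Finset (Vx n)) :
    ∑' m : Vx n → ℤ, (if ∀ x ∈ T, hs N (m ∘ Prod.swap) x then gw w m else 0) = TT w N T := by
  have hinv : Function.Involutive fun m : Vx n → ℤ => m ∘ Prod.swap := fun m => rfl
  rw [TT, ← hinv.toPerm.tsum_eq]
  exact tsum_congr fun m => if_congr Iff.rfl (gw_swap w m) rfl

open Classical in
lemma event_le (w : ℤ → ℝ) (N : ℕ) (E : Finset (Vx n)) {b : ℝ≥0∞}
    (h : ∀ T : Finset (Vx n), (T ⊆ E ∨ T ⊆ E.image Prod.swap) → E.card ≤ 2 * T.card →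
      TT w N T ≤ b) :
    ∑' m, (if E ⊆ Stp N m then gw w m else 0) ≤ 2 ^ E.card * b := by
  calc _ ≤ ∑' m, ∑ T ∈ E.powerset, (if (∀ x ∈ T, hs N m x) ∧
        ∀ x ∈ (E \ T).image Prod.swap, hs N (m ∘ Prod.swap) x then gw w m else 0) := by
        refine ENNReal.tsum_le_tsum fun m => ?_
        split_ifs with hm
        swap
        · exact zero_le
        refine le_trans (le_of_eq (if_pos ⟨fun x hx => (mem_filter.1 hx).2, fun x hx => ?_⟩).symm)
          (single_le_sum (f := fun T => if (∀ x ∈ T, hs N m x) ∧ ∀ x ∈ (E \ T).image Prod.swap,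
            hs N (m ∘ Prod.swap) x then gw w m else 0) (fun _ _ => zero_le)
            (mem_powerset.2 (filter_subset (hs N m) E)))
        obtain ⟨y, hy, rfl⟩ := mem_image.1 hx
        rw [mem_sdiff, mem_filter] at hy
        obtain ⟨e, he, rfl, h3⟩ := (mem_filter.1 (hm hy.1)).2
        rcases mem_Ed.1 he with h4 | h4
        · exact absurd ⟨hy.1, e.2, h4.1, h4.2, h3⟩ hy.2
        · exact ⟨e.2.swap, h4.2, h4.1, h3⟩
    _ = ∑ T ∈ E.powerset, ∑' m, (if (∀ x ∈ T, hs N m x) ∧
        ∀ x ∈ (E \ T).image Prod.swap, hs N (m ∘ Prod.swap) x then gw w m else 0) :=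
        Summable.tsum_finsetSum fun _ _ => ENNReal.summable
    _ ≤ ∑ T ∈ E.powerset, b := by
        refine sum_le_sum fun T hT => ?_
        rw [mem_powerset] at hT
        by_cases hc : E.card ≤ 2 * T.card
        · refine le_trans (ENNReal.tsum_le_tsum fun m => ?_) (h T (Or.inl hT) hc)
          split_ifs with h1 h2
          exacts [le_rfl, absurd h1.1 h2, zero_le, le_rfl]
        · refine le_trans ?_ (h ((E \ T).image Prod.swap)
            (Or.inr (image_subset_image sdiff_subset)) ?_)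
          · rw [← TT_swap]
            refine ENNReal.tsum_le_tsum fun m => ?_
            split_ifs with h1 h2
            exacts [le_rfl, absurd h1.2 h2, zero_le, le_rfl]
          · rw [card_image_of_injective _ Prod.swap_injective, card_sdiff_of_subset hT]
            omega
    _ = _ := by rw [sum_const, card_powerset, nsmul_eq_mul]; simp

lemma zr_one (c : ℝ≥0∞) {w : ℤ → ℝ} (hw : ∀ k, 0 ≤ w k) (he : ∀ k, w (-k) = w k) (T : Finset ℤ) :
    c ^ 3 * ENNReal.ofReal (∑ a ∈ T, ∑ b ∈ T, ∑ d ∈ T, w a * w b * w d * w (a + b + d)) ≤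
      zr c (wE w) 1 1 := by
  rw [zr_eq c hw, show (Rc 1 1).card - 1 = 3 by
    rw [← image_emb, card_image_of_injective _ emb_inj]; rfl]
  refine mul_le_mul_right ?_ _
  let f : ℤ × ℤ × ℤ → Vx 1 → ℤ := fun p x =>
    if x = (0, 0) then 0 else if x = (1, 0) then p.1 else if x = (1, 1) then p.1 + p.2.1
    else p.1 + p.2.1 + p.2.2
  have inj : Function.Injective f := fun p q h => by
    have h1 := congrFun h (1, 0)
    have h2 := congrFun h (1, 1)
    have h3 := congrFun h (0, 1)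
    simp [f] at h1 h2 h3
    ext <;> omega
  have hE : Ed 1 = {((0, 0), (1, 0)), ((1, 0), (1, 1)), ((0, 1), (1, 1)), ((0, 0), (0, 1))} := by
    decide
  refine le_trans ?_ (ENNReal.tsum_comp_le_tsum_of_injective inj _)
  refine le_trans (le_of_eq ?_) (ENNReal.sum_le_tsum (T ×ˢ T ×ˢ T))
  have e : ∀ p, gw w (f p) =
      ENNReal.ofReal (w p.1 * w p.2.1 * w p.2.2 * w (p.1 + p.2.1 + p.2.2)) := fun p => by
    rw [gw, if_pos (by simp [f, vz]), hE, prod_insert (by decide), prod_insert (by decide),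
      prod_pair (by decide)]
    have e1 : f p (0, 0) - f p (1, 0) = -p.1 := by simp [f]
    have e2 : f p (1, 0) - f p (1, 1) = -p.2.1 := by simp [f]
    have e3 : f p (0, 1) - f p (1, 1) = p.2.2 := by simp [f]
    have e4 : f p (0, 0) - f p (0, 1) = -(p.1 + p.2.1 + p.2.2) := by simp [f]
    simp only [e1, e2, e3, e4, he, mul_assoc]
  simp only [e]
  rw [← ENNReal.ofReal_sum_of_nonneg fun p _ =>
    mul_nonneg (mul_nonneg (mul_nonneg (hw _) (hw _)) (hw _)) (hw _)]
  simp only [sum_product]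

theorem budget_of (hO : OpSt) (hL : LetSt) (hP : PhiSt) (hA : NotchA) (hB : NotchB) : BStmt := by
  classical
  intro C0
  set κ : ℝ := Real.exp (-|C0|) with hκ
  have k0 : 0 < κ := Real.exp_pos _
  have k1 : κ ≤ 1 := Real.exp_le_one_iff.2 (neg_nonpos.2 (abs_nonneg _))
  have ki : 1 ≤ κ⁻¹ := one_le_inv₀ k0 |>.2 k1
  have hC : 1 ≤ 2 * κ⁻¹ ^ 51 := by linarith [one_le_pow₀ (n := 51) ki]
  refine ⟨2 * κ⁻¹ ^ 51, hC, fun w N η hw he hs hη ht h3 n r E hE => ?_⟩
  have w0 : ∀ k, 0 ≤ w k := fun k => (hw k).1.le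
  have hC2 : 2 * κ⁻¹ ≤ 2 * κ⁻¹ ^ 51 := by linarith [le_self_pow₀ ki (by norm_num : 51 ≠ 0)]
  set t : ℝ := κ⁻¹ * √η with htd
  have t0 : 0 ≤ t := by positivity
  have hCt : 2 * t ≤ 2 * κ⁻¹ ^ 51 * √η := by rw [htd, ← mul_assoc]; gcongr
  by_cases h1 : 1 ≤ t
  · refine le_trans (ENNReal.tsum_le_tsum fun m => ?_) (le_mul_of_one_le_left' ?_)
    · split_ifs
      exacts [le_rfl, zero_le]
    · exact ENNReal.one_le_ofReal.2 (one_le_mul_of_one_le_of_one_le (one_le_pow₀ hC)
        (one_le_pow₀ (by linarith)))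
  set S : ℝ := ∑' k, w k with hS
  have S0 : 0 < S := hs.tsum_pos w0 0 (hw 0).1
  set c : ℝ≥0∞ := (ENNReal.ofReal S)⁻¹ with hc
  have s0 : ENNReal.ofReal S ≠ 0 := by simpa using S0
  have hcS : c * ENNReal.ofReal S = 1 := ENNReal.inv_mul_cancel s0 ENNReal.ofReal_ne_top
  have H : Hw c (wE w) (wS w N) (ENNReal.ofReal η) := by
    refine ⟨fun k => ENNReal.ofReal_le_one.2 (hw k).2, fun k => by rw [wE, wE, he], ?_,
      fun k => ?_, fun k => by rw [wS, wS, abs_neg, wE, wE, he], ?_⟩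
    · unfold wE
      rw [← ENNReal.ofReal_tsum_of_nonneg w0 hs, hcS]
    · unfold wS; split_ifs
      exacts [le_rfl, zero_le]
    · have : ∑' k, wS w N k ≤ ENNReal.ofReal η * ENNReal.ofReal S := by
        rw [ENNReal.tsum_eq_iSup_sum]
        refine iSup_le fun T => ?_
        unfold wS wE
        rw [← sum_filter, ← ENNReal.ofReal_sum_of_nonneg fun k _ => w0 k,
          ← ENNReal.ofReal_mul hη.le]
        exact ENNReal.ofReal_le_ofReal (ht _ fun k hk => (mem_filter.1 hk).2)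
      refine (mul_le_mul_right this _).trans (le_of_eq ?_)
      rw [mul_left_comm, hcS, mul_one]
  have hz : ENNReal.ofReal κ ≤ zr c (wE w) 1 1 := by
    obtain ⟨T, hT⟩ := h3
    refine le_trans ?_ (zr_one c w0 he T)
    calc ENNReal.ofReal κ = c ^ 3 * ENNReal.ofReal (κ * S ^ 3) := by
          rw [ENNReal.ofReal_mul k0.le, ENNReal.ofReal_pow S0.le, mul_left_comm, ← mul_pow, hcS,
            one_pow, mul_one]
      _ ≤ _ := by
          refine mul_le_mul_right (ENNReal.ofReal_le_ofReal (le_trans ?_ hT)) _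
          have : κ ≤ Real.exp (-C0) := Real.exp_le_exp.2 (neg_le_neg (le_abs_self _))
          gcongr
  have c0 : c ^ ((Rc n n).card - 1) ≠ 0 := pow_ne_zero _ (ENNReal.inv_ne_zero.2 ENNReal.ofReal_ne_top)
  have ct : c ^ ((Rc n n).card - 1) ≠ ∞ := ENNReal.pow_ne_top (ENNReal.inv_ne_top.2 s0)
  refine (event_le w N E (b := ENNReal.ofReal (κ⁻¹ ^ (51 * (r + 1)) * t ^ E.card) *
    ∑' m, gw (n := n) w m) fun T hT hcard => ?_).trans ?_
  · by_cases hx : ∀ x ∈ T, x.1.val < n
    swap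
    · refine le_trans (le_of_eq ?_) zero_le
      refine ENNReal.tsum_eq_zero.2 fun m => if_neg fun h => hx fun x hx => ?_
      obtain ⟨x', h1, -⟩ := h x hx
      have := x'.1.2
      omega
    have hr : ∀ x ∈ T, x.1.val ≤ r ∧ x.2.val ≤ r := fun x hx => by
      rcases hT with hT | hT
      · have := hE x (hT hx)
        simp only [ds, vz, Fin.val_zero] at this
        omega
      · obtain ⟨y, hy, rfl⟩ := mem_image.1 (hT hx)
        have := hE y hy
        simp only [ds, vz, Fin.val_zero] at this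
        simp only [Prod.fst_swap, Prod.snd_swap]
        omega
    have e := Rec.box hO hL hP hA hB H (by simpa using k0) hz n r (T := T.image emb) fun y hy => by
      obtain ⟨x, hxT, rfl⟩ := mem_image.1 hy
      have := hx x hxT; have := hr x hxT; have := x.2.2
      simp only [emb]; omega
    rw [card_image_of_injective _ emb_inj, zr_eq c w0] at e
    have e2 := (mul_le_mul_right (TT_le c w0 N T) _).trans e
    rw [mul_left_comm, mul_left_comm _ (c ^ _), ENNReal.mul_le_mul_iff_right c0 ct] at e2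
    calc TT w N T = ENNReal.ofReal (κ⁻¹ ^ (2 * T.card + 51 * (r + 1))) *
          (ENNReal.ofReal κ ^ (2 * T.card + 51 * (r + 1)) * TT w N T) := by
          rw [← mul_assoc, ← ENNReal.ofReal_pow k0.le, ← ENNReal.ofReal_mul (by positivity),
            ← mul_pow, inv_mul_cancel₀ k0.ne', one_pow, ENNReal.ofReal_one, one_mul]
      _ ≤ ENNReal.ofReal (κ⁻¹ ^ (2 * T.card + 51 * (r + 1))) *
          (ENNReal.ofReal η ^ T.card * ∑' m, gw (n := n) w m) := mul_le_mul_right e2 _
      _ ≤ _ := by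
          rw [← mul_assoc, ← ENNReal.ofReal_pow hη.le, ← ENNReal.ofReal_mul (by positivity)]
          refine mul_le_mul_left (ENNReal.ofReal_le_ofReal ?_) _
          have e3 : t ^ (2 * T.card) = κ⁻¹ ^ (2 * T.card) * η ^ T.card := by
            rw [htd, mul_pow, pow_mul √η, Real.sq_sqrt hη.le]
          calc _ = κ⁻¹ ^ (51 * (r + 1)) * t ^ (2 * T.card) := by rw [e3]; ring
            _ ≤ _ := mul_le_mul_of_nonneg_left
                (pow_le_pow_of_le_one t0 (not_le.1 h1).le hcard) (by positivity)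
  · rw [← mul_assoc]
    refine mul_le_mul_left ?_ _
    rw [show (2 : ℝ≥0∞) = ENNReal.ofReal 2 by simp, ← ENNReal.ofReal_pow zero_le_two,
      ← ENNReal.ofReal_mul (by positivity)]
    refine ENNReal.ofReal_le_ofReal ?_
    calc _ = (κ⁻¹ ^ 51) ^ (r + 1) * (2 * t) ^ E.card := by rw [← pow_mul, mul_pow]; ring
      _ ≤ _ := by
          gcongr
          linarith [pow_pos (inv_pos.2 k0) 51]

end Pool.Agent.Lib.MP_9cc147_pr.AllU.B.Tr
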