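import Pool.Agent.Lib.MP_9cc147_pr.U.Defs

/-! Exceptional phase: nets, counting by mass certificates, dyadic sums. -/

open Finset

namespace Pool.Agent.Lib.MP_9cc147_pr.AllU.E

variable {n : ℕ}

lemma net (S : Finset (Vx n)) (r : ℕ) : ∃ T ⊆ S,
    (∀ a ∈ T, ∀ b ∈ T, a ≠ b → r < ds a b) ∧ ∀ x ∈ S, ∃ t ∈ T, ds t x ≤ r := by
  induction S using Finset.induction_on with
  | empty => exact ⟨∅, Subset.rfl, by simp, by simp⟩
  | insert x S _ ih =>
    obtain ⟨T, h1, h2, h3⟩ := ih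
    by_cases c : ∃ t ∈ T, ds t x ≤ r
    · refine ⟨T, h1.trans (subset_insert _ _), h2, fun y hy => ?_⟩
      rcases mem_insert.1 hy with rfl | hy
      · exact c
      · exact h3 y hy
    · push Not at c
      refine ⟨insert x T, insert_subset_insert _ h1, fun a ha b hb hab => ?_, fun y hy => ?_⟩
      · rcases mem_insert.1 ha with rfl | ha' <;> rcases mem_insert.1 hb with rfl | hb'
        · exact absurd rfl hab
        · rw [ds_comm]; exact c b hb'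
        · exact c a ha'
        · exact h2 a ha' b hb' hab
      · rcases mem_insert.1 hy with rfl | hy
        · exact ⟨y, mem_insert_self _ _, by simp⟩
        · obtain ⟨t, ht, hd⟩ := h3 y hy
          exact ⟨t, mem_insert_of_mem ht, hd⟩

lemma ball_card (y : Vx n) (t : ℕ) :
    (univ.filter fun x => ds y x ≤ t).card ≤ (2 * t + 1) ^ 2 :=
  packing _ y t one_pos (fun _ hx => by simpa using hx) fun _ _ _ _ h => ds_pos h

lemma near_card {N K : Finset (Vx n)} {r : ℕ} (h : ∀ x ∈ K, ∃ a ∈ N, ds a x ≤ r) :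
    K.card ≤ N.card * (2 * r + 1) ^ 2 := by
  have h1 : K ⊆ N.biUnion fun a => univ.filter fun x => ds a x ≤ r := fun x hx => by
    obtain ⟨a, ha, hd⟩ := h x hx
    exact mem_biUnion.2 ⟨a, ha, by simpa using hd⟩
  exact (card_le_card h1).trans (card_biUnion_le_card_mul _ _ _ fun a _ => ball_card a r)

lemma net_card {N A A2 : Finset (Vx n)} {D : ℕ} {μ : Vx n → ℝ} {m : ℝ} (hμ : ∀ x, 0 ≤ μ x)
    (hN : ∀ a ∈ N, ∀ b ∈ N, a ≠ b → 2 * D < ds a b)
    (hc : ∀ a ∈ N, m ≤ ∑ x ∈ A with ds a x ≤ D, μ x)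
    (hA : ∀ a ∈ N, ∀ x ∈ A, ds a x ≤ D → x ∈ A2) : N.card * m ≤ ∑ x ∈ A2, μ x := by
  have h1 : (N : Set (Vx n)).PairwiseDisjoint fun a => A.filter fun x => ds a x ≤ D := by
    intro a ha b hb hab
    refine disjoint_left.2 fun x hx hx' => ?_
    have := hN a ha b hb hab
    have h2 := ds_tri a x b
    have h3 := (mem_filter.1 hx).2
    have h4 := (mem_filter.1 hx').2
    rw [ds_comm x b] at h2
    omega
  calc (N.card : ℝ) * m = ∑ _a ∈ N, m := by simp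
    _ ≤ ∑ a ∈ N, ∑ x ∈ A with ds a x ≤ D, μ x := sum_le_sum hc
    _ = ∑ x ∈ N.biUnion fun a => A.filter fun x => ds a x ≤ D, μ x := (sum_biUnion h1).symm
    _ ≤ _ := by
      refine sum_le_sum_of_subset_of_nonneg (fun x hx => ?_) fun x _ _ => hμ x
      obtain ⟨a, ha, hx⟩ := mem_biUnion.1 hx
      exact hA a ha x (mem_filter.1 hx).1 (mem_filter.1 hx).2

/-- points close to a point with a mass certificate are few -/
lemma count {K A A2 : Finset (Vx n)} {D r : ℕ} {μ : Vx n → ℝ} {m : ℝ} (hμ : ∀ x, 0 ≤ μ x)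
    (hm : 0 ≤ m) (h : ∀ x ∈ K, ∃ p, ds p x ≤ r ∧ (m ≤ ∑ y ∈ A with ds p y ≤ D, μ y) ∧
      ∀ y ∈ A, ds p y ≤ D → y ∈ A2) :
    K.card * m ≤ (∑ y ∈ A2, μ y) * (2 * (2 * D + r) + 1 : ℝ) ^ 2 := by
  classical
  obtain ⟨N, h1, h2, h3⟩ := net (univ.filter fun p : Vx n =>
    (m ≤ ∑ y ∈ A with ds p y ≤ D, μ y) ∧ ∀ y ∈ A, ds p y ≤ D → y ∈ A2) (2 * D)
  have h4 := net_card hμ h2 (fun a ha => (mem_filter.1 (h1 ha)).2.1)
    fun a ha => (mem_filter.1 (h1 ha)).2.2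
  have h5 : K.card ≤ N.card * (2 * (2 * D + r) + 1) ^ 2 := near_card fun x hx => by
    obtain ⟨p, hp, hq⟩ := h x hx
    obtain ⟨a, ha, hd⟩ := h3 p (mem_filter.2 ⟨mem_univ _, hq⟩)
    exact ⟨a, ha, (ds_tri a p x).trans (Nat.add_le_add hd hp)⟩
  have h6 : (K.card : ℝ) ≤ N.card * (2 * (2 * D + r) + 1 : ℝ) ^ 2 := by exact_mod_cast h5
  calc (K.card : ℝ) * m ≤ N.card * (2 * (2 * D + r) + 1 : ℝ) ^ 2 * m :=
        mul_le_mul_of_nonneg_right h6 hm
    _ = N.card * m * (2 * (2 * D + r) + 1 : ℝ) ^ 2 := by ring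
    _ ≤ _ := mul_le_mul_of_nonneg_right h4 (sq_nonneg _)

section dyadic

variable {α : Type} {K K2 : Finset α} {wd : α → ℝ} {Cb L d : ℝ} {k : ℕ}

/-- the dyadic layers of `wd` on `K` have at most `Cb 4^b` points -/
def Dy (K : Finset α) (wd : α → ℝ) (Cb : ℝ) : Prop :=
  ∀ b : ℕ, ((K.filter fun x => 2 ^ b ≤ wd x ∧ wd x < 2 ^ (b + 1)).card : ℝ) ≤ Cb * 4 ^ b

lemma Dy.nonneg (h : Dy K wd Cb) : 0 ≤ Cb := by
  have := (Nat.cast_nonneg _).trans (h 0)
  simpa using this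

lemma Dy.mono (h : Dy K wd Cb) (h' : K2 ⊆ K) : Dy K2 wd Cb := fun b =>
  le_trans (by exact_mod_cast card_le_card (filter_subset_filter _ h')) (h b)

lemma Dy.sum_le (h : Dy K wd Cb) (h1 : ∀ x ∈ K, 1 ≤ wd x) (f : α → ℝ) (g : ℕ → ℝ)
    (Bs : Finset ℕ) (hg : ∀ b, 0 ≤ g b)
    (hB : ∀ x ∈ K, ∀ b : ℕ, 2 ^ b ≤ wd x → wd x < 2 ^ (b + 1) → b ∈ Bs ∧ f x ≤ g b) :
    ∑ x ∈ K, f x ≤ ∑ b ∈ Bs, Cb * 4 ^ b * g b := by
  calc ∑ x ∈ K, f x ≤ ∑ x ∈ K, ∑ b ∈ Bs,
        if 2 ^ b ≤ wd x ∧ wd x < 2 ^ (b + 1) then g b else 0 := by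
        refine sum_le_sum fun x hx => ?_
        obtain ⟨b, hb⟩ := exists_nat_pow_near (h1 x hx) one_lt_two
        obtain ⟨h2, h3⟩ := hB x hx b hb.1 hb.2
        refine le_trans ?_ (single_le_sum (f := fun b : ℕ =>
          if 2 ^ b ≤ wd x ∧ wd x < 2 ^ (b + 1) then g b else 0) (fun b _ => ?_) h2)
        · simp only [if_pos hb]; exact h3
        · split_ifs
          · exact hg b
          · exact le_rfl
    _ = ∑ b ∈ Bs, ((K.filter fun x => 2 ^ b ≤ wd x ∧ wd x < 2 ^ (b + 1)).card : ℝ) * g b := by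
        rw [sum_comm]
        refine sum_congr rfl fun b _ => ?_
        rw [← sum_filter, sum_const, nsmul_eq_mul]
    _ ≤ _ := sum_le_sum fun b _ => mul_le_mul_of_nonneg_right (h b) (hg b)

lemma Dy.sum_inv (h : Dy K wd Cb) (h1 : ∀ x ∈ K, 1 ≤ wd x ∧ wd x < L) (hL : 0 ≤ L) :
    ∑ x ∈ K, 1 / wd x ≤ 2 * Cb * L := by
  have h0 := h.nonneg
  rcases K.eq_empty_or_nonempty with rfl | ⟨x0, hx0⟩
  · simp only [sum_empty]; positivity
  obtain ⟨m, hm1, hm2⟩ := exists_nat_pow_near ((h1 x0 hx0).1.trans (h1 x0 hx0).2.le) one_lt_two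
  refine (h.sum_le (fun x hx => (h1 x hx).1) _ (fun b => 1 / 2 ^ b) (range (m + 1))
    (fun b => by positivity) fun x hx b hb _ => ⟨?_, ?_⟩).trans ?_
  · exact mem_range.2 ((pow_lt_pow_iff_right₀ one_lt_two).1 (hb.trans_lt ((h1 x hx).2.trans hm2)))
  · exact one_div_le_one_div_of_le (by positivity) hb
  · have h2 : ∀ b : ℕ, Cb * 4 ^ b * (1 / 2 ^ b) = Cb * 2 ^ b := fun b => by
      rw [show (4 : ℝ) ^ b = 2 ^ b * 2 ^ b by rw [← mul_pow]; norm_num]
      field_simp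
    simp only [h2]
    rw [← mul_sum, geom_sum_eq (by norm_num), pow_succ]
    nlinarith

lemma Dy.sum_inv_sq (h : Dy K wd Cb) (h1 : ∀ x ∈ K, 1 ≤ wd x ∧ wd x < L)
    (h2 : ∀ x ∈ K, d ≤ wd x) (hk : L ≤ 2 ^ k * d) : ∑ x ∈ K, 1 / wd x ^ 2 ≤ Cb * (k + 1) := by
  have hex : ∃ m : ℕ, d < 2 ^ (m + 1) := by
    obtain ⟨m, hm⟩ := pow_unbounded_of_one_lt d (one_lt_two (α := ℝ))
    exact ⟨m, hm.trans_le (pow_le_pow_right₀ one_le_two (Nat.le_succ m))⟩
  classical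
  refine (h.sum_le (fun x hx => (h1 x hx).1) _ (fun b => 1 / 4 ^ b)
    (Ico (Nat.find hex) (Nat.find hex + k + 1))
    (fun b => by positivity) fun x hx b hb hb' => ⟨mem_Ico.2 ⟨?_, ?_⟩, ?_⟩).trans ?_
  · exact Nat.find_min' hex ((h2 x hx).trans_lt hb')
  · refine (pow_lt_pow_iff_right₀ (one_lt_two (α := ℝ))).1 (hb.trans_lt ((h1 x hx).2.trans_le ?_))
    refine hk.trans ?_
    rw [show Nat.find hex + k + 1 = k + (Nat.find hex + 1) by omega, pow_add]
    exact mul_le_mul_of_nonneg_left (Nat.find_spec hex).le (by positivity)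
  · refine one_div_le_one_div_of_le (by positivity) ?_
    rw [show (4 : ℝ) ^ b = (2 ^ b) ^ 2 by rw [← pow_mul, mul_comm, pow_mul]; norm_num]
    exact pow_le_pow_left₀ (by positivity) hb 2
  · have h3 : ∀ b : ℕ, Cb * 4 ^ b * (1 / 4 ^ b) = Cb := fun b => by field_simp
    simp only [h3, sum_const, Nat.card_Ico, nsmul_eq_mul]
    rw [show Nat.find hex + k + 1 - Nat.find hex = k + 1 by omega]
    push_cast
    exact (mul_comm _ _).le

end dyadic

/-- the base pairs in the inner product of two kinks -/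
lemma base_sum {c D D2 : Vx n → Vx n → ℝ} {K K2 Nr : Finset (Vx n)} {wd : Vx n → ℝ}
    {β A Cb L d : ℝ} {k : ℕ} (hc : ∀ x y, 0 ≤ c x y)
    (hm : ∀ x, ∑ y, c x y * (ds x y : ℝ) ^ 2 ≤ β) (hA : 0 ≤ A) (hL : 0 ≤ L)
    (hK : Dy K wd Cb) (hK2 : Dy K2 wd Cb) (h1 : ∀ x ∈ K, 1 ≤ wd x ∧ wd x < L)
    (h2 : ∀ x ∈ K2, 1 ≤ wd x ∧ wd x < L) (h3 : ∀ x ∈ K, x ∈ K2 → d ≤ wd x) (hk : L ≤ 2 ^ k * d)
    (hD : ∀ x y, c x y ≠ 0 → |D x y| ≤ ds x y * (A + if x ∈ K then 2 / wd x else 0))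
    (hD2 : ∀ x y, c x y ≠ 0 → |D2 x y| ≤ ds x y * (A + if x ∈ K2 then 2 / wd x else 0))
    (hN : ∀ x y, c x y ≠ 0 → x ∉ Nr → D x y = 0) :
    ∑ x, ∑ y, c x y * (|D x y| * |D2 x y|) ≤
      β * (A ^ 2 * Nr.card + 8 * A * Cb * L + 4 * Cb * (k + 1)) := by
  have hβ : 0 ≤ β :=
    (sum_nonneg fun y _ => mul_nonneg (hc (vz n) y) (sq_nonneg _)).trans (hm (vz n))
  set a : Vx n → ℝ := fun x => if x ∈ K then 2 / wd x else 0 with ha
  set b : Vx n → ℝ := fun x => if x ∈ K2 then 2 / wd x else 0 with hb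
  have a0 : ∀ x, 0 ≤ a x := fun x => by
    simp only [ha]
    split_ifs with h
    · exact div_nonneg zero_le_two (by linarith [(h1 x h).1])
    · exact le_rfl
  have b0 : ∀ x, 0 ≤ b x := fun x => by
    simp only [hb]
    split_ifs with h
    · exact div_nonneg zero_le_two (by linarith [(h2 x h).1])
    · exact le_rfl
  have s1 : ∀ x, ∑ y, c x y * (|D x y| * |D2 x y|) ≤
      β * ((if x ∈ Nr then A ^ 2 else 0) + A * a x + A * b x + a x * b x) := fun x => by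
    by_cases hx : x ∈ Nr
    · have e : ∀ y, c x y * (|D x y| * |D2 x y|) ≤
          c x y * (ds x y : ℝ) ^ 2 * ((A + a x) * (A + b x)) := fun y => by
        by_cases h : c x y = 0
        · simp [h]
        · have := mul_le_mul (hD x y h) (hD2 x y h) (abs_nonneg _)
            (mul_nonneg (Nat.cast_nonneg _) (add_nonneg hA (a0 x)))
          calc _ ≤ c x y * (ds x y * (A + a x) * (ds x y * (A + b x))) :=
                mul_le_mul_of_nonneg_left this (hc x y)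
            _ = _ := by ring
      refine (sum_le_sum fun y _ => e y).trans ?_
      rw [← sum_mul, if_pos hx]
      refine (mul_le_mul_of_nonneg_right (hm x)
        (mul_nonneg (add_nonneg hA (a0 x)) (add_nonneg hA (b0 x)))).trans (le_of_eq ?_)
      ring
    · rw [if_neg hx, sum_eq_zero fun y _ => ?_]
      · exact mul_nonneg hβ (add_nonneg (add_nonneg (add_nonneg le_rfl (mul_nonneg hA (a0 x)))
          (mul_nonneg hA (b0 x))) (mul_nonneg (a0 x) (b0 x)))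
      · by_cases h : c x y = 0
        · simp [h]
        · simp [hN x y h hx]
  refine (sum_le_sum fun x _ => s1 x).trans ?_
  rw [← mul_sum]
  refine mul_le_mul_of_nonneg_left ?_ hβ
  have t1 : ∑ x, a x ≤ 4 * Cb * L := by
    have := hK.sum_inv h1 hL
    simp only [ha, sum_ite_mem, univ_inter]
    calc ∑ x ∈ K, 2 / wd x = 2 * ∑ x ∈ K, 1 / wd x := by
          rw [mul_sum]; exact sum_congr rfl fun x _ => by ring
      _ ≤ _ := by linarith
  have t2 : ∑ x, b x ≤ 4 * Cb * L := by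
    have := hK2.sum_inv h2 hL
    simp only [hb, sum_ite_mem, univ_inter]
    calc ∑ x ∈ K2, 2 / wd x = 2 * ∑ x ∈ K2, 1 / wd x := by
          rw [mul_sum]; exact sum_congr rfl fun x _ => by ring
      _ ≤ _ := by linarith
  have t3 : ∑ x, a x * b x ≤ 4 * Cb * (k + 1) := by
    have := (hK.mono (inter_subset_left (s₂ := K2))).sum_inv_sq
      (fun x hx => h1 x (mem_inter.1 hx).1)
      (fun x hx => h3 x (mem_inter.1 hx).1 (mem_inter.1 hx).2) hk
    calc ∑ x, a x * b x = ∑ x, if x ∈ K ∩ K2 then 4 * (1 / wd x ^ 2) else 0 := by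
          refine sum_congr rfl fun x _ => ?_
          simp only [ha, hb, mem_inter]
          by_cases e1 : x ∈ K <;> by_cases e2 : x ∈ K2 <;> simp [e1, e2]
          ring
      _ = 4 * ∑ x ∈ K ∩ K2, 1 / wd x ^ 2 := by rw [sum_ite_mem, univ_inter, mul_sum]
      _ ≤ _ := by linarith
  simp only [sum_add_distrib, ← mul_sum, sum_ite_mem, univ_inter, sum_const, nsmul_eq_mul]
  have := mul_le_mul_of_nonneg_left t1 hA
  have := mul_le_mul_of_nonneg_left t2 hA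
  linarith

end Pool.Agent.Lib.MP_9cc147_pr.AllU.E
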