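import Pool.Agent.Lib.MP_9cc147_pr.U.ERing0
import Pool.Agent.Lib.MP_9cc147_pr.U.EBase
import Pool.Agent.Lib.MP_9cc147_pr.U.EMov
import Pool.Agent.Lib.MP_9cc147_pr.U.ENum

/-! Exceptional phase: state, invariants and the statements of the steps. -/

open Finset

namespace Pool.Agent.Lib.MP_9cc147_pr.AllU.E

variable {n : ℕ}

/-- the ring of a slot -/
def RStepSt : Prop :=
  ∀ (n g Λ Γ j v R S : ℕ) (β al mt Aj : ℝ) (z : Vx n) (ρ : Vx n → ℕ) (μ : Vx n → ℝ)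
    (cb ct : Vx n → Vx n → ℝ) (c : ℕ → Vx n → Vx n → ℝ) (Sh : Finset (Vx n))
    (an : Vx n → Vx n → Vx n) (Kp : Vx n → Vx n → Prop), Par (10 ^ 40) g Λ Γ β al →
    RIn g Λ Γ β al j v z ρ μ cb c ct Sh R S mt Aj →
    (∀ x, ds (vz n) x ≤ S → R + v ≤ ds z x) → (∀ x y, an x y = x ∨ an x y = y) →
    (∀ x y, R + v ≤ ds z x → R + v ≤ ds z y → Kp x y) →
    ∃ (Nt : Finset (Vx n)) (W : Type) (_ : Fintype W) (pt : W → Vx n) (bs : W → ℝ),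
      (∀ q ∈ Nt, 0 < ρ q ∧ 100 * ρ q < v ∧ R < ds z q + v ∧ ds z q ≤ R + 2 * v) ∧
      (∀ p, 0 < ρ p → 100 * ρ p < v → R < ds z p + v → ds z p ≤ R + 2 * v →
        ∃ q ∈ Nt, ds q p ≤ v) ∧
      Nt.card * (cI * (Γ : ℝ) ^ (j - 1)) ≤ ∑ y ∈ Sh, μ y ∧ (∀ w, pt w ∈ Nt) ∧ (∀ w, 0 ≤ bs w) ∧
      (∑ x, ∑ y, newW (Moved z R v) an ct (chi z R v) pt bs z x y *
        min 1 (200 * (ds x y : ℝ) / v) ^ 2 ≤ 1000 * g * Aj + al * mt / (Γ : ℝ) ^ j) ∧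
      ∀ (lam d1 d0 : ℝ) (ρ1 ρ0 : Vx n → ℕ) (c1 : Vx n → Vx n → ℝ) (p0 : Vx n),
        (∀ q ∈ Nt, 4 * v ≤ ρ1 q) → (∀ p, R + 2 * v < ds z p → ρ p ≤ ρ1 p) →
        (∀ x y, keep Kp ct x y + newW (Moved z R v) an ct (chi z R v) pt bs z x y ≤ c1 x y) →
        (∀ p, ρ p ≤ ρ0 p) → ds z p0 + 6 * Γ ^ j ≤ ρ0 p0 →
        Mul lam (Gm (LamA ρ1 S) c1) d1 → Mul lam (Gm (LamA ρ0 S) ct) d0 →
        Mul lam (Gm (LamA ρ S) ct) ((1 - cI / (100 * (40000 * g) * Γ)) * d1 +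
          cI / (100 * (40000 * g) * Γ) * d0)

/-- the last ring -/
def RFinSt : Prop :=
  ∀ (n g Λ Γ j v R S : ℕ) (β al mt Aj lam : ℝ) (ρ : Vx n → ℕ) (μ : Vx n → ℝ)
    (cb ct : Vx n → Vx n → ℝ) (c : ℕ → Vx n → Vx n → ℝ) (Sh : Finset (Vx n)),
    Par (10 ^ 40) g Λ Γ β al → RIn g Λ Γ β al j v (vz n) ρ μ cb c ct Sh R S mt Aj → S ≤ R →
    |lam| ≤ 1 → Mul lam (Gm (LamA ρ S) ct) (1 - lam ^ 2 / 200)

/-- the parameters -/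
structure Pm where
  g : ℕ
  L : ℕ
  G : ℕ
  be : ℝ
  al : ℝ

def Pm.Ok (P : Pm) : Prop := Par (10 ^ 40) P.g P.L P.G P.be P.al

/-- the state: pins, mass, base weights, weights of the levels -/
structure St (n : ℕ) where
  ρ : Vx n → ℕ
  μ : Vx n → ℝ
  cb : Vx n → Vx n → ℝ
  c : ℕ → Vx n → Vx n → ℝ

/-- total weights on level `j` -/
noncomputable def St.ct (σ : St n) (j : ℕ) (x y : Vx n) : ℝ :=
  σ.cb x y + ∑ i ∈ Icc 1 j, σ.c i x y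

/-- weight of level `i` that starts at `x` -/
noncomputable def St.aa (σ : St n) (P : Pm) (i : ℕ) (x : Vx n) : ℝ :=
  ∑ y, σ.c i x y * min 1 (200 * (ds x y : ℝ) / ((P.L * P.G ^ (i - 1) : ℕ) : ℝ)) ^ 2

/-- `a` is dominated by the mass within distance `D` -/
def Rel (a μ : Vx n → ℝ) (al : ℝ) (D : ℕ) (s : ℝ) : Prop :=
  ∀ O O2 : Finset (Vx n), (∀ x ∈ O, ∀ y, ds x y ≤ D → y ∈ O2) →
    ∑ x ∈ O, a x ≤ al * (∑ y ∈ O2, μ y) / s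

/-- active on the scale `s` -/
def Act (S s : ℕ) (x : Vx n) : Prop := S + 100 * s ≤ ds (vz n) x ∧ ds (vz n) x + 100 * s ≤ 4 * S

/-- invariants that hold at all times on level `j` -/
structure Core (P : Pm) (J j : ℕ) (σ : St n) : Prop where
  m0 : ∀ x, 0 ≤ σ.μ x
  mass : ∀ p, 40000 * P.g * (σ.ρ p : ℝ) ≤ σ.μ p
  base : Base σ.ρ σ.cb P.be
  c0 : ∀ i x y, 0 ≤ σ.c i x y
  zero : ∀ i, j < i → ∀ x y, σ.c i x y = 0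
  Si : ∀ i, 1 ≤ i → i ≤ j → ∀ x y, σ.c i x y ≠ 0 → ds x y ≤ 3 * P.G ^ i ∧
    (P.L * P.G ^ (i - 1) ≤ 200 * ds x y ∨
      ∀ p, 0 < σ.ρ p → P.L * P.G ^ (i - 1) ≤ 100 * (ds x p + σ.ρ p))
  Ri : ∀ i, 1 ≤ i → i < j →
    Rel (σ.aa P i) σ.μ (kap P.g ^ 256 * P.al) (3100 * P.G ^ i) ((P.G : ℝ) ^ i)
  cert : ∀ i < j, ∀ p, 0 < σ.ρ p → Act (P.G ^ J) (P.G ^ i) p → Cert σ.ρ σ.μ cI (P.G ^ i) p

/-- the claim for a state -/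
def Val (P : Pm) (J j : ℕ) (lam : ℝ) (σ : St n) : Prop :=
  Mul lam (Gm (LamA σ.ρ (P.G ^ J)) (σ.ct j))
    (1 - lam ^ 2 / 200 * (1 - (∑ x, σ.μ x) / (P.G : ℝ) ^ J))

/-- a slot that is not skipped -/
structure Slot (P : Pm) (J j : ℕ) (σ : St n) (z p0 : Vx n) : Prop where
  core : Core P J j σ
  j1 : 1 ≤ j
  big : 4 * P.G ^ J ≤ n
  in1 : P.G ^ J + 50 * P.G ^ j ≤ ds (vz n) z
  in2 : ds (vz n) z + 50 * P.G ^ j ≤ 4 * P.G ^ J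
  pin : 0 < σ.ρ p0
  near : ds z p0 ≤ P.G ^ j
  light : ∑ y with ds z y ≤ 4000 * P.G ^ j, σ.μ y ≤ (P.G : ℝ) ^ j
  nofar : ∀ p, 0 < σ.ρ p → ds z p ≤ σ.ρ p + 4 * P.G ^ j → ds z p ≤ 4000 * P.G ^ j
  lev : ∑ x with ds z x ≤ 6 * P.G ^ j, σ.aa P j x ≤ 2 * (kap P.g ^ 256 * P.al)

/-- what the induction sees of a success or a failure at the slot `z` -/
structure Step (P : Pm) (J j : ℕ) (σ σ' : St n) (z : Vx n) : Prop where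
  core : Core P J j σ'
  off : ∀ x, 3 * P.G ^ j < ds z x → σ'.μ x = σ.μ x
  half : ∀ x, σ.μ x ≤ 2 * σ'.μ x
  far : ∀ x, 6 * P.G ^ j < ds z x → σ'.aa P j x ≤ σ.aa P j x
  inc : ∀ O : Finset (Vx n), ∑ x ∈ O, σ'.aa P j x ≤ ∑ x ∈ O, σ.aa P j x +
    (1000 * P.g * ∑ x with ds z x ≤ 6 * P.G ^ j, σ.aa P j x +
      P.al * (∑ y with ds z y ≤ 3 * P.G ^ j, σ.μ y) / (P.G : ℝ) ^ j)
  pin : ∀ p, 0 < σ'.ρ p → 0 < σ.ρ p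
  big : ∀ p, P.G ^ j ≤ σ.ρ p → σ.ρ p ≤ σ'.ρ p
  cell : ∀ p, 0 < σ'.ρ p → ds z p ≤ P.G ^ j →
    ∃ q, P.G ^ j ≤ σ'.ρ q ∧ ds p q ≤ σ'.ρ q + 5 * P.G ^ j

/-- pairs that keep their level -/
def KpD (z : Vx n) (R v : ℕ) (x y : Vx n) : Prop := R + v ≤ ds z x ∧ R + v ≤ ds z y

/-- anchor of a moved pair -/
def anD (z : Vx n) (R v : ℕ) (x y : Vx n) : Vx n := if ds z x < R + v then x else y

/-- the state after a success -/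
def SucSt : Prop :=
  ∀ (P : Pm) (n J j lo v R : ℕ) (σ : St n) (z : Vx n) (Nt : Finset (Vx n)) (W : Type) [Fintype W]
    (pt : W → Vx n) (bs : W → ℝ), P.Ok → Core P J j σ → 1 ≤ j → v = P.L * P.G ^ (j - 1) →
    R = lo + 10 * v → 2 * P.G ^ j ≤ lo → lo + 30 * v ≤ 3 * P.G ^ j →
    (∀ p, 0 < σ.ρ p → v ≤ 100 * σ.ρ p →
      ds z p + σ.ρ p + 2 * v < R ∨ R + 3 * v + σ.ρ p < ds z p) →
    (∀ p, ds z p ≤ 3 * P.G ^ j → σ.ρ p < P.G ^ j) →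
    (∀ x y, σ.cb x y ≠ 0 → ds x y ≤ 1 ∨ 100 * ds x y ≤ ds z x + 2 * P.G ^ j) →
    (∀ q ∈ Nt, 0 < σ.ρ q ∧ 100 * σ.ρ q < v ∧ R < ds z q + v ∧ ds z q ≤ R + 2 * v) →
    (∀ p, 0 < σ.ρ p → 100 * σ.ρ p < v → R < ds z p + v → ds z p ≤ R + 2 * v →
      ∃ q ∈ Nt, ds q p ≤ v) →
    (Nt.card : ℝ) * (4 * (40000 * P.g) * v) ≤ (∑ y with ds z y ≤ lo, σ.μ y) / 4 →
    (∀ w, pt w ∈ Nt) → (∀ w, 0 ≤ bs w) →
    (∑ x, ∑ y, newW (Moved z R v) (anD z R v) (σ.ct j) (chi z R v) pt bs z x y *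
        min 1 (200 * (ds x y : ℝ) / v) ^ 2 ≤
      1000 * P.g * ∑ x with ds z x ≤ 6 * P.G ^ j, σ.aa P j x +
        P.al * (∑ y with ds z y ≤ lo, σ.μ y) / (P.G : ℝ) ^ j) →
    ∃ σ' : St n, Step P J j σ σ' z ∧
      ∑ x, σ'.μ x ≤ ∑ x, σ.μ x - (∑ y with ds z y ≤ lo, σ.μ y) / 4 ∧
      (∀ q ∈ Nt, 4 * v ≤ σ'.ρ q) ∧ (∀ p, R + 2 * v < ds z p → σ.ρ p ≤ σ'.ρ p) ∧
      ∀ x y, keep (KpD z R v) (σ.ct j) x y +
        newW (Moved z R v) (anD z R v) (σ.ct j) (chi z R v) pt bs z x y ≤ σ'.ct j x y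

/-- the state after a failure -/
def FailSt : Prop :=
  ∀ (P : Pm) (n J j : ℕ) (σ : St n) (z p0 : Vx n), P.Ok → Core P J j σ → 0 < σ.ρ p0 →
    σ.ρ p0 < P.G ^ j → ds z p0 ≤ P.G ^ j →
    ∃ σ' : St n, Step P J j σ σ' z ∧
      ∑ x, σ'.μ x ≤ ∑ x, σ.μ x + 12 * (40000 * P.g) * (P.G : ℝ) ^ j ∧
      σ'.cb = σ.cb ∧ σ'.c = σ.c ∧ (∀ p, σ.ρ p ≤ σ'.ρ p) ∧ σ'.ρ p0 = 12 * P.G ^ j

/-- one slot -/
def SlotSt : Prop :=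
  ∀ (P : Pm) (n J j : ℕ) (lam : ℝ) (σ : St n) (z p0 : Vx n), P.Ok → Slot P J j σ z p0 →
    (∀ σ', Step P J j σ σ' z → Val P J j lam σ') → Val P J j lam σ

/-- invariants at the start of the colour `k` of level `j` -/
structure InvC (P : Pm) (J j k : ℕ) (σ : St n) : Prop where
  core : Core P J j σ
  rel : Rel (σ.aa P j) σ.μ (kap P.g ^ k * P.al) (12 * k * P.G ^ j) ((P.G : ℝ) ^ j)
  cert : ∀ p, 0 < σ.ρ p → Act (P.G ^ J) (P.G ^ j) p → col (P.G ^ j) (gz (P.G ^ j) p) < k →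
    Cert σ.ρ σ.μ ((1 / 2) ^ k) (P.G ^ j) p

/-- one colour, for any property `V` of states that passes backwards through a slot -/
def ColSt : Prop :=
  ∀ (P : Pm) (n J j k : ℕ) (V : St n → Prop), P.Ok → 1 ≤ j → 4 * P.G ^ J ≤ n → k < 256 →
    (∀ σ z p0, Slot P J j σ z p0 → (∀ σ', Step P J j σ σ' z → V σ') → V σ) →
    (∀ σ, InvC P J j (k + 1) σ → V σ) → ∀ σ, InvC P J j k σ → V σ

/-- after the last level -/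
def LastSt : Prop :=
  ∀ (P : Pm) (n J : ℕ) (lam : ℝ) (σ : St n), P.Ok → 1 ≤ J → 4 * P.G ^ J ≤ n → |lam| ≤ 1 →
    Core P J J σ → (∀ x y, σ.c J x y = 0) → Val P J J lam σ

end Pool.Agent.Lib.MP_9cc147_pr.AllU.E
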