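import Pool.Agent.Lib.MP_9cc147_pr.U.EKink
import Pool.Agent.Lib.MP_9cc147_pr.U.EConv

/-! Ring estimate: the pairs of one level, summed over the windows. -/

open Finset

namespace Pool.Agent.Lib.MP_9cc147_pr.AllU.E

variable {n : ℕ} {W : Type} [Fintype W]

/-- a pair meets at most two windows -/
lemma two_win {sp : W → Finset (Vx n)} (hd : ∀ w w', w ≠ w' → Disjoint (sp w) (sp w'))
    (x y : Vx n) {f : W → ℝ} {B : ℝ} (hB : 0 ≤ B) (h1 : ∀ w, f w ≤ B)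
    (h2 : ∀ w, f w ≠ 0 → x ∈ sp w ∨ y ∈ sp w) : ∑ w, f w ≤ 2 * B := by
  classical
  have key : ∀ a : Vx n, ∑ w, (if a ∈ sp w then B else 0) ≤ B := fun a => by
    by_cases h : ∃ w, a ∈ sp w
    · obtain ⟨w, hw⟩ := h
      rw [sum_eq_single w, if_pos hw]
      · intro w' _ hw'
        exact if_neg fun ha => disjoint_left.1 (hd w' w hw') ha hw
      · intro h
        exact absurd (mem_univ w) h
    · rw [sum_eq_zero fun w _ => if_neg fun ha => h ⟨w, ha⟩]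
      exact hB
  have h3 : ∑ w, f w ≤ ∑ w, ((if x ∈ sp w then B else 0) + if y ∈ sp w then B else 0) := by
    refine sum_le_sum fun w _ => ?_
    have h4 := h1 w
    by_cases h : f w = 0
    · rw [h]
      split_ifs <;> linarith
    · rcases h2 w h with h5 | h5
      · rw [if_pos h5]
        split_ifs <;> linarith
      · rw [if_pos h5]
        split_ifs <;> linarith
  rw [sum_add_distrib] at h3
  linarith [key x, key y]

lemma G_nonneg {s : ℝ} (hs : 0 ≤ s) (a : ℝ) : 0 ≤ 12 * s / max (6 * s) |a| :=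
  div_nonneg (by linarith) (le_max_of_le_right (abs_nonneg a))

lemma G_le_two {s : ℝ} (hs : 0 < s) (a : ℝ) : 12 * s / max (6 * s) |a| ≤ 2 := by
  rw [div_le_iff₀ (lt_max_of_lt_left (by linarith))]
  have := le_max_left (6 * s) |a|
  linarith

lemma G_mul_le {s : ℝ} (hs : 0 < s) (a : ℝ) : 12 * s / max (6 * s) |a| * |a| ≤ 12 * s := by
  have h : 0 < max (6 * s) |a| := lt_max_of_lt_left (by linarith)
  rw [div_mul_eq_mul_div, div_le_iff₀ h]
  exact mul_le_mul_of_nonneg_left (le_max_right _ _) (by linarith)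

lemma E_nonneg {vi : ℝ} (h0 : 0 < vi) (x y : Vx n) : 0 ≤ min 1 (200 * (ds x y : ℝ) / vi) :=
  le_min zero_le_one (by positivity)

lemma E_sq_le_one {vi : ℝ} (h0 : 0 < vi) (x y : Vx n) :
    min 1 (200 * (ds x y : ℝ) / vi) ^ 2 ≤ 1 :=
  pow_le_one₀ (E_nonneg h0 x y) (min_le_left _ _)

/-- abstract form of the sum over windows and pairs -/
lemma win_sum {sp : W → Finset (Vx n)} (hd : ∀ w w', w ≠ w' → Disjoint (sp w) (sp w'))
    {c e : Vx n → Vx n → ℝ} (hc : ∀ x y, 0 ≤ c x y) (he : ∀ x y, 0 ≤ e x y)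
    {D : W → Vx n → Vx n → ℝ} {g : Vx n → ℝ} (hg : ∀ x, 0 ≤ g x) (O : Finset (Vx n))
    (h1 : ∀ w x y, c x y ≠ 0 → D w x y ≤ e x y * g x)
    (h2 : ∀ w x y, c x y ≠ 0 → D w x y ≠ 0 → (x ∈ sp w ∨ y ∈ sp w) ∧ x ∈ O) :
    ∑ w, ∑ x, ∑ y, c x y * D w x y ≤ 2 * ∑ x ∈ O, (∑ y, c x y * e x y) * g x := by
  classical
  rw [sum_comm, mul_sum, ← sum_filter_add_sum_filter_not univ (fun x => x ∈ O), filter_mem_eq_inter,
    univ_inter, sum_eq_zero (s := univ.filter fun x => ¬ x ∈ O), add_zero]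
  · refine sum_le_sum fun x _ => ?_
    rw [sum_comm, sum_mul, mul_sum]
    refine sum_le_sum fun y _ => ?_
    refine two_win hd x y (mul_nonneg (mul_nonneg (hc x y) (he x y)) (hg x)) (fun w => ?_)
      fun w hw => (h2 w x y (left_ne_zero_of_mul hw) (right_ne_zero_of_mul hw)).1
    by_cases h : c x y = 0
    · simp [h]
    · rw [mul_assoc]
      exact mul_le_mul_of_nonneg_left (h1 w x y h) (hc x y)
  · intro x hx
    refine sum_eq_zero fun w _ => sum_eq_zero fun y _ => ?_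
    by_contra h
    exact (mem_filter.1 hx).2 (h2 w x y (left_ne_zero_of_mul h) (right_ne_zero_of_mul h)).2

variable {z : Vx n} {ρ : Vx n → ℕ} {P : Finset (Vx n)} {R v t t' : ℝ}

lemma spw_rad {A : Finset (Vx n)} {x y : Vx n} {r : ℝ} (hd : (ds x y : ℝ) ≤ r)
    (h : x ∈ spw z A R v ∨ y ∈ spw z A R v) : R - r < ds z x ∧ (ds z x : ℝ) < R + v + r := by
  have h0 : (0 : ℝ) ≤ ds x y := Nat.cast_nonneg _
  have h3 := abs_le.1 (dsR_lip z x y)
  rcases h with h | h <;> obtain ⟨h5, h6, -⟩ := mem_spw.1 h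
  · constructor <;> linarith
  · constructor <;> linarith

/-- lower levels -/
lemma low_sum (k : Kn ρ P R v t) (k' : Kn ρ P R v t') (A : W → Finset (Vx n))
    (hd : ∀ w w', w ≠ w' → Disjoint (spw z (A w) R v) (spw z (A w') R v))
    {c : Vx n → Vx n → ℝ} (hc : ∀ x y, 0 ≤ c x y) {vi s : ℝ} (h0 : 0 < vi) (hvs : vi ≤ 800 * s)
    (hv : vi ≤ v) (hsv : 9 * s ≤ v)
    (hS : ∀ x y, c x y ≠ 0 → (ds x y : ℝ) ≤ 3 * s ∧
      (vi ≤ 200 * ds x y ∨ ∀ p ∈ P, vi ≤ 100 * (ds x p + ρ p : ℝ)))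
    (O : Finset (Vx n)) (hO : ∀ x, R - 3 * s < ds z x → (ds z x : ℝ) < R + v + 3 * s → x ∈ O) :
    ∑ w, ∑ x, ∑ y, c x y * (|uu z ρ P (A w) R v t x - uu z ρ P (A w) R v t y| *
        |uu z ρ P (A w) R v t' x - uu z ρ P (A w) R v t' y|) ≤
      2 * ∑ x ∈ O, (∑ y, c x y * min 1 (200 * (ds x y : ℝ) / vi) ^ 2) *
        (12 * s / max (6 * s) |t - ds z x| * (12 * s / max (6 * s) |t' - ds z x|)) := by
  have hs : 0 ≤ s := by linarith
  refine win_sum hd hc (fun x y => sq_nonneg _)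
    (fun x => mul_nonneg (G_nonneg hs _) (G_nonneg hs _)) O (fun w x y h => ?_) fun w x y h h' => ?_
  · have h1 := k.uu_low (z := z) (A := A w) h0 hvs hv hsv (hS x y h).1 (hS x y h).2
    have h2 := k'.uu_low (z := z) (A := A w) h0 hvs hv hsv (hS x y h).1 (hS x y h).2
    refine (mul_le_mul h1 h2 (abs_nonneg _) ((abs_nonneg _).trans h1)).trans (le_of_eq ?_)
    ring
  · have h1 := k.uu_ne (sub_ne_zero.1 (abs_ne_zero.1 (left_ne_zero_of_mul h')))
    have h2 := spw_rad (hS x y h).1 h1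
    exact ⟨h1, hO x h2.1 h2.2⟩

/-- any level up to the current one -/
lemma top_sum (k : Kn ρ P R v t) (k' : Kn ρ P R v t') (A : W → Finset (Vx n))
    (hd : ∀ w w', w ≠ w' → Disjoint (spw z (A w) R v) (spw z (A w') R v))
    {c : Vx n → Vx n → ℝ} (hc : ∀ x y, 0 ≤ c x y) {vi s : ℝ} (h0 : 0 < vi) (hv : vi ≤ v)
    (hS : ∀ x y, c x y ≠ 0 → (ds x y : ℝ) ≤ 3 * s ∧
      (vi ≤ 200 * ds x y ∨ ∀ p ∈ P, vi ≤ 100 * (ds x p + ρ p : ℝ)))
    (O : Finset (Vx n)) (hO : ∀ x, R - 3 * s < ds z x → (ds z x : ℝ) < R + v + 3 * s → x ∈ O) :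
    ∑ w, ∑ x, ∑ y, c x y * (|uu z ρ P (A w) R v t x - uu z ρ P (A w) R v t y| *
        |uu z ρ P (A w) R v t' x - uu z ρ P (A w) R v t' y|) ≤
      8 * ∑ x ∈ O, ∑ y, c x y * min 1 (200 * (ds x y : ℝ) / vi) ^ 2 := by
  refine (win_sum (g := fun _ => 4) (e := fun x y => min 1 (200 * (ds x y : ℝ) / vi) ^ 2) hd hc
    (fun x y => sq_nonneg _) (fun _ => by norm_num) O (fun w x y h => ?_)
    fun w x y h h' => ?_).trans (le_of_eq ?_)
  · have h1 := k.uu_lev (z := z) (A := A w) h0 hv (hS x y h).2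
    have h2 := k'.uu_lev (z := z) (A := A w) h0 hv (hS x y h).2
    refine (mul_le_mul h1 h2 (abs_nonneg _) ((abs_nonneg _).trans h1)).trans (le_of_eq ?_)
    ring
  · have h1 := k.uu_ne (sub_ne_zero.1 (abs_ne_zero.1 (left_ne_zero_of_mul h')))
    have h2 := spw_rad (hS x y h).1 h1
    exact ⟨h1, hO x h2.1 h2.2⟩
  · rw [← sum_mul]
    ring

/-- comparison of the two scales -/
lemma E_scale {vi v s : ℝ} (h0 : 0 < vi) (hv : 0 < v) (hvs : vi ≤ 600 * s) {x y : Vx n}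
    (hd : (ds x y : ℝ) ≤ 3 * s) :
    min 1 (200 * (ds x y : ℝ) / v) ≤ 600 * s / v * min 1 (200 * (ds x y : ℝ) / vi) := by
  have hd0 : (0 : ℝ) ≤ ds x y := Nat.cast_nonneg _
  refine (min_le_right _ _).trans ?_
  rcases le_total 1 (200 * (ds x y : ℝ) / vi) with h | h
  · rw [min_eq_left h, mul_one]
    exact div_le_div_of_nonneg_right (by linarith) hv.le
  · rw [min_eq_right h]
    have e : 200 * (ds x y : ℝ) / v = vi / v * (200 * (ds x y : ℝ) / vi) := by field_simp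
    rw [e]
    exact mul_le_mul_of_nonneg_right (div_le_div_of_nonneg_right hvs hv.le) (by positivity)

/-- a moved pair lies near the shell -/
lemma mv_rad {x y : Vx n} {r : ℝ} (hd : (ds x y : ℝ) ≤ r)
    (h1 : ¬ ((ds z x : ℝ) ≤ R ∧ (ds z y : ℝ) ≤ R)) (h2 : ¬ (R + v ≤ ds z x ∧ R + v ≤ ds z y)) :
    R - r < ds z x ∧ (ds z x : ℝ) < R + v + r := by
  have h0 : (0 : ℝ) ≤ ds x y := Nat.cast_nonneg _
  have h3 := abs_le.1 (dsR_lip z x y)
  constructor
  · by_contra h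
    exact h1 ⟨by linarith, by linarith⟩
  · by_contra h
    exact h2 ⟨by linarith, by linarith⟩

/-- abstract form of the sum over the moved pairs -/
lemma keep_sum_le {Mv : Vx n → Vx n → Prop} {c e e' : Vx n → Vx n → ℝ} (hc : ∀ x y, 0 ≤ c x y)
    (he : ∀ x y, 0 ≤ e' x y) {K : ℝ} (hK : 0 ≤ K) (O : Finset (Vx n))
    (h : ∀ x y, Mv x y → c x y ≠ 0 → x ∈ O ∧ e x y ≤ K * e' x y) :
    ∑ x, ∑ y, keep Mv c x y * e x y ≤ K * ∑ x ∈ O, ∑ y, c x y * e' x y := by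
  classical
  rw [mul_sum, ← sum_filter_add_sum_filter_not univ (fun x => x ∈ O), filter_mem_eq_inter,
    univ_inter, sum_eq_zero (s := univ.filter fun x => ¬ x ∈ O), add_zero]
  · refine sum_le_sum fun x _ => ?_
    rw [mul_sum]
    refine sum_le_sum fun y _ => ?_
    by_cases h1 : keep Mv c x y = 0
    · rw [h1, zero_mul]
      exact mul_nonneg hK (mul_nonneg (hc x y) (he x y))
    · obtain ⟨h2, h3⟩ := keep_ne h1
      calc keep Mv c x y * e x y ≤ keep Mv c x y * (K * e' x y) :=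
            mul_le_mul_of_nonneg_left (h x y h2 h3).2 (keep_nonneg hc x y)
        _ ≤ c x y * (K * e' x y) :=
            mul_le_mul_of_nonneg_right (keep_le hc x y) (mul_nonneg hK (he x y))
        _ = K * (c x y * e' x y) := by ring
  · intro x hx
    refine sum_eq_zero fun y _ => ?_
    by_contra h1
    obtain ⟨h2, h3⟩ := keep_ne (left_ne_zero_of_mul h1)
    exact (mem_filter.1 hx).2 (h x y h2 h3).1

/-- moved pairs of a lower level -/
lemma moved_low {Mv : Vx n → Vx n → Prop} {c : Vx n → Vx n → ℝ} (hc : ∀ x y, 0 ≤ c x y)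
    (hM : ∀ x y, Mv x y → ¬ ((ds z x : ℝ) ≤ R ∧ (ds z y : ℝ) ≤ R) ∧
      ¬ (R + v ≤ ds z x ∧ R + v ≤ ds z y))
    {vi s : ℝ} (h0 : 0 < vi) (hv : 0 < v) (hvs : vi ≤ 600 * s)
    (hS : ∀ x y, c x y ≠ 0 → (ds x y : ℝ) ≤ 3 * s)
    (O : Finset (Vx n)) (hO : ∀ x, R - 3 * s < ds z x → (ds z x : ℝ) < R + v + 3 * s → x ∈ O) :
    ∑ x, ∑ y, keep Mv c x y * min 1 (200 * (ds x y : ℝ) / v) ^ 2 ≤
      (600 * s / v) ^ 2 * ∑ x ∈ O, ∑ y, c x y * min 1 (200 * (ds x y : ℝ) / vi) ^ 2 := by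
  refine keep_sum_le hc (fun x y => sq_nonneg _) (sq_nonneg _) O fun x y h1 h2 => ⟨?_, ?_⟩
  · have h3 := mv_rad (hS x y h2) (hM x y h1).1 (hM x y h1).2
    exact hO x h3.1 h3.2
  · rw [← mul_pow]
    exact pow_le_pow_left₀ (E_nonneg hv x y) (E_scale h0 hv hvs (hS x y h2)) 2

/-- moved pairs of the current level -/
lemma moved_top {Mv : Vx n → Vx n → Prop} {c : Vx n → Vx n → ℝ} (hc : ∀ x y, 0 ≤ c x y)
    (hM : ∀ x y, Mv x y → ¬ ((ds z x : ℝ) ≤ R ∧ (ds z y : ℝ) ≤ R) ∧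
      ¬ (R + v ≤ ds z x ∧ R + v ≤ ds z y))
    {s : ℝ} (hS : ∀ x y, c x y ≠ 0 → (ds x y : ℝ) ≤ 3 * s)
    (O : Finset (Vx n)) (hO : ∀ x, R - 3 * s < ds z x → (ds z x : ℝ) < R + v + 3 * s → x ∈ O) :
    ∑ x, ∑ y, keep Mv c x y * min 1 (200 * (ds x y : ℝ) / v) ^ 2 ≤
      ∑ x ∈ O, ∑ y, c x y * min 1 (200 * (ds x y : ℝ) / v) ^ 2 := by
  have := keep_sum_le (Mv := Mv) (e := fun x y => min 1 (200 * (ds x y : ℝ) / v) ^ 2)
    (e' := fun x y => min 1 (200 * (ds x y : ℝ) / v) ^ 2) hc (fun x y => sq_nonneg _) zero_le_one O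
    fun x y h1 h2 => ⟨(fun h3 => hO x h3.1 h3.2) (mv_rad (hS x y h2) (hM x y h1).1 (hM x y h1).2),
      (one_mul _).ge⟩
  rwa [one_mul] at this

lemma chi_e (hv : 0 < v) (x y : Vx n) :
    (chi z R v x - chi z R v y) ^ 2 ≤ min 1 (200 * (ds x y : ℝ) / v) ^ 2 := by
  rw [← sq_abs]
  refine pow_le_pow_left₀ (abs_nonneg _) (le_min ?_ ((chi_lip hv x y).trans ?_)) 2
  · have h1 := chi_nonneg (z := z) (R := R) (v := v) (x := x)
    have h2 := chi_nonneg (z := z) (R := R) (v := v) (x := y)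
    have h3 := chi_le_one (z := z) (R := R) (v := v) (x := x)
    have h4 := chi_le_one (z := z) (R := R) (v := v) (x := y)
    rw [abs_le]
    constructor <;> linarith
  · have : (0 : ℝ) ≤ ds x y := Nat.cast_nonneg _
    exact div_le_div_of_nonneg_right (by linarith) hv.le

lemma Qc_chi_e (hv : 0 < v) {c : Vx n → Vx n → ℝ} (hc : ∀ x y, 0 ≤ c x y) :
    Qc c (chi z R v) ≤ ∑ x, ∑ y, c x y * min 1 (200 * (ds x y : ℝ) / v) ^ 2 :=
  sum_le_sum fun x _ => sum_le_sum fun y _ => mul_le_mul_of_nonneg_left (chi_e hv x y) (hc x y)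

/-- the profile is constant on the pairs that are not moved -/
lemma chi_not_mv (hv : 0 < v) {x y : Vx n}
    (h : ((ds z x : ℝ) ≤ R ∧ (ds z y : ℝ) ≤ R) ∨ (R + v ≤ ds z x ∧ R + v ≤ ds z y)) :
    chi z R v x = chi z R v y := by
  rcases h with h | h
  · rw [chi_one hv h.1, chi_one hv h.2]
  · rw [chi_zero hv h.1, chi_zero hv h.2]

/-- averaging a sum of products over the kink positions -/
lemma avg_low {I : Type} [Fintype I] (O : Finset (Vx n)) {a : Vx n → ℝ} (ha : ∀ x, 0 ≤ a x)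
    {S : I → I → ℝ} {g : I → I → Vx n → ℝ} {q : I → I → ℝ} (hq : ∀ t t', 0 ≤ q t t') {M : ℝ}
    (h1 : ∀ t t', S t t' ≤ 2 * ∑ x ∈ O, a x * g t t' x)
    (h2 : ∀ x ∈ O, ∑ t, ∑ t', g t t' x * q t t' ≤ M) :
    ∑ t, ∑ t', S t t' * q t t' ≤ 2 * M * ∑ x ∈ O, a x := by
  calc ∑ t, ∑ t', S t t' * q t t' ≤ ∑ t, ∑ t', ∑ x ∈ O, 2 * a x * (g t t' x * q t t') := by
        refine sum_le_sum fun t _ => sum_le_sum fun t' _ => ?_
        refine (mul_le_mul_of_nonneg_right (h1 t t') (hq t t')).trans (le_of_eq ?_)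
        rw [mul_sum, sum_mul]
        exact sum_congr rfl fun x _ => by ring
    _ = ∑ x ∈ O, 2 * a x * ∑ t, ∑ t', g t t' x * q t t' := by
        simp only [mul_sum]
        rw [sum_congr rfl fun t _ => sum_comm, sum_comm]
    _ ≤ ∑ x ∈ O, 2 * a x * M :=
        sum_le_sum fun x hx => mul_le_mul_of_nonneg_left (h2 x hx) (by linarith [ha x])
    _ = 2 * M * ∑ x ∈ O, a x := by
        rw [mul_sum]
        exact sum_congr rfl fun x _ => by ring

end Pool.Agent.Lib.MP_9cc147_pr.AllU.E
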