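import Pool.Agent.Lib.MP_9cc147_pr.U.ENum

/-! Exceptional phase: the two numerical inequalities of the ring estimate. -/

namespace Pool.Agent.Lib.MP_9cc147_pr.AllU.E

namespace Par

section

variable {C β al : ℝ} {g Λ Γ : ℕ} (h : Par C g Λ Γ β al) (hC : 10 ^ 30 ≤ C)
include h hC

lemma g_le_G : (g : ℝ) ≤ Γ := by
  have h1 := h.gG hC
  have h2 := h.LR hC
  have h3 := h.gR
  nlinarith [mul_le_mul_of_nonneg_left h2 (show (0 : ℝ) ≤ g by linarith)]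

/-- the constant of the base part -/
lemma CB_le : β * (5 * 10 ^ 12 * (12000 * g) * Γ / cI * (4 * g + 12)) ≤
    10 ^ 18 * (β * Γ ^ 3 / cI) := by
  have a1 := h.gR; have a2 := h.g_le_G hC; have a3 := h.b0; have a4 := cI_pos
  have a5 := h.G_pos hC
  calc β * (5 * 10 ^ 12 * (12000 * g) * Γ / cI * (4 * g + 12))
      ≤ β * (5 * 10 ^ 12 * (12000 * Γ) * Γ / cI * (16 * Γ)) := by
        have : 4 * (g : ℝ) + 12 ≤ 16 * Γ := by linarith
        gcongr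
    _ = 96 * 10 ^ 16 * (β * Γ ^ 3 / cI) := by ring
    _ ≤ _ := by
        have : 0 ≤ β * Γ ^ 3 / cI := by positivity
        nlinarith

/-- the exponent of the spring average is at most `k / 2` -/
lemma astar {Sb Sl St Aj k : ℝ} (hk : 2 ≤ k)
    (hb : Sb ≤ β * (5 * 10 ^ 12 * (12000 * g) * Γ / cI * (4 * g + 12)) * k)
    (hl : Sl ≤ 22327200 * (kap g ^ 256 * al) * (12000 * g) * k) (ht : St ≤ 8 * Aj)
    (hA : Aj ≤ 2 * (kap g ^ 256 * al)) : 2 * (9 * (g + 1) * (Sb + Sl + St)) ≤ k := by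
  have a1 := h.gR
  have a2 := h.CB_le hC
  have a3 := h.base_one hC (K := 10 ^ 18) (by linarith)
  have a4 := h.lamA (K := 10 ^ 13) (by norm_num) (by linarith)
  have a5 := h.A_pos
  generalize kap g ^ 256 * al = A at *
  generalize β * (5 * 10 ^ 12 * (12000 * g) * Γ / cI * (4 * g + 12)) = B at *
  have l0 : (0 : ℝ) ≤ 9 * (g + 1) := by linarith
  have k0 : 0 ≤ k := by linarith
  have b1 : 9 * (g + 1) * B ≤ 1 / 100 := by
    refine le_trans (mul_le_mul_of_nonneg_left a2 l0) (le_trans (le_of_eq ?_) a3)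
    ring
  have b2 : 9 * (g + 1) * Sb ≤ 1 / 100 * k := by
    calc 9 * (g + 1) * Sb ≤ 9 * (g + 1) * (B * k) := mul_le_mul_of_nonneg_left hb l0
      _ = 9 * (g + 1) * B * k := by ring
      _ ≤ _ := mul_le_mul_of_nonneg_right b1 k0
  have b3 : 9 * (g + 1) * (g * A) ≤ 1 / 10 ^ 13 := by linarith
  have b4 : 9 * (g + 1) * Sl ≤ 1 / 10 * k := by
    calc 9 * (g + 1) * Sl ≤ 9 * (g + 1) * (22327200 * A * (12000 * g) * k) :=
          mul_le_mul_of_nonneg_left hl l0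
      _ = 22327200 * 12000 * (9 * (g + 1) * (g * A)) * k := by ring
      _ ≤ _ := mul_le_mul_of_nonneg_right (by linarith) k0
  have b5 : 9 * (g + 1) * St ≤ 1 / 10 := by
    have : A ≤ g * A := le_mul_of_one_le_left a5.le a1
    calc 9 * (g + 1) * St ≤ 9 * (g + 1) * (16 * (g * A)) :=
          mul_le_mul_of_nonneg_left (by linarith) l0
      _ = 16 * (9 * (g + 1) * (g * A)) := by ring
      _ ≤ _ := by linarith
  have e : 2 * (9 * (g + 1) * (Sb + Sl + St)) =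
      2 * (9 * (g + 1) * Sb) + 2 * (9 * (g + 1) * Sl) + 2 * (9 * (g + 1) * St) := by ring
  linarith

/-- moved pairs: base, lower levels, top level -/
lemma moved_tot {s1 mt sig Aj Mb Ml Mt : ℝ} (hs : 0 < s1) (h0 : 0 ≤ sig)
    (h1 : sig ≤ ka g Λ Γ * mt) (hm : cI * s1 ≤ mt)
    (hb : Mb ≤ β * (81 * (Γ * s1) ^ 2 * (200 / (Λ * s1)) ^ 2))
    (hl : Γ * (Λ * s1) ^ 2 * Ml ≤ 720000 * (kap g ^ 256 * al) * sig * (Γ * s1)) (ht : Mt ≤ Aj) :
    36 * (Mb + Ml + Mt) ≤ 36 * Aj + al * mt / (Γ * s1) / 2 := by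
  have a1 := h.gR; have a2 := h.G_pos hC; have a3 := h.L_pos hC; have a4 := h.b0
  have a5 := cI_pos; have a6 := h.A_pos; have a7 := h.LR hC; have a8 := h.GR hC
  have m0 : 0 ≤ mt := le_trans (by positivity) hm
  have b1 := h.base_term hC (K := 10 ^ 9) (by linarith) hs hm
  have b2 := h.lev_term hC (K := 10 ^ 9) (by norm_num) (by linarith) hs m0 h1
  generalize kap g ^ 256 * al = A at *
  generalize al * mt / (Γ * s1) = X at *
  have c1 : Mb ≤ 3240000 * (9 * (g + 1) * β * Γ ^ 3 / cI) := by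
    refine hb.trans ?_
    have e : β * (81 * (Γ * s1) ^ 2 * (200 / (Λ * s1)) ^ 2) = 3240000 * (1 * β * Γ ^ 2 / Λ ^ 2) := by
      field_simp; ring
    rw [e]
    have d1 : (Γ : ℝ) ^ 2 ≤ Γ ^ 3 := pow_le_pow_right₀ (by linarith) (by norm_num)
    have d2 : cI ≤ (Λ : ℝ) ^ 2 := by have := cI_le; nlinarith
    have d3 : (1 : ℝ) ≤ 9 * (g + 1) := by linarith
    gcongr
  have c2 : Ml ≤ 720000 * (9 * (g + 1) * g ^ 2 * A * sig * s1 / (Λ * s1) ^ 2) := by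
    have d1 : Ml ≤ 720000 * (1 * A * sig * s1 / (Λ * s1) ^ 2) := by
      rw [← mul_div_assoc, le_div_iff₀ (by positivity)]
      have : Γ * (Ml * (Λ * s1) ^ 2) ≤ Γ * (720000 * (1 * A * sig * s1)) := by linarith
      exact le_of_mul_le_mul_left this a2
    refine d1.trans ?_
    have d3 : (1 : ℝ) ≤ 9 * (g + 1) * g ^ 2 := by nlinarith
    gcongr
  have p1 : 0 ≤ 9 * (g + 1) * β * Γ ^ 3 / cI := by positivity
  have p2 : 0 ≤ 9 * (g + 1) * g ^ 2 * A * sig * s1 / (Λ * s1) ^ 2 := by positivity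
  linarith

/-- the spring constants -/
lemma bs_tot {s1 mt sig Aj Tb Tl Tt N cW : ℝ} (hs : 0 < s1) (h0 : 0 ≤ sig)
    (h1 : sig ≤ ka g Λ Γ * mt) (hm : cI * s1 ≤ mt) (hN : Λ * s1 ≤ 8 * N)
    (hb : Tb ≤ β * (5 * 10 ^ 12 * (12000 * g) * Γ / cI * (4 * g + 12)) * (16 * N ^ 2))
    (hl : Γ * Tl ≤ 819200 * g ^ 2 * (kap g ^ 256 * al) * sig * (Γ * s1))
    (ht : Tt ≤ 8 * Aj * (8 * N ^ 2)) (hW : cW ≤ Γ / cI) :
    9 * (g + 1) * (Tb + Tl + Tt) / N ^ 2 + β * cW ≤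
      576 * (g + 1) * Aj + al * mt / (Γ * s1) / 2 := by
  have a1 := h.gR; have a2 := h.G_pos hC; have a3 := h.L_pos hC; have a4 := h.b0
  have a5 := cI_pos; have a6 := h.A_pos; have a8 := h.GR hC
  have m0 : 0 ≤ mt := le_trans (by positivity) hm
  have n0 : 0 < N := by have := mul_pos a3 hs; linarith
  have n2 : 0 < N ^ 2 := by positivity
  have b0 := h.CB_le hC
  have b1 := h.base_term hC (K := 10 ^ 21) (by linarith) hs hm
  have b2 := h.lev_term hC (K := 10 ^ 9) (by norm_num) (by linarith) hs m0 h1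
  generalize kap g ^ 256 * al = A at *
  generalize al * mt / (Γ * s1) = X at *
  generalize β * (5 * 10 ^ 12 * (12000 * g) * Γ / cI * (4 * g + 12)) = B at *
  have l0 : (0 : ℝ) ≤ 9 * (g + 1) := by linarith
  have c1 : 9 * (g + 1) * Tb / N ^ 2 ≤ 16 * 10 ^ 18 * (9 * (g + 1) * β * Γ ^ 3 / cI) := by
    rw [div_le_iff₀ n2]
    calc 9 * (g + 1) * Tb ≤ 9 * (g + 1) * (10 ^ 18 * (β * Γ ^ 3 / cI) * (16 * N ^ 2)) :=
          mul_le_mul_of_nonneg_left (hb.trans (mul_le_mul_of_nonneg_right b0 (by positivity))) l0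
      _ = _ := by ring
  have c2 : 9 * (g + 1) * Tl / N ^ 2 ≤
      52428800 * (9 * (g + 1) * g ^ 2 * A * sig * s1 / (Λ * s1) ^ 2) := by
    have d1 : Tl ≤ 819200 * g ^ 2 * A * sig * s1 := by
      have : Γ * Tl ≤ Γ * (819200 * g ^ 2 * A * sig * s1) := by linarith
      exact le_of_mul_le_mul_left this a2
    have d2 : (Λ * s1) ^ 2 / 64 ≤ N ^ 2 := by
      have := pow_le_pow_left₀ (mul_pos a3 hs).le hN 2
      linarith
    calc 9 * (g + 1) * Tl / N ^ 2 ≤ 9 * (g + 1) * (819200 * g ^ 2 * A * sig * s1) / N ^ 2 := by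
          gcongr
      _ ≤ 9 * (g + 1) * (819200 * g ^ 2 * A * sig * s1) / ((Λ * s1) ^ 2 / 64) := by gcongr
      _ = _ := by field_simp; ring
  have c3 : 9 * (g + 1) * Tt / N ^ 2 ≤ 576 * (g + 1) * Aj := by
    rw [div_le_iff₀ n2]
    calc 9 * (g + 1) * Tt ≤ 9 * (g + 1) * (8 * Aj * (8 * N ^ 2)) := mul_le_mul_of_nonneg_left ht l0
      _ = _ := by ring
  have c4 : β * cW ≤ 9 * (g + 1) * β * Γ ^ 3 / cI := by
    have d1 : (Γ : ℝ) ≤ Γ ^ 3 := le_self_pow₀ (by linarith) (by norm_num)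
    have d3 : (1 : ℝ) ≤ 9 * (g + 1) := by linarith
    calc β * cW ≤ β * (Γ / cI) := by gcongr
      _ = 1 * β * Γ / cI := by ring
      _ ≤ _ := by gcongr
  have p1 : 0 ≤ 9 * (g + 1) * β * Γ ^ 3 / cI := by positivity
  have p2 : 0 ≤ 9 * (g + 1) * g ^ 2 * A * sig * s1 / (Λ * s1) ^ 2 := by positivity
  have e : 9 * (g + 1) * (Tb + Tl + Tt) / N ^ 2 =
      9 * (g + 1) * Tb / N ^ 2 + 9 * (g + 1) * Tl / N ^ 2 + 9 * (g + 1) * Tt / N ^ 2 := by ring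
  linarith

/-- both together -/
lemma total {Aj X M B : ℝ} (hA : 0 ≤ Aj) (h1 : 36 * M ≤ 36 * Aj + X / 2)
    (h2 : B ≤ 576 * (g + 1) * Aj + X / 2) : 36 * M + B ≤ 1000 * g * Aj + X := by
  have a1 : (2 : ℝ) ≤ g := by linarith [h.Cg]
  nlinarith

end

section

variable {β al : ℝ} {g Λ Γ : ℕ} (h : Par (10 ^ 40) g Λ Γ β al)
include h

omit h in
lemma c40 : (10 : ℝ) ^ 30 ≤ 10 ^ 40 := by norm_num

lemma N1 : 18 * (g + 1) * (β * (5 * 10 ^ 12 * (12000 * g) * Γ / cI * (4 * g + 12)) +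
    8 * (kap g ^ 256 * al) + 7200 * (3101 * (kap g ^ 256 * al) * (12000 * g))) ≤ 1 := by
  have := h.astar c40 (k := 2) (Aj := 2 * (kap g ^ 256 * al)) le_rfl le_rfl le_rfl le_rfl le_rfl
  generalize kap g ^ 256 * al = A at *
  generalize β * (5 * 10 ^ 12 * (12000 * g) * Γ / cI * (4 * g + 12)) = B at *
  linarith

lemma N2 : 9 * (g + 1) * (16 * (β * (5 * 10 ^ 12 * (12000 * g) * Γ / cI * (4 * g + 12)))) +
    β * (Γ / cI) + 36 * (β * (81 * Γ ^ 2 * 200 ^ 2)) ≤ al * cI / Γ / 2 := by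
  have a1 := h.gR; have a2 := h.G_pos c40; have a4 := h.b0
  have a5 := cI_pos; have a8 := h.GR c40; have a9 := cI_le
  have b0 := h.CB_le c40
  have b1 := h.base_term c40 (K := 10 ^ 21) (by norm_num) one_pos le_rfl
  rw [mul_one, mul_one] at b1
  generalize al * cI / Γ = X at *
  generalize β * (5 * 10 ^ 12 * (12000 * g) * Γ / cI * (4 * g + 12)) = B at *
  have l0 : (0 : ℝ) ≤ 9 * (g + 1) := by linarith
  have d3 : (1 : ℝ) ≤ 9 * (g + 1) := by linarith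
  have c1 : 9 * (g + 1) * B ≤ 10 ^ 18 * (9 * (g + 1) * β * Γ ^ 3 / cI) :=
    (mul_le_mul_of_nonneg_left b0 l0).trans (le_of_eq (by ring))
  have c4 : β * (Γ / cI) ≤ 9 * (g + 1) * β * Γ ^ 3 / cI := by
    have d1 : (Γ : ℝ) ≤ Γ ^ 3 := le_self_pow₀ (by linarith) (by norm_num)
    calc β * (Γ / cI) = 1 * β * Γ / cI := by ring
      _ ≤ _ := by gcongr
  have c5 : β * Γ ^ 2 ≤ 9 * (g + 1) * β * Γ ^ 3 / cI := by
    have d1 : (Γ : ℝ) ^ 2 ≤ Γ ^ 3 := pow_le_pow_right₀ (by linarith) (by norm_num)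
    have d2 : cI ≤ 1 := by linarith
    calc β * Γ ^ 2 = 1 * β * Γ ^ 2 / 1 := by ring
      _ ≤ _ := by gcongr
  have p1 : 0 ≤ 9 * (g + 1) * β * Γ ^ 3 / cI := by positivity
  linarith

lemma N3 : (9 * (g + 1) * (2 * 25600 * 64 * 16 * g ^ 2) + 36 * 720000) *
    (200 * g * kap g ^ 256) ≤ (Λ : ℝ) / 2 := by
  have a1 := h.gR
  have a5 := h.lev
  have a6 : 0 < kap g ^ 256 := pow_pos (zero_lt_one.trans_le (one_le_kap g)) _
  generalize kap g ^ 256 = X at *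
  have d3 : (1 : ℝ) ≤ 9 * (g + 1) * g ^ 2 := by nlinarith
  have p : 0 < (g : ℝ) * X := by positivity
  have d4 : (g : ℝ) * X ≤ 9 * (g + 1) * g ^ 2 * (g * X) := le_mul_of_one_le_left p.le d3
  have e1 : (10 : ℝ) ^ 40 * (9 * (g + 1)) * g ^ 3 * X = 10 ^ 40 * (9 * (g + 1) * g ^ 2 * (g * X)) := by
    ring
  have e2 : (9 * (g + 1) * (2 * 25600 * 64 * 16 * g ^ 2) + 36 * 720000) * (200 * g * X) =
      2 * 25600 * 64 * 16 * 200 * (9 * (g + 1) * g ^ 2 * (g * X)) + 36 * 720000 * 200 * (g * X) := by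
    ring
  rw [e1] at a5
  rw [e2]
  linarith

lemma N4 : 1000 * g * (2 * (kap g ^ 256 * al)) + al ≤ 1 / g := by
  have := h.small c40 (x := 1) le_rfl le_rfl
  rwa [mul_one] at this

lemma N5 : cI / (100 * (40000 * g) * Γ) ≤ 1 / 2 := h.pp_le c40

lemma nat : 2 ≤ g ∧ 10000 ≤ Λ ∧ 200 * g * Λ ≤ Γ := by
  have h1 := h.g_big c40
  have h2 := h.L_num c40
  have h3 := h.G_big c40
  refine ⟨by omega, by omega, ?_⟩
  rw [mul_assoc]
  omega

end

end Par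

end Pool.Agent.Lib.MP_9cc147_pr.AllU.E
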