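import Pool.Agent.Lib.MP_9cc147_pr.U.EDefs

/-! Exceptional phase: the induction over colours and levels. -/

open Finset

namespace Pool.Agent.Lib.MP_9cc147_pr.AllU.E.Top

variable {n : ℕ}

lemma invC_zero {P : Pm} {J j : ℕ} {σ : St n} (hP : P.Ok) (h : Core P J j σ)
    (h0 : ∀ x y, σ.c j x y = 0) : InvC P J j 0 σ := by
  refine ⟨h, fun O O2 _ => ?_, fun p _ _ hc => absurd hc (Nat.not_lt_zero _)⟩
  have h1 : ∑ x ∈ O, σ.aa P j x = 0 := by simp [St.aa, h0]
  rw [h1]
  have h2 : 0 ≤ ∑ y ∈ O2, σ.μ y := sum_nonneg fun y _ => h.m0 y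
  have h3 := hP.al0.le
  simp only [pow_zero, one_mul]
  positivity

lemma core_succ {P : Pm} {J j : ℕ} {σ : St n} (h : InvC P J j 256 σ) : Core P J (j + 1) σ := by
  refine ⟨h.core.m0, h.core.mass, h.core.base, h.core.c0,
    fun i hi => h.core.zero i (by omega), fun i h1 h2 x y hc => ?_, fun i h1 h2 => ?_,
    fun i hi p hp ha => ?_⟩
  · by_cases hij : i ≤ j
    · exact h.core.Si i h1 hij x y hc
    · exact absurd (h.core.zero i (by omega) x y) hc
  · by_cases hij : i < j
    · exact h.core.Ri i h1 hij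
    · obtain rfl : i = j := by omega
      exact fun O O2 hO => h.rel O O2 fun x hx y hy => hO x hx y (by omega)
  · by_cases hij : i < j
    · exact h.core.cert i hij p hp ha
    · obtain rfl : i = j := by omega
      exact h.cert p hp ha (col_lt _ _)

lemma ct_succ {P : Pm} {J j : ℕ} {σ : St n} (h : Core P J j σ) : σ.ct (j + 1) = σ.ct j := by
  funext x y
  unfold St.ct
  rw [sum_Icc_succ_top (by omega), h.zero (j + 1) (by omega), add_zero]

/-- one level -/
lemma level (hS : SlotSt) (hC : ColSt) {P : Pm} {J j : ℕ} {lam : ℝ} (hP : P.Ok) (hj : 1 ≤ j)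
    (hn : 4 * P.G ^ J ≤ n)
    (h : ∀ σ : St n, Core P J (j + 1) σ → (∀ x y, σ.c (j + 1) x y = 0) → Val P J (j + 1) lam σ)
    (σ : St n) (hσ : Core P J j σ) (h0 : ∀ x y, σ.c j x y = 0) : Val P J j lam σ := by
  have key : ∀ d ≤ 256, ∀ σ : St n, InvC P J j (256 - d) σ → Val P J j lam σ := by
    intro d
    induction d with
    | zero =>
      intro _ σ hσ
      have h1 := h σ (core_succ hσ) (hσ.core.zero (j + 1) (by omega))
      unfold Val at h1 ⊢
      rwa [ct_succ hσ.core] at h1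
    | succ d ih =>
      intro hd
      refine hC P n J j _ (Val P J j lam) hP hj hn (by omega)
        (fun σ z p0 hs hv => hS P n J j lam σ z p0 hP hs hv) fun σ hσ => ih (by omega) σ ?_
      rwa [show 256 - (d + 1) + 1 = 256 - d by omega] at hσ
  exact key 256 le_rfl σ (invC_zero hP hσ h0)

lemma levels (hS : SlotSt) (hC : ColSt) (hL : LastSt) {P : Pm} {J : ℕ} {lam : ℝ} (hP : P.Ok)
    (hn : 4 * P.G ^ J ≤ n) (hl : |lam| ≤ 1) : ∀ d j, 1 ≤ j → j + d = J → ∀ σ : St n,
      Core P J j σ → (∀ x y, σ.c j x y = 0) → Val P J j lam σ := by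
  intro d
  induction d with
  | zero =>
    rintro j hj rfl σ hσ h0
    exact hL P n j lam σ hP hj hn hl hσ h0
  | succ d ih =>
    intro j hj hJ
    exact level hS hC hP hj hn (ih (j + 1) (by omega) (by omega))

/-- the section from its three steps -/
theorem top (hS : SlotSt) (hC : ColSt) (hL : LastSt) : EStmt := by
  obtain ⟨g, L, G, be, al, hP⟩ := par_ex (10 ^ 40) (by norm_num)
  have hg : (1 : ℝ) ≤ g := hP.gR
  have hG : 10 ^ 30 ≤ G := hP.G_num (by norm_num)
  refine ⟨G, 1 / (40000 * g), be, le_trans (by norm_num) hG, by positivity, hP.b0,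
    fun n J lam ρ c hJ hn hl hB => ?_⟩
  let P : Pm := ⟨g, L, G, be, al⟩
  let σ : St n := ⟨ρ, fun x => 40000 * g * (ρ x : ℝ), c, fun _ _ _ => 0⟩
  have hc : Core P J 1 σ := by
    refine ⟨fun x => by positivity, fun p => le_rfl, hB, fun _ _ _ => le_rfl, fun _ _ _ _ => rfl,
      fun i _ _ x y h => absurd rfl h, fun i h1 h2 => by omega, fun i hi p hp _ => ?_⟩
    obtain rfl : i = 0 := by omega
    exact Or.inr ⟨p, hp, by simp⟩
  have h := levels hS hC hL (P := P) hP hn hl (J - 1) 1 le_rfl (by omega) σ hc fun _ _ => rfl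
  have e1 : σ.ct 1 = c := by
    funext x y
    simp [St.ct, σ]
  have e2 : (∑ x, σ.μ x) / (G : ℝ) ^ J = (∑ z, ρ z : ℕ) / (1 / (40000 * g) * (G : ℝ) ^ J) := by
    have hG0 : (0 : ℝ) < G := by exact_mod_cast lt_of_lt_of_le (by norm_num) hG
    simp only [σ]
    rw [← mul_sum]
    push_cast
    field_simp
  unfold Val at h
  rw [e1] at h
  rw [← e2]
  exact h

end Pool.Agent.Lib.MP_9cc147_pr.AllU.E.Top
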