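import Pool.Agent.Lib.MP_9cc147_pr.U.FKit

/-! Assembly, part 4: the weights of a continuous potential at a large scale. -/

open Finset Filter
open scoped ENNReal Topology

namespace Pool.Agent.Lib.MP_9cc147_pr.AllU.F

lemma fin_le {A : ℕ} (hA : 1 ≤ A) {c : ℝ} (hc : 0 ≤ c) {f : ℤ → ℝ} (h0 : ∀ k, 0 ≤ f k)
    (hf : ∀ k, f k ≤ c / (max |(k : ℝ)| A) ^ 2) (T : Finset ℤ) : ∑ k ∈ T, f k ≤ 12 * c / A := by
  have := (ENNReal.sum_le_tsum T).trans (Kit.tail_int hA hc hf)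
  rwa [← ENNReal.ofReal_sum_of_nonneg fun k _ => h0 k,
    ENNReal.ofReal_le_ofReal_iff (by positivity)] at this

lemma tail_le {A : ℕ} (hA : 1 ≤ A) {c : ℝ} (hc : 0 ≤ c) {f : ℤ → ℝ} (h0 : ∀ k, 0 ≤ f k)
    (hf : ∀ k : ℤ, k ≠ 0 → f k ≤ c / (k : ℝ) ^ 2) (T : Finset ℤ) :
    ∑ k ∈ T, (if (A : ℤ) < |k| then f k else 0) ≤ 12 * c / A := by
  refine fin_le hA hc (fun k => by split_ifs; exacts [h0 k, le_rfl]) (fun k => ?_) T
  split_ifs with h
  · have a : (A : ℝ) ≤ |(k : ℝ)| := by exact_mod_cast h.le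
    rw [max_eq_left a, sq_abs]
    exact hf k (by rintro rfl; simp at h; omega)
  · positivity

/-- Gaussian kernel -/
noncomputable def gk (β : ℝ) (j : ℤ) : ℝ := Real.exp (-(β * (j : ℝ) ^ 2) / 2)

lemma gk_pos (β : ℝ) (j : ℤ) : 0 < gk β j := Real.exp_pos _

lemma gk_le {β : ℝ} (hβ : 0 < β) (j : ℤ) (hj : j ≠ 0) : gk β j ≤ 2 / β / (j : ℝ) ^ 2 := by
  have a : (0 : ℝ) < (j : ℝ) ^ 2 := by positivity
  unfold gk
  rw [neg_div, Real.exp_neg, inv_eq_one_div, div_div, div_le_div_iff₀ (Real.exp_pos _)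
    (by positivity)]
  linarith [Real.add_one_le_exp (β * (j : ℝ) ^ 2 / 2)]

lemma gk_sum {β : ℝ} (hβ : 0 < β) : Summable (gk β) := by
  refine summable_of_sum_le (fun j => (gk_pos β j).le) (c := 12 * (1 + 2 / β) / (1 : ℕ)) fun T =>
    fin_le le_rfl (by positivity) (fun j => (gk_pos β j).le) (fun j => ?_) T
  have b : 0 < 2 / β := by positivity
  rcases eq_or_ne j 0 with rfl | h
  · simp only [gk, Int.cast_zero, abs_zero, Nat.cast_one]
    norm_num
    positivity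
  · have a : (1 : ℝ) ≤ |(j : ℝ)| := by exact_mod_cast Int.one_le_abs h
    rw [Nat.cast_one, max_eq_left a, sq_abs]
    exact (gk_le hβ j h).trans (by gcongr; linarith)

lemma sum_shift (F : ℤ → ℝ) (k : ℤ) (T : Finset ℤ) :
    ∑ c ∈ T, F (k - c) = ∑ j ∈ T.map (Equiv.subLeft k).toEmbedding, F j := by
  rw [sum_map]; rfl

/-- smoothing of the weight by a Gaussian kernel -/
noncomputable def sm (w : ℤ → ℝ) (N : ℕ) (β ε : ℝ) (k : ℤ) : ℝ :=
  ∑ c ∈ Icc (-(2 * N : ℤ)) (2 * N), (1 - ε / 2) * w c / (∑' j, gk β j) * gk β (k - c)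

lemma smooth {w : ℤ → ℝ} {N R : ℕ} {β ε w1 : ℝ} (hw : ∀ k, 0 < w k ∧ w k ≤ 1) (hβ : 0 < β)
    (e0 : 0 < ε) (e1 : ε ≤ 1) (hR : 1 ≤ R) (hRN : R ≤ N) (h1 : 12 * (2 / β) / R ≤ ε / 4 * w1)
    (hl : ∀ k : ℤ, |k| ≤ 4 * N → w1 ≤ w k)
    (hu : ∀ k c : ℤ, |k| ≤ 5 * N → |c| ≤ 5 * N → |k - c| ≤ R → (1 - ε / 8) * w c ≤ w k) :
    (∀ k, 0 < sm w N β ε k) ∧ (∀ k : ℤ, |k| ≤ 4 * N → sm w N β ε k < w k) ∧
      (∀ k : ℤ, |k| ≤ N → (1 - ε) * w k ≤ sm w N β ε k) ∧
      ∀ k : ℤ, 4 * (N : ℤ) < |k| → sm w N β ε k ≤ Real.exp (-(β * (k : ℝ) ^ 2) / 8) := by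
  have g0 := gk_pos β
  have gs := gk_sum hβ
  have z1 : ∀ T : Finset ℤ, ∑ j ∈ T, gk β j ≤ ∑' j, gk β j := fun T =>
    gs.sum_le_tsum T fun j _ => (g0 j).le
  have z2 : 1 ≤ ∑' j, gk β j := by simpa [gk] using z1 {0}
  have z3 := fun T => (tail_le hR (by positivity) (fun j => (g0 j).le) (gk_le hβ) T).trans h1
  have z4 : ∑' j, gk β j ≤ ∑ j ∈ Icc (-(R : ℤ)) R, gk β j + ε / 4 * w1 := by
    refine gs.tsum_le_of_sum_le fun T => ?_
    rw [← sum_filter_add_sum_filter_not T fun j => |j| ≤ (R : ℤ)]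
    refine add_le_add (sum_le_sum_of_subset_of_nonneg (fun j hj => ?_) fun j _ _ => (g0 j).le) ?_
    · exact mem_Icc.2 (abs_le.1 (mem_filter.1 hj).2)
    · simp only [not_le]
      rw [sum_filter]; exact z3 T
  have w11 : w1 ≤ 1 := (hl 0 (by simp)).trans (hw 0).2
  have es : ∀ k, sm w N β ε k = (1 - ε / 2) / (∑' j, gk β j) *
      ∑ c ∈ Icc (-(2 * N : ℤ)) (2 * N), w c * gk β (k - c) := by
    intro k
    unfold sm
    rw [mul_sum]
    exact sum_congr rfl fun c _ => by ring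
  generalize ∑' j, gk β j = Z at *
  have Z0 : 0 < Z := by linarith
  have f0 : 0 < 1 - ε / 2 := by linarith
  refine ⟨fun k => ?_, fun k hk => ?_, fun k hk => ?_, fun k hk => ?_⟩ <;> rw [es]
  · exact mul_pos (by positivity) (sum_pos (fun c _ => mul_pos (hw c).1 (g0 _)) ⟨0, by simp⟩)
  · have a1 : ∀ c ∈ Icc (-(2 * N : ℤ)) (2 * N), w c * gk β (k - c) ≤
        (1 + ε / 4) * w k * gk β (k - c) + if (R : ℤ) < |k - c| then gk β (k - c) else 0 := by
      intro c hc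
      have b0 := g0 (k - c)
      have b1 := (hw k).1
      split_ifs with h
      · have : 0 ≤ (1 + ε / 4) * w k * gk β (k - c) := by positivity
        nlinarith [(hw c).2]
      · have b2 := hu k c (by omega) (abs_le.2 (by rw [mem_Icc] at hc; omega)) (not_lt.1 h)
        have b3 : w c ≤ (1 + ε / 4) * w k := by
          have : 1 ≤ (1 + ε / 4) * (1 - ε / 8) := by nlinarith
          nlinarith [(hw c).1, mul_le_mul_of_nonneg_left b2 (by positivity : 0 ≤ 1 + ε / 4)]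
        rw [add_zero]
        exact mul_le_mul_of_nonneg_right b3 b0.le
    have a2 := sum_le_sum a1
    rw [sum_add_distrib, ← mul_sum, sum_shift (gk β),
      sum_shift fun j => if (R : ℤ) < |j| then gk β j else 0] at a2
    have b1 := (hw k).1
    have a3 := a2.trans (add_le_add (mul_le_mul_of_nonneg_left (z1 _) (by positivity)) (z3 _))
    have a4 : ε / 4 * w1 ≤ ε / 4 * w k * Z := by
      rw [mul_assoc]
      exact mul_le_mul_of_nonneg_left ((hl k hk).trans (le_mul_of_one_le_right b1.le z2))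
        (by positivity)
    rw [div_mul_eq_mul_div, div_lt_iff₀ Z0]
    have a5 := mul_le_mul_of_nonneg_left (a3.trans (add_le_add_right a4 _)) f0.le
    have a6 : 0 < ε ^ 2 * (w k * Z) := by positivity
    nlinarith
  · have b1 := (hw k).1
    have a1 : ∀ c ∈ Icc (-(2 * N : ℤ)) (2 * N), (1 - ε / 8) * w k *
        (if |k - c| ≤ (R : ℤ) then gk β (k - c) else 0) ≤ w c * gk β (k - c) := by
      intro c hc
      split_ifs with h
      · exact mul_le_mul_of_nonneg_right (hu c k (abs_le.2 (by rw [mem_Icc] at hc; omega))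
          (by omega) (by rwa [abs_sub_comm])) (g0 _).le
      · rw [mul_zero]; exact (mul_pos (hw c).1 (g0 _)).le
    have a2 := sum_le_sum a1
    rw [← mul_sum, sum_shift fun j => if |j| ≤ (R : ℤ) then gk β j else 0, ← sum_filter] at a2
    have a3 : ∑ j ∈ Icc (-(R : ℤ)) R, gk β j ≤ ∑ j ∈ ((Icc (-(2 * N : ℤ)) (2 * N)).map
        (Equiv.subLeft k).toEmbedding).filter fun j => |j| ≤ (R : ℤ), gk β j := by
      refine sum_le_sum_of_subset_of_nonneg (fun j hj => ?_) fun j _ _ => (g0 j).le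
      rw [mem_Icc] at hj
      rw [abs_le] at hk
      refine mem_filter.2 ⟨mem_map.2 ⟨k - j, mem_Icc.2 (by omega), by simp⟩, abs_le.2 hj⟩
    have a4 : (1 - ε / 4) * Z ≤ ∑ j ∈ Icc (-(R : ℤ)) R, gk β j := by
      have : ε / 4 * w1 ≤ ε / 4 * Z := mul_le_mul_of_nonneg_left (w11.trans z2) (by positivity)
      linarith
    have a5 := (mul_le_mul_of_nonneg_left (a4.trans a3)
      (mul_nonneg (by linarith : 0 ≤ 1 - ε / 8) b1.le)).trans a2
    rw [div_mul_eq_mul_div, le_div_iff₀ Z0]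
    refine le_trans ?_ (mul_le_mul_of_nonneg_left a5 f0.le)
    have a6 : 1 - ε ≤ (1 - ε / 2) * ((1 - ε / 8) * (1 - ε / 4)) := by
      have : 1 - ε / 2 ≤ (1 - ε / 8) * (1 - ε / 4) := by nlinarith
      nlinarith
    nlinarith [mul_le_mul_of_nonneg_right a6 (mul_pos b1 Z0).le]
  · obtain ⟨σ, hσ⟩ : ∃ σ : ℤ, ∀ c ∈ Icc (-(2 * N : ℤ)) (2 * N),
        k ^ 2 + 4 * (σ - c) ^ 2 ≤ 4 * (k - c) ^ 2 := by
      rcases lt_abs.1 hk with h | h
      · refine ⟨2 * N, fun c hc => ?_⟩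
        rw [mem_Icc] at hc
        nlinarith [mul_nonneg (by omega : 0 ≤ k - 2 * N) (by omega : 0 ≤ 2 * N - c),
          mul_nonneg (by omega : 0 ≤ k - 4 * N) (by omega : 0 ≤ 3 * k - 4 * N)]
      · refine ⟨-(2 * N), fun c hc => ?_⟩
        rw [mem_Icc] at hc
        nlinarith [mul_nonneg (by omega : 0 ≤ -k - 2 * N) (by omega : 0 ≤ 2 * N + c),
          mul_nonneg (by omega : 0 ≤ -k - 4 * N) (by omega : 0 ≤ -3 * k - 4 * N)]
    have a1 : ∀ c ∈ Icc (-(2 * N : ℤ)) (2 * N), w c * gk β (k - c) ≤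
        Real.exp (-(β * (k : ℝ) ^ 2) / 8) * gk β (σ - c) := by
      intro c hc
      refine (mul_le_of_le_one_left (g0 _).le (hw c).2).trans ?_
      have b : (k : ℝ) ^ 2 + 4 * ((σ - c : ℤ) : ℝ) ^ 2 ≤ 4 * ((k - c : ℤ) : ℝ) ^ 2 := by
        exact_mod_cast hσ c hc
      unfold gk
      rw [← Real.exp_add, Real.exp_le_exp]
      nlinarith [mul_le_mul_of_nonneg_left b hβ.le]
    have a2 := sum_le_sum a1
    rw [← mul_sum, sum_shift (gk β)] at a2
    have a3 := a2.trans (mul_le_mul_of_nonneg_left (z1 _) (Real.exp_pos _).le)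
    rw [div_mul_eq_mul_div, div_le_iff₀ Z0]
    refine (mul_le_mul_of_nonneg_left a3 f0.le).trans (mul_le_of_le_one_left (by positivity) ?_)
    linarith

lemma bnd {U : ℝ → ℝ} (hc : Continuous U) (a : ℝ) : ∃ B, ∀ x, |x| ≤ a → U x ≤ B := by
  obtain ⟨B, hB⟩ := (isCompact_Icc (a := -a) (b := a)).exists_bound_of_continuousOn hc.continuousOn
  exact ⟨B, fun x hx => (le_abs_self _).trans (hB x (abs_le.1 hx))⟩

theorem ana {U : ℝ → ℝ} {α : ℝ} (hc : Continuous U) (he : ∀ x, U (-x) = U x) (hα : 0 < α)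
    (ht : Tendsto (fun x => U x / x ^ α) atTop atTop) (h0 : ∀ x, 0 ≤ U x) :
    ∃ C0 : ℝ, ∀ (Y : ℕ) (β e ε η : ℝ), 1 ≤ Y → 0 < β → 0 < e → e ≤ 1 / 2 → 0 < ε → ε ≤ 1 → 0 < η →
      ∃ M₀ : ℝ, 0 < M₀ ∧ ∀ M : ℝ, M₀ < M → ∀ w : ℤ → ℝ, (∀ k, w k = Real.exp (-U (k / M))) →
      ∃ (w0 : ℤ → ℝ) (N : ℕ) (w1 S : ℝ), HypS w w0 N Y β e ε w1 S ∧ Summable w ∧
      (∀ T : Finset ℤ, (∀ k ∈ T, (N : ℤ) < |k|) → ∑ k ∈ T, w k ≤ η * ∑' k, w k) ∧
      ∃ T : Finset ℤ, Real.exp (-C0) * (∑' k, w k) ^ 3 ≤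
        ∑ a ∈ T, ∑ b ∈ T, ∑ c ∈ T, w a * w b * w c * w (a + b + c) := by
  obtain ⟨C, hC, hg⟩ := Kit.grow_real hc hα ht
  obtain ⟨B3, hB3⟩ := bnd hc 3
  refine ⟨4 * B3 + 3 * (24 * C), fun Y β e ε η hY hβ e0 e1 ε0 ε1 hη => ?_⟩
  obtain ⟨K, hK⟩ := exists_nat_ge (1 + 12 * C / (η * Real.exp (-B3)))
  have p0 : 0 < 12 * C / (η * Real.exp (-B3)) := by positivity
  have K1 : (1 : ℝ) ≤ K := by linarith
  obtain ⟨B, hB⟩ := bnd hc (10 ^ 6 * (K + 1))
  set w1 := Real.exp (-B) with hw1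
  have w10 : 0 < w1 := Real.exp_pos _
  obtain ⟨R, hR⟩ := exists_nat_ge (1 + 12 * (2 / β) / (ε / 4 * w1))
  have p1 : 0 < 12 * (2 / β) / (ε / 4 * w1) := by positivity
  have R1 : (1 : ℝ) ≤ R := by linarith
  obtain ⟨r, hr, hu⟩ := Metric.uniformContinuousOn_iff.1
    ((isCompact_Icc (a := -(5 * ((K : ℝ) + 1))) (b := 5 * (K + 1))).uniformContinuousOn_of_continuous
      hc.continuousOn) (ε / 8) (by positivity)
  set D := (2 * (24 * C + 24) / w1) ^ 4 with hD
  set c := e * ((β / 1800) ^ 3 / 6) with hcc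
  have c0 : 0 < c := by positivity
  have p2 : 0 < 40000 * ((Y : ℝ) + 20) / β := by positivity
  have p3 : 0 < R / r := by positivity
  have p4 : 0 ≤ D / c := by positivity
  refine ⟨R + 40000 * ((Y : ℝ) + 20) / β + R / r + D / c, by linarith, fun M hM w hw => ?_⟩
  have M1 : 1 ≤ M := by linarith
  have M0 : 0 < M := by linarith
  have N1 : (K : ℝ) * M ≤ ⌈K * M⌉₊ := Nat.le_ceil _
  have N2 : (⌈(K : ℝ) * M⌉₊ : ℝ) ≤ (K + 1) * M := by
    have := Nat.ceil_lt_add_one (a := (K : ℝ) * M) (by positivity)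
    linarith
  generalize ⌈(K : ℝ) * M⌉₊ = N at N1 N2
  have N3 : M ≤ N := (le_mul_of_one_le_left M0.le K1).trans N1
  have N4 : 1 ≤ N := by exact_mod_cast M1.trans N3
  have A1 := Nat.floor_le M0.le
  have A2 := Nat.lt_floor_add_one M
  have A3 : 1 ≤ ⌊M⌋₊ := Nat.le_floor (by simpa using M1)
  generalize ⌊M⌋₊ = A at A1 A2 A3
  have A4 : (1 : ℝ) ≤ A := by exact_mod_cast A3
  have wp : ∀ k, 0 < w k ∧ w k ≤ 1 := fun k => by
    rw [hw]; exact ⟨Real.exp_pos _, Real.exp_le_one_iff.2 (by linarith [h0 (k / M)])⟩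
  have wb : ∀ k : ℤ, w k ≤ C * M ^ 2 / (M + |(k : ℝ)|) ^ 2 := by
    intro k
    have e : U (k / M) = U (|(k : ℝ)| / M) := by
      rcases abs_cases (k : ℝ) with h | h <;> rw [h.1]
      rw [neg_div, he]
    rw [hw, e]
    refine (hg _ (by positivity)).trans (le_of_eq ?_)
    field_simp
  have lo : ∀ (a b : ℝ), (∀ x, |x| ≤ a → U x ≤ b) → ∀ k : ℤ, |(k : ℝ)| ≤ a * M →
      Real.exp (-b) ≤ w k := fun a b h k hk => by
    rw [hw, Real.exp_le_exp, neg_le_neg_iff]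
    exact h _ (by rwa [abs_div, abs_of_pos M0, div_le_iff₀ M0])
  have s1 : ∀ T : Finset ℤ, ∑ k ∈ T, w k ≤ 24 * C * M := by
    intro T
    refine (fin_le A3 (c := C * M ^ 2) (by positivity) (fun k => (wp k).1.le)
      (fun k => (wb k).trans ?_) T).trans ?_
    · have := abs_nonneg (k : ℝ)
      gcongr
      exact max_le (by linarith) (by linarith)
    · rw [div_le_iff₀ (by positivity)]
      linarith only [mul_le_mul_of_nonneg_left (by linarith only [A2, A4] : M ≤ 2 * A)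
        (mul_pos hC M0).le]
  have s2 : Summable w := summable_of_sum_le (fun k => (wp k).1.le) s1
  have s3 : ∑' k, w k ≤ 24 * C * M := s2.tsum_le_of_sum_le s1
  have cA : M ≤ (Icc (-(A : ℤ)) A).card := by
    have : (Icc (-(A : ℤ)) A).card = 2 * A + 1 := by simp; omega
    rw [this]; push_cast; linarith
  have mA : ∀ k ∈ Icc (-(A : ℤ)) A, |(k : ℝ)| ≤ M := fun k hk => by
    have : |(k : ℝ)| ≤ A := by exact_mod_cast abs_le.2 (mem_Icc.1 hk)
    linarith
  have s4 : Real.exp (-B3) * M ≤ ∑' k, w k := by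
    refine le_trans ?_ (s2.sum_le_tsum (Icc (-(A : ℤ)) A) fun k _ => (wp k).1.le)
    refine le_trans ?_ (sum_le_sum fun k hk => lo 3 B3 hB3 k (by linarith [mA k hk]))
    rw [sum_const, nsmul_eq_mul, mul_comm]
    gcongr
  have low : ∀ k : ℤ, |k| ≤ 10 ^ 6 * N → w1 ≤ w k := fun k hk => lo _ B hB k (by
    have : |(k : ℝ)| ≤ 10 ^ 6 * N := by exact_mod_cast hk
    linarith only [this, N2])
  obtain ⟨m1, m2, m3, m4⟩ := smooth (N := N) (R := R) (w1 := w1) wp hβ ε0 ε1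
    (by exact_mod_cast R1) (by exact_mod_cast (by linarith : (R : ℝ) ≤ N))
    (by
      rw [div_le_iff₀' (by linarith)]
      have : 12 * (2 / β) / (ε / 4 * w1) ≤ R := by linarith
      rwa [div_le_iff₀ (by positivity)] at this)
    (fun k hk => low k (by omega)) fun k c hk hc' hkc => by
      have mem : ∀ j : ℤ, |j| ≤ 5 * N → (j : ℝ) / M ∈ Set.Icc (-(5 * ((K : ℝ) + 1))) (5 * (K + 1)) := by
        intro j hj
        have : |(j : ℝ)| ≤ 5 * N := by exact_mod_cast hj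
        refine abs_le.1 ?_
        rw [abs_div, abs_of_pos M0, div_le_iff₀ M0]
        linarith
      have b1 : |(k : ℝ) - c| ≤ R := by exact_mod_cast hkc
      have b2 := hu _ (mem k hk) _ (mem c hc') (by
        rw [Real.dist_eq, ← sub_div, abs_div, abs_of_pos M0, div_lt_iff₀ M0]
        have : R / r < M := by linarith
        rw [div_lt_iff₀' hr] at this
        linarith)
      rw [Real.dist_eq] at b2
      rw [hw, hw]
      refine (mul_le_mul_of_nonneg_right (Real.one_sub_le_exp_neg _) (Real.exp_pos _).le).trans ?_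
      rw [← Real.exp_add, Real.exp_le_exp]
      linarith [(abs_lt.1 b2).2]
  have Y0 : (0 : ℝ) ≤ Y := Nat.cast_nonneg Y
  have bM : 40000 * ((Y : ℝ) + 20) ≤ β * N := by
    have : 40000 * ((Y : ℝ) + 20) / β ≤ N := by linarith
    rwa [div_le_iff₀' hβ] at this
  have N5 : (1 : ℝ) ≤ N := M1.trans N3
  refine ⟨sm w N β ε, N, w1, (24 * C + 24) * M, ⟨wp, ⟨Icc (-(2 * N : ℤ)) (2 * N),
    fun c => (1 - ε / 2) * w c / ∑' j, gk β j, fun c => div_nonneg (mul_nonneg (by linarith)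
      (wp c).1.le) (tsum_nonneg fun j => (gk_pos β j).le), fun k => by simp [sm, gk]⟩, m1, m2, m3,
    m4, low, w10, fun T => ?_, hβ, e0, e1, ε0.le, hY, by linarith, ?_, ?_⟩, s2, fun T hT => ?_,
    Icc (-(A : ℤ)) A, ?_⟩
  · have a1 := fin_le (A := 1) le_rfl (c := 2) (by norm_num) (f := fun k => Real.exp (-|(k : ℝ)|))
      (fun k => (Real.exp_pos _).le) (fun k => by
        have x0 := abs_nonneg (k : ℝ)
        generalize |(k : ℝ)| = x at *
        have := Real.quadratic_le_exp_of_nonneg x0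
        rw [Real.exp_neg, inv_eq_one_div, div_le_div_iff₀ (Real.exp_pos _) (by positivity),
          Nat.cast_one]
        rcases le_total x 1 with h | h
        · rw [max_eq_right h]; linarith only [this, x0, sq_nonneg x]
        · rw [max_eq_left h]; linarith only [this, x0]) T
    rw [sum_add_distrib]
    norm_num at a1
    linarith only [s1 T, a1, M1]
  · refine bM.trans (mul_le_mul_of_nonneg_left ?_ hβ.le)
    nlinarith only [N5]
  · have a2 := Real.pow_div_factorial_le_exp (β * M ^ 2 / 1800) (by positivity) 3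
    have a3 : Real.exp (β * M ^ 2 / 1800) ≤ Real.exp (β * N ^ 2 / 1800) := by gcongr
    have a4 : D ≤ c * M ^ 2 := by
      have : D / c ≤ M ^ 2 := (by linarith : D / c ≤ M).trans (by nlinarith only [M1])
      rwa [div_le_iff₀' c0] at this
    calc _ = D * M ^ 4 := by rw [hD]; ring
      _ ≤ c * M ^ 2 * M ^ 4 := by gcongr
      _ = e * ((β * M ^ 2 / 1800) ^ 3 / (Nat.factorial 3 : ℕ)) := by
        rw [hcc]; norm_num [Nat.factorial]; ring
      _ ≤ _ := mul_le_mul_of_nonneg_left (a2.trans a3) e0.le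
  · have a1 := tail_le N4 (c := C * M ^ 2) (by positivity) (fun k => (wp k).1.le)
      (fun k hk => (wb k).trans (by
        have : 0 < |(k : ℝ)| := abs_pos.2 (by exact_mod_cast hk)
        rw [← sq_abs (k : ℝ)]
        gcongr
        linarith)) T
    rw [sum_congr rfl fun k hk => if_pos (hT k hk)] at a1
    refine a1.trans (le_trans ?_ (mul_le_mul_of_nonneg_left s4 hη.le))
    have a2 : 12 * C / (η * Real.exp (-B3)) ≤ K := by linarith
    rw [div_le_iff₀ (by positivity)] at a2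
    rw [div_le_iff₀ (by linarith)]
    calc 12 * (C * M ^ 2) = 12 * C * M ^ 2 := by ring
      _ ≤ K * (η * Real.exp (-B3)) * M ^ 2 := by gcongr
      _ = η * (Real.exp (-B3) * M) * (K * M) := by ring
      _ ≤ _ := by gcongr
  · have a1 : ∀ a ∈ Icc (-(A : ℤ)) A, ∀ b ∈ Icc (-(A : ℤ)) A, ∀ c ∈ Icc (-(A : ℤ)) A,
        Real.exp (-B3) ^ 4 ≤ w a * w b * w c * w (a + b + c) := by
      intro a ha b hb c hc
      have b1 := mA a ha
      have b2 := mA b hb
      have b3 := mA c hc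
      have b4 : |((a + b + c : ℤ) : ℝ)| ≤ 3 * M := by
        push_cast
        linarith [abs_add_three (a : ℝ) b c]
      have := (wp a).1
      have := (wp b).1
      have := (wp c).1
      calc _ = Real.exp (-B3) * Real.exp (-B3) * Real.exp (-B3) * Real.exp (-B3) := by ring
        _ ≤ _ := by
          gcongr
          exacts [lo 3 B3 hB3 a (by linarith), lo 3 B3 hB3 b (by linarith),
            lo 3 B3 hB3 c (by linarith), lo 3 B3 hB3 _ b4]
    refine le_trans ?_ (sum_le_sum fun a ha => sum_le_sum fun b hb => sum_le_sum (a1 a ha b hb))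
    simp only [sum_const, nsmul_eq_mul]
    have a2 : Real.exp (-(24 * C)) * ∑' k, w k ≤ (Icc (-(A : ℤ)) A).card := by
      refine (mul_le_mul_of_nonneg_left s3 (Real.exp_pos _).le).trans (le_trans ?_ cA)
      rw [← mul_assoc]
      refine mul_le_of_le_one_left M0.le ?_
      rw [Real.exp_neg, inv_mul_le_iff₀ (Real.exp_pos _)]
      linarith [Real.add_one_le_exp (24 * C)]
    have a3 := pow_le_pow_left₀ (mul_nonneg (Real.exp_pos _).le
      (tsum_nonneg fun k => (wp k).1.le)) a2 3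
    have a4 : Real.exp (-(4 * B3 + 3 * (24 * C))) =
        Real.exp (-B3) ^ 4 * Real.exp (-(24 * C)) ^ 3 := by
      rw [← Real.exp_nat_mul, ← Real.exp_nat_mul, ← Real.exp_add]
      congr 1; push_cast; ring
    rw [a4, mul_assoc, ← mul_pow]
    refine (mul_le_mul_of_nonneg_left a3 (by positivity)).trans (le_of_eq (by ring))

end Pool.Agent.Lib.MP_9cc147_pr.AllU.F
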