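import Pool.Agent.Lib.MP_9cc147_pr.U.Defs

/-! Assembly, part 1: from the annuli to the model with integer heights. -/

open Finset

namespace Pool.Agent.Lib.MP_9cc147_pr.AllU.F

variable {n : ℕ}

lemma Gm_mono {Λ Λ' : Set (Vx n → ℝ)} (h : Λ ⊆ Λ') (c : Vx n → Vx n → ℝ) : Gm Λ c ⊆ Gm Λ' c := by
  rintro g ⟨f, hf, rfl⟩
  exact ⟨f, h hf, rfl⟩

lemma mul_sub (hB : BasicStmt) {lam d : ℝ} {Λ Λ' : Set (Vx n → ℝ)} (h : Λ ⊆ Λ')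
    {c : Vx n → Vx n → ℝ} (hm : Mul lam (Gm Λ c) d) : Mul lam (Gm Λ' c) d :=
  (hB lam _ _).2.2.2 _ _ ((Gm_mono h c).trans AddSubgroup.subset_closure) hm

lemma LamP_anti {ρ ρ' : Vx n → ℕ} (h : ∀ z, ρ z ≤ ρ' z) : LamP ρ' ⊆ LamP ρ := by
  intro f hf z hz
  obtain ⟨k, hk⟩ := hf z (hz.trans_le (h z))
  exact ⟨k, fun x hx => hk x (hx.trans (h z))⟩

lemma cov_self (ρ : Vx n → ℕ) (s : ℕ) : Cov ρ ρ s :=
  ⟨fun z hz => ⟨z, hz, by simp⟩, fun z _ _ _ => ⟨z, by simp⟩⟩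

lemma cont_spec (ρ : Vx n → ℕ) (s : ℕ) : ∃ ρ', Cov ρ ρ' s ∧ ∑ z, ρ' z = Cont ρ s :=
  Nat.sInf_mem (s := {a | ∃ ρ', Cov ρ ρ' s ∧ ∑ z, ρ' z = a}) ⟨_, ρ, cov_self ρ s, rfl⟩

lemma cov_lam {ρ ρ' : Vx n → ℕ} {s : ℕ} (h : Cov ρ ρ' s) : LamA ρ' s ⊆ LamA ρ s := by
  rintro f ⟨h1, ⟨k, h2⟩, h3⟩
  refine ⟨fun z hz => ?_, ⟨k, h2⟩, h3⟩
  by_cases a : s < ds (vz n) z + ρ z
  · by_cases b : ds (vz n) z < 4 * s + ρ z
    · obtain ⟨z', hz'⟩ := h.2 z hz a b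
      obtain ⟨j, hj⟩ := h1 z' (by omega)
      exact ⟨j, fun x hx => hj x (by have := ds_tri z' z x; omega)⟩
    · refine ⟨0, fun x hx => ?_⟩
      have := ds_tri (vz n) x z
      have := ds_comm x z
      simpa using h3 x (by omega)
  · exact ⟨k, fun x hx => h2 x (by have := ds_tri (vz n) z x; omega)⟩

lemma cov_base {ρ ρ' : Vx n → ℕ} {s : ℕ} (h : Cov ρ ρ' s) {c : Vx n → Vx n → ℝ} {β β' : ℝ}
    (hb : Base ρ c β) (hβ : β ≤ β') : Base ρ' c β' := by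
  refine ⟨hb.c0, fun x => (hb.mom x).trans hβ, fun x y hc => ?_⟩
  rcases hb.safe x y hc with a | ⟨a, b⟩
  · exact Or.inl a
  · refine Or.inr ⟨a, fun z' hz' => ?_⟩
    obtain ⟨z, hz, hd⟩ := h.1 z' hz'
    have := b z hz
    have := ds_tri x z' z
    omega

/-- fraction of the budget of the annulus used by the pins -/
noncomputable def tt (δ : ℝ) (ρ : Vx n → ℕ) (s : ℕ) : ℝ := min 1 (Cont ρ s / (δ * s))

lemma tt_nonneg {δ : ℝ} (hδ : 0 < δ) (ρ : Vx n → ℕ) (s : ℕ) : 0 ≤ tt δ ρ s :=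
  le_min zero_le_one (by positivity)

lemma tt_le (δ : ℝ) (ρ : Vx n → ℕ) (s : ℕ) : tt δ ρ s ≤ 1 := min_le_left _ _

/-- the conclusion of the exceptional phase -/
def EC (Γ : ℕ) (δ β : ℝ) : Prop :=
  ∀ (n J : ℕ) (lam : ℝ) (ρ : Vx n → ℕ)
    (c : Vx n → Vx n → ℝ), 1 ≤ J → 4 * Γ ^ J ≤ n → |lam| ≤ 1 → Base ρ c β →
    Mul lam (Gm (LamA ρ (Γ ^ J)) c)
      (1 - lam ^ 2 / 200 * (1 - (∑ z, ρ z : ℕ) / (δ * (Γ : ℝ) ^ J)))

lemma one_ann (hB : BasicStmt) {Γ : ℕ} {δ βE : ℝ} (hE : EC Γ δ βE) {J : ℕ} {lam β : ℝ}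
    {ρ : Vx n → ℕ} {c : Vx n → Vx n → ℝ} (h1 : 1 ≤ J) (h2 : 4 * Γ ^ J ≤ n) (hl : |lam| ≤ 1)
    (hb : Base ρ c β) (hβ : β ≤ βE) :
    Mul lam (Gm (LamA ρ (Γ ^ J)) c) (1 - lam ^ 2 / 200 * (1 - tt δ ρ (Γ ^ J))) := by
  obtain ⟨ρ', hc, hs⟩ := cont_spec ρ (Γ ^ J)
  have a := mul_sub hB (cov_lam hc) (hE n J lam ρ' c h1 h2 hl (cov_base hc hb hβ))
  rw [hs] at a
  unfold tt
  rcases le_total 1 ((Cont ρ (Γ ^ J) : ℝ) / (δ * (Γ ^ J : ℕ))) with h | h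
  · rw [min_eq_left h]
    simpa using (hB lam _ (Gm (LamA ρ (Γ ^ J)) c)).1
  · rw [min_eq_right h]
    simpa using a

/-- product over the annuli -/
noncomputable def DD (Γ : ℕ) (δ lam : ℝ) (JJ : Finset ℕ) (ρ : Vx n → ℕ) : ℝ :=
  ∏ J ∈ JJ, (1 - lam ^ 2 / 200 * (1 - tt δ ρ (Γ ^ J)))

lemma all_ann (hB : BasicStmt) (hS : SumStmt) {Γ : ℕ} {δ βE : ℝ} (hΓ : 10 ≤ Γ) (hδ : 0 < δ)
    (hE : EC Γ δ βE) {JJ : Finset ℕ} {lam β : ℝ} (hJ : ∀ J ∈ JJ, 1 ≤ J ∧ 4 * Γ ^ J ≤ n)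
    (hl : |lam| ≤ 1) (hβ : β ≤ βE) (ρ : Vx n → ℕ) (c : Vx n → Vx n → ℝ) (hb : Base ρ c β) :
    Mul lam (Gm (LamP ρ) c) (DD Γ δ lam JJ ρ) := by
  have key : ∀ j j', j < j' → ∀ e : Vx n × Vx n, c e.1 e.2 ≠ 0 → 1 ≤ j →
      ¬ (4 * Γ ^ j ≤ ds (vz n) e.1 ∧ 4 * Γ ^ j ≤ ds (vz n) e.2) →
      ds (vz n) e.1 ≤ Γ ^ j' ∧ ds (vz n) e.2 ≤ Γ ^ j' := by
    intro j j' hj e hc h1 h2
    have a1 : 10 * Γ ^ j ≤ Γ ^ j' :=
      calc 10 * Γ ^ j ≤ Γ * Γ ^ j := Nat.mul_le_mul_right _ hΓ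
        _ = Γ ^ (j + 1) := by ring
        _ ≤ Γ ^ j' := Nat.pow_le_pow_right (by omega) hj
    have a2 : 1 ≤ Γ ^ j := Nat.one_le_pow _ _ (by omega)
    have a3 := ds_tri (vz n) e.1 e.2
    have a4 := ds_tri (vz n) e.2 e.1
    have a5 := ds_comm e.1 e.2
    rcases hb.safe _ _ hc with a | ⟨a, -⟩ <;> omega
  refine hS lam _ _ JJ (fun J => Gm (LamA ρ (Γ ^ J)) c)
    (fun J => {e | c e.1 e.2 ≠ 0 ∧ ¬ (ds (vz n) e.1 ≤ Γ ^ J ∧ ds (vz n) e.2 ≤ Γ ^ J) ∧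
      ¬ (4 * Γ ^ J ≤ ds (vz n) e.1 ∧ 4 * Γ ^ J ≤ ds (vz n) e.2)}) _
    (fun J _ => Gm_mono (fun f hf => hf.1) c) ?_ ?_ fun J h => ⟨?_,
      one_ann hB hE (hJ J h).1 (hJ J h).2 hl hb hβ⟩
  · rintro J - g ⟨f, ⟨-, ⟨k, h2⟩, h3⟩, rfl⟩ e he
    simp only [Set.mem_ofPred_eq, not_and] at he
    by_cases a : c e.1 e.2 = 0
    · simp [a]
    by_cases b : ds (vz n) e.1 ≤ Γ ^ J ∧ ds (vz n) e.2 ≤ Γ ^ J
    · simp [h2 _ b.1, h2 _ b.2]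
    have := he a (fun u v => b ⟨u, v⟩)
    push Not at this
    simp [h3 _ this.1, h3 _ this.2]
  · intro j hj j' hj' hne
    rw [Set.disjoint_left]
    rintro e ⟨a1, a2, a3⟩ ⟨-, b2, b3⟩
    rcases lt_or_gt_of_ne hne with h | h
    · exact b2 (key j j' h e a1 (hJ j hj).1 a3)
    · exact a2 (key j' j h e a1 (hJ j' hj').1 b3)
  · have a1 : lam ^ 2 ≤ 1 := by rwa [← sq_abs, sq_le_one_iff₀ (abs_nonneg _)]
    have a2 := tt_nonneg hδ ρ (Γ ^ J)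
    have a3 := tt_le δ ρ (Γ ^ J)
    nlinarith [sq_nonneg lam]

lemma base_cL (ρ : Vx n → ℕ) {β : ℝ} (hβ : 0 ≤ β) : Base ρ (cL β) (2 * β) := by
  refine ⟨fun x y => by unfold cL; split_ifs <;> positivity, fun x => ?_, fun x y h => Or.inl ?_⟩
  · have a1 : ∀ y, cL β x y * (ds x y : ℝ) ^ 2 ≤ if (x, y) ∈ Ed n then β else 0 := by
      intro y
      unfold cL
      split_ifs with h
      · have : (ds x y : ℝ) ≤ 1 := by exact_mod_cast ds_edge h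
        have : (ds x y : ℝ) ^ 2 ≤ 1 := pow_le_one₀ (by positivity) this
        nlinarith
      · simp
    refine (sum_le_sum fun y _ => a1 y).trans ?_
    rw [← sum_filter, sum_const, nsmul_eq_mul]
    refine mul_le_mul_of_nonneg_right ?_ hβ
    have a2 : (univ.filter fun y => (x, y) ∈ Ed n).card ≤
        ({(x.1.val + 1, x.2.val), (x.1.val, x.2.val + 1)} : Finset (ℕ × ℕ)).card := by
      refine card_le_card_of_injOn (fun y => (y.1.val, y.2.val)) (fun y hy => ?_) ?_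
      · simp only [coe_filter, mem_univ, true_and, Set.mem_ofPred_eq, mem_Ed] at hy
        simp only [coe_insert, coe_singleton, Set.mem_insert_iff, Set.mem_singleton_iff,
          Prod.mk.injEq]
        exact hy
      · intro y _ y' _ h
        simp only [Prod.mk.injEq] at h
        exact Prod.ext (Fin.ext h.1) (Fin.ext h.2)
    exact_mod_cast a2.trans card_le_two
  · by_contra a
    exact h (if_neg fun b => a (ds_edge b))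

open Classical in
lemma rho0_union (A ξ : Finset (Vx n)) (fl : Finset (Fin (n + 1) × Vx n)) (z : Vx n) :
    max (rho0 A fl z) (if z ∈ ξ then 1 else 0) ≤ rho0 (A ∪ ξ) fl z := by
  refine max_le ?_ ?_
  · unfold rho0
    refine max_le_max_right _ (max_le_max_right _ (sup_mono fun Y hY => ?_))
    simp only [mem_filter, mem_univ, true_and] at hY ⊢
    exact ⟨mem_union_left _ hY.1, hY.2.1, hY.2.2.1, hY.2.2.2.trans (Nat.mul_le_mul_left _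
      (card_le_card (inter_subset_inter_left subset_union_left)))⟩
  · split_ifs with h
    swap
    · exact Nat.zero_le _
    unfold rho0
    refine le_max_of_le_left (le_max_of_le_left ?_)
    refine le_trans (by simp) (le_sup (f := fun Y : Finset (Vx n) => Y.card + 1) (b := {z}) ?_)
    simp only [mem_filter, mem_univ, true_and]
    refine ⟨mem_union_right _ h, mem_singleton_self _, fun a ha b hb => ?_, ?_⟩
    · rw [mem_singleton.1 ha, mem_singleton.1 hb]; exact Mono.Cn.refl _ _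
    · rw [singleton_inter_of_mem (mem_union_right _ h)]; simp

lemma rho0_vz (A : Finset (Vx n)) (fl : Finset (Fin (n + 1) × Vx n)) : 0 < rho0 A fl (vz n) := by
  unfold rho0; simp

lemma rho0_vl (A : Finset (Vx n)) (fl : Finset (Fin (n + 1) × Vx n)) : 0 < rho0 A fl (vl n) := by
  unfold rho0; simp

/-- the conclusion of the typical phase -/
def TC (CT : ℝ) : Prop :=
  ∀ (n K : ℕ) (lam β : ℝ) (ρ : Vx n → ℕ) (c : Vx n → Vx n → ℝ)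
    (d : (Vx n → ℕ) → ℝ) (p : ℕ → ℝ), 0 < β → CT * β ≤ 1 → Base ρ c β →
    (∀ k, 8 * Real.exp (-(ta k / (CT * β))) ≤ p k ∧ p k ≤ 1) →
    (∀ ρ' c', Base ρ' c' (CT * β) → Mul lam (Gm (LamP ρ') c') (d ρ')) →
    Mul lam (Gm (LamP ρ) c) (∑ ξ : Finset (Fin K × Vx n), pw (fun a => p a.1) ξ * d (rhoT ξ ρ K))

open Classical in
/-- the bound for the model with integer heights -/
noncomputable def dd (Γ : ℕ) (δ lam : ℝ) (JJ : Finset ℕ) (K : ℕ) (p0 : ℝ) (p : ℕ → ℝ)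
    (A : Finset (Vx n)) (fl : Finset (Fin (n + 1) × Vx n)) : ℝ :=
  ∑ ξ0 : Finset (Vx n), pw (fun _ => p0) ξ0 * ∑ ξ : Finset (Fin K × Vx n),
    pw (fun a => p a.1) ξ * DD Γ δ lam JJ (rhoT ξ (rho0 (A ∪ ξ0) fl) K)

theorem dom_int (hB : BasicStmt) (hS : SumStmt) (hSi : SiteStmt) {Γ : ℕ} {δ βE CT : ℝ}
    (hΓ : 10 ≤ Γ) (hδ : 0 < δ) (hE : EC Γ δ βE) (hT : TC CT) {JJ : Finset ℕ} {lam β p0 : ℝ}
    {p : ℕ → ℝ} (K : ℕ) (hJ : ∀ J ∈ JJ, 1 ≤ J ∧ 4 * Γ ^ J ≤ n) (hl : |lam| ≤ 1) (hβ : 0 < β)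
    (h1 : β ≤ 1 / 4) (h2 : CT * (2 * β) ≤ 1) (h3 : CT * (2 * β) ≤ βE)
    (h4 : 8 * Real.exp (-(10 / (4 * β))) ≤ p0) (h5 : p0 ≤ 1)
    (h6 : ∀ k, 8 * Real.exp (-(ta k / (CT * (2 * β)))) ≤ p k ∧ p k ≤ 1)
    (A : Finset (Vx n)) (fl : Finset (Fin (n + 1) × Vx n)) :
    Dom lam (Gm (LamI (rho0 A fl)) (cL β)) (dd Γ δ lam JJ K p0 p A fl) := by
  classical
  refine (hB lam _ _).2.2.1 _ (hSi n lam β p0 _ _ hβ h1 (rho0_vz A fl) (rho0_vl A fl) h4 h5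
    fun ξ0 => ?_)
  refine mul_sub hB (LamP_anti fun z => ?_) (hT n K lam (2 * β) (rho0 (A ∪ ξ0) fl) (cL β) _ p
    (by positivity) h2 (base_cL _ hβ.le) h6 (all_ann hB hS hΓ hδ hE hJ hl h3))
  convert rho0_union A ξ0 fl z

end Pool.Agent.Lib.MP_9cc147_pr.AllU.F
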