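import Pool.Agent.Lib.MP_9cc147_pr.U.FProb

/-! Assembly, part 3: choice of the constants that do not depend on the scale. -/

open Finset Filter
open scoped ENNReal Topology

namespace Pool.Agent.Lib.MP_9cc147_pr.AllU.F

lemma ta_ge (k : ℕ) : 4000 ≤ ta k := by
  induction k with
  | zero => exact le_rfl
  | succ k ih => unfold ta; omega

lemma pT_ok {Y : ℕ} {q : ℝ} (hq : 0 < q) (h : q * (Y + 1) ≤ 1) (k : ℕ) :
    8 * Real.exp (-(ta k / q)) ≤ (1 / 2) ^ (Y * ta k) := by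
  have a0 : (4000 : ℝ) ≤ ta k := by exact_mod_cast ta_ge k
  have a1 : (ta k : ℝ) * (Y + 1) ≤ ta k / q := by
    rw [le_div_iff₀ hq]; nlinarith
  have a2 : Real.exp (-1) ≤ 1 / 2 := by
    rw [Real.exp_neg, inv_eq_one_div]
    exact one_div_le_one_div_of_le (by norm_num) (by linarith [Real.add_one_le_exp 1])
  have a3 : Real.exp (-1) ^ (Y * ta k) ≤ (1 / 2) ^ (Y * ta k) :=
    pow_le_pow_left₀ (Real.exp_pos _).le a2 _
  rw [← Real.exp_nat_mul] at a3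
  refine le_trans ?_ a3
  have a4 : 8 ≤ Real.exp (ta k) := by linarith [Real.add_one_le_exp (ta k : ℝ)]
  refine (mul_le_mul_of_nonneg_right a4 (Real.exp_pos _).le).trans ?_
  rw [← Real.exp_add, Real.exp_le_exp]
  push_cast
  linarith

lemma beta_ex {CT βE p : ℝ} (Y : ℕ) (hC : 1 ≤ CT) (hE : 0 < βE) (hp : 0 < p) :
    ∃ β : ℝ, 0 < β ∧ β ≤ 1 / 4 ∧ CT * (2 * β) * (Y + 1) ≤ 1 ∧ CT * (2 * β) ≤ βE ∧
      8 * Real.exp (-(10 / (4 * β))) ≤ p := by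
  have Y0 : (0 : ℝ) ≤ Y := Nat.cast_nonneg Y
  set β := min (min (1 / 4) (1 / (CT * 2 * (Y + 1)))) (min (βE / (CT * 2)) (p / 8)) with hβ
  have b0 : 0 < β := by positivity
  have b1 : β ≤ 1 / 4 := (min_le_left _ _).trans (min_le_left _ _)
  have b2 : β ≤ 1 / (CT * 2 * (Y + 1)) := (min_le_left _ _).trans (min_le_right _ _)
  have b3 : β ≤ βE / (CT * 2) := (min_le_right _ _).trans (min_le_left _ _)
  have b4 : β ≤ p / 8 := (min_le_right _ _).trans (min_le_right _ _)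
  rw [le_div_iff₀ (by positivity)] at b2 b3
  refine ⟨β, b0, b1, by linarith, by linarith, ?_⟩
  have a1 : Real.exp (-(10 / (4 * β))) ≤ β := by
    rw [Real.exp_neg, inv_eq_one_div, div_le_iff₀ (Real.exp_pos _)]
    have := mul_le_mul_of_nonneg_left (Real.add_one_le_exp (10 / (4 * β))) b0.le
    rw [show β * (10 / (4 * β) + 1) = 10 / 4 + β by field_simp] at this
    linarith
  linarith

/-- all the sections -/
structure All : Prop where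
  basic : BasicStmt
  sum : SumStmt
  site : SiteStmt
  tph : TStmt
  eph : EStmt
  pph : PStmt
  sph : SStmt
  bud : BStmt

theorem core (H : All) : ∃ Γ : ℕ, 10 ≤ Γ ∧ ∀ C0 : ℝ, ∃ (Y n0 : ℕ) (β e ε η : ℝ), 1 ≤ Y ∧ 0 < β ∧
    0 < e ∧ e ≤ 1 / 2 ∧ 0 < ε ∧ ε ≤ 1 ∧ 0 < η ∧ ∀ (w w0 : ℤ → ℝ) (N : ℕ) (w1 S : ℝ),
    HypS w w0 N Y β e ε w1 S → (∀ k, w (-k) = w k) → Summable w →
    (∀ T : Finset ℤ, (∀ k ∈ T, (N : ℤ) < |k|) → ∑ k ∈ T, w k ≤ η * ∑' k, w k) →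
    (∃ T : Finset ℤ, Real.exp (-C0) * (∑' k, w k) ^ 3 ≤
      ∑ a ∈ T, ∑ b ∈ T, ∑ c ∈ T, w a * w b * w c * w (a + b + c)) →
    ∀ n, n0 ≤ n → ∀ (JJ : Finset ℕ) (lam : ℝ), (∀ J ∈ JJ, 1 ≤ J ∧ n ≤ (Γ ^ J) ^ 2 ∧ 5 * Γ ^ J ≤ n) →
    400 ≤ JJ.card → lam ^ 2 = 400 / JJ.card → ∑' m, gw (n := n) w m ≠ ⊤ →
    ENNReal.ofReal (1 / 2) * ∑' m, gw (n := n) w m ≤
      ∑' m, gw w m * ENNReal.ofReal (1 - Real.cos (lam * (m (vl n) : ℝ))) := by
  classical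
  obtain ⟨Γ, δ, βE, hΓ, hδ, hβE, hE⟩ := H.eph
  obtain ⟨CT, hCT, hT⟩ := H.tph
  refine ⟨Γ, hΓ, fun C0 => ?_⟩
  obtain ⟨C, hC, hB⟩ := H.bud C0
  obtain ⟨η0, Y, n0, hη0, hP⟩ := H.pph C δ (1 / 100) hC hδ (by norm_num)
  set e := min (η0 / 5) (1 / 100) with he
  have e0 : 0 < e := by positivity
  have e1 : e ≤ η0 / 5 := min_le_left _ _
  have e2 : e ≤ 1 / 100 := min_le_right _ _
  obtain ⟨β, b0, b1, b2, b3, b4⟩ := beta_ex (Y + 1) hCT hβE e0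
  refine ⟨Y + 1, n0, β, e, e, (e / C) ^ 2, by omega, b0, e0, by linarith, e0, by linarith,
    by positivity, fun w w0 N w1 S hS ev sm tl fc n hn JJ lam hJ hN hl hZ => ?_⟩
  obtain ⟨K, hK⟩ := hP n hn
  obtain ⟨Ω, ν, X, s1, s2, s3⟩ := H.sph w w0 N (Y + 1) β e e w1 S hS n
  have c1 := hB w N _ hS.w_pos ev sm (by positivity) tl fc n
  rw [Real.sqrt_sq (by positivity), mul_div_cancel₀ _ (by positivity)] at c1
  have hp : 0 ≤ e ∧ e ≤ 1 := ⟨e0.le, by linarith⟩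
  have c2 := Bud.mono (Bud.union (s2 C e (by linarith) e0.le c1) (by linarith) (by positivity) hp)
    (by linarith) (by positivity) (show e + e + 2 * e + e ≤ η0 by linarith)
  have N4 : (400 : ℝ) ≤ JJ.card := by exact_mod_cast hN
  have l1 : lam ^ 2 ≤ 1 := by rw [hl, div_le_one (by linarith)]; exact N4
  have l2 : |lam| ≤ 1 := by rwa [← sq_abs, sq_le_one_iff₀ (abs_nonneg _)] at l1
  have q0 : 0 < CT * (2 * β) := by positivity
  have hF : ∀ k, 0 ≤ (1 / 64 : ℝ) ^ ((Y + 1) * Mono.aa k) ∧ (1 / 64 : ℝ) ^ ((Y + 1) * Mono.aa k) ≤ 1 :=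
    fun k => ⟨by positivity, pow_le_one₀ (by norm_num) (by norm_num)⟩
  have hT' : ∀ k, 0 ≤ (1 / 2 : ℝ) ^ ((Y + 1) * ta k) ∧ (1 / 2 : ℝ) ^ ((Y + 1) * ta k) ≤ 1 :=
    fun k => ⟨by positivity, pow_le_one₀ (by norm_num) (by norm_num)⟩
  have c3 := s3 lam (dd Γ δ lam JJ K e fun k => (1 / 2 : ℝ) ^ ((Y + 1) * ta k))
    (dom_int H.basic H.sum H.site hΓ hδ hE hT K
      (fun J h => ⟨(hJ J h).1, by have := (hJ J h).2.2; omega⟩) l2 b0 b1
      (by nlinarith [(Nat.cast_nonneg (Y + 1) : (0 : ℝ) ≤ _)]) b3 b4 hp.2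
      fun k => ⟨pT_ok q0 b2 k, (hT' k).2⟩)
  have c4 := total ν X (Γ := Γ) hδ (by omega) hl l1 K hF hT' hp (ε := 1 / 100) (by norm_num)
    fun J h => by
      have := hK _ _ _ (fun k => (1 / 64 : ℝ) ^ ((Y + 1) * Mono.aa k))
        (fun k => (1 / 2 : ℝ) ^ ((Y + 1) * ta k)) (Γ ^ J) c2
        (fun k => ⟨(hF k).1, pow_le_pow_of_le_one (by norm_num) (by norm_num)
          (Nat.mul_le_mul_right _ (Nat.le_succ Y))⟩)
        (fun k => ⟨(hT' k).1, pow_le_pow_of_le_one (by norm_num) (by norm_num)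
          (Nat.mul_le_mul_right _ (Nat.le_succ Y))⟩) (hJ J h).2.1 (hJ J h).2.2
      rwa [tot_union ν hp] at this
  have c5 := c4.trans (add_le_add_left c3 _)
  rw [s1, add_assoc, ← add_mul, ← ENNReal.ofReal_add (by positivity) (by positivity)] at c5
  refine (ENNReal.add_le_add_iff_right (a := ENNReal.ofReal (4 * e + 1 / 100) *
    ∑' m, gw (n := n) w m) (ENNReal.mul_ne_top ENNReal.ofReal_ne_top hZ)).1 (le_trans ?_ c5)
  rw [← add_mul, ← ENNReal.ofReal_add (by positivity) (by positivity)]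
  exact mul_le_mul_left (ENNReal.ofReal_le_ofReal (by linarith)) _

end Pool.Agent.Lib.MP_9cc147_pr.AllU.F
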