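import Pool.Agent.Lib.MP_9cc147_pr.U.FCore
import Pool.Agent.Lib.MP_9cc147_pr.U.FAna

/-! Assembly, part 5: the logarithmic lower bound from all the sections. -/

open Finset Filter
open scoped ENNReal Topology

namespace Pool.Agent.Lib.MP_9cc147_pr.AllU.F

lemma annuli {Γ : ℕ} (hΓ : 10 ≤ Γ) {n : ℕ} (hn : Γ ^ 802 ≤ n) : ∃ JJ : Finset ℕ,
    (∀ J ∈ JJ, 1 ≤ J ∧ n ≤ (Γ ^ J) ^ 2 ∧ 5 * Γ ^ J ≤ n) ∧ 400 ≤ JJ.card ∧
      Real.log (n + 1) ≤ 3 * JJ.card * Real.log Γ := by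
  have g1 : 1 < Γ := by omega
  have n0 : n ≠ 0 := by have := Nat.one_le_pow 802 Γ (by omega); omega
  have a1 := Nat.pow_log_le_self Γ n0
  have a2 := Nat.lt_pow_succ_log_self g1 n
  have a3 : 802 ≤ Nat.log Γ n := Nat.le_log_of_pow_le g1 hn
  generalize Nat.log Γ n = L at *
  refine ⟨Ico ((L + 2) / 2) L, fun J hJ => ?_, by rw [Nat.card_Ico]; omega, ?_⟩
  · rw [mem_Ico] at hJ
    refine ⟨by omega, ?_, ?_⟩
    · rw [← pow_mul]
      exact a2.le.trans (Nat.pow_le_pow_right (by omega) (by omega))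
    · calc 5 * Γ ^ J ≤ Γ * Γ ^ J := Nat.mul_le_mul_right _ (by omega)
        _ = Γ ^ (J + 1) := by ring
        _ ≤ Γ ^ L := Nat.pow_le_pow_right (by omega) hJ.2
        _ ≤ n := a1
  · have b1 : (n + 1 : ℝ) ≤ (Γ : ℝ) ^ (3 * (Ico ((L + 2) / 2) L).card) := by
      have : n + 1 ≤ Γ ^ (3 * (Ico ((L + 2) / 2) L).card) :=
        le_trans a2 (Nat.pow_le_pow_right (by omega) (by rw [Nat.card_Ico]; omega))
      exact_mod_cast this
    have := Real.log_le_log (by positivity) b1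
    rwa [Real.log_pow, Nat.cast_mul, Nat.cast_ofNat] at this

lemma gw_eq {n : ℕ} (u : ℤ → ℝ) (m : Vx n → ℤ) :
    gw (fun k => Real.exp (-u k)) m = ENNReal.ofReal (wt u m) := by
  unfold gw wt
  split_ifs
  · rw [← Real.exp_sum, sum_neg_distrib]
  · simp

lemma main_zero (H : All) : ∃ c : ℝ, 0 < c ∧ ∀ (U : ℝ → ℝ) (α : ℝ), Continuous U →
    (∀ x, U (-x) = U x) → 0 < α → Tendsto (fun x => U x / x ^ α) atTop atTop → (∀ x, 0 ≤ U x) →
    ∃ (M₀ : ℝ) (n₀ : ℕ), 0 < M₀ ∧ ∀ M : ℝ, M₀ < M → ∀ n, n₀ ≤ n → c * Real.log (n + 1) ≤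
      (∑' m : Vx n → ℤ, (m (vl n) : ℝ) ^ 2 * wt (fun k => U (k / M)) m) /
        ∑' m : Vx n → ℤ, wt (fun k => U (k / M)) m := by
  obtain ⟨Γ, hΓ, hc⟩ := core H
  have lg : 0 < Real.log Γ := Real.log_pos (by exact_mod_cast (by omega : 1 < Γ))
  refine ⟨1 / (1200 * Real.log Γ), by positivity, fun U α h1 h2 h3 h4 h5 => ?_⟩
  obtain ⟨C0, ha⟩ := ana h1 h2 h3 h4 h5
  obtain ⟨Y, n0, β, e, ε, η, c1, c2, c3, c4, c5, c6, c7, hk⟩ := hc C0
  obtain ⟨M₀, hM₀, hb⟩ := ha Y β e ε η c1 c2 c3 c4 c5 c6 c7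
  refine ⟨M₀, max n0 (Γ ^ 802), hM₀, fun M hM n hn => ?_⟩
  obtain ⟨w0, N, w1, S, d1, d2, d3, d4⟩ := hb M hM _ fun _ => rfl
  obtain ⟨JJ, j1, j2, j3⟩ := annuli hΓ (le_of_max_le_right hn)
  have J0 : (0 : ℝ) < JJ.card := by exact_mod_cast (by omega : 0 < JJ.card)
  obtain ⟨s0, s2⟩ := Kit.wt_sum (n := n) (grow_of h1 h2 h3 h4 (hM₀.trans hM))
  have k := hk _ w0 N w1 S d1 (fun k => by rw [Int.cast_neg, neg_div, h2]) d2 d3 d4 n
    (le_of_max_le_left hn) JJ (Real.sqrt (400 / JJ.card)) j1 j2 (Real.sq_sqrt (by positivity))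
  have l2 : Real.sqrt (400 / JJ.card) ^ 2 = 400 / JJ.card := Real.sq_sqrt (by positivity)
  generalize Real.sqrt (400 / JJ.card) = lam at k l2
  simp only [gw_eq fun k : ℤ => U (k / M)] at k
  generalize (fun k : ℤ => U (k / M)) = u at *
  have w0 := wt_nonneg (n := n) u
  have e0 := ENNReal.ofReal_tsum_of_nonneg w0 s0
  have w2 : ∀ m : Vx n → ℤ, 0 ≤ (m (vl n) : ℝ) ^ 2 * wt u m := fun m =>
    mul_nonneg (sq_nonneg _) (w0 m)
  have e2 := ENNReal.ofReal_tsum_of_nonneg w2 s2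
  have k2 : ∑' m : Vx n → ℤ, ENNReal.ofReal (wt u m) *
      ENNReal.ofReal (1 - Real.cos (lam * m (vl n))) ≤ ENNReal.ofReal (lam ^ 2 / 2) *
      ∑' m : Vx n → ℤ, ENNReal.ofReal ((m (vl n) : ℝ) ^ 2 * wt u m) := by
    rw [← ENNReal.tsum_mul_left]
    refine ENNReal.tsum_le_tsum fun m => ?_
    rw [← ENNReal.ofReal_mul (w0 m), ← ENNReal.ofReal_mul (by positivity)]
    refine ENNReal.ofReal_le_ofReal ?_
    nlinarith [mul_le_mul_of_nonneg_right (Real.one_sub_sq_div_two_le_cos (x := lam * m (vl n)))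
      (w0 m)]
  have k3 := (k (e0 ▸ ENNReal.ofReal_ne_top)).trans k2
  have t2 : 0 ≤ ∑' m : Vx n → ℤ, (m (vl n) : ℝ) ^ 2 * wt u m := tsum_nonneg w2
  rw [← e0, ← e2, ← ENNReal.ofReal_mul (by positivity),
    ← ENNReal.ofReal_mul (by positivity), ENNReal.ofReal_le_ofReal_iff (by positivity), l2] at k3
  have pos : 0 < ∑' m : Vx n → ℤ, wt u m := s0.tsum_pos w0 0 (by simp [wt, Real.exp_pos])
  rw [le_div_iff₀ pos]
  generalize ∑' m : Vx n → ℤ, wt u m = Z at *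
  generalize ∑' m : Vx n → ℤ, (m (vl n) : ℝ) ^ 2 * wt u m = X at *
  have k4 : JJ.card / 400 * Z ≤ X := by
    have := mul_le_mul_of_nonneg_left k3 (by positivity : (0 : ℝ) ≤ JJ.card / 200)
    rw [show (JJ.card : ℝ) / 200 * (400 / JJ.card / 2 * X) = X by field_simp; ring] at this
    linarith
  refine le_trans (mul_le_mul_of_nonneg_right ?_ pos.le) k4
  rw [one_div, inv_mul_le_iff₀ (by positivity)]
  linarith

theorem main (H : All) : ∃ c : ℝ, 0 < c ∧ ∀ (U : ℝ → ℝ) (α : ℝ), Continuous U →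
    (∀ x, U (-x) = U x) → 0 < α → Tendsto (fun x => U x / x ^ α) atTop atTop →
    ∃ (M₀ : ℝ) (n₀ : ℕ), 0 < M₀ ∧ ∀ M : ℝ, M₀ < M → ∀ n : ℕ,
      Summable (wt (n := n) fun k => U (k / M)) ∧
      Summable (fun m : Vx n → ℤ => (m (vl n) : ℝ) ^ 2 * wt (fun k => U (k / M)) m) ∧
      (n₀ ≤ n → c * Real.log (n + 1) ≤
        (∑' m : Vx n → ℤ, (m (vl n) : ℝ) ^ 2 * wt (fun k => U (k / M)) m) /
          ∑' m : Vx n → ℤ, wt (fun k => U (k / M)) m) := by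
  obtain ⟨c, hc, h⟩ := main_zero H
  refine ⟨c, hc, fun U α h1 h2 h3 h4 => ?_⟩
  obtain ⟨C, hC, hg⟩ := Kit.grow_real h1 h3 h4
  have lo : ∀ x, -Real.log C ≤ U x := by
    intro x
    have e : U x = U |x| := by
      rcases abs_cases x with a | a <;> rw [a.1]
      rw [h2]
    have a := (hg _ (abs_nonneg x)).trans (div_le_self hC.le
      (one_le_pow₀ (by linarith [abs_nonneg x])))
    rw [e, neg_le]
    exact (Real.le_log_iff_exp_le hC).2 a
  generalize -Real.log C = b at lo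
  have ht' : Tendsto (fun x => (U x - b) / x ^ α) atTop atTop := by
    refine (h4.atTop_add ((tendsto_rpow_atTop h3).const_div_atTop b).neg).congr fun x => ?_
    ring
  obtain ⟨M₀, n₀, hM₀, k⟩ := h (fun x => U x - b) α (by fun_prop) (fun x => by simp only [h2]) h3 ht'
    fun x => sub_nonneg.2 (lo x)
  refine ⟨M₀, n₀, hM₀, fun M hM n => ?_⟩
  obtain ⟨s0, s2⟩ := Kit.wt_sum (n := n) (grow_of h1 h2 h3 h4 (hM₀.trans hM))
  refine ⟨s0, s2, fun hn => (k M hM n hn).trans (le_of_eq ?_)⟩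
  have e : ∀ m : Vx n → ℤ, wt (fun k => U (k / M) - b) m =
      Real.exp ((Ed n).card * b) * wt (fun k => U (k / M)) m := by
    intro m
    unfold wt
    split_ifs
    · rw [← Real.exp_add, sum_sub_distrib, sum_const, nsmul_eq_mul]
      congr 1; ring
    · simp
  simp only [e, mul_left_comm _ (Real.exp _), tsum_mul_left]
  exact mul_div_mul_left _ _ (Real.exp_pos _).ne'

end Pool.Agent.Lib.MP_9cc147_pr.AllU.F
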