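import Pool.Agent.Lib.MP_9cc147_pr.U.A1
import Pool.Agent.Lib.MP_9cc147_pr.U.FCore

/-! Assembly with a free constant: repeat every shift `k` times. -/

open Finset Filter MeasureTheory
open scoped ENNReal Topology

namespace Pool.Agent.Lib.MP_9cc147_pr.AllU.F

lemma dom_k {n k : ℕ} (hk : 1 ≤ k) {lam β d : ℝ} (hβ : 0 ≤ β) {Λ : Set (Vx n → ℝ)}
    (h : Dom (k * lam) (Gm Λ (cL β)) d) : Dom lam (Gm Λ (cL (β / k ^ 2))) d := by
  intro ν hs hi hf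
  have k0 : (0 : ℝ) < k := by exact_mod_cast hk
  let σ : (Vx n × Vx n → ℝ) × ℝ → (Vx n × Vx n → ℝ) × ℝ := fun p => (p.1, p.2 / k)
  have mσ : Measurable σ := by fun_prop
  have m1 : Measurable fun p : (Vx n × Vx n → ℝ) × ℝ => gam p.1 := A1.gam_meas.comp measurable_fst
  have m2 : Measurable fun p : (Vx n × Vx n → ℝ) × ℝ =>
      ENNReal.ofReal (1 - Real.cos (k * lam * p.2)) * gam p.1 :=
    (ENNReal.measurable_ofReal.comp (by fun_prop)).mul m1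
  have a := h (ν.map σ) inferInstance (fun g hg => ?_) (by rwa [lintegral_map m1 mσ])
  · rw [lintegral_map m1 mσ, lintegral_map m2 mσ] at a
    simpa only [σ, show ∀ t : ℝ, k * lam * (t / k) = lam * t from fun t => by field_simp] using a
  obtain ⟨f, hf, rfl⟩ := hg
  have b := A1.Inv.closure hi _ (AddSubgroup.nsmul_mem _ (AddSubgroup.subset_closure
    (k := Gm Λ (cL (β / k ^ 2))) ⟨f, hf, rfl⟩) k)
  conv_rhs => rw [← b]
  rw [Measure.map_map (measurable_add_const _) mσ, Measure.map_map mσ (measurable_add_const _)]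
  congr 1
  funext p
  refine Prod.ext (funext fun e => ?_) ?_
  · have : (k : ℝ) * Real.sqrt (cL (β / k ^ 2) e.1 e.2) = Real.sqrt (cL β e.1 e.2) := by
      unfold cL
      split_ifs
      · rw [Real.sqrt_div hβ, Real.sqrt_sq k0.le]; field_simp
      · simp
    simp [σ, ← this, mul_assoc]
  · simp only [σ, Function.comp, Prod.snd_add, Prod.smul_snd]
    rw [nsmul_eq_mul]
    field_simp

theorem coreK (H : All) : ∃ Γ : ℕ, 10 ≤ Γ ∧ ∀ (C0 : ℝ) (k : ℕ), 1 ≤ k →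
    ∃ (Y n0 : ℕ) (β e ε η : ℝ), 1 ≤ Y ∧ 0 < β ∧
    0 < e ∧ e ≤ 1 / 2 ∧ 0 < ε ∧ ε ≤ 1 ∧ 0 < η ∧ ∀ (w w0 : ℤ → ℝ) (N : ℕ) (w1 S : ℝ),
    HypS w w0 N Y β e ε w1 S → (∀ k, w (-k) = w k) → Summable w →
    (∀ T : Finset ℤ, (∀ k ∈ T, (N : ℤ) < |k|) → ∑ k ∈ T, w k ≤ η * ∑' k, w k) →
    (∃ T : Finset ℤ, Real.exp (-C0) * (∑' k, w k) ^ 3 ≤
      ∑ a ∈ T, ∑ b ∈ T, ∑ c ∈ T, w a * w b * w c * w (a + b + c)) →
    ∀ n, n0 ≤ n → ∀ (JJ : Finset ℕ) (lam : ℝ), (∀ J ∈ JJ, 1 ≤ J ∧ n ≤ (Γ ^ J) ^ 2 ∧ 5 * Γ ^ J ≤ n) →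
    400 ≤ JJ.card → (k * lam) ^ 2 = 400 / JJ.card → ∑' m, gw (n := n) w m ≠ ⊤ →
    ENNReal.ofReal (1 / 2) * ∑' m, gw (n := n) w m ≤
      ∑' m, gw w m * ENNReal.ofReal (1 - Real.cos (lam * (m (vl n) : ℝ))) := by
  classical
  obtain ⟨Γ, δ, βE, hΓ, hδ, hβE, hE⟩ := H.eph
  obtain ⟨CT, hCT, hT⟩ := H.tph
  refine ⟨Γ, hΓ, fun C0 k hk => ?_⟩
  have k0 : (0 : ℝ) < k := by exact_mod_cast hk
  obtain ⟨C, hC, hB⟩ := H.bud C0
  obtain ⟨η0, Y, n0, hη0, hP⟩ := H.pph C δ (1 / 100) hC hδ (by norm_num)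
  set e := min (η0 / 5) (1 / 100) with he
  have e0 : 0 < e := by positivity
  have e1 : e ≤ η0 / 5 := min_le_left _ _
  have e2 : e ≤ 1 / 100 := min_le_right _ _
  obtain ⟨β, b0, b1, b2, b3, b4⟩ := beta_ex (Y + 1) hCT hβE e0
  refine ⟨Y + 1, n0, β / k ^ 2, e, e, (e / C) ^ 2, by omega, by positivity, e0, by linarith, e0,
    by linarith, by positivity, fun w w0 N w1 S hS ev sm tl fc n hn JJ lam hJ hN hl hZ => ?_⟩
  obtain ⟨K, hK⟩ := hP n hn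
  obtain ⟨Ω, ν, X, s1, s2, s3⟩ := H.sph w w0 N (Y + 1) _ e e w1 S hS n
  have c1 := hB w N _ hS.w_pos ev sm (by positivity) tl fc n
  rw [Real.sqrt_sq (by positivity), mul_div_cancel₀ _ (by positivity)] at c1
  have hp : 0 ≤ e ∧ e ≤ 1 := ⟨e0.le, by linarith⟩
  have c2 := Bud.mono (Bud.union (s2 C e (by linarith) e0.le c1) (by linarith) (by positivity) hp)
    (by linarith) (by positivity) (show e + e + 2 * e + e ≤ η0 by linarith)
  have N4 : (400 : ℝ) ≤ JJ.card := by exact_mod_cast hN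
  have l1 : (k * lam) ^ 2 ≤ 1 := by rw [hl, div_le_one (by linarith)]; exact N4
  have l2 : |k * lam| ≤ 1 := by rwa [← sq_abs, sq_le_one_iff₀ (abs_nonneg _)] at l1
  have q0 : 0 < CT * (2 * β) := by positivity
  have hF : ∀ k, 0 ≤ (1 / 64 : ℝ) ^ ((Y + 1) * Mono.aa k) ∧ (1 / 64 : ℝ) ^ ((Y + 1) * Mono.aa k) ≤ 1 :=
    fun k => ⟨by positivity, pow_le_one₀ (by norm_num) (by norm_num)⟩
  have hT' : ∀ k, 0 ≤ (1 / 2 : ℝ) ^ ((Y + 1) * ta k) ∧ (1 / 2 : ℝ) ^ ((Y + 1) * ta k) ≤ 1 :=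
    fun k => ⟨by positivity, pow_le_one₀ (by norm_num) (by norm_num)⟩
  have c3 := s3 lam (dd Γ δ (k * lam) JJ K e fun k => (1 / 2 : ℝ) ^ ((Y + 1) * ta k))
    fun A fl => dom_k hk b0.le (dom_int H.basic H.sum H.site hΓ hδ hE hT K
      (fun J h => ⟨(hJ J h).1, by have := (hJ J h).2.2; omega⟩) l2 b0 b1
      (by nlinarith [(Nat.cast_nonneg (Y + 1) : (0 : ℝ) ≤ _)]) b3 b4 hp.2
      (fun k => ⟨pT_ok q0 b2 k, (hT' k).2⟩) A fl)
  have c4 := total ν X (Γ := Γ) hδ (by omega) hl l1 K hF hT' hp (ε := 1 / 100) (by norm_num)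
    fun J h => by
      have := hK _ _ _ (fun k => (1 / 64 : ℝ) ^ ((Y + 1) * Mono.aa k))
        (fun k => (1 / 2 : ℝ) ^ ((Y + 1) * ta k)) (Γ ^ J) c2
        (fun k => ⟨(hF k).1, pow_le_pow_of_le_one (by norm_num) (by norm_num)
          (Nat.mul_le_mul_right _ (Nat.le_succ Y))⟩)
        (fun k => ⟨(hT' k).1, pow_le_pow_of_le_one (by norm_num) (by norm_num)
          (Nat.mul_le_mul_right _ (Nat.le_succ Y))⟩) (hJ J h).2.1 (hJ J h).2.2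
      rwa [tot_union ν hp] at this
  have c5 := c4.trans (add_le_add_left c3 _)
  rw [s1, add_assoc, ← add_mul, ← ENNReal.ofReal_add (by positivity) (by positivity)] at c5
  refine (ENNReal.add_le_add_iff_right (a := ENNReal.ofReal (4 * e + 1 / 100) *
    ∑' m, gw (n := n) w m) (ENNReal.mul_ne_top ENNReal.ofReal_ne_top hZ)).1 (le_trans ?_ c5)
  rw [← add_mul, ← ENNReal.ofReal_add (by positivity) (by positivity)]
  exact mul_le_mul_left (ENNReal.ofReal_le_ofReal (by linarith)) _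

end Pool.Agent.Lib.MP_9cc147_pr.AllU.F
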