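import Pool.Agent.Lib.MP_9cc147_pr.U.FAna

/-! In a fixed box the second moment tends to infinity with the scale. -/

open Finset Filter
open scoped ENNReal Topology

namespace Pool.Agent.Lib.MP_9cc147_pr.AllU.F

variable {n : ℕ}

lemma tsum_pi {V : Type} [Fintype V] [DecidableEq V] (g : V → ℤ → ℝ≥0∞) :
    ∑' μ : V → ℤ, ∏ x, g x (μ x) ≤ ∏ x, ∑' t, g x t := by
  rw [ENNReal.tsum_eq_iSup_sum]
  refine iSup_le fun s => ?_
  refine (sum_le_sum_of_subset (t := Fintype.piFinset fun x => s.image fun μ => μ x)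
    fun μ hμ => Fintype.mem_piFinset.2 fun x => mem_image_of_mem _ hμ).trans ?_
  rw [← prod_univ_sum]
  exact prod_le_prod' fun x _ => ENNReal.sum_le_tsum _

/-- parent in the comb shaped spanning tree -/
def par (x : Vx n) : Vx n :=
  if 0 < x.1.val then (⟨x.1.val - 1, by omega⟩, x.2) else (x.1, ⟨x.2.val - 1, by omega⟩)

lemma par_spec {x : Vx n} (hx : x ≠ vz n) :
    (par x, x) ∈ Ed n ∧ (par x).1.val + (par x).2.val + 1 = x.1.val + x.2.val := by
  have h : x.1.val ≠ 0 ∨ x.2.val ≠ 0 := by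
    by_contra a
    push Not at a
    exact hx (Prod.ext (Fin.ext a.1) (Fin.ext a.2))
  rw [mem_Ed]
  unfold par
  split_ifs with a <;> simp only [and_true, true_and] <;> omega

lemma near_le (hn : 1 ≤ n) {u : ℤ → ℝ} (h0 : ∀ k, 0 ≤ u k) (R : ℕ) {S : ℝ≥0∞}
    (hS : ∑' k, ENNReal.ofReal (Real.exp (-u k)) ≤ S) :
    ∑' m : Vx n → ℤ, (if |m (vl n)| ≤ R then ENNReal.ofReal (wt u m) else 0) ≤
      (2 * R + 1 : ℕ) * S ^ (((univ : Finset (Vx n)).erase (vz n)).erase (vl n)).card := by
  classical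
  have ne : vl n ≠ vz n := fun h => by
    have := congrArg (fun x : Vx n => x.1.val) h
    simp [vl, vz] at this
    omega
  let Φ : (Vx n → ℤ) → Vx n → ℤ := fun m x =>
    if x = vz n ∨ x = vl n then m x else m (par x) - m x
  let g : Vx n → ℤ → ℝ≥0∞ := fun x t => if x = vz n then (if t = 0 then 1 else 0) else
    if x = vl n then (if t ∈ Icc (-(R : ℤ)) R then 1 else 0) else ENNReal.ofReal (Real.exp (-u t))
  have inj : Function.Injective Φ := by
    intro m m' h
    have key : ∀ j, ∀ x : Vx n, x.1.val + x.2.val = j → m x = m' x := by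
      intro j
      induction j using Nat.strong_induction_on with
      | _ j ih =>
        intro x hx
        have a := congrFun h x
        simp only [Φ] at a
        split_ifs at a with b
        · exact a
        · have c := (par_spec fun e => b (Or.inl e)).2
          have := ih _ (by omega) (par x) rfl
          omega
    exact funext fun x => key _ x rfl
  have sp : ∀ F : Vx n → ℝ≥0∞, ∏ x, F x =
      F (vz n) * (F (vl n) * ∏ x ∈ (univ.erase (vz n)).erase (vl n), F x) := fun F => by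
    rw [mul_prod_erase _ _ (mem_erase.2 ⟨ne, mem_univ _⟩), mul_prod_erase _ _ (mem_univ _)]
  have a1 : ∀ m : Vx n → ℤ, (if |m (vl n)| ≤ R then ENNReal.ofReal (wt u m) else 0) ≤
      ∏ x, g x (Φ m x) := by
    intro m
    unfold wt
    split_ifs with b c
    rotate_left
    · simp
    · exact zero_le
    rw [sp]
    have e1 : g (vz n) (Φ m (vz n)) = 1 := by simp [g, Φ, c]
    have e2 : g (vl n) (Φ m (vl n)) = 1 := by simp [g, Φ, ne, abs_le.1 b]
    have e3 : ∀ x ∈ (univ.erase (vz n)).erase (vl n),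
        g x (Φ m x) = ENNReal.ofReal (Real.exp (-u (m (par x) - m x))) := by
      intro x hx
      simp only [mem_erase] at hx
      simp [g, Φ, hx.1, hx.2.1]
    rw [e1, e2, one_mul, one_mul, prod_congr rfl e3,
      ← ENNReal.ofReal_prod_of_nonneg fun _ _ => (Real.exp_pos _).le, ← Real.exp_sum]
    refine ENNReal.ofReal_le_ofReal (Real.exp_le_exp.2 ?_)
    rw [sum_neg_distrib, neg_le_neg_iff,
      ← sum_image (g := fun x : Vx n => (par x, x)) (f := fun e => u (m e.1 - m e.2))
        fun x _ y _ h => (Prod.mk.inj h).2]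
    refine sum_le_sum_of_subset_of_nonneg (fun e he => ?_) fun _ _ _ => h0 _
    obtain ⟨x, hx, rfl⟩ := mem_image.1 he
    exact (par_spec (mem_erase.1 (mem_erase.1 hx).2).1).1
  refine (ENNReal.tsum_le_tsum a1).trans ((ENNReal.tsum_comp_le_tsum_of_injective inj
    fun μ => ∏ x, g x (μ x)).trans ((tsum_pi g).trans ?_))
  rw [sp]
  have e1 : ∑' t, g (vz n) t = 1 := by simp [g]
  have e2 : ∑' t, g (vl n) t = (2 * R + 1 : ℕ) := by
    simp only [g, if_neg ne, if_true]
    rw [tsum_eq_sum (s := Icc (-(R : ℤ)) R) fun t ht => if_neg ht,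
      sum_congr rfl fun t ht => if_pos ht, sum_const, nsmul_eq_mul, mul_one]
    congr 1
    simp
    omega
  rw [e1, e2, one_mul, ← prod_const]
  refine mul_le_mul_right (prod_le_prod' fun x hx => ?_) _
  simp only [mem_erase] at hx
  simpa only [g, if_neg hx.1, if_neg hx.2.1] using hS

lemma tot_ge {u : ℤ → ℝ} {A : ℕ} {B : ℝ} (hB : ∀ k : ℤ, |k| ≤ A → u k ≤ B)
    (hs : Summable (wt (n := n) u)) :
    Real.exp (-((Ed n).card * B)) * (A + 1 : ℝ) ^ ((univ : Finset (Vx n)).erase (vz n)).card ≤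
      ∑' m : Vx n → ℤ, wt u m := by
  classical
  let t : Vx n → Finset ℤ := fun x => if x = vz n then {0} else Icc 0 (A : ℤ)
  refine le_trans ?_ (hs.sum_le_tsum (Fintype.piFinset t) fun m _ => wt_nonneg u m)
  have a1 : ∀ m ∈ Fintype.piFinset t, Real.exp (-((Ed n).card * B)) ≤ wt u m := by
    intro m hm
    rw [Fintype.mem_piFinset] at hm
    have b1 : m (vz n) = 0 := by simpa [t] using hm (vz n)
    have b2 : ∀ x, 0 ≤ m x ∧ m x ≤ A := fun x => by
      have := hm x
      simp only [t] at this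
      split_ifs at this
      · rw [mem_singleton.1 this]; simp
      · exact mem_Icc.1 this
    unfold wt
    rw [if_pos b1, Real.exp_le_exp, neg_le_neg_iff, ← nsmul_eq_mul, ← sum_const]
    exact sum_le_sum fun e _ => hB _ (abs_le.2 (by have := b2 e.1; have := b2 e.2; omega))
  refine le_trans (le_of_eq ?_) (sum_le_sum a1)
  rw [sum_const, nsmul_eq_mul, mul_comm, Fintype.card_piFinset,
    ← mul_prod_erase _ _ (mem_univ (vz n)), prod_congr rfl (g := fun _ => A + 1) fun x hx => by
      simp [t, (mem_erase.1 hx).1]]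
  simp [t]

theorem small_box {U : ℝ → ℝ} {α : ℝ} (hc : Continuous U) (he : ∀ x, U (-x) = U x) (hα : 0 < α)
    (ht : Tendsto (fun x => U x / x ^ α) atTop atTop) (h0 : ∀ x, 0 ≤ U x) (hn : 1 ≤ n) (D : ℝ) :
    ∀ᶠ M : ℝ in atTop, D ≤ (∑' m : Vx n → ℤ, (m (vl n) : ℝ) ^ 2 * wt (fun k => U (k / M)) m) /
      ∑' m : Vx n → ℤ, wt (fun k => U (k / M)) m := by
  obtain ⟨C, hC, hg⟩ := Kit.grow_real hc hα ht
  obtain ⟨B, hB⟩ := bnd hc 1
  obtain ⟨R, hR⟩ := exists_nat_ge (2 * |D| + 1)
  have ne : vl n ≠ vz n := fun h => by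
    have := congrArg (fun x : Vx n => x.1.val) h
    simp [vl, vz] at this
    omega
  have cd := card_erase_add_one (mem_erase.2 ⟨ne, mem_univ (vl n)⟩)
  set j := (((univ : Finset (Vx n)).erase (vz n)).erase (vl n)).card with hj
  set E := Real.exp (-((Ed n).card * B)) with hE
  have E0 : 0 < E := Real.exp_pos _
  filter_upwards [eventually_ge_atTop 1,
    eventually_ge_atTop (2 * ((2 * R + 1) * (24 * C) ^ j) / E)] with M M1 M2
  have M0 : 0 < M := by linarith
  have A1 := Nat.floor_le M0.le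
  have A2 := Nat.lt_floor_add_one M
  have A3 : 1 ≤ ⌊M⌋₊ := Nat.le_floor (by simpa using M1)
  generalize ⌊M⌋₊ = A at A1 A2 A3
  have A4 : (1 : ℝ) ≤ A := by exact_mod_cast A3
  obtain ⟨s0, s2⟩ := Kit.wt_sum (n := n) (grow_of hc he hα ht M0)
  have t1 := tot_ge (A := A) (B := B) (fun k hk => hB _ (by
    have : |(k : ℝ)| ≤ A := by exact_mod_cast hk
    rw [abs_div, abs_of_pos M0, div_le_one M0]; linarith)) s0
  have t2 := near_le hn (u := fun k => U (k / M)) (fun k => h0 _) R
    (S := ENNReal.ofReal (24 * C * M)) ((Kit.tail_int A3 (c := C * M ^ 2) (by positivity)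
      fun k => by
        have e : U (k / M) = U (|(k : ℝ)| / M) := by
          rcases abs_cases (k : ℝ) with h | h <;> rw [h.1]
          rw [neg_div, he]
        have := abs_nonneg (k : ℝ)
        rw [e]
        refine (hg _ (by positivity)).trans (le_trans (le_of_eq (b := C * M ^ 2 /
          (M + |(k : ℝ)|) ^ 2) (by field_simp)) ?_)
        gcongr
        exact max_le (by linarith) (by linarith)).trans (ENNReal.ofReal_le_ofReal (by
      rw [div_le_iff₀ (by positivity)]
      linarith only [mul_le_mul_of_nonneg_left (by linarith only [A2, A4] : M ≤ 2 * A)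
        (mul_pos hC M0).le])))
  generalize (fun k : ℤ => U (k / M)) = u at *
  have w0 := wt_nonneg (n := n) u
  have s1 : Summable fun m : Vx n → ℤ => if |m (vl n)| ≤ R then wt u m else 0 :=
    Summable.of_nonneg_of_le (fun m => by split_ifs; exacts [w0 m, le_rfl])
      (fun m => by split_ifs; exacts [le_rfl, w0 m]) s0
  have t3 : ∑' m : Vx n → ℤ, (if |m (vl n)| ≤ R then wt u m else 0) ≤
      (2 * R + 1) * (24 * C * M) ^ j := by
    rw [← ENNReal.ofReal_le_ofReal_iff (by positivity), ENNReal.ofReal_tsum_of_nonneg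
      (fun m => by split_ifs; exacts [w0 m, le_rfl]) s1, ENNReal.ofReal_mul (by positivity),
      ENNReal.ofReal_pow (by positivity)]
    refine le_trans (le_of_eq (tsum_congr fun m => by split_ifs <;> simp)) (t2.trans (le_of_eq ?_))
    rw [← ENNReal.ofReal_natCast]
    push_cast
    rfl
  have t4 : (R : ℝ) * ∑' m : Vx n → ℤ, wt u m ≤ ∑' m : Vx n → ℤ, (m (vl n) : ℝ) ^ 2 * wt u m +
      R * ∑' m : Vx n → ℤ, (if |m (vl n)| ≤ R then wt u m else 0) := by
    rw [← tsum_mul_left, ← tsum_mul_left, ← s2.tsum_add (s1.mul_left _)]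
    refine (s0.mul_left _).tsum_le_tsum (fun m => ?_) (s2.add (s1.mul_left _))
    have b0 := w0 m
    split_ifs with h
    · nlinarith [sq_nonneg (m (vl n) : ℝ)]
    · have b1 : (R : ℝ) + 1 ≤ |(m (vl n) : ℝ)| := by exact_mod_cast not_le.1 h
      have b2 : (R : ℝ) ≤ (m (vl n) : ℝ) ^ 2 := by
        rw [← sq_abs]; nlinarith [(Nat.cast_nonneg R : (0 : ℝ) ≤ R)]
      rw [mul_zero, add_zero]
      exact mul_le_mul_of_nonneg_right b2 b0
  have t5 : 2 * ((2 * R + 1) * (24 * C * M) ^ j) ≤ ∑' m : Vx n → ℤ, wt u m := by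
    refine le_trans ?_ t1
    rw [div_le_iff₀' E0] at M2
    rw [← cd, pow_succ, mul_pow]
    calc _ = 2 * ((2 * R + 1) * (24 * C) ^ j) * M ^ j := by ring
      _ ≤ E * M * M ^ j := by gcongr
      _ = E * (M ^ j * M) := by ring
      _ ≤ _ := by gcongr
  have pos : 0 < ∑' m : Vx n → ℤ, wt u m := s0.tsum_pos w0 0 (by simp [wt, Real.exp_pos])
  rw [le_div_iff₀ pos]
  have R0 : (0 : ℝ) ≤ R := Nat.cast_nonneg R
  nlinarith [mul_le_mul_of_nonneg_left (t3.trans (by linarith : _ ≤ (∑' m : Vx n → ℤ, wt u m) / 2))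
    R0, mul_le_mul_of_nonneg_right (by linarith [le_abs_self D] : D ≤ R / 2) pos.le]

end Pool.Agent.Lib.MP_9cc147_pr.AllU.F
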