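import Pool.Agent.Lib.MP_9cc147_pr.U.FMain
import Pool.Agent.Lib.MP_9cc147_pr.U.HScale
import Pool.Agent.Lib.MP_9cc147_pr.U.HSmall

/-! The logarithmic lower bound with any constant, in every box, from all the sections. -/

open Finset Filter
open scoped ENNReal Topology

namespace Pool.Agent.Lib.MP_9cc147_pr.AllU.F

lemma large (H : All) (A : ℝ) {U : ℝ → ℝ} {α : ℝ} (h1 : Continuous U)
    (h2 : ∀ x, U (-x) = U x) (h3 : 0 < α) (h4 : Tendsto (fun x => U x / x ^ α) atTop atTop)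
    (h5 : ∀ x, 0 ≤ U x) : ∃ (M₀ : ℝ) (n₀ : ℕ), 0 < M₀ ∧ ∀ M : ℝ, M₀ < M → ∀ n, n₀ ≤ n →
      A * Real.log (n + 1) ≤ (∑' m : Vx n → ℤ, (m (vl n) : ℝ) ^ 2 * wt (fun k => U (k / M)) m) /
        ∑' m : Vx n → ℤ, wt (fun k => U (k / M)) m := by
  obtain ⟨Γ, hΓ, hc⟩ := coreK H
  have lg : 0 < Real.log Γ := Real.log_pos (by exact_mod_cast (by omega : 1 < Γ))
  obtain ⟨q, hq⟩ := exists_nat_ge (1 + 1200 * Real.log Γ * |A|)
  have q0 : 0 ≤ 1200 * Real.log Γ * |A| := by positivity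
  have q1 : (1 : ℝ) ≤ q := by linarith
  obtain ⟨C0, ha⟩ := ana h1 h2 h3 h4 h5
  obtain ⟨Y, n0, β, e, ε, η, c1, c2, c3, c4, c5, c6, c7, hk⟩ := hc C0 q (by exact_mod_cast q1)
  obtain ⟨M₀, hM₀, hb⟩ := ha Y β e ε η c1 c2 c3 c4 c5 c6 c7
  refine ⟨M₀, max n0 (Γ ^ 802), hM₀, fun M hM n hn => ?_⟩
  obtain ⟨w0, N, w1, S, d1, d2, d3, d4⟩ := hb M hM _ fun _ => rfl
  obtain ⟨JJ, j1, j2, j3⟩ := annuli hΓ (le_of_max_le_right hn)
  have J0 : (0 : ℝ) < JJ.card := by exact_mod_cast (by omega : 0 < JJ.card)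
  obtain ⟨s0, s2⟩ := Kit.wt_sum (n := n) (grow_of h1 h2 h3 h4 (hM₀.trans hM))
  obtain ⟨lam, l2⟩ : ∃ lam : ℝ, (q * lam) ^ 2 = 400 / JJ.card :=
    ⟨Real.sqrt (400 / JJ.card) / q, by
      rw [mul_div_cancel₀ _ (by linarith), Real.sq_sqrt (by positivity)]⟩
  have k := hk _ w0 N w1 S d1 (fun k => by rw [Int.cast_neg, neg_div, h2]) d2 d3 d4 n
    (le_of_max_le_left hn) JJ lam j1 j2 l2
  simp only [gw_eq fun k : ℤ => U (k / M)] at k
  generalize (fun k : ℤ => U (k / M)) = u at *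
  have w0 := wt_nonneg (n := n) u
  have e0 := ENNReal.ofReal_tsum_of_nonneg w0 s0
  have w2 : ∀ m : Vx n → ℤ, 0 ≤ (m (vl n) : ℝ) ^ 2 * wt u m := fun m =>
    mul_nonneg (sq_nonneg _) (w0 m)
  have e2 := ENNReal.ofReal_tsum_of_nonneg w2 s2
  have k2 : ∑' m : Vx n → ℤ, ENNReal.ofReal (wt u m) *
      ENNReal.ofReal (1 - Real.cos (lam * m (vl n))) ≤ ENNReal.ofReal (lam ^ 2 / 2) *
      ∑' m : Vx n → ℤ, ENNReal.ofReal ((m (vl n) : ℝ) ^ 2 * wt u m) := by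
    rw [← ENNReal.tsum_mul_left]
    refine ENNReal.tsum_le_tsum fun m => ?_
    rw [← ENNReal.ofReal_mul (w0 m), ← ENNReal.ofReal_mul (by positivity)]
    refine ENNReal.ofReal_le_ofReal ?_
    nlinarith [mul_le_mul_of_nonneg_right (Real.one_sub_sq_div_two_le_cos (x := lam * m (vl n)))
      (w0 m)]
  have k3 := (k (e0 ▸ ENNReal.ofReal_ne_top)).trans k2
  have t2 : 0 ≤ ∑' m : Vx n → ℤ, (m (vl n) : ℝ) ^ 2 * wt u m := tsum_nonneg w2
  rw [← e0, ← e2, ← ENNReal.ofReal_mul (by positivity),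
    ← ENNReal.ofReal_mul (by positivity), ENNReal.ofReal_le_ofReal_iff (by positivity)] at k3
  have pos : 0 < ∑' m : Vx n → ℤ, wt u m := s0.tsum_pos w0 0 (by simp [wt, Real.exp_pos])
  rw [le_div_iff₀ pos]
  generalize ∑' m : Vx n → ℤ, wt u m = Z at *
  generalize ∑' m : Vx n → ℤ, (m (vl n) : ℝ) ^ 2 * wt u m = X at *
  have k4 : q ^ 2 * (JJ.card / 400) * Z ≤ X := by
    have := mul_le_mul_of_nonneg_left k3 (by positivity : (0 : ℝ) ≤ q ^ 2 * (JJ.card / 200))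
    rw [show (q : ℝ) ^ 2 * (JJ.card / 200) * (lam ^ 2 / 2 * X) =
      (q * lam) ^ 2 * (JJ.card / 400) * X by ring, l2,
      show (400 : ℝ) / JJ.card * (JJ.card / 400) = 1 by field_simp] at this
    linarith
  refine le_trans (mul_le_mul_of_nonneg_right ?_ pos.le) k4
  have L0 : 0 ≤ Real.log (n + 1) := Real.log_nonneg (by linarith [(Nat.cast_nonneg n : (0 : ℝ) ≤ n)])
  calc A * Real.log (n + 1) ≤ |A| * (3 * JJ.card * Real.log Γ) :=
        mul_le_mul (le_abs_self A) j3 L0 (abs_nonneg A)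
    _ = 1200 * Real.log Γ * |A| * (JJ.card / 400) := by ring
    _ ≤ _ := mul_le_mul_of_nonneg_right (by nlinarith) (by positivity)

lemma every (H : All) (A : ℝ) {U : ℝ → ℝ} {α : ℝ} (h1 : Continuous U)
    (h2 : ∀ x, U (-x) = U x) (h3 : 0 < α) (h4 : Tendsto (fun x => U x / x ^ α) atTop atTop)
    (h5 : ∀ x, 0 ≤ U x) : ∃ M₀ : ℝ, 0 < M₀ ∧ ∀ M : ℝ, M₀ < M → ∀ n : ℕ, 1 ≤ n →
      A * Real.log (n + 1) ≤ (∑' m : Vx n → ℤ, (m (vl n) : ℝ) ^ 2 * wt (fun k => U (k / M)) m) /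
        ∑' m : Vx n → ℤ, wt (fun k => U (k / M)) m := by
  obtain ⟨M₀, n₀, hM₀, h⟩ := large H A h1 h2 h3 h4 h5
  obtain ⟨M₁, h'⟩ := eventually_atTop.1 ((eventually_all_finset (Ico 1 n₀)).2 fun n hn =>
    small_box (n := n) h1 h2 h3 h4 h5 (mem_Ico.1 hn).1 (A * Real.log (n + 1)))
  refine ⟨max M₀ M₁, lt_max_of_lt_left hM₀, fun M hM n hn => ?_⟩
  rcases le_or_gt n₀ n with a | a
  · exact h M ((le_max_left _ _).trans_lt hM) n a
  · exact h' M ((le_max_right _ _).trans hM.le) n (mem_Ico.2 ⟨hn, a⟩)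

theorem all_main (H : All) (A : ℝ) {U : ℝ → ℝ} {α : ℝ} (h1 : Continuous U)
    (h2 : ∀ x, U (-x) = U x) (h3 : 0 < α) (h4 : Tendsto (fun x => U x / x ^ α) atTop atTop) :
    ∃ M₀ : ℝ, 0 < M₀ ∧ ∀ M : ℝ, M₀ < M → ∀ n : ℕ, 1 ≤ n →
      Summable (wt (n := n) fun k => U (k / M)) ∧
      Summable (fun m : Vx n → ℤ => (m (vl n) : ℝ) ^ 2 * wt (fun k => U (k / M)) m) ∧
      A * Real.log (n + 1) ≤ (∑' m : Vx n → ℤ, (m (vl n) : ℝ) ^ 2 * wt (fun k => U (k / M)) m) /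
        ∑' m : Vx n → ℤ, wt (fun k => U (k / M)) m := by
  obtain ⟨C, hC, hg⟩ := Kit.grow_real h1 h3 h4
  have lo : ∀ x, -Real.log C ≤ U x := by
    intro x
    have e : U x = U |x| := by
      rcases abs_cases x with a | a <;> rw [a.1]
      rw [h2]
    have a := (hg _ (abs_nonneg x)).trans (div_le_self hC.le
      (one_le_pow₀ (by linarith [abs_nonneg x])))
    rw [e, neg_le]
    exact (Real.le_log_iff_exp_le hC).2 a
  generalize -Real.log C = b at lo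
  have ht' : Tendsto (fun x => (U x - b) / x ^ α) atTop atTop := by
    refine (h4.atTop_add ((tendsto_rpow_atTop h3).const_div_atTop b).neg).congr fun x => ?_
    ring
  obtain ⟨M₀, hM₀, k⟩ := every H A (U := fun x => U x - b) (by fun_prop)
    (fun x => by simp only [h2]) h3 ht' fun x => sub_nonneg.2 (lo x)
  refine ⟨M₀, hM₀, fun M hM n hn => ?_⟩
  obtain ⟨s0, s2⟩ := Kit.wt_sum (n := n) (grow_of h1 h2 h3 h4 (hM₀.trans hM))
  refine ⟨s0, s2, (k M hM n hn).trans (le_of_eq ?_)⟩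
  have e : ∀ m : Vx n → ℤ, wt (fun k => U (k / M) - b) m =
      Real.exp ((Ed n).card * b) * wt (fun k => U (k / M)) m := by
    intro m
    unfold wt
    split_ifs
    · rw [← Real.exp_add, sum_sub_distrib, sum_const, nsmul_eq_mul]
      congr 1; ring
    · simp
  simp only [e, mul_left_comm _ (Real.exp _), tsum_mul_left]
  exact mul_div_mul_left _ _ (Real.exp_pos _).ne'

end Pool.Agent.Lib.MP_9cc147_pr.AllU.F
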