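import Pool.Agent.Lib.MP_9cc147_pr.U.PDefs
import Pool.Agent.Lib.MP_9cc147_pr.U.FProb

/-! Section P: assembly of the pieces. -/

open Finset
open scoped ENNReal

namespace Pool.Agent.Lib.MP_9cc147_pr.AllU.P

namespace Asm

lemma ex_T0 {n : ℕ} (h : Ra (2 * 0 + 1) ^ 4 ≤ n) :
    ∃ T, Ra (2 * T + 1) ^ 4 ≤ n ∧ n < Ra (2 * T + 3) ^ 4 := by
  have ex : ∃ T, n < Ra (2 * T + 3) ^ 4 := by
    refine ⟨n, ?_⟩
    have h1 := lt_sm (2 * n + 3)
    have h2 := chain (2 * n + 3)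
    exact lt_of_lt_of_le (by omega) (Nat.le_self_pow (by norm_num) _)
  classical
  refine ⟨Nat.find ex, ?_, Nat.find_spec ex⟩
  rcases hT : Nat.find ex with _ | T
  · exact h
  · have := Nat.find_min ex (m := T) (by omega)
    rw [show 2 * (T + 1) + 1 = 2 * T + 3 by ring]
    omega

lemma ex_T : ∃ n1 : ℕ, ∀ n, n1 ≤ n → ∃ T, Ra (2 * T + 1) ^ 4 ≤ n ∧ n < Ra (2 * T + 3) ^ 4 :=
  ⟨_, fun _ h => ex_T0 h⟩

lemma two_le {R n s : ℕ} (h2 : 2 ≤ R) (h : R ^ 4 ≤ n) (hs : n ≤ s ^ 2) : 2 * R ≤ s := by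
  have h1 : (R ^ 2) ^ 2 ≤ s ^ 2 := by rw [← pow_mul]; exact h.trans hs
  have h3 : R ^ 2 ≤ s := (Nat.pow_le_pow_iff_left (by norm_num)).1 h1
  nlinarith

/-- indicator against an exponential -/
lemma ind_le {Z a b s : ℕ} (h : s ≤ b) : (1 : ℝ) ≤ 2 ^ (Z * (a + b)) / 2 ^ (Z * s) := by
  rw [one_le_div (by positivity)]
  exact pow_le_pow_right₀ (by norm_num) (Nat.mul_le_mul_left _ (by omega))

lemma nn_le {Z a b s : ℕ} (hZ : 1 ≤ Z) : (a : ℝ) ≤ s + 2 ^ (Z * (a + b)) / 2 ^ (Z * s) := by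
  rcases le_total a s with h | h
  · have : (a : ℝ) ≤ s := by exact_mod_cast h
    have : (0 : ℝ) ≤ 2 ^ (Z * (a + b)) / 2 ^ (Z * s) := by positivity
    linarith
  · obtain ⟨d, rfl⟩ := Nat.exists_eq_add_of_le h
    have h1 : (2 : ℝ) ^ (Z * (s + d + b)) / 2 ^ (Z * s) = 2 ^ (Z * (d + b)) := by
      rw [div_eq_iff (by positivity), ← pow_add]; congr 1; ring
    have h2 : d ≤ 2 ^ (Z * (d + b)) :=
      le_trans (le_trans (by omega) (Nat.le_mul_of_pos_left (d + b) hZ)) Nat.lt_two_pow_self.le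
    have h3 : (d : ℝ) ≤ 2 ^ (Z * (d + b)) := by exact_mod_cast h2
    rw [h1]; push_cast; linarith

lemma min_le {c h z m s Z a : ℕ} {δ : ℝ} (hδ : 0 < δ) (hs : 0 < s) (hm : 0 < m)
    (hc : c ≤ 3 * h + 5 * z) : min 1 ((c : ℝ) / (δ * s)) ≤
      2 ^ (Z * (a + m * z)) / 2 ^ (Z * s) + 5 / (m * δ) + 3 / (δ * s) * h := by
  have s0 : (0 : ℝ) < s := by exact_mod_cast hs
  have m0 : (0 : ℝ) < m := by exact_mod_cast hm
  have p1 : (0 : ℝ) ≤ 5 / (m * δ) := by positivity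
  have p2 : (0 : ℝ) ≤ 3 / (δ * s) * h := by positivity
  have p3 : (0 : ℝ) ≤ 2 ^ (Z * (a + m * z)) / 2 ^ (Z * s) := by positivity
  rcases le_total s (m * z) with e | e
  · have := ind_le (Z := Z) (a := a) e
    exact (min_le_left _ _).trans (by linarith)
  · refine (min_le_right _ _).trans ?_
    have e1 : (m : ℝ) * z ≤ s := by exact_mod_cast e
    have e2 : (c : ℝ) ≤ 3 * h + 5 * z := by exact_mod_cast hc
    have e3 : (c : ℝ) / (δ * s) ≤ (3 * h + 5 * z) / (δ * s) := by gcongr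
    have e4 : 5 * (z : ℝ) / (δ * s) ≤ 5 / (m * δ) := by
      rw [div_le_div_iff₀ (by positivity) (by positivity)]
      nlinarith [mul_le_mul_of_nonneg_left e1 hδ.le]
    have e5 : (3 * (h : ℝ) + 5 * z) / (δ * s) = 3 / (δ * s) * h + 5 * z / (δ * s) := by ring
    linarith

lemma pow_small {C : ℝ} {Z s : ℕ} (hC : 1 ≤ C) (hZ : 2 * C ^ 7 ≤ 2 ^ Z) (hs : 0 < s) :
    C ^ (6 * s + 1) / 2 ^ (Z * s) ≤ 1 / s := by
  have s0 : (0 : ℝ) < s := by exact_mod_cast hs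
  have h1 : C ^ (6 * s + 1) ≤ (C ^ 7) ^ s := by
    rw [← pow_mul]; exact pow_le_pow_right₀ hC (by omega)
  have h2 : (2 * C ^ 7) ^ s ≤ (2 : ℝ) ^ (Z * s) := by
    rw [pow_mul]; exact pow_le_pow_left₀ (by positivity) hZ s
  have h3 : (s : ℝ) ≤ 2 ^ s := by exact_mod_cast Nat.lt_two_pow_self.le
  rw [div_le_div_iff₀ (by positivity) s0, one_mul]
  rw [mul_pow] at h2
  have h4 : (0 : ℝ) ≤ (C ^ 7) ^ s := by positivity
  nlinarith [mul_le_mul_of_nonneg_right h1 s0.le, mul_le_mul_of_nonneg_left h3 h4]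

end Asm

open Asm in
theorem pphase_of (hCov : CoverSt) (hCon : ContSt) (hNet : NetsSt) (hExp : ExpSt) (hHon : HonSt)
    (hMer : MergeSt) : PStmt := by
  classical
  intro C δ ε hC hδ hε
  obtain ⟨Z0, hZ0⟩ := pow_unbounded_of_one_lt (max (2 * C ^ 7) (12 / (δ * ε))) (one_lt_two (α := ℝ))
  obtain ⟨Z, hZ1, hZ⟩ : ∃ Z : ℕ, 1 ≤ Z ∧ max (2 * C ^ 7) (12 / (δ * ε)) ≤ (2 : ℝ) ^ Z :=
    ⟨Z0 + 1, by omega, hZ0.le.trans (pow_le_pow_right₀ (by norm_num) (by omega))⟩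
  obtain ⟨m, hm⟩ := exists_nat_gt (20 / (δ * ε))
  obtain ⟨S0, hS0⟩ := exists_nat_gt (max (max (12 / (δ * ε)) (3 / δ)) (72 / ε))
  have m0 : (0 : ℝ) < m := lt_trans (by positivity) hm
  have hm0 : 0 < m := by exact_mod_cast m0
  obtain ⟨x, x0, hx⟩ : ∃ x : ℝ, 0 < x ∧
      1024 * C ^ 8 * 4 ^ (Z * m) * x ≤ (1 / 2) ^ ((2 * Z + 300) * 4000 + 1) :=
    ⟨(1 / 2) ^ ((2 * Z + 300) * 4000 + 1) / (1024 * C ^ 8 * 4 ^ (Z * m)), by positivity,
      (mul_div_cancel₀ _ (by positivity)).le⟩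
  obtain ⟨n1, hn1⟩ := ex_T
  refine ⟨x ^ (5 * 10 ^ 17), 4 * (2 * Z + 300), max n1 (S0 ^ 2), pow_pos x0 _, fun n hn => ?_⟩
  obtain ⟨T, hT1, hT2⟩ := hn1 n ((le_max_left _ _).trans hn)
  refine ⟨2 * T + 1, fun Ω ν X pF pT s hB hF hT hs1 hs2 => ?_⟩
  have hR : 2 * Ra (2 * T + 1) ≤ s := two_le (by have := chain (2 * T + 1); omega) hT1 hs1
  have hS : S0 ≤ s := (Nat.pow_le_pow_iff_left (by norm_num)).1
    (((le_max_right _ _).trans hn).trans hs1)
  have hSs : max (max (12 / (δ * ε)) (3 / δ)) (72 / ε) < (s : ℝ) :=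
    hS0.trans_le (by exact_mod_cast hS)
  have s0 : (0 : ℝ) < s := lt_of_lt_of_le (by positivity) ((le_max_right _ _).trans hSs.le)
  have hs0 : 0 < s := by exact_mod_cast s0
  obtain ⟨hTail, hSum, hLam⟩ := hMer n (2 * T + 1) (2 * Z + 300) pF pT (by omega) hF hT
  set p := pc (n := n) (K := 2 * T + 1) pF pT with hp
  choose N hN using fun a : Ω × Finset (Hn n (2 * T + 1)) =>
    hNet n T s (Lam hlc hrc (X a.1) a.2)
  choose VV hV hc using fun a : Ω × Finset (Hn n (2 * T + 1)) =>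
    hCon n T s (Hn n (2 * T + 1)) hlc hrc (X a.1) a.2
      (rhoT a.2.toRight (rho0 (X a.1) a.2.toLeft) (2 * T + 1))
      (hCov n T s a.2.toRight (rho0 (X a.1) a.2.toLeft) _ (hLam (X a.1) a.2).1
        (hLam (X a.1) a.2).2 (by omega) hs2)
  have hE := hExp n T s Z m (Hn n (2 * T + 1)) hlc hrc p Ω ν X C x N VV hC x0.le hT2 hR hTail hB
    hx hN hV
  have w0 : ∀ hs, 0 ≤ pw p hs := F.pw_nonneg fun h => ⟨(hTail.1 h).1, by linarith [(hTail.1 h).2.1]⟩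
  set G : Ω × Finset (Hn n (2 * T + 1)) → ℝ := fun a =>
    2 ^ (Z * (NN T (N a) + m * sz (VV a))) / 2 ^ (Z * s) with hG
  have G0 : ∀ a, 0 ≤ G a := fun a => by positivity
  have n1 : 5 / (m * δ) ≤ ε / 4 := by
    rw [div_lt_iff₀ (by positivity)] at hm
    rw [div_le_div_iff₀ (by positivity) (by norm_num)]
    nlinarith
  have n2 : 3 / (δ * s) ≤ ε / 4 := by
    have := ((le_max_left _ _).trans (le_max_left _ _)).trans_lt hSs
    rw [div_lt_iff₀ (by positivity)] at this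
    rw [div_le_div_iff₀ (by positivity) (by norm_num)]
    nlinarith
  have n3 : 3 / (δ * s) ≤ 1 := by
    have := ((le_max_right _ _).trans (le_max_left _ _)).trans_lt hSs
    rw [div_lt_iff₀ (by positivity)] at this
    rw [div_le_one (by positivity)]
    nlinarith
  have n4 : (1 / 2 : ℝ) ^ (Z + 150) ≤ 1 := pow_le_one₀ (by norm_num) (by norm_num)
  have n5 : 3 / (δ * s) * ((1 / 2) ^ (Z + 150) * s) ≤ ε / 4 := by
    have h1 := (le_max_right _ _).trans hZ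
    rw [div_le_iff₀ (by positivity)] at h1
    have h2 : (1 / 2 : ℝ) ^ (Z + 150) ≤ 1 / 2 ^ Z := by
      rw [← one_div_pow]; exact pow_le_pow_of_le_one (by norm_num) (by norm_num) (by omega)
    have h3 : 3 / (δ * s) * ((1 / 2 : ℝ) ^ (Z + 150) * s) = 3 / δ * (1 / 2) ^ (Z + 150) := by
      field_simp
    rw [h3]
    refine (mul_le_mul_of_nonneg_left h2 (by positivity)).trans ?_
    rw [div_mul_div_comm, div_le_div_iff₀ (by positivity) (by norm_num)]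
    nlinarith
  have key : ∀ ω, ∑ fl : Finset (Fin (n + 1) × Vx n), ∑ ξ : Finset (Fin (2 * T + 1) × Vx n),
      pw (fun a => pF a.1) fl * pw (fun a => pT a.1) ξ *
        min 1 (Cont (rhoT ξ (rho0 (X ω) fl) (2 * T + 1)) s / (δ * s)) ≤
      3 * ε / 4 + 2 * ∑ hs, pw p hs * G (ω, hs) := by
    intro ω
    rw [hSum fun fl ξ => min 1 (Cont (rhoT ξ (rho0 (X ω) fl) (2 * T + 1)) s / (δ * s))]
    have a1 := hHon n T s (Z + 150) (Hn n (2 * T + 1)) hlc hrc p (X ω) (fun hs => N (ω, hs))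
      (by omega) hT2 (by rw [show 2 * (Z + 150) = 2 * Z + 300 by ring]; exact hTail)
      fun hs => hN (ω, hs)
    have a2 : ∑ hs, pw p hs * (NN T (N (ω, hs)) : ℝ) ≤ s + ∑ hs, pw p hs * G (ω, hs) := by
      refine (sum_le_sum fun hs _ => mul_le_mul_of_nonneg_left
        (nn_le (s := s) (b := m * sz (VV (ω, hs))) hZ1) (w0 hs)).trans (le_of_eq ?_)
      simp only [mul_add, sum_add_distrib, ← sum_mul, F.pw_sum, one_mul, hG]
    refine (sum_le_sum fun hs _ => mul_le_mul_of_nonneg_left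
      (min_le (Z := Z) (a := NN T (N (ω, hs))) hδ hs0 hm0 (hc (ω, hs))) (w0 hs)).trans ?_
    have a3 : ∑ hs, pw p hs * (G (ω, hs) + 5 / (m * δ) +
        3 / (δ * s) * (hon hlc hrc s T (X ω) hs : ℝ)) = ∑ hs, pw p hs * G (ω, hs) + 5 / (m * δ) +
        3 / (δ * s) * ∑ hs, pw p hs * (hon hlc hrc s T (X ω) hs : ℝ) := by
      simp only [mul_add, sum_add_distrib, ← sum_mul, F.pw_sum, one_mul, mul_sum,
        mul_left_comm (3 / (δ * s))]
    refine (le_of_eq a3).trans ?_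
    have a4 : 0 ≤ ∑ hs, pw p hs * G (ω, hs) := sum_nonneg fun hs _ => mul_nonneg (w0 hs) (G0 _)
    have a5 : (0 : ℝ) ≤ 3 / (δ * s) := by positivity
    have a6 : (0 : ℝ) ≤ (1 / 2) ^ (Z + 150) := by positivity
    have a7 := mul_le_mul_of_nonneg_left
      (a1.trans (add_le_add_right (mul_le_mul_of_nonneg_left a2 a6) 1)) a5
    have a8 : 3 / (δ * s) * ((1 / 2) ^ (Z + 150) * ∑ hs, pw p hs * G (ω, hs)) ≤
        ∑ hs, pw p hs * G (ω, hs) := by
      rw [← mul_assoc]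
      exact mul_le_of_le_one_left a4 (mul_le_one₀ n3 a6 n4)
    rw [mul_add, mul_add, mul_add, mul_one] at a7
    linarith
  have b1 : ∀ ω, ν ω * ENNReal.ofReal (3 * ε / 4 + 2 * ∑ hs, pw p hs * G (ω, hs)) =
      ENNReal.ofReal (3 * ε / 4) * ν ω + ENNReal.ofReal (2 / 2 ^ (Z * s)) *
        ∑' hs, ν ω * ENNReal.ofReal (pw p hs) *
          2 ^ (Z * (NN T (N (ω, hs)) + m * sz (VV (ω, hs)))) := by
    intro ω
    rw [ENNReal.ofReal_add (by positivity) (mul_nonneg (by norm_num)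
      (sum_nonneg fun hs _ => mul_nonneg (w0 hs) (G0 _))), mul_add, mul_comm (ν ω), mul_sum,
      ENNReal.ofReal_sum_of_nonneg fun hs _ => mul_nonneg (by norm_num) (mul_nonneg (w0 hs) (G0 _)),
      tsum_fintype, mul_sum, mul_sum]
    congr 1
    refine sum_congr rfl fun hs _ => ?_
    have : 2 * (pw p hs * G (ω, hs)) = 2 / 2 ^ (Z * s) *
        (pw p hs * 2 ^ (Z * (NN T (N (ω, hs)) + m * sz (VV (ω, hs))))) := by
      simp only [hG]; ring
    rw [this, ENNReal.ofReal_mul (by positivity), ENNReal.ofReal_mul (w0 hs),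
      ENNReal.ofReal_pow (by norm_num), ENNReal.ofReal_ofNat]
    ring
  refine (ENNReal.tsum_le_tsum fun ω => mul_le_mul_right (ENNReal.ofReal_le_ofReal (key ω)) _).trans ?_
  rw [tsum_congr b1, ENNReal.tsum_add, ENNReal.tsum_mul_left, ENNReal.tsum_mul_left,
    ← ENNReal.tsum_prod (f := fun ω hs => ν ω * ENNReal.ofReal (pw p hs) *
      2 ^ (Z * (NN T (N (ω, hs)) + m * sz (VV (ω, hs)))))]
  refine (add_le_add_right (mul_le_mul_right hE _) _).trans ?_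
  rw [← mul_assoc, ← add_mul]
  refine mul_le_mul_left ?_ _
  rw [show (9 : ℝ≥0∞) = ENNReal.ofReal 9 from (ENNReal.ofReal_ofNat 9).symm,
    ← ENNReal.ofReal_mul (by norm_num), ← ENNReal.ofReal_mul (by positivity),
    ← ENNReal.ofReal_add (by positivity) (by positivity)]
  refine ENNReal.ofReal_le_ofReal ?_
  have c1 := pow_small hC ((le_max_left _ _).trans hZ) hs0
  have c2 : 18 * (1 / (s : ℝ)) ≤ ε / 4 := by
    have := (le_max_right _ _).trans_lt hSs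
    rw [div_lt_iff₀ hε] at this
    rw [mul_one_div, div_le_div_iff₀ s0 (by norm_num)]
    nlinarith
  have c3 : 2 / 2 ^ (Z * s) * (9 * C ^ (6 * s + 1)) = 18 * (C ^ (6 * s + 1) / 2 ^ (Z * s)) := by ring
  rw [c3]
  linarith

end Pool.Agent.Lib.MP_9cc147_pr.AllU.P
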