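import Pool.Agent.Lib.MP_9cc147_pr.U.Defs

/-! Section P: which pins survive the typical phase (deterministic part). -/

open Finset

namespace Pool.Agent.Lib.MP_9cc147_pr.AllU.P

variable {n : ℕ}

/-! ### scales -/

def sm (k : ℕ) : ℕ := 2 ^ (ta k - ta k / 16)

lemma ta_ge (k : ℕ) : 4000 + 1000 * k ≤ ta k := by
  induction k with
  | zero => simp [ta]
  | succ k ih => rw [ta]; omega

lemma ta_mono : Monotone ta := monotone_nat_of_le_succ fun k => by rw [ta]; omega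

lemma p2 {a b : ℕ} (c : ℕ) (h : a + c ≤ b) : 2 ^ c * 2 ^ a ≤ 2 ^ b := by
  rw [← pow_add]; exact Nat.pow_le_pow_right (by norm_num) (by omega)

lemma sm_Ra (k : ℕ) : 1024 * sm k ≤ Ra k := p2 10 (by have := ta_ge k; omega)
lemma Ra_Jt (k : ℕ) : 1024 * Ra k ≤ Jt k := p2 10 (by have := ta_ge k; omega)
lemma It_eq (k : ℕ) : It k = 1024 * Jt k := rfl
lemma It_sm (k : ℕ) : 1024 * It k ≤ sm (k + 1) := by
  have := p2 (a := ta k + ta k / 8) (b := ta (k + 1) - ta (k + 1) / 16) 20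
    (by have := ta_ge k; rw [ta]; omega)
  unfold It Jt sm
  omega
lemma sm_pos (k : ℕ) : 1024 ≤ sm k := by
  have := p2 (a := 0) (b := ta k - ta k / 16) 10 (by have := ta_ge k; omega)
  unfold sm
  omega
lemma sm_mono : Monotone sm := monotone_nat_of_le_succ fun k => by
  have := sm_Ra k; have := Ra_Jt k; have := It_eq k; have := It_sm k; omega
lemma Ra_mono : Monotone Ra := fun _ _ h => Nat.pow_le_pow_right (by norm_num) (ta_mono h)
lemma lt_sm (k : ℕ) : k < sm k :=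
  Nat.lt_two_pow_self.trans_le (Nat.pow_le_pow_right (by norm_num) (by have := ta_ge k; omega))

/-- level of a radius -/
noncomputable def lev (r : ℕ) : ℕ := sInf {i | r ≤ sm i}

lemma le_sm_lev (r : ℕ) : r ≤ sm (lev r) := Nat.sInf_mem (s := {i | r ≤ sm i}) ⟨r, (lt_sm r).le⟩
lemma lev_le {r k : ℕ} : lev r ≤ k ↔ r ≤ sm k :=
  ⟨fun h => (le_sm_lev r).trans (sm_mono h), fun h => Nat.sInf_le h⟩
lemma lt_lev {r k : ℕ} : k < lev r ↔ sm k < r := by rw [← not_le, lev_le, not_le]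
lemma lev_mono : Monotone lev := fun _ b h => lev_le.2 (h.trans (le_sm_lev b))
lemma lev_Jt (k : ℕ) : lev (2 * Jt k) = k + 1 := by
  have := sm_Ra k; have := Ra_Jt k; have := It_eq k; have := It_sm k; have := sm_pos k
  exact le_antisymm (lev_le.2 (by omega)) (lt_lev.2 (by omega))

def ee : ℕ → ℕ
  | 0 => 0
  | k + 1 => 2 * It k

lemma ee_sm (k : ℕ) : ee k ≤ sm k := by
  cases k with
  | zero => exact Nat.zero_le _
  | succ k => have := It_sm k; rw [ee]; omega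

/-- bad points; `Lab k x` says that a label of level `k` sits at `x` -/
def Bad (Lab : ℕ → Vx n → Prop) : ℕ → Vx n → Prop
  | 0, y => Lab 0 y
  | k + 1, y => (∃ x, Lab (k + 1) x ∧ ds y x ≤ 3 * sm (k + 1)) ∨
      ∃ a b, Bad Lab k a ∧ Bad Lab k b ∧ ds y a ≤ 3 * It k ∧ ds y b ≤ 3 * It k ∧ Ra k < 2 * ds a b

lemma Bad.mono {Lab Lab' : ℕ → Vx n → Prop} (h : ∀ k x, Lab k x → Lab' k x) :
    ∀ {k : ℕ} {y : Vx n}, Bad Lab k y → Bad Lab' k y
  | 0, _, a => h _ _ a
  | _ + 1, _, Or.inl ⟨x, a, b⟩ => Or.inl ⟨x, h _ _ a, b⟩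
  | _ + 1, _, Or.inr ⟨a, b, c, d, e⟩ => Or.inr ⟨a, b, c.mono h, d.mono h, e⟩

/-! ### one level -/

section Level
variable {k : ℕ} {bad : Vx n → Prop} {ρ ρ' : Vx n → ℕ} {x z : Vx n}

def Stt (k : ℕ) (bad : Vx n → Prop) (ρ ρ' : Vx n → ℕ) : Prop :=
  (∀ z, ρ' z = 0 ∨ ρ' z = ρ z ∨ (ρ' z = 2 * Jt k ∧ bad z ∧ 0 < ρ z ∧ ρ z ≤ Ra k)) ∧
    ∀ o, 0 < ρ o → ρ' o = 0 → ρ o ≤ Ra k ∧ ∀ z, ds o z + Ra k ≤ It k → ρ' z = 0

lemma tstep_zero (h : ρ' z = 0) : tstep k bad ρ' x z = 0 := by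
  unfold tstep
  split_ifs with h1 h2
  · have : z ≠ x := fun e => by have := h1.1; rw [← e] at this; omega
    rw [Function.update_of_ne this, h]
  · simp [h]
  · exact h

lemma fold_zero (L : List (Vx n)) (h : ρ' z = 0) : L.foldl (tstep k bad) ρ' z = 0 := by
  induction L generalizing ρ' with
  | nil => exact h
  | cons x L ih => exact ih (tstep_zero h)

lemma Stt.step (h : Stt k bad ρ ρ') (x : Vx n) : Stt k bad ρ (tstep k bad ρ' x) := by
  have s1 := Ra_Jt k; have s2 := It_eq k; have s3 := sm_Ra k; have s4 := sm_pos k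
  by_cases h1 : TCond ρ' k x
  swap
  · simpa [tstep, h1] using h
  have hx := h1.2.2.2 x h1.1 (by simp)
  have hx0 := h1.1
  rw [ds_self] at hx
  by_cases h2 : bad x
  · have e : tstep k bad ρ' x = Function.update ρ' x (2 * Jt k) := by simp [tstep, h1, h2]
    refine ⟨fun z => ?_, fun o ho e0 => ?_⟩
    · rw [e]
      by_cases c : z = x
      · subst c
        rw [Function.update_self]
        have := h.1 z
        exact Or.inr (Or.inr ⟨rfl, h2, by omega, by omega⟩)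
      · rw [Function.update_of_ne c]; exact h.1 z
    · have c : o ≠ x := fun c => by rw [e, c, Function.update_self] at e0; omega
      rw [e, Function.update_of_ne c] at e0
      exact ⟨(h.2 o ho e0).1, fun z hz => tstep_zero ((h.2 o ho e0).2 z hz)⟩
  · have e : ∀ z, tstep k bad ρ' x z = if ds x z ≤ Ra k then 0 else ρ' z := by
      intro z; simp [tstep, h1, h2]
    refine ⟨fun z => ?_, fun o ho e0 => ?_⟩
    · rw [e]
      split_ifs
      · exact Or.inl rfl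
      · exact h.1 z
    · by_cases c : ρ' o = 0
      · exact ⟨(h.2 o ho c).1, fun z hz => tstep_zero ((h.2 o ho c).2 z hz)⟩
      rw [e] at e0
      have c1 : ds x o ≤ Ra k := by
        by_contra c1
        rw [if_neg c1] at e0
        exact c e0
      have c2 := h1.2.2.2 o (by omega) (by omega)
      refine ⟨by have := h.1 o; omega, fun z hz => ?_⟩
      by_cases c3 : ρ' z = 0
      · exact tstep_zero c3
      have := ds_tri x o z
      have := h1.2.2.2 z (by omega) (by omega)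
      rw [e, if_pos (by omega)]

lemma Stt.fold (L : List (Vx n)) (h : Stt k bad ρ ρ') : Stt k bad ρ (L.foldl (tstep k bad) ρ') := by
  induction L generalizing ρ' with
  | nil => exact h
  | cons x L ih => exact ih (h.step x)

lemma Stt.refl : Stt k bad ρ ρ := ⟨fun _ => Or.inr (Or.inl rfl), fun _ a b => by omega⟩

lemma Stt.slot (L : List (Vx n)) (h : Stt k bad ρ ρ') (hz : z ∈ L)
    (h0 : 0 < L.foldl (tstep k bad) ρ' z) :
    bad z ∨ ∃ σ, Stt k bad ρ σ ∧ 0 < σ z ∧ ¬ TCond σ k z := by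
  induction L generalizing ρ' with
  | nil => simp at hz
  | cons x L ih =>
    by_cases c : z ∈ L
    · exact ih (h.step x) c h0
    obtain rfl : z = x := by simpa [c] using hz
    have p : tstep k bad ρ' z z ≠ 0 := fun e => by
      rw [List.foldl_cons, fold_zero L e] at h0; omega
    by_cases h1 : TCond ρ' k z
    · by_contra hb
      exact p (by simp [tstep, h1, (not_or.1 hb).1])
    · exact Or.inr ⟨ρ', h, Nat.pos_of_ne_zero fun e => p (tstep_zero e), h1⟩

end Level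

/-! ### all levels -/

section All
variable {K : ℕ} {ξ : Finset (Fin K × Vx n)} {ρ : Vx n → ℕ} {z : Vx n}

/-- failure at level `k` -/
def Fl (ξ : Finset (Fin K × Vx n)) (k : ℕ) (z : Vx n) : Prop := ∃ h : k < K, (⟨k, h⟩, z) ∈ ξ

lemma stt_rhoT (ξ : Finset (Fin K × Vx n)) (ρ : Vx n → ℕ) (k : ℕ) :
    Stt k (Fl ξ k) (rhoT ξ ρ k) (rhoT ξ ρ (k + 1)) := Stt.fold _ Stt.refl

lemma rhoT_pos {k k' : ℕ} (h : k ≤ k') (h0 : 0 < rhoT ξ ρ k' z) : 0 < rhoT ξ ρ k z := by
  induction h with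
  | refl => exact h0
  | @step m _ ih => exact ih (by have := (stt_rhoT ξ ρ m).1 z; have e : m.succ = m + 1 := rfl; rw [e] at h0; omega)

/-- the radius of a pin is the initial one or that of a failure -/
lemma rhoT_src (ξ : Finset (Fin K × Vx n)) (ρ : Vx n → ℕ) (k : ℕ) (z : Vx n) :
    rhoT ξ ρ k z = 0 ∨ rhoT ξ ρ k z = ρ z ∨
      ∃ j < k, rhoT ξ ρ k z = 2 * Jt j ∧ Fl ξ j z ∧ 0 < ρ z ∧ ρ z ≤ Ra j := by
  induction k with
  | zero => exact Or.inr (Or.inl rfl)
  | succ k ih =>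
    rcases (stt_rhoT ξ ρ k).1 z with a | a | ⟨a, b, c, d⟩
    · exact Or.inl a
    · rw [a]
      rcases ih with e | e | ⟨j, hj, e⟩
      · exact Or.inl e
      · exact Or.inr (Or.inl e)
      · exact Or.inr (Or.inr ⟨j, by omega, e⟩)
    · refine Or.inr (Or.inr ⟨k, by omega, a, b, ?_⟩)
      rcases ih with e | e | ⟨j, hj, -, -, e1, e2⟩
      · omega
      · omega
      · exact ⟨e1, e2.trans (Ra_mono hj.le)⟩

variable {Lab : ℕ → Vx n → Prop}

theorem claim (H0 : ∀ z, 0 < ρ z → (ρ z = 1 ∧ (z = vz n ∨ z = vl n)) ∨ Lab (lev (ρ z)) z)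
    (H1 : ∀ k z, Fl ξ k z → Lab (k + 1) z) (k : ℕ) : ∀ z, 0 < rhoT ξ ρ k z →
    Bad Lab k z ∨ (∃ o, k < lev (ρ o) ∧ ds z o ≤ ρ o + ee k) ∨ ds z (vz n) ≤ ee k ∨
      ds z (vl n) ≤ ee k := by
  induction k with
  | zero =>
    intro z hz
    rcases H0 z hz with ⟨_, e | e⟩ | a
    · simp [e]
    · simp [e]
    · by_cases c : lev (ρ z) = 0
      · exact Or.inl (by rwa [c] at a)
      · exact Or.inr (Or.inl ⟨z, by omega, by simp⟩)
  | succ k ih =>
    intro z hz
    have s1 := Ra_Jt k; have s2 := It_eq k; have s3 := sm_Ra k; have s4 := sm_pos k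
    have s5 := It_sm k; have s6 := ee_sm k
    have e1 : ee (k + 1) = 2 * It k := rfl
    -- a big initial pin nearby
    have big : ∀ o, k < lev (ρ o) → ds z o ≤ ρ o + 2 * It k → Bad Lab (k + 1) z ∨
        (∃ o, k + 1 < lev (ρ o) ∧ ds z o ≤ ρ o + ee (k + 1)) ∨ ds z (vz n) ≤ ee (k + 1) ∨
          ds z (vl n) ≤ ee (k + 1) := by
      intro o h1 h2
      by_cases c : k + 1 < lev (ρ o)
      · exact Or.inr (Or.inl ⟨o, c, h2⟩)
      have c1 : lev (ρ o) = k + 1 := by omega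
      have c2 := lt_lev.1 h1
      have c3 := lev_le.1 c1.le
      rcases H0 o (by omega) with a | a
      · omega
      · exact Or.inl (Or.inl ⟨o, c1 ▸ a, by omega⟩)
    rcases Stt.slot (k := k) (bad := Fl ξ k) (ρ := rhoT ξ ρ k) _ Stt.refl
      (mem_toList.2 (mem_univ z)) hz with a | ⟨σ, hσ, h0, hn⟩
    · exact Or.inl (Or.inl ⟨z, H1 k z a, by simp⟩)
    by_cases c1 : ds z (vz n) ≤ It k
    · exact Or.inr (Or.inr (Or.inl (by omega)))
    by_cases c2 : ds z (vl n) ≤ It k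
    · exact Or.inr (Or.inr (Or.inr (by omega)))
    obtain ⟨y, y0, y1, y2⟩ : ∃ y, 0 < σ y ∧ ds z y ≤ It k + σ y ∧ Ra k < ds z y + σ y := by
      by_contra hc
      push Not at hc
      exact hn ⟨h0, by omega, by omega, hc⟩
    rcases hσ.1 y with a | a | ⟨a, b, -⟩
    · omega
    swap
    · exact Or.inl (Or.inl ⟨y, H1 k y b, by omega⟩)
    by_cases c3 : sm k < σ y
    · rcases rhoT_src ξ ρ k y with b | b | ⟨j, hj, b, -⟩
      · omega
      · exact big y (lt_lev.2 (by omega)) (by omega)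
      · have := lev_le.1 ((lev_Jt j).le.trans hj)
        omega
    have hz' := rhoT_pos (Nat.le_succ k) hz
    have t1 := ds_tri z y (vz n)
    have t2 := ds_tri z y (vl n)
    rcases ih z hz' with b | ⟨o, b1, b2⟩ | b | b
    · rcases ih y (by omega) with d | ⟨o, d1, d2⟩ | d | d
      · exact Or.inl (Or.inr ⟨z, y, b, d, by simp, by omega, by omega⟩)
      · have := ds_tri z y o
        exact big o d1 (by omega)
      · exact Or.inr (Or.inr (Or.inl (by omega)))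
      · exact Or.inr (Or.inr (Or.inr (by omega)))
    · exact big o b1 (by omega)
    · omega
    · omega

/-- bad at all levels from `k` to `K` -/
def TB (Lab : ℕ → Vx n → Prop) (K k : ℕ) (y : Vx n) : Prop := ∀ k', k ≤ k' → k' ≤ K → Bad Lab k' y

/-- primary survivors; `Hon z` says that the initial radius at `z` comes from a label -/
def Prim (Lab : ℕ → Vx n → Prop) (Hon : Vx n → Prop) (ξ : Finset (Fin K × Vx n)) (ρ : Vx n → ℕ)
    (z : Vx n) : Prop :=
  0 < rhoT ξ ρ K z ∧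
    ((rhoT ξ ρ K z = ρ z ∧ Hon z) ∨ ∃ j < K, rhoT ξ ρ K z = 2 * Jt j ∧ Fl ξ j z) ∧
    (K < lev (rhoT ξ ρ K z) ∨
      ∃ y, ds z y ≤ 3 * sm (lev (rhoT ξ ρ K z)) ∧ TB Lab K (lev (rhoT ξ ρ K z)) y)

lemma ds_vz_vl : ds (vz n) (vl n) = n := by simp [ds, vz, vl]

theorem cover {Hon : Vx n → Prop} {s : ℕ}
    (H0 : ∀ z, 0 < ρ z → (ρ z = 1 ∧ (z = vz n ∨ z = vl n)) ∨ Hon z)
    (HL : ∀ z, Hon z → Lab (lev (ρ z)) z) (H1 : ∀ k z, Fl ξ k z → Lab (k + 1) z)
    (hs : 2 * sm K ≤ s) (hn : 5 * s ≤ n) (hz : 0 < rhoT ξ ρ K z)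
    (h1 : s < ds (vz n) z + rhoT ξ ρ K z) (h2 : ds (vz n) z < 4 * s + rhoT ξ ρ K z) :
    ∃ o, Prim Lab Hon ξ ρ o ∧ ds o z + rhoT ξ ρ K z ≤ 3 * rhoT ξ ρ K o := by
  classical
  have s0 := sm_pos K
  have dv := ds_vz_vl (n := n)
  by_cases hP : K < lev (rhoT ξ ρ K z) ∨ TB Lab K (lev (rhoT ξ ρ K z)) z
  · refine ⟨z, ⟨hz, ?_, hP.imp id fun a => ⟨z, by simp, a⟩⟩, by rw [ds_self]; omega⟩
    rcases rhoT_src ξ ρ K z with a | a | ⟨j, hj, a, b, -⟩
    · omega
    · rcases H0 z (by omega) with ⟨b, e | e⟩ | b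
      · rw [e, ds_self] at h1; rw [e] at a b; omega
      · rw [e] at h2 a b; omega
      · exact Or.inl ⟨a, b⟩
    · exact Or.inr ⟨j, hj, a, b⟩
  rw [not_or, not_lt, TB] at hP
  obtain ⟨hL, hB⟩ := hP
  push Not at hB
  obtain ⟨k1, a1, a2, a3⟩ := hB
  have g1 : ¬ Bad Lab (Nat.findGreatest (fun k => ¬ Bad Lab k z) K) z :=
    Nat.findGreatest_spec (P := fun k => ¬ Bad Lab k z) a2 a3
  have g2 : k1 ≤ Nat.findGreatest (fun k => ¬ Bad Lab k z) K := Nat.le_findGreatest a2 a3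
  have g3 : Nat.findGreatest (fun k => ¬ Bad Lab k z) K ≤ K := Nat.findGreatest_le K
  have g4 : TB Lab K (Nat.findGreatest (fun k => ¬ Bad Lab k z) K + 1) z := fun k' b1 b2 =>
    not_not.1 (Nat.findGreatest_is_greatest (P := fun k => ¬ Bad Lab k z) (by omega) b2)
  generalize Nat.findGreatest (fun k => ¬ Bad Lab k z) K = k0 at g1 g2 g3 g4
  have r1 : rhoT ξ ρ K z ≤ sm k0 := lev_le.1 (by omega)
  have r2 := sm_mono g3
  have r3 := ee_sm k0
  have r4 := sm_pos k0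
  rcases claim (Lab := Lab) (fun z a => (H0 z a).imp id (HL z)) H1 k0 z (rhoT_pos g3 hz) with
    b | ⟨o, b1, b2⟩ | b | b
  · exact absurd b g1
  rotate_left
  · have := ds_comm z (vz n); omega
  · have := ds_tri (vz n) z (vl n); omega
  have c1 := lt_lev.1 b1
  have c2 := ds_comm z o
  have surv : ∀ k ≤ K, 0 < rhoT ξ ρ k o := by
    intro k
    induction k with
    | zero => exact fun _ => show 0 < ρ o by omega
    | succ k ih =>
      intro hk
      have i := ih (by omega)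
      by_contra hc
      obtain ⟨d1, d2⟩ := (stt_rhoT ξ ρ k).2 o i (by omega)
      have d3 : ρ o ≤ Ra k := by
        rcases rhoT_src ξ ρ k o with a | a | ⟨j, hj, -, -, -, a⟩
        · omega
        · omega
        · exact a.trans (Ra_mono hj.le)
      have s1 := Ra_Jt k; have s2 := It_eq k
      have := d2 z (by omega)
      have := rhoT_pos hk hz
      omega
  have sK := surv K le_rfl
  have src : ρ o ≤ rhoT ξ ρ K o ∧
      ((rhoT ξ ρ K o = ρ o ∧ Hon o) ∨ ∃ j < K, rhoT ξ ρ K o = 2 * Jt j ∧ Fl ξ j o) := by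
    rcases rhoT_src ξ ρ K o with a | a | ⟨j, hj, a, b, -, d⟩
    · omega
    · rcases H0 o (by omega) with b | b
      · omega
      · exact ⟨a.ge, Or.inl ⟨a, b⟩⟩
    · exact ⟨by have := Ra_Jt j; omega, Or.inr ⟨j, hj, a, b⟩⟩
  have c3 := lev_mono src.1
  have c4 := le_sm_lev (rhoT ξ ρ K o)
  have c5 := src.1
  exact ⟨o, ⟨sK, src.2, Or.inr ⟨z, by omega, fun k' b1 b2 => g4 k' (by omega) b2⟩⟩, by omega⟩

end All

end Pool.Agent.Lib.MP_9cc147_pr.AllU.P
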