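import Pool.Agent.Lib.MP_9cc147_pr.U.Defs

/-! Section P: scales, bad points, nets, labels, and the statements of the pieces. -/

open Finset
open scoped ENNReal

namespace Pool.Agent.Lib.MP_9cc147_pr.AllU.P

variable {n : ℕ}

/-! ### scales -/

def sm (k : ℕ) : ℕ := 2 ^ (ta k - ta k / 16)
/-- separation of the net of index `I` -/
def Dd (I : ℕ) : ℕ := 2 ^ (ta (2 * I + 1) - 4)
/-- level of a radius -/
noncomputable def lv (r : ℕ) : ℕ := sInf {i | r ≤ sm i}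

lemma ta_ge (k : ℕ) : 4000 + 1000 * k ≤ ta k := by
  induction k with
  | zero => simp [ta]
  | succ k ih => rw [ta]; omega

lemma ta_succ (k : ℕ) : 4 * ta (k + 1) ≤ 5 * ta k ∧ 5 * ta k ≤ 4 * ta (k + 1) + 3 := by
  rw [ta]; omega

lemma ta_mono : Monotone ta := monotone_nat_of_le_succ fun k => by rw [ta]; omega

lemma pw2 {a b c : ℕ} (h : a + b ≤ c) : 2 ^ a * 2 ^ b ≤ 2 ^ c := by
  rw [← pow_add]; exact Nat.pow_le_pow_right (by norm_num) h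

lemma sm_Ra (k : ℕ) : 2 ^ (k + 77) * sm k ≤ Ra k := pw2 (by have := ta_ge k; omega)
lemma sm_sm (k : ℕ) : 2 ^ (k + 71) * sm k ≤ sm (k + 1) :=
  pw2 (by have := ta_ge k; have := ta_succ k; omega)

lemma chain (k : ℕ) : 1000 ≤ sm k ∧ 16000 * sm k ≤ Ra k ∧ 1000 * Ra k ≤ Jt k ∧
    It k = 1024 * Jt k ∧ 1000 * It k ≤ sm (k + 1) := by
  have h0 := ta_ge k
  have h1 := ta_succ k
  have a1 : 2 ^ 10 * 2 ^ 0 ≤ sm k := pw2 (by omega)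
  have a2 : 2 ^ 14 * sm k ≤ Ra k := pw2 (by omega)
  have a3 : 2 ^ 10 * Ra k ≤ Jt k := pw2 (by omega)
  have a4 : 2 ^ 20 * Jt k ≤ sm (k + 1) := pw2 (by omega)
  refine ⟨by omega, by omega, by omega, rfl, ?_⟩
  unfold It; omega

lemma Dd_eq (I : ℕ) : 16 * Dd I = Ra (2 * I + 1) := by
  have := ta_ge (2 * I + 1)
  unfold Dd Ra
  rw [show (16 : ℕ) = 2 ^ 4 by norm_num, ← pow_add]
  congr 1; omega

lemma sm_mono : Monotone sm := monotone_nat_of_le_succ fun k => by have := chain k; omega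
lemma Ra_mono : Monotone Ra := monotone_nat_of_le_succ fun k => by
  have := chain k; have := chain (k + 1); omega
lemma It_mono : Monotone It := monotone_nat_of_le_succ fun k => by
  have := chain k; have := chain (k + 1); omega

lemma ta_le_sm (k : ℕ) : ta (k + 1) ≤ sm k := by
  have h0 := ta_ge k
  have h1 := ta_succ k
  have h2 : ta k - ta k / 16 - 1 < 2 ^ (ta k - ta k / 16 - 1) := Nat.lt_two_pow_self
  have h3 : 2 ^ 1 * 2 ^ (ta k - ta k / 16 - 1) ≤ sm k := pw2 (by omega)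
  omega

lemma lt_sm (k : ℕ) : k < sm k := by have := ta_le_sm k; have := ta_ge (k + 1); omega
lemma lv_le {r i : ℕ} (h : r ≤ sm i) : lv r ≤ i := Nat.sInf_le h
lemma le_sm_lv (r : ℕ) : r ≤ sm (lv r) :=
  Nat.sInf_mem (s := {i | r ≤ sm i}) ⟨r, (lt_sm r).le⟩
lemma lv_le_iff {r i : ℕ} : lv r ≤ i ↔ r ≤ sm i :=
  ⟨fun h => (le_sm_lv r).trans (sm_mono h), lv_le⟩
lemma lt_lv_iff {r i : ℕ} : i < lv r ↔ sm i < r := by rw [← not_le, lv_le_iff, not_le]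
lemma lv_fail (k : ℕ) : lv (2 * Jt k) = k + 1 := by
  have := chain k
  exact le_antisymm (lv_le (by omega)) (lt_lv_iff.2 (by omega))

lemma ball_le (y : Vx n) (t : ℕ) : (univ.filter fun x => ds y x ≤ t).card ≤ (2 * t + 1) ^ 2 :=
  packing _ y (s := 1) t one_pos (fun x hx => by simpa using hx) fun _ _ _ _ h => ds_pos h

/-! ### bad points and nets; `Λ` is the set of (centre, radius) of the labels that are on -/

def Lab (Λ : Set (Vx n × ℕ)) (k : ℕ) (y : Vx n) : Prop :=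
  ∃ o ∈ Λ, lv o.2 = k ∧ ds y o.1 ≤ 3 * sm k

def Bad (Λ : Set (Vx n × ℕ)) : ℕ → Vx n → Prop
  | 0, y => Lab Λ 0 y
  | k + 1, y => Lab Λ (k + 1) y ∨ ∃ a b, Bad Λ k a ∧ Bad Λ k b ∧ ds y a ≤ 3 * It k ∧
      ds y b ≤ 3 * It k ∧ Ra k < 2 * ds a b

def NB (Λ : Set (Vx n × ℕ)) (I : ℕ) (y : Vx n) : Prop :=
  Bad Λ (2 * I + 1) y ∨ ∃ a, Bad Λ (2 * I) a ∧ ds y a ≤ 3 * It (2 * I)

inductive InA (Λ : Set (Vx n × ℕ)) (s T : ℕ) : ℕ → Vx n → Prop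
  | top (y : Vx n) : NB Λ T y → ds (vz n) y ≤ 5 * s → InA Λ s T T y
  | step (I : ℕ) (y y' : Vx n) : I < T → InA Λ s T (I + 1) y' → NB Λ I y →
      ds y' y ≤ 4 * It (2 * I + 2) → InA Λ s T I y

/-- primary label -/
def Prim (Λ : Set (Vx n × ℕ)) (s T : ℕ) (o : Vx n × ℕ) : Prop :=
  (lv o.2 ≤ 2 * T + 1 ∧ ∃ y, ds (vz n) y ≤ 5 * s ∧ ds y o.1 ≤ 3 * sm (lv o.2) ∧
      ∀ k, lv o.2 ≤ k → k ≤ 2 * T + 1 → Bad Λ k y) ∨
    (2 * T + 1 < lv o.2 ∧ ds (vz n) o.1 ≤ 4 * s + 3 * o.2)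

structure Nets (Λ : Set (Vx n × ℕ)) (s T : ℕ) (N : ℕ → Finset (Vx n)) : Prop where
  sub : ∀ I, ∀ y ∈ N I, InA Λ s T I y
  sep : ∀ I, ∀ y ∈ N I, ∀ y' ∈ N I, y ≠ y' → Dd I < ds y y'
  cov : ∀ I y, InA Λ s T I y → ∃ y' ∈ N I, ds y' y ≤ Dd I

/-- consequences of `Nets` -/
structure NetF (Λ : Set (Vx n × ℕ)) (s T : ℕ) (N : ℕ → Finset (Vx n)) : Prop where
  sep : ∀ I, ∀ y ∈ N I, ∀ y' ∈ N I, y ≠ y' → Dd I < ds y y'
  loc : ∀ I, ∀ y ∈ N I, I ≤ T ∧ ds (vz n) y ≤ 5 * s + Ra (2 * T + 1)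
  up : ∀ I, I < T → ∀ a ∈ N I, ∃ y ∈ N (I + 1), ds y a ≤ Ra (2 * (I + 1) + 1)
  wit : ∀ I, ∀ y ∈ N I, (∃ o ∈ Λ, lv o.2 / 2 = I ∧ ds y o.1 ≤ 3 * sm (2 * I + 1)) ∨
    ∃ j, I = j + 1 ∧ ∃ a ∈ N j, ∃ b ∈ N j, a ≠ b ∧ ds y a ≤ 5 * It (2 * I) ∧ ds y b ≤ 5 * It (2 * I)
  prim : ∀ o, Prim Λ s T o → lv o.2 ≤ 2 * T + 1 →
    ∃ y ∈ N (lv o.2 / 2), ds y o.1 ≤ Ra (2 * (lv o.2 / 2) + 1)
  add : ∀ o, Prim (insert o Λ) s T o → lv o.2 < 2 * T + 1 →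
    ∃ y ∈ N ((lv o.2 + 1) / 2), ds y o.1 ≤ Ra (lv o.2 + 2)

/-- total number of nodes -/
def NN (T : ℕ) (N : ℕ → Finset (Vx n)) : ℕ := ∑ i ∈ range (T + 1), (N i).card

/-! ### labels: dense sets (left) and independent labels (right) -/

abbrev XL (n : ℕ) := Vx n × Finset (Vx n)
abbrev LL (n : ℕ) (H : Type) := XL n ⊕ H

section
variable {H : Type} (hl : H → Vx n) (hr : H → ℕ)

def loc : LL n H → Vx n := Sum.elim (fun v => v.1) hl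
def rad : LL n H → ℕ := Sum.elim (fun v => v.2.card + 1) hr
/-- the set of a dense label -/
def bod : LL n H → Finset (Vx n) := Sum.elim (fun v => v.2) fun _ => ∅
def OnX (X : Finset (Vx n)) (v : XL n) : Prop := v.1 ∈ X ∧ v.1 ∈ v.2 ∧ Dn X v.2
def On (X : Finset (Vx n)) (hs : Finset H) : LL n H → Prop := Sum.elim (OnX X) fun h => h ∈ hs
def Lam (X : Finset (Vx n)) (hs : Finset H) : Set (Vx n × ℕ) :=
  {o | ∃ l, On X hs l ∧ o = (loc hl l, rad hr l)}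

/-- a family of dense primary labels with disjoint balls -/
structure Vit (s T : ℕ) (X : Finset (Vx n)) (hs : Finset H) (VV : Finset (XL n)) : Prop where
  on : ∀ v ∈ VV, OnX X v
  prim : ∀ v ∈ VV, Prim (Lam hl hr X hs) s T (v.1, v.2.card + 1)
  dis : ∀ v ∈ VV, ∀ v' ∈ VV, v ≠ v' → v.2.card + v'.2.card + 2 < ds v.1 v'.1

def sz (VV : Finset (XL n)) : ℕ := ∑ v ∈ VV, (v.2.card + 1)

open Classical in
/-- total radius of the primary independent labels -/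
noncomputable def hon (s T : ℕ) (X : Finset (Vx n)) (hs : Finset H) : ℕ :=
  ∑ h ∈ hs.filter (fun h => Prim (Lam hl hr X hs) s T (hl h, hr h)), hr h

/-- reach of a node -/
def Gr (T I : ℕ) : ℕ := if I ≤ T then Ra (2 * I + 1) else 0

/-- the selected labels, each attached to a node -/
structure Sel (s T : ℕ) (X : Finset (Vx n)) (hs : Finset H) (N : ℕ → Finset (Vx n))
    (VV : Finset (XL n)) (E : Finset (Vx n × LL n H)) : Prop where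
  inj : ∀ e ∈ E, ∀ e' ∈ E, e.2 = e'.2 → e = e'
  on : ∀ e ∈ E, On X hs e.2
  den : ∑ e ∈ E, (bod e.2).card ≤ 5 * 10 ^ 17 * (X ∩ E.biUnion fun e => bod e.2).card
  pos : ∀ e ∈ E, ds (vz n) (loc hl e.2) ≤ 6 * s + 3 * rad hr e.2
  near : ∀ e ∈ E, ds e.1 (loc hl e.2) ≤ Gr T (lv (rad hr e.2) / 2)
  node : ∀ e ∈ E, lv (rad hr e.2) / 2 ≤ T → e.1 ∈ N (lv (rad hr e.2) / 2)
  wit : ∀ I, ∀ y ∈ N I, (∃ e ∈ E, e.1 = y ∧ lv (rad hr e.2) / 2 = I) ∨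
    ∃ j, I = j + 1 ∧ ∃ a ∈ N j, ∃ b ∈ N j, a ≠ b ∧ ds y a ≤ 5 * It (2 * I) ∧ ds y b ≤ 5 * It (2 * I)
  vv : ∀ v ∈ VV, ∃ y, (y, Sum.inl v) ∈ E

open Classical in
/-- weight of a label -/
noncomputable def pi0 (x : ℝ) (p : H → ℝ) : LL n H → ℝ≥0∞ :=
  Sum.elim (fun v => if v.1 ∈ v.2 ∧ ∀ a ∈ v.2, ∀ b ∈ v.2, Mono.Cn v.2 a b then
    ENNReal.ofReal (x ^ v.2.card) else 0) fun h => ENNReal.ofReal (p h)

open Classical in
/-- independent labels of high level are rare -/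
def Tail [Fintype H] (p : H → ℝ) (Y : ℕ) : Prop :=
  (∀ h, 0 ≤ p h ∧ p h ≤ 1 / 2 ∧ 1 ≤ hr h) ∧ ∀ (z : Vx n) (i : ℕ),
    ∑ h ∈ univ.filter (fun h => hl h = z ∧ i ≤ lv (hr h)), p h * hr h ≤ (1 / 2) ^ (Y * ta i)

end

/-! ### the pieces -/

/-- survivors are covered by primary labels -/
def CoverSt : Prop :=
  ∀ (n T s : ℕ) (ξ : Finset (Fin (2 * T + 1) × Vx n)) (ρ : Vx n → ℕ) (Λ : Set (Vx n × ℕ)),
    (∀ z, 0 < ρ z → (z, ρ z) ∈ Λ ∨ ((z = vz n ∨ z = vl n) ∧ ρ z = 1)) →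
    (∀ a ∈ ξ, (a.2, 2 * Jt a.1) ∈ Λ) → Ra (2 * T + 1) ≤ s → 5 * s ≤ n →
    ∀ z, 0 < rhoT ξ ρ (2 * T + 1) z → s < ds (vz n) z + rhoT ξ ρ (2 * T + 1) z →
      ds (vz n) z < 4 * s + rhoT ξ ρ (2 * T + 1) z →
      ∃ o ∈ Λ, Prim Λ s T o ∧ ds o.1 z + rhoT ξ ρ (2 * T + 1) z ≤ 3 * o.2

def ContSt : Prop :=
  ∀ (n T s : ℕ) (H : Type) (hl : H → Vx n) (hr : H → ℕ) (X : Finset (Vx n)) (hs : Finset H)
    (ρ : Vx n → ℕ), (∀ z, 0 < ρ z → s < ds (vz n) z + ρ z → ds (vz n) z < 4 * s + ρ z →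
      ∃ o ∈ Lam hl hr X hs, Prim (Lam hl hr X hs) s T o ∧ ds o.1 z + ρ z ≤ 3 * o.2) →
    ∃ VV, Vit hl hr s T X hs VV ∧ Cont ρ s ≤ 3 * hon hl hr s T X hs + 5 * sz VV

def NetsSt : Prop := ∀ (n T s : ℕ) (Λ : Set (Vx n × ℕ)), ∃ N, NetF Λ s T N

/-- witnesses of different nodes use essentially different points of `X` -/
def SparseSt : Prop :=
  ∀ (n : ℕ) (ι : Type) (W : Finset ι) (nd : ι → Vx n) (Y : ι → Finset (Vx n)) (I : ι → ℕ)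
    (X : Finset (Vx n)), (∀ i ∈ W, Dn X (Y i)) → (∀ i ∈ W, lv ((Y i).card + 1) / 2 = I i) →
    (∀ i ∈ W, ∀ x ∈ Y i, ds (nd i) x ≤ 4 * sm (2 * I i + 1)) →
    (∀ i ∈ W, ∀ i' ∈ W, i ≠ i' → I i = I i' → Dd (I i) < ds (nd i) (nd i')) →
    ∑ i ∈ W, (Y i).card ≤ 4 * 10 ^ 17 * (X ∩ W.biUnion Y).card

def SelSt : Prop :=
  ∀ (n T s : ℕ) (H : Type) (hl : H → Vx n) (hr : H → ℕ) (X : Finset (Vx n)) (hs : Finset H)
    (N : ℕ → Finset (Vx n)) (VV : Finset (XL n)), 2 * Ra (2 * T + 1) ≤ s →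
    NetF (Lam hl hr X hs) s T N → Vit hl hr s T X hs VV → ∃ E, Sel hl hr s T X hs N VV E

open Classical in
def BudSt : Prop :=
  ∀ (n s : ℕ) (H : Type) [Fintype H] (hl : H → Vx n) (hr : H → ℕ) (p : H → ℝ) (Ω : Type)
    (ν : Ω → ℝ≥0∞) (X : Ω → Finset (Vx n)) (C x : ℝ) (F : Finset (LL n H)), 1 ≤ C → 0 ≤ x → x ≤ 1 →
    (∀ h, 0 ≤ p h ∧ p h ≤ 1) → Bud ν X C (x ^ (5 * 10 ^ 17)) →
    (∀ l ∈ F, ds (vz n) (loc hl l) ≤ 6 * s + 3 * rad hr l) →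
    ∑' a : Ω × Finset H, (if (∀ l ∈ F, On (X a.1) a.2 l) ∧
        ∑ l ∈ F, (bod l).card ≤ 5 * 10 ^ 17 * (X a.1 ∩ F.biUnion bod).card then
        ν a.1 * ENNReal.ofReal (pw p a.2) else 0) ≤
      ENNReal.ofReal (C ^ (6 * s + 1)) * (∑' ω, ν ω) * ∏ l ∈ F, pi0 (2 * C ^ 8 * x) p l

open Classical in
def TailSt : Prop :=
  ∀ (n Y : ℕ) (H : Type) [Fintype H] (hl : H → Vx n) (hr : H → ℕ) (p : H → ℝ) (x : ℝ), 0 ≤ x →
    512 * x ≤ (1 / 2) ^ (Y * 4000 + 1) → Tail hl hr p Y → ∀ (z : Vx n) (i : ℕ),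
    ∑ l ∈ univ.filter (fun l : LL n H => loc hl l = z ∧ i ≤ lv (rad hr l)), pi0 x p l ≤
      2 * 2⁻¹ ^ (Y * ta i)

/-- exponential moment of the number of nodes and of the size of the family -/
def ExpSt : Prop :=
  ∀ (n T s Z m : ℕ) (H : Type) [Fintype H] (hl : H → Vx n) (hr : H → ℕ) (p : H → ℝ) (Ω : Type)
    (ν : Ω → ℝ≥0∞) (X : Ω → Finset (Vx n)) (C x : ℝ) (N : Ω × Finset H → ℕ → Finset (Vx n))
    (VV : Ω × Finset H → Finset (XL n)), 1 ≤ C → 0 ≤ x → n < Ra (2 * T + 3) ^ 4 →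
    2 * Ra (2 * T + 1) ≤ s → Tail hl hr p (2 * Z + 300) → Bud ν X C (x ^ (5 * 10 ^ 17)) →
    1024 * C ^ 8 * 4 ^ (Z * m) * x ≤ (1 / 2) ^ ((2 * Z + 300) * 4000 + 1) →
    (∀ a, NetF (Lam hl hr (X a.1) a.2) s T (N a)) → (∀ a, Vit hl hr s T (X a.1) a.2 (VV a)) →
    ∑' a : Ω × Finset H, ν a.1 * ENNReal.ofReal (pw p a.2) * 2 ^ (Z * (NN T (N a) + m * sz (VV a))) ≤
      9 * ENNReal.ofReal (C ^ (6 * s + 1)) * ∑' ω, ν ω

/-- size bias -/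
def HonSt : Prop :=
  ∀ (n T s Y : ℕ) (H : Type) [Fintype H] (hl : H → Vx n) (hr : H → ℕ) (p : H → ℝ)
    (X : Finset (Vx n)) (N : Finset H → ℕ → Finset (Vx n)), 10 ≤ Y → n < Ra (2 * T + 3) ^ 4 →
    Tail hl hr p (2 * Y) → (∀ hs, NetF (Lam hl hr X hs) s T (N hs)) →
    ∑ hs, pw p hs * (hon hl hr s T X hs : ℝ) ≤ 1 + (1 / 2) ^ Y * ∑ hs, pw p hs * (NN T (N hs) : ℝ)

/-- the flags and the failures as one family of independent labels -/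
abbrev Hn (n K : ℕ) := (Fin (n + 1) × Vx n) ⊕ (Fin K × Vx n)
def hlc {K : ℕ} : Hn n K → Vx n := Sum.elim (fun a => a.2) fun a => a.2
def hrc {K : ℕ} : Hn n K → ℕ := Sum.elim (fun a => fr a.1) fun a => 2 * Jt a.1
def pc {K : ℕ} (pF pT : ℕ → ℝ) : Hn n K → ℝ := Sum.elim (fun a => pF a.1) fun a => pT a.1

def MergeSt : Prop :=
  ∀ (n K Y : ℕ) (pF pT : ℕ → ℝ), 1 ≤ Y → (∀ k, 0 ≤ pF k ∧ pF k ≤ (1 / 64) ^ (4 * Y * Mono.aa k)) →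
    (∀ k, 0 ≤ pT k ∧ pT k ≤ (1 / 2) ^ (4 * Y * ta k)) →
    Tail (hlc (n := n) (K := K)) hrc (pc pF pT) Y ∧
    (∀ f : Finset (Fin (n + 1) × Vx n) → Finset (Fin K × Vx n) → ℝ,
      ∑ fl, ∑ ξ, pw (fun a => pF a.1) fl * pw (fun a => pT a.1) ξ * f fl ξ =
        ∑ hs : Finset (Hn n K), pw (pc pF pT) hs * f hs.toLeft hs.toRight) ∧
    ∀ (X : Finset (Vx n)) (hs : Finset (Hn n K)),
      (∀ z, 0 < rho0 X hs.toLeft z → (z, rho0 X hs.toLeft z) ∈ Lam hlc hrc X hs ∨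
        ((z = vz n ∨ z = vl n) ∧ rho0 X hs.toLeft z = 1)) ∧
      ∀ a ∈ hs.toRight, (a.2, 2 * Jt a.1) ∈ Lam hlc hrc X hs

end Pool.Agent.Lib.MP_9cc147_pr.AllU.P
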