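import Pool.Agent.Lib.MP_9cc147_pr.U.PDefs
import Pool.Agent.Lib.MP_9cc147_pr.U.Net

/-! Section P: the exponential moment. -/

open Finset
open scoped ENNReal

namespace Pool.Agent.Lib.MP_9cc147_pr.AllU.P

namespace Ex

lemma p2 {a b c : ℕ} (h : a + c ≤ b) : (2 : ℝ≥0∞) ^ a * 2⁻¹ ^ b ≤ 2⁻¹ ^ c := by
  obtain ⟨d, rfl⟩ := Nat.exists_eq_add_of_le h
  have h1 : (2 : ℝ≥0∞) * 2⁻¹ = 1 := ENNReal.mul_inv_cancel (by norm_num) (by norm_num)
  have h2 : (2⁻¹ : ℝ≥0∞) ^ d ≤ 1 := pow_le_one₀ zero_le (by norm_num)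
  calc (2 : ℝ≥0∞) ^ a * 2⁻¹ ^ (a + c + d) = (2 * 2⁻¹) ^ a * 2⁻¹ ^ c * 2⁻¹ ^ d := by ring
    _ ≤ (2 * 2⁻¹) ^ a * 2⁻¹ ^ c * 1 := by gcongr
    _ = _ := by rw [h1]; simp

lemma Ra_sq (k : ℕ) : (2 * (Ra k : ℝ≥0∞) + 1) ^ 2 ≤ 2 ^ (2 * ta k + 4) := by
  have h : (2 * Ra k + 1) ^ 2 ≤ 2 ^ (2 * ta k + 4) := by
    have h1 : 1 ≤ Ra k := Nat.one_le_two_pow
    calc (2 * Ra k + 1) ^ 2 ≤ (4 * Ra k) ^ 2 := Nat.pow_le_pow_left (by omega) 2
      _ = _ := by unfold Ra; ring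
  exact_mod_cast h

lemma n_sq {n k : ℕ} (h : n < Ra k ^ 4) :
    (Fintype.card (Vx n) : ℝ≥0∞) ≤ 2 ^ (8 * ta k) := by
  have h1 : Fintype.card (Vx n) ≤ 2 ^ (8 * ta k) := by
    rw [Fintype.card_prod, Fintype.card_fin]
    calc (n + 1) * (n + 1) ≤ Ra k ^ 4 * Ra k ^ 4 := Nat.mul_le_mul h h
      _ = _ := by unfold Ra; ring
  exact_mod_cast h1

lemma mul2 (a : ℕ) (u : ℝ≥0∞) : (2 : ℝ≥0∞) ^ a * (2 * u) = 2 ^ (a + 1) * u := by
  rw [pow_succ, mul_assoc]

lemma num1 (Z a t : ℕ) (u : ℝ≥0∞) (hu : u ≤ 2 ^ (2 * a + 4)) (h0 : 4000 ≤ t) (h1 : 4 * a ≤ 5 * t) :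
    u * (2 * 2⁻¹ ^ ((2 * Z + 300) * t)) ≤ 2⁻¹ ^ ((2 * Z + 290) * t) := by
  refine (mul_le_mul_left hu _).trans ?_
  rw [mul2]
  exact p2 (by nlinarith)

lemma num2 (Z a t : ℕ) (h0 : 4000 ≤ t) (h1 : 4 * a ≤ 5 * t) :
    3 * (2 : ℝ≥0∞) ^ Z * 2⁻¹ ^ ((2 * Z + 290) * t) ≤ 2⁻¹ ^ ((Z + 100) * a) := by
  have z0 : Z * 4000 ≤ Z * t := Nat.mul_le_mul_left _ h0
  have z1 : Z * (4 * a) ≤ Z * (5 * t) := Nat.mul_le_mul_left _ h1
  have h3 : 3 * (2 : ℝ≥0∞) ^ Z ≤ 2 ^ (2 + Z) := by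
    rw [pow_add]; exact mul_le_mul_left (by norm_num) _
  exact (mul_le_mul_left h3 _).trans (p2 (by nlinarith))

lemma num3 (Z a b c : ℕ) (u : ℝ≥0∞) (hu : u ≤ 2 ^ (2 * c + 4)) (h0 : 4000 ≤ a)
    (g1 : 4 * b ≤ 5 * a) (g2 : 4 * c ≤ 5 * b) (g3 : a ≤ b) :
    u * 2⁻¹ ^ ((Z + 100) * a) ≤ 1 ∧ 9 * 2 ^ Z * (2⁻¹ ^ ((2 * Z + 290) * b) +
      (u * 2⁻¹ ^ ((Z + 100) * a)) ^ 2) ≤ (2⁻¹ : ℝ≥0∞) ^ ((Z + 100) * c) := by
  have z0 : Z * 4000 ≤ Z * a := Nat.mul_le_mul_left _ h0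
  have z1 : Z * (4 * b) ≤ Z * (5 * a) := Nat.mul_le_mul_left _ g1
  have z2 : Z * (4 * c) ≤ Z * (5 * b) := Nat.mul_le_mul_left _ g2
  have z3 : Z * a ≤ Z * b := Nat.mul_le_mul_left _ g3
  constructor
  · refine (mul_le_mul_left hu _).trans ((p2 (c := 0) (by nlinarith)).trans (pow_zero _).le)
  · have e1 : (2⁻¹ : ℝ≥0∞) ^ ((2 * Z + 290) * b) ≤ 2⁻¹ ^ ((Z + 100) * c + Z + 5) := by
      have := @p2 0 ((2 * Z + 290) * b) ((Z + 100) * c + Z + 5) (by nlinarith)
      rwa [pow_zero, one_mul] at this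
    have e2 : (u * (2⁻¹ : ℝ≥0∞) ^ ((Z + 100) * a)) ^ 2 ≤ 2⁻¹ ^ ((Z + 100) * c + Z + 5) := by
      refine (pow_le_pow_left' (mul_le_mul_left hu _) 2).trans ?_
      rw [mul_pow, ← pow_mul, ← pow_mul]
      exact p2 (by nlinarith)
    have h3 : 9 * (2 : ℝ≥0∞) ^ Z ≤ 2 ^ (4 + Z) := by
      rw [pow_add]; exact mul_le_mul_left (by norm_num) _
    refine (mul_le_mul' h3 (add_le_add e1 e2)).trans ?_
    rw [← two_mul, mul2]
    exact p2 (by omega)

lemma num4 (Z b c : ℕ) (u : ℝ≥0∞) (hu : u ≤ 2 ^ (8 * c)) (h0 : 4000 ≤ b) (g2 : 4 * c ≤ 5 * b) :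
    u * (2 * 2⁻¹ ^ ((2 * Z + 300) * b)) ≤ 1 := by
  refine (mul_le_mul_left hu _).trans ?_
  rw [mul2]
  exact (p2 (c := 0) (by nlinarith [Nat.zero_le (Z * b)])).trans (pow_zero _).le

lemma num5 (Z a b c : ℕ) (u : ℝ≥0∞) (hu : u ≤ 2 ^ (8 * c)) (g1 : 4 * b ≤ 5 * a)
    (g2 : 4 * c ≤ 5 * b) : u * 2⁻¹ ^ ((Z + 100) * a) ≤ 1 :=
  (mul_le_mul_left hu _).trans
    ((p2 (c := 0) (by nlinarith [Nat.zero_le (Z * a)])).trans (pow_zero _).le)

lemma num6 (C x : ℝ) (g e : ℕ) (hC : 1 ≤ C) (hx : 0 ≤ x) (h : 1024 * C ^ 8 * 4 ^ g * x ≤ (1 / 2) ^ e) :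
    x ≤ 1 ∧ 512 * (4 ^ g * (2 * C ^ 8 * x)) ≤ (1 / 2) ^ e := by
  have h1 : ((1 : ℝ) / 2) ^ e ≤ 1 := pow_le_one₀ (by norm_num) (by norm_num)
  have h2 : (1 : ℝ) ≤ C ^ 8 := one_le_pow₀ hC
  have h3 : (1 : ℝ) ≤ 4 ^ g := one_le_pow₀ (by norm_num)
  have h4 : (1 : ℝ) ≤ 1024 * C ^ 8 * 4 ^ g := by nlinarith
  exact ⟨by nlinarith, by linarith⟩

lemma fin_sum {L V Ω : Type} [Fintype L] [DecidableEq L] [Fintype V] [DecidableEq V] (P : L → Prop)
    [DecidablePred P] (E : Ω → Finset L) (A0 : Ω → Finset V) (g : Ω → ℝ≥0∞) (K w : ℝ≥0∞)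
    (π : L → ℝ≥0∞) (h : ∀ (F : Finset L) (A : Finset V), (∀ l ∈ F, P l) →
      ∑' a, (if (E a).filter P = F ∧ A0 a = A then g a else 0) ≤ K * (∏ l ∈ F, π l) * w ^ A.card)
    (h1 : ∑ l ∈ univ.filter P, π l ≤ 1) (h2 : Fintype.card V * w ≤ 1) :
    ∑' a, g a ≤ 9 * K := by
  have hg := Net.prod_le3 _ _ h1
  have ha : ∏ _y ∈ (univ : Finset V), (1 + w) ≤ 3 :=
    Net.prod_le3 _ _ (by rwa [sum_const, nsmul_eq_mul, card_univ])
  calc ∑' a, g a ≤ ∑' a, ∑ F ∈ (univ.filter P).powerset, ∑ A ∈ (univ : Finset V).powerset,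
          (if (E a).filter P = F ∧ A0 a = A then g a else 0) := by
        refine ENNReal.tsum_le_tsum fun a => ?_
        refine le_trans ?_ (single_le_sum (fun _ _ => zero_le) (a := (E a).filter P)
          (mem_powerset.2 (filter_subset_filter _ (subset_univ _))))
        refine le_trans ?_ (single_le_sum (fun _ _ => zero_le) (a := A0 a)
          (mem_powerset.2 (subset_univ _)))
        rw [if_pos ⟨rfl, rfl⟩]
    _ = ∑ F ∈ (univ.filter P).powerset, ∑ A ∈ (univ : Finset V).powerset, ∑' a,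
          (if (E a).filter P = F ∧ A0 a = A then g a else 0) := by
        rw [Summable.tsum_finsetSum fun _ _ => ENNReal.summable]
        refine sum_congr rfl fun F _ => ?_
        rw [Summable.tsum_finsetSum fun _ _ => ENNReal.summable]
    _ ≤ ∑ F ∈ (univ.filter P).powerset, ∑ A ∈ (univ : Finset V).powerset,
          K * (∏ e ∈ F, π e) * w ^ A.card :=
        sum_le_sum fun F hF => sum_le_sum fun A _ => h F A fun e he =>
          (mem_filter.1 (mem_powerset.1 hF he)).2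
    _ = K * (∏ e ∈ univ.filter P, (1 + π e)) * ∏ _y ∈ (univ : Finset V), (1 + w) := by
        rw [prod_one_add, prod_one_add, mul_sum (univ.filter P).powerset, sum_mul]
        refine sum_congr rfl fun F _ => ?_
        rw [mul_sum]
        simp
    _ ≤ K * 3 * 3 := by gcongr
    _ = _ := by ring

variable {n : ℕ} {H : Type} [Fintype H] (hl : H → Vx n) (hr : H → ℕ)

open Classical in
/-- weight of a label attached to a node -/
noncomputable def pi1 (T : ℕ) (x : ℝ) (p : H → ℝ) (e : Vx n × LL n H) : ℝ≥0∞ :=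
  if ds e.1 (loc hl e.2) ≤ Gr T (lv (rad hr e.2) / 2) then pi0 x p e.2 else 0

open Classical in
lemma ball_sum (f : LL n H → ℝ≥0∞) (i : ℕ) (u : ℝ≥0∞)
    (h : ∀ z : Vx n, ∑ l ∈ univ.filter (fun l : LL n H => loc hl l = z ∧ i ≤ lv (rad hr l)), f l ≤ u)
    (B : Finset (Vx n)) :
    ∑ l : LL n H, (if loc hl l ∈ B ∧ i ≤ lv (rad hr l) then f l else 0) ≤ B.card * u := by
  calc ∑ l : LL n H, (if loc hl l ∈ B ∧ i ≤ lv (rad hr l) then f l else 0)
      ≤ ∑ l : LL n H, ∑ z ∈ B, (if loc hl l = z ∧ i ≤ lv (rad hr l) then f l else 0) := by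
        refine sum_le_sum fun l _ => ?_
        split_ifs with hc
        · refine le_trans ?_ (single_le_sum (f := fun z =>
            if loc hl l = z ∧ i ≤ lv (rad hr l) then f l else 0) (fun _ _ => zero_le) hc.1)
          simp [hc.2]
        · exact zero_le
    _ = ∑ z ∈ B, ∑ l : LL n H, (if loc hl l = z ∧ i ≤ lv (rad hr l) then f l else 0) := sum_comm
    _ ≤ ∑ z ∈ B, u := sum_le_sum fun z _ => by rw [← sum_filter]; exact h z
    _ = _ := by simp

open Classical in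
lemma lev_sum (T : ℕ) (x : ℝ) (p : H → ℝ) (u : ℝ≥0∞) (i : ℕ) (hi : i ≤ T)
    (h : ∀ z : Vx n, ∑ l ∈ univ.filter (fun l : LL n H => loc hl l = z ∧ 2 * i ≤ lv (rad hr l)),
      pi0 x p l ≤ u) (y : Vx n) :
    ∑ e ∈ univ.filter (fun e : Vx n × LL n H => lv (rad hr e.2) / 2 = i ∧ ds y e.1 ≤ 0),
      pi1 hl hr T x p e ≤ (2 * (Ra (2 * i + 1) : ℝ≥0∞) + 1) ^ 2 * u := by
  set B := univ.filter fun z => ds y z ≤ Ra (2 * i + 1) with hB
  refine le_trans ?_ ((ball_sum hl hr _ _ _ h B).trans ?_)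
  · rw [sum_filter, Fintype.sum_prod_type, sum_comm]
    refine sum_le_sum fun l _ => ?_
    rw [sum_eq_single y]
    · split_ifs with h1 h2
      · unfold pi1; split_ifs
        · exact le_rfl
        · exact zero_le
      · unfold pi1
        rw [if_neg]
        intro h3
        apply h2
        simp only [h1.1, Gr, if_pos hi] at h3
        exact ⟨by simp [hB, h3], by have := h1.1; simp only at this; omega⟩
      · exact zero_le
      · exact le_rfl
    · intro b _ hb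
      rw [if_neg]
      intro h1
      have := ds_pos hb.symm
      have := h1.2
      simp only at this
      omega
    · simp
  · gcongr
    exact Net.ball_le y le_rfl

open Classical in
lemma giant_sum (T : ℕ) (x : ℝ) (p : H → ℝ) (u : ℝ≥0∞)
    (h : ∀ z : Vx n, ∑ l ∈ univ.filter (fun l : LL n H => loc hl l = z ∧
      2 * T + 2 ≤ lv (rad hr l)), pi0 x p l ≤ u) :
    ∑ e ∈ univ.filter (fun e : Vx n × LL n H => T < lv (rad hr e.2) / 2),
      pi1 hl hr T x p e ≤ Fintype.card (Vx n) * u := by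
  refine le_trans ?_ (ball_sum hl hr _ _ _ h univ)
  rw [sum_filter, Fintype.sum_prod_type, sum_comm]
  refine sum_le_sum fun l _ => ?_
  rw [sum_eq_single (loc hl l)]
  · split_ifs with h1 h2
    · unfold pi1; split_ifs
      · exact le_rfl
      · exact zero_le
    · exact absurd ⟨mem_univ _, by simp only at h1; omega⟩ h2
    · exact zero_le
    · exact le_rfl
  · intro b _ hb
    split_ifs with h1
    · unfold pi1
      rw [if_neg]
      simp only at h1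
      have := ds_pos hb
      simp only [Gr, if_neg (not_le.2 h1)]
      omega
    · rfl
  · simp

omit [Fintype H] in
lemma pi0_tilt (x : ℝ) (p : H → ℝ) (g : ℕ) (l : LL n H) :
    pi0 x p l * 4 ^ (g * (bod l).card) = pi0 (4 ^ g * x) p l := by
  rcases l with v | h
  · simp only [pi0, bod, Sum.elim_inl]
    split_ifs
    · rw [mul_pow, ENNReal.ofReal_mul (by positivity), ← pow_mul,
        ENNReal.ofReal_pow (p := 4) (by norm_num), mul_comm]
      simp
    · simp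
  · simp [pi0, bod]

omit [Fintype H] in
lemma sz_le {s T : ℕ} {X : Finset (Vx n)} {hs : Finset H} {N : ℕ → Finset (Vx n)}
    {VV : Finset (XL n)} {E : Finset (Vx n × LL n H)} (h : Sel hl hr s T X hs N VV E) :
    sz VV ≤ 2 * ∑ e ∈ E, (bod e.2).card := by
  classical
  choose! f hf using h.vv
  have h1 : ∑ v ∈ VV, v.2.card ≤ ∑ e ∈ E, (bod e.2).card := by
    have hinj : Set.InjOn (fun v : XL n => ((f v, Sum.inl v) : Vx n × LL n H)) VV :=
      fun a _ b _ hab => Sum.inl_injective (congrArg Prod.snd hab)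
    calc ∑ v ∈ VV, v.2.card = ∑ e ∈ VV.image (fun v : XL n => ((f v, Sum.inl v) : Vx n × LL n H)),
          (bod e.2).card := by rw [sum_image hinj]; rfl
      _ ≤ _ := sum_le_sum_of_subset fun e he => by
        obtain ⟨v, hv, rfl⟩ := mem_image.1 he
        exact hf v hv
  have h2 : sz VV ≤ ∑ v ∈ VV, 2 * v.2.card := sum_le_sum fun v hv => by
    have h3 : OnX X v := h.on _ (hf v hv)
    have : 0 < v.2.card := card_pos.2 ⟨_, h3.2.1⟩
    omega
  rw [← mul_sum] at h2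
  omega

end Ex

open Ex in
theorem expSt (hN : NetStmt) (hS : SelSt) (hB : BudSt) (hT : TailSt) : ExpSt := by
  classical
  intro n T s Z m H _ hl hr p Ω ν X C x N VV hC hx hn hs ht hb hsm hnet hvit
  choose E hE using fun a : Ω × Finset H => hS n T s H hl hr (X a.1) a.2 (N a) (VV a) hs (hnet a)
    (hvit a)
  set x' : ℝ := 4 ^ (Z * m) * (2 * C ^ 8 * x) with hx'
  obtain ⟨hx1, hx2⟩ := num6 C x _ _ hC hx hsm
  have hC0 : 0 ≤ C := zero_le_one.trans hC
  have htl := hT n (2 * Z + 300) H hl hr p x' (by positivity) hx2 ht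
  clear hx2 hsm
  set K : ℝ≥0∞ := ENNReal.ofReal (C ^ (6 * s + 1)) * ∑' ω, ν ω with hK
  set ν' : Ω × Finset H → ℝ≥0∞ := fun a =>
    ν a.1 * ENNReal.ofReal (pw p a.2) * 2 ^ (Z * m * sz (VV a)) with hν'
  have h1 : ∀ F : Finset (Vx n × LL n H), ∑' a, (if E a = F then ν' a else 0) ≤
      K * ∏ e ∈ F, pi1 hl hr T x' p e := by
    intro F
    by_cases hex : ∃ a, E a = F
    swap
    · push Not at hex
      simp [hex]
    obtain ⟨a0, h0⟩ := hex
    have hinj : Set.InjOn (Prod.snd : Vx n × LL n H → LL n H) F := fun e he e' he' h =>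
      (hE a0).inj e (h0 ▸ he) e' (h0 ▸ he') h
    have hbd := hB n s H hl hr p Ω ν X C x (F.image Prod.snd) hC hx hx1
      (fun h => ⟨(ht.1 h).1, (ht.1 h).2.1.trans (by norm_num)⟩) hb (fun l hl' => by
        obtain ⟨e, he, rfl⟩ := mem_image.1 hl'
        exact (hE a0).pos e (h0 ▸ he))
    rw [prod_image hinj] at hbd
    calc ∑' a, (if E a = F then ν' a else 0)
        ≤ ∑' a : Ω × Finset H, (if (∀ l ∈ F.image Prod.snd, On (X a.1) a.2 l) ∧
          ∑ l ∈ F.image Prod.snd, (bod l).card ≤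
            5 * 10 ^ 17 * (X a.1 ∩ (F.image Prod.snd).biUnion bod).card then
          ν a.1 * ENNReal.ofReal (pw p a.2) else 0) *
            ∏ e ∈ F, 4 ^ (Z * m * (bod e.2).card) := by
          refine ENNReal.tsum_le_tsum fun a => ?_
          by_cases ha : E a = F
          swap
          · rw [if_neg ha]; exact zero_le
          rw [if_pos ha, if_pos]
          · simp only [hν']
            gcongr
            rw [prod_pow_eq_pow_sum, ← mul_sum, show (4 : ℝ≥0∞) = 2 ^ 2 by norm_num, ← pow_mul]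
            refine pow_le_pow_right₀ (by norm_num) ?_
            have := sz_le hl hr (hE a)
            rw [ha] at this
            exact (Nat.mul_le_mul_left _ this).trans (le_of_eq (by ring))
          · refine ⟨fun l hl' => ?_, ?_⟩
            · obtain ⟨e, he, rfl⟩ := mem_image.1 hl'
              exact (hE a).on e (ha ▸ he)
            · rw [sum_image hinj, image_biUnion, ← ha]
              exact (hE a).den
      _ ≤ K * (∏ e ∈ F, pi0 (2 * C ^ 8 * x) p e.2) * ∏ e ∈ F, 4 ^ (Z * m * (bod e.2).card) := by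
          rw [ENNReal.tsum_mul_right]
          gcongr
      _ = _ := by
          rw [mul_assoc, ← prod_mul_distrib]
          congr 1
          refine prod_congr rfl fun e he => ?_
          rw [pi0_tilt, pi1, if_pos ((hE a0).near e (h0 ▸ he))]
  have hmain := hN n (Vx n × LL n H) (fun e => lv (rad hr e.2) / 2) Prod.fst (pi1 hl hr T x' p)
    (Ω × Finset H) ν' E N (fun _ => 0) (fun i => 5 * It (2 * i)) (fun i => Ra (2 * i + 1))
    (fun i => 2⁻¹ ^ ((2 * Z + 290) * ta (2 * i))) (fun i => 2⁻¹ ^ ((Z + 100) * ta (2 * i + 1)))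
    K (2 ^ Z) T h1
    (fun a e he hT' => ⟨e.1, (hE a).node e he hT', by simp⟩)
    (fun a i _ y hy y' hy' hne => by
      have := (hnet a).sep i y hy y' hy' hne
      have := Dd_eq i
      have := chain (2 * i)
      have := chain (2 * i + 1)
      omega)
    (fun a i hi b hb' => (hnet a).up i hi b hb')
    (fun a i _ y hy => by
      rcases (hE a).wit i y hy with ⟨e, he, h1, h2⟩ | h
      · exact Or.inl ⟨e, he, h2, by simp [h1]⟩
      · exact Or.inr h)
    (fun i hi y => (lev_sum hl hr T x' p _ i hi (fun z => htl z (2 * i)) y).trans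
      (num1 Z _ _ _ (Ra_sq _) (le_self_add.trans (ta_ge _)) (ta_succ _).1))
    (fun i _ => ⟨pow_le_one₀ zero_le (by norm_num), by
      have := chain (2 * i)
      have := chain (2 * i + 1)
      omega⟩)
    (one_le_pow₀ (by norm_num))
    (num2 Z _ _ (le_self_add.trans (ta_ge _)) (ta_succ _).1)
    (fun i _ => num3 Z _ (ta (2 * (i + 1))) _ _ (Ra_sq _) (le_self_add.trans (ta_ge _))
      (ta_succ (2 * i + 1)).1 (ta_succ _).1 (ta_mono (by omega)))
  have hcard := n_sq hn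
  have hfin := fin_sum _ _ _ _ _ _ _ hmain
    ((giant_sum hl hr T x' p _ fun z => htl z (2 * T + 2)).trans
      (num4 Z _ _ _ hcard (le_self_add.trans (ta_ge _)) (ta_succ (2 * T + 2)).1))
    (num5 Z _ (ta (2 * T + 2)) _ _ hcard (ta_succ (2 * T + 1)).1 (ta_succ (2 * T + 2)).1)
  rw [mul_assoc 9]
  refine le_trans (le_of_eq (tsum_congr fun a => ?_)) hfin
  simp only [hν', NN]
  rw [← pow_mul, mul_assoc _ (2 ^ _), ← pow_add, mul_add, add_comm, mul_assoc Z]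

end Pool.Agent.Lib.MP_9cc147_pr.AllU.P
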