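import Pool.Agent.Lib.MP_9cc147_pr.U.Net
import Pool.Agent.Lib.MP_9cc147_pr.U.FProb

/-! Totals over nets; size bias. -/

open Finset
open scoped ENNReal

namespace Pool.Agent.Lib.MP_9cc147_pr.AllU.P.Pk

variable {n : ℕ}

open Classical in
/-- summing the conclusion of `NetStmt` over the giant labels and over the top net -/
theorem net_total {L Ω : Type} [Fintype L] [DecidableEq L] (lev : L → ℕ) (π : L → ℝ≥0∞)
    (E : Ω → Finset L) (Nt : Ω → Finset (Vx n)) (f : Ω → ℝ≥0∞) (K w : ℝ≥0∞) (top : ℕ)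
    (h : ∀ (F : Finset L) (A : Finset (Vx n)), (∀ l ∈ F, top < lev l) →
      ∑' ω, (if (E ω).filter (fun l => top < lev l) = F ∧ Nt ω = A then f ω else 0) ≤
        K * (∏ l ∈ F, π l) * w ^ A.card)
    (G : Finset L) (Z : Finset (Vx n)) (Q : Ω → Prop) (J : Finset (Vx n) → Prop)
    (hQ : ∀ ω, Q ω → (∀ l ∈ E ω, top < lev l → l ∈ G) ∧ Nt ω ⊆ Z ∧ J (Nt ω)) :
    ∑' ω, (if Q ω then f ω else 0) ≤
      K * (∏ l ∈ G, (1 + π l)) * ∑ A ∈ Z.powerset.filter J, w ^ A.card := by
  set G' := G.filter fun l => top < lev l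
  refine (Net.split (G'.powerset ×ˢ Z.powerset.filter J) Q
    (fun T ω => (E ω).filter (fun l => top < lev l) = T.1 ∧ Nt ω = T.2) f f 1 ?_).trans ?_
  · intro ω hq
    obtain ⟨a, b, c⟩ := hQ ω hq
    refine ⟨by simp, (_, _), mem_product.2 ⟨mem_powerset.2 fun l hl => ?_,
      mem_filter.2 ⟨mem_powerset.2 b, c⟩⟩, rfl, rfl⟩
    exact mem_filter.2 ⟨a l (mem_filter.1 hl).1 (mem_filter.1 hl).2, (mem_filter.1 hl).2⟩
  · rw [mul_one]
    calc _ ≤ ∑ T ∈ G'.powerset ×ˢ Z.powerset.filter J, K * (∏ l ∈ T.1, π l) * w ^ T.2.card :=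
          sum_le_sum fun T hT => h _ _ fun l hl =>
            (mem_filter.1 (mem_powerset.1 (mem_product.1 hT).1 hl)).2
      _ = K * (∏ l ∈ G', (1 + π l)) * ∑ A ∈ Z.powerset.filter J, w ^ A.card := by
          rw [sum_product, prod_one_add, mul_sum G'.powerset, sum_mul]
          exact sum_congr rfl fun F _ => by rw [mul_sum]
      _ ≤ _ := by
          refine mul_le_mul_left (mul_le_mul_right ?_ _) _
          exact prod_le_prod_of_subset_of_one_le' (filter_subset _ _) fun _ _ _ => le_self_add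

lemma sum_pow_card {α : Type} (Z : Finset α) (w : ℝ≥0∞) :
    ∑ A ∈ Z.powerset, w ^ A.card = (1 + w) ^ Z.card := by
  rw [← prod_const, prod_one_add]
  simp

open Classical in
lemma sum_pow_ne {α : Type} (Z : Finset α) (w : ℝ≥0∞) :
    ∑ A ∈ Z.powerset.filter Finset.Nonempty, w ^ A.card ≤ Z.card * w * (1 + w) ^ Z.card := by
  have h := Net.hit Z (fun _ => w) (fun _ : Unit => Z) (fun _ => Z.image fun a => {a})
    (fun _ X hX => by
      obtain ⟨a, ha, rfl⟩ := mem_image.1 hX
      exact singleton_subset_iff.2 ha) {()} (by simp) ∅ (by simp)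
  simp only [prod_const, prod_empty, one_mul, prod_singleton, card_empty, pow_zero,
    card_singleton, pow_one] at h
  refine le_trans (sum_le_sum_of_subset fun A hA => ?_) (h.trans ?_)
  · obtain ⟨h1, a, ha⟩ := mem_filter.1 hA
    refine (@mem_filter _ _ (_) _ _).2 ?_
    exact ⟨h1, empty_subset _, fun _ _ => ⟨{a},
      mem_image.2 ⟨a, mem_powerset.1 h1 ha, rfl⟩, singleton_subset_iff.2 ha⟩⟩
  · gcongr
    exact (Net.image_le Z (fun a => {a}) fun X : Finset α => w ^ X.card).trans (by simp)

section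
variable {α : Type} [Fintype α] [DecidableEq α]

lemma pw_sup' (p : α → ℝ) (G : Finset α) :
    ∑ s, (if G ⊆ s then pw p s else 0) = ∏ a ∈ G, p a := by
  have a : ∀ s : Finset α, (if G ⊆ s then pw p s else 0) =
      ∏ a, (if a ∈ s then p a else if a ∈ G then 0 else 1 - p a) := by
    intro s
    split_ifs with h
    · unfold pw
      refine prod_congr rfl fun a _ => ?_
      by_cases c : a ∈ s
      · simp [c]
      · simp [c, show a ∉ G from fun c' => c (h c')]
    · obtain ⟨a, h1, h2⟩ := not_subset.1 h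
      exact (prod_eq_zero (mem_univ a) (by simp [h1, h2])).symm
  simp only [a]
  have := F.sum_ite p fun a => if a ∈ G then 0 else 1 - p a
  refine (Eq.trans (by congr!) this).trans ?_
  rw [← prod_subset (subset_univ G) fun a _ h => by simp [h]]
  exact prod_congr rfl fun a h => by simp [h]

lemma pw_erase (p : α → ℝ) (a : α) (s : Finset α) :
    pw p s = (if a ∈ s then p a else 1 - p a) *
      ∏ b ∈ univ.erase a, if b ∈ s.erase a then p b else 1 - p b := by
  unfold pw
  rw [← mul_prod_erase _ _ (mem_univ a)]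
  congr 1
  · congr!
  · exact prod_congr rfl fun b hb => by simp [(mem_erase.1 hb).1]

/-- size bias -/
lemma pw_bias (p : α → ℝ) (a : α) (f : Finset α → ℝ) :
    ∑ s, (if a ∈ s then pw p s * f s else 0) = p a * ∑ s, pw p s * f (insert a s) := by
  set R : Finset α → ℝ := fun s => ∏ b ∈ univ.erase a, if b ∈ s then p b else 1 - p b
  have e : (univ : Finset (Finset α)) = (insert a (univ.erase a)).powerset := by
    rw [insert_erase (mem_univ a), powerset_univ]
  have na : ∀ t ∈ (univ.erase a : Finset α).powerset, a ∉ t := fun t ht h =>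
    (mem_erase.1 (mem_powerset.1 ht h)).1 rfl
  rw [e, sum_powerset_insert (notMem_erase a _), sum_powerset_insert (notMem_erase a _),
    ← sum_add_distrib, ← sum_add_distrib, mul_sum]
  refine sum_congr rfl fun t ht => ?_
  have h := na t ht
  rw [pw_erase p a t, pw_erase p a (insert a t), if_neg h, if_neg h,
    if_pos (mem_insert_self a t), if_pos (mem_insert_self a t), erase_insert h,
    erase_eq_of_notMem h, insert_idem]
  ring

end

end Pool.Agent.Lib.MP_9cc147_pr.AllU.P.Pk
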