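import Pool.Agent.Lib.MP_9cc147_pr.U.Net
import Pool.Agent.Lib.MP_9cc147_pr.U.FProb

/-! Nested nets from a hierarchy of bad points; totals; size bias. -/

open Finset
open scoped ENNReal

namespace Pool.Agent.Lib.MP_9cc147_pr.AllU.P

variable {n : ℕ}

lemma ex_net (S : Finset (Vx n)) (r : ℕ) : ∃ T ⊆ S,
    (∀ a ∈ T, ∀ b ∈ T, a ≠ b → r < ds a b) ∧ ∀ x ∈ S, ∃ t ∈ T, ds t x ≤ r := by
  induction S using Finset.induction_on with
  | empty => exact ⟨∅, Subset.rfl, by simp, by simp⟩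
  | insert x S _ ih =>
    obtain ⟨T, h1, h2, h3⟩ := ih
    by_cases c : ∃ t ∈ T, ds t x ≤ r
    · exact ⟨T, h1.trans (subset_insert _ _), h2, fun y hy => by
        rcases mem_insert.1 hy with rfl | hy
        exacts [c, h3 y hy]⟩
    · push Not at c
      refine ⟨insert x T, insert_subset_insert _ h1, fun a ha b hb hab => ?_, fun y hy => ?_⟩
      · rcases mem_insert.1 ha with rfl | ha' <;> rcases mem_insert.1 hb with rfl | hb'
        · exact absurd rfl hab
        · rw [ds_comm]; exact c b hb'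
        · exact c a ha'
        · exact h2 a ha' b hb' hab
      · rcases mem_insert.1 hy with rfl | hy
        · exact ⟨y, mem_insert_self _ _, by simp⟩
        · obtain ⟨t, ht, h⟩ := h3 y hy
          exact ⟨t, mem_insert_of_mem ht, h⟩

open Classical in
/-- the sets of relevant points, counted from the top -/
noncomputable def AA (NB : ℕ → Vx n → Prop) (g : ℕ → ℕ) (Z : Finset (Vx n)) (top : ℕ) :
    ℕ → Finset (Vx n)
  | 0 => Z.filter (NB top)
  | j + 1 => univ.filter fun x => NB (top - (j + 1)) x ∧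
      ∃ y ∈ AA NB g Z top j, ds y x ≤ g (top - j)

/-- nested sets of relevant points -/
lemma ex_sets (NB : ℕ → Vx n → Prop) (g : ℕ → ℕ) (Z : Finset (Vx n)) (top : ℕ) :
    ∃ A : ℕ → Finset (Vx n), (∀ x, x ∈ A top ↔ x ∈ Z ∧ NB top x) ∧
      ∀ i < top, ∀ x, x ∈ A i ↔ NB i x ∧ ∃ y ∈ A (i + 1), ds y x ≤ g (i + 1) := by
  classical
  refine ⟨fun i => AA NB g Z top (top - i), fun x => by simp [AA], fun i hi x => ?_⟩
  have e : top - i = top - (i + 1) + 1 := by omega
  have e1 : top - (top - (i + 1) + 1) = i := by omega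
  have e2 : top - (top - (i + 1)) = i + 1 := by omega
  simp only [e, AA, e1, e2, mem_filter, mem_univ, true_and]

/-- what the construction of the nets gives -/
structure Nets {L : Type} (lev : L → ℕ) (loc : L → Vx n) (On : Finset L)
    (NB : ℕ → Vx n → Prop) (H D g : ℕ → ℕ) (Z : Finset (Vx n)) (top : ℕ)
    (E : Finset L) (N : ℕ → Finset (Vx n)) : Prop where
  sub : E ⊆ On
  near : ∀ l ∈ E, lev l ≤ top ∧ ∃ y ∈ N (lev l), ds y (loc l) ≤ H (lev l)
  far : ∀ l ∈ E, ∀ l' ∈ E, l ≠ l' → lev l = lev l' →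
    D (lev l) < ds (loc l) (loc l') + 2 * H (lev l)
  sep : ∀ i, ∀ y ∈ N i, ∀ y' ∈ N i, y ≠ y' → D i < ds y y'
  up : ∀ i < top, ∀ a ∈ N i, ∃ y ∈ N (i + 1), ds y a ≤ D (i + 1) + g (i + 1)
  wit : ∀ i ≤ top, ∀ y ∈ N i, (∃ l ∈ E, lev l = i ∧ ds y (loc l) ≤ H i) ∨
    ∃ j, i = j + 1 ∧ ∃ a ∈ N j, ∃ b ∈ N j, a ≠ b ∧ ds y a ≤ g i + D (i - 1) ∧
      ds y b ≤ g i + D (i - 1)
  nb : ∀ i ≤ top, ∀ y ∈ N i, NB i y
  topZ : N top ⊆ Z
  tb : ∀ i ≤ top, ∀ x ∈ Z, (∀ k, i ≤ k → k ≤ top → NB k x) → ∃ y ∈ N i, ds y x ≤ D i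
  pos : ∀ i ≤ top, ∀ y ∈ N i, ∃ z ∈ Z, ds z y ≤ ∑ k ∈ Ioc i top, g k

theorem nets {L : Type} (lev : L → ℕ) (loc : L → Vx n) (On : Finset L)
    (NB : ℕ → Vx n → Prop) (H D g : ℕ → ℕ) (Z : Finset (Vx n)) (top : ℕ)
    (h0 : ∀ y, NB 0 y → ∃ l ∈ On, lev l = 0 ∧ ds y (loc l) ≤ H 0)
    (hs : ∀ j < top, ∀ y, NB (j + 1) y →
      (∃ l ∈ On, lev l = j + 1 ∧ ds y (loc l) ≤ H (j + 1)) ∨
      ∃ a b, NB j a ∧ NB j b ∧ ds y a ≤ g (j + 1) ∧ ds y b ≤ g (j + 1) ∧ 2 * D j < ds a b) :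
    ∃ E N, Nets lev loc On NB H D g Z top E N := by
  classical
  obtain ⟨A, At, Ai⟩ := ex_sets NB g Z top
  choose N N1 N2 N3 using fun i => ex_net (A i) (D i)
  have nb : ∀ i ≤ top, ∀ y ∈ A i, NB i y := fun i hi y hy => by
    rcases hi.eq_or_lt with rfl | hi
    exacts [((At y).1 hy).2, ((Ai i hi y).1 hy).1]
  have ch : ∀ p : ℕ × Vx n, ∃ o : Finset L, o.card ≤ 1 ∧
      (∀ l ∈ o, l ∈ On ∧ lev l = p.1 ∧ ds p.2 (loc l) ≤ H p.1) ∧
      ((∃ l ∈ On, lev l = p.1 ∧ ds p.2 (loc l) ≤ H p.1) → o.Nonempty) := fun p => by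
    by_cases c : ∃ l ∈ On, lev l = p.1 ∧ ds p.2 (loc l) ≤ H p.1
    · obtain ⟨l, hl⟩ := c
      exact ⟨{l}, by simp, by simpa using hl, fun _ => singleton_nonempty l⟩
    · exact ⟨∅, by simp, by simp, fun h => absurd h c⟩
  choose o o1 o2 o3 using ch
  set E : Finset L := (range (top + 1)).biUnion fun i => (N i).biUnion fun y => o (i, y) with hE
  have mE : ∀ l, l ∈ E ↔ ∃ i ≤ top, ∃ y ∈ N i, l ∈ o (i, y) := fun l => by
    simp only [hE, mem_biUnion, mem_range, Nat.lt_succ_iff]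
  have lab : ∀ i ≤ top, ∀ y ∈ N i, (∃ l ∈ On, lev l = i ∧ ds y (loc l) ≤ H i) →
      ∃ l ∈ E, lev l = i ∧ ds y (loc l) ≤ H i := fun i hi y hy h => by
    obtain ⟨l, hl⟩ := o3 (i, y) h
    exact ⟨l, (mE l).2 ⟨i, hi, y, hy, hl⟩, (o2 _ l hl).2⟩
  have tbA : ∀ d i, i + d = top → ∀ x ∈ Z, (∀ k, i ≤ k → k ≤ top → NB k x) → x ∈ A i := by
    intro d
    induction d with
    | zero => rintro i rfl x hx h; exact (At x).2 ⟨hx, h _ le_rfl le_rfl⟩
    | succ d ih =>
      intro i hi x hx h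
      exact (Ai i (by omega) x).2 ⟨h i le_rfl (by omega), x,
        ih (i + 1) (by omega) x hx fun k h1 h2 => h k (by omega) h2, by simp⟩
  have psA : ∀ d i, i + d = top → ∀ y ∈ A i, ∃ z ∈ Z, ds z y ≤ ∑ k ∈ Ioc i top, g k := by
    intro d
    induction d with
    | zero => rintro i rfl y hy; exact ⟨y, ((At y).1 hy).1, by simp⟩
    | succ d ih =>
      intro i hi y hy
      obtain ⟨x, hx, hd⟩ := ((Ai i (by omega) y).1 hy).2
      obtain ⟨z, hz, h⟩ := ih (i + 1) (by omega) x hx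
      have e : Ioc i top = insert (i + 1) (Ioc (i + 1) top) := by
        ext k; simp only [mem_insert, mem_Ioc]; omega
      refine ⟨z, hz, ?_⟩
      rw [e, sum_insert (by simp)]
      have := ds_tri z x y
      omega
  refine ⟨E, N, fun l hl => ?_, fun l hl => ?_, fun l hl l' hl' hne he => ?_, N2,
    fun i hi a ha => ?_, fun i hi y hy => ?_, fun i hi y hy => nb i hi y (N1 i hy),
    fun y hy => ((At y).1 (N1 _ hy)).1,
    fun i hi x hx h => N3 i x (tbA (top - i) i (by omega) x hx h),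
    fun i hi y hy => psA (top - i) i (by omega) y (N1 i hy)⟩
  · obtain ⟨i, _, y, _, h⟩ := (mE l).1 hl
    exact (o2 _ l h).1
  · obtain ⟨i, hi, y, hy, h⟩ := (mE l).1 hl
    obtain ⟨_, rfl, h2⟩ := o2 (i, y) l h
    exact ⟨hi, y, hy, h2⟩
  · obtain ⟨i, _, y, hy, h⟩ := (mE l).1 hl
    obtain ⟨i', _, y', hy', h'⟩ := (mE l').1 hl'
    obtain ⟨_, rfl, h2⟩ := o2 (i, y) l h
    obtain ⟨_, rfl, h2'⟩ := o2 (i', y') l' h'
    simp only at h2 h2'
    rw [← he] at hy' h' h2'
    have hy2 : y ≠ y' := by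
      rintro rfl
      exact hne (card_le_one.1 (o1 _) l h l' h')
    have := N2 _ y hy y' hy' hy2
    have := ds_tri y (loc l) y'
    have := ds_tri (loc l) (loc l') y'
    rw [ds_comm (loc l') y'] at this
    omega
  · obtain ⟨x, hx, hd⟩ := ((Ai i hi a).1 (N1 i ha)).2
    obtain ⟨y, hy, h⟩ := N3 _ x hx
    have := ds_tri y x a
    exact ⟨y, hy, by omega⟩
  · have hb := nb i hi y (N1 i hy)
    rcases i with _ | j
    · exact Or.inl (lab 0 hi y hy (h0 y hb))
    rcases hs j (by omega) y hb with h | ⟨a, b, ha, hb, da, db, hab⟩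
    · exact Or.inl (lab _ hi y hy h)
    obtain ⟨a', ha', ea⟩ := N3 j a ((Ai j (by omega) a).2 ⟨ha, y, N1 _ hy, da⟩)
    obtain ⟨b', hb', eb⟩ := N3 j b ((Ai j (by omega) b).2 ⟨hb, y, N1 _ hy, db⟩)
    have t1 := ds_tri y a a'
    have t2 := ds_tri y b b'
    rw [ds_comm a a'] at t1
    rw [ds_comm b b'] at t2
    refine Or.inr ⟨j, rfl, a', ha', b', hb', ?_, by simp only [Nat.add_sub_cancel]; omega,
      by simp only [Nat.add_sub_cancel]; omega⟩
    rintro rfl
    have := ds_tri a a' b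
    rw [ds_comm a a'] at this
    omega

open Classical in
/-- summing the conclusion of `NetStmt` over the giant labels and over the top net -/
theorem net_total {L Ω : Type} [Fintype L] [DecidableEq L] (lev : L → ℕ) (π : L → ℝ≥0∞)
    (E : Ω → Finset L) (Nt : Ω → Finset (Vx n)) (f : Ω → ℝ≥0∞) (K w : ℝ≥0∞) (top : ℕ)
    (h : ∀ (F : Finset L) (A : Finset (Vx n)), (∀ l ∈ F, top < lev l) →
      ∑' ω, (if (E ω).filter (fun l => top < lev l) = F ∧ Nt ω = A then f ω else 0) ≤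
        K * (∏ l ∈ F, π l) * w ^ A.card)
    (G : Finset L) (Z : Finset (Vx n)) (Q : Ω → Prop) (J : Finset (Vx n) → Prop)
    (hQ : ∀ ω, Q ω → (∀ l ∈ E ω, top < lev l → l ∈ G) ∧ Nt ω ⊆ Z ∧ J (Nt ω)) :
    ∑' ω, (if Q ω then f ω else 0) ≤
      K * (∏ l ∈ G, (1 + π l)) * ∑ A ∈ Z.powerset.filter J, w ^ A.card := by
  set G' := G.filter fun l => top < lev l
  refine (Net.split (G'.powerset ×ˢ Z.powerset.filter J) Q
    (fun T ω => (E ω).filter (fun l => top < lev l) = T.1 ∧ Nt ω = T.2) f f 1 ?_).trans ?_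
  · intro ω hq
    obtain ⟨a, b, c⟩ := hQ ω hq
    refine ⟨by simp, (_, _), mem_product.2 ⟨mem_powerset.2 fun l hl => ?_,
      mem_filter.2 ⟨mem_powerset.2 b, c⟩⟩, rfl, rfl⟩
    exact mem_filter.2 ⟨a l (mem_filter.1 hl).1 (mem_filter.1 hl).2, (mem_filter.1 hl).2⟩
  · rw [mul_one]
    calc _ ≤ ∑ T ∈ G'.powerset ×ˢ Z.powerset.filter J, K * (∏ l ∈ T.1, π l) * w ^ T.2.card :=
          sum_le_sum fun T hT => h _ _ fun l hl =>
            (mem_filter.1 (mem_powerset.1 (mem_product.1 hT).1 hl)).2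
      _ = K * (∏ l ∈ G', (1 + π l)) * ∑ A ∈ Z.powerset.filter J, w ^ A.card := by
          rw [sum_product, prod_one_add, mul_sum G'.powerset, sum_mul]
          exact sum_congr rfl fun F _ => by rw [mul_sum]
      _ ≤ _ := by
          refine mul_le_mul_left (mul_le_mul_right ?_ _) _
          exact prod_le_prod_of_subset_of_one_le' (filter_subset _ _) fun _ _ _ => le_self_add

lemma sum_pow_card {α : Type} (Z : Finset α) (w : ℝ≥0∞) :
    ∑ A ∈ Z.powerset, w ^ A.card = (1 + w) ^ Z.card := by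
  rw [← prod_const, prod_one_add]
  simp

open Classical in
lemma sum_pow_ne {α : Type} (Z : Finset α) (w : ℝ≥0∞) :
    ∑ A ∈ Z.powerset.filter Finset.Nonempty, w ^ A.card ≤ Z.card * w * (1 + w) ^ Z.card := by
  have h := Net.hit Z (fun _ => w) (fun _ : Unit => Z) (fun _ => Z.image fun a => {a})
    (fun _ X hX => by
      obtain ⟨a, ha, rfl⟩ := mem_image.1 hX
      exact singleton_subset_iff.2 ha) {()} (by simp) ∅ (by simp)
  simp only [prod_const, prod_empty, one_mul, prod_singleton, card_empty, pow_zero,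
    card_singleton, pow_one] at h
  refine le_trans (sum_le_sum_of_subset fun A hA => ?_) (h.trans ?_)
  · obtain ⟨h1, a, ha⟩ := mem_filter.1 hA
    refine (@mem_filter _ _ (_) _ _).2 ?_
    exact ⟨h1, empty_subset _, fun _ _ => ⟨{a},
      mem_image.2 ⟨a, mem_powerset.1 h1 ha, rfl⟩, singleton_subset_iff.2 ha⟩⟩
  · gcongr
    exact (Net.image_le Z (fun a => {a}) fun X : Finset α => w ^ X.card).trans (by simp)

section
variable {α : Type} [Fintype α] [DecidableEq α]

lemma pw_sup' (p : α → ℝ) (G : Finset α) :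
    ∑ s, (if G ⊆ s then pw p s else 0) = ∏ a ∈ G, p a := by
  have a : ∀ s : Finset α, (if G ⊆ s then pw p s else 0) =
      ∏ a, (if a ∈ s then p a else if a ∈ G then 0 else 1 - p a) := by
    intro s
    split_ifs with h
    · unfold pw
      refine prod_congr rfl fun a _ => ?_
      by_cases c : a ∈ s
      · simp [c]
      · simp [c, show a ∉ G from fun c' => c (h c')]
    · obtain ⟨a, h1, h2⟩ := not_subset.1 h
      exact (prod_eq_zero (mem_univ a) (by simp [h1, h2])).symm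
  simp only [a]
  have := F.sum_ite p fun a => if a ∈ G then 0 else 1 - p a
  refine (Eq.trans (by congr!) this).trans ?_
  rw [← prod_subset (subset_univ G) fun a _ h => by simp [h]]
  exact prod_congr rfl fun a h => by simp [h]

lemma pw_erase (p : α → ℝ) (a : α) (s : Finset α) :
    pw p s = (if a ∈ s then p a else 1 - p a) *
      ∏ b ∈ univ.erase a, if b ∈ s.erase a then p b else 1 - p b := by
  unfold pw
  rw [← mul_prod_erase _ _ (mem_univ a)]
  congr 1
  · congr!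
  · exact prod_congr rfl fun b hb => by simp [(mem_erase.1 hb).1]

/-- size bias -/
lemma pw_bias (p : α → ℝ) (a : α) (f : Finset α → ℝ) :
    ∑ s, (if a ∈ s then pw p s * f s else 0) = p a * ∑ s, pw p s * f (insert a s) := by
  set R : Finset α → ℝ := fun s => ∏ b ∈ univ.erase a, if b ∈ s then p b else 1 - p b
  have e : (univ : Finset (Finset α)) = (insert a (univ.erase a)).powerset := by
    rw [insert_erase (mem_univ a), powerset_univ]
  have na : ∀ t ∈ (univ.erase a : Finset α).powerset, a ∉ t := fun t ht h =>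
    (mem_erase.1 (mem_powerset.1 ht h)).1 rfl
  rw [e, sum_powerset_insert (notMem_erase a _), sum_powerset_insert (notMem_erase a _),
    ← sum_add_distrib, ← sum_add_distrib, mul_sum]
  refine sum_congr rfl fun t ht => ?_
  have h := na t ht
  rw [pw_erase p a t, pw_erase p a (insert a t), if_neg h, if_neg h,
    if_pos (mem_insert_self a t), if_pos (mem_insert_self a t), erase_insert h,
    erase_eq_of_notMem h, insert_idem]
  ring

end

end Pool.Agent.Lib.MP_9cc147_pr.AllU.P
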