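import Pool.Agent.Lib.MP_9cc147_pr.U.Defs

/-! Section R, part 1: springs on finitely many windows. -/

open Finset

namespace Pool.Agent.Lib.MP_9cc147_pr.AllU.R

variable {ι W : Type}

open Classical in
/-- scaling of the coordinates after the springs in `S` -/
noncomputable def Dd (Wd : W → Set ι) (S : Finset W) (i : ι) : ℝ :=
  ∏ w ∈ S, if i ∈ Wd w then √3 else 1

open Classical in
/-- the shifts after the springs in `S` -/
def GS (G : Set ((ι → ℝ) × ℝ)) (Wd : W → Set ι) (d : W → ι → ℝ) (b : W → ℝ) (S : Finset W) :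
    Set ((ι ⊕ W → ℝ) × ℝ) :=
  {p | (∃ g ∈ G, p = (Sum.elim (Dd Wd S * g.1) 0, g.2)) ∨
    ∃ w ∈ S, p = (Sum.elim (Dd Wd S * d w) (fun w' => if w' = w then √(b w) else 0), 0)}

lemma Dd_empty (Wd : W → Set ι) : Dd Wd ∅ = 1 := by
  funext i; simp [Dd]

lemma Dd_of_not (Wd : W → Set ι) (S : Finset W) {i : ι} (h : ∀ w, i ∉ Wd w) : Dd Wd S i = 1 := by
  simp [Dd, h]

lemma Dd_mul_eq (Wd : W → Set ι) (S : Finset W) {y : ι → ℝ} (h : ∀ w, ∀ i ∈ Wd w, y i = 0) :
    Dd Wd S * y = y := by
  funext i
  by_cases hi : ∃ w, i ∈ Wd w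
  · obtain ⟨w, hw⟩ := hi
    simp [h w i hw]
  · simp [Dd_of_not Wd S (not_exists.1 hi)]

lemma scl_elim [DecidableEq W] (Wd : W → Set ι) {S : Finset W} {w : W} (hw : w ∉ S) (y : ι → ℝ)
    (z : W → ℝ) : scl (Sum.inl '' Wd w) 3 (Sum.elim (Dd Wd S * y) z) =
      Sum.elim (Dd Wd (insert w S) * y) z := by
  funext i
  rcases i with i | i
  · by_cases h : i ∈ Wd w <;> simp [scl, Dd, prod_insert hw, h, mul_assoc]
  · simp [scl]

variable [Fintype ι] [Fintype W]

/-- adding coordinates that vanish -/
lemma of_elim (hC : CmpStmt) {lam c : ℝ} {G : Set ((ι → ℝ) × ℝ)} {H : Set ((ι ⊕ W → ℝ) × ℝ)}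
    (h : ∀ p ∈ H, ∃ g ∈ G, p = (Sum.elim g.1 0, g.2)) (hH : Mul lam H c) : Mul lam G c := by
  refine hC lam c ι (ι ⊕ W) G H (ι → ℝ) LinearMap.id
    { toFun := fun x => Sum.elim x 0
      map_add' := fun x y => by funext i; rcases i with i | i <;> simp
      map_smul' := fun s x => by funext i; rcases i with i | i <;> simp } (fun x => ?_) ?_ hH
  · simp [Fintype.sum_sum_type]
  · intro p hp
    obtain ⟨g, hg, rfl⟩ := h p hp
    exact ⟨g.1, rfl, AddSubgroup.subset_closure hg⟩

lemma to_elim (hC : CmpStmt) {lam c : ℝ} {G : Set ((ι → ℝ) × ℝ)} {H : Set ((ι ⊕ W → ℝ) × ℝ)}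
    (h : ∀ g ∈ G, (Sum.elim g.1 0, g.2) ∈ H) (hG : Mul lam G c) : Mul lam H c := by
  refine hC lam c (ι ⊕ W) ι H G (ι → ℝ)
    { toFun := fun x => Sum.elim x 0
      map_add' := fun x y => by funext i; rcases i with i | i <;> simp
      map_smul' := fun s x => by funext i; rcases i with i | i <;> simp } LinearMap.id
    (fun x => ?_) ?_ hG
  · simp [Fintype.sum_sum_type]
  · intro g hg
    exact ⟨g.1, rfl, AddSubgroup.subset_closure (h g hg)⟩

/-- moving the coordinate `k` to a new place -/
lemma to_opt {κ : Type} [Fintype κ] [DecidableEq κ] (hC : CmpStmt) {lam c : ℝ} (k : κ)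
    {G : Set ((κ → ℝ) × ℝ)} {H : Set ((Option κ → ℝ) × ℝ)}
    (h : ∀ g ∈ G, ((fun o => Option.elim o (g.1 k) (Function.update g.1 k 0)), g.2) ∈ H)
    (hG : Mul lam G c) : Mul lam H c := by
  refine hC lam c (Option κ) κ H G (κ → ℝ)
    { toFun := fun x o => Option.elim o (x k) (Function.update x k 0)
      map_add' := fun x y => by
        funext o
        rcases o with _ | i
        · simp
        · by_cases hi : i = k <;> simp [hi]
      map_smul' := fun s x => by
        funext o
        rcases o with _ | i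
        · simp
        · by_cases hi : i = k <;> simp [hi] } LinearMap.id (fun x => ?_) ?_ hG
  · rw [Fintype.sum_option]
    simp only [LinearMap.coe_mk, AddHom.coe_mk, Option.elim_none, Option.elim_some,
      LinearMap.id_coe, id_eq]
    rw [← add_sum_erase univ (fun i => x i ^ 2) (mem_univ k),
      ← add_sum_erase univ (fun i => Function.update x k 0 i ^ 2) (mem_univ k)]
    have : ∑ i ∈ univ.erase k, Function.update x k 0 i ^ 2 = ∑ i ∈ univ.erase k, x i ^ 2 :=
      sum_congr rfl fun i hi => by rw [Function.update_of_ne (ne_of_mem_erase hi)]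
    rw [this]
    simp
  · intro g hg
    exact ⟨g.1, rfl, AddSubgroup.subset_closure (h g hg)⟩

lemma multi (hB : BasicStmt) (hC : CmpStmt) (hS : SpringStmt) {lam cs d0 : ℝ} {m : ℕ} {I : Type}
    [Fintype I] [Nonempty I] {G G0 : Set ((ι → ℝ) × ℝ)} {Wd : W → Set ι} {u : W → I → ι → ℝ}
    {d : W → ι → ℝ} {b : W → ℝ} {Sp : W → I → I → ℝ} (hm : 1 ≤ m)
    (hu : ∀ w t i, i ∉ Wd w → u w t i = 0) (hd : ∀ w i, i ∉ Wd w → d w i = 0)
    (hG : ∀ w t, (u w t + d w, (0 : ℝ)) ∈ G)
    (hD : ∀ (S : Finset W) (w : W), w ∉ S → ∀ i ∈ Wd w, Dd Wd S i ^ 2 ≤ 3)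
    (hSp : ∀ w t t', ∑ i, |u w t i| * |u w t' i| ≤ Sp w t t')
    (havg : ∀ w, ∑ t, ∑ t', Real.exp (9 * (m + 1) * Sp w t t') <
      (Fintype.card I : ℝ) ^ 2 * Real.exp (b w))
    (h0 : ∀ g ∈ G0, g ∈ G ∧ ∀ w, ∀ i ∈ Wd w, g.1 i = 0)
    (hfail : ∀ H : Set ((ι ⊕ W → ℝ) × ℝ), (∀ g ∈ G0, (Sum.elim g.1 0, g.2) ∈ H) → Mul lam H d0)
    (hle : cs ≤ d0) (hfin : Mul lam (GS G Wd d b univ) cs) :
    Mul lam G (cs + Fintype.card W * (27 / 28 : ℝ) ^ m * (d0 - cs)) := by
  classical
  have hp0 : (0 : ℝ) ≤ (27 / 28 : ℝ) ^ m := by positivity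
  have hp1 : (27 / 28 : ℝ) ^ m ≤ 1 := pow_le_one₀ (by norm_num) (by norm_num)
  have key : ∀ R : Finset W,
      Mul lam (GS G Wd d b Rᶜ) (cs + R.card * (27 / 28 : ℝ) ^ m * (d0 - cs)) := by
    intro R
    induction R using Finset.induction_on with
    | empty => simpa using hfin
    | insert w R hw ih =>
      obtain ⟨S, hSd⟩ : ∃ S, S = (insert w R)ᶜ := ⟨_, rfl⟩
      have hwS : w ∉ S := by simp [hSd]
      have hR : Rᶜ = insert w S := by
        ext x
        by_cases hx : x = w <;> simp [hSd, hx, hw]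
      rw [← hSd, card_insert_of_notMem hw]
      rw [hR] at ih
      have hsp := hS lam (b w) ((27 / 28 : ℝ) ^ m)
        (cs + R.card * (27 / 28 : ℝ) ^ m * (d0 - cs)) d0 m (ι ⊕ W) I (GS G Wd d b S)
        (Sum.inl '' Wd w) (fun t => Sum.elim (Dd Wd S * u w t) 0) (Sum.elim (Dd Wd S * d w) 0)
        (fun t t' => 3 * Sp w t t') hm
        (fun t i hi => by
          rcases i with i | i
          · have : i ∉ Wd w := fun h => hi ⟨i, h, rfl⟩
            simp [hu w t i this]
          · rfl)
        (fun i hi => by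
          rcases i with i | i
          · have : i ∉ Wd w := fun h => hi ⟨i, h, rfl⟩
            simp [hd w i this]
          · rfl)
        (fun t => AddSubgroup.subset_closure (Or.inl ⟨_, hG w t, by
          refine Prod.ext ?_ rfl
          funext i
          rcases i with i | i <;> simp [mul_add]⟩))
        (fun t t' => by
          have h1 : 0 ≤ ∑ i, |u w t i| * |u w t' i| := sum_nonneg fun i _ => by positivity
          refine ⟨by linarith [hSp w t t'], le_trans ?_
            (mul_le_mul_of_nonneg_left (hSp w t t') (by norm_num))⟩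
          rw [Fintype.sum_sum_type, mul_sum]
          simp only [Sum.elim_inl, Sum.elim_inr, Pi.mul_apply, Pi.zero_apply, mul_zero,
            sum_const_zero, add_zero]
          refine sum_le_sum fun i _ => ?_
          by_cases hi : i ∈ Wd w
          · have h2 := hD S w hwS i hi
            have h3 : u w t i * u w t' i ≤ |u w t i| * |u w t' i| := by
              rw [← abs_mul]; exact le_abs_self _
            have h4 : 0 ≤ |u w t i| * |u w t' i| := by positivity
            calc Dd Wd S i * u w t i * (Dd Wd S i * u w t' i)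
                = Dd Wd S i ^ 2 * (u w t i * u w t' i) := by ring
              _ ≤ Dd Wd S i ^ 2 * (|u w t i| * |u w t' i|) :=
                mul_le_mul_of_nonneg_left h3 (sq_nonneg _)
              _ ≤ _ := mul_le_mul_of_nonneg_right h2 h4
          · simp [hu w t i hi])
        (by
          refine lt_of_eq_of_lt ?_ (havg w)
          refine sum_congr rfl fun t _ => sum_congr rfl fun t' _ => ?_
          congr 1
          ring)
        le_rfl hp1
        (to_opt hC (Sum.inr w) (fun g hg => by
          rcases hg with ⟨g', hg', rfl⟩ | ⟨w', hw', rfl⟩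
          · refine Or.inl ⟨_, Or.inl ⟨g', hg', rfl⟩, Prod.ext ?_ rfl⟩
            simp only [scl_elim Wd hwS]
            funext o
            rcases o with _ | i
            · rfl
            · by_cases hi : i = Sum.inr w <;> simp [hi]
          · rcases mem_insert.1 hw' with rfl | hw'
            · refine Or.inr (Prod.ext ?_ rfl)
              simp only [scl_elim Wd hwS]
              funext o
              rcases o with _ | i | i
              · exact if_pos rfl
              · exact Function.update_of_ne (Sum.inl_ne_inr : (Sum.inl i : ι ⊕ W) ≠ Sum.inr w') _ _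
              · by_cases hi : i = w'
                · subst hi
                  exact Function.update_self _ _ _
                · have hi' : (Sum.inr i : ι ⊕ W) ≠ Sum.inr w' := fun e => hi (Sum.inr_injective e)
                  exact (Function.update_of_ne hi' _ _).trans (if_neg hi)
            · refine Or.inl ⟨_, Or.inr ⟨w', hw', rfl⟩, Prod.ext ?_ rfl⟩
              have hne : w ≠ w' := fun e => hwS (e ▸ hw')
              simp only [scl_elim Wd hwS]
              funext o
              rcases o with _ | i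
              · exact if_neg hne
              · by_cases hi : i = Sum.inr w
                · subst hi
                  exact (Function.update_self _ _ _).trans (if_neg hne).symm
                · exact Function.update_of_ne hi _ _) ih)
        (hfail _ fun g hg => ⟨_, Or.inl ⟨g, (h0 g hg).1, rfl⟩, by
          rw [scl_elim Wd hwS, Dd_mul_eq Wd _ (h0 g hg).2]⟩)
      refine (hB lam _ _).2.1 _ _ ?_ hsp
      have h5 : 0 ≤ (R.card : ℝ) * (27 / 28 : ℝ) ^ m * (d0 - cs) * (27 / 28 : ℝ) ^ m := by
        have : 0 ≤ d0 - cs := by linarith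
        positivity
      push_cast
      nlinarith
  have h := key univ
  rw [compl_univ, card_univ] at h
  refine of_elim hC (fun p hp => ?_) h
  rcases hp with ⟨g, hg, rfl⟩ | ⟨w, hw, -⟩
  · exact ⟨g, hg, by rw [Dd_empty, one_mul]⟩
  · simp at hw

end Pool.Agent.Lib.MP_9cc147_pr.AllU.R
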