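import Pool.Agent.Lib.MP_9cc147_pr.U.SDefs

/-! Section S: assembly of the parts. -/

open Finset
open scoped ENNReal

namespace Pool.Agent.Lib.MP_9cc147_pr.AllU.S.G

variable {n : ℕ}

namespace Asm

open Classical in
/-- the data that are constant on a class -/
noncomputable def key (N : ℕ) (ω : St n) : Finset (Eg n) × Finset (Vx n) ×
    Finset (Fin (n + 1) × Vx n) × Finset (Vx n) × (Eg n → ℤ) :=
  (ω.S, ω.mr, ω.fl, Ast N ω, fun e => if e ∈ Ed n ∧ e.1 ∈ Ast N ω then gr ω.m e else 0)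

lemma key_iff (hC : ClsSt) {N : ℕ} (hN : 1 ≤ N) {ω0 ω : St n} (h0 : Reg N ω0) :
    (Reg N ω ∧ key N ω = key N ω0) ↔ Same (Ast N ω0) ω0 ω := by
  constructor
  · rintro ⟨h, hk⟩
    simp only [key, Prod.mk.injEq] at hk
    obtain ⟨h1, h2, h3, h4, h5⟩ := hk
    refine ⟨h.pin, h1, h2, h3, fun e he hA => ?_⟩
    have := congrFun h5 e
    rwa [h4, if_pos ⟨he, hA⟩, if_pos ⟨he, hA⟩] at this
  · intro h
    obtain ⟨h1, -, h2⟩ := (hC n N ω0 hN h0).2.2 ω h
    refine ⟨h1, ?_⟩
    simp only [key, Prod.mk.injEq]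
    refine ⟨h.S, h.mr, h.fl, h2, funext fun e => ?_⟩
    rw [h2]
    split_ifs with c
    · exact h.gr e c.1 c.2
    · rfl

open Classical in
lemma fib (N : ℕ) (f : St n → ℝ≥0∞) :
    ∑' ω, f ω = ∑' κ, ∑' ω, if key N ω = κ then f ω else 0 := by
  convert tsum_fib (key N) f

/-- the state of the class with given heights -/
def st (ω0 : St n) (m : Vx n → ℤ) : St n := ⟨m, ω0.S, ω0.mr, ω0.fl⟩

open Classical in
lemma cls_sum (hP : PosSt) (hC : ClsSt) (hG : GgSt) {a : Pa} (ha : a.H) {ω0 : St n}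
    (h0 : Reg a.N ω0) : ∃ K : ℝ≥0∞, K ≠ 0 ∧ ∀ f : St n → ℝ≥0∞,
      (∑' ω, if key a.N ω = key a.N ω0 then
        (if Reg a.N ω then nu a ω * gg a ω * f ω else 0) else 0) =
      K * gg a ω0 * ∑' m, cw a.w0 (Ast a.N ω0) ω0.m m * f (st ω0 m) := by
  obtain ⟨hN, -, -, -, hK⟩ := hP n a ω0 ha
  obtain ⟨K, K0, -, hK⟩ := hK _ h0 (hC n a.N ω0 hN h0).2.1
  refine ⟨K, K0, fun f => ?_⟩
  have inj : Function.Injective (st ω0) := fun m m' h => congrArg St.m h
  rw [← inj.tsum_eq, ← ENNReal.tsum_mul_left]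
  · refine tsum_congr fun m => ?_
    by_cases c : Same (Ast a.N ω0) ω0 (st ω0 m)
    · obtain ⟨h1, h2⟩ := (key_iff hC hN h0).2 c
      rw [if_pos h2, if_pos h1, hK _ c, hG n a ω0 _ ha h0 c]
      simp only [st]
      ring
    · have : cw a.w0 (Ast a.N ω0) ω0.m m = 0 :=
        if_neg fun h => c ⟨h.1, rfl, rfl, rfl, h.2⟩
      rw [this, zero_mul, mul_zero]
      split_ifs with c1 c2
      · exact absurd ((key_iff hC hN h0).1 ⟨c2, c1⟩) c
      · rfl
      · rfl
  · intro ω hω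
    rw [Function.mem_support] at hω
    split_ifs at hω with c1 c2
    · have c := (key_iff hC hN h0).1 ⟨c2, c1⟩
      exact ⟨ω.m, St.ext rfl c.S.symm c.mr.symm c.fl.symm⟩
    · exact absurd rfl hω
    · exact absurd rfl hω

open Classical in
lemma cls_le (hI : ItrSt) (hP : PosSt) (hC : ClsSt) (hG : GgSt) (hPin : PinSt) {a : Pa} (ha : a.H)
    {lam : ℝ} {d : Finset (Vx n) → Finset (Fin (n + 1) × Vx n) → ℝ}
    (hd : ∀ A fl, Dom lam (Gm (LamI (rho0 A fl)) (cL a.β)) (d A fl))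
    (hZ : (∑' ω : St n, if Reg a.N ω then nu a ω * gg a ω * 1 else 0) ≠ ⊤) :
    (∑' ω : St n, if Reg a.N ω then nu a ω * gg a ω *
      ENNReal.ofReal (max 0 (1 - d (XX a.N (fin a.N ω)) (fin a.N ω).fl)) else 0) ≤
    ∑' ω : St n, if Reg a.N ω then nu a ω * gg a ω *
      ENNReal.ofReal (1 - Real.cos (lam * (ω.m (vl n) : ℝ))) else 0 := by
  rw [fib a.N, fib a.N (fun ω : St n => if Reg a.N ω then nu a ω * gg a ω *
      ENNReal.ofReal (1 - Real.cos (lam * (ω.m (vl n) : ℝ))) else 0)]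
  refine ENNReal.tsum_le_tsum fun κ => ?_
  by_cases hκ : ∃ ω, Reg a.N ω ∧ key a.N ω = κ
  swap
  · refine (ENNReal.tsum_eq_zero.2 fun ω => ?_).trans_le bot_le
    split_ifs with c1 c2
    · exact absurd ⟨ω, c2, c1⟩ hκ
    · rfl
    · rfl
  obtain ⟨ω1, h1, k1⟩ := hκ
  obtain ⟨b, ⟨ω0, h0, k0, rfl⟩, hb⟩ := Set.exists_max_image
    {b : Finset (Vx n) × Finset (Fin (n + 1) × Vx n) |
      ∃ ω, Reg a.N ω ∧ key a.N ω = κ ∧ b = (XX a.N (fin a.N ω), (fin a.N ω).fl)}
    (fun b => 1 - d b.1 b.2) (Set.toFinite _) ⟨_, ω1, h1, k1, rfl⟩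
  subst k0
  have hN := (hP n a ω0 ha).1
  obtain ⟨K, K0, hK⟩ := cls_sum hP hC hG ha h0
  set D := 1 - d (XX a.N (fin a.N ω0)) (fin a.N ω0).fl with hD
  calc _ ≤ ∑' ω : St n, if key a.N ω = key a.N ω0 then
        (if Reg a.N ω then nu a ω * gg a ω * ENNReal.ofReal D else 0) else 0 := by
        refine ENNReal.tsum_le_tsum fun ω => ?_
        split_ifs with c1 c2
        · refine mul_le_mul_right ?_ _
          have := hb _ ⟨ω, c2, c1, rfl⟩
          rw [ENNReal.ofReal_max, ENNReal.ofReal_zero, max_eq_right zero_le]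
          exact ENNReal.ofReal_le_ofReal this
        · rfl
        · rfl
    _ ≤ _ := by
        rw [hK fun _ => ENNReal.ofReal D,
          hK fun ω => ENNReal.ofReal (1 - Real.cos (lam * (ω.m (vl n) : ℝ)))]
        by_cases g0 : gg a ω0 = 0
        · simp [g0]
        refine mul_le_mul_right ?_ _
        rw [ENNReal.tsum_mul_right, mul_comm]
        have I := hI n a.N ω0 hN h0
        refine class_dom ha.b0 ha.mix
          (fun e he hA => hPin n a.N _ hN I.tru.1 I.tru.2 e he (I.ast _ hA)) _ (hd _ _) ?_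
        intro ht
        apply hZ
        rw [eq_top_iff, fib a.N]
        refine le_trans ?_ (ENNReal.le_tsum (key a.N ω0))
        rw [hK fun _ => 1]
        simp only [mul_one, ht]
        rw [ENNReal.mul_top (mul_ne_zero K0 g0)]

end Asm

open Asm

open Classical in
theorem sasm (hI : ItrSt) (hP : PosSt) (hR : ResSt) (hC : ClsSt) (hG : GgSt) (hPin : PinSt)
    (hT : TruSt) (hB : BudSt) : SStmt := by
  intro w w0 N Y β e ε w1 S H n
  let a : Pa := ⟨w, w0, N, Y, β, e, ε, w1, S⟩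
  have ha : a.H := H
  have T := hT n a ha
  have tot : ∑' σ : St n, nt a σ * 1 = ∑' m, gw (n := n) w m := by
    simpa only [mul_one] using T.tot fun _ => 1
  refine ⟨St n, nt a, XX N, by simpa only [mul_one] using tot, fun C η => hB n a C η ha,
    fun lam d hd => ?_⟩
  by_cases hZ : ∑' m, gw (n := n) w m = ⊤
  · rw [hZ, ENNReal.mul_top (by have := H.e0; simp; linarith), add_top]
    exact le_top
  refine (T.swap (fun A fl => max 0 (1 - d A fl)) fun _ _ => le_max_left _ _).trans_le ?_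
  rw [← hR n a (fun σ => ENNReal.ofReal (max 0 (1 - d (XX a.N σ) σ.fl))) ha]
  refine (cls_le hI hP hC hG hPin ha hd (by rw [hR n a (fun _ => 1) ha, tot]; exact hZ)).trans ?_
  calc _ ≤ ∑' ω : St n, if Reg a.N ω then nu a ω * gg a ω *
        (ENNReal.ofReal (1 - Real.cos (lam * ((fin a.N ω).m (vl n) : ℝ))) +
          if vz n ∈ (fin a.N ω).mr ∨ vl n ∈ (fin a.N ω).mr then 2 else 0) else 0 := by
        refine ENNReal.tsum_le_tsum fun ω => ?_
        by_cases c : Reg a.N ω
        · rw [if_pos c, if_pos c]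
          refine mul_le_mul_right ?_ _
          split_ifs with c2
          · refine le_add_left ?_
            rw [← ENNReal.ofReal_ofNat]
            exact ENNReal.ofReal_le_ofReal (by linarith [Real.neg_one_le_cos (lam * ω.m (vl n))])
          · push Not at c2
            rw [(hI n a.N ω (hP n a ω ha).1 c).keep c2.1 c2.2, add_zero]
        · rw [if_neg c, if_neg c]
    _ = ∑' σ : St n, nt a σ * (ENNReal.ofReal (1 - Real.cos (lam * (σ.m (vl n) : ℝ))) +
          if vz n ∈ σ.mr ∨ vl n ∈ σ.mr then 2 else 0) :=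
        hR n a (fun σ => ENNReal.ofReal (1 - Real.cos (lam * (σ.m (vl n) : ℝ))) +
          if vz n ∈ σ.mr ∨ vl n ∈ σ.mr then 2 else 0) ha
    _ ≤ _ := by
        simp only [mul_add]
        rw [ENNReal.tsum_add,
          T.tot fun m => ENNReal.ofReal (1 - Real.cos (lam * (m (vl n) : ℝ)))]
        refine add_le_add le_rfl ?_
        have e2 : ENNReal.ofReal (4 * e) = 2 * ENNReal.ofReal (2 * a.e) := by
          rw [← ENNReal.ofReal_ofNat, ← ENNReal.ofReal_mul (by norm_num)]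
          congr 1
          simp only [a]
          ring
        rw [e2, mul_assoc]
        refine le_trans (le_of_eq ?_) (mul_le_mul_right T.mark 2)
        rw [← ENNReal.tsum_mul_left]
        refine tsum_congr fun σ => ?_
        split_ifs
        · rw [mul_comm]
        · simp

end Pool.Agent.Lib.MP_9cc147_pr.AllU.S.G
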