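import Pool.Agent.Lib.MP_9cc147_pr.U.Defs

/-! Section S8: a class of states is a Gaussian weighted invariant measure. -/

open Finset MeasureTheory
open scoped ENNReal

namespace Pool.Agent.Lib.MP_9cc147_pr.AllU.S

variable {n : ℕ}

/-- edges whose first end is off `A` -/
def Fr (A : Finset (Vx n)) : Finset (Vx n × Vx n) := (Ed n).filter fun e => e.1 ∉ A

/-- pinned, with the gradients of `m0` on the edges that start in `A` -/
def Cls (A : Finset (Vx n)) (m0 m : Vx n → ℤ) : Prop :=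
  m (vz n) = 0 ∧ ∀ e ∈ Ed n, e.1 ∈ A → m e.1 - m e.2 = m0 e.1 - m0 e.2

open Classical in
/-- weight of a height function in the class -/
noncomputable def cw (w0 : ℤ → ℝ) (A : Finset (Vx n)) (m0 m : Vx n → ℤ) : ℝ≥0∞ :=
  if Cls A m0 m then ENNReal.ofReal (∏ e ∈ Fr A, w0 (m e.1 - m e.2)) else 0

namespace Cm

abbrev Ix (n : ℕ) := (Vx n → ℤ) × (Vx n × Vx n → ℤ)

def cs (T : Finset ℤ) (A : Finset (Vx n)) : Finset (Vx n × Vx n → ℤ) :=
  Fintype.piFinset fun e => if e ∈ Fr A then T else {0}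

open Classical in
noncomputable def wg (T : Finset ℤ) (a : ℤ → ℝ) (A : Finset (Vx n)) (m0 : Vx n → ℤ) (i : Ix n) :
    ℝ≥0∞ :=
  if Cls A m0 i.1 ∧ i.2 ∈ cs T A then ENNReal.ofReal (∏ e ∈ Fr A, a (i.2 e)) else 0

noncomputable def pt (β : ℝ) (A : Finset (Vx n)) (i : Ix n) : (Vx n × Vx n → ℝ) × ℝ :=
  (fun e => if e ∈ Fr A then Real.sqrt β * (((i.1 e.1 - i.1 e.2 : ℤ) : ℝ) - i.2 e) else 0,
    (i.1 (vl n) : ℝ))

noncomputable def ms (T : Finset ℤ) (a : ℤ → ℝ) (β : ℝ) (A : Finset (Vx n)) (m0 : Vx n → ℤ) :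
    Measure ((Vx n × Vx n → ℝ) × ℝ) :=
  Measure.sum fun i : Ix n => wg T a A m0 i • Measure.dirac (pt β A i)

variable {T : Finset ℤ} {a w0 : ℤ → ℝ} {β : ℝ} {A : Finset (Vx n)} {m0 : Vx n → ℤ}

lemma wg_ne (i : Ix n) : wg T a A m0 i ≠ ⊤ := by
  unfold wg
  split_ifs
  · exact ENNReal.ofReal_ne_top
  · exact ENNReal.zero_ne_top

lemma sfin : SFinite (ms T a β A m0) := by
  haveI : ∀ i : Ix n, IsFiniteMeasure (wg T a A m0 i • Measure.dirac (pt β A i)) := fun i =>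
    Measure.smul_finite _ (wg_ne i)
  unfold ms
  infer_instance

lemma gam_pt (hβ : 0 < β) (i : Ix n) : gam (pt β A i).1 = ENNReal.ofReal (∏ e ∈ Fr A,
    Real.exp (-(β * (((i.1 e.1 - i.1 e.2 : ℤ) : ℝ) - i.2 e) ^ 2) / 2)) := by
  unfold gam
  congr 1
  rw [← Real.exp_sum]
  congr 1
  have : ∑ e, (pt β A i).1 e ^ 2 =
      ∑ e ∈ Fr A, β * (((i.1 e.1 - i.1 e.2 : ℤ) : ℝ) - i.2 e) ^ 2 := by
    rw [← sum_subset (subset_univ (Fr A)) fun e _ he => by simp [pt, he]]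
    refine sum_congr rfl fun e he => ?_
    simp only [pt, if_pos he]
    rw [mul_pow, Real.sq_sqrt hβ.le]
  rw [this, ← sum_div, sum_neg_distrib]

lemma sum_cs (ha : ∀ c, 0 ≤ a c) (hβ : 0 < β)
    (hw : ∀ k : ℤ, w0 k = ∑ c ∈ T, a c * Real.exp (-(β * ((k : ℝ) - c) ^ 2) / 2)) (m : Vx n → ℤ) :
    ∑' c, wg T a A m0 (m, c) * gam (pt β A (m, c)).1 = cw w0 A m0 m := by
  unfold cw
  split_ifs with h
  · rw [tsum_eq_sum (s := cs T A) fun c hc => by rw [wg, if_neg fun b => hc b.2, zero_mul]]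
    have e1 : ∀ c ∈ cs T A, wg T a A m0 (m, c) * gam (pt β A (m, c)).1 = ENNReal.ofReal
        (∏ e, if e ∈ Fr A then a (c e) *
          Real.exp (-(β * (((m e.1 - m e.2 : ℤ) : ℝ) - c e) ^ 2) / 2) else 1) := by
      intro c hc
      rw [wg, if_pos ⟨h, hc⟩, gam_pt hβ, ← ENNReal.ofReal_mul (prod_nonneg fun e _ => ha _),
        ← prod_mul_distrib, prod_ite_mem, univ_inter]
    rw [sum_congr rfl e1, ← ENNReal.ofReal_sum_of_nonneg fun c _ => prod_nonneg fun e _ => by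
      split_ifs
      · exact mul_nonneg (ha _) (Real.exp_pos _).le
      · exact zero_le_one]
    congr 1
    rw [cs, ← prod_univ_sum (fun e => if e ∈ Fr A then T else {0}) fun e (j : ℤ) =>
      if e ∈ Fr A then a j * Real.exp (-(β * (((m e.1 - m e.2 : ℤ) : ℝ) - j) ^ 2) / 2) else 1,
      ← prod_subset (subset_univ (Fr A)) fun e _ he => by simp [he]]
    refine prod_congr rfl fun e he => ?_
    simp only [if_pos he]
    exact (hw _).symm
  · rw [ENNReal.tsum_eq_zero]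
    intro c
    rw [wg, if_neg fun b => h b.1, zero_mul]

lemma lint (ha : ∀ c, 0 ≤ a c) (hβ : 0 < β)
    (hw : ∀ k : ℤ, w0 k = ∑ c ∈ T, a c * Real.exp (-(β * ((k : ℝ) - c) ^ 2) / 2))
    (F : ℝ → ℝ≥0∞) :
    ∫⁻ p, F p.2 * gam p.1 ∂(ms T a β A m0) = ∑' m, cw w0 A m0 m * F (m (vl n)) := by
  rw [ms, lintegral_sum_measure, ENNReal.tsum_prod']
  refine tsum_congr fun m => ?_
  rw [← sum_cs ha hβ hw m, ← ENNReal.tsum_mul_right]
  refine tsum_congr fun c => ?_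
  rw [lintegral_smul_measure, lintegral_dirac, smul_eq_mul]
  simp only [pt]
  ring

lemma inv {ρ : Vx n → ℕ}
    (hρ : ∀ e ∈ Ed n, e.1 ∈ A → ∃ z, 0 < ρ z ∧ ds z e.1 ≤ ρ z ∧ ds z e.2 ≤ ρ z) :
    Inv (Gm (LamI ρ) (cL β)) (ms T a β A m0) := by
  rintro g ⟨f, ⟨hP, hI⟩, rfl⟩
  choose k hk using hI
  have hf : ∀ e ∈ Ed n, e.1 ∈ A → k e.1 = k e.2 := by
    intro e he hA
    obtain ⟨z, h0, h1, h2⟩ := hρ e he hA
    obtain ⟨j, hj⟩ := hP z h0
    have a1 := hj _ h1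
    have a2 := hj _ h2
    rw [hk] at a1 a2
    exact_mod_cast a1.trans a2.symm
  let E : Ix n ≃ Ix n := Equiv.prodCongr (Equiv.addRight fun x => k x - k (vz n)) (Equiv.refl _)
  have hE1 : ∀ (i : Ix n) x, (E i).1 x = i.1 x + (k x - k (vz n)) := fun i x => rfl
  have hE2 : ∀ i : Ix n, (E i).2 = i.2 := fun i => rfl
  have hw : ∀ i, wg T a A m0 (E i) = wg T a A m0 i := by
    intro i
    have : Cls A m0 (E i).1 ↔ Cls A m0 i.1 := by
      unfold Cls
      refine and_congr (by rw [hE1]; omega) (forall₂_congr fun e he => forall_congr' fun hA => ?_)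
      have := hf e he hA
      rw [hE1, hE1]
      omega
    unfold wg
    rw [hE2]
    by_cases b : Cls A m0 i.1 ∧ i.2 ∈ cs T A
    · rw [if_pos b, if_pos ⟨this.2 b.1, b.2⟩]
    · rw [if_neg b, if_neg fun c => b ⟨this.1 c.1, c.2⟩]
  have hp : ∀ i, pt β A (E i) = pt β A i + (fun e : Vx n × Vx n =>
      Real.sqrt (cL β e.1 e.2) * (f e.1 - f e.2), f (vl n) - f (vz n)) := by
    intro i
    refine Prod.ext (funext fun e => ?_) ?_
    · simp only [pt, Prod.fst_add, Pi.add_apply, hE1, hE2, hk, cL]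
      by_cases he : e ∈ Fr A
      · rw [if_pos he, if_pos he, if_pos (mem_filter.1 he).1]
        push_cast
        ring
      · rw [if_neg he, if_neg he]
        by_cases h2 : e ∈ Ed n
        · have : e.1 ∈ A := by
            by_contra b
            exact he (mem_filter.2 ⟨h2, b⟩)
          rw [hf e h2 this]
          simp
        · rw [if_neg h2]
          simp
    · simp only [pt, Prod.snd_add, hE1, hk]
      push_cast
      ring
  have hm : Measurable fun p : (Vx n × Vx n → ℝ) × ℝ => p + (fun e : Vx n × Vx n =>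
      Real.sqrt (cL β e.1 e.2) * (f e.1 - f e.2), f (vl n) - f (vz n)) := measurable_add_const _
  rw [ms, Measure.map_sum hm.aemeasurable,
    ← Measure.sum_comp_equiv E fun i : Ix n => wg T a A m0 i • Measure.dirac (pt β A i)]
  congr 1
  funext i
  rw [Measure.map_smul, Measure.map_dirac' hm, Function.comp_apply, hw, hp]

end Cm

/-- S8 -/
theorem class_dom {w0 : ℤ → ℝ} {β lam d : ℝ} (hβ : 0 < β)
    (hmix : ∃ (T : Finset ℤ) (a : ℤ → ℝ), (∀ c, 0 ≤ a c) ∧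
      ∀ k : ℤ, w0 k = ∑ c ∈ T, a c * Real.exp (-(β * ((k : ℝ) - c) ^ 2) / 2))
    {A : Finset (Vx n)} {ρ : Vx n → ℕ}
    (hρ : ∀ e ∈ Ed n, e.1 ∈ A → ∃ z, 0 < ρ z ∧ ds z e.1 ≤ ρ z ∧ ds z e.2 ≤ ρ z) (m0 : Vx n → ℤ)
    (hd : Dom lam (Gm (LamI ρ) (cL β)) d) (hfin : ∑' m, cw w0 A m0 m ≠ ⊤) :
    ENNReal.ofReal (1 - d) * ∑' m, cw w0 A m0 m ≤
      ∑' m, cw w0 A m0 m * ENNReal.ofReal (1 - Real.cos (lam * (m (vl n) : ℝ))) := by
  obtain ⟨T, a, ha, hw⟩ := hmix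
  have h1 := Cm.lint (A := A) (m0 := m0) ha hβ hw fun _ => 1
  have h2 := Cm.lint (A := A) (m0 := m0) ha hβ hw fun t => ENNReal.ofReal (1 - Real.cos (lam * t))
  simp only [one_mul, mul_one] at h1
  have := hd (Cm.ms T a β A m0) Cm.sfin (Cm.inv hρ) (h1 ▸ hfin)
  rwa [h1, h2] at this

end Pool.Agent.Lib.MP_9cc147_pr.AllU.S
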