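import Pool.Agent.Lib.MP_9cc147_pr.U.Defs
import Pool.Agent.Lib.MP_9cc147_pr.MPei1

/-! Section S5, counting part: mass functions that survive to level `k` have small total weight. -/

open Finset
open scoped ENNReal

namespace Pool.Agent.Lib.MP_9cc147_pr.AllU.S

open Mono

variable {n : ℕ}

lemma exists_net (s : ℕ) (P : Finset (Vx n)) : ∃ A ⊆ P,
    (∀ a ∈ A, ∀ b ∈ A, a ≠ b → s < ds a b) ∧ ∀ x ∈ P, ∃ a ∈ A, ds a x ≤ s := by
  induction P using Finset.induction_on with
  | empty => exact ⟨∅, Subset.rfl, by simp, by simp⟩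
  | insert x P _ ih =>
    obtain ⟨A, h1, h2, h3⟩ := ih
    by_cases h : ∃ a ∈ A, ds a x ≤ s
    · exact ⟨A, h1.trans (subset_insert _ _), h2, fun y hy =>
        (mem_insert.1 hy).elim (fun e => e ▸ h) (h3 y)⟩
    · push Not at h
      refine ⟨insert x A, insert_subset_insert _ h1, fun a ha b hb ne => ?_, fun y hy => ?_⟩
      · rcases mem_insert.1 ha with rfl | ha' <;> rcases mem_insert.1 hb with rfl | hb'
        · exact absurd rfl ne
        · rw [ds_comm]; exact h b hb'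
        · exact h a ha'
        · exact h2 a ha' b hb' ne
      · rcases mem_insert.1 hy with rfl | hy
        · exact ⟨y, mem_insert_self _ _, by simp⟩
        · obtain ⟨a, ha, e⟩ := h3 y hy
          exact ⟨a, mem_insert_of_mem ha, e⟩

/-- a maximal separated subset -/
noncomputable def netOf (s : ℕ) (P : Finset (Vx n)) : Finset (Vx n) := (exists_net s P).choose

lemma netOf_sub {s : ℕ} {P : Finset (Vx n)} : netOf s P ⊆ P := (exists_net s P).choose_spec.1
lemma netOf_sep {s : ℕ} {P : Finset (Vx n)} :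
    ∀ a ∈ netOf s P, ∀ b ∈ netOf s P, a ≠ b → s < ds a b := (exists_net s P).choose_spec.2.1
lemma netOf_cov {s : ℕ} {P : Finset (Vx n)} : ∀ x ∈ P, ∃ a ∈ netOf s P, ds a x ≤ s :=
  (exists_net s P).choose_spec.2.2

lemma ball_card (z : Vx n) (r : ℕ) : (univ.filter fun y => ds z y ≤ r).card ≤ (2 * r + 1) ^ 2 :=
  packing _ z r one_pos (fun _ hx => by simpa using hx) fun _ _ _ _ h => ds_pos h

lemma tsum_pi_le {V : Type*} [Fintype V] [DecidableEq V] {α : Type*} (g : V → α → ℝ≥0∞) :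
    ∑' μ : V → α, ∏ x, g x (μ x) ≤ ∏ x, ∑' t, g x t := by
  classical
  rw [ENNReal.tsum_eq_iSup_sum]
  refine iSup_le fun s => ?_
  refine (sum_le_sum_of_subset (t := Fintype.piFinset fun x => s.image fun μ => μ x)
    fun μ hμ => Fintype.mem_piFinset.2 fun x => mem_image_of_mem _ hμ).trans ?_
  rw [← prod_univ_sum]
  exact prod_le_prod' fun x _ => ENNReal.sum_le_tsum _

/-- the mass function `μ` lives near `z` and survives the levels below `k` -/
structure Surv (N k : ℕ) (z : Vx n) (μ : Vx n → ℕ) : Prop where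
  ne : ∃ x, μ x ≠ 0
  big : ∀ x, μ x ≠ 0 → 4 * N < μ x
  near : ∀ x, μ x ≠ 0 → ds z x ≤ ra k
  sv : ∀ j < k, ∀ x, μ x ≠ 0 → N * ra j ^ 2 ≤ ∑ y ∈ univ.filter (fun y => ds x y ≤ ra j), μ y ∨
    ∃ a b, μ a ≠ 0 ∧ μ b ≠ 0 ∧ ds x a ≤ 2 * be j ∧ ds x b ≤ 2 * be j ∧ ra j < ds a b

namespace Cnt

def qq : ℕ → ℕ
  | 0 => 0
  | j + 1 => 3 * be j

noncomputable def cost (β : ℝ) (N : ℕ) : ℕ → ℝ
  | 0 => β * N ^ 2 / 4
  | j + 1 => β * N ^ 2 * (ra j : ℝ) ^ 2 / 2 ^ (j + 5)

noncomputable def nt (μ : Vx n → ℕ) (i : ℕ) : Finset (Vx n) :=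
  netOf (2 * qq i) (univ.filter fun x => μ x ≠ 0)

def Lab (N : ℕ) (μ : Vx n → ℕ) : ℕ → Vx n → Prop
  | 0, y => μ y ≠ 0
  | j + 1, y => y ∈ nt μ (j + 1) ∧ N * ra j ^ 2 ≤ ∑ x ∈ univ.filter (fun x => ds y x ≤ ra j), μ x

lemma nt_ne {μ : Vx n → ℕ} {i : ℕ} {y : Vx n} (h : y ∈ nt μ i) : μ y ≠ 0 :=
  (mem_filter.1 (netOf_sub h)).2

lemma nt_cov {μ : Vx n → ℕ} (i : ℕ) {x : Vx n} (h : μ x ≠ 0) : ∃ a ∈ nt μ i, ds a x ≤ 2 * qq i :=
  netOf_cov x (mem_filter.2 ⟨mem_univ _, h⟩)

lemma qq_le (j : ℕ) : 4 * qq j ≤ ra j := by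
  cases j with
  | zero => simp [qq]
  | succ j => have := chain j; have := Ip_ra (Nat.lt_add_one j); rw [qq]; omega

lemma exp_q {c : ℝ} {m : ℕ} (h : 5 * (m : ℝ) ≤ c) :
    ENNReal.ofReal (Real.exp (-c)) ≤ (64 : ℝ≥0∞)⁻¹ ^ m := by
  have h1 : (64 : ℝ) ≤ Real.exp 5 := by
    have := Real.exp_one_gt_d9
    have e : Real.exp 5 = Real.exp 1 ^ 5 := by rw [← Real.exp_nat_mul]; norm_num
    rw [e]
    exact le_trans (by norm_num) (pow_le_pow_left₀ (by norm_num : (0 : ℝ) ≤ 2.5) (by linarith) 5)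
  have h2 : Real.exp (-c) ≤ (64⁻¹ : ℝ) ^ m := by
    refine (Real.exp_le_exp.2 (by linarith : -c ≤ m * (-5))).trans ?_
    rw [Real.exp_nat_mul, Real.exp_neg]
    exact pow_le_pow_left₀ (by positivity) (inv_anti₀ (by norm_num) h1) m
  refine (ENNReal.ofReal_le_ofReal h2).trans (le_of_eq ?_)
  rw [ENNReal.ofReal_pow (by norm_num), ENNReal.ofReal_inv_of_pos (by norm_num)]
  norm_num

/-- heavy nodes of one level have disjoint balls -/
lemma heavy_card (N : ℕ) (μ : Vx n → ℕ) (j : ℕ) (T : Finset (Vx n))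
    (hT : ∀ y ∈ T, Lab N μ (j + 1) y) : T.card * (N * ra j ^ 2) ≤ ∑ x, μ x := by
  have c := chain j
  calc _ ≤ ∑ y ∈ T, ∑ x ∈ univ.filter (fun x => ds y x ≤ ra j), μ x := by
        rw [← smul_eq_mul]; exact card_nsmul_le_sum _ _ _ fun y hy => (hT y hy).2
    _ = ∑ x ∈ T.biUnion fun y => univ.filter (fun x => ds y x ≤ ra j), μ x := by
        refine (sum_biUnion fun a ha b hb ne => disjoint_left.2 fun x h1 h2 => ?_).symm
        have h3 := netOf_sep a (hT a ha).1 b (hT b hb).1 ne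
        have h4 := ds_tri a x b
        rw [ds_comm x b] at h4
        have h5 := (mem_filter.1 h1).2
        have h6 := (mem_filter.1 h2).2
        rw [qq] at h3
        omega
    _ ≤ _ := sum_le_sum_of_subset (subset_univ _)

lemma geo (k : ℕ) : ∑ j ∈ range k, (1 : ℝ) / 2 ^ (j + 5) ≤ 1 / 16 - 1 / 2 ^ (k + 4) := by
  induction k with
  | zero => norm_num
  | succ k ih =>
    rw [sum_range_succ]
    have : (1 : ℝ) / 2 ^ (k + 4) = 2 * (1 / 2 ^ (k + 5)) := by field_simp; ring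
    have e : k + 1 + 4 = k + 5 := rfl
    rw [e]; linarith

lemma tail {β : ℝ} {N : ℕ} (hb : 16 ≤ β * N) :
    (∑' t : ℕ, if 4 * N < t then ENNReal.ofReal (Real.exp (-(β * N / 16 * t))) else 0) ≤
      ENNReal.ofReal (Real.exp (-cost β N 0)) := by
  have h1 : ∀ t : ℕ, (if 4 * N < t then ENNReal.ofReal (Real.exp (-(β * N / 16 * t))) else 0) ≤
      ENNReal.ofReal (Real.exp (-cost β N 0)) *
        (if 4 * N < t then (2 : ℝ≥0∞)⁻¹ ^ (t - 4 * N) else 0) := by
    intro t
    split_ifs with h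
    · obtain ⟨s, rfl⟩ : ∃ s, t = 4 * N + s := ⟨t - 4 * N, by omega⟩
      have e : (2 : ℝ≥0∞)⁻¹ ^ s = ENNReal.ofReal ((2⁻¹ : ℝ) ^ s) := by
        rw [ENNReal.ofReal_pow (by norm_num), ENNReal.ofReal_inv_of_pos (by norm_num)]; norm_num
      rw [Nat.add_sub_cancel_left, e, ← ENNReal.ofReal_mul (Real.exp_pos _).le]
      refine ENNReal.ofReal_le_ofReal ?_
      have h2 : Real.exp (-(s : ℝ)) ≤ (2⁻¹ : ℝ) ^ s := by
        rw [show -(s : ℝ) = s * (-1) by ring, Real.exp_nat_mul, Real.exp_neg]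
        exact pow_le_pow_left₀ (by positivity)
          (inv_anti₀ (by norm_num) (by linarith [Real.add_one_le_exp 1])) s
      refine le_trans ?_ (mul_le_mul_of_nonneg_left h2 (Real.exp_pos _).le)
      rw [← Real.exp_add, cost]
      refine Real.exp_le_exp.2 ?_
      push_cast
      nlinarith [mul_le_mul_of_nonneg_right hb (Nat.cast_nonneg (α := ℝ) s)]
    · simp
  refine (ENNReal.tsum_le_tsum h1).trans ?_
  rw [ENNReal.tsum_mul_left]
  refine mul_le_of_le_one_right' ?_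
  have inj : Function.Injective fun s : ℕ => 4 * N + 1 + s := fun a b h => by simpa using h
  rw [← inj.tsum_eq (f := fun t => if 4 * N < t then (2 : ℝ≥0∞)⁻¹ ^ (t - 4 * N) else 0)]
  · have : ∀ s : ℕ, (if 4 * N < 4 * N + 1 + s then (2 : ℝ≥0∞)⁻¹ ^ (4 * N + 1 + s - 4 * N) else 0) =
        2⁻¹ ^ s * 2⁻¹ := fun s => by
      rw [if_pos (by omega), show 4 * N + 1 + s - 4 * N = s + 1 by omega, pow_succ]
    rw [tsum_congr this, ENNReal.tsum_mul_right, ENNReal.tsum_geometric_two,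
      ENNReal.mul_inv_cancel (by norm_num) (by norm_num)]
  · intro t ht
    have : 4 * N < t := by
      by_contra c
      exact ht (if_neg c)
    exact ⟨t - (4 * N + 1), by simp only; omega⟩

open Classical in
/-- weight of the mass functions with a given set of labels -/
lemma lab_bound {β : ℝ} {N k : ℕ} (hb : 16 ≤ β * N) (z : Vx n) (F : Finset (Fin (k + 1) × Vx n)) :
    (∑' ω : {μ // Surv N k z μ},
      if (univ.filter fun l : Fin (k + 1) × Vx n => Lab N ω.1 l.1 l.2) = F then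
        ENNReal.ofReal (Real.exp (-(β * N / 8 * (∑ x, ω.1 x : ℕ)))) else 0) ≤
      ∏ l ∈ F, ENNReal.ofReal (Real.exp (-cost β N l.1)) := by
  set g : Vx n → ℕ → ℝ≥0∞ := fun x t => if (0, x) ∈ F then
    (if 4 * N < t then ENNReal.ofReal (Real.exp (-(β * N / 16 * t))) else 0)
    else if t = 0 then 1 else 0 with hg
  set B := ∏ l ∈ F.filter (fun l => l.1 ≠ 0), ENNReal.ofReal (Real.exp (-cost β N l.1)) with hB
  have h1 : ∀ ω : {μ // Surv N k z μ},
      (if (univ.filter fun l : Fin (k + 1) × Vx n => Lab N ω.1 l.1 l.2) = F then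
        ENNReal.ofReal (Real.exp (-(β * N / 8 * (∑ x, ω.1 x : ℕ)))) else 0) ≤
      B * ∏ x, g x (ω.1 x) := by
    rintro ⟨μ, hμ⟩
    split_ifs with h
    swap
    · exact zero_le
    have hF : ∀ l, l ∈ F ↔ Lab N μ l.1 l.2 := fun l => by rw [← h]; simp
    have e1 : ∏ x, g x (μ x) = ENNReal.ofReal (Real.exp (-(β * N / 16 * (∑ x, μ x : ℕ)))) := by
      push_cast
      rw [mul_sum, ← sum_neg_distrib, Real.exp_sum,
        ENNReal.ofReal_prod_of_nonneg fun _ _ => (Real.exp_pos _).le]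
      refine prod_congr rfl fun x _ => ?_
      by_cases c : μ x = 0
      · have : (0, x) ∉ F := fun d => (hF _).1 d c
        simp [hg, this, c]
      · have : (0, x) ∈ F := (hF _).2 c
        simp only [hg]
        rw [if_pos this, if_pos (hμ.big x c)]
    have e2 : ∑ l ∈ F.filter (fun l => l.1 ≠ 0), cost β N l.1 ≤ β * N / 16 * (∑ x, μ x : ℕ) := by
      have e3 : ∑ l ∈ F.filter (fun l => l.1 ≠ 0), cost β N l.1 =
          ∑ j : Fin k, (univ.filter fun y => (j.succ, y) ∈ F).card * cost β N (j + 1) := by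
        have : F.filter (fun l => l.1 ≠ 0) = univ.filter fun l => l ∈ F ∧ l.1 ≠ 0 := by
          ext l; simp
        rw [this, sum_filter, Fintype.sum_prod_type, Fin.sum_univ_succ]
        simp only [ne_eq, not_true_eq_false, and_false, if_false, sum_const_zero, zero_add,
          Fin.succ_ne_zero, not_false_eq_true, and_true, Fin.val_succ]
        refine sum_congr rfl fun j _ => ?_
        rw [← sum_filter, sum_const, nsmul_eq_mul]
      have b0 : 0 ≤ β * N := by linarith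
      have M0 : (0 : ℝ) ≤ (∑ x, μ x : ℕ) := Nat.cast_nonneg _
      have e4 : ∀ j : Fin k, (univ.filter fun y => (j.succ, y) ∈ F).card * cost β N (j + 1) ≤
          β * N * (∑ x, μ x : ℕ) * (1 / 2 ^ ((j : ℕ) + 5)) := by
        intro j
        have h2 := heavy_card N μ j (univ.filter fun y => (j.succ, y) ∈ F)
          fun y hy => (hF _).1 (mem_filter.1 hy).2
        have h3 : ((univ.filter fun y => (j.succ, y) ∈ F).card : ℝ) * (N * (ra j : ℝ) ^ 2) ≤
            (∑ x, μ x : ℕ) := by exact_mod_cast h2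
        have h4 := mul_le_mul_of_nonneg_left h3 b0
        rw [cost, mul_one_div, ← mul_div_assoc]
        exact div_le_div_of_nonneg_right (by nlinarith) (by positivity)
      rw [e3]
      refine (sum_le_sum fun j _ => e4 j).trans ?_
      rw [← mul_sum, Fin.sum_univ_eq_sum_range (fun j => (1 : ℝ) / 2 ^ (j + 5))]
      have h5 := geo k
      have h6 : (0 : ℝ) < 1 / 2 ^ (k + 4) := by positivity
      nlinarith [mul_nonneg b0 M0]
    simp only
    rw [e1, hB, ← ENNReal.ofReal_prod_of_nonneg fun _ _ => (Real.exp_pos _).le, ← Real.exp_sum,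
      ← ENNReal.ofReal_mul (Real.exp_pos _).le, ← Real.exp_add, sum_neg_distrib]
    exact ENNReal.ofReal_le_ofReal (Real.exp_le_exp.2 (by linarith))
  refine (ENNReal.tsum_le_tsum h1).trans ?_
  rw [ENNReal.tsum_mul_left, ← prod_filter_mul_prod_filter_not F (fun l => l.1 ≠ 0)]
  refine mul_le_mul_right ?_ _
  refine (ENNReal.tsum_comp_le_tsum_of_injective Subtype.val_injective
    fun μ : Vx n → ℕ => ∏ x, g x (μ x)).trans ((tsum_pi_le g).trans ?_)
  have e5 : F.filter (fun l => ¬ l.1 ≠ 0) =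
      (univ.filter fun x => (0, x) ∈ F).image fun x => ((0 : Fin (k + 1)), x) := by
    ext ⟨i, x⟩
    simp only [mem_filter, not_not, mem_image, mem_univ, true_and, Prod.mk.injEq]
    exact ⟨fun h => ⟨x, h.2 ▸ h.1, h.2.symm, rfl⟩, fun ⟨y, a, b, c⟩ => ⟨b ▸ c ▸ a, b.symm⟩⟩
  rw [e5, prod_image fun a _ b _ h => (Prod.mk.inj h).2, prod_filter]
  refine prod_le_prod' fun x _ => ?_
  simp only [hg]
  split_ifs with c
  · exact tail hb
  · rw [tsum_eq_single 0 fun t ht => if_neg ht, if_pos rfl]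

lemma cost_ge {β : ℝ} {N Y : ℕ} (h : 40000 * ((Y : ℝ) + 20) ≤ β * N ^ 2) (i : ℕ) :
    5 * (((Y + 20) * aa i + 1 : ℕ) : ℝ) ≤ cost β N i := by
  have Y0 : (0 : ℝ) ≤ Y := Nat.cast_nonneg _
  cases i with
  | zero => rw [cost, aa]; push_cast; linarith
  | succ j =>
    have h1 : 2 ^ (j + 5) * (aa j + 1) ≤ ra j ^ 2 := by
      have a := aa_ge j
      rw [sq]
      exact Nat.mul_le_mul ((Nat.pow_le_pow_left (by norm_num) _).trans
        (Nat.pow_le_pow_right (by norm_num) (by omega))) (Nat.lt_pow_self (by norm_num))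
    have h2 : (2 : ℝ) ^ (j + 5) * (aa j + 1) ≤ (ra j : ℝ) ^ 2 := by exact_mod_cast h1
    have h3 : (aa (j + 1) : ℝ) ≤ 2 * aa j := by
      exact_mod_cast (by rw [aa]; omega : aa (j + 1) ≤ 2 * aa j)
    have h4 : (0 : ℝ) ≤ aa j := Nat.cast_nonneg _
    rw [cost, le_div_iff₀ (by positivity)]
    push_cast
    have h5 : 5 * (((Y : ℝ) + 20) * aa (j + 1) + 1) ≤ β * N ^ 2 * (aa j + 1) := by
      nlinarith [mul_le_mul_of_nonneg_left h3 (by linarith : (0 : ℝ) ≤ Y + 20),
        mul_le_mul_of_nonneg_right h (by linarith : (0 : ℝ) ≤ aa j + 1), mul_nonneg Y0 h4]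
    have h6 : (0 : ℝ) < 2 ^ (j + 5) := by positivity
    nlinarith [mul_le_mul_of_nonneg_right h5 h6.le,
      mul_le_mul_of_nonneg_left h2 (by linarith : (0 : ℝ) ≤ β * N ^ 2)]

lemma vol_q {Y : ℕ} (i : ℕ) :
    (2 * ((2 * qq (i + 1) : ℕ) : ℝ≥0∞) + 1) ^ 2 * (64 : ℝ≥0∞)⁻¹ ^ ((Y + 20) * aa i) ≤
      (64 : ℝ≥0∞)⁻¹ ^ ((Y + 17) * aa i) := by
  have h1 : (2 * (2 * qq (i + 1)) + 1) ^ 2 ≤ 64 ^ (3 * aa i) := by
    have a := aa_ge i
    have c := chain i
    have h2 : 2 * (2 * qq (i + 1)) + 1 ≤ tb i := by rw [qq]; omega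
    refine (Nat.pow_le_pow_left h2 2).trans ?_
    rw [tb, rr, ← pow_mul]
    exact Nat.pow_le_pow_right (by norm_num) (by omega)
  have := nat_mul_q (f := (Y + 17) * aa i) (g := (Y + 20) * aa i) h1 (le_of_eq (by ring))
  exact_mod_cast this

end Cnt

open Cnt

open Classical in
/-- total weight of the surviving mass functions near `z` -/
theorem surv_sum (hNet : NetStmt) {β : ℝ} {N Y : ℕ} (hb : 16 ≤ β * N)
    (hbb : 40000 * ((Y : ℝ) + 20) ≤ β * N ^ 2) (k : ℕ) (z : Vx n) :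
    (∑' μ : Vx n → ℕ, if Surv N k z μ then
      ENNReal.ofReal (Real.exp (-(β * N / 8 * (∑ x, μ x : ℕ)))) else 0) ≤
      (64 : ℝ≥0∞)⁻¹ ^ ((Y + 17) * aa k) := by
  have q1 : (64 : ℝ≥0∞)⁻¹ ≤ 1 := ENNReal.inv_le_one.2 (by norm_num)
  have la : ∀ i, ENNReal.ofReal (Real.exp (-cost β N i)) ≤ (64 : ℝ≥0∞)⁻¹ ^ ((Y + 20) * aa i + 1) :=
    fun i => exp_q (cost_ge hbb i)
  have key := hNet n (Fin (k + 1) × Vx n) (fun l => l.1) (fun l => l.2)
    (fun l => ENNReal.ofReal (Real.exp (-cost β N l.1))) {μ // Surv N k z μ}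
    (fun ω => ENNReal.ofReal (Real.exp (-(β * N / 8 * (∑ x, ω.1 x : ℕ)))))
    (fun ω => univ.filter fun l : Fin (k + 1) × Vx n => Lab N ω.1 l.1 l.2) (fun ω => nt ω.1)
    (fun _ => 0) qq (fun i => 2 * qq i) (fun i => ENNReal.ofReal (Real.exp (-cost β N i)))
    (fun i => (64 : ℝ≥0∞)⁻¹ ^ ((Y + 20) * aa i)) 1 1 k
    (fun F => by rw [one_mul]; convert lab_bound hb z F) ?_ ?_ ?_ ?_ ?_ ?_ le_rfl ?_ ?_ ∅
  · set w := (64 : ℝ≥0∞)⁻¹ ^ ((Y + 20) * aa k) with hw
    set Bz := univ.filter fun y => ds z y ≤ ra k with hBz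
    have h1 : ∀ A, (∑' ω : {μ // Surv N k z μ}, if nt ω.1 k = A then
        ENNReal.ofReal (Real.exp (-(β * N / 8 * (∑ x, ω.1 x : ℕ)))) else 0) ≤ w ^ A.card := by
      intro A
      refine le_trans (le_of_eq (tsum_congr fun ω => ?_))
        ((key A (by simp)).trans (le_of_eq (by simp)))
      have : ((univ.filter fun l : Fin (k + 1) × Vx n => Lab N ω.1 l.1 l.2).filter
          fun l => k < (l.1 : ℕ)) = ∅ :=
        filter_eq_empty_iff.2 fun l _ => by have := l.1.2; omega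
      simp only [this, true_and, one_pow, mul_one]
    have h2 : (∑' μ : Vx n → ℕ, if Surv N k z μ then
        ENNReal.ofReal (Real.exp (-(β * N / 8 * (∑ x, μ x : ℕ)))) else 0) ≤
        ∑ A ∈ Bz.powerset.erase ∅, w ^ A.card := by
      refine le_trans ?_ (sum_le_sum fun A _ => h1 A)
      rw [← Summable.tsum_finsetSum fun _ _ => ENNReal.summable]
      refine le_of_eq ((tsum_subtype_eq_of_support_subset (s := {μ | Surv N k z μ})
        fun μ h => by_contra fun c => h (if_neg c)).symm.trans (tsum_congr fun ω => ?_))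
      rw [if_pos ω.2, sum_ite_eq, if_pos]
      obtain ⟨x, hx⟩ := ω.2.ne
      obtain ⟨a, ha, -⟩ := nt_cov k hx
      exact mem_erase.2 ⟨ne_empty_of_mem ha, mem_powerset.2 fun y hy =>
        mem_filter.2 ⟨mem_univ _, ω.2.near y (nt_ne hy)⟩⟩
    have h3 : ∀ T : Finset (Vx n), 2 * (T.card : ℝ≥0∞) * w ≤ 1 →
        ∑ A ∈ T.powerset, w ^ A.card ≤ 1 + 2 * T.card * w := by
      intro T
      induction T using Finset.induction_on with
      | empty => simp
      | insert x T hx ih =>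
        intro h
        rw [card_insert_of_notMem hx] at h ⊢
        push_cast at h ⊢
        have h4 : 2 * (T.card : ℝ≥0∞) * w ≤ 1 := le_trans (by gcongr; exact le_self_add) h
        have h5 := ih h4
        have e : ∑ A ∈ T.powerset, w ^ (insert x A).card = (∑ A ∈ T.powerset, w ^ A.card) * w := by
          rw [sum_mul]
          exact sum_congr rfl fun A hA => by
            rw [card_insert_of_notMem fun c => hx (mem_powerset.1 hA c), pow_succ]
        rw [sum_powerset_insert hx, e]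
        calc _ ≤ 1 + 2 * T.card * w + (1 + 1) * w := by
              gcongr
              exact h5.trans (by gcongr)
          _ = _ := by ring
    have a := aa_ge k
    have h6 : 2 * Bz.card ≤ 64 ^ (3 * aa k) := by
      have c : Bz.card ≤ _ := ball_card z (ra k)
      have h7 : (2 * ra k + 1) ^ 2 ≤ (64 ^ (aa k + 1)) ^ 2 :=
        Nat.pow_le_pow_left (by have := ra_pos k; unfold ra rr at *; rw [pow_succ]; omega) 2
      have h8 : 64 * (64 ^ (aa k + 1)) ^ 2 ≤ 64 ^ (3 * aa k) := by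
        rw [← pow_mul, ← pow_succ']
        exact Nat.pow_le_pow_right (by norm_num) (by omega)
      omega
    have h9 : 2 * (Bz.card : ℝ≥0∞) * w ≤ (64 : ℝ≥0∞)⁻¹ ^ ((Y + 17) * aa k) := by
      have := nat_mul_q (f := (Y + 17) * aa k) (g := (Y + 20) * aa k) h6 (le_of_eq (by ring))
      exact_mod_cast this
    have h10 := h3 Bz (h9.trans (pow_le_one' q1 _))
    rw [← add_sum_erase _ _ (empty_mem_powerset Bz), card_empty, pow_zero,
      ENNReal.add_le_add_iff_left ENNReal.one_ne_top] at h10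
    exact h2.trans (h10.trans h9)
  · rintro ω ⟨⟨i, hi⟩, y⟩ hl -
    have h := (mem_filter.1 hl).2
    cases i with
    | zero => exact nt_cov 0 h
    | succ j => exact ⟨y, h.1, by simp⟩
  · intro ω i _ y hy y' hy' ne
    simpa using netOf_sep y hy y' hy' ne
  · exact fun ω i _ a ha => nt_cov (i + 1) (nt_ne ha)
  · intro ω i hi y hy
    cases i with
    | zero => exact Or.inl ⟨(0, y), mem_filter.2 ⟨mem_univ _, nt_ne hy⟩, rfl, by simp⟩
    | succ j =>
      rcases ω.2.sv j hi y (nt_ne hy) with h | ⟨a, b, ha, hb', h1, h2, h3⟩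
      · exact Or.inl ⟨(⟨j + 1, by omega⟩, y), mem_filter.2 ⟨mem_univ _, hy, h⟩, rfl, by simp⟩
      · obtain ⟨a', a1, a2⟩ := nt_cov j ha
        obtain ⟨b', b1, b2⟩ := nt_cov j hb'
        have c := chain j
        have d := qq_le j
        have t1 := ds_tri y a a'
        have t2 := ds_tri y b b'
        rw [ds_comm a a'] at t1
        rw [ds_comm b b'] at t2
        refine Or.inr ⟨j, rfl, a', a1, b', b1, fun e => ?_, by rw [qq]; omega, by rw [qq]; omega⟩
        have t3 := ds_tri a a' b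
        rw [ds_comm a a'] at t3
        rw [← e] at b2
        omega
  · intro i hi y
    refine (sum_le_sum_of_subset (t := {(⟨i, by omega⟩, y)}) fun l hl => ?_).trans (by simp)
    obtain ⟨h1, h2⟩ := (mem_filter.1 hl).2
    refine mem_singleton.2 (Prod.ext (Fin.ext h1) (by_contra fun c => ?_))
    have := ds_pos (Ne.symm c)
    simp only at h2 this
    omega
  · exact fun i _ => ⟨(la i).trans (pow_le_one' q1 _), by omega⟩
  · rw [mul_one]
    refine (mul_le_mul_right (la 0) _).trans ?_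
    exact_mod_cast nat_mul_q (M := 3) (e := 1) (by norm_num) (le_of_eq (add_comm _ _))
  · intro i _
    refine ⟨(vol_q i).trans (pow_le_one' q1 _), ?_⟩
    have a := aa_ge i
    have h1 : ((2 * ((2 * qq (i + 1) : ℕ) : ℝ≥0∞) + 1) ^ 2 *
        (64 : ℝ≥0∞)⁻¹ ^ ((Y + 20) * aa i)) ^ 2 ≤ (64 : ℝ≥0∞)⁻¹ ^ ((Y + 20) * aa (i + 1) + 1) := by
      refine (pow_le_pow_left' (vol_q i) 2).trans ?_
      rw [← pow_mul]
      refine pow_le_pow_right_of_le_one' q1 ?_
      have h2 : 2 * aa (i + 1) ≤ 3 * aa i := by rw [aa]; omega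
      nlinarith [Nat.mul_le_mul_left (Y + 20) h2, Nat.zero_le (Y * aa i)]
    calc _ ≤ 9 * 1 * ((64 : ℝ≥0∞)⁻¹ ^ ((Y + 20) * aa (i + 1) + 1) +
          (64 : ℝ≥0∞)⁻¹ ^ ((Y + 20) * aa (i + 1) + 1)) := by gcongr; exact la _
      _ = ((18 : ℕ) : ℝ≥0∞) * (64 : ℝ≥0∞)⁻¹ ^ ((Y + 20) * aa (i + 1) + 1) := by push_cast; ring
      _ ≤ _ := nat_mul_q (e := 1) (by norm_num) (le_of_eq (add_comm _ _))

open Classical in
/-- total weight of the surviving mass functions with a name near `z0` -/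
theorem conf_sum (hNet : NetStmt) {β : ℝ} {N Y : ℕ} (hb : 16 ≤ β * N)
    (hbb : 40000 * ((Y : ℝ) + 20) ≤ β * N ^ 2) (k : ℕ) (z0 : Vx n) (nm : Finset (Vx n) → Vx n) :
    (∑ P : Finset (Vx n), ∑' μ : Vx n → ℕ,
      if (univ.filter fun x => μ x ≠ 0) = P ∧ Surv N k (nm P) μ ∧ ds z0 (nm P) ≤ tb k then
        ENNReal.ofReal (Real.exp (-(β * N / 8 * (∑ x, μ x : ℕ)))) else 0) ≤
      (64 : ℝ≥0∞)⁻¹ ^ ((Y + 14) * aa k) := by
  set Bz := univ.filter fun y => ds z0 y ≤ tb k with hBz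
  have h1 : Bz.card ≤ 64 ^ (3 * aa k) := by
    have a := aa_ge k
    have h2 : 2 * tb k + 1 ≤ 64 ^ (aa k + k + 8) := by
      have := rr_pos (aa k + k + 7)
      unfold tb rr at *
      rw [show aa k + k + 8 = aa k + k + 7 + 1 from rfl, pow_succ 64 (aa k + k + 7)]
      omega
    refine (ball_card z0 _).trans ((Nat.pow_le_pow_left h2 2).trans ?_)
    rw [← pow_mul]
    exact Nat.pow_le_pow_right (by norm_num) (by omega)
  refine le_trans ?_ (nat_mul_q (g := (Y + 17) * aa k) h1 (le_of_eq (by ring)))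
  rw [← nsmul_eq_mul]
  refine le_trans ?_ (sum_le_card_nsmul Bz _ _ fun z _ => surv_sum hNet hb hbb k z)
  rw [← Summable.tsum_finsetSum fun _ _ => ENNReal.summable,
    ← Summable.tsum_finsetSum fun _ _ => ENNReal.summable]
  refine ENNReal.tsum_le_tsum fun μ => ?_
  rw [sum_eq_single (univ.filter fun x => μ x ≠ 0) (fun P _ ne => if_neg fun c => ne c.1.symm)
    fun c => absurd (mem_univ _) c]
  split_ifs with c
  · refine le_trans (le_of_eq (if_pos c.2.1).symm) (single_le_sum (f := fun z =>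
      if Surv N k z μ then ENNReal.ofReal (Real.exp (-(β * N / 8 * (∑ x, μ x : ℕ)))) else 0)
      (fun _ _ => zero_le) (mem_filter.2 ⟨mem_univ _, c.2.2⟩))
  · exact zero_le

lemma Cnt.par_be0 : Par ra be :=
  ⟨fun j => by have := chain j; omega, fun j => by have := chain j; omega, fun _ _ => ra_mono,
    be_mono⟩

/-- the mass function of a cluster of level `k` survives, if all points have level at least `k` -/
theorem surv_of_cl {N k : ℕ} {ok : ℕ → Finset (Vx n) → Prop} {X P : Finset (Vx n)} {μ : Vx n → ℕ}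
    {z : Vx n} (hX : Rem ra be ok X k = X) (hP : IsCl ra be ok X k P) (hz : z ∈ P)
    (hok : ∀ j, ∀ C ⊆ X, ∑ x ∈ C, μ x < N * ra j ^ 2 → ok j C) (hμ : ∀ x ∈ P, 4 * N < μ x) :
    Surv N k z fun x => if x ∈ P then μ x else 0 := by
  have m1 : ∀ x, (if x ∈ P then μ x else 0) ≠ 0 ↔ x ∈ P := fun x =>
    ⟨fun h => by_contra fun c => h (if_neg c), fun h => by have := hμ x h; rw [if_pos h]; omega⟩
  refine ⟨⟨z, (m1 z).2 hz⟩, fun x hx => ?_, fun x hx => hP.diam par_be0 hz ((m1 x).1 hx),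
    fun j hj x hx => ?_⟩
  · rw [m1] at hx
    rw [if_pos hx]; exact hμ x hx
  · rw [m1] at hx
    have e : Rem ra be ok X j = X := Subset.antisymm rem_sub (hX.symm.subset.trans (rem_anti hj.le))
    have h1 := (mem_rem_succ.1 (rem_anti (Nat.succ_le_of_lt hj) (lv_rem (hP.lv par_be0 hx)))).2
    rw [e] at h1
    have c := chain j
    have c' := chain k
    have d := Ip_ra hj
    have nr : ∀ y ∈ X, ds x y ≤ 2 * be j → y ∈ P := fun y hy hd =>
      hP.mem_of_near par_be0 hx le_rfl (hX.symm ▸ hy) (by omega)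
    rcases not_and_or.1 h1 with h2 | h2
    · push Not at h2
      obtain ⟨y, hy, y', hy', h3, h4, h5⟩ := h2
      have t := ds_tri x y y'
      have a1 := (m1 y).2 (nr y hy (by omega))
      have a2 := (m1 y').2 (nr y' hy' (by omega))
      by_cases h6 : ds y y' ≤ ra j
      · exact Or.inr ⟨x, y', (m1 x).2 hx, a2, by simp, by omega, h5 h6⟩
      · exact Or.inr ⟨y, y', a1, a2, by omega, by omega, by omega⟩
    · refine Or.inl ((not_lt.1 fun h3 => h2 (hok j _ (filter_subset _ _) h3)).trans ?_)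
      refine le_trans (le_of_eq (sum_congr rfl fun y hy => ?_))
        (sum_le_sum_of_subset (filter_subset_filter _ (subset_univ X)))
      rw [mem_filter] at hy
      rw [if_pos (nr y hy.1 (by omega))]

end Pool.Agent.Lib.MP_9cc147_pr.AllU.S
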