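import Pool.Agent.Lib.MP_9cc147_pr.MCZ

/-! Section S: geometry of the repaired region of a cluster. -/

open Finset

namespace Pool.Agent.Lib.MP_9cc147_pr.AllU.S

open Mono

variable {n : ℕ}

open Classical in
/-- union of the five times enlarged heavy squares -/
noncomputable def Og (N : ℕ) (μ : Vx n → ℕ) (P : Finset (Vx n)) : Finset (Vx n) :=
  univ.filter fun y => ∃ p s, Hv N μ P p s ∧ ds p y ≤ 5 * s

variable {N : ℕ} {μ μ' : Vx n → ℕ} {P : Finset (Vx n)} {x y p : Vx n}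

lemma mem_Og : y ∈ Og N μ P ↔ ∃ p s, Hv N μ P p s ∧ ds p y ≤ 5 * s := by
  classical
  simp only [Og, mem_filter, mem_univ, true_and]

lemma Og_ball (hp : p ∈ P) (hμ : 4 * N ≤ μ p) (hy : ds p y ≤ 10) : y ∈ Og N μ P :=
  mem_Og.2 ⟨p, 2, ⟨hp, by omega, (by omega : N * 2 ^ 2 ≤ μ p).trans
    (single_le_sum (f := μ) (fun _ _ => Nat.zero_le _) (mem_filter.2 ⟨hp, by simp⟩))⟩, by omega⟩

lemma Og_empty : Og N μ (∅ : Finset (Vx n)) = ∅ :=
  eq_empty_of_forall_notMem fun _ hy => by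
    obtain ⟨_, _, h, -⟩ := mem_Og.1 hy
    exact notMem_empty _ h.1

lemma Og_congr (h : ∀ p ∈ P, μ p = μ' p) : Og N μ P = Og N μ' P := by
  ext y
  have : ∀ p s, Hv N μ P p s ↔ Hv N μ' P p s := fun p s => by
    unfold Hv
    rw [sum_congr rfl fun x hx => h x (mem_filter.1 hx).1]
  simp only [mem_Og, this]

/-- confinement for a light set -/
lemma Og_conf {R : ℕ} (hm : ∑ p ∈ P, μ p < N * R ^ 2) (hy : y ∈ Og N μ P) :
    ∃ p ∈ P, ds p y + 5 ≤ 5 * R := by
  obtain ⟨q, s, h, h3⟩ := mem_Og.1 hy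
  have h4 : s < R := lt_of_pow_lt_pow_left₀ 2 (Nat.zero_le _) (lt_of_mul_lt_mul_left
    ((h.2.2.trans (sum_le_sum_of_subset (filter_subset _ _))).trans_lt hm) (Nat.zero_le _))
  exact ⟨q, h.1, by omega⟩

/-- confinement, with the waiver on the top level -/
lemma Og_conf' {R : ℕ} (hR : 2 ≤ R) (hm : n ≤ R ∨ ∑ p ∈ P, μ p < N * R ^ 2) (hy : y ∈ Og N μ P) :
    ∃ p ∈ P, ds p y + 5 ≤ 5 * R := by
  rcases hm with hm | hm
  · obtain ⟨q, s, h, -⟩ := mem_Og.1 hy
    have := ds_le q y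
    exact ⟨q, h.1, by omega⟩
  · exact Og_conf hm hy

/-- every point of the set is close to every point near the region -/
lemma Og_close {R : ℕ} (hR : 2 ≤ R) (hd : ∀ p ∈ P, ∀ q ∈ P, ds p q ≤ R)
    (hm : n ≤ R ∨ ∑ p ∈ P, μ p < N * R ^ 2) (hy : y ∈ Og N μ P) (hp : p ∈ P) :
    ds p y + 5 ≤ 6 * R := by
  obtain ⟨q, hq, h⟩ := Og_conf' hR hm hy
  have := hd p hp q hq
  have := ds_tri p q y
  omega

/-- squares centred off the region are light -/
lemma Og_light (hy : y ∉ Og N μ P) {t : ℕ} (ht : 1 ≤ t) :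
    ∑ x ∈ P.filter fun x => ds y x ≤ t, μ x ≤ 4 * N * t ^ 2 := by
  rcases (P.filter fun x => ds y x ≤ t).eq_empty_or_nonempty with e | ⟨p, hp⟩
  · simp [e]
  rw [mem_filter, ds_comm] at hp
  by_contra hc
  refine hy (mem_Og.2 ⟨p, 2 * t, ⟨hp.1, by omega, ?_⟩, by omega⟩)
  refine le_trans (by nlinarith) ((not_le.1 hc).le.trans (sum_le_sum_of_subset fun x hx => ?_))
  rw [mem_filter] at hx ⊢
  have := ds_tri p y x
  exact ⟨hx.1, by omega⟩

/-- Vitali bound for the points within `a` of the region -/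
lemma Og_nbhd_card (hN : 1 ≤ N) (a : ℕ) {A : Finset (Vx n)}
    (hA : ∀ y ∈ A, ∃ x ∈ Og N μ P, ds x y ≤ a) :
    N * A.card ≤ (15 + 2 * a) ^ 2 * ∑ p ∈ P, μ p := by
  classical
  obtain ⟨T, h1, h2, h3⟩ := vitali
    ((univ ×ˢ range (∑ p ∈ P, μ p + 1)).filter fun a => Hv N μ P a.1 a.2)
  have hv : ∀ a ∈ T, Hv N μ P a.1 a.2 := fun a ha => (mem_filter.1 (h1 ha)).2
  have c : A ⊆ T.biUnion fun b => univ.filter fun y => ds b.1 y ≤ (7 + a) * b.2 := by
    intro y hy
    obtain ⟨x, hx, d⟩ := hA y hy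
    obtain ⟨p, s, h, d'⟩ := mem_Og.1 hx
    have := h.2.2.trans (sum_le_sum_of_subset (filter_subset _ _))
    obtain ⟨b, hb, b1, b2⟩ := h3 (p, s) (mem_filter.2 ⟨mem_product.2 ⟨mem_univ _, mem_range.2
      (Nat.lt_succ_of_le (le_trans (by nlinarith [h.2.1]) this))⟩, h⟩)
    have := ds_tri b.1 p y
    have := ds_tri p x y
    have h1 : a ≤ a * b.2 := Nat.le_mul_of_pos_right _ (hv b hb).2.1
    refine mem_biUnion.2 ⟨b, hb, mem_filter.2 ⟨mem_univ _, ?_⟩⟩
    rw [add_mul]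
    simp only at b1 b2
    omega
  calc N * A.card ≤ N * ∑ b ∈ T, (15 + 2 * a) ^ 2 * b.2 ^ 2 := by
        refine Nat.mul_le_mul_left _ ((card_le_card c).trans (card_biUnion_le.trans
          (sum_le_sum fun b hb => (ball_card _ _).trans ?_)))
        rw [← mul_pow]
        refine Nat.pow_le_pow_left ?_ 2
        have := (hv b hb).2.1
        nlinarith
    _ ≤ (15 + 2 * a) ^ 2 * ∑ b ∈ T, ∑ x ∈ P.filter fun x => ds b.1 x ≤ b.2, μ x := by
        rw [mul_sum, mul_sum]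
        refine sum_le_sum fun b hb => ?_
        rw [mul_left_comm]
        exact Nat.mul_le_mul_left _ (hv b hb).2.2
    _ ≤ _ := by
        rw [← sum_biUnion]
        · exact Nat.mul_le_mul_left _ (sum_le_sum_of_subset
            (biUnion_subset.2 fun _ _ => filter_subset _ _))
        · intro a ha b hb hab
          refine disjoint_left.2 fun x h h' => ?_
          have := h2 a ha b hb hab
          have := ds_tri a.1 x b.1
          have := ds_comm x b.1
          have := (mem_filter.1 h).2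
          have := (mem_filter.1 h').2
          omega

lemma Og_card (hN : 1 ≤ N) : N * (Og N μ P).card ≤ 225 * ∑ p ∈ P, μ p :=
  Og_nbhd_card hN 0 fun y hy => ⟨y, hy, by simp⟩

lemma Og_Ob_card (hN : 1 ≤ N) : N * (Ob (Og N μ P)).card ≤ 289 * ∑ p ∈ P, μ p :=
  Og_nbhd_card hN 1 fun _ hy => Ob_near hy

/-! ### lower clusters fill a small part of every square centred at a higher point -/

lemma Og_par : Par ra be :=
  ⟨fun j => by have := chain j; omega, fun j => by have := chain j; omega,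
    fun _ _ h => ra_mono h, be_mono⟩

lemma be_ra (j : ℕ) : be j = 64 ^ (j + 6) * ra j := by rw [be, ra, ← rr_add, add_assoc]

open Classical in
/-- few points of a square are close to a sparse set that avoids the centre -/
lemma sparse_count {S : Finset (Vx n)} {R I : ℕ} (hR : 1 ≤ R) (hI : 12 * R ≤ I)
    (hs : ∀ z ∈ S, ∀ z' ∈ S, ds z z' ≤ I → ds z z' ≤ R) (hp : ∀ z ∈ S, I < ds p z) (s : ℕ) :
    (univ.filter fun x => ds p x ≤ s ∧ ∃ z ∈ S, ds z x ≤ 6 * R).card * I ^ 2 ≤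
      32400 * (R ^ 2 * s ^ 2) := by
  obtain ⟨T, T1, T2, T3⟩ := exists_net (S.filter fun z => ds p z ≤ s + 6 * R) R
  have hB : (univ.filter fun x => ds p x ≤ s ∧ ∃ z ∈ S, ds z x ≤ 6 * R) ⊆
      T.biUnion fun u => univ.filter fun x => ds u x ≤ 7 * R := by
    intro x hx
    simp only [mem_filter, mem_univ, true_and] at hx
    obtain ⟨h1, z, hz, h2⟩ := hx
    have := ds_tri p x z
    rw [ds_comm x z] at this
    obtain ⟨u, hu, hd⟩ := T3 z (mem_filter.2 ⟨hz, by omega⟩)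
    have := ds_tri u z x
    exact mem_biUnion.2 ⟨u, hu, mem_filter.2 ⟨mem_univ _, by omega⟩⟩
  have h1 := (card_le_card hB).trans
    (card_biUnion_le_card_mul _ _ _ fun u _ => ball_card u (7 * R))
  rcases T.eq_empty_or_nonempty with rfl | ⟨u, hu⟩
  · simp only [card_empty, zero_mul, nonpos_iff_eq_zero] at h1
    rw [h1]
    simp
  have hu' := mem_filter.1 (T1 hu)
  have h2 := hp u hu'.1
  have hJ : 0 < I := by omega
  have h3 := Nat.div_add_mod s I
  have h4 := Nat.mod_lt s hJ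
  have h5 := packing T p (s / I + 2) hJ
    (fun x hx => by
      have := (mem_filter.1 (T1 hx)).2
      rw [add_mul, mul_comm (s / I)]
      omega)
    (fun a ha b hb hab => by
      have := T2 a ha b hb hab
      have := hs a (mem_filter.1 (T1 ha)).1 b (mem_filter.1 (T1 hb)).1
      omega)
  have h6 : (2 * (s / I + 2) + 1) * I ≤ 12 * s := by
    have : (2 * (s / I + 2) + 1) * I = 2 * (I * (s / I)) + 5 * I := by ring
    omega
  have h7 : T.card * I ^ 2 ≤ (12 * s) ^ 2 :=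
    (Nat.mul_le_mul_right _ h5).trans (by rw [← mul_pow]; exact Nat.pow_le_pow_left h6 2)
  have h8 : (2 * (7 * R) + 1) ^ 2 ≤ (15 * R) ^ 2 := Nat.pow_le_pow_left (by omega) 2
  have h10 := h1.trans (Nat.mul_le_mul_left _ h8)
  calc _ ≤ T.card * (15 * R) ^ 2 * I ^ 2 := Nat.mul_le_mul_right _ h10
    _ = T.card * I ^ 2 * (15 * R) ^ 2 := by ring
    _ ≤ (12 * s) ^ 2 * (15 * R) ^ 2 := Nat.mul_le_mul_right _ h7
    _ = _ := by ring

variable {ok : ℕ → Finset (Vx n) → Prop} {X : Finset (Vx n)} {k : ℕ}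

/-- points of lower levels are far from a point that survives to level `k` -/
lemma lv_far {l : ℕ} {z : Vx n} (hp : p ∈ Rem ra be ok X k) (hl : l < k)
    (hz : z ∈ Lv ra be ok X l) : be l < ds p z := by
  by_contra hc
  have h := (lv_near Og_par (lv_rem hz) (rem_anti hl.le hp) (by rw [ds_comm]; omega) hz).1
  exact (mem_sdiff.1 h).2 (rem_anti hl hp)

open Classical in
theorem near_fill (hp : p ∈ Rem ra be ok X k) (s : ℕ) :
    2 * 10 ^ 16 * (univ.filter fun x => ds p x ≤ s ∧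
      ∃ l < k, ∃ z ∈ Lv ra be ok X l, ds z x ≤ 6 * ra l).card ≤ s ^ 2 := by
  have key := geo_nat (fun l => 2 * 10 ^ 16 * (univ.filter fun x => ds p x ≤ s ∧
      ∃ z ∈ Lv ra be ok X l, ds z x ≤ 6 * ra l).card) (s ^ 2) k fun l hl => by
    have ch := chain l
    have h := sparse_count (p := p) (S := Lv ra be ok X l) (R := ra l) (I := be l) (by omega)
      (by omega) (fun z hz z' hz' hd => (lv_near Og_par (lv_rem hz) (lv_rem hz') hd hz).2)
      (fun z hz => lv_far hp hl hz) s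
    rw [be_ra] at h
    have h9 : 2 ^ (l + 1) * (2 * 10 ^ 16) * 32400 ≤ (64 ^ (l + 6)) ^ 2 := by
      have a1 : 2 ^ l ≤ (64 ^ l) ^ 2 := by
        rw [← pow_mul, mul_comm l 2, pow_mul]
        exact Nat.pow_le_pow_left (by norm_num) l
      calc _ = 2 ^ l * (2 * (2 * 10 ^ 16) * 32400) := by ring
        _ ≤ (64 ^ l) ^ 2 * (64 ^ 6) ^ 2 := Nat.mul_le_mul a1 (by norm_num)
        _ = _ := by ring
    generalize (univ.filter fun x => ds p x ≤ s ∧
      ∃ z ∈ Lv ra be ok X l, ds z x ≤ 6 * ra l).card = c at h ⊢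
    have hr : 0 < 32400 * ra l ^ 2 := by have : 0 < ra l := by omega
                                         positivity
    refine Nat.le_of_mul_le_mul_left ?_ hr
    calc 32400 * ra l ^ 2 * (2 ^ (l + 1) * (2 * 10 ^ 16 * c))
        = c * ((2 ^ (l + 1) * (2 * 10 ^ 16) * 32400) * ra l ^ 2) := by ring
      _ ≤ c * ((64 ^ (l + 6)) ^ 2 * ra l ^ 2) := by gcongr
      _ = c * (64 ^ (l + 6) * ra l) ^ 2 := by ring
      _ ≤ _ := h.trans (le_of_eq (by ring))
  have h2 := Nat.le_of_mul_le_mul_left ((Nat.le_add_right _ _).trans key) (by positivity)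
  refine le_trans ?_ h2
  rw [← mul_sum]
  refine Nat.mul_le_mul_left _ (le_trans (card_le_card fun x hx => ?_) card_biUnion_le)
  obtain ⟨h1, l, hl, h3⟩ := (mem_filter.1 hx).2
  exact mem_biUnion.2 ⟨l, mem_range.2 hl, mem_filter.2 ⟨mem_univ _, h1, h3⟩⟩

/-- the regions of all clusters of lower levels fill a small part of a square around `p` -/
theorem lower_fill (hok : ∀ j C, ok j C → n ≤ ra j ∨ ∑ x ∈ C, μ x < N * ra j ^ 2)
    (hp : p ∈ Rem ra be ok X k) (s : ℕ) {A : Finset (Vx n)}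
    (hA : ∀ x ∈ A, ds p x ≤ s ∧ ∃ l < k, ∃ C, IsCl ra be ok X l C ∧ x ∈ Og N μ C) :
    2 * 10 ^ 16 * A.card ≤ s ^ 2 := by
  classical
  refine le_trans (Nat.mul_le_mul_left _ (card_le_card fun x hx => ?_)) (near_fill hp s)
  obtain ⟨h1, l, hl, C, hC, h2⟩ := hA x hx
  have ch := chain l
  obtain ⟨z, hz, h3⟩ := Og_conf' (by omega) (hok l C hC.isOk) h2
  exact mem_filter.2 ⟨mem_univ _, h1, l, hl, z, hC.lv Og_par hz, by omega⟩

end Pool.Agent.Lib.MP_9cc147_pr.AllU.S
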