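import Pool.Agent.Lib.MP_9cc147_pr.MStr

/-! Section S: generic calculus of multiscale clusters under removal, far union and locality. -/

open Finset

namespace Pool.Agent.Lib.MP_9cc147_pr.AllU.S

open Mono

variable {n : ℕ} {R I : ℕ → ℕ} {ok ok' okA okB : ℕ → Finset (Vx n) → Prop}
  {X X' U A B C : Finset (Vx n)} {j k : ℕ} {x y z : Vx n}

/-- `U` is a union of clusters of `X` -/
def Sat (R I : ℕ → ℕ) (ok : ℕ → Finset (Vx n) → Prop) (X U : Finset (Vx n)) : Prop :=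
  ∀ u ∈ U, ∃ k C, IsCl R I ok X k C ∧ u ∈ C ∧ C ⊆ U

lemma isCl_sat (h : IsCl R I ok X k C) : Sat R I ok X C := fun _ hu => ⟨k, C, h, hu, Subset.rfl⟩

lemma isCl_sub_rem (hP : Par R I) (h : IsCl R I ok X k C) : C ⊆ Rem R I ok X k :=
  fun _ hx => lv_rem (h.lv hP hx)

lemma isCl_sub (hP : Par R I) (h : IsCl R I ok X k C) : C ⊆ X := (isCl_sub_rem hP h).trans rem_sub

lemma lv_sat (hP : Par R I) : Sat R I ok X (Lv R I ok X k) := fun _ hu => by
  obtain ⟨C, hC, h⟩ := lv_exists_cl hu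
  exact ⟨k, C, hC, h, fun _ hx => hC.lv hP hx⟩

lemma sat_biUnion {F : Finset (Finset (Vx n))} (hF : ∀ P ∈ F, IsCl R I ok X k P) :
    Sat R I ok X (F.biUnion id) := fun _ hu => by
  obtain ⟨P, hP, h⟩ := mem_biUnion.1 hu
  exact ⟨k, P, hF P hP, h, subset_biUnion_of_mem id hP⟩

lemma Sat.near (hP : Par R I) (hU : Sat R I ok X U) (hx : x ∈ Rem R I ok X j)
    (hy : y ∈ Rem R I ok X j) (hd : ds y x ≤ I j) (h : y ∈ U) : x ∈ U := by
  obtain ⟨k, C, hC, h1, h2⟩ := hU y h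
  exact h2 (hC.mem_of_near hP h1 (lv_le hy (hC.lv hP h1)) hx hd)

/-- a point of a cluster is far from the other surviving points -/
lemma isCl_far (hP : Par R I) (h : IsCl R I ok X k C) (hx : x ∈ C) (hy : y ∈ Rem R I ok X k)
    (hy' : y ∉ C) : I k < ds x y :=
  not_le.1 fun hd => hy' (h.mem_of_near hP hx le_rfl hy hd)

lemma iso_sdiff (hP : Par R I) (hU : Sat R I ok X U)
    (hok : ∀ j C, C ⊆ X \ U → (ok' j C ↔ ok j C)) (hx : x ∈ Rem R I ok X j) (hx' : x ∉ U) :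
    Iso R I ok' j (Rem R I ok X j \ U) x ↔ Iso R I ok j (Rem R I ok X j) x := by
  have h2 := hP.two j
  have h0 : ∀ y ∈ Rem R I ok X j, ds x y ≤ R j → y ∉ U := fun y hy hd hu =>
    hx' (hU.near hP hx hy (by rw [ds_comm]; omega) hu)
  refine iso_congr (fun y hd => ?_) (fun y hy hd y' hd' => ?_) fun _ => hok _ _ fun y hy => ?_
  · rw [mem_sdiff]
    exact ⟨fun a => a.1, fun a => ⟨a, h0 y a hd⟩⟩
  · rw [mem_sdiff] at hy ⊢
    exact ⟨fun a => a.1, fun a => ⟨a, fun hu => hy.2 (hU.near hP hy.1 a (ds_comm y y' ▸ hd') hu)⟩⟩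
  · have := mem_sdiff.1 (mem_filter.1 hy).1
    exact mem_sdiff.2 ⟨rem_sub this.1, this.2⟩

/-- removal of whole clusters does not change the other ones -/
theorem rem_sdiff (hP : Par R I) (hU : Sat R I ok X U)
    (hok : ∀ j C, C ⊆ X \ U → (ok' j C ↔ ok j C)) (j : ℕ) :
    Rem R I ok' (X \ U) j = Rem R I ok X j \ U := by
  induction j with
  | zero => rfl
  | succ j ih =>
    ext x
    rw [mem_rem_succ, mem_sdiff, mem_rem_succ, ih, mem_sdiff]
    exact ⟨fun a => ⟨⟨a.1.1, fun b => a.2 ((iso_sdiff hP hU hok a.1.1 a.1.2).2 b)⟩, a.1.2⟩,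
      fun a => ⟨⟨a.1.1, a.2⟩, fun b => a.1.2 ((iso_sdiff hP hU hok a.1.1 a.2).1 b)⟩⟩

theorem lv_sdiff (hP : Par R I) (hU : Sat R I ok X U)
    (hok : ∀ j C, C ⊆ X \ U → (ok' j C ↔ ok j C)) (j : ℕ) :
    Lv R I ok' (X \ U) j = Lv R I ok X j \ U := by
  ext x
  simp only [Lv, rem_sdiff hP hU hok, mem_sdiff]
  tauto

theorem isCl_sdiff (hP : Par R I) (hU : Sat R I ok X U)
    (hok : ∀ j C, C ⊆ X \ U → (ok' j C ↔ ok j C)) :
    IsCl R I ok' (X \ U) j C ↔ IsCl R I ok X j C ∧ Disjoint C U := by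
  have h2 := hP.two j
  have e : ∀ x ∈ Lv R I ok X j, x ∉ U →
      ((Rem R I ok X j \ U).filter fun y => ds x y ≤ R j) =
        (Rem R I ok X j).filter fun y => ds x y ≤ R j := fun x hx hx' => by
    ext y
    simp only [mem_filter, mem_sdiff]
    exact ⟨fun a => ⟨a.1.1, a.2⟩, fun a => ⟨⟨a.1, fun hu =>
      hx' (hU.near hP (lv_rem hx) a.1 (by rw [ds_comm]; omega) hu)⟩, a.2⟩⟩
  constructor
  · rintro ⟨x, hx, rfl⟩
    rw [lv_sdiff hP hU hok, mem_sdiff] at hx
    rw [rem_sdiff hP hU hok]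
    exact ⟨⟨x, hx.1, e x hx.1 hx.2⟩,
      disjoint_left.2 fun y hy => (mem_sdiff.1 (mem_filter.1 hy).1).2⟩
  · rintro ⟨⟨x, hx, rfl⟩, hd⟩
    have hx' : x ∉ U := disjoint_left.1 hd (mem_filter.2 ⟨lv_rem hx, by simp⟩)
    refine ⟨x, by rw [lv_sdiff hP hU hok]; exact mem_sdiff.2 ⟨hx, hx'⟩, ?_⟩
    rw [rem_sdiff hP hU hok, e x hx hx']

/-- two different clusters of one level are disjoint and far apart -/
lemma isCl_far' (hP : Par R I) {C' : Finset (Vx n)} (h : IsCl R I ok X k C)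
    (h' : IsCl R I ok X k C') (hne : C ≠ C') (hx : x ∈ C) (hy : y ∈ C') : I k < ds x y :=
  isCl_far hP h hx (isCl_sub_rem hP h' hy) fun a => hne (h.unique hP h' a hy).2

/-- one cluster removed -/
theorem isCl_erase (hP : Par R I) {P : Finset (Vx n)} (h : IsCl R I ok X k P)
    (hok : ∀ j C, C ⊆ X \ P → (ok' j C ↔ ok j C)) :
    IsCl R I ok' (X \ P) j C ↔ IsCl R I ok X j C ∧ C ≠ P := by
  rw [isCl_sdiff hP (isCl_sat h) hok]
  refine and_congr_right fun hC => ⟨fun hd e => ?_, fun hne => disjoint_left.2 fun a ha hb => ?_⟩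
  · obtain ⟨a, ha⟩ := hC.nonempty
    exact disjoint_left.1 hd ha (e ▸ ha)
  · exact hne (hC.unique hP h ha hb).2

/-- only the veto on subsets of `X` matters -/
lemma rem_ok (hok : ∀ j C, C ⊆ X → (ok' j C ↔ ok j C)) (j : ℕ) :
    Rem R I ok' X j = Rem R I ok X j := by
  induction j with
  | zero => rfl
  | succ j ih =>
    ext x
    rw [mem_rem_succ, mem_rem_succ, ih]
    exact and_congr_right fun _ => not_congr (iso_congr (fun _ _ => Iff.rfl)
      (fun _ _ _ _ _ => Iff.rfl) fun _ => hok _ _ ((filter_subset _ _).trans rem_sub))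

/-- equal at one level, equal at all higher levels -/
lemma rem_tail (h : Rem R I ok' X' k = Rem R I ok X k)
    (hok : ∀ j C, C ⊆ Rem R I ok X k → (ok' j C ↔ ok j C)) (hj : k ≤ j) :
    Rem R I ok' X' j = Rem R I ok X j := by
  induction hj with
  | refl => exact h
  | @step j hj ih =>
    ext x
    rw [mem_rem_succ, mem_rem_succ, ih]
    exact and_congr_right fun _ => not_congr (iso_congr (fun _ _ => Iff.rfl)
      (fun _ _ _ _ _ => Iff.rfl) fun _ => hok _ _ ((filter_subset _ _).trans (rem_anti hj)))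

lemma iso_union (hP : Par R I) (hfar : ∀ a ∈ A, ∀ b ∈ B, I j < ds a b) (hx : x ∈ A)
    (hA : ∀ C, C ⊆ A → (okA j C ↔ ok j C)) : Iso R I okA j A x ↔ Iso R I ok j (A ∪ B) x := by
  have h2 := hP.two j
  refine iso_congr (fun y hd => ?_) (fun y hy _ y' hd' => ?_) fun _ => hA _ (filter_subset _ _)
  · rw [mem_union]
    exact ⟨Or.inl, fun a => a.resolve_right fun b => by have := hfar x hx y b; omega⟩
  · rw [mem_union]
    exact ⟨Or.inl, fun a => a.resolve_right fun b => by have := hfar y hy y' b; omega⟩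

/-- far sets evolve independently -/
theorem rem_union (hP : Par R I) (hfar : ∀ a ∈ A, ∀ b ∈ B, I k < ds a b)
    (hA : ∀ j C, C ⊆ A → (okA j C ↔ ok j C)) (hB : ∀ j C, C ⊆ B → (okB j C ↔ ok j C))
    (hj : j ≤ k + 1) : Rem R I ok (A ∪ B) j = Rem R I okA A j ∪ Rem R I okB B j := by
  induction j with
  | zero => rfl
  | succ j ih =>
    have hI := hP.monoI (show j ≤ k by omega)
    have f : ∀ a ∈ Rem R I okA A j, ∀ b ∈ Rem R I okB B j, I j < ds a b := fun a ha b hb =>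
      hI.trans_lt (hfar a (rem_sub ha) b (rem_sub hb))
    have i1 : ∀ x ∈ Rem R I okA A j, Iso R I okA j (Rem R I okA A j) x ↔
        Iso R I ok j (Rem R I okA A j ∪ Rem R I okB B j) x := fun x hx =>
      iso_union hP f hx fun C hC => hA j C (hC.trans rem_sub)
    have i2 : ∀ x ∈ Rem R I okB B j, Iso R I okB j (Rem R I okB B j) x ↔
        Iso R I ok j (Rem R I okA A j ∪ Rem R I okB B j) x := fun x hx => by
      rw [union_comm]
      exact iso_union hP (fun b hb a ha => ds_comm a b ▸ f a ha b hb) hx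
        fun C hC => hB j C (hC.trans rem_sub)
    ext x
    rw [mem_rem_succ, ih (by omega), mem_union, mem_union, mem_rem_succ, mem_rem_succ]
    exact ⟨fun a => a.1.imp (fun b => ⟨b, fun c => a.2 ((i1 x b).1 c)⟩)
        fun b => ⟨b, fun c => a.2 ((i2 x b).1 c)⟩,
      fun a => a.elim (fun b => ⟨Or.inl b.1, fun c => b.2 ((i1 x b.1).2 c)⟩)
        fun b => ⟨Or.inr b.1, fun c => b.2 ((i2 x b.1).2 c)⟩⟩

/-- a cluster of `B` is a cluster of the far union -/
theorem isCl_union (hP : Par R I) (hfar : ∀ a ∈ A, ∀ b ∈ B, I k < ds a b)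
    (hA : ∀ j C, C ⊆ A → (okA j C ↔ ok j C)) (hB : ∀ j C, C ⊆ B → (okB j C ↔ ok j C))
    (hj : j ≤ k) (h : IsCl R I okB B j C) : IsCl R I ok (A ∪ B) j C := by
  obtain ⟨x, hx, rfl⟩ := h
  have h2 := hP.two j
  have hI := hP.monoI hj
  have hx' := mem_sdiff.1 hx
  refine ⟨x, mem_sdiff.2 ⟨?_, ?_⟩, ?_⟩
  · rw [rem_union hP hfar hA hB (by omega)]
    exact mem_union_right _ hx'.1
  · rw [rem_union hP hfar hA hB (by omega), mem_union]
    refine fun a => a.elim (fun b => ?_) hx'.2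
    have := hfar x (rem_sub b) x (rem_sub hx'.1)
    simp at this
  · rw [rem_union hP hfar hA hB (by omega)]
    ext y
    simp only [mem_filter, mem_union]
    refine and_congr_left fun hd => ⟨Or.inr, fun a => a.resolve_left fun b => ?_⟩
    have := hfar y (rem_sub b) x (rem_sub hx'.1)
    rw [ds_comm] at this
    omega

/-- a cluster seen alone -/
theorem rem_alone (hP : Par R I) (h : IsCl R I ok X k C) (j : ℕ) :
    Rem R I ok C j = Rem R I ok X j ∩ C := by
  induction j with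
  | zero => exact (inter_eq_right.2 (isCl_sub hP h)).symm
  | succ j ih =>
    have h2 := hP.two j
    have hs := isCl_sat h
    ext x
    rw [mem_rem_succ, ih, mem_inter, mem_inter, mem_rem_succ]
    have i : x ∈ Rem R I ok X j → x ∈ C →
        (Iso R I ok j (Rem R I ok X j ∩ C) x ↔ Iso R I ok j (Rem R I ok X j) x) := fun a b =>
      iso_congr
        (fun y hd => by
          rw [mem_inter]; exact ⟨fun c => c.1, fun c => ⟨c, hs.near hP c a (by omega) b⟩⟩)
        (fun y hy _ y' hd' => by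
          rw [mem_inter] at hy ⊢; exact ⟨fun c => c.1, fun c => ⟨c, hs.near hP c hy.1 hd' hy.2⟩⟩)
        fun _ => Iff.rfl
    exact ⟨fun a => ⟨⟨a.1.1, fun b => a.2 ((i a.1.1 a.1.2).2 b)⟩, a.1.2⟩,
      fun a => ⟨⟨a.1.1, a.2⟩, fun b => a.1.2 ((i a.1.1 a.2).1 b)⟩⟩

theorem isCl_alone (hP : Par R I) (h : IsCl R I ok X k C) : IsCl R I ok C k C := by
  obtain ⟨x, hx⟩ := h.nonempty
  have h1 := mem_sdiff.1 (h.lv hP hx)
  refine ⟨x, mem_sdiff.2 ⟨?_, ?_⟩, ?_⟩
  · rw [rem_alone hP h]; exact mem_inter.2 ⟨h1.1, hx⟩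
  · rw [rem_alone hP h]; exact fun a => h1.2 (mem_inter.1 a).1
  · rw [rem_alone hP h, inter_eq_right.2 (isCl_sub_rem hP h)]
    exact (filter_true_of_mem fun y hy => h.diam hP hx hy).symm

/-! ### locality -/

/-- one step of locality -/
lemma iso_local {r : ℕ} (hX : ∀ y, ds z y ≤ r → (y ∈ X ↔ y ∈ X'))
    (hok : ∀ C, C ⊆ X → (∀ y ∈ C, ds z y ≤ r) → (ok j C ↔ ok' j C))
    (hd : ds z x + (R j + I j) ≤ r) : Iso R I ok j X x ↔ Iso R I ok' j X' x := by
  refine iso_congr (fun y h => hX y ?_) (fun y _ h y' h' => hX y' ?_)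
    fun _ => hok _ (filter_subset _ _) fun y hy => ?_
  · have := ds_tri z x y; omega
  · have := ds_tri z x y; have := ds_tri z y y'; omega
  · have := ds_tri z x y; have := (mem_filter.1 hy).2; omega

theorem rem_local {rad : ℕ → ℕ} (hr : ∀ j, rad j + (R j + I j) ≤ rad (j + 1)) {r : ℕ}
    (hX : ∀ y, ds z y ≤ r → (y ∈ X ↔ y ∈ X'))
    (hok : ∀ j C, C ⊆ X → (∀ y ∈ C, ds z y ≤ r) → (ok j C ↔ ok' j C)) (j : ℕ) :
    ∀ x, ds z x + rad j ≤ r → (x ∈ Rem R I ok X j ↔ x ∈ Rem R I ok' X' j) := by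
  induction j with
  | zero => exact fun x hd => hX x (by omega)
  | succ j ih =>
    intro x hd
    have h1 := hr j
    rw [mem_rem_succ, mem_rem_succ, ih x (by omega),
      iso_local (z := z) (r := r - rad j) (ok' := ok') (X' := Rem R I ok' X' j)
        (fun y h => ih y (by omega))
        (fun C hC h => hok j C (hC.trans rem_sub) fun y hy => (h y hy).trans (Nat.sub_le _ _))
        (by omega)]

theorem lv_local {rad : ℕ → ℕ} (hr : ∀ j, rad j + (R j + I j) ≤ rad (j + 1)) {r : ℕ}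
    (hX : ∀ y, ds z y ≤ r → (y ∈ X ↔ y ∈ X'))
    (hok : ∀ j C, C ⊆ X → (∀ y ∈ C, ds z y ≤ r) → (ok j C ↔ ok' j C))
    (hd : ds z x + rad (j + 1) ≤ r) : x ∈ Lv R I ok X j ↔ x ∈ Lv R I ok' X' j := by
  have h1 := hr j
  rw [Lv, Lv, mem_sdiff, mem_sdiff, rem_local hr hX hok j x (by omega),
    rem_local hr hX hok (j + 1) x hd]

theorem isCl_local (hP : Par R I) {rad : ℕ → ℕ} (hr : ∀ j, rad j + (R j + I j) ≤ rad (j + 1))
    {r : ℕ} (hX : ∀ y, ds z y ≤ r → (y ∈ X ↔ y ∈ X'))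
    (hok : ∀ j C, C ⊆ X → (∀ y ∈ C, ds z y ≤ r) → (ok j C ↔ ok' j C))
    (h : IsCl R I ok X j C) (hx : x ∈ C) (hd : ds z x + rad (j + 1) ≤ r) : IsCl R I ok' X' j C := by
  have h1 := hr j
  refine ⟨x, (lv_local hr hX hok hd).1 (h.lv hP hx), (h.eq hP hx).trans ?_⟩
  ext y
  simp only [mem_filter]
  exact and_congr_left fun a => rem_local hr hX hok j y (by have := ds_tri z x y; omega)

/-- locality at a level that every point has reached -/
theorem isCl_local' (hP : Par R I) {r : ℕ} (e : Rem R I ok X j = X) (e' : Rem R I ok' X' j = X')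
    (hX : ∀ y, ds z y ≤ r → (y ∈ X ↔ y ∈ X'))
    (hok : ∀ C, C ⊆ X → (∀ y ∈ C, ds z y ≤ r) → (ok j C ↔ ok' j C))
    (h : IsCl R I ok X j C) (hx : x ∈ C) (hd : ds z x + (R j + I j) ≤ r) : IsCl R I ok' X' j C := by
  have h1 := mem_lv.1 (h.lv hP hx)
  rw [e] at h1
  refine ⟨x, mem_lv.2 ?_, (h.eq hP hx).trans ?_⟩
  · rw [e']
    exact ⟨(hX x (by omega)).1 h1.1, (iso_local hX hok hd).1 h1.2⟩
  · rw [e, e']
    ext y
    simp only [mem_filter]
    exact and_congr_left fun a => hX y (by have := ds_tri z x y; omega)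

/-! ### the scales `ra`, `be` -/

lemma par_rb : Par ra be :=
  ⟨fun j => by have := chain j; omega, fun j => by have := chain j; omega, fun _ _ => ra_mono, be_mono⟩

/-- radius of dependence of the levels below `j` -/
def rd : ℕ → ℕ
  | 0 => 0
  | j + 1 => 2 * be j

lemma rd_le (j : ℕ) : 1000 * rd j ≤ ra j := by
  cases j with
  | zero => simp [rd]
  | succ j => have := Ip_ra (Nat.lt_add_one j); have := chain j; rw [rd]; omega

lemma rd_step (j : ℕ) : rd j + (ra j + be j) ≤ rd (j + 1) := by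
  have := rd_le j; have := chain j; rw [rd]; omega

end Pool.Agent.Lib.MP_9cc147_pr.AllU.S
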