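import Pool.Agent.Lib.MP_9cc147_pr.U.SHH

/-! Section S6, abstract resummation: one level, then all levels. -/

open Finset
open scoped ENNReal

namespace Pool.Agent.Lib.MP_9cc147_pr.AllU.S

variable {ι Ω : Type*} [DecidableEq ι] {cf : ι → ι → Prop}

open Classical in
lemma tsum_fib {κ : Type*} (k : Ω → κ) (f : Ω → ℝ≥0∞) :
    ∑' ω, f ω = ∑' a, ∑' ω, if k ω = a then f ω else 0 := by
  rw [ENNReal.tsum_comm]
  refine tsum_congr fun ω => ?_
  rw [tsum_eq_single (k ω) fun b hb => if_neg fun e => hb e.symm, if_pos rfl]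

open Classical in
/-- one level of repairs: `A` admissible states, `fam` the clusters of the level, `rep` repairs one
cluster, `R` repairs all, `ρ σ P` is the activity of `P` seen from the repaired state `σ` -/
structure Lvl (cf : ι → ι → Prop) (ν : Ω → ℝ≥0∞) (A : Ω → Prop) (fam : Ω → Finset ι)
    (rep : Ω → ι → Ω) (R : Ω → Ω) (ρ : Ω → ι → ℝ) : Prop where
  symm : ∀ P Q, cf P Q → cf Q P
  refl : ∀ P, cf P P
  cpt : ∀ ω, A ω → Cpt cf (fam ω)
  step : ∀ ω, A ω → ∀ P ∈ fam ω,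
    A (rep ω P) ∧ fam (rep ω P) = (fam ω).erase P ∧ R (rep ω P) = R ω
  fix : ∀ ω, A ω → fam ω = ∅ → R ω = ω
  loc : ∀ ω', A ω' → ∀ P, (∀ Q ∈ fam ω', ¬ cf Q P) →
    (∑' ω, if A ω ∧ P ∈ fam ω ∧ rep ω P = ω' then ν ω else 0) =
      ν ω' * ENNReal.ofReal (ρ (R ω') P)

variable {ν : Ω → ℝ≥0∞} {A : Ω → Prop} {fam : Ω → Finset ι} {rep : Ω → ι → Ω} {R : Ω → Ω}
  {ρ : Ω → ι → ℝ}

lemma Lvl.done (h : Lvl cf ν A fam rep R ρ) {ω : Ω} (hω : A ω) : A (R ω) ∧ fam (R ω) = ∅ := by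
  induction hk : (fam ω).card generalizing ω with
  | zero =>
    rw [card_eq_zero] at hk
    rw [h.fix ω hω hk]
    exact ⟨hω, hk⟩
  | succ k ih =>
    obtain ⟨P, hP⟩ := card_pos.1 (by omega : 0 < (fam ω).card)
    obtain ⟨h1, h2, h3⟩ := h.step ω hω P hP
    rw [← h3]
    exact ih h1 (by rw [h2, card_erase_of_mem hP, hk]; rfl)

open Classical in
/-- the states with a given family over a given repaired state -/
theorem Lvl.prod (h : Lvl cf ν A fam rep R ρ) {σ : Ω} (hσ : A σ) (h0 : fam σ = ∅) (F : Finset ι)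
    (hF : Cpt cf F) : (∑' ω, if A ω ∧ fam ω = F ∧ R ω = σ then ν ω else 0) =
      ν σ * ∏ P ∈ F, ENNReal.ofReal (ρ σ P) := by
  induction F using Finset.induction_on with
  | empty =>
    rw [tsum_eq_single σ fun ω hω => if_neg fun c => hω (by rw [← c.2.2, h.fix ω c.1 c.2.1]),
      if_pos ⟨hσ, h0, h.fix σ hσ h0⟩, prod_empty, mul_one]
  | insert P F hP ih =>
    rw [cpt_insert h.symm hP] at hF
    rw [prod_insert hP, mul_left_comm, ← ih hF.1, tsum_fib (fun ω => rep ω P), ← ENNReal.tsum_mul_left]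
    refine tsum_congr fun ω' => ?_
    by_cases c : A ω' ∧ fam ω' = F ∧ R ω' = σ
    · rw [if_pos c, mul_comm, ← c.2.2,
        ← h.loc ω' c.1 P fun Q hQ d => hF.2 Q (c.2.1 ▸ hQ) (h.symm _ _ d)]
      refine tsum_congr fun ω => ?_
      by_cases d : A ω ∧ P ∈ fam ω ∧ rep ω P = ω'
      · obtain ⟨-, h2, h3⟩ := h.step ω d.1 P d.2.1
        rw [d.2.2] at h2 h3
        rw [if_pos d, if_pos d.2.2, if_pos ⟨d.1, by rw [← c.2.1, h2, insert_erase d.2.1], h3.symm⟩]
      · rw [if_neg d]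
        split_ifs with e1 e2
        · exact absurd ⟨e2.1, e2.2.1 ▸ mem_insert_self _ _, e1⟩ d
        · rfl
        · rfl
    · rw [if_neg c, mul_zero]
      refine ENNReal.tsum_eq_zero.2 fun ω => ?_
      split_ifs with e1 e2
      · obtain ⟨h1, h2, h3⟩ := h.step ω e2.1 P (e2.2.1 ▸ mem_insert_self _ _)
        rw [e1] at h1 h2 h3
        exact absurd ⟨h1, by rw [h2, e2.2.1, erase_insert hP], h3.trans e2.2.2⟩ c
      · rfl
      · rfl

/-- the correction factor of one level -/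
noncomputable def hfac [Fintype ι] (cf : ι → ι → Prop) (fam : Ω → Finset ι) (R : Ω → Ω)
    (ρ : Ω → ι → ℝ) (ω : Ω) : ℝ≥0∞ :=
  ENNReal.ofReal (HH cf (ρ (R ω)) (off cf univ (fam ω)))

open Classical in
/-- resummation of one level -/
theorem Lvl.resum [Fintype ι] (h : Lvl cf ν A fam rep R ρ)
    (hs : ∀ σ, A σ → fam σ = ∅ → Sm cf (ρ σ) univ) (Φ : Ω → ℝ≥0∞) :
    (∑' ω, if A ω then ν ω * hfac cf fam R ρ ω * Φ (R ω) else 0) =
      ∑' σ, if A σ ∧ fam σ = ∅ then ν σ * Φ σ else 0 := by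
  rw [tsum_fib R]
  refine tsum_congr fun σ => ?_
  by_cases c : A σ ∧ fam σ = ∅
  · have hS := hs σ c.1 c.2
    have e1 : ∀ ω, (if R ω = σ then (if A ω then ν ω * hfac cf fam R ρ ω * Φ (R ω) else 0) else 0) =
        ∑ F ∈ univ.powerset.filter (Cpt cf), (if A ω ∧ fam ω = F ∧ R ω = σ then ν ω else 0) *
          (ENNReal.ofReal (HH cf (ρ σ) (off cf univ F)) * Φ σ) := by
      intro ω
      by_cases d : A ω ∧ R ω = σ
      · rw [if_pos d.2, if_pos d.1, sum_eq_single_of_mem (fam ω)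
          (mem_filter.2 ⟨mem_powerset.2 (subset_univ _), h.cpt ω d.1⟩)
          fun F _ ne => by rw [if_neg fun e => ne e.2.1.symm, zero_mul],
          if_pos ⟨d.1, rfl, d.2⟩, hfac, d.2, mul_assoc]
      · rw [sum_eq_zero fun F _ => by rw [if_neg fun e => d ⟨e.1, e.2.2⟩, zero_mul]]
        split_ifs with e1 e2
        · exact absurd ⟨e2, e1⟩ d
        · rfl
        · rfl
    rw [tsum_congr e1, Summable.tsum_finsetSum fun _ _ => ENNReal.summable, if_pos c]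
    have e2 : ∀ F ∈ univ.powerset.filter (Cpt cf),
        ∑' ω, (if A ω ∧ fam ω = F ∧ R ω = σ then ν ω else 0) *
          (ENNReal.ofReal (HH cf (ρ σ) (off cf univ F)) * Φ σ) =
        ν σ * Φ σ * ENNReal.ofReal ((∏ P ∈ F, ρ σ P) * HH cf (ρ σ) (off cf univ F)) := by
      intro F hF
      rw [ENNReal.tsum_mul_right, h.prod c.1 c.2 F (mem_filter.1 hF).2,
        ENNReal.ofReal_mul (prod_nonneg fun P _ => hS.1 P (mem_univ _)),
        ENNReal.ofReal_prod_of_nonneg fun P _ => hS.1 P (mem_univ _)]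
      ring
    rw [sum_congr rfl e2, ← mul_sum, ← ENNReal.ofReal_sum_of_nonneg fun F _ =>
      mul_nonneg (prod_nonneg fun P _ => hS.1 P (mem_univ _))
        (HH_pos h.symm h.refl (hS.mono off_sub)).le, sum_HH h.symm h.refl]
    simp
  · rw [if_neg c]
    refine ENNReal.tsum_eq_zero.2 fun ω => ?_
    split_ifs with e1 e2
    · exact absurd (e1 ▸ h.done e2) c
    · rfl
    · rfl

/-- the state after the levels below `k` -/
def itR (R : ℕ → Ω → Ω) : ℕ → Ω → Ω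
  | 0, ω => ω
  | k + 1, ω => R k (itR R k ω)

open Classical in
/-- chaining the levels -/
theorem resum_chain (ν : Ω → ℝ≥0∞) (A : ℕ → Ω → Prop) (R : ℕ → Ω → Ω) (g : ℕ → Ω → ℝ≥0∞) (K : ℕ)
    (h : ∀ k < K, ∀ Φ : Ω → ℝ≥0∞, (∑' ω, if A k ω then ν ω * g k ω * Φ (R k ω) else 0) =
      ∑' σ, if A (k + 1) σ then ν σ * Φ σ else 0) (Ψ : Ω → ℝ≥0∞) :
    (∑' ω, if A 0 ω then ν ω * (∏ k ∈ range K, g k (itR R k ω)) * Ψ (itR R K ω) else 0) =
      ∑' σ, if A K σ then ν σ * Ψ σ else 0 := by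
  induction K generalizing Ψ with
  | zero => simp [itR]
  | succ K ih =>
    rw [← h K (Nat.lt_succ_self K) Ψ]
    have := ih (fun k hk => h k (Nat.lt_succ_of_lt hk)) fun σ => g K σ * Ψ (R K σ)
    simp only [← mul_assoc] at this
    rw [← this]
    refine tsum_congr fun ω => ?_
    rw [prod_range_succ, itR, ← mul_assoc]

lemma hfac_le_one [Fintype ι] (hs : ∀ P Q, cf P Q → cf Q P) (hr : ∀ P, cf P P) {ω : Ω}
    (h : Sm cf (ρ (R ω)) univ) : hfac cf fam R ρ ω ≤ 1 :=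
  ENNReal.ofReal_le_one.2 (HH_le_one hs hr (h.mono off_sub))

lemma hfac_pos [Fintype ι] (hs : ∀ P Q, cf P Q → cf Q P) (hr : ∀ P, cf P P) {ω : Ω}
    (h : Sm cf (ρ (R ω)) univ) : 0 < hfac cf fam R ρ ω :=
  ENNReal.ofReal_pos.2 (HH_pos hs hr (h.mono off_sub))

end Pool.Agent.Lib.MP_9cc147_pr.AllU.S
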