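import Pool.Agent.Lib.MP_9cc147_pr.U.SBad
import Pool.Agent.Lib.MP_9cc147_pr.U.SRes
import Pool.Agent.Lib.MP_9cc147_pr.U.SO
import Pool.Agent.Lib.MP_9cc147_pr.U.SRem
import Pool.Agent.Lib.MP_9cc147_pr.U.SCnt
import Pool.Agent.Lib.MP_9cc147_pr.U.SCls

/-! Section S (mass transfer): definitions and the statements of its parts. -/

open Finset
open scoped ENNReal

namespace Pool.Agent.Lib.MP_9cc147_pr.AllU.S.G

open Mono (Rem Lv IsCl Par oe ra be tb aa)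

variable {n : ℕ}

abbrev Eg (n : ℕ) := Vx n × Vx n

def gr (m : Vx n → ℤ) (e : Eg n) : ℤ := m e.1 - m e.2

/-- the edge touches the set -/
def Tc (O : Finset (Vx n)) (e : Eg n) : Prop := e.1 ∈ O ∨ e.2 ∈ O

/-! ### clusters of a mass function -/

def sp (μ : Vx n → ℕ) : Finset (Vx n) := univ.filter fun x => μ x ≠ 0

def okM (N : ℕ) (μ : Vx n → ℕ) (j : ℕ) (C : Finset (Vx n)) : Prop :=
  n ≤ ra j ∨ ∑ x ∈ C, μ x < N * ra j ^ 2

noncomputable def Rm (N : ℕ) (μ : Vx n → ℕ) : ℕ → Finset (Vx n) := Rem ra be (okM N μ) (sp μ)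
noncomputable def Lm (N : ℕ) (μ : Vx n → ℕ) : ℕ → Finset (Vx n) := Lv ra be (okM N μ) (sp μ)
def Cl (N : ℕ) (μ : Vx n → ℕ) (k : ℕ) (P : Finset (Vx n)) : Prop :=
  IsCl ra be (okM N μ) (sp μ) k P

open Classical in
noncomputable def fam (N : ℕ) (μ : Vx n → ℕ) (k : ℕ) : Finset (Finset (Vx n)) :=
  univ.filter fun P => Cl N μ k P

open Classical in
/-- regions of the clusters below level `k` -/
noncomputable def low (N : ℕ) (μ : Vx n → ℕ) (k : ℕ) : Finset (Vx n) :=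
  univ.filter fun y => ∃ j < k, ∃ P, Cl N μ j P ∧ y ∈ Og N μ P

/-! ### states -/

@[ext] structure St (n : ℕ) where
  m : Vx n → ℤ
  S : Finset (Eg n)
  mr : Finset (Vx n)
  fl : Finset (Fin (n + 1) × Vx n)

/-- defect edge -/
def Dfe (N : ℕ) (ω : St n) (e : Eg n) : Prop :=
  ¬ Tc ω.mr e ∧ e ∉ ω.S ∧ 4 * (N : ℤ) < |gr ω.m e|

open Classical in
noncomputable def mass (N : ℕ) (ω : St n) (x : Vx n) : ℕ :=
  ∑ e ∈ oe x, if Dfe N ω e then (gr ω.m e).natAbs else 0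

noncomputable def Sq (N : ℕ) (ω : St n) : Finset (Eg n) := plus (Ed n) (8 * N) ω.m ω.S

structure Reg (N : ℕ) (ω : St n) : Prop where
  pin : ω.m (vz n) = 0
  sub : ω.S ⊆ Ed n
  cov : ∀ e ∈ Ed n, Tc ω.mr e → e ∉ ω.S → |gr ω.m e| ≤ 10 ^ 6 * N
  good : ∀ p, mass N ω p ≠ 0 → ¬ TBad (Sq N ω) p
  few : ∀ k, ∀ p ∈ Lm N (mass N ω) k, ∀ s ≤ 100 * ra k,
    10 ^ 16 * ((ω.mr ∪ low N (mass N ω) k).filter fun y => ds p y ≤ s).card ≤ (s + 1) ^ 2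

/-- regular, no cluster below level `k` -/
def Om (N k : ℕ) (ω : St n) : Prop := Reg N ω ∧ Rm N (mass N ω) k = sp (mass N ω)

/-- admissible change of the heights inside `O` -/
def Feas (N : ℕ) (O : Finset (Vx n)) (F : Finset (Eg n)) (m δ : Vx n → ℤ) : Prop :=
  (∀ x, x ∉ O → δ x = 0) ∧ ∀ e ∈ Ed n, Tc O e →
    (e ∈ F → gr δ e = 0) ∧ (e ∉ F → |gr m e + gr δ e| ≤ 10 ^ 6 * N)

noncomputable def dl (N : ℕ) (ω : St n) (P : Finset (Vx n)) : Vx n → ℤ :=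
  Classical.epsilon (Feas N (Og N (mass N ω) P) (Sq N ω) ω.m)

/-- name of a cluster -/
noncomputable def nm (P : Finset (Vx n)) : Vx n := Classical.epsilon fun x => x ∈ P

def fk (n k : ℕ) : Fin (n + 1) := ⟨min k n, by omega⟩

/-- repair of the clusters in `F` -/
noncomputable def repF (N : ℕ) (ω : St n) (k : ℕ) (F : Finset (Finset (Vx n))) : St n where
  m x := ω.m x + ∑ P ∈ F, dl N ω P x - ∑ P ∈ F, dl N ω P (vz n)
  S := ω.S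
  mr := ω.mr ∪ F.biUnion (Og N (mass N ω))
  fl := ω.fl ∪ F.image fun P => (fk n k, nm P)

noncomputable def Rk (N k : ℕ) (ω : St n) : St n := repF N ω k (fam N (mass N ω) k)

/-- the state after the repair of the levels below `k` -/
noncomputable def it (N k : ℕ) (ω : St n) : St n := itR (Rk N) k ω

noncomputable def fin (N : ℕ) (ω : St n) : St n := it N (n + 1) ω

/-- the two states agree near `z` -/
structure Agr (N : ℕ) (z : Vx n) (r : ℕ) (ω ω' : St n) : Prop where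
  S : ω'.S = ω.S
  sq : Sq N ω' = Sq N ω
  mr : ∀ x, ds z x ≤ r → (x ∈ ω'.mr ↔ x ∈ ω.mr)
  fl : ∀ k x, ds z x ≤ r → ((k, x) ∈ ω'.fl ↔ (k, x) ∈ ω.fl)
  gr : ∀ e ∈ Ed n, ds z e.1 ≤ r → gr ω'.m e = gr ω.m e

/-! ### weights -/

structure Pa where
  w : ℤ → ℝ
  w0 : ℤ → ℝ
  N : ℕ
  Y : ℕ
  β : ℝ
  e : ℝ
  ε : ℝ
  w1 : ℝ
  S : ℝ

def Pa.H (a : Pa) : Prop := HypS a.w a.w0 a.N a.Y a.β a.e a.ε a.w1 a.S

noncomputable def wS (a : Pa) (k : ℤ) : ℝ := if |k| ≤ 4 * a.N then a.w k - a.w0 k else a.w k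

noncomputable def wC (a : Pa) (k : ℤ) : ℝ := if |k| ≤ 10 ^ 6 * a.N then wS a k / 2 else a.w k

open Classical in
/-- weight of an edge -/
noncomputable def we (a : Pa) (ω : St n) (e : Eg n) : ℝ :=
  if Tc ω.mr e then
    (if e ∈ ω.S then wC a (gr ω.m e) else a.w (gr ω.m e) - wC a (gr ω.m e))
  else if e ∈ ω.S then wS a (gr ω.m e) else a.w0 (gr ω.m e)

/-- probability of a flag -/
noncomputable def pF (a : Pa) (k : ℕ) : ℝ := (1 / 64 : ℝ) ^ (a.Y * aa k)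

noncomputable def nu (a : Pa) (ω : St n) : ℝ≥0∞ :=
  ENNReal.ofReal (pw (fun _ => a.e) ω.mr * pw (fun b => pF a b.1) ω.fl * ∏ e ∈ Ed n, we a ω e)

open Classical in
/-- weight of true states -/
noncomputable def nt (a : Pa) (ω : St n) : ℝ≥0∞ :=
  if Reg a.N ω ∧ ∀ x, mass a.N ω x = 0 then nu a ω else 0

open Classical in
noncomputable def XX (N : ℕ) (ω : St n) : Finset (Vx n) :=
  univ.filter fun x => x ∈ ω.mr ∨ ∃ e ∈ oe x, e ∈ ω.S ∨ (N : ℤ) < |gr ω.m e|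

/-- `ω` is repaired to `σ` at its cluster `P` -/
def Opt (N k : ℕ) (P : Finset (Vx n)) (ω σ : St n) : Prop :=
  Om N k ω ∧ Cl N (mass N ω) k P ∧ repF N ω k {P} = σ

open Classical in
noncomputable def pm (a : Pa) (k : ℕ) (σ : St n) (P : Finset (Vx n)) : ℝ≥0∞ :=
  ∑' ω, if Opt a.N k P ω σ then nu a ω else 0

/-- activity -/
noncomputable def ac (a : Pa) (k : ℕ) (σ : St n) (P : Finset (Vx n)) : ℝ :=
  (pm a k σ P / nu a σ).toReal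

def Dm (k : ℕ) (P : Finset (Vx n)) : Prop := ∀ p ∈ P, ∀ q ∈ P, ds p q ≤ ra k

/-- conflict of two sets at level `k` -/
def cf (k : ℕ) (P Q : Finset (Vx n)) : Prop :=
  P = Q ∨ (Dm k P ∧ Dm k Q ∧ ∃ x ∈ P, ∃ y ∈ Q, ds x y ≤ be k)

noncomputable def hk (a : Pa) (k : ℕ) (ω : St n) : ℝ≥0∞ :=
  hfac (cf k) (fun ω => fam a.N (mass a.N ω) k) (Rk a.N k) (ac a k) ω

noncomputable def gg (a : Pa) (ω : St n) : ℝ≥0∞ := ∏ k ∈ range (n + 1), hk a k (it a.N k ω)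

open Classical in
/-- total weight of the mass functions of a cluster `P` of level `k` -/
noncomputable def WW (a : Pa) (k : ℕ) (P : Finset (Vx n)) : ℝ≥0∞ :=
  ∑' μ : Vx n → ℕ, if sp μ = P ∧ Surv a.N k (nm P) μ then
    ENNReal.ofReal (Real.exp (-(a.β * a.N / 8 * (∑ x, μ x : ℕ)))) else 0

/-! ### frozen set and classes -/

def A0 (N : ℕ) (ω : St n) (p : Vx n) : Prop :=
  TBad (Sq N ω) p ∨ (∃ s, (s + 1) ^ 2 < 2 * 10 ^ 16 * (ω.mr.filter fun y => ds p y ≤ s).card) ∨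
    ∃ b ∈ ω.fl, ds b.2 p ≤ 2 * tb b.1

def Clo (N : ℕ) (ω : St n) (A : Vx n → Prop) : Prop :=
  (∀ p, A0 N ω p → A p) ∧ ∀ k, ∀ p ∈ Lm N (mass N ω) k, A p → ∀ y, ds p y ≤ tb k → A y

open Classical in
noncomputable def Ast (N : ℕ) (ω : St n) : Finset (Vx n) :=
  univ.filter fun x => ∀ A, Clo N ω A → A x

structure Same (A : Finset (Vx n)) (ω ω' : St n) : Prop where
  pin : ω'.m (vz n) = 0
  S : ω'.S = ω.S
  mr : ω'.mr = ω.mr
  fl : ω'.fl = ω.fl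
  gr : ∀ e ∈ Ed n, e.1 ∈ A → gr ω'.m e = gr ω.m e

/-- the edge lies in a pin -/
def InPin (ρ : Vx n → ℕ) (e : Eg n) : Prop := ∃ z, 0 < ρ z ∧ ds z e.1 ≤ ρ z ∧ ds z e.2 ≤ ρ z

/-! ### membership -/

section mem
variable {N k : ℕ} {μ : Vx n → ℕ} {P : Finset (Vx n)} {x y : Vx n} {ω : St n}

lemma mem_sp : x ∈ sp μ ↔ μ x ≠ 0 := by simp [sp]
lemma mem_fam : P ∈ fam N μ k ↔ Cl N μ k P := by simp [fam]
lemma mem_low : y ∈ low N μ k ↔ ∃ j < k, ∃ P, Cl N μ j P ∧ y ∈ Og N μ P := by simp [low]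
lemma mem_XX : x ∈ XX N ω ↔ x ∈ ω.mr ∨ ∃ e ∈ oe x, e ∈ ω.S ∨ (N : ℤ) < |gr ω.m e| := by
  classical
  simp only [XX, mem_filter, mem_univ, true_and]
lemma mem_Ast : x ∈ Ast N ω ↔ ∀ A, Clo N ω A → A x := by simp [Ast]
lemma nm_mem (h : P.Nonempty) : nm P ∈ P := Classical.epsilon_spec (p := fun x => x ∈ P) h
lemma fk_val (h : k ≤ n) : (fk n k : ℕ) = k := min_eq_left h
lemma it_zero : it N 0 ω = ω := rfl
lemma it_succ : it N (k + 1) ω = Rk N k (it N k ω) := rfl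
lemma rm_empty : Rm N μ (n + 1) = ∅ :=
  Mono.rem_empty (Mono.lt_ra n).le fun _ => Or.inl (Mono.lt_ra n).le
lemma Cl.ne (h : Cl N μ k P) : P.Nonempty := IsCl.nonempty h
lemma Cl.nm (h : Cl N μ k P) : nm P ∈ P := nm_mem h.ne
lemma Cl.lm (h : Cl N μ k P) (hx : x ∈ P) : x ∈ Lm N μ k := IsCl.lv par_rb h hx
lemma Cl.rm (h : Cl N μ k P) (hx : x ∈ P) : x ∈ Rm N μ k := Mono.lv_rem (h.lm hx)
lemma Cl.pos (h : Cl N μ k P) (hx : x ∈ P) : μ x ≠ 0 := mem_sp.1 (Mono.rem_sub (h.rm hx))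
lemma Cl.dm (h : Cl N μ k P) : Dm k P := fun _ hp _ hq => IsCl.diam par_rb h hp hq
lemma Cl.far (h : Cl N μ k P) (hx : x ∈ P) (hy : y ∈ Rm N μ k) (hn : y ∉ P) : be k < ds x y :=
  isCl_far par_rb h hx hy hn
lemma Cl.uniq {j : ℕ} {Q : Finset (Vx n)} (h : Cl N μ k P) (h' : Cl N μ j Q) (hx : x ∈ P)
    (hx' : x ∈ Q) : k = j ∧ P = Q := IsCl.unique par_rb h h' hx hx'
lemma Cl.lev (h : Cl N μ k P) : k ≤ n := by
  by_contra hc
  have := Mono.rem_anti (show n + 1 ≤ k by omega) (h.rm h.nm)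
  rw [show Rem ra be (okM N μ) (sp μ) (n + 1) = ∅ from rm_empty] at this
  simp at this
lemma Cl.close (h : Cl N μ k P) (hx : x ∈ P) (hy : y ∈ Og N μ P) : ds x y + 5 ≤ 6 * ra k :=
  Og_close (by have := Mono.ra_pos k; omega) h.dm (IsCl.isOk h) hy hx
lemma exists_cl (hx : μ x ≠ 0) : ∃ k P, Cl N μ k P ∧ x ∈ P := by
  obtain ⟨j, -, h⟩ := Mono.exists_lv (rm_empty (N := N) (μ := μ)) (mem_sp.2 hx)
  obtain ⟨P, h1, h2⟩ := Mono.lv_exists_cl h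
  exact ⟨j, P, h1, h2⟩
lemma mass_ne : mass N ω x ≠ 0 ↔ ∃ e ∈ oe x, Dfe N ω e := by
  classical
  rw [mass, Ne, sum_eq_zero_iff]
  push Not
  refine exists_congr fun e => and_congr_right fun _ => ?_
  by_cases h : Dfe N ω e
  · have := h.2.2
    simp only [h, if_true, iff_true]
    rw [← Int.natCast_natAbs] at this
    omega
  · simp [h]
lemma mass_big (h : mass N ω x ≠ 0) : 4 * N < mass N ω x := by
  classical
  obtain ⟨e, he, hd⟩ := mass_ne.1 h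
  have h1 := single_le_sum (f := fun e => if Dfe N ω e then (gr ω.m e).natAbs else 0)
    (fun _ _ => Nat.zero_le _) he
  have := hd.2.2
  rw [← Int.natCast_natAbs] at this
  simp only [hd, if_true] at h1
  exact lt_of_lt_of_le (by omega) h1

lemma Om.down {j : ℕ} (h : Om N k ω) (hj : j ≤ k) : Om N j ω :=
  ⟨h.1, Subset.antisymm Mono.rem_sub (h.2 ▸ Mono.rem_anti hj)⟩
lemma Om.rm (h : Om N k ω) (hx : mass N ω x ≠ 0) : x ∈ Rm N (mass N ω) k := h.2 ▸ mem_sp.2 hx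
lemma Om.le {j : ℕ} (h : Om N k ω) (hc : Cl N (mass N ω) j P) : k ≤ j :=
  Mono.lv_le (h.rm (hc.pos hc.nm)) (hc.lm hc.nm)
lemma tbad_edge {F : Finset (Eg n)} {e : Eg n} (he : e ∈ Ed n) (hF : e ∈ F) : TBad F e.1 := by
  refine ⟨[e.2], e.2, ⟨Or.inl he, rfl⟩, ?_⟩
  have h1 : Ad F e.1 e.2 := Or.inl hF
  have h2 : 1 ≤ ds e.1 e.2 := ds_pos fun h => by rw [mem_Ed, h] at he; omega
  simp only [cst, stp, ofc, h1, if_true, List.map_cons, List.map_nil, List.sum_cons, List.sum_nil]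
  omega

end mem

/-! ### statements -/

/-- S3 -/
def FeasSt : Prop := ∀ (n N k : ℕ) (ω : St n) (P : Finset (Vx n)), 1 ≤ N → Om N k ω →
  Cl N (mass N ω) k P → Feas N (Og N (mass N ω) P) (Sq N ω) ω.m (dl N ω P)

/-- one repair step -/
structure Rep (N k : ℕ) (ω : St n) (F : Finset (Finset (Vx n))) : Prop where
  gr_off : ∀ e ∈ Ed n, (∀ P ∈ F, ¬ Tc (Og N (mass N ω) P) e) →
    gr (repF N ω k F).m e = gr ω.m e
  gr_on : ∀ e ∈ Ed n, ∀ P ∈ F, Tc (Og N (mass N ω) P) e →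
    gr (repF N ω k F).m e = gr ω.m e + gr (dl N ω P) e
  sq : Sq N (repF N ω k F) = Sq N ω
  mass_on : ∀ P ∈ F, ∀ x ∈ P, mass N (repF N ω k F) x = 0
  mass_off : ∀ x, (∀ P ∈ F, x ∉ P) → mass N (repF N ω k F) x = mass N ω x
  lm : ∀ j x, x ∈ Lm N (mass N (repF N ω k F)) j ↔ x ∈ Lm N (mass N ω) j ∧ ∀ P ∈ F, x ∉ P
  cl : ∀ j P, Cl N (mass N (repF N ω k F)) j P ↔ Cl N (mass N ω) j P ∧ P ∉ F
  om : Om N k (repF N ω k F)
  om1 : F = fam N (mass N ω) k → Om N (k + 1) (repF N ω k F)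
  comp : ∀ P ∈ F, repF N (repF N ω k {P}) k (F.erase P) = repF N ω k F
  keep : vz n ∉ (repF N ω k F).mr → vl n ∉ (repF N ω k F).mr →
    (repF N ω k F).m (vl n) = ω.m (vl n)

def RepSt : Prop := ∀ (n N k : ℕ) (ω : St n) (F : Finset (Finset (Vx n))), 1 ≤ N → Om N k ω →
  (∀ P ∈ F, Cl N (mass N ω) k P) → Rep N k ω F

/-- all repair steps -/
structure Itr (N : ℕ) (ω : St n) : Prop where
  om : ∀ k, Om N k (it N k ω)
  S : ∀ k, (it N k ω).S = ω.S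
  sq : ∀ k, Sq N (it N k ω) = Sq N ω
  mr : ∀ j k, j ≤ k → (it N j ω).mr ⊆ (it N k ω).mr
  cl : ∀ k j P, k ≤ j → (Cl N (mass N (it N k ω)) j P ↔ Cl N (mass N ω) j P)
  fl : ∀ k b, b ∈ (it N k ω).fl ↔
    b ∈ ω.fl ∨ ∃ j < k, ∃ P, Cl N (mass N ω) j P ∧ b = (fk n j, nm P)
  tru : Reg N (fin N ω) ∧ ∀ x, mass N (fin N ω) x = 0
  keep : vz n ∉ (fin N ω).mr → vl n ∉ (fin N ω).mr → (fin N ω).m (vl n) = ω.m (vl n)
  ast : ∀ x ∈ Ast N ω, A0 N (fin N ω) x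

def ItrSt : Prop := ∀ (n N : ℕ) (ω : St n), 1 ≤ N → Reg N ω → Itr N ω

/-- regular states have a positive finite weight, and the weight of a class factorises -/
def PosSt : Prop := ∀ (n : ℕ) (a : Pa) (ω : St n), a.H → 1 ≤ a.N ∧ nu a ω ≠ ⊤ ∧
  (Reg a.N ω → nu a ω ≠ 0) ∧ (∀ k, 0 < pF a k ∧ pF a k < 1) ∧
  ∀ A : Finset (Vx n), Reg a.N ω → (∀ e ∈ Ed n, e.1 ∉ A → ¬ Tc ω.mr e ∧ e ∉ ω.S) →
    ∃ K : ℝ≥0∞, K ≠ 0 ∧ K ≠ ⊤ ∧ ∀ ω', Same A ω ω' → nu a ω' = K * cw a.w0 A ω.m ω'.m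

/-- S4: the activity is local -/
def LocSt : Prop := ∀ (n : ℕ) (a : Pa) (k : ℕ) (σ σ' : St n) (P : Finset (Vx n)), a.H →
  Om a.N k σ → Om a.N k σ' → Agr a.N (nm P) (200 * ra k) σ σ' →
  (∀ p ∈ P, ∀ y, ds p y ≤ be k → (mass a.N σ' y = 0 ↔ mass a.N σ y = 0)) →
  ac a k σ' P = ac a k σ P

/-- S4: a level of repairs is local -/
def RlocSt : Prop := ∀ (n N k r : ℕ) (z : Vx n) (ω ω' : St n), 1 ≤ N → Om N k ω → Om N k ω' →
  Agr N z (r + 3 * be k) ω ω' → Agr N z r (Rk N k ω) (Rk N k ω')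

/-- S5, weights -/
def AcSt : Prop := ∀ (n : ℕ) (a : Pa) (k : ℕ) (σ : St n) (P : Finset (Vx n)), a.H →
  ENNReal.ofReal (pF a k) * pm a k σ P ≤ nu a σ * WW a k P

/-- S5: finite and small activities -/
def SmSt : Prop := ∀ (n : ℕ) (a : Pa) (k : ℕ) (σ : St n), a.H → Reg a.N σ →
  (∀ P, pm a k σ P = nu a σ * ENNReal.ofReal (ac a k σ P)) ∧ Sm (cf k) (ac a k σ) univ

/-- S6: one level has the structure of `Lvl` -/
def LvlSt : Prop := ∀ (n : ℕ) (a : Pa) (k : ℕ), a.H →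
  Lvl (cf k) (nu (n := n) a) (Om a.N k) (fun ω => fam a.N (mass a.N ω) k)
    (fun ω P => repF a.N ω k {P}) (Rk a.N k) (ac a k)

open Classical in
/-- S6, resummation -/
def ResSt : Prop := ∀ (n : ℕ) (a : Pa) (Φ : St n → ℝ≥0∞), a.H →
  ∑' ω, (if Reg a.N ω then nu a ω * gg a ω * Φ (fin a.N ω) else 0) = ∑' σ, nt a σ * Φ σ

/-- S7, structure of a class -/
def ClsSt : Prop := ∀ (n N : ℕ) (ω : St n), 1 ≤ N → Reg N ω →
  Clo N ω (fun x => x ∈ Ast N ω) ∧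
  (∀ e ∈ Ed n, e.1 ∉ Ast N ω → ¬ Tc ω.mr e ∧ e ∉ ω.S) ∧
  ∀ ω', Same (Ast N ω) ω ω' → Reg N ω' ∧ Sq N ω' = Sq N ω ∧ Ast N ω' = Ast N ω

/-- S7, the correction factor is constant on a class -/
def GgSt : Prop := ∀ (n : ℕ) (a : Pa) (ω ω' : St n), a.H → Reg a.N ω →
  Same (Ast a.N ω) ω ω' → gg a ω' = gg a ω

/-- S2 -/
def PinSt : Prop := ∀ (n N : ℕ) (σ : St n), 1 ≤ N → Reg N σ → (∀ x, mass N σ x = 0) →
  ∀ e ∈ Ed n, A0 N σ e.1 → InPin (rho0 (XX N σ) σ.fl) e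

/-- sums over true states -/
structure TruS (n : ℕ) (a : Pa) : Prop where
  tot : ∀ F : (Vx n → ℤ) → ℝ≥0∞, ∑' σ : St n, nt a σ * F σ.m = ∑' m, gw a.w m * F m
  mark : ∑' σ : St n, (if vz n ∈ σ.mr ∨ vl n ∈ σ.mr then nt a σ else 0) ≤
    ENNReal.ofReal (2 * a.e) * ∑' m, gw (n := n) a.w m
  swap : ∀ ψ : Finset (Vx n) → Finset (Fin (n + 1) × Vx n) → ℝ, (∀ A fl, 0 ≤ ψ A fl) →
    ∑' σ : St n, nt a σ * ENNReal.ofReal (∑ fl : Finset (Fin (n + 1) × Vx n),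
      pw (fun b => pF a b.1) fl * ψ (XX a.N σ) fl) =
    ∑' σ : St n, nt a σ * ENNReal.ofReal (ψ (XX a.N σ) σ.fl)

def TruSt : Prop := ∀ (n : ℕ) (a : Pa), a.H → TruS n a

def BudSt : Prop := ∀ (n : ℕ) (a : Pa) (C η : ℝ), a.H → 0 ≤ C → 0 ≤ η →
  Bud (gw (n := n) a.w) (Stp a.N) C η → Bud (nt (n := n) a) (XX a.N) C (η + a.e + 2 * a.ε)

end Pool.Agent.Lib.MP_9cc147_pr.AllU.S.G
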