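import Mathlib

/-! Section S6, abstract part: the signed hard core sum over compatible families. -/

open Finset

namespace Pool.Agent.Lib.MP_9cc147_pr.AllU.S

variable {ι : Type*} [DecidableEq ι] {cf : ι → ι → Prop} {a b : ι → ℝ} {U V F : Finset ι} {P : ι}

/-- distinct members of `F` are not in conflict -/
def Cpt (cf : ι → ι → Prop) (F : Finset ι) : Prop := ∀ P ∈ F, ∀ Q ∈ F, P ≠ Q → ¬ cf P Q

open Classical in
/-- members of `U` in conflict with no member of `F` -/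
noncomputable def off (cf : ι → ι → Prop) (U F : Finset ι) : Finset ι :=
  U.filter fun Q => ∀ P ∈ F, ¬ cf P Q

open Classical in
/-- hard core sum -/
noncomputable def ZZ (cf : ι → ι → Prop) (a : ι → ℝ) (U : Finset ι) : ℝ :=
  ∑ F ∈ U.powerset.filter (Cpt cf), ∏ P ∈ F, a P

/-- signed hard core sum -/
noncomputable def HH (cf : ι → ι → Prop) (a : ι → ℝ) (U : Finset ι) : ℝ := ZZ cf (fun P => -a P) U

omit [DecidableEq ι] in
lemma mem_off {Q : ι} : Q ∈ off cf U F ↔ Q ∈ U ∧ ∀ P ∈ F, ¬ cf P Q := by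
  classical
  simp only [off, mem_filter]

omit [DecidableEq ι] in
lemma off_sub : off cf U F ⊆ U := fun _ h => (mem_off.1 h).1

omit [DecidableEq ι] in
lemma Cpt.mono (h : Cpt cf F) (hV : V ⊆ F) : Cpt cf V := fun P hP Q hQ => h P (hV hP) Q (hV hQ)

omit [DecidableEq ι] in
lemma cpt_empty : Cpt cf ∅ := fun _ h => absurd h (notMem_empty _)

lemma cpt_insert (hs : ∀ P Q, cf P Q → cf Q P) (hP : P ∉ F) :
    Cpt cf (insert P F) ↔ Cpt cf F ∧ ∀ Q ∈ F, ¬ cf P Q := by
  refine ⟨fun h => ⟨h.mono (subset_insert _ _), fun Q hQ =>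
    h P (mem_insert_self _ _) Q (mem_insert_of_mem hQ) fun e => hP (e ▸ hQ)⟩, fun h x hx y hy ne => ?_⟩
  rcases mem_insert.1 hx with rfl | hx' <;> rcases mem_insert.1 hy with rfl | hy'
  · exact absurd rfl ne
  · exact h.2 y hy'
  · exact fun c => h.2 x hx' (hs _ _ c)
  · exact h.1 x hx' y hy' ne

open Classical in
omit [DecidableEq ι] in
lemma HH_eq : HH cf a U = ∑ F ∈ U.powerset.filter (Cpt cf), (-1) ^ F.card * ∏ P ∈ F, a P :=
  sum_congr rfl fun F _ => by rw [prod_neg]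

omit [DecidableEq ι] in
lemma ZZ_empty : ZZ cf a ∅ = 1 := by
  classical
  rw [ZZ, powerset_empty, filter_singleton, if_pos cpt_empty]
  simp

omit [DecidableEq ι] in
lemma HH_empty : HH cf a ∅ = 1 := ZZ_empty

omit [DecidableEq ι] in
lemma ZZ_congr (h : ∀ P ∈ U, a P = b P) : ZZ cf a U = ZZ cf b U := by
  classical
  exact sum_congr rfl fun _ hF => prod_congr rfl fun P hP =>
    h P (mem_powerset.1 (mem_filter.1 hF).1 hP)

omit [DecidableEq ι] in
lemma HH_congr (h : ∀ P ∈ U, a P = b P) : HH cf a U = HH cf b U :=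
  ZZ_congr fun P hP => by rw [h P hP]

omit [DecidableEq ι] in
/-- members with activity zero can be dropped -/
lemma ZZ_sub (hV : V ⊆ U) (h : ∀ P ∈ U, P ∉ V → a P = 0) : ZZ cf a U = ZZ cf a V := by
  classical
  refine (sum_subset (filter_subset_filter _ (powerset_mono.2 hV)) fun F hF hn => ?_).symm
  rw [mem_filter, mem_powerset] at hF hn
  obtain ⟨P, hP, hP'⟩ := not_subset.1 fun c => hn ⟨c, hF.2⟩
  exact prod_eq_zero hP (h P (hF.1 hP) hP')

omit [DecidableEq ι] in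
lemma HH_sub (hV : V ⊆ U) (h : ∀ P ∈ U, P ∉ V → a P = 0) : HH cf a U = HH cf a V :=
  ZZ_sub hV fun P hP hn => by rw [h P hP hn, neg_zero]

/-- locality in the most flexible form -/
lemma HH_local (h1 : ∀ P ∈ U, P ∉ V → a P = 0) (h2 : ∀ P ∈ V, P ∉ U → b P = 0)
    (h : ∀ P ∈ U, P ∈ V → a P = b P) : HH cf a U = HH cf b V := by
  rw [HH_sub (U := U) (V := U ∩ V) inter_subset_left
      fun P hP hn => h1 P hP fun c => hn (mem_inter.2 ⟨hP, c⟩),
    HH_sub (U := V) (V := U ∩ V) inter_subset_right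
      fun P hP hn => h2 P hP fun c => hn (mem_inter.2 ⟨c, hP⟩)]
  exact HH_congr fun P hP => h P (mem_inter.1 hP).1 (mem_inter.1 hP).2

lemma HH_ite (p : ι → Prop) [DecidablePred p] :
    HH cf (fun P => if p P then a P else 0) U = HH cf a (U.filter p) :=
  HH_local (fun _ hP hn => if_neg fun c => hn (mem_filter.2 ⟨hP, c⟩))
    (fun _ hP hn => absurd (mem_filter.1 hP).1 hn) fun _ _ hP => if_pos (mem_filter.1 hP).2

lemma ZZ_insert (hs : ∀ P Q, cf P Q → cf Q P) (hP : P ∉ U) :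
    ZZ cf a (insert P U) = ZZ cf a U + a P * ZZ cf a (off cf U {P}) := by
  classical
  unfold ZZ
  rw [sum_filter, sum_powerset_insert hP, ← sum_filter, ← sum_filter, mul_sum]
  congr 1
  refine sum_congr ?_ fun F hF => ?_
  · ext F
    simp only [mem_filter, mem_powerset]
    constructor
    · rintro ⟨h1, h2⟩
      rw [cpt_insert hs fun c => hP (h1 c)] at h2
      exact ⟨fun Q hQ => mem_off.2 ⟨h1 hQ, fun x hx => mem_singleton.1 hx ▸ h2.2 Q hQ⟩, h2.1⟩
    · rintro ⟨h1, h2⟩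
      have h3 : F ⊆ U := h1.trans off_sub
      exact ⟨h3, (cpt_insert hs fun c => hP (h3 c)).2
        ⟨h2, fun Q hQ => (mem_off.1 (h1 hQ)).2 P (mem_singleton_self _)⟩⟩
  · exact prod_insert fun c => hP (off_sub (mem_powerset.1 (mem_filter.1 hF).1 c))

lemma HH_insert (hs : ∀ P Q, cf P Q → cf Q P) (hP : P ∉ U) :
    HH cf a (insert P U) = HH cf a U - a P * HH cf a (off cf U {P}) := by
  unfold HH
  rw [ZZ_insert hs hP]; ring

open Classical in
/-- splitting a compatible family in two parts -/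
lemma ZZ_add (hs : ∀ P Q, cf P Q → cf Q P) (hr : ∀ P, cf P P) :
    ZZ cf (fun P => a P + b P) U =
      ∑ F ∈ U.powerset.filter (Cpt cf), (∏ P ∈ F, a P) * ZZ cf b (off cf U F) := by
  unfold ZZ
  simp_rw [prod_add, mul_sum]
  rw [sum_sigma', sum_sigma']
  refine sum_nbij' (fun x => ⟨x.2, x.1 \ x.2⟩) (fun y => ⟨y.1 ∪ y.2, y.1⟩) ?_ ?_ ?_ ?_ ?_
  · rintro ⟨G, F⟩ h
    simp only [mem_sigma, mem_filter, mem_powerset] at h ⊢
    refine ⟨⟨h.2.trans h.1.1, h.1.2.mono h.2⟩, fun Q hQ => ?_, h.1.2.mono sdiff_subset⟩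
    rw [mem_sdiff] at hQ
    exact mem_off.2 ⟨h.1.1 hQ.1, fun x hx => h.1.2 x (h.2 hx) Q hQ.1 fun e => hQ.2 (e ▸ hx)⟩
  · rintro ⟨F, G⟩ h
    simp only [mem_sigma, mem_filter, mem_powerset] at h ⊢
    refine ⟨⟨union_subset h.1.1 (h.2.1.trans off_sub), fun x hx y hy ne => ?_⟩, subset_union_left⟩
    rcases mem_union.1 hx with hx | hx <;> rcases mem_union.1 hy with hy | hy
    · exact h.1.2 x hx y hy ne
    · exact (mem_off.1 (h.2.1 hy)).2 x hx
    · exact fun c => (mem_off.1 (h.2.1 hx)).2 y hy (hs _ _ c)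
    · exact h.2.2 x hx y hy ne
  · rintro ⟨G, F⟩ h
    simp only [mem_sigma, mem_filter, mem_powerset] at h
    simp only [union_sdiff_of_subset h.2]
  · rintro ⟨F, G⟩ h
    simp only [mem_sigma, mem_filter, mem_powerset] at h
    have : Disjoint F G := disjoint_left.2 fun x hx c => (mem_off.1 (h.2.1 c)).2 x hx (hr x)
    simp only [union_sdiff_cancel_left this]
  · rintro ⟨G, F⟩ _
    rfl

open Classical in
/-- the resummation identity -/
theorem sum_HH (hs : ∀ P Q, cf P Q → cf Q P) (hr : ∀ P, cf P P) :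
    ∑ F ∈ U.powerset.filter (Cpt cf), (∏ P ∈ F, a P) * HH cf a (off cf U F) = 1 := by
  have h := ZZ_add (a := a) (b := fun P => -a P) (U := U) hs hr
  unfold HH
  rw [← h, ZZ_sub (empty_subset U) fun P _ _ => add_neg_cancel _, ZZ_empty]

open Classical in
/-- small activities -/
def Sm (cf : ι → ι → Prop) (a : ι → ℝ) (U : Finset ι) : Prop :=
  (∀ P ∈ U, 0 ≤ a P) ∧ ∀ P ∈ U, ∑ Q ∈ U.filter (cf P), a Q ≤ 1 / 4

omit [DecidableEq ι] in
lemma Sm.mono (h : Sm cf a U) (hV : V ⊆ U) : Sm cf a V := by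
  classical
  refine ⟨fun P hP => h.1 P (hV hP), fun P hP => le_trans ?_ (h.2 P (hV hP))⟩
  exact sum_le_sum_of_subset_of_nonneg (filter_subset_filter _ hV)
    fun Q hQ _ => h.1 Q (mem_filter.1 hQ).1

omit [DecidableEq ι] in
lemma Sm.le (hr : ∀ P, cf P P) (h : Sm cf a U) (hP : P ∈ U) : a P ≤ 1 / 4 := by
  classical
  exact le_trans (single_le_sum (f := a) (fun Q hQ => h.1 Q (mem_filter.1 hQ).1)
    (mem_filter.2 ⟨hP, hr P⟩)) (h.2 P hP)

lemma key (hs : ∀ P Q, cf P Q → cf Q P) (hr : ∀ P, cf P P) (k : ℕ) :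
    ∀ U : Finset ι, U.card = k → Sm cf a U → 0 < HH cf a U ∧
      ∀ V ⊆ U, (1 - 2 * ∑ Q ∈ U \ V, a Q) * HH cf a V ≤ HH cf a U := by
  classical
  induction k using Nat.strong_induction_on with
  | _ k ih =>
  intro U hU hS
  have one : ∀ P ∈ U, (1 - 2 * a P) * HH cf a (U.erase P) ≤ HH cf a U := by
    intro P hP
    have hc : (U.erase P).card < k := hU ▸ card_erase_lt_of_mem hP
    have hS' := hS.mono (erase_subset P U)
    obtain ⟨-, h2⟩ := ih _ hc _ rfl hS'
    have h3 := h2 (off cf (U.erase P) {P}) off_sub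
    have h4 := (ih _ (lt_of_le_of_lt (card_le_card off_sub) hc) (off cf (U.erase P) {P}) rfl
      (hS'.mono off_sub)).1
    have h5 : ∑ Q ∈ U.erase P \ off cf (U.erase P) {P}, a Q ≤ 1 / 4 := by
      refine le_trans (sum_le_sum_of_subset_of_nonneg (fun Q hQ => ?_)
        fun Q hQ _ => hS.1 Q (mem_filter.1 hQ).1) (hS.2 P hP)
      rw [mem_sdiff, mem_off] at hQ
      refine mem_filter.2 ⟨mem_of_mem_erase hQ.1, by_contra fun c => hQ.2 ⟨hQ.1, fun x hx => ?_⟩⟩
      rwa [mem_singleton.1 hx]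
    have h6 := HH_insert (a := a) hs (notMem_erase P U)
    rw [insert_erase hP] at h6
    have h7 := hS.1 P hP
    have h8 : HH cf a (off cf (U.erase P) {P}) ≤ 2 * HH cf a (U.erase P) := by nlinarith
    nlinarith [mul_le_mul_of_nonneg_left h8 h7]
  have pos : 0 < HH cf a U := by
    rcases U.eq_empty_or_nonempty with rfl | ⟨P, hP⟩
    · rw [HH_empty]; exact one_pos
    · have h1 := (ih _ (hU ▸ card_erase_lt_of_mem hP) _ rfl (hS.mono (erase_subset P U))).1
      have h2 := hS.le hr hP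
      exact lt_of_lt_of_le (mul_pos (by linarith) h1) (one P hP)
  refine ⟨pos, fun V hV => ?_⟩
  rcases (U \ V).eq_empty_or_nonempty with e | ⟨P, hP⟩
  · rw [e, Subset.antisymm hV (sdiff_eq_empty_iff_subset.1 e)]; simp
  · have hP' := mem_sdiff.1 hP
    have hc : (U.erase P).card < k := hU ▸ card_erase_lt_of_mem hP'.1
    have hV' : V ⊆ U.erase P := fun x hx => mem_erase.2 ⟨fun e => hP'.2 (e ▸ hx), hV hx⟩
    obtain ⟨h1, h2⟩ := ih _ hc _ rfl (hS.mono (erase_subset P U))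
    have h3 := h2 V hV'
    have h4 := (ih _ (lt_of_le_of_lt (card_le_card hV') hc) V rfl (hS.mono hV)).1
    have h5 : ∑ Q ∈ U \ V, a Q = a P + ∑ Q ∈ U.erase P \ V, a Q := by
      rw [← add_sum_erase _ _ hP, erase_sdiff_comm]
    have h6 : 0 ≤ ∑ Q ∈ U.erase P \ V, a Q :=
      sum_nonneg fun Q hQ => hS.1 Q (mem_of_mem_erase (mem_sdiff.1 hQ).1)
    have h7 := hS.1 P hP'.1
    have h8 := hS.le hr hP'.1
    have h9 := mul_le_mul_of_nonneg_left h3 (by linarith : 0 ≤ 1 - 2 * a P)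
    rw [h5]
    nlinarith [one P hP'.1, mul_nonneg (mul_nonneg h7 h6) h4.le]

theorem HH_pos (hs : ∀ P Q, cf P Q → cf Q P) (hr : ∀ P, cf P P) (h : Sm cf a U) : 0 < HH cf a U :=
  (key hs hr _ U rfl h).1

theorem HH_ge (hs : ∀ P Q, cf P Q → cf Q P) (hr : ∀ P, cf P P) (h : Sm cf a U) (hV : V ⊆ U) :
    (1 - 2 * ∑ Q ∈ U \ V, a Q) * HH cf a V ≤ HH cf a U := (key hs hr _ U rfl h).2 V hV

theorem HH_anti (hs : ∀ P Q, cf P Q → cf Q P) (hr : ∀ P, cf P P) (h : Sm cf a U) (hV : V ⊆ U) :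
    HH cf a U ≤ HH cf a V := by
  have aux : ∀ k : ℕ, ∀ W ⊆ U, V ⊆ W → (W \ V).card = k → HH cf a W ≤ HH cf a V := by
    intro k
    induction k with
    | zero =>
      intro W _ h2 h3
      rw [Subset.antisymm h2 (sdiff_eq_empty_iff_subset.1 (card_eq_zero.1 h3))]
    | succ k ihk =>
      intro W h1 h2 h3
      obtain ⟨Q, hQ⟩ := card_pos.1 (by omega : 0 < (W \ V).card)
      have hQ' := mem_sdiff.1 hQ
      have h4 := ihk (W.erase Q) ((erase_subset _ _).trans h1)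
        (fun x hx => mem_erase.2 ⟨fun e => hQ'.2 (e ▸ hx), h2 hx⟩)
        (by rw [erase_sdiff_comm, card_erase_of_mem hQ, h3]; rfl)
      have h5 := HH_insert (a := a) hs (notMem_erase Q W)
      rw [insert_erase hQ'.1] at h5
      have h6 := HH_pos hs hr (h.mono ((off_sub (F := {Q}) (cf := cf)).trans
        ((erase_subset Q W).trans h1)))
      nlinarith [mul_nonneg (h.1 Q (h1 hQ'.1)) h6.le]
  exact aux _ _ Subset.rfl hV rfl

theorem HH_le_one (hs : ∀ P Q, cf P Q → cf Q P) (hr : ∀ P, cf P P) (h : Sm cf a U) :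
    HH cf a U ≤ 1 := HH_empty (cf := cf) (a := a) ▸ HH_anti hs hr h (empty_subset U)

end Pool.Agent.Lib.MP_9cc147_pr.AllU.S
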