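import Pool.Agent.Lib.MP_9cc147_pr.U.SDefs

/-! Section S5: the activities are finite and small. -/

open Finset
open scoped ENNReal

namespace Pool.Agent.Lib.MP_9cc147_pr.AllU.S.G

open Mono (ra be tb aa)

namespace Sml

variable {n : ℕ}

lemma scale (k : ℕ) : ra k + be k + ra k ≤ tb k := by
  have h1 : ra k ≤ be k := rr_mono (by omega)
  have h2 : tb k = 64 * be k := rr_succ _
  omega

lemma near {k : ℕ} {P Q : Finset (Vx n)} (h : cf k P Q) : ds (nm P) (nm Q) ≤ tb k := by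
  rcases h with rfl | ⟨h1, h2, x, hx, y, hy, h3⟩
  · simp [ds]
  · have a := h1 _ (nm_mem ⟨x, hx⟩) x hx
    have b := h2 y hy _ (nm_mem ⟨y, hy⟩)
    have c := ds_tri (nm P) x (nm Q)
    have d := ds_tri x y (nm Q)
    have := scale k
    omega

open Classical in
lemma sum_WW (hNet : NetStmt) {a : Pa} (h : a.H) (k : ℕ) (P : Finset (Vx n)) :
    ∑ Q ∈ univ.filter (cf k P), WW a k Q ≤ (64 : ℝ≥0∞)⁻¹ ^ ((a.Y + 14) * aa k) := by
  refine le_trans ?_ (conf_sum hNet h.bN h.bNN k (nm P) nm)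
  refine le_trans (sum_le_sum fun Q hQ => ?_) (sum_le_sum_of_subset (filter_subset _ _))
  refine ENNReal.tsum_le_tsum fun μ => ?_
  split_ifs with c d
  · exact le_rfl
  · exact absurd ⟨c.1, c.2, near (mem_filter.1 hQ).2⟩ d
  · exact zero_le
  · exact le_rfl

lemma pF_eq (a : Pa) (k : ℕ) : ENNReal.ofReal (pF a k) = (64 : ℝ≥0∞)⁻¹ ^ (a.Y * aa k) := by
  rw [pF, ENNReal.ofReal_pow (by norm_num), one_div, ENNReal.ofReal_inv_of_pos (by norm_num)]
  simp

lemma quarter (k : ℕ) : (64 : ℝ≥0∞)⁻¹ ^ (14 * aa k) ≤ ENNReal.ofReal (1 / 4) := by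
  have h : 14 * aa k ≠ 0 := by
    have : 1000 ≤ aa k := by
      induction k with
      | zero => exact le_rfl
      | succ k ih => exact ih.trans (Nat.le_add_right _ _)
    omega
  refine (pow_le_of_le_one zero_le (by simp) h).trans ?_
  rw [one_div, ENNReal.ofReal_inv_of_pos (by norm_num)]
  simp only [ENNReal.ofReal_ofNat, ENNReal.inv_le_inv]
  norm_num

end Sml

open Sml in
theorem smSt : NetStmt → AcSt → PosSt → SmSt := by
  classical
  intro hNet hAc hPos n a k σ h hσ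
  obtain ⟨-, p1, p2, -, -⟩ := hPos n a σ h
  have p3 := p2 hσ
  have q0 : (64 : ℝ≥0∞)⁻¹ ^ (a.Y * aa k) ≠ 0 := pow_ne_zero _ (by simp)
  have q1 : (64 : ℝ≥0∞)⁻¹ ^ (a.Y * aa k) ≠ ⊤ := ENNReal.pow_ne_top (by simp)
  have key : ∀ P, ∑ Q ∈ univ.filter (cf k P), pm a k σ Q / nu a σ ≤ ENNReal.ofReal (1 / 4) := by
    intro P
    refine le_trans ?_ (quarter k)
    rw [← ENNReal.mul_le_mul_iff_right q0 q1, ← pow_add, ← add_mul, mul_sum]
    refine le_trans (sum_le_sum fun Q _ => ?_) (sum_WW hNet h k P)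
    rw [← pF_eq, ← mul_div_assoc, ENNReal.div_le_iff p3 p1, mul_comm (WW a k Q)]
    exact hAc n a k σ Q h
  have fin : ∀ P, pm a k σ P / nu a σ ≠ ⊤ := fun P =>
    ne_top_of_le_ne_top ENNReal.ofReal_ne_top ((single_le_sum (f := fun Q => pm a k σ Q / nu a σ)
      (fun _ _ => zero_le) (mem_filter.2 ⟨mem_univ P, Or.inl rfl⟩)).trans (key P))
  refine ⟨fun P => ?_, fun P _ => ENNReal.toReal_nonneg, fun P _ => ?_⟩
  · rw [ac, ENNReal.ofReal_toReal (fin P), ENNReal.mul_div_cancel p3 p1]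
  · unfold ac
    rw [← ENNReal.toReal_sum fun Q _ => fin Q]
    exact ENNReal.toReal_le_of_le_ofReal (by norm_num) (key P)

end Pool.Agent.Lib.MP_9cc147_pr.AllU.S.G
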