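import Pool.Agent.Lib.MP_9cc147_pr.U.Defs

/-! Spring, real part: theta sums on the fibres of the sum map. -/

open Finset MeasureTheory
open scoped ENNReal

namespace Pool.Agent.Lib.MP_9cc147_pr.AllU.Spr

/-- Gaussian weight of a lattice point -/
noncomputable def Fk {K I : Type} [Fintype K] [Fintype I] (y : I → K → ℝ) (v : K → ℝ)
    (k : I → ℤ) : ℝ := Real.exp (-(∑ j, (v j + ∑ t, (k t : ℝ) * y t j) ^ 2) / 2)

/-- theta sum over the lattice points with coordinate sum `n` -/
noncomputable def Th {K I : Type} [Fintype K] [Fintype I] (y : I → K → ℝ) (v : K → ℝ)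
    (n : ℤ) : ℝ := ∑' k : I → ℤ, if ∑ t, k t = n then Fk y v k else 0

namespace ThA

theorem summable_gauss (a e : ℝ) (he : 0 < e) :
    Summable fun n : ℤ => Real.exp (-(a + n * e) ^ 2 / 2) := by
  have h0 : Summable fun n : ℕ => Real.exp (|a| + 1 / 2) * Real.exp (n * -e) :=
    (Real.summable_exp_nat_mul_iff.2 (by linarith)).mul_left _
  have h1 := le_abs_self a
  have h2 := neg_abs_le a
  refine Summable.of_nat_of_neg ?_ ?_
  · refine Summable.of_nonneg_of_le (fun n => (Real.exp_pos _).le) (fun n => ?_) h0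
    rw [← Real.exp_add, Real.exp_le_exp]
    push_cast
    nlinarith [sq_nonneg (a + n * e - 1)]
  · refine Summable.of_nonneg_of_le (fun n => (Real.exp_pos _).le) (fun n => ?_) h0
    rw [← Real.exp_add, Real.exp_le_exp]
    push_cast
    nlinarith [sq_nonneg (a + -(n : ℝ) * e + 1)]

theorem summable_pi {I : Type} [Fintype I] (g : I → ℤ → ℝ) (h0 : ∀ t n, 0 ≤ g t n)
    (hs : ∀ t, Summable (g t)) : Summable fun k : I → ℤ => ∏ t, g t (k t) := by
  classical
  refine summable_of_sum_le (c := ∏ t, ∑' n, g t n) (fun k => prod_nonneg fun t _ => h0 t _)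
    fun s => ?_
  have h1 : s ⊆ Fintype.piFinset fun t => s.image fun k => k t := fun k hk =>
    Fintype.mem_piFinset.2 fun t => mem_image_of_mem _ hk
  refine (sum_le_sum_of_subset_of_nonneg h1 fun k _ _ => prod_nonneg fun t _ => h0 t _).trans ?_
  rw [← prod_univ_sum]
  exact prod_le_prod (fun t _ => sum_nonneg fun n _ => h0 t n)
    fun t _ => (hs t).sum_le_tsum _ fun n _ => h0 t n

variable {K I : Type} [Fintype K] [Fintype I]

theorem Fk_pos (y : I → K → ℝ) (v : K → ℝ) (k : I → ℤ) : 0 < Fk y v k := Real.exp_pos _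

theorem summable_Fk [DecidableEq I] (y : I → K → ℝ) (e : ℝ) (κ : I → K) (he : 0 < e)
    (hκ : ∀ t t', y t (κ t') = if t = t' then e else 0) (v : K → ℝ) : Summable (Fk y v) := by
  classical
  have hinj : Function.Injective κ := by
    intro t t' h
    have h1 := hκ t t
    rw [h, hκ t t', if_pos rfl] at h1
    by_contra hne
    rw [if_neg hne] at h1
    exact he.ne h1
  refine Summable.of_nonneg_of_le (fun k => (Fk_pos y v k).le) (fun k => ?_)
    (summable_pi (fun t n => Real.exp (-(v (κ t) + n * e) ^ 2 / 2)) (fun _ _ => (Real.exp_pos _).le)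
      fun t => summable_gauss _ e he)
  rw [← Real.exp_sum, Fk, Real.exp_le_exp, ← sum_div, sum_neg_distrib]
  have h1 : ∑ t, (v (κ t) + k t * e) ^ 2 =
      ∑ j ∈ univ.image κ, (v j + ∑ t, (k t : ℝ) * y t j) ^ 2 := by
    rw [sum_image fun a _ b _ h => hinj h]
    refine sum_congr rfl fun t _ => ?_
    simp [hκ]
  have h2 : ∑ j ∈ univ.image κ, (v j + ∑ t, (k t : ℝ) * y t j) ^ 2 ≤
      ∑ j, (v j + ∑ t, (k t : ℝ) * y t j) ^ 2 :=
    sum_le_sum_of_subset_of_nonneg (subset_univ _) fun j _ _ => sq_nonneg _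
  linarith

theorem hasSum_Th {y : I → K → ℝ} {v : K → ℝ} (hs : Summable (Fk y v)) (n : ℤ) :
    HasSum (fun k : I → ℤ => if ∑ t, k t = n then Fk y v k else 0) (Th y v n) := by
  refine Summable.hasSum (Summable.of_nonneg_of_le (fun k => ?_) (fun k => ?_) hs)
  · split_ifs
    · exact (Fk_pos y v k).le
    · exact le_rfl
  · split_ifs
    · exact le_rfl
    · exact (Fk_pos y v k).le

theorem hasSum_shift {y : I → K → ℝ} {v : K → ℝ} (hs : Summable (Fk y v)) (n m : ℤ) (d : I → ℤ)
    (hd : ∑ t, d t + m = n) :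
    HasSum (fun k : I → ℤ => if ∑ t, k t = n then Fk y v (k - d) else 0) (Th y v m) := by
  have h := (Equiv.subRight d).hasSum_iff.2 (hasSum_Th hs m)
  refine h.congr_fun fun k => ?_
  have h1 : (∑ t, (k - d) t = m) ↔ ∑ t, k t = n := by
    simp only [Pi.sub_apply, sum_sub_distrib]
    omega
  simp only [Function.comp_apply, Equiv.subRight_apply, h1]

theorem lin_single [DecidableEq I] (y : I → K → ℝ) (k : I → ℤ) (s : I) (j : K) :
    ∑ t, ((k - Pi.single s 1 : I → ℤ) t : ℝ) * y t j = ∑ t, (k t : ℝ) * y t j - y s j := by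
  simp [sub_mul, sum_sub_distrib, Pi.single_apply]

theorem Fk_mul [DecidableEq I] (y : I → K → ℝ) (v : K → ℝ) (k : I → ℤ) (s t : I) :
    Fk y v (k - Pi.single s 1) * Fk y v (k - Pi.single t 1) =
      Fk y v k * (Real.exp (∑ j, y s j * y t j) * Fk y v (k - (Pi.single s 1 + Pi.single t 1))) := by
  rw [← sub_sub]
  simp only [Fk, lin_single, ← Real.exp_add]
  congr 1
  simp only [neg_div, sum_div, ← sum_neg_distrib, ← sum_add_distrib]
  exact sum_congr rfl fun j _ => by ring

end ThA

open ThA in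
theorem th_facts {K I : Type} [Fintype K] [Fintype I] [Nonempty I] [DecidableEq I]
    (y : I → K → ℝ) (e b : ℝ) (κ : I → K) (he : 0 < e)
    (hκ : ∀ t t', y t (κ t') = if t = t' then e else 0)
    (hb : ∑ t, ∑ t', Real.exp (∑ j, y t j * y t' j) ≤ (Fintype.card I : ℝ) ^ 2 * Real.exp b) :
    (∀ v n, ENNReal.ofReal (Th y v n)
      = ∑' k : I → ℤ, if ∑ t, k t = n then ENNReal.ofReal (Fk y v k) else 0) ∧
    (∀ v n, 0 < Th y v n) ∧ (∀ n, Measurable fun v => Th y v n) ∧
    ∀ v n, Th y v n ^ 2 ≤ Real.exp b * Th y v (n + 1) * Th y v (n - 1) := by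
  have hs := summable_Fk y e κ he hκ
  have hnn : ∀ v n (k : I → ℤ), 0 ≤ if ∑ t, k t = n then Fk y v k else 0 := fun v n k => by
    split_ifs
    · exact (Fk_pos y v k).le
    · exact le_rfl
  have h1 : ∀ v n, ENNReal.ofReal (Th y v n)
      = ∑' k : I → ℤ, if ∑ t, k t = n then ENNReal.ofReal (Fk y v k) else 0 := by
    intro v n
    rw [Th, ENNReal.ofReal_tsum_of_nonneg (hnn v n) (hasSum_Th (hs v) n).summable]
    refine tsum_congr fun k => ?_
    split_ifs <;> simp
  have h2 : ∀ v n, 0 < Th y v n := by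
    intro v n
    obtain ⟨t0⟩ := ‹Nonempty I›
    refine (hasSum_Th (hs v) n).summable.tsum_pos (hnn v n) (Pi.single t0 n) ?_
    rw [if_pos (by simp)]
    exact Fk_pos y v _
  refine ⟨h1, h2, fun n => ?_, fun v n => ?_⟩
  · have e1 : (fun v => Th y v n) = fun v => (∑' k : I → ℤ,
        if ∑ t, k t = n then ENNReal.ofReal (Fk y v k) else 0).toReal := by
      funext v
      rw [← h1, ENNReal.toReal_ofReal (h2 v n).le]
    rw [e1]
    refine (Measurable.ennreal_tsum fun k => ?_).ennreal_toReal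
    split_ifs
    · refine Measurable.ennreal_ofReal ?_
      unfold Fk
      fun_prop
    · exact measurable_const
  · have hN : (0 : ℝ) < Fintype.card I := Nat.cast_pos.2 Fintype.card_pos
    set x : ℝ := Fintype.card I * Th y v n / Th y v (n + 1) with hx
    have hx0 : 0 < x := div_pos (mul_pos hN (h2 v n)) (h2 v _)
    have a1 : HasSum (fun k : I → ℤ => ∑ s : I,
        if ∑ t, k t = n + 1 then Fk y v (k - Pi.single s 1) else 0) (∑ _s : I, Th y v n) :=
      hasSum_sum fun s _ => hasSum_shift (hs v) (n + 1) n _ (by simp [add_comm])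
    have a2 : HasSum (fun k : I → ℤ => ∑ s : I, ∑ t : I, Real.exp (∑ j, y s j * y t j) *
        if ∑ t, k t = n + 1 then Fk y v (k - (Pi.single s 1 + Pi.single t 1)) else 0)
        (∑ s : I, ∑ t : I, Real.exp (∑ j, y s j * y t j) * Th y v (n - 1)) :=
      hasSum_sum fun s _ => hasSum_sum fun t _ =>
        (hasSum_shift (hs v) (n + 1) (n - 1) _ (by simp [sum_add_distrib]; ring)).mul_left _
    have a3 := hasSum_le (fun k => ?_) (a1.mul_left 2)
      (((hasSum_Th (hs v) (n + 1)).mul_left x).add (a2.mul_left x⁻¹))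
    · simp only [sum_const, card_univ, nsmul_eq_mul, ← sum_mul] at a3
      have a4 : x * Th y v (n + 1) = Fintype.card I * Th y v n := div_mul_cancel₀ _ (h2 v _).ne'
      have a5 := mul_le_mul_of_nonneg_right hb (h2 v (n - 1)).le
      have a6 : Fintype.card I * Th y v n ≤
          x⁻¹ * ((Fintype.card I : ℝ) ^ 2 * Real.exp b * Th y v (n - 1)) := by
        have := mul_le_mul_of_nonneg_left a5 (inv_pos.2 hx0).le
        linarith
      rw [le_inv_mul_iff₀ hx0, hx, div_mul_eq_mul_div, div_le_iff₀ (h2 v _)] at a6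
      have a7 : (Fintype.card I : ℝ) ^ 2 * Th y v n ^ 2 ≤
          (Fintype.card I : ℝ) ^ 2 * (Real.exp b * Th y v (n + 1) * Th y v (n - 1)) := by
        nlinarith
      exact le_of_mul_le_mul_left a7 (by positivity)
    · by_cases hk : ∑ t, k t = n + 1
      · simp only [if_pos hk]
        set a : ℝ := ∑ s : I, Fk y v (k - Pi.single s 1) with ha
        set c : ℝ := ∑ s : I, ∑ t : I, Real.exp (∑ j, y s j * y t j) *
          Fk y v (k - (Pi.single s 1 + Pi.single t 1)) with hc
        have b1 : a * a = Fk y v k * c := by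
          rw [ha, hc, sum_mul_sum, mul_sum]
          refine sum_congr rfl fun s _ => ?_
          rw [mul_sum]
          exact sum_congr rfl fun t _ => Fk_mul y v k s t
        have hF := Fk_pos y v k
        have b2 : 0 < x * Fk y v k := mul_pos hx0 hF
        have b3 : x⁻¹ * c = a * a / (x * Fk y v k) := by
          rw [b1]; field_simp
        rw [b3, ← sub_le_iff_le_add', le_div_iff₀ b2]
        nlinarith [sq_nonneg (a - x * Fk y v k)]
      · simp [if_neg hk]

end Pool.Agent.Lib.MP_9cc147_pr.AllU.Spr
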