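import Pool.Agent.Lib.MP_9cc147_pr.U.Defs

/-! Spring, measure part: pushing an invariant measure with densities, unfolding a lattice. -/

open Finset MeasureTheory
open scoped ENNReal

namespace Pool.Agent.Lib.MP_9cc147_pr.AllU.Spr

variable {L Y : Type} [Fintype L] [Fintype Y]

theorem m_gam : Measurable fun y : L → ℝ => gam y := by
  unfold gam
  fun_prop

theorem gam_sum (x : L → ℝ) (v : Y → ℝ) : gam (Sum.elim x v) = gam x * gam v := by
  unfold gam
  rw [← ENNReal.ofReal_mul (Real.exp_pos _).le, ← Real.exp_add, Fintype.sum_sum_type]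
  congr 2
  simp only [Sum.elim_inl, Sum.elim_inr]
  ring

theorem gam_opt (z : ℝ) (x : L → ℝ) :
    gam (fun o : Option L => o.elim z x) = ENNReal.ofReal (Real.exp (-z ^ 2 / 2)) * gam x := by
  unfold gam
  rw [← ENNReal.ofReal_mul (Real.exp_pos _).le, ← Real.exp_add, Fintype.sum_option]
  congr 2
  simp only [Option.elim]
  ring

theorem lint_shift {ν : Measure ((L → ℝ) × ℝ)} {g : (L → ℝ) × ℝ}
    (h : ν.map (fun p => p + g) = ν) {f : (L → ℝ) × ℝ → ℝ≥0∞} (hf : Measurable f) :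
    ∫⁻ p, f (p + g) ∂ν = ∫⁻ p, f p ∂ν := by
  conv_rhs => rw [← h]
  rw [lintegral_map hf (measurable_add_const g)]

/-- the shifts that preserve a measure -/
def stab (ν : Measure ((L → ℝ) × ℝ)) : AddSubgroup ((L → ℝ) × ℝ) where
  carrier := {g | ν.map (fun p => p + g) = ν}
  zero_mem' := by simp
  add_mem' := by
    intro a b ha hb
    have ha' : ν.map (fun p => p + a) = ν := ha
    have hb' : ν.map (fun p => p + b) = ν := hb
    show ν.map (fun p => p + (a + b)) = ν
    conv_rhs => rw [← hb', ← ha']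
    rw [Measure.map_map (measurable_add_const b) (measurable_add_const a)]
    congr 1
    funext p
    simp [add_assoc]
  neg_mem' := by
    intro a ha
    have ha' : ν.map (fun p => p + a) = ν := ha
    show ν.map (fun p => p + -a) = ν
    conv_lhs => rw [← ha']
    rw [Measure.map_map (measurable_add_const _) (measurable_add_const a)]
    have : ((fun p : (L → ℝ) × ℝ => p + -a) ∘ fun p => p + a) = id := by
      funext p
      simp
    rw [this, Measure.map_id]

/-- `Dom` applied to a countable family of weighted images of `ν` -/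
theorem dom_push {lam d : ℝ} {G : Set ((Y → ℝ) × ℝ)} (hD : Dom lam G d)
    (ν : Measure ((L → ℝ) × ℝ)) [SFinite ν] {J : Type} [Countable J]
    (F : J → (L → ℝ) × ℝ → ℝ≥0∞) (T : J → (L → ℝ) × ℝ → Y → ℝ) (hF : ∀ j, Measurable (F j))
    (hT : ∀ j, Measurable (T j))
    (hG : ∀ g ∈ G, ∃ a : (L → ℝ) × ℝ, ν.map (fun p => p + a) = ν ∧ a.2 = g.2 ∧ ∃ σ : J ≃ J,
      ∀ j p, F (σ j) (p + a) = F j p ∧ T (σ j) (p + a) = T j p + g.1)
    (hfin : ∫⁻ p, ∑' j, F j p * gam (T j p) ∂ν ≠ ⊤) :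
    ENNReal.ofReal (1 - d) * ∫⁻ p, ∑' j, F j p * gam (T j p) ∂ν ≤
      ∫⁻ p, ENNReal.ofReal (1 - Real.cos (lam * p.2)) * ∑' j, F j p * gam (T j p) ∂ν := by
  have hP : ∀ j, Measurable fun p : (L → ℝ) × ℝ => (T j p, p.2) := fun j =>
    (hT j).prodMk measurable_snd
  set ν' : Measure ((Y → ℝ) × ℝ) :=
    Measure.sum fun j => (ν.withDensity (F j)).map fun p => (T j p, p.2) with hν'
  have key : ∀ h : (Y → ℝ) × ℝ → ℝ≥0∞, Measurable h →
      ∫⁻ q, h q ∂ν' = ∫⁻ p, ∑' j, F j p * h (T j p, p.2) ∂ν := by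
    intro h hh
    have m1 : ∀ j, Measurable fun p : (L → ℝ) × ℝ => h (T j p, p.2) := fun j => hh.comp (hP j)
    have m2 : ∀ j, Measurable fun p : (L → ℝ) × ℝ => F j p * h (T j p, p.2) := fun j =>
      (hF j).mul (m1 j)
    rw [hν', lintegral_sum_measure, lintegral_tsum fun j => (m2 j).aemeasurable]
    refine tsum_congr fun j => ?_
    rw [lintegral_map hh (hP j), lintegral_withDensity_eq_lintegral_mul _ (hF j) (m1 j)]
    rfl
  have hI : Inv G ν' := by
    intro g hg
    obtain ⟨a, ha, ha2, σ, hσ⟩ := hG g hg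
    refine Measure.ext_of_lintegral _ fun h hh => ?_
    rw [lintegral_map hh (measurable_add_const g), key h hh,
      key (fun q => h (q + g)) (hh.comp (measurable_add_const g)),
      ← lint_shift ha (f := fun p => ∑' j, F j p * h (T j p, p.2))
        (Measurable.tsum fun j => (hF j).mul (hh.comp (hP j)))]
    refine lintegral_congr fun p => ?_
    conv_rhs => rw [← σ.tsum_eq]
    refine tsum_congr fun j => ?_
    rw [(hσ j p).1, (hσ j p).2, Prod.snd_add, ha2]
    rfl
  have mg : Measurable fun p : (Y → ℝ) × ℝ => gam p.1 := m_gam.comp measurable_fst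
  have mc : Measurable fun p : (Y → ℝ) × ℝ =>
      ENNReal.ofReal (1 - Real.cos (lam * p.2)) * gam p.1 := by
    refine Measurable.mul ?_ mg
    fun_prop
  have := hD ν' inferInstance hI (by rw [key _ mg]; exact hfin)
  rw [key _ mg, key _ mc] at this
  refine this.trans (le_of_eq (lintegral_congr fun p => ?_))
  rw [← ENNReal.tsum_mul_left]
  exact tsum_congr fun j => by ring

/-- indicator of the fundamental domain -/
noncomputable def chi {I : Type} [Fintype I] (s : I → L) (e : ℝ) (x : L → ℝ) : ℝ≥0∞ :=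
  if (fun t => ⌊x (s t) / e⌋) = (0 : I → ℤ) then 1 else 0

omit [Fintype L] in
theorem m_fl {I : Type} [Fintype I] (s : I → L) (e : ℝ) (k : I → ℤ) :
    MeasurableSet {x : L → ℝ | (fun t => ⌊x (s t) / e⌋) = k} := by
  have : Measurable fun x : L → ℝ => fun t => ⌊x (s t) / e⌋ :=
    measurable_pi_lambda _ fun t =>
      Measurable.floor (f := fun x : L → ℝ => x (s t) / e) (by fun_prop)
  exact this (measurableSet_singleton k)

omit [Fintype L] in
theorem m_chi {I : Type} [Fintype I] (s : I → L) (e : ℝ) : Measurable (chi s e) :=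
  Measurable.ite (m_fl s e 0) measurable_const measurable_const

theorem unfold {I : Type} [Fintype I] [DecidableEq I] (ν : Measure ((L → ℝ) × ℝ))
    (a : I → (L → ℝ) × ℝ) (ha : ∀ t, ν.map (fun p => p + a t) = ν) (s : I → L) (e : ℝ)
    (he : 0 < e) (hs : ∀ t t', (a t).1 (s t') = if t = t' then e else 0)
    (h : (L → ℝ) × ℝ → ℝ≥0∞) (hh : Measurable h) :
    ∫⁻ p, h p ∂ν = ∫⁻ p, ∑' k : I → ℤ, chi s e p.1 * h (p + ∑ t, k t • a t) ∂ν := by
  have mi : ∀ k : I → ℤ, Measurable fun p : (L → ℝ) × ℝ =>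
      (if (fun t => ⌊p.1 (s t) / e⌋) = k then (1 : ℝ≥0∞) else 0) * h p := fun k =>
    (Measurable.ite (measurable_fst (m_fl s e k)) measurable_const measurable_const).mul hh
  have e1 : ∀ p : (L → ℝ) × ℝ, h p = ∑' k : I → ℤ,
      (if (fun t => ⌊p.1 (s t) / e⌋) = k then (1 : ℝ≥0∞) else 0) * h p := by
    intro p
    rw [ENNReal.tsum_mul_right, tsum_eq_single (fun t => ⌊p.1 (s t) / e⌋)]
    · simp
    · intro k hk
      rw [if_neg (Ne.symm hk)]
  have m2 : ∀ k : I → ℤ, Measurable fun p : (L → ℝ) × ℝ =>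
      chi s e p.1 * h (p + ∑ t, k t • a t) := fun k =>
    ((m_chi s e).comp measurable_fst).mul (hh.comp (measurable_add_const _))
  rw [lintegral_congr e1, lintegral_tsum fun k => (mi k).aemeasurable,
    lintegral_tsum fun k => (m2 k).aemeasurable]
  refine tsum_congr fun k => ?_
  have hk : ν.map (fun p => p + ∑ t, k t • a t) = ν :=
    (stab ν).sum_mem fun t _ => (stab ν).zsmul_mem (ha t) (k t)
  rw [← lint_shift hk (mi k)]
  refine lintegral_congr fun p => ?_
  have e2 : ∀ t', ⌊(p + ∑ t, k t • a t).1 (s t') / e⌋ = ⌊p.1 (s t') / e⌋ + k t' := by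
    intro t'
    have : (p + ∑ t, k t • a t).1 (s t') = p.1 (s t') + k t' * e := by
      simp [Prod.fst_sum, Finset.sum_apply, hs]
    rw [this, add_div, mul_div_assoc, div_self he.ne', mul_one, Int.floor_add_intCast]
  have e3 : ((fun t' => ⌊(p + ∑ t, k t • a t).1 (s t') / e⌋) = k) ↔
      (fun t => ⌊p.1 (s t) / e⌋) = (0 : I → ℤ) := by
    simp only [e2, funext_iff, add_eq_right, Pi.zero_apply]
  simp only [chi, e3]

theorem fin_arith {Z J : ℝ≥0∞} {z : ℤ → ℝ≥0∞} {d1 d0 : ℝ} (h10 : d1 ≤ d0) (hZ : Z = ∑' n, z n)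
    (h : ∀ N : ℕ, ∃ Z0 Z1 : ℝ≥0∞, Z = Z0 + Z1 ∧ ∑ n ∈ Icc (-(N : ℤ)) N, z n ≤ 28 * Z1 ∧
      ENNReal.ofReal (1 - d0) * Z0 + ENNReal.ofReal (1 - d1) * Z1 ≤ J) :
    ENNReal.ofReal (1 - (d1 / 28 + 27 * d0 / 28)) * Z ≤ J := by
  set a : ℝ := max (1 - d1) 0 with ha
  set b : ℝ := max (1 - d0) 0 with hb
  have hb0 : 0 ≤ b := le_max_right _ _
  have hab : b ≤ a := max_le_max (by linarith) le_rfl
  have ea : ENNReal.ofReal (1 - d1) = ENNReal.ofReal b + ENNReal.ofReal ((a - b) / 28) * 28 := by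
    have : (28 : ℝ≥0∞) = ENNReal.ofReal 28 := by simp
    rw [this, ← ENNReal.ofReal_mul (by linarith), ← ENNReal.ofReal_add hb0 (by linarith),
      show b + (a - b) / 28 * 28 = a by ring, ha, ENNReal.ofReal_max]
    simp
  have eb : ENNReal.ofReal (1 - d0) = ENNReal.ofReal b := by
    rw [hb, ENNReal.ofReal_max]; simp
  have ec : ENNReal.ofReal (1 - (d1 / 28 + 27 * d0 / 28))
      ≤ ENNReal.ofReal b + ENNReal.ofReal ((a - b) / 28) := by
    rw [← ENNReal.ofReal_add hb0 (by linarith)]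
    apply ENNReal.ofReal_le_ofReal
    have h1 : 1 - d1 ≤ a := le_max_left _ _
    have h2 : 1 - d0 ≤ b := le_max_left _ _
    linarith
  refine (mul_le_mul_left ec Z).trans ?_
  rw [add_mul]
  nth_rewrite 2 [hZ]
  rw [ENNReal.tsum_eq_iSup_sum, ENNReal.mul_iSup, ENNReal.add_iSup]
  refine iSup_le fun s => ?_
  obtain ⟨N, hN⟩ : ∃ N : ℕ, s ⊆ Icc (-(N : ℤ)) N := by
    refine ⟨s.sup Int.natAbs, fun n hn => ?_⟩
    have := Finset.le_sup (f := Int.natAbs) hn
    rw [mem_Icc]
    omega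
  obtain ⟨Z0, Z1, e, h1, h2⟩ := h N
  refine le_trans ?_ h2
  rw [ea, eb, e, mul_add, add_mul, add_assoc, mul_assoc]
  gcongr
  exact (Finset.sum_le_sum_of_subset hN).trans h1

end Pool.Agent.Lib.MP_9cc147_pr.AllU.Spr
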