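import Pool.Agent.Lib.MP_9cc147_pr.U.Defs

/-! Spring, real part: a Gaussian minorant of a theta profile. -/

open Finset MeasureTheory
open scoped ENNReal

namespace Pool.Agent.Lib.MP_9cc147_pr.AllU.Spr

namespace PrA

/-- the conclusion of the tangent lemma -/
def Gd (φ : ℤ → ℝ) (N : ℕ) (π : Finset ℤ) : Prop :=
  π ⊆ Icc (-(N : ℤ)) N ∧
    (∀ k ∈ Icc (-(N : ℤ)) N, ∃ c ∈ π, φ k - φ c - (φ (c + 1) - φ c) * ((k : ℝ) - c) ≤ 1) ∧
    ∀ k : ℤ, ∑ c ∈ π, Real.exp (-(φ k - φ c - (φ (c + 1) - φ c) * ((k : ℝ) - c))) ≤ 10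

theorem gd_meas {V : Type} [MeasurableSpace V] {φ : V → ℤ → ℝ} (hm : ∀ n, Measurable fun v => φ v n)
    (N : ℕ) (π : Finset ℤ) : MeasurableSet {v | Gd (φ v) N π} := by
  have hD : ∀ k c : ℤ, Measurable fun v => φ v k - φ v c - (φ v (c + 1) - φ v c) * ((k : ℝ) - c) :=
    fun k c => ((hm k).sub (hm c)).sub (((hm _).sub (hm c)).mul_const _)
  refine measurableSet_setOfPred.2 (Measurable.and measurable_const (Measurable.and ?_ ?_))
  · refine Measurable.forall fun k => Measurable.imp measurable_const (Measurable.exists fun c => ?_)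
    exact Measurable.and measurable_const
      (measurableSet_setOfPred.1 (measurableSet_le (hD k c) measurable_const))
  · refine Measurable.forall fun k => measurableSet_setOfPred.1 (measurableSet_le ?_ measurable_const)
    exact Finset.measurable_sum _ fun c _ => Real.measurable_exp.comp (hD k c).neg

theorem sel (hT : TanStmt) {V : Type} [MeasurableSpace V] {φ : V → ℤ → ℝ}
    (hm : ∀ n, Measurable fun v => φ v n)
    (hc : ∀ v k, φ v (k + 1) - φ v k ≤ φ v (k + 2) - φ v (k + 1)) (N : ℕ) :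
    ∃ π : V → Finset ℤ, (∀ c, MeasurableSet {v | c ∈ π v}) ∧ ∀ v, Gd (φ v) N (π v) := by
  classical
  obtain ⟨en, hen⟩ := exists_surjective_nat (Finset ℤ)
  have hex : ∀ v, ∃ i, Gd (φ v) N (en i) := fun v => by
    obtain ⟨π, h1, h2, h3⟩ := hT (φ v) (hc v) N
    obtain ⟨i, rfl⟩ := hen π
    exact ⟨i, h1, h2, h3⟩
  have hi : Measurable fun v => Nat.find (hex v) :=
    measurable_find (p := fun v i => Gd (φ v) N (en i)) hex fun i => gd_meas hm N (en i)
  exact ⟨fun v => en (Nat.find (hex v)),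
    fun c => hi (MeasurableSet.of_discrete (s := {i | c ∈ en i})), fun v => Nat.find_spec (hex v)⟩

theorem term {b t a s : ℝ} (hb : 0 < b) (ht : 0 < t) (n c : ℝ) :
    Real.exp (a - s * c + s ^ 2 / (2 * b)) / 10 *
        Real.exp (-(-s / Real.sqrt b + n * Real.sqrt b) ^ 2 / 2) =
      t * Real.exp (-(Real.log t + b * n ^ 2 / 2 - a - s * (n - c))) * t⁻¹ * t / 10 := by
  have h1 : 0 < Real.sqrt b := Real.sqrt_pos.2 hb
  have h2 : Real.sqrt b ^ 2 = b := Real.sq_sqrt hb.le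
  have e : a - s * c + s ^ 2 / (2 * b) + -(-s / Real.sqrt b + n * Real.sqrt b) ^ 2 / 2 =
      Real.log t + -(Real.log t + b * n ^ 2 / 2 - a - s * (n - c)) := by
    set q := Real.sqrt b
    rw [← h2]
    field_simp
    ring
  rw [div_mul_eq_mul_div, ← Real.exp_add, e, Real.exp_add, Real.exp_log ht, mul_assoc _ t⁻¹,
    inv_mul_cancel₀ ht.ne', mul_one]

end PrA

open PrA in
theorem prof (hT : TanStmt) {V : Type} [MeasurableSpace V] (θ : V → ℤ → ℝ) (b : ℝ) (hb : 0 < b)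
    (hpos : ∀ v n, 0 < θ v n) (hm : ∀ n, Measurable fun v => θ v n)
    (hc : ∀ v n, θ v n ^ 2 ≤ Real.exp b * θ v (n + 1) * θ v (n - 1)) (N : ℕ) :
    ∃ α ξ : ℤ → V → ℝ, (∀ c, Measurable (α c)) ∧ (∀ c, Measurable (ξ c)) ∧
      (∀ c v, 0 ≤ α c v) ∧
      (∀ v (n : ℤ), ∑ c ∈ Icc (-(N : ℤ)) N,
        α c v * Real.exp (-(ξ c v + n * Real.sqrt b) ^ 2 / 2) ≤ θ v n) ∧
      ∀ v, ∀ n ∈ Icc (-(N : ℤ)) N, θ v n ≤ 28 * ∑ c ∈ Icc (-(N : ℤ)) N,
        α c v * Real.exp (-(ξ c v + n * Real.sqrt b) ^ 2 / 2) := by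
  classical
  let φ : V → ℤ → ℝ := fun v n => Real.log (θ v n) + b * (n : ℝ) ^ 2 / 2
  have mφ : ∀ n, Measurable fun v => φ v n := fun n =>
    (Real.measurable_log.comp (hm n)).add_const _
  have cφ : ∀ v k, φ v (k + 1) - φ v k ≤ φ v (k + 2) - φ v (k + 1) := fun v k => by
    have h := Real.log_le_log (pow_pos (hpos v _) 2) (hc v (k + 1))
    rw [Real.log_pow, Real.log_mul (mul_pos (Real.exp_pos _) (hpos v _)).ne' (hpos v _).ne',
      Real.log_mul (Real.exp_pos _).ne' (hpos v _).ne', Real.log_exp, add_sub_cancel_right,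
      show k + 1 + 1 = k + 2 by ring] at h
    simp only [φ]
    push_cast at h ⊢
    nlinarith
  obtain ⟨π, mπ, hπ⟩ := PrA.sel hT mφ cφ N
  let s : ℤ → V → ℝ := fun c v => φ v (c + 1) - φ v c
  have ms : ∀ c, Measurable (s c) := fun c => (mφ _).sub (mφ c)
  let α : ℤ → V → ℝ := fun c v =>
    if c ∈ π v then Real.exp (φ v c - s c v * c + s c v ^ 2 / (2 * b)) / 10 else 0
  have key : ∀ v (n : ℤ), ∑ c ∈ Icc (-(N : ℤ)) N,
      α c v * Real.exp (-(-s c v / Real.sqrt b + n * Real.sqrt b) ^ 2 / 2) =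
      θ v n / 10 * ∑ c ∈ π v, Real.exp (-(φ v n - φ v c - (φ v (c + 1) - φ v c) * ((n : ℝ) - c))) := by
    intro v n
    rw [← Finset.sum_subset (hπ v).1 fun c _ hc => by simp only [α, if_neg hc, zero_mul],
      Finset.mul_sum]
    refine Finset.sum_congr rfl fun c hc => ?_
    simp only [α, if_pos hc]
    rw [term hb (hpos v n), mul_assoc _ (θ v n)⁻¹, inv_mul_cancel₀ (hpos v n).ne', mul_one]
    simp only [φ, s]
    ring
  refine ⟨α, fun c v => -s c v / Real.sqrt b, fun c => ?_, fun c => (ms c).neg.div_const _,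
    fun c v => ?_, fun v n => ?_, fun v n hn => ?_⟩
  · refine Measurable.ite (mπ c) (Measurable.div_const (Real.measurable_exp.comp ?_) _)
      measurable_const
    exact ((mφ c).sub ((ms c).mul_const _)).add (((ms c).pow_const 2).div_const _)
  · simp only [α]
    split_ifs
    · positivity
    · exact le_rfl
  · rw [key]
    have := mul_le_mul_of_nonneg_left ((hπ v).2.2 n) (hpos v n).le
    linarith
  · rw [key]
    obtain ⟨c, hc, h1⟩ := (hπ v).2.1 n hn
    have h2 := Finset.single_le_sum (f := fun c : ℤ =>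
      Real.exp (-(φ v n - φ v c - (φ v (c + 1) - φ v c) * ((n : ℝ) - c))))
      (fun _ _ => (Real.exp_pos _).le) hc
    have h3 : Real.exp (-1) ≤
        Real.exp (-(φ v n - φ v c - (φ v (c + 1) - φ v c) * ((n : ℝ) - c))) :=
      Real.exp_le_exp.2 (by linarith)
    have h4 : (10 / 28 : ℝ) ≤ Real.exp (-1) := by
      have := Real.exp_neg_one_gt_d9
      linarith
    have := mul_le_mul_of_nonneg_left (h4.trans (h3.trans h2)) (hpos v n).le
    linarith

end Pool.Agent.Lib.MP_9cc147_pr.AllU.Spr
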