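import Pool.Agent.Lib.MP_9cc147_pr.U.SprA
import Pool.Agent.Lib.MP_9cc147_pr.U.SprB
import Pool.Agent.Lib.MP_9cc147_pr.U.SprP

/-! Spring: one attempt, for `Dom`. -/

open Finset MeasureTheory
open scoped ENNReal

namespace Pool.Agent.Lib.MP_9cc147_pr.AllU.Spr

variable {Y K I : Type} [Fintype Y] [Fintype K] [Fintype I]

/-- the group with the spring -/
def Suc (G : Set ((Y → ℝ) × ℝ)) (d : Y → ℝ) (b : ℝ) : Set ((Option Y → ℝ) × ℝ) :=
  {g | (∃ g' ∈ G, g = (fun o => Option.elim o 0 g'.1, g'.2)) ∨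
    g = (fun o => Option.elim o (Real.sqrt b) d, 0)}

/-- the group with the auxiliary generators -/
def Hat (G : Set ((Y → ℝ) × ℝ)) (d : Y → ℝ) (y : I → K → ℝ) : Set ((Y ⊕ K → ℝ) × ℝ) :=
  {g | (∃ g' ∈ G, g = (Sum.elim g'.1 0, g'.2)) ∨ ∃ t, g = (Sum.elim d (y t), 0)}

def px (p : (Y ⊕ K → ℝ) × ℝ) : Y → ℝ := fun i => p.1 (Sum.inl i)
def pv (p : (Y ⊕ K → ℝ) × ℝ) : K → ℝ := fun k => p.1 (Sum.inr k)

omit [Fintype Y] [Fintype K] in
theorem m_px : Measurable (px : (Y ⊕ K → ℝ) × ℝ → Y → ℝ) :=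
  measurable_pi_lambda _ fun _ => (measurable_pi_apply _).comp measurable_fst
omit [Fintype Y] [Fintype K] in
theorem m_pv : Measurable (pv : (Y ⊕ K → ℝ) × ℝ → K → ℝ) :=
  measurable_pi_lambda _ fun _ => (measurable_pi_apply _).comp measurable_fst

theorem gam_shift (d : Y → ℝ) (y : I → K → ℝ) (p : (Y ⊕ K → ℝ) × ℝ) (k : I → ℤ) :
    gam (p + ∑ t, k t • ((Sum.elim d (y t), 0) : (Y ⊕ K → ℝ) × ℝ)).1
      = gam (px p + ((∑ t, k t : ℤ) : ℝ) • d) * ENNReal.ofReal (Fk y (pv p) k) := by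
  have e : (p + ∑ t, k t • ((Sum.elim d (y t), 0) : (Y ⊕ K → ℝ) × ℝ)).1
      = Sum.elim (px p + ((∑ t, k t : ℤ) : ℝ) • d)
        (fun j => pv p j + ∑ t, (k t : ℝ) * y t j) := by
    funext i
    rcases i with i | i <;> simp [px, pv, Prod.fst_sum, Finset.sum_apply, Finset.sum_mul]
  rw [e, gam_sum]
  rfl

theorem one_dom [Nonempty I] [DecidableEq I] (hT : TanStmt) {lam d1 d0 : ℝ}
    (G : Set ((Y → ℝ) × ℝ)) (d : Y → ℝ) (y : I → K → ℝ) (e b : ℝ) (κ : I → K) (he : 0 < e)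
    (hκ : ∀ t t', y t (κ t') = if t = t' then e else 0) (hb0 : 0 < b)
    (hb : ∑ t, ∑ t', Real.exp (∑ j, y t j * y t' j) ≤ (Fintype.card I : ℝ) ^ 2 * Real.exp b)
    (h10 : d1 ≤ d0) (h1 : Dom lam (Suc G d b) d1) (h0 : Dom lam G d0) :
    Dom lam (Hat G d y) (d1 / 28 + 27 * d0 / 28) := by
  intro ν hν hI hfin
  obtain ⟨tE, tpos, tm, tc⟩ := th_facts y e b κ he hκ hb
  set χ : (Y ⊕ K → ℝ) × ℝ → ℝ≥0∞ := fun p => chi κ e (pv p) with hχ
  have mχ : Measurable χ := (m_chi κ e).comp m_pv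
  set X : ℤ → (Y ⊕ K → ℝ) × ℝ → Y → ℝ := fun n p => px p + (n : ℝ) • d with hX
  have mX : ∀ n, Measurable (X n) := fun n => m_px.add_const _
  have mg : ∀ n, Measurable fun p => gam (X n p) := fun n => m_gam.comp (mX n)
  have mT : ∀ n, Measurable fun p : (Y ⊕ K → ℝ) × ℝ => Th y (pv p) n := fun n => (tm n).comp m_pv
  -- unfolding
  have unf : ∀ φ : ℝ → ℝ≥0∞, Measurable φ → ∫⁻ p, φ p.2 * gam p.1 ∂ν
      = ∫⁻ p, φ p.2 * ∑' n : ℤ, χ p * ENNReal.ofReal (Th y (pv p) n) * gam (X n p) ∂ν := by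
    intro φ hφ
    rw [unfold ν (fun t => (Sum.elim d (y t), 0)) (fun t => hI _ (Or.inr ⟨t, rfl⟩))
      (fun t => Sum.inr (κ t)) e he hκ (fun p => φ p.2 * gam p.1)
      ((hφ.comp measurable_snd).mul (m_gam.comp measurable_fst))]
    refine lintegral_congr fun p => ?_
    simp only [tE, ← ENNReal.tsum_mul_left, ← ENNReal.tsum_mul_right]
    rw [ENNReal.tsum_comm]
    refine tsum_congr fun k => ?_
    rw [tsum_eq_single (∑ t, k t) fun n hn => by rw [if_neg (Ne.symm hn)]; simp, if_pos rfl,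
      gam_shift]
    have e2 : (p + ∑ t, k t • ((Sum.elim d (y t), 0) : (Y ⊕ K → ℝ) × ℝ)).2 = p.2 := by
      simp [Prod.snd_sum]
    rw [e2]
    show χ p * _ = _
    ring
  have hZ := unf (fun _ => 1) measurable_const
  simp only [one_mul] at hZ
  have mφ : Measurable fun t : ℝ => ENNReal.ofReal (1 - Real.cos (lam * t)) := by fun_prop
  have mz : ∀ n : ℤ, Measurable fun p : (Y ⊕ K → ℝ) × ℝ =>
      χ p * ENNReal.ofReal (Th y (pv p) n) * gam (X n p) := fun n =>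
    (mχ.mul (mT n).ennreal_ofReal).mul (mg n)
  refine fin_arith (z := fun n => ∫⁻ p, χ p * ENNReal.ofReal (Th y (pv p) n) * gam (X n p) ∂ν)
    h10 (by rw [hZ, lintegral_tsum fun n => (mz n).aemeasurable]) fun N => ?_
  obtain ⟨α, ξ, mα, mξ, α0, hle, hge⟩ := prof hT (Th y) b hb0 tpos tm tc N
  set S : Finset ℤ := Icc (-(N : ℤ)) N with hS
  set Mx : (K → ℝ) → ℤ → ℝ := fun v n =>
    ∑ c ∈ S, α c v * Real.exp (-(ξ c v + n * Real.sqrt b) ^ 2 / 2) with hMx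
  have M0 : ∀ v n, 0 ≤ Mx v n := fun v n =>
    Finset.sum_nonneg fun c _ => mul_nonneg (α0 c v) (Real.exp_pos _).le
  have mM : ∀ n, Measurable fun v => Mx v n := fun n =>
    Finset.measurable_sum _ fun c _ => by
      have := mα c
      have := mξ c
      fun_prop
  set F0 : ℤ → (Y ⊕ K → ℝ) × ℝ → ℝ≥0∞ := fun n p =>
    χ p * ENNReal.ofReal (Th y (pv p) n - Mx (pv p) n) with hF0
  have mF0 : ∀ n, Measurable (F0 n) := fun n =>
    mχ.mul ((mT n).sub ((mM n).comp m_pv)).ennreal_ofReal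
  set F1 : ℤ → (Y ⊕ K → ℝ) × ℝ → ℝ≥0∞ := fun c p => χ p * ENNReal.ofReal (α c (pv p)) with hF1
  have mF1 : ∀ c, Measurable (F1 c) := fun c => mχ.mul ((mα c).comp m_pv).ennreal_ofReal
  set T1 : ℤ → ℤ → (Y ⊕ K → ℝ) × ℝ → Option Y → ℝ := fun c n p o =>
    o.elim (ξ c (pv p) + n * Real.sqrt b) (X n p) with hT1
  have mT1 : ∀ c n, Measurable (T1 c n) := fun c n => measurable_pi_lambda _ fun o => by
    rcases o with _ | i
    · exact ((mξ c).comp m_pv).add_const _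
    · exact (measurable_pi_apply i).comp (mX n)
  set W0 : (Y ⊕ K → ℝ) × ℝ → ℝ≥0∞ := fun p => ∑' n, F0 n p * gam (X n p) with hW0
  set W1 : ℤ → (Y ⊕ K → ℝ) × ℝ → ℝ≥0∞ := fun c p => ∑' n, F1 c p * gam (T1 c n p) with hW1
  have mW0 : Measurable W0 := Measurable.tsum fun n => (mF0 n).mul (mg n)
  have mW1 : ∀ c, Measurable (W1 c) := fun c =>
    Measurable.tsum fun n => (mF1 c).mul (m_gam.comp (mT1 c n))
  have sM : ∀ p n, ∑ c ∈ S, F1 c p * gam (T1 c n p)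
      = χ p * ENNReal.ofReal (Mx (pv p) n) * gam (X n p) := by
    intro p n
    rw [hMx, ENNReal.ofReal_sum_of_nonneg fun c _ => mul_nonneg (α0 c _) (Real.exp_pos _).le,
      Finset.mul_sum, Finset.sum_mul]
    refine Finset.sum_congr rfl fun c _ => ?_
    rw [hT1, gam_opt, ENNReal.ofReal_mul (α0 c _), hF1]
    ring
  have sW : ∀ p, ∑ c ∈ S, W1 c p = ∑' n, χ p * ENNReal.ofReal (Mx (pv p) n) * gam (X n p) := by
    intro p
    rw [hW1, ← Summable.tsum_finsetSum fun _ _ => ENNReal.summable]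
    exact tsum_congr fun n => sM p n
  have split : ∀ p, ∑' n : ℤ, χ p * ENNReal.ofReal (Th y (pv p) n) * gam (X n p)
      = W0 p + ∑ c ∈ S, W1 c p := by
    intro p
    rw [sW, hW0, ← ENNReal.tsum_add]
    refine tsum_congr fun n => ?_
    have : ENNReal.ofReal (Th y (pv p) n) = ENNReal.ofReal (Th y (pv p) n - Mx (pv p) n)
        + ENNReal.ofReal (Mx (pv p) n) := by
      rw [← ENNReal.ofReal_add (sub_nonneg.2 (hle _ _)) (M0 _ _), sub_add_cancel]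
    rw [this, hF0]
    ring
  have hZ' : ∫⁻ p, gam p.1 ∂ν = ∫⁻ p, W0 p ∂ν + ∑ c ∈ S, ∫⁻ p, W1 c p ∂ν := by
    rw [hZ, lintegral_congr split, lintegral_add_left mW0, lintegral_finsetSum _ fun c _ => mW1 c]
  have inv : ∀ g ∈ G, ν.map (fun p => p + ((Sum.elim g.1 0, g.2) : (Y ⊕ K → ℝ) × ℝ)) = ν :=
    fun g hg => hI _ (Or.inl ⟨g, hg, rfl⟩)
  have pva : ∀ (p : (Y ⊕ K → ℝ) × ℝ) (g : (Y → ℝ) × ℝ),
      pv (p + ((Sum.elim g.1 0, g.2) : (Y ⊕ K → ℝ) × ℝ)) = pv p := fun p g => by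
    funext k; simp [pv]
  have Xa : ∀ n (p : (Y ⊕ K → ℝ) × ℝ) (g : (Y → ℝ) × ℝ),
      X n (p + ((Sum.elim g.1 0, g.2) : (Y ⊕ K → ℝ) × ℝ)) = X n p + g.1 := fun n p g => by
    funext k; simp [hX, px]; ring
  have D0 := dom_push h0 ν F0 X mF0 mX
    (fun g hg => ⟨_, inv g hg, rfl, Equiv.refl _, fun n p => by
      simp only [Equiv.refl_apply, hF0, hχ, pva, Xa, and_self]⟩)
    (ne_top_of_le_ne_top hfin (by rw [hZ']; exact le_self_add))
  have D1 : ∀ c ∈ S, ENNReal.ofReal (1 - d1) * ∫⁻ p, W1 c p ∂ν ≤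
      ∫⁻ p, ENNReal.ofReal (1 - Real.cos (lam * p.2)) * W1 c p ∂ν := by
    intro c hc
    refine dom_push h1 ν (fun _ => F1 c) (T1 c) (fun _ => mF1 c) (mT1 c) ?_
      (ne_top_of_le_ne_top hfin (by
        rw [hZ']
        exact le_add_left (Finset.single_le_sum (f := fun c => ∫⁻ p, W1 c p ∂ν)
          (fun _ _ => zero_le) hc)))
    rintro g (⟨g, hg, rfl⟩ | rfl)
    · refine ⟨_, inv g hg, rfl, Equiv.refl _, fun n p => ⟨by simp only [hF1, hχ, pva], ?_⟩⟩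
      funext o
      rcases o with _ | i
      · simp [hT1, pva]
      · simp [hT1, Xa]
    · refine ⟨0, by simp, rfl, Equiv.addRight 1, fun n p => ⟨by simp, ?_⟩⟩
      funext o
      rcases o with _ | i
      · simp [hT1]; ring
      · simp [hT1, hX]; ring
  refine ⟨∫⁻ p, W0 p ∂ν, ∑ c ∈ S, ∫⁻ p, W1 c p ∂ν, hZ', ?_, ?_⟩
  · rw [← lintegral_finsetSum _ fun n _ => mz n, ← lintegral_finsetSum _ fun c _ => mW1 c,
      ← lintegral_const_mul _ (Finset.measurable_sum _ fun c _ => mW1 c)]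
    refine lintegral_mono fun p => ?_
    show ∑ n ∈ S, _ ≤ 28 * ∑ c ∈ S, W1 c p
    rw [sW, ← ENNReal.tsum_mul_left]
    refine le_trans (Finset.sum_le_sum fun n hn => ?_) (ENNReal.sum_le_tsum S)
    have : ENNReal.ofReal (Th y (pv p) n) ≤ 28 * ENNReal.ofReal (Mx (pv p) n) := by
      rw [show (28 : ℝ≥0∞) = ENNReal.ofReal 28 by simp, ← ENNReal.ofReal_mul (by norm_num)]
      exact ENNReal.ofReal_le_ofReal (hge _ n hn)
    calc χ p * ENNReal.ofReal (Th y (pv p) n) * gam (X n p)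
        ≤ χ p * (28 * ENNReal.ofReal (Mx (pv p) n)) * gam (X n p) := by gcongr
      _ = 28 * (χ p * ENNReal.ofReal (Mx (pv p) n) * gam (X n p)) := by ring
  · have mc : Measurable fun p : (Y ⊕ K → ℝ) × ℝ =>
        ENNReal.ofReal (1 - Real.cos (lam * p.2)) := mφ.comp measurable_snd
    have a0 : Measurable fun p : (Y ⊕ K → ℝ) × ℝ =>
        ENNReal.ofReal (1 - Real.cos (lam * p.2)) * W0 p := mc.mul mW0
    have a1 : ∀ c, Measurable fun p : (Y ⊕ K → ℝ) × ℝ =>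
        ENNReal.ofReal (1 - Real.cos (lam * p.2)) * W1 c p := fun c => mc.mul (mW1 c)
    rw [unf _ mφ]
    simp only [split, mul_add]
    rw [lintegral_add_left a0]
    refine add_le_add D0 ?_
    simp only [Finset.mul_sum]
    rw [lintegral_finsetSum _ fun c _ => a1 c]
    exact Finset.sum_le_sum D1

end Pool.Agent.Lib.MP_9cc147_pr.AllU.Spr
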