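import Pool.Agent.Lib.MP_9cc147_pr.U.Defs

/-! Typical phase: the logarithmic cutoff. -/

open Finset

namespace Pool.Agent.Lib.MP_9cc147_pr.AllU.T

variable {n : ℕ}

/-- logarithmic cutoff around `z` on level `k` -/
noncomputable def chi (k : ℕ) (z x : Vx n) : ℝ :=
  (Real.log (Jt k) - Real.log ((max (2 * Ra k) (min (ds z x) (Jt k)) : ℕ) : ℝ)) /
    (Real.log (Jt k) - Real.log ((2 * Ra k : ℕ) : ℝ))

lemma ta_ge (k : ℕ) : 4000 ≤ ta k := by
  induction k with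
  | zero => simp [ta]
  | succ k ih => rw [ta]; omega

lemma Jt_eq (k : ℕ) : Jt k = Ra k * 2 ^ (ta k / 8) := by rw [Jt, Ra, pow_add]

lemma RJ (k : ℕ) : 2 ≤ Ra k ∧ 4 * Ra k ≤ Jt k := by
  have h := ta_ge k
  constructor
  · calc 2 = 2 ^ 1 := by norm_num
      _ ≤ 2 ^ ta k := Nat.pow_le_pow_right (by norm_num) (by omega)
  · rw [Jt_eq, mul_comm]
    apply Nat.mul_le_mul_left
    calc 4 = 2 ^ 2 := by norm_num
      _ ≤ 2 ^ (ta k / 8) := Nat.pow_le_pow_right (by norm_num) (by omega)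

lemma den_ge (k : ℕ) :
    (ta k : ℝ) / 12 ≤ Real.log (Jt k) - Real.log ((2 * Ra k : ℕ) : ℝ) := by
  have h := ta_ge k
  have h1 : ((Jt k : ℕ) : ℝ) = 2 ^ (ta k + ta k / 8) := by rw [Jt]; push_cast; rfl
  have h2 : ((2 * Ra k : ℕ) : ℝ) = 2 ^ (ta k + 1) := by rw [Ra]; push_cast; ring
  rw [h1, h2, Real.log_pow, Real.log_pow]
  have h3 : (ta k : ℝ) ≤ 8 * ((ta k / 8 : ℕ) : ℝ) + 7 := by
    have : ta k ≤ 8 * (ta k / 8) + 7 := by omega
    exact_mod_cast this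
  have h4 : (4000 : ℝ) ≤ ta k := by exact_mod_cast h
  have h5 := Real.log_two_gt_d9
  rw [Nat.cast_add, Nat.cast_add, Nat.cast_one]
  nlinarith

lemma den_pos (k : ℕ) : 0 < Real.log (Jt k) - Real.log ((2 * Ra k : ℕ) : ℝ) := by
  have h4 : (4000 : ℝ) ≤ ta k := by exact_mod_cast ta_ge k
  linarith [den_ge k]

lemma chi_one {k : ℕ} {z x : Vx n} (h : ds z x ≤ 2 * Ra k) : chi k z x = 1 := by
  have : max (2 * Ra k) (min (ds z x) (Jt k)) = 2 * Ra k := by omega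
  rw [chi, this, div_self (den_pos k).ne']

lemma chi_zero {k : ℕ} {z x : Vx n} (h : Jt k ≤ ds z x) : chi k z x = 0 := by
  have h1 := RJ k
  have : max (2 * Ra k) (min (ds z x) (Jt k)) = Jt k := by omega
  rw [chi, this, sub_self, zero_div]

lemma chi_mem (k : ℕ) (z x : Vx n) : 0 ≤ chi k z x ∧ chi k z x ≤ 1 := by
  have h1 := RJ k
  have hd := den_pos k
  have a1 : ((2 * Ra k : ℕ) : ℝ) ≤ ((max (2 * Ra k) (min (ds z x) (Jt k)) : ℕ) : ℝ) :=
    Nat.cast_le.mpr (by omega)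
  have a2 : ((max (2 * Ra k) (min (ds z x) (Jt k)) : ℕ) : ℝ) ≤ (Jt k : ℝ) :=
    Nat.cast_le.mpr (by omega)
  have a0 : (0 : ℝ) < ((2 * Ra k : ℕ) : ℝ) := Nat.cast_pos.mpr (by omega)
  have b1 := Real.log_le_log a0 a1
  have b2 := Real.log_le_log (a0.trans_le a1) a2
  exact ⟨div_nonneg (by linarith) hd.le, (div_le_one hd).mpr (by linarith)⟩

lemma chi_pair {k : ℕ} {z x y : Vx n} (h : ds x y ≤ 1 ∨ 100 * ds x y ≤ ds x z + Ra k)
    (hne : chi k z x ≠ chi k z y) :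
    Ra k < ds z x ∧ ds z x ≤ 2 * Jt k ∧ ds z y ≤ 2 * Jt k := by
  have h1 := RJ k
  have t1 := ds_tri z x y
  have t2 := ds_tri z y x
  have c1 := ds_comm x y
  have c2 := ds_comm x z
  have o : ¬ (ds z x ≤ 2 * Ra k ∧ ds z y ≤ 2 * Ra k) := fun hh =>
    hne (by rw [chi_one hh.1, chi_one hh.2])
  have o' : ¬ (Jt k ≤ ds z x ∧ Jt k ≤ ds z y) := fun hh =>
    hne (by rw [chi_zero hh.1, chi_zero hh.2])
  omega

lemma log_lip {a b r D : ℝ} (hr : 0 ≤ r) (ha0 : 0 < a) (hb0 : 0 < b) (hb : r ≤ 2 * b)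
    (hD : a - b ≤ D) (hD0 : 0 ≤ D) : (Real.log a - Real.log b) * r ≤ 2 * D := by
  have h1 := Real.log_le_sub_one_of_pos (div_pos ha0 hb0)
  rw [Real.log_div ha0.ne' hb0.ne'] at h1
  have h2 : a / b - 1 ≤ D / b := by
    rw [div_sub_one hb0.ne']
    exact div_le_div_of_nonneg_right hD hb0.le
  calc (Real.log a - Real.log b) * r ≤ D / b * r := mul_le_mul_of_nonneg_right (h1.trans h2) hr
    _ ≤ D / b * (2 * b) := mul_le_mul_of_nonneg_left hb (div_nonneg hD0 hb0.le)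
    _ = 2 * D := by field_simp

lemma chi_lip {k : ℕ} {z x y : Vx n} (h : ds x y ≤ 1 ∨ 100 * ds x y ≤ ds x z + Ra k) :
    (chi k z x - chi k z y) ^ 2 * (ds z x : ℝ) ^ 2 ≤ (24 / (ta k : ℝ)) ^ 2 * (ds x y : ℝ) ^ 2 := by
  by_cases hne : chi k z x = chi k z y
  · rw [hne, sub_self]
    simp only [ne_eq, OfNat.ofNat_ne_zero, not_false_eq_true, zero_pow, zero_mul]
    positivity
  obtain ⟨p1, p2, p3⟩ := chi_pair h hne
  have h1 := RJ k
  have t1 := ds_tri z x y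
  have t2 := ds_tri z y x
  have c1 := ds_comm x y
  have c2 := ds_comm x z
  unfold chi
  obtain ⟨a, ha⟩ : ∃ a, a = max (2 * Ra k) (min (ds z x) (Jt k)) := ⟨_, rfl⟩
  obtain ⟨b, hb⟩ : ∃ b, b = max (2 * Ra k) (min (ds z y) (Jt k)) := ⟨_, rfl⟩
  rw [← ha, ← hb]
  have a0 : (0 : ℝ) < a := Nat.cast_pos.mpr (by omega)
  have b0 : (0 : ℝ) < b := Nat.cast_pos.mpr (by omega)
  have a1 : (ds z x : ℝ) ≤ 2 * a := by
    have : ds z x ≤ 2 * a := by omega
    exact_mod_cast this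
  have b1 : (ds z x : ℝ) ≤ 2 * b := by
    have : ds z x ≤ 2 * b := by omega
    exact_mod_cast this
  have d1 : (a : ℝ) - b ≤ ds x y := by
    have : a ≤ ds x y + b := by omega
    have : (a : ℝ) ≤ ds x y + b := by exact_mod_cast this
    linarith
  have d2 : (b : ℝ) - a ≤ ds x y := by
    have : b ≤ ds x y + a := by omega
    have : (b : ℝ) ≤ ds x y + a := by exact_mod_cast this
    linarith
  have e1 := log_lip (Nat.cast_nonneg (ds z x)) a0 b0 b1 d1 (Nat.cast_nonneg _)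
  have e2 := log_lip (Nat.cast_nonneg (ds z x)) b0 a0 a1 d2 (Nat.cast_nonneg _)
  have hl := den_ge k
  have hd := den_pos k
  have h4 : (4000 : ℝ) ≤ ta k := by exact_mod_cast ta_ge k
  obtain ⟨l, hl'⟩ : ∃ l, l = Real.log (Jt k) - Real.log ((2 * Ra k : ℕ) : ℝ) := ⟨_, rfl⟩
  rw [← hl'] at hl hd ⊢
  have hq : 2 / l ≤ 24 / (ta k : ℝ) := by
    rw [div_le_div_iff₀ hd (by linarith)]
    linarith
  have hD : (0 : ℝ) ≤ ds x y := Nat.cast_nonneg _
  have hq' := mul_le_mul_of_nonneg_right hq hD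
  have f : ∀ u : ℝ, u ≤ 2 * ds x y → u / l ≤ 24 / (ta k : ℝ) * ds x y := fun u hu =>
    calc u / l ≤ 2 * ds x y / l := div_le_div_of_nonneg_right hu hd.le
      _ = 2 / l * ds x y := by ring
      _ ≤ _ := hq'
  rw [← mul_pow, ← mul_pow]
  have g : ((Real.log (Jt k) - Real.log a) / l - (Real.log (Jt k) - Real.log b) / l) * ds z x =
      (Real.log b - Real.log a) * ds z x / l := by ring
  rw [g]
  apply sq_le_sq' _ (f _ e2)
  have := f _ e1
  have g' : (Real.log b - Real.log a) * ds z x / l = -((Real.log a - Real.log b) * ds z x / l) := by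
    ring
  rw [g']
  linarith

lemma ball_card (z : Vx n) (T : Finset (Vx n)) (r : ℕ) (hT : ∀ x ∈ T, ds z x ≤ r) :
    T.card ≤ (2 * r + 1) ^ 2 :=
  packing T z (s := 1) r one_pos (fun x hx => by simpa using hT x hx)
    (fun x _ y _ hxy => ds_pos hxy)

lemma shell_aux (z : Vx n) (R : ℕ) (hR : 1 ≤ R) (j : ℕ) :
    ∑ x ∈ univ.filter (fun x => R < ds z x ∧ ds z x ≤ R * 2 ^ j), 1 / (ds z x : ℝ) ^ 2 ≤
      25 * (j : ℝ) := by
  induction j with
  | zero =>
    rw [Finset.filter_false_of_mem (fun x _ => by omega)]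
    simp
  | succ j ih =>
    obtain ⟨S, hS⟩ : ∃ S, S = R * 2 ^ j := ⟨_, rfl⟩
    have hS1 : 1 ≤ S := by rw [hS]; exact Nat.mul_pos hR (by positivity)
    have hS2 : R * 2 ^ (j + 1) = 2 * S := by rw [hS]; ring
    rw [hS2]
    rw [← hS] at ih
    rw [← Finset.sum_filter_add_sum_filter_not _ (fun x => ds z x ≤ S)]
    have h1 : ∑ x ∈ (univ.filter (fun x => R < ds z x ∧ ds z x ≤ 2 * S)).filter
        (fun x => ds z x ≤ S), 1 / (ds z x : ℝ) ^ 2 ≤ 25 * (j : ℝ) := by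
      refine le_trans (Finset.sum_le_sum_of_subset_of_nonneg ?_ fun _ _ _ => by positivity) ih
      intro x hx
      simp only [mem_filter, mem_univ, true_and] at hx ⊢
      omega
    have hS0 : (1 : ℝ) ≤ S := by exact_mod_cast hS1
    have h2 : ∑ x ∈ (univ.filter (fun x => R < ds z x ∧ ds z x ≤ 2 * S)).filter
        (fun x => ¬ ds z x ≤ S), 1 / (ds z x : ℝ) ^ 2 ≤ 25 := by
      have hc := ball_card z ((univ.filter (fun x => R < ds z x ∧ ds z x ≤ 2 * S)).filter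
        (fun x => ¬ ds z x ≤ S)) (2 * S) (fun x hx => by
          simp only [mem_filter, mem_univ, true_and] at hx
          omega)
      have hc' : (((univ.filter (fun x => R < ds z x ∧ ds z x ≤ 2 * S)).filter
          (fun x => ¬ ds z x ≤ S)).card : ℝ) ≤ (2 * (2 * S) + 1) ^ 2 := by exact_mod_cast hc
      refine le_trans (Finset.sum_le_card_nsmul _ _ (1 / (S : ℝ) ^ 2) fun x hx => ?_) ?_
      · simp only [mem_filter, mem_univ, true_and] at hx
        have : (S : ℝ) ≤ ds z x := Nat.cast_le.mpr (by omega)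
        gcongr
      · rw [nsmul_eq_mul, mul_one_div, div_le_iff₀ (by positivity)]
        nlinarith
    push_cast
    linarith

lemma shell (k : ℕ) (z : Vx n) :
    ∑ x ∈ univ.filter (fun x => Ra k < ds z x ∧ ds z x ≤ 2 * Jt k), 1 / (ds z x : ℝ) ^ 2 ≤
      7 * (ta k : ℝ) := by
  have h := shell_aux z (Ra k) (by have := RJ k; omega) (ta k / 8 + 1)
  have e : Ra k * 2 ^ (ta k / 8 + 1) = 2 * Jt k := by rw [Jt_eq]; ring
  rw [e] at h
  refine h.trans ?_
  have h1 : 25 * (ta k / 8 + 1) ≤ 7 * ta k := by have := ta_ge k; omega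
  exact_mod_cast h1

end Pool.Agent.Lib.MP_9cc147_pr.AllU.T
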