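import Pool.Agent.Lib.MP_9cc147_pr.U.TChi

/-! Typical phase: one slot. -/

open Finset

namespace Pool.Agent.Lib.MP_9cc147_pr.AllU.T

variable {n : ℕ}

/-- the pinned height functions form a group -/
def grp (ρ : Vx n → ℕ) : AddSubgroup (Vx n → ℝ) where
  carrier := LamP ρ
  zero_mem' := fun _ _ => ⟨0, fun _ _ => by simp⟩
  add_mem' := by
    intro f g hf hg z hz
    obtain ⟨a, ha⟩ := hf z hz
    obtain ⟨b, hb⟩ := hg z hz
    exact ⟨a + b, fun x hx => by simp [ha x hx, hb x hx]⟩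
  neg_mem' := by
    intro f hf z hz
    obtain ⟨a, ha⟩ := hf z hz
    exact ⟨-a, fun x hx => by simp [ha x hx]⟩

/-- second moment of the weights at `x` -/
noncomputable def mo (c : Vx n → Vx n → ℝ) (x : Vx n) : ℝ := ∑ y, c x y * (ds x y : ℝ) ^ 2

/-- invariant inside level `k` -/
structure Iv (k : ℕ) (b b' : ℝ) (ρ : Vx n → ℕ) (c : Vx n → Vx n → ℝ) : Prop where
  c0 : ∀ x y, 0 ≤ c x y
  mom : ∀ x, mo c x ≤ b ∨ (mo c x ≤ b' ∧ ∀ z, 0 < ρ z → 512 * Jt k ≤ ds x z + ρ z)
  safe : ∀ x y, c x y ≠ 0 → ds x y ≤ 1 ∨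
    (100 * ds x y ≤ ds (vz n) x ∧ ∀ z, 0 < ρ z → 100 * ds x y ≤ ds x z + ρ z)

/-- the pins after a success -/
def del (k : ℕ) (z : Vx n) (ρ : Vx n → ℕ) : Vx n → ℕ := fun z' => if ds z z' ≤ Ra k then 0 else ρ z'

/-- energy of the cutoff seen from `x` -/
noncomputable def en (k : ℕ) (z : Vx n) (c : Vx n → Vx n → ℝ) (x : Vx n) : ℝ :=
  ∑ y, c x y * (chi k z x - chi k z y) ^ 2

/-- the weights after a success -/
noncomputable def cs (k : ℕ) (z : Vx n) (c : Vx n → Vx n → ℝ) (x y : Vx n) : ℝ :=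
  if ds z x ≤ 2 * Jt k then
    (1 + 12 / (ta k : ℝ)) * c x y + if y = z then (1 + (ta k : ℝ) / 12) * en k z c x else 0
  else c x y

variable {k : ℕ} {z : Vx n} {ρ : Vx n → ℕ} {c : Vx n → Vx n → ℝ} {b b' : ℝ}

lemma rz (hT : TCond ρ k z) : ρ z ≤ Ra k := by
  have := hT.2.2.2 z hT.1 (by simp)
  simpa using this

lemma pin (hT : TCond ρ k z) {z' : Vx n} (h : 0 < ρ z') :
    ds z z' + ρ z' ≤ Ra k ∨ (Ra k < ds z z' ∧ 1024 * Jt k + ρ z' < ds z z') := by
  by_cases h1 : ds z z' ≤ It k + ρ z'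
  · exact Or.inl (hT.2.2.2 z' h h1)
  · have := RJ k
    unfold It at h1
    right; omega

lemma Iv.near (h : Iv k b b' ρ c) (hT : TCond ρ k z) {x y : Vx n} (hc : c x y ≠ 0) :
    ds x y ≤ 1 ∨ 100 * ds x y ≤ ds x z + Ra k := by
  rcases h.safe x y hc with h1 | h1
  · exact Or.inl h1
  · have := h1.2 z hT.1
    have := rz hT
    right; omega

lemma Iv.mo_le (h : Iv k b b' ρ c) (hT : TCond ρ k z) {x : Vx n} (hx : ds z x ≤ 2 * Jt k) :
    mo c x ≤ b := by
  rcases h.mom x with h1 | h1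
  · exact h1
  · have := h1.2 z hT.1
    have := rz hT
    have := RJ k
    have := ds_comm x z
    omega

lemma Iv.en0 (h : Iv k b b' ρ c) (x : Vx n) : 0 ≤ en k z c x :=
  sum_nonneg fun y _ => mul_nonneg (h.c0 x y) (sq_nonneg _)

lemma Iv.en_le (h : Iv k b b' ρ c) (hT : TCond ρ k z) (x : Vx n) :
    en k z c x * (ds z x : ℝ) ^ 2 ≤ (24 / (ta k : ℝ)) ^ 2 * mo c x := by
  unfold en mo
  rw [sum_mul, mul_sum]
  refine sum_le_sum fun y _ => ?_
  by_cases hc : c x y = 0
  · simp [hc]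
  · have := mul_le_mul_of_nonneg_left (chi_lip (h.near hT hc)) (h.c0 x y)
    linarith

lemma Iv.en_ne (h : Iv k b b' ρ c) (hT : TCond ρ k z) {x : Vx n} (hx : en k z c x ≠ 0) :
    Ra k < ds z x ∧ ds z x ≤ 2 * Jt k := by
  obtain ⟨y, _, hy⟩ := exists_ne_zero_of_sum_ne_zero hx
  have hc : c x y ≠ 0 := left_ne_zero_of_mul hy
  have hd : chi k z x ≠ chi k z y := fun e => hy (by simp [e])
  have := chi_pair (h.near hT hc) hd
  exact ⟨this.1, this.2.1⟩

lemma Iv.Q_le (h : Iv k b b' ρ c) (hT : TCond ρ k z) (hb : 0 ≤ b) :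
    Qc c (chi k z) ≤ 4032 * b / ta k := by
  have ht : (4000 : ℝ) ≤ ta k := by exact_mod_cast ta_ge k
  have e1 : Qc c (chi k z) =
      ∑ x ∈ univ.filter (fun x => Ra k < ds z x ∧ ds z x ≤ 2 * Jt k), en k z c x := by
    rw [sum_filter_of_ne fun x _ hx => h.en_ne hT hx]
    rfl
  rw [e1]
  calc _ ≤ ∑ x ∈ univ.filter (fun x => Ra k < ds z x ∧ ds z x ≤ 2 * Jt k),
        (24 / (ta k : ℝ)) ^ 2 * b * (1 / (ds z x : ℝ) ^ 2) := by
        refine sum_le_sum fun x hx => ?_
        obtain ⟨h1, h2⟩ := (mem_filter.1 hx).2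
        have h3 : (0 : ℝ) < (ds z x : ℝ) ^ 2 := by
          have : 0 < ds z x := by omega
          positivity
        rw [mul_one_div, le_div_iff₀ h3]
        exact (h.en_le hT x).trans (mul_le_mul_of_nonneg_left (h.mo_le hT h2) (sq_nonneg _))
    _ ≤ (24 / (ta k : ℝ)) ^ 2 * b * (7 * ta k) := by
        rw [← mul_sum]
        exact mul_le_mul_of_nonneg_left (shell k z) (by positivity)
    _ = _ := by field_simp; ring

lemma Iv.fail (h : Iv k b b' ρ c) (hT : TCond ρ k z) :
    Iv k b b' (Function.update ρ z (2 * Jt k)) c := by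
  have key : ∀ (x : Vx n) (a : ℕ), (∀ z', 0 < ρ z' → a ≤ ds x z' + ρ z') →
      ∀ z', 0 < Function.update ρ z (2 * Jt k) z' →
        a ≤ ds x z' + Function.update ρ z (2 * Jt k) z' := by
    intro x a ha z' hz'
    by_cases e : z' = z
    · subst e
      have := ha z' hT.1
      have := rz hT
      have := RJ k
      simp only [Function.update_self]
      omega
    · rw [Function.update_of_ne e] at hz' ⊢
      exact ha z' hz'
  exact ⟨h.c0, fun x => (h.mom x).imp_right fun h1 => ⟨h1.1, key x _ h1.2⟩,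
    fun x y hc => (h.safe x y hc).imp_right fun h1 => ⟨h1.1, key x _ h1.2⟩⟩

lemma del_pin (hT : TCond ρ k z) {z' : Vx n} (h : 0 < del k z ρ z') :
    del k z ρ z' = ρ z' ∧ 0 < ρ z' ∧ 1024 * Jt k + ρ z' < ds z z' := by
  unfold del at h ⊢
  split_ifs at h ⊢ with h1
  · omega
  · have := pin hT h
    omega

lemma Iv.succ (h : Iv k b b' ρ c) (hT : TCond ρ k z) (hb : 0 ≤ b)
    (hb' : b * (1 + 61 / (ta k : ℝ)) ≤ b') : Iv k b b' (del k z ρ) (cs k z c) := by
  have ht : (4000 : ℝ) ≤ ta k := by exact_mod_cast ta_ge k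
  have key : ∀ (x : Vx n) (a : ℕ), (∀ z', 0 < ρ z' → a ≤ ds x z' + ρ z') →
      ∀ z', 0 < del k z ρ z' → a ≤ ds x z' + del k z ρ z' := by
    intro x a ha z' hz'
    obtain ⟨h1, h2, _⟩ := del_pin hT hz'
    rw [h1]; exact ha z' h2
  have far : ∀ x : Vx n, ds z x ≤ 2 * Jt k → ∀ z', 0 < del k z ρ z' → 1022 * Jt k ≤ ds x z' := by
    intro x hx z' hz'
    obtain ⟨_, _, h3⟩ := del_pin hT hz'
    have := ds_tri z x z'
    omega
  refine ⟨fun x y => ?_, fun x => ?_, fun x y hc => ?_⟩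
  · have := h.c0 x y
    have := h.en0 (z := z) x
    unfold cs
    split_ifs <;> positivity
  · by_cases hx : ds z x ≤ 2 * Jt k
    · refine Or.inr ⟨le_trans ?_ hb', fun z' hz' => ?_⟩
      · have e : mo (cs k z c) x = (1 + 12 / (ta k : ℝ)) * mo c x +
            (1 + (ta k : ℝ) / 12) * (en k z c x * (ds z x : ℝ) ^ 2) := by
          simp only [mo, cs, if_pos hx, add_mul, sum_add_distrib, ite_mul, zero_mul,
            sum_ite_eq', mem_univ, if_true, mul_sum, ds_comm x z, mul_assoc]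
        have h1 := h.mo_le hT hx
        have h2 := (h.en_le hT x).trans (mul_le_mul_of_nonneg_left h1 (sq_nonneg _))
        have h3 : (1 + (ta k : ℝ) / 12) * (24 / (ta k : ℝ)) ^ 2 ≤ 49 / ta k := by
          rw [le_div_iff₀ (by linarith)]
          have : (1 + (ta k : ℝ) / 12) * (24 / (ta k : ℝ)) ^ 2 * ta k = 576 / ta k + 48 := by
            field_simp; ring
          rw [this]
          have : 576 / (ta k : ℝ) ≤ 1 := by rw [div_le_one (by linarith)]; linarith
          linarith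
        rw [e]
        calc _ ≤ (1 + 12 / (ta k : ℝ)) * b + (1 + (ta k : ℝ) / 12) * ((24 / (ta k : ℝ)) ^ 2 * b) := by
              gcongr
          _ ≤ (1 + 12 / (ta k : ℝ)) * b + 49 / ta k * b := by
              rw [← mul_assoc]; gcongr
          _ = _ := by ring
      · have := far x hx z' hz'
        omega
    · have e : mo (cs k z c) x = mo c x := by simp only [mo, cs, if_neg hx]
      rw [e]
      exact (h.mom x).imp_right fun h1 => ⟨h1.1, key x _ h1.2⟩
  · by_cases hc' : c x y = 0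
    · unfold cs at hc
      split_ifs at hc with hx hy
      · subst hy
        have h1 := hT.2.1
        have h2 := ds_tri y x (vz n)
        have := ds_comm x y
        have := ds_comm x (vz n)
        unfold It at h1
        refine Or.inr ⟨by omega, fun z' hz' => ?_⟩
        have := far x hx z' hz'
        omega
      · simp [hc'] at hc
      · exact absurd hc' hc
    · exact (h.safe x y hc').imp_right fun h1 => ⟨h1.1, key x _ h1.2⟩

lemma sq_split {a d e : ℝ} (he : 0 < e) : (a + d) ^ 2 ≤ (1 + 12 / e) * a ^ 2 + (1 + e / 12) * d ^ 2 := by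
  have : (1 + 12 / e) * a ^ 2 + (1 + e / 12) * d ^ 2 - (a + d) ^ 2 = (12 * a - e * d) ^ 2 / (12 * e) := by
    field_simp; ring
  have h2 : 0 ≤ (12 * a - e * d) ^ 2 / (12 * e) := by positivity
  linarith

lemma Iv.conv (h : Iv k b b' ρ c) (hT : TCond ρ k z) (f : Vx n → ℝ) :
    Qc c (fun x => f x + chi k z x * (f z - f x)) ≤ Qc (cs k z c) f := by
  have ht : (4000 : ℝ) ≤ ta k := by exact_mod_cast ta_ge k
  refine sum_le_sum fun x _ => ?_
  have id : ∀ y, f x + chi k z x * (f z - f x) - (f y + chi k z y * (f z - f y)) =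
      (1 - chi k z y) * (f x - f y) + (chi k z x - chi k z y) * (f z - f x) := fun y => by ring
  have sm : ∀ y, ((1 - chi k z y) * (f x - f y)) ^ 2 ≤ (f x - f y) ^ 2 := fun y => by
    have := chi_mem k z y
    rw [mul_pow]
    exact mul_le_of_le_one_left (sq_nonneg _) (by nlinarith)
  by_cases hx : ds z x ≤ 2 * Jt k
  · have e : ∑ y, cs k z c x y * (f x - f y) ^ 2 =
        ∑ y, c x y * ((1 + 12 / (ta k : ℝ)) * (f x - f y) ^ 2 +
          (1 + (ta k : ℝ) / 12) * ((chi k z x - chi k z y) * (f z - f x)) ^ 2) := by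
      simp only [cs, if_pos hx, add_mul, sum_add_distrib, ite_mul, zero_mul,
        sum_ite_eq', mem_univ, if_true, mul_add, en, mul_sum, sum_mul]
      congr 1
      · congr 1 <;> exact sum_congr rfl fun y _ => by ring
      · congr 1 <;> exact sum_congr rfl fun y _ => by ring
    rw [e]
    refine sum_le_sum fun y _ => mul_le_mul_of_nonneg_left ?_ (h.c0 x y)
    rw [id]
    refine (sq_split (e := ta k) (by linarith)).trans ?_
    have := sm y
    gcongr
  · refine sum_le_sum fun y _ => ?_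
    rw [cs, if_neg hx]
    by_cases hc : c x y = 0
    · simp [hc]
    · have e : chi k z x = chi k z y := by
        by_contra hne
        exact hx (chi_pair (h.near hT hc) hne).2.1
      refine mul_le_mul_of_nonneg_left ?_ (h.c0 x y)
      rw [id, e, sub_self, zero_mul, add_zero]
      exact sm y

lemma chi_pin (hT : TCond ρ k z) {z' : Vx n} (h : 0 < ρ z') :
    (∀ x, ds z' x ≤ ρ z' → chi k z x = 1) ∨
      (del k z ρ z' = ρ z' ∧ ∀ x, ds z' x ≤ ρ z' → chi k z x = 0) := by
  rcases pin hT h with h1 | h1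
  · refine Or.inl fun x hx => chi_one ?_
    have := ds_tri z z' x
    omega
  · refine Or.inr ⟨if_neg (by omega), fun x hx => chi_zero ?_⟩
    have := ds_tri z x z'
    have := ds_comm x z'
    omega

/-- one slot through the removal case of the ring lemma -/
theorem step (hR : RingStmt) (h : Iv k b b' ρ c) (hT : TCond ρ k z) {lam q p d1 d0 : ℝ}
    (hb : 0 ≤ b) (hq : 4032 * b / ta k ≤ q) (q0 : 0 < q) (q1 : q ≤ 1)
    (hp : 8 * Real.exp (-(10 / q)) ≤ p) (p1 : p ≤ 1)
    (h1 : Mul lam (Gm (LamP (del k z ρ)) (cs k z c)) d1)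
    (h0 : Mul lam (Gm (LamP (Function.update ρ z (2 * Jt k))) c) d0)
    (hc : ∀ x y, 0 ≤ cs k z c x y) :
    Mul lam (Gm (LamP ρ) c) ((1 - p) * d1 + p * d0) := by
  have e9 : c9 (fun w : Empty => (w.elim : Finset (Vx n))) c = c := by
    funext x y
    simp [c9, Tch]
  have hJ := RJ k
  have ring : Ring (grp ρ) c Empty Unit (chi k z) (fun w => w.elim) () (fun w => w.elim)
      (fun w => w.elim) 1 q := by
    refine ⟨h.c0, le_rfl, fun w => w.elim, fun w => w.elim, fun w => w.elim, fun w => w.elim, ?_,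
      fun w => w.elim, ?_, q0, q1⟩
    · intro z' hz'
      rcases chi_pin hT hz' with h2 | h2
      · exact ⟨1, fun x hx => by simp [h2 x hx]⟩
      · exact ⟨0, fun x hx => by simp [h2.2 x hx]⟩
    · rw [e9]
      simpa using (h.Q_le hT hb).trans hq
  refine (hR n lam (grp ρ) c Empty Unit _ _ _ _ _ 1 q p ring p1).2 _ _ (cs k z c)
    (fun w => w.elim) z d1 d0 (chi_zero ?_) (chi_zero ?_) hc (by simpa using hp)
    (fun f hf => ⟨?_, fun w => w.elim⟩) (fun f _ => ?_) (fun f hf => ⟨?_, ?_⟩) h1 h0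
  · have := hT.2.1
    unfold It at this; omega
  · have := hT.2.2.1
    unfold It at this; omega
  · intro z' hz'
    rcases chi_pin hT hz' with h2 | h2
    · exact ⟨0, fun x hx => by simp [h2 x hx]⟩
    · obtain ⟨a, ha⟩ := hf z' (h2.1 ▸ hz')
      exact ⟨a, fun x hx => by simp [h2.2 x hx, ha x (h2.1 ▸ hx)]⟩
  · rw [e9]
    simpa using h.conv hT f
  · intro z' hz'
    by_cases e : z' = z
    · subst e
      obtain ⟨a, ha⟩ := hf z' (by simp only [Function.update_self]; omega)
      have := rz hT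
      exact ⟨a, fun x hx => ha x (by simp only [Function.update_self]; omega)⟩
    · have := hf z' (by rwa [Function.update_of_ne e])
      rwa [Function.update_of_ne e] at this
  · intro x y hxy hd
    have hd' : chi k z x ≠ chi k z y := hd.resolve_right (by simp [Tch])
    obtain ⟨_, h3, h4⟩ := chi_pair (h.near hT hxy) hd'
    obtain ⟨a, ha⟩ := hf z (by simp only [Function.update_self]; omega)
    simp only [Function.update_self] at ha
    rw [ha x h3, ha y h4]

end Pool.Agent.Lib.MP_9cc147_pr.AllU.T
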